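import Pool.Agent.TKS.Sev

/-!
Star transversals of sets of potential zero, drops by four.
-/

open Finset

namespace Pool.Agent.TwoDens.TS

open Pool.Agent.TwoDens Pool.Agent.TwoDens.RK Pool.Agent.TwoDens.DD

variable {V : Type*} [DecidableEq V] {G : SimpleGraph V} [DecidableRel G.Adj]

section
variable {k : ℕ} {X : Finset V} (H : MC G k X) {Y : Finset V} (hY : Y ⊆ X) (hne : Y ≠ X)
include H hY hne

/-- a star transversal in a set of potential `0`: only the centre and one of its non-neighbours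
may have excess -/
theorem MC.fn_star (hp : ps G k Y ≤ 1) {T : Finset V} {r : V} (hS : StarT G k Y T r) {l : V}
    (hl : l ∈ nb Gᶜ T r) : ∀ w ∈ T, w ≠ r → w ≠ l → (nb G Y w).card + 1 = k := by
  have hk := H.hk
  have hp0 : ps G k Y = 0 := by
    obtain ⟨m, hm⟩ := ps_even (G := G) k Y
    have := H.hmin Y hY hne
    omega
  have hlT := (mem_nb.1 hl).1
  have hlc := (SimpleGraph.compl_adj _ _ _).1 (mem_nb.1 hl).2
  have hlr : l ≠ r := Ne.symm hlc.1
  have hlE : l ∈ T.erase r := mem_erase.2 ⟨hlr, hlT⟩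
  have hYT : Y \ T ⊆ X := Finset.sdiff_subset.trans hY
  have hYTne : Y \ T ≠ X := by
    intro h
    exact hne (Finset.Subset.antisymm hY (h ▸ Finset.sdiff_subset))
  have hsX : ({r, l} : Finset V) ⊆ Y := by
    intro z hz
    rw [mem_insert, mem_singleton] at hz
    rcases hz with rfl | rfl
    · exact hS.hT hS.hr
    · exact hS.hT hlT
  have hsT : ({r, l} : Finset V) ⊆ T := by
    intro z hz
    rw [mem_insert, mem_singleton] at hz
    rcases hz with rfl | rfl
    · exact hS.hr
    · exact hlT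
  have htr : Tr G (Y \ T) ((nb G Y r \ T) ∪ (nb G Y l \ T)) := by
    refine tr_nbr (X := Y) (J := {r, l}) Finset.sdiff_subset hsX ?_ (indep_pair hlc.2) ?_ ?_
    · rw [Finset.disjoint_left]
      intro z hz hz'
      exact (mem_sdiff.1 hz').2 (hsT hz)
    · rw [Finset.card_pair (Ne.symm hlr)]
      have := hS.alT
      omega
    · intro z hz w hw hzw
      rw [mem_insert, mem_singleton] at hz
      rw [mem_sdiff] at hw
      rw [mem_union, mem_sdiff, mem_sdiff, mem_nb, mem_nb]
      rcases hz with rfl | rfl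
      · exact Or.inl ⟨⟨hw.1, hzw⟩, hw.2⟩
      · exact Or.inr ⟨⟨hw.1, hzw⟩, hw.2⟩
  have hsub : (nb G Y r \ T) ∪ (nb G Y l \ T) ⊆ Y \ T :=
    Finset.union_subset (Finset.sdiff_subset_sdiff (nb_sub _ _) (Finset.Subset.refl _))
      (Finset.sdiff_subset_sdiff (nb_sub _ _) (Finset.Subset.refl _))
  have hcu := Finset.card_union_le (nb G Y r \ T) (nb G Y l \ T)
  have hds := deg_split (G := G) hS.hT hlT
  have hl1 : (nb Gᶜ T l).card ≤ 1 := by
    rw [Finset.card_le_one]
    have : ∀ w ∈ nb Gᶜ T l, w = r := by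
      intro w hw
      have h3 := mem_nb.1 hw
      have h4 := (SimpleGraph.compl_adj _ _ _).1 h3.2
      by_contra hwr
      exact h4.2 (hS.clq l hlE w (mem_erase.2 ⟨hwr, h3.1⟩) h4.1)
    intro w hw z hz
    rw [this w hw, this z hz]
  have hc := hS.hc
  have hpsT := hS.psT
  rw [hp0] at hpsT
  have he1 := exs_erase (G := G) (k := k - 1) (X := Y) (S := T.erase r) (u := l) hlE
  have hps0 : 0 ≤ ps G k (Y \ T) := H.hmin _ hYT hYTne
  have hex : exs G (k - 1) Y ((T.erase r).erase l) = 0 := by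
    obtain ⟨m, hm⟩ := ps_even (G := G) k (Y \ T)
    rcases Int.lt_or_le 0 (ps G k (Y \ T)) with h0 | h0
    · have h1 := H.tau1 hYT hYTne (by
        have h2 := Int.natCast_nonneg (nb G Y r \ T).card
        have h3 := Int.natCast_nonneg (exs G (k - 1) Y (T.erase r))
        linarith) _ hsub htr
      have h2 : ((nb G Y r \ T).card : ℤ) + exs G (k - 1) Y (T.erase r) + 2 ≤ k := by
        linarith [(by omega : 2 ≤ ps G k (Y \ T))]
      have h3 : (nb G Y r \ T).card + exs G (k - 1) Y (T.erase r) + 2 ≤ k := by exact_mod_cast h2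
      omega
    · have h1 := H.tau0 hYT hYTne (by linarith) _ hsub htr
      have h2 : ((nb G Y r \ T).card : ℤ) + exs G (k - 1) Y (T.erase r) + 1 = k := by
        have : ps G k (Y \ T) = 0 := le_antisymm h0 hps0
        linarith
      have h3 : (nb G Y r \ T).card + exs G (k - 1) Y (T.erase r) + 1 = k := by exact_mod_cast h2
      omega
  intro w hw hwr hwl
  have h1 := (H.tau0 hY hne hp).deg (hS.hT hw)
  unfold exs at hex
  rw [Finset.sum_eq_zero_iff] at hex
  have h2 := hex w (mem_erase.2 ⟨hwl, mem_erase.2 ⟨hwr, hw⟩⟩)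
  omega

omit hY hne in
/-- a drop by `4` needs at least `3 k + 5` vertices for `k ≥ 5` -/
theorem MC.closed4 (h5 : 5 ≤ k) {S : Finset V} (hS : S ⊆ X) (hj : al G (X \ S) + 4 ≤ al G X) :
    3 * k + 5 ≤ S.card := by
  have hn : S.Nonempty := by
    rw [Finset.nonempty_iff_ne_empty]
    rintro rfl
    rw [Finset.sdiff_empty] at hj
    omega
  have h1 := H.exbd hS hn (j := 4) hj
  have hk' : (5 : ℤ) ≤ k := by exact_mod_cast h5
  by_contra hcon
  push Not at hcon
  have h2 : (S.card : ℤ) ≤ 3 * k + 4 := by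
    have : (S.card : ℤ) + 1 ≤ 3 * k + 5 := by exact_mod_cast hcon
    linarith
  have h5 : (0 : ℤ) ≤ exs G k X S := Int.natCast_nonneg _
  have h6 : (0 : ℤ) ≤ bd G X S := Int.natCast_nonneg _
  push_cast at h1
  nlinarith


omit hY hne in
/-- a drop by `4` needs at least `16` vertices for `k = 4` -/
theorem MC.closed44 (h4 : k = 4) {S : Finset V} (hS : S ⊆ X) (hj : al G (X \ S) + 4 ≤ al G X) :
    16 ≤ S.card := by
  have hn : S.Nonempty := by
    rw [Finset.nonempty_iff_ne_empty]
    rintro rfl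
    rw [Finset.sdiff_empty] at hj
    omega
  have h1 := H.exbd hS hn (j := 4) hj
  subst h4
  have h5 : (0 : ℤ) ≤ exs G 4 X S := Int.natCast_nonneg _
  have h6 : (0 : ℤ) ≤ bd G X S := Int.natCast_nonneg _
  push_cast at h1
  have h7 : (16 : ℤ) ≤ S.card := by omega
  exact_mod_cast h7

theorem MC.star4 (hk4 : k = 4) (hp : ps G k Y ≤ 1) {T : Finset V} (hT : T ⊆ Y)
    (hc : T.card = k) (htr : Tr G Y T) {x : V} (hxT : x ∈ T)
    (hdom : ∀ v ∈ T, v ≠ x → G.Adj x v) : ∃ r, StarT G k Y T r := by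
  have ht := H.tau0 hY hne hp
  have hk := H.hk
  have hk' : (4 : ℤ) ≤ k := by exact_mod_cast hk
  have hdeg : ∀ v ∈ Y, k - 1 ≤ (nb G Y v).card := fun v hv => by
    have := ht.deg hv
    omega
  have hTX := hT.trans hY
  have hncl : ¬ Clq G T := by
    intro h
    have := H.clq_lt hTX h
    omega
  have halT : al G (Y \ T) + 1 = al G Y := by
    unfold Tr at htr
    by_contra hcon
    have h1 := H.drop hY hne hT (j := 2) (by omega)
    rw [hc] at h1
    push_cast at h1
    nlinarith
  have hpsd := ps_sdiff (G := G) k hT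
  have hsum := sum_ge (G := G) (Y := Y) (S := T) (k - 1) (fun v hv => hdeg v (hT hv))
  have hcomp := e2_add_compl (G := G) T
  obtain ⟨h, hh⟩ := e2_even (G := Gᶜ) T
  rw [hh] at hcomp
  rw [hc] at hpsd hsum hcomp
  have h0 : 0 ≤ ps G k (Y \ T) := H.hmin _ (Finset.sdiff_subset.trans hY) (by
    intro h
    exact hne (Finset.Subset.antisymm hY (h ▸ Finset.sdiff_subset)))
  obtain ⟨D, hD⟩ : ∃ D : ℕ, ∑ v ∈ T, (nb G Y v).card = D := ⟨_, rfl⟩
  rw [hD] at hpsd hsum
  obtain ⟨E, hE⟩ : ∃ E : ℕ, exs G (k - 1) Y T = E := ⟨_, rfl⟩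
  rw [hE] at hsum
  obtain ⟨m, rfl⟩ : ∃ m, k = m + 1 := ⟨k - 1, by omega⟩
  rw [Nat.add_sub_cancel] at hsum hE
  replace hdeg : ∀ v ∈ Y, m ≤ (nb G Y v).card := hdeg
  have g1 : (D : ℤ) = m * (m + 1) + E := by exact_mod_cast hsum
  have g2 : (e2 G T : ℤ) + 2 * h + (m + 1) = (m + 1) * (m + 1) := by exact_mod_cast hcomp
  have g3 : (al G Y : ℤ) - al G (Y \ T) = 1 := by
    have : (al G (Y \ T) : ℤ) + 1 = al G Y := by exact_mod_cast halT
    linarith
  rw [g3] at hpsd
  push_cast at hpsd
  have psE : ps G (m + 1) (Y \ T) + 2 * ((E : ℤ) + h) = ps G (m + 1) Y + 2 * (m + 1) - 2 := by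
    nlinarith
  have hEh : E + h ≤ m + 2 := by
    have : (E : ℤ) + h ≤ m + 2 := by linarith
    exact_mod_cast this
  -- numbers of neighbours outside
  have hout : ∀ t ∈ T, (nb G Y t).card + (nb Gᶜ T t).card = m + (nb G Y t \ T).card := by
    intro t ht'
    have := deg_split (G := G) hT ht'
    omega
  have hpair : ∀ p ∈ T, ∀ q ∈ T, p ≠ q → ¬ G.Adj p q →
      m ≤ (nb G Y p \ T).card + (nb G Y q \ T).card := by
    intro p hp' q hq' hpq hn
    have h6 := H.bigY hY hne (δ := m) hdeg (by omega) (B := T) (J := {p, q}) hT (by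
      intro z hz
      rw [mem_insert, mem_singleton] at hz
      rcases hz with rfl | rfl
      · exact hp'
      · exact hq') (indep_pair hn)
    rw [Finset.card_pair hpq, sum_pair' hpq, hc] at h6
    by_contra hcon
    push Not at hcon
    have h7 : ((nb G Y p \ T).card : ℤ) + (nb G Y q \ T).card ≤ m - 1 := by
      have : ((nb G Y p \ T).card : ℤ) + (nb G Y q \ T).card + 1 ≤ m := by exact_mod_cast hcon
      linarith
    push_cast at h6
    have h8 : (0 : ℤ) ≤ 3 * m + 1 := by positivity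
    nlinarith [mul_le_mul_of_nonneg_left h7 h8]
  have hexle : ∀ S ⊆ T, ∑ v ∈ S, (nb G Y v).card ≤ m * S.card + E := by
    intro S hS
    have h9 := sum_ge (G := G) (Y := Y) (S := S) m (fun v hv => hdeg v (hT (hS hv)))
    have h10 : exs G m Y S ≤ E := by
      rw [← hE]
      exact Finset.sum_le_sum_of_subset hS
    omega
  have hmisle : ∀ S ⊆ T, 2 * ∑ v ∈ S, (nb Gᶜ T v).card ≤ 2 * h + e2 Gᶜ S := by
    intro S hS
    have h9 := e2_sdiff (G := Gᶜ) hS
    omega
  have h4 : ∀ p ∈ T, ∀ q ∈ T, ∀ r ∈ T, ∀ s ∈ T, p ≠ q → p ≠ r → p ≠ s → q ≠ r → q ≠ s → r ≠ s →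
      ¬ G.Adj p q → ¬ G.Adj r s → False := by
    intro p hp' q hq' r hr' s hs' h1 h2 h3 h4 h5 h6 n1 n2
    have hS : ({p, q, r, s} : Finset V) ⊆ T := by
      intro z hz
      rw [mem_insert, mem_insert, mem_insert, mem_singleton] at hz
      rcases hz with rfl | rfl | rfl | rfl
      · exact hp'
      · exact hq'
      · exact hr'
      · exact hs'
    have hc4 : ({p, q, r, s} : Finset V).card = 4 := by
      rw [Finset.card_insert_of_notMem (by simp [h1, h2, h3]),
        Finset.card_insert_of_notMem (by simp [h4, h5]), Finset.card_pair h6]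
    have hTe := Finset.eq_of_subset_of_card_le hS (by omega)
    have hxS := hxT
    rw [← hTe, mem_insert, mem_insert, mem_insert, mem_singleton] at hxS
    rcases hxS with e | e | e | e
    · rw [← e] at n1 h1
      exact n1 (hdom q hq' (Ne.symm h1))
    · rw [← e] at n1 h1
      exact n1 (hdom p hp' h1).symm
    · rw [← e] at n2 h6
      exact n2 (hdom s hs' (Ne.symm h6))
    · rw [← e] at n2 h6
      exact n2 (hdom r hr' h6).symm
  have h3 : ∀ p ∈ T, ∀ q ∈ T, ∀ r ∈ T, p ≠ q → p ≠ r → q ≠ r →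
      ¬ G.Adj p q → ¬ G.Adj p r → ¬ G.Adj q r → False := by
    intro p hp' q hq' r hr' h1 h2 h4 n1 n2 n3
    have hS : ({p, q, r} : Finset V) ⊆ T := by
      intro z hz
      rw [mem_insert, mem_insert, mem_singleton] at hz
      rcases hz with rfl | rfl | rfl
      · exact hp'
      · exact hq'
      · exact hr'
    have hsum3 : ∀ f : V → ℕ, ∑ x ∈ ({p, q, r} : Finset V), f x = f p + (f q + f r) := by
      intro f
      rw [Finset.sum_insert (by simp [h1, h2]), Finset.sum_insert (by simp [h4]),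
        Finset.sum_singleton]
    have hc3 : ({p, q, r} : Finset V).card = 3 := by
      rw [Finset.card_eq_sum_ones, hsum3]
    have a1 := hexle _ hS
    have a2 := hmisle _ hS
    rw [hsum3, hc3] at a1
    rw [hsum3] at a2
    have a3 := e2_add_compl (G := G) ({p, q, r} : Finset V)
    rw [hc3] at a3
    have b1 := hout p hp'
    have b2 := hout q hq'
    have b3 := hout r hr'
    have h6 := H.bigY hY hne (δ := m) hdeg (by omega) (B := T) (J := {p, q, r}) hT hS
      (indep_triple n1 n2 n3)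
    rw [hc3, hsum3, hc] at h6
    obtain ⟨z, hz⟩ : ∃ z : ℤ, ps G (m + 1) Y = z := ⟨_, rfl⟩
    rw [hz] at h6 hp psE
    have hm3 : m = 3 := by omega
    subst hm3
    have hEh3 : E + h ≤ 3 := by
      have : (E : ℤ) + h ≤ 3 := by
        push_cast at psE
        linarith
      exact_mod_cast this
    push_cast at h6
    omega
  obtain ⟨r, hr, hcl⟩ := exists_center hncl h4 h3
  have hTr : insert r (T.erase r) = T := Finset.insert_erase hr
  have hmiss : h = (nb Gᶜ T r).card := by
    have a1 := e2_sdiff (G := Gᶜ) (X := T) (R := {r}) (by simpa using hr)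
    rw [e2_singleton, Finset.sum_singleton, Finset.sdiff_singleton_eq_erase, clq_e2c hcl, hh] at a1
    omega
  refine ⟨r, hT, hc, hr, hcl, ?_, halT, ?_, ?_⟩
  · by_contra hcon
    apply hncl
    have : h = 0 := by omega
    rw [this] at hh
    exact clq_of_e2 (by omega)
  · have a1 : E = exs G m Y (T.erase r) + ((nb G Y r).card - m) := by
      rw [← hE]
      unfold exs
      rw [add_comm]
      exact (Finset.add_sum_erase _ _ hr).symm
    have a2 := hout r hr
    have a3 := hdeg r (hT hr)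
    have a4 : E + h = (nb G Y r \ T).card + exs G m Y (T.erase r) := by omega
    have a5 : (E : ℤ) + h = ((nb G Y r \ T).card : ℤ) + exs G m Y (T.erase r) := by
      exact_mod_cast a4
    rw [Nat.add_sub_cancel, ← a5]
    push_cast
    linarith
  · intro l hl
    have hlT := (mem_nb.1 hl).1
    obtain ⟨h5, h6⟩ := (SimpleGraph.compl_adj _ _ _).1 (mem_nb.1 hl).2
    have a1 := hpair r hr l hlT h5 h6
    have a2 := hout l hlT
    have a3 : (nb Gᶜ T l).card ≤ 1 := by
      rw [Finset.card_le_one]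
      have : ∀ u ∈ nb Gᶜ T l, u = r := by
        intro u hu
        by_contra hur
        obtain ⟨h7, h8⟩ := (SimpleGraph.compl_adj _ _ _).1 (mem_nb.1 hu).2
        exact h8 (hcl l (mem_erase.2 ⟨Ne.symm h5, hlT⟩) u (mem_erase.2 ⟨hur, (mem_nb.1 hu).1⟩) h7)
      intro u hu w hw
      rw [this u hu, this w hw]
    omega

end

end Pool.Agent.TwoDens.TS
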