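import Pool.Agent.TKS.TD
import Pool.Agent.TKS.FM

/-!
The case without low vertices, for all `k ≥ 5`.
-/

open Finset

namespace Pool.Agent.TwoDens.TS

open Pool.Agent.TwoDens Pool.Agent.TwoDens.RK Pool.Agent.TwoDens.DD

variable {V : Type*} [DecidableEq V] {G : SimpleGraph V} [DecidableRel G.Adj]

/-- two disjoint pairs without edges between them -/
structure Two (G : SimpleGraph V) [DecidableRel G.Adj] (k : ℕ) (X P : Finset V)
    (x x' y y' : V) : Prop where
  B : ∃ c, Base G k X P c x x'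
  Bu : ∃ u, Base G k X P u y y'
  ps1 : ps G k (hb X P x x') = 0
  ps2 : ps G k (hb X P y y') = 0
  cx : (nb G (X \ P) x).card + 1 = k
  cx' : (nb G (X \ P) x').card + 1 = k
  cy : (nb G (X \ P) y).card + 1 = k
  cy' : (nb G (X \ P) y').card + 1 = k
  hxx : ¬ G.Adj x x'
  hyy : ¬ G.Adj y y'
  n1 : ¬ G.Adj x y
  n2 : ¬ G.Adj x y'
  n3 : ¬ G.Adj x' y
  n4 : ¬ G.Adj x' y'
  d1 : x ≠ y
  d2 : x ≠ y'
  d3 : x' ≠ y
  d4 : x' ≠ y'

namespace Two
variable {k : ℕ} {X P : Finset V} {x x' y y' : V}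

theorem swap (T : Two G k X P x x' y y') : Two G k X P y y' x x' where
  B := T.Bu
  Bu := T.B
  ps1 := T.ps2
  ps2 := T.ps1
  cx := T.cy
  cx' := T.cy'
  cy := T.cx
  cy' := T.cx'
  hxx := T.hyy
  hyy := T.hxx
  n1 := fun h => T.n1 h.symm
  n2 := fun h => T.n3 h.symm
  n3 := fun h => T.n2 h.symm
  n4 := fun h => T.n4 h.symm
  d1 := Ne.symm T.d1
  d2 := Ne.symm T.d3
  d3 := Ne.symm T.d2
  d4 := Ne.symm T.d4

theorem left (T : Two G k X P x x' y y') : Two G k X P x' x y y' where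
  B := by
    obtain ⟨c, h⟩ := T.B
    exact ⟨c, h.symm⟩
  Bu := T.Bu
  ps1 := by rw [hb_comm]; exact T.ps1
  ps2 := T.ps2
  cx := T.cx'
  cx' := T.cx
  cy := T.cy
  cy' := T.cy'
  hxx := fun h => T.hxx h.symm
  hyy := T.hyy
  n1 := T.n3
  n2 := T.n4
  n3 := T.n1
  n4 := T.n2
  d1 := T.d3
  d2 := T.d4
  d3 := T.d1
  d4 := T.d2

theorem right (T : Two G k X P x x' y y') : Two G k X P x x' y' y :=
  T.swap.left.swap

end Two

namespace Fn
variable {k : ℕ} {X P : Finset V} (F : Fn G k X P)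
include F

/-- values for a base without low vertices -/
theorem highval {c x x' : V} (B : Base G k X P c x x')
    (h1 : k ≤ (nb G (hb X P x x') x).card + 1) (h2 : k ≤ (nb G (hb X P x x') x').card + 1) :
    (nb G (hb X P x x') x).card + 1 = k ∧ (nb G (hb X P x x') x').card + 1 = k ∧
    ¬ G.Adj x x' ∧ ps G k (hb X P x x') = 0 ∧ exs G k X P = 0 := by
  have h3 := (F.bp _ _ _ B).bstar
  have h4 := (F.bp _ _ _ B).ps0
  have h5 := F.mc.ps_le
  have h1' : (k : ℤ) ≤ (nb G (hb X P x x') x).card + 1 := by exact_mod_cast h1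
  have h2' : (k : ℤ) ≤ (nb G (hb X P x x') x').card + 1 := by exact_mod_cast h2
  have h6 := Int.natCast_nonneg (exs G k X P)
  by_cases hxx : G.Adj x x'
  · rw [if_pos hxx] at h3
    linarith
  · rw [if_neg hxx] at h3
    have r1 : ((nb G (hb X P x x') x).card : ℤ) + 1 = k := by linarith
    have r2 : ((nb G (hb X P x x') x').card : ℤ) + 1 = k := by linarith
    have r3 : (exs G k X P : ℤ) = 0 := by linarith
    exact ⟨by exact_mod_cast r1, by exact_mod_cast r2, hxx, by linarith, by exact_mod_cast r3⟩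

/-- the star around a vertex `x` seen from another base -/
theorem rs {x x' y y' : V} (T : Two G k X P x x' y y') :
    ∃ r ∈ nb G (X \ P) x, StarT G k (hb X P y y') (insert x (nb G (X \ P) x)) r := by
  have hk := F.mc.hk
  obtain ⟨c, B⟩ := T.B
  obtain ⟨u, Bu⟩ := T.Bu
  have hxX := mem_sdiff.1 B.hx
  have hbp := F.bp _ _ _ Bu
  have hN2 : nb G (X \ P) x = nb G (hb X P y y') x := by
    ext v
    rw [mem_nb, mem_nb, mem_hb, mem_sdiff]
    constructor
    · rintro ⟨⟨h1, h2⟩, h3⟩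
      exact ⟨⟨h1, h2, fun e => T.n1 (e ▸ h3), fun e => T.n2 (e ▸ h3)⟩, h3⟩
    · rintro ⟨⟨h1, h2, _, _⟩, h3⟩
      exact ⟨⟨h1, h2⟩, h3⟩
  obtain ⟨N, hN⟩ : ∃ N, N = nb G (X \ P) x := ⟨_, rfl⟩
  obtain ⟨H, hH⟩ : ∃ H, H = hb X P y y' := ⟨_, rfl⟩
  have hHX : H ⊆ X := by rw [hH]; exact hb_sub
  have hHne : H ≠ X := by rw [hH]; exact Bu.hbne
  have hps := T.ps2
  have hps4 := hbp.ps4
  have htau := hbp.tau
  rw [← hH] at hps hps4 htau hN2
  rw [← hN] at hN2
  rw [← hN, ← hH]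
  have hNc : N.card + 1 = k := by rw [hN]; exact T.cx
  have hxH : x ∈ H := by
    rw [hH]
    exact mem_hb.2 ⟨hxX.1, hxX.2, T.d1, T.d2⟩
  have hxN : x ∉ N := by rw [hN]; exact self_notMem
  have hcl : cl G H x = insert x N := by
    unfold cl
    rw [← hN2]
  have htr := tr_cl (G := G) hxH
  have hsub := cl_sub (G := G) hxH
  rw [hcl] at htr hsub
  have hxa : ∀ w ∈ N, G.Adj x w := by
    intro w hw
    rw [hN] at hw
    exact (mem_nb.1 hw).2
  have hcT : (insert x N).card = k := by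
    rw [Finset.card_insert_of_notMem hxN]
    exact hNc
  obtain ⟨r, hS⟩ : ∃ r, StarT G k H (insert x N) r := by
    exact F.mc.star8g hHX hHne hps4 htau hsub hcT htr (Or.inl (by rw [hps]; norm_num))
  refine ⟨r, ?_, hS⟩
  have h1 := hS.hr
  rw [mem_insert] at h1
  rcases h1 with h1 | h1
  · exfalso
    have h2 := hS.clq
    rw [h1, Finset.erase_insert hxN] at h2
    have h3 : Clq G (insert x N) := by
      intro p hp q hq hpq
      rw [mem_insert] at hp hq
      rcases hp with rfl | hp <;> rcases hq with rfl | hq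
      · exact absurd rfl hpq
      · exact hxa q hq
      · exact (hxa p hp).symm
      · exact h2 p hp q hq hpq
    have h4 := F.mc.clq_lt (hsub.trans hHX) h3
    rw [hcT] at h4
    omega
  · exact h1

/-- neighbours of `x` of degree `k - 1` are adjacent to `y` or `y'` -/
theorem good (h5 : 5 ≤ k) {x x' y y' : V} (T : Two G k X P x x' y y') (hex : exs G k X P = 0) {w : V}
    (hwN : w ∈ nb G (X \ P) x) (hwd : (nb G (hb X P y y') w).card + 1 = k) :
    G.Adj w y ∨ G.Adj w y' := by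
  obtain ⟨c, B⟩ := T.B
  obtain ⟨u, Bu⟩ := T.Bu
  have hxx := T.hxx
  have hwH' := mem_sdiff.1 (mem_nb.1 hwN).1
  have h1 := F.deg_ge hwH'.1
  have hf : nb G (hb X P x x') x = nb G (X \ P) x := by
    ext v
    rw [mem_nb, mem_nb, mem_hb, mem_sdiff]
    constructor
    · rintro ⟨⟨h1, h2, _, _⟩, h3⟩
      exact ⟨⟨h1, h2⟩, h3⟩
    · rintro ⟨⟨h1, h2⟩, h3⟩
      exact ⟨⟨h1, h2, fun e => G.loopless.irrefl x (e ▸ h3), fun e => hxx (e ▸ h3)⟩, h3⟩
  have hf' := T.cx
  rw [← hf] at hf'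
  by_contra hcon
  push Not at hcon
  have h2 : nb G X w ⊆ nb G (hb X P y y') w := by
    intro v hv
    have hv' := mem_nb.1 hv
    refine mem_nb.2 ⟨mem_hb.2 ⟨hv'.1, ?_, ?_, ?_⟩, hv'.2⟩
    · -- no neighbour in `P`
      intro hvP
      have hdv : (nb G X v).card = k := by
        have h3 := F.deg_ge (F.hP hvP)
        have h4 := exs_erase (G := G) (k := k) (X := X) hvP
        omega
      have hwv : G.Adj v w := hv'.2.symm
      have hwQ : w ∈ X \ P := (mem_nb.1 hwN).1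
      -- `w` is adjacent to `x`
      have hxw := (mem_nb.1 hwN).2
      have hwx : w ≠ x := fun e => G.loopless.irrefl x (e ▸ hxw)
      have hwx' : w ≠ x' := fun e => hxx (e ▸ hxw)
      by_cases hvx : G.Adj v x
      · have hvx' := (F.iff5 h5 B hvP hdv).1 hvx
        have hb2 := base_mk2 F.hP F.hPc F.hPq hvP hdv B.hx B.hx' B.hne hvx hvx'
        exact hb2.na hwQ hwx hwx' hwv
      · -- the base of `v` is different from `x, x'`
        have hvx' : ¬ G.Adj v x' := fun e => hvx ((F.iff5 h5 B hvP hdv).2 e)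
        have h3 : ¬ G.Adj x x' := hxx
        have h4 : ¬ G.Adj x v := fun e => hvx e.symm
        have h5 : ¬ G.Adj x' v := fun e => hvx' e.symm
        refine F.lemG B h3 hvP h4 h5 ?_
        -- `w` is counted twice
        have hcv := F.nbH B hvP
        rw [hdv, ad_zero hvx, ad_zero hvx'] at hcv
        have hwv1 : w ∈ nb G (hb X P x x') v :=
          mem_nb.2 ⟨mem_hb.2 ⟨hwH'.1, hwH'.2, hwx, hwx'⟩, hwv⟩
        have hwv2 : w ∈ nb G (hb X P x x') x :=
          mem_nb.2 ⟨mem_hb.2 ⟨hwH'.1, hwH'.2, hwx, hwx'⟩, hxw⟩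
        have h6 := Finset.card_union_add_card_inter (nb G (hb X P x x') x)
          (nb G (hb X P x x') v)
        have h7 : 1 ≤ (nb G (hb X P x x') x ∩ nb G (hb X P x x') v).card :=
          Finset.card_pos.2 ⟨w, mem_inter.2 ⟨hwv2, hwv1⟩⟩
        omega
    · exact fun e => hcon.1 (e ▸ hv'.2)
    · exact fun e => hcon.2 (e ▸ hv'.2)
  have h3 := Finset.card_le_card h2
  omega

omit F in
/-- the whole neighbourhood of a vertex of degree `k - 1` of the star -/
theorem nbw {H T : Finset V} {r w : V} (hS : StarT G k H T r) (hw : w ∈ T)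
    (hwr : w ≠ r) (hwa : G.Adj w r) (hd : (nb G H w).card + 1 = k) : nb G H w = T.erase w := by
  have h2 : T.erase w ⊆ nb G H w := by
    intro v hv
    rw [mem_erase] at hv
    refine mem_nb.2 ⟨hS.hT hv.2, ?_⟩
    by_cases hvr : v = r
    · rw [hvr]
      exact hwa
    · exact hS.clq w (mem_erase.2 ⟨hwr, hw⟩) v (mem_erase.2 ⟨hvr, hv.2⟩) (Ne.symm hv.1)
  refine (Finset.eq_of_subset_of_card_le h2 ?_).symm
  have h3 := Finset.card_erase_add_one hw
  have h4 := hS.hc
  omega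

/-- the structure around a vertex `x` seen from another base -/
theorem rx (h5 : 5 ≤ k) {x x' y y' : V} (T : Two G k X P x x' y y') (hex : exs G k X P = 0) :
    ∃ r ∈ nb G (X \ P) x, ∃ l ∈ nb G (X \ P) x,
      (∀ w ∈ nb G (X \ P) x, w ≠ r → w ≠ l → G.Adj w y ∨ G.Adj w y') ∧
      ((G.Adj l y ∨ G.Adj l y') ∨ ∀ w ∈ nb G (X \ P) x, w ≠ r → w ≠ l →
        nb G (hb X P y y') w = (insert x (nb G (X \ P) x)).erase w) := by
  obtain ⟨r, hrN, hS⟩ := F.rs T
  obtain ⟨u, Bu⟩ := T.Bu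
  obtain ⟨N, hN⟩ : ∃ N, N = nb G (X \ P) x := ⟨_, rfl⟩
  rw [← hN] at hrN hS
  rw [← hN]
  have hxa : ∀ w ∈ N, G.Adj x w := by
    intro w hw
    rw [hN] at hw
    exact (mem_nb.1 hw).2
  obtain ⟨l, hl⟩ := Finset.card_pos.1 hS.miss
  have hlT := (mem_nb.1 hl).1
  have hlr : l ≠ r := fun h => ((SimpleGraph.compl_adj _ _ _).1 (mem_nb.1 hl).2).1 h.symm
  have hlN : l ∈ N := by
    rw [mem_insert] at hlT
    rcases hlT with h | h
    · exfalso
      rw [h] at hl
      exact ((SimpleGraph.compl_adj _ _ _).1 (mem_nb.1 hl).2).2 (hxa r hrN).symm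
    · exact h
  have hfn := fun {l' : V} (hl' : l' ∈ nb Gᶜ (insert x N) r) =>
    F.mc.fn_star hb_sub Bu.hbne (by rw [T.ps2]; norm_num) hS hl'
  have hgood : ∀ w ∈ N, (nb G (hb X P y y') w).card + 1 = k → G.Adj w y ∨ G.Adj w y' := by
    intro w hw hd
    rw [hN] at hw
    exact F.good h5 T hex hw hd
  refine ⟨r, hrN, l, hlN, ?_, ?_⟩
  · intro w hw hwr hwl
    exact hgood w hw (hfn hl w (mem_insert_of_mem hw) hwr hwl)
  · by_cases hld : (nb G (hb X P y y') l).card + 1 = k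
    · exact Or.inl (hgood l hlN hld)
    · right
      intro w hw hwr hwl
      have hwT : w ∈ insert x N := mem_insert_of_mem hw
      have hwd := hfn hl w hwT hwr hwl
      refine nbw hS hwT hwr ?_ hwd
      by_contra hcon
      have h1 : w ∈ nb Gᶜ (insert x N) r :=
        mem_nb.2 ⟨hwT, (SimpleGraph.compl_adj _ _ _).2 ⟨Ne.symm hwr, fun h => hcon h.symm⟩⟩
      exact hld (hfn h1 l hlT hlr (Ne.symm hwl))

/-- sets which contain the remaining neighbours of two bases -/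
theorem fin_cnt {x x' y y' : V} (T : Two G k X P x x' y y')
    {D : Finset V} (hD : D ⊆ X)
    (hx1 : ∀ w ∈ nb G (X \ P) x, w ∈ D ∨ G.Adj w y ∨ G.Adj w y')
    (hx2 : ∀ w ∈ nb G (X \ P) x', w ∈ D ∨ G.Adj w y ∨ G.Adj w y') :
    (5 ≤ k → 4 ≤ D.card) ∧
    (k = 4 → 9 ≤ (nb G (X \ P) y ∪ nb G (X \ P) y').card + D.card) := by
  obtain ⟨c, B⟩ := T.B
  obtain ⟨u, Bu⟩ := T.Bu
  have hxX := mem_sdiff.1 B.hx
  have hxX' := mem_sdiff.1 B.hx'
  have hyX := mem_sdiff.1 Bu.hx
  have hyX' := mem_sdiff.1 Bu.hx'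
  obtain ⟨J, hJ⟩ : ∃ J : Finset V, J = {x, x', y, y'} := ⟨_, rfl⟩
  have hJi : G.IsIndepSet (J : Set V) := by
    rw [hJ]
    refine indep_insert (indep_triple T.n3 T.n4 T.hyy) ?_
    intro v hv
    rw [mem_insert, mem_insert, mem_singleton] at hv
    rcases hv with rfl | rfl | rfl
    · exact T.hxx
    · exact T.n1
    · exact T.n2
  have hJc : J.card = 4 := by
    rw [hJ, Finset.card_insert_of_notMem (by simp [B.hne, T.d1, T.d2]),
      Finset.card_insert_of_notMem (by simp [T.d3, T.d4]), Finset.card_pair Bu.hne]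
  have hJX : J ⊆ X := by
    rw [hJ]
    intro z hz
    rw [mem_insert, mem_insert, mem_insert, mem_singleton] at hz
    rcases hz with rfl | rfl | rfl | rfl
    · exact hxX.1
    · exact hxX'.1
    · exact hyX.1
    · exact hyX'.1
  obtain ⟨W, hW⟩ : ∃ W : Finset V, W = nb G (X \ P) y ∪ nb G (X \ P) y' := ⟨_, rfl⟩
  have hWX : W ⊆ X := by
    rw [hW]
    exact Finset.union_subset ((nb_sub _ _).trans Finset.sdiff_subset)
      ((nb_sub _ _).trans Finset.sdiff_subset)
  have hSX : P ∪ (J ∪ (W ∪ D)) ⊆ X :=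
    Finset.union_subset F.hP (Finset.union_subset hJX (Finset.union_subset hWX hD))
  have hJS : J ⊆ P ∪ (J ∪ (W ∪ D)) :=
    Finset.subset_union_left.trans Finset.subset_union_right
  have h1 := al_closed (G := G) (Y := X) (S := P ∪ (J ∪ (W ∪ D))) (J := J) hJX hJS hJi (by
    intro z hz w hw hzw
    rw [mem_union, mem_union, mem_union]
    by_cases hwP : w ∈ P
    · exact Or.inl hwP
    · right
      right
      have hwQ : w ∈ X \ P := mem_sdiff.2 ⟨hw, hwP⟩
      have hadj : (w ∈ D ∨ G.Adj w y ∨ G.Adj w y') → w ∈ W ∨ w ∈ D := by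
        intro h
        rw [hW, mem_union, mem_nb, mem_nb]
        rcases h with h | h | h
        · exact Or.inr h
        · exact Or.inl (Or.inl ⟨hwQ, h.symm⟩)
        · exact Or.inl (Or.inr ⟨hwQ, h.symm⟩)
      rw [hJ, mem_insert, mem_insert, mem_insert, mem_singleton] at hz
      rcases hz with rfl | rfl | rfl | rfl
      · exact hadj (hx1 w (mem_nb.2 ⟨hwQ, hzw⟩))
      · exact hadj (hx2 w (mem_nb.2 ⟨hwQ, hzw⟩))
      · exact hadj (Or.inr (Or.inl hzw.symm))
      · exact hadj (Or.inr (Or.inr hzw.symm)))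
  rw [hJc] at h1
  have h3 := Finset.card_union_le P (J ∪ (W ∪ D))
  have h4 := Finset.card_union_le J (W ∪ D)
  have h5 := Finset.card_union_le W D
  have h6 := Finset.card_union_le (nb G (X \ P) y) (nb G (X \ P) y')
  rw [← hW] at h6
  rw [← hW]
  have h7 := F.hPc
  have h8 := T.cy
  have h9 := T.cy'
  constructor
  · intro h10
    have h2 := F.mc.closed4 h10 hSX h1
    omega
  · intro h10
    have h2 := F.mc.closed44 h10 hSX h1
    omega

/-- the vertices `r, l` are not adjacent to the other pair -/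
theorem side (h5 : 5 ≤ k) {x x' y y' : V} (T : Two G k X P x x' y y')
    (hex : exs G k X P = 0) :
    ∃ r ∈ nb G (X \ P) x, ∃ l, ¬ G.Adj r y ∧ ¬ G.Adj r y' ∧ ¬ G.Adj l y ∧ ¬ G.Adj l y' ∧
      ∀ w ∈ nb G (X \ P) x, w ≠ r → w ≠ l → (G.Adj w y ∨ G.Adj w y') ∧
        nb G (hb X P y y') w = (insert x (nb G (X \ P) x)).erase w := by
  obtain ⟨r, hr, l, hl, h1, h2⟩ := F.rx h5 T hex
  obtain ⟨r', hr', l', hl', h1', -⟩ := F.rx h5 T.left hex
  have hQX : ∀ {a v : V}, v ∈ nb G (X \ P) a → v ∈ X := fun hv =>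
    (mem_sdiff.1 (mem_nb.1 hv).1).1
  have hx2 : ∀ {D : Finset V}, r' ∈ D → l' ∈ D → ∀ w ∈ nb G (X \ P) x',
      w ∈ D ∨ G.Adj w y ∨ G.Adj w y' := by
    intro D hD1 hD2 w hw
    by_cases e1 : w = r'
    · exact Or.inl (e1 ▸ hD1)
    · by_cases e2 : w = l'
      · exact Or.inl (e2 ▸ hD2)
      · exact Or.inr (h1' w hw e1 e2)
  have hr1 : ¬ (G.Adj r y ∨ G.Adj r y') := by
    intro hcon
    have h3 := (F.fin_cnt T (D := {l, r', l'}) (by
      intro z hz
      rw [mem_insert, mem_insert, mem_singleton] at hz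
      rcases hz with rfl | rfl | rfl
      · exact hQX hl
      · exact hQX hr'
      · exact hQX hl') (by
      intro w hw
      by_cases e1 : w = r
      · rw [e1]
        exact Or.inr hcon
      · by_cases e2 : w = l
        · exact Or.inl (by rw [e2]; simp)
        · exact Or.inr (h1 w hw e1 e2)) (hx2 (by simp) (by simp))).1 (by omega)
    have h4 := Finset.card_le_three (a := l) (b := r') (c := l')
    omega
  have hl1 : ¬ (G.Adj l y ∨ G.Adj l y') := by
    intro hcon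
    have h3 := (F.fin_cnt T (D := {r, r', l'}) (by
      intro z hz
      rw [mem_insert, mem_insert, mem_singleton] at hz
      rcases hz with rfl | rfl | rfl
      · exact hQX hr
      · exact hQX hr'
      · exact hQX hl') (by
      intro w hw
      by_cases e1 : w = l
      · rw [e1]
        exact Or.inr hcon
      · by_cases e2 : w = r
        · exact Or.inl (by rw [e2]; simp)
        · exact Or.inr (h1 w hw e2 e1)) (hx2 (by simp) (by simp))).1 (by omega)
    have h4 := Finset.card_le_three (a := r) (b := r') (c := l')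
    omega
  refine ⟨r, hr, l, fun h => hr1 (Or.inl h), fun h => hr1 (Or.inr h), fun h => hl1 (Or.inl h),
    fun h => hl1 (Or.inr h), ?_⟩
  intro w hw hwr hwl
  rcases h2 with h2 | h2
  · exact absurd h2 hl1
  · exact ⟨h1 w hw hwr hwl, h2 w hw hwr hwl⟩

/-- a contradiction -/
theorem two5 (h5 : 5 ≤ k) {x x' y y' : V} (T : Two G k X P x x' y y')
    (hex : exs G k X P = 0) : False := by
  obtain ⟨r, hr, l, hr1, hr2, hl1, hl2, hw⟩ := F.side h5 T hex
  have hrx := mem_nb.1 hr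
  -- the other side
  have hfin : ∀ {z z' : V}, Two G k X P z z' x x' → ¬ G.Adj r z →
      ∀ w ∈ nb G (X \ P) x, G.Adj w r → ¬ G.Adj w z := by
    intro z z' T' hrz w hwx hwr' hwz
    obtain ⟨s, hs, t, hs1, hs2, ht1, ht2, hv⟩ := F.side h5 T' hex
    have hwx' := mem_nb.1 hwx
    have hws : w ≠ s := fun e => hs1 (e ▸ hwx'.2.symm)
    have hwt : w ≠ t := fun e => ht1 (e ▸ hwx'.2.symm)
    have hwz' : w ∈ nb G (X \ P) z := mem_nb.2 ⟨hwx'.1, hwz.symm⟩
    have h1 := (hv w hwz' hws hwt).2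
    have h4 : r ∈ nb G (hb X P x x') w := by
      refine mem_nb.2 ⟨mem_hb.2 ⟨(mem_sdiff.1 hrx.1).1, (mem_sdiff.1 hrx.1).2, ?_, ?_⟩, hwr'⟩
      · exact fun e => G.loopless.irrefl x (e ▸ hrx.2)
      · exact fun e => T.hxx (e ▸ hrx.2)
    rw [h1, mem_erase, mem_insert] at h4
    rcases h4.2 with h5 | h5
    · exact T'.n1 (h5 ▸ hrx.2.symm)
    · exact hrz (mem_nb.1 h5).2.symm
  obtain ⟨w, hwx, hwr, hwl⟩ : ∃ w ∈ nb G (X \ P) x, w ≠ r ∧ w ≠ l := by
    by_contra hcon
    push Not at hcon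
    have h1 : nb G (X \ P) x ⊆ {r, l} := by
      intro w hw
      rw [mem_insert, mem_singleton]
      by_cases e : w = r
      · exact Or.inl e
      · exact Or.inr (hcon w hw e)
    have h2 := Finset.card_le_card h1
    have h3 := Finset.card_le_two (a := r) (b := l)
    have h4 := T.cx
    omega
  have h3 : r ∈ nb G (hb X P y y') w := by
    rw [(hw w hwx hwr hwl).2, mem_erase]
    exact ⟨Ne.symm hwr, mem_insert_of_mem hr⟩
  rcases (hw w hwx hwr hwl).1 with h | h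
  · exact hfin T.swap hr1 w hwx (mem_nb.1 h3).2 h
  · exact hfin T.swap.left hr2 w hwx (mem_nb.1 h3).2 h

/-- the case without low vertices -/
theorem fin (h5 : 5 ≤ k) (hhigh : ∀ c x x', Base G k X P c x x' → k ≤ (nb G (hb X P x x') x).card + 1) :
    False := by
  have hk := F.mc.hk
  obtain ⟨c, hc, hcd⟩ := F.hex
  obtain ⟨x, x', B⟩ := base_mk F.hP F.hPc F.hPq hc hcd
  have hval : ∀ c x x', Base G k X P c x x' → (nb G (hb X P x x') x).card + 1 = k ∧
      (nb G (hb X P x x') x').card + 1 = k ∧ ¬ G.Adj x x' ∧ ps G k (hb X P x x') = 0 ∧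
      exs G k X P = 0 := by
    intro c x x' B
    refine F.highval B (hhigh c x x' B) ?_
    have := hhigh c x' x B.symm
    rw [hb_comm X P x' x] at this
    exact this
  obtain ⟨v1, v2, hxx, hps, hex⟩ := hval c x x' B
  obtain ⟨u, hu, hud, hxu⟩ := F.ns0 _ B.hx
  obtain ⟨y, y', Bu⟩ := base_mk F.hP F.hPc F.hPq hu hud
  obtain ⟨w1, w2, hyy, hpsu, _⟩ := hval u y y' Bu
  have hxu' : ¬ G.Adj u x' := fun e => hxu ((F.iff5 h5 B hu hud).2 e).symm
  have hxX := mem_sdiff.1 B.hx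
  have hxX' := mem_sdiff.1 B.hx'
  have hyX := mem_sdiff.1 Bu.hx
  have hyX' := mem_sdiff.1 Bu.hx'
  have d1 : x ≠ y := fun e => hxu (e ▸ Bu.ax.symm)
  have d2 : x ≠ y' := fun e => hxu (e ▸ Bu.ax'.symm)
  have d3 : x' ≠ y := fun e => hxu' (e ▸ Bu.ax)
  have d4 : x' ≠ y' := fun e => hxu' (e ▸ Bu.ax')
  -- no edges between the pairs
  have hno : ∀ {c u a a' b b' : V} (Ba : Base G k X P c a a') (Bb : Base G k X P u b b'),
      ¬ G.Adj a a' → (nb G (hb X P a a') a).card + 1 = k → ¬ G.Adj a u → ¬ G.Adj a' u →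
      b ≠ a → b ≠ a' → ¬ G.Adj a b := by
    intro c u a a' b b' Ba Bb haa hfa nau na'u hba hba' hab
    have hbX := mem_sdiff.1 Bb.hx
    refine F.lemG Ba haa Bb.hc nau na'u ?_
    have hcv := F.nbH Ba Bb.hc
    rw [Bb.deg, ad_zero (fun e => nau e.symm), ad_zero (fun e => na'u e.symm)] at hcv
    have h1 : b ∈ nb G (hb X P a a') a := mem_nb.2 ⟨mem_hb.2 ⟨hbX.1, hbX.2, hba, hba'⟩, hab⟩
    have h2 : b ∈ nb G (hb X P a a') u := mem_nb.2 ⟨mem_hb.2 ⟨hbX.1, hbX.2, hba, hba'⟩, Bb.ax⟩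
    have h6 := Finset.card_union_add_card_inter (nb G (hb X P a a') a) (nb G (hb X P a a') u)
    have h7 : 1 ≤ (nb G (hb X P a a') a ∩ nb G (hb X P a a') u).card :=
      Finset.card_pos.2 ⟨b, mem_inter.2 ⟨h1, h2⟩⟩
    omega
  have v2' : (nb G (hb X P x' x) x').card + 1 = k := by rw [hb_comm]; exact v2
  have nxu' : ¬ G.Adj x' u := fun e => hxu' e.symm
  have n1 : ¬ G.Adj x y := hno B Bu hxx v1 hxu nxu' (Ne.symm d1) (Ne.symm d3)
  have n2 : ¬ G.Adj x y' := hno B Bu.symm hxx v1 hxu nxu' (Ne.symm d2) (Ne.symm d4)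
  have n3 : ¬ G.Adj x' y := hno B.symm Bu (fun e => hxx e.symm) v2' nxu' hxu (Ne.symm d3)
    (Ne.symm d1)
  have n4 : ¬ G.Adj x' y' := hno B.symm Bu.symm (fun e => hxx e.symm) v2' nxu' hxu (Ne.symm d4)
    (Ne.symm d2)
  have w2' : (nb G (hb X P y' y) y').card + 1 = k := by rw [hb_comm]; exact w2
  -- neighbourhoods outside `P`
  have hout : ∀ {a b : V}, ¬ G.Adj a b → nb G (X \ P) a = nb G (hb X P a b) a := by
    intro a b hab
    ext v
    rw [mem_nb, mem_nb, mem_hb, mem_sdiff]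
    constructor
    · rintro ⟨⟨h1, h2⟩, h3⟩
      exact ⟨⟨h1, h2, fun e => G.loopless.irrefl a (e ▸ h3), fun e => hab (e ▸ h3)⟩, h3⟩
    · rintro ⟨⟨h1, h2, _, _⟩, h3⟩
      exact ⟨⟨h1, h2⟩, h3⟩
  have T : Two G k X P x x' y y' :=
    { B := ⟨c, B⟩
      Bu := ⟨u, Bu⟩
      ps1 := hps
      ps2 := hpsu
      cx := by rw [hout hxx]; exact v1
      cx' := by rw [hout (fun e => hxx e.symm : ¬ G.Adj x' x)]; exact v2'
      cy := by rw [hout hyy]; exact w1
      cy' := by rw [hout (fun e => hyy e.symm : ¬ G.Adj y' y)]; exact w2'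
      hxx := hxx
      hyy := hyy
      n1 := n1
      n2 := n2
      n3 := n3
      n4 := n4
      d1 := d1
      d2 := d2
      d3 := d3
      d4 := d4 }
  exact F.two5 h5 T hex

end Fn

end Pool.Agent.TwoDens.TS
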