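import Pool.Agent.TKS.LDc

/-!
Low vertices, centre in the neighbourhood: contradiction.
-/

open Finset

namespace Pool.Agent.TwoDens.TS

open Pool.Agent.TwoDens Pool.Agent.TwoDens.RK Pool.Agent.TwoDens.DD

variable {V : Type*} [DecidableEq V] {G : SimpleGraph V} [DecidableRel G.Adj]

namespace TO
variable {k : ℕ} {X P : Finset V} {c x x' u y y' r z : V} {C : Finset V}
  (t : TO G k X P c x x' u y y' r z C)
include t

/-- a vertex of degree `k + 1` adjacent to `x` only -/
theorem Bx (hB : ∀ w ∈ C, G.Adj x' w) (hex : exs G k X P = 1) {p : V} (hp : p ∈ P)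
    (hd : (nb G X p).card = k + 1) (hpx : G.Adj p x) (hpx' : ¬ G.Adj p x')
    (hpy : ¬ G.Adj p y) (hx'y : ¬ G.Adj x' y) : False := by
  have h5 := t.L.h5
  obtain ⟨f1, f2, -, -⟩ := t.num.2.2.2 hex
  have hux' : ¬ G.Adj x' u := fun e =>
    t.xu ((t.L.iff _ _ _ t.B _ t.Bu.hc t.Bu.deg).2 e.symm).symm
  have hf' : (nb G (hb X P x' x) x').card + 2 = k := by
    rw [hb_comm X P x' x]
    exact f1
  obtain ⟨-, -, -, -, r2, hS, -⟩ := t.L.lowT t.B.symm hf' t.Bu hux'
  have dvx : p ≠ x' := fun e => (mem_sdiff.1 t.B.hx').2 (e ▸ hp)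
  have dvy : p ≠ y := fun e => (mem_hb.1 t.yH).2.1 (e ▸ hp)
  have hmm : ∀ {w : V}, w ∈ hb X P x' x \ insert y (insert y' (nb G (hb X P x' x) x')) →
      (w ∈ X ∧ w ∉ P ∧ w ≠ x' ∧ w ≠ x) ∧ w ≠ y ∧ w ≠ y' ∧ ¬ G.Adj x' w := by
    intro w hw
    rw [mem_sdiff, mem_insert, mem_insert, not_or, not_or, mem_nb] at hw
    exact ⟨mem_hb.1 hw.1, hw.2.1, hw.2.2.1, fun e => hw.2.2.2 ⟨hw.1, e⟩⟩
  have h1 := (t.L.tri t.B.symm hS (by rw [hb_comm X P x' x]; exact t.num.2.1)
    (a := p) (b := x') (d := y) (t.L.F.hP hp)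
    (mem_sdiff.1 t.B.hx').1 (mem_hb.1 t.yH).1 (fun e => (hmm e).1.2.1 hp)
    (fun e => (hmm e).1.2.2.1 rfl) (fun e => (hmm e).2.1 rfl) dvx dvy t.dx'y hpx' hpy hx'y
    (S := insert z ((nb G (X \ P) p).erase x)) (by
      intro w hw e
      have h := hmm hw
      exact mem_insert_of_mem (mem_erase.2 ⟨h.1.2.2.2, mem_nb.2
        ⟨mem_sdiff.2 ⟨h.1.1, h.1.2.1⟩, e⟩⟩)) (by
      intro w hw e
      exact absurd e (hmm hw).2.2.2) (by
      intro w hw e
      have h := hmm hw
      have h1 := t.mM.2 ⟨⟨h.1.1, h.1.2.1, h.2.1, h.2.2.1⟩, e⟩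
      rw [mem_insert] at h1
      rcases h1 with h1 | h1
      · rw [h1]
        exact mem_insert_self _ _
      · exact absurd (hB w h1) h.2.2.2)).2
  have h2 := Finset.card_insert_le z ((nb G (X \ P) p).erase x)
  have h3 : x ∈ nb G (X \ P) p := mem_nb.2 ⟨t.B.hx, hpx⟩
  have h4 := Finset.card_erase_add_one h3
  have h6 := card_nbP t.L.F.hP t.L.F.hPc t.L.F.hPq hp
  omega

/-- the numbers in the second case -/
theorem B1 (hB : ∀ w ∈ C, G.Adj x' w) : k = 5 ∧ exs G k X P = 1 ∧
    ∃ p ∈ P, (nb G X p).card = k + 1 ∧ (∀ v ∈ P, v ≠ p → (nb G X v).card = k) ∧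
    ∀ w ∈ insert x (insert x' (insert y (insert y' C))), ¬ G.Adj p w := by
  have h5 := t.L.h5
  obtain ⟨sp1, -⟩ := t.sp
  have hnum := t.num
  have hmle : (nb Gᶜ (insert y (insert y' C)) x').card ≤ 2 := by
    refine Ld.nbc_two (s := y) (t := y') fun w hw h6 h7 => ?_
    rw [mem_insert, mem_insert] at hw
    exact hB w ((hw.resolve_left h6).resolve_left h7)
  have hex1 : exs G k X P = 1 := by
    by_contra hcon
    have hex : exs G k X P = 0 := by have := hnum.1; omega
    have hD := t.D0 (exs_none (fun v hv => t.L.F.mc.deg_ge v (t.L.F.hP hv)) hex)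
    omega
  obtain ⟨p, hp, hpd, hpo⟩ := exs_one (fun v hv => t.L.F.mc.deg_ge v (t.L.F.hP hv)) hex1
  have hD := t.D1 hp hpo
  have hzp := t.zp hp hpd
  obtain ⟨z', t'⟩ := t.swap hex1
  have hpF : ∀ {w : V}, w ∈ insert x (insert x' (insert y (insert y' C))) → G.Adj p w →
      w ∈ nb G (insert x (insert x' (insert y (insert y' C)))) p := fun hw e =>
    mem_nb.2 ⟨hw, e⟩
  have mx : x ∈ insert x (insert x' (insert y (insert y' C))) := mem_insert_self _ _
  have mx' : x' ∈ insert x (insert x' (insert y (insert y' C))) :=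
    mem_insert_of_mem (mem_insert_self _ _)
  have my : y ∈ insert x (insert x' (insert y (insert y' C))) :=
    mem_insert_of_mem (mem_insert_of_mem (mem_insert_self _ _))
  have my' : y' ∈ insert x (insert x' (insert y (insert y' C))) :=
    mem_insert_of_mem (mem_insert_of_mem (mem_insert_of_mem (mem_insert_self _ _)))
  have huniq : ∀ {a b : V}, a ∈ insert x (insert x' (insert y (insert y' C))) →
      b ∈ insert x (insert x' (insert y (insert y' C))) → G.Adj p a → G.Adj p b → a = b := by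
    intro a b ha hb' h1 h2
    have h3 : (nb G (insert x (insert x' (insert y (insert y' C)))) p).card ≤ 1 := by omega
    rw [Finset.card_le_one] at h3
    exact h3 a (hpF ha h1) b (hpF hb' h2)
  have hj : ¬ G.Adj p x → (nb G (insert x (insert x' (insert y (insert y' C)))) p).card + k ≤
      5 := by
    intro hpx
    by_cases hpy : G.Adj p y
    · have hpy' : ¬ G.Adj p y' := fun e => t.Bu.hne (huniq my my' hpy e)
      have h1 := (t'.pxy hp hpx hpy').2
      have h2 := Finset.card_insert_le z'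
        (nb G (hb X P x x' \ insert y' (insert y (insert r C))) p)
      have h3 := t'.zp hp hpd
      have h4 : insert x (insert x' (insert y' (insert y C))) =
          insert x (insert x' (insert y (insert y' C))) := by
        rw [Finset.insert_comm y' y]
      rw [h4] at h3
      omega
    · have h1 := (t.pxy hp hpx hpy).2
      have h2 := Finset.card_insert_le z
        (nb G (hb X P x x' \ insert y (insert y' (insert r C))) p)
      omega
  have hpx : ¬ G.Adj p x := by
    intro hpx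
    have hpx' : ¬ G.Adj p x' := fun e => t.B.hne (huniq mx mx' hpx e)
    have hpy : ¬ G.Adj p y := fun e => t.dxy (huniq mx my hpx e)
    have h6 : 1 ≤ (nb G (insert x (insert x' (insert y (insert y' C)))) p).card :=
      Finset.card_pos.2 ⟨x, hpF mx hpx⟩
    have hx'y : ¬ G.Adj x' y := by
      intro e
      have : (nb Gᶜ (insert y (insert y' C)) x').card ≤ 1 := by
        refine Ld.nbc_one (s := y') fun w hw h7 => ?_
        rw [mem_insert, mem_insert] at hw
        rcases hw with h | h | h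
        · exact h ▸ e
        · exact absurd h h7
        · exact hB w h
      omega
    exact t.Bx hB hex1 hp hpd hpx hpx' hpy hx'y
  have h7 := hj hpx
  refine ⟨by omega, hex1, p, hp, hpd, hpo, fun w hw e => ?_⟩
  have h8 : 1 ≤ (nb G (insert x (insert x' (insert y (insert y' C)))) p).card :=
    Finset.card_pos.2 ⟨w, hpF hw e⟩
  omega

/-- the number of vertices outside `Z` -/
theorem cW : (X \ (hb X P x x' \ insert y (insert y' (insert r C)))).card = 2 * k + 1 := by
  have h1 : X \ (hb X P x x' \ insert y (insert y' (insert r C))) =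
      P ∪ (insert x (insert x' (insert y (insert y' (insert r C))))) := by
    have hsub : P ∪ (insert x (insert x' (insert y (insert y' (insert r C))))) ⊆ X := by
      refine Finset.union_subset t.L.F.hP (Finset.insert_subset (mem_sdiff.1 t.B.hx).1
        (Finset.insert_subset (mem_sdiff.1 t.B.hx').1 (t.st.hT.trans hb_sub)))
    ext w
    constructor
    · intro h
      have h2 := mem_sdiff.1 h
      by_contra h3
      rw [mem_union, not_or, mem_insert, mem_insert, mem_insert, mem_insert, mem_insert,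
        not_or, not_or, not_or, not_or, not_or] at h3
      exact h2.2 (t.mZ.2 ⟨h2.1, h3.1, h3.2.1, h3.2.2.1, h3.2.2.2.1, h3.2.2.2.2.1,
        h3.2.2.2.2.2.1, h3.2.2.2.2.2.2⟩)
    · intro h
      refine mem_sdiff.2 ⟨hsub h, fun h3 => ?_⟩
      have h4 := t.mZ.1 h3
      rw [mem_union, mem_insert, mem_insert, mem_insert, mem_insert, mem_insert] at h
      rcases h with h | h | h | h | h | h | h
      · exact h4.2.1 h
      · exact h4.2.2.1 h
      · exact h4.2.2.2.1 h
      · exact h4.2.2.2.2.1 h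
      · exact h4.2.2.2.2.2.1 h
      · exact h4.2.2.2.2.2.2.1 h
      · exact h4.2.2.2.2.2.2.2 h
  have h2 : x' ∉ insert y (insert y' (insert r C)) := fun e =>
    (mem_hb.1 (t.st.hT e)).2.2.2 rfl
  have h3 : x ∉ insert x' (insert y (insert y' (insert r C))) := by
    rw [mem_insert, not_or]
    exact ⟨t.B.hne, fun e => (mem_hb.1 (t.st.hT e)).2.2.1 rfl⟩
  have h4 : Disjoint P (insert x (insert x' (insert y (insert y' (insert r C))))) := by
    rw [Finset.disjoint_left]
    intro w hw hw'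
    rw [mem_insert, mem_insert] at hw'
    rcases hw' with h | h | h
    · exact (mem_sdiff.1 t.B.hx).2 (h ▸ hw)
    · exact (mem_sdiff.1 t.B.hx').2 (h ▸ hw)
    · exact (mem_hb.1 (t.st.hT h)).2.1 hw
  have h5 := t.L.F.hPc
  rw [h1, Finset.card_union_of_disjoint h4, Finset.card_insert_of_notMem h3,
    Finset.card_insert_of_notMem h2, t.st.hc]
  omega

/-- degrees of the vertices of the star -/
theorem degT {w : V} (hw : w ∈ insert y (insert y' (insert r C))) :
    (nb G (hb X P x x') w).card + (nb Gᶜ (insert y (insert y' (insert r C))) w).card + 1 =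
      k + (nb G (hb X P x x' \ insert y (insert y' (insert r C))) w).card := by
  have e : nb G (hb X P x x') w \ insert y (insert y' (insert r C)) =
      nb G (hb X P x x' \ insert y (insert y' (insert r C))) w := by
    ext v
    rw [mem_sdiff, mem_nb, mem_nb, mem_sdiff]
    tauto
  have h1 := deg_split (G := G) t.st.hT (u := w) hw
  rw [t.st.hc, e] at h1
  exact h1

/-- the second case -/
theorem Bfalse (hB : ∀ w ∈ C, G.Adj x' w) : False := by
  obtain ⟨hk5, hex, p, hp, hpd, hpo, hpF⟩ := t.B1 hB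
  have hC := t.hC
  obtain ⟨f1, f2, f3, f4⟩ := t.num.2.2.2 hex
  obtain ⟨z', t'⟩ := t.swap hex
  have mx : x ∈ insert x (insert x' (insert y (insert y' C))) := mem_insert_self _ _
  have my : y ∈ insert x (insert x' (insert y (insert y' C))) :=
    mem_insert_of_mem (mem_insert_of_mem (mem_insert_self _ _))
  have my' : y' ∈ insert x (insert x' (insert y (insert y' C))) :=
    mem_insert_of_mem (mem_insert_of_mem (mem_insert_of_mem (mem_insert_self _ _)))
  have hzp := t.zp hp hpd
  obtain ⟨t1, k1⟩ := t.pxy hp (hpF x mx) (hpF y my)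
  obtain ⟨t1', k1'⟩ := t'.pxy hp (hpF x mx) (hpF y' my')
  have hTT : insert y' (insert y (insert r C)) = insert y (insert y' (insert r C)) := by
    rw [Finset.insert_comm]
  rw [hTT] at t1' k1'
  have hNy' : ∀ {w : V}, w ∈ hb X P x x' \ insert y (insert y' (insert r C)) →
      G.Adj y' w → w = z' := by
    intro w hw e
    rw [← hTT] at hw
    exact t'.Ny hw e
  have hNx := fun {w : V} => t.Nx (w := w)
  have hNy := fun {w : V} => t.Ny (w := w)
  have hmZ := fun {w : V} => t.mZ (w := w)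
  obtain ⟨z1, z2, z3⟩ := t.st.zfacts (by omega)
  have hal := (t.L.F.bp _ _ _ t.B).alH
  have htri := fun {a b d : V} => t.L.tri t.B t.st t.num.2.1 (a := a) (b := b) (d := d)
  have hZX : hb X P x x' \ insert y (insert y' (insert r C)) ⊆ X :=
    Finset.sdiff_subset.trans hb_sub
  have hZne : hb X P x x' \ insert y (insert y' (insert r C)) ≠ X := by
    intro e
    have h1 := (mem_sdiff.1 t.B.hx).1
    rw [← e] at h1
    exact (mem_hb.1 (mem_sdiff.1 h1).1).2.2.1 rfl
  have hnotZ := fun {w : V} => t.notZ (w := w)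
  have hTc := t.st.hc
  have hTsub := t.st.hT
  -- degrees of the vertices of `T`
  have hdeg := fun {w : V} => t.degT (w := w)
  have hZc := t.cW
  have hnx' : (nb G (hb X P x x' \ insert y (insert y' (insert r C))) x').card + C.card + 2 ≤
      k := by
    rw [← f1, ← Finset.card_union_of_disjoint]
    · refine Nat.add_le_add_right (Finset.card_le_card fun v hv => ?_) 2
      rw [mem_union, mem_nb] at hv
      rcases hv with ⟨h1, h2⟩ | h1
      · exact mem_nb.2 ⟨(mem_sdiff.1 h1).1, h2⟩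
      · exact mem_nb.2 ⟨t.CH h1, hB v h1⟩
    · rw [Finset.disjoint_left]
      intro v hv hv'
      exact (hmZ.1 (mem_nb.1 hv).1).2.2.2.2.2.2.2 hv'
  have hrm := t.st.hr
  have hyT : y ∈ insert y (insert y' (insert r C)) := mem_insert_self _ _
  obtain ⟨Z, hZ⟩ : ∃ Z, Z = hb X P x x' \ insert y (insert y' (insert r C)) := ⟨_, rfl⟩
  simp only [← hZ] at t1 k1 t1' k1' hzp hNy' hNx hNy hmZ z1 z2 z3
  simp only [← hZ] at htri hZX hZne hnotZ hdeg hZc hnx'
  rw [f2] at z1 z3
  have hpZ4 : ps G k Z ≤ 4 := by linarith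
  have htau := t.L.F.mc.tau1 hZX hZne (by
    have : (5 : ℤ) = k := by exact_mod_cast hk5.symm
    linarith)
  -- the set `N_Z(p)`
  have c1 := Finset.card_insert_le z (nb G Z p)
  have c1' := Finset.card_insert_le z' (nb G Z p)
  have c2 : (nb G Z p).card = 3 := by omega
  have hzN : z ∉ nb G Z p := by
    intro e
    rw [Finset.insert_eq_of_mem e] at k1
    omega
  have hzN' : z' ∉ nb G Z p := by
    intro e
    rw [Finset.insert_eq_of_mem e] at k1'
    omega
  have hzZ : z ∈ Z := by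
    by_contra e
    have h1 : Tr G Z (nb G Z p) := tr_mono t1 (by
      intro w hw
      rw [mem_inter, mem_insert] at hw
      rcases hw.1 with h | h
      · exact absurd (h ▸ hw.2) e
      · exact h)
    have h2 := htau _ (nb_sub _ _) h1
    omega
  have hzZ' : z' ∈ Z := by
    by_contra e
    have h1 : Tr G Z (nb G Z p) := tr_mono t1' (by
      intro w hw
      rw [mem_inter, mem_insert] at hw
      rcases hw.1 with h | h
      · exact absurd (h ▸ hw.2) e
      · exact h)
    have h2 := htau _ (nb_sub _ _) h1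
    omega
  have hSZ : insert z (nb G Z p) ⊆ Z := Finset.insert_subset hzZ (nb_sub _ _)
  have hSc : (insert z (nb G Z p)).card + 1 = k := by
    rw [Finset.card_insert_of_notMem hzN]
    omega
  have hk5' : (k : ℤ) = 5 := by exact_mod_cast hk5
  obtain ⟨q1, b1⟩ := t.L.F.mc.tr34 hZX hZne (by rw [hk5']; linarith) hSZ hSc t1
  obtain ⟨q1', -⟩ := t.L.F.mc.tr34 hZX hZne (by rw [hk5']; linarith)
    (Finset.insert_subset hzZ' (nb_sub _ _)) (by
      rw [Finset.card_insert_of_notMem hzN']
      omega) t1'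
  have b0 : bd G Z (insert z (nb G Z p)) = 0 := by
    have h1 : (bd G Z (insert z (nb G Z p)) : ℤ) ≤ 0 := by linarith
    have h2 : bd G Z (insert z (nb G Z p)) ≤ 0 := by exact_mod_cast h1
    omega
  have hps2 : ps G k Z = 2 := by
    have h3 := Int.natCast_nonneg (bd G Z (insert z (nb G Z p)))
    linarith
  obtain ⟨S, hS⟩ : ∃ S, S = insert z (nb G Z p) := ⟨_, rfl⟩
  rw [← hS] at hSZ hSc q1 b0 t1
  -- `S` is a component
  have hcomp : ∀ {v w : V}, v ∈ S → w ∈ Z → G.Adj v w → w ∈ S := by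
    intro v w hv hw e
    unfold bd at b0
    rw [Finset.sum_eq_zero_iff] at b0
    have h1 := b0 v hv
    rw [Finset.card_eq_zero, Finset.sdiff_eq_empty_iff_subset] at h1
    exact h1 (mem_nb.2 ⟨hw, e⟩)
  have hNpS : nb G Z p ⊆ S := by
    rw [hS]
    exact Finset.subset_insert _ _
  obtain ⟨q, hq⟩ : (nb G Z p).Nonempty := by
    rw [← Finset.card_pos]
    omega
  have hz'S : z' ∈ S := by
    refine hcomp (hNpS hq) hzZ' (q1' q (mem_insert_of_mem hq) z' (mem_insert_self _ _) ?_)
    exact fun e => hzN' (e ▸ hq)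
  have hzS : z ∈ S := by
    rw [hS]
    exact mem_insert_self _ _
  -- the vertex `r`
  have hcX := t.L.F.hP t.B.hc
  have hcZ : c ∉ Z := hnotZ (Or.inl t.B.hc)
  have hNc : ∀ w ∈ Z, ¬ G.Adj c w := by
    intro w hw
    have h := hmZ.1 hw
    exact t.B.na (mem_sdiff.2 ⟨h.1, h.2.1⟩) h.2.2.1 h.2.2.2.1
  have hrX := mem_hb.1 t.rH
  have hrZ' : r ∉ Z := fun e => (hmZ.1 e).2.2.2.2.2.2.1 rfl
  have hyZ' : y ∉ Z := fun e => (hmZ.1 e).2.2.2.2.1 rfl
  have hcr : ¬ G.Adj c r := t.B.na (mem_sdiff.2 ⟨hrX.1, hrX.2.1⟩) hrX.2.2.1 hrX.2.2.2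
  have dcr : c ≠ r := fun e => hrX.2.1 (e ▸ t.B.hc)
  have dcy : c ≠ y := fun e => (mem_hb.1 t.yH).2.1 (e ▸ t.B.hc)
  have hry : ¬ G.Adj r y := by
    intro e
    have h1 := t.mM.2 ⟨⟨hrX.1, hrX.2.1, t.r_y, t.r_y'⟩, e.symm⟩
    rw [mem_insert] at h1
    rcases h1 with h1 | h1
    · exact (hmZ.1 hzZ).2.2.2.2.2.2.1 h1.symm
    · exact t.rC h1
  obtain ⟨t2, k2⟩ := htri (a := c) (b := r) (d := y) hcX hrX.1 (mem_hb.1 t.yH).1 hcZ
    hrZ' hyZ' dcr dcy t.r_y hcr t.cy hry
    (S := insert z (nb G Z r)) (fun w hw e => absurd e (hNc w hw))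
    (fun w hw e => mem_insert_of_mem (mem_nb.2 ⟨hw, e⟩)) (fun w hw e => by
      rw [hNy hw e]
      exact mem_insert_self _ _)
  have c3 := Finset.card_insert_le z (nb G Z r)
  rw [hps2, hk5'] at z3
  have c4 : (nb G Z r).card = 3 ∧ exs G (k - 1) (hb X P x x')
      ((insert y (insert y' (insert r C))).erase r) = 0 := by
    have h1 : (nb G Z r).card + exs G (k - 1) (hb X P x x')
        ((insert y (insert y' (insert r C))).erase r) = 3 := by
      have : ((nb G Z r).card : ℤ) + exs G (k - 1) (hb X P x x')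
        ((insert y (insert y' (insert r C))).erase r) = 3 := by linarith
      exact_mod_cast this
    omega
  obtain ⟨c4, c5⟩ := c4
  have hzNr : z ∉ nb G Z r := by
    intro e
    rw [Finset.insert_eq_of_mem e] at k2
    omega
  obtain ⟨q2, -⟩ := t.L.F.mc.tr34 hZX hZne (by rw [hk5']; linarith)
    (Finset.insert_subset hzZ (nb_sub Z r)) (by
      rw [Finset.card_insert_of_notMem hzNr]
      omega) t2
  have hNrS : ∀ w ∈ Z, G.Adj r w → w ∈ S := by
    intro w hw e
    have h1 : w ∈ nb G Z r := mem_nb.2 ⟨hw, e⟩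
    exact hcomp hzS hw (q2 z (mem_insert_self _ _) w (mem_insert_of_mem h1)
      (fun e' => hzNr (e' ▸ h1)))
  obtain ⟨q', hq'⟩ : (nb G Z r).Nonempty := by
    rw [← Finset.card_pos]
    omega
  -- vertices of `C`
  have hCS : ∀ v ∈ C, ∀ w ∈ Z, G.Adj v w → w ∈ S := by
    intro v hv w hw e
    have hvr : v ≠ r := fun e' => t.rC (e' ▸ hv)
    have hvT : v ∈ insert y (insert y' (insert r C)) :=
      mem_insert_of_mem (mem_insert_of_mem (mem_insert_of_mem hv))
    have h1 := hdeg hvT
    have h2 : (nb G (hb X P x x') v).card ≤ k - 1 := by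
      unfold exs at c5
      rw [Finset.sum_eq_zero_iff] at c5
      have := c5 v (mem_erase.2 ⟨hvr, hvT⟩)
      omega
    have h3 : (nb Gᶜ (insert y (insert y' (insert r C))) v).card ≤ 1 := by
      have h4 : nb Gᶜ (insert y (insert y' (insert r C))) v ⊆ {r} := by
        intro a ha
        have h5 := mem_nb.1 ha
        have h6 := (SimpleGraph.compl_adj _ _ _).1 h5.2
        rw [mem_singleton]
        by_contra hcon
        exact h6.2 (t.st.clq v (mem_erase.2 ⟨hvr, hvT⟩) a (mem_erase.2 ⟨hcon, h5.1⟩) h6.1)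
      exact (Finset.card_le_card h4).trans (Finset.card_singleton r).le
    have h4 : (nb G Z v).card ≤ 1 := by omega
    have hvN : nb G Z v = {w} := by
      rw [Finset.card_le_one] at h4
      ext a
      rw [mem_singleton]
      constructor
      · intro ha
        exact h4 a ha w (mem_nb.2 ⟨hw, e⟩)
      · rintro rfl
        exact mem_nb.2 ⟨hw, e⟩
    have hrv : ¬ G.Adj v r := by
      intro e'
      have h5 : (nb Gᶜ (insert y (insert y' (insert r C))) v).card = 0 := by
        rw [Finset.card_eq_zero, Finset.eq_empty_iff_forall_notMem]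
        intro a ha
        have h5 := mem_nb.1 ha
        have h6 := (SimpleGraph.compl_adj _ _ _).1 h5.2
        by_cases har : a = r
        · exact h6.2 (har ▸ e')
        · exact h6.2 (t.st.clq v (mem_erase.2 ⟨hvr, hvT⟩) a (mem_erase.2 ⟨har, h5.1⟩) h6.1)
      rw [hvN, Finset.card_singleton] at h1
      omega
    have hvH := mem_hb.1 (t.CH hv)
    have hcv : ¬ G.Adj c v := t.B.na (mem_sdiff.2 ⟨hvH.1, hvH.2.1⟩) hvH.2.2.1 hvH.2.2.2
    have dcv : c ≠ v := fun e' => hvH.2.1 (e' ▸ t.B.hc)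
    obtain ⟨t3, k3⟩ := htri (a := c) (b := v) (d := r) hcX hvH.1 hrX.1 hcZ
      (fun e' => (hmZ.1 e').2.2.2.2.2.2.2 hv) hrZ' dcv dcr hvr hcv hcr hrv
      (S := insert w (nb G Z r)) (fun a ha e' => absurd e' (hNc a ha))
      (fun a ha e' => by
        have h5 : a ∈ nb G Z v := mem_nb.2 ⟨ha, e'⟩
        rw [hvN, mem_singleton] at h5
        rw [h5]
        exact mem_insert_self _ _) (fun a ha e' => mem_insert_of_mem (mem_nb.2 ⟨ha, e'⟩))
    have c6 := Finset.card_insert_le w (nb G Z r)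
    have hwNr : w ∉ nb G Z r := by
      intro e'
      rw [Finset.insert_eq_of_mem e'] at k3
      omega
    obtain ⟨q3, -⟩ := t.L.F.mc.tr34 hZX hZne (by rw [hk5']; linarith)
      (Finset.insert_subset hw (nb_sub Z r)) (by
        rw [Finset.card_insert_of_notMem hwNr]
        omega) t3
    have hq'S : q' ∈ S := hNrS q' (mem_nb.1 hq').1 (mem_nb.1 hq').2
    exact hcomp hq'S hw (q3 q' (mem_insert_of_mem hq') w (mem_insert_self _ _)
      (fun e' => hwNr (e' ▸ hq')))
  -- leaving
  have hlv := t.L.F.mc.leave t.L.h5 (E := nb G Z x') hZX hZc (by omega) hpZ4 hSZ hSc t1 (by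
    intro v hv hvZ w hw e
    have hwZ := (mem_sdiff.1 hw).1
    have hwS := (mem_sdiff.1 hw).2
    have hwm := hmZ.1 hwZ
    have hwX : w ∈ X \ P := mem_sdiff.2 ⟨hwm.1, hwm.2.1⟩
    by_cases hvP : v ∈ P
    · exfalso
      by_cases hvp : v = p
      · rw [hvp] at e
        exact hwS (hNpS (mem_nb.2 ⟨hwZ, e⟩))
      · have hvd := hpo v hvP hvp
        by_cases hvx : G.Adj v x
        · have Bv := base_mk2 t.L.F.hP t.L.F.hPc t.L.F.hPq hvP hvd t.B.hx t.B.hx' t.B.hne hvx
            ((t.L.iff _ _ _ t.B _ hvP hvd).1 hvx)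
          exact Bv.na hwX hwm.2.2.1 hwm.2.2.2.1 e
        · have hvy := t.cls hvP hvd hvx
          have Bv := base_mk2 t.L.F.hP t.L.F.hPc t.L.F.hPq hvP hvd t.Bu.hx t.Bu.hx' t.Bu.hne
            hvy ((t.L.iff _ _ _ t.Bu _ hvP hvd).1 hvy)
          exact Bv.na hwX hwm.2.2.2.2.1 hwm.2.2.2.2.2.1 e
    · by_cases h1 : v = x'
      · rw [h1] at e
        exact mem_nb.2 ⟨hwZ, e⟩
      exfalso
      by_cases h2 : v = x
      · exact hNx hwZ (h2 ▸ e)
      by_cases h3 : v = y
      · have := hNy hwZ (h3 ▸ e)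
        exact hwS (this ▸ hzS)
      by_cases h4 : v = y'
      · have := hNy' hwZ (h4 ▸ e)
        exact hwS (this ▸ hz'S)
      by_cases h5 : v = r
      · exact hwS (hNrS w hwZ (h5 ▸ e))
      by_cases h6 : v ∈ C
      · exact hwS (hCS v h6 w hwZ e)
      have hvZ' : v ∈ Z := hmZ.2 ⟨hv, hvP, h2, h1, h3, h4, h5, h6⟩
      have hvS : v ∈ S := by
        by_contra h7
        exact hvZ (mem_sdiff.2 ⟨hvZ', h7⟩)
      exact hwS (hcomp hvS hwZ e)) f3
  omega

theorem false : False := by
  rcases t.AorB with ⟨s, hs, h1, h2, h3, h4⟩ | hB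
  · refine t.Afalse hs h1 h2 h3 h4 fun w hw e => ?_
    have h5 := t.Ny hw e
    have h6 := t.mZ.1 hw
    have h7 := mem_hb.1 t.rH
    have h8 := t.mM.2 ⟨⟨h7.1, h7.2.1, t.r_y, t.r_y'⟩, h2⟩
    rw [mem_insert] at h8
    have h9 := h8.resolve_right t.rC
    exact h6.2.2.2.2.2.2.1 (h5.trans h9.symm)
  · exact t.Bfalse hB

end TO

/-- the first type -/
theorem LF.type1 {k : ℕ} {X P : Finset V} (L : LF G k X P) (t2 : NoT2 G k X P)
    {c x x' : V} (B : Base G k X P c x x') (hf : (nb G (hb X P x x') x).card + 2 = k) :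
    False := by
  obtain ⟨u, hu, hud, hxu⟩ := L.ns x B.hx
  obtain ⟨y, y', Bu⟩ := base_mk L.F.hP L.F.hPc L.F.hPq hu hud
  obtain ⟨m1, m2, n1, n2, r, hS, -⟩ := L.lowT B hf Bu hxu
  have hry : r ≠ y := by
    rintro rfl
    exact t2 c x x' u r y' B hf Bu hxu hS
  have hry' : r ≠ y' := by
    rintro rfl
    rw [Finset.insert_comm] at hS
    exact t2 c x x' u r y B hf Bu.symm hxu hS
  have hr := hS.hr
  rw [mem_insert, mem_insert] at hr
  have hrN := (hr.resolve_left hry).resolve_left hry'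
  have hN : nb G (hb X P x x') x = insert r ((nb G (hb X P x x') x).erase r) :=
    (Finset.insert_erase hrN).symm
  have hcC := Finset.card_erase_add_one hrN
  have hyy : G.Adj y y' := hS.clq y (mem_erase.2 ⟨Ne.symm hry, mem_insert_self _ _⟩) y'
    (mem_erase.2 ⟨Ne.symm hry', mem_insert_of_mem (mem_insert_self _ _)⟩) Bu.hne
  have h3 := (L.F.bp _ _ _ Bu).bstar
  have h4 := (L.F.bp _ _ _ Bu).ps0
  have h5 := L.F.mc.ps_le
  rw [if_pos hyy] at h3
  have g1 := L.ge2 Bu
  have g2 := L.ge2 Bu.symm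
  rw [hb_comm X P y' y] at g2
  have h6 := Int.natCast_nonneg (exs G k X P)
  have hS2 := hS
  rw [hN] at hS
  by_cases hc : (nb G (hb X P y y') y).card + 2 = k
  · obtain ⟨z, t⟩ := L.mkTO t2 B Bu hN (Finset.notMem_erase _ _) (by omega) hxu hS hc
    exact t.false
  · have g1' : k ≤ (nb G (hb X P y y') y).card + 1 := by omega
    have g1'' : (k : ℤ) ≤ (nb G (hb X P y y') y).card + 1 := by exact_mod_cast g1'
    have g3 : ((nb G (hb X P y y') y').card : ℤ) + 2 ≤ k := by linarith
    have g3' : (nb G (hb X P y y') y').card + 2 ≤ k := by exact_mod_cast g3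
    rw [Finset.insert_comm] at hS
    obtain ⟨z, t⟩ := L.mkTO t2 B Bu.symm hN (Finset.notMem_erase _ _) (by omega) hxu hS (by
      rw [hb_comm X P y' y]
      omega)
    exact t.false

end Pool.Agent.TwoDens.TS
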