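import Pool.Agent.TKS.Cor

/-!
The bridge lemma.
-/

open Finset

namespace Pool.Agent.TwoDens.TS

open Pool.Agent.TwoDens Pool.Agent.TwoDens.RK Pool.Agent.TwoDens.DD

variable {V : Type*} [DecidableEq V] {G : SimpleGraph V} [DecidableRel G.Adj]

theorem e2_ins {F : Finset V} {v : V} (hv : v ∉ F) :
    e2 G (insert v F) = e2 G F + 2 * (nb G F v).card := by
  have h1 := e2_sdiff (G := G) (X := insert v F) (R := {v})
    (Finset.singleton_subset_iff.2 (Finset.mem_insert_self v F))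
  rw [e2_singleton, Finset.sum_singleton] at h1
  have h2 : insert v F \ {v} = F := by
    rw [Finset.insert_sdiff_of_mem _ (mem_singleton_self v), Finset.sdiff_singleton_eq_erase,
      Finset.erase_eq_of_notMem hv]
  have h3 : nb G (insert v F) v = nb G F v := by
    ext u
    rw [mem_nb, mem_nb, mem_insert]
    constructor
    · rintro ⟨h4 | h4, h5⟩
      · exact absurd (h4 ▸ h5) (G.loopless.irrefl v)
      · exact ⟨h4, h5⟩
    · rintro ⟨h4, h5⟩
      exact ⟨Or.inr h4, h5⟩
  rw [h2, h3] at h1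
  omega

/-- a vertex that increases the independence number has a non-transversal neighbourhood -/
theorem nt_of {W : Finset V} {m : V} (h : al G W + 1 ≤ al G (insert m W)) :
    ¬ Tr G W (nb G W m) := by
  intro ht
  obtain ⟨I, hI, hi, hc⟩ := exists_al (G := G) (insert m W)
  have hI' : I.erase m ⊆ W := by
    intro v hv
    have hv' := mem_erase.1 hv
    exact (mem_insert.1 (hI hv'.2)).resolve_left hv'.1
  have hi' := indep_mono hi (Finset.erase_subset m I)
  by_cases hm : m ∈ I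
  · have h1 := ht.lt hI' hi' (by
      rw [Finset.disjoint_left]
      intro v hv hv'
      have hv2 := mem_erase.1 hv
      exact hi (by exact_mod_cast hm) (by exact_mod_cast hv2.2) (Ne.symm hv2.1) (mem_nb.1 hv').2)
    have h2 := Finset.card_erase_add_one hm
    omega
  · rw [Finset.erase_eq_of_notMem hm] at hI'
    have := le_al hI' hi
    omega

/-- sets that can always be avoided -/
theorem MC.avoid {k : ℕ} {X : Finset V} (H : MC G k X) {Y : Finset V} (hY : Y ⊆ X)
    (hne : Y ≠ X) : ∃ t : ℕ, (∀ S ⊆ Y, S.card ≤ t → ¬ Tr G Y S) ∧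
      2 * (k : ℤ) - 2 ≤ 2 * t + ps G k Y := by
  have hk := H.hk
  by_cases h1 : ps G k Y ≤ 1
  · refine ⟨k - 1, fun S hS hc ht => ?_, ?_⟩
    · have := H.tau0 hY hne h1 S hS ht
      omega
    · have h0 := H.hmin Y hY hne
      have : ((k - 1 : ℕ) : ℤ) = k - 1 := by
        rw [Nat.cast_sub (by omega)]
        simp
      linarith
  by_cases h2 : ps G k Y ≤ 2 * k
  · refine ⟨k - 2, fun S hS hc ht => ?_, ?_⟩
    · have := H.tau1 hY hne h2 S hS ht
      omega
    · have : ((k - 2 : ℕ) : ℤ) = k - 2 := by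
        rw [Nat.cast_sub (by omega)]
        simp
      push Not at h1
      linarith
  · refine ⟨0, fun S hS hc ht => ?_, ?_⟩
    · have : S = ∅ := Finset.card_eq_zero.1 (by omega)
      rw [this] at ht
      unfold Tr at ht
      rw [Finset.sdiff_empty] at ht
      omega
    · push Not at h2
      have hk' : (4 : ℤ) ≤ k := by exact_mod_cast hk
      push_cast
      linarith

/-- cross edges between two sets covered by few vertices -/
theorem cover_cross {W1 W2 : Finset V} {s1 s2 : ℕ}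
    (h : ∑ v ∈ W1, (nb G W2 v).card ≤ s1 + s2) :
    ∃ S1 ⊆ W1, ∃ S2 ⊆ W2, S1.card ≤ s1 ∧ S2.card ≤ s2 ∧
      ∀ v ∈ W1, ∀ w ∈ W2, G.Adj v w → v ∈ S1 ∨ w ∈ S2 := by
  obtain ⟨E, hE⟩ : ∃ E : Finset (Σ _ : V, V), E = W1.sigma (fun v => nb G W2 v) := ⟨_, rfl⟩
  have hc : E.card = ∑ v ∈ W1, (nb G W2 v).card := by
    rw [hE, Finset.card_sigma]
  obtain ⟨E1, hE1, hc1⟩ := Finset.exists_subset_card_eq (s := E) (n := min s1 E.card)
    (min_le_right _ _)
  have hmem : ∀ {e : Σ _ : V, V}, e ∈ E ↔ e.1 ∈ W1 ∧ e.2 ∈ W2 ∧ G.Adj e.1 e.2 := by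
    intro e
    rw [hE, Finset.mem_sigma, mem_nb]
  refine ⟨E1.image (fun e => e.1), ?_, (E \ E1).image (fun e => e.2), ?_, ?_, ?_, ?_⟩
  · intro v hv
    obtain ⟨e, he, rfl⟩ := mem_image.1 hv
    exact (hmem.1 (hE1 he)).1
  · intro v hv
    obtain ⟨e, he, rfl⟩ := mem_image.1 hv
    exact (hmem.1 (mem_sdiff.1 he).1).2.1
  · refine Finset.card_image_le.trans ?_
    rw [hc1]
    exact min_le_left _ _
  · refine Finset.card_image_le.trans ?_
    rw [Finset.card_sdiff_of_subset hE1, hc1]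
    omega
  · intro v hv w hw hvw
    have he : (⟨v, w⟩ : Σ _ : V, V) ∈ E := hmem.2 ⟨hv, hw, hvw⟩
    by_cases h1 : (⟨v, w⟩ : Σ _ : V, V) ∈ E1
    · exact Or.inl (mem_image.2 ⟨_, h1, rfl⟩)
    · exact Or.inr (mem_image.2 ⟨_, mem_sdiff.2 ⟨he, h1⟩, rfl⟩)

/-- the bridge lemma -/
theorem MC.bridge {k : ℕ} {X : Finset V} (H : MC G k X) {W1 W2 : Finset V} {m : V}
    (hX : insert m (W1 ∪ W2) = X) (h12 : Disjoint W1 W2) (hm1 : m ∉ W1) (hm2 : m ∉ W2)
    (hn1 : W1.Nonempty) (hn2 : W2.Nonempty) : al G X + 1 ≤ al G W1 + al G W2 := by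
  by_contra hcon
  have hk := H.hk
  have hal : al G W1 + al G W2 ≤ al G X := by omega
  have hW1X : W1 ⊆ X := by
    rw [← hX]
    exact Finset.subset_union_left.trans (Finset.subset_insert _ _)
  have hW2X : W2 ⊆ X := by
    rw [← hX]
    exact Finset.subset_union_right.trans (Finset.subset_insert _ _)
  have hmX : m ∈ X := by rw [← hX]; exact mem_insert_self _ _
  have hne1 : W1 ≠ X := fun e => hm1 (e ▸ hmX)
  have hne2 : W2 ≠ X := fun e => hm2 (e ▸ hmX)
  have nt1 : ¬ Tr G W1 (nb G W1 m) := by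
    refine nt_of ?_
    have h1 := H.p1 (A := W2) (B := insert m W1) (by
      rw [← hX, Finset.union_insert, Finset.union_comm]) (by
      rw [Finset.disjoint_insert_right]
      exact ⟨hm2, h12.symm⟩) hn2 ⟨m, mem_insert_self _ _⟩
    omega
  have nt2 : ¬ Tr G W2 (nb G W2 m) := by
    refine nt_of ?_
    have h1 := H.p1 (A := W1) (B := insert m W2) (by
      rw [← hX, Finset.union_insert]) (by
      rw [Finset.disjoint_insert_right]
      exact ⟨hm1, h12⟩) hn1 ⟨m, mem_insert_self _ _⟩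
    omega
  -- the identity
  have hsub : insert m W1 ⊆ X := Finset.insert_subset hmX hW1X
  have h1 := ps_sdiff (G := G) k hsub
  have h2 : X \ insert m W1 = W2 := by
    ext v
    rw [← hX, mem_sdiff, mem_insert, mem_insert, mem_union]
    constructor
    · rintro ⟨h3 | h3 | h3, h4⟩
      · exact absurd (Or.inl h3) h4
      · exact absurd (Or.inr h3) h4
      · exact h3
    · intro h3
      refine ⟨Or.inr (Or.inr h3), ?_⟩
      rintro (h4 | h4)
      · exact hm2 (h4 ▸ h3)
      · exact (Finset.disjoint_left.1 h12) h4 h3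
  have h3 := sum_deg' (G := G) hsub
  have h4 : bd G X (insert m W1) = (nb G W2 m).card + ∑ v ∈ W1, (nb G W2 v).card := by
    unfold bd
    have e : ∀ v, nb G X v \ insert m W1 = nb G W2 v := by
      intro v
      rw [← h2]
      ext w
      rw [mem_sdiff, mem_nb, mem_nb, mem_sdiff]
      tauto
    simp only [e]
    rw [Finset.sum_insert hm1]
  have h5 := e2_ins (G := G) hm1
  rw [h2] at h1
  have h6 : (insert m W1).card = W1.card + 1 := Finset.card_insert_of_notMem hm1
  have hps := H.ps_le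
  obtain ⟨xx, hxx⟩ : ∃ xx, xx = ∑ v ∈ W1, (nb G W2 v).card := ⟨_, rfl⟩
  obtain ⟨D, hD⟩ : ∃ D : ℕ, ∑ v ∈ insert m W1, (nb G X v).card = D := ⟨_, rfl⟩
  rw [hD] at h1 h3
  rw [← hxx] at h4
  have h7 : ps G k W1 = (3 * (k : ℤ) ^ 2 - 3 * k + 2) * al G W1 - (4 * (k : ℤ) - 2) * W1.card +
      e2 G W1 := rfl
  have h8 : (D : ℤ) = e2 G W1 + 2 * (nb G W1 m).card + ((nb G W2 m).card + xx) := by
    rw [h3, h4, h5]
    push_cast
    ring
  have h9 : (e2 G (insert m W1) : ℤ) = e2 G W1 + 2 * (nb G W1 m).card := by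
    rw [h5]
    push_cast
    ring
  rw [h9, h6, h8] at h1
  push_cast at h1
  have hal' : (al G W1 : ℤ) + al G W2 ≤ al G X := by exact_mod_cast hal
  have h10 := mul_le_mul_of_nonneg_left hal' (kappa_nonneg H.hk)
  have key : ps G k W1 + ps G k W2 + 2 * ((xx : ℤ) + (nb G W1 m).card + (nb G W2 m).card) ≤
      4 * k - 4 := by linarith
  obtain ⟨t1, ht1, b1⟩ := H.avoid hW1X hne1
  obtain ⟨t2, ht2, b2⟩ := H.avoid hW2X hne2
  have hsum : xx + (nb G W1 m).card + (nb G W2 m).card ≤ t1 + t2 := by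
    have : (xx : ℤ) + (nb G W1 m).card + (nb G W2 m).card ≤ t1 + t2 := by linarith
    exact_mod_cast this
  have hx1 : nb G W1 m ⊆ W1 := nb_sub _ _
  have hx2 : nb G W2 m ⊆ W2 := nb_sub _ _
  have hS : ∃ S1 ⊆ W1, ∃ S2 ⊆ W2, ¬ Tr G W1 (nb G W1 m ∪ S1) ∧ ¬ Tr G W2 (nb G W2 m ∪ S2) ∧
      ∀ v ∈ W1, ∀ w ∈ W2, G.Adj v w → v ∈ S1 ∨ w ∈ S2 := by
    by_cases c1 : t1 < (nb G W1 m).card
    · obtain ⟨S1, hS1, S2, hS2, k1, k2, hcov⟩ := cover_cross (G := G) (W1 := W1) (W2 := W2)
        (s1 := 0) (s2 := xx) (by omega)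
      have : S1 = ∅ := Finset.card_eq_zero.1 (by omega)
      subst this
      refine ⟨∅, hS1, S2, hS2, by rw [Finset.union_empty]; exact nt1, ?_, hcov⟩
      refine ht2 _ (Finset.union_subset hx2 hS2) ?_
      have := Finset.card_union_le (nb G W2 m) S2
      omega
    by_cases c2 : t2 < (nb G W2 m).card
    · obtain ⟨S1, hS1, S2, hS2, k1, k2, hcov⟩ := cover_cross (G := G) (W1 := W1) (W2 := W2)
        (s1 := xx) (s2 := 0) (by omega)
      have : S2 = ∅ := Finset.card_eq_zero.1 (by omega)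
      subst this
      refine ⟨S1, hS1, ∅, hS2, ?_, by rw [Finset.union_empty]; exact nt2, hcov⟩
      refine ht1 _ (Finset.union_subset hx1 hS1) ?_
      have := Finset.card_union_le (nb G W1 m) S1
      omega
    · obtain ⟨S1, hS1, S2, hS2, k1, k2, hcov⟩ := cover_cross (G := G) (W1 := W1) (W2 := W2)
        (s1 := t1 - (nb G W1 m).card) (s2 := t2 - (nb G W2 m).card) (by omega)
      refine ⟨S1, hS1, S2, hS2, ht1 _ (Finset.union_subset hx1 hS1) ?_,
        ht2 _ (Finset.union_subset hx2 hS2) ?_, hcov⟩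
      · have := Finset.card_union_le (nb G W1 m) S1
        omega
      · have := Finset.card_union_le (nb G W2 m) S2
        omega
  obtain ⟨S1, hS1, S2, hS2, n1, n2, hcov⟩ := hS
  obtain ⟨I1, hI1, hi1, hd1, hc1⟩ := not_tr n1
  obtain ⟨I2, hI2, hi2, hd2, hc2⟩ := not_tr n2
  have hd : Disjoint I1 I2 := Finset.disjoint_of_subset_left hI1
    (Finset.disjoint_of_subset_right hI2 h12)
  have hm : m ∉ I1 ∪ I2 := by
    rw [mem_union, not_or]
    exact ⟨fun e => hm1 (hI1 e), fun e => hm2 (hI2 e)⟩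
  have hfin := le_al (G := G) (X := X) (I := insert m (I1 ∪ I2))
    (Finset.insert_subset hmX (Finset.union_subset (hI1.trans hW1X) (hI2.trans hW2X)))
    (indep_insert (indep_union hi1 hi2 (by
      intro v hv w hw hvw
      rcases hcov v (hI1 hv) w (hI2 hw) hvw with h | h
      · exact (Finset.disjoint_left.1 hd1) hv (mem_union_right _ h)
      · exact (Finset.disjoint_left.1 hd2) hw (mem_union_right _ h))) (by
      intro v hv hmv
      rcases mem_union.1 hv with h | h
      · exact (Finset.disjoint_left.1 hd1) h (mem_union_left _ (mem_nb.2 ⟨hI1 h, hmv⟩))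
      · exact (Finset.disjoint_left.1 hd2) h (mem_union_left _ (mem_nb.2 ⟨hI2 h, hmv⟩))))
  rw [Finset.card_insert_of_notMem hm, Finset.card_union_of_disjoint hd, hc1, hc2] at hfin
  have hle := H.p1 (A := W1) (B := insert m W2) (by
      rw [← hX, Finset.union_insert]) (by
      rw [Finset.disjoint_insert_right]
      exact ⟨hm1, h12⟩) hn1 ⟨m, mem_insert_self _ _⟩
  have hle2 : al G (insert m W2) ≤ al G W2 + 1 := by
    have h := al_union_le (G := G) {m} W2
    have h' := al_le_card (G := G) ({m} : Finset V)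
    rw [Finset.card_singleton] at h'
    rw [← Finset.insert_eq] at h
    omega
  omega

end Pool.Agent.TwoDens.TS
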