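import Pool.Agent.TKS.Star
import Pool.Agent.TKS.BR

/-!
Two lemmas on the rest `Z` of a minimal counterexample: few vertices of `Z` outside a component
cannot be reached, and the bridge lemma with four independent vertices.
-/

open Finset

namespace Pool.Agent.TwoDens.TS

open Pool.Agent.TwoDens Pool.Agent.TwoDens.RK Pool.Agent.TwoDens.DD

variable {V : Type*} [DecidableEq V] {G : SimpleGraph V} [DecidableRel G.Adj]

/-- the leaving lemma -/
theorem MC.leave {k : ℕ} {X : Finset V} (H : MC G k X) (h5 : 5 ≤ k) {Z S E : Finset V}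
    (hZ : Z ⊆ X) (hZc : (X \ Z).card = 2 * k + 1) (hal : al G Z + 2 = al G X)
    (hp : ps G k Z ≤ 4) (hS : S ⊆ Z) (hSc : S.card + 1 = k) (hT : Tr G Z S)
    (hE : ∀ v ∈ X, v ∉ Z \ S → ∀ w ∈ Z \ S, G.Adj v w → w ∈ E)
    (hs : -4 ≤ ps G k X) : k ≤ E.card + 1 := by
  have hk' : (5 : ℤ) ≤ k := by exact_mod_cast h5
  have hne : Z ≠ X := by
    intro h
    rw [h, Finset.sdiff_self, Finset.card_empty] at hZc
    omega
  obtain ⟨hq, hb⟩ := H.tr34 hZ hne (by linarith) hS hSc hT
  have hal1 : al G (Z \ S) + 1 = al G Z := by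
    have h1 := al_le_sdiff (G := G) Z S
    have h2 := al_clq (G := G) (X := Z ∩ S) (fun a ha b hb' hab =>
      hq a (mem_inter.1 ha).2 b (mem_inter.1 hb').2 hab)
    unfold Tr at hT
    omega
  have h3 := ps_sdiff (G := G) k hS
  have h4 := sum_deg' (G := G) hS
  have h5' := clq_e2 (G := G) hq
  obtain ⟨m, rfl⟩ : ∃ m, k = m + 1 := ⟨k - 1, by omega⟩
  have hSm : S.card = m := by omega
  have hbz : (0 : ℤ) ≤ bd G Z S := Int.natCast_nonneg _
  have h6 : ((∑ v ∈ S, (nb G Z v).card : ℕ) : ℤ) = e2 G S + bd G Z S := by exact_mod_cast h4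
  have h7 : (e2 G S : ℤ) + m = m * m := by
    rw [hSm] at h5'
    exact_mod_cast h5'
  have h8 : ((al G Z : ℤ) - al G (Z \ S)) = 1 := by
    have : (al G (Z \ S) : ℤ) + 1 = al G Z := by exact_mod_cast hal1
    linarith
  have hps1 : ps G (m + 1) (Z \ S) + 2 + 2 * bd G Z S = ps G (m + 1) Z := by
    rw [h8, h6, hSm] at h3
    push_cast at h3
    nlinarith
  have hsub : Z \ S ⊆ X := Finset.sdiff_subset.trans hZ
  have hne1 : Z \ S ≠ X := by
    intro h
    have : X ⊆ Z := h ▸ Finset.sdiff_subset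
    exact hne (Finset.Subset.antisymm hZ this)
  by_cases hemp : (Z \ S).Nonempty
  · have hd : Disjoint (X \ (Z \ S)) (Z \ S) := Finset.sdiff_disjoint
    have hA : (X \ (Z \ S)).Nonempty := by
      rw [Finset.nonempty_iff_ne_empty]
      intro h
      exact hne1 (Finset.Subset.antisymm hsub (Finset.sdiff_eq_empty_iff_subset.1 h))
    have h9 := H.p1 (A := X \ (Z \ S)) (B := Z \ S) (Finset.sdiff_union_of_subset hsub) hd hA hemp
    obtain ⟨J, hJ, hJi, hJc⟩ := exists_al (G := G) (X \ (Z \ S))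
    have hJX : J ⊆ X := hJ.trans Finset.sdiff_subset
    have hJd : Disjoint J (Z \ S) := hd.mono_left hJ
    have htr : Tr G (Z \ S) ((Z \ S) ∩ E) := by
      refine tr_nbr (X := X) (J := J) hsub hJX hJd hJi (by omega) ?_
      intro z hz w hw hzw
      exact mem_inter.2 ⟨hw, hE z (hJX hz) (fun e => (Finset.disjoint_left.1 hJd) hz e) w hw hzw⟩
    have h10 := H.tau1 hsub hne1 (by
      push_cast
      linarith) _ Finset.inter_subset_left htr
    have h11 := Finset.card_le_card (Finset.inter_subset_right (s₁ := Z \ S) (s₂ := E))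
    omega
  · exfalso
    rw [Finset.not_nonempty_iff_eq_empty] at hemp
    have h9 : al G (Z \ S) = 0 := by rw [hemp, al_empty]
    have h10 : al G X = 3 := by omega
    have h11 : Z.card = m := by
      have h12 := Finset.card_sdiff_add_card_eq_card hS
      rw [hemp, Finset.card_empty] at h12
      omega
    have h12 : X.card = 3 * (m + 1) := by
      have h13 := Finset.card_sdiff_add_card_eq_card hZ
      omega
    have h13 := H.hS X (Finset.Subset.refl X) (by omega)
    unfold ps at hs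
    rw [h10, h12] at hs
    rw [h12] at h13
    have h14 : (e2 G X : ℤ) + (2 * (m + 1) + 1) ≤ (m + 1 + 1) * (3 * (m + 1)) := by
      exact_mod_cast h13
    push_cast at hs hk'
    nlinarith

/-- the bridge lemma for a set `Z1` with three independent vertices less -/
theorem MC.br4 {k : ℕ} {X : Finset V} (H : MC G k X) {Z1 : Finset V} {m : V} (hZ1 : Z1 ⊆ X)
    (hn : Z1.Nonempty) (hal : al G Z1 + 3 = al G X) (hm : m ∈ X) (hmZ : m ∉ Z1)
    (hp : ps G k Z1 ≤ 2 * k) :
    ∃ I ⊆ (X \ Z1).erase m, G.IsIndepSet (I : Set V) ∧ I.card = 4 ∧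
      ∀ E : Finset V, (∀ v ∈ I, ∀ w ∈ Z1, G.Adj v w → w ∈ E) → k ≤ E.card + 1 := by
  have hne : Z1 ≠ X := fun e => hmZ (e ▸ hm)
  obtain ⟨W, hW⟩ : ∃ W, W = (X \ Z1).erase m := ⟨_, rfl⟩
  have hmW : m ∉ W := by rw [hW]; exact Finset.notMem_erase _ _
  have hWX : W ⊆ X := by rw [hW]; exact (Finset.erase_subset _ _).trans Finset.sdiff_subset
  have hd : Disjoint W Z1 := by
    rw [hW]
    exact (Finset.sdiff_disjoint (s := Z1) (t := X)).mono_left (Finset.erase_subset _ _)
  have hU : insert m (W ∪ Z1) = X := by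
    ext v
    rw [mem_insert, mem_union, hW, mem_erase, mem_sdiff]
    constructor
    · rintro (h | h | h)
      · exact h ▸ hm
      · exact h.2.1
      · exact hZ1 h
    · intro h
      by_cases h1 : v = m
      · exact Or.inl h1
      · by_cases h2 : v ∈ Z1
        · exact Or.inr (Or.inr h2)
        · exact Or.inr (Or.inl ⟨h1, h, h2⟩)
  have hWn : W.Nonempty := by
    rw [Finset.nonempty_iff_ne_empty]
    intro h
    have h1 := al_union_le (G := G) {m} Z1
    have h2 : ({m} : Finset V) ∪ Z1 = X := by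
      rw [← hU, h, Finset.empty_union]
      rfl
    rw [h2] at h1
    have h3 := al_le_card (G := G) ({m} : Finset V)
    rw [Finset.card_singleton] at h3
    omega
  have h1 := H.bridge hU hd hmW hmZ hWn hn
  obtain ⟨J, hJ, hJi, hJc⟩ := exists_al (G := G) W
  obtain ⟨I, hI, hIc⟩ := Finset.exists_subset_card_eq (s := J) (n := 4) (by omega)
  refine ⟨I, ?_, indep_mono hJi hI, hIc, ?_⟩
  · rw [← hW]
    exact hI.trans hJ
  · intro E hE
    have htr : Tr G Z1 (Z1 ∩ E) := by
      refine tr_nbr (X := X) (J := I) hZ1 (hI.trans (hJ.trans hWX))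
        (hd.mono_left (hI.trans hJ)) (indep_mono hJi hI) (by omega) ?_
      intro z hz w hw hzw
      exact mem_inter.2 ⟨hw, hE z hz w hw hzw⟩
    have h10 := H.tau1 hZ1 hne hp _ Finset.inter_subset_left htr
    have h11 := Finset.card_le_card (Finset.inter_subset_right (s₁ := Z1) (s₂ := E))
    omega

end Pool.Agent.TwoDens.TS
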