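import Pool.Agent.TKS.LQ
import Pool.Agent.TKS.LL

/-!
Low vertices, second type: a vertex of the neighbourhood has degree `k`, both outer vertices low.
-/

open Finset

namespace Pool.Agent.TwoDens.TS

open Pool.Agent.TwoDens Pool.Agent.TwoDens.RK Pool.Agent.TwoDens.DD

variable {V : Type*} [DecidableEq V] {G : SimpleGraph V} [DecidableRel G.Adj]

/-- the extra vertex of a small transversal is determined -/
theorem Lo.uniqR {k : ℕ} {X : Finset V} (H : MC G k X) {Y : Finset V} (hY : Y ⊆ X) (hne : Y ≠ X)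
    (hp : ps G k Y ≤ 4) {N : Finset V} (hN : N ⊆ Y) (hNc : N.card + 2 = k)
    {y1 y2 : V} (h1 : y1 ∈ Y) (h2 : y2 ∈ Y) (t1 : Tr G Y (insert y1 N))
    (t2 : Tr G Y (insert y2 N)) : y1 = y2 := by
  have hk := H.hk
  have hk' : (4 : ℤ) ≤ k := by exact_mod_cast hk
  have htau := H.tau1 hY hne (by linarith)
  have s1 : insert y1 N ⊆ Y := Finset.insert_subset h1 hN
  have s2 : insert y2 N ⊆ Y := Finset.insert_subset h2 hN
  have c1 := htau _ s1 t1
  have c2 := htau _ s2 t2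
  have n1 : y1 ∉ N := by
    intro e
    rw [Finset.insert_eq_of_mem e] at c1
    omega
  have n2 : y2 ∉ N := by
    intro e
    rw [Finset.insert_eq_of_mem e] at c2
    omega
  have d1 : (insert y1 N).card + 1 = k := by rw [Finset.card_insert_of_notMem n1]; omega
  have d2 : (insert y2 N).card + 1 = k := by rw [Finset.card_insert_of_notMem n2]; omega
  obtain ⟨q1, b1⟩ := H.tr34 hY hne (by linarith) s1 d1 t1
  obtain ⟨q2, b2⟩ := H.tr34 hY hne (by linarith) s2 d2 t2
  by_contra hcon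
  have hb : N.card ≤ bd G Y (insert y1 N) := by
    unfold bd
    calc N.card = ∑ v ∈ N, 1 := by rw [Finset.card_eq_sum_ones]
      _ ≤ ∑ v ∈ N, (nb G Y v \ insert y1 N).card := by
          refine Finset.sum_le_sum fun v hv => ?_
          refine Finset.card_pos.2 ⟨y2, mem_sdiff.2 ⟨mem_nb.2 ⟨h2, ?_⟩, ?_⟩⟩
          · exact q2 v (mem_insert_of_mem hv) y2 (mem_insert_self _ _) (fun e => n2 (e ▸ hv))
          · rw [mem_insert, not_or]
            exact ⟨fun e => hcon e.symm, n2⟩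
      _ ≤ ∑ v ∈ insert y1 N, (nb G Y v \ insert y1 N).card :=
          Finset.sum_le_sum_of_subset (Finset.subset_insert _ _)
  have hb' : (N.card : ℤ) ≤ bd G Y (insert y1 N) := by exact_mod_cast hb
  have hNc' : (N.card : ℤ) + 2 = k := by exact_mod_cast hNc
  linarith

namespace L2
variable {k : ℕ} {X P : Finset V} {c x x' u p r : V} {Q Z : Finset V}
  (l : L2 G k X P c x x' u p r Q Z)
include l

/-- the number of vertices outside `Z` -/
theorem zc : (X \ Z).card = 2 * k + 1 := by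
  obtain ⟨hc, hd, hx'T, hxT, hFX⟩ := l.F1c
  have h1 : X \ Z = P ∪ insert x (insert x' (insert r (insert p Q))) := by
    ext w
    rw [mem_sdiff, l.mem_z, mem_union, mem_insert, mem_insert, mem_insert, mem_insert]
    constructor
    · intro h
      tauto
    · rintro (h | h)
      · exact ⟨l.L.F.hP h, fun e => e.2.1 h⟩
      · have h2 := hFX (by
          rw [mem_insert, mem_insert, mem_insert, mem_insert]
          exact h : w ∈ insert x (insert x' (insert r (insert p Q))))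
        refine ⟨h2, fun e => ?_⟩
        tauto
  rw [h1, Finset.card_union_of_disjoint hd]
  have := l.L.F.hPc
  omega

/-- the neighbours in `Z` of the vertices of `P` -/
theorem EP : ∃ E : Finset V, (∀ v ∈ P, ∀ w ∈ Z, G.Adj v w → w ∈ E) ∧
    E.card ≤ 3 * exs G k X P := by
  obtain ⟨h1, h2, h3⟩ := l.ex1
  have hz : ∀ v ∈ P, (nb G X v).card = k → ∀ w ∈ Z, ¬ G.Adj v w := by
    intro v hv hd w hw
    have hw' := l.mem_z.1 hw
    exact l.noP hv hd (mem_sdiff.2 ⟨hw'.1, hw'.2.1⟩) hw'.2.2.1 hw'.2.2.2.1 hw'.2.2.2.2.1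
      hw'.2.2.2.2.2.1
  rcases Nat.eq_zero_or_pos (exs G k X P) with h0 | h0
  · refine ⟨∅, fun v hv w hw hvw => absurd hvw (hz v hv (h2 h0 v hv) w hw), by simp⟩
  · have h4 : exs G k X P = 1 := by omega
    obtain ⟨q, hq, hqd, hoth⟩ := h3 h4
    refine ⟨nb G Z q, fun v hv w hw hvw => ?_, ?_⟩
    · by_cases e : v = q
      · rw [← e]
        exact mem_nb.2 ⟨hw, hvw⟩
      · exact absurd hvw (hz v hv (hoth v hv e) w hw)
    · have h5 := l.L.F.nbH l.B hq
      have h6 := l.nH q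
      omega

/-- case `I` of the second type -/
theorem alpha1 {b t : V} (hbQ : b ∈ Q) (hbt : nb G Z b = {t}) (h1 : ¬ G.Adj b x')
    (h2 : ¬ G.Adj b r) (hf' : (nb G (hb X P x x') x').card + 2 = k) : False := by
  have h5 := l.L.h5
  have nb1 : (nb G Z b).card = 1 := by rw [hbt]; exact Finset.card_singleton t
  obtain ⟨sx1, sx0⟩ := l.szx hbQ h1
  obtain ⟨sr1, _⟩ := l.szr (mem_insert_of_mem hbQ) h2
  have n1 := l.nH x'
  have hnx' : (nb G Z x').card + 2 = k := by omega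
  have hpx' : ad G x' p = 0 := by omega
  have hrx' : ad G x' r = 0 := by omega
  have hQx' : (nb G Q x').card = 0 := by omega
  have hax : ∀ w ∈ Q, ¬ G.Adj w x' := by
    intro w hw h
    rw [Finset.card_eq_zero] at hQx'
    have : w ∈ nb G Q x' := mem_nb.2 ⟨hw, h.symm⟩
    rw [hQx'] at this
    simp at this
  have hps2 : 2 ≤ ps G k Z := by
    have g0 := l.zps0
    obtain ⟨e, he⟩ := ps_even (G := G) k Z
    rw [he] at g0 sx0 ⊢
    have : ¬ (2 * e = 0) := fun h => by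
      have := sx0 h
      omega
    omega
  have hBc := l.Bc
  have hx'c := l.Qx'c
  have hmiss : (nb Gᶜ Q x').card + 2 = k := by omega
  have hpsX := l.L.F.mc.ps_le
  obtain ⟨pc0, pc2⟩ := l.pc2
  have hZ4 : ps G k Z ≤ 4 := by
    have := (l.S (mem_insert_of_mem hbQ) h2).2
    linarith
  rw [ad_comm x' p] at hpx'
  rw [ad_comm x' r] at hrx'
  rw [hpx', hrx'] at hBc
  have hnx'Z : ((nb G Z x').card : ℤ) + 2 = k := by exact_mod_cast hnx'
  have hmissZ : ((nb Gᶜ Q x').card : ℤ) + 2 = k := by exact_mod_cast hmiss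
  have hB : 2 * (exs G k X P : ℤ) + ps G k (hb X P x x') = 4 + ps G k X := by
    push_cast at hBc
    linarith
  have hex0 := Int.natCast_nonneg (exs G k X P)
  -- the transversal
  have htZ : t ∈ Z := (mem_nb.1 (by rw [hbt]; simp : t ∈ nb G Z b)).1
  have htr := l.trx hbQ h1
  rw [hbt, ← Finset.insert_eq] at htr
  obtain ⟨S, hS⟩ : ∃ S, S = insert t (nb G Z x') := ⟨_, rfl⟩
  have hSZ : S ⊆ Z := by
    rw [hS]
    exact Finset.insert_subset htZ (nb_sub _ _)
  have htS : Tr G Z S := by rw [hS]; exact htr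
  have hz1 := l.ztau1 S hSZ htS
  have hSc : S.card + 1 = k := by
    have := Finset.card_insert_le t (nb G Z x')
    rw [hS] at hz1 ⊢
    omega
  have huniq : ∀ w ∈ Q, (nb G Z w).card = 1 → nb G Z w = {t} := by
    intro w hw hc
    obtain ⟨t', ht'⟩ := Finset.card_eq_one.1 hc
    have ht'Z : t' ∈ Z := (mem_nb.1 (by rw [ht']; simp : t' ∈ nb G Z w)).1
    have htr' := l.trx hw (hax w hw)
    rw [ht', ← Finset.insert_eq] at htr'
    have := Lo.uniqR l.L.F.mc l.zX l.zne hZ4 (nb_sub _ _) hnx' ht'Z htZ htr' htr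
    rw [ht', this]
  have hnQ : ∀ w ∈ Q, (nb G Z w \ {t}).card ≤ 2 * ((nb G Z w).card + ad G w r - 1) := by
    intro w hw
    have g1 := (l.dQ hw).2
    rw [ad_zero (hax w hw)] at g1
    by_cases e : (nb G Z w).card = 1
    · rw [huniq w hw e]
      simp
    · have := Finset.card_le_card (Finset.sdiff_subset (s := nb G Z w) (t := {t}))
      omega
  -- `r` is complete to the neighbours of `x'`
  obtain ⟨np1, np2⟩ := l.np1
  have hNx : nb G (hb X P x' x) x' = nb G Z x' := by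
    rw [hb_comm X P x' x]
    symm
    refine Finset.eq_of_subset_of_card_le ?_ (by omega)
    intro w hw
    have hw' := mem_nb.1 hw
    refine mem_nb.2 ⟨?_, hw'.2⟩
    have := l.hbd
    rw [this]
    exact mem_union_right _ hw'.1
  have hrc : ∀ w ∈ nb G Z x', G.Adj r w := by
    obtain ⟨_, _, _, _, r0, hst, _⟩ := l.L.lowT l.B.symm (by rw [hb_comm X P x' x]; exact hf')
      l.Bu (fun e => l.ux' e.symm)
    rw [hNx] at hst
    have hp0 : 2 ≤ (nb Gᶜ (insert p (insert r (nb G Z x'))) p).card := by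
      have g1 : (nb Gᶜ (nb G Z x') p).card ≤
          (nb Gᶜ (insert p (insert r (nb G Z x'))) p).card :=
        Lo.nbcmono ((Finset.subset_insert _ _).trans (Finset.subset_insert _ _)) p
      have g2 := nbc_card' (G := G) (F := nb G Z x') (v := p)
        (fun e => (l.mem_z.1 (mem_nb.1 e).1).2.2.2.2.1 rfl)
      have g3 : (nb G (nb G Z x') p).card ≤ (nb G Z p).card :=
        Finset.card_le_card (nb_mono (nb_sub _ _) p)
      omega
    have hr0 := Lo.centre hst (mem_insert_self _ _) hp0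
    intro w hw
    have hwZ := l.mem_z.1 (mem_nb.1 hw).1
    refine hst.clq r ?_ w ?_ (fun e => hwZ.2.2.2.2.2.1 e.symm)
    · rw [mem_erase, ← hr0]
      exact ⟨l.pr.symm, mem_insert_of_mem (mem_insert_self _ _)⟩
    · rw [mem_erase, ← hr0]
      exact ⟨hwZ.2.2.2.2.1, mem_insert_of_mem (mem_insert_of_mem hw)⟩
  have ha : (nb G Z r \ nb G Z x').card + k = (nb G Z r).card + 2 := by
    have g1 : nb G Z x' ⊆ nb G Z r := fun w hw => mem_nb.2 ⟨(mem_nb.1 hw).1, hrc w hw⟩
    have g2 := Finset.card_sdiff_add_card_eq_card g1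
    omega
  -- the component
  have hk5 : (5 : ℤ) ≤ k := by exact_mod_cast h5
  obtain ⟨_, hbd⟩ := l.L.F.mc.tr34 l.zX l.zne (by linarith) hSZ hSc htS
  obtain ⟨EP, hEP, hEPc⟩ := l.EP
  obtain ⟨D, hD⟩ : ∃ D, D = S.biUnion (fun v => nb G Z v \ S) := ⟨_, rfl⟩
  obtain ⟨U, hU⟩ : ∃ U, U = Q.biUnion (fun v => nb G Z v \ {t}) := ⟨_, rfl⟩
  have hDc : D.card ≤ bd G Z S := by
    rw [hD]
    exact Finset.card_biUnion_le
  have hUc : U.card ≤ 2 * ∑ w ∈ Q, ((nb G Z w).card + ad G w r - 1) := by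
    rw [hU, Finset.mul_sum]
    exact Finset.card_biUnion_le.trans (Finset.sum_le_sum hnQ)
  have hlv := l.L.F.mc.leave h5 (S := S) (E := (nb G Z p ∪ (nb G Z r \ nb G Z x')) ∪
    ((D ∪ U) ∪ EP)) l.zX l.zc l.zal hZ4 hSZ hSc htS ?_ (by linarith)
  · have hZc := l.Zc
    obtain ⟨σ, hσ⟩ : ∃ σ, ∑ w ∈ Q, ((nb G Z w).card + ad G w r - 1) = σ := ⟨_, rfl⟩
    obtain ⟨a, hadef⟩ : ∃ a, (nb G Z r \ nb G Z x').card = a := ⟨_, rfl⟩
    obtain ⟨ex, hexd⟩ : ∃ ex, exs G k X P = ex := ⟨_, rfl⟩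
    obtain ⟨np, hnp⟩ : ∃ np, (nb G Z p).card = np := ⟨_, rfl⟩
    obtain ⟨nr, hnr⟩ : ∃ nr, (nb G Z r).card = nr := ⟨_, rfl⟩
    obtain ⟨β, hβ⟩ : ∃ β, bd G Z S = β := ⟨_, rfl⟩
    obtain ⟨pZ, hpZ⟩ : ∃ pZ, ps G k Z = pZ := ⟨_, rfl⟩
    obtain ⟨pH, hpH⟩ : ∃ pH, ps G k (hb X P x x') = pH := ⟨_, rfl⟩
    have c1 := Finset.card_union_le (nb G Z p ∪ (nb G Z r \ nb G Z x')) ((D ∪ U) ∪ EP)
    have c2 := Finset.card_union_le (nb G Z p) (nb G Z r \ nb G Z x')
    have c3 := Finset.card_union_le (D ∪ U) EP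
    have c4 := Finset.card_union_le D U
    obtain ⟨ev1, hev1⟩ := ps_even (G := G) k Z
    obtain ⟨ev2, hev2⟩ := ps_even (G := G) k (hb X P x x')
    obtain ⟨ev3, hev3⟩ := ps_even (G := G) k X
    have np2' : 1 ≤ ex ∨ ps G k X ≠ -2 → np = 0 := by
      intro h
      rw [← hnp]
      refine (np2 ?_).1
      rcases h with h | h
      · exact Or.inl (by rw [hexd]; exact h)
      · exact Or.inr (Or.inr h)
    rw [hσ] at hZc hUc
    rw [hnr] at hZc ha
    rw [hexd] at hB hEPc hex0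
    rw [hadef] at ha c2
    rw [hnp] at np1 c2
    rw [hβ] at hDc hbd
    rw [hpZ] at hZc hps2 hZ4 hbd hev1
    rw [hpH] at hZc hB pc0 pc2 hev2
    rw [hev3] at hB hpsX np2'
    have ha' : (a : ℤ) + k = nr + 2 := by exact_mod_cast ha
    have hZc' : pZ + 2 * a + 2 * σ ≤ pH + 2 := by
      have g1 := Int.natCast_nonneg ((nb G Z p).card + ad G p r - 1)
      linarith
    clear hZc np2 hBc sx0 hnx'Z hmissZ
    omega
  · -- the neighbours
    intro v hv hvS w hw hvw
    obtain ⟨hwZ, hwS⟩ := mem_sdiff.1 hw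
    rw [mem_union, mem_union, mem_union, mem_union]
    by_cases hvZ : v ∈ Z
    · have hvS' : v ∈ S := by
        by_contra e
        exact hvS (mem_sdiff.2 ⟨hvZ, e⟩)
      refine Or.inr (Or.inl (Or.inl ?_))
      rw [hD, mem_biUnion]
      exact ⟨v, hvS', mem_sdiff.2 ⟨mem_nb.2 ⟨hwZ, hvw⟩, hwS⟩⟩
    · by_cases hvP : v ∈ P
      · exact Or.inr (Or.inr (hEP v hvP w hwZ hvw))
      by_cases hvx : v = x
      · exfalso
        have := l.nx
        rw [Finset.card_eq_zero] at this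
        have hm : w ∈ nb G Z x := mem_nb.2 ⟨hwZ, hvx ▸ hvw⟩
        rw [this] at hm
        simp at hm
      by_cases hvx' : v = x'
      · exfalso
        exact hwS (by rw [hS]; exact mem_insert_of_mem (mem_nb.2 ⟨hwZ, hvx' ▸ hvw⟩))
      by_cases hvp : v = p
      · exact Or.inl (Or.inl (mem_nb.2 ⟨hwZ, hvp ▸ hvw⟩))
      by_cases hvr : v = r
      · refine Or.inl (Or.inr (mem_sdiff.2 ⟨mem_nb.2 ⟨hwZ, hvr ▸ hvw⟩, fun e => hwS ?_⟩))
        rw [hS]
        exact mem_insert_of_mem e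
      · have hvQ : v ∈ Q := by
          by_contra e
          exact hvZ (l.mem_z.2 ⟨hv, hvP, hvx, hvx', hvp, hvr, e⟩)
        refine Or.inr (Or.inl (Or.inr ?_))
        rw [hU, mem_biUnion]
        refine ⟨v, hvQ, mem_sdiff.2 ⟨mem_nb.2 ⟨hwZ, hvw⟩, fun e => hwS ?_⟩⟩
        rw [mem_singleton] at e
        rw [hS, e]
        exact mem_insert_self _ _

end L2

end Pool.Agent.TwoDens.TS
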