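import Pool.Agent.TKS.LO

/-!
Low vertices, second type: structure and numbers.
-/

open Finset

namespace Pool.Agent.TwoDens.TS

open Pool.Agent.TwoDens Pool.Agent.TwoDens.RK Pool.Agent.TwoDens.DD

variable {V : Type*} [DecidableEq V] {G : SimpleGraph V} [DecidableRel G.Adj]

namespace Lo

theorem nbU {A B : Finset V} (hd : Disjoint A B) (v : V) :
    (nb G (A ∪ B) v).card = (nb G A v).card + (nb G B v).card := by
  have h1 : nb G (A ∪ B) v = nb G A v ∪ nb G B v := Finset.filter_union _ _ _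
  rw [h1]
  exact Finset.card_union_of_disjoint (Finset.disjoint_filter_filter hd)

theorem nbI {A : Finset V} {a : V} (ha : a ∉ A) (v : V) :
    (nb G (insert a A) v).card = ad G v a + (nb G A v).card := by
  unfold nb ad
  rw [Finset.filter_insert]
  split_ifs with h
  · rw [Finset.card_insert_of_notMem (fun e => ha (mem_filter.1 e).1)]
    omega
  · omega

theorem nbQ {Q : Finset V} (hq : Clq G Q) {b : V} (hb : b ∈ Q) :
    (nb G Q b).card + 1 = Q.card := by
  have h1 : nb G Q b = Q.erase b := by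
    ext w
    rw [mem_nb, mem_erase]
    constructor
    · rintro ⟨h1, h2⟩
      exact ⟨fun e => G.loopless.irrefl b (e ▸ h2), h1⟩
    · rintro ⟨h1, h2⟩
      exact ⟨h2, hq b hb w h2 (Ne.symm h1)⟩
  rw [h1, Finset.card_erase_add_one hb]

omit [DecidableEq V] in
theorem nbF {Q : Finset V} {v : V} (h : ∀ w ∈ Q, G.Adj v w) : (nb G Q v).card = Q.card := by
  congr 1
  exact Finset.filter_eq_self.2 h

omit [DecidableEq V] in
theorem nbZ {Q : Finset V} {v : V} (h : ∀ w ∈ Q, ¬ G.Adj v w) : (nb G Q v).card = 0 := by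
  rw [Finset.card_eq_zero]
  exact Finset.filter_eq_empty_iff.2 fun {w} hw => h w hw

omit [DecidableEq V] in
theorem two_sum {Q : Finset V} {f : V → ℕ} {a b : V} [DecidableEq V] (ha : a ∈ Q) (hb : b ∈ Q)
    (hab : a ≠ b) : f a + f b ≤ ∑ v ∈ Q, f v := by
  rw [← Finset.sum_pair hab]
  refine Finset.sum_le_sum_of_subset fun v hv => ?_
  rw [mem_insert, mem_singleton] at hv
  rcases hv with rfl | rfl
  · exact ha
  · exact hb

omit [DecidableEq V] in
theorem one_sum {Q : Finset V} {f : V → ℕ} {a : V} (ha : a ∈ Q) : f a ≤ ∑ v ∈ Q, f v :=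
  Finset.single_le_sum (f := f) (fun _ _ => Nat.zero_le _) ha

end Lo

/-- configuration at a low vertex `x` with centre `r` outside the neighbourhood `Q` -/
structure L2 (G : SimpleGraph V) [DecidableRel G.Adj] (k : ℕ) (X P : Finset V)
    (c x x' u p r : V) (Q Z : Finset V) : Prop where
  L : LF G k X P
  B : Base G k X P c x x'
  Bu : Base G k X P u p r
  hQ : nb G (hb X P x x') x = Q
  hZ : hb X P x x' \ insert r (insert p Q) = Z
  hf : Q.card + 2 = k
  xu : ¬ G.Adj x u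
  pH : p ∈ hb X P x x'
  rH : r ∈ hb X P x x'
  pQ : p ∉ Q
  rQ : r ∉ Q
  st : StarT G k (hb X P x x') (insert r (insert p Q)) r

namespace L2
variable {k : ℕ} {X P : Finset V} {c x x' u p r : V} {Q Z : Finset V}
  (l : L2 G k X P c x x' u p r Q Z)
include l

theorem axx : G.Adj x x' := (l.L.low0 l.B (by rw [l.hQ]; exact l.hf)).1

theorem memQ {w : V} : w ∈ Q ↔ (w ∈ X ∧ w ∉ P ∧ w ≠ x ∧ w ≠ x') ∧ G.Adj x w := by
  rw [← l.hQ, mem_nb, mem_hb]

theorem mem_z {w : V} : w ∈ Z ↔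
    w ∈ X ∧ w ∉ P ∧ w ≠ x ∧ w ≠ x' ∧ w ≠ p ∧ w ≠ r ∧ w ∉ Q := by
  rw [← l.hZ, mem_sdiff, mem_hb, mem_insert, mem_insert]
  tauto

theorem zX : Z ⊆ X := fun _ h => (l.mem_z.1 h).1

theorem zne : Z ≠ X := by
  intro e
  have h1 := (mem_sdiff.1 l.B.hx).1
  rw [← e] at h1
  exact (l.mem_z.1 h1).2.2.1 rfl

theorem ux : ¬ G.Adj u x := fun e => l.xu e.symm

theorem ux' : ¬ G.Adj u x' := fun e => l.xu ((l.L.iff _ _ _ l.B u l.Bu.hc l.Bu.deg).2 e).symm

theorem xp : ¬ G.Adj x p := fun e => l.pQ (l.memQ.2 ⟨mem_hb.1 l.pH, e⟩)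

theorem xr : ¬ G.Adj x r := fun e => l.rQ (l.memQ.2 ⟨mem_hb.1 l.rH, e⟩)

theorem pr : p ≠ r := l.Bu.hne

theorem clqQ : Clq G (insert p Q) := by
  have h := l.st.clq
  rw [Finset.erase_insert] at h
  · exact h
  · rw [mem_insert, not_or]
    exact ⟨l.Bu.hne.symm, l.rQ⟩

theorem clqQ' : Clq G Q := Lo.clqsub l.clqQ (Finset.subset_insert _ _)

theorem pb {b : V} (hb : b ∈ Q) : G.Adj p b :=
  l.clqQ p (mem_insert_self _ _) b (mem_insert_of_mem hb) (fun e => l.pQ (e ▸ hb))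

theorem xb {b : V} (hb : b ∈ Q) : G.Adj x b := (l.memQ.1 hb).2

theorem QX : Q ⊆ X := fun _ hw => (l.memQ.1 hw).1.1

theorem Qp {w : V} (hw : w ∈ Q) : w ≠ p := fun e => l.pQ (e ▸ hw)

theorem Qr {w : V} (hw : w ∈ Q) : w ≠ r := fun e => l.rQ (e ▸ hw)

theorem xQ : x ∉ Q := fun e => (l.memQ.1 e).1.2.2.1 rfl

theorem xQ' : x' ∉ Q := fun e => (l.memQ.1 e).1.2.2.2 rfl

theorem QuN {w : V} (hw : w ∈ Q) : ¬ G.Adj u w :=
  l.Bu.na (mem_sdiff.2 ⟨(l.memQ.1 hw).1.1, (l.memQ.1 hw).1.2.1⟩) (l.Qp hw) (l.Qr hw)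

theorem QcN {w : V} (hw : w ∈ Q) : ¬ G.Adj c w :=
  l.B.na (mem_sdiff.2 ⟨(l.memQ.1 hw).1.1, (l.memQ.1 hw).1.2.1⟩) (l.memQ.1 hw).1.2.2.1
    (l.memQ.1 hw).1.2.2.2

theorem xHu : x ∈ hb X P p r :=
  mem_hb.2 ⟨(mem_sdiff.1 l.B.hx).1, (mem_sdiff.1 l.B.hx).2,
    fun e => (mem_hb.1 l.pH).2.2.1 e.symm, fun e => (mem_hb.1 l.rH).2.2.1 e.symm⟩

theorem xHu' : x' ∈ hb X P p r :=
  mem_hb.2 ⟨(mem_sdiff.1 l.B.hx').1, (mem_sdiff.1 l.B.hx').2,
    fun e => (mem_hb.1 l.pH).2.2.2 e.symm, fun e => (mem_hb.1 l.rH).2.2.2 e.symm⟩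

theorem zeq : hb X P p r \ insert x' (insert x Q) = Z := by
  ext w
  rw [l.mem_z, mem_sdiff, mem_hb, mem_insert, mem_insert]
  tauto

theorem rT : r ∉ insert p Q := by
  rw [mem_insert, not_or]
  exact ⟨l.Bu.hne.symm, l.rQ⟩

theorem xT' : x' ∉ insert x Q := by
  rw [mem_insert, not_or]
  exact ⟨l.B.hne.symm, l.xQ'⟩

theorem hbd : hb X P x x' = insert r (insert p Q) ∪ Z := by
  rw [← l.hZ, Finset.union_sdiff_of_subset l.st.hT]

theorem dTZ : Disjoint (insert r (insert p Q)) Z := by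
  rw [← l.hZ]
  exact Finset.disjoint_sdiff

/-- degrees in `H` -/
theorem nH (v : V) : (nb G (hb X P x x') v).card =
    ad G v r + ad G v p + (nb G Q v).card + (nb G Z v).card := by
  rw [l.hbd, Lo.nbU l.dTZ, Lo.nbI l.rT, Lo.nbI l.pQ]
  omega

/-- the star in the other base -/
theorem star2 : StarT G k (hb X P p r) (insert x' (insert x Q)) x' := by
  have hbp := l.L.F.bp _ _ _ l.Bu
  have hcl : cl G (hb X P p r) x = insert x' (insert x Q) := by
    unfold cl
    ext w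
    rw [mem_insert, mem_nb, mem_hb, mem_insert, mem_insert, l.memQ]
    constructor
    · rintro (h | ⟨⟨h1, h2, h3, h4⟩, h5⟩)
      · exact Or.inr (Or.inl h)
      · by_cases e : w = x'
        · exact Or.inl e
        · exact Or.inr (Or.inr ⟨⟨h1, h2, fun e' => G.loopless.irrefl x (e' ▸ h5), e⟩, h5⟩)
    · rintro (h | h | ⟨⟨h1, h2, h3, h4⟩, h5⟩)
      · right
        rw [h]
        exact ⟨mem_hb.1 l.xHu', l.axx⟩
      · exact Or.inl h
      · refine Or.inr ⟨⟨h1, h2, fun e => l.xp (e ▸ h5), fun e => l.xr (e ▸ h5)⟩, h5⟩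
  have htr := tr_cl (G := G) l.xHu
  have hsub := cl_sub (G := G) l.xHu
  rw [hcl] at htr hsub
  refine l.L.F.mc.star_mk hb_sub l.Bu.hbne hbp.ps4 hbp.tau hsub ?_ htr (mem_insert_self _ _) ?_
  · rw [Finset.card_insert_of_notMem l.xT', Finset.card_insert_of_notMem l.xQ]
    exact l.hf
  · rw [Finset.erase_insert l.xT']
    intro a ha b hb hab
    rw [mem_insert] at ha hb
    rcases ha with rfl | ha <;> rcases hb with rfl | hb
    · exact absurd rfl hab
    · exact l.xb hb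
    · exact (l.xb ha).symm
    · exact l.clqQ' a ha b hb hab

theorem hbu : hb X P p r = insert x' (insert x Q) ∪ Z := by
  rw [← l.zeq, Finset.union_sdiff_of_subset l.star2.hT]

theorem dTZ' : Disjoint (insert x' (insert x Q)) Z := by
  rw [← l.zeq]
  exact Finset.disjoint_sdiff

/-- degrees in the other `H` -/
theorem nU (v : V) : (nb G (hb X P p r) v).card =
    ad G v x' + ad G v x + (nb G Q v).card + (nb G Z v).card := by
  rw [l.hbu, Lo.nbU l.dTZ', Lo.nbI l.xT', Lo.nbI l.xQ]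
  omega

theorem zal : al G Z + 2 = al G X := by
  have h1 := l.st.alT
  rw [l.hZ] at h1
  have h2 := (l.L.F.bp _ _ _ l.B).alH
  omega

theorem nx : (nb G Z x).card = 0 := Lo.nbZ fun w hw h => by
  have h1 := l.mem_z.1 hw
  exact h1.2.2.2.2.2.2 (l.memQ.2 ⟨⟨h1.1, h1.2.1, h1.2.2.1, h1.2.2.2.1⟩, h⟩)

theorem Qb {b : V} (hb : b ∈ Q) : (nb G Q b).card + 3 = k := by
  have := Lo.nbQ l.clqQ' hb
  have := l.hf
  omega

theorem Qpc : (nb G Q p).card + 2 = k := by
  have := Lo.nbF (G := G) (Q := Q) (v := p) fun w hw => l.pb hw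
  have := l.hf
  omega

theorem Qxc : (nb G Q x).card + 2 = k := by
  have := Lo.nbF (G := G) (Q := Q) (v := x) fun w hw => l.xb hw
  have := l.hf
  omega

theorem Qrc : (nb G Q r).card + (nb Gᶜ Q r).card + 2 = k := by
  have := nbc_card' (G := G) l.rQ
  have := l.hf
  omega

theorem Qx'c : (nb G Q x').card + (nb Gᶜ Q x').card + 2 = k := by
  have := nbc_card' (G := G) l.xQ'
  have := l.hf
  omega

/-- numbers of neighbours of `b` in `Z` -/
theorem dQ {b : V} (hb : b ∈ Q) : 1 ≤ (nb G Z b).card + ad G b r ∧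
    1 ≤ (nb G Z b).card + ad G b x' := by
  have t1 := (l.L.F.bp _ _ _ l.B).tau
  have t2 := (l.L.F.bp _ _ _ l.Bu).tau
  have d1 := t1.deg (l.st.hT (mem_insert_of_mem (mem_insert_of_mem hb)))
  have d2 := t2.deg (l.star2.hT (mem_insert_of_mem (mem_insert_of_mem hb)))
  rw [l.nH, ad_one (l.pb hb).symm] at d1
  rw [l.nU, ad_one (l.xb hb).symm] at d2
  have := l.Qb hb
  omega

theorem dp : 1 ≤ (nb G Z p).card + ad G p r := by
  have t1 := (l.L.F.bp _ _ _ l.B).tau
  have d1 := t1.deg l.pH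
  rw [l.nH, ad_zero (G.loopless.irrefl p)] at d1
  have := l.Qpc
  omega

/-- (Zc) -/
theorem Zc : ps G k Z + 2 * ((nb G Z r).card : ℤ) +
    2 * ((∑ b ∈ Q, ((nb G Z b).card + ad G b r - 1) : ℕ) : ℤ) +
    2 * (((nb G Z p).card + ad G p r - 1 : ℕ) : ℤ) = ps G k (hb X P x x') + 2 * k - 2 := by
  have h1 := l.st.psT
  rw [Finset.erase_insert l.rT, l.hZ] at h1
  have h2 : (nb G (hb X P x x') r \ insert r (insert p Q)).card = (nb G Z r).card := by
    congr 1
    rw [← l.hZ]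
    ext v
    rw [mem_sdiff, mem_nb, mem_nb, mem_sdiff]
    tauto
  have h3 : exs G (k - 1) (hb X P x x') (insert p Q) =
      ((nb G Z p).card + ad G p r - 1) + ∑ b ∈ Q, ((nb G Z b).card + ad G b r - 1) := by
    unfold exs
    rw [Finset.sum_insert l.pQ]
    have hp : (nb G (hb X P x x') p).card - (k - 1) = (nb G Z p).card + ad G p r - 1 := by
      rw [l.nH, ad_zero (G.loopless.irrefl p)]
      have := l.Qpc
      omega
    rw [hp]
    congr 1
    refine Finset.sum_congr rfl fun b hb => ?_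
    rw [l.nH, ad_one (l.pb hb).symm]
    have := l.Qb hb
    omega
  rw [h2, h3] at h1
  push_cast at h1 ⊢
  linarith

/-- (Zu) -/
theorem Zu : ps G k Z + 2 * ((nb G Z x').card : ℤ) +
    2 * ((∑ b ∈ Q, ((nb G Z b).card + ad G b x' - 1) : ℕ) : ℤ) =
    ps G k (hb X P p r) + 2 * k - 2 := by
  have h1 := l.star2.psT
  rw [Finset.erase_insert l.xT', l.zeq] at h1
  have h2 : (nb G (hb X P p r) x' \ insert x' (insert x Q)).card = (nb G Z x').card := by
    congr 1
    rw [← l.zeq]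
    ext v
    rw [mem_sdiff, mem_nb, mem_nb, mem_sdiff]
    tauto
  have h3 : exs G (k - 1) (hb X P p r) (insert x Q) =
      ∑ b ∈ Q, ((nb G Z b).card + ad G b x' - 1) := by
    unfold exs
    rw [Finset.sum_insert l.xQ]
    have hp : (nb G (hb X P p r) x).card - (k - 1) = 0 := by
      rw [l.nU, ad_zero (G.loopless.irrefl x), ad_one l.axx, l.nx]
      have := l.Qxc
      omega
    rw [hp, Nat.zero_add]
    refine Finset.sum_congr rfl fun b hb => ?_
    rw [l.nU, ad_one (l.xb hb).symm]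
    have := l.Qb hb
    omega
  rw [h2, h3] at h1
  push_cast at h1 ⊢
  linarith

/-- the number of neighbours of `x'` -/
theorem Nx' : (nb G (hb X P x x') x').card + (nb Gᶜ Q x').card + 2 =
    k + (nb G Z x').card + ad G p x' + ad G r x' := by
  rw [l.nH, ad_comm x' r, ad_comm x' p]
  have := l.Qx'c
  omega

/-- (B*) at the base `c` -/
theorem Bc : 2 * ((nb G Z x').card : ℤ) + 2 * (ad G p x' : ℤ) + 2 * (ad G r x' : ℤ) +
    2 * (exs G k X P : ℤ) + ps G k (hb X P x x') =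
    4 + 2 * ((nb Gᶜ Q x').card : ℤ) + ps G k X := by
  have h1 := (l.L.low0 l.B (by rw [l.hQ]; exact l.hf)).2
  have h2 := l.Nx'
  have h3 : ((nb G (hb X P x x') x').card : ℤ) + (nb Gᶜ Q x').card + 2 =
    k + (nb G Z x').card + ad G p x' + ad G r x' := by exact_mod_cast h2
  linarith

theorem Up : (nb G (hb X P p r) p).card + 2 = k + (nb G Z p).card + ad G p x' := by
  rw [l.nU, ad_zero (fun e => l.xp e.symm)]
  have := l.Qpc
  omega

theorem Ur : (nb G (hb X P p r) r).card + (nb Gᶜ Q r).card + 2 =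
    k + (nb G Z r).card + ad G r x' := by
  rw [l.nU, ad_zero (fun e => l.xr e.symm)]
  have := l.Qrc
  omega

/-- (B*) at the base `u` -/
theorem U : 2 * ((nb G Z p).card : ℤ) + 2 * (ad G p x' : ℤ) + 2 * ((nb G Z r).card : ℤ) +
    2 * (ad G r x' : ℤ) + 2 * (ad G p r : ℤ) + 2 * (exs G k X P : ℤ) +
    ps G k (hb X P p r) = 6 + 2 * ((nb Gᶜ Q r).card : ℤ) + ps G k X := by
  have h1 := (l.L.F.bp _ _ _ l.Bu).bstar
  have h2 := l.Up
  have h3 := l.Ur
  have h4 : (if G.Adj p r then 1 else 0 : ℤ) = (ad G p r : ℤ) := by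
    unfold ad
    push_cast
    rfl
  have h5 : ((nb G (hb X P p r) p).card : ℤ) + 2 = k + (nb G Z p).card + ad G p x' := by
    exact_mod_cast h2
  have h6 : ((nb G (hb X P p r) r).card : ℤ) + (nb Gᶜ Q r).card + 2 =
    k + (nb G Z r).card + ad G r x' := by exact_mod_cast h3
  rw [h4] at h1
  linarith

/-- lower bounds: `x'` and `r` have at least `k - 2` neighbours, `k - 1` if the pair is not
adjacent -/
theorem gx' : (nb Gᶜ Q x').card ≤ (nb G Z x').card + ad G p x' + ad G r x' := by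
  have h1 := l.L.ge2 l.B.symm
  rw [hb_comm X P x' x] at h1
  have h2 := l.Nx'
  omega

theorem gr : (nb Gᶜ Q r).card ≤ (nb G Z r).card + ad G r x' := by
  have h1 := l.L.ge2 l.Bu.symm
  rw [hb_comm X P r p] at h1
  have h2 := l.Ur
  omega

theorem gpr (h : ad G p r = 0) : (nb Gᶜ Q r).card + 1 ≤ (nb G Z r).card + ad G r x' ∧
    1 ≤ (nb G Z p).card + ad G p x' := by
  have hn : ¬ G.Adj p r := fun e => by rw [ad_one e] at h; omega
  have h1 := l.L.num l.Bu.symm
  rw [hb_comm X P r p] at h1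
  have h2 := l.Ur
  have h3 := l.L.num l.Bu
  have h4 := l.Up
  have h5 := h1.resolve_right (fun e => hn e.symm)
  have h6 := h3.resolve_right hn
  omega

/-- (*) -/
theorem np1 : (nb G Z p).card + ad G p x' ≤ 1 ∧
    (1 ≤ exs G k X P ∨ ps G k (hb X P p r) ≠ 0 ∨ ps G k X ≠ -2 →
      (nb G Z p).card = 0 ∧ ad G p x' = 0 ∧ ad G p r = 1 ∧
      (nb G Z r).card + ad G r x' = (nb Gᶜ Q r).card ∧
      2 * (exs G k X P : ℤ) + ps G k (hb X P p r) = 4 + ps G k X) := by
  have h1 := l.U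
  have h2 := l.gr
  have h3 := l.L.F.mc.ps_le
  have h4 := (l.L.F.bp _ _ _ l.Bu).ps0
  have h5 := l.gpr
  have h6 := ad_le (G := G) p r
  obtain ⟨e1, he1⟩ := ps_even (G := G) k (hb X P p r)
  obtain ⟨e2', he2⟩ := ps_even (G := G) k X
  rw [he1] at h1 h4 ⊢
  rw [he2] at h1 h3 ⊢
  omega

theorem zps0 : 0 ≤ ps G k Z := l.L.F.mc.hmin Z l.zX l.zne

/-- transversality for a vertex not adjacent to `x'` -/
theorem trx {w : V} (hw : w ∈ Q) (h : ¬ G.Adj w x') : Tr G Z (nb G Z w ∪ nb G Z x') := by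
  have hal := l.zal
  have hwm := l.memQ.1 hw
  have huX := l.L.F.hP l.Bu.hc
  have hx'X := (mem_sdiff.1 l.B.hx').1
  have hux : u ≠ x' := fun e => (mem_sdiff.1 l.B.hx').2 (e ▸ l.Bu.hc)
  have huw : u ≠ w := fun e => hwm.1.2.1 (e ▸ l.Bu.hc)
  have hwx : w ≠ x' := hwm.1.2.2.2
  refine tr_nbr (X := X) (J := {u, w, x'}) l.zX ?_ ?_ ?_ ?_ ?_
  · intro v hv
    rw [mem_insert, mem_insert, mem_singleton] at hv
    rcases hv with rfl | rfl | rfl
    · exact huX
    · exact hwm.1.1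
    · exact hx'X
  · rw [Finset.disjoint_left]
    intro v hv hv'
    have hv2 := l.mem_z.1 hv'
    rw [mem_insert, mem_insert, mem_singleton] at hv
    rcases hv with rfl | rfl | rfl
    · exact hv2.2.1 l.Bu.hc
    · exact hv2.2.2.2.2.2.2 hw
    · exact hv2.2.2.2.1 rfl
  · refine indep_insert (indep_insert (by simp) ?_) ?_
    · intro v hv
      rw [mem_singleton] at hv
      rw [hv]
      exact h
    · intro v hv
      rw [mem_insert, mem_singleton] at hv
      rcases hv with rfl | rfl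
      · exact l.QuN hw
      · exact l.ux'
  · have : ({u, w, x'} : Finset V).card = 3 := by
      rw [Finset.card_insert_of_notMem, Finset.card_pair hwx]
      rw [mem_insert, mem_singleton, not_or]
      exact ⟨huw, hux⟩
    omega
  · intro v hv z hz hvz
    rw [mem_insert, mem_insert, mem_singleton] at hv
    have hz2 := l.mem_z.1 hz
    rcases hv with rfl | rfl | rfl
    · exact absurd hvz (l.Bu.na (mem_sdiff.2 ⟨hz2.1, hz2.2.1⟩) hz2.2.2.2.2.1 hz2.2.2.2.2.2.1)
    · exact mem_union_left _ (mem_nb.2 ⟨hz, hvz⟩)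
    · exact mem_union_right _ (mem_nb.2 ⟨hz, hvz⟩)

/-- transversality for a vertex not adjacent to `r` -/
theorem trr {w : V} (hw : w ∈ insert p Q) (h : ¬ G.Adj w r) :
    Tr G Z (nb G Z w ∪ nb G Z r) := by
  have hal := l.zal
  have hwH : w ∈ hb X P x x' := l.st.hT (mem_insert_of_mem hw)
  have hwm := mem_hb.1 hwH
  have hcX := l.L.F.hP l.B.hc
  have hrm := mem_hb.1 l.rH
  have hcr : c ≠ r := fun e => hrm.2.1 (e ▸ l.B.hc)
  have hcw : c ≠ w := fun e => hwm.2.1 (e ▸ l.B.hc)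
  have hwr : w ≠ r := fun e => l.rT (e ▸ hw)
  refine tr_nbr (X := X) (J := {c, w, r}) l.zX ?_ ?_ ?_ ?_ ?_
  · intro v hv
    rw [mem_insert, mem_insert, mem_singleton] at hv
    rcases hv with rfl | rfl | rfl
    · exact hcX
    · exact hwm.1
    · exact hrm.1
  · rw [Finset.disjoint_left]
    intro v hv hv'
    have hv2 := l.mem_z.1 hv'
    rw [mem_insert, mem_insert, mem_singleton] at hv
    rcases hv with rfl | rfl | rfl
    · exact hv2.2.1 l.B.hc
    · rcases mem_insert.1 hw with h1 | h1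
      · exact hv2.2.2.2.2.1 h1
      · exact hv2.2.2.2.2.2.2 h1
    · exact hv2.2.2.2.2.2.1 rfl
  · refine indep_insert (indep_insert (by simp) ?_) ?_
    · intro v hv
      rw [mem_singleton] at hv
      rw [hv]
      exact h
    · intro v hv
      rw [mem_insert, mem_singleton] at hv
      rcases hv with rfl | rfl
      · exact l.B.na (mem_sdiff.2 ⟨hwm.1, hwm.2.1⟩) hwm.2.2.1 hwm.2.2.2
      · exact l.B.na (mem_sdiff.2 ⟨hrm.1, hrm.2.1⟩) hrm.2.2.1 hrm.2.2.2
  · have : ({c, w, r} : Finset V).card = 3 := by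
      rw [Finset.card_insert_of_notMem, Finset.card_pair hwr]
      rw [mem_insert, mem_singleton, not_or]
      exact ⟨hcw, hcr⟩
    omega
  · intro v hv z hz hvz
    rw [mem_insert, mem_insert, mem_singleton] at hv
    have hz2 := l.mem_z.1 hz
    rcases hv with rfl | rfl | rfl
    · exact absurd hvz (l.B.na (mem_sdiff.2 ⟨hz2.1, hz2.2.1⟩) hz2.2.2.1 hz2.2.2.2.1)
    · exact mem_union_left _ (mem_nb.2 ⟨hz, hvz⟩)
    · exact mem_union_right _ (mem_nb.2 ⟨hz, hvz⟩)

/-- transversality for a vertex of `P` not adjacent to `x` and `p` -/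
theorem trP {v : V} (hv : v ∈ P) (h : ¬ G.Adj v x) (h' : ¬ G.Adj v p) :
    Tr G Z (nb G Z v ∪ nb G Z p) := by
  have hal := l.zal
  have hpm := mem_hb.1 l.pH
  have hxm := mem_sdiff.1 l.B.hx
  have hvX := l.L.F.hP hv
  have hvx : v ≠ x := fun e => hxm.2 (e ▸ hv)
  have hvp : v ≠ p := fun e => hpm.2.1 (e ▸ hv)
  have hxp : x ≠ p := fun e => hpm.2.2.1 e.symm
  have hnx := l.nx
  rw [Finset.card_eq_zero] at hnx
  refine tr_nbr (X := X) (J := {v, x, p}) l.zX ?_ ?_ ?_ ?_ ?_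
  · intro w hw
    rw [mem_insert, mem_insert, mem_singleton] at hw
    rcases hw with rfl | rfl | rfl
    · exact hvX
    · exact hxm.1
    · exact hpm.1
  · rw [Finset.disjoint_left]
    intro w hw hw'
    have hv2 := l.mem_z.1 hw'
    rw [mem_insert, mem_insert, mem_singleton] at hw
    rcases hw with rfl | rfl | rfl
    · exact hv2.2.1 hv
    · exact hv2.2.2.1 rfl
    · exact hv2.2.2.2.2.1 rfl
  · refine indep_insert (indep_insert (by simp) ?_) ?_
    · intro w hw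
      rw [mem_singleton] at hw
      rw [hw]
      exact l.xp
    · intro w hw
      rw [mem_insert, mem_singleton] at hw
      rcases hw with rfl | rfl
      · exact h
      · exact h'
  · have : ({v, x, p} : Finset V).card = 3 := by
      rw [Finset.card_insert_of_notMem, Finset.card_pair hxp]
      rw [mem_insert, mem_singleton, not_or]
      exact ⟨hvx, hvp⟩
    omega
  · intro w hw z hz hwz
    rw [mem_insert, mem_insert, mem_singleton] at hw
    rcases hw with rfl | rfl | rfl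
    · exact mem_union_left _ (mem_nb.2 ⟨hz, hwz⟩)
    · exfalso
      have : z ∈ nb G Z w := mem_nb.2 ⟨hz, hwz⟩
      rw [hnx] at this
      simp at this
    · exact mem_union_right _ (mem_nb.2 ⟨hz, hwz⟩)

/-- the potential of `H` is at most two -/
theorem pc2 : 0 ≤ ps G k (hb X P x x') ∧ ps G k (hb X P x x') ≤ 2 :=
  ⟨(l.L.F.bp _ _ _ l.B).ps0, l.L.ps2 l.B (by rw [l.hQ]; exact l.hf)⟩

theorem ztau1 : TauGe G Z (k - 1) := by
  have h1 := l.Zc
  have h2 := l.pc2
  have h3 := Int.natCast_nonneg ((nb G Z r).card)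
  have h4 := Int.natCast_nonneg (∑ b ∈ Q, ((nb G Z b).card + ad G b r - 1))
  have h5 := Int.natCast_nonneg ((nb G Z p).card + ad G p r - 1)
  exact l.L.F.mc.tau1 l.zX l.zne (by linarith)

theorem ztau0 (h : ps G k Z = 0) : TauGe G Z k :=
  l.L.F.mc.tau0 l.zX l.zne (by rw [h]; norm_num)

/-- sizes of the transversals -/
theorem szr {w : V} (hw : w ∈ insert p Q) (h : ¬ G.Adj w r) :
    k ≤ (nb G Z w).card + (nb G Z r).card + 1 ∧
    (ps G k Z = 0 → k ≤ (nb G Z w).card + (nb G Z r).card) := by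
  have hk := l.L.F.mc.hk
  have h1 := l.trr hw h
  have h2 := Finset.card_union_le (nb G Z w) (nb G Z r)
  have h3 := l.ztau1 _ (Finset.union_subset (nb_sub _ _) (nb_sub _ _)) h1
  refine ⟨by omega, fun h0 => ?_⟩
  have h4 := l.ztau0 h0 _ (Finset.union_subset (nb_sub _ _) (nb_sub _ _)) h1
  omega

theorem szx {w : V} (hw : w ∈ Q) (h : ¬ G.Adj w x') :
    k ≤ (nb G Z w).card + (nb G Z x').card + 1 ∧
    (ps G k Z = 0 → k ≤ (nb G Z w).card + (nb G Z x').card) := by
  have hk := l.L.F.mc.hk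
  have h1 := l.trx hw h
  have h2 := Finset.card_union_le (nb G Z w) (nb G Z x')
  have h3 := l.ztau1 _ (Finset.union_subset (nb_sub _ _) (nb_sub _ _)) h1
  refine ⟨by omega, fun h0 => ?_⟩
  have h4 := l.ztau0 h0 _ (Finset.union_subset (nb_sub _ _) (nb_sub _ _)) h1
  omega

/-- (S) -/
theorem S {w : V} (hw : w ∈ insert p Q) (h : ¬ G.Adj w r) :
    2 * ((∑ b ∈ Q, ((nb G Z b).card + ad G b r - 1) : ℕ) : ℤ) +
    2 * (((nb G Z p).card + ad G p r - 1 : ℕ) : ℤ) + 2 ≤
      ps G k (hb X P x x') + 2 * ((nb G Z w).card : ℤ) ∧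
    ps G k Z ≤ ps G k (hb X P x x') + 2 := by
  have h1 := l.Zc
  obtain ⟨h2, h3⟩ := l.szr hw h
  have h0 := l.zps0
  obtain ⟨e, he⟩ := ps_even (G := G) k Z
  have h2' : (k : ℤ) ≤ (nb G Z w).card + (nb G Z r).card + 1 := by exact_mod_cast h2
  have hS : 2 * ((∑ b ∈ Q, ((nb G Z b).card + ad G b r - 1) : ℕ) : ℤ) +
      2 * (((nb G Z p).card + ad G p r - 1 : ℕ) : ℤ) + 2 ≤
      ps G k (hb X P x x') + 2 * ((nb G Z w).card : ℤ) := by
    by_cases hz : ps G k Z = 0
    · have h3' : (k : ℤ) ≤ (nb G Z w).card + (nb G Z r).card := by exact_mod_cast h3 hz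
      linarith
    · have : 2 ≤ ps G k Z := by omega
      linarith
  refine ⟨hS, ?_⟩
  -- the excess of `w` is part of the sum
  have hw1 : (nb G Z w).card ≤ (∑ b ∈ Q, ((nb G Z b).card + ad G b r - 1)) +
      ((nb G Z p).card + ad G p r - 1) + 1 := by
    rcases mem_insert.1 hw with rfl | hwQ
    · omega
    · have := Lo.one_sum (f := fun b => (nb G Z b).card + ad G b r - 1) hwQ
      omega
  have hw1' : ((nb G Z w).card : ℤ) ≤
      ((∑ b ∈ Q, ((nb G Z b).card + ad G b r - 1) : ℕ) : ℤ) +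
      (((nb G Z p).card + ad G p r - 1 : ℕ) : ℤ) + 1 := by exact_mod_cast hw1
  linarith

/-- (S) at the other base -/
theorem Su {w : V} (hw : w ∈ Q) (h : ¬ G.Adj w x') :
    2 * ((∑ b ∈ Q, ((nb G Z b).card + ad G b x' - 1) : ℕ) : ℤ) + 2 ≤
      ps G k (hb X P p r) + 2 * ((nb G Z w).card : ℤ) := by
  have h1 := l.Zu
  obtain ⟨h2, h3⟩ := l.szx hw h
  have h0 := l.zps0
  obtain ⟨e, he⟩ := ps_even (G := G) k Z
  have h2' : (k : ℤ) ≤ (nb G Z w).card + (nb G Z x').card + 1 := by exact_mod_cast h2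
  by_cases hz : ps G k Z = 0
  · have h3' : (k : ℤ) ≤ (nb G Z w).card + (nb G Z x').card := by exact_mod_cast h3 hz
    linarith
  · have : 2 ≤ ps G k Z := by omega
    linarith

/-- (t) there is no third class -/
theorem third {v : V} (hv : v ∈ P) (hd : (nb G X v).card = k) (h : ¬ G.Adj v x) :
    G.Adj v p := by
  by_contra hvp
  have h5 := l.L.h5
  have h1 := l.trP hv h hvp
  have h2 := l.ztau1 _ (Finset.union_subset (nb_sub _ _) (nb_sub _ _)) h1
  have h3 := Finset.card_union_le (nb G Z v) (nb G Z p)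
  have h4 := l.np1.1
  have h6 := l.L.F.nbH l.B hv
  have h7 : (nb G Z v).card ≤ (nb G (hb X P x x') v).card := by
    rw [l.nH]
    omega
  omega

/-- the neighbours outside `P` of the vertices of `P` of degree `k` -/
theorem noP {v w : V} (hv : v ∈ P) (hd : (nb G X v).card = k) (hw : w ∈ X \ P) (h1 : w ≠ x)
    (h2 : w ≠ x') (h3 : w ≠ p) (h4 : w ≠ r) : ¬ G.Adj v w := by
  by_cases hvx : G.Adj v x
  · have hB := base_mk2 l.B.hP l.B.hPc l.B.hPq hv hd l.B.hx l.B.hx' l.B.hne hvx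
      ((l.L.iff _ _ _ l.B v hv hd).1 hvx)
    exact hB.na hw h1 h2
  · have hvp := l.third hv hd hvx
    have hB := base_mk2 l.B.hP l.B.hPc l.B.hPq hv hd l.Bu.hx l.Bu.hx' l.Bu.hne hvp
      ((l.L.iff _ _ _ l.Bu v hv hd).1 hvp)
    exact hB.na hw h3 h4

/-- the degree of `b` -/
theorem degb {b : V} (hbQ : b ∈ Q) : (nb G X b).card + 1 =
    k + ad G b x' + ad G b r + (nb G P b).card + (nb G Z b).card := by
  have hbm := l.memQ.1 hbQ
  have h1 : X = P ∪ insert x (insert x' (hb X P x x')) := by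
    ext w
    rw [mem_union, mem_insert, mem_insert, mem_hb]
    have hx := mem_sdiff.1 l.B.hx
    have hx' := mem_sdiff.1 l.B.hx'
    have hP := l.L.F.hP
    constructor
    · intro h
      tauto
    · rintro (h | h | h | h)
      · exact hP h
      · rw [h]; exact hx.1
      · rw [h]; exact hx'.1
      · exact h.1
  have h2 : Disjoint P (insert x (insert x' (hb X P x x'))) := by
    rw [Finset.disjoint_left]
    intro w hw hw'
    rw [mem_insert, mem_insert, mem_hb] at hw'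
    have hx := mem_sdiff.1 l.B.hx
    have hx' := mem_sdiff.1 l.B.hx'
    rcases hw' with h | h | h
    · exact hx.2 (h ▸ hw)
    · exact hx'.2 (h ▸ hw)
    · exact h.2.1 hw
  have h3 : x' ∉ hb X P x x' := fun e => (mem_hb.1 e).2.2.2 rfl
  have h4 : x ∉ insert x' (hb X P x x') := by
    rw [mem_insert, not_or]
    exact ⟨l.B.hne, fun e => (mem_hb.1 e).2.2.1 rfl⟩
  have h5 : (nb G X b).card = (nb G P b).card + (ad G b x + (ad G b x' +
      (nb G (hb X P x x') b).card)) := by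
    conv_lhs => rw [h1]
    rw [Lo.nbU h2, Lo.nbI h4, Lo.nbI h3]
  rw [h5, l.nH, ad_one (l.xb hbQ).symm, ad_one (l.pb hbQ).symm]
  have := l.Qb hbQ
  omega

end L2

end Pool.Agent.TwoDens.TS
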