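import Pool.Agent.TKS.LU
import Pool.Agent.TKS.LP

/-!
Low vertices, second type, a vertex of degree `k` in the star, case II.
-/

open Finset

namespace Pool.Agent.TwoDens.TS

open Pool.Agent.TwoDens Pool.Agent.TwoDens.RK Pool.Agent.TwoDens.DD

variable {V : Type*} [DecidableEq V] {G : SimpleGraph V} [DecidableRel G.Adj]

namespace L2
variable {k : ℕ} {X P : Finset V} {c x x' u p r : V} {Q Z : Finset V}
  (l : L2 G k X P c x x' u p r Q Z)
include l

theorem cardXZ : (X \ Z).card = 2 * k + 1 := by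
  have h1 := Finset.card_sdiff_add_card_eq_card l.zX
  have h2 := Finset.card_sdiff_add_card_eq_card l.st.hT
  rw [l.hZ, l.st.hc] at h2
  have h3 := Finset.card_sdiff_add_card_eq_card l.L.F.hP
  have h4 : ({x, x'} : Finset V) ⊆ X \ P := by
    intro w hw
    rw [mem_insert, mem_singleton] at hw
    rcases hw with rfl | rfl
    · exact l.B.hx
    · exact l.B.hx'
  have h5 := Finset.card_sdiff_add_card_eq_card h4
  rw [Finset.card_pair l.B.hne] at h5
  have h6 : (hb X P x x').card = ((X \ P) \ {x, x'}).card := rfl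
  have h7 := l.L.F.hPc
  omega

theorem cov {v : V} (hv : v ∈ X) (hvZ : v ∉ Z) :
    v ∈ P ∨ v = x ∨ v = x' ∨ v = p ∨ v = r ∨ v ∈ Q := by
  by_contra hcon
  push Not at hcon
  exact hvZ (l.mem_z.2 ⟨hv, hcon.1, hcon.2.1, hcon.2.2.1, hcon.2.2.2.1, hcon.2.2.2.2.1,
    hcon.2.2.2.2.2⟩)

theorem alpha2 {b t : V} (hbQ : b ∈ Q) (hbt : nb G Z b = {t}) (h1 : ¬ G.Adj b x')
    (h2 : ¬ G.Adj b r) (hex : exs G k X P = 0) (hpc : ps G k (hb X P x x') = 0)
    (hpX : ps G k X = -2) (hf' : (nb G (hb X P x x') x').card + 1 = k) : False := by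
  have h5 := l.L.h5
  have hM := l.L.F.mc
  have hdeg : ∀ v ∈ P, (nb G X v).card = k := by
    intro v hv
    have g1 := l.L.F.deg_ge (l.L.F.hP hv)
    unfold exs at hex
    rw [Finset.sum_eq_zero_iff] at hex
    have g2 := hex v hv
    omega
  have hPZ : ∀ v ∈ P, ∀ w ∈ Z, ¬ G.Adj v w := by
    intro v hv w hw
    have hw' := l.mem_z.1 hw
    exact l.noP hv (hdeg v hv) (mem_sdiff.2 ⟨hw'.1, hw'.2.1⟩) hw'.2.2.1 hw'.2.2.2.1
      hw'.2.2.2.2.1 hw'.2.2.2.2.2.1
  have hxZ : ∀ w ∈ Z, ¬ G.Adj x w := by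
    intro w hw hxw
    have g1 := l.nx
    rw [Finset.card_eq_zero] at g1
    have g2 : w ∈ nb G Z x := mem_nb.2 ⟨hw, hxw⟩
    rw [g1] at g2
    exact Finset.notMem_empty _ g2
  have hZc := l.Zc
  rw [hpc] at hZc
  have hbn : (nb G Z b).card = 1 := by rw [hbt, Finset.card_singleton]
  have hs := l.szr (mem_insert_of_mem hbQ) h2
  have hsx := l.szx hbQ h1
  rw [hbn] at hs hsx
  have hz0 := l.zps0
  obtain ⟨e, he⟩ := ps_even (G := G) k Z
  obtain ⟨sg, hsg⟩ : ∃ sg, ∑ b ∈ Q, ((nb G Z b).card + ad G b r - 1) = sg := ⟨_, rfl⟩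
  obtain ⟨pg, hpg⟩ : ∃ pg, (nb G Z p).card + ad G p r - 1 = pg := ⟨_, rfl⟩
  rw [hsg, hpg] at hZc
  have hnr : (k : ℤ) ≤ 1 + (nb G Z r).card + 1 := by exact_mod_cast hs.1
  have hsg0 : (0 : ℤ) ≤ sg := Int.natCast_nonneg _
  have hpg0 : (0 : ℤ) ≤ pg := Int.natCast_nonneg _
  have hf2 := l.nH x'
  have hcase : ps G k Z = 0 ∨ ps G k Z = 2 := by omega
  -- the excess vanishes
  have hboth : sg = 0 ∧ pg = 0 := by
    rcases hcase with h | h
    · have g1 : (k : ℤ) ≤ 1 + (nb G Z r).card := by exact_mod_cast hs.2 h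
      omega
    · omega
  obtain ⟨hsg1, hpg1⟩ := hboth
  rw [hsg1] at hsg
  rw [Finset.sum_eq_zero_iff] at hsg
  have hone : ∀ v ∈ insert p Q, (nb G Z v).card + ad G v r = 1 := by
    intro v hv
    rcases mem_insert.1 hv with h | h
    · rw [h]
      have := l.dp
      omega
    · have g1 := hsg v h
      have g2 := (l.dQ h).1
      omega
  have htrr : ∀ v ∈ insert p Q, ¬ G.Adj v r → ∃ s, nb G Z v = {s} ∧
      Tr G Z (insert s (nb G Z r)) := by
    intro v hv hvr
    have g1 := hone v hv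
    rw [ad_zero hvr] at g1
    obtain ⟨s, hs'⟩ := Finset.card_eq_one.1 g1
    refine ⟨s, hs', ?_⟩
    have g2 := l.trr hv hvr
    rw [hs'] at g2
    exact g2
  have hfx : (nb G Z x').card ≤ (nb G (hb X P x x') x').card := by omega
  rcases hcase with h | h
  · -- potential zero
    have g1 := hs.2 h
    have g2 := hsx.2 h
    have hnr2 : (nb G Z r).card + 1 = k := by
      have : (k : ℤ) ≤ 1 + (nb G Z r).card := by exact_mod_cast g1
      omega
    have hnx2 : (nb G Z x').card + 1 = k := by omega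
    have hQx : (nb G Q x').card = 0 := by omega
    have hQx' : ∀ v ∈ Q, ¬ G.Adj v x' := by
      intro v hv hvx
      rw [Finset.card_eq_zero] at hQx
      have : v ∈ nb G Q x' := mem_nb.2 ⟨hv, hvx.symm⟩
      rw [hQx] at this
      exact Finset.notMem_empty _ this
    have hrm := mem_hb.1 l.rH
    have hrZ : r ∉ Z := fun e' => (l.mem_z.1 e').2.2.2.2.2.1 rfl
    have hxZ' : x' ∉ Z := fun e' => (l.mem_z.1 e').2.2.2.1 rfl
    refine hM.al2b h5 (B0 := Q) (N0 := insert x P) (ρ := p) (x' := x') (r := r) l.zX l.zal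
      (by rw [h]; norm_num) hrm.1 hrZ (mem_sdiff.1 l.B.hx').1 hxZ' ?_ ?_ ?_ hnr2 hnx2 ?_ l.clqQ
      ⟨b, hbQ⟩ ?_
    · intro v hv hvZ
      rw [mem_insert]
      rcases l.cov hv hvZ with g | g | g | g | g | g
      · exact Or.inr (Or.inr (Or.inr (Or.inr (Or.inr g))))
      · exact Or.inr (Or.inr (Or.inr (Or.inr (Or.inl g))))
      · exact Or.inr (Or.inr (Or.inl g))
      · exact Or.inr (Or.inl g)
      · exact Or.inr (Or.inr (Or.inr (Or.inl g)))
      · exact Or.inl g
    · intro v hv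
      rcases mem_insert.1 hv with g | g
      · rw [g]
        exact hxZ
      · exact hPZ v g
    · intro v hv
      rcases mem_insert.1 hv with g | g
      · rw [g]
        exact Or.inl l.axx
      · by_cases hvx : G.Adj v x
        · exact Or.inl ((l.L.iff _ _ _ l.B v g (hdeg v g)).1 hvx)
        · exact Or.inr (l.third g (hdeg v g) hvx)
    · have := l.np1.1
      omega
    · intro v hv
      have hvx := hQx' v hv
      have g3 := (l.dQ hv).2
      rw [ad_zero hvx] at g3
      have g4 := hone v (mem_insert_of_mem hv)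
      have hvr : ¬ G.Adj v r := by
        intro e'
        rw [ad_one e'] at g4
        omega
      obtain ⟨s, hs1, hs2⟩ := htrr v (mem_insert_of_mem hv) hvr
      refine ⟨s, hs1, hs2, ?_⟩
      have g5 := l.trx hv hvx
      rw [hs1] at g5
      exact g5
  · -- potential two
    have hnr2 : (nb G Z r).card + 2 = k := by omega
    refine hM.al2a h5 (by rw [hpX]; norm_num) (R := insert p Q) (x' := x') (r := r) l.zX
      l.cardXZ l.zal h ?_ hnr2 ?_ htrr ⟨b, mem_insert_of_mem hbQ, h2, ?_⟩ (by omega)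
    · intro v hv hvZ
      rcases l.cov hv hvZ with g | g | g | g | g | g
      · exact Or.inr (Or.inr (Or.inr (hPZ v g)))
      · refine Or.inr (Or.inr (Or.inr ?_))
        rw [g]
        exact hxZ
      · exact Or.inr (Or.inl g)
      · exact Or.inl (by rw [g]; exact mem_insert_self _ _)
      · exact Or.inr (Or.inr (Or.inl g))
      · exact Or.inl (mem_insert_of_mem g)
    · intro v hv hvr
      have g1 := hone v hv
      rw [ad_one hvr] at g1
      exact Finset.card_eq_zero.1 (by omega)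
    · intro s hs'
      have g5 := l.trx hbQ h1
      rw [hs'] at g5
      exact g5

end L2

end Pool.Agent.TwoDens.TS
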