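import Pool.Agent.TKS.LT
import Pool.Agent.TKS.LR
import Pool.Agent.TKS.LUa
import Pool.Agent.TKS.LD

/-!
There are no low vertices.
-/

open Finset

namespace Pool.Agent.TwoDens.TS

open Pool.Agent.TwoDens Pool.Agent.TwoDens.RK Pool.Agent.TwoDens.DD

variable {V : Type*} [DecidableEq V] {G : SimpleGraph V} [DecidableRel G.Adj]

/-- the second type is impossible -/
theorem L2.false {k : ℕ} {X P : Finset V} {c x x' u p r : V} {Q Z : Finset V}
    (l : L2 G k X P c x x' u p r Q Z) : False := by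
  by_cases hbeta : ∀ b ∈ Q, k + 1 ≤ (nb G X b).card
  · exact l.beta hbeta
  push Not at hbeta
  obtain ⟨b, hbQ, hbd⟩ := hbeta
  have h1 := l.degb hbQ
  obtain ⟨h2, h3⟩ := l.dQ hbQ
  have h4 : (nb G Z b).card = 1 ∧ ad G b x' = 0 ∧ ad G b r = 0 := by omega
  obtain ⟨t, ht⟩ := Finset.card_eq_one.1 h4.1
  have hbx : ¬ G.Adj b x' := fun e => by rw [ad_one e] at h4; omega
  have hbr : ¬ G.Adj b r := fun e => by rw [ad_one e] at h4; omega
  have g1 := (l.L.low0 l.B (by rw [l.hQ]; exact l.hf)).2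
  have g2 := l.L.ge2 l.B.symm
  rw [hb_comm X P x' x] at g2
  have g3 := l.pc2.1
  have g4 := l.L.F.mc.ps_le
  by_cases h5 : (nb G (hb X P x x') x').card + 2 = k
  · exact l.alpha1 hbQ ht hbx hbr h5
  · have h6 : (nb G (hb X P x x') x').card + 1 = k ∧ exs G k X P = 0 := by
      have g1' : 2 * ((nb G (hb X P x x') x').card : ℤ) + 2 * (exs G k X P : ℤ) ≤ 2 * k - 2 := by
        linarith
      omega
    rw [h6.2] at g1
    have h7 : ((nb G (hb X P x x') x').card : ℤ) + 1 = k := by exact_mod_cast h6.1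
    push_cast at g1
    exact l.alpha2 hbQ ht hbx hbr h6.2 (by linarith) (by linarith) h6.1

namespace LF
variable {k : ℕ} {X P : Finset V} (L : LF G k X P)
include L

theorem noT2 : NoT2 G k X P := by
  intro c x x' u y y' B hf Bu hxu hS
  obtain ⟨m1, m2, n1, n2, -⟩ := L.lowT B hf Bu hxu
  exact L2.false (c := c) (x := x) (x' := x') (u := u) (p := y') (r := y)
    (Q := nb G (hb X P x x') x)
    (Z := hb X P x x' \ insert y (insert y' (nb G (hb X P x x') x)))
    ⟨L, B, Bu.symm, rfl, rfl, hf, hxu, m2, m1, n2, n1, hS⟩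

/-- no vertex is low -/
theorem low {c x x' : V} (B : Base G k X P c x x')
    (hf : (nb G (hb X P x x') x).card + 2 = k) : False :=
  L.type1 L.noT2 B hf

/-- all outer vertices have at least `k - 1` neighbours -/
theorem ge1 {c x x' : V} (B : Base G k X P c x x') :
    k ≤ (nb G (hb X P x x') x).card + 1 := by
  have h1 := L.ge2 B
  by_contra hcon
  exact L.low B (by omega)

end LF

end Pool.Agent.TwoDens.TS
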