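import Pool.Agent.TKS.NS5
import Pool.Agent.TKS.FN5
import Pool.Agent.TKS.LV
import Pool.Agent.TK4.Fin

/-!
There is no minimal counterexample, for all `k ≥ 4`.
-/

open Finset

namespace Pool.Agent.TwoDens.TS

open Pool.Agent.TwoDens Pool.Agent.TwoDens.RK Pool.Agent.TwoDens.DD

variable {V : Type*} [DecidableEq V] {G : SimpleGraph V} [DecidableRel G.Adj]

/-- the data for the low case -/
theorem Fn.lf {k : ℕ} {X P : Finset V} (F : Fn G k X P) (h5 : 5 ≤ k) : LF G k X P where
  F := F.toFr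
  h5 := h5
  ns := F.ns0
  iff := fun _ _ _ B _ hv hd => F.iff5 h5 B hv hd

/-- no frame exists -/
theorem Fn.false5 {k : ℕ} {X P : Finset V} (F : Fn G k X P) (h5 : 5 ≤ k) : False :=
  F.fin h5 fun _ _ _ B => (F.lf h5).ge1 B

/-- there is no minimal counterexample -/
theorem MC.false {k : ℕ} {X : Finset V} (M : MC G k X) : False := by
  have hk := M.hk
  rcases Nat.lt_or_ge k 5 with h4 | h5
  · have e : k = 4 := by omega
    subst e
    exact T4.no_mc4 X M
  rcases Nat.lt_or_ge k 7 with h6 | h7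
  · obtain ⟨P, F⟩ := M.exists_fn5 h5 (by omega)
    exact F.false5 h5
  · obtain ⟨P, F⟩ := M.exists_fn h7
    exact F.false5 h5

end Pool.Agent.TwoDens.TS
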