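import Pool.Agent.TKS.Star

/-!
Graphs whose nonadjacent pairs are covered by two vertices.
-/

open Finset

namespace Pool.Agent.TwoDens.TS

open Pool.Agent.TwoDens Pool.Agent.TwoDens.RK Pool.Agent.TwoDens.DD

variable {V : Type*} [DecidableEq V] {G : SimpleGraph V}

/-- no four pairwise nonadjacent vertices -/
def No4 (G : SimpleGraph V) (F : Finset V) : Prop := ∀ {p q r s : V}, p ∈ F → q ∈ F → r ∈ F →
  s ∈ F → p ≠ q → p ≠ r → p ≠ s → q ≠ r → q ≠ s → r ≠ s → ¬ G.Adj p q → ¬ G.Adj p r →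
  ¬ G.Adj p s → ¬ G.Adj q r → ¬ G.Adj q s → ¬ G.Adj r s → False

/-- no three disjoint nonadjacent pairs -/
def No3 (G : SimpleGraph V) (F : Finset V) : Prop := ∀ {a b p q r s : V}, a ∈ F → b ∈ F →
  p ∈ F → q ∈ F → r ∈ F → s ∈ F → a ≠ b → a ≠ p → a ≠ q → a ≠ r → a ≠ s → b ≠ p →
  b ≠ q → b ≠ r → b ≠ s → p ≠ q → p ≠ r → p ≠ s → q ≠ r → q ≠ s → r ≠ s → ¬ G.Adj a b →
  ¬ G.Adj p q → ¬ G.Adj r s → False

/-- no nonadjacent triple with a disjoint nonadjacent pair -/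
def No32 (G : SimpleGraph V) (F : Finset V) : Prop := ∀ {a b p q r : V}, a ∈ F → b ∈ F →
  p ∈ F → q ∈ F → r ∈ F → a ≠ b → a ≠ p → a ≠ q → a ≠ r → b ≠ p → b ≠ q → b ≠ r → p ≠ q →
  p ≠ r → q ≠ r → ¬ G.Adj a b → ¬ G.Adj p q → ¬ G.Adj p r → ¬ G.Adj q r → False

/-- no cycle of five nonadjacent pairs -/
def No5 (G : SimpleGraph V) (F : Finset V) : Prop := ∀ {a b p q r : V}, a ∈ F → b ∈ F →
  p ∈ F → q ∈ F → r ∈ F → a ≠ b → a ≠ p → a ≠ q → a ≠ r → b ≠ p → b ≠ q → b ≠ r → p ≠ q →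
  p ≠ r → q ≠ r → ¬ G.Adj a b → ¬ G.Adj b p → ¬ G.Adj p q → ¬ G.Adj q r → ¬ G.Adj r a → False

/-- all missing pairs lie in a set of four vertices -/
theorem in4 {F : Finset V} {p q r s : V} (hq : q ∈ F) (hs : s ∈ F) (hqs : q ≠ s)
    (hpr : G.Adj p r)
    (h0 : ∀ x ∈ F, ∀ y ∈ F, x ≠ y → ¬ G.Adj x y →
      (x = p ∨ x = q ∨ x = r ∨ x = s) ∧ (y = p ∨ y = q ∨ y = r ∨ y = s)) :
    ∃ a ∈ F, ∃ b ∈ F.erase a, Clq G ((F.erase a).erase b) := by
  refine ⟨q, hq, s, mem_erase.2 ⟨Ne.symm hqs, hs⟩, ?_⟩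
  intro x hx y hy hxy
  rw [mem_erase, mem_erase] at hx hy
  by_contra hn
  obtain ⟨h1, h2⟩ := h0 x hx.2.2 y hy.2.2 hxy hn
  have h3 : x = p ∨ x = r := by tauto
  have h4 : y = p ∨ y = r := by tauto
  rcases h3 with h3 | h3 <;> rcases h4 with h4 | h4
  · exact hxy (h3.trans h4.symm)
  · exact hn (h3 ▸ h4 ▸ hpr)
  · exact hn (h3 ▸ h4 ▸ hpr.symm)
  · exact hxy (h3.trans h4.symm)

/-- four vertices of two disjoint missing pairs and a fifth vertex -/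
theorem cl4 {F : Finset V} (hno3 : No3 G F) (hno32 : No32 G F) (hno5 : No5 G F)
    (hncl : ∀ p ∈ F, ¬ Clq G (F.erase p)) {p q r s z : V} (hp : p ∈ F) (hq : q ∈ F) (hr : r ∈ F)
    (hs : s ∈ F) (hz : z ∈ F) (hpq : p ≠ q) (hpr : p ≠ r) (hps : p ≠ s)
    (hqr : q ≠ r) (hqs : q ≠ s) (hrs : r ≠ s) (hzp : z ≠ p) (hzq : z ≠ q) (hzr : z ≠ r)
    (hzs : z ≠ s) (n1 : ¬ G.Adj p q) (n2 : ¬ G.Adj r s) (n3 : ¬ G.Adj p z) :
    ∃ b ∈ F.erase p, Clq G ((F.erase p).erase b) := by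
  refine exists_center (G := G) ?_ ?_ ?_
  · exact hncl p hp
  · -- two disjoint missing pairs
    have key : ∀ {x1 y1 x2 y2 : V}, x1 ∈ F → y1 ∈ F → x2 ∈ F → y2 ∈ F → x1 ≠ p → y1 ≠ p →
        x2 ≠ p → y2 ≠ p → x1 ≠ y1 → x1 ≠ x2 → x1 ≠ y2 → y1 ≠ x2 → y1 ≠ y2 → x2 ≠ y2 →
        ¬ G.Adj x1 y1 → ¬ G.Adj x2 y2 → (x1 = q ∨ y1 = q) → False := by
      have key2 : ∀ {y1 x2 y2 : V}, y1 ∈ F → x2 ∈ F → y2 ∈ F → y1 ≠ p →
          x2 ≠ p → y2 ≠ p → q ≠ y1 → q ≠ x2 → q ≠ y2 → y1 ≠ x2 → y1 ≠ y2 → x2 ≠ y2 →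
          ¬ G.Adj q y1 → ¬ G.Adj x2 y2 → False := by
        intro y1 x2 y2 hy1 hx2 hy2 a1 a2 a3 a4 a5 a6 a7 a8 a9 b1 b2
        by_cases c1 : y1 = z
        · subst c1
          exact hno32 hx2 hy2 hp hq hy1 a9 a2 (Ne.symm a5) (Ne.symm a7) a3 (Ne.symm a6)
            (Ne.symm a8) hpq (Ne.symm a1) a4 b2 n1 n3 b1
        -- `z` belongs to the second pair
        have key3 : ∀ {w : V}, w ∈ F → w ≠ p → q ≠ w → y1 ≠ w → z ≠ w →
            ¬ G.Adj z w → False := by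
          intro w hw d1 d2 d3 d4 d5
          by_cases e1 : y1 = r
          · subst e1
            by_cases e2' : w = s
            · subst e2'
              exact hno5 hp hq hy1 hs hz hpq (Ne.symm a1) (Ne.symm d1) (Ne.symm hzp) a4 d2
                (Ne.symm hzq) d3 (Ne.symm hzr) (Ne.symm d4) n1 b1 n2
                (fun h => d5 h.symm) (fun h => n3 h.symm)
            · exact hno3 hp hq hz hw hy1 hs hpq (Ne.symm hzp) (Ne.symm d1) (Ne.symm a1) hps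
                (Ne.symm hzq) d2 a4 hqs d4 hzr hzs (Ne.symm d3) e2' hrs n1 d5 n2
          by_cases e2' : y1 = s
          · subst e2'
            by_cases e3 : w = r
            · subst e3
              exact hno5 hp hq hy1 hr hz hpq (Ne.symm a1) (Ne.symm d1) (Ne.symm hzp) a4 d2
                (Ne.symm hzq) d3 (Ne.symm hzs) (Ne.symm d4) n1 b1 (fun h => n2 h.symm)
                (fun h => d5 h.symm) (fun h => n3 h.symm)
            · exact hno3 hp hq hz hw hr hy1 hpq (Ne.symm hzp) (Ne.symm d1) hpr (Ne.symm a1)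
                (Ne.symm hzq) d2 hqr a4 d4 hzr hzs e3 (Ne.symm d3) hrs n1 d5 n2
          · exact hno3 hp hz hq hy1 hr hs (Ne.symm hzp) hpq (Ne.symm a1) hpr hps hzq
              (Ne.symm c1) hzr hzs a4 hqr hqs e1 e2' hrs n3 b1 n2
        by_cases c2 : x2 = z
        · subst c2
          exact key3 hy2 a3 a6 a8 a9 b2
        by_cases c3 : y2 = z
        · subst c3
          exact key3 hx2 a2 a5 a7 (Ne.symm a9) (fun h => b2 h.symm)
        exact hno3 hp hz hq hy1 hx2 hy2 (Ne.symm hzp) hpq (Ne.symm a1) (Ne.symm a2)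
          (Ne.symm a3) hzq (Ne.symm c1) (Ne.symm c2) (Ne.symm c3) a4 a5 a6 a7 a8 a9 n3 b1 b2
      intro x1 y1 x2 y2 hx1 hy1 hx2 hy2 a1 a2 a3 a4 a5 a6 a7 a8 a9 a10 b1 b2 h
      rcases h with h | h
      · subst h
        exact key2 hy1 hx2 hy2 a2 a3 a4 a5 a6 a7 a8 a9 a10 b1 b2
      · subst h
        exact key2 hx1 hx2 hy2 a1 a3 a4 (Ne.symm a5) a8 a9 a6 a7 a10 (fun h => b1 h.symm) b2
    intro x1 hx1 y1 hy1 x2 hx2 y2 hy2 a5 a6 a7 a8 a9 a10 b1 b2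
    obtain ⟨hx1', hx1⟩ := mem_erase.1 hx1
    obtain ⟨hy1', hy1⟩ := mem_erase.1 hy1
    obtain ⟨hx2', hx2⟩ := mem_erase.1 hx2
    obtain ⟨hy2', hy2⟩ := mem_erase.1 hy2
    by_cases c1 : x1 = q ∨ y1 = q
    · exact key hx1 hy1 hx2 hy2 hx1' hy1' hx2' hy2' a5 a6 a7 a8 a9 a10 b1 b2 c1
    by_cases c2 : x2 = q ∨ y2 = q
    · exact key hx2 hy2 hx1 hy1 hx2' hy2' hx1' hy1' a10 (Ne.symm a6) (Ne.symm a8)
        (Ne.symm a7) (Ne.symm a9) a5 b2 b1 c2
    push Not at c1 c2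
    exact hno3 hp hq hx1 hy1 hx2 hy2 hpq (Ne.symm hx1') (Ne.symm hy1') (Ne.symm hx2')
      (Ne.symm hy2') (Ne.symm c1.1) (Ne.symm c1.2) (Ne.symm c2.1) (Ne.symm c2.2) a5 a6 a7 a8
      a9 a10 n1 b1 b2
  · -- a missing triangle
    have key : ∀ {t : V}, t ∈ F → t ≠ p → q ≠ t → z ≠ t → ¬ G.Adj q z → False := by
      intro t ht d1 d2 d3 d4
      exact hno32 hr hs hp hq hz hrs (Ne.symm hpr) (Ne.symm hqr) (Ne.symm hzr) (Ne.symm hps)
        (Ne.symm hqs) (Ne.symm hzs) hpq (Ne.symm hzp) (Ne.symm hzq) n2 n1 n3 d4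
    intro x hx y hy w hw a1 a2 a3 b1 b2 b3
    obtain ⟨hx', hx⟩ := mem_erase.1 hx
    obtain ⟨hy', hy⟩ := mem_erase.1 hy
    obtain ⟨hw', hw⟩ := mem_erase.1 hw
    by_cases c1 : x = q
    · subst c1
      by_cases c2 : y = z
      · subst c2
        exact key hw hw' a2 a3 b1
      by_cases c3 : w = z
      · subst c3
        exact key hy hy' a1 (Ne.symm a3) b2
      exact hno32 hp hz hx hy hw (Ne.symm hzp) (Ne.symm hx') (Ne.symm hy') (Ne.symm hw') hzq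
        (Ne.symm c2) (Ne.symm c3) a1 a2 a3 n3 b1 b2 b3
    by_cases c1' : y = q
    · subst c1'
      by_cases c2 : x = z
      · subst c2
        exact key hw hw' a3 a2 (fun h => b1 h.symm)
      by_cases c3 : w = z
      · subst c3
        exact key hx hx' (Ne.symm a1) (Ne.symm a2) b3
      exact hno32 hp hz hx hy hw (Ne.symm hzp) (Ne.symm hx') (Ne.symm hy') (Ne.symm hw')
        (Ne.symm c2) hzq (Ne.symm c3) a1 a2 a3 n3 b1 b2 b3
    by_cases c1'' : w = q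
    · subst c1''
      by_cases c2 : x = z
      · subst c2
        exact key hy hy' (Ne.symm a3) a1 (fun h => b2 h.symm)
      by_cases c3 : y = z
      · subst c3
        exact key hx hx' (Ne.symm a2) (Ne.symm a1) (fun h => b3 h.symm)
      exact hno32 hp hz hx hy hw (Ne.symm hzp) (Ne.symm hx') (Ne.symm hy') (Ne.symm hw')
        (Ne.symm c2) (Ne.symm c3) hzq a1 a2 a3 n3 b1 b2 b3
    exact hno32 hp hq hx hy hw hpq (Ne.symm hx') (Ne.symm hy') (Ne.symm hw')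
      (Ne.symm c1) (Ne.symm c1') (Ne.symm c1'') a1 a2 a3 n1 b1 b2 b3

/-- two vertices cover all missing pairs -/
theorem cover2 {F : Finset V} (hno4 : No4 G F) (hno3 : No3 G F) (hno32 : No32 G F)
    (hno5 : No5 G F) (hncl : ∀ p ∈ F, ¬ Clq G (F.erase p)) {p q : V} (hp : p ∈ F) (hq : q ∈ F)
    (hpq : p ≠ q) (n1 : ¬ G.Adj p q) : ∃ a ∈ F, ∃ b ∈ F.erase a,
    Clq G ((F.erase a).erase b) := by
  by_cases hex : ∃ r ∈ F, ∃ s ∈ F, r ≠ p ∧ r ≠ q ∧ s ≠ p ∧ s ≠ q ∧ r ≠ s ∧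
      ¬ G.Adj r s
  · obtain ⟨r, hr, s, hs, hrp, hrq, hsp, hsq, hrs, n2⟩ := hex
    by_cases hl : ∃ x ∈ ({p, q, r, s} : Finset V), ∃ z ∈ F, z ∉ ({p, q, r, s} : Finset V) ∧
        ¬ G.Adj x z
    · obtain ⟨x, hx, z, hz, hzC, n3⟩ := hl
      simp only [mem_insert, mem_singleton, not_or] at hx hzC
      obtain ⟨z1, z2, z3, z4⟩ := hzC
      rcases hx with hx | hx | hx | hx
      · rw [hx] at n3
        exact ⟨p, hp, cl4 hno3 hno32 hno5 hncl hp hq hr hs hz hpq (Ne.symm hrp) (Ne.symm hsp)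
          (Ne.symm hrq) (Ne.symm hsq) hrs z1 z2 z3 z4 n1 n2 n3⟩
      · rw [hx] at n3
        exact ⟨q, hq, cl4 hno3 hno32 hno5 hncl hq hp hr hs hz (Ne.symm hpq) (Ne.symm hrq) (Ne.symm hsq)
          (Ne.symm hrp) (Ne.symm hsp) hrs z2 z1 z3 z4 (fun h => n1 h.symm) n2 n3⟩
      · rw [hx] at n3
        exact ⟨r, hr, cl4 hno3 hno32 hno5 hncl hr hs hp hq hz hrs hrp hrq hsp hsq hpq z3 z4 z1 z2 n2 n1
          n3⟩
      · rw [hx] at n3
        exact ⟨s, hs, cl4 hno3 hno32 hno5 hncl hs hr hp hq hz (Ne.symm hrs) hsp hsq hrp hrq hpq z4 z3 z1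
          z2 (fun h => n2 h.symm) n1 n3⟩
    · push Not at hl
      have h0 : ∀ x ∈ F, ∀ y ∈ F, x ≠ y → ¬ G.Adj x y →
          x ∈ ({p, q, r, s} : Finset V) ∧ y ∈ ({p, q, r, s} : Finset V) := by
        intro x hx y hy hxy hn
        by_cases hxC : x ∈ ({p, q, r, s} : Finset V)
        · refine ⟨hxC, ?_⟩
          by_contra hyC
          exact hn (hl x hxC y hy hyC)
        · by_cases hyC : y ∈ ({p, q, r, s} : Finset V)
          · exact absurd (hl y hyC x hx hxC).symm hn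
          · exfalso
            simp only [mem_insert, mem_singleton, not_or] at hxC hyC
            exact hno3 hx hy hp hq hr hs hxy hxC.1 hxC.2.1 hxC.2.2.1 hxC.2.2.2 hyC.1 hyC.2.1
              hyC.2.2.1 hyC.2.2.2 hpq (Ne.symm hrp) (Ne.symm hsp) (Ne.symm hrq) (Ne.symm hsq)
              hrs hn n1 n2
      simp only [mem_insert, mem_singleton] at h0
      by_cases c1 : G.Adj p r
      · exact in4 hq hs (Ne.symm hsq) c1 h0
      by_cases c2 : G.Adj p s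
      · exact in4 (p := p) (q := q) (r := s) (s := r) hq hr (Ne.symm hrq) c2 (by
          intro x hx y hy hxy hn
          have := h0 x hx y hy hxy hn
          tauto)
      by_cases c3 : G.Adj q r
      · exact in4 (p := q) (q := p) (r := r) (s := s) hp hs (Ne.symm hsp) c3 (by
          intro x hx y hy hxy hn
          have := h0 x hx y hy hxy hn
          tauto)
      by_cases c4 : G.Adj q s
      · exact in4 (p := q) (q := p) (r := s) (s := r) hp hr (Ne.symm hrp) c4 (by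
          intro x hx y hy hxy hn
          have := h0 x hx y hy hxy hn
          tauto)
      · exact (hno4 hp hq hr hs hpq (Ne.symm hrp) (Ne.symm hsp) (Ne.symm hrq)
          (Ne.symm hsq) hrs n1 c1 c2 c3 c4 n2).elim
  · push Not at hex
    refine ⟨p, hp, exists_center (G := G) ?_ ?_ ?_⟩
    · exact hncl p hp
    · intro x1 hx1 y1 hy1 x2 hx2 y2 hy2 a5 a6 a7 a8 a9 a10 b1 b2
      obtain ⟨hx1', hx1⟩ := mem_erase.1 hx1
      obtain ⟨hy1', hy1⟩ := mem_erase.1 hy1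
      obtain ⟨hx2', hx2⟩ := mem_erase.1 hx2
      obtain ⟨hy2', hy2⟩ := mem_erase.1 hy2
      by_cases c1 : x1 = q
      · exact b2 (hex x2 hx2 y2 hy2 hx2' (c1 ▸ Ne.symm a6) hy2' (c1 ▸ Ne.symm a7) a10)
      by_cases c2 : y1 = q
      · exact b2 (hex x2 hx2 y2 hy2 hx2' (c2 ▸ Ne.symm a8) hy2' (c2 ▸ Ne.symm a9) a10)
      exact b1 (hex x1 hx1 y1 hy1 hx1' c1 hy1' c2 a5)
    · intro x hx y hy w hw a1 a2 a3 b1 b2 b3
      obtain ⟨hx', hx⟩ := mem_erase.1 hx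
      obtain ⟨hy', hy⟩ := mem_erase.1 hy
      obtain ⟨hw', hw⟩ := mem_erase.1 hw
      by_cases c1 : x = q
      · exact b3 (hex y hy w hw hy' (c1 ▸ Ne.symm a1) hw' (c1 ▸ Ne.symm a2) a3)
      by_cases c2 : y = q
      · exact b2 (hex x hx w hw hx' c1 hw' (c2 ▸ Ne.symm a3) a2)
      exact b1 (hex x hx y hy hx' c1 hy' c2 a1)

end Pool.Agent.TwoDens.TS
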