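import Pool.Agent.TKS.BEa
import Pool.Agent.TKS.CV

/-!
Every minimal counterexample has a base.
-/

open Finset

namespace Pool.Agent.TwoDens.TS

open Pool.Agent.TwoDens Pool.Agent.TwoDens.RK Pool.Agent.TwoDens.DD

variable {V : Type*} [DecidableEq V] {G : SimpleGraph V} [DecidableRel G.Adj]

section nbh
variable {k : ℕ} {X : Finset V} (H : MC G k X) {v : V} (hv : v ∈ X)
  (hd : (nb G X v).card = k)
include H hv hd

theorem MC.clout {u : V} (hu : u ∈ cl G X v) :
    (nb G X u \ cl G X v).card = ((nb G X u).card - k) + (nb Gᶜ (cl G X v) u).card := by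
  have h1 := deg_split (G := G) (cl_sub (G := G) hv) hu
  have h2 := card_cl (G := G) (X := X) (v := v)
  have h3 := H.deg_ge u (cl_sub (G := G) hv hu)
  omega

theorem MC.clbud : 2 * exs G k X (cl G X v) + e2 Gᶜ (cl G X v) + 6 ≤ 4 * k := by
  have hk := H.hk
  have h1 := H.exbd (S := cl G X v) (j := 1) (cl_sub hv) ⟨v, mem_insert_self _ _⟩ (by
    have h := al_closed (G := G) (Y := X) (S := cl G X v) (J := {v})
      (Finset.singleton_subset_iff.2 hv) (Finset.singleton_subset_iff.2 (mem_insert_self _ _))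
      (by simp) (by
        intro z hz w hw hzw
        rw [mem_singleton] at hz
        rw [hz] at hzw
        exact mem_insert_of_mem (mem_nb.2 ⟨hw, hzw⟩))
    rw [Finset.card_singleton] at h
    exact h)
  have h2 : bd G X (cl G X v) = exs G k X (cl G X v) + e2 Gᶜ (cl G X v) := by
    unfold bd exs
    rw [e2_eq, ← Finset.sum_add_distrib]
    exact Finset.sum_congr rfl fun u hu => H.clout hv hd hu
  have h3 := card_cl (G := G) (X := X) (v := v)
  rw [h2, h3, hd] at h1
  push_cast at h1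
  have h4 : 2 * (exs G k X (cl G X v) : ℤ) + e2 Gᶜ (cl G X v) + 6 ≤ 4 * k := by nlinarith
  exact_mod_cast h4

theorem MC.clsum {S : Finset V} (hS : S ⊆ cl G X v) :
    2 * ∑ u ∈ S, (nb G X u \ cl G X v).card + S.card + 6 ≤ 4 * k + S.card * S.card := by
  have h1 : ∑ u ∈ S, (nb G X u \ cl G X v).card =
      exs G k X S + ∑ u ∈ S, (nb Gᶜ (cl G X v) u).card := by
    unfold exs
    rw [← Finset.sum_add_distrib]
    exact Finset.sum_congr rfl fun u hu => H.clout hv hd (hS hu)
  have h2 := e2_sdiff (G := Gᶜ) hS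
  have h3 := e2_le (G := Gᶜ) S
  have h4 := exs_mono (G := G) (k := k) (X := X) hS
  have h5 := H.clbud hv hd
  omega

theorem MC.clJ {J : Finset V} (hJ : J ⊆ cl G X v) (hi : G.IsIndepSet (J : Set V)) :
    ∃ S ⊆ X, S.card ≤ k + 1 + ∑ u ∈ J, (nb G X u \ cl G X v).card ∧
      al G (X \ S) + J.card ≤ al G X := by
  refine ⟨cl G X v ∪ J.biUnion (fun u => nb G X u \ cl G X v), ?_, ?_, ?_⟩
  · refine Finset.union_subset (cl_sub hv) ?_
    intro w hw
    obtain ⟨u, _, hu⟩ := mem_biUnion.1 hw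
    exact (mem_nb.1 (mem_sdiff.1 hu).1).1
  · have h1 := Finset.card_union_le (cl G X v) (J.biUnion (fun u => nb G X u \ cl G X v))
    have h2 := Finset.card_biUnion_le (s := J) (t := fun u => nb G X u \ cl G X v)
    have h3 := card_cl (G := G) (X := X) (v := v)
    omega
  · refine al_closed (hJ.trans (cl_sub hv)) (hJ.trans Finset.subset_union_left) hi ?_
    intro z hz w hw hzw
    rw [mem_union]
    by_cases h : w ∈ cl G X v
    · exact Or.inl h
    · exact Or.inr (mem_biUnion.2 ⟨z, hz, mem_sdiff.2 ⟨mem_nb.2 ⟨hw, hzw⟩, h⟩⟩)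

theorem MC.clpair {y z : V} (hy : y ∈ cl G X v) (hz : z ∈ cl G X v) (hyz : y ≠ z)
    (hn : ¬ G.Adj y z) :
    k ≤ (nb G X y \ cl G X v).card + (nb G X z \ cl G X v).card + 1 := by
  obtain ⟨S, hS, hc, hal⟩ := H.clJ hv hd (J := {y, z}) (by
    intro w hw
    rw [mem_insert, mem_singleton] at hw
    rcases hw with rfl | rfl
    · exact hy
    · exact hz) (indep_insert (by simp) (by
      intro w hw
      rw [mem_singleton] at hw
      rw [hw]
      exact hn))
  rw [Finset.card_pair hyz] at hal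
  rw [Finset.sum_pair hyz] at hc
  have := H.closed2 hS hal
  omega

theorem MC.cltri {y z w : V} (hy : y ∈ cl G X v) (hz : z ∈ cl G X v) (hw : w ∈ cl G X v)
    (hyz : y ≠ z) (hyw : y ≠ w) (hzw : z ≠ w)
    (h1 : ¬ G.Adj y z) (h2 : ¬ G.Adj y w) (h3 : ¬ G.Adj z w) :
    2 * k ≤ (nb G X y \ cl G X v).card + (nb G X z \ cl G X v).card +
      (nb G X w \ cl G X v).card + 1 := by
  have hyn : y ∉ ({z, w} : Finset V) := by
    rw [mem_insert, mem_singleton, not_or]
    exact ⟨hyz, hyw⟩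
  obtain ⟨S, hS, hc, hal⟩ := H.clJ hv hd (J := {y, z, w}) (by
    intro u hu
    rw [mem_insert, mem_insert, mem_singleton] at hu
    rcases hu with rfl | rfl | rfl
    · exact hy
    · exact hz
    · exact hw) (indep_insert (indep_insert (by simp) (by
      intro u hu
      rw [mem_singleton] at hu
      rw [hu]
      exact h3)) (by
      intro u hu
      rw [mem_insert, mem_singleton] at hu
      rcases hu with rfl | rfl
      · exact h1
      · exact h2))
  rw [Finset.card_insert_of_notMem hyn, Finset.card_pair hzw] at hal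
  rw [Finset.sum_insert hyn, Finset.sum_pair hzw] at hc
  have := H.closed3 hS hal
  omega

theorem MC.clsum2 {S : Finset V} (hS : S ⊆ cl G X v) :
    2 * ∑ u ∈ S, (nb G X u \ cl G X v).card ≤
      2 * exs G k X (cl G X v) + e2 Gᶜ (cl G X v) + e2 Gᶜ S := by
  have h1 : ∑ u ∈ S, (nb G X u \ cl G X v).card =
      exs G k X S + ∑ u ∈ S, (nb Gᶜ (cl G X v) u).card := by
    unfold exs
    rw [← Finset.sum_add_distrib]
    exact Finset.sum_congr rfl fun u hu => H.clout hv hd (hS hu)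
  have h2 := e2_sdiff (G := Gᶜ) hS
  have h4 := exs_mono (G := G) (k := k) (X := X) hS
  omega

theorem MC.clal : al G (X \ cl G X v) + 1 = al G X := by
  have hk := H.hk
  have h := al_closed (G := G) (Y := X) (S := cl G X v) (J := {v})
    (Finset.singleton_subset_iff.2 hv) (Finset.singleton_subset_iff.2 (mem_insert_self _ _))
    (by simp) (by
      intro z hz w hw hzw
      rw [mem_singleton] at hz
      rw [hz] at hzw
      exact mem_insert_of_mem (mem_nb.2 ⟨hw, hzw⟩))
  rw [Finset.card_singleton] at h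
  by_contra hcon
  have h2 := H.closed2 (cl_sub (G := G) hv) (by omega)
  rw [card_cl, hd] at h2
  omega

theorem MC.clps : ps G k (X \ cl G X v) + 2 * exs G k X (cl G X v) + e2 Gᶜ (cl G X v) =
    4 * k - 4 + ps G k X := by
  have h1 := ps_sdiff (G := G) k (cl_sub (G := G) hv)
  have h2 := H.clal hv hd
  have h3 := card_cl (G := G) (X := X) (v := v)
  have h4 := sum_ge (G := G) (Y := X) (S := cl G X v) k
    (fun u hu => H.deg_ge u (cl_sub (G := G) hv hu))
  have h5 := e2_add_compl (G := G) (cl G X v)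
  rw [hd] at h3
  rw [h3] at h1 h4 h5
  have g2 : (al G X : ℤ) - al G (X \ cl G X v) = 1 := by
    have : (al G (X \ cl G X v) : ℤ) + 1 = al G X := by exact_mod_cast h2
    linarith
  have g5 : (e2 G (cl G X v) : ℤ) + e2 Gᶜ (cl G X v) + (k + 1) = (k + 1) * (k + 1) := by
    exact_mod_cast h5
  rw [g2, h4] at h1
  push_cast at h1
  nlinarith

/-- the outer neighbours of two nonadjacent vertices of the closed neighbourhood -/
theorem MC.cltr {y z : V} (hy : y ∈ cl G X v) (hz : z ∈ cl G X v) (hyz : y ≠ z)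
    (hn : ¬ G.Adj y z) :
    Tr G (X \ cl G X v) ((nb G X y \ cl G X v) ∪ (nb G X z \ cl G X v)) := by
  have hF : cl G X v ⊆ X := cl_sub hv
  have hal := H.clal hv hd
  exact tr_nbr (G := G) (X := X) (Y := X \ cl G X v) (J := {y, z})
    (S := (nb G X y \ cl G X v) ∪ (nb G X z \ cl G X v)) Finset.sdiff_subset
    (by
      intro w hw
      rw [mem_insert, mem_singleton] at hw
      rcases hw with rfl | rfl
      · exact hF hy
      · exact hF hz) (by
      rw [Finset.disjoint_left]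
      intro w hw hw'
      rw [mem_insert, mem_singleton] at hw
      rcases hw with rfl | rfl
      · exact (mem_sdiff.1 hw').2 hy
      · exact (mem_sdiff.1 hw').2 hz) (indep_pair hn) (by
      rw [Finset.card_pair hyz]
      omega) (by
      intro u hu w hw huw
      rw [mem_insert, mem_singleton] at hu
      have hw' := mem_sdiff.1 hw
      rcases hu with rfl | rfl
      · exact mem_union_left _ (mem_sdiff.2 ⟨mem_nb.2 ⟨hw'.1, huw⟩, hw'.2⟩)
      · exact mem_union_right _ (mem_sdiff.2 ⟨mem_nb.2 ⟨hw'.1, huw⟩, hw'.2⟩))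

/-- the defect is positive or two nonadjacent vertices of the neighbourhood have at least `k`
outer neighbours -/
theorem MC.clpair2 {y z : V} (hy : y ∈ cl G X v) (hz : z ∈ cl G X v) (hyz : y ≠ z)
    (hn : ¬ G.Adj y z) :
    k ≤ (nb G X y \ cl G X v).card + (nb G X z \ cl G X v).card ∨
      2 * exs G k X (cl G X v) + e2 Gᶜ (cl G X v) + 8 ≤ 4 * k := by
  by_contra hcon
  push Not at hcon
  obtain ⟨h1, h2⟩ := hcon
  have h3 := H.clbud hv hd
  have h4 := H.clps hv hd
  have h5 := H.ps_le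
  have h6 : (4 * k : ℤ) < 2 * exs G k X (cl G X v) + e2 Gᶜ (cl G X v) + 8 := by
    exact_mod_cast h2
  obtain ⟨m, hm⟩ := ps_even (G := G) k (X \ cl G X v)
  have hF : cl G X v ⊆ X := cl_sub hv
  have hvF : v ∈ cl G X v := mem_insert_self _ _
  have hne : X \ cl G X v ≠ X := by
    intro e
    have : v ∈ X \ cl G X v := by rw [e]; exact hv
    exact (mem_sdiff.1 this).2 hvF
  have hp : ps G k (X \ cl G X v) ≤ 1 := by
    obtain ⟨q, hq⟩ := e2_even (G := Gᶜ) (cl G X v)
    rw [hq] at h4 h6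
    push_cast at h4 h6
    omega
  have ht := H.tau0 Finset.sdiff_subset hne hp
  have htr := H.cltr hv hd hy hz hyz hn
  have h7 := ht _ (by
    intro w hw
    rw [mem_union, mem_sdiff, mem_sdiff, mem_nb, mem_nb] at hw
    rw [mem_sdiff]
    tauto) htr
  have h8 := Finset.card_union_le (nb G X y \ cl G X v) (nb G X z \ cl G X v)
  omega

omit H hv hd in
theorem nbc_ins_le (F : Finset V) (y w : V) :
    (nb Gᶜ (insert y F) w).card ≤ (nb Gᶜ F w).card + 1 := by
  have h : nb Gᶜ (insert y F) w ⊆ insert y (nb Gᶜ F w) := by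
    intro u hu
    have h1 := mem_nb.1 hu
    rcases mem_insert.1 h1.1 with h2 | h2
    · exact mem_insert.2 (Or.inl h2)
    · exact mem_insert.2 (Or.inr (mem_nb.2 ⟨h2, h1.2⟩))
  exact (Finset.card_le_card h).trans (Finset.card_insert_le _ _)

omit H hv hd in
theorem nbc_insert_adj {F : Finset V} {y w : V} (h : G.Adj w y) :
    (nb Gᶜ (insert y F) w).card ≤ (nb Gᶜ F w).card := by
  refine Finset.card_le_card ?_
  intro u hu
  have h1 := mem_nb.1 hu
  rcases mem_insert.1 h1.1 with h2 | h2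
  · exact absurd (h2 ▸ h) ((SimpleGraph.compl_adj _ _ _).1 h1.2).2
  · exact mem_nb.2 ⟨h2, h1.2⟩

omit H hv hd in
theorem nbc_singleton_le (y w : V) : (nb Gᶜ {y} w).card ≤ 1 :=
  (Finset.card_le_card (nb_sub _ _)).trans (by rw [Finset.card_singleton])

omit H hv hd in
theorem nbc_singleton_adj {y w : V} (h : G.Adj w y) : (nb Gᶜ {y} w).card = 0 := by
  rw [Finset.card_eq_zero, Finset.eq_empty_iff_forall_notMem]
  intro u hu
  have h1 := mem_nb.1 hu
  rw [mem_singleton] at h1
  exact ((SimpleGraph.compl_adj _ _ _).1 h1.2).2 (h1.1 ▸ h)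

omit H hv hd in
theorem nbc_two {F : Finset V} {y z w : V} (h : G.Adj w y ∨ G.Adj w z) :
    (nb Gᶜ (insert y (insert z F)) w).card ≤ (nb Gᶜ F w).card + 1 := by
  rcases h with h | h
  · exact (nbc_insert_adj h).trans (nbc_ins_le _ _ _)
  · have h1 := nbc_ins_le (G := G) (insert z F) y w
    have h2 := nbc_insert_adj (G := G) (F := F) h
    omega

omit H hv hd in
theorem nbc_pair {y z w : V} (h : G.Adj w y ∨ G.Adj w z) : (nb Gᶜ {y, z} w).card ≤ 1 := by
  rcases h with h | h
  · exact (nbc_insert_adj h).trans (nbc_singleton_le _ _)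
  · have h1 := nbc_ins_le (G := G) {z} y w
    have h2 := nbc_singleton_adj (G := G) h
    omega

/-- no four pairwise nonadjacent vertices -/
theorem MC.no4 (h7 : 7 ≤ k) {p q r s : V} (hp : p ∈ cl G X v) (hq : q ∈ cl G X v)
    (hr : r ∈ cl G X v) (hs : s ∈ cl G X v) (hpq : p ≠ q) (hpr : p ≠ r) (hps : p ≠ s)
    (hqr : q ≠ r) (hqs : q ≠ s) (hrs : r ≠ s) (n1 : ¬ G.Adj p q) (n2 : ¬ G.Adj p r)
    (n3 : ¬ G.Adj p s) (n4 : ¬ G.Adj q r) (n5 : ¬ G.Adj q s) (n6 : ¬ G.Adj r s) : False := by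
  have e1 := H.cltri hv hd hp hq hr hpq hpr hqr n1 n2 n4
  have e2' := H.cltri hv hd hp hq hs hpq hps hqs n1 n3 n5
  have e3 := H.cltri hv hd hp hr hs hpr hps hrs n2 n3 n6
  have e4 := H.cltri hv hd hq hr hs hqr hqs hrs n4 n5 n6
  have m1 : r ∉ ({s} : Finset V) := by simp [hrs]
  have m2 : q ∉ ({r, s} : Finset V) := by simp [hqr, hqs]
  have m3 : p ∉ ({q, r, s} : Finset V) := by simp [hpq, hpr, hps]
  have h := H.clsum hv hd (S := {p, q, r, s}) (by
    intro u hu
    simp only [mem_insert, mem_singleton] at hu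
    rcases hu with rfl | rfl | rfl | rfl <;> assumption)
  rw [Finset.sum_insert m3, Finset.sum_insert m2,
    Finset.sum_insert m1, Finset.sum_singleton, Finset.card_insert_of_notMem m3,
    Finset.card_insert_of_notMem m2, Finset.card_insert_of_notMem m1,
    Finset.card_singleton] at h
  omega

/-- no missing triangle with a disjoint missing pair -/
theorem MC.no32 (h7 : 7 ≤ k) {a b p q r : V} (ha : a ∈ cl G X v) (hb : b ∈ cl G X v)
    (hp : p ∈ cl G X v) (hq : q ∈ cl G X v) (hr : r ∈ cl G X v)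
    (hab : a ≠ b) (hap : a ≠ p) (haq : a ≠ q) (har : a ≠ r) (hbp : b ≠ p)
    (hbq : b ≠ q) (hbr : b ≠ r) (hpq : p ≠ q) (hpr : p ≠ r)
    (hqr : q ≠ r) (n1 : ¬ G.Adj a b) (n2 : ¬ G.Adj p q)
    (n3 : ¬ G.Adj p r) (n4 : ¬ G.Adj q r) : False := by
  have e1 := H.clpair hv hd ha hb hab n1
  have e1' := H.clpair2 hv hd ha hb hab n1
  have e2' := H.cltri hv hd hp hq hr hpq hpr hqr n2 n3 n4
  have m2 : q ∉ ({r} : Finset V) := by simp [hqr]
  have m3 : p ∉ ({q, r} : Finset V) := by simp [hpq, hpr]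
  have m4 : b ∉ ({p, q, r} : Finset V) := by simp [hbp, hbq, hbr]
  have m5 : a ∉ ({b, p, q, r} : Finset V) := by simp [hab, hap, haq, har]
  have h := H.clsum2 hv hd (S := {a, b, p, q, r}) (by
    intro u hu
    simp only [mem_insert, mem_singleton] at hu
    rcases hu with rfl | rfl | rfl | rfl | rfl <;> assumption)
  rw [Finset.sum_insert m5, Finset.sum_insert m4, Finset.sum_insert m3, Finset.sum_insert m2,
    Finset.sum_singleton] at h
  have hbud := H.clbud hv hd
  have q5 := e2_ins (G := Gᶜ) m5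
  have q4 := e2_ins (G := Gᶜ) m4
  have q3 := e2_le (G := Gᶜ) ({p, q, r} : Finset V)
  rw [Finset.card_insert_of_notMem m3, Finset.card_insert_of_notMem m2,
    Finset.card_singleton] at q3
  have key : ∀ {w : V}, w ∈ cl G X v → w ≠ p → w ≠ q → w ≠ r →
      (nb Gᶜ {p, q, r} w).card ≤ 2 := by
    intro w hw w1 w2 w3
    by_cases c1 : G.Adj w p
    · have := nbc_insert_adj (G := G) (F := {q, r}) c1
      have := nbc_ins_le (G := G) {r} q w
      have := nbc_singleton_le (G := G) r w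
      omega
    by_cases c2 : G.Adj w q
    · have := nbc_ins_le (G := G) {q, r} p w
      have := nbc_pair (G := G) (y := q) (z := r) (w := w) (Or.inl c2)
      omega
    by_cases c3 : G.Adj w r
    · have := nbc_ins_le (G := G) {q, r} p w
      have := nbc_pair (G := G) (y := q) (z := r) (w := w) (Or.inr c3)
      omega
    · exact (H.no4 hv hd h7 hw hp hq hr w1 w2 w3 hpq hpr hqr c1 c2 c3 n2 n3 n4).elim
  have k1 := key hb hbp hbq hbr
  have k2 := key ha hap haq har
  have k3 := nbc_ins_le (G := G) {p, q, r} b a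
  omega

/-- three disjoint missing pairs: many missing pairs between them -/
theorem MC.six (h32 : No32 G (cl G X v)) {a b p q r s : V} (ha : a ∈ cl G X v) (hb : b ∈ cl G X v)
    (hp : p ∈ cl G X v)
    (hq : q ∈ cl G X v) (hr : r ∈ cl G X v) (hs : s ∈ cl G X v)
    (hab : a ≠ b) (hap : a ≠ p) (haq : a ≠ q) (har : a ≠ r) (has : a ≠ s) (hbp : b ≠ p)
    (hbq : b ≠ q) (hbr : b ≠ r) (hbs : b ≠ s) (hpq : p ≠ q) (hpr : p ≠ r) (hps : p ≠ s)
    (hqr : q ≠ r) (hqs : q ≠ s) (hrs : r ≠ s) (n1 : ¬ G.Adj a b) (n2 : ¬ G.Adj p q)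
    (n3 : ¬ G.Adj r s) : e2 Gᶜ {a, b, p, q, r, s} ≤ 18 ∧
    (e2 Gᶜ {a, b, p, q, r, s} = 18 → 2 ≤ (nb Gᶜ {p, q, r, s} b).card ∧
      3 ≤ (nb Gᶜ {b, p, q, r, s} a).card) ∧
    (G.Adj a p → G.Adj a q → G.Adj b p → G.Adj b q → e2 Gᶜ {a, b, p, q, r, s} ≤ 14) := by
  have m1 : r ∉ ({s} : Finset V) := by simp [hrs]
  have m2 : q ∉ ({r, s} : Finset V) := by simp [hqr, hqs]
  have m3 : p ∉ ({q, r, s} : Finset V) := by simp [hpq, hpr, hps]
  have m4 : b ∉ ({p, q, r, s} : Finset V) := by simp [hbp, hbq, hbr, hbs]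
  have m5 : a ∉ ({b, p, q, r, s} : Finset V) := by simp [hab, hap, haq, har, has]
  have q5 := e2_ins (G := Gᶜ) m5
  have q4 := e2_ins (G := Gᶜ) m4
  have q3 := e2_ins (G := Gᶜ) m3
  have q2 := e2_ins (G := Gᶜ) m2
  have q1 := e2_le (G := Gᶜ) ({r, s} : Finset V)
  rw [Finset.card_pair hrs] at q1
  have c : ∀ {w y z f g : V}, w ∈ cl G X v → y ∈ cl G X v → z ∈ cl G X v → f ∈ cl G X v →
      g ∈ cl G X v → f ≠ g → f ≠ w → f ≠ y → f ≠ z → g ≠ w → g ≠ y → g ≠ z → w ≠ y → w ≠ z →
      y ≠ z → ¬ G.Adj f g → ¬ G.Adj y z → G.Adj w y ∨ G.Adj w z := by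
    intro w y z f g hw hy hz hf hg a1 a2 a3 a4 a5 a6 a7 a8 a9 a10 b1 b2
    by_contra hcon
    push Not at hcon
    exact h32 hf hg hw hy hz a1 a2 a3 a4 a5 a6 a7 a8 a9 a10 b1 hcon.1 hcon.2 b2
  -- `q` against `r s`
  have t1 := nbc_pair (G := G) (c hq hr hs ha hb hab haq har has hbq hbr hbs hqr hqs hrs n1 n3)
  have t2 := nbc_pair (G := G) (c hp hr hs ha hb hab hap har has hbp hbr hbs hpr hps hrs n1 n3)
  have t3 := nbc_pair (G := G) (c hb hr hs hp hq hpq (Ne.symm hbp) hpr hps (Ne.symm hbq) hqr hqs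
    hbr hbs hrs n2 n3)
  have t4 := nbc_pair (G := G) (c ha hr hs hp hq hpq (Ne.symm hap) hpr hps (Ne.symm haq) hqr hqs
    har has hrs n2 n3)
  have t5 := nbc_two (G := G) (F := {r, s}) (c hb hp hq hr hs hrs (Ne.symm hbr) (Ne.symm hpr)
    (Ne.symm hqr) (Ne.symm hbs) (Ne.symm hps) (Ne.symm hqs) hbp hbq hpq n3 n2)
  have t6 := nbc_two (G := G) (F := {r, s}) (c ha hp hq hr hs hrs (Ne.symm har) (Ne.symm hpr)
    (Ne.symm hqr) (Ne.symm has) (Ne.symm hps) (Ne.symm hqs) hap haq hpq n3 n2)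
  have t7 := nbc_ins_le (G := G) {r, s} q p
  have t8 := nbc_ins_le (G := G) {p, q, r, s} b a
  refine ⟨by omega, fun h => ⟨by omega, by omega⟩, fun d1 d2 d3 d4 => ?_⟩
  have u1 := nbc_insert_adj (G := G) (F := {q, r, s}) d1
  have u2 := nbc_insert_adj (G := G) (F := {r, s}) d2
  have u3 := nbc_insert_adj (G := G) (F := {q, r, s}) d3
  have u4 := nbc_insert_adj (G := G) (F := {r, s}) d4
  omega

end nbh

end Pool.Agent.TwoDens.TS
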