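import Pool.Agent.TKS.Sev
import Pool.Agent.TKS.BR

/-!
Transversals with `k - 1` elements of sets with small potential, and counting tools.
-/

open Finset

namespace Pool.Agent.TwoDens.TS

open Pool.Agent.TwoDens Pool.Agent.TwoDens.RK Pool.Agent.TwoDens.DD

variable {V : Type*} [DecidableEq V] {G : SimpleGraph V} [DecidableRel G.Adj]

/-- a set with missing pairs has a missing pair -/
theorem exists_miss {S : Finset V} (h : 0 < e2 Gᶜ S) : ∃ p ∈ S, ∃ q ∈ S, p ≠ q ∧ ¬ G.Adj p q := by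
  rw [e2_eq] at h
  obtain ⟨p, hp, hp'⟩ := Finset.exists_ne_zero_of_sum_ne_zero (by omega : ∑ v ∈ S,
    (nb Gᶜ S v).card ≠ 0)
  obtain ⟨q, hq⟩ := Finset.card_pos.1 (Nat.pos_of_ne_zero hp')
  have h1 := mem_nb.1 hq
  have h2 := (SimpleGraph.compl_adj _ _ _).1 h1.2
  exact ⟨p, hp, q, h1.1, h2.1, h2.2⟩

/-- (3.4) for potentials up to `8` -/
theorem MC.tr34' {k : ℕ} {X : Finset V} (H : MC G k X) (h6 : 6 ≤ k) {Y : Finset V}
    (hY : Y ⊆ X) (hne : Y ≠ X) (hp : ps G k Y ≤ 8) {S : Finset V} (hS : S ⊆ Y)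
    (hc : S.card + 1 = k) (ht : Tr G Y S) :
    Clq G S ∧ 2 * (bd G Y S : ℤ) + 2 ≤ ps G k Y := by
  have hk6 : (6 : ℤ) ≤ k := by exact_mod_cast h6
  have h1 := H.tr31 hY hne hS ht
  have h2 := H.dY hY hne (δ := k - 2) (Or.inl ⟨by linarith, by omega⟩)
  have h3 := sum_ge (G := G) (Y := Y) (S := S) (k - 2) (fun v hv => h2 v (hS hv))
  have h4 := e2_add_compl (G := G) S
  have h5 := sum_deg' (G := G) hS
  obtain ⟨q, hq⟩ := e2_even (G := Gᶜ) S
  rw [hq] at h4
  obtain ⟨m, rfl⟩ : ∃ m, k = m + 2 := ⟨k - 2, by omega⟩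
  have hs : S.card = m + 1 := by omega
  rw [hs] at h1 h3 h4
  have g3 : ((∑ v ∈ S, (nb G Y v).card : ℕ) : ℤ) = m * (m + 1) + exs G m Y S := by
    exact_mod_cast h3
  have g4 : (e2 G S : ℤ) + 2 * q + (m + 1) = (m + 1) * (m + 1) := by exact_mod_cast h4
  have g5 : ((∑ v ∈ S, (nb G Y v).card : ℕ) : ℤ) = e2 G S + bd G Y S := by exact_mod_cast h5
  push_cast at h1
  have g6 : 2 * (bd G Y S : ℤ) + 2 ≤ ps G (m + 2) Y + 2 * q := by nlinarith
  have g7 : (bd G Y S : ℤ) = 2 * q + exs G m Y S := by nlinarith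
  have hx0 := Int.natCast_nonneg (exs G m Y S)
  by_cases hq0 : q = 0
  · refine ⟨clq_of_e2 (by rw [hq, hq0]), ?_⟩
    rw [hq0] at g6
    push_cast at g6
    linarith
  exfalso
  obtain ⟨r, hr, s, hsS, hrs, hn⟩ := exists_miss (G := G) (S := S) (by omega)
  -- the rest of `Y`
  have hal1 : al G (Y \ S) + 1 = al G Y := by
    by_contra hcon
    have ht' : al G (Y \ S) < al G Y := ht
    have h8 := H.drop hY hne hS (j := 2) (by omega)
    rw [hs] at h8
    push_cast at h8
    have : (4 : ℤ) ≤ m := by linarith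
    nlinarith
  have hsub : Y \ S ⊆ X := Finset.sdiff_subset.trans hY
  have hne2 : Y \ S ≠ X := by
    intro e
    exact hne (Finset.Subset.antisymm hY (e ▸ Finset.sdiff_subset))
  have hps := ps_sdiff (G := G) (m + 2) hS
  have hal1' : (al G Y : ℤ) - al G (Y \ S) = 1 := by
    have : (al G (Y \ S) : ℤ) + 1 = al G Y := by exact_mod_cast hal1
    linarith
  rw [hal1', hs, g5] at hps
  push_cast at hps
  have hp2 : ps G (m + 2) (Y \ S) + 2 * bd G Y S + 2 = ps G (m + 2) Y + 2 * q := by nlinarith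
  have ht1 := H.tau1 hsub hne2 (by push_cast; push_cast at hk6; linarith)
  have htr := tr_nbr (G := G) (X := Y) (Y := Y \ S) (J := {r, s})
    (S := (nb G Y r \ S) ∪ (nb G Y s \ S)) Finset.sdiff_subset
    (by
      intro w hw
      rw [mem_insert, mem_singleton] at hw
      rcases hw with rfl | rfl
      · exact hS hr
      · exact hS hsS) (by
      rw [Finset.disjoint_left]
      intro w hw hw'
      rw [mem_insert, mem_singleton] at hw
      rcases hw with rfl | rfl
      · exact (mem_sdiff.1 hw').2 hr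
      · exact (mem_sdiff.1 hw').2 hsS) (indep_pair hn) (by
      rw [Finset.card_pair hrs]
      omega) (by
      intro u hu w hw huw
      rw [mem_insert, mem_singleton] at hu
      have hw' := mem_sdiff.1 hw
      rcases hu with rfl | rfl
      · exact mem_union_left _ (mem_sdiff.2 ⟨mem_nb.2 ⟨hw'.1, huw⟩, hw'.2⟩)
      · exact mem_union_right _ (mem_sdiff.2 ⟨mem_nb.2 ⟨hw'.1, huw⟩, hw'.2⟩))
  have h7 := ht1 _ (by
    intro w hw
    rw [mem_union, mem_sdiff, mem_sdiff, mem_nb, mem_nb] at hw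
    rw [mem_sdiff]
    tauto) htr
  have h8 := Finset.card_union_le (nb G Y r \ S) (nb G Y s \ S)
  -- outer neighbours are at least as many as missing ones
  have hms : ∀ v ∈ S, (nb Gᶜ S v).card ≤ (nb G Y v \ S).card := by
    intro v hv
    have e1 := deg_split (G := G) hS hv
    have e2' := h2 v (hS hv)
    omega
  obtain ⟨S', hS'⟩ : ∃ S', S' = S \ {r, s} := ⟨_, rfl⟩
  have hrsS : ({r, s} : Finset V) ⊆ S := by
    intro w hw
    rw [mem_insert, mem_singleton] at hw
    rcases hw with rfl | rfl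
    · exact hr
    · exact hsS
  have e1 : ∑ v ∈ S', (nb G Y v \ S).card + ((nb G Y r \ S).card + (nb G Y s \ S).card) =
      bd G Y S := by
    unfold bd
    rw [hS', ← Finset.sum_pair (f := fun v => (nb G Y v \ S).card) hrs]
    exact Finset.sum_sdiff hrsS
  have e3 : ∑ v ∈ S', (nb Gᶜ S v).card + ((nb Gᶜ S r).card + (nb Gᶜ S s).card) =
      e2 Gᶜ S := by
    rw [e2_eq, hS', ← Finset.sum_pair hrs (f := fun v => (nb Gᶜ S v).card)]
    exact Finset.sum_sdiff hrsS
  have e4 : ∑ v ∈ S', (nb Gᶜ S v).card ≤ ∑ v ∈ S', (nb G Y v \ S).card :=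
    Finset.sum_le_sum fun v hv => hms v (by rw [hS'] at hv; exact (mem_sdiff.1 hv).1)
  have e5 := e2_sdiff (G := Gᶜ) hrsS
  rw [Finset.sum_pair hrs] at e5
  have e6 := e2_le (G := Gᶜ) ({r, s} : Finset V)
  rw [Finset.card_pair hrs] at e6
  have g6' : 2 * (bd G Y S : ℤ) ≤ 6 + 2 * q := by linarith
  have g6'' : 2 * bd G Y S ≤ 6 + 2 * q := by exact_mod_cast g6'
  omega

/-- the excess and the number of leaving edges of a set whose removal lowers the independence
number by `2` and which has `2 k` elements -/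
theorem MC.two_k {k : ℕ} {X : Finset V} (H : MC G k X) {W : Finset V} (hW : W ⊆ X)
    (hc : W.card = 2 * k) (hal : al G (X \ W) + 2 ≤ al G X) :
    exs G k X W + bd G X W + 6 ≤ 2 * k := by
  have hk := H.hk
  have h1 := H.exbd hW (by rw [← Finset.card_pos]; omega) hal
  rw [hc] at h1
  push_cast at h1
  have h2 : (exs G k X W : ℤ) + bd G X W + 6 ≤ 2 * k := by nlinarith
  exact_mod_cast h2

/-- an independent set of `W` of size `3` that avoids `m` -/
theorem MC.tri {k : ℕ} {X : Finset V} (H : MC G k X) {W : Finset V} (hW : W ⊆ X)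
    (hne : (X \ W).Nonempty) (hal : al G (X \ W) + 2 = al G X) {m : V} (hm : m ∈ W)
    (hW1 : (W.erase m).Nonempty) :
    ∃ J ⊆ W, G.IsIndepSet (J : Set V) ∧ J.card = 3 ∧ m ∉ J := by
  have hbr := H.bridge (W1 := W.erase m) (W2 := X \ W) (m := m) (by
    ext v
    rw [mem_insert, mem_union, mem_erase, mem_sdiff]
    constructor
    · rintro (h | h | h)
      · exact h ▸ hW hm
      · exact hW h.2
      · exact h.1
    · intro h
      by_cases e : v = m
      · exact Or.inl e
      · by_cases e' : v ∈ W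
        · exact Or.inr (Or.inl ⟨e, e'⟩)
        · exact Or.inr (Or.inr ⟨h, e'⟩)) (by
    rw [Finset.disjoint_left]
    intro v hv hv'
    exact (mem_sdiff.1 hv').2 (mem_erase.1 hv).2) (Finset.notMem_erase m W) (by
    rw [mem_sdiff]
    exact fun h => h.2 hm) hW1 hne
  obtain ⟨I, hI, hi, hc⟩ := exists_al (G := G) (W.erase m)
  obtain ⟨J, hJ, hJc⟩ := Finset.exists_subset_card_eq (s := I) (n := 3) (by omega)
  refine ⟨J, (hJ.trans hI).trans (Finset.erase_subset _ _), indep_mono hi hJ, hJc, ?_⟩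
  intro h
  exact (mem_erase.1 (hI (hJ h))).1 rfl

/-- the outer neighbours of an independent triple -/
theorem MC.trisum {k t : ℕ} {X : Finset V} (H : MC G k X) {W : Finset V} (hW : W ⊆ X)
    (hal : al G (X \ W) + 2 = al G X) (ht : TauGe G (X \ W) t) {J : Finset V}
    (hJ : J ⊆ W) (hi : G.IsIndepSet (J : Set V)) (hJc : J.card = 3) :
    t ≤ ∑ z ∈ J, (nb G (X \ W) z).card := by
  have htr := tr_nbr (G := G) (X := X) (Y := X \ W) (J := J)
    (S := J.biUnion (fun z => nb G (X \ W) z)) Finset.sdiff_subset (hJ.trans hW) (by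
      rw [Finset.disjoint_left]
      intro v hv hv'
      exact (mem_sdiff.1 hv').2 (hJ hv)) hi (by omega) (by
      intro z hz w hw hzw
      exact mem_biUnion.2 ⟨z, hz, mem_nb.2 ⟨hw, hzw⟩⟩)
  have h1 := ht _ (by
    intro v hv
    obtain ⟨z, _, hz⟩ := mem_biUnion.1 hv
    exact (mem_nb.1 hz).1) htr
  exact h1.trans (Finset.card_biUnion_le)

/-- the edges leaving `W` are at least as many as the elements of a transversal of `X \ W` -/
theorem MC.bd_ge {k t : ℕ} {X : Finset V} (H : MC G k X) {W : Finset V} (hW : W ⊆ X)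
    (hWn : W.Nonempty) (hne : (X \ W).Nonempty) (ht : TauGe G (X \ W) t) : t ≤ bd G X W := by
  have h1 := H.p1 (A := W) (B := X \ W) (Finset.union_sdiff_of_subset hW)
    Finset.disjoint_sdiff hWn hne
  obtain ⟨J, hJ, hi, hc⟩ := exists_al (G := G) W
  have htr := tr_nbr (G := G) (X := X) (Y := X \ W) (J := J)
    (S := J.biUnion (fun z => nb G (X \ W) z)) Finset.sdiff_subset (hJ.trans hW) (by
      rw [Finset.disjoint_left]
      intro v hv hv'
      exact (mem_sdiff.1 hv').2 (hJ hv)) hi (by omega) (by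
      intro z hz w hw hzw
      exact mem_biUnion.2 ⟨z, hz, mem_nb.2 ⟨hw, hzw⟩⟩)
  have h2 := ht _ (by
    intro v hv
    obtain ⟨z, _, hz⟩ := mem_biUnion.1 hv
    exact (mem_nb.1 hz).1) htr
  have h3 : ∑ z ∈ J, (nb G (X \ W) z).card ≤ bd G X W := by
    unfold bd
    refine (Finset.sum_le_sum_of_subset hJ).trans (Finset.sum_le_sum fun z _ => ?_)
    refine Finset.card_le_card ?_
    intro w hw
    have hw' := mem_nb.1 hw
    have hw2 := mem_sdiff.1 hw'.1
    exact mem_sdiff.2 ⟨mem_nb.2 ⟨hw2.1, hw'.2⟩, hw2.2⟩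
  exact h2.trans ((Finset.card_biUnion_le).trans h3)

/-- a transversal of `Y` that misses a vertex `v` of the clique `R` without neighbours in
`Y \ R` -/
theorem dich0 {Y R T : Finset V} (hR : R ⊆ Y) (hal : al G (Y \ R) + 1 = al G Y)
    (hT : Tr G Y T) {v : V} (hv : v ∈ R) (hvT : v ∉ T) (hvn : nb G Y v \ R = ∅) :
    Tr G (Y \ R) (T ∩ (Y \ R)) := by
  refine tr_of fun I hI hi hd => ?_
  have hvI : v ∉ I := fun e => (mem_sdiff.1 (hI e)).2 hv
  have hlt := hT.lt (I := insert v I) (Finset.insert_subset (hR hv) (hI.trans Finset.sdiff_subset))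
    (indep_insert hi (by
      intro z hz hvz
      have hz' := mem_sdiff.1 (hI hz)
      have h : z ∈ nb G Y v \ R := mem_sdiff.2 ⟨mem_nb.2 ⟨hz'.1, hvz⟩, hz'.2⟩
      rw [hvn] at h
      simp at h)) (by
    rw [Finset.disjoint_left]
    intro z hz hz'
    rcases mem_insert.1 hz with rfl | h
    · exact hvT hz'
    · exact (Finset.disjoint_left.1 hd) h (mem_inter.2 ⟨hz', hI h⟩))
  rw [Finset.card_insert_of_notMem hvI] at hlt
  omega

end Pool.Agent.TwoDens.TS
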