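import Pool.Agent.TKS.BE

/-!
Pairs of nonadjacent neighbours with few outer neighbours.
-/

open Finset

namespace Pool.Agent.TwoDens.TS

open Pool.Agent.TwoDens Pool.Agent.TwoDens.RK Pool.Agent.TwoDens.DD

variable {V : Type*} [DecidableEq V] {G : SimpleGraph V} [DecidableRel G.Adj]

section nbh
variable {k : ℕ} {X : Finset V} (H : MC G k X) {v : V} (hv : v ∈ X)
  (hd : (nb G X v).card = k)
include H hv hd

theorem MC.clps' : ps G k (X \ cl G X v) + (2 * exs G k X (cl G X v) + e2 Gᶜ (cl G X v) : ℕ) +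
    6 ≤ 4 * k := by
  have h4 := H.clps hv hd
  have h5 := H.ps_le
  push_cast
  linarith

theorem MC.clne : X \ cl G X v ≠ X := by
  intro e
  have h : v ∈ X \ cl G X v := by rw [e]; exact hv
  exact (mem_sdiff.1 h).2 (mem_insert_self _ _)

/-- a nonadjacent pair with only `k - 1` outer neighbours -/
theorem MC.tight (h6 : 6 ≤ k) {a b : V} (ha : a ∈ cl G X v) (hb : b ∈ cl G X v) (hab : a ≠ b)
    (hn : ¬ G.Adj a b)
    (ht : 4 * k ≤ 2 * exs G k X (cl G X v) + e2 Gᶜ (cl G X v) + 10)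
    (hc : (nb G X a \ cl G X v).card + (nb G X b \ cl G X v).card + 1 ≤ k) {R : Finset V}
    (hR : R = (nb G X a \ cl G X v) ∪ (nb G X b \ cl G X v)) :
    R ⊆ X \ cl G X v ∧ R.card + 1 = k ∧ Disjoint (nb G X a \ cl G X v) (nb G X b \ cl G X v) ∧
      Clq G R ∧ 2 * bd G (X \ cl G X v) R + 8 + (2 * exs G k X (cl G X v) +
        e2 Gᶜ (cl G X v)) ≤ 4 * k ∧ al G ((X \ cl G X v) \ R) + 1 = al G (X \ cl G X v) ∧
      TauGe G ((X \ cl G X v) \ R) (k - 1) ∧
      (4 * k ≤ 2 * exs G k X (cl G X v) + e2 Gᶜ (cl G X v) + 8 →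
        TauGe G ((X \ cl G X v) \ R) k) := by
  have hk := H.hk
  have hk6 : (6 : ℤ) ≤ k := by exact_mod_cast h6
  have hps := H.clps' hv hd
  have hne := H.clne hv hd
  have htr := H.cltr hv hd ha hb hab hn
  have hpr := H.clpair hv hd ha hb hab hn
  have ht' : (4 * k : ℤ) ≤ (2 * exs G k X (cl G X v) + e2 Gᶜ (cl G X v) : ℕ) + 10 := by
    exact_mod_cast ht
  rw [← hR] at htr
  have hRH : R ⊆ X \ cl G X v := by
    intro w hw
    rw [hR, mem_union, mem_sdiff, mem_sdiff, mem_nb, mem_nb] at hw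
    rw [mem_sdiff]
    tauto
  obtain ⟨Y, hY⟩ : ∃ Y, Y = X \ cl G X v := ⟨_, rfl⟩
  have hYX : Y ⊆ X := by rw [hY]; exact Finset.sdiff_subset
  obtain ⟨t, htt⟩ : ∃ t, 2 * exs G k X (cl G X v) + e2 Gᶜ (cl G X v) = t := ⟨_, rfl⟩
  rw [← hY] at hps htr hRH hne ⊢
  rw [htt] at hps ht' ht ⊢
  have hu := Finset.card_union_add_card_inter (nb G X a \ cl G X v) (nb G X b \ cl G X v)
  rw [← hR] at hu
  have h1 := H.tau1 hYX hne (by linarith) R hRH htr
  have hRc : R.card + 1 = k := by omega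
  have hdis : Disjoint (nb G X a \ cl G X v) (nb G X b \ cl G X v) := by
    rw [Finset.disjoint_iff_inter_eq_empty, ← Finset.card_eq_zero]
    omega
  obtain ⟨hq, hbd⟩ := H.tr34' h6 hYX hne (by linarith) hRH hRc htr
  have hal1 : al G (Y \ R) + 1 = al G Y := by
    have h5 := al_le_sdiff (G := G) Y R
    rw [Finset.inter_eq_right.2 hRH] at h5
    have h6 : al G (Y \ R) < al G Y := htr
    have h7 := al_clq hq
    omega
  have hsub : Y \ R ⊆ X := Finset.sdiff_subset.trans hYX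
  have hne2 : Y \ R ≠ X := by
    intro e
    exact hne (Finset.Subset.antisymm hYX (e ▸ Finset.sdiff_subset))
  have hp2 : ps G k (Y \ R) + 2 * bd G Y R + 2 = ps G k Y := by
    have e1 := ps_sdiff (G := G) k hRH
    have e2' := sum_deg' (G := G) hRH
    have e3 := clq_e2 (G := G) hq
    have e4 : (al G (Y \ R) : ℤ) + 1 = al G Y := by exact_mod_cast hal1
    obtain ⟨m, hm⟩ : ∃ m, R.card = m := ⟨_, rfl⟩
    have hkm : k = m + 1 := by omega
    rw [hm] at e1 e3
    have e3' : (e2 G R : ℤ) + m = m * m := by exact_mod_cast e3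
    have e2'' : ((∑ v ∈ R, (nb G Y v).card : ℕ) : ℤ) = e2 G R + bd G Y R := by
      exact_mod_cast e2'
    have e5 : (al G Y : ℤ) - al G (Y \ R) = 1 := by linarith
    rw [e5, e2''] at e1
    have hkm' : (k : ℤ) = m + 1 := by exact_mod_cast hkm
    rw [hkm'] at e1
    nlinarith
  have hb0 := Int.natCast_nonneg (bd G Y R)
  refine ⟨hRH, hRc, hdis, hq, ?_, hal1, H.tau1 hsub hne2 (by linarith), fun h8 => ?_⟩
  · have : 2 * (bd G Y R : ℤ) + 8 + t ≤ 4 * k := by linarith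
    exact_mod_cast this
  · have h8' : (4 * k : ℤ) ≤ t + 8 := by exact_mod_cast h8
    exact H.tau0 hsub hne2 (by linarith)

/-- edges leaving `N[v] u R` -/
theorem MC.clcount {R : Finset V} (hRH : R ⊆ X \ cl G X v) (hRc : R.card + 1 = k) {t : ℕ}
    (ht : TauGe G ((X \ cl G X v) \ R) t) {S : Finset V} (hS : S ⊆ cl G X v) :
    t + ∑ z ∈ S, ((nb G X z \ cl G X v) ∩ R).card ≤
      exs G k X (cl G X v) + e2 Gᶜ (cl G X v) + bd G (X \ cl G X v) R := by
  have hk := H.hk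
  have hF : cl G X v ⊆ X := cl_sub hv
  have hFc := card_cl (G := G) (X := X) (v := v)
  have hXc := H.card_ge
  obtain ⟨F, hFd⟩ : ∃ F, F = cl G X v := ⟨_, rfl⟩
  have hout : ∑ z ∈ F, (nb G X z \ F).card = exs G k X F + e2 Gᶜ F := by
    unfold exs
    rw [e2_eq, ← Finset.sum_add_distrib, hFd]
    exact Finset.sum_congr rfl fun u hu => H.clout hv hd hu
  rw [← hFd] at hRH ht hS hF hFc ⊢
  have hdis : Disjoint F R := by
    rw [Finset.disjoint_left]
    intro w hw hw'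
    exact (mem_sdiff.1 (hRH hw')).2 hw
  have hYW : (X \ F) \ R = X \ (F ∪ R) := by
    ext w
    rw [mem_sdiff, mem_sdiff, mem_sdiff, mem_union]
    tauto
  have hWX : F ∪ R ⊆ X := Finset.union_subset hF (hRH.trans Finset.sdiff_subset)
  have hWc : (F ∪ R).card = 2 * k := by
    rw [Finset.card_union_of_disjoint hdis]
    omega
  have h1 := H.bd_ge (t := t) hWX (by rw [← Finset.card_pos]; omega) (by
    rw [← Finset.card_pos, Finset.card_sdiff_of_subset hWX]
    omega) (by rw [← hYW]; exact ht)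
  have h2 : bd G X (F ∪ R) = ∑ z ∈ F, (nb G X z \ (F ∪ R)).card +
      ∑ z ∈ R, (nb G X z \ (F ∪ R)).card := by
    unfold bd
    exact Finset.sum_union hdis
  have h3 : ∑ z ∈ R, (nb G X z \ (F ∪ R)).card = bd G (X \ F) R := by
    unfold bd
    refine Finset.sum_congr rfl fun z _ => ?_
    congr 1
    ext w
    rw [mem_sdiff, mem_sdiff, mem_nb, mem_nb, mem_union, mem_sdiff]
    tauto
  have h4 : ∑ z ∈ F, (nb G X z \ (F ∪ R)).card + ∑ z ∈ F, ((nb G X z \ F) ∩ R).card =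
      ∑ z ∈ F, (nb G X z \ F).card := by
    rw [← Finset.sum_add_distrib]
    refine Finset.sum_congr rfl fun z _ => ?_
    have e1 : nb G X z \ (F ∪ R) = (nb G X z \ F) \ R := by
      ext w
      rw [mem_sdiff, mem_sdiff, mem_sdiff, mem_union]
      tauto
    rw [e1]
    exact Finset.card_sdiff_add_card_inter _ _
  have h5 : ∑ z ∈ S, ((nb G X z \ F) ∩ R).card ≤ ∑ z ∈ F, ((nb G X z \ F) ∩ R).card :=
    Finset.sum_le_sum_of_subset hS
  omega

/-- a pair of nonadjacent vertices whose outer neighbours contain `R`: few outer neighbours -/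
theorem MC.cont0 {y z : V} (hy : y ∈ cl G X v) (hz : z ∈ cl G X v) (hyz : y ≠ z)
    (hn : ¬ G.Adj y z) {R : Finset V} (hRH : R ⊆ X \ cl G X v)
    (hal : al G ((X \ cl G X v) \ R) + 1 = al G (X \ cl G X v))
    (hb : bd G (X \ cl G X v) R = 0) {t : ℕ} (ht : TauGe G ((X \ cl G X v) \ R) t) :
    R ⊆ (nb G X y \ cl G X v) ∪ (nb G X z \ cl G X v) ∨
      t ≤ (((nb G X y \ cl G X v) ∪ (nb G X z \ cl G X v)) ∩ ((X \ cl G X v) \ R)).card := by
  have htr := H.cltr hv hd hy hz hyz hn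
  by_contra hcon
  push Not at hcon
  obtain ⟨h1, h2⟩ := hcon
  obtain ⟨w, hw, hwT⟩ := Finset.not_subset.1 h1
  have h3 : nb G (X \ cl G X v) w \ R = ∅ := by
    unfold bd at hb
    rw [Finset.sum_eq_zero_iff] at hb
    exact Finset.card_eq_zero.1 (hb w hw)
  have h4 := dich0 hRH hal htr hw hwT h3
  have h5 := ht _ Finset.inter_subset_right h4
  omega

/-- containment when no edge leaves `R` -/
theorem MC.cont1 {y y' p q : V} (hy : y ∈ cl G X v) (hp : p ∈ cl G X v) (hq : q ∈ cl G X v)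
    (hyp : y ≠ p) (hn : ¬ G.Adj y p) (hpq : p ≠ q) (hnpq : ¬ G.Adj p q) {R : Finset V}
    (hRH : R ⊆ X \ cl G X v)
    (hal : al G ((X \ cl G X v) \ R) + 1 = al G (X \ cl G X v))
    (hb : bd G (X \ cl G X v) R = 0) (ht : TauGe G ((X \ cl G X v) \ R) k)
    (hyR : nb G X y \ cl G X v ⊆ R) (hyR' : nb G X y' \ cl G X v ⊆ R)
    (hdis : Disjoint (nb G X y \ cl G X v) (nb G X y' \ cl G X v))
    (hne : 1 ≤ (nb G X y' \ cl G X v).card) (hqn : 1 ≤ (nb G X q \ cl G X v).card)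
    (hc : (nb G X p \ cl G X v).card + (nb G X q \ cl G X v).card ≤ k) :
    R ⊆ (nb G X p \ cl G X v) ∪ (nb G X q \ cl G X v) := by
  rcases H.cont0 hv hd hp hq hpq hnpq hRH hal hb ht with h1 | h1
  · exact h1
  exfalso
  have h2 := Finset.card_union_le (nb G X p \ cl G X v) (nb G X q \ cl G X v)
  have h3 : ((nb G X p \ cl G X v) ∪ (nb G X q \ cl G X v)) ∩ ((X \ cl G X v) \ R) =
      (nb G X p \ cl G X v) ∪ (nb G X q \ cl G X v) :=
    Finset.eq_of_subset_of_card_le Finset.inter_subset_left (by omega)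
  have h4 : ∀ w ∈ nb G X p \ cl G X v, w ∉ R := by
    intro w hw hwR
    have h5 : w ∈ ((nb G X p \ cl G X v) ∪ (nb G X q \ cl G X v)) ∩ ((X \ cl G X v) \ R) := by
      rw [h3]
      exact mem_union_left _ hw
    exact (mem_sdiff.1 (mem_inter.1 h5).2).2 hwR
  rcases H.cont0 hv hd hy hp hyp hn hRH hal hb ht with h5 | h5
  · obtain ⟨w, hw⟩ := Finset.card_pos.1 (by omega : 0 < (nb G X y' \ cl G X v).card)
    have hwR := hyR' hw
    rcases mem_union.1 (h5 hwR) with h6 | h6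
    · exact (Finset.disjoint_left.1 hdis) h6 hw
    · exact h4 w h6 hwR
  · have h6 : ((nb G X y \ cl G X v) ∪ (nb G X p \ cl G X v)) ∩ ((X \ cl G X v) \ R) ⊆
        nb G X p \ cl G X v := by
      intro w hw
      obtain ⟨g1, g2⟩ := mem_inter.1 hw
      rcases mem_union.1 g1 with h7 | h7
      · exact absurd (hyR h7) (mem_sdiff.1 g2).2
      · exact h7
    have h7 := Finset.card_le_card h6
    omega

omit H hv hd in
/-- two cliques of the same size left by few edges -/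
theorem clq_eq {Y R T : Finset V} (hTY : T ⊆ Y) (hT : Clq G T)
    (hc : R.card = T.card) (h4 : 4 ≤ R.card) (hb : bd G Y R ≤ 1) {t0 : V} (h0 : t0 ∈ R)
    (h0' : t0 ∈ T) : R = T := by
  unfold bd at hb
  have h1 : T \ R ⊆ nb G Y t0 \ R := by
    intro w hw
    have hw' := mem_sdiff.1 hw
    refine mem_sdiff.2 ⟨mem_nb.2 ⟨hTY hw'.1, hT t0 h0' w hw'.1 ?_⟩, hw'.2⟩
    rintro rfl
    exact hw'.2 h0
  have h2 := Finset.single_le_sum (f := fun v => (nb G Y v \ R).card)
    (fun v _ => Nat.zero_le _) h0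
  have h3 := Finset.card_le_card h1
  have h5 := Finset.card_sdiff_add_card_inter T R
  by_cases h6 : T \ R = ∅
  · have h7 : T ⊆ R := Finset.sdiff_eq_empty_iff_subset.1 h6
    exact (Finset.eq_of_subset_of_card_le h7 (by omega)).symm
  exfalso
  obtain ⟨w, hw⟩ := Finset.nonempty_iff_ne_empty.2 h6
  have hw' := mem_sdiff.1 hw
  obtain ⟨t1, ht1, hne⟩ := Finset.exists_mem_ne (by
    have : (nb G Y t0 \ R).card ≤ 1 := le_trans h2 hb
    omega : 1 < (T ∩ R).card) t0
  rw [mem_inter] at ht1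
  have h7 : ∀ t ∈ ({t0, t1} : Finset V), 1 ≤ (nb G Y t \ R).card := by
    intro t ht
    have ht' : t ∈ T ∧ t ∈ R := by
      rw [mem_insert, mem_singleton] at ht
      rcases ht with rfl | rfl
      · exact ⟨h0', h0⟩
      · exact ht1
    refine Finset.card_pos.2 ⟨w, mem_sdiff.2 ⟨mem_nb.2 ⟨hTY hw'.1, hT t ht'.1 w hw'.1 ?_⟩,
      hw'.2⟩⟩
    rintro rfl
    exact hw'.2 ht'.2
  have h8 : ∑ t ∈ ({t0, t1} : Finset V), (nb G Y t \ R).card ≤ ∑ t ∈ R, (nb G Y t \ R).card :=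
    Finset.sum_le_sum_of_subset (by
      intro t ht
      rw [mem_insert, mem_singleton] at ht
      rcases ht with rfl | rfl
      · exact h0
      · exact ht1.2)
  rw [Finset.sum_pair (Ne.symm hne)] at h8
  have g1 := h7 t0 (by simp)
  have g2 := h7 t1 (by simp)
  omega

/-- containment when at most one edge leaves `R` -/
theorem MC.cont2 (h6 : 6 ≤ k) {y y' p q : V} (hy : y ∈ cl G X v) (hp : p ∈ cl G X v)
    (hq : q ∈ cl G X v)
    (hyp : y ≠ p) (hn : ¬ G.Adj y p) (hpq : p ≠ q) (hnpq : ¬ G.Adj p q) {R : Finset V}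
    (hRH : R ⊆ X \ cl G X v) (hRc : R.card + 1 = k)
    (hal : al G ((X \ cl G X v) \ R) + 1 = al G (X \ cl G X v))
    (hb : bd G (X \ cl G X v) R ≤ 1) (ht : TauGe G ((X \ cl G X v) \ R) (k - 1))
    (hyR : nb G X y \ cl G X v ⊆ R) (hyR' : nb G X y' \ cl G X v ⊆ R)
    (hdis : Disjoint (nb G X y \ cl G X v) (nb G X y' \ cl G X v))
    (hne : 2 ≤ (nb G X y' \ cl G X v).card) (hqn : 1 ≤ (nb G X q \ cl G X v).card)
    (hTs : (nb G X p \ cl G X v).card + (nb G X q \ cl G X v).card + 1 ≤ k)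
    {T : Finset V} (hT : T = (nb G X p \ cl G X v) ∪ (nb G X q \ cl G X v))
    (hTc : T.card + 1 = k) (hTq : Clq G T) (hTH : T ⊆ X \ cl G X v) : R ⊆ T := by
  by_cases h1 : ∃ t0 ∈ R, t0 ∈ T
  · obtain ⟨t0, h2, h3⟩ := h1
    rw [clq_eq hTH hTq (by omega) (by omega) hb h2 h3]
  push Not at h1
  exfalso
  have htr := H.cltr hv hd hy hp hyp hn
  -- a vertex of `N_y'` without outer neighbours
  have hex : ∃ w ∈ nb G X y' \ cl G X v, nb G (X \ cl G X v) w \ R = ∅ := by
    by_contra hcon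
    push Not at hcon
    have h2 : ∑ w ∈ nb G X y' \ cl G X v, 1 ≤
        ∑ w ∈ nb G X y' \ cl G X v, (nb G (X \ cl G X v) w \ R).card :=
      Finset.sum_le_sum fun w hw => Finset.card_pos.2 (hcon w hw)
    have h3 : ∑ w ∈ nb G X y' \ cl G X v, (nb G (X \ cl G X v) w \ R).card ≤
        ∑ w ∈ R, (nb G (X \ cl G X v) w \ R).card := Finset.sum_le_sum_of_subset hyR'
    rw [Finset.sum_const, smul_eq_mul, mul_one] at h2
    unfold bd at hb
    omega
  obtain ⟨w, hw, hwn⟩ := hex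
  have hwR := hyR' hw
  have h4 := dich0 hRH hal htr hwR (by
    rw [mem_union, not_or]
    refine ⟨fun h => (Finset.disjoint_left.1 hdis) h hw, fun h => h1 w hwR ?_⟩
    rw [hT]
    exact mem_union_left _ h) hwn
  have h5 := ht _ Finset.inter_subset_right h4
  have h6 : ((nb G X y \ cl G X v) ∪ (nb G X p \ cl G X v)) ∩ ((X \ cl G X v) \ R) ⊆
      nb G X p \ cl G X v := by
    intro w hw
    obtain ⟨g1, g2⟩ := mem_inter.1 hw
    rcases mem_union.1 g1 with h7 | h7
    · exact absurd (hyR h7) (mem_sdiff.1 g2).2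
    · exact h7
  have h7 := Finset.card_le_card h6
  omega

/-- three disjoint missing pairs, the first one with `k - 1` outer neighbours: the outer
neighbours of the second pair contain those of the first pair -/
theorem MC.n3pair (h7 : 7 ≤ k) {a b p q r s : V} (ha : a ∈ cl G X v) (hb : b ∈ cl G X v)
    (hp : p ∈ cl G X v)
    (hq : q ∈ cl G X v) (hr : r ∈ cl G X v) (hs : s ∈ cl G X v)
    (hab : a ≠ b) (hap : a ≠ p) (haq : a ≠ q) (har : a ≠ r) (has : a ≠ s) (hbp : b ≠ p)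
    (hbq : b ≠ q) (hbr : b ≠ r) (hbs : b ≠ s) (hpq : p ≠ q) (hpr : p ≠ r) (hps : p ≠ s)
    (hqr : q ≠ r) (hqs : q ≠ s) (hrs : r ≠ s) (n1 : ¬ G.Adj a b) (n2 : ¬ G.Adj p q)
    (n3 : ¬ G.Adj r s)
    (hc : (nb G X a \ cl G X v).card + (nb G X b \ cl G X v).card + 1 ≤ k) :
    (nb G X a \ cl G X v) ∪ (nb G X b \ cl G X v) ⊆
      (nb G X p \ cl G X v) ∪ (nb G X q \ cl G X v) ∧
    4 * k ≤ 2 * exs G k X (cl G X v) + e2 Gᶜ (cl G X v) + 10 ∧
    2 * exs G k X (cl G X v) + e2 Gᶜ (cl G X v) + 8 ≤ 4 * k := by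
  have e1 := H.clpair hv hd ha hb hab n1
  have e2' := H.clpair hv hd hp hq hpq n2
  have e3 := H.clpair hv hd hr hs hrs n3
  have f1 := H.clpair2 hv hd ha hb hab n1
  have f2 := H.clpair2 hv hd hp hq hpq n2
  have f3 := H.clpair2 hv hd hr hs hrs n3
  have m1 : r ∉ ({s} : Finset V) := by simp [hrs]
  have m2 : q ∉ ({r, s} : Finset V) := by simp [hqr, hqs]
  have m3 : p ∉ ({q, r, s} : Finset V) := by simp [hpq, hpr, hps]
  have m4 : b ∉ ({p, q, r, s} : Finset V) := by simp [hbp, hbq, hbr, hbs]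
  have m5 : a ∉ ({b, p, q, r, s} : Finset V) := by simp [hab, hap, haq, har, has]
  have h := H.clsum2 hv hd (S := {a, b, p, q, r, s}) (by
    intro u hu
    simp only [mem_insert, mem_singleton] at hu
    rcases hu with rfl | rfl | rfl | rfl | rfl | rfl <;> assumption)
  rw [Finset.sum_insert m5, Finset.sum_insert m4, Finset.sum_insert m3, Finset.sum_insert m2,
    Finset.sum_insert m1, Finset.sum_singleton] at h
  have hbud := H.clbud hv hd
  obtain ⟨h6, h6a, h6b⟩ := H.six hv hd (fun {_ _ _ _ _} => H.no32 hv hd h7) ha hb hp hq hr hs hab hap haq har has hbp hbq hbr hbs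
    hpq hpr hps hqr hqs hrs n1 n2 n3
  obtain ⟨z1, hz1⟩ := e2_even (G := Gᶜ) (cl G X v)
  obtain ⟨z2, hz2⟩ := e2_even (G := Gᶜ) ({a, b, p, q, r, s} : Finset V)
  have ht10 : 4 * k ≤ 2 * exs G k X (cl G X v) + e2 Gᶜ (cl G X v) + 10 := by omega
  have ht8 : 2 * exs G k X (cl G X v) + e2 Gᶜ (cl G X v) + 8 ≤ 4 * k := by omega
  refine ⟨?_, ht10, ht8⟩
  obtain ⟨hRH, hRc, hdis, hRq, hbd, hal, htau, htau'⟩ := H.tight hv hd (by omega) ha hb hab n1
    ht10 hc rfl
  obtain ⟨R, hR⟩ : ∃ R, R = (nb G X a \ cl G X v) ∪ (nb G X b \ cl G X v) := ⟨_, rfl⟩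
  rw [← hR] at hRH hRc hRq hbd hal htau htau' ⊢
  have haR : nb G X a \ cl G X v ⊆ R := by rw [hR]; exact Finset.subset_union_left
  have hbR : nb G X b \ cl G X v ⊆ R := by rw [hR]; exact Finset.subset_union_right
  -- the outer neighbours of every vertex in a missing pair
  have hout1 : ∀ {y z : V}, y ∈ cl G X v → z ∈ cl G X v → y ≠ z → ¬ G.Adj y z →
      1 ≤ (nb G X y \ cl G X v).card := by
    intro y z hy hz hyz hn
    have g1 := H.clout hv hd hy
    have g2 : 0 < (nb Gᶜ (cl G X v) y).card := Finset.card_pos.2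
      ⟨z, mem_nb.2 ⟨hz, (SimpleGraph.compl_adj _ _ _).2 ⟨hyz, hn⟩⟩⟩
    omega
  have oa := hout1 ha hb hab n1
  have ob := hout1 hb ha (Ne.symm hab) (fun e => n1 e.symm)
  have op := hout1 hp hq hpq n2
  have oq := hout1 hq hp (Ne.symm hpq) (fun e => n2 e.symm)
  -- a nonadjacent pair between the two pairs
  have hcross : (¬ G.Adj a p ∨ ¬ G.Adj a q) ∨ (¬ G.Adj b p ∨ ¬ G.Adj b q) := by
    by_contra hcon
    push Not at hcon
    have := h6b hcon.1.1 hcon.1.2 hcon.2.1 hcon.2.2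
    omega
  by_cases hA : 4 * k ≤ 2 * exs G k X (cl G X v) + e2 Gᶜ (cl G X v) + 8
  · have hb0 : bd G (X \ cl G X v) R = 0 := by omega
    have hT := htau' hA
    have hsum : (nb G X p \ cl G X v).card + (nb G X q \ cl G X v).card ≤ k := by omega
    rcases hcross with (hn | hn) | (hn | hn)
    · exact H.cont1 hv hd ha hp hq hap hn hpq n2 hRH hal hb0 hT haR hbR hdis ob oq hsum
    · rw [Finset.union_comm]
      exact H.cont1 hv hd ha hq hp haq hn (Ne.symm hpq) (fun e => n2 e.symm) hRH hal hb0 hT haR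
        hbR hdis ob op (by omega)
    · exact H.cont1 hv hd hb hp hq hbp hn hpq n2 hRH hal hb0 hT hbR haR hdis.symm oa oq hsum
    · rw [Finset.union_comm]
      exact H.cont1 hv hd hb hq hp hbq hn (Ne.symm hpq) (fun e => n2 e.symm) hRH hal hb0 hT hbR
        haR hdis.symm oa op (by omega)
  · have h18 : e2 Gᶜ ({a, b, p, q, r, s} : Finset V) = 18 := by omega
    obtain ⟨d1, d2⟩ := h6a h18
    have hpc : (nb G X p \ cl G X v).card + (nb G X q \ cl G X v).card + 1 ≤ k := by omega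
    have hbd1 : bd G (X \ cl G X v) R ≤ 1 := by omega
    have hmono : ∀ {S : Finset V} {y : V}, S ⊆ cl G X v → y ∈ cl G X v →
        (nb Gᶜ S y).card ≤ (nb G X y \ cl G X v).card := by
      intro S y hS hy
      have g1 := H.clout hv hd hy
      have g2 := Finset.card_le_card (nb_mono (G := Gᶜ) hS y)
      omega
    have oa2 := hmono (S := {b, p, q, r, s}) (by
      intro u hu
      simp only [mem_insert, mem_singleton] at hu
      rcases hu with rfl | rfl | rfl | rfl | rfl <;> assumption) ha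
    have ob2 := hmono (S := {p, q, r, s}) (by
      intro u hu
      simp only [mem_insert, mem_singleton] at hu
      rcases hu with rfl | rfl | rfl | rfl <;> assumption) hb
    obtain ⟨hTH, hTc, -, hTq, -, -, -, -⟩ := H.tight hv hd (by omega) hp hq hpq n2
      ht10 hpc rfl
    rcases hcross with (hn | hn) | (hn | hn)
    · exact H.cont2 hv hd (by omega) ha hp hq hap hn hpq n2 hRH hRc hal hbd1 htau haR hbR hdis
        (by omega) oq hpc rfl hTc hTq hTH
    · rw [Finset.union_comm] at hTH hTc hTq ⊢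
      exact H.cont2 hv hd (by omega) ha hq hp haq hn (Ne.symm hpq) (fun e => n2 e.symm) hRH hRc
        hal hbd1 htau haR hbR hdis (by omega) op (by omega) rfl hTc hTq hTH
    · exact H.cont2 hv hd (by omega) hb hp hq hbp hn hpq n2 hRH hRc hal hbd1 htau hbR haR
        hdis.symm (by omega) oq hpc rfl hTc hTq hTH
    · rw [Finset.union_comm] at hTH hTc hTq ⊢
      exact H.cont2 hv hd (by omega) hb hq hp hbq hn (Ne.symm hpq) (fun e => n2 e.symm) hRH hRc
        hal hbd1 htau hbR haR hdis.symm (by omega) op (by omega) rfl hTc hTq hTH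

omit H hv hd in
theorem inter_sum {A B R : Finset V} (h : R ⊆ A ∪ B) : R.card ≤ (A ∩ R).card + (B ∩ R).card := by
  have h1 : R ⊆ (A ∩ R) ∪ (B ∩ R) := by
    intro w hw
    rw [mem_union, mem_inter, mem_inter]
    rcases mem_union.1 (h hw) with h2 | h2
    · exact Or.inl ⟨h2, hw⟩
    · exact Or.inr ⟨h2, hw⟩
  exact (Finset.card_le_card h1).trans (Finset.card_union_le _ _)

/-- three disjoint missing pairs, the first one with `k - 1` outer neighbours -/
theorem MC.n3aux (h7 : 7 ≤ k) {a b p q r s : V} (ha : a ∈ cl G X v) (hb : b ∈ cl G X v)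
    (hp : p ∈ cl G X v)
    (hq : q ∈ cl G X v) (hr : r ∈ cl G X v) (hs : s ∈ cl G X v)
    (hab : a ≠ b) (hap : a ≠ p) (haq : a ≠ q) (har : a ≠ r) (has : a ≠ s) (hbp : b ≠ p)
    (hbq : b ≠ q) (hbr : b ≠ r) (hbs : b ≠ s) (hpq : p ≠ q) (hpr : p ≠ r) (hps : p ≠ s)
    (hqr : q ≠ r) (hqs : q ≠ s) (hrs : r ≠ s) (n1 : ¬ G.Adj a b) (n2 : ¬ G.Adj p q)
    (n3 : ¬ G.Adj r s)
    (hc : (nb G X a \ cl G X v).card + (nb G X b \ cl G X v).card + 1 ≤ k) : False := by
  obtain ⟨c1, ht10, ht8⟩ := H.n3pair hv hd h7 ha hb hp hq hr hs hab hap haq har has hbp hbq hbr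
    hbs hpq hpr hps hqr hqs hrs n1 n2 n3 hc
  obtain ⟨c2, -, -⟩ := H.n3pair hv hd h7 ha hb hr hs hp hq hab har has hap haq hbr hbs hbp
    hbq hrs (Ne.symm hpr) (Ne.symm hqr) (Ne.symm hps) (Ne.symm hqs) hpq n1 n3 n2 hc
  obtain ⟨hRH, hRc, hdis, hRq, hbd, hal, htau, -⟩ := H.tight hv hd (by omega) ha hb hab n1
    ht10 hc rfl
  have m1 : r ∉ ({s} : Finset V) := by simp [hrs]
  have m2 : q ∉ ({r, s} : Finset V) := by simp [hqr, hqs]
  have m3 : p ∉ ({q, r, s} : Finset V) := by simp [hpq, hpr, hps]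
  have m4 : b ∉ ({p, q, r, s} : Finset V) := by simp [hbp, hbq, hbr, hbs]
  have m5 : a ∉ ({b, p, q, r, s} : Finset V) := by simp [hab, hap, haq, har, has]
  obtain ⟨R, hR⟩ : ∃ R, R = (nb G X a \ cl G X v) ∪ (nb G X b \ cl G X v) := ⟨_, rfl⟩
  have c0 : R ⊆ (nb G X a \ cl G X v) ∪ (nb G X b \ cl G X v) := by rw [hR]
  rw [← hR] at c1 c2 hRH hRc hbd hal htau
  have h1 := H.clcount hv hd hRH hRc htau (S := {a, b, p, q, r, s}) (by
    intro u hu
    simp only [mem_insert, mem_singleton] at hu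
    rcases hu with rfl | rfl | rfl | rfl | rfl | rfl <;> assumption)
  rw [Finset.sum_insert m5, Finset.sum_insert m4, Finset.sum_insert m3, Finset.sum_insert m2,
    Finset.sum_insert m1, Finset.sum_singleton] at h1
  have g0 := inter_sum c0
  have g1 := inter_sum c1
  have g2 := inter_sum c2
  omega

/-- no three disjoint missing pairs -/
theorem MC.no3 (h7 : 7 ≤ k) {a b p q r s : V} (ha : a ∈ cl G X v) (hb : b ∈ cl G X v)
    (hp : p ∈ cl G X v)
    (hq : q ∈ cl G X v) (hr : r ∈ cl G X v) (hs : s ∈ cl G X v)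
    (hab : a ≠ b) (hap : a ≠ p) (haq : a ≠ q) (har : a ≠ r) (has : a ≠ s) (hbp : b ≠ p)
    (hbq : b ≠ q) (hbr : b ≠ r) (hbs : b ≠ s) (hpq : p ≠ q) (hpr : p ≠ r) (hps : p ≠ s)
    (hqr : q ≠ r) (hqs : q ≠ s) (hrs : r ≠ s) (n1 : ¬ G.Adj a b) (n2 : ¬ G.Adj p q)
    (n3 : ¬ G.Adj r s) : False := by
  by_cases t1 : (nb G X a \ cl G X v).card + (nb G X b \ cl G X v).card + 1 ≤ k
  · exact H.n3aux hv hd h7 ha hb hp hq hr hs hab hap haq har has hbp hbq hbr hbs
      hpq hpr hps hqr hqs hrs n1 n2 n3 t1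
  by_cases t2 : (nb G X p \ cl G X v).card + (nb G X q \ cl G X v).card + 1 ≤ k
  · exact H.n3aux hv hd h7 hp hq ha hb hr hs hpq (Ne.symm hap) (Ne.symm hbp) hpr hps
      (Ne.symm haq) (Ne.symm hbq) hqr hqs hab har has hbr hbs hrs n2 n1 n3 t2
  by_cases t3 : (nb G X r \ cl G X v).card + (nb G X s \ cl G X v).card + 1 ≤ k
  · exact H.n3aux hv hd h7 hr hs ha hb hp hq hrs (Ne.symm har) (Ne.symm hbr) (Ne.symm hpr)
      (Ne.symm hqr) (Ne.symm has) (Ne.symm hbs) (Ne.symm hps) (Ne.symm hqs) hab hap haq hbp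
      hbq hpq n3 n1 n2 t3
  have f1 := H.clpair2 hv hd ha hb hab n1
  have m1 : r ∉ ({s} : Finset V) := by simp [hrs]
  have m2 : q ∉ ({r, s} : Finset V) := by simp [hqr, hqs]
  have m3 : p ∉ ({q, r, s} : Finset V) := by simp [hpq, hpr, hps]
  have m4 : b ∉ ({p, q, r, s} : Finset V) := by simp [hbp, hbq, hbr, hbs]
  have m5 : a ∉ ({b, p, q, r, s} : Finset V) := by simp [hab, hap, haq, har, has]
  have h := H.clsum2 hv hd (S := {a, b, p, q, r, s}) (by
    intro u hu
    simp only [mem_insert, mem_singleton] at hu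
    rcases hu with rfl | rfl | rfl | rfl | rfl | rfl <;> assumption)
  rw [Finset.sum_insert m5, Finset.sum_insert m4, Finset.sum_insert m3, Finset.sum_insert m2,
    Finset.sum_insert m1, Finset.sum_singleton] at h
  have hbud := H.clbud hv hd
  obtain ⟨h6, -, -⟩ := H.six hv hd (fun {_ _ _ _ _} => H.no32 hv hd h7) ha hb hp hq hr hs hab hap haq har has hbp hbq hbr hbs hpq
    hpr hps hqr hqs hrs n1 n2 n3
  omega

omit H hv hd in
/-- a missing cycle of length five has no missing chord -/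
theorem five (h32 : No32 G (cl G X v)) {a b p q r : V} (ha : a ∈ cl G X v) (hb : b ∈ cl G X v)
    (hp : p ∈ cl G X v)
    (hq : q ∈ cl G X v) (hr : r ∈ cl G X v)
    (hab : a ≠ b) (hap : a ≠ p) (haq : a ≠ q) (har : a ≠ r) (hbp : b ≠ p)
    (hbq : b ≠ q) (hbr : b ≠ r) (hpq : p ≠ q) (hpr : p ≠ r)
    (hqr : q ≠ r) (n1 : ¬ G.Adj a b) (n2 : ¬ G.Adj b p)
    (n3 : ¬ G.Adj p q) (n4 : ¬ G.Adj q r) (n5 : ¬ G.Adj r a) : e2 Gᶜ ({a, b, p, q, r} : Finset V) ≤ 10 := by
  have m2 : q ∉ ({r} : Finset V) := by simp [hqr]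
  have m3 : p ∉ ({q, r} : Finset V) := by simp [hpq, hpr]
  have m4 : b ∉ ({p, q, r} : Finset V) := by simp [hbp, hbq, hbr]
  have m5 : a ∉ ({b, p, q, r} : Finset V) := by simp [hab, hap, haq, har]
  have q5 := e2_ins (G := Gᶜ) m5
  have q4 := e2_ins (G := Gᶜ) m4
  have q3 := e2_ins (G := Gᶜ) m3
  have q1 := e2_le (G := Gᶜ) ({q, r} : Finset V)
  rw [Finset.card_pair hqr] at q1
  -- the chords
  have c1 : G.Adj a p := by
    by_contra hn
    exact h32 hq hr ha hb hp hqr (Ne.symm haq) (Ne.symm hbq) (Ne.symm hpq)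
      (Ne.symm har) (Ne.symm hbr) (Ne.symm hpr) hab hap hbp n4 n1 hn n2
  have c2 : G.Adj a q := by
    by_contra hn
    exact h32 hb hp ha hq hr hbp (Ne.symm hab) hbq hbr (Ne.symm hap) hpq hpr haq har
      hqr n2 hn (fun h => n5 h.symm) n4
  have c3 : G.Adj b q := by
    by_contra hn
    exact h32 hr ha hb hp hq (Ne.symm har) (Ne.symm hbr) (Ne.symm hpr)
      (Ne.symm hqr) hab hap haq hbp hbq hpq n5 n2 hn n3
  have c4 : G.Adj b r := by
    by_contra hn
    exact h32 hp hq ha hb hr hpq (Ne.symm hap) (Ne.symm hbp) hpr (Ne.symm haq)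
      (Ne.symm hbq) hqr hab har hbr n3 n1 (fun h => n5 h.symm) hn
  have c5 : G.Adj p r := by
    by_contra hn
    exact h32 ha hb hp hq hr hab hap haq har hbp hbq hbr hpq hpr hqr n1 n3 hn n4
  have t1 := nbc_pair (G := G) (y := q) (z := r) (w := p) (Or.inr c5)
  have t2 : (nb Gᶜ {p, q, r} b).card ≤ 1 := by
    have a1 := nbc_ins_le (G := G) {q, r} p b
    have a2 := nbc_insert_adj (G := G) (F := {r}) c3
    have a3 := nbc_singleton_adj (G := G) c4
    omega
  have t3 : (nb Gᶜ {b, p, q, r} a).card ≤ 2 := by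
    have a0 := nbc_ins_le (G := G) {p, q, r} b a
    have a1 := nbc_insert_adj (G := G) (F := {q, r}) c1
    have a2 := nbc_insert_adj (G := G) (F := {r}) c2
    have a3 := nbc_singleton_le (G := G) r a
    omega
  omega

/-- no missing cycle of length five -/
theorem MC.no5 (h7 : 7 ≤ k) {a b p q r : V} (ha : a ∈ cl G X v) (hb : b ∈ cl G X v)
    (hp : p ∈ cl G X v)
    (hq : q ∈ cl G X v) (hr : r ∈ cl G X v)
    (hab : a ≠ b) (hap : a ≠ p) (haq : a ≠ q) (har : a ≠ r) (hbp : b ≠ p)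
    (hbq : b ≠ q) (hbr : b ≠ r) (hpq : p ≠ q) (hpr : p ≠ r)
    (hqr : q ≠ r) (n1 : ¬ G.Adj a b) (n2 : ¬ G.Adj b p)
    (n3 : ¬ G.Adj p q) (n4 : ¬ G.Adj q r) (n5 : ¬ G.Adj r a) : False := by
  have e1 := H.clpair hv hd ha hb hab n1
  have e2' := H.clpair hv hd hb hp hbp n2
  have e3 := H.clpair hv hd hp hq hpq n3
  have e4 := H.clpair hv hd hq hr hqr n4
  have e5 := H.clpair hv hd hr ha (Ne.symm har) n5
  have f1 := H.clpair2 hv hd ha hb hab n1
  have f2 := H.clpair2 hv hd hb hp hbp n2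
  have f3 := H.clpair2 hv hd hp hq hpq n3
  have f4 := H.clpair2 hv hd hq hr hqr n4
  have f5 := H.clpair2 hv hd hr ha (Ne.symm har) n5
  have m2 : q ∉ ({r} : Finset V) := by simp [hqr]
  have m3 : p ∉ ({q, r} : Finset V) := by simp [hpq, hpr]
  have m4 : b ∉ ({p, q, r} : Finset V) := by simp [hbp, hbq, hbr]
  have m5 : a ∉ ({b, p, q, r} : Finset V) := by simp [hab, hap, haq, har]
  have h := H.clsum2 hv hd (S := {a, b, p, q, r}) (by
    intro u hu
    simp only [mem_insert, mem_singleton] at hu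
    rcases hu with rfl | rfl | rfl | rfl | rfl <;> assumption)
  rw [Finset.sum_insert m5, Finset.sum_insert m4, Finset.sum_insert m3, Finset.sum_insert m2,
    Finset.sum_singleton] at h
  have hbud := H.clbud hv hd
  have hE := five (G := G) (X := X) (v := v) (fun {_ _ _ _ _} => H.no32 hv hd h7) ha hb hp hq hr
    hab hap haq har hbp hbq hbr hpq hpr hqr n1 n2 n3 n4 n5
  obtain ⟨z1, hz1⟩ := e2_even (G := Gᶜ) (cl G X v)
  have hall : 4 * k = 2 * exs G k X (cl G X v) + e2 Gᶜ (cl G X v) + 8 ∧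
      (nb G X a \ cl G X v).card + (nb G X b \ cl G X v).card + 1 = k ∧
      (nb G X b \ cl G X v).card + (nb G X p \ cl G X v).card + 1 = k ∧
      (nb G X p \ cl G X v).card + (nb G X q \ cl G X v).card + 1 = k ∧
      (nb G X q \ cl G X v).card + (nb G X r \ cl G X v).card + 1 = k ∧
      (nb G X r \ cl G X v).card + (nb G X a \ cl G X v).card + 1 = k := by omega
  obtain ⟨ht8, s1, s2, s3, s4, s5⟩ := hall
  obtain ⟨hRH, hRc, hdis, hRq, hbd, hal, -, htau⟩ := H.tight hv hd (by omega) ha hb hab n1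
    (by omega) (le_of_eq s1) rfl
  have ht := htau (by omega)
  obtain ⟨R, hR⟩ : ∃ R, R = (nb G X a \ cl G X v) ∪ (nb G X b \ cl G X v) := ⟨_, rfl⟩
  have c0 : R ⊆ (nb G X a \ cl G X v) ∪ (nb G X b \ cl G X v) := by rw [hR]
  rw [← hR] at hRH hRc hbd hal ht
  have hb0 : bd G (X \ cl G X v) R = 0 := by omega
  have cc : ∀ {y z : V}, y ∈ cl G X v → z ∈ cl G X v → y ≠ z → ¬ G.Adj y z →
      (nb G X y \ cl G X v).card + (nb G X z \ cl G X v).card + 1 = k →
      R.card ≤ ((nb G X y \ cl G X v) ∩ R).card + ((nb G X z \ cl G X v) ∩ R).card := by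
    intro y z hy hz hyz hn hs
    rcases H.cont0 hv hd hy hz hyz hn hRH hal hb0 ht with g1 | g1
    · exact inter_sum g1
    · exfalso
      have g2 := Finset.card_le_card (Finset.inter_subset_left (s₁ := (nb G X y \ cl G X v) ∪
        (nb G X z \ cl G X v)) (s₂ := (X \ cl G X v) \ R))
      have g3 := Finset.card_union_le (nb G X y \ cl G X v) (nb G X z \ cl G X v)
      omega
  have w1 := cc ha hb hab n1 s1
  have w2 := cc hb hp hbp n2 s2
  have w3 := cc hp hq hpq n3 s3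
  have w4 := cc hq hr hqr n4 s4
  have w5 := cc hr ha (Ne.symm har) n5 s5
  have h1 := H.clcount hv hd hRH hRc ht (S := {a, b, p, q, r}) (by
    intro u hu
    simp only [mem_insert, mem_singleton] at hu
    rcases hu with rfl | rfl | rfl | rfl | rfl <;> assumption)
  rw [Finset.sum_insert m5, Finset.sum_insert m4, Finset.sum_insert m3, Finset.sum_insert m2,
    Finset.sum_singleton] at h1
  omega

end nbh

end Pool.Agent.TwoDens.TS
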