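import Pool.Agent.TKS.BEc
import Pool.Agent.TKS.CV

/-!
Every minimal counterexample has a base (`k ≥ 7`).
-/

open Finset

namespace Pool.Agent.TwoDens.TS

open Pool.Agent.TwoDens Pool.Agent.TwoDens.RK Pool.Agent.TwoDens.DD

variable {V : Type*} [DecidableEq V] {G : SimpleGraph V} [DecidableRel G.Adj]

section nbh
variable {k : ℕ} {X : Finset V} (H : MC G k X) {v : V} (hv : v ∈ X)
  (hd : (nb G X v).card = k)
include H hv hd

theorem MC.clncl : ∀ p ∈ cl G X v, ¬ Clq G ((cl G X v).erase p) := by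
  intro p hp h
  have hFX : cl G X v ⊆ X := cl_sub hv
  have hFc : (cl G X v).card = k + 1 := by rw [card_cl, hd]
  have h1 := H.clq_lt ((Finset.erase_subset p _).trans hFX) h
  have h2 := Finset.card_erase_add_one hp
  omega

/-- a base from a cover of the missing pairs by two vertices -/
theorem MC.base_of {a r : V} (ha : a ∈ cl G X v) (hr : r ∈ (cl G X v).erase a)
    (hcl : Clq G (((cl G X v).erase a).erase r)) : ∃ P x x', Base G k X P v x x' := by
  have hk := H.hk
  obtain ⟨F, hF⟩ : ∃ F, F = cl G X v := ⟨_, rfl⟩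
  have hFX : F ⊆ X := by rw [hF]; exact cl_sub hv
  have hFc : F.card = k + 1 := by rw [hF, card_cl, hd]
  have hmF : ∀ {w : V}, w ∈ F ↔ w = v ∨ (w ∈ X ∧ G.Adj v w) := by
    intro w
    rw [hF]
    unfold cl
    rw [mem_insert, mem_nb]
  rw [← hF] at ha hr hcl
  have hvF : v ∈ F := hmF.2 (Or.inl rfl)
  obtain ⟨hra, hrF⟩ := mem_erase.1 hr
  -- no vertex of the cover is `v`
  have key : ∀ {a r : V}, a ∈ F → r ∈ F → r ≠ a → Clq G ((F.erase a).erase r) → v ≠ a := by
    intro a r ha hrF hra hcl e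
    have hq : Clq G (F.erase r) := by
      intro p hp q hq hpq
      have hp' := mem_erase.1 hp
      have hq' := mem_erase.1 hq
      by_cases h1 : p = v
      · rcases hmF.1 hq'.2 with h | h
        · exact absurd (h1.trans h.symm) hpq
        · exact h1 ▸ h.2
      by_cases h2 : q = v
      · rcases hmF.1 hp'.2 with h | h
        · exact absurd h h1
        · exact (h2 ▸ h.2).symm
      exact hcl p (mem_erase.2 ⟨hp'.1, mem_erase.2 ⟨fun e' => h1 (e'.trans e.symm), hp'.2⟩⟩) q
        (mem_erase.2 ⟨hq'.1, mem_erase.2 ⟨fun e' => h2 (e'.trans e.symm), hq'.2⟩⟩) hpq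
    have h3 := H.clq_lt ((Finset.erase_subset r F).trans hFX) hq
    have h4 := Finset.card_erase_add_one hrF
    omega
  have hva : v ≠ a := key ha hrF hra hcl
  have hvr : v ≠ r := key hrF ha (Ne.symm hra) (by
    rw [Finset.erase_right_comm]
    exact hcl)
  have h5 := Finset.card_erase_add_one hr
  have h6 := Finset.card_erase_add_one ha
  refine ⟨(F.erase a).erase r, a, r, ?_⟩
  refine ⟨(Finset.erase_subset _ _).trans ((Finset.erase_subset _ _).trans hFX), by omega,
    hcl, ?_, Ne.symm hra, ?_⟩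
  · exact mem_erase.2 ⟨hvr, mem_erase.2 ⟨hva, hvF⟩⟩
  · ext w
    rw [mem_nb, mem_sdiff, mem_erase, mem_erase, mem_insert, mem_singleton]
    constructor
    · rintro ⟨⟨h1, h2⟩, h3⟩
      have h4 : w ∈ F := hmF.2 (Or.inr ⟨h1, h3⟩)
      by_cases e1 : w = a
      · exact Or.inl e1
      · by_cases e2' : w = r
        · exact Or.inr e2'
        · exact absurd ⟨e2', e1, h4⟩ h2
    · rintro (h | h)
      · rw [h]
        refine ⟨⟨hFX ha, fun h => h.2.1 rfl⟩, ?_⟩
        rcases hmF.1 ha with h' | h'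
        · exact absurd h'.symm hva
        · exact h'.2
      · rw [h]
        refine ⟨⟨hFX hrF, fun h => h.1 rfl⟩, ?_⟩
        rcases hmF.1 hrF with h' | h'
        · exact absurd h'.symm hvr
        · exact h'.2

theorem MC.base_at' (h4 : No4 G (cl G X v)) (h3 : No3 G (cl G X v)) (h32 : No32 G (cl G X v))
    (h5 : No5 G (cl G X v)) : ∃ P x x', Base G k X P v x x' := by
  have hk := H.hk
  have hFX : cl G X v ⊆ X := cl_sub hv
  have hFc : (cl G X v).card = k + 1 := by rw [card_cl, hd]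
  have hsl := H.sl1 hFX hFc
  obtain ⟨p, hp, q, hq, hpq, n1⟩ := exists_miss (G := G) (S := cl G X v) (by omega)
  obtain ⟨a, ha, r, hr, hcl⟩ := cover2 h4 h3 h32 h5 (H.clncl hv hd) hp hq hpq n1
  exact H.base_of hv hd ha hr hcl

theorem MC.base_at (h7 : 7 ≤ k) : ∃ P x x', Base G k X P v x x' :=
  H.base_at' hv hd (fun {_ _ _ _} => H.no4 hv hd h7) (fun {_ _ _ _ _ _} => H.no3 hv hd h7)
    (fun {_ _ _ _ _} => H.no32 hv hd h7) (fun {_ _ _ _ _} => H.no5 hv hd h7)

end nbh

end Pool.Agent.TwoDens.TS
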