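import Pool.Agent.TKS.BEd

/-!
Every minimal counterexample has a base: small `k`.
-/

open Finset

namespace Pool.Agent.TwoDens.TS

open Pool.Agent.TwoDens Pool.Agent.TwoDens.RK Pool.Agent.TwoDens.DD

variable {V : Type*} [DecidableEq V] {G : SimpleGraph V} [DecidableRel G.Adj]

/-- no clique with `k - 1` vertices contains a vertex of degree `k` -/
def NB (G : SimpleGraph V) [DecidableRel G.Adj] (k : ℕ) (X : Finset V) : Prop :=
  ∀ P ⊆ X, P.card + 1 = k → Clq G P → ∀ z ∈ P, (nb G X z).card ≠ k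

/-- double counting of the edges between two sets -/
theorem sum_nb_comm (A B : Finset V) :
    ∑ v ∈ A, (nb G B v).card = ∑ w ∈ B, (nb G A w).card := by
  unfold nb
  simp only [Finset.card_filter]
  rw [Finset.sum_comm]
  refine Finset.sum_congr rfl fun w _ => Finset.sum_congr rfl fun v _ => ?_
  by_cases h : G.Adj v w
  · rw [if_pos h, if_pos h.symm]
  · rw [if_neg h, if_neg (fun e => h e.symm)]

section nbh
variable {k : ℕ} {X : Finset V} (H : MC G k X) (hnb : NB G k X) {v : V} (hv : v ∈ X)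
  (hd : (nb G X v).card = k)

include H hnb hv hd

/-- no nonadjacent pair with only `k - 1` outer neighbours -/
theorem MC.ntight {a b : V} (ha : a ∈ cl G X v) (hb : b ∈ cl G X v) (hab : a ≠ b)
    (hn : ¬ G.Adj a b)
    (ht : 3 * k ≤ 2 * exs G k X (cl G X v) + e2 Gᶜ (cl G X v) + 6) :
    k ≤ (nb G X a \ cl G X v).card + (nb G X b \ cl G X v).card := by
  by_contra hc
  push Not at hc
  have hk := H.hk
  have hk4 : (4 : ℤ) ≤ k := by exact_mod_cast hk
  have hps := H.clps' hv hd
  have hne := H.clne hv hd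
  have htr := H.cltr hv hd ha hb hab hn
  have hpr := H.clpair hv hd ha hb hab hn
  have ht' : (3 * k : ℤ) ≤ (2 * exs G k X (cl G X v) + e2 Gᶜ (cl G X v) : ℕ) + 6 := by
    exact_mod_cast ht
  obtain ⟨R, hR⟩ : ∃ R, R = (nb G X a \ cl G X v) ∪ (nb G X b \ cl G X v) := ⟨_, rfl⟩
  rw [← hR] at htr
  have hRH : R ⊆ X \ cl G X v := by
    intro w hw
    rw [hR, mem_union, mem_sdiff, mem_sdiff, mem_nb, mem_nb] at hw
    rw [mem_sdiff]
    tauto
  have hcnt := fun {t : ℕ} (hRc : R.card + 1 = k)
    (ht : TauGe G ((X \ cl G X v) \ R) t) => H.clcount hv hd hRH hRc ht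
      (Finset.Subset.refl (cl G X v))
  have hFX : cl G X v ⊆ X := cl_sub hv
  obtain ⟨Y, hY⟩ : ∃ Y, Y = X \ cl G X v := ⟨_, rfl⟩
  have hYX : Y ⊆ X := by rw [hY]; exact Finset.sdiff_subset
  obtain ⟨t, htt⟩ : ∃ t, 2 * exs G k X (cl G X v) + e2 Gᶜ (cl G X v) = t := ⟨_, rfl⟩
  rw [← hY] at hps htr hRH hne hcnt
  rw [htt] at hps ht' ht
  have hu := Finset.card_union_le (nb G X a \ cl G X v) (nb G X b \ cl G X v)
  rw [← hR] at hu
  have h1 := H.tau1 hYX hne (by linarith) R hRH htr
  have hRc : R.card + 1 = k := by omega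
  obtain ⟨hq, hbd⟩ := H.tr34 hYX hne (by linarith) hRH hRc htr
  have hal1 : al G (Y \ R) + 1 = al G Y := by
    have h5 := al_le_sdiff (G := G) Y R
    rw [Finset.inter_eq_right.2 hRH] at h5
    have h6 : al G (Y \ R) < al G Y := htr
    have h7 := al_clq hq
    omega
  have hsub : Y \ R ⊆ X := Finset.sdiff_subset.trans hYX
  have hne2 : Y \ R ≠ X := by
    intro e
    exact hne (Finset.Subset.antisymm hYX (e ▸ Finset.sdiff_subset))
  have hp2 : ps G k (Y \ R) + 2 * bd G Y R + 2 = ps G k Y := by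
    have e1 := ps_sdiff (G := G) k hRH
    have e2' := sum_deg' (G := G) hRH
    have e3 := clq_e2 (G := G) hq
    have e4 : (al G (Y \ R) : ℤ) + 1 = al G Y := by exact_mod_cast hal1
    obtain ⟨m, hm⟩ : ∃ m, R.card = m := ⟨_, rfl⟩
    have hkm : k = m + 1 := by omega
    rw [hm] at e1 e3
    have e3' : (e2 G R : ℤ) + m = m * m := by exact_mod_cast e3
    have e2'' : ((∑ v ∈ R, (nb G Y v).card : ℕ) : ℤ) = e2 G R + bd G Y R := by
      exact_mod_cast e2'
    have e5 : (al G Y : ℤ) - al G (Y \ R) = 1 := by linarith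
    rw [e5, e2''] at e1
    have hkm' : (k : ℤ) = m + 1 := by exact_mod_cast hkm
    rw [hkm'] at e1
    nlinarith
  have hb0 := Int.natCast_nonneg (bd G Y R)
  have htau := H.tau1 hsub hne2 (by linarith)
  have h2 := hcnt hRc htau
  -- the vertices of `R` have degree at least `k + 1`
  have h3 : ∀ z ∈ R, k + 1 ≤ (nb G X z).card := by
    intro z hz
    have h4 := hnb R (hRH.trans hYX) hRc hq z hz
    have h5 := H.deg_ge z (hYX (hRH hz))
    omega
  have h4 : ∑ z ∈ cl G X v, ((nb G X z \ cl G X v) ∩ R).card = ∑ w ∈ R, (nb G (cl G X v) w).card := by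
    rw [← sum_nb_comm]
    refine Finset.sum_congr rfl fun z _ => ?_
    congr 1
    ext w
    rw [mem_inter, mem_sdiff, mem_nb, mem_nb]
    constructor
    · rintro ⟨⟨⟨_, h5⟩, _⟩, h6⟩
      exact ⟨h6, h5⟩
    · rintro ⟨h5, h6⟩
      have h7 := hRH h5
      rw [hY, mem_sdiff] at h7
      exact ⟨⟨⟨h7.1, h6⟩, h7.2⟩, h5⟩
  have h5 : ∑ w ∈ R, (nb G X w).card = ∑ w ∈ R, (nb G (cl G X v) w).card +
      ∑ w ∈ R, (nb G Y w).card := by
    rw [← Finset.sum_add_distrib]
    refine Finset.sum_congr rfl fun w _ => ?_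
    rw [← Finset.card_union_of_disjoint]
    · congr 1
      ext u
      rw [mem_union, mem_nb, mem_nb, mem_nb, hY, mem_sdiff]
      constructor
      · rintro ⟨h6, h7⟩
        by_cases h8 : u ∈ cl G X v
        · exact Or.inl ⟨h8, h7⟩
        · exact Or.inr ⟨⟨h6, h8⟩, h7⟩
      · rintro (⟨h6, h7⟩ | ⟨⟨h6, _⟩, h7⟩)
        · exact ⟨hFX h6, h7⟩
        · exact ⟨h6, h7⟩
    · rw [Finset.disjoint_left]
      intro u hu hu'
      rw [mem_nb] at hu hu'
      rw [hY] at hu'
      exact (mem_sdiff.1 hu'.1).2 hu.1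
  have h6 : (k + 1) * R.card ≤ ∑ w ∈ R, (nb G X w).card := by
    rw [mul_comm, ← smul_eq_mul, ← Finset.sum_const]
    exact Finset.sum_le_sum h3
  have h7 := sum_deg' (G := G) hRH
  have h8 := clq_e2 (G := G) hq
  obtain ⟨m, hm⟩ : ∃ m, R.card = m := ⟨_, rfl⟩
  have hkm : k = m + 1 := by omega
  rw [hm] at h6 h8
  have h9 : (m + 1 + 1) * m = m * m + 2 * m := by ring
  rw [hkm, h9] at h6
  have h10 : 2 * (bd G Y R : ℤ) + 8 + t ≤ 4 * k := by linarith
  have h11 : 2 * bd G Y R + 8 + t ≤ 4 * k := by exact_mod_cast h10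
  omega

omit hnb in
/-- no four pairwise nonadjacent vertices -/
theorem MC.no4s (h5 : 5 ≤ k) : No4 G (cl G X v) := by
  intro p q r s hp hq hr hs hpq hpr hps hqr hqs hrs n1 n2 n3 n4 n5 n6
  have m1 : r ∉ ({s} : Finset V) := by simp [hrs]
  have m2 : q ∉ ({r, s} : Finset V) := by simp [hqr, hqs]
  have m3 : p ∉ ({q, r, s} : Finset V) := by simp [hpq, hpr, hps]
  have hsub : ({p, q, r, s} : Finset V) ⊆ cl G X v := by
    intro u hu
    simp only [mem_insert, mem_singleton] at hu
    rcases hu with rfl | rfl | rfl | rfl <;> assumption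
  have h := H.clsum hv hd (S := {p, q, r, s}) hsub
  obtain ⟨S, hS, hc, hal⟩ := H.clJ hv hd (J := {p, q, r, s}) hsub
    (indep_insert (indep_insert (indep_pair n6) (by
      intro u hu
      rw [mem_insert, mem_singleton] at hu
      rcases hu with rfl | rfl
      · exact n4
      · exact n5)) (by
      intro u hu
      rw [mem_insert, mem_insert, mem_singleton] at hu
      rcases hu with rfl | rfl | rfl
      · exact n1
      · exact n2
      · exact n3))
  rw [Finset.sum_insert m3, Finset.sum_insert m2,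
    Finset.sum_insert m1, Finset.sum_singleton, Finset.card_insert_of_notMem m3,
    Finset.card_insert_of_notMem m2, Finset.card_insert_of_notMem m1,
    Finset.card_singleton] at h
  rw [Finset.sum_insert m3, Finset.sum_insert m2,
    Finset.sum_insert m1, Finset.sum_singleton] at hc
  rw [Finset.card_insert_of_notMem m3,
    Finset.card_insert_of_notMem m2, Finset.card_insert_of_notMem m1,
    Finset.card_singleton] at hal
  have hn : S.Nonempty := by
    rw [Finset.nonempty_iff_ne_empty]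
    rintro rfl
    rw [Finset.sdiff_empty] at hal
    omega
  have h1 := H.exbd hS hn (j := 4) hal
  have i1 := Int.natCast_nonneg (exs G k X S)
  have i2 := Int.natCast_nonneg (bd G X S)
  rcases Nat.lt_or_ge k 6 with h6 | h6
  · have hk5 : k = 5 := by omega
    subst hk5
    push_cast at h1
    have h2 : (250 : ℤ) ≤ 13 * S.card := by linarith
    have h3 : 250 ≤ 13 * S.card := by exact_mod_cast h2
    omega
  · have h2 : 4 * k ≤ S.card + 1 := by
      by_contra hcon
      have h3 : S.card + 2 ≤ 4 * k := by omega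
      have h4 : (S.card : ℤ) + 2 ≤ 4 * k := by exact_mod_cast h3
      have h5' : (6 : ℤ) ≤ k := by exact_mod_cast h6
      push_cast at h1
      nlinarith
    omega

/-- the configurations that are left for small `k` -/
def D0 (G : SimpleGraph V) [DecidableRel G.Adj] (k : ℕ) (X : Finset V) (v : V) : Prop :=
  exs G k X (cl G X v) + 5 ≤ k ∧ 2 * exs G k X (cl G X v) + e2 Gᶜ (cl G X v) + 6 = 4 * k ∧
  ∃ a ∈ cl G X v, ∃ b ∈ cl G X v, a ≠ b ∧ ¬ G.Adj a b ∧ (nb G X a).card = k ∧
    (nb G X b).card = k ∧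
    (nb G X a \ cl G X v).card + (nb G X b \ cl G X v).card ≤ k

omit hnb in
theorem MC.exsum {S : Finset V} (hS : S ⊆ cl G X v) :
    ∑ u ∈ S, (nb G X u \ cl G X v).card =
      exs G k X S + ∑ u ∈ S, (nb Gᶜ (cl G X v) u).card ∧
    e2 Gᶜ (cl G X v) + e2 Gᶜ S = e2 Gᶜ (cl G X v \ S) + 2 * ∑ u ∈ S, (nb Gᶜ (cl G X v) u).card ∧
    e2 Gᶜ S ≤ ∑ u ∈ S, (nb Gᶜ (cl G X v) u).card ∧ exs G k X S ≤ exs G k X (cl G X v) ∧
    e2 Gᶜ S ≤ e2 Gᶜ (cl G X v) := by
  have h1 : e2 Gᶜ S ≤ ∑ u ∈ S, (nb Gᶜ (cl G X v) u).card := by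
    rw [e2_eq]
    exact Finset.sum_le_sum fun u _ => Finset.card_le_card (nb_mono hS u)
  refine ⟨?_, e2_sdiff hS, h1, exs_mono hS, ?_⟩
  · unfold exs
    rw [← Finset.sum_add_distrib]
    exact Finset.sum_congr rfl fun u hu => H.clout hv hd (hS hu)
  · refine h1.trans ?_
    rw [e2_eq]
    exact Finset.sum_le_sum_of_subset hS

/-- a missing triangle and a disjoint missing pair -/
theorem MC.l32 (h5 : 5 ≤ k) (h6 : k ≤ 6) (hD : ¬ D0 G k X v) : No32 G (cl G X v) := by
  intro a b p q r ha hb hp hq hr hab hap haq har hbp hbq hbr hpq hpr hqr n1 n2 n3 n4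
  have e1 := H.clpair hv hd ha hb hab n1
  have e2' := H.cltri hv hd hp hq hr hpq hpr hqr n2 n3 n4
  have m2 : q ∉ ({r} : Finset V) := by simp [hqr]
  have m3 : p ∉ ({q, r} : Finset V) := by simp [hpq, hpr]
  have m4 : b ∉ ({p, q, r} : Finset V) := by simp [hbp, hbq, hbr]
  have m5 : a ∉ ({b, p, q, r} : Finset V) := by simp [hab, hap, haq, har]
  have hsub : ({a, b, p, q, r} : Finset V) ⊆ cl G X v := by
    intro u hu
    simp only [mem_insert, mem_singleton] at hu
    rcases hu with rfl | rfl | rfl | rfl | rfl <;> assumption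
  obtain ⟨s1, s2, s3, s4, s5⟩ := H.exsum hv hd hsub
  rw [Finset.sum_insert m5, Finset.sum_insert m4, Finset.sum_insert m3, Finset.sum_insert m2,
    Finset.sum_singleton] at s1
  have hbud := H.clbud hv hd
  have q5 := e2_ins (G := Gᶜ) m5
  have q4 := e2_ins (G := Gᶜ) m4
  have q3 := e2_le (G := Gᶜ) ({p, q, r} : Finset V)
  rw [Finset.card_insert_of_notMem m3, Finset.card_insert_of_notMem m2,
    Finset.card_singleton] at q3
  have key : ∀ {w : V}, w ∈ cl G X v → w ≠ p → w ≠ q → w ≠ r →
      (nb Gᶜ {p, q, r} w).card ≤ 2 := by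
    intro w hw w1 w2 w3
    by_cases c1 : G.Adj w p
    · have := nbc_insert_adj (G := G) (F := {q, r}) c1
      have := nbc_ins_le (G := G) {r} q w
      have := nbc_singleton_le (G := G) r w
      omega
    by_cases c2 : G.Adj w q
    · have := nbc_ins_le (G := G) {q, r} p w
      have := nbc_pair (G := G) (y := q) (z := r) (w := w) (Or.inl c2)
      omega
    by_cases c3 : G.Adj w r
    · have := nbc_ins_le (G := G) {q, r} p w
      have := nbc_pair (G := G) (y := q) (z := r) (w := w) (Or.inr c3)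
      omega
    · exact (H.no4s hv hd h5 hw hp hq hr w1 w2 w3 hpq hpr hqr c1 c2 c3 n2 n3 n4).elim
  have k1 := key hb hbp hbq hbr
  have k2 := key ha hap haq har
  have k3 := nbc_ins_le (G := G) {p, q, r} b a
  have f1 := H.ntight hnb hv hd ha hb hab n1 (by omega)
  have oa := H.clout hv hd ha
  have ob := H.clout hv hd hb
  have xa : (nb G X a).card - k ≤ exs G k X (cl G X v) := by
    unfold exs
    exact Finset.single_le_sum (f := fun v => (nb G X v).card - k) (fun v _ => Nat.zero_le _) ha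
  have xb : (nb G X b).card - k ≤ exs G k X (cl G X v) := by
    unfold exs
    exact Finset.single_le_sum (f := fun v => (nb G X v).card - k) (fun v _ => Nat.zero_le _) hb
  have ga := H.deg_ge a (cl_sub (G := G) hv ha)
  have gb := H.deg_ge b (cl_sub (G := G) hv hb)
  have ma : (nb Gᶜ {b, p, q, r} a).card ≤ (nb Gᶜ (cl G X v) a).card :=
    Finset.card_le_card (nb_mono ((Finset.subset_insert _ _).trans hsub) a)
  have mb : (nb Gᶜ {p, q, r} b).card + 1 ≤ (nb Gᶜ (cl G X v) b).card := by
    have h1 : insert a (nb Gᶜ {p, q, r} b) ⊆ nb Gᶜ (cl G X v) b := by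
      intro w hw
      rcases mem_insert.1 hw with rfl | hw
      · exact mem_nb.2 ⟨ha, (SimpleGraph.compl_adj _ _ _).2 ⟨Ne.symm hab, fun e => n1 e.symm⟩⟩
      · have hw' := mem_nb.1 hw
        exact mem_nb.2 ⟨hsub (mem_insert_of_mem (mem_insert_of_mem hw'.1)), hw'.2⟩
    have h2 := Finset.card_le_card h1
    rw [Finset.card_insert_of_notMem (by
      rw [mem_nb]
      exact fun h => m5 (mem_insert_of_mem h.1))] at h2
    exact h2
  refine hD ⟨by omega, by omega, a, ha, b, hb, hab, n1, by omega, by omega, by omega⟩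

/-- a missing cycle of length five -/
theorem MC.l5 (h5 : 5 ≤ k) (h6 : k ≤ 6) (hD : ¬ D0 G k X v) : No5 G (cl G X v) := by
  intro a b p q r ha hb hp hq hr hab hap haq har hbp hbq hbr hpq hpr hqr n1 n2 n3 n4 n5
  have hE := five (G := G) (X := X) (v := v) (H.l32 hnb hv hd h5 h6 hD) ha hb hp hq hr
    hab hap haq har hbp hbq hbr hpq hpr hqr n1 n2 n3 n4 n5
  have e1 := H.clpair hv hd ha hb hab n1
  have e2' := H.clpair hv hd hb hp hbp n2
  have e3 := H.clpair hv hd hp hq hpq n3
  have e4 := H.clpair hv hd hq hr hqr n4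
  have e5 := H.clpair hv hd hr ha (Ne.symm har) n5
  have m2 : q ∉ ({r} : Finset V) := by simp [hqr]
  have m3 : p ∉ ({q, r} : Finset V) := by simp [hpq, hpr]
  have m4 : b ∉ ({p, q, r} : Finset V) := by simp [hbp, hbq, hbr]
  have m5 : a ∉ ({b, p, q, r} : Finset V) := by simp [hab, hap, haq, har]
  have h := H.clsum2 hv hd (S := {a, b, p, q, r}) (by
    intro u hu
    simp only [mem_insert, mem_singleton] at hu
    rcases hu with rfl | rfl | rfl | rfl | rfl <;> assumption)
  rw [Finset.sum_insert m5, Finset.sum_insert m4, Finset.sum_insert m3, Finset.sum_insert m2,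
    Finset.sum_singleton] at h
  have hbud := H.clbud hv hd
  have ht : 3 * k ≤ 2 * exs G k X (cl G X v) + e2 Gᶜ (cl G X v) + 6 := by omega
  have f1 := H.ntight hnb hv hd ha hb hab n1 ht
  have f2 := H.ntight hnb hv hd hb hp hbp n2 ht
  have f3 := H.ntight hnb hv hd hp hq hpq n3 ht
  have f4 := H.ntight hnb hv hd hq hr hqr n4 ht
  have f5 := H.ntight hnb hv hd hr ha (Ne.symm har) n5 ht
  omega

/-- three disjoint missing pairs -/
theorem MC.l3 (h5 : 5 ≤ k) (h6 : k ≤ 6) (hD : ¬ D0 G k X v) : No3 G (cl G X v) := by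
  intro a b p q r s ha hb hp hq hr hs hab hap haq har has hbp hbq hbr hbs hpq hpr hps hqr hqs
    hrs n1 n2 n3
  have m1 : r ∉ ({s} : Finset V) := by simp [hrs]
  have m2 : q ∉ ({r, s} : Finset V) := by simp [hqr, hqs]
  have m3 : p ∉ ({q, r, s} : Finset V) := by simp [hpq, hpr, hps]
  have m4 : b ∉ ({p, q, r, s} : Finset V) := by simp [hbp, hbq, hbr, hbs]
  have m5 : a ∉ ({b, p, q, r, s} : Finset V) := by simp [hab, hap, haq, har, has]
  have hsub : ({a, b, p, q, r, s} : Finset V) ⊆ cl G X v := by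
    intro u hu
    simp only [mem_insert, mem_singleton] at hu
    rcases hu with rfl | rfl | rfl | rfl | rfl | rfl <;> assumption
  have hvn : ∀ {y z : V}, y ∈ cl G X v → z ∈ cl G X v → y ≠ z → ¬ G.Adj y z → v ≠ y := by
    intro y z _ hz hyz hn e
    have hz' := hz
    unfold cl at hz'
    rw [mem_insert, mem_nb] at hz'
    rcases hz' with h | h
    · exact hyz (e ▸ h.symm)
    · exact hn (e ▸ h.2)
  have hv6 : v ∉ ({a, b, p, q, r, s} : Finset V) := by
    simp only [mem_insert, mem_singleton, not_or]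
    exact ⟨hvn ha hb hab n1, hvn hb ha (Ne.symm hab) (fun e => n1 e.symm), hvn hp hq hpq n2,
      hvn hq hp (Ne.symm hpq) (fun e => n2 e.symm), hvn hr hs hrs n3,
      hvn hs hr (Ne.symm hrs) (fun e => n3 e.symm)⟩
  have hk6 : 6 ≤ k := by
    have h1 := Finset.card_le_card (Finset.insert_subset (mem_insert_self v (nb G X v)) hsub)
    rw [Finset.card_insert_of_notMem hv6, Finset.card_insert_of_notMem m5,
      Finset.card_insert_of_notMem m4, Finset.card_insert_of_notMem m3,
      Finset.card_insert_of_notMem m2, Finset.card_insert_of_notMem m1,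
      Finset.card_singleton] at h1
    have h2 := card_cl (G := G) (X := X) (v := v)
    unfold cl at h2
    omega
  obtain ⟨s1, s2, s3, s4, s5⟩ := H.exsum hv hd hsub
  rw [Finset.sum_insert m5, Finset.sum_insert m4, Finset.sum_insert m3, Finset.sum_insert m2,
    Finset.sum_insert m1, Finset.sum_singleton] at s1
  have hbud := H.clbud hv hd
  have e1 := H.clpair hv hd ha hb hab n1
  have e2' := H.clpair hv hd hp hq hpq n2
  have e3 := H.clpair hv hd hr hs hrs n3
  obtain ⟨h8, -, -⟩ := H.six hv hd (H.l32 hnb hv hd h5 h6 hD) ha hb hp hq hr hs hab hap haq har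
    has hbp hbq hbr hbs hpq hpr hps hqr hqs hrs n1 n2 n3
  have ht : 3 * k ≤ 2 * exs G k X (cl G X v) + e2 Gᶜ (cl G X v) + 6 := by omega
  have f1 := H.ntight hnb hv hd ha hb hab n1 ht
  have f2 := H.ntight hnb hv hd hp hq hpq n2 ht
  have f3 := H.ntight hnb hv hd hr hs hrs n3 ht
  have xa : (nb G X a).card - k ≤ exs G k X (cl G X v) := by
    unfold exs
    exact Finset.single_le_sum (f := fun v => (nb G X v).card - k) (fun v _ => Nat.zero_le _) ha
  have xb : (nb G X b).card - k ≤ exs G k X (cl G X v) := by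
    unfold exs
    exact Finset.single_le_sum (f := fun v => (nb G X v).card - k) (fun v _ => Nat.zero_le _) hb
  have ga := H.deg_ge a (cl_sub (G := G) hv ha)
  have gb := H.deg_ge b (cl_sub (G := G) hv hb)
  refine hD ⟨by omega, by omega, a, ha, b, hb, hab, n1, by omega, by omega, by omega⟩

end nbh

section
variable {k : ℕ} {X : Finset V} (H : MC G k X) (hnb : NB G k X)
include H hnb

/-- many vertices of degree more than `k` in the neighbourhood of a vertex of degree `k` -/
theorem MC.dfalse (h5 : 5 ≤ k) (h6 : k ≤ 6)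
    (hD : ∀ v ∈ X, (nb G X v).card = k → D0 G k X v) : False := by
  obtain ⟨v, hv, hd⟩ := H.exists_deg
  obtain ⟨hx, ht, a, ha, b, hb, hab, hn, da, db, hc⟩ := hD v hv hd
  have hFX : cl G X v ⊆ X := cl_sub hv
  have hps := H.clps' hv hd
  rw [← Nat.cast_ofNat (R := ℤ) (n := 4)] at hps
  have hps0 : ps G k (X \ cl G X v) ≤ 0 := by
    have : ((2 * exs G k X (cl G X v) + e2 Gᶜ (cl G X v) : ℕ) : ℤ) + 6 = 4 * k := by
      exact_mod_cast ht
    push_cast at hps this ⊢
    linarith
  have hne := H.clne hv hd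
  have htau := H.tau0 Finset.sdiff_subset hne (by linarith)
  have htr := H.cltr hv hd ha hb hab hn
  obtain ⟨T, hT⟩ : ∃ T, T = (nb G X a \ cl G X v) ∪ (nb G X b \ cl G X v) := ⟨_, rfl⟩
  rw [← hT] at htr
  have hTH : T ⊆ X \ cl G X v := by
    intro w hw
    rw [hT, mem_union, mem_sdiff, mem_sdiff, mem_nb, mem_nb] at hw
    rw [mem_sdiff]
    tauto
  have h1 := htau T hTH htr
  have h2 := Finset.card_union_le (nb G X a \ cl G X v) (nb G X b \ cl G X v)
  rw [← hT] at h2
  obtain ⟨r, hS⟩ := H.star8g Finset.sdiff_subset hne (by linarith) htau hTH (by omega) htr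
    (Or.inl (by linarith))
  have hRX : T.erase r ⊆ X := ((Finset.erase_subset _ _).trans hTH).trans Finset.sdiff_subset
  have hRc := Finset.card_erase_add_one hS.hr
  have h3 : ∀ z ∈ T.erase r, k + 1 ≤ (nb G X z).card := by
    intro z hz
    have h4 := hnb (T.erase r) hRX (by omega) hS.clq z hz
    have h5 := H.deg_ge z (hRX hz)
    omega
  have key : ∀ {w : V}, w ∈ cl G X v → (nb G X w).card = k → nb G X w \ cl G X v ⊆ T →
      3 ≤ (nb G X w \ cl G X v).card → False := by
    intro w hw hdw hsub h4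
    obtain ⟨hx', -, -⟩ := hD w (hFX hw) hdw
    have h5 : ∑ z ∈ (nb G X w \ cl G X v).erase r, 1 ≤
        ∑ z ∈ (nb G X w \ cl G X v).erase r, ((nb G X z).card - k) := by
      refine Finset.sum_le_sum fun z hz => ?_
      have hz' := mem_erase.1 hz
      have := h3 z (mem_erase.2 ⟨hz'.1, hsub hz'.2⟩)
      omega
    have h6 : ∑ z ∈ (nb G X w \ cl G X v).erase r, ((nb G X z).card - k) ≤
        exs G k X (cl G X w) := by
      unfold exs
      refine Finset.sum_le_sum_of_subset ?_
      intro z hz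
      exact mem_insert_of_mem (mem_sdiff.1 (mem_of_mem_erase hz)).1
    have h7 := Finset.pred_card_le_card_erase (s := nb G X w \ cl G X v) (a := r)
    rw [Finset.sum_const, smul_eq_mul, mul_one] at h5
    omega
  rcases Nat.lt_or_ge (nb G X a \ cl G X v).card 3 with h4 | h4
  · exact key hb db (by rw [hT]; exact Finset.subset_union_right) (by omega)
  · exact key ha da (by rw [hT]; exact Finset.subset_union_left) h4

end

/-- `k = 4`: two adjacent neighbours of a vertex of degree `4` -/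
theorem MC.base4 {X : Finset V} (H : MC G 4 X) : ∃ P c x x', Base G 4 X P c x x' := by
  obtain ⟨v, hv, hd⟩ := H.exists_deg
  have hbud := H.clbud hv hd
  by_cases hex : ∃ a ∈ nb G X v, ∃ b ∈ nb G X v, a ≠ b ∧ G.Adj a b
  · obtain ⟨a, ha, b, hb, hab, hadj⟩ := hex
    rw [mem_nb] at ha hb
    have hva : v ≠ a := G.ne_of_adj ha.2
    have hvb : v ≠ b := G.ne_of_adj hb.2
    obtain ⟨x, x', B⟩ := base_mk (G := G) (k := 4) (X := X) (P := {v, a, b}) (by
      intro z hz
      rw [mem_insert, mem_insert, mem_singleton] at hz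
      rcases hz with rfl | rfl | rfl
      · exact hv
      · exact ha.1
      · exact hb.1) (by
      rw [Finset.card_insert_of_notMem (by
        rw [mem_insert, mem_singleton, not_or]
        exact ⟨hva, hvb⟩), Finset.card_pair hab]) (by
      intro y hy z hz hyz
      rw [mem_insert, mem_insert, mem_singleton] at hy hz
      rcases hy with rfl | rfl | rfl <;> rcases hz with rfl | rfl | rfl
      · exact absurd rfl hyz
      · exact ha.2
      · exact hb.2
      · exact ha.2.symm
      · exact absurd rfl hyz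
      · exact hadj
      · exact hb.2.symm
      · exact hadj.symm
      · exact absurd rfl hyz) (c := v) (mem_insert_self _ _) hd
    exact ⟨_, v, x, x', B⟩
  · push Not at hex
    exfalso
    have h1 : ∑ a ∈ nb G X v, 3 ≤ ∑ a ∈ nb G X v, (nb Gᶜ (cl G X v) a).card := by
      refine Finset.sum_le_sum fun a ha => ?_
      have h2 : (nb G X v).erase a ⊆ nb Gᶜ (cl G X v) a := by
        intro b hb
        have hb' := mem_erase.1 hb
        exact mem_nb.2 ⟨mem_insert_of_mem hb'.2, (SimpleGraph.compl_adj _ _ _).2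
          ⟨Ne.symm hb'.1, hex a ha b hb'.2 (Ne.symm hb'.1)⟩⟩
      have h3 := Finset.card_le_card h2
      have h4 := Finset.card_erase_add_one ha
      omega
    have h2 : ∑ a ∈ nb G X v, (nb Gᶜ (cl G X v) a).card ≤ e2 Gᶜ (cl G X v) := by
      rw [e2_eq]
      exact Finset.sum_le_sum_of_subset (Finset.subset_insert _ _)
    rw [Finset.sum_const, smul_eq_mul, hd] at h1
    omega

/-- every minimal counterexample has a base -/
theorem MC.exists_base {k : ℕ} {X : Finset V} (H : MC G k X) :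
    ∃ P c x x', Base G k X P c x x' := by
  by_cases hnb : NB G k X
  · have hk := H.hk
    rcases Nat.lt_or_ge k 5 with h4 | h5
    · have e : k = 4 := by omega
      subst e
      exact H.base4
    by_contra hno
    rcases Nat.lt_or_ge k 7 with h7 | h7
    · refine H.dfalse hnb h5 (by omega) fun v hv hd => ?_
      by_contra hD
      obtain ⟨P, x, x', B⟩ := H.base_at' hv hd (H.no4s hv hd h5) (H.l3 hnb hv hd h5 (by omega) hD)
        (H.l32 hnb hv hd h5 (by omega) hD) (H.l5 hnb hv hd h5 (by omega) hD)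
      exact hno ⟨P, v, x, x', B⟩
    · obtain ⟨v, hv, hd⟩ := H.exists_deg
      obtain ⟨P, x, x', B⟩ := H.base_at hv hd h7
      exact hno ⟨P, v, x, x', B⟩
  · unfold NB at hnb
    push Not at hnb
    obtain ⟨P, hP, hPc, hPq, z, hz, hd⟩ := hnb
    obtain ⟨x, x', B⟩ := base_mk hP hPc hPq hz hd
    exact ⟨P, z, x, x', B⟩

end Pool.Agent.TwoDens.TS
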