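import Pool.Agent.TKS.BEe

/-!
If all vertices of degree `k` in the cliques with `k - 1` vertices are of type 3, then every vertex
of degree `k` lies in such a clique (`k = 5, 6`).
-/

open Finset

namespace Pool.Agent.TwoDens.TS

open Pool.Agent.TwoDens Pool.Agent.TwoDens.RK Pool.Agent.TwoDens.DD

variable {V : Type*} [DecidableEq V] {G : SimpleGraph V} [DecidableRel G.Adj]

/-- a clique `R` outside the closed neighbourhood of `v` with few edges leaving it has no vertex of
degree `k` -/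
def Loc0 (G : SimpleGraph V) [DecidableRel G.Adj] (k : ℕ) (X : Finset V) (v : V) : Prop :=
  ∀ R ⊆ X \ cl G X v, R.card + 1 = k → Clq G R → 2 * bd G (X \ cl G X v) R + 2 ≤ k →
    ∀ z ∈ R, (nb G X z).card ≠ k

section nbh
variable {k : ℕ} {X : Finset V} (H : MC G k X) {v : V} (hv : v ∈ X)
  (hd : (nb G X v).card = k)

section
variable (hloc : Loc0 G k X v)
include H hloc hv hd

/-- no nonadjacent pair with only `k - 1` outer neighbours -/
theorem MC.ntightL {a b : V} (ha : a ∈ cl G X v) (hb : b ∈ cl G X v) (hab : a ≠ b)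
    (hn : ¬ G.Adj a b)
    (ht : 3 * k ≤ 2 * exs G k X (cl G X v) + e2 Gᶜ (cl G X v) + 6) :
    k ≤ (nb G X a \ cl G X v).card + (nb G X b \ cl G X v).card := by
  unfold Loc0 at hloc
  by_contra hc
  push Not at hc
  have hk := H.hk
  have hk4 : (4 : ℤ) ≤ k := by exact_mod_cast hk
  have hps := H.clps' hv hd
  have hne := H.clne hv hd
  have htr := H.cltr hv hd ha hb hab hn
  have hpr := H.clpair hv hd ha hb hab hn
  have ht' : (3 * k : ℤ) ≤ (2 * exs G k X (cl G X v) + e2 Gᶜ (cl G X v) : ℕ) + 6 := by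
    exact_mod_cast ht
  obtain ⟨R, hR⟩ : ∃ R, R = (nb G X a \ cl G X v) ∪ (nb G X b \ cl G X v) := ⟨_, rfl⟩
  rw [← hR] at htr
  have hRH : R ⊆ X \ cl G X v := by
    intro w hw
    rw [hR, mem_union, mem_sdiff, mem_sdiff, mem_nb, mem_nb] at hw
    rw [mem_sdiff]
    tauto
  have hcnt := fun {t : ℕ} (hRc : R.card + 1 = k)
    (ht : TauGe G ((X \ cl G X v) \ R) t) => H.clcount hv hd hRH hRc ht
      (Finset.Subset.refl (cl G X v))
  have hFX : cl G X v ⊆ X := cl_sub hv
  obtain ⟨Y, hY⟩ : ∃ Y, Y = X \ cl G X v := ⟨_, rfl⟩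
  have hYX : Y ⊆ X := by rw [hY]; exact Finset.sdiff_subset
  obtain ⟨t, htt⟩ : ∃ t, 2 * exs G k X (cl G X v) + e2 Gᶜ (cl G X v) = t := ⟨_, rfl⟩
  rw [← hY] at hps htr hRH hne hcnt hloc
  rw [htt] at hps ht' ht
  have hu := Finset.card_union_le (nb G X a \ cl G X v) (nb G X b \ cl G X v)
  rw [← hR] at hu
  have h1 := H.tau1 hYX hne (by linarith) R hRH htr
  have hRc : R.card + 1 = k := by omega
  obtain ⟨hq, hbd⟩ := H.tr34 hYX hne (by linarith) hRH hRc htr
  have hbk : 2 * bd G Y R + 2 ≤ k := by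
    have h0 : 2 * (bd G Y R : ℤ) + 2 ≤ k := by linarith
    exact_mod_cast h0
  have hal1 : al G (Y \ R) + 1 = al G Y := by
    have h5 := al_le_sdiff (G := G) Y R
    rw [Finset.inter_eq_right.2 hRH] at h5
    have h6 : al G (Y \ R) < al G Y := htr
    have h7 := al_clq hq
    omega
  have hsub : Y \ R ⊆ X := Finset.sdiff_subset.trans hYX
  have hne2 : Y \ R ≠ X := by
    intro e
    exact hne (Finset.Subset.antisymm hYX (e ▸ Finset.sdiff_subset))
  have hp2 : ps G k (Y \ R) + 2 * bd G Y R + 2 = ps G k Y := by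
    have e1 := ps_sdiff (G := G) k hRH
    have e2' := sum_deg' (G := G) hRH
    have e3 := clq_e2 (G := G) hq
    have e4 : (al G (Y \ R) : ℤ) + 1 = al G Y := by exact_mod_cast hal1
    obtain ⟨m, hm⟩ : ∃ m, R.card = m := ⟨_, rfl⟩
    have hkm : k = m + 1 := by omega
    rw [hm] at e1 e3
    have e3' : (e2 G R : ℤ) + m = m * m := by exact_mod_cast e3
    have e2'' : ((∑ v ∈ R, (nb G Y v).card : ℕ) : ℤ) = e2 G R + bd G Y R := by
      exact_mod_cast e2'
    have e5 : (al G Y : ℤ) - al G (Y \ R) = 1 := by linarith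
    rw [e5, e2''] at e1
    have hkm' : (k : ℤ) = m + 1 := by exact_mod_cast hkm
    rw [hkm'] at e1
    nlinarith
  have hb0 := Int.natCast_nonneg (bd G Y R)
  have htau := H.tau1 hsub hne2 (by linarith)
  have h2 := hcnt hRc htau
  -- the vertices of `R` have degree at least `k + 1`
  have h3 : ∀ z ∈ R, k + 1 ≤ (nb G X z).card := by
    intro z hz
    have h4 := hloc R hRH hRc hq hbk z hz
    have h5 := H.deg_ge z (hYX (hRH hz))
    omega
  have h4 : ∑ z ∈ cl G X v, ((nb G X z \ cl G X v) ∩ R).card = ∑ w ∈ R, (nb G (cl G X v) w).card := by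
    rw [← sum_nb_comm]
    refine Finset.sum_congr rfl fun z _ => ?_
    congr 1
    ext w
    rw [mem_inter, mem_sdiff, mem_nb, mem_nb]
    constructor
    · rintro ⟨⟨⟨_, h5⟩, _⟩, h6⟩
      exact ⟨h6, h5⟩
    · rintro ⟨h5, h6⟩
      have h7 := hRH h5
      rw [hY, mem_sdiff] at h7
      exact ⟨⟨⟨h7.1, h6⟩, h7.2⟩, h5⟩
  have h5 : ∑ w ∈ R, (nb G X w).card = ∑ w ∈ R, (nb G (cl G X v) w).card +
      ∑ w ∈ R, (nb G Y w).card := by
    rw [← Finset.sum_add_distrib]
    refine Finset.sum_congr rfl fun w _ => ?_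
    rw [← Finset.card_union_of_disjoint]
    · congr 1
      ext u
      rw [mem_union, mem_nb, mem_nb, mem_nb, hY, mem_sdiff]
      constructor
      · rintro ⟨h6, h7⟩
        by_cases h8 : u ∈ cl G X v
        · exact Or.inl ⟨h8, h7⟩
        · exact Or.inr ⟨⟨h6, h8⟩, h7⟩
      · rintro (⟨h6, h7⟩ | ⟨⟨h6, _⟩, h7⟩)
        · exact ⟨hFX h6, h7⟩
        · exact ⟨h6, h7⟩
    · rw [Finset.disjoint_left]
      intro u hu hu'
      rw [mem_nb] at hu hu'
      rw [hY] at hu'
      exact (mem_sdiff.1 hu'.1).2 hu.1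
  have h6 : (k + 1) * R.card ≤ ∑ w ∈ R, (nb G X w).card := by
    rw [mul_comm, ← smul_eq_mul, ← Finset.sum_const]
    exact Finset.sum_le_sum h3
  have h7 := sum_deg' (G := G) hRH
  have h8 := clq_e2 (G := G) hq
  obtain ⟨m, hm⟩ : ∃ m, R.card = m := ⟨_, rfl⟩
  have hkm : k = m + 1 := by omega
  rw [hm] at h6 h8
  have h9 : (m + 1 + 1) * m = m * m + 2 * m := by ring
  rw [hkm, h9] at h6
  have h10 : 2 * (bd G Y R : ℤ) + 8 + t ≤ 4 * k := by linarith
  have h11 : 2 * bd G Y R + 8 + t ≤ 4 * k := by exact_mod_cast h10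
  omega

end

/-- no nonadjacent pair has only `k - 1` outer neighbours -/
def Nt0 (G : SimpleGraph V) [DecidableRel G.Adj] (k : ℕ) (X : Finset V) (v : V) : Prop :=
  ∀ a ∈ cl G X v, ∀ b ∈ cl G X v, a ≠ b → ¬ G.Adj a b →
    3 * k ≤ 2 * exs G k X (cl G X v) + e2 Gᶜ (cl G X v) + 6 →
    k ≤ (nb G X a \ cl G X v).card + (nb G X b \ cl G X v).card

section
variable (hnt0 : Nt0 G k X v)
include H hv hd hnt0

/-- a missing triangle and a disjoint missing pair -/
theorem MC.l32n (h5 : 5 ≤ k) (h6 : k ≤ 6) (hD : ¬ D0 G k X v) : No32 G (cl G X v) := by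
  intro a b p q r ha hb hp hq hr hab hap haq har hbp hbq hbr hpq hpr hqr n1 n2 n3 n4
  have e1 := H.clpair hv hd ha hb hab n1
  have e2' := H.cltri hv hd hp hq hr hpq hpr hqr n2 n3 n4
  have m2 : q ∉ ({r} : Finset V) := by simp [hqr]
  have m3 : p ∉ ({q, r} : Finset V) := by simp [hpq, hpr]
  have m4 : b ∉ ({p, q, r} : Finset V) := by simp [hbp, hbq, hbr]
  have m5 : a ∉ ({b, p, q, r} : Finset V) := by simp [hab, hap, haq, har]
  have hsub : ({a, b, p, q, r} : Finset V) ⊆ cl G X v := by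
    intro u hu
    simp only [mem_insert, mem_singleton] at hu
    rcases hu with rfl | rfl | rfl | rfl | rfl <;> assumption
  obtain ⟨s1, s2, s3, s4, s5⟩ := H.exsum hv hd hsub
  rw [Finset.sum_insert m5, Finset.sum_insert m4, Finset.sum_insert m3, Finset.sum_insert m2,
    Finset.sum_singleton] at s1
  have hbud := H.clbud hv hd
  have q5 := e2_ins (G := Gᶜ) m5
  have q4 := e2_ins (G := Gᶜ) m4
  have q3 := e2_le (G := Gᶜ) ({p, q, r} : Finset V)
  rw [Finset.card_insert_of_notMem m3, Finset.card_insert_of_notMem m2,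
    Finset.card_singleton] at q3
  have key : ∀ {w : V}, w ∈ cl G X v → w ≠ p → w ≠ q → w ≠ r →
      (nb Gᶜ {p, q, r} w).card ≤ 2 := by
    intro w hw w1 w2 w3
    by_cases c1 : G.Adj w p
    · have := nbc_insert_adj (G := G) (F := {q, r}) c1
      have := nbc_ins_le (G := G) {r} q w
      have := nbc_singleton_le (G := G) r w
      omega
    by_cases c2 : G.Adj w q
    · have := nbc_ins_le (G := G) {q, r} p w
      have := nbc_pair (G := G) (y := q) (z := r) (w := w) (Or.inl c2)
      omega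
    by_cases c3 : G.Adj w r
    · have := nbc_ins_le (G := G) {q, r} p w
      have := nbc_pair (G := G) (y := q) (z := r) (w := w) (Or.inr c3)
      omega
    · exact (H.no4s hv hd h5 hw hp hq hr w1 w2 w3 hpq hpr hqr c1 c2 c3 n2 n3 n4).elim
  have k1 := key hb hbp hbq hbr
  have k2 := key ha hap haq har
  have k3 := nbc_ins_le (G := G) {p, q, r} b a
  have f1 := hnt0 _ ha _ hb hab n1 (by omega)
  have oa := H.clout hv hd ha
  have ob := H.clout hv hd hb
  have xa : (nb G X a).card - k ≤ exs G k X (cl G X v) := by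
    unfold exs
    exact Finset.single_le_sum (f := fun v => (nb G X v).card - k) (fun v _ => Nat.zero_le _) ha
  have xb : (nb G X b).card - k ≤ exs G k X (cl G X v) := by
    unfold exs
    exact Finset.single_le_sum (f := fun v => (nb G X v).card - k) (fun v _ => Nat.zero_le _) hb
  have ga := H.deg_ge a (cl_sub (G := G) hv ha)
  have gb := H.deg_ge b (cl_sub (G := G) hv hb)
  have ma : (nb Gᶜ {b, p, q, r} a).card ≤ (nb Gᶜ (cl G X v) a).card :=
    Finset.card_le_card (nb_mono ((Finset.subset_insert _ _).trans hsub) a)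
  have mb : (nb Gᶜ {p, q, r} b).card + 1 ≤ (nb Gᶜ (cl G X v) b).card := by
    have h1 : insert a (nb Gᶜ {p, q, r} b) ⊆ nb Gᶜ (cl G X v) b := by
      intro w hw
      rcases mem_insert.1 hw with rfl | hw
      · exact mem_nb.2 ⟨ha, (SimpleGraph.compl_adj _ _ _).2 ⟨Ne.symm hab, fun e => n1 e.symm⟩⟩
      · have hw' := mem_nb.1 hw
        exact mem_nb.2 ⟨hsub (mem_insert_of_mem (mem_insert_of_mem hw'.1)), hw'.2⟩
    have h2 := Finset.card_le_card h1
    rw [Finset.card_insert_of_notMem (by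
      rw [mem_nb]
      exact fun h => m5 (mem_insert_of_mem h.1))] at h2
    exact h2
  refine hD ⟨by omega, by omega, a, ha, b, hb, hab, n1, by omega, by omega, by omega⟩

/-- a missing cycle of length five -/
theorem MC.l5n (h5 : 5 ≤ k) (h6 : k ≤ 6) (hD : ¬ D0 G k X v) : No5 G (cl G X v) := by
  intro a b p q r ha hb hp hq hr hab hap haq har hbp hbq hbr hpq hpr hqr n1 n2 n3 n4 n5
  have hE := five (G := G) (X := X) (v := v) (H.l32n hv hd hnt0 h5 h6 hD) ha hb hp hq hr
    hab hap haq har hbp hbq hbr hpq hpr hqr n1 n2 n3 n4 n5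
  have e1 := H.clpair hv hd ha hb hab n1
  have e2' := H.clpair hv hd hb hp hbp n2
  have e3 := H.clpair hv hd hp hq hpq n3
  have e4 := H.clpair hv hd hq hr hqr n4
  have e5 := H.clpair hv hd hr ha (Ne.symm har) n5
  have m2 : q ∉ ({r} : Finset V) := by simp [hqr]
  have m3 : p ∉ ({q, r} : Finset V) := by simp [hpq, hpr]
  have m4 : b ∉ ({p, q, r} : Finset V) := by simp [hbp, hbq, hbr]
  have m5 : a ∉ ({b, p, q, r} : Finset V) := by simp [hab, hap, haq, har]
  have h := H.clsum2 hv hd (S := {a, b, p, q, r}) (by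
    intro u hu
    simp only [mem_insert, mem_singleton] at hu
    rcases hu with rfl | rfl | rfl | rfl | rfl <;> assumption)
  rw [Finset.sum_insert m5, Finset.sum_insert m4, Finset.sum_insert m3, Finset.sum_insert m2,
    Finset.sum_singleton] at h
  have hbud := H.clbud hv hd
  have ht : 3 * k ≤ 2 * exs G k X (cl G X v) + e2 Gᶜ (cl G X v) + 6 := by omega
  have f1 := hnt0 _ ha _ hb hab n1 ht
  have f2 := hnt0 _ hb _ hp hbp n2 ht
  have f3 := hnt0 _ hp _ hq hpq n3 ht
  have f4 := hnt0 _ hq _ hr hqr n4 ht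
  have f5 := hnt0 _ hr _ ha (Ne.symm har) n5 ht
  omega

/-- three disjoint missing pairs -/
theorem MC.l3n (h5 : 5 ≤ k) (h6 : k ≤ 6) (hD : ¬ D0 G k X v) : No3 G (cl G X v) := by
  intro a b p q r s ha hb hp hq hr hs hab hap haq har has hbp hbq hbr hbs hpq hpr hps hqr hqs
    hrs n1 n2 n3
  have m1 : r ∉ ({s} : Finset V) := by simp [hrs]
  have m2 : q ∉ ({r, s} : Finset V) := by simp [hqr, hqs]
  have m3 : p ∉ ({q, r, s} : Finset V) := by simp [hpq, hpr, hps]
  have m4 : b ∉ ({p, q, r, s} : Finset V) := by simp [hbp, hbq, hbr, hbs]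
  have m5 : a ∉ ({b, p, q, r, s} : Finset V) := by simp [hab, hap, haq, har, has]
  have hsub : ({a, b, p, q, r, s} : Finset V) ⊆ cl G X v := by
    intro u hu
    simp only [mem_insert, mem_singleton] at hu
    rcases hu with rfl | rfl | rfl | rfl | rfl | rfl <;> assumption
  have hvn : ∀ {y z : V}, y ∈ cl G X v → z ∈ cl G X v → y ≠ z → ¬ G.Adj y z → v ≠ y := by
    intro y z _ hz hyz hn e
    have hz' := hz
    unfold cl at hz'
    rw [mem_insert, mem_nb] at hz'
    rcases hz' with h | h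
    · exact hyz (e ▸ h.symm)
    · exact hn (e ▸ h.2)
  have hv6 : v ∉ ({a, b, p, q, r, s} : Finset V) := by
    simp only [mem_insert, mem_singleton, not_or]
    exact ⟨hvn ha hb hab n1, hvn hb ha (Ne.symm hab) (fun e => n1 e.symm), hvn hp hq hpq n2,
      hvn hq hp (Ne.symm hpq) (fun e => n2 e.symm), hvn hr hs hrs n3,
      hvn hs hr (Ne.symm hrs) (fun e => n3 e.symm)⟩
  have hk6 : 6 ≤ k := by
    have h1 := Finset.card_le_card (Finset.insert_subset (mem_insert_self v (nb G X v)) hsub)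
    rw [Finset.card_insert_of_notMem hv6, Finset.card_insert_of_notMem m5,
      Finset.card_insert_of_notMem m4, Finset.card_insert_of_notMem m3,
      Finset.card_insert_of_notMem m2, Finset.card_insert_of_notMem m1,
      Finset.card_singleton] at h1
    have h2 := card_cl (G := G) (X := X) (v := v)
    unfold cl at h2
    omega
  obtain ⟨s1, s2, s3, s4, s5⟩ := H.exsum hv hd hsub
  rw [Finset.sum_insert m5, Finset.sum_insert m4, Finset.sum_insert m3, Finset.sum_insert m2,
    Finset.sum_insert m1, Finset.sum_singleton] at s1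
  have hbud := H.clbud hv hd
  have e1 := H.clpair hv hd ha hb hab n1
  have e2' := H.clpair hv hd hp hq hpq n2
  have e3 := H.clpair hv hd hr hs hrs n3
  obtain ⟨h8, -, -⟩ := H.six hv hd (H.l32n hv hd hnt0 h5 h6 hD) ha hb hp hq hr hs hab hap haq har
    has hbp hbq hbr hbs hpq hpr hps hqr hqs hrs n1 n2 n3
  have ht : 3 * k ≤ 2 * exs G k X (cl G X v) + e2 Gᶜ (cl G X v) + 6 := by omega
  have f1 := hnt0 _ ha _ hb hab n1 ht
  have f2 := hnt0 _ hp _ hq hpq n2 ht
  have f3 := hnt0 _ hr _ hs hrs n3 ht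
  have xa : (nb G X a).card - k ≤ exs G k X (cl G X v) := by
    unfold exs
    exact Finset.single_le_sum (f := fun v => (nb G X v).card - k) (fun v _ => Nat.zero_le _) ha
  have xb : (nb G X b).card - k ≤ exs G k X (cl G X v) := by
    unfold exs
    exact Finset.single_le_sum (f := fun v => (nb G X v).card - k) (fun v _ => Nat.zero_le _) hb
  have ga := H.deg_ge a (cl_sub (G := G) hv ha)
  have gb := H.deg_ge b (cl_sub (G := G) hv hb)
  refine hD ⟨by omega, by omega, a, ha, b, hb, hab, n1, by omega, by omega, by omega⟩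

end

end nbh

end Pool.Agent.TwoDens.TS
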