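import Pool.Agent.TKS.C2A
import Pool.Agent.TKS.BEa

/-!
Minimal counterexamples in which every base has two adjacent outer vertices that miss the same
two vertices of the clique.
-/

open Finset

namespace Pool.Agent.TwoDens.TS

open Pool.Agent.TwoDens Pool.Agent.TwoDens.RK Pool.Agent.TwoDens.DD

variable {V : Type*} [DecidableEq V] {G : SimpleGraph V} [DecidableRel G.Adj]

/-- a base whose two outer vertices are adjacent and miss the same two vertices, both of degree
more than `k` -/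
structure TyB (G : SimpleGraph V) [DecidableRel G.Adj] (k : ℕ) (X P : Finset V)
    (c x x' u u' : V) : Prop where
  B : Base G k X P c x x'
  adj : G.Adj x x'
  hu : u ∈ P
  hu' : u' ∈ P
  huu : u ≠ u'
  mx : ∀ v ∈ P, (G.Adj x v ↔ v ≠ u ∧ v ≠ u')
  mx' : ∀ v ∈ P, (G.Adj x' v ↔ v ≠ u ∧ v ≠ u')
  d : k < (nb G X u).card
  d' : k < (nb G X u').card

theorem TyB.symm {k : ℕ} {X P : Finset V} {c x x' u u' : V} (S : TyB G k X P c x x' u u') :
    TyB G k X P c x' x u' u where
  B := S.B.symm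
  adj := S.adj.symm
  hu := S.hu'
  hu' := S.hu
  huu := S.huu.symm
  mx := fun v hv => (S.mx' v hv).trans and_comm
  mx' := fun v hv => (S.mx v hv).trans and_comm
  d := S.d'
  d' := S.d

/-- all cliques with `k - 1` elements and a vertex of degree `k` are frames, and all their bases
are of type `TyB` -/
structure AllB (G : SimpleGraph V) [DecidableRel G.Adj] (k : ℕ) (X : Finset V) : Prop where
  mc : MC G k X
  h7 : 7 ≤ k
  fr : ∀ P ⊆ X, P.card + 1 = k → Clq G P → (∃ c ∈ P, (nb G X c).card = k) → Fr G k X P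
  ty : ∀ P, Fr G k X P → ∀ c ∈ P, (nb G X c).card = k →
    ∃ x x' u u', TyB G k X P c x x' u u'

/-- the outer vertices have degree more than `k` -/
theorem AllB.big {k : ℕ} {X P : Finset V} (A : AllB G k X) {c x x' u u' : V}
    (S : TyB G k X P c x x' u u') : k < (nb G X x).card ∧ k < (nb G X x').card := by
  have hx := mem_sdiff.1 S.B.hx
  have hx' := mem_sdiff.1 S.B.hx'
  obtain ⟨Q, hQ⟩ : ∃ Q, Q = (P.erase u).erase u' := ⟨_, rfl⟩
  have hQP : Q ⊆ P := by
    rw [hQ]
    exact (Finset.erase_subset _ _).trans (Finset.erase_subset _ _)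
  have hQc : Q.card + 3 = k := by
    rw [hQ]
    have h1 := Finset.card_erase_add_one S.hu
    have h2 := Finset.card_erase_add_one (mem_erase.2 ⟨S.huu.symm, S.hu'⟩ : u' ∈ P.erase u)
    have h3 := S.B.hPc
    omega
  have hmQ : ∀ v ∈ Q, v ∈ P ∧ v ≠ u ∧ v ≠ u' := by
    intro v hv
    rw [hQ, mem_erase, mem_erase] at hv
    exact ⟨hv.2.2, hv.2.1, hv.1⟩
  have hx'Q : x' ∉ Q := fun h => hx'.2 (hQP h)
  have hxQ : x ∉ insert x' Q := by
    rw [mem_insert]
    rintro (h | h)
    · exact S.B.hne h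
    · exact hx.2 (hQP h)
  have hPX : insert x (insert x' Q) ⊆ X :=
    Finset.insert_subset hx.1 (Finset.insert_subset hx'.1 (hQP.trans S.B.hP))
  have hPc : (insert x (insert x' Q)).card + 1 = k := by
    rw [Finset.card_insert_of_notMem hxQ, Finset.card_insert_of_notMem hx'Q]
    omega
  have hPq : Clq G (insert x (insert x' Q)) := by
    have ax : ∀ v ∈ Q, G.Adj x v := fun v hv => (S.mx v (hmQ v hv).1).2 (hmQ v hv).2
    have ax' : ∀ v ∈ Q, G.Adj x' v := fun v hv => (S.mx' v (hmQ v hv).1).2 (hmQ v hv).2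
    intro v hv w hw hvw
    rw [mem_insert, mem_insert] at hv hw
    rcases hv with hv | hv | hv <;> rcases hw with hw | hw | hw
    · exact absurd (hv.trans hw.symm) hvw
    · rw [hv, hw]
      exact S.adj
    · rw [hv]
      exact ax w hw
    · rw [hv, hw]
      exact S.adj.symm
    · exact absurd (hv.trans hw.symm) hvw
    · rw [hv]
      exact ax' w hw
    · rw [hw]
      exact (ax v hv).symm
    · rw [hw]
      exact (ax' v hv).symm
    · exact S.B.hPq v (hQP hv) w (hQP hw) hvw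
  have hcc := (S.mx c S.B.hc).1 S.B.ax.symm
  have hcQ : c ∈ Q := by
    rw [hQ, mem_erase, mem_erase]
    exact ⟨hcc.2, hcc.1, S.B.hc⟩
  have hcP := mem_insert_of_mem (a := c) (b := x) (mem_insert_of_mem (b := x') hcQ)
  obtain ⟨y, y', w, w', S'⟩ := A.ty _ (A.fr _ hPX hPc hPq ⟨c, hcP, S.B.deg⟩) c hcP S.B.deg
  have hum : u ∈ nb G (X \ insert x (insert x' Q)) c := by
    refine mem_nb.2 ⟨mem_sdiff.2 ⟨S.B.hP S.hu, ?_⟩, S.B.hPq c S.B.hc u S.hu hcc.1⟩
    rw [mem_insert, mem_insert]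
    rintro (h | h | h)
    · exact hx.2 (h ▸ S.hu)
    · exact hx'.2 (h ▸ S.hu)
    · exact (hmQ u h).2.1 rfl
  rw [S'.B.hout, mem_insert, mem_singleton] at hum
  have nux : ¬ G.Adj u x := fun h => ((S.mx u S.hu).1 h.symm).1 rfl
  have nux' : ¬ G.Adj u x' := fun h => ((S.mx' u S.hu).1 h.symm).1 rfl
  have key : ∀ z ∈ insert x (insert x' Q), ¬ G.Adj u z → k < (nb G X z).card := by
    intro z hz hn
    have h1 : ¬ (z ≠ w ∧ z ≠ w') := by
      intro h2
      rcases hum with h | h
      · rw [h] at hn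
        exact hn ((S'.mx z hz).2 h2)
      · rw [h] at hn
        exact hn ((S'.mx' z hz).2 h2)
    by_cases e : z = w
    · rw [e]
      exact S'.d
    · by_cases e' : z = w'
      · rw [e']
        exact S'.d'
      · exact absurd ⟨e, e'⟩ h1
  exact ⟨key x (mem_insert_self _ _) nux, key x' (mem_insert_of_mem (mem_insert_self _ _)) nux'⟩

/-- a vertex `t` of degree `k` in the clique of a star, `y` outside adjacent to `t` misses at
least three elements of `T`: the other outer neighbour of `t` is outside `T` and adjacent to `y` -/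
theorem AllB.g3 {k : ℕ} {X T : Finset V} (A : AllB G k X) (hT : T ⊆ X) (hTc : T.card = k)
    {r t y : V} (hr : r ∈ T) (hq : Clq G (T.erase r)) (ht : t ∈ T.erase r)
    (hd : (nb G X t).card = k) (hy : y ∈ X) (hyT : y ∉ T) (hyt : G.Adj y t)
    (h3 : 3 ≤ (nb Gᶜ T y).card) : ∃ v ∈ X, v ∉ T ∧ v ≠ y ∧ G.Adj v t ∧ G.Adj v y := by
  have hRX : T.erase r ⊆ X := (Finset.erase_subset _ _).trans hT
  have hRc : (T.erase r).card + 1 = k := by rw [Finset.card_erase_add_one hr, hTc]
  obtain ⟨z, z', w, w', S⟩ := A.ty _ (A.fr _ hRX hRc hq ⟨t, ht, hd⟩) t ht hd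
  have hyR : y ∈ nb G (X \ T.erase r) t :=
    mem_nb.2 ⟨mem_sdiff.2 ⟨hy, fun h => hyT (mem_erase.1 h).2⟩, hyt.symm⟩
  rw [S.B.hout, mem_insert, mem_singleton] at hyR
  obtain ⟨v, hv, hvt, hvy, hne, hyw⟩ : ∃ v, v ∈ X \ T.erase r ∧ G.Adj v t ∧ G.Adj v y ∧ v ≠ y ∧
      (∀ s ∈ T.erase r, (G.Adj y s ↔ s ≠ w ∧ s ≠ w')) := by
    rcases hyR with h | h
    · rw [h]
      exact ⟨z', S.B.hx', S.B.ax'.symm, S.adj.symm, S.B.hne.symm, S.mx⟩
    · rw [h]
      exact ⟨z, S.B.hx, S.B.ax.symm, S.adj, S.B.hne, S.mx'⟩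
  have hyr : ¬ G.Adj y r := by
    intro h
    have h1 : nb Gᶜ T y ⊆ {w, w'} := by
      intro s hs
      have hs' := mem_nb.1 hs
      have h2 := ((SimpleGraph.compl_adj _ _ _).1 hs'.2).2
      have h4 : s ≠ r := fun e => h2 (e ▸ h)
      have h5 := hyw s (mem_erase.2 ⟨h4, hs'.1⟩)
      rw [mem_insert, mem_singleton]
      by_contra h6
      push Not at h6
      exact h2 (h5.2 h6)
    have h6 := Finset.card_le_card h1
    have h7 := Finset.card_le_two (a := w) (b := w')
    omega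
  refine ⟨v, (mem_sdiff.1 hv).1, fun h => ?_, hne, hvt, hvy⟩
  have h8 : v = r := by
    by_contra e
    exact (mem_sdiff.1 hv).2 (mem_erase.2 ⟨e, h⟩)
  exact hyr (h8 ▸ hvy.symm)

theorem nb_un {A B X : Finset V} (hAB : A ∪ B = X) (hd : Disjoint A B) (t : V) :
    (nb G X t).card = (nb G A t).card + (nb G B t).card := by
  rw [← hAB]
  unfold nb
  rw [Finset.filter_union, Finset.card_union_of_disjoint (Finset.disjoint_filter_filter hd)]

theorem sum_un_le (A B : Finset V) (g : V → ℕ) :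
    ∑ z ∈ A ∪ B, g z ≤ ∑ z ∈ A, g z + ∑ z ∈ B, g z := by
  rw [← Finset.sum_union_inter]
  exact Nat.le_add_right _ _

omit [DecidableRel G.Adj] in
theorem clq_sum_le {J S : Finset V} (hi : G.IsIndepSet (J : Set V)) (hS : Clq G S) (g : V → ℕ)
    {M : ℕ} (h : ∀ z ∈ S, g z ≤ M) : ∑ z ∈ J ∩ S, g z ≤ M := by
  have h1 : (J ∩ S).card ≤ 1 := by
    rw [Finset.card_le_one]
    intro v hv w hw
    rw [mem_inter] at hv hw
    by_contra e
    exact hi (by exact_mod_cast hv.1) (by exact_mod_cast hw.1) e (hS v hv.2 w hw.2 e)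
  have h2 := Finset.sum_le_card_nsmul (J ∩ S) g M (fun z hz => h z (mem_inter.1 hz).2)
  rw [smul_eq_mul] at h2
  calc ∑ z ∈ J ∩ S, g z ≤ (J ∩ S).card * M := h2
    _ ≤ 1 * M := Nat.mul_le_mul_right _ h1
    _ = M := one_mul M

theorem AllB.main {k : ℕ} {X P : Finset V} (A : AllB G k X) (F : Fr G k X P) {c x x' u u' : V}
    (S : TyB G k X P c x x' u u')
    (hsum : (nb G (hb X P x x') x).card + (nb G (hb X P x x') u).card = k) : False := by
  have hk7 := A.h7
  obtain ⟨dx, -⟩ := A.big S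
  have hx := mem_sdiff.1 S.B.hx
  have hx' := mem_sdiff.1 S.B.hx'
  have hPc := F.hPc
  have nxu : ¬ G.Adj x u := fun h => ((S.mx u S.hu).1 h).1 rfl
  have nxu' : ¬ G.Adj x u' := fun h => ((S.mx u' S.hu').1 h).2 rfl
  have nx'u : ¬ G.Adj x' u := fun h => ((S.mx' u S.hu).1 h).1 rfl
  have nx'u' : ¬ G.Adj x' u' := fun h => ((S.mx' u' S.hu').1 h).2 rfl
  have hbp := F.bp _ _ _ S.B
  obtain ⟨a, a', h, s, hA, hA', hh, hs, hsev, -, -⟩ := F.sevN S.B S.hu S.hu' S.huu nxu nx'u'
  rw [ad_one S.adj, ad_zero (fun h => nx'u h.symm), ad_zero (fun h => nxu' h.symm)] at hsev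
  have htr := F.tr_xu S.B S.hu nxu
  have hcT := F.card_xu S.B S.hu nxu
  have hnu := F.nbH S.B S.hu
  rw [ad_zero (fun h => nxu h.symm), ad_zero (fun h => nx'u h.symm)] at hnu
  have du := S.d
  have hexP : ∑ v ∈ (P.erase u).erase u', (nb G (hb X P x x') v).card =
      exs G k X ((P.erase u).erase u') := by
    unfold exs
    refine Finset.sum_congr rfl fun v hv => ?_
    rw [mem_erase, mem_erase] at hv
    have h1 := F.nbH S.B hv.2.2
    rw [ad_one ((S.mx v hv.2.2).2 ⟨hv.2.1, hv.1⟩).symm,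
      ad_one ((S.mx' v hv.2.2).2 ⟨hv.2.1, hv.1⟩).symm] at h1
    omega
  have hYX : hb X P x x' ⊆ X := hb_sub
  have hYne : hb X P x x' ≠ X := S.B.hbne
  have htau := hbp.tau
  have hps4 := hbp.ps4
  have halY := hbp.alH
  obtain ⟨Fs, hFs⟩ : ∃ Fs, Fs = insert x (insert x' P) := ⟨_, rfl⟩
  have hx'P : x' ∉ P := hx'.2
  have hxP : x ∉ insert x' P := by
    rw [mem_insert]
    rintro (h | h)
    · exact S.B.hne h
    · exact hx.2 h
  have hFc : Fs.card = k + 1 := by
    rw [hFs, Finset.card_insert_of_notMem hxP, Finset.card_insert_of_notMem hx'P]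
    omega
  have hFX : Fs ⊆ X := by
    rw [hFs]
    exact Finset.insert_subset hx.1 (Finset.insert_subset hx'.1 F.hP)
  have hFY : Fs ∪ hb X P x x' = X := by
    ext v
    rw [mem_union, hFs, mem_insert, mem_insert, mem_hb]
    constructor
    · rintro ((h | h | h) | h)
      · exact h ▸ hx.1
      · exact h ▸ hx'.1
      · exact F.hP h
      · exact h.1
    · intro hv
      by_cases e1 : v = x
      · exact Or.inl (Or.inl e1)
      · by_cases e2 : v = x'
        · exact Or.inl (Or.inr (Or.inl e2))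
        · by_cases e3 : v ∈ P
          · exact Or.inl (Or.inr (Or.inr e3))
          · exact Or.inr ⟨hv, e3, e1, e2⟩
  have hFd : Disjoint Fs (hb X P x x') := by
    rw [Finset.disjoint_left]
    intro v hv hv'
    rw [hFs, mem_insert, mem_insert] at hv
    rw [mem_hb] at hv'
    rcases hv with h | h | h
    · exact hv'.2.2.1 h
    · exact hv'.2.2.2 h
    · exact hv'.2.1 h
  obtain ⟨Y, hY⟩ : ∃ Y, Y = hb X P x x' := ⟨_, rfl⟩
  rw [← hY] at hsum hA hA' hh htr hcT hnu hexP hYX hYne htau hps4 halY hFY hFd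
  obtain ⟨T, hT⟩ : ∃ T, T = nb G Y x ∪ nb G Y u := ⟨_, rfl⟩
  rw [← hT] at htr hcT
  have hTY : T ⊆ Y := by
    rw [hT]
    exact Finset.union_subset (nb_sub _ _) (nb_sub _ _)
  have hui := Finset.card_union_add_card_inter (nb G Y x) (nb G Y u)
  rw [← hT] at hui
  have hTc : T.card = k := by omega
  have hTd : Disjoint (nb G Y x) (nb G Y u) := by
    rw [Finset.disjoint_iff_inter_eq_empty, ← Finset.card_eq_zero]
    omega
  obtain ⟨r, hS⟩ := A.mc.star8 hYX hYne hps4 htau hTY hTc htr hk7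
  have hTX := hTY.trans hYX
  have hFT : Disjoint Fs T := hFd.mono_right hTY
  have hxF : x ∈ Fs := by rw [hFs]; exact mem_insert_self _ _
  have hx'F : x' ∈ Fs := by rw [hFs]; exact mem_insert_of_mem (mem_insert_self _ _)
  have hPF : P ⊆ Fs := by
    rw [hFs]
    exact (Finset.subset_insert _ _).trans (Finset.subset_insert _ _)
  have hxT : x ∉ T := Finset.disjoint_left.1 hFT hxF
  have huT : u ∉ T := Finset.disjoint_left.1 hFT (hPF S.hu)
  -- sizes of the two parts
  have hn3 : 3 ≤ (nb G Y u).card := by omega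
  have hf3 : 3 ≤ (nb G Y x).card := by
    have h1 := nb_un (G := G) hFY hFd x
    have h2 := nbc_card (G := G) hxF
    have h3 : ({u, u'} : Finset V) ⊆ nb Gᶜ Fs x := by
      intro z hz
      rw [mem_insert, mem_singleton] at hz
      rcases hz with h | h
      · rw [h]
        exact mem_nb.2 ⟨hPF S.hu, (SimpleGraph.compl_adj _ _ _).2
          ⟨fun e => hx.2 (e ▸ S.hu), nxu⟩⟩
      · rw [h]
        exact mem_nb.2 ⟨hPF S.hu', (SimpleGraph.compl_adj _ _ _).2
          ⟨fun e => hx.2 (e ▸ S.hu'), nxu'⟩⟩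
    have h4 := Finset.card_le_card h3
    rw [Finset.card_pair S.huu] at h4
    omega
  have hdegY : ∀ t ∈ Y, k ≤ (nb G Y t).card + 1 := fun t ht => htau.deg ht
  -- every vertex of `T` has a neighbour in `Fs`
  have hw1 : ∀ t ∈ T, 1 ≤ (nb G Fs t).card := by
    intro t ht
    rw [hT, mem_union] at ht
    rcases ht with h1 | h1
    · exact Finset.card_pos.2 ⟨x, mem_nb.2 ⟨hxF, (mem_nb.1 h1).2.symm⟩⟩
    · exact Finset.card_pos.2 ⟨u, mem_nb.2 ⟨hPF S.hu, (mem_nb.1 h1).2.symm⟩⟩
  have hg3 : ∀ t ∈ T.erase r, ∀ y ∈ Fs, nb G Y y ⊆ T → t ∈ nb G Y y →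
      3 ≤ (nb Gᶜ T y).card → 2 ≤ (nb G Fs t).card + ((nb G Y t).card - (k - 1)) := by
    intro t ht y hy hyT hty h3
    by_contra hcon
    have htT := (mem_erase.1 ht).2
    have h1 := hw1 t htT
    have h2 := hdegY t (hTY htT)
    have h4 := nb_un (G := G) hFY hFd t
    obtain ⟨v, hv, hvT, hne, hvt, hvy⟩ := A.g3 hTX hTc hS.hr hS.clq ht (by omega) (hFX hy)
      (Finset.disjoint_left.1 hFT hy) (mem_nb.1 hty).2 h3
    rw [← hFY, mem_union] at hv
    rcases hv with hv | hv
    · have h5 : ({y, v} : Finset V) ⊆ nb G Fs t := by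
        intro z hz
        rw [mem_insert, mem_singleton] at hz
        rcases hz with h | h
        · rw [h]
          exact mem_nb.2 ⟨hy, (mem_nb.1 hty).2.symm⟩
        · rw [h]
          exact mem_nb.2 ⟨hv, hvt.symm⟩
      have h6 := Finset.card_le_card h5
      rw [Finset.card_pair hne.symm] at h6
      omega
    · exact hvT (hyT (mem_nb.2 ⟨hv, hvy.symm⟩))
  have hG3 : ∀ t ∈ T.erase r, 2 ≤ (nb G Fs t).card + ((nb G Y t).card - (k - 1)) := by
    intro t ht
    have htT := (mem_erase.1 ht).2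
    rw [hT, mem_union] at htT
    rcases htT with h1 | h1
    · refine hg3 t ht x hxF (by rw [hT]; exact Finset.subset_union_left) h1 ?_
      refine hn3.trans (Finset.card_le_card ?_)
      intro z hz
      refine mem_nb.2 ⟨by rw [hT]; exact mem_union_right _ hz, (SimpleGraph.compl_adj _ _ _).2
        ⟨fun e => ?_, fun e => (Finset.disjoint_left.1 hTd) (mem_nb.2 ⟨(mem_nb.1 hz).1, e⟩) hz⟩⟩
      exact (Finset.disjoint_left.1 hFd) hxF (e ▸ (mem_nb.1 hz).1)
    · refine hg3 t ht u (hPF S.hu) (by rw [hT]; exact Finset.subset_union_right) h1 ?_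
      refine hf3.trans (Finset.card_le_card ?_)
      intro z hz
      refine mem_nb.2 ⟨by rw [hT]; exact mem_union_left _ hz, (SimpleGraph.compl_adj _ _ _).2
        ⟨fun e => ?_, fun e => (Finset.disjoint_left.1 hTd) hz (mem_nb.2 ⟨(mem_nb.1 hz).1, e⟩)⟩⟩
      exact (Finset.disjoint_left.1 hFd) (hPF S.hu) (e ▸ (mem_nb.1 hz).1)
  -- sparsity of `Fs ∪ T`
  obtain ⟨Sw, hSw⟩ : ∃ Sw, Sw = ∑ t ∈ T, (nb G Fs t).card := ⟨_, rfl⟩
  have hSw' : ∑ v ∈ Fs, (nb G T v).card = Sw := by rw [hSw]; exact cross_comm _ _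
  obtain ⟨q, hq⟩ : ∃ q, (nb Gᶜ T r).card = q := ⟨_, rfl⟩
  have hsp : 2 * Sw ≤ k + 8 + 2 * q := by
    have h1 := A.mc.hS (Fs ∪ T) (Finset.union_subset hFX hTX) (by
      rw [Finset.card_union_of_disjoint hFT]
      omega)
    rw [Finset.card_union_of_disjoint hFT, e2_disj hFT, hSw', hFc, hTc] at h1
    have h2 := e2_add_compl (G := G) Fs
    have h3 := e2_add_compl (G := G) T
    rw [hS.e2c, hq, hTc] at h3
    have h4 : e2 Gᶜ Fs ≤ 8 := by
      rw [hFs, e2c_insert hxP, e2c_insert hx'P, clq_e2c F.hPq]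
      have h5 : nb Gᶜ (insert x' P) x ⊆ {u, u'} := by
        intro z hz
        have hz' := mem_nb.1 hz
        have h6 := ((SimpleGraph.compl_adj _ _ _).1 hz'.2).2
        rcases mem_insert.1 hz'.1 with h7 | h7
        · exact absurd (h7 ▸ S.adj) h6
        · rw [mem_insert, mem_singleton]
          by_contra h8
          push Not at h8
          exact h6 ((S.mx z h7).2 h8)
      have h5' : nb Gᶜ P x' ⊆ {u, u'} := by
        intro z hz
        have hz' := mem_nb.1 hz
        have h6 := ((SimpleGraph.compl_adj _ _ _).1 hz'.2).2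
        rw [mem_insert, mem_singleton]
        by_contra h8
        push Not at h8
        exact h6 ((S.mx' z hz'.1).2 h8)
      have h9 := Finset.card_le_card h5
      have h9' := Finset.card_le_card h5'
      rw [Finset.card_pair S.huu] at h9 h9'
      omega
    rw [hFc] at h2
    zify at h1 h2 h3 h4 ⊢
    nlinarith
  -- the star
  obtain ⟨o, ho⟩ : ∃ o, (nb G Y r \ T).card = o := ⟨_, rfl⟩
  obtain ⟨E, hE⟩ : ∃ E, exs G (k - 1) Y (T.erase r) = E := ⟨_, rfl⟩
  have hpsT := hS.psT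
  rw [ho, hE, hh] at hpsT
  have hps2 := A.mc.ps_sub hYX hYne T
  obtain ⟨p2, hp2⟩ := ps_even (G := G) k (Y \ T)
  rw [hp2] at hpsT hps2
  have hRc : (T.erase r).card + 1 = k := by rw [Finset.card_erase_add_one hS.hr, hTc]
  obtain ⟨l, hl⟩ := Finset.card_pos.1 hS.miss
  have hlT := (mem_nb.1 hl).1
  have hlr : l ≠ r := fun e => ((SimpleGraph.compl_adj _ _ _).1 (mem_nb.1 hl).2).1 e.symm
  have hlR : l ∈ T.erase r := mem_erase.2 ⟨hlr, hlT⟩
  have hT1 : Sw = (nb G Fs r).card + ∑ t ∈ T.erase r, (nb G Fs t).card := by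
    rw [hSw]
    exact (Finset.add_sum_erase _ _ hS.hr).symm
  have hwr := hw1 r hS.hr
  have hq4 : 4 ≤ q := by
    have h1 := exs_erase (G := G) (k := k - 1) (X := Y) hlR
    rw [hE] at h1
    obtain ⟨E', hE'⟩ : ∃ E', exs G (k - 1) Y ((T.erase r).erase l) = E' := ⟨_, rfl⟩
    rw [hE'] at h1
    have h2 : ((T.erase r).erase l).card * 2 ≤
        ∑ t ∈ (T.erase r).erase l, ((nb G Fs t).card + ((nb G Y t).card - (k - 1))) := by
      rw [← smul_eq_mul, ← Finset.sum_const]
      exact Finset.sum_le_sum fun t ht => hG3 t (mem_erase.1 ht).2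
    rw [Finset.sum_add_distrib] at h2
    have h3 : ∑ t ∈ (T.erase r).erase l, ((nb G Y t).card - (k - 1)) = E' := hE'
    rw [h3] at h2
    have h4 := Finset.card_erase_add_one hlR
    have h5 : ∑ t ∈ T.erase r, (nb G Fs t).card =
        (nb G Fs l).card + ∑ t ∈ (T.erase r).erase l, (nb G Fs t).card :=
      (Finset.add_sum_erase _ _ hlR).symm
    have h6 := hw1 l hlT
    have h7 := hS.low l hl
    have h8 := A.mc.low0 hYX hYne hS
    have h9 := hdegY l (hTY hlT)
    rw [ho] at h7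
    have h10 : E' ≤ h := by
      by_cases e : 2 * p2 ≤ 1
      · have h11 := h8 (by rw [hp2]; exact e) l hl
        rw [ho] at h11
        omega
      · omega
    omega
  have hE1 : E ≤ h := by
    obtain ⟨g1, g2⟩ := A.mc.star5 hYX hYne hps4 hS (by omega) htau
    rw [ho] at g1
    rw [hE, hh] at g2
    by_contra hcon
    have h1 : 2 * p2 ≤ 1 := by omega
    have h8 := A.mc.low0 hYX hYne hS (by rw [hp2]; exact h1)
    have h2 : (nb Gᶜ T r).card * 1 ≤ ∑ l ∈ nb Gᶜ T r, ((nb G Y l).card - (k - 1)) := by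
      rw [← smul_eq_mul, ← Finset.sum_const]
      refine Finset.sum_le_sum fun l hl => ?_
      have h3 := h8 l hl
      rw [ho] at h3
      omega
    have h3 : ∑ l ∈ nb Gᶜ T r, ((nb G Y l).card - (k - 1)) ≤ E := by
      rw [← hE]
      unfold exs
      refine Finset.sum_le_sum_of_subset ?_
      intro z hz
      exact mem_erase.2 ⟨fun e => ((SimpleGraph.compl_adj _ _ _).1 (mem_nb.1 hz).2).1 e.symm,
        (mem_nb.1 hz).1⟩
    omega
  have hSwE : 2 * k ≤ Sw + E + 1 := by
    have h2 : (T.erase r).card * 2 ≤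
        ∑ t ∈ T.erase r, ((nb G Fs t).card + ((nb G Y t).card - (k - 1))) := by
      rw [← smul_eq_mul, ← Finset.sum_const]
      exact Finset.sum_le_sum fun t ht => hG3 t ht
    rw [Finset.sum_add_distrib] at h2
    have h3 : ∑ t ∈ T.erase r, ((nb G Y t).card - (k - 1)) = E := hE
    rw [h3] at h2
    omega
  -- the outer neighbours of `x'` and `u'`
  have hout : (nb G Y x' \ T).card + (nb G Y u' \ T).card ≤ 2 := by
    have h1 : ∑ v ∈ Fs, (nb G T v).card = (nb G T x).card + ((nb G T x').card +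
        ((nb G T u).card + ((nb G T u').card + ∑ v ∈ (P.erase u).erase u', (nb G T v).card))) := by
      rw [hFs, Finset.sum_insert hxP, Finset.sum_insert hx'P, ← Finset.add_sum_erase _ _ S.hu,
        ← Finset.add_sum_erase (P.erase u) _ (mem_erase.2 ⟨S.huu.symm, S.hu'⟩)]
    have h2 : ∑ v ∈ (P.erase u).erase u', (nb G T v).card ≤ exs G k X ((P.erase u).erase u') := by
      rw [← hexP]
      exact Finset.sum_le_sum fun v _ => Finset.card_le_card (nb_mono hTY v)
    have h3 := Finset.card_le_card (nb_mono (G := G) hTY x)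
    have h4 := Finset.card_le_card (nb_mono (G := G) hTY u)
    have h5 : ∀ v : V, (nb G Y v \ T).card + (nb G T v).card = (nb G Y v).card := by
      intro v
      have h6 : nb G T v = nb G Y v ∩ T := by
        ext z
        rw [mem_nb, mem_inter, mem_nb]
        exact ⟨fun h => ⟨⟨hTY h.1, h.2⟩, h.1⟩, fun h => ⟨h.2, h.1.2⟩⟩
      rw [h6]
      exact Finset.card_sdiff_add_card_inter _ _
    have h7 := h5 x'
    have h8 := h5 u'
    omega
  -- an independent triple without `r`
  obtain ⟨W, hW⟩ : ∃ W, W = Fs ∪ T := ⟨_, rfl⟩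
  have hXW : X \ W = Y \ T := by
    ext v
    rw [mem_sdiff, hW, mem_union, mem_sdiff, ← hFY, mem_union]
    constructor
    · rintro ⟨h1 | h1, h2⟩
      · exact absurd (Or.inl h1) h2
      · exact ⟨h1, fun h3 => h2 (Or.inr h3)⟩
    · rintro ⟨h1, h2⟩
      exact ⟨Or.inr h1, fun h3 => h3.elim (fun h4 => (Finset.disjoint_left.1 hFd) h4 h1) h2⟩
  have hWX : W ⊆ X := by
    rw [hW]
    exact Finset.union_subset hFX hTX
  have halT := hS.alT
  have hal2 : al G (X \ W) + 2 = al G X := by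
    rw [hXW]
    omega
  have hne : (X \ W).Nonempty := by
    rw [hXW, Finset.nonempty_iff_ne_empty]
    intro h0
    rw [h0, al_empty] at halT
    have h1 := le_al (G := G) (X := Y) (I := {r, l}) (by
      intro z hz
      rw [mem_insert, mem_singleton] at hz
      rcases hz with e | e
      · rw [e]
        exact hTY hS.hr
      · rw [e]
        exact hTY hlT) (indep_pair ((SimpleGraph.compl_adj _ _ _).1 (mem_nb.1 hl).2).2)
    rw [Finset.card_pair hlr.symm] at h1
    omega
  have hrW : r ∈ W := by rw [hW]; exact mem_union_right _ hS.hr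
  obtain ⟨J, hJ, hJi, hJc, hrJ⟩ := A.mc.tri hWX hne hal2 hrW ⟨x, mem_erase.2
    ⟨fun e => hxT (e ▸ hS.hr), by rw [hW]; exact mem_union_left _ hxF⟩⟩
  have ht1 : TauGe G (X \ W) (k - 1) := by
    rw [hXW]
    refine A.mc.tau1 (Finset.sdiff_subset.trans hYX) ?_ ?_
    · intro h0
      exact hYne (Finset.Subset.antisymm hYX (h0 ▸ Finset.sdiff_subset))
    · rw [hp2]
      have h1 : h ≤ 1 := by omega
      omega
  have hsum3 := A.mc.trisum hWX hal2 ht1 hJ hJi hJc
  rw [hXW] at hsum3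
  have hJs : J ⊆ (J ∩ T.erase r) ∪ ((J ∩ P) ∪ (J ∩ {x, x'})) := by
    intro z hz
    have h1 := hJ hz
    rw [hW, mem_union, hFs, mem_insert, mem_insert] at h1
    rw [mem_union, mem_union, mem_inter, mem_inter, mem_inter, mem_erase, mem_insert,
      mem_singleton]
    rcases h1 with (h1 | h1 | h1) | h1
    · exact Or.inr (Or.inr ⟨hz, Or.inl h1⟩)
    · exact Or.inr (Or.inr ⟨hz, Or.inr h1⟩)
    · exact Or.inr (Or.inl ⟨hz, h1⟩)
    · exact Or.inl ⟨hz, fun e => hrJ (e ▸ hz), h1⟩
  have hnbs : ∀ z : V, nb G (Y \ T) z = nb G Y z \ T := by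
    intro z
    ext w
    rw [mem_nb, mem_sdiff, mem_sdiff, mem_nb]
    tauto
  have c1 : ∑ z ∈ J ∩ T.erase r, (nb G (Y \ T) z).card ≤ 2 := by
    refine clq_sum_le hJi hS.clq _ ?_
    intro z hz
    have hzT := (mem_erase.1 hz).2
    rw [hnbs]
    have h1 := deg_split (G := G) hTY hzT
    have h2 := hS.nbc_le hz
    have h3 : (nb G Y z).card - (k - 1) ≤ E := by
      rw [← hE]
      unfold exs
      exact Finset.single_le_sum (f := fun v => (nb G Y v).card - (k - 1))
        (fun v _ => Nat.zero_le _) hz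
    omega
  have c2 : ∑ z ∈ J ∩ P, (nb G (Y \ T) z).card ≤ (nb G Y u' \ T).card + 1 := by
    refine clq_sum_le hJi F.hPq _ ?_
    intro z hz
    rw [hnbs]
    by_cases e1 : z = u
    · have h1 : nb G Y z \ T = ∅ := by
        rw [e1, Finset.sdiff_eq_empty_iff_subset, hT]
        exact Finset.subset_union_right
      rw [h1, Finset.card_empty]
      exact Nat.zero_le _
    · by_cases e2 : z = u'
      · rw [e2]
        omega
      · have h1 : z ∈ (P.erase u).erase u' := mem_erase.2 ⟨e2, mem_erase.2 ⟨e1, hz⟩⟩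
        have h2 : (nb G Y z).card ≤ ∑ v ∈ (P.erase u).erase u', (nb G Y v).card :=
          Finset.single_le_sum (f := fun v => (nb G Y v).card) (fun v _ => Nat.zero_le _) h1
        have h3 := Finset.card_le_card (Finset.sdiff_subset : nb G Y z \ T ⊆ nb G Y z)
        omega
  have c3 : ∑ z ∈ J ∩ {x, x'}, (nb G (Y \ T) z).card ≤ (nb G Y x' \ T).card := by
    refine clq_sum_le hJi ?_ _ ?_
    · intro v hv w hw hvw
      rw [mem_insert, mem_singleton] at hv hw
      rcases hv with hv | hv <;> rcases hw with hw | hw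
      · exact absurd (hv.trans hw.symm) hvw
      · rw [hv, hw]
        exact S.adj
      · rw [hv, hw]
        exact S.adj.symm
      · exact absurd (hv.trans hw.symm) hvw
    · intro z hz
      rw [hnbs]
      rw [mem_insert, mem_singleton] at hz
      rcases hz with e | e
      · have h1 : nb G Y z \ T = ∅ := by
          rw [e, Finset.sdiff_eq_empty_iff_subset, hT]
          exact Finset.subset_union_left
        rw [h1, Finset.card_empty]
        exact Nat.zero_le _
      · rw [e]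
  have c4 : ∑ z ∈ J, (nb G (Y \ T) z).card ≤ ∑ z ∈ J ∩ T.erase r, (nb G (Y \ T) z).card +
      (∑ z ∈ J ∩ P, (nb G (Y \ T) z).card + ∑ z ∈ J ∩ {x, x'}, (nb G (Y \ T) z).card) := by
    refine (Finset.sum_le_sum_of_subset hJs).trans ((sum_un_le _ _ _).trans ?_)
    exact Nat.add_le_add_left (sum_un_le _ _ _) _
  omega

/-- not all bases are of this type -/
theorem AllB.false {k : ℕ} {X P : Finset V} (A : AllB G k X) (F : Fr G k X P) : False := by
  obtain ⟨c, hc, hd⟩ := F.hex
  obtain ⟨x, x', u, u', S⟩ := A.ty P F c hc hd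
  have nxu : ¬ G.Adj x u := fun h => ((S.mx u S.hu).1 h).1 rfl
  have nx'u : ¬ G.Adj x' u := fun h => ((S.mx' u S.hu).1 h).1 rfl
  have nxu' : ¬ G.Adj x u' := fun h => ((S.mx u' S.hu').1 h).2 rfl
  have nx'u' : ¬ G.Adj x' u' := fun h => ((S.mx' u' S.hu').1 h).2 rfl
  obtain ⟨a, a', h, s, hA, hA', hh, hs, hsev, -, -⟩ := F.sevN S.B S.hu S.hu' S.huu nxu nx'u'
  rw [ad_one S.adj] at hsev
  rcases Nat.eq_zero_or_pos a with e | e
  · exact A.main F S (by omega)
  · refine A.main F S.symm ?_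
    rw [hb_comm X P x' x]
    omega

end Pool.Agent.TwoDens.TS
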