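import Pool.Agent.TKS.C2A
import Pool.Agent.TKS.CB

/-!
The local types of a vertex of degree `k` if every frame has an outside vertex adjacent to all
its vertices of degree `k`.
-/

open Finset

namespace Pool.Agent.TwoDens.TS

open Pool.Agent.TwoDens Pool.Agent.TwoDens.RK Pool.Agent.TwoDens.DD

variable {V : Type*} [DecidableEq V] {G : SimpleGraph V} [DecidableRel G.Adj]

/-- the vertices outside `Q` and four vertices -/
def hd4 (X Q : Finset V) (w1 w2 w3 w4 : V) : Finset V := (X \ Q) \ {w1, w2, w3, w4}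

omit [DecidableRel G.Adj] in
theorem mem_hd4 {X Q : Finset V} {w1 w2 w3 w4 v : V} :
    v ∈ hd4 X Q w1 w2 w3 w4 ↔ v ∈ X ∧ v ∉ Q ∧ v ≠ w1 ∧ v ≠ w2 ∧ v ≠ w3 ∧ v ≠ w4 := by
  unfold hd4
  simp only [mem_sdiff, mem_insert, mem_singleton, not_or]
  tauto

/-- the closed neighbourhood of a vertex of `Q` is the join of the clique `Q` and the path
`w1 w2 w3 w4` -/
structure TyP4 (G : SimpleGraph V) [DecidableRel G.Adj] (k : ℕ) (X Q : Finset V)
    (w1 w2 w3 w4 : V) : Prop where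
  hQX : Q ⊆ X
  hQc : Q.card + 3 = k
  hQq : Clq G Q
  dQ : ∀ q ∈ Q, (nb G X q).card = k
  h1 : w1 ∈ X
  h2 : w2 ∈ X
  h3 : w3 ∈ X
  h4 : w4 ∈ X
  q1 : w1 ∉ Q
  q2 : w2 ∉ Q
  q3 : w3 ∉ Q
  q4 : w4 ∉ Q
  aQ1 : ∀ q ∈ Q, G.Adj w1 q
  aQ2 : ∀ q ∈ Q, G.Adj w2 q
  aQ3 : ∀ q ∈ Q, G.Adj w3 q
  aQ4 : ∀ q ∈ Q, G.Adj w4 q
  a12 : G.Adj w1 w2
  a23 : G.Adj w2 w3
  a34 : G.Adj w3 w4
  e13 : w1 ≠ w3
  e14 : w1 ≠ w4
  e24 : w2 ≠ w4
  m13 : ¬ G.Adj w1 w3
  m14 : ¬ G.Adj w1 w4
  m24 : ¬ G.Adj w2 w4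
  d1 : k < (nb G X w1).card
  d2 : k < (nb G X w2).card
  d3 : k < (nb G X w3).card
  d4 : k < (nb G X w4).card
  psX : ps G k X = -2
  psH : ps G k (hd4 X Q w1 w2 w3 w4) = 0
  alH : al G (hd4 X Q w1 w2 w3 w4) + 1 = al G X
  tau : TauGe G (hd4 X Q w1 w2 w3 w4) k
  s13 : (nb G (hd4 X Q w1 w2 w3 w4) w1).card + (nb G (hd4 X Q w1 w2 w3 w4) w3).card = k
  s24 : (nb G (hd4 X Q w1 w2 w3 w4) w2).card + (nb G (hd4 X Q w1 w2 w3 w4) w4).card = k

/-- the closed neighbourhood of a vertex of `Q` of degree `k` is the join of the clique `Q` and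
three pairwise nonadjacent vertices of degree more than `k` -/
structure TyT3 (G : SimpleGraph V) [DecidableRel G.Adj] (k : ℕ) (X Q : Finset V)
    (y1 y2 y3 : V) : Prop where
  hQX : Q ⊆ X
  hQc : Q.card + 2 = k
  hQq : Clq G Q
  hex : ∃ c ∈ Q, (nb G X c).card = k
  h1 : y1 ∈ X
  h2 : y2 ∈ X
  h3 : y3 ∈ X
  q1 : y1 ∉ Q
  q2 : y2 ∉ Q
  q3 : y3 ∉ Q
  aQ1 : ∀ q ∈ Q, G.Adj y1 q
  aQ2 : ∀ q ∈ Q, G.Adj y2 q
  aQ3 : ∀ q ∈ Q, G.Adj y3 q
  e12 : y1 ≠ y2
  e13 : y1 ≠ y3
  e23 : y2 ≠ y3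
  m12 : ¬ G.Adj y1 y2
  m13 : ¬ G.Adj y1 y3
  m23 : ¬ G.Adj y2 y3
  d1 : k < (nb G X y1).card
  d2 : k < (nb G X y2).card
  d3 : k < (nb G X y3).card

/-- the base `c` with outer vertices `x, x'` missing both exactly `u, u'`, all four of degree
more than `k` -/
structure TyC4 (G : SimpleGraph V) [DecidableRel G.Adj] (k : ℕ) (X P : Finset V)
    (c x x' u u' : V) : Prop extends TyB G k X P c x x' u u' where
  dx : k < (nb G X x).card
  dx' : k < (nb G X x').card

/-- a minimal counterexample for `k = 5, 6` such that every frame has an outside vertex adjacent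
to all its vertices of degree `k` -/
structure AllH (G : SimpleGraph V) [DecidableRel G.Adj] (k : ℕ) (X : Finset V) : Prop where
  mc : MC G k X
  h5 : 5 ≤ k
  h6 : k ≤ 6
  fr : ∀ P ⊆ X, P.card + 1 = k → Clq G P → (∃ c ∈ P, (nb G X c).card = k) → Fr G k X P
  ns : ∀ P, Fr G k X P → ∃ a ∈ X \ P, ∀ c ∈ P, (nb G X c).card = k → G.Adj a c
  n1 : ∀ P, Fr G k X P → ∀ a ∈ X \ P, ∀ b ∈ P, ¬ G.Adj a b → (∀ v ∈ P, v ≠ b → G.Adj a v) →
    ∀ c p u, Base G k X P c a p → u ∈ P → u ≠ b → ¬ G.Adj p u → (nb G X u).card = k → False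
  k23 : ∀ P, Fr G k X P → ∀ c a p, Base G k X P c a p → G.Adj a p →
    ∀ u ∈ P, ∀ v ∈ P, ∀ w ∈ P, u ≠ v → u ≠ w → v ≠ w →
    ¬ G.Adj a u → ¬ G.Adj a v → ¬ G.Adj a w → ¬ G.Adj p u →
    (nb Gᶜ P a).card ≤ 3 → (nb Gᶜ P p).card ≤ 3 → ps G k (hb X P a p) = 0 →
    (nb G (hb X P a p) a).card + 3 = k → (nb G (hb X P a p) p).card + 3 = k →
    (nb G (hb X P a p) u).card = 3 → (nb G (hb X P a p) v).card ≤ 3 →
    (nb G (hb X P a p) w).card ≤ 3 → False

/-- the local types of a base `c` of `P` with outer vertices `x, x'` -/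
def Loc (G : SimpleGraph V) [DecidableRel G.Adj] (k : ℕ) (X P : Finset V) (x x' : V) : Prop :=
  (∃ b ∈ P, TyT3 G k X (P.erase b) b x x') ∨
  (∃ u ∈ P, ∃ v ∈ P, u ≠ v ∧ (TyP4 G k X ((P.erase u).erase v) u v x x' ∨
    TyP4 G k X ((P.erase u).erase v) u v x' x ∨ TyP4 G k X ((P.erase u).erase v) x v u x'))

omit [DecidableRel G.Adj] in
theorem hd4_f1 {X P : Finset V} {x x' u v : V} (hu : u ∈ P) (hv : v ∈ P) :
    hd4 X ((P.erase u).erase v) u v x x' = hb X P x x' := by
  ext z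
  rw [mem_hd4, mem_hb, mem_erase, mem_erase]
  constructor
  · rintro ⟨h1, h2, h3, h4, h5, h6⟩
    exact ⟨h1, fun h => h2 ⟨h4, h3, h⟩, h5, h6⟩
  · rintro ⟨h1, h2, h3, h4⟩
    exact ⟨h1, fun h => h2 h.2.2, fun h => h2 (h ▸ hu), fun h => h2 (h ▸ hv), h3, h4⟩

omit [DecidableRel G.Adj] in
theorem hd4_f3 {X P : Finset V} {x x' u v : V} (hu : u ∈ P) (hv : v ∈ P) :
    hd4 X ((P.erase u).erase v) x v u x' = hb X P x x' := by
  ext z
  rw [mem_hd4, mem_hb, mem_erase, mem_erase]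
  constructor
  · rintro ⟨h1, h2, h3, h4, h5, h6⟩
    exact ⟨h1, fun h => h2 ⟨h4, h5, h⟩, h3, h6⟩
  · rintro ⟨h1, h2, h3, h4⟩
    exact ⟨h1, fun h => h2 h.2.2, h3, fun h => h2 (h ▸ hv), fun h => h2 (h ▸ hu), h4⟩

omit [DecidableRel G.Adj] in
theorem hd4_rev {X Q : Finset V} {w1 w2 w3 w4 : V} :
    hd4 X Q w1 w2 w3 w4 = hd4 X Q w4 w3 w2 w1 := by
  ext z
  rw [mem_hd4, mem_hd4]
  tauto

theorem TyP4.rev {k : ℕ} {X Q : Finset V} {w1 w2 w3 w4 : V} (T : TyP4 G k X Q w1 w2 w3 w4) :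
    TyP4 G k X Q w4 w3 w2 w1 where
  hQX := T.hQX
  hQc := T.hQc
  hQq := T.hQq
  dQ := T.dQ
  h1 := T.h4
  h2 := T.h3
  h3 := T.h2
  h4 := T.h1
  q1 := T.q4
  q2 := T.q3
  q3 := T.q2
  q4 := T.q1
  aQ1 := T.aQ4
  aQ2 := T.aQ3
  aQ3 := T.aQ2
  aQ4 := T.aQ1
  a12 := T.a34.symm
  a23 := T.a23.symm
  a34 := T.a12.symm
  e13 := T.e24.symm
  e14 := T.e14.symm
  e24 := T.e13.symm
  m13 := fun h => T.m24 h.symm
  m14 := fun h => T.m14 h.symm
  m24 := fun h => T.m13 h.symm
  d1 := T.d4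
  d2 := T.d3
  d3 := T.d2
  d4 := T.d1
  psX := T.psX
  psH := by rw [← hd4_rev]; exact T.psH
  alH := by rw [← hd4_rev]; exact T.alH
  tau := by rw [← hd4_rev]; exact T.tau
  s13 := by rw [← hd4_rev, add_comm]; exact T.s24
  s24 := by rw [← hd4_rev, add_comm]; exact T.s13

omit [DecidableEq V] in
theorem TyT3.swap23 {k : ℕ} {X Q : Finset V} {y1 y2 y3 : V} (T : TyT3 G k X Q y1 y2 y3) :
    TyT3 G k X Q y1 y3 y2 where
  hQX := T.hQX
  hQc := T.hQc
  hQq := T.hQq
  hex := T.hex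
  h1 := T.h1
  h2 := T.h3
  h3 := T.h2
  q1 := T.q1
  q2 := T.q3
  q3 := T.q2
  aQ1 := T.aQ1
  aQ2 := T.aQ3
  aQ3 := T.aQ2
  e12 := T.e13
  e13 := T.e12
  e23 := T.e23.symm
  m12 := T.m13
  m13 := T.m12
  m23 := fun h => T.m23 h.symm
  d1 := T.d1
  d2 := T.d3
  d3 := T.d2

omit [DecidableEq V] in
theorem TyT3.swap12 {k : ℕ} {X Q : Finset V} {y1 y2 y3 : V} (T : TyT3 G k X Q y1 y2 y3) :
    TyT3 G k X Q y2 y1 y3 where
  hQX := T.hQX
  hQc := T.hQc
  hQq := T.hQq
  hex := T.hex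
  h1 := T.h2
  h2 := T.h1
  h3 := T.h3
  q1 := T.q2
  q2 := T.q1
  q3 := T.q3
  aQ1 := T.aQ2
  aQ2 := T.aQ1
  aQ3 := T.aQ3
  e12 := T.e12.symm
  e13 := T.e23
  e23 := T.e13
  m12 := fun h => T.m12 h.symm
  m13 := T.m23
  m23 := T.m13
  d1 := T.d2
  d2 := T.d1
  d3 := T.d3

theorem TyC4.symm {k : ℕ} {X P : Finset V} {c x x' u u' : V} (S : TyC4 G k X P c x x' u u') :
    TyC4 G k X P c x' x u' u :=
  { S.toTyB.symm with
    dx := S.dx'
    dx' := S.dx }

theorem Loc.symm {k : ℕ} {X P : Finset V} {x x' : V} (h : Loc G k X P x x') :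
    Loc G k X P x' x := by
  rcases h with ⟨b, hb, h⟩ | ⟨u, hu, v, hv, huv, h | h | h⟩
  · exact Or.inl ⟨b, hb, h.swap23⟩
  · exact Or.inr ⟨u, hu, v, hv, huv, Or.inr (Or.inl h)⟩
  · exact Or.inr ⟨u, hu, v, hv, huv, Or.inl h⟩
  · refine Or.inr ⟨v, hv, u, hu, huv.symm, Or.inr (Or.inr ?_)⟩
    rw [Finset.erase_right_comm]
    exact h.rev

/-- a vertex missed by both outer vertices has degree more than `k` -/
theorem AllH.big {k : ℕ} {X P : Finset V} (A : AllH G k X) {c y y' : V}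
    (B : Base G k X P c y y') {v : V} (hv : v ∈ P) (h1 : ¬ G.Adj y v) (h2 : ¬ G.Adj y' v) :
    k < (nb G X v).card := by
  have F := A.fr P B.hP B.hPc B.hPq ⟨c, B.hc, B.deg⟩
  obtain ⟨a, ha, hall⟩ := A.ns P F
  have h3 := hall c B.hc B.deg
  have h4 := F.deg_ge (F.hP hv)
  rcases Nat.lt_or_ge k (nb G X v).card with h5 | h5
  · exact h5
  · exfalso
    have h6 := hall v hv (by omega)
    by_cases e : a = y
    · exact h1 (e ▸ h6)
    · by_cases e' : a = y'
      · exact h2 (e' ▸ h6)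
      · exact B.na ha e e' h3.symm

/-- a base of the clique `Q` with two further vertices -/
theorem base_two {k : ℕ} {X Q : Finset V} (hQ : Q ⊆ X) (hQc : Q.card + 3 = k) (hQq : Clq G Q)
    {c : V} (hc : c ∈ Q) (hd : (nb G X c).card = k) {y z w w' : V} (hy : y ∈ X) (hz : z ∈ X)
    (hw : w ∈ X) (hw' : w' ∈ X) (yQ : y ∉ Q) (zQ : z ∉ Q) (wQ : w ∉ Q) (wQ' : w' ∉ Q)
    (hyz : G.Adj y z) (ay : ∀ q ∈ Q, G.Adj y q) (az : ∀ q ∈ Q, G.Adj z q) (wy : w ≠ y)
    (wz : w ≠ z) (wy' : w' ≠ y) (wz' : w' ≠ z) (hww : w ≠ w') (cw : G.Adj c w)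
    (cw' : G.Adj c w') : Base G k X (insert y (insert z Q)) c w w' := by
  have hyz' : y ≠ z := hyz.ne
  have n1 : y ∉ insert z Q := by
    rw [mem_insert]
    rintro (h | h)
    · exact hyz' h
    · exact yQ h
  have hq1 : Clq G (insert z Q) := by
    intro s hs t ht hst
    rw [mem_insert] at hs ht
    rcases hs with rfl | hs <;> rcases ht with rfl | ht
    · exact absurd rfl hst
    · exact az t ht
    · exact (az s hs).symm
    · exact hQq s hs t ht hst
  have hq2 : Clq G (insert y (insert z Q)) := by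
    have h1 : ∀ q ∈ insert z Q, G.Adj y q := by
      intro q hq
      rw [mem_insert] at hq
      rcases hq with rfl | hq
      · exact hyz
      · exact ay q hq
    intro s hs t ht hst
    rw [mem_insert] at hs ht
    rcases hs with rfl | hs <;> rcases ht with rfl | ht
    · exact absurd rfl hst
    · exact h1 t ht
    · exact (h1 s hs).symm
    · exact hq1 s hs t ht hst
  refine base_mk2 (Finset.insert_subset hy (Finset.insert_subset hz hQ)) ?_ hq2
    (mem_insert_of_mem (mem_insert_of_mem hc)) hd ?_ ?_ hww cw cw'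
  · rw [Finset.card_insert_of_notMem n1, Finset.card_insert_of_notMem zQ]
    omega
  · rw [mem_sdiff, mem_insert, mem_insert]
    exact ⟨hw, fun h => h.elim wy (fun h => h.elim wz wQ)⟩
  · rw [mem_sdiff, mem_insert, mem_insert]
    exact ⟨hw', fun h => h.elim wy' (fun h => h.elim wz' wQ')⟩

/-- a base of the clique `Q` with one further vertex -/
theorem base_one {k : ℕ} {X Q : Finset V} (hQ : Q ⊆ X) (hQc : Q.card + 2 = k) (hQq : Clq G Q)
    {c : V} (hc : c ∈ Q) (hd : (nb G X c).card = k) {y w w' : V} (hy : y ∈ X)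
    (hw : w ∈ X) (hw' : w' ∈ X) (yQ : y ∉ Q) (wQ : w ∉ Q) (wQ' : w' ∉ Q)
    (ay : ∀ q ∈ Q, G.Adj y q) (wy : w ≠ y) (wy' : w' ≠ y) (hww : w ≠ w') (cw : G.Adj c w)
    (cw' : G.Adj c w') : Base G k X (insert y Q) c w w' := by
  have hq1 : Clq G (insert y Q) := by
    intro s hs t ht hst
    rw [mem_insert] at hs ht
    rcases hs with rfl | hs <;> rcases ht with rfl | ht
    · exact absurd rfl hst
    · exact ay t ht
    · exact (ay s hs).symm
    · exact hQq s hs t ht hst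
  refine base_mk2 (Finset.insert_subset hy hQ) ?_ hq1 (mem_insert_of_mem hc) hd ?_ ?_ hww cw cw'
  · rw [Finset.card_insert_of_notMem yQ]
    omega
  · rw [mem_sdiff, mem_insert]
    exact ⟨hw, fun h => h.elim wy wQ⟩
  · rw [mem_sdiff, mem_insert]
    exact ⟨hw', fun h => h.elim wy' wQ'⟩

/-- three common missing vertices of two adjacent outer vertices -/
theorem AllH.three {k : ℕ} {X P : Finset V} (A : AllH G k X) (F : Fr G k X P) {c a p : V}
    (B : Base G k X P c a p) (hap : G.Adj a p) {D : Finset V}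
    (mDa : ∀ v, v ∈ D ↔ v ∈ P ∧ ¬ G.Adj a v) (mDp : ∀ v, v ∈ D ↔ v ∈ P ∧ ¬ G.Adj p v)
    (hDd : ∀ v ∈ D, k < (nb G X v).card) {u1 u2 : V} (hu1 : u1 ∈ D) (hu2 : u2 ∈ D)
    (h12 : u1 ≠ u2) (hJ3 : 3 ≤ D.card) : False := by
  have ha' := mem_sdiff.1 B.hx
  have hp' := mem_sdiff.1 B.hx'
  have hDa : nb Gᶜ P a = D := by
    ext v
    rw [mDa]
    exact F.mem_nbc ha'.2
  have hDp : nb Gᶜ P p = D := by
    ext v
    rw [mDp]
    exact F.mem_nbc hp'.2
  have hDP : D ⊆ P := fun v hv => ((mDa v).1 hv).1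
  have e0 : ad G a p = 1 := ad_one hap
  -- sums for a pair
  have key : ∀ v ∈ D, ∀ w ∈ D, v ≠ w →
      (nb G (hb X P a p) a).card + (nb G (hb X P a p) v).card = k ∧
      (nb G (hb X P a p) p).card + (nb G (hb X P a p) w).card = k ∧
      ps G k (hb X P a p) = 0 ∧ exs G k X ((P.erase v).erase w) ≤ 1 ∧ D.card ≤ 3 := by
    intro v hv w hw hvw
    have hv1 := (mDa v).1 hv
    have hv2 := (mDp v).1 hv
    have hw1 := (mDa w).1 hw
    have hw2 := (mDp w).1 hw
    obtain ⟨A1, A', h, s, hA, hA', hh, _, hs, _, _⟩ := F.sevN B hv1.1 hw1.1 hvw hv1.2 hw2.2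
    have h5 := exs_two (u := v) (u' := w) hDP hDd
    clear mDa mDp hDd
    have t1 : A1 = 0 := by omega
    have t2 : A' = 0 := by omega
    have t3 : h = 0 := by omega
    refine ⟨by omega, by omega, ?_, by omega, by omega⟩
    rw [hh, t3]
    norm_num
  obtain ⟨x1, x2, x3, x4, x5⟩ := key u1 hu1 u2 hu2 h12
  obtain ⟨u3, hu3, n31, n32⟩ : ∃ u3 ∈ D, u3 ≠ u1 ∧ u3 ≠ u2 := by
    by_contra hcon
    push Not at hcon
    have g1 : D ⊆ {u1, u2} := by
      intro z hz
      rw [mem_insert, mem_singleton]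
      by_cases e : z = u1
      · exact Or.inl e
      · exact Or.inr (hcon z hz e)
    have g2 := Finset.card_le_card g1
    rw [Finset.card_pair h12] at g2
    omega
  have card3 : ∀ v ∈ D, ∀ w ∈ D, ∀ z ∈ D, v ≠ w → v ≠ z → w ≠ z →
      (nb G (hb X P a p) v).card = 3 := by
    intro v hv w hw z hz n1 n2 n3
    obtain ⟨_, _, _, y4, _⟩ := key w hw z hz n3
    have g1 := exs_mem (G := G) (k := k) (X := X) (hDP hv) n1 n2
    have k1 := F.nbH B (hDP hv)
    rw [ad_zero (fun h => ((mDa v).1 hv).2 h.symm), ad_zero (fun h => ((mDp v).1 hv).2 h.symm)]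
      at k1
    have l1 := hDd v hv
    omega
  have w1 := card3 u1 hu1 u2 hu2 u3 hu3 h12 (Ne.symm n31) (Ne.symm n32)
  have w2 := card3 u2 hu2 u1 hu1 u3 hu3 (Ne.symm h12) (Ne.symm n32) (Ne.symm n31)
  have w3 := card3 u3 hu3 u1 hu1 u2 hu2 n31 n32 h12
  exact A.k23 P F c a p B hap u1 ((mDa u1).1 hu1).1 u2 ((mDa u2).1 hu2).1 u3 ((mDa u3).1 hu3).1
    h12 (Ne.symm n31) (Ne.symm n32) ((mDa u1).1 hu1).2 ((mDa u2).1 hu2).2 ((mDa u3).1 hu3).2
    ((mDp u1).1 hu1).2 (by rw [hDa]; omega) (by rw [hDp]; omega) x3 (by omega) (by omega)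
    w1 w2.le w3.le

/-- the path through two vertices of the clique and two adjacent outer vertices, the second
outer vertex misses both -/
theorem AllH.path1 {k : ℕ} {X P : Finset V} (A : AllH G k X) (F : Fr G k X P) {c a p : V}
    (B : Base G k X P c a p) (hap : G.Adj a p) {u u' : V} (hu : u ∈ P) (hu' : u' ∈ P)
    (huu : u ≠ u') (au : ¬ G.Adj a u) (au' : ¬ G.Adj a u') (pu : G.Adj p u)
    (pu' : ¬ G.Adj p u') (du : k < (nb G X u).card) (du' : k < (nb G X u').card)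
    (ha : ∀ v ∈ P, v ≠ u → v ≠ u' → G.Adj a v) (hp : ∀ v ∈ P, v ≠ u' → G.Adj p v)
    (hq : ∀ v ∈ P, v ≠ u → v ≠ u' → (nb G X v).card = k)
    (psX : ps G k X = -2) (psH : ps G k (hb X P a p) = 0)
    (s1 : (nb G (hb X P a p) a).card + (nb G (hb X P a p) u).card = k)
    (s2 : (nb G (hb X P a p) p).card + (nb G (hb X P a p) u').card = k) :
    TyP4 G k X ((P.erase u').erase u) u' u p a := by
  have ha' := mem_sdiff.1 B.hx
  have hp' := mem_sdiff.1 B.hx'
  obtain ⟨Q, hQ⟩ : ∃ Q, Q = (P.erase u').erase u := ⟨_, rfl⟩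
  have mQ : ∀ v, v ∈ Q ↔ v ≠ u ∧ v ≠ u' ∧ v ∈ P := by
    intro v
    rw [hQ, mem_erase, mem_erase]
  have hQP : Q ⊆ P := fun v hv => ((mQ v).1 hv).2.2
  have hQX : Q ⊆ X := hQP.trans B.hP
  have hQc : Q.card + 3 = k := by
    have h1 := B.hPc
    have h2 : ((P.erase u').erase u).card = P.card - 1 - 1 := by
      rw [Finset.card_erase_of_mem (mem_erase.2 ⟨huu, hu⟩), Finset.card_erase_of_mem hu']
    have h3 : 2 ≤ P.card := by
      have := A.h5
      omega
    rw [hQ]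
    omega
  have hQq : Clq G Q := fun s hs t ht hst => B.hPq s (hQP hs) t (hQP ht) hst
  have uQ : u ∉ Q := fun h => ((mQ u).1 h).1 rfl
  have uQ' : u' ∉ Q := fun h => ((mQ u').1 h).2.1 rfl
  have aQ : a ∉ Q := fun h => ha'.2 (hQP h)
  have pQ : p ∉ Q := fun h => hp'.2 (hQP h)
  have Qa : ∀ q ∈ Q, G.Adj a q := fun q hq' =>
    ha q ((mQ q).1 hq').2.2 ((mQ q).1 hq').1 ((mQ q).1 hq').2.1
  have Qp : ∀ q ∈ Q, G.Adj p q := fun q hq' => hp q ((mQ q).1 hq').2.2 ((mQ q).1 hq').2.1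
  have Qu : ∀ q ∈ Q, G.Adj u q := fun q hq' =>
    B.hPq u hu q (hQP hq') (Ne.symm ((mQ q).1 hq').1)
  have Qu' : ∀ q ∈ Q, G.Adj u' q := fun q hq' =>
    B.hPq u' hu' q (hQP hq') (Ne.symm ((mQ q).1 hq').2.1)
  have hcQ : c ∈ Q := (mQ c).2 ⟨fun h => au (h ▸ B.ax.symm), fun h => au' (h ▸ B.ax.symm), B.hc⟩
  have eau : a ≠ u := fun h => ha'.2 (h ▸ hu)
  have eau' : a ≠ u' := fun h => ha'.2 (h ▸ hu')
  have epu : p ≠ u := fun h => hp'.2 (h ▸ hu)
  have epu' : p ≠ u' := fun h => hp'.2 (h ▸ hu')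
  -- the frame with `a, p`
  have B2 : Base G k X (insert a (insert p Q)) c u u' :=
    base_two hQX hQc hQq hcQ B.deg ha'.1 hp'.1 (B.hP hu) (B.hP hu') aQ pQ uQ uQ' hap Qa Qp
      eau.symm epu.symm eau'.symm epu'.symm huu (Qu c hcQ).symm (Qu' c hcQ).symm
  have da : k < (nb G X a).card :=
    A.big B2 (mem_insert_self _ _) (fun h => au h.symm) (fun h => au' h.symm)
  have dp : k < (nb G X p).card := by
    rcases Nat.lt_or_ge k (nb G X p).card with h5 | h5
    · exact h5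
    · exfalso
      have F2 := A.fr _ B2.hP B2.hPc B2.hPq ⟨c, B2.hc, B2.deg⟩
      have h6 := F.deg_ge hp'.1
      refine A.n1 _ F2 u B2.hx a (mem_insert_self _ _) (fun h => au h.symm) ?_ c u' p B2
        (mem_insert_of_mem (mem_insert_self _ _)) hap.ne.symm (fun h => pu' h.symm) (by omega)
      intro v hv hva
      rw [mem_insert, mem_insert] at hv
      rcases hv with rfl | rfl | hv
      · exact absurd rfl hva
      · exact pu.symm
      · exact Qu v hv
  have hHH : hd4 X ((P.erase u').erase u) u' u p a = hb X P a p := by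
    rw [hd4_f1 hu' hu, hb_comm]
  have hbp := F.bp _ _ _ B
  rw [← hQ]
  rw [← hQ] at hHH
  exact {
    hQX := hQX
    hQc := hQc
    hQq := hQq
    dQ := fun q hq' => hq q ((mQ q).1 hq').2.2 ((mQ q).1 hq').1 ((mQ q).1 hq').2.1
    h1 := B.hP hu'
    h2 := B.hP hu
    h3 := hp'.1
    h4 := ha'.1
    q1 := uQ'
    q2 := uQ
    q3 := pQ
    q4 := aQ
    aQ1 := Qu'
    aQ2 := Qu
    aQ3 := Qp
    aQ4 := Qa
    a12 := B.hPq u' hu' u hu huu.symm
    a23 := pu.symm
    a34 := hap.symm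
    e13 := epu'.symm
    e14 := eau'.symm
    e24 := eau.symm
    m13 := fun h => pu' h.symm
    m14 := fun h => au' h.symm
    m24 := fun h => au h.symm
    d1 := du'
    d2 := du
    d3 := dp
    d4 := da
    psX := psX
    psH := by rw [hHH]; exact psH
    alH := by rw [hHH]; exact hbp.alH
    tau := by rw [hHH]; exact hbp.tau
    s13 := by rw [hHH, add_comm]; exact s2
    s24 := by rw [hHH, add_comm]; exact s1 }

/-- the case of two missing vertices -/
theorem AllH.cls2 {k : ℕ} {X P : Finset V} (A : AllH G k X) {c a p : V}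
    (B : Base G k X P c a p) (hall : ∀ v ∈ P, (nb G X v).card = k → G.Adj a v)
    {u1 u2 : V} (hu1 : u1 ∈ P) (hu2 : u2 ∈ P) (h12 : u1 ≠ u2) (h1 : ¬ G.Adj a u1)
    (h2 : ¬ G.Adj a u2) : Loc G k X P a p ∨ ∃ u u', TyC4 G k X P c a p u u' := by
  have F := A.fr P B.hP B.hPc B.hPq ⟨c, B.hc, B.deg⟩
  have ha' := mem_sdiff.1 B.hx
  have hp' := mem_sdiff.1 B.hx'
  have hpD := F.missP B.hx'
  obtain ⟨Da, hDa⟩ : ∃ D, D = nb Gᶜ P a := ⟨_, rfl⟩
  obtain ⟨Dp, hDp⟩ : ∃ D, D = nb Gᶜ P p := ⟨_, rfl⟩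
  have mDa : ∀ v, v ∈ Da ↔ v ∈ P ∧ ¬ G.Adj a v := fun v => by rw [hDa]; exact F.mem_nbc ha'.2
  have mDp : ∀ v, v ∈ Dp ↔ v ∈ P ∧ ¬ G.Adj p v := fun v => by rw [hDp]; exact F.mem_nbc hp'.2
  have hne : ∀ v ∈ P, (nb G X v).card ≠ k → k < (nb G X v).card := by
    intro v hv h
    have := F.deg_ge (F.hP hv)
    omega
  have hDak : ∀ v ∈ Da, k < (nb G X v).card := by
    intro v hv
    rw [mDa] at hv
    exact hne v hv.1 (fun h => hv.2 (hall v hv.1 h))
  have hu1D := (mDa u1).2 ⟨hu1, h1⟩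
  have hu2D := (mDa u2).2 ⟨hu2, h2⟩
  by_cases hcase : ∃ u' ∈ Dp, (nb G X u').card = k
  · -- a vertex of degree `k` in `Dp`
    exfalso
    obtain ⟨u', hu', hdk⟩ := hcase
    rw [mDp] at hu'
    have hu'a := hall u' hu'.1 hdk
    have n1 : u1 ≠ u' := fun h => h1 (h ▸ hu'a)
    have n2 : u2 ≠ u' := fun h => h2 (h ▸ hu'a)
    obtain ⟨A1, A', h, s, _, _, _, _, hs, hG, _⟩ := F.sevN B hu1 hu'.1 n1 h1 hu'.2
    have h6 := exs_mem (G := G) (k := k) (X := X) hu2 (Ne.symm h12) n2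
    have h7 := hDak u2 hu2D
    have h8 : ad G u' a = 1 := ad_one hu'a.symm
    have e0 : ad G a p = 0 := by omega
    have e1 : ad G u1 p = 0 := by omega
    have := hG e0 e1
    omega
  push Not at hcase
  have hDpk : ∀ v ∈ Dp, k < (nb G X v).card := by
    intro v hv
    exact hne v ((mDp v).1 hv).1 (hcase v hv)
  have hD : ∀ q ∈ P, (nb G X q).card = k → G.Adj a q ∧ G.Adj p q := by
    intro q hq hk
    constructor
    · exact hall q hq hk
    · by_contra hcon
      have := hDpk q ((mDp q).2 ⟨hq, hcon⟩)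
      omega
  by_cases hap : G.Adj a p
  · -- adjacent
    have e0 : ad G a p = 1 := ad_one hap
    -- everything of degree more than `k` outside `u, u'` counts
    have g2 : ∀ u ∈ Da, ∀ u' ∈ Dp, u ≠ u' → 1 ≤ ad G u p + ad G u' a →
        (∀ w ∈ P, (nb G X w).card = k ∨ w = u ∨ w = u') ∧ ps G k X = -2 ∧
        ps G k (hb X P a p) = 0 ∧ ad G u p + ad G u' a = 1 ∧
        (nb G (hb X P a p) a).card + (nb G (hb X P a p) u).card = k ∧
        (nb G (hb X P a p) p).card + (nb G (hb X P a p) u').card = k := by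
      intro u hu u' hu' huu had
      have hu0 := (mDa u).1 hu
      have hu0' := (mDp u').1 hu'
      obtain ⟨A1, A', h, s, hA, hA', hh, hx, hs, _, _⟩ :=
        F.sevN B hu0.1 hu0'.1 huu hu0.2 hu0'.2
      refine ⟨?_, ?_, ?_, by omega, by omega, by omega⟩
      · intro w hw
        by_contra hcon
        push Not at hcon
        have g5 := exs_mem (G := G) (k := k) (X := X) hw hcon.2.1 hcon.2.2
        have g6 := hne w hw hcon.1
        omega
      · have : s = 0 := by omega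
        rw [hx, this]
        norm_num
      · have : h = 0 := by omega
        rw [hh, this]
        norm_num
    by_cases hc1 : Da ⊆ Dp
    · by_cases hc2 : Dp ⊆ Da
      · -- equal
        have hDD : Da = Dp := Finset.Subset.antisymm hc1 hc2
        rw [← hDD] at mDp
        have hD2 : Da.card ≤ 2 := by
          by_contra hcon
          exact A.three F B hap mDa mDp hDak hu1D hu2D h12 (by omega)
        have hDe : ({u1, u2} : Finset V) = Da := by
          refine Finset.eq_of_subset_of_card_le ?_ (by rw [Finset.card_pair h12]; exact hD2)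
          intro z hz
          rw [mem_insert, mem_singleton] at hz
          rcases hz with rfl | rfl
          · exact hu1D
          · exact hu2D
        have p1 := ((mDp u1).1 hu1D).2
        have p2 := ((mDp u2).1 hu2D).2
        have e1 : ∀ v ∈ P, (G.Adj a v ↔ v ≠ u1 ∧ v ≠ u2) := by
          intro v hv
          constructor
          · intro h
            exact ⟨fun e => h1 (e ▸ h), fun e => h2 (e ▸ h)⟩
          · rintro ⟨n1, n2⟩
            by_contra hcon
            have h5 := (mDa v).2 ⟨hv, hcon⟩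
            rw [← hDe, mem_insert, mem_singleton] at h5
            exact h5.elim n1 n2
        have e2 : ∀ v ∈ P, (G.Adj p v ↔ v ≠ u1 ∧ v ≠ u2) := by
          intro v hv
          constructor
          · intro h
            exact ⟨fun e => p1 (e ▸ h), fun e => p2 (e ▸ h)⟩
          · rintro ⟨n1, n2⟩
            by_contra hcon
            have h5 := (mDp v).2 ⟨hv, hcon⟩
            rw [← hDe, mem_insert, mem_singleton] at h5
            exact h5.elim n1 n2
        obtain ⟨Q, hQ⟩ : ∃ Q, Q = (P.erase u1).erase u2 := ⟨_, rfl⟩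
        have mQ : ∀ v, v ∈ Q ↔ v ≠ u2 ∧ v ≠ u1 ∧ v ∈ P := by
          intro v
          rw [hQ, mem_erase, mem_erase]
        have hQP : Q ⊆ P := fun v hv => ((mQ v).1 hv).2.2
        have hQc : Q.card + 3 = k := by
          have g1 := B.hPc
          have g3 : ((P.erase u1).erase u2).card = P.card - 1 - 1 := by
            rw [Finset.card_erase_of_mem (mem_erase.2 ⟨h12.symm, hu2⟩),
              Finset.card_erase_of_mem hu1]
          have g4 : 2 ≤ P.card := by
            have := A.h5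
            omega
          rw [hQ]
          omega
        have hQq : Clq G Q := fun s hs t ht hst => B.hPq s (hQP hs) t (hQP ht) hst
        have c1 : c ≠ u1 := fun h => h1 (h ▸ B.ax.symm)
        have c2 : c ≠ u2 := fun h => h2 (h ▸ B.ax.symm)
        have hcQ : c ∈ Q := (mQ c).2 ⟨c2, c1, B.hc⟩
        have B2 : Base G k X (insert a (insert p Q)) c u1 u2 :=
          base_two (hQP.trans B.hP) hQc hQq hcQ B.deg ha'.1 hp'.1 (B.hP hu1) (B.hP hu2)
            (fun h => ha'.2 (hQP h)) (fun h => hp'.2 (hQP h))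
            (fun h => ((mQ u1).1 h).2.1 rfl) (fun h => ((mQ u2).1 h).1 rfl) hap
            (fun q hq => (e1 q (hQP hq)).2 ⟨((mQ q).1 hq).2.1, ((mQ q).1 hq).1⟩)
            (fun q hq => (e2 q (hQP hq)).2 ⟨((mQ q).1 hq).2.1, ((mQ q).1 hq).1⟩)
            (fun h => ha'.2 (h ▸ hu1)) (fun h => hp'.2 (h ▸ hu1))
            (fun h => ha'.2 (h ▸ hu2)) (fun h => hp'.2 (h ▸ hu2)) h12
            (B.hPq c B.hc u1 hu1 c1) (B.hPq c B.hc u2 hu2 c2)
        exact Or.inr ⟨u1, u2, {
          B := B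
          adj := hap
          hu := hu1
          hu' := hu2
          huu := h12
          mx := e1
          mx' := e2
          d := hDak u1 hu1D
          d' := hDak u2 hu2D
          dx := A.big B2 (mem_insert_self _ _) (fun h => h1 h.symm) (fun h => h2 h.symm)
          dx' := A.big B2 (mem_insert_of_mem (mem_insert_self _ _)) (fun h => p1 h.symm)
            (fun h => p2 h.symm) }⟩
      · -- `Dp` has an element outside `Da`
        exfalso
        obtain ⟨u', hu', hua⟩ := Finset.not_subset.1 hc2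
        have hu0' := (mDp u').1 hu'
        have g1 : ad G u' a = 1 := by
          refine ad_one ?_
          by_contra h5
          exact hua ((mDa u').2 ⟨hu0'.1, fun h6 => h5 h6.symm⟩)
        obtain ⟨g4, _⟩ := g2 u1 hu1D u' hu' (fun h => hua (h ▸ hu1D)) (by omega)
        rcases g4 u2 hu2 with h | h | h
        · have := hDak u2 hu2D
          omega
        · exact h12 h.symm
        · exact hua (h ▸ hu2D)
    · -- `Da` has an element outside `Dp`
      obtain ⟨u, hu, hup⟩ := Finset.not_subset.1 hc1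
      have hu0 := (mDa u).1 hu
      have pu : G.Adj p u := by
        by_contra h5
        exact hup ((mDp u).2 ⟨hu0.1, h5⟩)
      have g1 : ad G u p = 1 := ad_one pu.symm
      obtain ⟨u', hu'⟩ := Finset.card_pos.1 hpD
      rw [← hDp] at hu'
      have hu0' := (mDp u').1 hu'
      have huu : u ≠ u' := fun h => hup (h ▸ hu')
      obtain ⟨g4, g5, g6, g9, g7, g8⟩ := g2 u hu u' hu' huu (by omega)
      have hau' : ¬ G.Adj a u' := by
        intro h
        rw [g1, ad_one h.symm] at g9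
        omega
      refine Or.inl (Or.inr ⟨u', hu0'.1, u, hu0.1, huu.symm, Or.inr (Or.inl ?_)⟩)
      refine A.path1 F B hap hu0.1 hu0'.1 huu hu0.2 hau' pu hu0'.2 (hDak u hu)
        (hDpk u' hu') ?_ ?_ ?_ g5 g6 g7 g8
      · intro v hv n1 n2
        by_contra hcon
        have g9 := hDak v ((mDa v).2 ⟨hv, hcon⟩)
        rcases g4 v hv with h | h | h
        · omega
        · exact n1 h
        · exact n2 h
      · intro v hv n2
        by_contra hcon
        have g9 := hDpk v ((mDp v).2 ⟨hv, hcon⟩)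
        rcases g4 v hv with h | h | h
        · omega
        · exact hcon (h ▸ pu)
        · exact n2 h
      · intro v hv n1 n2
        rcases g4 v hv with h | h | h
        · exact h
        · exact absurd h n1
        · exact absurd h n2
  · -- not adjacent
    exfalso
    have e0 : ad G a p = 0 := ad_zero hap
    -- a common element
    have hcom : ∃ b ∈ Da, b ∈ Dp := by
      by_contra hcon
      push Not at hcon
      obtain ⟨u', hu'⟩ := Finset.card_pos.1 hpD
      rw [← hDp] at hu'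
      have hu0' := (mDp u').1 hu'
      have g1 : ad G u1 p = 1 := by
        refine ad_one ?_
        by_contra h5
        exact hcon u1 hu1D ((mDp u1).2 ⟨hu1, fun h6 => h5 h6.symm⟩)
      have g2 : ad G u' a = 1 := by
        refine ad_one ?_
        by_contra h5
        exact hcon u' ((mDa u').2 ⟨hu0'.1, fun h6 => h5 h6.symm⟩) hu'
      obtain ⟨A1, A', h, s, _, _, _, _, hs, _, _⟩ :=
        F.sevN B hu1 hu0'.1 (fun h => hcon u1 hu1D (h ▸ hu')) h1 hu0'.2
      have g5 := exs_mem (G := G) (k := k) (X := X) (u' := u') hu2 (Ne.symm h12)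
        (fun h => hcon u2 hu2D (h ▸ hu'))
      have g6 := hDak u2 hu2D
      omega
    obtain ⟨b, hba, hbp⟩ := hcom
    have hb1 := (mDa b).1 hba
    have hb2 := (mDp b).1 hbp
    have hc1 : Da ⊆ Dp := by
      intro u hu
      by_contra hup
      have hu0 := (mDa u).1 hu
      have g1 : G.Adj p u := by
        by_contra h5
        exact hup ((mDp u).2 ⟨hu0.1, h5⟩)
      exact F.gam B.symm (fun h => hap h.symm) hb1.1 hu0.1 (fun h => hup (h ▸ hbp)) hb2.2 hb1.2
        hu0.2 g1 (hDak u hu) (fun q hq _ hk => (hD q hq hk).symm)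
    have hc2 : Dp ⊆ Da := by
      intro u hu
      by_contra hup
      have hu0 := (mDp u).1 hu
      have g1 : G.Adj a u := by
        by_contra h5
        exact hup ((mDa u).2 ⟨hu0.1, h5⟩)
      exact F.gam B hap hb1.1 hu0.1 (fun h => hup (h ▸ hba)) hb1.2 hb2.2
        hu0.2 g1 (hDpk u hu) (fun q hq _ hk => hD q hq hk)
    have hDD : Da = Dp := Finset.Subset.antisymm hc1 hc2
    rw [← hDD] at mDp
    exact F.c2aN B hap mDa mDp hDak hu1D hu2D h12

/-- one missing vertex for each outer vertex, the same -/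
theorem AllH.clsT {k : ℕ} {X P : Finset V} (A : AllH G k X) {c a p b : V}
    (B : Base G k X P c a p) (hb' : b ∈ P) (ab : ¬ G.Adj a b) (pb : ¬ G.Adj p b)
    (ha : ∀ v ∈ P, v ≠ b → G.Adj a v) (hp : ∀ v ∈ P, v ≠ b → G.Adj p v)
    (db : k < (nb G X b).card) : TyT3 G k X (P.erase b) b a p := by
  have ha' := mem_sdiff.1 B.hx
  have hp' := mem_sdiff.1 B.hx'
  have hQP : P.erase b ⊆ P := Finset.erase_subset _ _
  have hQc : (P.erase b).card + 2 = k := by
    have h1 := B.hPc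
    have h2 := A.h5
    rw [Finset.card_erase_of_mem hb']
    omega
  have hQq : Clq G (P.erase b) := fun s hs t ht hst => B.hPq s (hQP hs) t (hQP ht) hst
  have hcb : c ≠ b := fun h => ab (h ▸ B.ax.symm)
  have hcQ : c ∈ P.erase b := mem_erase.2 ⟨hcb, B.hc⟩
  have bQ : b ∉ P.erase b := fun h => (mem_erase.1 h).1 rfl
  have aQ : a ∉ P.erase b := fun h => ha'.2 (hQP h)
  have pQ : p ∉ P.erase b := fun h => hp'.2 (hQP h)
  have Qa : ∀ q ∈ P.erase b, G.Adj a q := fun q hq => ha q (hQP hq) (mem_erase.1 hq).1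
  have Qp : ∀ q ∈ P.erase b, G.Adj p q := fun q hq => hp q (hQP hq) (mem_erase.1 hq).1
  have Qb : ∀ q ∈ P.erase b, G.Adj b q := fun q hq =>
    B.hPq b hb' q (hQP hq) (Ne.symm (mem_erase.1 hq).1)
  have eab : a ≠ b := fun h => ha'.2 (h ▸ hb')
  have epb : p ≠ b := fun h => hp'.2 (h ▸ hb')
  have nap : ¬ G.Adj a p := by
    intro h
    have hq : Clq G (insert a (insert p (P.erase b))) := by
      intro s hs t ht hst
      rw [mem_insert, mem_insert] at hs ht
      rcases hs with rfl | rfl | hs <;> rcases ht with rfl | rfl | ht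
      · exact absurd rfl hst
      · exact h
      · exact Qa t ht
      · exact h.symm
      · exact absurd rfl hst
      · exact Qp t ht
      · exact (Qa s hs).symm
      · exact (Qp s hs).symm
      · exact hQq s hs t ht hst
    have h1 := A.mc.clq_lt (Finset.insert_subset ha'.1 (Finset.insert_subset hp'.1
      (hQP.trans B.hP))) hq
    have n1 : a ∉ insert p (P.erase b) := by
      rw [mem_insert]
      rintro (h | h)
      · exact B.hne h
      · exact aQ h
    rw [Finset.card_insert_of_notMem n1, Finset.card_insert_of_notMem pQ] at h1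
    omega
  have B2 : Base G k X (insert a (P.erase b)) c b p :=
    base_one (hQP.trans B.hP) hQc hQq hcQ B.deg ha'.1 (B.hP hb') hp'.1 aQ bQ pQ Qa eab.symm
      B.hne.symm epb.symm (Qb c hcQ).symm B.ax'
  have B3 : Base G k X (insert p (P.erase b)) c b a :=
    base_one (hQP.trans B.hP) hQc hQq hcQ B.deg hp'.1 (B.hP hb') ha'.1 pQ bQ aQ Qp epb.symm
      B.hne eab.symm (Qb c hcQ).symm B.ax
  exact {
    hQX := hQP.trans B.hP
    hQc := hQc
    hQq := hQq
    hex := ⟨c, hcQ, B.deg⟩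
    h1 := B.hP hb'
    h2 := ha'.1
    h3 := hp'.1
    q1 := bQ
    q2 := aQ
    q3 := pQ
    aQ1 := Qb
    aQ2 := Qa
    aQ3 := Qp
    e12 := eab.symm
    e13 := epb.symm
    e23 := B.hne
    m12 := fun h => ab h.symm
    m13 := fun h => pb h.symm
    m23 := nap
    d1 := db
    d2 := A.big B2 (mem_insert_self _ _) (fun h => ab h.symm) (fun h => nap h.symm)
    d3 := A.big B3 (mem_insert_self _ _) (fun h => pb h.symm) nap }

/-- one missing vertex for each outer vertex, different -/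
theorem AllH.path3 {k : ℕ} {X P : Finset V} (A : AllH G k X) (F : Fr G k X P) {c a p b v : V}
    (B : Base G k X P c a p) (hb' : b ∈ P) (hv : v ∈ P) (hbv : b ≠ v) (ab : ¬ G.Adj a b)
    (pv : ¬ G.Adj p v) (ha : ∀ z ∈ P, z ≠ b → G.Adj a z) (hp : ∀ z ∈ P, z ≠ v → G.Adj p z)
    (db : k < (nb G X b).card) (dv : k < (nb G X v).card) :
    TyP4 G k X ((P.erase b).erase v) a v b p := by
  have ha' := mem_sdiff.1 B.hx
  have hp' := mem_sdiff.1 B.hx'
  have av : G.Adj a v := ha v hv hbv.symm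
  have pb : G.Adj p b := hp b hb' hbv
  obtain ⟨A1, A', h, s, hA, hA', hh, hx, hs, _, _⟩ := F.sevN B hb' hv hbv ab pv
  have e1 : ad G b p = 1 := ad_one pb.symm
  have e2 : ad G v a = 1 := ad_one av.symm
  have nap : ¬ G.Adj a p := by
    intro h'
    have e3 : ad G a p = 1 := ad_one h'
    omega
  have t1 : A1 = 0 := by omega
  have t2 : A' = 0 := by omega
  have t3 : h = 0 := by omega
  have t4 : s = 0 := by omega
  have t5 : exs G k X ((P.erase b).erase v) = 0 := by omega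
  obtain ⟨Q, hQ⟩ : ∃ Q, Q = (P.erase b).erase v := ⟨_, rfl⟩
  have mQ : ∀ z, z ∈ Q ↔ z ≠ v ∧ z ≠ b ∧ z ∈ P := by
    intro z
    rw [hQ, mem_erase, mem_erase]
  have hQP : Q ⊆ P := fun z hz => ((mQ z).1 hz).2.2
  have hQX : Q ⊆ X := hQP.trans B.hP
  have hQc : Q.card + 3 = k := by
    have h1 := B.hPc
    have h2 : ((P.erase b).erase v).card = P.card - 1 - 1 := by
      rw [Finset.card_erase_of_mem (mem_erase.2 ⟨hbv.symm, hv⟩), Finset.card_erase_of_mem hb']
    have h3 : 2 ≤ P.card := by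
      have := A.h5
      omega
    rw [hQ]
    omega
  have hQq : Clq G Q := fun s hs t ht hst => B.hPq s (hQP hs) t (hQP ht) hst
  have vQ : v ∉ Q := fun h => ((mQ v).1 h).1 rfl
  have bQ : b ∉ Q := fun h => ((mQ b).1 h).2.1 rfl
  have aQ : a ∉ Q := fun h => ha'.2 (hQP h)
  have pQ : p ∉ Q := fun h => hp'.2 (hQP h)
  have Qa : ∀ q ∈ Q, G.Adj a q := fun q hq => ha q (hQP hq) ((mQ q).1 hq).2.1
  have Qp : ∀ q ∈ Q, G.Adj p q := fun q hq => hp q (hQP hq) ((mQ q).1 hq).1
  have Qv : ∀ q ∈ Q, G.Adj v q := fun q hq => B.hPq v hv q (hQP hq) (Ne.symm ((mQ q).1 hq).1)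
  have Qb : ∀ q ∈ Q, G.Adj b q := fun q hq =>
    B.hPq b hb' q (hQP hq) (Ne.symm ((mQ q).1 hq).2.1)
  have hcQ : c ∈ Q := (mQ c).2 ⟨fun h => pv (h ▸ B.ax'.symm), fun h => ab (h ▸ B.ax.symm), B.hc⟩
  have eab : a ≠ b := fun h => ha'.2 (h ▸ hb')
  have eav : a ≠ v := fun h => ha'.2 (h ▸ hv)
  have epb : p ≠ b := fun h => hp'.2 (h ▸ hb')
  have epv : p ≠ v := fun h => hp'.2 (h ▸ hv)
  have B2 : Base G k X (insert a (insert v Q)) c b p :=
    base_two hQX hQc hQq hcQ B.deg ha'.1 (B.hP hv) (B.hP hb') hp'.1 aQ vQ bQ pQ av Qa Qv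
      eab.symm hbv B.hne.symm epv epb.symm (Qb c hcQ).symm B.ax'
  have B3 : Base G k X (insert p (insert b Q)) c v a :=
    base_two hQX hQc hQq hcQ B.deg hp'.1 (B.hP hb') (B.hP hv) ha'.1 pQ bQ vQ aQ pb Qp Qb
      epv.symm hbv.symm B.hne eab eav.symm (Qv c hcQ).symm B.ax
  have hHH : hd4 X ((P.erase b).erase v) a v b p = hb X P a p := hd4_f3 hb' hv
  have hbp := F.bp _ _ _ B
  have hdQ : ∀ q ∈ Q, (nb G X q).card = k := by
    intro q hq
    have g1 := exs_mem (G := G) (k := k) (X := X) (hQP hq) ((mQ q).1 hq).2.1 ((mQ q).1 hq).1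
    have g2 := F.deg_ge (hQX hq)
    omega
  rw [← hQ]
  rw [← hQ] at hHH
  exact {
    hQX := hQX
    hQc := hQc
    hQq := hQq
    dQ := hdQ
    h1 := ha'.1
    h2 := B.hP hv
    h3 := B.hP hb'
    h4 := hp'.1
    q1 := aQ
    q2 := vQ
    q3 := bQ
    q4 := pQ
    aQ1 := Qa
    aQ2 := Qv
    aQ3 := Qb
    aQ4 := Qp
    a12 := av
    a23 := B.hPq v hv b hb' hbv.symm
    a34 := pb.symm
    e13 := eab
    e14 := B.hne
    e24 := epv.symm
    m13 := ab
    m14 := nap
    m24 := fun h => pv h.symm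
    d1 := A.big B2 (mem_insert_self _ _) (fun h => ab h.symm) (fun h => nap h.symm)
    d2 := dv
    d3 := db
    d4 := A.big B3 (mem_insert_self _ _) (fun h => pv h.symm) nap
    psX := by rw [hx, t4]; norm_num
    psH := by rw [hHH, hh, t3]; norm_num
    alH := by rw [hHH]; exact hbp.alH
    tau := by rw [hHH]; exact hbp.tau
    s13 := by rw [hHH]; omega
    s24 := by rw [hHH]; omega }

/-- the classification, `a` being adjacent to all vertices of degree `k` -/
theorem AllH.cls1 {k : ℕ} {X P : Finset V} (A : AllH G k X) {c a p : V}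
    (B : Base G k X P c a p) (hall : ∀ v ∈ P, (nb G X v).card = k → G.Adj a v) :
    Loc G k X P a p ∨ ∃ u u', TyC4 G k X P c a p u u' := by
  have F := A.fr P B.hP B.hPc B.hPq ⟨c, B.hc, B.deg⟩
  have ha' := mem_sdiff.1 B.hx
  have hp' := mem_sdiff.1 B.hx'
  obtain ⟨b, hb0⟩ := Finset.card_pos.1 (F.missP B.hx)
  obtain ⟨v, hv0⟩ := Finset.card_pos.1 (F.missP B.hx')
  rw [F.mem_nbc ha'.2] at hb0
  rw [F.mem_nbc hp'.2] at hv0
  have db : k < (nb G X b).card := by
    have h1 := F.deg_ge (F.hP hb0.1)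
    rcases Nat.lt_or_ge k (nb G X b).card with h5 | h5
    · exact h5
    · exact absurd (hall b hb0.1 (by omega)) hb0.2
  by_cases hone : ∀ z ∈ P, z ≠ b → G.Adj a z
  · -- one vertex missing for `a`
    have hpk : ∀ z ∈ P, (nb G X z).card = k → G.Adj p z := by
      intro z hz hzk
      by_contra hcon
      have hzb : z ≠ b := by
        intro h
        rw [h] at hzk
        omega
      exact A.n1 P F a B.hx b hb0.1 hb0.2 hone c p z B hz hzb hcon hzk
    by_cases hone' : ∀ z ∈ P, z ≠ v → G.Adj p z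
    · have dv : k < (nb G X v).card := by
        have h1 := F.deg_ge (F.hP hv0.1)
        rcases Nat.lt_or_ge k (nb G X v).card with h5 | h5
        · exact h5
        · exact absurd (hpk v hv0.1 (by omega)) hv0.2
      by_cases hbv : b = v
      · subst hbv
        exact Or.inl (Or.inl ⟨b, hb0.1, A.clsT B hb0.1 hb0.2 hv0.2 hone hone' db⟩)
      · exact Or.inl (Or.inr ⟨b, hb0.1, v, hv0.1, hbv, Or.inr (Or.inr
          (A.path3 F B hb0.1 hv0.1 hbv hb0.2 hv0.2 hone hone' db dv))⟩)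
    · push Not at hone'
      obtain ⟨z, hz, hzv, hpz⟩ := hone'
      rcases A.cls2 B.symm hpk hz hv0.1 hzv hpz hv0.2 with h | ⟨u, u', h⟩
      · exact Or.inl h.symm
      · exact Or.inr ⟨u', u, h.symm⟩
  · push Not at hone
    obtain ⟨z, hz, hzb, haz⟩ := hone
    exact A.cls2 B hall hz hb0.1 hzb haz hb0.2

/-- the classification -/
theorem AllH.cls {k : ℕ} {X P : Finset V} (A : AllH G k X) {c x x' : V}
    (B : Base G k X P c x x') :
    Loc G k X P x x' ∨ ∃ u u', TyC4 G k X P c x x' u u' := by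
  have F := A.fr P B.hP B.hPc B.hPq ⟨c, B.hc, B.deg⟩
  obtain ⟨a, ha, hall⟩ := A.ns P F
  have h3 := hall c B.hc B.deg
  by_cases e : a = x
  · subst e
    exact A.cls1 B hall
  · by_cases e' : a = x'
    · subst e'
      rcases A.cls1 B.symm hall with h | ⟨u, u', h⟩
      · exact Or.inl h.symm
      · exact Or.inr ⟨u', u, h.symm⟩
    · exact absurd h3.symm (B.na ha e e')

/-- additionally: no base of the type `TyC4` -/
structure AllP (G : SimpleGraph V) [DecidableRel G.Adj] (k : ℕ) (X : Finset V) : Prop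
    extends AllH G k X where
  c4 : ∀ P c x x' u u', ¬ TyC4 G k X P c x x' u u'

theorem AllP.loc {k : ℕ} {X P : Finset V} (A : AllP G k X) {c x x' : V}
    (B : Base G k X P c x x') : Loc G k X P x x' := by
  rcases A.cls B with h | ⟨u, u', h⟩
  · exact h
  · exact absurd h (A.c4 _ _ _ _ _ _)

end Pool.Agent.TwoDens.TS
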