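import Pool.Agent.TKS.BEf
import Pool.Agent.TKS.HD

/-!
If all vertices of degree `k` in the cliques with `k - 1` vertices are of type `TyT3`, then every
vertex of degree `k` is (`k = 5, 6`).
-/

open Finset

namespace Pool.Agent.TwoDens.TS

open Pool.Agent.TwoDens Pool.Agent.TwoDens.RK Pool.Agent.TwoDens.DD

variable {V : Type*} [DecidableEq V] {G : SimpleGraph V} [DecidableRel G.Adj]

theorem TyT3.rot {k : ℕ} {X Q : Finset V} {y1 y2 y3 : V} (T : TyT3 G k X Q y1 y2 y3) :
    TyT3 G k X Q y2 y3 y1 :=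
  ⟨T.hQX, T.hQc, T.hQq, T.hex, T.h2, T.h3, T.h1, T.q2, T.q3, T.q1, T.aQ2, T.aQ3, T.aQ1,
    T.e23, T.e12.symm, T.e13.symm, T.m23, fun h => T.m12 h.symm, fun h => T.m13 h.symm,
    T.d2, T.d3, T.d1⟩

theorem TyT3.swp {k : ℕ} {X Q : Finset V} {y1 y2 y3 : V} (T : TyT3 G k X Q y1 y2 y3) :
    TyT3 G k X Q y2 y1 y3 :=
  ⟨T.hQX, T.hQc, T.hQq, T.hex, T.h2, T.h1, T.h3, T.q2, T.q1, T.q3, T.aQ2, T.aQ1, T.aQ3,
    T.e12.symm, T.e23, T.e13, fun h => T.m12 h.symm, T.m23, T.m13, T.d2, T.d1, T.d3⟩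

/-- the neighbourhood of a vertex of `Q` of degree `k` -/
theorem TyT3.nbz {k : ℕ} {X Q : Finset V} {y1 y2 y3 z : V} (T : TyT3 G k X Q y1 y2 y3)
    (hz : z ∈ Q) (hd : (nb G X z).card = k) {w : V} :
    w ∈ nb G X z ↔ (w ∈ Q ∧ w ≠ z) ∨ w = y1 ∨ w = y2 ∨ w = y3 := by
  have h1 : insert y1 (insert y2 (insert y3 (Q.erase z))) ⊆ nb G X z := by
    intro u hu
    rw [mem_insert, mem_insert, mem_insert, mem_erase] at hu
    rw [mem_nb]
    rcases hu with rfl | rfl | rfl | ⟨h, h'⟩
    · exact ⟨T.h1, (T.aQ1 z hz).symm⟩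
    · exact ⟨T.h2, (T.aQ2 z hz).symm⟩
    · exact ⟨T.h3, (T.aQ3 z hz).symm⟩
    · exact ⟨T.hQX h', T.hQq z hz u h' (Ne.symm h)⟩
  have h2 : (insert y1 (insert y2 (insert y3 (Q.erase z)))).card = k := by
    have e1 : y3 ∉ Q.erase z := fun h => T.q3 (mem_of_mem_erase h)
    have e2' : y2 ∉ insert y3 (Q.erase z) := by
      rw [mem_insert, not_or]
      exact ⟨T.e23, fun h => T.q2 (mem_of_mem_erase h)⟩
    have e3 : y1 ∉ insert y2 (insert y3 (Q.erase z)) := by
      rw [mem_insert, mem_insert, not_or, not_or]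
      exact ⟨T.e12, T.e13, fun h => T.q1 (mem_of_mem_erase h)⟩
    rw [Finset.card_insert_of_notMem e3, Finset.card_insert_of_notMem e2',
      Finset.card_insert_of_notMem e1]
    have h3 := Finset.card_erase_add_one hz
    have h4 := T.hQc
    omega
  have h3 : insert y1 (insert y2 (insert y3 (Q.erase z))) = nb G X z :=
    Finset.eq_of_subset_of_card_le h1 (by rw [h2, hd])
  rw [← h3, mem_insert, mem_insert, mem_insert, mem_erase]
  tauto

/-- a clique with `k - 1` vertices containing a vertex of `Q` of degree `k` -/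
theorem TyT3.frm {k : ℕ} {X Q R : Finset V} {y1 y2 y3 z : V} (T : TyT3 G k X Q y1 y2 y3)
    (hz : z ∈ Q) (hd : (nb G X z).card = k) (hR : R ⊆ X) (hRc : R.card + 1 = k) (hq : Clq G R)
    (hzR : z ∈ R) : ∃ a b c, TyT3 G k X Q a b c ∧ R = insert a Q := by
  have hmem : ∀ w ∈ R, w ∈ Q ∨ w = y1 ∨ w = y2 ∨ w = y3 := by
    intro w hw
    by_cases e : w = z
    · exact Or.inl (e ▸ hz)
    · rcases (T.nbz hz hd).1 (mem_nb.2 ⟨hR hw, hq z hzR w hw (Ne.symm e)⟩) with h | h
      · exact Or.inl h.1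
      · exact Or.inr h
  have key : ∀ {a b c : V}, TyT3 G k X Q a b c → a ∈ R →
      (∀ w ∈ R, w ∈ Q ∨ w = a ∨ w = b ∨ w = c) → ∃ a b c, TyT3 G k X Q a b c ∧ R = insert a Q := by
    intro a b c T' ha hm
    refine ⟨a, b, c, T', ?_⟩
    have h1 : R ⊆ insert a Q := by
      intro w hw
      rw [mem_insert]
      rcases hm w hw with h | h | h | h
      · exact Or.inr h
      · exact Or.inl h
      · exact absurd (hq a ha w hw (by rw [h]; exact T'.e12)) (by rw [h]; exact T'.m12)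
      · exact absurd (hq a ha w hw (by rw [h]; exact T'.e13)) (by rw [h]; exact T'.m13)
    refine Finset.eq_of_subset_of_card_le h1 ?_
    have h2 := Finset.card_insert_le a Q
    have h3 := T'.hQc
    omega
  by_cases c1 : y1 ∈ R
  · exact key T c1 hmem
  by_cases c2 : y2 ∈ R
  · exact key T.rot c2 (fun w hw => by
      rcases hmem w hw with h | h | h | h
      · exact Or.inl h
      · exact Or.inr (Or.inr (Or.inr h))
      · exact Or.inr (Or.inl h)
      · exact Or.inr (Or.inr (Or.inl h)))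
  by_cases c3 : y3 ∈ R
  · exact key T.rot.rot c3 (fun w hw => by
      rcases hmem w hw with h | h | h | h
      · exact Or.inl h
      · exact Or.inr (Or.inr (Or.inl h))
      · exact Or.inr (Or.inr (Or.inr h))
      · exact Or.inr (Or.inl h))
  have h1 : R ⊆ Q := by
    intro w hw
    rcases hmem w hw with h | h | h | h
    · exact h
    · exact absurd (h ▸ hw) c1
    · exact absurd (h ▸ hw) c2
    · exact absurd (h ▸ hw) c3
  have h2 := Finset.card_le_card h1
  have h3 := T.hQc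
  omega

theorem bd_ge_of {Y R Q : Finset V} {b : V} (hQ : Q ⊆ R) (hb : b ∈ Y) (hbR : b ∉ R)
    (h : ∀ q ∈ Q, G.Adj b q) : Q.card ≤ bd G Y R := by
  unfold bd
  calc Q.card = ∑ _q ∈ Q, 1 := by rw [Finset.sum_const, smul_eq_mul, mul_one]
    _ ≤ ∑ q ∈ Q, (nb G Y q \ R).card := by
        refine Finset.sum_le_sum fun q hq => ?_
        exact Finset.card_pos.2 ⟨b, mem_sdiff.2 ⟨mem_nb.2 ⟨hb, (h q hq).symm⟩, hbR⟩⟩
    _ ≤ _ := Finset.sum_le_sum_of_subset hQ

/-- every vertex of degree `k` in a clique with `k - 1` vertices is of type `TyT3`, and the outer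
neighbourhoods of a `TyT3` are disjoint -/
structure AllF (G : SimpleGraph V) [DecidableRel G.Adj] (k : ℕ) (X : Finset V) : Prop where
  mc : MC G k X
  h5 : 5 ≤ k
  h6 : k ≤ 6
  bad : ∀ R ⊆ X, R.card + 1 = k → Clq G R → ∀ z ∈ R, (nb G X z).card = k →
    ∃ Q y1 y2 y3, z ∈ Q ∧ TyT3 G k X Q y1 y2 y3
  dis : ∀ Q y1 y2 y3, TyT3 G k X Q y1 y2 y3 → ∀ w ∈ X, w ∉ Q → G.Adj y1 w → ¬ G.Adj y2 w

theorem AllF.loc0 {k : ℕ} {X : Finset V} (A : AllF G k X) {v : V} (hv : v ∈ X) :
    Loc0 G k X v := by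
  intro R hR hRc hq hbd z hz hdz
  have hRX : R ⊆ X := hR.trans Finset.sdiff_subset
  obtain ⟨Q, y1, y2, y3, hzQ, T⟩ := A.bad R hRX hRc hq z hz hdz
  obtain ⟨a, b, c, T, hRQ⟩ := T.frm hzQ hdz hRX hRc hq hz
  have hQR : Q ⊆ R := by
    rw [hRQ]
    exact Finset.subset_insert _ _
  have hbR : b ∉ R := by
    rw [hRQ, mem_insert, not_or]
    exact ⟨T.e12.symm, T.q2⟩
  have hcR : c ∉ R := by
    rw [hRQ, mem_insert, not_or]
    exact ⟨T.e13.symm, T.q3⟩
  have hQc := T.hQc
  have h5 := A.h5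
  have hzv := (mem_sdiff.1 (hR hz)).2
  unfold cl at hzv
  rw [mem_insert, mem_nb, not_or] at hzv
  have nvz : ¬ G.Adj v z := fun h => hzv.2 ⟨hRX hz, h⟩
  -- an outer vertex outside the closed neighbourhood of `v`
  have key : ∀ {y : V}, y ∈ X → y ∉ R → (∀ q ∈ Q, G.Adj y q) → G.Adj v y := by
    intro y hy hyR haQ
    by_contra hvy
    have hycl : y ∈ X \ cl G X v := by
      rw [mem_sdiff]
      refine ⟨hy, ?_⟩
      unfold cl
      rw [mem_insert, mem_nb, not_or]
      exact ⟨fun e => nvz (e ▸ haQ z hzQ), fun h => hvy h.2⟩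
    have h1 := bd_ge_of (G := G) hQR hycl hyR haQ
    omega
  have hvb := key T.h2 hbR T.aQ2
  have hvc := key T.h3 hcR T.aQ3
  have hvQ : v ∉ Q := by
    intro h
    exact (mem_sdiff.1 (hR (hQR h))).2 (mem_insert_self _ _)
  exact A.dis Q b c a T.rot v hv hvQ hvb.symm hvc.symm

theorem AllF.nt0 {k : ℕ} {X : Finset V} (A : AllF G k X) {v : V} (hv : v ∈ X)
    (hd : (nb G X v).card = k) : Nt0 G k X v :=
  fun _ ha _ hb hab hn ht => A.mc.ntightL hv hd (A.loc0 hv) ha hb hab hn ht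

/-- a vertex of degree `k` has a base or is of the type `D0` -/
theorem AllF.alt {k : ℕ} {X : Finset V} (A : AllF G k X) {v : V} (hv : v ∈ X)
    (hd : (nb G X v).card = k) (hno : ¬ ∃ P x x', Base G k X P v x x') : D0 G k X v := by
  by_contra hD
  have hnt := A.nt0 hv hd
  exact hno (A.mc.base_at' hv hd (A.mc.no4s hv hd A.h5) (A.mc.l3n hv hd hnt A.h5 A.h6 hD)
    (A.mc.l32n hv hd hnt A.h5 A.h6 hD) (A.mc.l5n hv hd hnt A.h5 A.h6 hD))

/-- every vertex of degree `k` has a base -/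
theorem AllF.base {k : ℕ} {X : Finset V} (A : AllF G k X) {v : V} (hv : v ∈ X)
    (hd : (nb G X v).card = k) : ∃ P x x', Base G k X P v x x' := by
  by_contra hno
  have H := A.mc
  have h5 := A.h5
  have h6 := A.h6
  obtain ⟨hx, ht, a, ha, b, hb, hab, hn, da, db, hc⟩ := A.alt hv hd hno
  have hFX : cl G X v ⊆ X := cl_sub hv
  have hps := H.clps' hv hd
  rw [← Nat.cast_ofNat (R := ℤ) (n := 4)] at hps
  have hps0 : ps G k (X \ cl G X v) ≤ 0 := by
    have : ((2 * exs G k X (cl G X v) + e2 Gᶜ (cl G X v) : ℕ) : ℤ) + 6 = 4 * k := by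
      exact_mod_cast ht
    push_cast at hps this ⊢
    linarith
  have hne := H.clne hv hd
  have htau := H.tau0 Finset.sdiff_subset hne (by linarith)
  have htr := H.cltr hv hd ha hb hab hn
  obtain ⟨T, hT⟩ : ∃ T, T = (nb G X a \ cl G X v) ∪ (nb G X b \ cl G X v) := ⟨_, rfl⟩
  rw [← hT] at htr
  have hTH : T ⊆ X \ cl G X v := by
    intro w hw
    rw [hT, mem_union, mem_sdiff, mem_sdiff, mem_nb, mem_nb] at hw
    rw [mem_sdiff]
    tauto
  have h1 := htau T hTH htr
  have h2 := Finset.card_union_le (nb G X a \ cl G X v) (nb G X b \ cl G X v)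
  rw [← hT] at h2
  obtain ⟨r, hS⟩ := H.star8g Finset.sdiff_subset hne (by linarith) htau hTH (by omega) htr
    (Or.inl (by linarith))
  have hRX : T.erase r ⊆ X := ((Finset.erase_subset _ _).trans hTH).trans Finset.sdiff_subset
  have hRc := Finset.card_erase_add_one hS.hr
  have haR : ∀ {y : V}, y ∈ cl G X v → y ∉ T.erase r := fun hy h =>
    (mem_sdiff.1 (hTH (mem_of_mem_erase h))).2 hy
  have h3 : ∀ z ∈ T.erase r, k + 1 ≤ (nb G X z).card := by
    intro z hz
    have hdz := H.deg_ge z (hRX hz)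
    by_contra hcon
    have hdz' : (nb G X z).card = k := by omega
    obtain ⟨Q, y1, y2, y3, hzQ, T3⟩ := A.bad (T.erase r) hRX (by omega) hS.clq z hz hdz'
    obtain ⟨y, y', y'', T3, hRQ⟩ := T3.frm hzQ hdz' hRX (by omega) hS.clq hz
    have hout : ∀ {w : V}, w ∈ cl G X v → (nb G X w).card = k → ¬ G.Adj z w := by
      intro w hw hdw hzw
      have hwR := haR hw
      rw [hRQ, mem_insert, not_or] at hwR
      rcases (T3.nbz hzQ hdz').1 (mem_nb.2 ⟨hFX hw, hzw⟩) with h | h | h | h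
      · exact hwR.2 h.1
      · exact hwR.1 h
      · have := T3.d2
        rw [← h] at this
        omega
      · have := T3.d3
        rw [← h] at this
        omega
    have hzT := mem_of_mem_erase hz
    rw [hT, mem_union, mem_sdiff, mem_sdiff, mem_nb, mem_nb] at hzT
    rcases hzT with h | h
    · exact hout ha da h.1.2.symm
    · exact hout hb db h.1.2.symm
  have key : ∀ {w : V}, w ∈ cl G X v → w ≠ v → (nb G X w).card = k →
      nb G X w \ cl G X v ⊆ T → 3 ≤ (nb G X w \ cl G X v).card → False := by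
    intro w hw hwv hdw hsub h4
    have h5' : ∑ z ∈ (nb G X w \ cl G X v).erase r, 1 ≤
        ∑ z ∈ (nb G X w \ cl G X v).erase r, ((nb G X z).card - k) := by
      refine Finset.sum_le_sum fun z hz => ?_
      have hz' := mem_erase.1 hz
      have := h3 z (mem_erase.2 ⟨hz'.1, hsub hz'.2⟩)
      omega
    have h6' : ∑ z ∈ (nb G X w \ cl G X v).erase r, ((nb G X z).card - k) ≤
        exs G k X (cl G X w) := by
      unfold exs
      refine Finset.sum_le_sum_of_subset ?_
      intro z hz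
      exact mem_insert_of_mem (mem_sdiff.1 (mem_of_mem_erase hz)).1
    have h7 := Finset.pred_card_le_card_erase (s := nb G X w \ cl G X v) (a := r)
    rw [Finset.sum_const, smul_eq_mul, mul_one] at h5'
    by_cases hbw : ∃ P x x', Base G k X P w x x'
    · obtain ⟨P, x, x', B⟩ := hbw
      obtain ⟨Q, y1, y2, y3, hwQ, T3⟩ := A.bad P B.hP B.hPc B.hPq w B.hc hdw
      have hvw : G.Adj w v := by
        have h8 := hw
        unfold cl at h8
        rw [mem_insert, mem_nb] at h8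
        rcases h8 with h8 | h8
        · exact absurd h8 hwv
        · exact h8.2.symm
      -- `v` lies in `Q`
      have hvQ : v ∈ Q := by
        rcases (T3.nbz hwQ hdw).1 (mem_nb.2 ⟨hv, hvw⟩) with h | h | h | h
        · exact h.1
        · have := T3.d1
          rw [← h] at this
          omega
        · have := T3.d2
          rw [← h] at this
          omega
        · have := T3.d3
          rw [← h] at this
          omega
      refine hno ⟨insert y1 Q, ?_⟩
      obtain ⟨x, x', B'⟩ := base_mk (G := G) (k := k) (X := X) (P := insert y1 Q) (c := v)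
        (Finset.insert_subset T3.h1 T3.hQX) (by
          rw [Finset.card_insert_of_notMem T3.q1]
          have := T3.hQc
          omega) (by
          intro p hp q hq hpq
          rw [mem_insert] at hp hq
          rcases hp with rfl | hp <;> rcases hq with rfl | hq
          · exact absurd rfl hpq
          · exact T3.aQ1 q hq
          · exact (T3.aQ1 p hp).symm
          · exact T3.hQq p hp q hq hpq) (mem_insert_of_mem hvQ) hd
      exact ⟨x, x', B'⟩
    · obtain ⟨hx', -, -⟩ := A.alt (hFX hw) hdw hbw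
      omega
  have hav : a ≠ v := by
    intro e
    have h8 := hb
    unfold cl at h8
    rw [mem_insert, mem_nb] at h8
    rcases h8 with h8 | h8
    · exact hab (e.trans h8.symm)
    · exact hn (e ▸ h8.2)
  have hbv : b ≠ v := by
    intro e
    have h8 := ha
    unfold cl at h8
    rw [mem_insert, mem_nb] at h8
    rcases h8 with h8 | h8
    · exact hab (h8.trans e.symm)
    · exact hn (e ▸ h8.2).symm
  rcases Nat.lt_or_ge (nb G X a \ cl G X v).card 3 with h4 | h4
  · exact key hb hbv db (by rw [hT]; exact Finset.subset_union_right) (by omega)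
  · exact key ha hav da (by rw [hT]; exact Finset.subset_union_left) h4

/-- every vertex of degree `k` is of type `TyT3` -/
theorem AllF.all {k : ℕ} {X : Finset V} (A : AllF G k X) {v : V} (hv : v ∈ X)
    (hd : (nb G X v).card = k) : ∃ Q y1 y2 y3, v ∈ Q ∧ TyT3 G k X Q y1 y2 y3 := by
  obtain ⟨P, x, x', B⟩ := A.base hv hd
  exact A.bad P B.hP B.hPc B.hPq v B.hc hd

/-- the last step: only the type `TyT3` is left -/
theorem AllP.allF {k : ℕ} {X : Finset V} (A : AllP G k X)
    (hp : ∀ Q w1 w2 w3 w4, ¬ TyP4 G k X Q w1 w2 w3 w4)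
    (hdis : ∀ Q y1 y2 y3, TyT3 G k X Q y1 y2 y3 → ∀ w ∈ X, w ∉ Q → G.Adj y1 w → ¬ G.Adj y2 w) :
    AllF G k X := by
  refine ⟨A.mc, A.h5, A.h6, ?_, hdis⟩
  intro R hR hRc hq z hz hdz
  obtain ⟨x, x', B⟩ := base_mk hR hRc hq hz hdz
  rcases A.loc B with ⟨b, hb, T⟩ | ⟨u, hu, v, hv, huv, h | h | h⟩
  · refine ⟨R.erase b, b, x, x', mem_erase.2 ⟨?_, hz⟩, T⟩
    intro e
    exact T.m12 (e ▸ B.ax)
  · exact absurd h (hp _ _ _ _ _)
  · exact absurd h (hp _ _ _ _ _)
  · exact absurd h (hp _ _ _ _ _)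

end Pool.Agent.TwoDens.TS
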