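import Pool.Agent.TKS.CLG

/-!
Not every vertex of degree `k` lies in a cell, `k = 5, 6`.
-/

open Finset

namespace Pool.Agent.TwoDens.TS

open Pool.Agent.TwoDens Pool.Agent.TwoDens.RK Pool.Agent.TwoDens.DD

variable {V : Type*} [DecidableEq V] {G : SimpleGraph V} [DecidableRel G.Adj]

section
variable {k : ℕ} {X : Finset V} (H : MC G k X) {Y : Finset V} (hY : Y ⊆ X) (hne : Y ≠ X)
include H hY hne

theorem MC.cl_core1 (hp : ps G k Y ≤ 1) {N : Finset V} (hN : N ⊆ Y) (hc : N.card + 1 = k)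
    {s s' ρ ρ' : V} (hs : s ∈ Y) (hs' : s' ∈ Y) (hsN : s ∉ N) (hsN' : s' ∉ N) (hss : s ≠ s')
    (hS : StarT G k Y (insert s N) ρ) (hS' : StarT G k Y (insert s' N) ρ')
    {α β : V} (hα : α ∈ N) (hβ : β ∈ N) (hab : α ≠ β) (hn : ¬ G.Adj α β) :
    (ρ = α ∨ ρ = β) ∧ ∀ n ∈ N, n ≠ α → n ≠ β → ¬ G.Adj n ρ := by
  have key : ∀ {t τ : V}, StarT G k Y (insert t N) τ → τ = α ∨ τ = β := by
    intro t τ hS
    by_contra hcon
    push Not at hcon
    exact hn (hS.clq α (mem_erase.2 ⟨Ne.symm hcon.1, mem_insert_of_mem hα⟩) β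
      (mem_erase.2 ⟨Ne.symm hcon.2, mem_insert_of_mem hβ⟩) hab)
  have h1 := key hS
  have h2 := key hS'
  refine ⟨h1, ?_⟩
  intro n hnN hnα hnβ hnρ
  have hρN : ρ ∈ N := by
    rcases h1 with h | h
    · exact h ▸ hα
    · exact h ▸ hβ
  have hρN' : ρ' ∈ N := by
    rcases h2 with h | h
    · exact h ▸ hα
    · exact h ▸ hβ
  have hnρ1 : n ≠ ρ := by
    rcases h1 with h | h
    · rw [h]
      exact hnα
    · rw [h]
      exact hnβ
  have hnρ2 : n ≠ ρ' := by
    rcases h2 with h | h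
    · rw [h]
      exact hnα
    · rw [h]
      exact hnβ
  have hsub : insert s (insert s' (N.erase n)) ⊆ nb G Y n := by
    intro u hu
    rw [mem_insert, mem_insert, mem_erase] at hu
    rw [mem_nb]
    rcases hu with rfl | rfl | hu
    · exact ⟨hs, hS.clq n (mem_erase.2 ⟨hnρ1, mem_insert_of_mem hnN⟩) u
        (mem_erase.2 ⟨fun e => hsN (e ▸ hρN), mem_insert_self _ _⟩) (fun e => hsN (e ▸ hnN))⟩
    · exact ⟨hs', hS'.clq n (mem_erase.2 ⟨hnρ2, mem_insert_of_mem hnN⟩) u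
        (mem_erase.2 ⟨fun e => hsN' (e ▸ hρN'), mem_insert_self _ _⟩)
        (fun e => hsN' (e ▸ hnN))⟩
    · refine ⟨hN hu.2, ?_⟩
      by_cases e : u = ρ
      · rw [e]
        exact hnρ
      · exact hS.clq n (mem_erase.2 ⟨hnρ1, mem_insert_of_mem hnN⟩) u
          (mem_erase.2 ⟨e, mem_insert_of_mem hu.2⟩) (Ne.symm hu.1)
  have h3 := Finset.card_le_card hsub
  have h4 : s' ∉ N.erase n := fun h => hsN' (mem_erase.1 h).2
  have h5 : s ∉ insert s' (N.erase n) := by
    rw [mem_insert]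
    rintro (h | h)
    · exact hss h
    · exact hsN (mem_erase.1 h).2
  rw [Finset.card_insert_of_notMem h5, Finset.card_insert_of_notMem h4] at h3
  have h6 := Finset.card_erase_add_one hnN
  have h7 : (nb G Y n).card + 1 = k := by
    rcases h1 with h | h
    · refine H.fn_star hY hne hp hS (l := β) ?_ n (mem_insert_of_mem hnN) hnρ1 hnβ
      rw [h]
      exact mem_nb.2 ⟨mem_insert_of_mem hβ, (SimpleGraph.compl_adj _ _ _).2 ⟨hab, hn⟩⟩
    · refine H.fn_star hY hne hp hS (l := α) ?_ n (mem_insert_of_mem hnN) hnρ1 hnα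
      rw [h]
      exact mem_nb.2 ⟨mem_insert_of_mem hα, (SimpleGraph.compl_adj _ _ _).2
        ⟨hab.symm, fun e => hn e.symm⟩⟩
  omega

theorem MC.cl_core (hk : 5 ≤ k) (hp : ps G k Y ≤ 1) {N : Finset V} (hN : N ⊆ Y)
    (hc : N.card + 1 = k) (hncl : ¬ Clq G N)
    {s s' : V} (hs : s ∈ Y) (hs' : s' ∈ Y) (hsN : s ∉ N) (hsN' : s' ∉ N) (hss : s ≠ s')
    (ht : Tr G Y (insert s N)) (ht' : Tr G Y (insert s' N)) :
    ∃ ρ ∈ N, ∀ n ∈ N, n ≠ ρ → (nb G Y n).card + 1 = k ∧
      nb G Y n = insert s (insert s' ((N.erase ρ).erase n)) := by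
  have htau := H.tau0 hY hne hp
  obtain ⟨ρ, hS⟩ := H.star8g hY hne (by omega) htau (Finset.insert_subset hs hN)
    (by rw [Finset.card_insert_of_notMem hsN]; exact hc) ht (Or.inl hp)
  obtain ⟨ρ', hS'⟩ := H.star8g hY hne (by omega) htau (Finset.insert_subset hs' hN)
    (by rw [Finset.card_insert_of_notMem hsN']; exact hc) ht' (Or.inl hp)
  unfold Clq at hncl
  push Not at hncl
  obtain ⟨α, hα, β, hβ, hab, hn⟩ := hncl
  obtain ⟨c1, c2⟩ := H.cl_core1 hY hne hp hN hc hs hs' hsN hsN' hss hS hS' hα hβ hab hn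
  obtain ⟨c3, c4⟩ := H.cl_core1 hY hne hp hN hc hs' hs hsN' hsN hss.symm hS' hS hα hβ hab hn
  obtain ⟨n0, hn0⟩ : ((N.erase α).erase β).Nonempty := by
    rw [← Finset.card_pos]
    have h1 := Finset.card_erase_add_one hα
    have h2 := Finset.card_erase_add_one (mem_erase.2 ⟨hab.symm, hβ⟩ : β ∈ N.erase α)
    omega
  rw [mem_erase, mem_erase] at hn0
  obtain ⟨hn0β, hn0α, hn0N⟩ := hn0
  have d1 := c2 n0 hn0N hn0α hn0β
  have d2 := c4 n0 hn0N hn0α hn0β
  have hρN : ρ ∈ N := by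
    rcases c1 with h | h
    · exact h ▸ hα
    · exact h ▸ hβ
  have hρN' : ρ' ∈ N := by
    rcases c3 with h | h
    · exact h ▸ hα
    · exact h ▸ hβ
  have hn0ρ : n0 ≠ ρ := by
    rcases c1 with h | h
    · rw [h]
      exact hn0α
    · rw [h]
      exact hn0β
  have hn0ρ' : n0 ≠ ρ' := by
    rcases c3 with h | h
    · rw [h]
      exact hn0α
    · rw [h]
      exact hn0β
  have hρρ : ρ' = ρ := by
    by_contra hcon
    exact d2 (hS.clq n0 (mem_erase.2 ⟨hn0ρ, mem_insert_of_mem hn0N⟩) ρ'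
      (mem_erase.2 ⟨hcon, mem_insert_of_mem hρN'⟩) hn0ρ')
  rw [hρρ] at hS'
  have hmiss : ∀ n ∈ N, n ≠ ρ → ¬ G.Adj n ρ := by
    intro n hnN hnρ
    by_cases e1 : n = α
    · rcases c1 with h | h
      · exact absurd (e1.trans h.symm) hnρ
      · rw [e1, h]
        exact hn
    · by_cases e2 : n = β
      · rcases c1 with h | h
        · rw [e2, h]
          exact fun e => hn e.symm
        · exact absurd (e2.trans h.symm) hnρ
      · exact c2 n hnN e1 e2
  refine ⟨ρ, hρN, ?_⟩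
  intro n hnN hnρ
  have hnE : n ∈ N.erase ρ := mem_erase.2 ⟨hnρ, hnN⟩
  have e1 := Finset.card_erase_add_one hρN
  have e2 := Finset.card_erase_add_one hnE
  obtain ⟨l, hl, hln⟩ := Finset.exists_mem_ne (s := N.erase ρ) (by omega) n
  rw [mem_erase] at hl
  have hd : (nb G Y n).card + 1 = k := by
    refine H.fn_star hY hne hp hS (l := l) ?_ n (mem_insert_of_mem hnN) hnρ (Ne.symm hln)
    exact mem_nb.2 ⟨mem_insert_of_mem hl.2, (SimpleGraph.compl_adj _ _ _).2
      ⟨Ne.symm hl.1, fun e => hmiss l hl.2 hl.1 e.symm⟩⟩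
  refine ⟨hd, ?_⟩
  have hsub : insert s (insert s' ((N.erase ρ).erase n)) ⊆ nb G Y n := by
    intro u hu
    rw [mem_insert, mem_insert, mem_erase, mem_erase] at hu
    rw [mem_nb]
    rcases hu with rfl | rfl | hu
    · exact ⟨hs, hS.clq n (mem_erase.2 ⟨hnρ, mem_insert_of_mem hnN⟩) u
        (mem_erase.2 ⟨fun e => hsN (e ▸ hρN), mem_insert_self _ _⟩) (fun e => hsN (e ▸ hnN))⟩
    · exact ⟨hs', hS'.clq n (mem_erase.2 ⟨hnρ, mem_insert_of_mem hnN⟩) u
        (mem_erase.2 ⟨fun e => hsN' (e ▸ hρN), mem_insert_self _ _⟩)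
        (fun e => hsN' (e ▸ hnN))⟩
    · exact ⟨hN hu.2.2, hS.clq n (mem_erase.2 ⟨hnρ, mem_insert_of_mem hnN⟩) u
          (mem_erase.2 ⟨hu.2.1, mem_insert_of_mem hu.2.2⟩) (Ne.symm hu.1)⟩
  have h4 : s' ∉ (N.erase ρ).erase n := fun h => hsN' (mem_erase.1 (mem_erase.1 h).2).2
  have h5 : s ∉ insert s' ((N.erase ρ).erase n) := by
    rw [mem_insert]
    rintro (h | h)
    · exact hss h
    · exact hsN (mem_erase.1 (mem_erase.1 h).2).2
  refine (Finset.eq_of_subset_of_card_le hsub ?_).symm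
  rw [Finset.card_insert_of_notMem h5, Finset.card_insert_of_notMem h4]
  omega

end

theorem ClT.toD {k : ℕ} {X Q Q' : Finset V} {y1 y2 y3 z z' : V} (H : MC G k X)
    (hk : k = 5 ∨ k = 6) (T : ClT G k X Q Q' y1 y2 y3 z z')
    (hd : (nb G X y1).card + 4 = 2 * k) :
    ClD G k X Q Q' y1 y2 y3 z z' ∨ ClD G k X Q Q' y1 y2 y3 z' z := by
  have g := T.nums H hk
  have g6 := T.deg1 H hk
  have h0 : (nb G (X \ clW Q Q' y1 y2 y3 z z') y1).card = 0 := by omega
  rw [h0] at g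
  have e0 := Finset.card_eq_zero.1 h0
  by_cases a1 : G.Adj y2 z
  · left
    rw [ad_one a1] at g
    have a2 : ¬ G.Adj y2 z' := fun h => by rw [ad_one h] at g; omega
    have a3 : ¬ G.Adj y3 z := fun h => by rw [ad_one h] at g; omega
    have a4 : G.Adj y3 z' := by
      by_contra h
      rw [ad_zero a2, ad_zero a3, ad_zero h] at g
      omega
    exact ⟨T, e0, a1, a2, a3, a4⟩
  · right
    rw [ad_zero a1] at g
    have a2 : G.Adj y2 z' := by
      by_contra h
      rw [ad_zero h] at g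
      omega
    rw [ad_one a2] at g
    have a3 : ¬ G.Adj y3 z' := fun h => by rw [ad_one h] at g; omega
    have a4 : G.Adj y3 z := by
      by_contra h
      rw [ad_zero a3, ad_zero h] at g
      omega
    exact ⟨T.sr, by rw [← ClT.wsr]; exact e0, a2, a1, a3, a4⟩

/-- an outer vertex all of whose neighbours have degree `k` -/
theorem MC.cl_claimA' {k : ℕ} {X : Finset V} (H : MC G k X) (hk : k = 5 ∨ k = 6)
    (hb : ClAllBad G k X) {Q : Finset V} {y1 y2 y3 : V} (C : ClP G k X Q y1 y2 y3) :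
    ∃ y, (y = y1 ∨ y = y2 ∨ y = y3) ∧ ∀ u ∈ X, G.Adj y u → (nb G X u).card = k := by
  obtain ⟨y, w, w', Q1, u, u', hy, T, hd⟩ := H.cl_claimA hk hb C
  refine ⟨y, hy, ?_⟩
  rcases T.toD H hk hd with D | D
  · exact fun u hu h => D.nb1 H hk hu h
  · exact fun u hu h => D.nb1 H hk hu h

namespace ClD
variable {k : ℕ} {X Q Q' : Finset V} {y1 y2 y3 z z' : V}

theorem false (H : MC G k X) (hk : k = 5 ∨ k = 6) (D : ClD G k X Q Q' y1 y2 y3 z z')
    (hb : ClAllBad G k X) : False := by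
  obtain ⟨Y, hY⟩ : ∃ Y, Y = X \ clW Q Q' y1 y2 y3 z z' := ⟨_, rfl⟩
  have hY' : Y = X \ clW Q' Q y1 z z' y2 y3 := by rw [← ClT.wswap]; exact hY
  obtain ⟨r, hrT, hS, hall, hp1, hNc, hcase⟩ := D.star H hk hb Y hY
  obtain ⟨r2, hrT2, hS2, hall2, -, -, hcase2⟩ := D.swap.star H hk hb Y hY'
  have hdeg := D.dAB H hk hb Y hY
  obtain ⟨-, -, -, hp, -⟩ := D.ns H hk Y hY
  have hne := H.cl_sdne (D.T.hn H hk) (D.T.WX H hk)
  have hiW := fun {v : V} => D.T.inW H hk (v := v)
  have hdv := fun {v : V} => D.T.degv H hk (v := v)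
  have e0 := D.e0
  have hd2 := D.T.C.d2
  have hd3 := D.T.C.d3
  have hX2 := D.T.C.h2
  have hX3 := D.T.C.h3
  have hk5 : 5 ≤ k := by omega
  rw [← hY] at hne hiW hdv e0
  have hYX : Y ⊆ X := by rw [hY]; exact Finset.sdiff_subset
  obtain ⟨T1, hT1⟩ : ∃ T, T = nb G Y y2 ∪ nb G Y y3 := ⟨_, rfl⟩
  obtain ⟨T2, hT2⟩ : ∃ T, T = nb G Y z ∪ nb G Y z' := ⟨_, rfl⟩
  rw [← hT1] at hrT hS hall hp1 hNc hcase hall2 hcase2 hdeg
  rw [← hT2] at hrT2 hS2 hall2 hcase hcase2 hall
  have hT1Y := hS.hT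
  have hT2Y := hS2.hT
  obtain ⟨Z, hZ⟩ : ∃ Z, Z = Y \ T1 := ⟨_, rfl⟩
  obtain ⟨N, hN⟩ : ∃ N, N = nb G Y r \ T1 := ⟨_, rfl⟩
  rw [← hZ] at hp1
  rw [← hN] at hNc
  have hZY : Z ⊆ Y := by rw [hZ]; exact Finset.sdiff_subset
  have hZX : Z ⊆ X := hZY.trans hYX
  have hZne : Z ≠ X := by
    intro h
    exact hne (Finset.Subset.antisymm hYX (h ▸ hZY))
  have hNZ : N ⊆ Z := by
    rw [hN, hZ]
    exact Finset.sdiff_subset_sdiff (nb_sub _ _) (Finset.Subset.refl _)
  have htauZ := H.tau0 hZX hZne hp1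
  -- outside neighbours of the clique
  have hone : ∀ v ∈ T1, v ≠ r → ¬ G.Adj v r → ∃ s, nb G Y v \ T1 = {s} ∧ s ∈ Z ∧ s ∉ N ∧
      Tr G Z (insert s N) := by
    intro v hv hvr hna
    have h1 := deg_split (G := G) hT1Y hv
    have h2 : nb Gᶜ T1 v = {r} := by
      ext u
      rw [mem_nb, mem_singleton, SimpleGraph.compl_adj]
      constructor
      · rintro ⟨h, h', h''⟩
        by_contra hur
        exact h'' (hS.clq v (mem_erase.2 ⟨hvr, hv⟩) u (mem_erase.2 ⟨hur, h⟩) h')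
      · rintro rfl
        exact ⟨hrT, hvr, hna⟩
    rw [h2, Finset.card_singleton, hS.hc] at h1
    have h3 := (hall v hv hvr).1
    obtain ⟨s, hs⟩ := Finset.card_eq_one.1 (by omega : (nb G Y v \ T1).card = 1)
    have hs1 : s ∈ nb G Y v \ T1 := by rw [hs]; exact mem_singleton_self s
    rw [mem_sdiff, mem_nb] at hs1
    have hsZ : s ∈ Z := by
      rw [hZ]
      exact mem_sdiff.2 ⟨hs1.1.1, hs1.2⟩
    have htr : Tr G Z (insert s N) := by
      rw [hZ]
      refine tr_nbr (X := Y) (J := {r, v}) Finset.sdiff_subset ?_ ?_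
        (indep_pair (fun e => hna e.symm)) ?_ ?_
      · intro u hu
        rw [mem_insert, mem_singleton] at hu
        rcases hu with rfl | rfl
        · exact hT1Y hrT
        · exact hT1Y hv
      · rw [Finset.disjoint_left]
        intro u hu hu'
        rw [mem_insert, mem_singleton] at hu
        rcases hu with rfl | rfl
        · exact (mem_sdiff.1 hu').2 hrT
        · exact (mem_sdiff.1 hu').2 hv
      · rw [Finset.card_pair (Ne.symm hvr)]
        have := hS.alT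
        omega
      · intro u hu w hw h
        rw [mem_sdiff] at hw
        rw [mem_insert, mem_singleton] at hu
        rw [mem_insert]
        rcases hu with rfl | rfl
        · right
          rw [hN]
          exact mem_sdiff.2 ⟨mem_nb.2 ⟨hw.1, h⟩, hw.2⟩
        · left
          have h4 : w ∈ nb G Y u \ T1 := mem_sdiff.2 ⟨mem_nb.2 ⟨hw.1, h⟩, hw.2⟩
          rw [hs, mem_singleton] at h4
          exact h4
    refine ⟨s, hs, hsZ, ?_, htr⟩
    intro hsN
    have h4 := htauZ _ (Finset.insert_subset hsZ hNZ) htr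
    rw [Finset.insert_eq_self.2 hsN] at h4
    omega
  have hzero : ∀ v ∈ T1, v ≠ r → G.Adj v r → nb G Y v \ T1 = ∅ := by
    intro v hv hvr hna
    have h1 := deg_split (G := G) hT1Y hv
    have h3 := (hall v hv hvr).1
    rw [hS.hc] at h1
    have h2 : nb Gᶜ T1 v = ∅ := by
      rw [Finset.eq_empty_iff_forall_notMem]
      intro u hu
      rw [mem_nb, SimpleGraph.compl_adj] at hu
      by_cases hur : u = r
      · exact hu.2.2 (hur ▸ hna)
      · exact hu.2.2 (hS.clq v (mem_erase.2 ⟨hvr, hv⟩) u (mem_erase.2 ⟨hur, hu.1⟩) hu.2.1)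
    rw [h2, Finset.card_empty] at h1
    exact Finset.card_eq_zero.1 (by omega)
  have hnbc := nbc_card (G := G) hrT
  rw [hS.hc] at hnbc
  -- two different outside neighbours
  obtain ⟨v, v', s, s', hv, hvr, hna, hs, hv', hvr', hna', hs', hss, hsub⟩ :
      ∃ v v' s s', v ∈ T1 ∧ v ≠ r ∧ ¬ G.Adj v r ∧ nb G Y v \ T1 = {s} ∧ v' ∈ T1 ∧ v' ≠ r ∧
        ¬ G.Adj v' r ∧ nb G Y v' \ T1 = {s'} ∧ s ≠ s' ∧ ∀ u ∈ T2, u ∈ T1 ∨ u = s := by
    rcases hcase with ⟨c1, c2⟩ | ⟨c1, c2⟩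
    · have hsubT : T1 ⊆ T2 := by
        intro u hu
        by_cases e : u = r
        · rw [e]
          exact c2
        · exact (hall u hu e).2
      have hTT : T1 = T2 := Finset.eq_of_subset_of_card_le hsubT (by rw [hS.hc, hS2.hc])
      have hnon : ∀ u ∈ T1, u ≠ r → ¬ G.Adj u r := by
        intro u hu hur h
        have h1 : (nb G T1 r).card = 0 := by omega
        have h2 : u ∈ nb G T1 r := mem_nb.2 ⟨hu, h.symm⟩
        rw [Finset.card_eq_zero.1 h1] at h2
        simp at h2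
      obtain ⟨v, hv⟩ : (T1.erase r).Nonempty := by
        rw [← Finset.card_pos]
        have h1 := Finset.card_erase_add_one hrT
        rw [hS.hc] at h1
        omega
      have hv2 := mem_erase.1 hv
      obtain ⟨s, hs, hsZ, hsN, -⟩ := hone v hv2.2 hv2.1 (hnon v hv2.2 hv2.1)
      have hsT : s ∉ T1 := by
        rw [hZ] at hsZ
        exact (mem_sdiff.1 hsZ).2
      have hex : ∃ v' ∈ T1.erase r, ¬ G.Adj v' s := by
        by_contra hcon
        push Not at hcon
        have h1 : Clq G (insert s (T1.erase r)) := by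
          intro a ha b hb' hab
          rw [mem_insert] at ha hb'
          rcases ha with rfl | ha <;> rcases hb' with rfl | hb'
          · exact absurd rfl hab
          · exact (hcon b hb').symm
          · exact hcon a ha
          · exact hS.clq a ha b hb' hab
        have h2 := H.clq_lt (Finset.insert_subset (hZX hsZ)
          ((Finset.erase_subset _ _).trans (hT1Y.trans hYX))) h1
        rw [Finset.card_insert_of_notMem (fun h => hsT (mem_erase.1 h).2)] at h2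
        have h3 := Finset.card_erase_add_one hrT
        rw [hS.hc] at h3
        omega
      obtain ⟨v', hv', hvs⟩ := hex
      have hv2' := mem_erase.1 hv'
      obtain ⟨s', hs', -, -, -⟩ := hone v' hv2'.2 hv2'.1 (hnon v' hv2'.2 hv2'.1)
      refine ⟨v, v', s, s', hv2.2, hv2.1, hnon v hv2.2 hv2.1, hs, hv2'.2, hv2'.1,
        hnon v' hv2'.2 hv2'.1, hs', ?_, fun u hu => Or.inl (hTT ▸ hu)⟩
      intro e
      have h1 : s' ∈ nb G Y v' \ T1 := by rw [hs']; exact mem_singleton_self s'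
      rw [← e] at h1
      exact hvs (mem_nb.1 (mem_sdiff.1 h1).1).2
    · have hr2T1 : r2 ∉ T1 := by
        intro h
        have hsubT : T2 ⊆ T1 := by
          intro u hu
          by_cases e : u = r2
          · rw [e]
            exact h
          · exact (hall2 u hu e).2
        have hTT : T2 = T1 := Finset.eq_of_subset_of_card_le hsubT (by rw [hS.hc, hS2.hc])
        exact c2 (hTT ▸ hrT)
      have hq2 : (nb Gᶜ T2 r2).card + 2 = k := by
        rcases hcase2 with ⟨-, h⟩ | ⟨h, -⟩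
        · exact absurd h hr2T1
        · exact h
      have hnbc2 := nbc_card (G := G) hrT2
      rw [hS2.hc] at hnbc2
      obtain ⟨v2, hv2⟩ := Finset.card_eq_one.1 (by omega : (nb G T2 r2).card = 1)
      have hv2m : v2 ∈ nb G T2 r2 := by rw [hv2]; exact mem_singleton_self v2
      have hv2' := mem_nb.1 hv2m
      have hv2r2 : v2 ≠ r2 := fun e => G.loopless.irrefl r2 (e ▸ hv2'.2)
      have hv2T1 := (hall2 v2 hv2'.1 hv2r2).2
      have hv2r : v2 ≠ r := fun e => c2 (e ▸ hv2'.1)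
      have hr2m : r2 ∈ nb G Y v2 \ T1 :=
        mem_sdiff.2 ⟨mem_nb.2 ⟨hT2Y hrT2, hv2'.2.symm⟩, hr2T1⟩
      have hv2na : ¬ G.Adj v2 r := by
        intro h
        rw [hzero v2 hv2T1 hv2r h] at hr2m
        simp at hr2m
      obtain ⟨s, hs, -, -, -⟩ := hone v2 hv2T1 hv2r hv2na
      have hsr2 : r2 = s := by
        rw [hs, mem_singleton] at hr2m
        exact hr2m
      obtain ⟨v', hv'⟩ : (((T1.erase r).erase v2) \ nb G T1 r).Nonempty := by
        rw [← Finset.card_pos]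
        have h1 := Finset.card_erase_add_one hrT
        have h2 := Finset.card_erase_add_one (mem_erase.2 ⟨hv2r, hv2T1⟩ : v2 ∈ T1.erase r)
        have h3 := Finset.le_card_sdiff (nb G T1 r) ((T1.erase r).erase v2)
        rw [hS.hc] at h1
        omega
      rw [mem_sdiff, mem_erase, mem_erase, mem_nb] at hv'
      obtain ⟨⟨hv'2, hv'r, hv'T⟩, hv'n⟩ := hv'
      have hv'na : ¬ G.Adj v' r := fun h => hv'n ⟨hv'T, h.symm⟩
      obtain ⟨s', hs', -, -, -⟩ := hone v' hv'T hv'r hv'na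
      refine ⟨v2, v', s, s', hv2T1, hv2r, hv2na, hs, hv'T, hv'r, hv'na, hs', ?_, ?_⟩
      · intro e
        have h1 : s' ∈ nb G Y v' \ T1 := by rw [hs']; exact mem_singleton_self s'
        rw [← e, ← hsr2] at h1
        have h2 : v' ∈ nb G T2 r2 :=
          mem_nb.2 ⟨(hall v' hv'T hv'r).2, (mem_nb.1 (mem_sdiff.1 h1).1).2.symm⟩
        rw [hv2, mem_singleton] at h2
        exact hv'2 h2
      · intro u hu
        by_cases e : u = r2
        · exact Or.inr (e.trans hsr2)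
        · exact Or.inl (hall2 u hu e).2
  obtain ⟨s1, hs1, hsZ, hsN, htr⟩ := hone v hv hvr hna
  rw [hs, Finset.singleton_inj] at hs1
  rw [← hs1] at hsZ hsN htr
  obtain ⟨s2, hs2, hsZ', hsN', htr'⟩ := hone v' hv' hvr' hna'
  rw [hs', Finset.singleton_inj] at hs2
  rw [← hs2] at hsZ' hsN' htr'
  have hrN : ∀ n ∈ N, G.Adj r n := by
    intro n hn
    rw [hN] at hn
    exact (mem_nb.1 (mem_sdiff.1 hn).1).2
  have hncl : ¬ Clq G N := by
    intro hcl
    have h1 : Clq G (insert r N) := by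
      intro a ha b hb' hab
      rw [mem_insert] at ha hb'
      rcases ha with rfl | ha <;> rcases hb' with rfl | hb'
      · exact absurd rfl hab
      · exact hrN b hb'
      · exact (hrN a ha).symm
      · exact hcl a ha b hb' hab
    have h2 := H.clq_lt (Finset.insert_subset (hYX (hT1Y hrT)) (hNZ.trans hZX)) h1
    rw [Finset.card_insert_of_notMem (fun h => G.loopless.irrefl r (hrN r h))] at h2
    omega
  obtain ⟨ρ, hρ, hcore⟩ := H.cl_core hZX hZne hk5 hp1 hNZ hNc hncl hsZ hsZ' hsN hsN' hss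
    htr htr'
  -- degrees of the new cell
  have hnT : ∀ n ∈ N, nb G T1 n = {r} := by
    intro n hn
    have hnZ := hNZ hn
    rw [hZ, mem_sdiff] at hnZ
    ext u
    rw [mem_nb, mem_singleton]
    constructor
    · rintro ⟨h1, h2⟩
      by_contra hur
      have h3 : n ∈ nb G Y u \ T1 := mem_sdiff.2 ⟨mem_nb.2 ⟨hnZ.1, h2.symm⟩, hnZ.2⟩
      by_cases hadj : G.Adj u r
      · rw [hzero u h1 hur hadj] at h3
        simp at h3
      · obtain ⟨t, ht, -, htN, -⟩ := hone u h1 hur hadj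
        rw [ht, mem_singleton] at h3
        exact htN (h3 ▸ hn)
    · rintro rfl
      exact ⟨hrT, (hrN n hn).symm⟩
  have hnW : ∀ n ∈ N, (nb G (clW Q Q' y1 y2 y3 z z') n).card = 0 := by
    intro n hn
    have hnZ := hNZ hn
    have hnY := hZY hnZ
    rw [hZ, mem_sdiff] at hnZ
    have hnT2 : n ∉ T2 := by
      intro h
      rcases hsub n h with h1 | h1
      · exact hnZ.2 h1
      · exact hsN (h1 ▸ hn)
    have z1 : ¬ G.Adj n y1 := by
      intro h
      have : n ∈ nb G Y y1 := mem_nb.2 ⟨hnY, h.symm⟩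
      rw [e0] at this
      simp at this
    have z2 : ¬ G.Adj n y2 := by
      intro h
      apply hnZ.2
      rw [hT1]
      exact mem_union_left _ (mem_nb.2 ⟨hnY, h.symm⟩)
    have z3 : ¬ G.Adj n y3 := by
      intro h
      apply hnZ.2
      rw [hT1]
      exact mem_union_right _ (mem_nb.2 ⟨hnY, h.symm⟩)
    have z4 : ¬ G.Adj n z := by
      intro h
      apply hnT2
      rw [hT2]
      exact mem_union_left _ (mem_nb.2 ⟨hnY, h.symm⟩)
    have z5 : ¬ G.Adj n z' := by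
      intro h
      apply hnT2
      rw [hT2]
      exact mem_union_right _ (mem_nb.2 ⟨hnY, h.symm⟩)
    rw [hiW hnY, ad_zero z1, ad_zero z2, ad_zero z3, ad_zero z4, ad_zero z5]
  have hYn : ∀ n ∈ N, (nb G X n).card = 1 + (nb G Z n).card := by
    intro n hn
    have h1 := cl_nb_split (G := G) (D.T.WX H hk) n
    rw [hnW n hn, ← hY, cl_nb_split (G := G) hT1Y n, hnT n hn, Finset.card_singleton, ← hZ] at h1
    omega
  have hNd : ∀ n ∈ N, n ≠ ρ → (nb G X n).card = k := by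
    intro n hn hnρ
    have h1 := hYn n hn
    have h2 := (hcore n hn hnρ).1
    omega
  obtain ⟨n, hn, hnρ⟩ := Finset.exists_mem_ne (s := N) (by omega) ρ
  obtain ⟨Q1, w1, w2, w3, hnQ, C1⟩ := hb n (hZX (hNZ hn)) (hNd n hn hnρ)
  obtain ⟨y, hy, hall3⟩ := H.cl_claimA' hk hb C1
  have hy1 : y ∈ X ∧ G.Adj n y ∧ k + 1 ≤ (nb G X y).card := by
    rcases hy with rfl | rfl | rfl
    · exact ⟨C1.h1, C1.b1 n hnQ, C1.d1⟩
    · exact ⟨C1.h2, C1.b2 n hnQ, C1.d2⟩
    · exact ⟨C1.h3, C1.b3 n hnQ, C1.d3⟩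
  obtain ⟨hyX, hny, hyd⟩ := hy1
  have hyW : y ∉ clW Q Q' y1 y2 y3 z z' := by
    intro h
    have h1 : y ∈ nb G (clW Q Q' y1 y2 y3 z z') n := mem_nb.2 ⟨h, hny⟩
    rw [Finset.card_eq_zero.1 (hnW n hn)] at h1
    simp at h1
  have hyY : y ∈ Y := by
    rw [hY]
    exact mem_sdiff.2 ⟨hyX, hyW⟩
  by_cases hyT : y ∈ T1
  · have h1 : y ∈ nb G T1 n := mem_nb.2 ⟨hyT, hny⟩
    rw [hnT n hn, mem_singleton] at h1
    rw [h1] at hall3
    rw [hT1, mem_union, mem_nb, mem_nb] at hrT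
    rcases hrT with h | h
    · have := hall3 y2 hX2 h.2.symm
      omega
    · have := hall3 y3 hX3 h.2.symm
      omega
  · have hyZ : y ∈ Z := by
      rw [hZ]
      exact mem_sdiff.2 ⟨hyY, hyT⟩
    have h1 : y ∈ nb G Z n := mem_nb.2 ⟨hyZ, hny⟩
    rw [(hcore n hn hnρ).2, mem_insert, mem_insert, mem_erase, mem_erase] at h1
    rcases h1 with h1 | h1 | h1
    · have h2 : s ∈ nb G Y v \ T1 := by rw [hs]; exact mem_singleton_self s
      rw [h1] at hall3
      have h3 := hall3 v (hYX (hT1Y hv)) (mem_nb.1 (mem_sdiff.1 h2).1).2.symm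
      have h4 := hdeg v hv
      omega
    · have h2 : s' ∈ nb G Y v' \ T1 := by rw [hs']; exact mem_singleton_self s'
      rw [h1] at hall3
      have h3 := hall3 v' (hYX (hT1Y hv')) (mem_nb.1 (mem_sdiff.1 h2).1).2.symm
      have h4 := hdeg v' hv'
      omega
    · have h2 := hNd y h1.2.2 h1.2.1
      omega

end ClD

/-- not every vertex of degree `k` lies in a cell -/
theorem MC.cl_false {k : ℕ} {X : Finset V} (H : MC G k X) (hk : k = 5 ∨ k = 6)
    (hb : ClAllBad G k X) : False := by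
  obtain ⟨v0, hv0, hd0⟩ := H.exists_deg
  obtain ⟨Q0, a1, a2, a3, hvQ0, C0⟩ := hb v0 hv0 hd0
  obtain ⟨y, w, w', Q1, u, u', hy, T, hd⟩ := H.cl_claimA hk hb C0
  rcases T.toD H hk hd with D | D
  · exact D.false H hk hb
  · exact D.false H hk hb

end Pool.Agent.TwoDens.TS
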