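import Pool.Agent.TKS.CLA

/-!
Facts about one cell, `k = 5, 6`.
-/

open Finset

namespace Pool.Agent.TwoDens.TS

open Pool.Agent.TwoDens Pool.Agent.TwoDens.RK Pool.Agent.TwoDens.DD

variable {V : Type*} [DecidableEq V] {G : SimpleGraph V} [DecidableRel G.Adj]

theorem cl_bd_self (X : Finset V) : bd G X X = 0 := by
  rw [cl_bd_eq, Finset.sum_eq_zero_iff]
  intro v _
  rw [Finset.sdiff_self]
  rfl

theorem cl_exs_union {k : ℕ} {X S T : Finset V} (h : Disjoint S T) :
    exs G k X (S ∪ T) = exs G k X S + exs G k X T := by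
  unfold exs
  exact Finset.sum_union h

namespace ClP
variable {k : ℕ} {X Q : Finset V} {y1 y2 y3 : V} (C : ClP G k X Q y1 y2 y3)

/-- the second neighbourhood -/
def U (G : SimpleGraph V) [DecidableRel G.Adj] (X Q : Finset V) (y1 y2 y3 : V) : Finset V :=
  nb G (X \ clF Q y1 y2 y3) y1 ∪
    (nb G (X \ clF Q y1 y2 y3) y2 ∪ nb G (X \ clF Q y1 y2 y3) y3)

theorem USub : U G X Q y1 y2 y3 ⊆ X \ clF Q y1 y2 y3 := by
  unfold U
  exact Finset.union_subset (nb_sub _ _) (Finset.union_subset (nb_sub _ _) (nb_sub _ _))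

theorem dU : Disjoint (clF Q y1 y2 y3) (U G X Q y1 y2 y3) := by
  rw [Finset.disjoint_left]
  intro v hv hv'
  exact (mem_sdiff.1 (USub hv')).2 hv

include C

theorem cardW : (clF Q y1 y2 y3 ∪ U G X Q y1 y2 y3).card = k + 1 + (U G X Q y1 y2 y3).card := by
  rw [Finset.card_union_of_disjoint dU, C.cardF]

theorem cardU : (U G X Q y1 y2 y3).card + 3 * k ≤
    (nb G X y1).card + (nb G X y2).card + (nb G X y3).card + 6 := by
  have h1 := C.out1
  have h2 := C.s12.out1
  rw [← clF12] at h2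
  have h3 := C.s23.s12.out1
  rw [← clF12, ← clF23] at h3
  unfold U
  have h4 := Finset.card_union_le (nb G (X \ clF Q y1 y2 y3) y1)
    (nb G (X \ clF Q y1 y2 y3) y2 ∪ nb G (X \ clF Q y1 y2 y3) y3)
  have h5 := Finset.card_union_le (nb G (X \ clF Q y1 y2 y3) y2) (nb G (X \ clF Q y1 y2 y3) y3)
  omega

theorem WX : clF Q y1 y2 y3 ∪ U G X Q y1 y2 y3 ⊆ X :=
  Finset.union_subset C.fX (USub.trans Finset.sdiff_subset)

theorem al3' : al G (X \ (clF Q y1 y2 y3 ∪ U G X Q y1 y2 y3)) + 3 ≤ al G X := C.al3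

end ClP

section
variable {k : ℕ} {X : Finset V} (H : MC G k X)
include H

theorem MC.cl_psd {W : Finset V} (hn : W.Nonempty) (hW : W ⊆ X) : 0 ≤ ps G k (X \ W) := by
  refine H.hmin _ Finset.sdiff_subset ?_
  intro h
  obtain ⟨v, hv⟩ := hn
  have := hW hv
  rw [← h] at this
  exact (mem_sdiff.1 this).2 hv

theorem MC.cl_sdne {W : Finset V} (hn : W.Nonempty) (hW : W ⊆ X) : X \ W ≠ X := by
  intro h
  obtain ⟨v, hv⟩ := hn
  have := hW hv
  rw [← h] at this
  exact (mem_sdiff.1 this).2 hv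

theorem MC.clMain (hk : k = 5 ∨ k = 6) {Q : Finset V} {y1 y2 y3 : V}
    (C : ClP G k X Q y1 y2 y3) :
    exs G k X Q = 0 ∧ (nb G X y1).card + (nb G X y2).card + (nb G X y3).card + 6 = 5 * k ∧
      2 * k ≤ (ClP.U G X Q y1 y2 y3).card := by
  have hne : (clF Q y1 y2 y3).Nonempty := ⟨y1, mem_clF.2 (Or.inl rfl)⟩
  have e1 := H.cl_exps hk C.fX C.al1
  have e2' := H.cl_psd hne C.fX
  have e3 := C.exF
  have e4 := C.bdF
  have e5 := C.cardF
  have e6 := H.ps_le
  have e7 := C.cardU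
  have e8 := H.closed3 C.WX C.al3'
  rw [C.cardW] at e8
  have c1 := C.d1
  have c2 := C.d2
  have c3 := C.d3
  have key : 2 * k ≤ (ClP.U G X Q y1 y2 y3).card := by
    by_contra hcon
    push Not at hcon
    have hW := C.cardW
    have hm : exs G k X (clF Q y1 y2 y3) ≤
        exs G k X (clF Q y1 y2 y3 ∪ ClP.U G X Q y1 y2 y3) :=
      exs_mono Finset.subset_union_left
    by_cases hX : clF Q y1 y2 y3 ∪ ClP.U G X Q y1 y2 y3 = X
    · have h1 := C.al3'
      rw [hX] at hW h1
      have h2 := H.sparse_bd (Finset.Subset.refl X) (by omega)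
      rw [cl_bd_self] at h2
      have h3 := ps_sdiff (G := G) k (Finset.Subset.refl X)
      rw [Finset.sdiff_self, ps_empty, al_empty] at h3
      have h4 := sum_deg' (G := G) (Finset.Subset.refl X)
      rw [cl_bd_self] at h4
      have h5 := sum_ge (G := G) (Y := X) (S := X) k (fun v hv => H.deg_ge v hv)
      have h8 : ((∑ v ∈ X, (nb G X v).card : ℕ) : ℤ) = e2 G X := by exact_mod_cast h4
      have h9 : ((∑ v ∈ X, (nb G X v).card : ℕ) : ℤ) = k * X.card + exs G k X X := by
        exact_mod_cast h5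
      have h10 : (k = 5 ∧ (62 : ℤ) * al G X + (exs G k X X : ℤ) = ps G k X + 13 * X.card) ∨
          (k = 6 ∧ (92 : ℤ) * al G X + (exs G k X X : ℤ) = ps G k X + 16 * X.card) := by
        rcases hk with hk | hk
        · left
          refine ⟨hk, ?_⟩
          rw [hk] at h9 h3 ⊢
          push_cast at h9 h3 h8
          linarith
        · right
          refine ⟨hk, ?_⟩
          rw [hk] at h9 h3 ⊢
          push_cast at h9 h3 h8
          linarith
      clear h9 h8 h5 h4 h3
      omega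
    · have hn : (clF Q y1 y2 y3 ∪ ClP.U G X Q y1 y2 y3).Nonempty := hne.mono Finset.subset_union_left
      have h1 := H.cl_exps hk C.WX C.al3'
      have h2 := H.cl_psd hn C.WX
      have h3 := H.cl_bd_tau C.WX hn hX (H.tau1 Finset.sdiff_subset (H.cl_sdne hn C.WX) (by omega))
      have h4 := H.cl_bd_tau C.WX hn hX (H.tau0 Finset.sdiff_subset (H.cl_sdne hn C.WX) (by omega))
      omega
  refine ⟨?_, ?_, key⟩
  · omega
  · omega

theorem MC.clPs (hk : k = 5 ∨ k = 6) {Q : Finset V} {y1 y2 y3 : V}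
    (C : ClP G k X Q y1 y2 y3) : ps G k X = -2 := by
  have hne : (clF Q y1 y2 y3).Nonempty := ⟨y1, mem_clF.2 (Or.inl rfl)⟩
  have e1 := H.cl_exps hk C.fX C.al1
  have e2' := H.cl_psd hne C.fX
  have e3 := C.exF
  have e4 := C.bdF
  have e5 := C.cardF
  have e6 := H.ps_le
  have e7 := H.clMain hk C
  omega

/-- degrees in the clique -/
theorem MC.clQ (hk : k = 5 ∨ k = 6) {Q : Finset V} {y1 y2 y3 : V}
    (C : ClP G k X Q y1 y2 y3) {q : V} (hq : q ∈ Q) :
    (nb G X q).card = k ∧ nb G X q = (clF Q y1 y2 y3).erase q := by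
  have h1 := (H.clMain hk C).1
  unfold exs at h1
  rw [Finset.sum_eq_zero_iff] at h1
  have h2 := h1 q hq
  have h3 := H.deg_ge q (C.hQ hq)
  have h4 : (nb G X q).card = k := by omega
  exact ⟨h4, C.nbk hq h4⟩

/-- no common neighbours -/
theorem MC.clDis (hk : k = 5 ∨ k = 6) {Q : Finset V} {y1 y2 y3 : V}
    (C : ClP G k X Q y1 y2 y3) {v : V} (hv : v ∈ X) (hvQ : v ∉ Q) (h1 : G.Adj y1 v) :
    ¬ G.Adj y2 v := by
  intro h2
  have hF : v ∉ clF Q y1 y2 y3 := by
    rw [mem_clF]
    rintro (h | h | h | h)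
    · exact G.loopless.irrefl y1 (h ▸ h1)
    · exact G.loopless.irrefl y2 (h ▸ h2)
    · exact C.a13 (h ▸ h1)
    · exact hvQ h
  have h3 := H.clMain hk C
  have c1 := C.out1
  have c2 := C.s12.out1
  rw [← clF12] at c2
  have c3 := C.s23.s12.out1
  rw [← clF12, ← clF23] at c3
  have h4 := Finset.card_union_le (nb G (X \ clF Q y1 y2 y3) y1 ∪ nb G (X \ clF Q y1 y2 y3) y2)
    (nb G (X \ clF Q y1 y2 y3) y3)
  rw [Finset.union_assoc] at h4
  have h5 := Finset.card_union_add_card_inter (nb G (X \ clF Q y1 y2 y3) y1)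
    (nb G (X \ clF Q y1 y2 y3) y2)
  have h6 : 1 ≤ (nb G (X \ clF Q y1 y2 y3) y1 ∩ nb G (X \ clF Q y1 y2 y3) y2).card :=
    Finset.card_pos.2 ⟨v, mem_inter.2 ⟨mem_nb.2 ⟨mem_sdiff.2 ⟨hv, hF⟩, h1⟩,
      mem_nb.2 ⟨mem_sdiff.2 ⟨hv, hF⟩, h2⟩⟩⟩
  unfold ClP.U at h3
  omega

/-- upper bound for the degree of the third vertex -/
theorem MC.clUp (hk : k = 5 ∨ k = 6) {Q : Finset V} {y1 y2 y3 : V}
    (C : ClP G k X Q y1 y2 y3) : (nb G X y3).card + 3 ≤ 2 * k := by
  have hm := H.clMain hk C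
  by_contra hcon
  push Not at hcon
  obtain ⟨W, hW⟩ : ∃ W, W = insert y1 (insert y2 Q) ∪
    (nb G (X \ clF Q y1 y2 y3) y1 ∪ nb G (X \ clF Q y1 y2 y3) y2) := ⟨_, rfl⟩
  have hWX : W ⊆ X := by
    rw [hW]
    refine Finset.union_subset (Finset.insert_subset C.h1 (Finset.insert_subset C.h2 C.hQ)) ?_
    exact Finset.union_subset ((nb_sub _ _).trans Finset.sdiff_subset)
      ((nb_sub _ _).trans Finset.sdiff_subset)
  have hn : W.Nonempty := ⟨y1, by rw [hW]; simp⟩
  have c1 := C.out1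
  have c2 := C.s12.out1
  rw [← clF12] at c2
  have hc := C.hc
  have hcW : W.card ≤ Q.card + 2 + ((nb G (X \ clF Q y1 y2 y3) y1).card +
      (nb G (X \ clF Q y1 y2 y3) y2).card) := by
    rw [hW]
    have h1 := Finset.card_union_le (insert y1 (insert y2 Q))
      (nb G (X \ clF Q y1 y2 y3) y1 ∪ nb G (X \ clF Q y1 y2 y3) y2)
    have h2 := Finset.card_union_le (nb G (X \ clF Q y1 y2 y3) y1) (nb G (X \ clF Q y1 y2 y3) y2)
    have h3 := Finset.card_insert_le y1 (insert y2 Q)
    have h4 := Finset.card_insert_le y2 Q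
    omega
  have hal := al_closed (G := G) (Y := X) (S := W) (J := {y1, y2}) (by
      intro z hz
      rw [mem_insert, mem_singleton] at hz
      rcases hz with rfl | rfl
      · exact C.h1
      · exact C.h2) (by
      intro z hz
      rw [mem_insert, mem_singleton] at hz
      rw [hW]
      rcases hz with rfl | rfl
      · simp
      · simp) (indep_pair C.a12) (by
      intro z hz w hw h
      rw [hW, mem_union, mem_union, mem_insert, mem_insert, mem_nb, mem_nb, mem_sdiff, mem_clF]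
      rw [mem_insert, mem_singleton] at hz
      by_cases hwF : w = y1 ∨ w = y2 ∨ w = y3 ∨ w ∈ Q
      · rcases hwF with e | e | e | e
        · exact Or.inl (Or.inl e)
        · exact Or.inl (Or.inr (Or.inl e))
        · exfalso
          rcases hz with rfl | rfl
          · exact C.a13 (e ▸ h)
          · exact C.a23 (e ▸ h)
        · exact Or.inl (Or.inr (Or.inr e))
      · right
        rcases hz with rfl | rfl
        · exact Or.inl ⟨⟨hw, hwF⟩, h⟩
        · exact Or.inr ⟨⟨hw, hwF⟩, h⟩)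
  rw [Finset.card_pair C.n12] at hal
  have h2 := H.closed2 hWX hal
  have h3 := H.cl_exps hk hWX hal
  have h4 := H.cl_psd hn hWX
  have h5 : ((nb G X y1).card - k) + ((nb G X y2).card - k) ≤ exs G k X W := by
    unfold exs
    have h6 : ({y1, y2} : Finset V) ⊆ W := by
      intro z hz
      rw [mem_insert, mem_singleton] at hz
      rw [hW]
      rcases hz with rfl | rfl
      · simp
      · simp
    have h7 := Finset.sum_le_sum_of_subset (f := fun v => (nb G X v).card - k) h6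
    rwa [Finset.sum_pair C.n12] at h7
  have h6 := H.ps_le
  have hX : W ≠ X := by
    intro h
    have h7 := H.card_ge
    rw [← h] at h7
    have := C.d1
    have := C.d2
    omega
  have h7 := H.cl_bd_tau hWX hn hX (H.tau1 Finset.sdiff_subset (H.cl_sdne hn hWX) (by
    have := C.d1
    have := C.d2
    omega))
  have := C.d1
  have := C.d2
  omega

/-- the excess of the second neighbourhood -/
theorem MC.clEx (hk : k = 5 ∨ k = 6) {Q : Finset V} {y1 y2 y3 : V}
    (C : ClP G k X Q y1 y2 y3) : exs G k X (ClP.U G X Q y1 y2 y3) + 2 ≤ 2 * k := by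
  have hm := H.clMain hk C
  have hn : (clF Q y1 y2 y3 ∪ ClP.U G X Q y1 y2 y3).Nonempty := ⟨y1, by
    rw [mem_union, mem_clF]
    exact Or.inl (Or.inl rfl)⟩
  have h1 := H.cl_exps hk C.WX C.al3'
  have h2 := H.cl_psd hn C.WX
  have h3 := H.sparse_bd C.WX (by
    rw [C.cardW]
    omega)
  rw [cl_exs_union ClP.dU, C.cardW] at h1 h3
  have h4 := C.exF
  have h5 := C.cardU
  have h6 := H.ps_le
  omega

end

end Pool.Agent.TwoDens.TS
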