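import Pool.Agent.TKS.HD
import Pool.Agent.TKS.CLB

/-!
Bad vertices: the degrees and the outer neighbours of the local type `TyT3`, for `k = 5, 6`.
-/

open Finset

namespace Pool.Agent.TwoDens.TS

open Pool.Agent.TwoDens Pool.Agent.TwoDens.RK Pool.Agent.TwoDens.DD

variable {V : Type*} [DecidableEq V] {G : SimpleGraph V} [DecidableRel G.Adj]

/-- the two forms of the bad type are the same -/
theorem TyT3.clp {k : ℕ} {X Q : Finset V} {y1 y2 y3 : V} (T : TyT3 G k X Q y1 y2 y3) :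
    ClP G k X Q y1 y2 y3 where
  hQ := T.hQX
  hc := T.hQc
  clq := T.hQq
  h1 := T.h1
  h2 := T.h2
  h3 := T.h3
  q1 := T.q1
  q2 := T.q2
  q3 := T.q3
  n12 := T.e12
  n13 := T.e13
  n23 := T.e23
  a12 := T.m12
  a13 := T.m13
  a23 := T.m23
  b1 := fun q hq => (T.aQ1 q hq).symm
  b2 := fun q hq => (T.aQ2 q hq).symm
  b3 := fun q hq => (T.aQ3 q hq).symm
  d1 := T.d1
  d2 := T.d2
  d3 := T.d3
  hex := T.hex

/-- all vertices of the clique of a bad vertex have degree `k` -/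
theorem TyT3.dQ {k : ℕ} {X Q : Finset V} {y1 y2 y3 : V} (T : TyT3 G k X Q y1 y2 y3)
    (H : MC G k X) (hk : k = 5 ∨ k = 6) : ∀ q ∈ Q, (nb G X q).card = k :=
  fun _ hq => (H.clQ hk T.clp hq).1

/-- the neighbours of a vertex of the clique of a bad vertex -/
theorem TyT3.nQ {k : ℕ} {X Q : Finset V} {y1 y2 y3 : V} (T : TyT3 G k X Q y1 y2 y3)
    (H : MC G k X) (hk : k = 5 ∨ k = 6) {q v : V} (hq : q ∈ Q) (hv : v ∈ X)
    (h : G.Adj q v) : v = y1 ∨ v = y2 ∨ v = y3 ∨ v ∈ Q := by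
  have h1 : v ∈ nb G X q := mem_nb.2 ⟨hv, h⟩
  rw [(H.clQ hk T.clp hq).2] at h1
  exact mem_clF.1 (mem_erase.1 h1).2

/-- no vertex outside the clique has two neighbours among the outer vertices -/
theorem TyT3.dis12 {k : ℕ} {X Q : Finset V} {y1 y2 y3 : V} (T : TyT3 G k X Q y1 y2 y3)
    (H : MC G k X) (hk : k = 5 ∨ k = 6) {v : V} (hv : v ∈ X) (hvQ : v ∉ Q)
    (h1 : G.Adj v y1) (h2 : G.Adj v y2) : False :=
  H.clDis hk T.clp hv hvQ h1.symm h2.symm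

theorem TyT3.dis13 {k : ℕ} {X Q : Finset V} {y1 y2 y3 : V} (T : TyT3 G k X Q y1 y2 y3)
    (H : MC G k X) (hk : k = 5 ∨ k = 6) {v : V} (hv : v ∈ X) (hvQ : v ∉ Q)
    (h1 : G.Adj v y1) (h2 : G.Adj v y3) : False :=
  H.clDis hk T.clp.s23 hv hvQ h1.symm h2.symm

theorem TyT3.dis23 {k : ℕ} {X Q : Finset V} {y1 y2 y3 : V} (T : TyT3 G k X Q y1 y2 y3)
    (H : MC G k X) (hk : k = 5 ∨ k = 6) {v : V} (hv : v ∈ X) (hvQ : v ∉ Q)
    (h1 : G.Adj v y2) (h2 : G.Adj v y3) : False :=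
  H.clDis hk T.clp.s12.s23 hv hvQ h1.symm h2.symm

/-- the degrees of the outer vertices -/
theorem TyT3.sum {k : ℕ} {X Q : Finset V} {y1 y2 y3 : V} (T : TyT3 G k X Q y1 y2 y3)
    (H : MC G k X) (hk : k = 5 ∨ k = 6) :
    (nb G X y1).card + (nb G X y2).card + (nb G X y3).card + 6 = 5 * k :=
  (H.clMain hk T.clp).2.1

end Pool.Agent.TwoDens.TS
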