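import Pool.Agent.TKS.BEg
import Pool.Agent.TKS.PT
import Pool.Agent.TKS.CLH

/-!
The last step for `k = 5, 6`: all vertices of degree `k` are of type `TyT3`.
-/

open Finset

namespace Pool.Agent.TwoDens.TS

open Pool.Agent.TwoDens Pool.Agent.TwoDens.RK Pool.Agent.TwoDens.DD

variable {V : Type*} [DecidableEq V] {G : SimpleGraph V} [DecidableRel G.Adj]

/-- without the types `TyC4` and `TyP4` nothing is left -/
theorem AllP.false {k : ℕ} {X : Finset V} (A : AllP G k X)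
    (hp : ∀ Q w1 w2 w3 w4, ¬ TyP4 G k X Q w1 w2 w3 w4) : False := by
  have hk : k = 5 ∨ k = 6 := by
    have h5 := A.h5
    have h6 := A.h6
    omega
  have F := A.allF hp (fun Q y1 y2 y3 T w hw hwQ h1 h2 =>
    T.dis12 A.mc hk hw hwQ h1.symm h2.symm)
  refine A.mc.cl_false hk ?_
  intro v hv hd
  obtain ⟨Q, y1, y2, y3, hvQ, T⟩ := F.all hv hd
  exact ⟨Q, y1, y2, y3, hvQ, T.clp⟩

end Pool.Agent.TwoDens.TS
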