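import Pool.Agent.TKS.RA

/-!
Three vertices missing for both `a` and `p`, and `a, p` adjacent.
-/

open Finset

namespace Pool.Agent.TwoDens.TS

open Pool.Agent.TwoDens Pool.Agent.TwoDens.RK Pool.Agent.TwoDens.DD

variable {V : Type*} [DecidableEq V] {G : SimpleGraph V} [DecidableRel G.Adj]

/-- the set of the vertices missed in a star: two ways to count -/
theorem StarT.e2c {k : ℕ} {Y T : Finset V} {r : V} (hS : StarT G k Y T r) :
    e2 Gᶜ T = 2 * (nb Gᶜ T r).card := by
  have h1 := e2c_insert (G := G) (Finset.notMem_erase r T)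
  rw [Finset.insert_erase hS.hr, clq_e2c hS.clq] at h1
  have h2 : nb Gᶜ (T.erase r) r = nb Gᶜ T r := by
    ext w
    rw [mem_nb, mem_nb, mem_erase]
    constructor
    · rintro ⟨⟨_, h3⟩, h4⟩
      exact ⟨h3, h4⟩
    · rintro ⟨h3, h4⟩
      exact ⟨⟨fun h => ((SimpleGraph.compl_adj _ _ _).1 h4).1 h.symm, h3⟩, h4⟩
  rw [h2] at h1
  omega

/-- a vertex of the clique misses at most the centre -/
theorem StarT.nbc_le {k : ℕ} {Y T : Finset V} {r w : V} (hS : StarT G k Y T r)
    (hw : w ∈ T.erase r) : (nb Gᶜ T w).card ≤ 1 := by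
  rw [Finset.card_le_one]
  have : ∀ z ∈ nb Gᶜ T w, z = r := by
    intro z hz
    have hz' := mem_nb.1 hz
    have h1 := (SimpleGraph.compl_adj _ _ _).1 hz'.2
    by_contra hne
    exact h1.2 (hS.clq w hw z (mem_erase.2 ⟨hne, hz'.1⟩) h1.1)
  intro z hz y hy
  rw [this z hz, this y hy]

namespace Fr
variable {k : ℕ} {X P : Finset V} (F : Fr G k X P)
include F

/-- the transversal `N_a ∪ N_u` with `k` elements, when `u` has three neighbours in `H` and `a` has
`k - 3`: all its vertices except `r, l` are adjacent to `a, p` or to all of `D` -/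
theorem r1a (h7 : 7 ≤ k) {c a p : V} (B : Base G k X P c a p) {u : V} (hu : u ∈ P)
    (au : ¬ G.Adj a u) (pu : ¬ G.Adj p u) (hps : ps G k (hb X P a p) = 0)
    (fa : (nb G (hb X P a p) a).card + 3 = k) (fp : (nb G (hb X P a p) p).card + 3 = k)
    (nu : (nb G (hb X P a p) u).card = 3) {T : Finset V}
    (hT : T = nb G (hb X P a p) a ∪ nb G (hb X P a p) u) :
    ∃ r l, StarT G k (hb X P a p) T r ∧ l ∈ T ∧ l ≠ r ∧
      (∀ t ∈ nb G (hb X P a p) a, t ≠ r → t ≠ l → G.Adj p t) ∧
      (∀ v ∈ P, ¬ G.Adj a v → (nb G (hb X P a p) v).card ≤ 3 →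
        ∀ t ∈ nb G (hb X P a p) u, t ≠ r → t ≠ l → G.Adj v t) := by
  have hk := F.mc.hk
  have ha := mem_sdiff.1 B.hx
  have hp := mem_sdiff.1 B.hx'
  have htr := F.tr_xu B hu au
  have hc := F.card_xu B hu au
  have halH := (F.bp _ _ _ B).alH
  have htau := (F.bp _ _ _ B).tau
  rw [← hT] at htr hc
  obtain ⟨H, hH⟩ : ∃ H, H = hb X P a p := ⟨_, rfl⟩
  have hHX : H ⊆ X := by rw [hH]; exact hb_sub
  have hHne : H ≠ X := by rw [hH]; exact B.hbne
  rw [← hH] at hps fa fp nu hT htr halH htau ⊢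
  have hTH : T ⊆ H := by
    rw [hT]
    exact Finset.union_subset (nb_sub _ _) (nb_sub _ _)
  have c1 := Finset.card_union_add_card_inter (nb G H a) (nb G H u)
  rw [← hT] at c1
  have hTc : T.card = k := by omega
  have hdis : Disjoint (nb G H a) (nb G H u) := by
    rw [Finset.disjoint_iff_inter_eq_empty, ← Finset.card_eq_zero]
    omega
  obtain ⟨r, hS⟩ := F.mc.star8 hHX hHne (by rw [hps]; norm_num) htau hTH hTc htr (by omega)
  have haH : a ∉ H := by
    rw [hH, mem_hb]
    exact fun h => h.2.2.1 rfl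
  have hpH : p ∉ H := by
    rw [hH, mem_hb]
    exact fun h => h.2.2.2 rfl
  have hPH : ∀ v ∈ P, v ∉ H := by
    intro v hv
    rw [hH, mem_hb]
    exact fun h => h.2.1 hv
  obtain ⟨l, hl⟩ := Finset.card_pos.1 hS.miss
  have hlT := (mem_nb.1 hl).1
  have hlr : l ≠ r := fun h => ((SimpleGraph.compl_adj _ _ _).1 (mem_nb.1 hl).2).1 h.symm
  have hY2 : H \ T ⊆ X := Finset.sdiff_subset.trans hHX
  have hY2ne : H \ T ≠ X := by
    intro h
    exact hHne (Finset.Subset.antisymm hHX (h ▸ Finset.sdiff_subset))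
  have hdeg : ∀ v ∈ T, k - 1 ≤ (nb G H v).card := fun v hv => by
    have := htau.deg (hTH hv)
    omega
  -- degrees of the vertices different from `r, l`
  have hd : ∀ t ∈ T, t ≠ r → t ≠ l → (nb G H t).card + 1 = k := by
    intro t ht htr' htl
    by_contra hcon
    have g0 := hdeg t ht
    have g1 := exs_erase (G := G) (k := k - 1) (X := H) (S := T.erase r) (u := l)
      (mem_erase.2 ⟨hlr, hlT⟩)
    have g2 := exs_erase (G := G) (k := k - 1) (X := H) (S := (T.erase r).erase l) (u := t)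
      (mem_erase.2 ⟨htl, mem_erase.2 ⟨htr', ht⟩⟩)
    have g3 := hS.low l hl
    have g4 := hdeg l hlT
    have hpsT := hS.psT
    have g5 := F.mc.ps_sub hHX hHne T
    rw [hps] at hpsT
    have g6 : k ≤ (nb G H r \ T).card + exs G (k - 1) H (T.erase r) + 1 := by omega
    have g6' : (k : ℤ) ≤ (nb G H r \ T).card + exs G (k - 1) H (T.erase r) + 1 := by
      exact_mod_cast g6
    have g7 := F.mc.low0 hHX hHne hS (by linarith) l hl
    have g8 : k ≤ (nb G H r \ T).card + exs G (k - 1) H (T.erase r) := by omega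
    have g8' : (k : ℤ) ≤ (nb G H r \ T).card + exs G (k - 1) H (T.erase r) := by
      exact_mod_cast g8
    linarith
  -- outer degrees
  have ho : ∀ t ∈ T, t ≠ r → t ≠ l → (nb G H t \ T).card ≤ 1 := by
    intro t ht htr' htl
    have h10 := deg_split (G := G) hTH ht
    have h11 := hS.nbc_le (mem_erase.2 ⟨htr', ht⟩)
    have h12 := hd t ht htr' htl
    omega
  have hpsT := hS.psT
  rw [hps] at hpsT
  have b1 : (0 : ℤ) ≤ (nb G H r \ T).card := Int.natCast_nonneg _
  have b2 : (0 : ℤ) ≤ exs G (k - 1) H (T.erase r) := Int.natCast_nonneg _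
  have htau2 := F.mc.tau1 hY2 hY2ne (by linarith)
  have halT := hS.alT
  -- independent triples `y, v, t`
  have trip : ∀ y ∈ X, y ∉ H → ∀ v ∈ P, y ≠ v → ¬ G.Adj y v → ∀ t ∈ T, ¬ G.Adj y t →
      ¬ G.Adj v t → k ≤ (nb G H y \ T).card + (nb G H v \ T).card + (nb G H t \ T).card + 1 := by
    intro y hyX hyH v hv hyv nyv t ht nyt nvt
    have htH := hTH ht
    have hyt : y ≠ t := fun h => hyH (h ▸ htH)
    have hvt : v ≠ t := fun h => hPH v hv (h ▸ htH)
    have htr2 : Tr G (H \ T) ((nb G H y \ T) ∪ (nb G H v \ T) ∪ (nb G H t \ T)) := by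
      refine tr_nbr (X := X) (J := {y, v, t}) hY2 ?_ ?_ (indep_triple nyv nyt nvt) ?_ ?_
      · intro z hz
        rw [mem_insert, mem_insert, mem_singleton] at hz
        rcases hz with rfl | rfl | rfl
        · exact hyX
        · exact F.hP hv
        · exact hHX htH
      · rw [Finset.disjoint_left]
        intro z hz hz'
        rw [mem_insert, mem_insert, mem_singleton] at hz
        rcases hz with rfl | rfl | rfl
        · exact hyH (mem_sdiff.1 hz').1
        · exact hPH _ hv (mem_sdiff.1 hz').1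
        · exact (mem_sdiff.1 hz').2 ht
      · rw [Finset.card_insert_of_notMem (by simp [hyv, hyt]), Finset.card_pair hvt]
        omega
      · intro z hz w hw hzw
        have hw' := mem_sdiff.1 hw
        rw [mem_insert, mem_insert, mem_singleton] at hz
        rw [mem_union, mem_union]
        rcases hz with rfl | rfl | rfl
        · exact Or.inl (Or.inl (mem_sdiff.2 ⟨mem_nb.2 ⟨hw'.1, hzw⟩, hw'.2⟩))
        · exact Or.inl (Or.inr (mem_sdiff.2 ⟨mem_nb.2 ⟨hw'.1, hzw⟩, hw'.2⟩))
        · exact Or.inr (mem_sdiff.2 ⟨mem_nb.2 ⟨hw'.1, hzw⟩, hw'.2⟩)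
    have h7 := htau2 _ (Finset.union_subset (Finset.union_subset
      (Finset.sdiff_subset_sdiff (nb_sub H y) (Finset.Subset.refl T))
      (Finset.sdiff_subset_sdiff (nb_sub H v) (Finset.Subset.refl T)))
      (Finset.sdiff_subset_sdiff (nb_sub H t) (Finset.Subset.refl T))) htr2
    have h8 := Finset.card_union_le (nb G H y \ T ∪ nb G H v \ T) (nb G H t \ T)
    have h9 := Finset.card_union_le (nb G H y \ T) (nb G H v \ T)
    omega
  have hNaT : nb G H a ⊆ T := by rw [hT]; exact Finset.subset_union_left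
  have hNuT : nb G H u ⊆ T := by rw [hT]; exact Finset.subset_union_right
  have za : (nb G H a \ T).card = 0 := by
    rw [Finset.card_eq_zero, Finset.sdiff_eq_empty_iff_subset]
    exact hNaT
  have zu : (nb G H u \ T).card = 0 := by
    rw [Finset.card_eq_zero, Finset.sdiff_eq_empty_iff_subset]
    exact hNuT
  refine ⟨r, l, hS, hlT, hlr, ?_, ?_⟩
  · intro t ht htr' htl
    by_contra hpt
    have htH := (mem_nb.1 ht).1
    have g1 := trip p hp.1 hpH u hu (fun h => hp.2 (h ▸ hu)) pu t (hNaT ht) hpt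
      (fun h => (Finset.disjoint_left.1 hdis) ht (mem_nb.2 ⟨htH, h⟩))
    have g2 := ho t (hNaT ht) htr' htl
    have g3 : (nb G H p \ T).card ≤ (nb G H p).card := Finset.card_le_card Finset.sdiff_subset
    omega
  · intro v hv av nv t ht htr' htl
    by_contra hvt
    have htH := (mem_nb.1 ht).1
    have g1 := trip a ha.1 haH v hv (fun h => ha.2 (h ▸ hv)) av t (hNuT ht)
      (fun h => (Finset.disjoint_left.1 hdis) (mem_nb.2 ⟨htH, h⟩) ht) hvt
    have g2 := ho t (hNuT ht) htr' htl
    have g3 : (nb G H v \ T).card ≤ (nb G H v).card := Finset.card_le_card Finset.sdiff_subset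
    omega

/-- three vertices missing for both `a` and `p`, and `a, p` adjacent -/
theorem r1 (h7 : 7 ≤ k) {c a p : V} (B : Base G k X P c a p) (hap : G.Adj a p)
    {u v w : V} (hu : u ∈ P) (hv : v ∈ P) (hw : w ∈ P) (huv : u ≠ v) (huw : u ≠ w) (hvw : v ≠ w)
    (au : ¬ G.Adj a u) (av : ¬ G.Adj a v) (aw : ¬ G.Adj a w) (pu : ¬ G.Adj p u)
    (hDa : (nb Gᶜ P a).card ≤ 3) (hDp : (nb Gᶜ P p).card ≤ 3)
    (hps : ps G k (hb X P a p) = 0)
    (fa : (nb G (hb X P a p) a).card + 3 = k) (fp : (nb G (hb X P a p) p).card + 3 = k)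
    (nu : (nb G (hb X P a p) u).card = 3) (nv : (nb G (hb X P a p) v).card ≤ 3)
    (nw : (nb G (hb X P a p) w).card ≤ 3) : False := by
  have hk := F.mc.hk
  have ha := mem_sdiff.1 B.hx
  have hp := mem_sdiff.1 B.hx'
  obtain ⟨T, hT⟩ : ∃ T, T = nb G (hb X P a p) a ∪ nb G (hb X P a p) u := ⟨_, rfl⟩
  obtain ⟨r, l, hS, hlT, hlr, hN, hM⟩ := F.r1a h7 B hu au pu hps fa fp nu hT
  have hMv := hM v hv av nv
  have hMw := hM w hw aw nw
  obtain ⟨H, hH⟩ : ∃ H, H = hb X P a p := ⟨_, rfl⟩
  have hHX : H ⊆ X := by rw [hH]; exact hb_sub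
  have hHdis : Disjoint (insert a (insert p P)) H := by
    rw [Finset.disjoint_left]
    intro z hz hz'
    rw [hH, mem_hb] at hz'
    rw [mem_insert, mem_insert] at hz
    rcases hz with h | h | h
    · exact hz'.2.2.1 h
    · exact hz'.2.2.2 h
    · exact hz'.2.1 h
  rw [← hH] at fa fp nu hT hS hN hMv hMw
  have hTH := hS.hT
  obtain ⟨R, hR⟩ : ∃ R, R = T.erase r := ⟨_, rfl⟩
  have hRc : R.card + 1 = k := by
    rw [hR, Finset.card_erase_add_one hS.hr, hS.hc]
  have hRH : R ⊆ H := by rw [hR]; exact (Finset.erase_subset _ _).trans hTH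
  have hRq : Clq G R := by rw [hR]; exact hS.clq
  have hlR : l ∈ R := by rw [hR, mem_erase]; exact ⟨hlr, hlT⟩
  -- neighbours in `R`
  have hauR : k ≤ (nb G R a).card + (nb G R u).card + 1 := by
    have h1 : R ⊆ nb G R a ∪ nb G R u := by
      intro z hz
      have h2 := hz
      rw [hR, mem_erase, hT, mem_union] at h2
      rw [mem_union]
      rcases h2.2 with h3 | h3
      · exact Or.inl (mem_nb.2 ⟨hz, (mem_nb.1 h3).2⟩)
      · exact Or.inr (mem_nb.2 ⟨hz, (mem_nb.1 h3).2⟩)
    have h2 := Finset.card_le_card h1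
    have h3 := Finset.card_union_le (nb G R a) (nb G R u)
    omega
  have hpvR : k ≤ (nb G R p).card + (nb G R v).card + 2 := by
    have h1 : R.erase l ⊆ nb G R p ∪ nb G R v := by
      intro z hz
      have hz1 := mem_erase.1 hz
      have h2 := hz1.2
      rw [hR, mem_erase, hT, mem_union] at h2
      rw [mem_union]
      rcases h2.2 with h3 | h3
      · exact Or.inl (mem_nb.2 ⟨hz1.2, hN z h3 h2.1 hz1.1⟩)
      · exact Or.inr (mem_nb.2 ⟨hz1.2, hMv z h3 h2.1 hz1.1⟩)
    have h2 := Finset.card_le_card h1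
    have h3 := Finset.card_union_le (nb G R p) (nb G R v)
    rw [Finset.card_erase_of_mem hlR] at h2
    omega
  have hwR : 1 ≤ (nb G R w).card := by
    have h1 : nb G H u ⊆ insert r (insert l (nb G R w)) := by
      intro z hz
      rw [mem_insert, mem_insert]
      by_cases e : z = r
      · exact Or.inl e
      · by_cases e2 : z = l
        · exact Or.inr (Or.inl e2)
        · refine Or.inr (Or.inr (mem_nb.2 ⟨?_, hMw z hz e e2⟩))
          rw [hR, mem_erase, hT]
          exact ⟨e, mem_union_right _ hz⟩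
    have h2 := Finset.card_le_card h1
    have h3 := Finset.card_insert_le r (insert l (nb G R w))
    have h4 := Finset.card_insert_le l (nb G R w)
    omega
  -- the count
  have hpP : p ∉ P := hp.2
  have hapP : a ∉ insert p P := by
    rw [mem_insert]
    rintro (h | h)
    · exact B.hne h
    · exact ha.2 h
  have hau' : a ≠ u := fun h => ha.2 (h ▸ hu)
  have hav' : a ≠ v := fun h => ha.2 (h ▸ hv)
  have haw' : a ≠ w := fun h => ha.2 (h ▸ hw)
  have hpu' : p ≠ u := fun h => hp.2 (h ▸ hu)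
  have hpv' : p ≠ v := fun h => hp.2 (h ▸ hv)
  have hpw' : p ≠ w := fun h => hp.2 (h ▸ hw)
  obtain ⟨W, hW⟩ : ∃ W, W = insert a (insert p P) := ⟨_, rfl⟩
  have hWX : W ⊆ X := by
    rw [hW]
    exact Finset.insert_subset ha.1 (Finset.insert_subset hp.1 F.hP)
  have hWc : W.card = k + 1 := by
    rw [hW, Finset.card_insert_of_notMem hapP, Finset.card_insert_of_notMem hpP]
    have := F.hPc
    omega
  have hWR : Disjoint W R := by
    rw [hW]
    exact hHdis.mono_right hRH
  have e1 := e2_disj (G := G) hWR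
  have e3 := e2_add_compl (G := G) W
  have e4 : e2 Gᶜ W ≤ 12 := by
    rw [hW, e2c_insert hapP, e2c_insert hpP, clq_e2c F.hPq]
    have h1 : nb Gᶜ (insert p P) a ⊆ nb Gᶜ P a := by
      intro z hz
      have hz' := mem_nb.1 hz
      rw [mem_insert] at hz'
      rcases hz'.1 with h | h
      · exact absurd (h ▸ hap) ((SimpleGraph.compl_adj _ _ _).1 hz'.2).2
      · exact mem_nb.2 ⟨h, hz'.2⟩
    have h2 := Finset.card_le_card h1
    omega
  have e5 := clq_e2 (G := G) hRq
  have e6 : (nb G R a).card + (nb G R p).card + (nb G R u).card + (nb G R v).card +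
      (nb G R w).card ≤ ∑ z ∈ W, (nb G R z).card := by
    have h1 : ({a, p, u, v, w} : Finset V) ⊆ W := by
      intro z hz
      rw [mem_insert, mem_insert, mem_insert, mem_insert, mem_singleton] at hz
      rw [hW, mem_insert, mem_insert]
      rcases hz with h | h | h | h | h
      · exact Or.inl h
      · exact Or.inr (Or.inl h)
      · exact Or.inr (Or.inr (h ▸ hu))
      · exact Or.inr (Or.inr (h ▸ hv))
      · exact Or.inr (Or.inr (h ▸ hw))
    refine le_trans (le_of_eq ?_) (Finset.sum_le_sum_of_subset h1)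
    rw [Finset.sum_insert (by simp [B.hne, hau', hav', haw']),
      Finset.sum_insert (by simp [hpu', hpv', hpw']), Finset.sum_insert (by simp [huv, huw]),
      Finset.sum_pair hvw]
    omega
  have e7 : (W ∪ R).card = W.card + R.card := Finset.card_union_of_disjoint hWR
  have e8 := F.mc.hS (W ∪ R) (Finset.union_subset hWX (hRH.trans hHX)) (by omega)
  obtain ⟨m, rfl⟩ : ∃ m, k = m + 1 := ⟨k - 1, by omega⟩
  have hRm : R.card = m := by omega
  rw [e7, hWc, hRm] at e8
  rw [hWc] at e3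
  rw [hRm] at e5
  obtain ⟨Sg, hSg⟩ : ∃ Sg, ∑ z ∈ W, (nb G R z).card = Sg := ⟨_, rfl⟩
  rw [hSg] at e1 e6
  have g1 : 2 * m ≤ Sg := by omega
  zify at e1 e3 e4 e5 e8 g1 h7
  nlinarith

end Fr

end Pool.Agent.TwoDens.TS
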