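import Pool.Agent.TKS.LemG
import Pool.Agent.TKS.RB

/-!
The first part of Case II.
-/

open Finset

namespace Pool.Agent.TwoDens.TS

open Pool.Agent.TwoDens Pool.Agent.TwoDens.RK Pool.Agent.TwoDens.DD

variable {V : Type*} [DecidableEq V] {G : SimpleGraph V} [DecidableRel G.Adj]

theorem exs_two {k : ℕ} {X P S : Finset V} {u u' : V} (hS : S ⊆ P)
    (hd : ∀ v ∈ S, k < (nb G X v).card) :
    S.card ≤ exs G k X ((P.erase u).erase u') + 2 := by
  have h1 : ((S.erase u).erase u').card ≤ exs G k X ((P.erase u).erase u') := by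
    unfold exs
    rw [Finset.card_eq_sum_ones]
    refine (Finset.sum_le_sum fun v hv => ?_).trans (Finset.sum_le_sum_of_subset
      (Finset.erase_subset_erase _ (Finset.erase_subset_erase _ hS)))
    have := hd v (mem_erase.1 (mem_erase.1 hv).2).2
    omega
  have h2 := Finset.pred_card_le_card_erase (s := S) (a := u)
  have h3 := Finset.pred_card_le_card_erase (s := S.erase u) (a := u')
  omega

theorem exs_mem {k : ℕ} {X P : Finset V} {u u' v : V} (hv : v ∈ P) (h1 : v ≠ u) (h2 : v ≠ u') :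
    (nb G X v).card - k ≤ exs G k X ((P.erase u).erase u') := by
  have := exs_erase (G := G) (k := k) (X := X) (S := (P.erase u).erase u') (u := v)
    (mem_erase.2 ⟨h2, mem_erase.2 ⟨h1, hv⟩⟩)
  omega

namespace Fr
variable {k : ℕ} {X P : Finset V} (F : Fr G k X P)
include F

/-- (7.1) in natural numbers, with the consequences of Lemma G -/
theorem sevN {c a p : V} (B : Base G k X P c a p) {u u' : V} (hu : u ∈ P) (hu' : u' ∈ P)
    (huu : u ≠ u') (au : ¬ G.Adj a u) (pu : ¬ G.Adj p u') :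
    ∃ A A' h s : ℕ, (nb G (hb X P a p) a).card + (nb G (hb X P a p) u).card = k + A ∧
      (nb G (hb X P a p) p).card + (nb G (hb X P a p) u').card = k + A' ∧
      ps G k (hb X P a p) = 2 * h ∧ ps G k X = -2 - 2 * s ∧
      A + A' + ad G a p + exs G k X ((P.erase u).erase u') + ad G u p + ad G u' a + h + s = 2 ∧
      (ad G a p = 0 → ad G u p = 0 → 1 ≤ A) ∧ (ad G a p = 0 → ad G u' a = 0 → 1 ≤ A') := by
  have h5 := F.seven B hu hu' huu
  have h10 := F.card_xu' B hu au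
  have h11 := F.card_xu' B.symm hu' pu
  rw [hb_comm X P p a] at h11
  have z1 : ad G u a = 0 := ad_zero (fun h => au h.symm)
  have z2 : ad G u' p = 0 := ad_zero (fun h => pu h.symm)
  obtain ⟨A, hA⟩ := Nat.exists_eq_add_of_le h10
  obtain ⟨A', hA'⟩ := Nat.exists_eq_add_of_le h11
  have h12 := (F.bp _ _ _ B).ps0
  have h13 := F.mc.ps_le
  obtain ⟨m, hm⟩ := ps_even (G := G) k (hb X P a p)
  obtain ⟨n, hn⟩ := ps_even (G := G) k X
  obtain ⟨h, hh⟩ : ∃ h : ℕ, m = h := ⟨m.toNat, by omega⟩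
  obtain ⟨s, hs⟩ : ∃ s : ℕ, n = -1 - s := ⟨(-1 - n).toNat, by omega⟩
  refine ⟨A, A', h, s, hA, hA', by rw [hm, hh], by rw [hn, hs]; ring, ?_, ?_, ?_⟩
  · rw [z1, z2, hm, hn, hh, hs] at h5
    have hA2 : ((nb G (hb X P a p) a).card : ℤ) + (nb G (hb X P a p) u).card = k + A := by
      exact_mod_cast hA
    have hA2' : ((nb G (hb X P a p) p).card : ℤ) + (nb G (hb X P a p) u').card = k + A' := by
      exact_mod_cast hA'
    have : (A : ℤ) + A' + ad G a p + exs G k X ((P.erase u).erase u') + ad G u p + ad G u' a +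
        h + s = 2 := by
      push_cast at h5
      linarith
    exact_mod_cast this
  · intro e0 e1
    by_contra hcon
    have n1 : ¬ G.Adj a p := fun h => by rw [ad_one h] at e0; omega
    have n2 : ¬ G.Adj u p := fun h => by rw [ad_one h] at e1; omega
    exact F.lemG B n1 hu au (fun h => n2 h.symm) ((Finset.card_union_le _ _).trans (by omega))
  · intro e0 e1
    by_contra hcon
    have n1 : ¬ G.Adj a p := fun h => by rw [ad_one h] at e0; omega
    have n2 : ¬ G.Adj u' a := fun h => by rw [ad_one h] at e1; omega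
    refine F.lemG B.symm (fun h => n1 h.symm) hu' pu (fun h => n2 h.symm) ?_
    rw [hb_comm X P p a]
    exact (Finset.card_union_le _ _).trans (by omega)

/-- `a, p, b` independent, `v` of larger degree adjacent to `a` and not to `p` -/
theorem gam {c a p : V} (B : Base G k X P c a p) (hap : ¬ G.Adj a p) {b v : V} (hb' : b ∈ P)
    (hv : v ∈ P) (hbv : b ≠ v) (ab : ¬ G.Adj a b) (pb : ¬ G.Adj p b) (pv : ¬ G.Adj p v)
    (av : G.Adj a v) (hd : k < (nb G X v).card)
    (hD : ∀ q ∈ P, q ≠ b → (nb G X q).card = k → G.Adj a q ∧ G.Adj p q) : False := by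
  obtain ⟨A, A', h, s, hA, hA', hh, hx, hs, hG, _⟩ := F.sevN B hb' hv hbv ab pv
  have e0 : ad G a p = 0 := ad_zero hap
  have z1 : ad G b p = 0 := ad_zero (fun h => pb h.symm)
  have z2 : ad G v a = 1 := ad_one av.symm
  have z3 : ad G v p = 0 := ad_zero (fun h => pv h.symm)
  have g1 := hG e0 z1
  have k1 := F.nbH B hv
  rw [z2, z3] at k1
  have t1 : A = 1 := by omega
  have t2 : A' = 0 := by omega
  have t3 : h = 0 := by omega
  have t4 : s = 0 := by omega
  have t5 : exs G k X ((P.erase b).erase v) = 0 := by omega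
  have hps : ps G k (hb X P a p) = 0 := by
    rw [hh, t3]
    norm_num
  have hpsX : -2 ≤ ps G k X := by
    rw [hx, t4]
    norm_num
  obtain ⟨T, hT⟩ : ∃ T, T = nb G (hb X P a p) a ∪ nb G (hb X P a p) p ∪ nb G (hb X P a p) b :=
    ⟨_, rfl⟩
  obtain ⟨h1, h2⟩ := F.trip B hap hb' ab pb hT
  have c1 := Finset.card_union_le (nb G (hb X P a p) a ∪ nb G (hb X P a p) p)
    (nb G (hb X P a p) b)
  have c2 := Finset.card_union_le (nb G (hb X P a p) a) (nb G (hb X P a p) p)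
  rw [← hT] at c1
  clear hs hh hx hG
  obtain ⟨g3, _⟩ := F.r2g B hap (v := v) hb' ab pb (by
    intro q hq n1 n2
    have g5 := exs_mem (G := G) (k := k) (X := X) hq n1 n2
    have g6 := F.deg_ge (F.hP hq)
    have g7 : (nb G X q).card = k := by omega
    obtain ⟨q1, q2⟩ := hD q hq n1 g7
    have k3 := F.nbH B hq
    rw [ad_one q1.symm, ad_one q2.symm] at k3
    rw [← Finset.card_eq_zero]
    omega) hps hpsX hT (by omega)
  have g4 : (nb G (hb X P a p) v \ T).card ≤ (nb G (hb X P a p) v).card :=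
    Finset.card_le_card Finset.sdiff_subset
  omega

/-- `D = D'` with at least three elements and `a, p` adjacent -/
theorem c2aA (h7 : 7 ≤ k) {c a p : V} (B : Base G k X P c a p) (hap : G.Adj a p) {D : Finset V}
    (mDa : ∀ v, v ∈ D ↔ v ∈ P ∧ ¬ G.Adj a v) (mDp : ∀ v, v ∈ D ↔ v ∈ P ∧ ¬ G.Adj p v)
    (hDd : ∀ v ∈ D, k < (nb G X v).card) {u1 u2 : V} (hu1 : u1 ∈ D) (hu2 : u2 ∈ D)
    (h12 : u1 ≠ u2) (hJ3 : 3 ≤ D.card) : False := by
  have ha' := mem_sdiff.1 B.hx
  have hp' := mem_sdiff.1 B.hx'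
  have hDa : nb Gᶜ P a = D := by
    ext v
    rw [mDa]
    exact F.mem_nbc ha'.2
  have hDp : nb Gᶜ P p = D := by
    ext v
    rw [mDp]
    exact F.mem_nbc hp'.2
  have hDP : D ⊆ P := fun v hv => ((mDa v).1 hv).1
  have e0 : ad G a p = 1 := ad_one hap
  -- sums for a pair
  have key : ∀ v ∈ D, ∀ w ∈ D, v ≠ w →
      (nb G (hb X P a p) a).card + (nb G (hb X P a p) v).card = k ∧
      (nb G (hb X P a p) p).card + (nb G (hb X P a p) w).card = k ∧
      ps G k (hb X P a p) = 0 ∧ exs G k X ((P.erase v).erase w) ≤ 1 ∧ D.card ≤ 3 := by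
    intro v hv w hw hvw
    have hv1 := (mDa v).1 hv
    have hv2 := (mDp v).1 hv
    have hw1 := (mDa w).1 hw
    have hw2 := (mDp w).1 hw
    obtain ⟨A, A', h, s, hA, hA', hh, _, hs, _, _⟩ := F.sevN B hv1.1 hw1.1 hvw hv1.2 hw2.2
    have h5 := exs_two (u := v) (u' := w) hDP hDd
    clear mDa mDp hDd
    have t1 : A = 0 := by omega
    have t2 : A' = 0 := by omega
    have t3 : h = 0 := by omega
    refine ⟨by omega, by omega, ?_, by omega, by omega⟩
    rw [hh, t3]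
    norm_num
  obtain ⟨x1, x2, x3, x4, x5⟩ := key u1 hu1 u2 hu2 h12
  obtain ⟨u3, hu3, n31, n32⟩ : ∃ u3 ∈ D, u3 ≠ u1 ∧ u3 ≠ u2 := by
    by_contra hcon
    push Not at hcon
    have g1 : D ⊆ {u1, u2} := by
      intro z hz
      rw [mem_insert, mem_singleton]
      by_cases e : z = u1
      · exact Or.inl e
      · exact Or.inr (hcon z hz e)
    have g2 := Finset.card_le_card g1
    rw [Finset.card_pair h12] at g2
    omega
  have card3 : ∀ v ∈ D, ∀ w ∈ D, ∀ z ∈ D, v ≠ w → v ≠ z → w ≠ z →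
      (nb G (hb X P a p) v).card = 3 := by
    intro v hv w hw z hz n1 n2 n3
    obtain ⟨_, _, _, y4, _⟩ := key w hw z hz n3
    have g1 := exs_mem (G := G) (k := k) (X := X) (hDP hv) n1 n2
    have k1 := F.nbH B (hDP hv)
    rw [ad_zero (fun h => ((mDa v).1 hv).2 h.symm), ad_zero (fun h => ((mDp v).1 hv).2 h.symm)]
      at k1
    have l1 := hDd v hv
    omega
  have w1 := card3 u1 hu1 u2 hu2 u3 hu3 h12 (Ne.symm n31) (Ne.symm n32)
  have w2 := card3 u2 hu2 u1 hu1 u3 hu3 (Ne.symm h12) (Ne.symm n32) (Ne.symm n31)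
  have w3 := card3 u3 hu3 u1 hu1 u2 hu2 n31 n32 h12
  exact F.r1 h7 B hap ((mDa u1).1 hu1).1 ((mDa u2).1 hu2).1 ((mDa u3).1 hu3).1 h12
    (Ne.symm n31) (Ne.symm n32) ((mDa u1).1 hu1).2 ((mDa u2).1 hu2).2 ((mDa u3).1 hu3).2
    ((mDp u1).1 hu1).2 (by rw [hDa]; omega) (by rw [hDp]; omega) x3 (by omega) (by omega)
    w1 w2.le w3.le

/-- `D = D'` and `a, p` not adjacent -/
theorem c2aN {c a p : V} (B : Base G k X P c a p) (hap : ¬ G.Adj a p) {D : Finset V}
    (mDa : ∀ v, v ∈ D ↔ v ∈ P ∧ ¬ G.Adj a v) (mDp : ∀ v, v ∈ D ↔ v ∈ P ∧ ¬ G.Adj p v)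
    (hDd : ∀ v ∈ D, k < (nb G X v).card) {u1 u2 : V} (hu1 : u1 ∈ D) (hu2 : u2 ∈ D)
    (h12 : u1 ≠ u2) : False := by
  have hDP : D ⊆ P := fun v hv => ((mDa v).1 hv).1
  have e0 : ad G a p = 0 := ad_zero hap
  have key : ∀ v ∈ D, ∀ w ∈ D, v ≠ w →
      (nb G (hb X P a p) a).card + (nb G (hb X P a p) v).card = k + 1 ∧
      (nb G (hb X P a p) p).card + (nb G (hb X P a p) w).card = k + 1 ∧
      ps G k (hb X P a p) = 0 ∧ exs G k X ((P.erase v).erase w) = 0 ∧ ps G k X = -2 := by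
    intro v hv w hw hvw
    have hv1 := (mDa v).1 hv
    have hv2 := (mDp v).1 hv
    have hw1 := (mDa w).1 hw
    have hw2 := (mDp w).1 hw
    obtain ⟨A, A', h, s, hA, hA', hh, hx, hs, hG, hG'⟩ := F.sevN B hv1.1 hw1.1 hvw hv1.2 hw2.2
    have g1 := hG e0 (ad_zero (fun h => hv2.2 h.symm))
    have g2 := hG' e0 (ad_zero (fun h => hw1.2 h.symm))
    have t1 : A = 1 := by omega
    have t2 : A' = 1 := by omega
    have t3 : h = 0 := by omega
    have t4 : s = 0 := by omega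
    refine ⟨by omega, by omega, ?_, by omega, ?_⟩
    · rw [hh, t3]
      norm_num
    · rw [hx, t4]
      norm_num
  obtain ⟨x1, x2, x3, x4, x5⟩ := key u1 hu1 u2 hu2 h12
  obtain ⟨y1, y2, _, _, _⟩ := key u2 hu2 u1 hu1 (Ne.symm h12)
  have hDe : ∀ q ∈ D, q = u1 ∨ q = u2 := by
    intro q hq
    by_contra hcon
    push Not at hcon
    have g5 := exs_mem (G := G) (k := k) (X := X) (hDP hq) hcon.1 hcon.2
    have g6 := hDd q hq
    omega
  have card3 : ∀ v ∈ D, 3 ≤ (nb G (hb X P a p) v).card := by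
    intro v hv
    have k1 := F.nbH B (hDP hv)
    rw [ad_zero (fun h => ((mDa v).1 hv).2 h.symm), ad_zero (fun h => ((mDp v).1 hv).2 h.symm)]
      at k1
    have l1 := hDd v hv
    omega
  refine F.r2 B hap ((mDa u1).1 hu1).1 ((mDa u2).1 hu2).1 ((mDa u1).1 hu1).2 ((mDp u1).1 hu1).2
    ((mDa u2).1 hu2).2 ((mDp u2).1 hu2).2 (card3 u1 hu1) (card3 u2 hu2) ?_ x3 (by omega)
    (by omega) (by omega) (by omega) (by omega)
  intro q hq n1 n2
  have q1 : G.Adj a q := by
    by_contra hcon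
    rcases hDe q ((mDa q).2 ⟨hq, hcon⟩) with g | g
    · exact n1 g
    · exact n2 g
  have q2 : G.Adj p q := by
    by_contra hcon
    rcases hDe q ((mDp q).2 ⟨hq, hcon⟩) with g | g
    · exact n1 g
    · exact n2 g
  have k3 := F.nbH B hq
  rw [ad_one q1.symm, ad_one q2.symm] at k3
  have g5 := exs_mem (G := G) (k := k) (X := X) hq n1 n2
  rw [← Finset.card_eq_zero]
  omega

/-- `D, D'` are equal and `a, p` adjacent (`k ≥ 7`) -/
theorem c2aI (h7 : 7 ≤ k) {a : V} (ha : a ∈ X \ P)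
    (hall : ∀ c ∈ P, (nb G X c).card = k → G.Adj a c)
    {u1 u2 : V} (hu1 : u1 ∈ P) (hu2 : u2 ∈ P) (h12 : u1 ≠ u2) (h1 : ¬ G.Adj a u1)
    (h2 : ¬ G.Adj a u2) {c : V} (hc : c ∈ P) (hd : (nb G X c).card = k) :
    ∃ (p : V) (D : Finset V), Base G k X P c a p ∧ G.Adj a p ∧
      (∀ v, v ∈ D ↔ v ∈ P ∧ ¬ G.Adj a v) ∧ (∀ v, v ∈ D ↔ v ∈ P ∧ ¬ G.Adj p v) ∧
      (∀ v ∈ D, k < (nb G X v).card) := by
  have ha' := mem_sdiff.1 ha
  obtain ⟨p, B⟩ := base_mk1 F.hP F.hPc F.hPq hc hd ha (hall c hc hd).symm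
  have hp' := mem_sdiff.1 B.hx'
  have hpD := F.missP B.hx'
  obtain ⟨Da, hDa⟩ : ∃ D, D = nb Gᶜ P a := ⟨_, rfl⟩
  obtain ⟨Dp, hDp⟩ : ∃ D, D = nb Gᶜ P p := ⟨_, rfl⟩
  have mDa : ∀ v, v ∈ Da ↔ v ∈ P ∧ ¬ G.Adj a v := fun v => by rw [hDa]; exact F.mem_nbc ha'.2
  have mDp : ∀ v, v ∈ Dp ↔ v ∈ P ∧ ¬ G.Adj p v := fun v => by rw [hDp]; exact F.mem_nbc hp'.2
  have hne : ∀ v ∈ P, (nb G X v).card ≠ k → k < (nb G X v).card := by
    intro v hv h
    have := F.deg_ge (F.hP hv)
    omega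
  have hDak : ∀ v ∈ Da, k < (nb G X v).card := by
    intro v hv
    rw [mDa] at hv
    exact hne v hv.1 (fun h => hv.2 (hall v hv.1 h))
  have hu1D := (mDa u1).2 ⟨hu1, h1⟩
  have hu2D := (mDa u2).2 ⟨hu2, h2⟩
  by_cases hcase : ∃ u' ∈ Dp, (nb G X u').card = k
  · -- a vertex of degree `k` in `Dp`
    exfalso
    obtain ⟨u', hu', hdk⟩ := hcase
    rw [mDp] at hu'
    have hu'a := hall u' hu'.1 hdk
    have n1 : u1 ≠ u' := fun h => h1 (h ▸ hu'a)
    have n2 : u2 ≠ u' := fun h => h2 (h ▸ hu'a)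
    obtain ⟨A, A', h, s, _, _, _, _, hs, hG, _⟩ := F.sevN B hu1 hu'.1 n1 h1 hu'.2
    have h6 := exs_mem (G := G) (k := k) (X := X) hu2 (Ne.symm h12) n2
    have h7 := hDak u2 hu2D
    have h8 : ad G u' a = 1 := ad_one hu'a.symm
    have e0 : ad G a p = 0 := by omega
    have e1 : ad G u1 p = 0 := by omega
    have := hG e0 e1
    omega
  push Not at hcase
  have hDpk : ∀ v ∈ Dp, k < (nb G X v).card := by
    intro v hv
    exact hne v ((mDp v).1 hv).1 (hcase v hv)
  have hD : ∀ q ∈ P, (nb G X q).card = k → G.Adj a q ∧ G.Adj p q := by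
    intro q hq hk
    constructor
    · exact hall q hq hk
    · by_contra hcon
      have := hDpk q ((mDp q).2 ⟨hq, hcon⟩)
      omega
  -- another vertex of `Da`
  have hother : ∀ u, ∃ w ∈ Da, w ≠ u := by
    intro u
    by_cases e : u = u1
    · exact ⟨u2, hu2D, fun h => h12 (e.symm.trans h.symm)⟩
    · exact ⟨u1, hu1D, fun h => e h.symm⟩
  by_cases hap : G.Adj a p
  · -- adjacent
    have e0 : ad G a p = 1 := ad_one hap
    have h4 := F.mc.near2a F.hP F.hPq F.hPc ha'.1 hp'.1 hap.ne ha'.2 hp'.2 hap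
    rw [← hDa, ← hDp] at h4
    have hc1 : Da ⊆ Dp := by
      intro u hu
      by_contra hup
      have hu0 := (mDa u).1 hu
      have g1 : ad G u p = 1 := by
        refine ad_one ?_
        by_contra h5
        exact hup ((mDp u).2 ⟨hu0.1, fun h6 => h5 h6.symm⟩)
      -- `Dp` has one element and `Da` at most two
      have g2 : ∀ u' ∈ Dp, ∀ w ∈ Da ∪ Dp, w = u ∨ w = u' := by
        intro u' hu' w hw
        by_contra hcon
        push Not at hcon
        have hu0' := (mDp u').1 hu'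
        obtain ⟨A, A', h, s, _, _, _, _, hs, _, _⟩ :=
          F.sevN B hu0.1 hu0'.1 (fun h => hup (h ▸ hu')) hu0.2 hu0'.2
        have hwP : w ∈ P := by
          rw [mem_union, mDa, mDp] at hw
          exact hw.elim (fun h => h.1) (fun h => h.1)
        have hwd : k < (nb G X w).card := by
          rw [mem_union] at hw
          exact hw.elim (hDak w) (hDpk w)
        have g5 := exs_mem (G := G) (k := k) (X := X) hwP hcon.1 hcon.2
        omega
      obtain ⟨u', hu'⟩ := Finset.card_pos.1 hpD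
      rw [← hDp] at hu'
      have g3 : Dp ⊆ {u'} := by
        intro w hw
        rw [mem_singleton]
        exact (g2 u' hu' w (mem_union_right _ hw)).resolve_left (fun h => hup (h ▸ hw))
      have g4 : Da ⊆ {u, u'} := by
        intro w hw
        rw [mem_insert, mem_singleton]
        exact g2 u' hu' w (mem_union_left _ hw)
      have g5 := Finset.card_le_card g3
      have g6 := Finset.card_le_card g4
      have g7 := Finset.card_insert_le u {u'}
      rw [Finset.card_singleton] at g5 g7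
      omega
    have hc2 : Dp ⊆ Da := by
      intro u' hu'
      by_contra hua
      have hu0' := (mDp u').1 hu'
      have g1 : ad G u' a = 1 := by
        refine ad_one ?_
        by_contra h5
        exact hua ((mDa u').2 ⟨hu0'.1, fun h6 => h5 h6.symm⟩)
      obtain ⟨w, hw, hwu⟩ := hother u1
      have hw0 := (mDa w).1 hw
      obtain ⟨A, A', h, s, _, _, _, _, hs, _, _⟩ :=
        F.sevN B hu1 hu0'.1 (fun h => hua (h ▸ hu1D)) h1 hu0'.2
      have g5 := exs_mem (G := G) (k := k) (X := X) (u' := u') hw0.1 hwu (fun h => hua (h ▸ hw))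
      have g6 := hDak w hw
      omega
    have hDD : Da = Dp := Finset.Subset.antisymm hc1 hc2
    rw [← hDD] at mDp
    exact ⟨p, Da, B, hap, mDa, mDp, hDak⟩
  · -- not adjacent
    exfalso
    have e0 : ad G a p = 0 := ad_zero hap
    -- a common element
    have hcom : ∃ b ∈ Da, b ∈ Dp := by
      by_contra hcon
      push Not at hcon
      obtain ⟨u', hu'⟩ := Finset.card_pos.1 hpD
      rw [← hDp] at hu'
      have hu0' := (mDp u').1 hu'
      have g1 : ad G u1 p = 1 := by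
        refine ad_one ?_
        by_contra h5
        exact hcon u1 hu1D ((mDp u1).2 ⟨hu1, fun h6 => h5 h6.symm⟩)
      have g2 : ad G u' a = 1 := by
        refine ad_one ?_
        by_contra h5
        exact hcon u' ((mDa u').2 ⟨hu0'.1, fun h6 => h5 h6.symm⟩) hu'
      obtain ⟨A, A', h, s, _, _, _, _, hs, _, _⟩ :=
        F.sevN B hu1 hu0'.1 (fun h => hcon u1 hu1D (h ▸ hu')) h1 hu0'.2
      have g5 := exs_mem (G := G) (k := k) (X := X) (u' := u') hu2 (Ne.symm h12)
        (fun h => hcon u2 hu2D (h ▸ hu'))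
      have g6 := hDak u2 hu2D
      omega
    obtain ⟨b, hba, hbp⟩ := hcom
    have hb1 := (mDa b).1 hba
    have hb2 := (mDp b).1 hbp
    have hc1 : Da ⊆ Dp := by
      intro u hu
      by_contra hup
      have hu0 := (mDa u).1 hu
      have g1 : G.Adj p u := by
        by_contra h5
        exact hup ((mDp u).2 ⟨hu0.1, h5⟩)
      exact F.gam B.symm (fun h => hap h.symm) hb1.1 hu0.1 (fun h => hup (h ▸ hbp)) hb2.2 hb1.2
        hu0.2 g1 (hDak u hu) (fun q hq _ hk => (hD q hq hk).symm)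
    have hc2 : Dp ⊆ Da := by
      intro u hu
      by_contra hup
      have hu0 := (mDp u).1 hu
      have g1 : G.Adj a u := by
        by_contra h5
        exact hup ((mDa u).2 ⟨hu0.1, h5⟩)
      exact F.gam B hap hb1.1 hu0.1 (fun h => hup (h ▸ hba)) hb1.2 hb2.2
        hu0.2 g1 (hDpk u hu) (fun q hq _ hk => hD q hq hk)
    have hDD : Da = Dp := Finset.Subset.antisymm hc1 hc2
    rw [← hDD] at mDp
    exact F.c2aN B hap mDa mDp hDak hu1D hu2D h12

/-- the first part of Case II, `k ≥ 7`: what remains for every base of the frame -/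
theorem c2b (h7 : 7 ≤ k) {a : V} (ha : a ∈ X \ P)
    (hall : ∀ c ∈ P, (nb G X c).card = k → G.Adj a c)
    {u1 u2 : V} (hu1 : u1 ∈ P) (hu2 : u2 ∈ P) (h12 : u1 ≠ u2) (h1 : ¬ G.Adj a u1)
    (h2 : ¬ G.Adj a u2) {c : V} (hc : c ∈ P) (hd : (nb G X c).card = k) :
    k ≤ 8 ∧ ∃ p, Base G k X P c a p ∧ G.Adj a p ∧
      (∀ v ∈ P, G.Adj a v ↔ v ≠ u1 ∧ v ≠ u2) ∧ (∀ v ∈ P, G.Adj p v ↔ v ≠ u1 ∧ v ≠ u2) ∧
      k < (nb G X u1).card ∧ k < (nb G X u2).card := by
  obtain ⟨p, D, B, hap, mDa, mDp, hDd⟩ := F.c2aI h7 ha hall hu1 hu2 h12 h1 h2 hc hd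
  have hu1D := (mDa u1).2 ⟨hu1, h1⟩
  have hu2D := (mDa u2).2 ⟨hu2, h2⟩
  have hD2 : D.card ≤ 2 := by
    by_contra hcon
    exact F.c2aA h7 B hap mDa mDp hDd hu1D hu2D h12 (by omega)
  have hDe : ({u1, u2} : Finset V) = D := by
    refine Finset.eq_of_subset_of_card_le ?_ (by rw [Finset.card_pair h12]; exact hD2)
    intro z hz
    rw [mem_insert, mem_singleton] at hz
    rcases hz with rfl | rfl
    · exact hu1D
    · exact hu2D
  have ha' := mem_sdiff.1 B.hx
  have hp' := mem_sdiff.1 B.hx'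
  have hDa : nb Gᶜ P a = D := by
    ext v
    rw [mDa]
    exact F.mem_nbc ha'.2
  have hDp : nb Gᶜ P p = D := by
    ext v
    rw [mDp]
    exact F.mem_nbc hp'.2
  have h4 := F.mc.near2a F.hP F.hPq F.hPc ha'.1 hp'.1 hap.ne ha'.2 hp'.2 hap
  rw [hDa, hDp] at h4
  refine ⟨by omega, p, B, hap, ?_, ?_, hDd u1 hu1D, hDd u2 hu2D⟩
  · intro v hv
    constructor
    · intro h
      exact ⟨fun e => h1 (e ▸ h), fun e => h2 (e ▸ h)⟩
    · rintro ⟨n1, n2⟩
      by_contra hcon
      have h5 := (mDa v).2 ⟨hv, hcon⟩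
      rw [← hDe, mem_insert, mem_singleton] at h5
      exact h5.elim n1 n2
  · intro v hv
    constructor
    · intro h
      exact ⟨fun e => ((mDp u1).1 hu1D).2 (e ▸ h), fun e => ((mDp u2).1 hu2D).2 (e ▸ h)⟩
    · rintro ⟨n1, n2⟩
      by_contra hcon
      have h5 := (mDp v).2 ⟨hv, hcon⟩
      rw [← hDe, mem_insert, mem_singleton] at h5
      exact h5.elim n1 n2

/-- the first part of Case II, `k ≥ 9` -/
theorem c2a (h9 : 9 ≤ k) {a : V} (ha : a ∈ X \ P)
    (hall : ∀ c ∈ P, (nb G X c).card = k → G.Adj a c)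
    {u1 u2 : V} (hu1 : u1 ∈ P) (hu2 : u2 ∈ P) (h12 : u1 ≠ u2) (h1 : ¬ G.Adj a u1)
    (h2 : ¬ G.Adj a u2) : False := by
  obtain ⟨c, hc, hd⟩ := F.hex
  have := (F.c2b (by omega) ha hall hu1 hu2 h12 h1 h2 hc hd).1
  omega

end Fr

end Pool.Agent.TwoDens.TS
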