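import Pool.Agent.TKS.HD

/-!
No base with two adjacent outer vertices that miss the same two vertices of the clique, for
`5 ≤ k ≤ 6`.
-/

open Finset

namespace Pool.Agent.TwoDens.TS

open Pool.Agent.TwoDens Pool.Agent.TwoDens.RK Pool.Agent.TwoDens.DD

variable {V : Type*} [DecidableEq V] {G : SimpleGraph V} [DecidableRel G.Adj]

/-- an outer vertex of a base that misses at least two vertices of the clique -/
theorem AllH.two {k : ℕ} {X R : Finset V} (A : AllH G k X) {t y v : V} (B : Base G k X R t y v)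
    (h2 : 2 ≤ (nb Gᶜ R y).card) : (nb Gᶜ R y).card = 2 ∧ G.Adj y v := by
  have one : ∀ b, (∀ z ∈ R, z ≠ b → G.Adj y z) → False := by
    intro b hb
    have h3 : nb Gᶜ R y ⊆ {b} := by
      intro z hz
      have hz' := mem_nb.1 hz
      have h4 := ((SimpleGraph.compl_adj _ _ _).1 hz'.2).2
      rw [mem_singleton]
      by_contra h5
      exact h4 (hb z hz'.1 h5)
    have h6 := Finset.card_le_card h3
    rw [Finset.card_singleton] at h6
    omega
  have two : ∀ b d, (∀ z ∈ R, z ≠ b → z ≠ d → G.Adj y z) → (nb Gᶜ R y).card = 2 := by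
    intro b d hb
    have h3 : nb Gᶜ R y ⊆ {b, d} := by
      intro z hz
      have hz' := mem_nb.1 hz
      have h4 := ((SimpleGraph.compl_adj _ _ _).1 hz'.2).2
      rw [mem_insert, mem_singleton]
      by_contra h5
      push Not at h5
      exact h4 (hb z hz'.1 h5.1 h5.2)
    have h6 := Finset.card_le_card h3
    have h7 := Finset.card_le_two (a := b) (b := d)
    omega
  have mQ : ∀ b d z, z ∈ R → z ≠ b → z ≠ d → z ∈ (R.erase b).erase d := fun b d z hz h3 h4 =>
    mem_erase.2 ⟨h4, mem_erase.2 ⟨h3, hz⟩⟩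
  rcases A.cls B with (⟨b, hb, S⟩ | ⟨u, hu, w, hw, huw, S | S | S⟩) | ⟨u, u', S⟩
  · exact (one b fun z hz h3 => S.aQ2 z (mem_erase.2 ⟨h3, hz⟩)).elim
  · refine (one u fun z hz h3 => ?_).elim
    by_cases e : z = w
    · rw [e]
      exact S.a23.symm
    · exact S.aQ3 z (mQ u w z hz h3 e)
  · exact ⟨two u w fun z hz h3 h4 => S.aQ4 z (mQ u w z hz h3 h4), S.a34.symm⟩
  · refine (one u fun z hz h3 => ?_).elim
    by_cases e : z = w
    · rw [e]
      exact S.a12
    · exact S.aQ1 z (mQ u w z hz h3 e)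
  · exact ⟨two u u' fun z hz h3 h4 => (S.mx z hz).2 ⟨h3, h4⟩, S.adj⟩

/-- a vertex `t` of degree `k` in the clique of a star, `y` outside adjacent to `t` misses at
least three elements of `T`: the other outer neighbour of `t` is outside `T` and adjacent to `y` -/
theorem AllH.g3 {k : ℕ} {X T : Finset V} (A : AllH G k X) (hT : T ⊆ X) (hTc : T.card = k)
    {r t y : V} (hr : r ∈ T) (hq : Clq G (T.erase r)) (ht : t ∈ T.erase r)
    (hd : (nb G X t).card = k) (hy : y ∈ X) (hyT : y ∉ T) (hyt : G.Adj y t)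
    (h3 : 3 ≤ (nb Gᶜ T y).card) : ∃ v ∈ X, v ∉ T ∧ v ≠ y ∧ G.Adj v t ∧ G.Adj v y := by
  have hRX : T.erase r ⊆ X := (Finset.erase_subset _ _).trans hT
  have hRc : (T.erase r).card + 1 = k := by rw [Finset.card_erase_add_one hr, hTc]
  obtain ⟨v, B⟩ := base_mk1 hRX hRc hq ht hd
    (mem_sdiff.2 ⟨hy, fun h => hyT (mem_erase.1 h).2⟩) hyt.symm
  have hsub : nb Gᶜ T y ⊆ insert r (nb Gᶜ (T.erase r) y) := by
    intro z hz
    have hz' := mem_nb.1 hz
    rw [mem_insert]
    by_cases e : z = r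
    · exact Or.inl e
    · exact Or.inr (mem_nb.2 ⟨mem_erase.2 ⟨e, hz'.1⟩, hz'.2⟩)
  have h4 := Finset.card_le_card hsub
  have h5 := Finset.card_insert_le r (nb Gᶜ (T.erase r) y)
  obtain ⟨h6, h7⟩ := A.two B (by omega)
  have hv := mem_sdiff.1 B.hx'
  have hyr : ¬ G.Adj y r := by
    intro h
    have h8 : nb Gᶜ T y ⊆ nb Gᶜ (T.erase r) y := by
      intro z hz
      rcases mem_insert.1 (hsub hz) with e | e
      · exact absurd h (e ▸ ((SimpleGraph.compl_adj _ _ _).1 (mem_nb.1 hz).2).2)
      · exact e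
    have h9 := Finset.card_le_card h8
    omega
  refine ⟨v, hv.1, fun h => ?_, B.hne.symm, B.ax'.symm, h7.symm⟩
  have h8 : v = r := by
    by_contra e
    exact hv.2 (mem_erase.2 ⟨e, h⟩)
  exact hyr (h8 ▸ h7)

/-- a star that contains a vertex without neighbours outside another set -/
theorem StarT.meet {k : ℕ} {Y T T' ZS WS : Finset V} {r : V} (hS : StarT G k Y T' r)
    (hZ : ZS ⊆ T') (hW : WS ⊆ T') (hZc : 2 ≤ ZS.card) (hWc : 2 ≤ WS.card)
    (hZT : ∀ z ∈ ZS, z ∈ T ∧ nb G Y z \ T = ∅) (hWT : ∀ w ∈ WS, w ∉ T) : False := by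
  obtain ⟨z, hz, hzr⟩ := Finset.exists_mem_ne hZc r
  obtain ⟨w, hw, hwr⟩ := Finset.exists_mem_ne hWc r
  have hzw : z ≠ w := fun e => hWT w hw (e ▸ (hZT z hz).1)
  have h1 := hS.clq z (mem_erase.2 ⟨hzr, hZ hz⟩) w (mem_erase.2 ⟨hwr, hW hw⟩) hzw
  have h2 : w ∈ nb G Y z \ T := mem_sdiff.2 ⟨mem_nb.2 ⟨hS.hT (hW hw), h1⟩, hWT w hw⟩
  rw [(hZT z hz).2] at h2
  simp at h2

theorem AllH.c4main {k : ℕ} {X P : Finset V} (A : AllH G k X) (F : Fr G k X P) {c x x' u u' : V}
    (S : TyC4 G k X P c x x' u u')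
    (hsum : (nb G (hb X P x x') x).card + (nb G (hb X P x x') u).card = k) : False := by
  have dx := S.dx
  have dx' := S.dx'
  have hk6' := A.h6
  have hx := mem_sdiff.1 S.B.hx
  have hx' := mem_sdiff.1 S.B.hx'
  have hPc := F.hPc
  have nxu : ¬ G.Adj x u := fun h => ((S.mx u S.hu).1 h).1 rfl
  have nxu' : ¬ G.Adj x u' := fun h => ((S.mx u' S.hu').1 h).2 rfl
  have nx'u : ¬ G.Adj x' u := fun h => ((S.mx' u S.hu).1 h).1 rfl
  have nx'u' : ¬ G.Adj x' u' := fun h => ((S.mx' u' S.hu').1 h).2 rfl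
  have hbp := F.bp _ _ _ S.B
  obtain ⟨a, a', h, s, hA, hA', hh, hs, hsev, -, -⟩ := F.sevN S.B S.hu S.hu' S.huu nxu nx'u'
  rw [ad_one S.adj, ad_zero (fun h => nx'u h.symm), ad_zero (fun h => nxu' h.symm)] at hsev
  have htr := F.tr_xu S.B S.hu nxu
  have hcT := F.card_xu S.B S.hu nxu
  have htr' := F.tr_xu S.B.symm S.hu' nx'u'
  have hcT' := F.card_xu S.B.symm S.hu' nx'u'
  have hcM := F.card_xu S.B S.hu' nxu'
  have hcM' := F.card_xu S.B.symm S.hu nx'u
  rw [hb_comm X P x' x] at htr' hcT' hcM'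
  have hnu := F.nbH S.B S.hu
  rw [ad_zero (fun h => nxu h.symm), ad_zero (fun h => nx'u h.symm)] at hnu
  have hnu' := F.nbH S.B S.hu'
  rw [ad_zero (fun h => nxu' h.symm), ad_zero (fun h => nx'u' h.symm)] at hnu'
  have du := S.d
  have du' := S.d'
  have hexP : ∑ v ∈ (P.erase u).erase u', (nb G (hb X P x x') v).card =
      exs G k X ((P.erase u).erase u') := by
    unfold exs
    refine Finset.sum_congr rfl fun v hv => ?_
    rw [mem_erase, mem_erase] at hv
    have h1 := F.nbH S.B hv.2.2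
    rw [ad_one ((S.mx v hv.2.2).2 ⟨hv.2.1, hv.1⟩).symm,
      ad_one ((S.mx' v hv.2.2).2 ⟨hv.2.1, hv.1⟩).symm] at h1
    omega
  have hYX : hb X P x x' ⊆ X := hb_sub
  have hYne : hb X P x x' ≠ X := S.B.hbne
  have htau := hbp.tau
  have hps4 := hbp.ps4
  have halY := hbp.alH
  obtain ⟨Fs, hFs⟩ : ∃ Fs, Fs = insert x (insert x' P) := ⟨_, rfl⟩
  have hx'P : x' ∉ P := hx'.2
  have hxP : x ∉ insert x' P := by
    rw [mem_insert]
    rintro (h | h)
    · exact S.B.hne h
    · exact hx.2 h
  have hFc : Fs.card = k + 1 := by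
    rw [hFs, Finset.card_insert_of_notMem hxP, Finset.card_insert_of_notMem hx'P]
    omega
  have hFX : Fs ⊆ X := by
    rw [hFs]
    exact Finset.insert_subset hx.1 (Finset.insert_subset hx'.1 F.hP)
  have hFY : Fs ∪ hb X P x x' = X := by
    ext v
    rw [mem_union, hFs, mem_insert, mem_insert, mem_hb]
    constructor
    · rintro ((h | h | h) | h)
      · exact h ▸ hx.1
      · exact h ▸ hx'.1
      · exact F.hP h
      · exact h.1
    · intro hv
      by_cases e1 : v = x
      · exact Or.inl (Or.inl e1)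
      · by_cases e2 : v = x'
        · exact Or.inl (Or.inr (Or.inl e2))
        · by_cases e3 : v ∈ P
          · exact Or.inl (Or.inr (Or.inr e3))
          · exact Or.inr ⟨hv, e3, e1, e2⟩
  have hFd : Disjoint Fs (hb X P x x') := by
    rw [Finset.disjoint_left]
    intro v hv hv'
    rw [hFs, mem_insert, mem_insert] at hv
    rw [mem_hb] at hv'
    rcases hv with h | h | h
    · exact hv'.2.2.1 h
    · exact hv'.2.2.2 h
    · exact hv'.2.1 h
  obtain ⟨Y, hY⟩ : ∃ Y, Y = hb X P x x' := ⟨_, rfl⟩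
  rw [← hY] at hsum hA hA' hh htr hcT htr' hcT' hcM hcM' hnu hnu' hexP hYX hYne htau hps4 halY hFY hFd
  obtain ⟨T, hT⟩ : ∃ T, T = nb G Y x ∪ nb G Y u := ⟨_, rfl⟩
  rw [← hT] at htr hcT
  have hTY : T ⊆ Y := by
    rw [hT]
    exact Finset.union_subset (nb_sub _ _) (nb_sub _ _)
  have hui := Finset.card_union_add_card_inter (nb G Y x) (nb G Y u)
  rw [← hT] at hui
  have hTc : T.card = k := by omega
  have hTd : Disjoint (nb G Y x) (nb G Y u) := by
    rw [Finset.disjoint_iff_inter_eq_empty, ← Finset.card_eq_zero]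
    omega
  -- sizes of the parts
  have hxF : x ∈ Fs := by rw [hFs]; exact mem_insert_self _ _
  have hx'F : x' ∈ Fs := by rw [hFs]; exact mem_insert_of_mem (mem_insert_self _ _)
  have hPF : P ⊆ Fs := by
    rw [hFs]
    exact (Finset.subset_insert _ _).trans (Finset.subset_insert _ _)
  have size : ∀ z ∈ Fs, z ∉ P → ¬ G.Adj z u → ¬ G.Adj z u' → k < (nb G X z).card →
      3 ≤ (nb G Y z).card := by
    intro z hz hzP n1 n2 hd
    have h1 := nb_un (G := G) hFY hFd z
    have h2 := nbc_card (G := G) hz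
    have h3 : ({u, u'} : Finset V) ⊆ nb Gᶜ Fs z := by
      intro w hw
      rw [mem_insert, mem_singleton] at hw
      rcases hw with h | h
      · rw [h]
        exact mem_nb.2 ⟨hPF S.hu, (SimpleGraph.compl_adj _ _ _).2
          ⟨fun e => hzP (e ▸ S.hu), n1⟩⟩
      · rw [h]
        exact mem_nb.2 ⟨hPF S.hu', (SimpleGraph.compl_adj _ _ _).2
          ⟨fun e => hzP (e ▸ S.hu'), n2⟩⟩
    have h4 := Finset.card_le_card h3
    rw [Finset.card_pair S.huu] at h4
    omega
  have hf3 := size x hxF hx.2 nxu nxu' dx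
  have hf3' := size x' hx'F hx'.2 nx'u nx'u' dx'
  have hn3 : 3 ≤ (nb G Y u).card := by omega
  have hn3' : 3 ≤ (nb G Y u').card := by omega
  have hk6 : k = 6 := by omega
  obtain ⟨r, hS⟩ := A.mc.star8g hYX hYne hps4 htau hTY hTc htr
    (Or.inr (Or.inl ⟨by omega, by omega⟩))
  have hTX := hTY.trans hYX
  have hFT : Disjoint Fs T := hFd.mono_right hTY
  have hxT : x ∉ T := Finset.disjoint_left.1 hFT hxF
  have huT : u ∉ T := Finset.disjoint_left.1 hFT (hPF S.hu)
  have hdegY : ∀ t ∈ Y, k ≤ (nb G Y t).card + 1 := fun t ht => htau.deg ht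
  -- every vertex of `T` has a neighbour in `Fs`
  have hw1 : ∀ t ∈ T, 1 ≤ (nb G Fs t).card := by
    intro t ht
    rw [hT, mem_union] at ht
    rcases ht with h1 | h1
    · exact Finset.card_pos.2 ⟨x, mem_nb.2 ⟨hxF, (mem_nb.1 h1).2.symm⟩⟩
    · exact Finset.card_pos.2 ⟨u, mem_nb.2 ⟨hPF S.hu, (mem_nb.1 h1).2.symm⟩⟩
  have hg3 : ∀ t ∈ T.erase r, ∀ y ∈ Fs, nb G Y y ⊆ T → t ∈ nb G Y y →
      3 ≤ (nb Gᶜ T y).card → 2 ≤ (nb G Fs t).card + ((nb G Y t).card - (k - 1)) := by
    intro t ht y hy hyT hty h3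
    by_contra hcon
    have htT := (mem_erase.1 ht).2
    have h1 := hw1 t htT
    have h2 := hdegY t (hTY htT)
    have h4 := nb_un (G := G) hFY hFd t
    obtain ⟨v, hv, hvT, hne, hvt, hvy⟩ := A.g3 hTX hTc hS.hr hS.clq ht (by omega) (hFX hy)
      (Finset.disjoint_left.1 hFT hy) (mem_nb.1 hty).2 h3
    rw [← hFY, mem_union] at hv
    rcases hv with hv | hv
    · have h5 : ({y, v} : Finset V) ⊆ nb G Fs t := by
        intro z hz
        rw [mem_insert, mem_singleton] at hz
        rcases hz with h | h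
        · rw [h]
          exact mem_nb.2 ⟨hy, (mem_nb.1 hty).2.symm⟩
        · rw [h]
          exact mem_nb.2 ⟨hv, hvt.symm⟩
      have h6 := Finset.card_le_card h5
      rw [Finset.card_pair hne.symm] at h6
      omega
    · exact hvT (hyT (mem_nb.2 ⟨hv, hvy.symm⟩))
  have hG3 : ∀ t ∈ T.erase r, 2 ≤ (nb G Fs t).card + ((nb G Y t).card - (k - 1)) := by
    intro t ht
    have htT := (mem_erase.1 ht).2
    rw [hT, mem_union] at htT
    rcases htT with h1 | h1
    · refine hg3 t ht x hxF (by rw [hT]; exact Finset.subset_union_left) h1 ?_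
      refine hn3.trans (Finset.card_le_card ?_)
      intro z hz
      refine mem_nb.2 ⟨by rw [hT]; exact mem_union_right _ hz, (SimpleGraph.compl_adj _ _ _).2
        ⟨fun e => ?_, fun e => (Finset.disjoint_left.1 hTd) (mem_nb.2 ⟨(mem_nb.1 hz).1, e⟩) hz⟩⟩
      exact (Finset.disjoint_left.1 hFd) hxF (e ▸ (mem_nb.1 hz).1)
    · refine hg3 t ht u (hPF S.hu) (by rw [hT]; exact Finset.subset_union_right) h1 ?_
      refine hf3.trans (Finset.card_le_card ?_)
      intro z hz
      refine mem_nb.2 ⟨by rw [hT]; exact mem_union_left _ hz, (SimpleGraph.compl_adj _ _ _).2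
        ⟨fun e => ?_, fun e => (Finset.disjoint_left.1 hTd) hz (mem_nb.2 ⟨(mem_nb.1 hz).1, e⟩)⟩⟩
      exact (Finset.disjoint_left.1 hFd) (hPF S.hu) (e ▸ (mem_nb.1 hz).1)
  -- sparsity of `Fs ∪ T`
  obtain ⟨Sw, hSw⟩ : ∃ Sw, Sw = ∑ t ∈ T, (nb G Fs t).card := ⟨_, rfl⟩
  have hSw' : ∑ v ∈ Fs, (nb G T v).card = Sw := by rw [hSw]; exact cross_comm _ _
  obtain ⟨q, hq⟩ : ∃ q, (nb Gᶜ T r).card = q := ⟨_, rfl⟩
  have hsp : 2 * Sw ≤ k + 8 + 2 * q := by
    have h1 := A.mc.hS (Fs ∪ T) (Finset.union_subset hFX hTX) (by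
      rw [Finset.card_union_of_disjoint hFT]
      omega)
    rw [Finset.card_union_of_disjoint hFT, e2_disj hFT, hSw', hFc, hTc] at h1
    have h2 := e2_add_compl (G := G) Fs
    have h3 := e2_add_compl (G := G) T
    rw [hS.e2c, hq, hTc] at h3
    have h4 : e2 Gᶜ Fs ≤ 8 := by
      rw [hFs, e2c_insert hxP, e2c_insert hx'P, clq_e2c F.hPq]
      have h5 : nb Gᶜ (insert x' P) x ⊆ {u, u'} := by
        intro z hz
        have hz' := mem_nb.1 hz
        have h6 := ((SimpleGraph.compl_adj _ _ _).1 hz'.2).2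
        rcases mem_insert.1 hz'.1 with h7 | h7
        · exact absurd (h7 ▸ S.adj) h6
        · rw [mem_insert, mem_singleton]
          by_contra h8
          push Not at h8
          exact h6 ((S.mx z h7).2 h8)
      have h5' : nb Gᶜ P x' ⊆ {u, u'} := by
        intro z hz
        have hz' := mem_nb.1 hz
        have h6 := ((SimpleGraph.compl_adj _ _ _).1 hz'.2).2
        rw [mem_insert, mem_singleton]
        by_contra h8
        push Not at h8
        exact h6 ((S.mx' z hz'.1).2 h8)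
      have h9 := Finset.card_le_card h5
      have h9' := Finset.card_le_card h5'
      rw [Finset.card_pair S.huu] at h9 h9'
      omega
    rw [hFc] at h2
    zify at h1 h2 h3 h4 ⊢
    nlinarith
  -- the star
  obtain ⟨o, ho⟩ : ∃ o, (nb G Y r \ T).card = o := ⟨_, rfl⟩
  obtain ⟨E, hE⟩ : ∃ E, exs G (k - 1) Y (T.erase r) = E := ⟨_, rfl⟩
  have hpsT := hS.psT
  rw [ho, hE, hh] at hpsT
  have hps2 := A.mc.ps_sub hYX hYne T
  obtain ⟨p2, hp2⟩ := ps_even (G := G) k (Y \ T)
  rw [hp2] at hpsT hps2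
  have hRc : (T.erase r).card + 1 = k := by rw [Finset.card_erase_add_one hS.hr, hTc]
  have hLR : ∀ l ∈ nb Gᶜ T r, l ∈ T ∧ l ∈ T.erase r := by
    intro l hl
    have hlT := (mem_nb.1 hl).1
    exact ⟨hlT, mem_erase.2 ⟨fun e => ((SimpleGraph.compl_adj _ _ _).1 (mem_nb.1 hl).2).1 e.symm,
      hlT⟩⟩
  have hT1 : Sw = (nb G Fs r).card + ∑ t ∈ T.erase r, (nb G Fs t).card := by
    rw [hSw]
    exact (Finset.add_sum_erase _ _ hS.hr).symm
  have hwr := hw1 r hS.hr
  -- the excess of the vertices of the clique different from `l`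
  have hEl : ∀ l ∈ nb Gᶜ T r, exs G (k - 1) Y ((T.erase r).erase l) ≤ h ∧
      E = ((nb G Y l).card - (k - 1)) + exs G (k - 1) Y ((T.erase r).erase l) := by
    intro l hl
    obtain ⟨hlT, hlR⟩ := hLR l hl
    have h1 := exs_erase (G := G) (k := k - 1) (X := Y) hlR
    rw [hE] at h1
    have h7 := hS.low l hl
    have h8 := A.mc.low0 hYX hYne hS
    have h9 := hdegY l (hTY hlT)
    rw [ho] at h7
    refine ⟨?_, h1⟩
    by_cases e : 2 * p2 ≤ 1
    · have h11 := h8 (by rw [hp2]; exact e) l hl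
      rw [ho] at h11
      omega
    · omega
  have hq2 : 2 ≤ q ∧ (h = 0 → 3 ≤ q) := by
    obtain ⟨l, hl⟩ := Finset.card_pos.1 hS.miss
    obtain ⟨hlT, hlR⟩ := hLR l hl
    obtain ⟨h10, h1⟩ := hEl l hl
    have h2 : ((T.erase r).erase l).card * 2 ≤
        ∑ t ∈ (T.erase r).erase l, ((nb G Fs t).card + ((nb G Y t).card - (k - 1))) := by
      rw [← smul_eq_mul, ← Finset.sum_const]
      exact Finset.sum_le_sum fun t ht => hG3 t (mem_erase.1 ht).2
    rw [Finset.sum_add_distrib] at h2
    have h3 : ∑ t ∈ (T.erase r).erase l, ((nb G Y t).card - (k - 1)) =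
        exs G (k - 1) Y ((T.erase r).erase l) := rfl
    rw [h3] at h2
    have h4 := Finset.card_erase_add_one hlR
    have h5 : ∑ t ∈ T.erase r, (nb G Fs t).card =
        (nb G Fs l).card + ∑ t ∈ (T.erase r).erase l, (nb G Fs t).card :=
      (Finset.add_sum_erase _ _ hlR).symm
    have h6 := hw1 l hlT
    omega
  have hSwE : 2 * k ≤ Sw + E + 1 := by
    have h2 : (T.erase r).card * 2 ≤
        ∑ t ∈ T.erase r, ((nb G Fs t).card + ((nb G Y t).card - (k - 1))) := by
      rw [← smul_eq_mul, ← Finset.sum_const]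
      exact Finset.sum_le_sum fun t ht => hG3 t ht
    rw [Finset.sum_add_distrib] at h2
    have h3 : ∑ t ∈ T.erase r, ((nb G Y t).card - (k - 1)) = E := hE
    rw [h3] at h2
    omega
  -- the outer neighbours of `x'` and `u'`
  have hspl : ∀ v : V, (nb G Y v \ T).card + (nb G T v).card = (nb G Y v).card := by
    intro v
    have h6 : nb G T v = nb G Y v ∩ T := by
      ext z
      rw [mem_nb, mem_inter, mem_nb]
      exact ⟨fun h => ⟨⟨hTY h.1, h.2⟩, h.1⟩, fun h => ⟨h.2, h.1.2⟩⟩
    rw [h6]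
    exact Finset.card_sdiff_add_card_inter _ _
  have hout : (nb G Y x' \ T).card + (nb G Y u' \ T).card + Sw + h ≤ 2 * k + 1 := by
    have h1 : ∑ v ∈ Fs, (nb G T v).card = (nb G T x).card + ((nb G T x').card +
        ((nb G T u).card + ((nb G T u').card + ∑ v ∈ (P.erase u).erase u', (nb G T v).card))) := by
      rw [hFs, Finset.sum_insert hxP, Finset.sum_insert hx'P, ← Finset.add_sum_erase _ _ S.hu,
        ← Finset.add_sum_erase (P.erase u) _ (mem_erase.2 ⟨S.huu.symm, S.hu'⟩)]
    have h2 : ∑ v ∈ (P.erase u).erase u', (nb G T v).card ≤ exs G k X ((P.erase u).erase u') := by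
      rw [← hexP]
      exact Finset.sum_le_sum fun v _ => Finset.card_le_card (nb_mono hTY v)
    have h3 := Finset.card_le_card (nb_mono (G := G) hTY x)
    have h4 := Finset.card_le_card (nb_mono (G := G) hTY u)
    have h7 := hspl x'
    have h8 := hspl u'
    omega
  -- the rest
  obtain ⟨W, hW⟩ : ∃ W, W = Fs ∪ T := ⟨_, rfl⟩
  have hXW : X \ W = Y \ T := by
    ext v
    rw [mem_sdiff, hW, mem_union, mem_sdiff, ← hFY, mem_union]
    constructor
    · rintro ⟨h1 | h1, h2⟩
      · exact absurd (Or.inl h1) h2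
      · exact ⟨h1, fun h3 => h2 (Or.inr h3)⟩
    · rintro ⟨h1, h2⟩
      exact ⟨Or.inr h1, fun h3 => h3.elim (fun h4 => (Finset.disjoint_left.1 hFd) h4 h1) h2⟩
  have hWX : W ⊆ X := by
    rw [hW]
    exact Finset.union_subset hFX hTX
  have halT := hS.alT
  have hal2 : al G (X \ W) + 2 = al G X := by
    rw [hXW]
    omega
  have ht1 : TauGe G (X \ W) (k - 1) := by
    rw [hXW]
    refine A.mc.tau1 (Finset.sdiff_subset.trans hYX) ?_ ?_
    · intro h0
      exact hYne (Finset.Subset.antisymm hYX (h0 ▸ Finset.sdiff_subset))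
    · rw [hp2]
      have h1 : h ≤ 1 := by omega
      omega
  have hnbs : ∀ z : V, nb G (Y \ T) z = nb G Y z \ T := by
    intro z
    ext w
    rw [mem_nb, mem_sdiff, mem_sdiff, mem_nb]
    tauto
  have hoR : ∀ z ∈ T.erase r, (nb G Y z \ T).card ≤ 1 + ((nb G Y z).card - (k - 1)) := by
    intro z hz
    have h1 := deg_split (G := G) hTY (mem_erase.1 hz).2
    have h2 := hS.nbc_le hz
    omega
  have hxout : nb G Y x \ T = ∅ := by
    rw [Finset.sdiff_eq_empty_iff_subset, hT]
    exact Finset.subset_union_left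
  have huout : nb G Y u \ T = ∅ := by
    rw [Finset.sdiff_eq_empty_iff_subset, hT]
    exact Finset.subset_union_right
  by_cases hEh : E ≤ h
  · -- an independent triple without `r`
    obtain ⟨l, hl⟩ := Finset.card_pos.1 hS.miss
    have hlT := (hLR l hl).1
    have hlr : l ≠ r := (mem_erase.1 (hLR l hl).2).1
    have hne : (X \ W).Nonempty := by
      rw [hXW, Finset.nonempty_iff_ne_empty]
      intro h0
      rw [h0, al_empty] at halT
      have h1 := le_al (G := G) (X := Y) (I := {r, l}) (by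
        intro z hz
        rw [mem_insert, mem_singleton] at hz
        rcases hz with e | e
        · rw [e]
          exact hTY hS.hr
        · rw [e]
          exact hTY hlT) (indep_pair ((SimpleGraph.compl_adj _ _ _).1 (mem_nb.1 hl).2).2)
      rw [Finset.card_pair hlr.symm] at h1
      omega
    have hrW : r ∈ W := by rw [hW]; exact mem_union_right _ hS.hr
    obtain ⟨J, hJ, hJi, hJc, hrJ⟩ := A.mc.tri hWX hne hal2 hrW ⟨x, mem_erase.2
      ⟨fun e => hxT (e ▸ hS.hr), by rw [hW]; exact mem_union_left _ hxF⟩⟩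
    have hsum3 := A.mc.trisum hWX hal2 ht1 hJ hJi hJc
    rw [hXW] at hsum3
    have hJs : J ⊆ (J ∩ T.erase r) ∪ ((J ∩ P) ∪ (J ∩ {x, x'})) := by
      intro z hz
      have h1 := hJ hz
      rw [hW, mem_union, hFs, mem_insert, mem_insert] at h1
      rw [mem_union, mem_union, mem_inter, mem_inter, mem_inter, mem_erase, mem_insert,
        mem_singleton]
      rcases h1 with (h1 | h1 | h1) | h1
      · exact Or.inr (Or.inr ⟨hz, Or.inl h1⟩)
      · exact Or.inr (Or.inr ⟨hz, Or.inr h1⟩)
      · exact Or.inr (Or.inl ⟨hz, h1⟩)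
      · exact Or.inl ⟨hz, fun e => hrJ (e ▸ hz), h1⟩
    have c1 : ∑ z ∈ J ∩ T.erase r, (nb G (Y \ T) z).card ≤ 1 + E := by
      refine clq_sum_le hJi hS.clq _ ?_
      intro z hz
      rw [hnbs]
      have h1 := hoR z hz
      have h3 : (nb G Y z).card - (k - 1) ≤ E := by
        rw [← hE]
        unfold exs
        exact Finset.single_le_sum (f := fun v => (nb G Y v).card - (k - 1))
          (fun v _ => Nat.zero_le _) hz
      omega
    have c2 : ∑ z ∈ J ∩ P, (nb G (Y \ T) z).card ≤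
        (nb G Y u' \ T).card + exs G k X ((P.erase u).erase u') := by
      refine clq_sum_le hJi F.hPq _ ?_
      intro z hz
      rw [hnbs]
      by_cases e1 : z = u
      · rw [e1, huout, Finset.card_empty]
        exact Nat.zero_le _
      · by_cases e2 : z = u'
        · rw [e2]
          omega
        · have h1 : z ∈ (P.erase u).erase u' := mem_erase.2 ⟨e2, mem_erase.2 ⟨e1, hz⟩⟩
          have h2 : (nb G Y z).card ≤ ∑ v ∈ (P.erase u).erase u', (nb G Y v).card :=
            Finset.single_le_sum (f := fun v => (nb G Y v).card) (fun v _ => Nat.zero_le _) h1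
          have h3 := Finset.card_le_card (Finset.sdiff_subset : nb G Y z \ T ⊆ nb G Y z)
          omega
    have c3 : ∑ z ∈ J ∩ {x, x'}, (nb G (Y \ T) z).card ≤ (nb G Y x' \ T).card := by
      refine clq_sum_le hJi ?_ _ ?_
      · intro v hv w hw hvw
        rw [mem_insert, mem_singleton] at hv hw
        rcases hv with hv | hv <;> rcases hw with hw | hw
        · exact absurd (hv.trans hw.symm) hvw
        · rw [hv, hw]
          exact S.adj
        · rw [hv, hw]
          exact S.adj.symm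
        · exact absurd (hv.trans hw.symm) hvw
      · intro z hz
        rw [hnbs]
        rw [mem_insert, mem_singleton] at hz
        rcases hz with e | e
        · rw [e, hxout, Finset.card_empty]
          exact Nat.zero_le _
        · rw [e]
    have c4 : ∑ z ∈ J, (nb G (Y \ T) z).card ≤ ∑ z ∈ J ∩ T.erase r, (nb G (Y \ T) z).card +
        (∑ z ∈ J ∩ P, (nb G (Y \ T) z).card + ∑ z ∈ J ∩ {x, x'}, (nb G (Y \ T) z).card) := by
      refine (Finset.sum_le_sum_of_subset hJs).trans ((sum_un_le _ _ _).trans ?_)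
      exact Nat.add_le_add_left (sum_un_le _ _ _) _
    omega
  · -- the remaining case: two missed vertices with excess one
    push Not at hEh
    obtain ⟨L, hL⟩ : ∃ L, L = nb Gᶜ T r := ⟨_, rfl⟩
    rw [← hL] at hq hEl hLR
    have hLsub : L ⊆ T.erase r := fun l hl => (hLR l hl).2
    have hexL : ∀ l ∈ L, E ≤ ((nb G Y l).card - (k - 1)) + h := by
      intro l hl
      obtain ⟨h1, h2⟩ := hEl l hl
      omega
    have hLE : ∑ l ∈ L, ((nb G Y l).card - (k - 1)) ≤ E := by
      rw [← hE]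
      unfold exs
      exact Finset.sum_le_sum_of_subset hLsub
    have hqE : q * (E - h) ≤ E := by
      refine le_trans ?_ hLE
      rw [← hq, ← smul_eq_mul, ← Finset.sum_const]
      refine Finset.sum_le_sum fun l hl => ?_
      have := hexL l hl
      omega
    have hq2' : q = 2 := by
      by_contra hcon
      have h1 : 3 * (E - h) ≤ q * (E - h) := Nat.mul_le_mul_right _ (by omega)
      omega
    rw [hq2'] at hqE hsp hq
    have hh1 : h = 1 := by omega
    have hE2 : E = 2 := by omega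
    have hexl : ∀ l ∈ L, (nb G Y l).card - (k - 1) = 1 ∧
        exs G (k - 1) Y ((T.erase r).erase l) = 1 := by
      intro l hl
      obtain ⟨h1, h2⟩ := hEl l hl
      have h3 := hexL l hl
      obtain ⟨l', hl', hne⟩ := Finset.exists_mem_ne (by omega : 1 < L.card) l
      have h4 := hexL l' hl'
      have h5 := exs_erase (G := G) (k := k - 1) (X := Y)
        (mem_erase.2 ⟨hne, hLsub hl'⟩ : l' ∈ (T.erase r).erase l)
      omega
    have hw2 : ∀ l ∈ L, (nb G Fs l).card ≤ 1 := by
      intro l hl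
      obtain ⟨hlT, hlR⟩ := hLR l hl
      have h1 := (hexl l hl).2
      have h2 : ((T.erase r).erase l).card * 2 ≤
          ∑ t ∈ (T.erase r).erase l, ((nb G Fs t).card + ((nb G Y t).card - (k - 1))) := by
        rw [← smul_eq_mul, ← Finset.sum_const]
        exact Finset.sum_le_sum fun t ht => hG3 t (mem_erase.1 ht).2
      rw [Finset.sum_add_distrib] at h2
      have h3 : ∑ t ∈ (T.erase r).erase l, ((nb G Y t).card - (k - 1)) =
          exs G (k - 1) Y ((T.erase r).erase l) := rfl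
      rw [h3] at h2
      have h4 := Finset.card_erase_add_one hlR
      have h5 : ∑ t ∈ T.erase r, (nb G Fs t).card =
          (nb G Fs l).card + ∑ t ∈ (T.erase r).erase l, (nb G Fs t).card :=
        (Finset.add_sum_erase _ _ hlR).symm
      omega
    have ho2 : ∀ l ∈ L, (nb G Y l \ T).card ≤ 2 := by
      intro l hl
      have h1 := (hexl l hl).1
      have h2 := hoR l (hLsub hl)
      omega
    -- vertices of the clique that are not missed have no neighbour in the rest
    have ho0 : ∀ z ∈ T.erase r, z ∉ L → nb G Y z \ T = ∅ := by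
      intro z hz hzL
      have h1 : ∑ v ∈ insert z L, ((nb G Y v).card - (k - 1)) ≤ E := by
        rw [← hE]
        unfold exs
        exact Finset.sum_le_sum_of_subset (Finset.insert_subset hz hLsub)
      rw [Finset.sum_insert hzL] at h1
      have h2 : L.card * 1 ≤ ∑ l ∈ L, ((nb G Y l).card - (k - 1)) := by
        rw [← smul_eq_mul, ← Finset.sum_const]
        exact Finset.sum_le_sum fun l hl => (hexl l hl).1.ge
      have hzT := (mem_erase.1 hz).2
      have h3 := deg_split (G := G) hTY hzT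
      have h4 : nb Gᶜ T z = ∅ := by
        rw [Finset.eq_empty_iff_forall_notMem]
        intro y hy
        have hy' := mem_nb.1 hy
        have h5 := (SimpleGraph.compl_adj _ _ _).1 hy'.2
        by_cases e : y = r
        · rw [e] at h5
          apply hzL
          rw [hL]
          exact mem_nb.2 ⟨hzT, (SimpleGraph.compl_adj _ _ _).2 ⟨h5.1.symm, fun h => h5.2 h.symm⟩⟩
        · exact h5.2 (hS.clq z hz y (mem_erase.2 ⟨e, hy'.1⟩) h5.1)
      rw [h4, Finset.card_empty] at h3
      rw [← Finset.card_eq_zero]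
      have h5 := hdegY z (hTY hzT)
      omega
    have hf' : (nb G Y x').card = 3 := by omega
    have hn' : (nb G Y u').card = 3 := by omega
    have hf : (nb G Y x).card = 3 := by omega
    have hn : (nb G Y u).card = 3 := by omega
    obtain ⟨T', hT'⟩ : ∃ T', T' = nb G Y x' ∪ nb G Y u' := ⟨_, rfl⟩
    rw [← hT'] at htr' hcT'
    have hTY' : T' ⊆ Y := by
      rw [hT']
      exact Finset.union_subset (nb_sub _ _) (nb_sub _ _)
    have hcu' := Finset.card_union_le (nb G Y x') (nb G Y u')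
    rw [← hT'] at hcu'
    obtain ⟨r', hS'⟩ := A.mc.star8g hYX hYne hps4 htau hTY' (by omega) htr'
      (Or.inr (Or.inl ⟨by omega, by omega⟩))
    have two : ∀ z p p', p ∈ Fs → p' ∈ Fs → p ≠ p' → z ∈ nb G Y p → z ∈ nb G Y p' →
        2 ≤ (nb G Fs z).card := by
      intro z p p' hp hp' hpp h1 h2
      rw [← Finset.card_pair hpp]
      refine Finset.card_le_card ?_
      intro w hw
      rw [mem_insert, mem_singleton] at hw
      rcases hw with e | e
      · rw [e]
        exact mem_nb.2 ⟨hp, (mem_nb.1 h1).2.symm⟩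
      · rw [e]
        exact mem_nb.2 ⟨hp', (mem_nb.1 h2).2.symm⟩
    have fin : ∀ p p' m, p ∈ Fs → p' ∈ Fs → p ≠ p' → nb G Y p' ⊆ nb G Y p → nb G Y p ⊆ T →
        nb G Y p' ⊆ T' → (nb G Y p').card = 3 → nb G Y m ⊆ T' → (nb G Y m).card = 3 →
        (nb G Y m \ T).card = 3 → False := by
      intro p p' m hp hp' hpp h1 h2 h3 h4 h5 h6 h7
      have h8 := hspl m
      refine hS'.meet (T := T) (ZS := (nb G Y p').erase r) (WS := nb G Y m)
        ((Finset.erase_subset _ _).trans h3) h5 ?_ (by omega) ?_ ?_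
      · have := Finset.pred_card_le_card_erase (s := nb G Y p') (a := r)
        omega
      · intro z hz
        rw [mem_erase] at hz
        have hzT := h2 (h1 hz.2)
        refine ⟨hzT, ho0 z (mem_erase.2 ⟨hz.1, hzT⟩) fun hzL => ?_⟩
        have h9 := two z p p' hp hp' hpp (h1 hz.2) hz.2
        have h10 := hw2 z hzL
        omega
      · intro w hw hwT
        have h9 : w ∈ nb G T m := mem_nb.2 ⟨hwT, (mem_nb.1 hw).2⟩
        have h10 := Finset.card_pos.2 ⟨w, h9⟩
        omega
    have tri3 : ∀ p m l, p ∈ Fs → m ∈ Fs → p ≠ m → l ∈ L → ¬ G.Adj p m → ¬ G.Adj p l →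
        ¬ G.Adj m l → nb G Y m \ T = ∅ → 3 ≤ (nb G Y p \ T).card := by
      intro p m l hp hm hpm hl n1 n2 n3 hm0
      have hlT := (hLR l hl).1
      have hpl : p ≠ l := fun e => Finset.disjoint_left.1 hFT hp (e ▸ hlT)
      have hml : m ≠ l := fun e => Finset.disjoint_left.1 hFT hm (e ▸ hlT)
      have hJc : ({p, m, l} : Finset V).card = 3 := by
        rw [Finset.card_insert_of_notMem (by simp [hpm, hpl]), Finset.card_pair hml]
      have h1 := A.mc.trisum hWX hal2 ht1 (J := {p, m, l}) (by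
        intro z hz
        rw [mem_insert, mem_insert, mem_singleton] at hz
        rw [hW, mem_union]
        rcases hz with e | e | e
        · exact Or.inl (e ▸ hp)
        · exact Or.inl (e ▸ hm)
        · exact Or.inr (e ▸ hlT)) (indep_triple n1 n2 n3) hJc
      rw [Finset.sum_insert (by simp [hpm, hpl]), Finset.sum_pair hml, hXW, hnbs, hnbs, hnbs,
        hm0, Finset.card_empty] at h1
      have h2 := ho2 l hl
      omega
    have sub2 : ∀ a1 a2 b, (nb G Y a1).card = 3 → (nb G Y a2).card = 3 → (nb G Y b).card = 3 →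
        k ≤ (nb G Y a2 ∪ nb G Y b).card → T = nb G Y a1 ∪ nb G Y b → (nb G Y a2 \ T).card = 0 →
        nb G Y a2 ⊆ nb G Y a1 := by
      intro a1 a2 b h1 h2 h3 h4 h5 h6 z hz
      have h7 := Finset.card_union_add_card_inter (nb G Y a2) (nb G Y b)
      have h8 : nb G Y a2 ∩ nb G Y b = ∅ := by
        rw [← Finset.card_eq_zero]
        omega
      have h9 : z ∈ T := by
        by_contra hcon
        have h10 : z ∈ nb G Y a2 \ T := mem_sdiff.2 ⟨hz, hcon⟩
        rw [Finset.card_eq_zero] at h6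
        rw [h6] at h10
        simp at h10
      rw [h5, mem_union] at h9
      rcases h9 with h9 | h9
      · exact h9
      · have h10 : z ∈ nb G Y a2 ∩ nb G Y b := mem_inter.2 ⟨hz, h9⟩
        rw [h8] at h10
        simp at h10
    have hxu : x ≠ u := fun e => hx.2 (e ▸ S.hu)
    have hxu' : x ≠ u' := fun e => hx.2 (e ▸ S.hu')
    have hx'u : x' ≠ u := fun e => hx'.2 (e ▸ S.hu)
    have huF := hPF S.hu
    have hu'F := hPF S.hu'
    obtain ⟨l, hl⟩ := Finset.card_pos.1 (by omega : 0 < L.card)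
    have hlT := (hLR l hl).1
    have hlw := hw2 l hl
    have hlT2 := hlT
    rw [hT, mem_union] at hlT2
    have nab : ∀ p m, p ∈ Fs → m ∈ Fs → p ≠ m → l ∈ nb G Y p → ¬ G.Adj m l := by
      intro p m hp hm hpm h1 h2
      have h3 := two l p m hp hm hpm h1 (mem_nb.2 ⟨(mem_nb.1 h1).1, h2⟩)
      omega
    rcases hlT2 with hlx | hlu
    · have h1 := tri3 x' u l hx'F huF hx'u hl nx'u (nab x x' hxF hx'F S.B.hne hlx)
        (nab x u hxF huF hxu hlx) huout
      have h2 := hspl x'
      refine fin u u' x' huF hu'F S.huu (sub2 u u' x hn hn' hf ?_ ?_ (by omega)) ?_ ?_ hn' ?_ hf'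
        (by omega)
      · rw [Finset.union_comm]
        exact hcM
      · rw [hT, Finset.union_comm]
      · rw [hT]
        exact Finset.subset_union_right
      · rw [hT']
        exact Finset.subset_union_right
      · rw [hT']
        exact Finset.subset_union_left
    · have h1 := tri3 u' x l hu'F hxF hxu'.symm hl (fun h => nxu' h.symm)
        (nab u u' huF hu'F S.huu hlu) (nab u x huF hxF hxu.symm hlu) hxout
      have h2 := hspl u'
      refine fin x x' u' hxF hx'F S.B.hne (sub2 x x' u hf hf' hn ?_ hT (by omega)) ?_ ?_ hf' ?_ hn'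
        (by omega)
      · exact hcM'
      · rw [hT]
        exact Finset.subset_union_left
      · rw [hT']
        exact Finset.subset_union_left
      · rw [hT']
        exact Finset.subset_union_right

/-- no base of the type `TyC4` -/
theorem AllH.c4 {k : ℕ} {X P : Finset V} (A : AllH G k X) {c x x' u u' : V} :
    ¬ TyC4 G k X P c x x' u u' := by
  intro S
  have F := A.fr P S.B.hP S.B.hPc S.B.hPq ⟨c, S.B.hc, S.B.deg⟩
  have nxu : ¬ G.Adj x u := fun h => ((S.mx u S.hu).1 h).1 rfl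
  have nx'u' : ¬ G.Adj x' u' := fun h => ((S.mx' u' S.hu').1 h).2 rfl
  obtain ⟨a, a', h, s, hA, hA', hh, hs, hsev, -, -⟩ := F.sevN S.B S.hu S.hu' S.huu nxu nx'u'
  rw [ad_one S.adj] at hsev
  rcases Nat.eq_zero_or_pos a with e | e
  · exact A.c4main F S (by omega)
  · refine A.c4main F S.symm ?_
    rw [hb_comm X P x' x]
    omega

end Pool.Agent.TwoDens.TS
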