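import Pool.Agent.TKS.FM

/-!
Vertices of degree `k` with three pairwise nonadjacent neighbours, `k = 5, 6`: one cell.
-/

open Finset

namespace Pool.Agent.TwoDens.TS

open Pool.Agent.TwoDens Pool.Agent.TwoDens.RK Pool.Agent.TwoDens.DD

variable {V : Type*} [DecidableEq V] {G : SimpleGraph V} [DecidableRel G.Adj]

theorem cl_nb_sdiff (X W : Finset V) (v : V) : nb G X v \ W = nb G (X \ W) v := by
  ext u
  rw [mem_sdiff, mem_nb, mem_nb, mem_sdiff]
  tauto

theorem cl_bd_eq (X W : Finset V) : bd G X W = ∑ v ∈ W, (nb G (X \ W) v).card := by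
  unfold bd
  refine Finset.sum_congr rfl fun v _ => ?_
  rw [cl_nb_sdiff]

theorem cl_nb_split {X W : Finset V} (hW : W ⊆ X) (v : V) :
    (nb G X v).card = (nb G W v).card + (nb G (X \ W) v).card := by
  rw [← Finset.card_union_of_disjoint]
  · congr 1
    ext u
    rw [mem_union, mem_nb, mem_nb, mem_nb, mem_sdiff]
    constructor
    · rintro ⟨h1, h2⟩
      by_cases h : u ∈ W
      · exact Or.inl ⟨h, h2⟩
      · exact Or.inr ⟨⟨h1, h⟩, h2⟩
    · rintro (⟨h1, h2⟩ | ⟨h1, h2⟩)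
      · exact ⟨hW h1, h2⟩
      · exact ⟨h1.1, h2⟩
  · rw [Finset.disjoint_left]
    intro u hu hu'
    exact (mem_sdiff.1 (mem_nb.1 hu').1).2 (mem_nb.1 hu).1

section
variable {k : ℕ} {X : Finset V} (H : MC G k X)
include H

theorem MC.cl_exps (hk : k = 5 ∨ k = 6) {W : Finset V} (hW : W ⊆ X) {j : ℕ}
    (hj : al G (X \ W) + j ≤ al G X) :
    (k = 5 ∧ ps G k (X \ W) + exs G k X W + bd G X W + 62 * (j : ℤ) ≤
      ps G k X + 13 * (W.card : ℤ)) ∨
    (k = 6 ∧ ps G k (X \ W) + exs G k X W + bd G X W + 92 * (j : ℤ) ≤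
      ps G k X + 16 * (W.card : ℤ)) := by
  have h1 := ps_sdiff (G := G) k hW
  have h2 := sum_deg' (G := G) hW
  have h3 := sum_ge (G := G) (Y := X) (S := W) k (fun v hv => H.deg_ge v (hW hv))
  have h8 : ((∑ v ∈ W, (nb G X v).card : ℕ) : ℤ) = e2 G W + bd G X W := by exact_mod_cast h2
  have h9 : ((∑ v ∈ W, (nb G X v).card : ℕ) : ℤ) = k * W.card + exs G k X W := by
    exact_mod_cast h3
  have h4 : (j : ℤ) ≤ (al G X : ℤ) - al G (X \ W) := by
    have : (al G (X \ W) : ℤ) + j ≤ al G X := by exact_mod_cast hj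
    linarith
  rcases hk with hk | hk
  · left
    refine ⟨hk, ?_⟩
    rw [hk] at h1 h9 ⊢
    push_cast at h1 h9 h8
    linarith
  · right
    refine ⟨hk, ?_⟩
    rw [hk] at h1 h9 ⊢
    push_cast at h1 h9 h8
    linarith

theorem MC.cl_exY (hk : k = 5 ∨ k = 6) {Y : Finset V} (hY : Y ⊆ X) (hne : Y ≠ X)
    (hp : ps G k Y ≤ 1) {S : Finset V} (hS : S ⊆ Y) {j : ℕ} (hj : al G (Y \ S) + j ≤ al G Y) :
    (k = 5 ∧ exs G (k - 1) Y S + bd G Y S + 62 * j ≤ 14 * S.card) ∨
    (k = 6 ∧ exs G (k - 1) Y S + bd G Y S + 92 * j ≤ 17 * S.card) := by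
  have h1 := H.gen hY hS (Or.inl hne) hj
  have h2 := sum_deg' (G := G) hS
  have h3 := sum_ge (G := G) (Y := Y) (S := S) (k - 1) (fun v hv => by
    have := (H.tau0 hY hne hp).deg (hS hv)
    omega)
  have h8 : ((∑ v ∈ S, (nb G Y v).card : ℕ) : ℤ) = e2 G S + bd G Y S := by exact_mod_cast h2
  have hp0 : ps G k Y ≤ 0 := by
    obtain ⟨m, hm⟩ := ps_even (G := G) k Y
    omega
  rcases hk with hk | hk
  · left
    refine ⟨hk, ?_⟩
    rw [hk] at h1 h3 hp0 ⊢
    have h9 : ((∑ v ∈ S, (nb G Y v).card : ℕ) : ℤ) = 4 * S.card + exs G 4 Y S := by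
      exact_mod_cast h3
    push_cast at h1
    have h10 : ((exs G 4 Y S : ℕ) : ℤ) + bd G Y S + 62 * j ≤ 14 * S.card := by linarith
    exact_mod_cast h10
  · right
    refine ⟨hk, ?_⟩
    rw [hk] at h1 h3 hp0 ⊢
    have h9 : ((∑ v ∈ S, (nb G Y v).card : ℕ) : ℤ) = 5 * S.card + exs G 5 Y S := by
      exact_mod_cast h3
    push_cast at h1
    have h10 : ((exs G 5 Y S : ℕ) : ℤ) + bd G Y S + 92 * j ≤ 17 * S.card := by linarith
    exact_mod_cast h10

/-- the boundary of a set is at least the transversal number of the complement -/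
theorem MC.cl_bd_tau {W : Finset V} (hW : W ⊆ X) (hn : W.Nonempty) (hne : W ≠ X) {t : ℕ}
    (ht : TauGe G (X \ W) t) : t ≤ bd G X W := by
  rw [cl_bd_eq]
  have h1 : (W.biUnion (fun v => nb G (X \ W) v)) ⊆ X \ W := by
    intro u hu
    rw [Finset.mem_biUnion] at hu
    obtain ⟨v, _, hv⟩ := hu
    exact (mem_nb.1 hv).1
  refine (ht _ h1 ?_).trans Finset.card_biUnion_le
  refine tr_of fun I hI hi hd => ?_
  obtain ⟨J, hJ, hJi, hJc⟩ := exists_al (G := G) W
  have hdis : Disjoint J I := by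
    rw [Finset.disjoint_left]
    intro u hu hu'
    exact (mem_sdiff.1 (hI hu')).2 (hJ hu)
  have h2 := le_al (G := G) (X := X) (I := J ∪ I)
    (Finset.union_subset (hJ.trans hW) (hI.trans Finset.sdiff_subset))
    (indep_union hJi hi (fun x hx y hy h => (Finset.disjoint_left.1 hd) hy
      (Finset.mem_biUnion.2 ⟨x, hJ hx, mem_nb.2 ⟨hI hy, h⟩⟩)))
  rw [Finset.card_union_of_disjoint hdis] at h2
  have h3 : (X \ W).Nonempty := by
    rw [Finset.nonempty_iff_ne_empty]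
    intro h
    exact hne (Finset.Subset.antisymm hW (Finset.sdiff_eq_empty_iff_subset.1 h))
  have h4 := H.p1 (A := W) (B := X \ W) (Finset.union_sdiff_of_subset hW)
    Finset.disjoint_sdiff hn h3
  omega

end

/-- a clique `Q` of `k - 2` vertices joined to three pairwise nonadjacent vertices -/
structure ClP (G : SimpleGraph V) [DecidableRel G.Adj] (k : ℕ) (X Q : Finset V)
    (y1 y2 y3 : V) : Prop where
  hQ : Q ⊆ X
  hc : Q.card + 2 = k
  clq : Clq G Q
  h1 : y1 ∈ X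
  h2 : y2 ∈ X
  h3 : y3 ∈ X
  q1 : y1 ∉ Q
  q2 : y2 ∉ Q
  q3 : y3 ∉ Q
  n12 : y1 ≠ y2
  n13 : y1 ≠ y3
  n23 : y2 ≠ y3
  a12 : ¬ G.Adj y1 y2
  a13 : ¬ G.Adj y1 y3
  a23 : ¬ G.Adj y2 y3
  b1 : ∀ q ∈ Q, G.Adj q y1
  b2 : ∀ q ∈ Q, G.Adj q y2
  b3 : ∀ q ∈ Q, G.Adj q y3
  d1 : k + 1 ≤ (nb G X y1).card
  d2 : k + 1 ≤ (nb G X y2).card
  d3 : k + 1 ≤ (nb G X y3).card
  hex : ∃ c ∈ Q, (nb G X c).card = k

namespace ClP
variable {k : ℕ} {X Q : Finset V} {y1 y2 y3 : V}

theorem s12 (C : ClP G k X Q y1 y2 y3) : ClP G k X Q y2 y1 y3 where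
  hQ := C.hQ
  hc := C.hc
  clq := C.clq
  h1 := C.h2
  h2 := C.h1
  h3 := C.h3
  q1 := C.q2
  q2 := C.q1
  q3 := C.q3
  n12 := C.n12.symm
  n13 := C.n23
  n23 := C.n13
  a12 := fun h => C.a12 h.symm
  a13 := C.a23
  a23 := C.a13
  b1 := C.b2
  b2 := C.b1
  b3 := C.b3
  d1 := C.d2
  d2 := C.d1
  d3 := C.d3
  hex := C.hex

theorem s23 (C : ClP G k X Q y1 y2 y3) : ClP G k X Q y1 y3 y2 where
  hQ := C.hQ
  hc := C.hc
  clq := C.clq
  h1 := C.h1
  h2 := C.h3
  h3 := C.h2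
  q1 := C.q1
  q2 := C.q3
  q3 := C.q2
  n12 := C.n13
  n13 := C.n12
  n23 := C.n23.symm
  a12 := C.a13
  a13 := C.a12
  a23 := fun h => C.a23 h.symm
  b1 := C.b1
  b2 := C.b3
  b3 := C.b2
  d1 := C.d1
  d2 := C.d3
  d3 := C.d2
  hex := C.hex

end ClP

/-- the closed neighbourhood -/
def clF (Q : Finset V) (y1 y2 y3 : V) : Finset V := insert y1 (insert y2 (insert y3 Q))

theorem mem_clF {Q : Finset V} {y1 y2 y3 v : V} :
    v ∈ clF Q y1 y2 y3 ↔ v = y1 ∨ v = y2 ∨ v = y3 ∨ v ∈ Q := by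
  unfold clF
  rw [mem_insert, mem_insert, mem_insert]

theorem clF12 (Q : Finset V) (y1 y2 y3 : V) : clF Q y1 y2 y3 = clF Q y2 y1 y3 := by
  ext v
  rw [mem_clF, mem_clF]
  tauto

theorem clF23 (Q : Finset V) (y1 y2 y3 : V) : clF Q y1 y2 y3 = clF Q y1 y3 y2 := by
  ext v
  rw [mem_clF, mem_clF]
  tauto

namespace ClP
variable {k : ℕ} {X Q : Finset V} {y1 y2 y3 : V} (C : ClP G k X Q y1 y2 y3)
include C

theorem fX : clF Q y1 y2 y3 ⊆ X := by
  intro v hv
  rw [mem_clF] at hv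
  rcases hv with rfl | rfl | rfl | hv
  · exact C.h1
  · exact C.h2
  · exact C.h3
  · exact C.hQ hv

theorem sumF (f : V → ℕ) : ∑ v ∈ clF Q y1 y2 y3, f v = f y1 + (f y2 + (f y3 + ∑ v ∈ Q, f v)) := by
  unfold clF
  rw [Finset.sum_insert (by
      rw [mem_insert, mem_insert]
      rintro (h | h | h)
      · exact C.n12 h
      · exact C.n13 h
      · exact C.q1 h), Finset.sum_insert (by
      rw [mem_insert]
      rintro (h | h)
      · exact C.n23 h
      · exact C.q2 h), Finset.sum_insert C.q3]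

theorem cardF : (clF Q y1 y2 y3).card = k + 1 := by
  have h1 := C.sumF (fun _ => 1)
  rw [← Finset.card_eq_sum_ones, ← Finset.card_eq_sum_ones] at h1
  have := C.hc
  omega

/-- number of neighbours outside -/
theorem out1 : (nb G (X \ clF Q y1 y2 y3) y1).card + k = (nb G X y1).card + 2 := by
  have h1 := cl_nb_split (G := G) C.fX y1
  have h2 : nb G (clF Q y1 y2 y3) y1 = Q := by
    ext v
    rw [mem_nb, mem_clF]
    constructor
    · rintro ⟨h | h | h | h, h'⟩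
      · exact absurd (h ▸ h') (G.loopless.irrefl y1)
      · exact absurd (h ▸ h') C.a12
      · exact absurd (h ▸ h') C.a13
      · exact h
    · intro h
      exact ⟨Or.inr (Or.inr (Or.inr h)), (C.b1 v h).symm⟩
  rw [h2] at h1
  have := C.hc
  omega

theorem nbQ {q : V} (hq : q ∈ Q) : (clF Q y1 y2 y3).erase q ⊆ nb G X q := by
  intro v hv
  rw [mem_erase, mem_clF] at hv
  refine mem_nb.2 ⟨C.fX (mem_clF.2 hv.2), ?_⟩
  rcases hv.2 with rfl | rfl | rfl | h
  · exact C.b1 q hq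
  · exact C.b2 q hq
  · exact C.b3 q hq
  · exact C.clq q hq v h (Ne.symm hv.1)

theorem memF {q : V} (hq : q ∈ Q) : q ∈ clF Q y1 y2 y3 :=
  mem_clF.2 (Or.inr (Or.inr (Or.inr hq)))

theorem nbk {q : V} (hq : q ∈ Q) (hd : (nb G X q).card = k) :
    nb G X q = (clF Q y1 y2 y3).erase q := by
  refine (Finset.eq_of_subset_of_card_le (C.nbQ hq) ?_).symm
  rw [hd, Finset.card_erase_of_mem (C.memF hq), C.cardF]
  omega

theorem outQ {q : V} (hq : q ∈ Q) :
    (nb G (X \ clF Q y1 y2 y3) q).card + k = (nb G X q).card := by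
  have h1 := cl_nb_split (G := G) C.fX q
  have h2 : nb G (clF Q y1 y2 y3) q = (clF Q y1 y2 y3).erase q := by
    ext v
    rw [mem_nb, mem_erase]
    constructor
    · rintro ⟨h, h'⟩
      exact ⟨fun e => G.loopless.irrefl q (e ▸ h'), h⟩
    · rintro ⟨h, h'⟩
      exact ⟨h', (mem_nb.1 (C.nbQ hq (mem_erase.2 ⟨h, h'⟩))).2⟩
  rw [h2, Finset.card_erase_of_mem (C.memF hq), C.cardF] at h1
  omega

theorem exF : exs G k X (clF Q y1 y2 y3) + 3 * k =
    (nb G X y1).card + (nb G X y2).card + (nb G X y3).card + exs G k X Q := by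
  unfold exs
  rw [C.sumF (fun v => (nb G X v).card - k)]
  have h1 := C.d1
  have h2 := C.d2
  have h3 := C.d3
  omega

theorem bdF : bd G X (clF Q y1 y2 y3) + 3 * k =
    (nb G X y1).card + (nb G X y2).card + (nb G X y3).card + 6 + exs G k X Q := by
  rw [cl_bd_eq, C.sumF (fun v => (nb G (X \ clF Q y1 y2 y3) v).card)]
  have h1 := C.out1
  have h2 := C.s12.out1
  rw [← clF12] at h2
  have h3 := C.s23.s12.out1
  rw [← clF12, ← clF23] at h3
  have h4 : ∑ v ∈ Q, (nb G (X \ clF Q y1 y2 y3) v).card = exs G k X Q := by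
    unfold exs
    refine Finset.sum_congr rfl fun v hv => ?_
    have := C.outQ hv
    omega
  omega

theorem al1 : al G (X \ clF Q y1 y2 y3) + 1 ≤ al G X := by
  obtain ⟨c, hc, hd⟩ := C.hex
  have h1 := al_closed (G := G) (Y := X) (S := clF Q y1 y2 y3) (J := {c})
    (by simpa using C.hQ hc) (by simpa using C.memF hc) (indep_singleton c) (by
      intro z hz w hw h
      rw [mem_singleton] at hz
      rw [hz] at h
      have h2 : w ∈ nb G X c := mem_nb.2 ⟨hw, h⟩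
      rw [C.nbk hc hd] at h2
      exact (mem_erase.1 h2).2)
  rwa [Finset.card_singleton] at h1

/-- the second neighbourhood -/
theorem al3 : al G (X \ (clF Q y1 y2 y3 ∪ (nb G (X \ clF Q y1 y2 y3) y1 ∪
    (nb G (X \ clF Q y1 y2 y3) y2 ∪ nb G (X \ clF Q y1 y2 y3) y3)))) + 3 ≤ al G X := by
  have h1 := al_closed (G := G) (Y := X) (S := clF Q y1 y2 y3 ∪ (nb G (X \ clF Q y1 y2 y3) y1 ∪
    (nb G (X \ clF Q y1 y2 y3) y2 ∪ nb G (X \ clF Q y1 y2 y3) y3))) (J := {y1, y2, y3})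
    (by
      intro z hz
      rw [mem_insert, mem_insert, mem_singleton] at hz
      rcases hz with rfl | rfl | rfl
      · exact C.h1
      · exact C.h2
      · exact C.h3) (by
      intro z hz
      rw [mem_insert, mem_insert, mem_singleton] at hz
      rw [mem_union, mem_clF]
      left
      rcases hz with rfl | rfl | rfl
      · exact Or.inl rfl
      · exact Or.inr (Or.inl rfl)
      · exact Or.inr (Or.inr (Or.inl rfl))) (indep_triple C.a12 C.a13 C.a23) (by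
      intro z hz w hw h
      rw [mem_union, mem_union, mem_union, mem_nb, mem_nb, mem_nb, mem_sdiff]
      by_cases hwF : w ∈ clF Q y1 y2 y3
      · exact Or.inl hwF
      · rw [mem_insert, mem_insert, mem_singleton] at hz
        right
        rcases hz with rfl | rfl | rfl
        · exact Or.inl ⟨⟨hw, hwF⟩, h⟩
        · exact Or.inr (Or.inl ⟨⟨hw, hwF⟩, h⟩)
        · exact Or.inr (Or.inr ⟨⟨hw, hwF⟩, h⟩))
  rwa [Finset.card_insert_of_notMem (by simp [C.n12, C.n13]), Finset.card_pair C.n23] at h1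

end ClP

end Pool.Agent.TwoDens.TS
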