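import Pool.Agent.TKS.Frame

/-!
The identity (7.1) for a base and its first consequences.
-/

open Finset

namespace Pool.Agent.TwoDens.TS

open Pool.Agent.TwoDens Pool.Agent.TwoDens.RK Pool.Agent.TwoDens.DD

variable {V : Type*} [DecidableEq V] {G : SimpleGraph V} [DecidableRel G.Adj]

/-- `1` if adjacent, `0` otherwise -/
def ad (G : SimpleGraph V) [DecidableRel G.Adj] (u v : V) : ℕ := if G.Adj u v then 1 else 0

omit [DecidableEq V] in
theorem ad_one {u v : V} (h : G.Adj u v) : ad G u v = 1 := if_pos h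

omit [DecidableEq V] in
theorem ad_zero {u v : V} (h : ¬ G.Adj u v) : ad G u v = 0 := if_neg h

omit [DecidableEq V] in
theorem ad_le (u v : V) : ad G u v ≤ 1 := by
  unfold ad
  split_ifs <;> omega

omit [DecidableEq V] in
theorem ad_comm (u v : V) : ad G u v = ad G v u := by
  unfold ad
  simp only [G.adj_comm]

theorem exs_erase {k : ℕ} {X S : Finset V} {u : V} (hu : u ∈ S) :
    exs G k X S = ((nb G X u).card - k) + exs G k X (S.erase u) := by
  unfold exs
  exact (Finset.add_sum_erase _ _ hu).symm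

omit [DecidableEq V] in
theorem exs_mono {k : ℕ} {X S T : Finset V} (h : S ⊆ T) : exs G k X S ≤ exs G k X T :=
  Finset.sum_le_sum_of_subset h

namespace Fr
variable {k : ℕ} {X P : Finset V} (F : Fr G k X P)
include F

theorem deg_ge {v : V} (hv : v ∈ X) : k ≤ (nb G X v).card := F.mc.deg_ge v hv

/-- number of neighbours in `H` of a vertex of the clique -/
theorem nbH {c x x' : V} (B : Base G k X P c x x') {p : V} (hp : p ∈ P) :
    (nb G (hb X P x x') p).card + ad G p x + ad G p x' = 2 + ((nb G X p).card - k) := by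
  have h1 := B.card_nbH hp
  have h2 := F.deg_ge (F.hP hp)
  unfold ad
  omega

/-- `N_x ∪ N_u` is a transversal -/
theorem tr_xu {c x x' : V} (B : Base G k X P c x x') {u : V} (hu : u ∈ P) (h : ¬ G.Adj x u) :
    Tr G (hb X P x x') (nb G (hb X P x x') x ∪ nb G (hb X P x x') u) := by
  have hx := mem_sdiff.1 B.hx
  refine Base.tr2 (F.bp _ _ _ B).alH hx.1 (F.hP hu) ?_ ?_ ?_ h
  · rw [mem_hb]
    exact fun h => h.2.2.1 rfl
  · rw [mem_hb]
    exact fun h => h.2.1 hu
  · rintro rfl
    exact hx.2 hu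

/-- `N_x ∪ N_x'` is a transversal if `x, x'` are not adjacent -/
theorem tr_xx {c x x' : V} (B : Base G k X P c x x') (h : ¬ G.Adj x x') :
    Tr G (hb X P x x') (nb G (hb X P x x') x ∪ nb G (hb X P x x') x') := by
  have hx := mem_sdiff.1 B.hx
  have hx' := mem_sdiff.1 B.hx'
  refine Base.tr2 (F.bp _ _ _ B).alH hx.1 hx'.1 ?_ ?_ B.hne h
  · rw [mem_hb]
    exact fun h => h.2.2.1 rfl
  · rw [mem_hb]
    exact fun h => h.2.2.2 rfl

theorem card_xu {c x x' : V} (B : Base G k X P c x x') {u : V} (hu : u ∈ P)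
    (h : ¬ G.Adj x u) :
    k ≤ (nb G (hb X P x x') x ∪ nb G (hb X P x x') u).card :=
  (F.bp _ _ _ B).tau _ (Finset.union_subset (nb_sub _ _) (nb_sub _ _)) (F.tr_xu B hu h)

theorem card_xu' {c x x' : V} (B : Base G k X P c x x') {u : V} (hu : u ∈ P)
    (h : ¬ G.Adj x u) :
    k ≤ (nb G (hb X P x x') x).card + (nb G (hb X P x x') u).card :=
  (F.card_xu B hu h).trans (Finset.card_union_le _ _)

/-- (7.1) -/
theorem seven {c x x' : V} (B : Base G k X P c x x') {u u' : V} (hu : u ∈ P) (hu' : u' ∈ P)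
    (huu : u ≠ u') :
    2 * (((nb G (hb X P x x') x).card : ℤ) + (nb G (hb X P x x') u).card - k) +
      2 * (((nb G (hb X P x x') x').card : ℤ) + (nb G (hb X P x x') u').card - k) +
      2 * (ad G x x' : ℤ) + 2 * (exs G k X ((P.erase u).erase u') : ℤ) +
      ps G k (hb X P x x') + (-2 - ps G k X) +
      2 * (ad G u x : ℤ) + 2 * (ad G u x' : ℤ) + 2 * (ad G u' x : ℤ) + 2 * (ad G u' x' : ℤ) = 4 := by
  have h1 := (F.bp _ _ _ B).bstar
  have h2 := F.nbH B hu
  have h3 := F.nbH B hu'
  have h4 := exs_erase (G := G) (k := k) (X := X) hu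
  have h5 := exs_erase (G := G) (k := k) (X := X) (S := P.erase u) (u := u')
    (mem_erase.2 ⟨Ne.symm huu, hu'⟩)
  have h6 : (if G.Adj x x' then 1 else 0 : ℤ) = (ad G x x' : ℤ) := by
    unfold ad
    push_cast
    rfl
  rw [h6] at h1
  have h7 : ((nb G (hb X P x x') u).card : ℤ) + ad G u x + ad G u x' + 
      ((nb G (hb X P x x') u').card : ℤ) + ad G u' x + ad G u' x' +
      exs G k X ((P.erase u).erase u') = 4 + exs G k X P := by
    have : (nb G (hb X P x x') u).card + ad G u x + ad G u x' + 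
      (nb G (hb X P x x') u').card + ad G u' x + ad G u' x' +
      exs G k X ((P.erase u).erase u') = 4 + exs G k X P := by omega
    exact_mod_cast this
  linarith

/-- many missing pairs between `P` and `x, x'` -/
theorem missPx {c x x' : V} (B : Base G k X P c x x') :
    k ≤ 2 * (1 + (nb Gᶜ P x).card + (nb Gᶜ P x').card) := by
  have hx := mem_sdiff.1 B.hx
  have hx' := mem_sdiff.1 B.hx'
  exact F.mc.near2 F.hP F.hPq F.hPc hx.1 hx'.1 B.hne hx.2 hx'.2

/-- a vertex outside `P` misses some vertex of `P` -/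
theorem missP {a : V} (ha : a ∈ X \ P) : 1 ≤ (nb Gᶜ P a).card := by
  have ha' := mem_sdiff.1 ha
  by_contra hcon
  have h0 : nb Gᶜ P a = ∅ := Finset.card_eq_zero.1 (by omega)
  have hq : Clq G (insert a P) := by
    intro u hu v hv huv
    rw [mem_insert] at hu hv
    have h1 : ∀ w ∈ P, G.Adj a w := by
      intro w hw
      by_contra hn
      have : w ∈ nb Gᶜ P a := mem_nb.2 ⟨hw, (SimpleGraph.compl_adj _ _ _).2
        ⟨fun h => ha'.2 (h ▸ hw), hn⟩⟩
      rw [h0] at this
      simp at this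
    rcases hu with rfl | hu <;> rcases hv with rfl | hv
    · exact absurd rfl huv
    · exact h1 v hv
    · exact (h1 u hu).symm
    · exact F.hPq u hu v hv huv
  have h1 := F.mc.clq_lt (Finset.insert_subset ha'.1 F.hP) hq
  rw [Finset.card_insert_of_notMem ha'.2] at h1
  have := F.hPc
  omega

theorem mem_nbc {a u : V} (ha : a ∉ P) : u ∈ nb Gᶜ P a ↔ u ∈ P ∧ ¬ G.Adj a u := by
  rw [mem_nb, SimpleGraph.compl_adj]
  constructor
  · rintro ⟨h1, _, h3⟩
    exact ⟨h1, h3⟩
  · rintro ⟨h1, h2⟩
    exact ⟨h1, fun h => ha (h ▸ h1), h2⟩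

/-- two distinct vertices `u, u'` of `P`, `u` not adjacent to `x`, `u'` not adjacent to `x'` -/
theorem pick (h7 : 7 ≤ k) {c x x' : V} (B : Base G k X P c x x') :
    ∃ u ∈ P, ∃ u' ∈ P, u ≠ u' ∧ ¬ G.Adj x u ∧ ¬ G.Adj x' u' := by
  have hx := mem_sdiff.1 B.hx
  have hx' := mem_sdiff.1 B.hx'
  have h1 := F.missPx B
  have h2 := F.missP B.hx
  have h3 := F.missP B.hx'
  have hk := F.mc.hk
  rcases Nat.lt_or_ge 1 (nb Gᶜ P x').card with h4 | h4
  · obtain ⟨u, hu⟩ := Finset.card_pos.1 h2
    obtain ⟨u', hu', hne⟩ := Finset.exists_mem_ne h4 u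
    rw [F.mem_nbc hx.2] at hu
    rw [F.mem_nbc hx'.2] at hu'
    exact ⟨u, hu.1, u', hu'.1, Ne.symm hne, hu.2, hu'.2⟩
  · obtain ⟨u', hu'⟩ := Finset.card_pos.1 h3
    obtain ⟨u, hu, hne⟩ := Finset.exists_mem_ne (by omega : 1 < (nb Gᶜ P x).card) u'
    rw [F.mem_nbc hx.2] at hu
    rw [F.mem_nbc hx'.2] at hu'
    exact ⟨u, hu.1, u', hu'.1, hne, hu.2, hu'.2⟩

/-- few vertices of `P` have degree more than `k` -/
theorem plus (hk7 : 7 ≤ k) : (P.filter (fun v => k < (nb G X v).card)).card ≤ 4 := by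
  obtain ⟨c, hc, hd⟩ := F.hex
  obtain ⟨x, x', B⟩ := base_mk F.hP F.hPc F.hPq hc hd
  obtain ⟨u, hu, u', hu', huu, h1, h2⟩ := F.pick hk7 B
  have h3 := F.seven B hu hu' huu
  have h4 := F.card_xu' B hu h1
  have h5 := F.card_xu' B.symm hu' h2
  rw [hb_comm X P x' x] at h5
  have h6 := (F.bp _ _ _ B).ps0
  have h7 := F.mc.ps_le
  have h8 : (k : ℤ) ≤ (nb G (hb X P x x') x).card + (nb G (hb X P x x') u).card := by
    exact_mod_cast h4
  have h9 : (k : ℤ) ≤ (nb G (hb X P x x') x').card + (nb G (hb X P x x') u').card := by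
    exact_mod_cast h5
  have h10 : (exs G k X ((P.erase u).erase u') : ℤ) ≤ 2 := by
    have a1 := Int.natCast_nonneg (ad G u x)
    have a2 := Int.natCast_nonneg (ad G u x')
    have a3 := Int.natCast_nonneg (ad G u' x)
    have a4 := Int.natCast_nonneg (ad G u' x')
    have a5 := Int.natCast_nonneg (ad G x x')
    linarith
  have h11 : exs G k X ((P.erase u).erase u') ≤ 2 := by exact_mod_cast h10
  have h12 : (P.filter (fun v => k < (nb G X v).card)) ⊆
      insert u (insert u' (((P.erase u).erase u').filter (fun v => k < (nb G X v).card))) := by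
    intro v hv
    rw [mem_filter] at hv
    rw [mem_insert, mem_insert, mem_filter, mem_erase, mem_erase]
    by_cases e1 : v = u
    · exact Or.inl e1
    · by_cases e2 : v = u'
      · exact Or.inr (Or.inl e2)
      · exact Or.inr (Or.inr ⟨⟨e2, e1, hv.1⟩, hv.2⟩)
  have h13 : (((P.erase u).erase u').filter (fun v => k < (nb G X v).card)).card ≤
      exs G k X ((P.erase u).erase u') := by
    unfold exs
    rw [Finset.card_eq_sum_ones]
    refine (Finset.sum_le_sum fun v hv => ?_).trans
      (Finset.sum_le_sum_of_subset (Finset.filter_subset _ _))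
    have := (mem_filter.1 hv).2
    omega
  have h14 := Finset.card_le_card h12
  have h15 := Finset.card_insert_le u
    (insert u' (((P.erase u).erase u').filter (fun v => k < (nb G X v).card)))
  have h16 := Finset.card_insert_le u'
    (((P.erase u).erase u').filter (fun v => k < (nb G X v).card))
  omega

/-- if a set of at least six vertices of `P` is given, one of them different from `u` has
degree `k` -/
theorem exists_degk (hk7 : 7 ≤ k) {S : Finset V} (hS : S ⊆ P) (hc : 6 ≤ S.card) (u : V) :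
    ∃ v ∈ S, v ≠ u ∧ (nb G X v).card = k := by
  by_contra hcon
  push Not at hcon
  have h1 : S.erase u ⊆ P.filter (fun v => k < (nb G X v).card) := by
    intro v hv
    rw [mem_erase] at hv
    rw [mem_filter]
    have h2 := hcon v hv.2 hv.1
    have h3 := F.deg_ge (F.hP (hS hv.2))
    exact ⟨hS hv.2, by omega⟩
  have h2 := Finset.card_le_card h1
  have h3 := F.plus hk7
  have h4 := Finset.pred_card_le_card_erase (s := S) (a := u)
  omega

/-- among five vertices of `P` one has degree `k` -/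
theorem exists_degk' (hk7 : 7 ≤ k) {S : Finset V} (hS : S ⊆ P) (hc : 5 ≤ S.card) :
    ∃ v ∈ S, (nb G X v).card = k := by
  by_contra hcon
  push Not at hcon
  have h1 : S ⊆ P.filter (fun v => k < (nb G X v).card) := by
    intro v hv
    rw [mem_filter]
    have h2 := hcon v hv
    have h3 := F.deg_ge (F.hP (hS hv))
    exact ⟨hS hv, by omega⟩
  have h2 := Finset.card_le_card h1
  have h3 := F.plus hk7
  omega

end Fr

end Pool.Agent.TwoDens.TS
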