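import Pool.Agent.TKS.CLB
import Pool.Agent.TKS.Sev

/-!
Two cells with a common outer vertex, `k = 5, 6`.
-/

open Finset

namespace Pool.Agent.TwoDens.TS

open Pool.Agent.TwoDens Pool.Agent.TwoDens.RK Pool.Agent.TwoDens.DD

variable {V : Type*} [DecidableEq V] {G : SimpleGraph V} [DecidableRel G.Adj]

/-- every vertex of degree `k` lies in a cell -/
def ClAllBad (G : SimpleGraph V) [DecidableRel G.Adj] (k : ℕ) (X : Finset V) : Prop :=
  ∀ v ∈ X, (nb G X v).card = k → ∃ Q y1 y2 y3, v ∈ Q ∧ ClP G k X Q y1 y2 y3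

theorem ClP.ne {k : ℕ} {X Q : Finset V} {y1 y2 y3 : V} (C : ClP G k X Q y1 y2 y3) (hk : 4 ≤ k) :
    Q.Nonempty := by
  rw [← Finset.card_pos]
  have := C.hc
  omega

theorem ClP.yX {k : ℕ} {X Q : Finset V} {y1 y2 y3 v : V} (C : ClP G k X Q y1 y2 y3)
    (hv : v ∈ clF Q y1 y2 y3) : v ∈ X := C.fX hv

theorem cl_nb_pair {z z' : V} (h : z ≠ z') (v : V) :
    (nb G {z, z'} v).card = ad G v z + ad G v z' := by
  unfold nb ad
  rw [Finset.filter_insert, Finset.filter_singleton]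
  split_ifs with a b b
  · rw [Finset.card_insert_of_notMem (by simpa using h), Finset.card_singleton]
  · simp
  · simp
  · simp

omit [DecidableRel G.Adj] in
theorem cl_card4 {A B C D : Finset V}
    (h : A.card + (B.card + (C.card + D.card)) ≤ (A ∪ (B ∪ (C ∪ D))).card) :
    Disjoint A B ∧ Disjoint A C ∧ Disjoint A D ∧ Disjoint B C ∧ Disjoint B D ∧ Disjoint C D := by
  have h1 := Finset.card_union_add_card_inter A (B ∪ (C ∪ D))
  have h2 := Finset.card_union_add_card_inter B (C ∪ D)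
  have h3 := Finset.card_union_add_card_inter C D
  have e1 : A ∩ (B ∪ (C ∪ D)) = ∅ := Finset.card_eq_zero.1 (by omega)
  have e2 : B ∩ (C ∪ D) = ∅ := Finset.card_eq_zero.1 (by omega)
  have e3 : C ∩ D = ∅ := Finset.card_eq_zero.1 (by omega)
  have g1 : ∀ {v : V}, v ∈ A → v ∈ B ∪ (C ∪ D) → False := by
    intro v h4 h5
    have : v ∈ A ∩ (B ∪ (C ∪ D)) := mem_inter.2 ⟨h4, h5⟩
    rw [e1] at this
    simp at this
  have g2 : ∀ {v : V}, v ∈ B → v ∈ C ∪ D → False := by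
    intro v h4 h5
    have : v ∈ B ∩ (C ∪ D) := mem_inter.2 ⟨h4, h5⟩
    rw [e2] at this
    simp at this
  refine ⟨?_, ?_, ?_, ?_, ?_, Finset.disjoint_iff_inter_eq_empty.2 e3⟩
  · rw [Finset.disjoint_left]
    exact fun v h4 h5 => g1 h4 (mem_union_left _ h5)
  · rw [Finset.disjoint_left]
    exact fun v h4 h5 => g1 h4 (mem_union_right _ (mem_union_left _ h5))
  · rw [Finset.disjoint_left]
    exact fun v h4 h5 => g1 h4 (mem_union_right _ (mem_union_right _ h5))
  · rw [Finset.disjoint_left]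
    exact fun v h4 h5 => g2 h4 (mem_union_left _ h5)
  · rw [Finset.disjoint_left]
    exact fun v h4 h5 => g2 h4 (mem_union_right _ h5)

/-- a vertex of degree `k` adjacent to an outer vertex of a cell -/
theorem MC.clIn {k : ℕ} {X : Finset V} (H : MC G k X) (hk : k = 5 ∨ k = 6)
    (hb : ClAllBad G k X) {Q : Finset V} {y1 y2 y3 : V}
    (C : ClP G k X Q y1 y2 y3) {v : V} (hv : v ∈ X) (hvQ : v ∉ Q) (ha : G.Adj y1 v)
    (hd : (nb G X v).card = k) :
    ∃ Q' z z', v ∈ Q' ∧ ClP G k X Q' y1 z z' ∧ Disjoint Q Q' := by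
  obtain ⟨Q', w1, w2, w3, hvQ', C'⟩ := hb v hv hd
  have h1 : y1 ∈ nb G X v := mem_nb.2 ⟨C.h1, ha.symm⟩
  rw [(H.clQ hk C' hvQ').2, mem_erase, mem_clF] at h1
  have hdis : Disjoint Q Q' := by
    rw [Finset.disjoint_left]
    intro q hq hq'
    have h2 : v ∈ nb G X q := by
      rw [(H.clQ hk C' hq').2, mem_erase]
      exact ⟨fun e => hvQ (e ▸ hq), mem_clF.2 (Or.inr (Or.inr (Or.inr hvQ')))⟩
    rw [(H.clQ hk C hq).2, mem_erase, mem_clF] at h2
    have c1 := C.d1
    have c2 := C.d2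
    have c3 := C.d3
    rcases h2.2 with h | h | h | h
    · rw [← h] at c1
      omega
    · rw [← h] at c2
      omega
    · rw [← h] at c3
      omega
    · exact hvQ h
  rcases h1.2 with h | h | h | h
  · rw [h]
    exact ⟨Q', w2, w3, hvQ', C', hdis⟩
  · rw [h]
    exact ⟨Q', w1, w3, hvQ', C'.s12, hdis⟩
  · rw [h]
    exact ⟨Q', w1, w2, hvQ', C'.s23.s12, hdis⟩
  · exfalso
    have h2 := (H.clQ hk C' h).1
    have c1 := C.d1
    omega

/-- two cells with a common outer vertex -/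
structure ClT (G : SimpleGraph V) [DecidableRel G.Adj] (k : ℕ) (X Q Q' : Finset V)
    (y1 y2 y3 z z' : V) : Prop where
  C : ClP G k X Q y1 y2 y3
  C' : ClP G k X Q' y1 z z'
  hd : Disjoint Q Q'

/-- the union of the closed neighbourhoods -/
def clW (Q Q' : Finset V) (y1 y2 y3 z z' : V) : Finset V := clF Q y1 y2 y3 ∪ (Q' ∪ {z, z'})

namespace ClT
variable {k : ℕ} {X Q Q' : Finset V} {y1 y2 y3 z z' : V}

theorem mem_clW {v : V} : v ∈ clW Q Q' y1 y2 y3 z z' ↔
    v = y1 ∨ v = y2 ∨ v = y3 ∨ v = z ∨ v = z' ∨ v ∈ Q ∨ v ∈ Q' := by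
  unfold clW
  rw [mem_union, mem_clF, mem_union, mem_insert, mem_singleton]
  tauto

theorem swap (T : ClT G k X Q Q' y1 y2 y3 z z') : ClT G k X Q' Q y1 z z' y2 y3 :=
  ⟨T.C', T.C, T.hd.symm⟩

theorem sl (T : ClT G k X Q Q' y1 y2 y3 z z') : ClT G k X Q Q' y1 y3 y2 z z' :=
  ⟨T.C.s23, T.C', T.hd⟩

theorem sr (T : ClT G k X Q Q' y1 y2 y3 z z') : ClT G k X Q Q' y1 y2 y3 z' z :=
  ⟨T.C, T.C'.s23, T.hd⟩

theorem wswap : clW Q Q' y1 y2 y3 z z' = clW Q' Q y1 z z' y2 y3 := by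
  ext v
  rw [mem_clW, mem_clW]
  tauto

theorem wsl : clW Q Q' y1 y2 y3 z z' = clW Q Q' y1 y3 y2 z z' := by
  ext v
  rw [mem_clW, mem_clW]
  tauto

theorem wsr : clW Q Q' y1 y2 y3 z z' = clW Q Q' y1 y2 y3 z' z := by
  ext v
  rw [mem_clW, mem_clW]
  tauto

section
variable (H : MC G k X) (hk : k = 5 ∨ k = 6) (T : ClT G k X Q Q' y1 y2 y3 z z')
include H hk T

theorem ne22 : y2 ≠ z := by
  intro h
  obtain ⟨q, hq⟩ := T.C'.ne H.hk
  refine H.clDis hk T.C (T.C'.hQ hq) (fun h' => (Finset.disjoint_left.1 T.hd) h' hq)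
    (T.C'.b1 q hq).symm ?_
  rw [h]
  exact (T.C'.b2 q hq).symm

theorem zQ : z ∉ Q := by
  intro h
  have h1 := (H.clQ hk T.C h).1
  have h2 := T.C'.d2
  omega

theorem WX : clW Q Q' y1 y2 y3 z z' ⊆ X := by
  intro v hv
  rw [mem_clW] at hv
  rcases hv with rfl | rfl | rfl | rfl | rfl | hv | hv
  · exact T.C.h1
  · exact T.C.h2
  · exact T.C.h3
  · exact T.C'.h2
  · exact T.C'.h3
  · exact T.C.hQ hv
  · exact T.C'.hQ hv

theorem sumW (f : V → ℕ) : ∑ v ∈ clW Q Q' y1 y2 y3 z z', f v =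
    f y1 + f y2 + f y3 + f z + f z' + ∑ v ∈ Q, f v + ∑ v ∈ Q', f v := by
  have h1 : Disjoint (clF Q y1 y2 y3) (Q' ∪ {z, z'}) := by
    rw [Finset.disjoint_left]
    intro v hv hv'
    rw [mem_clF] at hv
    rw [mem_union, mem_insert, mem_singleton] at hv'
    rcases hv with e | e | e | e <;> rcases hv' with e' | e' | e'
    · exact T.C'.q1 (e ▸ e')
    · exact T.C'.n12 (e ▸ e')
    · exact T.C'.n13 (e ▸ e')
    · exact T.swap.zQ H hk (e ▸ e')
    · exact T.ne22 H hk (e ▸ e')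
    · exact T.sr.ne22 H hk (e ▸ e')
    · exact T.sl.swap.zQ H hk (e ▸ e')
    · exact T.sl.ne22 H hk (e ▸ e')
    · exact T.sl.sr.ne22 H hk (e ▸ e')
    · exact (Finset.disjoint_left.1 T.hd) e e'
    · exact T.zQ H hk (e' ▸ e)
    · exact T.sr.zQ H hk (e' ▸ e)
  have h2 : Disjoint Q' {z, z'} := by
    rw [Finset.disjoint_left]
    intro v hv hv'
    rw [mem_insert, mem_singleton] at hv'
    rcases hv' with e | e
    · exact T.C'.q2 (e ▸ hv)
    · exact T.C'.q3 (e ▸ hv)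
  unfold clW
  rw [Finset.sum_union h1, Finset.sum_union h2, T.C.sumF, Finset.sum_pair T.C'.n23]
  ring

theorem cardW : (clW Q Q' y1 y2 y3 z z').card = 2 * k + 1 := by
  have h1 := T.sumW H hk (fun _ => 1)
  rw [← Finset.card_eq_sum_ones, ← Finset.card_eq_sum_ones, ← Finset.card_eq_sum_ones] at h1
  have := T.C.hc
  have := T.C'.hc
  omega

theorem hn : (clW Q Q' y1 y2 y3 z z').Nonempty := ⟨y1, mem_clW.2 (Or.inl rfl)⟩

/-- the neighbours of the cliques -/
theorem nbQ {q : V} (hq : q ∈ Q) {v : V} (hv : v ∈ X) (h : G.Adj q v) :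
    v ∈ clW Q Q' y1 y2 y3 z z' := by
  have h1 : v ∈ nb G X q := mem_nb.2 ⟨hv, h⟩
  rw [(H.clQ hk T.C hq).2, mem_erase, mem_clF] at h1
  rw [mem_clW]
  tauto

theorem nbQ' {q : V} (hq : q ∈ Q') {v : V} (hv : v ∈ X) (h : G.Adj q v) :
    v ∈ clW Q Q' y1 y2 y3 z z' := by
  rw [wswap]
  exact T.swap.nbQ H hk hq hv h

theorem al2 : al G (X \ clW Q Q' y1 y2 y3 z z') + 2 = al G X := by
  obtain ⟨q, hq⟩ := T.C.ne H.hk
  obtain ⟨q', hq'⟩ := T.C'.ne H.hk
  have hqq : q ≠ q' := fun e => (Finset.disjoint_left.1 T.hd) hq (e ▸ hq')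
  have hna : ¬ G.Adj q q' := by
    intro h
    have h1 : q' ∈ nb G X q := mem_nb.2 ⟨T.C'.hQ hq', h⟩
    rw [(H.clQ hk T.C hq).2, mem_erase, mem_clF] at h1
    have c1 := (H.clQ hk T.C' hq').1
    have d1 := T.C.d1
    have d2 := T.C.d2
    have d3 := T.C.d3
    rcases h1.2 with e | e | e | e
    · rw [e] at c1
      omega
    · rw [e] at c1
      omega
    · rw [e] at c1
      omega
    · exact (Finset.disjoint_left.1 T.hd) e hq'
  have h1 := al_closed (G := G) (Y := X) (S := clW Q Q' y1 y2 y3 z z') (J := {q, q'}) (by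
      intro v hv
      rw [mem_insert, mem_singleton] at hv
      rcases hv with rfl | rfl
      · exact T.C.hQ hq
      · exact T.C'.hQ hq') (by
      intro v hv
      rw [mem_insert, mem_singleton] at hv
      rw [mem_clW]
      rcases hv with rfl | rfl
      · tauto
      · tauto) (indep_pair hna) (by
      intro v hv w hw h
      rw [mem_insert, mem_singleton] at hv
      rcases hv with rfl | rfl
      · exact T.nbQ H hk hq hw h
      · exact T.nbQ' H hk hq' hw h)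
  rw [Finset.card_pair hqq] at h1
  by_contra hcon
  have h2 := H.closed3 (T.WX H hk) (by omega)
  rw [T.cardW H hk] at h2
  omega

/-- degree of the common vertex -/
theorem deg1 : (nb G X y1).card + 4 = 2 * k + (nb G (X \ clW Q Q' y1 y2 y3 z z') y1).card := by
  have h1 := cl_nb_split (G := G) (T.WX H hk) y1
  have h2 : nb G (clW Q Q' y1 y2 y3 z z') y1 = Q ∪ Q' := by
    ext v
    rw [mem_nb, mem_clW, mem_union]
    constructor
    · rintro ⟨h, h'⟩
      rcases h with e | e | e | e | e | e | e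
      · exact absurd (e ▸ h') (G.loopless.irrefl y1)
      · exact absurd (e ▸ h') T.C.a12
      · exact absurd (e ▸ h') T.C.a13
      · exact absurd (e ▸ h') T.C'.a12
      · exact absurd (e ▸ h') T.C'.a13
      · exact Or.inl e
      · exact Or.inr e
    · rintro (h | h)
      · exact ⟨by tauto, (T.C.b1 v h).symm⟩
      · exact ⟨by tauto, (T.C'.b1 v h).symm⟩
  rw [h2, Finset.card_union_of_disjoint T.hd] at h1
  have := T.C.hc
  have := T.C'.hc
  omega

/-- degree of another outer vertex -/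
theorem deg2 : (nb G X y2).card + 2 = k + ad G y2 z + ad G y2 z' +
    (nb G (X \ clW Q Q' y1 y2 y3 z z') y2).card := by
  have h1 := cl_nb_split (G := G) (T.WX H hk) y2
  have h2 : nb G (clW Q Q' y1 y2 y3 z z') y2 = Q ∪ nb G {z, z'} y2 := by
    ext v
    rw [mem_nb, mem_clW, mem_union, mem_nb, mem_insert, mem_singleton]
    constructor
    · rintro ⟨h, h'⟩
      rcases h with e | e | e | e | e | e | e
      · exact absurd (e ▸ h') (fun h => T.C.a12 h.symm)
      · exact absurd (e ▸ h') (G.loopless.irrefl y2)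
      · exact absurd (e ▸ h') T.C.a23
      · exact Or.inr ⟨Or.inl e, h'⟩
      · exact Or.inr ⟨Or.inr e, h'⟩
      · exact Or.inl e
      · exfalso
        exact H.clDis hk T.C (T.C'.hQ e) (fun h => (Finset.disjoint_left.1 T.hd) h e)
          (T.C'.b1 v e).symm h'
    · rintro (h | ⟨h, h'⟩)
      · exact ⟨by tauto, (T.C.b2 v h).symm⟩
      · exact ⟨by tauto, h'⟩
  have h3 : Disjoint Q (nb G {z, z'} y2) := by
    rw [Finset.disjoint_left]
    intro v hv hv'
    have h4 := (mem_nb.1 hv').1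
    rw [mem_insert, mem_singleton] at h4
    rcases h4 with e | e
    · exact T.zQ H hk (e ▸ hv)
    · exact T.sr.zQ H hk (e ▸ hv)
  rw [h2, Finset.card_union_of_disjoint h3, cl_nb_pair T.C'.n23] at h1
  have := T.C.hc
  omega

theorem deg3 : (nb G X y3).card + 2 = k + ad G y3 z + ad G y3 z' +
    (nb G (X \ clW Q Q' y1 y2 y3 z z') y3).card := by
  rw [wsl]
  exact T.sl.deg2 H hk

theorem degz : (nb G X z).card + 2 = k + ad G y2 z + ad G y3 z +
    (nb G (X \ clW Q Q' y1 y2 y3 z z') z).card := by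
  have := T.swap.deg2 H hk
  rw [← wswap, ad_comm z y2, ad_comm z y3] at this
  exact this

theorem degz' : (nb G X z').card + 2 = k + ad G y2 z' + ad G y3 z' +
    (nb G (X \ clW Q Q' y1 y2 y3 z z') z').card := by
  rw [wsr]
  exact T.sr.degz H hk

theorem m1 : ad G y2 z + ad G y3 z ≤ 1 := by
  by_cases h : G.Adj y2 z
  · have h1 := H.clDis hk T.C.s12.s23.s12 T.C'.h2 (T.zQ H hk)
    by_cases h' : G.Adj y3 z
    · exact absurd h (fun h2 => (h1 h') h2)
    · rw [ad_zero h']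
      have := ad_le (G := G) y2 z
      omega
  · rw [ad_zero h]
    have := ad_le (G := G) y3 z
    omega

theorem nums :
    ad G y2 z + ad G y3 z ≤ 1 ∧ ad G y2 z' + ad G y3 z' ≤ 1 ∧ ad G y2 z + ad G y2 z' ≤ 1 ∧
    ad G y3 z + ad G y3 z' ≤ 1 ∧ (nb G (X \ clW Q Q' y1 y2 y3 z z') y1).card ≤ 1 ∧
    0 ≤ ps G k (X \ clW Q Q' y1 y2 y3 z z') ∧
    ps G k (X \ clW Q Q' y1 y2 y3 z z') + 4 ≤ 2 * ((nb G (X \ clW Q Q' y1 y2 y3 z z') y1).card +
      ad G y2 z + ad G y2 z' + ad G y3 z + ad G y3 z') := by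
  have g1 := T.m1 H hk
  have g2 := T.sr.m1 H hk
  have g3 := T.swap.m1 H hk
  rw [ad_comm z y2, ad_comm z' y2] at g3
  have g4 := T.swap.sr.m1 H hk
  rw [ad_comm z y3, ad_comm z' y3] at g4
  have g5 := H.clUp hk T.C.s12.s23
  have g6 := T.deg1 H hk
  have g7 := H.cl_psd (T.hn H hk) (T.WX H hk)
  have g8 := H.cl_exps hk (T.WX H hk) (j := 2) (by
    have := T.al2 H hk
    omega)
  have g9 := T.deg2 H hk
  have g10 := T.deg3 H hk
  have g11 := T.degz H hk
  have g12 := T.degz' H hk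
  have g13 : exs G k X (clW Q Q' y1 y2 y3 z z') + 5 * k = (nb G X y1).card + (nb G X y2).card +
      (nb G X y3).card + (nb G X z).card + (nb G X z').card := by
    unfold exs
    rw [T.sumW H hk (fun v => (nb G X v).card - k)]
    have h1 := (H.clMain hk T.C).1
    have h2 := (H.clMain hk T.C').1
    unfold exs at h1 h2
    have := T.C.d1
    have := T.C.d2
    have := T.C.d3
    have := T.C'.d2
    have := T.C'.d3
    omega
  have g14 : bd G X (clW Q Q' y1 y2 y3 z z') = (nb G (X \ clW Q Q' y1 y2 y3 z z') y1).card +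
      (nb G (X \ clW Q Q' y1 y2 y3 z z') y2).card + (nb G (X \ clW Q Q' y1 y2 y3 z z') y3).card +
      (nb G (X \ clW Q Q' y1 y2 y3 z z') z).card + (nb G (X \ clW Q Q' y1 y2 y3 z z') z').card := by
    rw [cl_bd_eq, T.sumW H hk (fun v => (nb G (X \ clW Q Q' y1 y2 y3 z z') v).card)]
    have h1 : ∑ v ∈ Q, (nb G (X \ clW Q Q' y1 y2 y3 z z') v).card = 0 := by
      rw [Finset.sum_eq_zero_iff]
      intro v hv
      rw [Finset.card_eq_zero, Finset.eq_empty_iff_forall_notMem]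
      intro w hw
      have h2 := mem_nb.1 hw
      exact (mem_sdiff.1 h2.1).2 (T.nbQ H hk hv (mem_sdiff.1 h2.1).1 h2.2)
    have h2 : ∑ v ∈ Q', (nb G (X \ clW Q Q' y1 y2 y3 z z') v).card = 0 := by
      rw [Finset.sum_eq_zero_iff]
      intro v hv
      rw [Finset.card_eq_zero, Finset.eq_empty_iff_forall_notMem]
      intro w hw
      have h2 := mem_nb.1 hw
      exact (mem_sdiff.1 h2.1).2 (T.nbQ' H hk hv (mem_sdiff.1 h2.1).1 h2.2)
    rw [h1, h2, add_zero, add_zero]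
  have g15 := (H.clMain hk T.C).2.1
  have g16 := (H.clMain hk T.C').2.1
  have g17 := H.ps_le
  have g18 := T.cardW H hk
  refine ⟨g1, g2, g3, g4, by omega, g7, ?_⟩
  omega

/-- transversals from independent sets with three vertices -/
theorem tr3 {J S : Finset V} (hJ : J ⊆ clW Q Q' y1 y2 y3 z z') (hi : G.IsIndepSet (J : Set V))
    (hc : J.card = 3) (hS : ∀ v ∈ J, ∀ w ∈ X \ clW Q Q' y1 y2 y3 z z', G.Adj v w → w ∈ S) :
    Tr G (X \ clW Q Q' y1 y2 y3 z z') S := by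
  refine tr_nbr Finset.sdiff_subset (hJ.trans (T.WX H hk)) ?_ hi ?_ hS
  · rw [Finset.disjoint_left]
    intro v hv hv'
    exact (mem_sdiff.1 hv').2 (hJ hv)
  · have := T.al2 H hk
    omega

theorem dr4 {J S : Finset V} (hJ : J ⊆ clW Q Q' y1 y2 y3 z z') (hi : G.IsIndepSet (J : Set V))
    (hc : J.card = 4) (hS : ∀ v ∈ J, ∀ w ∈ X \ clW Q Q' y1 y2 y3 z z', G.Adj v w → w ∈ S) :
    al G ((X \ clW Q Q' y1 y2 y3 z z') \ S) + 2 ≤ al G (X \ clW Q Q' y1 y2 y3 z z') := by
  have h1 := al_closed (G := G) (Y := X) (S := clW Q Q' y1 y2 y3 z z' ∪ S) (J := J)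
    (hJ.trans (T.WX H hk)) (hJ.trans Finset.subset_union_left) hi (by
      intro v hv w hw h
      rw [mem_union]
      by_cases h2 : w ∈ clW Q Q' y1 y2 y3 z z'
      · exact Or.inl h2
      · exact Or.inr (hS v hv w (mem_sdiff.2 ⟨hw, h2⟩) h))
  rw [Finset.sdiff_union_distrib] at h1
  have h2 : (X \ clW Q Q' y1 y2 y3 z z') \ S = (X \ clW Q Q' y1 y2 y3 z z') ∩ (X \ S) := by
    ext v
    rw [mem_sdiff, mem_inter, mem_sdiff, mem_sdiff]
    tauto
  rw [h2]
  have := T.al2 H hk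
  omega

end

end ClT

end Pool.Agent.TwoDens.TS
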