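import Pool.Agent.TKS.CLC

/-!
Every cell has an outer vertex whose other neighbours form a cell.
-/

open Finset

namespace Pool.Agent.TwoDens.TS

open Pool.Agent.TwoDens Pool.Agent.TwoDens.RK Pool.Agent.TwoDens.DD

variable {V : Type*} [DecidableEq V] {G : SimpleGraph V} [DecidableRel G.Adj]

omit [DecidableEq V] in
theorem cl_nb_sum (W : Finset V) (v : V) : (nb G W v).card = ∑ w ∈ W, ad G v w := by
  unfold nb ad
  rw [Finset.card_filter]

namespace ClT
variable {k : ℕ} {X Q Q' : Finset V} {y1 y2 y3 z z' : V}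

section
variable (H : MC G k X) (hk : k = 5 ∨ k = 6) (T : ClT G k X Q Q' y1 y2 y3 z z')
include H hk T

theorem nq2 {q : V} (hq : q ∈ Q') : ¬ G.Adj q y2 := by
  intro h
  exact H.clDis hk T.C (T.C'.hQ hq) (fun h' => (Finset.disjoint_left.1 T.hd) h' hq)
    (T.C'.b1 q hq).symm h.symm

/-- the neighbours of an outside vertex -/
theorem inW {v : V} (hv : v ∈ X \ clW Q Q' y1 y2 y3 z z') :
    (nb G (clW Q Q' y1 y2 y3 z z') v).card =
      ad G v y1 + ad G v y2 + ad G v y3 + ad G v z + ad G v z' := by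
  have hv' := mem_sdiff.1 hv
  rw [cl_nb_sum, T.sumW H hk]
  have h1 : ∑ w ∈ Q, ad G v w = 0 := by
    rw [Finset.sum_eq_zero_iff]
    intro w hw
    exact ad_zero (fun h => hv'.2 (T.nbQ H hk hw hv'.1 h.symm))
  have h2 : ∑ w ∈ Q', ad G v w = 0 := by
    rw [Finset.sum_eq_zero_iff]
    intro w hw
    exact ad_zero (fun h => hv'.2 (T.nbQ' H hk hw hv'.1 h.symm))
  rw [h1, h2]
  rfl

theorem degv {v : V} (hv : v ∈ X \ clW Q Q' y1 y2 y3 z z') :
    (nb G X v).card = ad G v y1 + ad G v y2 + ad G v y3 + ad G v z + ad G v z' +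
      (nb G (X \ clW Q Q' y1 y2 y3 z z') v).card := by
  rw [cl_nb_split (T.WX H hk) v, T.inW H hk hv]

theorem vQ {v : V} (hv : v ∈ X \ clW Q Q' y1 y2 y3 z z') : v ∉ Q := by
  intro h
  refine (mem_sdiff.1 hv).2 (mem_clW.2 ?_)
  tauto

theorem vQ' {v : V} (hv : v ∈ X \ clW Q Q' y1 y2 y3 z z') : v ∉ Q' := by
  intro h
  refine (mem_sdiff.1 hv).2 (mem_clW.2 ?_)
  tauto

omit T in
theorem le1 (C : ClP G k X Q y1 y2 y3) {v : V} (hv : v ∈ X) (hvQ : v ∉ Q) :
    ad G v y1 + ad G v y2 + ad G v y3 ≤ 1 := by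
  have h12 := H.clDis hk C hv hvQ
  have h13 := H.clDis hk C.s23 hv hvQ
  have h23 := H.clDis hk C.s12.s23 hv hvQ
  by_cases a1 : G.Adj v y1
  · rw [ad_one a1, ad_zero (fun h => h12 a1.symm h.symm), ad_zero (fun h => h13 a1.symm h.symm)]
  · by_cases a2 : G.Adj v y2
    · rw [ad_zero a1, ad_one a2, ad_zero (fun h => h23 a2.symm h.symm)]
    · rw [ad_zero a1, ad_zero a2]
      have := ad_le (G := G) v y3
      omega

theorem leL {v : V} (hv : v ∈ X \ clW Q Q' y1 y2 y3 z z') :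
    ad G v y1 + ad G v y2 + ad G v y3 ≤ 1 :=
  le1 H hk T.C (mem_sdiff.1 hv).1 (T.vQ H hk hv)

theorem leR {v : V} (hv : v ∈ X \ clW Q Q' y1 y2 y3 z z') :
    ad G v y1 + ad G v z + ad G v z' ≤ 1 :=
  le1 H hk T.C' (mem_sdiff.1 hv).1 (T.vQ' H hk hv)

/-- the transversal `N(y2) ∪ N(y3)` -/
theorem tr23 : Tr G (X \ clW Q Q' y1 y2 y3 z z') (nb G (X \ clW Q Q' y1 y2 y3 z z') y2 ∪
    nb G (X \ clW Q Q' y1 y2 y3 z z') y3) := by
  obtain ⟨q, hq⟩ := T.C'.ne H.hk
  have n2 := T.nq2 H hk hq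
  have n3 := T.sl.nq2 H hk hq
  refine T.tr3 H hk (J := {q, y2, y3}) ?_ (indep_triple n2 n3 T.C.a23) ?_ ?_
  · intro v hv
    rw [mem_insert, mem_insert, mem_singleton] at hv
    rw [mem_clW]
    rcases hv with rfl | rfl | rfl
    · tauto
    · tauto
    · tauto
  · rw [Finset.card_insert_of_notMem, Finset.card_pair T.C.n23]
    rw [mem_insert, mem_singleton]
    have h1 := (H.clQ hk T.C' hq).1
    have h2 := T.C.d2
    have h3 := T.C.d3
    rintro (h | h)
    · rw [h] at h1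
      omega
    · rw [h] at h1
      omega
  · intro v hv w hw h
    rw [mem_insert, mem_insert, mem_singleton] at hv
    rw [mem_union, mem_nb, mem_nb]
    rcases hv with rfl | rfl | rfl
    · exact absurd (T.nbQ' H hk hq (mem_sdiff.1 hw).1 h) (mem_sdiff.1 hw).2
    · exact Or.inl ⟨hw, h⟩
    · exact Or.inr ⟨hw, h⟩

/-- the first special case -/
theorem no2 (hb : ClAllBad G k X) (he : (nb G (X \ clW Q Q' y1 y2 y3 z z') y1).card = 1)
    (hm : 2 ≤ ad G y2 z + ad G y2 z' + ad G y3 z + ad G y3 z') : False := by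
  have g := T.nums H hk
  have g6 := T.deg1 H hk
  have g9 := T.deg2 H hk
  have g10 := T.deg3 H hk
  have g15 := (H.clMain hk T.C).2.1
  have htr := T.tr23 H hk
  have hne := H.cl_sdne (T.hn H hk) (T.WX H hk)
  have hlL := fun {v : V} => T.leL H hk (v := v)
  have hlR := fun {v : V} => T.leR H hk (v := v)
  have hdv := fun {v : V} => T.degv H hk (v := v)
  have hiW := fun {v : V} => T.inW H hk (v := v)
  obtain ⟨Y, hY⟩ : ∃ Y, Y = X \ clW Q Q' y1 y2 y3 z z' := ⟨_, rfl⟩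
  rw [← hY] at g he g6 g9 g10 htr hne hlL hlR hdv hiW
  have hYX : Y ⊆ X := by rw [hY]; exact Finset.sdiff_subset
  obtain ⟨S, hS⟩ : ∃ S, S = nb G Y y2 ∪ nb G Y y3 := ⟨_, rfl⟩
  rw [← hS] at htr
  have hSY : S ⊆ Y := by rw [hS]; exact Finset.union_subset (nb_sub _ _) (nb_sub _ _)
  have h1 := H.tau1 hYX hne (by
    have := H.hk
    omega) S hSY htr
  have h2 := Finset.card_union_le (nb G Y y2) (nb G Y y3)
  rw [← hS] at h2
  have h3 := H.tr34 hYX hne (by
    have := H.hk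
    omega) hSY (by omega) htr
  have h4 : bd G Y S = 0 := by
    have := h3.2
    omega
  unfold bd at h4
  rw [Finset.sum_eq_zero_iff] at h4
  have hsub : ∀ v ∈ S, nb G Y v ⊆ S := by
    intro v hv
    rw [← Finset.sdiff_eq_empty_iff_subset, ← Finset.card_eq_zero]
    exact h4 v hv
  have hadj : ∀ v ∈ S, ad G v y2 + ad G v y3 = 1 := by
    intro v hv
    have h5 := hlL (hSY hv)
    rw [hS, mem_union, mem_nb, mem_nb] at hv
    rcases hv with h | h
    · rw [ad_one h.2.symm] at h5 ⊢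
      omega
    · rw [ad_one h.2.symm] at h5 ⊢
      omega
  have hdeg : ∀ v ∈ S, (nb G X v).card = k := by
    intro v hv
    have h5 := hlL (hSY hv)
    have h6 := hlR (hSY hv)
    have h7 := hdv (hSY hv)
    have h8 := hadj v hv
    have h9 : (nb G Y v).card + 1 ≤ S.card := by
      have h10 : nb G Y v ⊆ S.erase v := by
        intro u hu
        rw [mem_erase]
        exact ⟨fun e => G.loopless.irrefl v (e ▸ (mem_nb.1 hu).2), hsub v hv hu⟩
      have h11 := Finset.card_le_card h10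
      have h12 := Finset.card_erase_add_one hv
      omega
    have h10 := H.deg_ge v (hYX (hSY hv))
    omega
  obtain ⟨v, hv⟩ : S.Nonempty := by
    rw [← Finset.card_pos]
    have := H.hk
    omega
  obtain ⟨Q1, w1, w2, w3, hvQ, C1⟩ := hb v (hYX (hSY hv)) (hdeg v hv)
  have hw : ∀ {w : V}, w ∈ X → G.Adj v w → k + 1 ≤ (nb G X w).card →
      w ∈ nb G (clW Q Q' y1 y2 y3 z z') v := by
    intro w hwX hvw hwd
    rw [mem_nb]
    refine ⟨?_, hvw⟩
    by_contra hcon
    have h5 : w ∈ Y := by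
      rw [hY]
      exact mem_sdiff.2 ⟨hwX, hcon⟩
    have h6 := hdeg w (hsub v hv (mem_nb.2 ⟨h5, hvw⟩))
    omega
  have h5 : ({w1, w2, w3} : Finset V) ⊆ nb G (clW Q Q' y1 y2 y3 z z') v := by
    intro w hw'
    rw [mem_insert, mem_insert, mem_singleton] at hw'
    rcases hw' with rfl | rfl | rfl
    · exact hw C1.h1 (C1.b1 v hvQ) C1.d1
    · exact hw C1.h2 (C1.b2 v hvQ) C1.d2
    · exact hw C1.h3 (C1.b3 v hvQ) C1.d3
  have h6 := Finset.card_le_card h5
  rw [Finset.card_insert_of_notMem (by simp [C1.n12, C1.n13]), Finset.card_pair C1.n23,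
    hiW (hSY hv)] at h6
  have h7 := hlL (hSY hv)
  have h8 := hlR (hSY hv)
  have h9 := hadj v hv
  omega

/-- the second special case, normalised -/
theorem one22 (he : (nb G (X \ clW Q Q' y1 y2 y3 z z') y1).card = 1)
    (h22 : G.Adj y2 z) (h23 : ¬ G.Adj y2 z') (h32 : ¬ G.Adj y3 z) (h33 : ¬ G.Adj y3 z') :
    ∀ Y, Y = X \ clW Q Q' y1 y2 y3 z z' →
    (nb G Y y2).card = 2 ∧ (nb G Y z).card = 2 ∧ (nb G Y y3).card + 2 = k ∧
    (nb G Y z').card + 2 = k ∧ ps G k Y ≤ 1 ∧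
    2 * k ≤ (nb G Y y1 ∪ (nb G Y y2 ∪ (nb G Y y3 ∪ nb G Y z'))).card + 1 ∧
    exs G (k - 1) Y (nb G Y y1 ∪ (nb G Y y2 ∪ (nb G Y y3 ∪ nb G Y z'))) +
      bd G Y (nb G Y y1 ∪ (nb G Y y2 ∪ (nb G Y y3 ∪ nb G Y z'))) + 3 ≤ k ∧
    2 * k ≤ (nb G Y y1 ∪ (nb G Y y3 ∪ (nb G Y z ∪ nb G Y z'))).card + 1 ∧
    exs G (k - 1) Y (nb G Y y1 ∪ (nb G Y y3 ∪ (nb G Y z ∪ nb G Y z'))) +
      bd G Y (nb G Y y1 ∪ (nb G Y y3 ∪ (nb G Y z ∪ nb G Y z'))) + 3 ≤ k := by
  intro Y hY
  have g := T.nums H hk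
  have g6 := T.deg1 H hk
  have g9 := T.deg2 H hk
  have g10 := T.deg3 H hk
  have g11 := T.degz H hk
  have g12 := T.degz' H hk
  have g15 := (H.clMain hk T.C).2.1
  have g16 := (H.clMain hk T.C').2.1
  have d2 := T.C.d2
  have d2' := T.C'.d2
  have hne := H.cl_sdne (T.hn H hk) (T.WX H hk)
  rw [ad_one h22, ad_zero h23, ad_zero h32, ad_zero h33] at g
  rw [ad_one h22, ad_zero h23] at g9
  rw [ad_zero h32, ad_zero h33] at g10
  rw [ad_one h22, ad_zero h32] at g11
  rw [ad_zero h23, ad_zero h33] at g12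
  have hYX : Y ⊆ X := by rw [hY]; exact Finset.sdiff_subset
  have hJ1 : al G (Y \ (nb G Y y1 ∪ (nb G Y y2 ∪ (nb G Y y3 ∪ nb G Y z')))) + 2 ≤ al G Y := by
    rw [hY]
    refine T.dr4 H hk (J := {y1, y2, y3, z'}) ?_ ?_ ?_ ?_
    · intro v hv
      rw [mem_insert, mem_insert, mem_insert, mem_singleton] at hv
      rw [mem_clW]
      tauto
    · refine indep_insert (indep_triple T.C.a23 h23 h33) ?_
      intro v hv
      rw [mem_insert, mem_insert, mem_singleton] at hv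
      rcases hv with rfl | rfl | rfl
      · exact T.C.a12
      · exact T.C.a13
      · exact T.C'.a13
    · have e1 : y2 ≠ z' := T.sr.ne22 H hk
      have e2 : y3 ≠ z' := T.sl.sr.ne22 H hk
      rw [Finset.card_insert_of_notMem (by simp [T.C.n12, T.C.n13, T.C'.n13]),
        Finset.card_insert_of_notMem (by simp [T.C.n23, e1]), Finset.card_pair e2]
    · intro v hv w hw h
      rw [mem_insert, mem_insert, mem_insert, mem_singleton] at hv
      rw [mem_union, mem_union, mem_union, mem_nb, mem_nb, mem_nb, mem_nb]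
      rcases hv with rfl | rfl | rfl | rfl
      · exact Or.inl ⟨hw, h⟩
      · exact Or.inr (Or.inl ⟨hw, h⟩)
      · exact Or.inr (Or.inr (Or.inl ⟨hw, h⟩))
      · exact Or.inr (Or.inr (Or.inr ⟨hw, h⟩))
  have hJ2 : al G (Y \ (nb G Y y1 ∪ (nb G Y y3 ∪ (nb G Y z ∪ nb G Y z')))) + 2 ≤ al G Y := by
    rw [hY]
    refine T.dr4 H hk (J := {y1, y3, z, z'}) ?_ ?_ ?_ ?_
    · intro v hv
      rw [mem_insert, mem_insert, mem_insert, mem_singleton] at hv
      rw [mem_clW]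
      tauto
    · refine indep_insert (indep_triple h32 h33 T.C'.a23) ?_
      intro v hv
      rw [mem_insert, mem_insert, mem_singleton] at hv
      rcases hv with rfl | rfl | rfl
      · exact T.C.a13
      · exact T.C'.a12
      · exact T.C'.a13
    · have e1 : y3 ≠ z := T.sl.ne22 H hk
      have e2 : y3 ≠ z' := T.sl.sr.ne22 H hk
      rw [Finset.card_insert_of_notMem (by simp [T.C.n13, T.C'.n12, T.C'.n13]),
        Finset.card_insert_of_notMem (by simp [e1, e2]), Finset.card_pair T.C'.n23]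
    · intro v hv w hw h
      rw [mem_insert, mem_insert, mem_insert, mem_singleton] at hv
      rw [mem_union, mem_union, mem_union, mem_nb, mem_nb, mem_nb, mem_nb]
      rcases hv with rfl | rfl | rfl | rfl
      · exact Or.inl ⟨hw, h⟩
      · exact Or.inr (Or.inl ⟨hw, h⟩)
      · exact Or.inr (Or.inr (Or.inl ⟨hw, h⟩))
      · exact Or.inr (Or.inr (Or.inr ⟨hw, h⟩))
  rw [← hY] at g he g6 g9 g10 g11 g12 hne
  have hp : ps G k Y ≤ 1 := by
    rw [he] at g
    omega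
  have x1 := H.cl_exY hk hYX hne hp (Finset.union_subset (nb_sub _ _) (Finset.union_subset
    (nb_sub _ _) (Finset.union_subset (nb_sub _ _) (nb_sub _ _)))) hJ1
  have x2 := H.cl_exY hk hYX hne hp (Finset.union_subset (nb_sub _ _) (Finset.union_subset
    (nb_sub _ _) (Finset.union_subset (nb_sub _ _) (nb_sub _ _)))) hJ2
  have u1 := Finset.card_union_le (nb G Y y1) (nb G Y y2 ∪ (nb G Y y3 ∪ nb G Y z'))
  have u2 := Finset.card_union_le (nb G Y y2) (nb G Y y3 ∪ nb G Y z')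
  have u3 := Finset.card_union_le (nb G Y y3) (nb G Y z')
  have v1 := Finset.card_union_le (nb G Y y1) (nb G Y y3 ∪ (nb G Y z ∪ nb G Y z'))
  have v2 := Finset.card_union_le (nb G Y y3) (nb G Y z ∪ nb G Y z')
  have v3 := Finset.card_union_le (nb G Y z) (nb G Y z')
  refine ⟨?_, ?_, ?_, ?_, hp, ?_, ?_, ?_, ?_⟩ <;> omega

end

end ClT

end Pool.Agent.TwoDens.TS
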