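import Pool.Agent.TKS.CLD

/-!
Every cell has an outer vertex whose other neighbours form a cell (end).
-/

open Finset

namespace Pool.Agent.TwoDens.TS

open Pool.Agent.TwoDens Pool.Agent.TwoDens.RK Pool.Agent.TwoDens.DD

variable {V : Type*} [DecidableEq V] {G : SimpleGraph V} [DecidableRel G.Adj]

namespace ClT
variable {k : ℕ} {X Q Q' : Finset V} {y1 y2 y3 z z' : V}

section
variable (H : MC G k X) (hk : k = 5 ∨ k = 6) (T : ClT G k X Q Q' y1 y2 y3 z z')
include H hk T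

theorem oneCell (hb : ClAllBad G k X) (he : (nb G (X \ clW Q Q' y1 y2 y3 z z') y1).card = 1)
    (h22 : G.Adj y2 z) (h23 : ¬ G.Adj y2 z') (h32 : ¬ G.Adj y3 z) (h33 : ¬ G.Adj y3 z') :
    ∃ Q1 w w', ClT G k X Q Q1 y3 y1 y2 w w' ∧ (nb G X y3).card + 4 = 2 * k := by
  have hmain := T.one22 H hk he h22 h23 h32 h33 _ rfl
  have g10 := T.deg3 H hk
  rw [ad_zero h32, ad_zero h33] at g10
  have hne := H.cl_sdne (T.hn H hk) (T.WX H hk)
  have hdv := fun {v : V} => T.degv H hk (v := v)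
  have hvQ := fun {v : V} => T.vQ H hk (v := v)
  have hn3 := fun {q : V} (hq : q ∈ Q') => T.sl.nq2 H hk hq
  obtain ⟨Y, hY⟩ : ∃ Y, Y = X \ clW Q Q' y1 y2 y3 z z' := ⟨_, rfl⟩
  rw [← hY] at hmain he g10 hne hdv hvQ
  obtain ⟨c1, c2, c3, c4, hp, s1, x1, s2, x2⟩ := hmain
  have hYX : Y ⊆ X := by rw [hY]; exact Finset.sdiff_subset
  obtain ⟨f1, f2, f3, f4, f5, f6⟩ := cl_card4 (A := nb G Y y1) (B := nb G Y y2) (C := nb G Y y3)
    (D := nb G Y z') (by omega)
  obtain ⟨f1', f2', f3', f4', f5', f6'⟩ := cl_card4 (A := nb G Y y1) (B := nb G Y y3)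
    (C := nb G Y z) (D := nb G Y z') (by omega)
  have htau := H.tau0 hYX hne hp
  -- a vertex of degree `k - 1`
  obtain ⟨v, hv, hvd⟩ : ∃ v ∈ nb G Y y3, (nb G Y v).card + 1 = k := by
    by_contra hcon
    push Not at hcon
    have h1 : (nb G Y y3).card ≤ exs G (k - 1) Y (nb G Y y3) := by
      rw [Finset.card_eq_sum_ones]
      unfold exs
      refine Finset.sum_le_sum fun v hv => ?_
      have h2 := htau.deg (mem_nb.1 hv).1
      have h3 := hcon v hv
      omega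
    have h2 := exs_mono (G := G) (k := k - 1) (X := Y)
      (show nb G Y y3 ⊆ nb G Y y1 ∪ (nb G Y y2 ∪ (nb G Y y3 ∪ nb G Y z')) from
        Finset.subset_union_left.trans
          (Finset.subset_union_right.trans Finset.subset_union_right))
    omega
  have hvY := (mem_nb.1 hv).1
  have hva := (mem_nb.1 hv).2
  have hvdeg : (nb G X v).card = k := by
    have h1 := hdv hvY
    have z1 : ¬ G.Adj v y1 := fun h =>
      (Finset.disjoint_left.1 f2) (mem_nb.2 ⟨hvY, h.symm⟩) hv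
    have z2 : ¬ G.Adj v y2 := fun h =>
      (Finset.disjoint_left.1 f4) (mem_nb.2 ⟨hvY, h.symm⟩) hv
    have z3 : ¬ G.Adj v z := fun h =>
      (Finset.disjoint_left.1 f4') hv (mem_nb.2 ⟨hvY, h.symm⟩)
    have z4 : ¬ G.Adj v z' := fun h =>
      (Finset.disjoint_left.1 f6) hv (mem_nb.2 ⟨hvY, h.symm⟩)
    rw [ad_zero z1, ad_zero z2, ad_zero z3, ad_zero z4, ad_one hva.symm] at h1
    omega
  obtain ⟨Q1, w, w', hvQ1, C1, hd1⟩ := H.clIn hk hb T.C.s23.s12 (hYX hvY) (hvQ hvY) hva hvdeg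
  exact ⟨Q1, w, w', ⟨T.C.s23.s12, C1, hd1⟩, by omega⟩

/-- the general form for `e = 1` -/
theorem one (hb : ClAllBad G k X) (he : (nb G (X \ clW Q Q' y1 y2 y3 z z') y1).card = 1) :
    ∃ y w w' Q1 u u', (y = y2 ∨ y = y3) ∧ ClT G k X Q Q1 y w w' u u' ∧
      (nb G X y).card + 4 = 2 * k := by
  have g := T.nums H hk
  rw [he] at g
  have key : ∀ {a b c d : V}, ClT G k X Q Q' y1 a b c d → (a = y2 ∨ a = y3) → (b = y2 ∨ b = y3) →
      clW Q Q' y1 y2 y3 z z' = clW Q Q' y1 a b c d → G.Adj a c →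
      ad G y2 z + ad G y2 z' + ad G y3 z + ad G y3 z' =
        ad G a c + ad G a d + ad G b c + ad G b d →
      ∃ y w w' Q1 u u', (y = y2 ∨ y = y3) ∧ ClT G k X Q Q1 y w w' u u' ∧
        (nb G X y).card + 4 = 2 * k := by
    intro a b c d T' ha hb' hw hac hs
    rw [hw] at he
    have g' := T'.nums H hk
    by_cases h2 : 2 ≤ ad G a c + ad G a d + ad G b c + ad G b d
    · exact (T'.no2 H hk hb he h2).elim
    · rw [ad_one hac] at h2 g'
      have z1 : ¬ G.Adj a d := fun h => by rw [ad_one h] at h2; omega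
      have z2 : ¬ G.Adj b c := fun h => by rw [ad_one h] at h2; omega
      have z3 : ¬ G.Adj b d := fun h => by rw [ad_one h] at h2; omega
      obtain ⟨Q1, u, u', T1, hd⟩ := T'.oneCell H hk hb he hac z1 z2 z3
      exact ⟨b, y1, a, Q1, u, u', hb', T1, hd⟩
  by_cases a1 : G.Adj y2 z
  · exact key T (Or.inl rfl) (Or.inr rfl) rfl a1 rfl
  by_cases a2 : G.Adj y2 z'
  · exact key T.sr (Or.inl rfl) (Or.inr rfl) wsr a2 (by omega)
  by_cases a3 : G.Adj y3 z
  · exact key T.sl (Or.inr rfl) (Or.inl rfl) wsl a3 (by omega)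
  by_cases a4 : G.Adj y3 z'
  · exact key T.sl.sr (Or.inr rfl) (Or.inl rfl) (wsl.trans wsr) a4 (by omega)
  rw [ad_zero a1, ad_zero a2, ad_zero a3, ad_zero a4] at g
  exfalso
  omega

end

end ClT

/-- every cell has an outer vertex whose other neighbours form a cell -/
theorem MC.cl_claimA {k : ℕ} {X : Finset V} (H : MC G k X) (hk : k = 5 ∨ k = 6)
    (hb : ClAllBad G k X) {Q : Finset V} {y1 y2 y3 : V} (C : ClP G k X Q y1 y2 y3) :
    ∃ y w w' Q1 u u', (y = y1 ∨ y = y2 ∨ y = y3) ∧ ClT G k X Q Q1 y w w' u u' ∧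
      (nb G X y).card + 4 = 2 * k := by
  have h1 := H.clEx hk C
  have h2 := (H.clMain hk C).2.2
  obtain ⟨v, hv, hvd⟩ : ∃ v ∈ ClP.U G X Q y1 y2 y3, (nb G X v).card = k := by
    by_contra hcon
    push Not at hcon
    have h3 : (ClP.U G X Q y1 y2 y3).card ≤ exs G k X (ClP.U G X Q y1 y2 y3) := by
      rw [Finset.card_eq_sum_ones]
      unfold exs
      refine Finset.sum_le_sum fun v hv => ?_
      have h4 := H.deg_ge v (mem_sdiff.1 (ClP.USub hv)).1
      have h5 := hcon v hv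
      omega
    omega
  have hvX := mem_sdiff.1 (ClP.USub hv)
  have hvQ : v ∉ Q := fun h => hvX.2 (mem_clF.2 (Or.inr (Or.inr (Or.inr h))))
  have key : ∀ {a b c : V}, ClP G k X Q a b c → (a = y1 ∨ a = y2 ∨ a = y3) →
      (b = y1 ∨ b = y2 ∨ b = y3) → (c = y1 ∨ c = y2 ∨ c = y3) → G.Adj a v →
      ∃ y w w' Q1 u u', (y = y1 ∨ y = y2 ∨ y = y3) ∧ ClT G k X Q Q1 y w w' u u' ∧
        (nb G X y).card + 4 = 2 * k := by
    intro a b c C' ha hb' hc hav
    obtain ⟨Q1, z, z', hvQ1, C1, hd⟩ := H.clIn hk hb C' hvX.1 hvQ hav hvd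
    have T : ClT G k X Q Q1 a b c z z' := ⟨C', C1, hd⟩
    have g := T.nums H hk
    have g6 := T.deg1 H hk
    by_cases he : (nb G (X \ clW Q Q1 a b c z z') a).card = 1
    · obtain ⟨y, w, w', Q2, u, u', hy, T', hd'⟩ := T.one H hk hb he
      refine ⟨y, w, w', Q2, u, u', ?_, T', hd'⟩
      rcases hy with rfl | rfl
      · exact hb'
      · exact hc
    · exact ⟨a, b, c, Q1, z, z', ha, T, by omega⟩
  have hv' : G.Adj y1 v ∨ G.Adj y2 v ∨ G.Adj y3 v := by
    unfold ClP.U at hv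
    rw [mem_union, mem_union, mem_nb, mem_nb, mem_nb] at hv
    tauto
  rcases hv' with h | h | h
  · exact key C (by tauto) (by tauto) (by tauto) h
  · exact key C.s12 (by tauto) (by tauto) (by tauto) h
  · exact key C.s23.s12 (by tauto) (by tauto) (by tauto) h

end Pool.Agent.TwoDens.TS
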