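import Pool.Agent.TKS.CLE

/-!
Two cells joined by a vertex without other neighbours.
-/

open Finset

namespace Pool.Agent.TwoDens.TS

open Pool.Agent.TwoDens Pool.Agent.TwoDens.RK Pool.Agent.TwoDens.DD

variable {V : Type*} [DecidableEq V] {G : SimpleGraph V} [DecidableRel G.Adj]

theorem ClT.exW {k : ℕ} {X Q Q' : Finset V} {y1 y2 y3 z z' : V} (H : MC G k X)
    (hk : k = 5 ∨ k = 6) (T : ClT G k X Q Q' y1 y2 y3 z z') :
    exs G k X (clW Q Q' y1 y2 y3 z z') + 5 * k = (nb G X y1).card + (nb G X y2).card +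
      (nb G X y3).card + (nb G X z).card + (nb G X z').card := by
  unfold exs
  rw [T.sumW H hk (fun v => (nb G X v).card - k)]
  have h1 := (H.clMain hk T.C).1
  have h2 := (H.clMain hk T.C').1
  unfold exs at h1 h2
  have := T.C.d1
  have := T.C.d2
  have := T.C.d3
  have := T.C'.d2
  have := T.C'.d3
  omega

/-- two cells whose common outer vertex has no other neighbours -/
structure ClD (G : SimpleGraph V) [DecidableRel G.Adj] (k : ℕ) (X Q Q' : Finset V)
    (y1 y2 y3 z z' : V) : Prop where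
  T : ClT G k X Q Q' y1 y2 y3 z z'
  e0 : nb G (X \ clW Q Q' y1 y2 y3 z z') y1 = ∅
  h22 : G.Adj y2 z
  h23 : ¬ G.Adj y2 z'
  h32 : ¬ G.Adj y3 z
  h33 : G.Adj y3 z'

namespace ClD
variable {k : ℕ} {X Q Q' : Finset V} {y1 y2 y3 z z' : V}

theorem swap (D : ClD G k X Q Q' y1 y2 y3 z z') : ClD G k X Q' Q y1 z z' y2 y3 where
  T := D.T.swap
  e0 := by
    rw [← ClT.wswap]
    exact D.e0
  h22 := D.h22.symm
  h23 := fun h => D.h32 h.symm
  h32 := fun h => D.h23 h.symm
  h33 := D.h33.symm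

theorem flip (D : ClD G k X Q Q' y1 y2 y3 z z') : ClD G k X Q Q' y1 y3 y2 z' z where
  T := D.T.sl.sr
  e0 := by
    rw [← ClT.wsr, ← ClT.wsl]
    exact D.e0
  h22 := D.h33
  h23 := D.h32
  h32 := D.h23
  h33 := D.h22

section
variable (H : MC G k X) (hk : k = 5 ∨ k = 6) (D : ClD G k X Q Q' y1 y2 y3 z z')
include H hk D

theorem ns : ∀ Y, Y = X \ clW Q Q' y1 y2 y3 z z' →
    (nb G Y y2).card + (nb G Y y3).card = k ∧ (nb G Y z).card = (nb G Y y2).card ∧
    (nb G Y z').card = (nb G Y y3).card ∧ ps G k Y ≤ 1 ∧ (nb G X y1).card + 4 = 2 * k ∧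
    (nb G X y2).card + 1 = k + (nb G Y y2).card ∧ (nb G X y3).card + 1 = k + (nb G Y y3).card ∧
    (nb G X z).card + 1 = k + (nb G Y y2).card ∧ (nb G X z').card + 1 = k + (nb G Y y3).card := by
  intro Y hY
  have T := D.T
  have g := T.nums H hk
  have g6 := T.deg1 H hk
  have g9 := T.deg2 H hk
  have g10 := T.deg3 H hk
  have g11 := T.degz H hk
  have g12 := T.degz' H hk
  have g15 := (H.clMain hk T.C).2.1
  have g16 := (H.clMain hk T.C').2.1
  have hne := H.cl_sdne (T.hn H hk) (T.WX H hk)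
  rw [ad_one D.h22, ad_zero D.h23, ad_zero D.h32, ad_one D.h33, D.e0, Finset.card_empty] at g
  rw [D.e0, Finset.card_empty] at g6
  rw [ad_one D.h22, ad_zero D.h23] at g9
  rw [ad_zero D.h32, ad_one D.h33] at g10
  rw [ad_one D.h22, ad_zero D.h32] at g11
  rw [ad_zero D.h23, ad_one D.h33] at g12
  have hYX : Y ⊆ X := by rw [hY]; exact Finset.sdiff_subset
  have e0 := D.e0
  have t1 : Tr G Y (nb G Y y2 ∪ nb G Y z') := by
    rw [hY]
    refine T.tr3 H hk (J := {y1, y2, z'}) ?_ (indep_triple T.C.a12 T.C'.a13 D.h23) ?_ ?_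
    · intro v hv
      rw [mem_insert, mem_insert, mem_singleton] at hv
      rw [ClT.mem_clW]
      tauto
    · have e1 : y2 ≠ z' := T.sr.ne22 H hk
      rw [Finset.card_insert_of_notMem (by simp [T.C.n12, T.C'.n13]), Finset.card_pair e1]
    · intro v hv w hw h
      rw [mem_insert, mem_insert, mem_singleton] at hv
      rw [mem_union, mem_nb, mem_nb]
      rcases hv with rfl | rfl | rfl
      · exfalso
        have : w ∈ nb G (X \ clW Q Q' v y2 y3 z z') v := mem_nb.2 ⟨hw, h⟩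
        rw [e0] at this
        simp at this
      · exact Or.inl ⟨hw, h⟩
      · exact Or.inr ⟨hw, h⟩
  have t2 : Tr G Y (nb G Y y3 ∪ nb G Y z) := by
    rw [hY]
    refine T.tr3 H hk (J := {y1, y3, z}) ?_ (indep_triple T.C.a13 T.C'.a12 D.h32) ?_ ?_
    · intro v hv
      rw [mem_insert, mem_insert, mem_singleton] at hv
      rw [ClT.mem_clW]
      tauto
    · have e1 : y3 ≠ z := T.sl.ne22 H hk
      rw [Finset.card_insert_of_notMem (by simp [T.C.n13, T.C'.n12]), Finset.card_pair e1]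
    · intro v hv w hw h
      rw [mem_insert, mem_insert, mem_singleton] at hv
      rw [mem_union, mem_nb, mem_nb]
      rcases hv with rfl | rfl | rfl
      · exfalso
        have : w ∈ nb G (X \ clW Q Q' v y2 y3 z z') v := mem_nb.2 ⟨hw, h⟩
        rw [e0] at this
        simp at this
      · exact Or.inl ⟨hw, h⟩
      · exact Or.inr ⟨hw, h⟩
  rw [← hY] at g g9 g10 g11 g12 hne
  have hp : ps G k Y ≤ 1 := by omega
  have htau := H.tau0 hYX hne hp
  have u1 := htau _ (Finset.union_subset (nb_sub _ _) (nb_sub _ _)) t1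
  have u2 := htau _ (Finset.union_subset (nb_sub _ _) (nb_sub _ _)) t2
  have u3 := Finset.card_union_le (nb G Y y2) (nb G Y z')
  have u4 := Finset.card_union_le (nb G Y y3) (nb G Y z)
  refine ⟨?_, ?_, ?_, hp, ?_, ?_, ?_, ?_, ?_⟩ <;> omega

/-- the neighbours of the common vertex -/
theorem nb1 {u : V} (hu : u ∈ X) (h : G.Adj y1 u) : (nb G X u).card = k := by
  have hW : u ∈ clW Q Q' y1 y2 y3 z z' := by
    by_contra hcon
    have h1 : u ∈ nb G (X \ clW Q Q' y1 y2 y3 z z') y1 :=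
      mem_nb.2 ⟨mem_sdiff.2 ⟨hu, hcon⟩, h⟩
    rw [D.e0] at h1
    simp at h1
  rw [ClT.mem_clW] at hW
  rcases hW with e | e | e | e | e | e | e
  · exact absurd (e ▸ h) (G.loopless.irrefl y1)
  · exact absurd (e ▸ h) D.T.C.a12
  · exact absurd (e ▸ h) D.T.C.a13
  · exact absurd (e ▸ h) D.T.C'.a12
  · exact absurd (e ▸ h) D.T.C'.a13
  · exact (H.clQ hk D.T.C e).1
  · exact (H.clQ hk D.T.C' e).1

/-- the third cell: the case of an edge `y2 w` -/
theorem clB1 {Q1 : Finset V} {w w' : V} (T' : ClT G k X Q Q1 y3 y1 y2 w w')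
    (he : (nb G (X \ clW Q Q1 y3 y1 y2 w w') y3).card = 1)
    (hz : z' ∈ nb G (X \ clW Q Q1 y3 y1 y2 w w') y3)
    (m22 : G.Adj y2 w) (m23 : ¬ G.Adj y2 w') : False := by
  have hns := D.ns H hk _ rfl
  have m32 : ¬ G.Adj y1 w := by
    intro h
    have h1 := D.nb1 H hk T'.C'.h2 h
    have h2 := T'.C'.d2
    omega
  have m33 : ¬ G.Adj y1 w' := by
    intro h
    have h1 := D.nb1 H hk T'.C'.h3 h
    have h2 := T'.C'.d3
    omega
  have T2 := T'.sl
  rw [ClT.wsl] at he hz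
  have hmain := T2.one22 H hk he m22 m23 m32 m33 _ rfl
  have g6 := T2.deg1 H hk
  have hne := H.cl_sdne (T2.hn H hk) (T2.WX H hk)
  have hdv := fun {v : V} => T2.degv H hk (v := v)
  have hcW := T2.cardW H hk
  have hexW := T2.exW H hk
  have g15 := (H.clMain hk T2.C).2.1
  have g16 := (H.clMain hk T2.C').2.1
  have hnQ := fun {q : V} (hq : q ∈ Q) {v : V} (hv : v ∈ X) (h : G.Adj q v) =>
    T2.nbQ H hk hq hv h
  have hnQ' := fun {q : V} (hq : q ∈ Q1) {v : V} (hv : v ∈ X) (h : G.Adj q v) =>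
    T2.nbQ' H hk hq hv h
  have hWX := T2.WX H hk
  have hmw : ∀ {v : V}, v ∈ clW Q Q1 y3 y2 y1 w w' → v = y3 ∨ v = y2 ∨ v = y1 ∨ v = w ∨
      v = w' ∨ v ∈ Q ∨ v ∈ Q1 := fun h => ClT.mem_clW.1 h
  obtain ⟨W, hW⟩ : ∃ W, W = clW Q Q1 y3 y2 y1 w w' := ⟨_, rfl⟩
  rw [← hW] at he hz hmain g6 hne hdv hcW hexW hnQ hnQ' hWX hmw
  obtain ⟨Y, hY⟩ : ∃ Y, Y = X \ W := ⟨_, rfl⟩
  rw [← hY] at he hz hmain g6 hne hdv
  obtain ⟨c1, c2, c3, c4, hp, s1, x1, s2, x2⟩ := hmain
  have hYX : Y ⊆ X := by rw [hY]; exact Finset.sdiff_subset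
  obtain ⟨f1, f2, f3, f4, f5, f6⟩ := cl_card4 (A := nb G Y y3) (B := nb G Y y2) (C := nb G Y y1)
    (D := nb G Y w') (by omega)
  obtain ⟨f1', f2', f3', f4', f5', f6'⟩ := cl_card4 (A := nb G Y y3) (B := nb G Y y1)
    (C := nb G Y w) (D := nb G Y w') (by omega)
  have htau := H.tau0 hYX hne hp
  have hzY := (mem_nb.1 hz).1
  have hza := (mem_nb.1 hz).2
  have hzd := hdv hzY
  have n1 : ¬ G.Adj z' y2 := fun h => D.h23 h.symm
  have n2 : ¬ G.Adj z' y1 := fun h => D.T.C'.a13 h.symm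
  have n3 : ¬ G.Adj z' w := fun h => (Finset.disjoint_left.1 f2') hz (mem_nb.2 ⟨hzY, h.symm⟩)
  have n4 : ¬ G.Adj z' w' := fun h => (Finset.disjoint_left.1 f3') hz (mem_nb.2 ⟨hzY, h.symm⟩)
  rw [ad_one hza.symm, ad_zero n1, ad_zero n2, ad_zero n3, ad_zero n4] at hzd
  obtain ⟨S1, hS1⟩ : ∃ S, S = nb G Y y3 ∪ (nb G Y y2 ∪ (nb G Y y1 ∪ nb G Y w')) := ⟨_, rfl⟩
  obtain ⟨S2, hS2⟩ : ∃ S, S = nb G Y y3 ∪ (nb G Y y1 ∪ (nb G Y w ∪ nb G Y w')) := ⟨_, rfl⟩
  rw [← hS1] at s1 x1
  rw [← hS2] at s2 x2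
  have hz1 : z' ∈ S1 := by rw [hS1]; exact mem_union_left _ hz
  have hz2 : z' ∈ S2 := by rw [hS2]; exact mem_union_left _ hz
  have hS1Y : S1 ⊆ Y := by
    rw [hS1]
    exact Finset.union_subset (nb_sub _ _) (Finset.union_subset (nb_sub _ _)
      (Finset.union_subset (nb_sub _ _) (nb_sub _ _)))
  have b1 : bd G Y S1 = 0 := by
    have h1 := exs_erase (G := G) (k := k - 1) (X := Y) hz1
    omega
  have b2 : bd G Y S2 = 0 := by
    have h1 := exs_erase (G := G) (k := k - 1) (X := Y) hz2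
    omega
  unfold bd at b1 b2
  rw [Finset.sum_eq_zero_iff] at b1 b2
  have hs1 : ∀ v ∈ S1, nb G Y v ⊆ S1 := by
    intro v hv
    rw [← Finset.sdiff_eq_empty_iff_subset, ← Finset.card_eq_zero]
    exact b1 v hv
  have hs2 : ∀ v ∈ S2, nb G Y v ⊆ S2 := by
    intro v hv
    rw [← Finset.sdiff_eq_empty_iff_subset, ← Finset.card_eq_zero]
    exact b2 v hv
  have hin : nb G Y y2 ⊆ S2 := by
    intro u hu
    by_contra hcon
    have huY := (mem_nb.1 hu).1
    have hu1 : u ∈ S1 := by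
      rw [hS1]
      exact mem_union_right _ (mem_union_left _ hu)
    have h1 : nb G Y u ⊆ (nb G Y y2).erase u := by
      intro x hx
      have hx' := mem_nb.1 hx
      rw [mem_erase]
      refine ⟨fun e => G.loopless.irrefl u (e ▸ hx'.2), ?_⟩
      have hxS : x ∉ S2 := fun h => hcon (hs2 x h (mem_nb.2 ⟨huY, hx'.2.symm⟩))
      have hx1 := hs1 u hu1 hx
      rw [hS1, mem_union, mem_union, mem_union] at hx1
      rw [hS2, mem_union, mem_union, mem_union] at hxS
      tauto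
    have h2 := Finset.card_le_card h1
    have h3 := Finset.card_erase_add_one hu
    have h4 := htau.deg huY
    omega
  have hin2 : nb G Y y2 ⊆ nb G Y w := by
    intro u hu
    have h1 := hin hu
    rw [hS2, mem_union, mem_union, mem_union] at h1
    rcases h1 with h | h | h | h
    · exact ((Finset.disjoint_left.1 f1) h hu).elim
    · exact ((Finset.disjoint_left.1 f4) hu h).elim
    · exact h
    · exact ((Finset.disjoint_left.1 f5) hu h).elim
  have heq : nb G Y y2 = nb G Y w := Finset.eq_of_subset_of_card_le hin2 (by omega)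
  have hud : ∀ u ∈ nb G Y y2, k + 1 ≤ (nb G X u).card := by
    intro u hu
    have huY := (mem_nb.1 hu).1
    have h1 := hdv huY
    rw [ad_one (mem_nb.1 hu).2.symm, ad_one (mem_nb.1 (hin2 hu)).2.symm] at h1
    have h4 := htau.deg huY
    omega
  have hdis : Disjoint W S1 := by
    rw [Finset.disjoint_left]
    intro v hv hv'
    have h1 := hS1Y hv'
    rw [hY] at h1
    exact (mem_sdiff.1 h1).2 hv
  have hZX : W ∪ S1 ⊆ X := Finset.union_subset hWX (hS1Y.trans hYX)
  have hbd : bd G X (W ∪ S1) = 0 := by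
    rw [cl_bd_eq, Finset.sum_eq_zero_iff]
    intro v hv
    rw [Finset.card_eq_zero, Finset.eq_empty_iff_forall_notMem]
    intro x hx
    have hx' := mem_nb.1 hx
    have hx1 := mem_sdiff.1 hx'.1
    rw [mem_union] at hx1 hv
    push Not at hx1
    have hxY : x ∈ Y := by
      rw [hY]
      exact mem_sdiff.2 ⟨hx1.1, hx1.2.1⟩
    rcases hv with hv | hv
    · rcases hmw hv with e | e | e | e | e | e | e
      · refine hx1.2.2 ?_
        rw [hS1]
        exact mem_union_left _ (mem_nb.2 ⟨hxY, e ▸ hx'.2⟩)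
      · refine hx1.2.2 ?_
        rw [hS1]
        exact mem_union_right _ (mem_union_left _ (mem_nb.2 ⟨hxY, e ▸ hx'.2⟩))
      · refine hx1.2.2 ?_
        rw [hS1]
        exact mem_union_right _ (mem_union_right _ (mem_union_left _
          (mem_nb.2 ⟨hxY, e ▸ hx'.2⟩)))
      · refine hx1.2.2 ?_
        have h1 : x ∈ nb G Y w := mem_nb.2 ⟨hxY, e ▸ hx'.2⟩
        rw [← heq] at h1
        rw [hS1]
        exact mem_union_right _ (mem_union_left _ h1)
      · refine hx1.2.2 ?_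
        rw [hS1]
        exact mem_union_right _ (mem_union_right _ (mem_union_right _
          (mem_nb.2 ⟨hxY, e ▸ hx'.2⟩)))
      · exact hx1.2.1 (hnQ e hx1.1 hx'.2)
      · exact hx1.2.1 (hnQ' e hx1.1 hx'.2)
    · exact hx1.2.2 (hs1 v hv (mem_nb.2 ⟨hxY, hx'.2⟩))
  have h3 : (W ∪ S1).card = W.card + S1.card := Finset.card_union_of_disjoint hdis
  have h5 := H.sparse_bd hZX (by omega)
  rw [hbd, cl_exs_union hdis] at h5
  have h6 : S1.card ≤ 1 + (2 + ((nb G Y y1).card + (nb G Y w').card)) := by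
    rw [hS1]
    have u1 := Finset.card_union_le (nb G Y y3) (nb G Y y2 ∪ (nb G Y y1 ∪ nb G Y w'))
    have u2 := Finset.card_union_le (nb G Y y2) (nb G Y y1 ∪ nb G Y w')
    have u3 := Finset.card_union_le (nb G Y y1) (nb G Y w')
    omega
  have h7 : exs G k X (insert z' (nb G Y y2)) ≤ exs G k X S1 := by
    refine exs_mono (Finset.insert_subset hz1 ?_)
    rw [hS1]
    exact Finset.subset_union_left.trans Finset.subset_union_right
  have h8 : z' ∉ nb G Y y2 := fun h => (Finset.disjoint_left.1 f1) hz h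
  have h9 := exs_erase (G := G) (k := k) (X := X) (mem_insert_self z' (nb G Y y2))
  rw [Finset.erase_insert h8] at h9
  have h10 : (nb G Y y2).card ≤ exs G k X (nb G Y y2) := by
    rw [Finset.card_eq_sum_ones]
    unfold exs
    refine Finset.sum_le_sum fun v hv => ?_
    have := hud v hv
    omega
  omega

/-- no vertex of degree `k` next to `y3` outside the cell -/
theorem clB (hb : ClAllBad G k X) {v : V} (hv : v ∈ X) (hvQ : v ∉ Q) (ha : G.Adj y3 v) :
    k + 1 ≤ (nb G X v).card := by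
  by_contra hcon
  have h1 := H.deg_ge v hv
  obtain ⟨Q1, w, w', hvQ1, C1, hd⟩ := H.clIn hk hb D.T.C.s23.s12 hv hvQ ha (by omega)
  have T' : ClT G k X Q Q1 y3 y1 y2 w w' := ⟨D.T.C.s23.s12, C1, hd⟩
  have g := T'.nums H hk
  have hz : z' ∈ nb G (X \ clW Q Q1 y3 y1 y2 w w') y3 := by
    refine mem_nb.2 ⟨mem_sdiff.2 ⟨D.T.C'.h3, ?_⟩, D.h33⟩
    rw [ClT.mem_clW]
    rintro (e | e | e | e | e | e | e)
    · exact D.T.sl.sr.ne22 H hk e.symm
    · exact D.T.C'.n13 e.symm
    · exact D.T.sr.ne22 H hk e.symm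
    · exact C1.a12 (e ▸ D.h33)
    · exact C1.a13 (e ▸ D.h33)
    · exact D.T.sr.zQ H hk e
    · have h2 := (H.clQ hk C1 e).1
      have h3 := D.T.C'.d3
      omega
  have he1 : 1 ≤ (nb G (X \ clW Q Q1 y3 y1 y2 w w') y3).card := Finset.card_pos.2 ⟨z', hz⟩
  have he : (nb G (X \ clW Q Q1 y3 y1 y2 w w') y3).card = 1 := by omega
  have m32 : ¬ G.Adj y1 w := by
    intro h
    have h1 := D.nb1 H hk T'.C'.h2 h
    have h2 := T'.C'.d2
    omega
  have m33 : ¬ G.Adj y1 w' := by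
    intro h
    have h1 := D.nb1 H hk T'.C'.h3 h
    have h2 := T'.C'.d3
    omega
  rw [ad_zero m32, ad_zero m33] at g
  by_cases a1 : G.Adj y2 w
  · refine D.clB1 H hk T' he hz a1 ?_
    intro a2
    rw [ad_one a1, ad_one a2] at g
    omega
  · by_cases a2 : G.Adj y2 w'
    · refine D.clB1 H hk T'.sr (by rw [← ClT.wsr]; exact he) (by rw [← ClT.wsr]; exact hz) a2 a1
    · rw [ad_zero a1, ad_zero a2] at g
      omega

end

end ClD

end Pool.Agent.TwoDens.TS
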