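import Pool.Agent.TKS.CLF

/-!
Two cells: the star transversals.
-/

open Finset

namespace Pool.Agent.TwoDens.TS

open Pool.Agent.TwoDens Pool.Agent.TwoDens.RK Pool.Agent.TwoDens.DD

variable {V : Type*} [DecidableEq V] {G : SimpleGraph V} [DecidableRel G.Adj]

theorem StarT.cl_e2c {k : ℕ} {Y T : Finset V} {r : V} (hS : StarT G k Y T r) :
    e2 Gᶜ T = 2 * (nb Gᶜ T r).card := by
  have h1 := e2c_insert (G := G) (Finset.notMem_erase r T)
  rw [Finset.insert_erase hS.hr, clq_e2c hS.clq] at h1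
  have h2 : nb Gᶜ (T.erase r) r = nb Gᶜ T r := by
    ext u
    rw [mem_nb, mem_nb, mem_erase]
    constructor
    · rintro ⟨h, h'⟩
      exact ⟨h.2, h'⟩
    · rintro ⟨h, h'⟩
      exact ⟨⟨fun e => Gᶜ.loopless.irrefl r (e ▸ h'), h⟩, h'⟩
  rw [h2] at h1
  omega

theorem StarT.cl_bd {k : ℕ} {Y T : Finset V} {r : V} (hk : k = 5 ∨ k = 6)
    (hS : StarT G k Y T r) (hd : ∀ v ∈ T, k - 1 ≤ (nb G Y v).card) :
    bd G Y T = exs G (k - 1) Y T + 2 * (nb Gᶜ T r).card := by
  have h1 := sum_deg' (G := G) hS.hT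
  have h2 := sum_ge (G := G) (Y := Y) (S := T) (k - 1) hd
  have h3 := e2_add_compl (G := G) T
  have h4 := hS.cl_e2c
  have h5 := hS.hc
  rcases hk with hk | hk
  · rw [hk] at h2 h5 ⊢
    rw [h5] at h2 h3
    omega
  · rw [hk] at h2 h5 ⊢
    rw [h5] at h2 h3
    omega

namespace ClD
variable {k : ℕ} {X Q Q' : Finset V} {y1 y2 y3 z z' : V}

section
variable (H : MC G k X) (hk : k = 5 ∨ k = 6) (D : ClD G k X Q Q' y1 y2 y3 z z')
include H hk D

theorem cT (Y : Finset V) (hY : Y = X \ clW Q Q' y1 y2 y3 z z') :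
    (nb G Y y2 ∪ nb G Y y3).card = k := by
  obtain ⟨h1, h2, h3, hp, -⟩ := D.ns H hk Y hY
  have h4 := D.T.tr23 H hk
  have hne := H.cl_sdne (D.T.hn H hk) (D.T.WX H hk)
  rw [← hY] at h4 hne
  have hYX : Y ⊆ X := by rw [hY]; exact Finset.sdiff_subset
  have h5 := H.tau0 hYX hne hp _ (Finset.union_subset (nb_sub _ _) (nb_sub _ _)) h4
  have h6 := Finset.card_union_le (nb G Y y2) (nb G Y y3)
  omega

theorem dAB (hb : ClAllBad G k X) (Y : Finset V) (hY : Y = X \ clW Q Q' y1 y2 y3 z z') :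
    ∀ v ∈ nb G Y y2 ∪ nb G Y y3, (nb G X v).card = k + 1 := by
  obtain ⟨h1, h2, h3, hp, k1, k2, k3, k4, k5⟩ := D.ns H hk Y hY
  have hc := D.cT H hk Y hY
  have hex := H.clEx hk D.T.C
  have hYX : Y ⊆ X := by rw [hY]; exact Finset.sdiff_subset
  have hYF : ∀ {v : V}, v ∈ Y → v ∈ X \ clF Q y1 y2 y3 := by
    intro v hv
    rw [hY, mem_sdiff, ClT.mem_clW] at hv
    rw [mem_sdiff, mem_clF]
    tauto
  have hYQ : ∀ {v : V}, v ∈ Y → v ∉ Q := by
    intro v hv
    rw [hY, mem_sdiff, ClT.mem_clW] at hv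
    tauto
  have hge : ∀ v ∈ nb G Y y2 ∪ nb G Y y3, k + 1 ≤ (nb G X v).card := by
    intro v hv
    rw [mem_union, mem_nb, mem_nb] at hv
    rcases hv with hv | hv
    · exact D.flip.clB H hk hb (hYX hv.1) (hYQ hv.1) hv.2
    · exact D.clB H hk hb (hYX hv.1) (hYQ hv.1) hv.2
  have hzF : z ∈ nb G (X \ clF Q y1 y2 y3) y2 := by
    refine mem_nb.2 ⟨mem_sdiff.2 ⟨D.T.C'.h2, ?_⟩, D.h22⟩
    rw [mem_clF]
    rintro (e | e | e | e)
    · exact D.T.C'.n12 e.symm
    · exact D.T.ne22 H hk e.symm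
    · exact D.T.sl.ne22 H hk e.symm
    · exact D.T.zQ H hk e
  have hzF' : z' ∈ nb G (X \ clF Q y1 y2 y3) y3 := by
    refine mem_nb.2 ⟨mem_sdiff.2 ⟨D.T.C'.h3, ?_⟩, D.h33⟩
    rw [mem_clF]
    rintro (e | e | e | e)
    · exact D.T.C'.n13 e.symm
    · exact D.T.sr.ne22 H hk e.symm
    · exact D.T.sl.sr.ne22 H hk e.symm
    · exact D.T.sr.zQ H hk e
  have hsub : ({z, z'} : Finset V) ∪ (nb G Y y2 ∪ nb G Y y3) ⊆ ClP.U G X Q y1 y2 y3 := by
    intro v hv
    unfold ClP.U
    rw [mem_union, mem_insert, mem_singleton, mem_union, mem_nb, mem_nb] at hv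
    rw [mem_union, mem_union]
    rcases hv with (rfl | rfl) | (h | h)
    · exact Or.inr (Or.inl hzF)
    · exact Or.inr (Or.inr hzF')
    · exact Or.inr (Or.inl (mem_nb.2 ⟨hYF h.1, h.2⟩))
    · exact Or.inr (Or.inr (mem_nb.2 ⟨hYF h.1, h.2⟩))
  have hdis : Disjoint ({z, z'} : Finset V) (nb G Y y2 ∪ nb G Y y3) := by
    rw [Finset.disjoint_left]
    intro v hv hv'
    rw [mem_insert, mem_singleton] at hv
    rw [mem_union, mem_nb, mem_nb] at hv'
    have h6 : v ∈ Y := hv'.elim (fun h => h.1) (fun h => h.1)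
    rw [hY, mem_sdiff, ClT.mem_clW] at h6
    rcases hv with rfl | rfl
    · tauto
    · tauto
  have h6 := exs_mono (G := G) (k := k) (X := X) hsub
  rw [cl_exs_union hdis] at h6
  have h7 : exs G k X {z, z'} = ((nb G X z).card - k) + ((nb G X z').card - k) := by
    unfold exs
    exact Finset.sum_pair D.T.C'.n23
  intro v hv
  have h8 := exs_erase (G := G) (k := k) (X := X) hv
  have h9 : ((nb G Y y2 ∪ nb G Y y3).erase v).card ≤
      exs G k X ((nb G Y y2 ∪ nb G Y y3).erase v) := by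
    rw [Finset.card_eq_sum_ones]
    unfold exs
    refine Finset.sum_le_sum fun w hw => ?_
    have := hge w (mem_erase.1 hw).2
    omega
  have h10 := Finset.card_erase_add_one hv
  have h11 := hge v hv
  have d2 := D.T.C.d2
  have d3 := D.T.C.d3
  omega

/-- the star transversal -/
theorem star (hb : ClAllBad G k X) (Y : Finset V) (hY : Y = X \ clW Q Q' y1 y2 y3 z z') :
    ∃ r ∈ nb G Y y2 ∪ nb G Y y3, StarT G k Y (nb G Y y2 ∪ nb G Y y3) r ∧
      (∀ v ∈ nb G Y y2 ∪ nb G Y y3, v ≠ r →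
        (nb G Y v).card + 1 = k ∧ v ∈ nb G Y z ∪ nb G Y z') ∧
      ps G k (Y \ (nb G Y y2 ∪ nb G Y y3)) ≤ 1 ∧
      (nb G Y r \ (nb G Y y2 ∪ nb G Y y3)).card + 1 = k ∧
      (((nb Gᶜ (nb G Y y2 ∪ nb G Y y3) r).card + 1 = k ∧ r ∈ nb G Y z ∪ nb G Y z') ∨
       ((nb Gᶜ (nb G Y y2 ∪ nb G Y y3) r).card + 2 = k ∧ r ∉ nb G Y z ∪ nb G Y z')) := by
  obtain ⟨h1, h2, h3, hp, k1, k2, k3, k4, k5⟩ := D.ns H hk Y hY
  have hc := D.cT H hk Y hY
  have hc2 := D.swap.cT H hk Y (by rw [← ClT.wswap]; exact hY)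
  have hd := D.dAB H hk hb Y hY
  have htr := D.T.tr23 H hk
  have hne := H.cl_sdne (D.T.hn H hk) (D.T.WX H hk)
  have hlL := fun {v : V} => D.T.leL H hk (v := v)
  have hlR := fun {v : V} => D.T.leR H hk (v := v)
  have hdv := fun {v : V} => D.T.degv H hk (v := v)
  have e0 := D.e0
  have hWX := D.T.WX H hk
  have hexW := D.T.exW H hk
  have hcW := D.T.cardW H hk
  have hsW := D.T.sumW H hk
  have m1 := (H.clMain hk D.T.C).2.1
  have m2 := (H.clMain hk D.T.C').2.1
  have hnQ := fun {q : V} (hq : q ∈ Q) {v : V} (hv : v ∈ X) (h : G.Adj q v) =>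
    D.T.nbQ H hk hq hv h
  have hnQ' := fun {q : V} (hq : q ∈ Q') {v : V} (hv : v ∈ X) (h : G.Adj q v) =>
    D.T.nbQ' H hk hq hv h
  obtain ⟨W, hW⟩ : ∃ W, W = clW Q Q' y1 y2 y3 z z' := ⟨_, rfl⟩
  rw [← hW] at hY htr hne hlL hlR hdv e0 hWX hexW hcW hsW hnQ hnQ'
  rw [← hY] at htr hne hlL hlR hdv e0
  have hYX : Y ⊆ X := by rw [hY]; exact Finset.sdiff_subset
  obtain ⟨T1, hT1⟩ : ∃ T, T = nb G Y y2 ∪ nb G Y y3 := ⟨_, rfl⟩
  obtain ⟨T2, hT2⟩ : ∃ T, T = nb G Y z ∪ nb G Y z' := ⟨_, rfl⟩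
  rw [← hT1] at hc hd htr ⊢
  rw [← hT2] at hc2 ⊢
  have hT1Y : T1 ⊆ Y := by rw [hT1]; exact Finset.union_subset (nb_sub _ _) (nb_sub _ _)
  have htau := H.tau0 hYX hne hp
  obtain ⟨r, hS⟩ := H.star8g hYX hne (by omega) htau hT1Y hc htr (Or.inl hp)
  -- degrees in `Y`
  have hdY : ∀ v ∈ T1, (v ∈ T2 → (nb G Y v).card + 1 = k) ∧ (v ∉ T2 → (nb G Y v).card = k) := by
    intro v hv
    have a1 := hlL (hT1Y hv)
    have a2 := hlR (hT1Y hv)
    have a3 := hdv (hT1Y hv)
    have a4 := hd v hv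
    have a5 : ¬ G.Adj v y1 := by
      intro h
      have : v ∈ nb G Y y1 := mem_nb.2 ⟨hT1Y hv, h.symm⟩
      rw [e0] at this
      simp at this
    rw [ad_zero a5] at a1 a2 a3
    have a6 : ad G v y2 + ad G v y3 = 1 := by
      rw [hT1, mem_union, mem_nb, mem_nb] at hv
      rcases hv with h | h
      · rw [ad_one h.2.symm] at a1 ⊢
        omega
      · rw [ad_one h.2.symm] at a1 ⊢
        omega
    constructor
    · intro h
      rw [hT2, mem_union, mem_nb, mem_nb] at h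
      rcases h with h | h
      · rw [ad_one h.2.symm] at a2 a3
        omega
      · rw [ad_one h.2.symm] at a2 a3
        omega
    · intro h
      rw [hT2, mem_union, mem_nb, mem_nb] at h
      push Not at h
      rw [ad_zero (fun e => h.1 (hT1Y hv) e.symm), ad_zero (fun e => h.2 (hT1Y hv) e.symm)] at a3
      omega
  have hfn := fun {l : V} (hl : l ∈ nb Gᶜ T1 r) => H.fn_star hYX hne hp hS hl
  have hT2of : ∀ v ∈ T1, (nb G Y v).card + 1 = k → v ∈ T2 := by
    intro v hv hv'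
    by_contra hcon
    have := (hdY v hv).2 hcon
    omega
  have hsdc := Finset.card_sdiff_add_card_inter T1 T2
  -- sparsity
  have hsp : k + 2 * (T1 ∩ T2).card ≤ 2 * (nb Gᶜ T1 r).card + 8 := by
    have hdis : Disjoint W T1 := by
      rw [Finset.disjoint_left]
      intro v hv hv'
      have h6 := hT1Y hv'
      rw [hY] at h6
      exact (mem_sdiff.1 h6).2 hv
    have hZX : W ∪ T1 ⊆ X := Finset.union_subset hWX (hT1Y.trans hYX)
    have hcZ : (W ∪ T1).card = W.card + T1.card := Finset.card_union_of_disjoint hdis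
    have b1 := H.sparse_bd hZX (by omega)
    have b2 : X \ (W ∪ T1) = Y \ T1 := by
      rw [hY]
      ext v
      rw [mem_sdiff, mem_union, mem_sdiff, mem_sdiff]
      tauto
    rw [cl_exs_union hdis, cl_bd_eq, b2, Finset.sum_union hdis,
      hsW (fun v => (nb G (Y \ T1) v).card)] at b1
    have b3 : exs G k X T1 = k := by
      unfold exs
      rw [Finset.sum_congr rfl (g := fun _ => 1) (fun v hv => by rw [hd v hv]; omega),
        ← Finset.card_eq_sum_ones, hc]
    have b4 : (nb G (Y \ T1) y1).card = 0 := by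
      rw [← cl_nb_sdiff, e0, Finset.card_eq_zero]
      exact Finset.empty_sdiff _
    have b5 : (nb G (Y \ T1) y2).card = 0 := by
      rw [← cl_nb_sdiff, Finset.card_eq_zero, Finset.sdiff_eq_empty_iff_subset, hT1]
      exact Finset.subset_union_left
    have b6 : (nb G (Y \ T1) y3).card = 0 := by
      rw [← cl_nb_sdiff, Finset.card_eq_zero, Finset.sdiff_eq_empty_iff_subset, hT1]
      exact Finset.subset_union_right
    have b7 : ∑ v ∈ Q, (nb G (Y \ T1) v).card = 0 := by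
      rw [Finset.sum_eq_zero_iff]
      intro v hv
      rw [Finset.card_eq_zero, Finset.eq_empty_iff_forall_notMem]
      intro w hw
      have h6 := mem_nb.1 hw
      have h7 := (mem_sdiff.1 h6.1).1
      rw [hY] at h7
      exact (mem_sdiff.1 h7).2 (hnQ hv (mem_sdiff.1 h7).1 h6.2)
    have b8 : ∑ v ∈ Q', (nb G (Y \ T1) v).card = 0 := by
      rw [Finset.sum_eq_zero_iff]
      intro v hv
      rw [Finset.card_eq_zero, Finset.eq_empty_iff_forall_notMem]
      intro w hw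
      have h6 := mem_nb.1 hw
      have h7 := (mem_sdiff.1 h6.1).1
      rw [hY] at h7
      exact (mem_sdiff.1 h7).2 (hnQ' hv (mem_sdiff.1 h7).1 h6.2)
    have b9 : ∑ v ∈ T1, (nb G (Y \ T1) v).card = bd G Y T1 := (cl_bd_eq Y T1).symm
    have b10 := hS.cl_bd hk (fun v hv => by
      have := htau.deg (hT1Y hv)
      omega)
    have b11 : exs G (k - 1) Y T1 ≤ (T1 \ T2).card := by
      rw [Finset.card_eq_sum_ones]
      have b12 : exs G (k - 1) Y T1 = exs G (k - 1) Y (T1 \ T2) + exs G (k - 1) Y (T1 ∩ T2) := by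
        rw [← cl_exs_union (Finset.disjoint_sdiff_inter T1 T2), Finset.sdiff_union_inter]
      have b13 : exs G (k - 1) Y (T1 ∩ T2) = 0 := by
        unfold exs
        rw [Finset.sum_eq_zero_iff]
        intro v hv
        have h6 := mem_inter.1 hv
        have := (hdY v h6.1).1 h6.2
        omega
      rw [b12, b13, add_zero]
      unfold exs
      refine Finset.sum_le_sum fun v hv => ?_
      have h6 := mem_sdiff.1 hv
      have := (hdY v h6.1).2 h6.2
      omega
    have b14 : (nb G (Y \ T1) z).card + (nb G (Y \ T1) z').card + (T1 ∩ T2).card ≤ k := by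
      rw [← cl_nb_sdiff, ← cl_nb_sdiff]
      have h6 := Finset.card_sdiff_add_card_inter (nb G Y z) T1
      have h7 := Finset.card_sdiff_add_card_inter (nb G Y z') T1
      have h8 := Finset.card_union_le (nb G Y z ∩ T1) (nb G Y z' ∩ T1)
      have h9 : T1 ∩ T2 ⊆ (nb G Y z ∩ T1) ∪ (nb G Y z' ∩ T1) := by
        intro v hv
        rw [mem_inter, hT2, mem_union] at hv
        rw [mem_union, mem_inter, mem_inter]
        tauto
      have h10 := Finset.card_le_card h9
      omega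
    omega
  have hq : (nb Gᶜ T1 r).card + 1 ≤ k := by
    have h6 : nb Gᶜ T1 r ⊆ T1.erase r := by
      intro u hu
      have h7 := mem_nb.1 hu
      exact mem_erase.2 ⟨fun e => Gᶜ.loopless.irrefl r (e ▸ h7.2), h7.1⟩
    have h8 := Finset.card_le_card h6
    have h9 := Finset.card_erase_add_one hS.hr
    omega
  obtain ⟨l, hl⟩ := Finset.card_pos.1 hS.miss
  have ht2 : k ≤ (T1 ∩ T2).card + 2 := by
    have h6 : T1 \ T2 ⊆ {r, l} := by
      intro v hv
      rw [mem_sdiff] at hv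
      rw [mem_insert, mem_singleton]
      by_contra hcon
      push Not at hcon
      exact hv.2 (hT2of v hv.1 (hfn hl v hv.1 hcon.1 hcon.2))
    have h7 := Finset.card_le_card h6
    have h8 := Finset.card_le_two (a := r) (b := l)
    omega
  obtain ⟨l', hl', hll⟩ := Finset.exists_mem_ne (s := nb Gᶜ T1 r) (by omega) l
  have hall : ∀ v ∈ T1, v ≠ r → (nb G Y v).card + 1 = k := by
    intro v hv hvr
    by_cases e : v = l
    · rw [e] at hv hvr ⊢
      exact hfn hl' l hv hvr (Ne.symm hll)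
    · exact hfn hl v hv hvr e
  have hE : exs G (k - 1) Y (T1.erase r) = 0 := by
    unfold exs
    rw [Finset.sum_eq_zero_iff]
    intro v hv
    have h6 := mem_erase.1 hv
    have := hall v h6.2 h6.1
    omega
  have hpsT := hS.psT
  rw [hE] at hpsT
  have hps0 := H.ps_sub hYX hne T1
  have hds := deg_split (G := G) hT1Y hS.hr
  rw [hc] at hds
  have ht1 : k ≤ (T1 ∩ T2).card + 1 := by
    have h6 : T1 \ T2 ⊆ {r} := by
      intro v hv
      rw [mem_sdiff] at hv
      rw [mem_singleton]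
      by_contra hcon
      exact hv.2 (hT2of v hv.1 (hall v hv.1 hcon))
    have h7 := Finset.card_le_card h6
    rw [Finset.card_singleton] at h7
    omega
  refine ⟨r, hS.hr, hS, fun v hv hvr => ⟨hall v hv hvr, hT2of v hv (hall v hv hvr)⟩, ?_⟩
  by_cases hr2 : r ∈ T2
  · have h6 : T1 ⊆ T2 := by
      intro v hv
      by_cases e : v = r
      · rw [e]
        exact hr2
      · exact hT2of v hv (hall v hv e)
    have h7 : (T1 ∩ T2).card = k := by
      rw [Finset.inter_eq_left.2 h6, hc]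
    have h8 := (hdY r hS.hr).1 hr2
    refine ⟨by omega, by omega, Or.inl ⟨by omega, hr2⟩⟩
  · have h8 := (hdY r hS.hr).2 hr2
    refine ⟨by omega, by omega, Or.inr ⟨by omega, hr2⟩⟩

end

end ClD

end Pool.Agent.TwoDens.TS
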