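import Pool.Agent.TwoDens.DDE

/-!
The inequality `2 e ≥ (4 k - 2) n - (3 k ^ 2 - 3 k + 2) α` for sparse graphs, all `k ≥ 4`:
definitions and first properties (independence number, potential, transversals).
-/

open Finset

namespace Pool.Agent.TwoDens.TS

open Pool.Agent.TwoDens Pool.Agent.TwoDens.RK Pool.Agent.TwoDens.DD

variable {V : Type*} [DecidableEq V]

/-- the independence number of `X` -/
noncomputable def al (G : SimpleGraph V) (X : Finset V) : ℕ := by
  classical
  exact (X.powerset.filter (fun I : Finset V => G.IsIndepSet (I : Set V))).sup Finset.card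

/-- the potential `κ α - c n + 2 e` -/
noncomputable def ps (G : SimpleGraph V) [DecidableRel G.Adj] (k : ℕ) (X : Finset V) : ℤ :=
  (3 * (k : ℤ) ^ 2 - 3 * k + 2) * (al G X : ℤ) - (4 * (k : ℤ) - 2) * (X.card : ℤ) + (e2 G X : ℤ)

/-- a minimal counterexample to `0 ≤ ps` -/
structure MC (G : SimpleGraph V) [DecidableRel G.Adj] (k : ℕ) (X : Finset V) : Prop where
  hk : 4 ≤ k
  hS : Sk G k X
  hneg : ps G k X < 0
  hmin : ∀ Y ⊆ X, Y ≠ X → 0 ≤ ps G k Y

/-- `S` meets every maximum independent set of `Y` -/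
def Tr (G : SimpleGraph V) (Y S : Finset V) : Prop := al G (Y \ S) < al G Y

/-- every transversal of `Y` has at least `t` elements -/
def TauGe (G : SimpleGraph V) (Y : Finset V) (t : ℕ) : Prop :=
  ∀ S ⊆ Y, Tr G Y S → t ≤ S.card

/-- clique -/
def Clq (G : SimpleGraph V) (S : Finset V) : Prop := ∀ a ∈ S, ∀ b ∈ S, a ≠ b → G.Adj a b

/-- number of edges of `Y` leaving `S ⊆ Y` -/
def bd (G : SimpleGraph V) [DecidableRel G.Adj] (Y S : Finset V) : ℕ :=
  ∑ v ∈ S, (nb G Y v \ S).card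

/-- total excess of the degrees (in `Y`) over `d` -/
def exs (G : SimpleGraph V) [DecidableRel G.Adj] (d : ℕ) (Y S : Finset V) : ℕ :=
  ∑ v ∈ S, ((nb G Y v).card - d)

section al
variable {G : SimpleGraph V}

theorem le_al {X I : Finset V} (hI : I ⊆ X) (hi : G.IsIndepSet (I : Set V)) :
    I.card ≤ al G X := by
  classical
  unfold al
  exact Finset.le_sup (f := Finset.card) (mem_filter.2 ⟨mem_powerset.2 hI, hi⟩)

theorem al_le {X : Finset V} {a : ℕ}
    (h : ∀ I ⊆ X, G.IsIndepSet (I : Set V) → I.card ≤ a) : al G X ≤ a := by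
  classical
  unfold al
  refine Finset.sup_le ?_
  intro I hI
  rw [mem_filter, mem_powerset] at hI
  exact h I hI.1 hI.2

theorem exists_al (X : Finset V) :
    ∃ I ⊆ X, G.IsIndepSet (I : Set V) ∧ I.card = al G X := by
  classical
  have key : ∃ I ∈ X.powerset.filter (fun I : Finset V => G.IsIndepSet (I : Set V)),
      al G X = I.card := by
    unfold al
    exact Finset.exists_mem_eq_sup _ ⟨∅, by simp [SimpleGraph.IsIndepSet]⟩ _
  obtain ⟨I, hI, h⟩ := key
  rw [mem_filter, mem_powerset] at hI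
  exact ⟨I, hI.1, hI.2, h.symm⟩

omit [DecidableEq V] in
theorem indep_mono {I J : Finset V} (h : G.IsIndepSet (J : Set V)) (hI : I ⊆ J) :
    G.IsIndepSet (I : Set V) := by
  intro x hx y hy hxy
  exact h (hI hx) (hI hy) hxy

theorem al_mono {X Y : Finset V} (h : X ⊆ Y) : al G X ≤ al G Y :=
  al_le fun _ hI hi => le_al (hI.trans h) hi

theorem al_union_le (X Y : Finset V) : al G (X ∪ Y) ≤ al G X + al G Y := by
  refine al_le fun I hI hi => ?_
  have h1 : I ⊆ (I ∩ X) ∪ (I ∩ Y) := by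
    intro z hz
    have h2 := hI hz
    rw [mem_union] at h2
    rw [mem_union, mem_inter, mem_inter]
    rcases h2 with h2 | h2
    · exact Or.inl ⟨hz, h2⟩
    · exact Or.inr ⟨hz, h2⟩
  have h2 := Finset.card_le_card h1
  have h3 := Finset.card_union_le (I ∩ X) (I ∩ Y)
  have h4 := le_al (G := G) (X := X) (I := I ∩ X) Finset.inter_subset_right
    (indep_mono hi Finset.inter_subset_left)
  have h5 := le_al (G := G) (X := Y) (I := I ∩ Y) Finset.inter_subset_right
    (indep_mono hi Finset.inter_subset_left)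
  omega

theorem al_le_card (X : Finset V) : al G X ≤ X.card :=
  al_le fun _ hI _ => Finset.card_le_card hI

theorem al_empty : al G (∅ : Finset V) = 0 := by
  have := al_le_card (G := G) (∅ : Finset V)
  simpa using this

theorem al_pos {X : Finset V} (h : X.Nonempty) : 1 ≤ al G X := by
  obtain ⟨v, hv⟩ := h
  have := le_al (G := G) (X := X) (I := {v}) (by simpa using hv) (indep_singleton v)
  simpa using this

theorem al_clq {X : Finset V} (h : Clq G X) : al G X ≤ 1 := by
  refine al_le fun I hI hi => ?_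
  rw [Finset.card_le_one]
  intro a ha b hb
  by_contra hne
  exact hi ha hb hne (h a (hI ha) b (hI hb) hne)

/-- union of independent sets without edges between them -/
theorem indep_union {I J : Finset V} (hI : G.IsIndepSet (I : Set V))
    (hJ : G.IsIndepSet (J : Set V)) (h : ∀ x ∈ I, ∀ y ∈ J, ¬ G.Adj x y) :
    G.IsIndepSet ((I ∪ J : Finset V) : Set V) := by
  intro x hx y hy hxy
  rw [Finset.mem_coe, mem_union] at hx hy
  rcases hx with hx | hx <;> rcases hy with hy | hy
  · exact hI hx hy hxy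
  · exact h x hx y hy
  · exact fun h' => h y hy x hx h'.symm
  · exact hJ hx hy hxy

theorem indep_insert {I : Finset V} {v : V} (hI : G.IsIndepSet (I : Set V))
    (h : ∀ x ∈ I, ¬ G.Adj v x) : G.IsIndepSet ((insert v I : Finset V) : Set V) := by
  intro x hx y hy hxy
  rw [Finset.mem_coe, mem_insert] at hx hy
  rcases hx with rfl | hx <;> rcases hy with rfl | hy
  · exact absurd rfl hxy
  · exact h y hy
  · exact fun h' => h x hx h'.symm
  · exact hI hx hy hxy

end al

section trans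
variable {G : SimpleGraph V}

theorem al_sdiff_le (Y S : Finset V) : al G (Y \ S) ≤ al G Y := al_mono Finset.sdiff_subset

theorem al_le_sdiff (Y S : Finset V) : al G Y ≤ al G (Y \ S) + al G (Y ∩ S) := by
  have h1 : Y = (Y \ S) ∪ (Y ∩ S) := by rw [Finset.sdiff_union_inter]
  calc al G Y = al G ((Y \ S) ∪ (Y ∩ S)) := by rw [← h1]
    _ ≤ _ := al_union_le _ _

theorem not_tr {Y S : Finset V} (h : ¬ Tr G Y S) :
    ∃ I ⊆ Y, G.IsIndepSet (I : Set V) ∧ Disjoint I S ∧ I.card = al G Y := by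
  unfold Tr at h
  push Not at h
  obtain ⟨I, hI, hi, hc⟩ := exists_al (G := G) (Y \ S)
  refine ⟨I, hI.trans Finset.sdiff_subset, hi, ?_, ?_⟩
  · rw [Finset.disjoint_left]
    intro x hx hx'
    exact (mem_sdiff.1 (hI hx)).2 hx'
  · have := al_sdiff_le (G := G) Y S
    omega

theorem tr_of {Y S : Finset V} (h : ∀ I ⊆ Y, G.IsIndepSet (I : Set V) → Disjoint I S →
    I.card < al G Y) : Tr G Y S := by
  unfold Tr
  obtain ⟨I, hI, hi, hc⟩ := exists_al (G := G) (Y \ S)
  rw [← hc]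
  refine h I (hI.trans Finset.sdiff_subset) hi ?_
  rw [Finset.disjoint_left]
  intro x hx hx'
  exact (mem_sdiff.1 (hI hx)).2 hx'

theorem Tr.lt {Y S I : Finset V} (h : Tr G Y S) (hI : I ⊆ Y) (hi : G.IsIndepSet (I : Set V))
    (hd : Disjoint I S) : I.card < al G Y := by
  refine lt_of_le_of_lt (le_al (X := Y \ S) ?_ hi) h
  intro x hx
  exact mem_sdiff.2 ⟨hI hx, fun h' => (Finset.disjoint_left.1 hd) hx h'⟩

theorem tr_mono {Y S T : Finset V} (h : Tr G Y S) (hST : S ∩ Y ⊆ T) : Tr G Y T := by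
  refine tr_of fun I hI hi hd => h.lt hI hi ?_
  rw [Finset.disjoint_left] at hd ⊢
  intro x hx hx'
  exact hd hx (hST (mem_inter.2 ⟨hx', hI hx⟩))

/-- a set of `j` independent vertices whose closed neighbourhoods lie in `S` -/
theorem al_closed {Y S J : Finset V} (hJ : J ⊆ Y) (hJS : J ⊆ S) (hi : G.IsIndepSet (J : Set V))
    (hcl : ∀ z ∈ J, ∀ w ∈ Y, G.Adj z w → w ∈ S) : al G (Y \ S) + J.card ≤ al G Y := by
  obtain ⟨I, hI, hIi, hc⟩ := exists_al (G := G) (Y \ S)
  have hd : Disjoint I J := by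
    rw [Finset.disjoint_left]
    intro x hx hx'
    exact (mem_sdiff.1 (hI hx)).2 (hJS hx')
  have h1 := le_al (G := G) (X := Y) (I := I ∪ J)
    (Finset.union_subset (hI.trans Finset.sdiff_subset) hJ)
    (indep_union hIi hi (fun x hx y hy h => (mem_sdiff.1 (hI hx)).2
      (hcl y hy x (mem_sdiff.1 (hI hx)).1 h.symm)))
  rw [Finset.card_union_of_disjoint hd] at h1
  omega

/-- if independent `J` outside `Y` together with `Y` lies in `X` and `|J| + al Y > al X` then the
neighbours of `J` form a transversal of `Y` -/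
theorem tr_nbr {X Y J S : Finset V} (hY : Y ⊆ X) (hJ : J ⊆ X) (hd : Disjoint J Y)
    (hi : G.IsIndepSet (J : Set V)) (hc : al G X < J.card + al G Y)
    (hS : ∀ z ∈ J, ∀ w ∈ Y, G.Adj z w → w ∈ S) : Tr G Y S := by
  refine tr_of fun I hI hIi hIS => ?_
  have h1 := le_al (G := G) (X := X) (I := J ∪ I) (Finset.union_subset hJ (hI.trans hY))
    (indep_union hi hIi (fun x hx y hy h => (Finset.disjoint_left.1 hIS) hy
      (hS x hx y (hI hy) h)))
  rw [Finset.card_union_of_disjoint (hd.mono_right hI)] at h1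
  omega

end trans

section pot
variable {G : SimpleGraph V} [DecidableRel G.Adj]

theorem ps_empty (k : ℕ) : ps G k (∅ : Finset V) = 0 := by
  unfold ps
  rw [al_empty, Finset.card_empty]
  simp [e2]

theorem ps_sdiff (k : ℕ) {Y S : Finset V} (hS : S ⊆ Y) :
    ps G k (Y \ S) + (3 * (k : ℤ) ^ 2 - 3 * k + 2) * ((al G Y : ℤ) - al G (Y \ S)) +
      2 * ((∑ v ∈ S, (nb G Y v).card : ℕ) : ℤ) =
    ps G k Y + (4 * (k : ℤ) - 2) * S.card + e2 G S := by
  have h1 := e2_sdiff (G := G) hS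
  have h2 : ((Y \ S).card : ℤ) + S.card = Y.card := by
    exact_mod_cast Finset.card_sdiff_add_card_eq_card hS
  have h3 : (e2 G Y : ℤ) + e2 G S = e2 G (Y \ S) + 2 * ((∑ v ∈ S, (nb G Y v).card : ℕ) : ℤ) := by
    exact_mod_cast h1
  unfold ps
  rw [← h2]
  linarith

theorem ps_even (k : ℕ) (X : Finset V) : ∃ m : ℤ, ps G k X = 2 * m := by
  obtain ⟨h, hh⟩ := e2_even (G := G) X
  unfold ps
  rw [hh]
  obtain ⟨m, hm⟩ : ∃ m : ℤ, (3 * (k : ℤ) ^ 2 - 3 * k + 2) = 2 * m := by
    have h1 : (2 : ℤ) ∣ (k : ℤ) * (k - 1) := by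
      rcases Int.even_or_odd (k : ℤ) with h | h
      · exact Dvd.dvd.mul_right h.two_dvd _
      · exact Dvd.dvd.mul_left (h.sub_odd odd_one).two_dvd _
    obtain ⟨t, ht⟩ := h1
    exact ⟨3 * t + 1, by linarith⟩
  refine ⟨m * al G X - (2 * (k : ℤ) - 1) * X.card + h, ?_⟩
  rw [hm]
  push_cast
  ring

theorem sum_deg' {Y S : Finset V} (hS : S ⊆ Y) :
    ∑ v ∈ S, (nb G Y v).card = e2 G S + bd G Y S := sum_deg hS

omit [DecidableEq V] in
theorem sum_ge {Y S : Finset V} (d : ℕ) (h : ∀ v ∈ S, d ≤ (nb G Y v).card) :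
    ∑ v ∈ S, (nb G Y v).card = d * S.card + exs G d Y S := by
  unfold exs
  rw [mul_comm, ← smul_eq_mul, ← Finset.sum_const, ← Finset.sum_add_distrib]
  refine Finset.sum_congr rfl fun v hv => ?_
  have := h v hv
  omega

theorem clq_e2 {S : Finset V} (h : Clq G S) : e2 G S + S.card = S.card * S.card := by
  have h1 := e2_add_compl (G := G) S
  have h2 : e2 Gᶜ S = 0 := by
    rw [e2_eq, Finset.sum_eq_zero_iff]
    intro x hx
    rw [Finset.card_eq_zero, Finset.eq_empty_iff_forall_notMem]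
    intro y hy
    have h3 := mem_nb.1 hy
    have h4 := (SimpleGraph.compl_adj _ _ _).1 h3.2
    exact h4.2 (h x hx y h3.1 h4.1)
  omega

theorem clq_of_e2 {S : Finset V} (h : e2 Gᶜ S = 0) : Clq G S := by
  intro x hx y hy hxy
  rw [e2_eq, Finset.sum_eq_zero_iff] at h
  have h1 := h x hx
  rw [Finset.card_eq_zero, Finset.eq_empty_iff_forall_notMem] at h1
  by_contra hn
  exact h1 y (mem_nb.2 ⟨hy, (SimpleGraph.compl_adj _ _ _).2 ⟨hxy, hn⟩⟩)

/-- the basic inequality for the removal of `S` from `Y` -/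
theorem MC.gen {k : ℕ} {X : Finset V} (H : MC G k X) {Y S : Finset V} (hY : Y ⊆ X)
    (hS : S ⊆ Y) (hne : Y ≠ X ∨ S.Nonempty) {j : ℕ} (hj : al G (Y \ S) + j ≤ al G Y) :
    2 * ((∑ v ∈ S, (nb G Y v).card : ℕ) : ℤ) + (3 * (k : ℤ) ^ 2 - 3 * k + 2) * j ≤
      ps G k Y + (4 * (k : ℤ) - 2) * S.card + e2 G S := by
  have h1 := ps_sdiff (G := G) k hS
  have h2 : Y \ S ≠ X := by
    intro h
    rcases hne with h3 | ⟨v, hv⟩
    · exact h3 (Finset.Subset.antisymm hY (h ▸ Finset.sdiff_subset))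
    · have h4 : v ∈ X := hY (hS hv)
      rw [← h] at h4
      exact (mem_sdiff.1 h4).2 hv
  have h3 := H.hmin (Y \ S) (Finset.sdiff_subset.trans hY) h2
  have h4 : (j : ℤ) ≤ (al G Y : ℤ) - al G (Y \ S) := by
    have : (al G (Y \ S) : ℤ) + j ≤ al G Y := by exact_mod_cast hj
    linarith
  have h5 : (0 : ℤ) ≤ 3 * (k : ℤ) ^ 2 - 3 * k + 2 := by
    have : (4 : ℤ) ≤ k := by exact_mod_cast H.hk
    nlinarith
  have h6 := mul_le_mul_of_nonneg_left h4 h5
  linarith

theorem MC.ps_le {k : ℕ} {X : Finset V} (H : MC G k X) : ps G k X ≤ -2 := by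
  obtain ⟨m, hm⟩ := ps_even (G := G) k X
  have := H.hneg
  omega

theorem MC.ne {k : ℕ} {X : Finset V} (H : MC G k X) : X.Nonempty := by
  rw [Finset.nonempty_iff_ne_empty]
  rintro rfl
  have := H.hneg
  rw [ps_empty] at this
  exact lt_irrefl _ this

end pot

end Pool.Agent.TwoDens.TS
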