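import Pool.Agent.TKS.Defs

/-!
The minimum degree of a minimal counterexample is at least `k`.
-/

open Finset

namespace Pool.Agent.TwoDens.TS

open Pool.Agent.TwoDens Pool.Agent.TwoDens.RK Pool.Agent.TwoDens.DD

variable {V : Type*} [DecidableEq V] {G : SimpleGraph V} [DecidableRel G.Adj]

section
variable {k : ℕ} {X : Finset V} (H : MC G k X)
include H

/-- removal of a set containing the closed neighbourhoods of an independent set -/
theorem MC.star {S J : Finset V} (hS : S ⊆ X) (hJ : J ⊆ S) (hJn : J.Nonempty)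
    (hi : G.IsIndepSet (J : Set V)) (hcl : ∀ z ∈ J, nb G X z ⊆ S) :
    2 * ((∑ v ∈ S, (nb G X v).card : ℕ) : ℤ) + (3 * (k : ℤ) ^ 2 - 3 * k + 2) * J.card + 2 ≤
      (4 * (k : ℤ) - 2) * S.card + e2 G S := by
  have h1 := al_closed (G := G) (Y := X) (S := S) (J := J) (hJ.trans hS) hJ hi
    (fun z hz w hw h => hcl z hz (mem_nb.2 ⟨hw, h⟩))
  have h2 := H.gen (Y := X) (S := S) (Finset.Subset.refl X) hS (Or.inr (hJn.mono hJ)) h1
  have h3 := H.ps_le
  linarith

/-- a lower bound for the size of a set with closed neighbourhoods -/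
theorem MC.big {δ : ℕ} (hδ : ∀ v ∈ X, δ ≤ (nb G X v).card) (hδk : δ ≤ k) {B J : Finset V}
    (hB : B ⊆ X) (hJ : J ⊆ B) (hJn : J.Nonempty) (hi : G.IsIndepSet (J : Set V)) :
    (3 * (k : ℤ) ^ 2 - 3 * k + 2) * J.card + 2 ≤
      (4 * (k : ℤ) - 2 - δ) * (B.card + ((∑ z ∈ J, (nb G X z \ B).card : ℕ) : ℤ)) := by
  set W := B ∪ J.biUnion (fun z => nb G X z \ B) with hW
  have hWX : W ⊆ X := by
    refine Finset.union_subset hB ?_
    intro w hw
    rw [Finset.mem_biUnion] at hw
    obtain ⟨z, _, h⟩ := hw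
    exact (mem_nb.1 (mem_sdiff.1 h).1).1
  have h1 := H.star (S := W) (J := J) hWX (hJ.trans Finset.subset_union_left) hJn hi (by
    intro z hz w hw
    by_cases h : w ∈ B
    · exact mem_union_left _ h
    · exact mem_union_right _ (Finset.mem_biUnion.2 ⟨z, hz, mem_sdiff.2 ⟨hw, h⟩⟩))
  have h2 := sum_deg' (G := G) hWX
  have h3 := sum_ge (G := G) (Y := X) (S := W) δ (fun v hv => hδ v (hWX hv))
  have h4 : W.card ≤ B.card + ∑ z ∈ J, (nb G X z \ B).card :=
    (Finset.card_union_le _ _).trans (Nat.add_le_add_left Finset.card_biUnion_le _)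
  have h5 : (W.card : ℤ) ≤ B.card + ((∑ z ∈ J, (nb G X z \ B).card : ℕ) : ℤ) := by
    exact_mod_cast h4
  have h6 : (0 : ℤ) ≤ 4 * (k : ℤ) - 2 - δ := by
    have : (4 : ℤ) ≤ k := by exact_mod_cast H.hk
    have : (δ : ℤ) ≤ k := by exact_mod_cast hδk
    linarith
  have h7 := mul_le_mul_of_nonneg_left h5 h6
  have h8 : ((∑ v ∈ W, (nb G X v).card : ℕ) : ℤ) = e2 G W + bd G X W := by exact_mod_cast h2
  have h9 : ((∑ v ∈ W, (nb G X v).card : ℕ) : ℤ) = δ * W.card + exs G δ X W := by
    exact_mod_cast h3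
  have h10 : (0 : ℤ) ≤ bd G X W := Int.natCast_nonneg _
  have h11 : (0 : ℤ) ≤ exs G δ X W := Int.natCast_nonneg _
  linarith

theorem MC.deg_aux {v : V} (hv : v ∈ X) (hm : ∀ u ∈ X, (nb G X v).card ≤ (nb G X u).card) :
    k ≤ (nb G X v).card := by
  by_contra hcon
  push Not at hcon
  have hk := H.hk
  have hF := cl_sub (G := G) hv
  have hFc := card_cl (G := G) (X := X) (v := v)
  obtain ⟨d, hd⟩ : ∃ d, (nb G X v).card = d := ⟨_, rfl⟩
  rw [hd] at hcon hFc hm
  set F := cl G X v with hFdef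
  have hvF : v ∈ F := Finset.mem_insert_self _ _
  have hnbF : nb G X v ⊆ F := Finset.subset_insert _ _
  have hs := H.star (S := F) (J := {v}) hF (by simpa using hvF) ⟨v, by simp⟩
    (indep_singleton v) (by
    intro z hz
    rw [mem_singleton] at hz
    rw [hz]
    exact hnbF)
  rw [Finset.card_singleton, hFc] at hs
  have hsum := sum_deg (G := G) hF
  have hlow : d * (d + 1) ≤ ∑ u ∈ F, (nb G X u).card := by
    rw [mul_comm, ← hFc, ← smul_eq_mul, ← Finset.sum_const]
    exact Finset.sum_le_sum fun u hu => hm u (hF hu)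
  have hcomp := e2_add_compl (G := G) F
  obtain ⟨D, hD⟩ : ∃ D, ∑ u ∈ F, (nb G X u).card = D := ⟨_, rfl⟩
  rw [hD] at hs hsum hlow
  rcases Nat.lt_or_ge d (k - 1) with hdk | hdk
  · -- degree at most k - 2
    obtain ⟨t, rfl⟩ : ∃ t, k = d + 2 + t := ⟨k - 2 - d, by omega⟩
    have h1 : (e2 G F : ℤ) ≤ D := by exact_mod_cast (by omega : e2 G F ≤ D)
    have h2 : ((d : ℤ) * (d + 1)) ≤ D := by exact_mod_cast hlow
    push_cast at hs
    linarith [Nat.zero_le t, Nat.zero_le d, mul_nonneg (Int.natCast_nonneg t) (Int.natCast_nonneg d),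
      mul_nonneg (Int.natCast_nonneg t) (Int.natCast_nonneg t)]
  · -- degree k - 1
    have hdk' : k = d + 1 := by omega
    subst hdk'
    obtain ⟨h, hh⟩ := e2_even (G := Gᶜ) F
    rw [hh, hFc] at hcomp
    have h1 : (e2 G F : ℤ) + 2 * h + (d + 1) = (d + 1) * (d + 1) := by exact_mod_cast hcomp
    push_cast at hs
    have h2 : (D : ℤ) + h + 1 ≤ d * (d + 1) + d := by linarith
    have h2' : D + h + 1 ≤ d * (d + 1) + d := by exact_mod_cast h2
    obtain ⟨x, hx, y, hy, hxy, hn⟩ := exists_missing (by omega : 3 ≤ d + 1) H.hS hF (by omega)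
    have h5 := deg_split (G := G) hF hx
    have h6 := deg_split (G := G) hF hy
    have hS2 : ({x, y} : Finset V) ⊆ F := by
      intro z hz
      rw [mem_insert, mem_singleton] at hz
      rcases hz with rfl | rfl
      · exact hx
      · exact hy
    have h7 := e2_sdiff (G := Gᶜ) hS2
    rw [sum_pair' hxy, hh] at h7
    have h8 := e2_pair_le (G := G) hxy
    have h9 : (nb G X x).card + (nb G X y).card + d * (d - 1) ≤ D := by
      rw [← hD, ← Finset.sum_sdiff hS2, sum_pair' hxy]
      have h10 : (d - 1) * d ≤ ∑ u ∈ F \ {x, y}, (nb G X u).card := by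
        have h11 : (F \ {x, y}).card = d - 1 := by
          rw [Finset.card_sdiff_of_subset hS2, Finset.card_pair hxy, hFc]
          omega
        rw [← h11, ← smul_eq_mul, ← Finset.sum_const]
        exact Finset.sum_le_sum fun u hu => hm u (hF (Finset.sdiff_subset hu))
      linarith
    have h12 := Finset.card_union_le (nb G X x \ F) (nb G X y \ F)
    obtain ⟨m, rfl⟩ : ∃ m, d = m + 1 := ⟨d - 1, by omega⟩
    rw [hFc] at h5 h6
    have h13 : (m + 1) * (m + 1 - 1) = (m + 1) * m := by simp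
    rw [h13] at h9
    have h17 : (m + 1) * (m + 1 + 1) = (m + 1) * m + 2 * (m + 1) := by ring
    obtain ⟨T, hT⟩ : ∃ T, T = (nb G X x \ F) ∪ (nb G X y \ F) := ⟨_, rfl⟩
    rw [← hT] at h12
    have hTle : T.card ≤ m + 1 := by omega
    have hTX : T ⊆ X := by
      rw [hT]
      exact Finset.union_subset (Finset.sdiff_subset.trans (Finset.filter_subset _ _))
        (Finset.sdiff_subset.trans (Finset.filter_subset _ _))
    have hdis : Disjoint F T := by
      rw [Finset.disjoint_left]
      intro u hu hu'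
      rw [hT, mem_union, mem_sdiff, mem_sdiff] at hu'
      rcases hu' with h | h
      · exact h.2 hu
      · exact h.2 hu
    have hWc : (F ∪ T).card = m + 1 + 1 + T.card := by
      rw [Finset.card_union_of_disjoint hdis, hFc]
    have hWX : F ∪ T ⊆ X := Finset.union_subset hF hTX
    have hclW : ∀ z ∈ ({x, y} : Finset V), nb G X z ⊆ F ∪ T := by
      intro z hz w hw
      rw [mem_insert, mem_singleton] at hz
      by_cases hwF : w ∈ F
      · exact mem_union_left _ hwF
      · refine mem_union_right _ ?_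
        rw [hT]
        rcases hz with rfl | rfl
        · exact mem_union_left _ (mem_sdiff.2 ⟨hw, hwF⟩)
        · exact mem_union_right _ (mem_sdiff.2 ⟨hw, hwF⟩)
    have hout : ∀ z ∈ ({x, y} : Finset V), nb G X z \ (F ∪ T) = ∅ := by
      intro z hz
      rw [Finset.sdiff_eq_empty_iff_subset]
      exact hclW z hz
    have h20 := H.big (δ := m + 1) hm (by omega) (B := F ∪ T) (J := {x, y}) hWX (by
      intro z hz
      exact mem_union_left _ (hS2 hz)) ⟨x, by simp⟩ (indep_pair hn)
    rw [sum_pair' hxy, hout x (by simp), hout y (by simp), Finset.card_pair hxy, hWc] at h20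
    simp only [Finset.card_empty] at h20
    push_cast at h20
    have hTge : m + 1 ≤ T.card := by
      by_contra hlt
      push Not at hlt
      have h21 : (T.card : ℤ) ≤ m := by exact_mod_cast (by omega : T.card ≤ m)
      linarith [Int.natCast_nonneg m, mul_le_mul_of_nonneg_left h21 (Int.natCast_nonneg m)]
    have hTc : T.card = m + 1 := le_antisymm hTle hTge
    have hDh : D + h + 1 = (m + 1) * (m + 1 + 1) + (m + 1) := by omega
    rw [hTc] at hWc
    -- the removal of `F ∪ T`
    have hs2 := H.star (S := F ∪ T) (J := {x, y}) hWX (by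
      intro z hz
      exact mem_union_left _ (hS2 hz)) ⟨x, by simp⟩ (indep_pair hn) hclW
    rw [Finset.card_pair hxy, hWc] at hs2
    have h3 := e2_sdiff (G := G) (Finset.subset_union_right : T ⊆ F ∪ T)
    have h4 : (F ∪ T) \ T = F := by
      rw [Finset.union_sdiff_right]
      exact Finset.sdiff_eq_self_of_disjoint hdis
    rw [h4] at h3
    have h5' : ∑ u ∈ F ∪ T, (nb G X u).card =
        ∑ u ∈ F, (nb G X u).card + ∑ u ∈ T, (nb G X u).card := Finset.sum_union hdis
    have hsplit : ∀ u ∈ T, (nb G X u).card =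
        (nb G (F ∪ T) u).card + (nb G X u \ (F ∪ T)).card := by
      intro u _
      rw [← Finset.card_union_of_disjoint]
      · congr 1
        ext z
        rw [mem_union, mem_sdiff, mem_nb, mem_nb]
        constructor
        · rintro ⟨h6, h7⟩
          by_cases h8 : z ∈ F ∪ T
          · exact Or.inl ⟨h8, h7⟩
          · exact Or.inr ⟨⟨h6, h7⟩, h8⟩
        · rintro (⟨h6, h7⟩ | ⟨h6, _⟩)
          · exact ⟨hWX h6, h7⟩
          · exact h6
      · rw [Finset.disjoint_left]
        intro z h6 h7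
        exact (mem_sdiff.1 h7).2 (mem_nb.1 h6).1
    have h6' : ∑ u ∈ T, (nb G X u).card = ∑ u ∈ T, (nb G (F ∪ T) u).card +
        ∑ u ∈ T, (nb G X u \ (F ∪ T)).card := by
      rw [← Finset.sum_add_distrib]
      exact Finset.sum_congr rfl hsplit
    have h8' := e2_add_compl (G := G) T
    obtain ⟨q, hq⟩ := e2_even (G := Gᶜ) T
    rw [hTc, hq] at h8'
    obtain ⟨DT, hDT⟩ : ∃ D, ∑ u ∈ T, (nb G X u).card = D := ⟨_, rfl⟩
    obtain ⟨O, hO⟩ : ∃ D, ∑ u ∈ T, (nb G X u \ (F ∪ T)).card = D := ⟨_, rfl⟩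
    obtain ⟨I, hI⟩ : ∃ D, ∑ u ∈ T, (nb G (F ∪ T) u).card = D := ⟨_, rfl⟩
    rw [h5', hD, hDT] at hs2
    rw [hDT, hI, hO] at h6'
    rw [hI] at h3
    have g3 : (e2 G (F ∪ T) : ℤ) + e2 G T = e2 G F + 2 * I := by exact_mod_cast h3
    have g6 : (DT : ℤ) = I + O := by exact_mod_cast h6'
    have g8 : (e2 G T : ℤ) + 2 * q + (m + 1) = (m + 1) * (m + 1) := by exact_mod_cast h8'
    have gD : (D : ℤ) + h + 1 = (m + 1) * (m + 1 + 1) + (m + 1) := by exact_mod_cast hDh
    push_cast at hs2 h1
    have hOq : (O : ℤ) + 1 ≤ q := by linarith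
    have hOq' : O + 1 ≤ q := by exact_mod_cast hOq
    -- missing pairs in `T`
    have hpair : ∀ r ∈ T, ∀ s ∈ T, r ≠ s → ¬ G.Adj r s →
        m + 2 ≤ (nb G X r \ (F ∪ T)).card + (nb G X s \ (F ∪ T)).card := by
      intro r hr s hs' hrs hnrs
      have hrF : r ∉ F := fun h => (Finset.disjoint_left.1 hdis) h hr
      have hsF : s ∉ F := fun h => (Finset.disjoint_left.1 hdis) h hs'
      have hvr : v ≠ r := fun h => hrF (h ▸ hvF)
      have hvs : v ≠ s := fun h => hsF (h ▸ hvF)
      have h9 := H.big (δ := m + 1) hm (by omega) (B := F ∪ T) (J := {v, r, s}) hWX (by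
        intro z hz
        rw [mem_insert, mem_insert, mem_singleton] at hz
        rcases hz with rfl | rfl | rfl
        · exact mem_union_left _ hvF
        · exact mem_union_right _ hr
        · exact mem_union_right _ hs') ⟨v, by simp⟩ (indep_triple
          (fun h => hrF (hnbF (mem_nb.2 ⟨hTX hr, h⟩)))
          (fun h => hsF (hnbF (mem_nb.2 ⟨hTX hs', h⟩))) hnrs)
      have h10 : nb G X v \ (F ∪ T) = ∅ := by
        rw [Finset.sdiff_eq_empty_iff_subset]
        exact hnbF.trans Finset.subset_union_left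
      have h11 : ({v, r, s} : Finset V).card = 3 := by
        rw [Finset.card_insert_of_notMem (by simp [hvr, hvs]), Finset.card_pair hrs]
      rw [Finset.sum_insert (by simp [hvr, hvs]), Finset.sum_pair hrs, h10, Finset.card_empty,
        h11, hWc] at h9
      push_cast at h9
      by_contra hlt
      push Not at hlt
      have h12 : ((nb G X r \ (F ∪ T)).card : ℤ) + (nb G X s \ (F ∪ T)).card ≤ m + 1 := by
        exact_mod_cast (by omega : (nb G X r \ (F ∪ T)).card + (nb G X s \ (F ∪ T)).card ≤ m + 1)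
      linarith [Int.natCast_nonneg m, mul_le_mul_of_nonneg_left h12 (Int.natCast_nonneg m)]
    have hdc := double_count (G := G) T (fun u => (nb G X u \ (F ∪ T)).card) (m + 2) m hpair (by
      intro r hr
      have := nb_compl_le (G := G) T hr
      omega)
    rw [hO, hq] at hdc
    obtain ⟨q', rfl⟩ : ∃ q', q = O + 1 + q' := Nat.exists_eq_add_of_le hOq'
    linarith [Nat.zero_le (m * O), Nat.zero_le (m * q'), Nat.zero_le m]

theorem MC.deg_ge : ∀ v ∈ X, k ≤ (nb G X v).card := by
  intro u hu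
  obtain ⟨v, hv, hm⟩ := Finset.exists_min_image X (fun v => (nb G X v).card) ⟨u, hu⟩
  exact (H.deg_aux hv hm).trans (hm u hu)

theorem MC.card_ge : 2 * k + 1 ≤ X.card := by
  obtain ⟨u, hu⟩ := H.ne
  have h1 : (nb G X u).card + 1 ≤ X.card := by
    rw [← card_cl]
    exact Finset.card_le_card (cl_sub hu)
  have hk := H.hk
  have h0 := H.deg_ge u hu
  have h2 := H.hS X (Finset.Subset.refl X) (by omega)
  have h3 : k * X.card ≤ e2 G X := by
    rw [e2_eq, mul_comm, ← smul_eq_mul, ← Finset.sum_const]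
    exact Finset.sum_le_sum H.deg_ge
  have h4 : (k + 1) * X.card = k * X.card + X.card := by ring
  omega

theorem MC.exists_deg : ∃ v ∈ X, (nb G X v).card = k := by
  have hge := H.deg_ge
  have hk := H.hk
  by_contra hcon
  push Not at hcon
  have hge' : ∀ v ∈ X, k + 1 ≤ (nb G X v).card := fun v hv =>
    lt_of_le_of_ne (hge v hv) (Ne.symm (hcon v hv))
  have h1 := H.card_ge
  have h2 := H.hS X (Finset.Subset.refl X) (by omega)
  have h3 : (k + 1) * X.card ≤ e2 G X := by
    rw [e2_eq, mul_comm, ← smul_eq_mul, ← Finset.sum_const]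
    exact Finset.sum_le_sum hge'
  omega

end

end Pool.Agent.TwoDens.TS
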