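import Pool.Agent.TKS.LA

/-!
Low vertices: the centre of the transversal is not a neighbour of the low vertex.
-/

open Finset

namespace Pool.Agent.TwoDens.TS

open Pool.Agent.TwoDens Pool.Agent.TwoDens.RK Pool.Agent.TwoDens.DD

variable {V : Type*} [DecidableEq V] {G : SimpleGraph V} [DecidableRel G.Adj]

namespace Fn
variable {k : ℕ} {X P : Finset V} (F : Fn G k X P) (h7 : 7 ≤ k)
include F h7

/-- the case of two cliques -/
theorem low1b {c x x' : V} (B : Base G k X P c x x')
    (hf : (nb G (hb X P x x') x).card + 2 = k) {u y y' : V} (Bu : Base G k X P u y y')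
    (hxu : ¬ G.Adj x u) {r : V} {C : Finset V}
    (hN : nb G (hb X P x x') x = insert r C) (hr : r ∉ C)
    (q1 : Clq G (insert y (insert y' C))) (q2 : Clq G (insert x (insert x' C))) :
    False := by
  have hk := F.mc.hk
  have hxX := mem_sdiff.1 B.hx
  have hxX' := mem_sdiff.1 B.hx'
  obtain ⟨m1, m2, n1, n2, -⟩ := F.lowT h7 B hf Bu hxu
  have m1' := mem_hb.1 m1
  have m2' := mem_hb.1 m2
  have hmN : ∀ {w : V}, w ∈ insert r C ↔ (w ∈ X ∧ w ∉ P ∧ w ≠ x ∧ w ≠ x') ∧ G.Adj x w := by
    intro w
    rw [← hN, mem_nb, mem_hb]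
  have xy : ¬ G.Adj x y := fun e => n1 (mem_nb.2 ⟨m1, e⟩)
  have xy' : ¬ G.Adj x y' := fun e => n2 (mem_nb.2 ⟨m2, e⟩)
  have hlow := F.low0 h7 B hf
  have hxx := hlow.1
  have hCc : C.card + 3 = k := by
    have h1 : (insert r C).card = C.card + 1 := Finset.card_insert_of_notMem hr
    rw [hN] at hf
    omega
  rw [hN] at n1 n2
  have hCm : ∀ {w : V}, w ∈ C → (w ∈ X ∧ w ∉ P ∧ w ≠ x ∧ w ≠ x') ∧ G.Adj x w :=
    fun hw => hmN.1 (mem_insert_of_mem hw)
  have hrm := hmN.1 (mem_insert_self r C)
  have yC : y ∉ C := fun e => n1 (mem_insert_of_mem e)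
  have yC' : y' ∉ C := fun e => n2 (mem_insert_of_mem e)
  have ry : r ≠ y := fun e => n1 (e ▸ mem_insert_self _ _)
  have ry' : r ≠ y' := fun e => n2 (e ▸ mem_insert_self _ _)
  have xC : x ∉ C := fun e => (hCm e).1.2.2.1 rfl
  have xC' : x' ∉ C := fun e => (hCm e).1.2.2.2 rfl
  have yne := Bu.hne
  have d1 : x ≠ y := fun e => m1'.2.2.1 e.symm
  have d2 : x ≠ y' := fun e => m2'.2.2.1 e.symm
  have d3 : x' ≠ y := fun e => m1'.2.2.2 e.symm
  have d4 : x' ≠ y' := fun e => m2'.2.2.2 e.symm
  have e3 : y ∉ insert y' C := by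
    rw [mem_insert, not_or]
    exact ⟨yne, yC⟩
  have e2' : x' ∉ insert y (insert y' C) := by
    rw [mem_insert, mem_insert, not_or, not_or]
    exact ⟨d3, d4, xC'⟩
  have e1 : x ∉ insert x' (insert y (insert y' C)) := by
    rw [mem_insert, mem_insert, mem_insert, not_or, not_or, not_or]
    exact ⟨B.hne, d1, d2, xC⟩
  obtain ⟨F1, hF1⟩ : ∃ F1, F1 = insert x (insert x' (insert y (insert y' C))) := ⟨_, rfl⟩
  have hF1c : F1.card = k + 1 := by
    rw [hF1, Finset.card_insert_of_notMem e1, Finset.card_insert_of_notMem e2',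
      Finset.card_insert_of_notMem e3, Finset.card_insert_of_notMem yC']
    omega
  have hCX : C ⊆ X := fun w hw => (hCm hw).1.1
  have hF1X : F1 ⊆ X := by
    rw [hF1]
    exact Finset.insert_subset hxX.1 (Finset.insert_subset hxX'.1 (Finset.insert_subset m1'.1
      (Finset.insert_subset m2'.1 hCX)))
  have hF1P : Disjoint P F1 := by
    rw [Finset.disjoint_left]
    intro w hw hw'
    rw [hF1, mem_insert, mem_insert, mem_insert, mem_insert] at hw'
    rcases hw' with h | h | h | h | h
    · exact hxX.2 (h ▸ hw)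
    · exact hxX'.2 (h ▸ hw)
    · exact m1'.2.1 (h ▸ hw)
    · exact m2'.2.1 (h ▸ hw)
    · exact (hCm h).1.2.1 hw
  have aC' : ∀ w ∈ C, G.Adj x' w := fun w hw =>
    q2 x' (mem_insert_of_mem (mem_insert_self _ _)) w
      (mem_insert_of_mem (mem_insert_of_mem hw)) (fun e => xC' (e ▸ hw))
  have hm1 : (nb Gᶜ (insert y (insert y' C)) x').card ≤ 2 := by
    refine nbc_twoL (s := y) (t := y') fun w hw h1 h2 => aC' w ?_
    rw [mem_insert, mem_insert] at hw
    exact (hw.resolve_left h1).resolve_left h2
  have hm2 : (nb Gᶜ (insert x' (insert y (insert y' C))) x).card ≤ 2 := by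
    refine nbc_twoL (s := y) (t := y') fun w hw h1 h2 => ?_
    rw [mem_insert, mem_insert, mem_insert] at hw
    rcases hw with h | h
    · exact h ▸ hxx
    · exact (hCm ((h.resolve_left h1).resolve_left h2)).2
  have hE1 : e2 Gᶜ F1 = 2 * (nb Gᶜ (insert y (insert y' C)) x').card +
      2 * (nb Gᶜ (insert x' (insert y (insert y' C))) x).card := by
    rw [hF1, e2c_insert e1, e2c_insert e2', clq_e2c q1]
    omega
  have hE1' : e2 Gᶜ F1 ≤ 8 := by omega
  have hsl1 := F.mc.sl1 hF1X hF1c
  have x'y' : ¬ G.Adj x' y' := by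
    intro h
    have : (nb Gᶜ (insert y (insert y' C)) x').card ≤ 1 := by
      refine nbc_one (s := y) fun w hw h1 => ?_
      rw [mem_insert, mem_insert] at hw
      rcases hw.resolve_left h1 with h2 | h2
      · exact h2 ▸ h
      · exact aC' w h2
    omega
  -- a vertex of a third class
  have hex : (exs G k X P) ≤ 1 := by
    have g1 := F.ge2 h7 B.symm
    rw [hb_comm X P x' x] at g1
    have g1' : (k : ℤ) ≤ (nb G (hb X P x x') x').card + 2 := by exact_mod_cast g1
    have h4 := (F.bp _ _ _ B).ps0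
    have : (exs G k X P : ℤ) ≤ 1 := by linarith [hlow.2]
    exact_mod_cast this
  have hthird : ∃ v ∈ P, (nb G X v).card = k ∧ ¬ G.Adj v x ∧ ¬ G.Adj v y := by
    by_contra hcon
    push Not at hcon
    obtain ⟨S, hS⟩ : ∃ S, S = P ∪ F1 := ⟨_, rfl⟩
    have hPc := F.hPc
    have hSc : S.card = 2 * k := by
      rw [hS, Finset.card_union_of_disjoint hF1P]
      omega
    have hSX : S ⊆ X := by rw [hS]; exact Finset.union_subset F.hP hF1X
    have hSd : S \ P = F1 := by
      rw [hS, Finset.union_sdiff_left]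
      exact Finset.sdiff_eq_self_of_disjoint hF1P.symm
    have h1 := e2_sdiff (G := G) (X := S) (R := P) (by rw [hS]; exact Finset.subset_union_left)
    have h2 := clq_e2 (G := G) F.hPq
    have h3 := e2_add_compl (G := G) F1
    have h4 := F.mc.hS S hSX (by omega)
    have h5 : k * P.card ≤ ∑ v ∈ P, (nb G S v).card + 2 * exs G k X P := by
      unfold exs
      rw [Finset.mul_sum, ← Finset.sum_add_distrib, mul_comm, ← smul_eq_mul,
        ← Finset.sum_const]
      refine Finset.sum_le_sum fun v hv => ?_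
      have hPe := Finset.card_erase_add_one hv
      have hsubP : P.erase v ⊆ nb G S v := by
        intro w hw
        have hw' := mem_erase.1 hw
        exact mem_nb.2 ⟨by rw [hS]; exact mem_union_left _ hw'.2,
          F.hPq v hv w hw'.2 (Ne.symm hw'.1)⟩
      by_cases hd : (nb G X v).card = k
      · have key : ∀ {a a' : V}, a ∈ F1 → a' ∈ F1 → a ≠ a' → G.Adj v a → G.Adj v a' →
            k ≤ (nb G S v).card := by
          intro a a' ha ha' hne h6 h7'
          have haP : a ∉ P := fun e => (Finset.disjoint_left.1 hF1P) e ha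
          have haP' : a' ∉ P := fun e => (Finset.disjoint_left.1 hF1P) e ha'
          have h8 : insert a (insert a' (P.erase v)) ⊆ nb G S v := by
            refine Finset.insert_subset (mem_nb.2 ⟨by rw [hS]; exact mem_union_right _ ha, h6⟩)
              (Finset.insert_subset (mem_nb.2 ⟨by rw [hS]; exact mem_union_right _ ha', h7'⟩)
              hsubP)
          have h9 := Finset.card_le_card h8
          rw [Finset.card_insert_of_notMem, Finset.card_insert_of_notMem] at h9
          · omega
          · exact fun e => haP' (mem_of_mem_erase e)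
          · rw [mem_insert, not_or]
            exact ⟨hne, fun e => haP (mem_of_mem_erase e)⟩
        have k1 : k ≤ (nb G S v).card := by
          by_cases hvx : G.Adj v x
          · refine key ?_ ?_ B.hne hvx ((F.iff h7 B hv hd).1 hvx)
            · rw [hF1]; exact mem_insert_self _ _
            · rw [hF1]; exact mem_insert_of_mem (mem_insert_self _ _)
          · have hvy := hcon v hv hd hvx
            refine key ?_ ?_ Bu.hne hvy ((F.iff h7 Bu hv hd).1 hvy)
            · rw [hF1]; exact mem_insert_of_mem (mem_insert_of_mem (mem_insert_self _ _))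
            · rw [hF1]
              exact mem_insert_of_mem (mem_insert_of_mem (mem_insert_of_mem
                (mem_insert_self _ _)))
        omega
      · have h6 := F.deg_ge (F.hP hv)
        have h7' := Finset.card_le_card hsubP
        omega
    rw [hSd] at h1
    rw [hSc] at h4
    rw [hF1c] at h3
    obtain ⟨m, rfl⟩ : ∃ m, k = m + 1 := ⟨k - 1, by omega⟩
    have hPm : P.card = m := by omega
    rw [hPm] at h2 h5
    have g1 : (m + 1 + 1) * (m + 1 + 1) = m * m + 4 * m + 4 := by ring
    have g2 : (m + 1 + 1) * (2 * (m + 1)) = 2 * (m * m) + 6 * m + 4 := by ring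
    have g3 : (m + 1) * m = m * m + m := by ring
    rw [g1] at h3
    rw [g2] at h4
    rw [g3] at h5
    omega
  obtain ⟨v, hv, hvd, hvx, hvy⟩ := hthird
  have hvx' : ¬ G.Adj v x' := fun e => hvx ((F.iff h7 B hv hvd).2 e)
  have hvy' : ¬ G.Adj v y' := fun e => hvy ((F.iff h7 Bu hv hvd).2 e)
  obtain ⟨z, z', Bv⟩ := base_mk F.hP F.hPc F.hPq hv hvd
  obtain ⟨k1, k2, l1, l2, r2, hS2, hms2⟩ := F.lowT h7 B hf Bv (fun e => hvx e.symm)
  rw [hN] at l1 l2 hS2 hms2
  have k1' := mem_hb.1 k1
  have k2' := mem_hb.1 k2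
  have zy : z ≠ y := fun e => hvy (e ▸ Bv.ax)
  have zy' : z ≠ y' := fun e => hvy' (e ▸ Bv.ax)
  have zy2 : z' ≠ y := fun e => hvy (e ▸ Bv.ax')
  have zy2' : z' ≠ y' := fun e => hvy' (e ▸ Bv.ax')
  have zC : z ∉ C := fun e => l1 (mem_insert_of_mem e)
  have zC' : z' ∉ C := fun e => l2 (mem_insert_of_mem e)
  have rz : r ≠ z := fun e => l1 (e ▸ mem_insert_self _ _)
  have rz' : r ≠ z' := fun e => l2 (e ▸ mem_insert_self _ _)
  have rF : r ∉ F1 := by
    rw [hF1, mem_insert, mem_insert, mem_insert, mem_insert, not_or, not_or, not_or, not_or]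
    exact ⟨hrm.1.2.2.1, hrm.1.2.2.2, ry, ry', hr⟩
  have zF' : z' ∉ F1 := by
    rw [hF1, mem_insert, mem_insert, mem_insert, mem_insert, not_or, not_or, not_or, not_or]
    exact ⟨k2'.2.2.1, k2'.2.2.2, zy2, zy2', zC'⟩
  have zF : z ∉ F1 := by
    rw [hF1, mem_insert, mem_insert, mem_insert, mem_insert, not_or, not_or, not_or, not_or]
    exact ⟨k1'.2.2.1, k1'.2.2.2, zy, zy', zC⟩
  have hF1w : ∀ {w : V}, w ∈ F1 → w ∉ ({x, x', y, y'} : Finset V) → w ∈ C := by
    intro w hw hw'
    rw [hF1, mem_insert, mem_insert, mem_insert, mem_insert] at hw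
    rw [mem_insert, mem_insert, mem_insert, mem_singleton, not_or, not_or, not_or] at hw'
    exact (((hw.resolve_left hw'.1).resolve_left hw'.2.1).resolve_left hw'.2.2.1).resolve_left
      hw'.2.2.2
  have c4 : ({x, x', y, y'} : Finset V).card ≤ 4 := Finset.card_le_four
  by_cases hrr : r2 = r
  · -- `C` with `z, z'` is a clique
    have hcq := hS2.clq
    rw [hrr] at hcq
    have a1 : ∀ w ∈ C, G.Adj z w := fun w hw => hcq z
      (mem_erase.2 ⟨Ne.symm rz, mem_insert_self _ _⟩) w (mem_erase.2 ⟨fun e => hr (e ▸ hw),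
        mem_insert_of_mem (mem_insert_of_mem (mem_insert_of_mem hw))⟩) (fun e => zC (e ▸ hw))
    have a2 : ∀ w ∈ C, G.Adj z' w := fun w hw => hcq z'
      (mem_erase.2 ⟨Ne.symm rz', mem_insert_of_mem (mem_insert_self _ _)⟩) w
      (mem_erase.2 ⟨fun e => hr (e ▸ hw),
        mem_insert_of_mem (mem_insert_of_mem (mem_insert_of_mem hw))⟩) (fun e => zC' (e ▸ hw))
    have a3 : G.Adj z z' := hcq z (mem_erase.2 ⟨Ne.symm rz, mem_insert_self _ _⟩) z'
      (mem_erase.2 ⟨Ne.symm rz', mem_insert_of_mem (mem_insert_self _ _)⟩) Bv.hne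
    have b0 : z ∉ insert z' F1 := by
      rw [mem_insert, not_or]
      exact ⟨Bv.hne, zF⟩
    have b1 := F.mc.sl3 (F := insert z (insert z' F1))
      (Finset.insert_subset k1'.1 (Finset.insert_subset k2'.1 hF1X)) (by
        rw [Finset.card_insert_of_notMem b0, Finset.card_insert_of_notMem zF', hF1c])
    rw [e2c_insert b0, e2c_insert zF'] at b1
    have b2 : (nb Gᶜ F1 z').card ≤ 4 := by
      refine (nbc_le (S := {x, x', y, y'}) fun w hw h1 _ => a2 w (hF1w hw h1)).trans c4
    have b3 : (nb Gᶜ (insert z' F1) z).card ≤ 4 := by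
      refine (nbc_le (S := {x, x', y, y'}) fun w hw h1 _ => ?_).trans c4
      rw [mem_insert] at hw
      rcases hw with h | h
      · exact h ▸ a3
      · exact a1 w (hF1w h h1)
    omega
  · -- `r` is nearly complete to `C`
    have hcq := hS2.clq
    have hrT : r ∈ (insert z (insert z' (insert r C))).erase r2 := mem_erase.2 ⟨Ne.symm hrr,
      mem_insert_of_mem (mem_insert_of_mem (mem_insert_self _ _))⟩
    have a1 : ∀ w ∈ C, w ≠ r2 → G.Adj r w := fun w hw hw2 => hcq r hrT w
      (mem_erase.2 ⟨hw2, mem_insert_of_mem (mem_insert_of_mem (mem_insert_of_mem hw))⟩)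
      (fun e => hr (e ▸ hw))
    have b1 := F.mc.sl2 (F := insert r F1) (Finset.insert_subset hrm.1.1 hF1X) (by
        rw [Finset.card_insert_of_notMem rF, hF1c])
    rw [e2c_insert rF] at b1
    by_cases hr2 : r2 ∈ C
    · have b2 : (nb Gᶜ F1 r).card ≤ 4 := by
        refine (nbc_le (S := {x', y, y', r2}) fun w hw h1 _ => ?_).trans Finset.card_le_four
        rw [mem_insert, mem_insert, mem_insert, mem_singleton] at h1
        push Not at h1
        by_cases hwx : w = x
        · exact hwx ▸ hrm.2.symm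
        · refine a1 w (hF1w hw ?_) h1.2.2.2
          rw [mem_insert, mem_insert, mem_insert, mem_singleton]
          push Not
          exact ⟨hwx, h1.1, h1.2.1, h1.2.2.1⟩
      have zr2 : z ≠ r2 := fun e => zC (e ▸ hr2)
      have zr2' : z' ≠ r2 := fun e => zC' (e ▸ hr2)
      have hzT : z ∈ (insert z (insert z' (insert r C))).erase r2 := mem_erase.2 ⟨zr2,
        mem_insert_self _ _⟩
      have hzT' : z' ∈ (insert z (insert z' (insert r C))).erase r2 := mem_erase.2 ⟨zr2',
        mem_insert_of_mem (mem_insert_self _ _)⟩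
      have c1 : z' ∉ insert r F1 := by
        rw [mem_insert, not_or]
        exact ⟨Ne.symm rz', zF'⟩
      have c2 : z ∉ insert z' (insert r F1) := by
        rw [mem_insert, mem_insert, not_or, not_or]
        exact ⟨Bv.hne, Ne.symm rz, zF⟩
      have b3 := F.mc.sl4 (F := insert z (insert z' (insert r F1)))
        (Finset.insert_subset k1'.1 (Finset.insert_subset k2'.1
          (Finset.insert_subset hrm.1.1 hF1X))) (by
          rw [Finset.card_insert_of_notMem c2, Finset.card_insert_of_notMem c1,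
            Finset.card_insert_of_notMem rF, hF1c])
      rw [e2c_insert c2, e2c_insert c1, e2c_insert rF] at b3
      have c5 : ({r2, x, x', y, y'} : Finset V).card ≤ 5 :=
        (Finset.card_insert_le _ _).trans (by omega)
      have b4 : (nb Gᶜ (insert r F1) z').card ≤ 5 := by
        refine (nbc_le (S := {r2, x, x', y, y'}) fun w hw h1 _ => ?_).trans c5
        rw [mem_insert, not_or] at h1
        rw [mem_insert] at hw
        rcases hw with h | h
        · rw [h]
          exact hcq z' hzT' r hrT (Ne.symm rz')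
        · have hwC := hF1w h h1.2
          exact hcq z' hzT' w (mem_erase.2 ⟨h1.1, mem_insert_of_mem (mem_insert_of_mem
            (mem_insert_of_mem hwC))⟩) (fun e => zC' (e ▸ hwC))
      have b5 : (nb Gᶜ (insert z' (insert r F1)) z).card ≤ 5 := by
        refine (nbc_le (S := {r2, x, x', y, y'}) fun w hw h1 _ => ?_).trans c5
        rw [mem_insert, not_or] at h1
        rw [mem_insert, mem_insert] at hw
        rcases hw with h | h | h
        · rw [h]
          exact hcq z hzT z' hzT' Bv.hne
        · rw [h]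
          exact hcq z hzT r hrT (Ne.symm rz)
        · have hwC := hF1w h h1.2
          exact hcq z hzT w (mem_erase.2 ⟨h1.1, mem_insert_of_mem (mem_insert_of_mem
            (mem_insert_of_mem hwC))⟩) (fun e => zC (e ▸ hwC))
      omega
    · have b2 : (nb Gᶜ F1 r).card ≤ 3 := by
        refine (nbc_le (S := {x', y, y'}) fun w hw h1 _ => ?_).trans Finset.card_le_three
        rw [mem_insert, mem_insert, mem_singleton] at h1
        push Not at h1
        by_cases hwx : w = x
        · exact hwx ▸ hrm.2.symm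
        · have hwC : w ∈ C := by
            refine hF1w hw ?_
            rw [mem_insert, mem_insert, mem_insert, mem_singleton]
            push Not
            exact ⟨hwx, h1.1, h1.2.1, h1.2.2⟩
          exact a1 w hwC (fun e => hr2 (e ▸ hwC))
      omega

end Fn

end Pool.Agent.TwoDens.TS
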