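import Pool.Agent.TKS.LAb

/-!
Low vertices: the centre of the transversal is not a neighbour of the low vertex.
-/

open Finset

namespace Pool.Agent.TwoDens.TS

open Pool.Agent.TwoDens Pool.Agent.TwoDens.RK Pool.Agent.TwoDens.DD

variable {V : Type*} [DecidableEq V] {G : SimpleGraph V} [DecidableRel G.Adj]

namespace Fn
variable {k : ℕ} {X P : Finset V} (F : Fn G k X P) (h7 : 7 ≤ k)
include F h7

/-- the centre is not a neighbour of `x` (first form) -/
theorem low1a {c x x' : V} (B : Base G k X P c x x')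
    (hf : (nb G (hb X P x x') x).card + 2 = k) {u y y' : V} (Bu : Base G k X P u y y')
    (hxu : ¬ G.Adj x u) {r : V}
    (hS : StarT G k (hb X P x x') (insert y (insert y' (nb G (hb X P x x') x))) r)
    (hr : r ∈ nb G (hb X P x x') x)
    (hms : k ≤ 2 * ((nb Gᶜ ((insert y (insert y' (nb G (hb X P x x') x))).erase r) r).card + 2))
    (hfy : (nb G (hb X P y y') y).card + 2 = k) : False := by
  have hk := F.mc.hk
  have hxX := mem_sdiff.1 B.hx
  have hxX' := mem_sdiff.1 B.hx'
  have hyX := mem_sdiff.1 Bu.hx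
  obtain ⟨m1, m2, n1, n2, -⟩ := F.lowT h7 B hf Bu hxu
  have m1' := mem_hb.1 m1
  have m2' := mem_hb.1 m2
  have hcy : ¬ G.Adj c y := B.na Bu.hx m1'.2.2.1 m1'.2.2.2
  obtain ⟨p1, p2, o1, o2, r', hS', hms'⟩ := F.lowT h7 Bu hfy B (fun e => hcy e.symm)
  have hxx := (F.low0 h7 B hf).1
  have hHX : hb X P x x' ⊆ X := hb_sub
  have hb1 := F.low1b h7 B hf Bu hxu (r := r) (C := (nb G (hb X P x x') x).erase r)
    (Finset.insert_erase hr).symm (Finset.notMem_erase _ _)
  obtain ⟨N, hN⟩ : ∃ N, N = nb G (hb X P x x') x := ⟨_, rfl⟩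
  obtain ⟨N', hN'⟩ : ∃ N', N' = nb G (hb X P y y') y := ⟨_, rfl⟩
  have hmN : ∀ {w : V}, w ∈ N ↔ (w ∈ X ∧ w ∉ P ∧ w ≠ x ∧ w ≠ x') ∧ G.Adj x w := by
    intro w
    rw [hN, mem_nb, mem_hb]
  have hmN' : ∀ {w : V}, w ∈ N' ↔ (w ∈ X ∧ w ∉ P ∧ w ≠ y ∧ w ≠ y') ∧ G.Adj y w := by
    intro w
    rw [hN', mem_nb, mem_hb]
  rw [← hN] at hf hS hr hms n1 n2 hb1
  rw [← hN'] at hfy hS' hms' o1 o2
  have hry : r ≠ y := fun e => n1 (e ▸ hr)
  have hry' : r ≠ y' := fun e => n2 (e ▸ hr)
  have hTX : insert y (insert y' N) ⊆ X := hS.hT.trans hHX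
  have hxT : x ∉ insert y (insert y' N) := fun e => (mem_hb.1 (hS.hT e)).2.2.1 rfl
  have hxT' : x' ∉ insert y (insert y' N) := fun e => (mem_hb.1 (hS.hT e)).2.2.2 rfl
  have hNe := Finset.card_erase_add_one hr
  have hyT : y ∈ (insert y (insert y' N)).erase r :=
    mem_erase.2 ⟨Ne.symm hry, mem_insert_self _ _⟩
  have hsub : N.erase r ⊆ N' := by
    intro w hw
    have hwN := mem_of_mem_erase hw
    have hw' := hmN.1 hwN
    have hwy : w ≠ y := fun e => n1 (e ▸ hwN)
    have hwy' : w ≠ y' := fun e => n2 (e ▸ hwN)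
    refine hmN'.2 ⟨⟨hw'.1.1, hw'.1.2.1, hwy, hwy'⟩, ?_⟩
    exact hS.clq y hyT w (mem_erase.2 ⟨ne_of_mem_erase hw,
      mem_insert_of_mem (mem_insert_of_mem hwN)⟩) (Ne.symm hwy)
  have hcq := hS'.clq
  have hr' := hS'.hr
  rw [mem_insert, mem_insert] at hr'
  rcases hr' with hr' | hr' | hr'
  · -- centre `x`
    rw [hr', Finset.erase_insert (by
      rw [mem_insert, not_or]
      exact ⟨B.hne, o1⟩)] at hms'
    have h1 : (nb Gᶜ (insert x' N') x).card ≤ (N' \ N.erase r).card := by
      refine nbc_le fun w hw h1 _ => ?_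
      rw [mem_insert] at hw
      rcases hw with h | h
      · exact h ▸ hxx
      · have : w ∈ N.erase r := by
          by_contra e
          exact h1 (mem_sdiff.2 ⟨h, e⟩)
        exact (hmN.1 (mem_of_mem_erase this)).2
    rw [Finset.card_sdiff_of_subset hsub] at h1
    omega
  · -- centre `x'`
    rw [hr'] at hcq
    have hxm : x ∈ (insert x (insert x' N')).erase x' :=
      mem_erase.2 ⟨B.hne, mem_insert_self _ _⟩
    have hm : ∀ {w : V}, w ∈ N' → w ∈ (insert x (insert x' N')).erase x' := by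
      intro w hw
      exact mem_erase.2 ⟨fun e => o2 (e ▸ hw), mem_insert_of_mem (mem_insert_of_mem hw)⟩
    have hsub2 : N' ⊆ N := by
      intro w hw
      have hw' := hmN'.1 hw
      have hwx : w ≠ x := fun e => o1 (e ▸ hw)
      have hwx' : w ≠ x' := fun e => o2 (e ▸ hw)
      exact hmN.2 ⟨⟨hw'.1.1, hw'.1.2.1, hwx, hwx'⟩, hcq x hxm w (hm hw) (Ne.symm hwx)⟩
    have hEq : N' = N := Finset.eq_of_subset_of_card_le hsub2 (by omega)
    have hrN' : r ∈ N' := by rw [hEq]; exact hr
    have h11 : (nb Gᶜ ((insert y (insert y' N)).erase r) r).card ≤ 1 := by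
      refine nbc_one (s := y') fun w hw h2 => ?_
      have h3 := mem_erase.1 hw
      rw [mem_insert, mem_insert] at h3
      rcases h3.2 with h4 | h4 | h4
      · rw [h4]
        exact (hmN'.1 hrN').2.symm
      · exact absurd h4 h2
      · rw [← hEq] at h4
        exact hcq r (hm hrN') w (hm h4) (Ne.symm h3.1)
    omega
  · have hxm : x ∈ (insert x (insert x' N')).erase r' :=
      mem_erase.2 ⟨fun e => o1 (e ▸ hr'), mem_insert_self _ _⟩
    have hxm' : x' ∈ (insert x (insert x' N')).erase r' :=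
      mem_erase.2 ⟨fun e => o2 (e ▸ hr'), mem_insert_of_mem (mem_insert_self _ _)⟩
    by_cases hrC : r' ∈ N.erase r
    · -- centre in both
      obtain ⟨t, ht, htC⟩ : ∃ t ∈ N', t ∉ N.erase r := by
        by_contra hcon
        push Not at hcon
        have := Finset.card_le_card (show N' ⊆ N.erase r from hcon)
        omega
      have hw' := hmN'.1 ht
      have htr' : t ≠ r' := fun e => htC (e ▸ hrC)
      have htx : t ≠ x := fun e => o1 (e ▸ ht)
      have htx' : t ≠ x' := fun e => o2 (e ▸ ht)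
      have htm : t ∈ (insert x (insert x' N')).erase r' :=
        mem_erase.2 ⟨htr', mem_insert_of_mem (mem_insert_of_mem ht)⟩
      have htN : t ∈ N := hmN.2 ⟨⟨hw'.1.1, hw'.1.2.1, htx, htx'⟩,
        hcq x hxm t htm (Ne.symm htx)⟩
      have htr : t = r := by
        by_contra e
        exact htC (mem_erase.2 ⟨e, htN⟩)
      rw [htr] at ht htm htx htx'
      have hTc := hS.hc
      have c2 : x ∉ insert x' (insert y (insert y' N)) := by
        rw [mem_insert, not_or]
        exact ⟨B.hne, hxT⟩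
      have b3 := F.mc.sl2 (F := insert x (insert x' (insert y (insert y' N))))
        (Finset.insert_subset hxX.1 (Finset.insert_subset hxX'.1 hTX)) (by
          rw [Finset.card_insert_of_notMem c2, Finset.card_insert_of_notMem hxT', hTc])
      rw [e2c_insert c2, e2c_insert hxT', e2c_star hS.hr hS.clq] at b3
      have g1 : (nb Gᶜ ((insert y (insert y' N)).erase r) r).card ≤ 2 := by
        refine nbc_twoL (s := y') (t := r') fun w hw h1 h2 => ?_
        have h3 := mem_erase.1 hw
        rw [mem_insert, mem_insert] at h3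
        rcases h3.2 with h4 | h4 | h4
        · rw [h4]
          exact (hmN'.1 ht).2.symm
        · exact absurd h4 h1
        · have h5 : w ∈ N' := hsub (mem_erase.2 ⟨h3.1, h4⟩)
          exact hcq r htm w (mem_erase.2 ⟨h2, mem_insert_of_mem (mem_insert_of_mem h5)⟩)
            (Ne.symm h3.1)
      have g2 : (nb Gᶜ (insert y (insert y' N)) x').card ≤ 3 := by
        refine (nbc_le (S := {y, y', r'}) fun w hw h1 _ => ?_).trans Finset.card_le_three
        rw [mem_insert, mem_insert, mem_singleton] at h1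
        push Not at h1
        rw [mem_insert, mem_insert] at hw
        have hwN := (hw.resolve_left h1.1).resolve_left h1.2.1
        have hwN' : w ∈ N' := by
          by_cases e : w = r
          · exact e ▸ ht
          · exact hsub (mem_erase.2 ⟨e, hwN⟩)
        exact hcq x' hxm' w (mem_erase.2 ⟨h1.2.2, mem_insert_of_mem
          (mem_insert_of_mem hwN')⟩) (fun e => o2 (e ▸ hwN'))
      have g3 : (nb Gᶜ (insert x' (insert y (insert y' N))) x).card ≤ 2 := by
        refine nbc_twoL (s := y) (t := y') fun w hw h1 h2 => ?_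
        rw [mem_insert, mem_insert, mem_insert] at hw
        rcases hw with h | h
        · exact h ▸ hxx
        · exact (hmN.1 ((h.resolve_left h1).resolve_left h2)).2
      omega
    · refine hb1 (clq_subL hS.clq ?_) (clq_subL hcq ?_)
      · intro w hw
        rw [mem_insert, mem_insert, mem_erase] at hw
        rcases hw with h | h | h
        · exact h ▸ hyT
        · rw [h]
          exact mem_erase.2 ⟨Ne.symm hry', mem_insert_of_mem (mem_insert_self _ _)⟩
        · exact mem_erase.2 ⟨h.1, mem_insert_of_mem (mem_insert_of_mem h.2)⟩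
      · intro w hw
        rw [mem_insert, mem_insert] at hw
        rcases hw with h | h | h
        · exact h ▸ hxm
        · exact h ▸ hxm'
        · exact mem_erase.2 ⟨fun e => hrC (e ▸ h), mem_insert_of_mem
            (mem_insert_of_mem (hsub h))⟩

/-- the centre is not a neighbour of `x` -/
theorem low1 {c x x' : V} (B : Base G k X P c x x')
    (hf : (nb G (hb X P x x') x).card + 2 = k) {u y y' : V} (Bu : Base G k X P u y y')
    (hxu : ¬ G.Adj x u) {r : V}
    (hS : StarT G k (hb X P x x') (insert y (insert y' (nb G (hb X P x x') x))) r)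
    (hr : r ∈ nb G (hb X P x x') x)
    (hms : k ≤ 2 *
      ((nb Gᶜ ((insert y (insert y' (nb G (hb X P x x') x))).erase r) r).card + 2)) :
    False := by
  have hk := F.mc.hk
  obtain ⟨m1, m2, n1, n2, -⟩ := F.lowT h7 B hf Bu hxu
  have hry : r ≠ y := fun e => n1 (e ▸ hr)
  have hry' : r ≠ y' := fun e => n2 (e ▸ hr)
  have hyy : G.Adj y y' := hS.clq y (mem_erase.2 ⟨Ne.symm hry, mem_insert_self _ _⟩) y'
    (mem_erase.2 ⟨Ne.symm hry', mem_insert_of_mem (mem_insert_self _ _)⟩) Bu.hne
  have h3 := (F.bp _ _ _ Bu).bstar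
  have h4 := (F.bp _ _ _ Bu).ps0
  have h5 := F.mc.ps_le
  rw [if_pos hyy] at h3
  have g1 := F.ge2 h7 Bu
  have g2 := F.ge2 h7 Bu.symm
  rw [hb_comm X P y' y] at g2
  have h6 := Int.natCast_nonneg (exs G k X P)
  by_cases hc : (nb G (hb X P y y') y).card + 2 = k
  · exact F.low1a h7 B hf Bu hxu hS hr hms hc
  · have g1' : k ≤ (nb G (hb X P y y') y).card + 1 := by omega
    have g1'' : (k : ℤ) ≤ (nb G (hb X P y y') y).card + 1 := by exact_mod_cast g1'
    have g3 : ((nb G (hb X P y y') y').card : ℤ) + 2 ≤ k := by linarith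
    have g3' : (nb G (hb X P y y') y').card + 2 ≤ k := by exact_mod_cast g3
    rw [Finset.insert_comm] at hS hms
    refine F.low1a h7 B hf Bu.symm hxu hS hr hms ?_
    rw [hb_comm X P y' y]
    omega

end Fn

end Pool.Agent.TwoDens.TS
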