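import Pool.Agent.TKS.LBa

/-!
Low vertices: the final contradiction.
-/

open Finset

namespace Pool.Agent.TwoDens.TS

open Pool.Agent.TwoDens Pool.Agent.TwoDens.RK Pool.Agent.TwoDens.DD

variable {V : Type*} [DecidableEq V] {G : SimpleGraph V} [DecidableRel G.Adj]

namespace LW
variable {k : ℕ} {X P : Finset V} {c x x' u p r : V} {Q : Finset V}
  (l : LW G k X P c x x' u p r Q)
include l

/-- transversality for a vertex not adjacent to `x'` -/
theorem trx {w : V} (hw : w ∈ Q) (h : ¬ G.Adj w x') :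
    Tr G (hb X P x x' \ insert r (insert p Q))
      (nb G (hb X P x x' \ insert r (insert p Q)) w ∪
      nb G (hb X P x x' \ insert r (insert p Q)) x') := by
  have hal := l.star1.2.2
  have hwm := l.memQ.1 hw
  have huX := l.F.hP l.Bu.hc
  have hx'X := (mem_sdiff.1 l.B.hx').1
  have hux : u ≠ x' := fun e => (mem_sdiff.1 l.B.hx').2 (e ▸ l.Bu.hc)
  have huw : u ≠ w := fun e => hwm.1.2.1 (e ▸ l.Bu.hc)
  have hwx : w ≠ x' := hwm.1.2.2.2
  refine tr_nbr (X := X) (J := {u, w, x'}) l.zX ?_ ?_ ?_ ?_ ?_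
  · intro v hv
    rw [mem_insert, mem_insert, mem_singleton] at hv
    rcases hv with rfl | rfl | rfl
    · exact huX
    · exact hwm.1.1
    · exact hx'X
  · rw [Finset.disjoint_left]
    intro v hv hv'
    have hv2 := l.mem_z.1 hv'
    rw [mem_insert, mem_insert, mem_singleton] at hv
    rcases hv with rfl | rfl | rfl
    · exact hv2.2.1 l.Bu.hc
    · exact hv2.2.2.2.2.2.2 hw
    · exact hv2.2.2.2.1 rfl
  · refine indep_insert (indep_insert (by simp) ?_) ?_
    · intro v hv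
      rw [mem_singleton] at hv
      rw [hv]
      exact h
    · intro v hv
      rw [mem_insert, mem_singleton] at hv
      rcases hv with rfl | rfl
      · exact l.QuN hw
      · exact l.ux'
  · have : ({u, w, x'} : Finset V).card = 3 := by
      rw [Finset.card_insert_of_notMem, Finset.card_pair hwx]
      rw [mem_insert, mem_singleton, not_or]
      exact ⟨huw, hux⟩
    omega
  · intro v hv z hz hvz
    rw [mem_insert, mem_insert, mem_singleton] at hv
    have hz2 := l.mem_z.1 hz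
    rcases hv with rfl | rfl | rfl
    · exact absurd hvz (l.Bu.na (mem_sdiff.2 ⟨hz2.1, hz2.2.1⟩) hz2.2.2.2.2.1 hz2.2.2.2.2.2.1)
    · exact mem_union_left _ (mem_nb.2 ⟨hz, hvz⟩)
    · exact mem_union_right _ (mem_nb.2 ⟨hz, hvz⟩)

theorem trr {w : V} (hw : w ∈ Q) (h : ¬ G.Adj w r) :
    Tr G (hb X P x x' \ insert r (insert p Q))
      (nb G (hb X P x x' \ insert r (insert p Q)) w ∪
      nb G (hb X P x x' \ insert r (insert p Q)) r) := by
  have hal := l.star1.2.2
  have hwm := l.memQ.1 hw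
  have hcX := l.F.hP l.B.hc
  have hrm := mem_hb.1 l.rH
  have hcr : c ≠ r := fun e => hrm.2.1 (e ▸ l.B.hc)
  have hcw : c ≠ w := fun e => hwm.1.2.1 (e ▸ l.B.hc)
  have hwr : w ≠ r := l.Qr hw
  refine tr_nbr (X := X) (J := {c, w, r}) l.zX ?_ ?_ ?_ ?_ ?_
  · intro v hv
    rw [mem_insert, mem_insert, mem_singleton] at hv
    rcases hv with rfl | rfl | rfl
    · exact hcX
    · exact hwm.1.1
    · exact hrm.1
  · rw [Finset.disjoint_left]
    intro v hv hv'
    have hv2 := l.mem_z.1 hv'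
    rw [mem_insert, mem_insert, mem_singleton] at hv
    rcases hv with rfl | rfl | rfl
    · exact hv2.2.1 l.B.hc
    · exact hv2.2.2.2.2.2.2 hw
    · exact hv2.2.2.2.2.2.1 rfl
  · refine indep_insert (indep_insert (by simp) ?_) ?_
    · intro v hv
      rw [mem_singleton] at hv
      rw [hv]
      exact h
    · intro v hv
      rw [mem_insert, mem_singleton] at hv
      rcases hv with rfl | rfl
      · exact l.QcN hw
      · exact l.B.na (mem_sdiff.2 ⟨hrm.1, hrm.2.1⟩) hrm.2.2.1 hrm.2.2.2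
  · have : ({c, w, r} : Finset V).card = 3 := by
      rw [Finset.card_insert_of_notMem, Finset.card_pair hwr]
      rw [mem_insert, mem_singleton, not_or]
      exact ⟨hcw, hcr⟩
    omega
  · intro v hv z hz hvz
    rw [mem_insert, mem_insert, mem_singleton] at hv
    have hz2 := l.mem_z.1 hz
    rcases hv with rfl | rfl | rfl
    · exact absurd hvz (l.B.na (mem_sdiff.2 ⟨hz2.1, hz2.2.1⟩) hz2.2.2.1 hz2.2.2.2.1)
    · exact mem_union_left _ (mem_nb.2 ⟨hz, hvz⟩)
    · exact mem_union_right _ (mem_nb.2 ⟨hz, hvz⟩)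

/-- a common neighbour outside -/
theorem alpha (hall : ∀ w ∈ Q, ∃ y, nb G (hb X P x x' \ insert r (insert p Q)) w = {y})
    (hconst : ∀ w1 ∈ Q, ∀ w2 ∈ Q, ∀ y1 y2,
      nb G (hb X P x x' \ insert r (insert p Q)) w1 = {y1} →
      nb G (hb X P x x' \ insert r (insert p Q)) w2 = {y2} → y1 = y2) : False := by
  have h7 := l.h7
  have hf := l.hf
  obtain ⟨w1, hw1⟩ : Q.Nonempty := by
    rw [← Finset.card_pos]
    omega
  obtain ⟨y, hy⟩ := hall w1 hw1
  have hyZ : y ∈ hb X P x x' \ insert r (insert p Q) := by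
    have : y ∈ nb G (hb X P x x' \ insert r (insert p Q)) w1 := by
      rw [hy]
      exact mem_singleton_self y
    exact (mem_nb.1 this).1
  have hyZ' := l.mem_z.1 hyZ
  have hpX := (mem_hb.1 l.pH).1
  have h5 := l.F.mc.near3 (Q := Q) l.QX (fun a ha b hb => l.clqQ a (mem_insert_of_mem ha) b
      (mem_insert_of_mem hb)) l.hf (a := x) (b := p) (c := y) (mem_sdiff.1 l.B.hx).1 hpX
      hyZ'.1 (fun e => (mem_hb.1 l.pH).2.2.1 e.symm) (fun e => hyZ'.2.2.1 e.symm)
    (fun e => hyZ'.2.2.2.2.1 e.symm) l.xQ l.pQ hyZ'.2.2.2.2.2.2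
  have e1 : (nb Gᶜ Q x).card = 0 := nbc_zero fun w hw => (l.memQ.1 hw).2
  have e2' : (nb Gᶜ Q p).card = 0 := nbc_zero fun w hw =>
    l.clqQ p (mem_insert_self _ _) w (mem_insert_of_mem hw) (l.Qp hw).symm
  have e3 : (nb Gᶜ Q y).card = 0 := by
    refine nbc_zero fun w hw => ?_
    obtain ⟨y2, hy2⟩ := hall w hw
    have h4 := hconst w1 hw1 w hw y y2 hy hy2
    have h6 : y ∈ nb G (hb X P x x' \ insert r (insert p Q)) w := by
      rw [hy2, h4]
      exact mem_singleton_self _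
    exact (mem_nb.1 h6).2.symm
  omega

/-- two isolated cliques -/
theorem beta (ha : (nb G (hb X P x x' \ insert r (insert p Q)) x').card + 2 = k)
    (hb' : (nb G (hb X P x x' \ insert r (insert p Q)) r).card + 2 = k)
    (hps : ps G k (hb X P x x' \ insert r (insert p Q)) ≤ 3) {w y : V} (hw : w ∈ Q)
    (h1 : ¬ G.Adj w x') (h2 : ¬ G.Adj w r)
    (hy : nb G (hb X P x x' \ insert r (insert p Q)) w = {y}) : False := by
  have hk := l.F.mc.hk
  have hk' : (4 : ℤ) ≤ k := by exact_mod_cast hk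
  have h7 := l.h7
  have t1 := l.trx hw h1
  have t2 := l.trr hw h2
  have hzX := l.zX
  have hzne := l.zne
  have hyZ : y ∈ hb X P x x' \ insert r (insert p Q) := by
    have : y ∈ nb G (hb X P x x' \ insert r (insert p Q)) w := by
      rw [hy]
      exact mem_singleton_self y
    exact (mem_nb.1 this).1
  have hyZ' := l.mem_z.1 hyZ
  have hx'X := (mem_sdiff.1 l.B.hx').1
  have hrm := mem_hb.1 l.rH
  rw [hy] at t1 t2
  obtain ⟨Z, hZ⟩ : ∃ Z, Z = hb X P x x' \ insert r (insert p Q) := ⟨_, rfl⟩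
  rw [← hZ] at ha hb' hps t1 t2 hzX hzne hyZ
  rw [← Finset.insert_eq] at t1 t2
  have htau := l.F.mc.tau1 hzX hzne (by linarith)
  have s1 : insert y (nb G Z x') ⊆ Z := Finset.insert_subset hyZ (nb_sub _ _)
  have s2 : insert y (nb G Z r) ⊆ Z := Finset.insert_subset hyZ (nb_sub _ _)
  have c1 := htau _ s1 t1
  have c2 := htau _ s2 t2
  have n1 : y ∉ nb G Z x' := by
    intro e
    rw [Finset.insert_eq_of_mem e] at c1
    omega
  have n2 : y ∉ nb G Z r := by
    intro e
    rw [Finset.insert_eq_of_mem e] at c2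
    omega
  have d1 : (insert y (nb G Z x')).card + 1 = k := by
    rw [Finset.card_insert_of_notMem n1]
    omega
  have d2 : (insert y (nb G Z r)).card + 1 = k := by
    rw [Finset.card_insert_of_notMem n2]
    omega
  obtain ⟨q1, b1⟩ := l.F.mc.tr34 hzX hzne (by linarith) s1 d1 t1
  obtain ⟨q2, b2⟩ := l.F.mc.tr34 hzX hzne (by linarith) s2 d2 t2
  have b3 : bd G Z (insert y (nb G Z x')) = 0 := by
    have : (bd G Z (insert y (nb G Z x')) : ℤ) < 1 := by linarith
    have : bd G Z (insert y (nb G Z x')) < 1 := by exact_mod_cast this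
    omega
  have hsub : nb G Z r ⊆ nb G Z x' := by
    intro v hv
    have hvZ := (mem_nb.1 hv).1
    have hvy : v ≠ y := fun e => n2 (e ▸ hv)
    by_contra hcon
    unfold bd at b3
    rw [Finset.sum_eq_zero_iff] at b3
    have h3 := b3 y (mem_insert_self _ _)
    rw [Finset.card_eq_zero, Finset.sdiff_eq_empty_iff_subset] at h3
    have h4 := h3 (mem_nb.2 ⟨hvZ, q2 y (mem_insert_self _ _) v (mem_insert_of_mem hv)
      (Ne.symm hvy)⟩)
    rw [mem_insert] at h4
    exact h4.elim hvy hcon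
  have heq : nb G Z r = nb G Z x' := Finset.eq_of_subset_of_card_le hsub (by omega)
  have hrx : x' ≠ r := fun e => hrm.2.2.2 e.symm
  have h5 := l.F.mc.near3 (Q := nb G Z x') ((nb_sub _ _).trans hzX)
    (clq_subL q1 (Finset.subset_insert _ _)) ha (a := x') (b := r) (c := y) hx'X hrm.1 hyZ'.1
    hrx (fun e => hyZ'.2.2.2.1 e.symm) (fun e => hyZ'.2.2.2.2.2.1 e.symm) self_notMem
    (fun e => by rw [← heq] at e; exact self_notMem e) n1
  have e1 : (nb Gᶜ (nb G Z x') x').card = 0 := nbc_zero fun v hv => (mem_nb.1 hv).2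
  have e2' : (nb Gᶜ (nb G Z x') r).card = 0 := nbc_zero fun v hv => by
    rw [← heq] at hv
    exact (mem_nb.1 hv).2
  have e3 : (nb Gᶜ (nb G Z x') y).card = 0 := nbc_zero fun v hv =>
    q1 y (mem_insert_self _ _) v (mem_insert_of_mem hv) (fun e => n1 (e ▸ hv))
  omega

theorem false : False := by
  have hk := l.F.mc.hk
  have h7 := l.h7
  have hk' : (7 : ℤ) ≤ k := by exact_mod_cast h7
  obtain ⟨s1, s2, -⟩ := l.star1
  obtain ⟨-, t1, t2⟩ := l.star2
  have u1 := l.sumQ1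
  have u2 := l.sumQ2
  obtain ⟨nx1, nx2⟩ := l.numx
  obtain ⟨nr1, nr2⟩ := l.numr
  have hms := l.ms
  have hm3 := nbc_insert_le (G := G) Q p r
  have hf := l.hf
  have hp1 := (l.F.bp _ _ _ l.B).ps0
  have hp2 := (l.F.bp _ _ _ l.Bu).ps0
  have hzX := l.zX
  have hzne := l.zne
  have htrx := fun {w : V} => l.trx (w := w)
  have htrr := fun {w : V} => l.trr (w := w)
  have hmz := fun {w : V} => l.mem_z (w := w)
  have hnpos := fun {w : V} => l.npos (w := w)
  have halpha := l.alpha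
  have hbeta := fun h1 h2 h3 {w y : V} => l.beta h1 h2 h3 (w := w) (y := y)
  obtain ⟨e1, he1⟩ := ps_even (G := G) k (hb X P x x')
  obtain ⟨e2', he2⟩ := ps_even (G := G) k (hb X P p r)
  obtain ⟨Z, hZ⟩ : ∃ Z, Z = hb X P x x' \ insert r (insert p Q) := ⟨_, rfl⟩
  simp only [← hZ] at s1 s2 t2 u1 u2 nx1 nr1 hzX hzne htrx htrr hmz hnpos halpha hbeta
  obtain ⟨ζ, hζ⟩ := ps_even (G := G) k Z
  have hp0 := l.F.mc.hmin Z hzX hzne
  have htau1 := l.F.mc.tau1 hzX hzne (by linarith)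
  -- numbers
  obtain ⟨a, ha⟩ : ∃ a, (nb G Z x').card = a := ⟨_, rfl⟩
  obtain ⟨b, hbn⟩ : ∃ b, (nb G Z r).card = b := ⟨_, rfl⟩
  obtain ⟨m, hm⟩ : ∃ m, (nb Gᶜ Q x').card = m := ⟨_, rfl⟩
  obtain ⟨m', hm'⟩ : ∃ m', (nb Gᶜ Q r).card = m' := ⟨_, rfl⟩
  obtain ⟨N, hN⟩ : ∃ N, ∑ w ∈ Q, (nb G Z w).card = N := ⟨_, rfl⟩
  have hmle : (nb Gᶜ Q x').card ≤ Q.card := Finset.card_le_card (nb_sub (G := Gᶜ) Q x')
  have hmle' : (nb Gᶜ Q r).card ≤ Q.card := Finset.card_le_card (nb_sub (G := Gᶜ) Q r)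
  rw [ha] at nx1 t2
  rw [hbn] at nr1 s1
  rw [hm] at nx1 u2 t1 hmle
  rw [hm'] at nr1 u1 hm3 hmle'
  rw [hN] at u1 u2
  rw [he1] at nx1 nx2 s1 s2 hp1
  rw [he2] at nr1 nr2 t2 hp2
  rw [hζ] at s1 s2 t2 hp0
  have K1 : (N : ℤ) + b + ζ ≤ m' + k - 1 + e1 := by
    have : (N : ℤ) ≤ exs G (k - 1) (hb X P x x') (insert p Q) + m' := by exact_mod_cast u1
    linarith
  have K2 : (N : ℤ) + a + ζ ≤ m + k - 1 + e2' := by
    have : (N : ℤ) ≤ exs G (k - 1) (hb X P p r) (insert x Q) + m := by exact_mod_cast u2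
    linarith
  have K3 : (a : ℤ) + e1 ≤ m + 1 := by linarith
  have K4 : (b : ℤ) + e2' ≤ m' + 1 := by linarith
  have K5 : e1 ≤ 1 := by linarith
  have K6 : e2' ≤ 1 := by linarith
  have K7 : ζ ≤ 2 := by linarith
  have K8 : 0 ≤ e1 := by linarith
  have K9 : 0 ≤ e2' := by linarith
  have K10 : 0 ≤ ζ := by linarith
  clear nx1 nx2 nr1 nr2 s1 s2 t2 u1 u2 hp1 hp2 hp0
  have hm2 : 2 ≤ m := by omega
  have hm1 : 1 ≤ m' := by omega
  have hmem : ∀ {w : V}, w ∈ nb Gᶜ Q x' ↔ w ∈ Q ∧ ¬ G.Adj w x' := by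
    intro w
    rw [mem_nb, SimpleGraph.compl_adj]
    constructor
    · rintro ⟨h1, h2, h3⟩
      exact ⟨h1, fun e => h3 e.symm⟩
    · rintro ⟨h1, h2⟩
      exact ⟨h1, fun e => l.xQ' (by rw [e]; exact h1), fun e => h2 e.symm⟩
  have hmem' : ∀ {w : V}, w ∈ nb Gᶜ Q r ↔ w ∈ Q ∧ ¬ G.Adj w r := by
    intro w
    rw [mem_nb, SimpleGraph.compl_adj]
    constructor
    · rintro ⟨h1, h2, h3⟩
      exact ⟨h1, fun e => h3 e.symm⟩
    · rintro ⟨h1, h2⟩
      exact ⟨h1, fun e => l.rQ (by rw [e]; exact h1), fun e => h2 e.symm⟩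
  -- sizes of transversals
  obtain ⟨τ, hτ, hτ1, hτ0⟩ : ∃ τ, TauGe G Z τ ∧ k ≤ τ + 1 ∧ (ζ = 0 → k ≤ τ) := by
    by_cases h0 : ζ = 0
    · exact ⟨k, l.F.mc.tau0 hzX hzne (by linarith), by omega, fun _ => le_rfl⟩
    · exact ⟨k - 1, htau1, by omega, fun h => absurd h h0⟩
  have Lx : ∀ w ∈ nb Gᶜ Q x', τ ≤ (nb G Z w).card + a := by
    intro w hw
    rw [hmem] at hw
    have h1 := hτ _ (Finset.union_subset (nb_sub _ _) (nb_sub _ _)) (htrx hw.1 hw.2)
    have h2 := Finset.card_union_le (nb G Z w) (nb G Z x')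
    omega
  have Lr : ∀ w ∈ nb Gᶜ Q r, τ ≤ (nb G Z w).card + b := by
    intro w hw
    rw [hmem'] at hw
    have h1 := hτ _ (Finset.union_subset (nb_sub _ _) (nb_sub _ _)) (htrr hw.1 hw.2)
    have h2 := Finset.card_union_le (nb G Z w) (nb G Z r)
    omega
  have P1 : ∀ w ∈ nb Gᶜ Q x', 1 ≤ (nb G Z w).card := fun w hw =>
    hnpos (hmem.1 hw).1 (Or.inl (hmem.1 hw).2)
  have P2 : ∀ w ∈ nb Gᶜ Q r, 1 ≤ (nb G Z w).card := fun w hw =>
    hnpos (hmem'.1 hw).1 (Or.inr (hmem'.1 hw).2)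
  have Nm : ∀ {S : Finset V} {d : ℕ}, S ⊆ Q → (∀ w ∈ S, d ≤ (nb G Z w).card) →
      S.card * d ≤ N := by
    intro S d hS h
    have h1 := Finset.card_nsmul_le_sum S (fun w => (nb G Z w).card) d h
    have h2 : ∑ w ∈ S, (nb G Z w).card ≤ N := by
      rw [← hN]
      exact Finset.sum_le_sum_of_subset hS
    rw [smul_eq_mul] at h1
    exact h1.trans h2
  have N1 : m ≤ N := by
    have := Nm (nb_sub (G := Gᶜ) Q x') P1
    rw [hm] at this
    omega
  have N2 : m' ≤ N := by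
    have := Nm (nb_sub (G := Gᶜ) Q r) P2
    rw [hm'] at this
    omega
  -- the number `a`
  have A1 : k ≤ a + 2 := by
    by_contra hcon
    push Not at hcon
    obtain ⟨d, hd⟩ : ∃ d, τ = a + d := ⟨τ - a, by omega⟩
    have h1 := Nm (d := d) (nb_sub (G := Gᶜ) Q x') (fun w hw => by
      have := Lx w hw
      omega)
    rw [hm] at h1
    have hd2 : 2 ≤ d := by omega
    obtain ⟨m0, rfl⟩ : ∃ m0, m = m0 + 2 := ⟨m - 2, by omega⟩
    obtain ⟨d0, rfl⟩ : ∃ d0, d = d0 + 2 := ⟨d - 2, by omega⟩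
    have h2 : (m0 + 2) * (d0 + 2) = m0 * d0 + 2 * m0 + 2 * d0 + 4 := by ring
    rw [h2] at h1
    have h3 : 2 * m0 + 2 * d0 + 4 ≤ N := by
      have := Nat.zero_le (m0 * d0)
      omega
    by_cases h0 : ζ = 0
    · have := hτ0 h0
      omega
    · omega
  have A2 : k ≤ m + 3 := by omega
  have B1 : k ≤ b + 2 := by
    by_contra hcon
    push Not at hcon
    obtain ⟨d, hd⟩ : ∃ d, τ = b + d := ⟨τ - b, by omega⟩
    have h0 : ∀ w ∈ nb Gᶜ Q r, d ≤ (nb G Z w).card := fun w hw => by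
      have := Lr w hw
      omega
    have hd2 : 2 ≤ d := by omega
    by_cases hm5 : m' = 1
    · rw [hm5] at hm'
      obtain ⟨v, hv⟩ := Finset.card_eq_one.1 hm'
      have hvr : v ∈ nb Gᶜ Q r := by rw [hv]; exact mem_singleton_self v
      have hvQ := (hmem'.1 hvr).1
      have h1 : m + (d - 1) ≤ N := by
        have h2 : ∑ w ∈ Q, ((if w ∈ nb Gᶜ Q x' then 1 else 0) + (if w = v then d - 1 else 0)) ≤
            ∑ w ∈ Q, (nb G Z w).card := by
          refine Finset.sum_le_sum fun w hw => ?_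
          by_cases hwv : w = v
          · have h3 := h0 v hvr
            rw [hwv, if_pos rfl]
            split_ifs <;> omega
          · rw [if_neg hwv]
            split_ifs with h4
            · exact P1 w h4
            · omega
        rw [hN, Finset.sum_add_distrib, Finset.sum_ite_eq' Q v, if_pos hvQ, Finset.sum_boole,
          Finset.filter_mem_eq_inter, Finset.inter_eq_right.2 (nb_sub (G := Gᶜ) Q x'), hm] at h2
        simp only [Nat.cast_id] at h2
        omega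
      omega
    · have h1 := Nm (d := d) (nb_sub (G := Gᶜ) Q r) h0
      rw [hm'] at h1
      obtain ⟨m0, rfl⟩ : ∃ m0, m' = m0 + 2 := ⟨m' - 2, by omega⟩
      obtain ⟨d0, rfl⟩ : ∃ d0, d = d0 + 2 := ⟨d - 2, by omega⟩
      have h2 : (m0 + 2) * (d0 + 2) = m0 * d0 + 2 * m0 + 2 * d0 + 4 := by ring
      rw [h2] at h1
      have h3 : 2 * m0 + 2 * d0 + 4 ≤ N := by
        have := Nat.zero_le (m0 * d0)
        omega
      by_cases h0 : ζ = 0
      · have := hτ0 h0
        omega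
      · omega
  have B2 : k ≤ m' + 3 := by omega
  -- vertices with one neighbour
  obtain ⟨S1, hS1⟩ : ∃ S1, S1 = (nb Gᶜ Q x').filter (fun w => (nb G Z w).card = 1) := ⟨_, rfl⟩
  have hS1c : 2 * m ≤ N + S1.card := by
    have h1 : ∑ w ∈ nb Gᶜ Q x', 2 ≤ ∑ w ∈ nb Gᶜ Q x', ((nb G Z w).card +
        (if (nb G Z w).card = 1 then 1 else 0)) := by
      refine Finset.sum_le_sum fun w hw => ?_
      have := P1 w hw
      split_ifs <;> omega
    rw [Finset.sum_const, smul_eq_mul, hm, Finset.sum_add_distrib, Finset.sum_boole, ← hS1] at h1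
    have h2 : ∑ w ∈ nb Gᶜ Q x', (nb G Z w).card ≤ N := by
      rw [← hN]
      exact Finset.sum_le_sum_of_subset (nb_sub (G := Gᶜ) Q x')
    simp only [Nat.cast_id] at h1
    omega
  have hS1Q : S1 ⊆ Q := by
    rw [hS1]
    exact (Finset.filter_subset _ _).trans (nb_sub (G := Gᶜ) Q x')
  have hS1m : ∀ w ∈ S1, w ∈ Q ∧ ¬ G.Adj w x' ∧ ∃ y, nb G Z w = {y} := by
    intro w hw
    rw [hS1, mem_filter] at hw
    exact ⟨(hmem.1 hw.1).1, (hmem.1 hw.1).2, Finset.card_eq_one.1 hw.2⟩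
  have hS1r : k < S1.card + m' + 2 → ∃ w ∈ S1, ¬ G.Adj w r := by
    intro h
    by_contra hcon
    push Not at hcon
    have h1 : Disjoint S1 (nb Gᶜ Q r) := by
      rw [Finset.disjoint_left]
      intro w hw hw'
      exact (hmem'.1 hw').2 (hcon w hw)
    have h2 := Finset.card_le_card (Finset.union_subset hS1Q (nb_sub (G := Gᶜ) Q r))
    rw [Finset.card_union_of_disjoint h1, hm'] at h2
    omega
  have hB : a + 2 = k → b + 2 = k → ζ = 1 → k < S1.card + m' + 2 → False := by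
    intro h1 h2 h3 h4
    obtain ⟨w, hw, hwr⟩ := hS1r h4
    obtain ⟨g1, g2, y, g3⟩ := hS1m w hw
    exact hbeta (by omega) (by omega) (by linarith) g1 g2 hwr g3
  -- all equal to one
  have hones : N ≤ m → ∀ w ∈ Q, (nb G Z w).card = if w ∈ nb Gᶜ Q x' then 1 else 0 := by
    intro h
    have h1 : ∑ w ∈ Q, (if w ∈ nb Gᶜ Q x' then 1 else 0) = m := by
      rw [Finset.sum_boole, Finset.filter_mem_eq_inter,
        Finset.inter_eq_right.2 (nb_sub (G := Gᶜ) Q x'), hm]
      simp only [Nat.cast_id]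
    have h2 : ∀ w ∈ Q, (if w ∈ nb Gᶜ Q x' then 1 else 0) ≤ (nb G Z w).card := by
      intro w hw
      split_ifs with h3
      · exact P1 w h3
      · exact Nat.zero_le _
    have h3 := (Finset.sum_eq_sum_iff_of_le h2).1 (by rw [h1, hN]; omega)
    exact fun w hw => (h3 w hw).symm
  have hall : N ≤ m → m + 2 = k → ∀ w ∈ Q, ¬ G.Adj w x' ∧ ∃ y, nb G Z w = {y} := by
    intro h h' w hw
    have h1 : nb Gᶜ Q x' = Q := Finset.eq_of_subset_of_card_le (nb_sub (G := Gᶜ) Q x')
      (by omega)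
    have h2 : w ∈ nb Gᶜ Q x' := by rw [h1]; exact hw
    have h3 := hones h w hw
    rw [if_pos h2] at h3
    exact ⟨(hmem.1 h2).2, Finset.card_eq_one.1 h3⟩
  have hyZ : ∀ {w y : V}, nb G Z w = {y} → y ∈ Z := by
    intro w y h2
    have : y ∈ nb G Z w := by rw [h2]; exact mem_singleton_self y
    exact (mem_nb.1 this).1
  have htrx' : ∀ {w y : V}, w ∈ Q → ¬ G.Adj w x' → nb G Z w = {y} →
      Tr G Z (insert y (nb G Z x')) := by
    intro w y h1 h2 h3
    have := htrx h1 h2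
    rw [h3, ← Finset.insert_eq] at this
    exact this
  have htrr' : ∀ {w y : V}, w ∈ Q → ¬ G.Adj w r → nb G Z w = {y} →
      Tr G Z (insert y (nb G Z r)) := by
    intro w y h1 h2 h3
    have := htrr h1 h2
    rw [h3, ← Finset.insert_eq] at this
    exact this
  have hpZ4 : ps G k Z ≤ 4 := by linarith
  by_cases ha1 : a + 1 = k
  · have g1 : m + 2 = k := by omega
    by_cases h0 : ζ = 0
    · have hu0 : e2' = 0 := by
        by_contra hne
        obtain ⟨w, hw, hwr⟩ := hS1r (by omega)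
        obtain ⟨g2, g3, y, g4⟩ := hS1m w hw
        have h1 := Lr w (hmem'.2 ⟨g2, hwr⟩)
        rw [g4, Finset.card_singleton] at h1
        have := hτ0 h0
        omega
      have g2 := hall (by omega) g1
      refine halpha (fun w hw => (g2 w hw).2) fun w1 hw1 w2 hw2 y1 y2 i1 i2 => ?_
      exact l.F.mc.uniq2 hzX hzne h7 (by linarith) (nb_sub _ _) (by omega) (v := x')
        (mem_sdiff.1 l.B.hx').1 (fun e => (hmz.1 e).2.2.2.1 rfl)
        (fun w hw => (mem_nb.1 hw).2) (hyZ i1) (hyZ i2)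
        (htrx' hw1 (g2 w1 hw1).1 i1) (htrx' hw2 (g2 w2 hw2).1 i2)
    · have g2 := hall (by omega) g1
      have g3 : nb Gᶜ Q r = Q := Finset.eq_of_subset_of_card_le (nb_sub (G := Gᶜ) Q r)
        (by omega)
      have g4 : ∀ w ∈ Q, ¬ G.Adj w r := fun w hw => (hmem'.1 (by rw [g3]; exact hw)).2
      refine halpha (fun w hw => (g2 w hw).2) fun w1 hw1 w2 hw2 y1 y2 i1 i2 => ?_
      exact l.F.mc.uniq1 hzX hzne hpZ4 (nb_sub _ _) (by omega) (hyZ i1) (hyZ i2)
        (htrr' hw1 (g4 w1 hw1) i1) (htrr' hw2 (g4 w2 hw2) i2)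
  · have ha2 : a + 2 = k := by omega
    have hz1 : 1 ≤ ζ := by
      by_contra hcon
      have h0 : ζ = 0 := by omega
      obtain ⟨w, hw⟩ : S1.Nonempty := by
        rw [← Finset.card_pos]
        omega
      obtain ⟨g2, g3, y, g4⟩ := hS1m w hw
      have h1 := Lx w (hmem.2 ⟨g2, g3⟩)
      rw [g4, Finset.card_singleton] at h1
      have := hτ0 h0
      omega
    by_cases hmk : m + 2 = k
    · by_cases hNm : N ≤ m
      · have g2 := hall hNm hmk
        refine halpha (fun w hw => (g2 w hw).2) fun w1 hw1 w2 hw2 y1 y2 i1 i2 => ?_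
        exact l.F.mc.uniq1 hzX hzne hpZ4 (nb_sub _ _) (by omega) (hyZ i1) (hyZ i2)
          (htrx' hw1 (g2 w1 hw1).1 i1) (htrx' hw2 (g2 w2 hw2).1 i2)
      · exact hB ha2 (by omega) (by omega) (by omega)
    · by_cases hu0 : e2' = 0
      · have g5 := hones (by omega)
        obtain ⟨w0, hw0, hw0'⟩ : ∃ w ∈ Q, w ∉ nb Gᶜ Q x' := by
          by_contra hcon
          push Not at hcon
          have := Finset.card_le_card (show Q ⊆ nb Gᶜ Q x' from hcon)
          omega
        have h1 := g5 w0 hw0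
        rw [if_neg hw0'] at h1
        have h2 : w0 ∉ nb Gᶜ Q r := by
          intro e
          have := P2 w0 e
          omega
        have h3 : m' + 1 ≤ Q.card := by
          rw [← hm']
          have h4 : nb Gᶜ Q r ⊆ Q.erase w0 := fun v hv =>
            mem_erase.2 ⟨fun e => h2 (e ▸ hv), nb_sub (G := Gᶜ) Q r hv⟩
          have h5 := Finset.card_le_card h4
          have h6 := Finset.card_erase_add_one hw0
          omega
        exact hB ha2 (by omega) (by omega) (by omega)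
      · exact hB ha2 (by omega) (by omega) (by omega)

end LW

namespace Fn
variable {k : ℕ} {X P : Finset V} (F : Fn G k X P) (h7 : 7 ≤ k)
include F h7

/-- there are no low vertices -/
theorem low {c x x' : V} (B : Base G k X P c x x')
    (hf : (nb G (hb X P x x') x).card + 2 = k) : False := by
  obtain ⟨u, hu, hud, hxu⟩ := F.ns h7 B.hx
  obtain ⟨y, y', Bu⟩ := base_mk F.hP F.hPc F.hPq hu hud
  obtain ⟨m1, m2, n1, n2, r, hS, hms⟩ := F.lowT h7 B hf Bu hxu
  have key : ∀ {y y' : V}, Base G k X P u y y' → y ∈ hb X P x x' → y' ∈ hb X P x x' →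
      y ∉ nb G (hb X P x x') x → y' ∉ nb G (hb X P x x') x →
      StarT G k (hb X P x x') (insert y (insert y' (nb G (hb X P x x') x))) y →
      k ≤ 2 * ((nb Gᶜ ((insert y (insert y' (nb G (hb X P x x') x))).erase y) y).card + 2) →
      False := by
    intro y y' Bu m1 m2 n1 n2 hS hms
    refine LW.false (G := G) (k := k) (X := X) (P := P) (c := c) (x := x) (x' := x')
      (u := u) (p := y') (r := y) (Q := nb G (hb X P x x') x) ⟨F, B, Bu.symm, rfl, hf, hxu, m2,
      m1, n2, n1, hS, h7, ?_⟩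
    have e1 : (insert y (insert y' (nb G (hb X P x x') x))).erase y =
        insert y' (nb G (hb X P x x') x) := by
      apply Finset.erase_insert
      rw [mem_insert, not_or]
      exact ⟨Bu.hne, n1⟩
    rw [e1] at hms
    exact hms
  have hr := hS.hr
  rw [mem_insert, mem_insert] at hr
  rcases hr with hr | hr | hr
  · subst hr
    exact key Bu m1 m2 n1 n2 hS hms
  · subst hr
    rw [Finset.insert_comm] at hS hms
    exact key Bu.symm m2 m1 n2 n1 hS hms
  · exact F.low1 h7 B hf Bu hxu hS hr hms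

/-- no frame exists -/
theorem false : False := by
  refine F.fin h7 fun c x x' B => ?_
  have h1 := F.ge2 h7 B
  by_contra hcon
  exact F.low h7 B (by omega)

end Fn

end Pool.Agent.TwoDens.TS
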