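import Pool.Agent.TKS.LAc

/-!
Low vertices: the second type of centre.
-/

open Finset

namespace Pool.Agent.TwoDens.TS

open Pool.Agent.TwoDens Pool.Agent.TwoDens.RK Pool.Agent.TwoDens.DD

variable {V : Type*} [DecidableEq V] {G : SimpleGraph V} [DecidableRel G.Adj]

/-- configuration at a low vertex with centre outside the neighbourhood -/
structure LW (G : SimpleGraph V) [DecidableRel G.Adj] (k : ℕ) (X P : Finset V)
    (c x x' u p r : V) (Q : Finset V) : Prop where
  F : Fn G k X P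
  B : Base G k X P c x x'
  Bu : Base G k X P u p r
  hQ : nb G (hb X P x x') x = Q
  hf : Q.card + 2 = k
  xu : ¬ G.Adj x u
  pH : p ∈ hb X P x x'
  rH : r ∈ hb X P x x'
  pQ : p ∉ Q
  rQ : r ∉ Q
  st : StarT G k (hb X P x x') (insert r (insert p Q)) r
  h7 : 7 ≤ k
  ms : k ≤ 2 * ((nb Gᶜ (insert p Q) r).card + 2)

namespace LW
variable {k : ℕ} {X P : Finset V} {c x x' u p r : V} {Q : Finset V}
  (l : LW G k X P c x x' u p r Q)
include l

theorem axx : G.Adj x x' := (l.F.low0 l.h7 l.B (by rw [l.hQ]; exact l.hf)).1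

theorem num : 2 * ((nb G (hb X P x x') x').card : ℤ) + 2 * (exs G k X P : ℤ) +
    ps G k (hb X P x x') ≤ 2 * k - 2 := (l.F.low0 l.h7 l.B (by rw [l.hQ]; exact l.hf)).2

theorem memQ {w : V} : w ∈ Q ↔ (w ∈ X ∧ w ∉ P ∧ w ≠ x ∧ w ≠ x') ∧ G.Adj x w := by
  rw [← l.hQ, mem_nb, mem_hb]

theorem ux : ¬ G.Adj u x := fun e => l.xu e.symm

theorem ux' : ¬ G.Adj u x' := fun e => l.xu ((l.F.iff l.h7 l.B l.Bu.hc l.Bu.deg).2 e).symm

theorem xp : ¬ G.Adj x p := fun e => l.pQ (l.memQ.2 ⟨mem_hb.1 l.pH, e⟩)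

theorem xr : ¬ G.Adj x r := fun e => l.rQ (l.memQ.2 ⟨mem_hb.1 l.rH, e⟩)

theorem clqQ : Clq G (insert p Q) := by
  have h := l.st.clq
  rw [Finset.erase_insert] at h
  · exact h
  · rw [mem_insert, not_or]
    exact ⟨l.Bu.hne.symm, l.rQ⟩

theorem QX : Q ⊆ X := fun _ hw => (l.memQ.1 hw).1.1

theorem Qp {w : V} (hw : w ∈ Q) : w ≠ p := fun e => l.pQ (e ▸ hw)

theorem Qr {w : V} (hw : w ∈ Q) : w ≠ r := fun e => l.rQ (e ▸ hw)

theorem QuN {w : V} (hw : w ∈ Q) : ¬ G.Adj u w :=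
  l.Bu.na (mem_sdiff.2 ⟨(l.memQ.1 hw).1.1, (l.memQ.1 hw).1.2.1⟩) (l.Qp hw) (l.Qr hw)

theorem QcN {w : V} (hw : w ∈ Q) : ¬ G.Adj c w :=
  l.B.na (mem_sdiff.2 ⟨(l.memQ.1 hw).1.1, (l.memQ.1 hw).1.2.1⟩) (l.memQ.1 hw).1.2.2.1
    (l.memQ.1 hw).1.2.2.2

theorem xHu : x ∈ hb X P p r :=
  mem_hb.2 ⟨(mem_sdiff.1 l.B.hx).1, (mem_sdiff.1 l.B.hx).2,
    fun e => (mem_hb.1 l.pH).2.2.1 e.symm, fun e => (mem_hb.1 l.rH).2.2.1 e.symm⟩

theorem xHu' : x' ∈ hb X P p r :=
  mem_hb.2 ⟨(mem_sdiff.1 l.B.hx').1, (mem_sdiff.1 l.B.hx').2,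
    fun e => (mem_hb.1 l.pH).2.2.2 e.symm, fun e => (mem_hb.1 l.rH).2.2.2 e.symm⟩

theorem xQ : x ∉ Q := fun e => (l.memQ.1 e).1.2.2.1 rfl

theorem xQ' : x' ∉ Q := fun e => (l.memQ.1 e).1.2.2.2 rfl

theorem mem_z {w : V} : w ∈ hb X P x x' \ insert r (insert p Q) ↔
    w ∈ X ∧ w ∉ P ∧ w ≠ x ∧ w ≠ x' ∧ w ≠ p ∧ w ≠ r ∧ w ∉ Q := by
  rw [mem_sdiff, mem_hb, mem_insert, mem_insert]
  tauto

theorem zeq : hb X P x x' \ insert r (insert p Q) = hb X P p r \ insert x' (insert x Q) := by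
  ext w
  rw [l.mem_z, mem_sdiff, mem_hb, mem_insert, mem_insert]
  tauto

theorem zX : hb X P x x' \ insert r (insert p Q) ⊆ X := sdiff_subset.trans hb_sub

theorem zne : hb X P x x' \ insert r (insert p Q) ≠ X := by
  intro e
  have h1 := (mem_sdiff.1 l.B.hx).1
  rw [← e] at h1
  exact (mem_hb.1 (mem_sdiff.1 h1).1).2.2.1 rfl

/-- facts from the star at `r` -/
theorem star1 : ps G k (hb X P x x' \ insert r (insert p Q)) +
      2 * ((nb G (hb X P x x' \ insert r (insert p Q)) r).card : ℤ) +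
      2 * (exs G (k - 1) (hb X P x x') (insert p Q) : ℤ) = ps G k (hb X P x x') + 2 * k - 2 ∧
    ps G k (hb X P x x' \ insert r (insert p Q)) ≤ ps G k (hb X P x x') + 2 ∧
    al G (hb X P x x' \ insert r (insert p Q)) + 2 = al G X := by
  have hk := l.F.mc.hk
  have hbp := l.F.bp _ _ _ l.B
  have hpsT := l.st.psT
  have hal := l.st.alT
  have hal2 := hbp.alH
  have e1 : (insert r (insert p Q)).erase r = insert p Q := by
    apply Finset.erase_insert
    rw [mem_insert, not_or]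
    exact ⟨l.Bu.hne.symm, l.rQ⟩
  have e2' : nb G (hb X P x x') r \ insert r (insert p Q) =
      nb G (hb X P x x' \ insert r (insert p Q)) r := by
    ext v
    rw [mem_sdiff, mem_nb, mem_nb, mem_sdiff]
    tauto
  obtain ⟨w, hw⟩ := Finset.card_pos.1 l.st.miss
  have hlow := l.st.low w hw
  have hwT := (mem_nb.1 hw).1
  have hwr : w ≠ r := fun h => ((SimpleGraph.compl_adj _ _ _).1 (mem_nb.1 hw).2).1 h.symm
  have he := exs_erase (G := G) (k := k - 1) (X := hb X P x x')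
    (S := (insert r (insert p Q)).erase r) (u := w) (mem_erase.2 ⟨hwr, hwT⟩)
  rw [e1] at hpsT he
  rw [e2'] at hpsT hlow
  have h1 : (k : ℤ) ≤ (nb G (hb X P x x' \ insert r (insert p Q)) r).card +
      exs G (k - 1) (hb X P x x') (insert p Q) + 2 := by
    have : k ≤ (nb G (hb X P x x' \ insert r (insert p Q)) r).card +
      exs G (k - 1) (hb X P x x') (insert p Q) + 2 := by omega
    exact_mod_cast this
  exact ⟨by linarith, by linarith, by omega⟩

/-- the star at `x'` in the other base -/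
theorem star2 : StarT G k (hb X P p r) (insert x' (insert x Q)) x' ∧
    k ≤ 2 * ((nb Gᶜ Q x').card + 2) ∧
    ps G k (hb X P x x' \ insert r (insert p Q)) +
      2 * ((nb G (hb X P x x' \ insert r (insert p Q)) x').card : ℤ) +
      2 * (exs G (k - 1) (hb X P p r) (insert x Q) : ℤ) = ps G k (hb X P p r) + 2 * k - 2 := by
  have hk := l.F.mc.hk
  have h7 := l.h7
  have hbp := l.F.bp _ _ _ l.Bu
  have hne := l.Bu.hbne
  have hx'X := (mem_sdiff.1 l.B.hx').1
  have hxX := (mem_sdiff.1 l.B.hx).1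
  have hxQ' : x' ∉ insert x Q := by
    rw [mem_insert, not_or]
    exact ⟨l.B.hne.symm, l.xQ'⟩
  have hcl : cl G (hb X P p r) x = insert x' (insert x Q) := by
    unfold cl
    ext w
    rw [mem_insert, mem_nb, mem_hb, mem_insert, mem_insert, l.memQ]
    constructor
    · rintro (h | ⟨⟨h1, h2, h3, h4⟩, h5⟩)
      · exact Or.inr (Or.inl h)
      · by_cases e : w = x'
        · exact Or.inl e
        · exact Or.inr (Or.inr ⟨⟨h1, h2, fun e' => G.loopless.irrefl x (e' ▸ h5), e⟩, h5⟩)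
    · rintro (h | h | ⟨⟨h1, h2, h3, h4⟩, h5⟩)
      · right
        rw [h]
        exact ⟨mem_hb.1 l.xHu', l.axx⟩
      · exact Or.inl h
      · refine Or.inr ⟨⟨h1, h2, fun e => l.xp (e ▸ h5), fun e => l.xr (e ▸ h5)⟩, h5⟩
  have htr := tr_cl (G := G) l.xHu
  have hsub := cl_sub (G := G) l.xHu
  rw [hcl] at htr hsub
  have hc : (insert x' (insert x Q)).card = k := by
    rw [Finset.card_insert_of_notMem hxQ', Finset.card_insert_of_notMem l.xQ]
    exact l.hf
  obtain ⟨s, hS⟩ := l.F.mc.star8 hb_sub hne hbp.ps4 hbp.tau hsub hc htr (by omega)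
  have hpX := (mem_hb.1 l.pH).1
  have hpT : p ∉ insert x' (insert x Q) := by
    rw [mem_insert, mem_insert, not_or, not_or]
    exact ⟨(mem_hb.1 l.pH).2.2.2, (mem_hb.1 l.pH).2.2.1, l.pQ⟩
  have h5 := l.F.mc.near1 (hsub.trans hb_sub) hc hS.hr hS.clq hpX hpT
  have h6 : (nb Gᶜ (insert x' (insert x Q)) p).card ≤ 2 := by
    refine nbc_twoL (s := x) (t := x') fun w hw h1 h2 => ?_
    rw [mem_insert, mem_insert] at hw
    have hwQ := (hw.resolve_left h2).resolve_left h1
    exact l.clqQ p (mem_insert_self _ _) w (mem_insert_of_mem hwQ) (l.Qp hwQ).symm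
  have hxs : s = x' := by
    by_contra hcon
    have h7' : (nb Gᶜ ((insert x' (insert x Q)).erase s) s).card ≤ 1 := by
      refine nbc_one (s := x') fun w hw h1 => ?_
      have h2 := mem_erase.1 hw
      have h3 := h2.2
      rw [mem_insert, mem_insert] at h3
      have hs := hS.hr
      rw [mem_insert, mem_insert] at hs
      rcases hs.resolve_left hcon with e | e
      · rcases h3.resolve_left h1 with e' | e'
        · exact absurd (e'.trans e.symm) h2.1
        · rw [e]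
          exact (l.memQ.1 e').2
      · rcases h3.resolve_left h1 with e' | e'
        · rw [e']
          exact (l.memQ.1 e).2.symm
        · exact l.clqQ s (mem_insert_of_mem e) w (mem_insert_of_mem e') (Ne.symm h2.1)
    omega
  rw [hxs] at hS h5
  rw [Finset.erase_insert hxQ'] at h5
  have h8 : (nb Gᶜ (insert x Q) x').card ≤ (nb Gᶜ Q x').card := by
    refine Finset.card_le_card fun w hw => ?_
    have h1 := mem_nb.1 hw
    have h2 := (SimpleGraph.compl_adj _ _ _).1 h1.2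
    rw [mem_insert] at h1
    refine mem_nb.2 ⟨h1.1.resolve_left ?_, h1.2⟩
    intro e
    exact h2.2 (e ▸ l.axx.symm)
  refine ⟨hS, by omega, ?_⟩
  have hpsT := hS.psT
  rw [Finset.erase_insert hxQ'] at hpsT
  have e2' : nb G (hb X P p r) x' \ insert x' (insert x Q) =
      nb G (hb X P p r \ insert x' (insert x Q)) x' := by
    ext v
    rw [mem_sdiff, mem_nb, mem_nb, mem_sdiff]
    tauto
  rw [e2', ← l.zeq] at hpsT
  linarith

/-- degrees of the vertices of `Q` -/
theorem degQ {w : V} (hw : w ∈ Q) :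
    (nb G (hb X P x x') w).card + (nb Gᶜ (insert r (insert p Q)) w).card + 1 =
      k + (nb G (hb X P x x' \ insert r (insert p Q)) w).card ∧
    (nb G (hb X P p r) w).card + (nb Gᶜ (insert x' (insert x Q)) w).card + 1 =
      k + (nb G (hb X P x x' \ insert r (insert p Q)) w).card := by
  have e : ∀ {Y T : Finset V}, nb G Y w \ T = nb G (Y \ T) w := by
    intro Y T
    ext v
    rw [mem_sdiff, mem_nb, mem_nb, mem_sdiff]
    tauto
  have h1 := deg_split (G := G) l.st.hT (u := w) (mem_insert_of_mem (mem_insert_of_mem hw))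
  have h2 := deg_split (G := G) l.star2.1.hT (u := w)
    (mem_insert_of_mem (mem_insert_of_mem hw))
  rw [l.st.hc, e] at h1
  rw [l.star2.1.hc, e, ← l.zeq] at h2
  exact ⟨h1, h2⟩

theorem nbc1 {w : V} (hw : w ∈ Q) : (nb Gᶜ (insert r (insert p Q)) w).card ≤ 1 ∧
    (G.Adj w r → (nb Gᶜ (insert r (insert p Q)) w).card = 0) ∧
    (¬ G.Adj w r → 1 ≤ (nb Gᶜ (insert r (insert p Q)) w).card) := by
  have h0 : ∀ v ∈ insert r (insert p Q), v ≠ w → v ≠ r → G.Adj w v := by
    intro v hv hvw h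
    rw [mem_insert] at hv
    exact l.clqQ w (mem_insert_of_mem hw) v (hv.resolve_left h) (Ne.symm hvw)
  have h1 : nb Gᶜ (insert r (insert p Q)) w ⊆ {r} := by
    intro v hv
    have h2 := mem_nb.1 hv
    have h3 := (SimpleGraph.compl_adj _ _ _).1 h2.2
    rw [mem_singleton]
    by_contra e
    exact h3.2 (h0 v h2.1 (Ne.symm h3.1) e)
  refine ⟨(Finset.card_le_card h1).trans (Finset.card_singleton r).le, ?_, ?_⟩
  · intro h
    rw [Finset.card_eq_zero, Finset.eq_empty_iff_forall_notMem]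
    intro v hv
    have h2 := h1 hv
    rw [mem_singleton] at h2
    have h3 := (SimpleGraph.compl_adj _ _ _).1 (mem_nb.1 hv).2
    exact h3.2 (h2 ▸ h)
  · intro h
    refine Finset.card_pos.2 ⟨r, mem_nb.2 ⟨mem_insert_self _ _, ?_⟩⟩
    exact (SimpleGraph.compl_adj _ _ _).2 ⟨l.Qr hw, h⟩

theorem nbc2 {w : V} (hw : w ∈ Q) : (nb Gᶜ (insert x' (insert x Q)) w).card ≤ 1 ∧
    (G.Adj w x' → (nb Gᶜ (insert x' (insert x Q)) w).card = 0) ∧
    (¬ G.Adj w x' → 1 ≤ (nb Gᶜ (insert x' (insert x Q)) w).card) := by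
  have h0 : ∀ v ∈ insert x' (insert x Q), v ≠ w → v ≠ x' → G.Adj w v := by
    intro v hv hvw h
    rw [mem_insert, mem_insert] at hv
    rcases hv with hv | hv | hv
    · exact absurd hv h
    · rw [hv]
      exact (l.memQ.1 hw).2.symm
    · exact l.clqQ w (mem_insert_of_mem hw) v (mem_insert_of_mem hv) (Ne.symm hvw)
  have h1 : nb Gᶜ (insert x' (insert x Q)) w ⊆ {x'} := by
    intro v hv
    have h2 := mem_nb.1 hv
    have h3 := (SimpleGraph.compl_adj _ _ _).1 h2.2
    rw [mem_singleton]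
    by_contra e
    exact h3.2 (h0 v h2.1 (Ne.symm h3.1) e)
  refine ⟨(Finset.card_le_card h1).trans (Finset.card_singleton x').le, ?_, ?_⟩
  · intro h
    rw [Finset.card_eq_zero, Finset.eq_empty_iff_forall_notMem]
    intro v hv
    have h2 := h1 hv
    rw [mem_singleton] at h2
    have h3 := (SimpleGraph.compl_adj _ _ _).1 (mem_nb.1 hv).2
    exact h3.2 (h2 ▸ h)
  · intro h
    refine Finset.card_pos.2 ⟨x', mem_nb.2 ⟨mem_insert_self _ _, ?_⟩⟩
    exact (SimpleGraph.compl_adj _ _ _).2 ⟨fun e => l.xQ' (e ▸ hw), h⟩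

/-- summation of the degrees over `Q` -/
theorem sumQ1 : ∑ w ∈ Q, (nb G (hb X P x x' \ insert r (insert p Q)) w).card ≤
    exs G (k - 1) (hb X P x x') (insert p Q) + (nb Gᶜ Q r).card := by
  have hk := l.F.mc.hk
  have h0 : exs G (k - 1) (hb X P x x') Q ≤ exs G (k - 1) (hb X P x x') (insert p Q) :=
    exs_mono (Finset.subset_insert _ _)
  have h1 : ∑ w ∈ Q, (nb G (hb X P x x' \ insert r (insert p Q)) w).card ≤
      exs G (k - 1) (hb X P x x') Q + ∑ w ∈ Q, (if w ∈ nb Gᶜ Q r then 1 else 0) := by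
    unfold exs
    rw [← Finset.sum_add_distrib]
    refine Finset.sum_le_sum fun w hw => ?_
    have h2 := (l.degQ hw).1
    obtain ⟨b1, b2, b3⟩ := l.nbc1 hw
    by_cases hwr : G.Adj w r
    · have h3 := b2 hwr
      split_ifs <;> omega
    · rw [if_pos (mem_nb.2 ⟨hw, (SimpleGraph.compl_adj _ _ _).2
        ⟨fun e => l.Qr hw e.symm, fun e => hwr e.symm⟩⟩)]
      omega
  rw [Finset.sum_boole, Finset.filter_mem_eq_inter,
    Finset.inter_eq_right.2 (nb_sub (G := Gᶜ) Q r)] at h1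
  simp only [Nat.cast_id] at h1
  omega

theorem sumQ2 : ∑ w ∈ Q, (nb G (hb X P x x' \ insert r (insert p Q)) w).card ≤
    exs G (k - 1) (hb X P p r) (insert x Q) + (nb Gᶜ Q x').card := by
  have hk := l.F.mc.hk
  have h0 : exs G (k - 1) (hb X P p r) Q ≤ exs G (k - 1) (hb X P p r) (insert x Q) :=
    exs_mono (Finset.subset_insert _ _)
  have h1 : ∑ w ∈ Q, (nb G (hb X P x x' \ insert r (insert p Q)) w).card ≤
      exs G (k - 1) (hb X P p r) Q + ∑ w ∈ Q, (if w ∈ nb Gᶜ Q x' then 1 else 0) := by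
    unfold exs
    rw [← Finset.sum_add_distrib]
    refine Finset.sum_le_sum fun w hw => ?_
    have h2 := (l.degQ hw).2
    obtain ⟨b1, b2, b3⟩ := l.nbc2 hw
    by_cases hwr : G.Adj w x'
    · have h3 := b2 hwr
      split_ifs <;> omega
    · rw [if_pos (mem_nb.2 ⟨hw, (SimpleGraph.compl_adj _ _ _).2
        ⟨fun e => l.xQ' (by rw [e]; exact hw), fun e => hwr e.symm⟩⟩)]
      omega
  rw [Finset.sum_boole, Finset.filter_mem_eq_inter,
    Finset.inter_eq_right.2 (nb_sub (G := Gᶜ) Q x')] at h1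
  simp only [Nat.cast_id] at h1
  omega

/-- a vertex of `Q` not adjacent to `x'` or `r` has a neighbour in `Z` -/
theorem npos {w : V} (hw : w ∈ Q) (h : ¬ G.Adj w x' ∨ ¬ G.Adj w r) :
    1 ≤ (nb G (hb X P x x' \ insert r (insert p Q)) w).card := by
  have t1 := (l.F.bp _ _ _ l.B).tau
  have t2 := (l.F.bp _ _ _ l.Bu).tau
  have hwH : w ∈ hb X P x x' := l.st.hT (mem_insert_of_mem (mem_insert_of_mem hw))
  have hwH' : w ∈ hb X P p r := l.star2.1.hT (mem_insert_of_mem (mem_insert_of_mem hw))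
  have d1 := t1.deg hwH
  have d2 := t2.deg hwH'
  obtain ⟨q1, q2⟩ := l.degQ hw
  rcases h with h | h
  · have := (l.nbc2 hw).2.2 h
    omega
  · have := (l.nbc1 hw).2.2 h
    omega

/-- the numbers of neighbours of `x'` -/
theorem numx : 2 * ((nb G (hb X P x x' \ insert r (insert p Q)) x').card : ℤ) + 2 * k - 4 -
    2 * (nb Gᶜ Q x').card + ps G k (hb X P x x') ≤ 2 * k - 2 ∧
    ps G k (hb X P x x') ≤ 2 := by
  have hnum := l.num
  have h6 := Int.natCast_nonneg (exs G k X P)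
  have g1 := l.F.ge2 l.h7 l.B.symm
  rw [hb_comm X P x' x] at g1
  have g1' : (k : ℤ) ≤ (nb G (hb X P x x') x').card + 2 := by exact_mod_cast g1
  have hzx : (nb G (hb X P x x' \ insert r (insert p Q)) x').card + (nb G Q x').card ≤
      (nb G (hb X P x x') x').card := by
    rw [← Finset.card_union_of_disjoint]
    · refine Finset.card_le_card fun v hv => ?_
      rw [mem_union, mem_nb, mem_nb, mem_sdiff] at hv
      rcases hv with ⟨⟨h1, _⟩, h2⟩ | ⟨h1, h2⟩
      · exact mem_nb.2 ⟨h1, h2⟩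
      · exact mem_nb.2 ⟨l.st.hT (mem_insert_of_mem (mem_insert_of_mem h1)), h2⟩
    · rw [Finset.disjoint_left]
      intro v hv hv'
      have h1 := (mem_sdiff.1 (mem_nb.1 hv).1).2
      exact h1 (mem_insert_of_mem (mem_insert_of_mem (mem_nb.1 hv').1))
  have h1 := nbc_card' (G := G) l.xQ'
  have h2 := l.hf
  have h3 : ((nb G (hb X P x x' \ insert r (insert p Q)) x').card : ℤ) + k ≤
      (nb G (hb X P x x') x').card + (nb Gᶜ Q x').card + 2 := by
    have : (nb G (hb X P x x' \ insert r (insert p Q)) x').card + k ≤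
      (nb G (hb X P x x') x').card + (nb Gᶜ Q x').card + 2 := by omega
    exact_mod_cast this
  exact ⟨by linarith, by linarith⟩

/-- the numbers of neighbours of `r` -/
theorem numr : 2 * ((nb G (hb X P x x' \ insert r (insert p Q)) r).card : ℤ) + 2 * k - 4 -
    2 * (nb Gᶜ Q r).card + ps G k (hb X P p r) ≤ 2 * k - 2 ∧
    ps G k (hb X P p r) ≤ 2 := by
  have h3 := (l.F.bp _ _ _ l.Bu).bstar
  have h4 := (l.F.bp _ _ _ l.Bu).ps0
  have h5 := l.F.mc.ps_le
  have h6 := Int.natCast_nonneg (exs G k X P)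
  have g1 := l.F.ge2 l.h7 l.Bu
  have g2 := l.F.ge2 l.h7 l.Bu.symm
  rw [hb_comm X P r p] at g2
  have g2' : (k : ℤ) ≤ (nb G (hb X P p r) r).card + 2 := by exact_mod_cast g2
  have hU : 2 * ((nb G (hb X P p r) r).card : ℤ) + ps G k (hb X P p r) ≤ 2 * k - 2 := by
    by_cases hc : (nb G (hb X P p r) p).card + 2 = k
    · have h7 := (l.F.low0 l.h7 l.Bu hc).2
      linarith
    · have g1' : k ≤ (nb G (hb X P p r) p).card + 1 := by omega
      have g1'' : (k : ℤ) ≤ (nb G (hb X P p r) p).card + 1 := by exact_mod_cast g1'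
      have h8 : (0 : ℤ) ≤ if G.Adj p r then 1 else 0 := by split_ifs <;> norm_num
      linarith
  have hzr : (nb G (hb X P x x' \ insert r (insert p Q)) r).card + (nb G Q r).card ≤
      (nb G (hb X P p r) r).card := by
    rw [← Finset.card_union_of_disjoint]
    · refine Finset.card_le_card fun v hv => ?_
      rw [mem_union, mem_nb, mem_nb, l.zeq, mem_sdiff] at hv
      rcases hv with ⟨⟨h1, _⟩, h2⟩ | ⟨h1, h2⟩
      · exact mem_nb.2 ⟨h1, h2⟩
      · exact mem_nb.2 ⟨l.star2.1.hT (mem_insert_of_mem (mem_insert_of_mem h1)), h2⟩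
    · rw [Finset.disjoint_left]
      intro v hv hv'
      have h1 := (mem_sdiff.1 (mem_nb.1 hv).1).2
      exact h1 (mem_insert_of_mem (mem_insert_of_mem (mem_nb.1 hv').1))
  have h1 := nbc_card' (G := G) l.rQ
  have h2 := l.hf
  have h9 : ((nb G (hb X P x x' \ insert r (insert p Q)) r).card : ℤ) + k ≤
      (nb G (hb X P p r) r).card + (nb Gᶜ Q r).card + 2 := by
    have : (nb G (hb X P x x' \ insert r (insert p Q)) r).card + k ≤
      (nb G (hb X P p r) r).card + (nb Gᶜ Q r).card + 2 := by omega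
    exact_mod_cast this
  exact ⟨by linarith, by linarith⟩

end LW

end Pool.Agent.TwoDens.TS
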