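import Pool.Agent.TKS.LO
import Pool.Agent.TKS.LL

/-!
Low vertices, centre in the neighbourhood: structure and counting.
-/

open Finset

namespace Pool.Agent.TwoDens.TS

open Pool.Agent.TwoDens Pool.Agent.TwoDens.RK Pool.Agent.TwoDens.DD

variable {V : Type*} [DecidableEq V] {G : SimpleGraph V} [DecidableRel G.Adj]

namespace Ld

theorem nbc_one {Q : Finset V} {v s : V} (h : ∀ w ∈ Q, w ≠ s → G.Adj v w) :
    (nb Gᶜ Q v).card ≤ 1 := by
  rw [Finset.card_le_one]
  have : ∀ w ∈ nb Gᶜ Q v, w = s := by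
    intro w hw
    have h1 := mem_nb.1 hw
    by_contra hws
    exact ((SimpleGraph.compl_adj _ _ _).1 h1.2).2 (h w h1.1 hws)
  intro w hw z hz
  rw [this w hw, this z hz]

/-- at most two missing neighbours -/
theorem nbc_two {Q : Finset V} {v s t : V} (h : ∀ w ∈ Q, w ≠ s → w ≠ t → G.Adj v w) :
    (nb Gᶜ Q v).card ≤ 2 := by
  have h1 : nb Gᶜ Q v ⊆ {s, t} := by
    intro w hw
    have h2 := mem_nb.1 hw
    have h3 := (SimpleGraph.compl_adj _ _ _).1 h2.2
    rw [mem_insert, mem_singleton]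
    by_contra hcon
    push Not at hcon
    exact h3.2 (h w h2.1 hcon.1 hcon.2)
  exact (Finset.card_le_card h1).trans Finset.card_le_two

/-- missing neighbours in a given set -/
theorem nbc_le {Q S : Finset V} {v : V} (h : ∀ w ∈ Q, w ∉ S → w ≠ v → G.Adj v w) :
    (nb Gᶜ Q v).card ≤ S.card := by
  refine Finset.card_le_card fun w hw => ?_
  have h1 := mem_nb.1 hw
  have h2 := (SimpleGraph.compl_adj _ _ _).1 h1.2
  by_contra e
  exact h2.2 (h w h1.1 e (Ne.symm h2.1))

omit [DecidableEq V] [DecidableRel G.Adj] in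
theorem clq_subL {S T : Finset V} (h : Clq G T) (hS : S ⊆ T) : Clq G S :=
  fun a ha b hb hab => h a (hS ha) b (hS hb) hab

end Ld

/-- removing a star with `k` vertices from `H` -/
theorem StarT.zfacts {k : ℕ} (hk : 4 ≤ k) {Y T : Finset V} {r : V} (hS : StarT G k Y T r) :
    ps G k (Y \ T) ≤ ps G k Y + 2 ∧ al G (Y \ T) + 1 = al G Y ∧
    ps G k (Y \ T) + 2 * ((nb G (Y \ T) r).card : ℤ) + 2 * (exs G (k - 1) Y (T.erase r) : ℤ) =
      ps G k Y + 2 * k - 2 := by
  have hpsT := hS.psT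
  have e2' : nb G Y r \ T = nb G (Y \ T) r := by
    ext v
    rw [mem_sdiff, mem_nb, mem_nb, mem_sdiff]
    tauto
  obtain ⟨w, hw⟩ := Finset.card_pos.1 hS.miss
  have hlow := hS.low w hw
  have hwT := (mem_nb.1 hw).1
  have hwr : w ≠ r := fun h => ((SimpleGraph.compl_adj _ _ _).1 (mem_nb.1 hw).2).1 h.symm
  have he := exs_erase (G := G) (k := k - 1) (X := Y) (S := T.erase r) (u := w)
    (mem_erase.2 ⟨hwr, hwT⟩)
  rw [e2'] at hpsT hlow
  have h1 : (k : ℤ) ≤ (nb G (Y \ T) r).card + exs G (k - 1) Y (T.erase r) + 2 := by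
    have : k ≤ (nb G (Y \ T) r).card + exs G (k - 1) Y (T.erase r) + 2 := by omega
    exact_mod_cast this
  exact ⟨by linarith, hS.alT, by linarith⟩

/-- one vertex of excess -/
theorem exs_one {k : ℕ} {X P : Finset V} (hge : ∀ v ∈ P, k ≤ (nb G X v).card)
    (h : exs G k X P = 1) : ∃ p ∈ P, (nb G X p).card = k + 1 ∧
    ∀ v ∈ P, v ≠ p → (nb G X v).card = k := by
  have h1 : ∃ p ∈ P, k < (nb G X p).card := by
    by_contra hcon
    push Not at hcon
    have : exs G k X P = 0 := by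
      unfold exs
      exact Finset.sum_eq_zero fun v hv => by have := hcon v hv; omega
    omega
  obtain ⟨p, hp, hpk⟩ := h1
  have h2 : exs G k X P = ((nb G X p).card - k) + exs G k X (P.erase p) := by
    unfold exs
    exact (Finset.add_sum_erase _ (fun v => (nb G X v).card - k) hp).symm
  refine ⟨p, hp, by omega, fun v hv hvp => ?_⟩
  have h3 : exs G k X (P.erase p) = 0 := by omega
  unfold exs at h3
  rw [Finset.sum_eq_zero_iff] at h3
  have h4 := h3 v (mem_erase.2 ⟨hvp, hv⟩)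
  have := hge v hv
  omega

omit [DecidableEq V] in
theorem exs_none {k : ℕ} {X P : Finset V} (hge : ∀ v ∈ P, k ≤ (nb G X v).card)
    (h : exs G k X P = 0) : ∀ v ∈ P, (nb G X v).card = k := by
  intro v hv
  unfold exs at h
  rw [Finset.sum_eq_zero_iff] at h
  have h4 := h v hv
  have := hge v hv
  omega

/-- no star of the second type -/
def NoT2 (G : SimpleGraph V) [DecidableRel G.Adj] (k : ℕ) (X P : Finset V) : Prop :=
  ∀ c x x' u y y' : V, Base G k X P c x x' → (nb G (hb X P x x') x).card + 2 = k →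
    Base G k X P u y y' → ¬ G.Adj x u →
    ¬ StarT G k (hb X P x x') (insert y (insert y' (nb G (hb X P x x') x))) y

namespace LF
variable {k : ℕ} {X P : Finset V} (L : LF G k X P)
include L

/-- three independent vertices outside `Z` -/
theorem tri {c x x' : V} (B : Base G k X P c x x') {T : Finset V} {r : V}
    (hS : StarT G k (hb X P x x') T r) (hp : ps G k (hb X P x x') ≤ 2) {a b d : V}
    (ha : a ∈ X) (hb' : b ∈ X) (hd : d ∈ X) (haZ : a ∉ hb X P x x' \ T)
    (hbZ : b ∉ hb X P x x' \ T) (hdZ : d ∉ hb X P x x' \ T) (hab : a ≠ b) (had : a ≠ d)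
    (hbd : b ≠ d) (nab : ¬ G.Adj a b) (nad : ¬ G.Adj a d) (nbd : ¬ G.Adj b d) {S : Finset V}
    (hSa : ∀ w ∈ hb X P x x' \ T, G.Adj a w → w ∈ S)
    (hSb : ∀ w ∈ hb X P x x' \ T, G.Adj b w → w ∈ S)
    (hSd : ∀ w ∈ hb X P x x' \ T, G.Adj d w → w ∈ S) :
    Tr G (hb X P x x' \ T) S ∧ k ≤ S.card + 1 := by
  have hk := L.F.mc.hk
  have hk' : (4 : ℤ) ≤ k := by exact_mod_cast hk
  obtain ⟨z1, z2, -⟩ := hS.zfacts hk
  have hal := (L.F.bp _ _ _ B).alH
  have hZX : hb X P x x' \ T ⊆ X := Finset.sdiff_subset.trans hb_sub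
  have hZne : hb X P x x' \ T ≠ X := by
    intro e
    have h1 := (mem_sdiff.1 B.hx).1
    rw [← e] at h1
    exact (mem_hb.1 (mem_sdiff.1 h1).1).2.2.1 rfl
  have htr : Tr G (hb X P x x' \ T) S := by
    refine tr_nbr (X := X) (J := {a, b, d}) hZX ?_ ?_ ?_ ?_ ?_
    · intro v hv
      rw [mem_insert, mem_insert, mem_singleton] at hv
      rcases hv with rfl | rfl | rfl
      · exact ha
      · exact hb'
      · exact hd
    · rw [Finset.disjoint_left]
      intro v hv hv'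
      rw [mem_insert, mem_insert, mem_singleton] at hv
      rcases hv with rfl | rfl | rfl
      · exact haZ hv'
      · exact hbZ hv'
      · exact hdZ hv'
    · refine indep_insert (indep_pair nbd) ?_
      intro v hv
      rw [mem_insert, mem_singleton] at hv
      rcases hv with rfl | rfl
      · exact nab
      · exact nad
    · have : ({a, b, d} : Finset V).card = 3 := by
        rw [Finset.card_insert_of_notMem, Finset.card_pair hbd]
        rw [mem_insert, mem_singleton, not_or]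
        exact ⟨hab, had⟩
      omega
    · intro v hv z hz hvz
      rw [mem_insert, mem_insert, mem_singleton] at hv
      rcases hv with rfl | rfl | rfl
      · exact hSa z hz hvz
      · exact hSb z hz hvz
      · exact hSd z hz hvz
  refine ⟨htr, ?_⟩
  have htr2 : Tr G (hb X P x x' \ T) (S ∩ (hb X P x x' \ T)) := tr_mono htr (by
    intro w hw
    exact hw)
  have h1 := L.F.mc.tau1 hZX hZne (by linarith) _ Finset.inter_subset_right htr2
  have h2 := Finset.card_le_card (Finset.inter_subset_left (s₁ := S)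
    (s₂ := hb X P x x' \ T))
  omega

end LF

/-- configuration at a low vertex `x` with centre `r` in its neighbourhood, and `y` low -/
structure TO (G : SimpleGraph V) [DecidableRel G.Adj] (k : ℕ) (X P : Finset V)
    (c x x' u y y' r z : V) (C : Finset V) : Prop where
  L : LF G k X P
  t2 : NoT2 G k X P
  B : Base G k X P c x x'
  Bu : Base G k X P u y y'
  hN : nb G (hb X P x x') x = insert r C
  rC : r ∉ C
  hC : C.card + 3 = k
  xu : ¬ G.Adj x u
  st : StarT G k (hb X P x x') (insert y (insert y' (insert r C))) r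
  hM : nb G (hb X P y y') y = insert z C
  zC : z ∉ C

namespace TO
variable {k : ℕ} {X P : Finset V} {c x x' u y y' r z : V} {C : Finset V}
  (t : TO G k X P c x x' u y y' r z C)
include t

theorem fx : (nb G (hb X P x x') x).card + 2 = k := by
  have h := t.hC
  rw [t.hN, Finset.card_insert_of_notMem t.rC]
  omega

theorem fy : (nb G (hb X P y y') y).card + 2 = k := by
  have h := t.hC
  rw [t.hM, Finset.card_insert_of_notMem t.zC]
  omega

theorem mN {w : V} : w ∈ insert r C ↔ (w ∈ X ∧ w ∉ P ∧ w ≠ x ∧ w ≠ x') ∧ G.Adj x w := by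
  rw [← t.hN, mem_nb, mem_hb]

theorem mM {w : V} : w ∈ insert z C ↔ (w ∈ X ∧ w ∉ P ∧ w ≠ y ∧ w ≠ y') ∧ G.Adj y w := by
  rw [← t.hM, mem_nb, mem_hb]

theorem axx : G.Adj x x' := (t.L.low0 t.B t.fx).1

theorem ayy : G.Adj y y' := (t.L.low0 t.Bu t.fy).1

theorem yH : y ∈ hb X P x x' := t.st.hT (mem_insert_self _ _)

theorem yH' : y' ∈ hb X P x x' := t.st.hT (mem_insert_of_mem (mem_insert_self _ _))

theorem rH : r ∈ hb X P x x' := t.st.hT t.st.hr

theorem CH {w : V} (hw : w ∈ C) : w ∈ hb X P x x' :=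
  t.st.hT (mem_insert_of_mem (mem_insert_of_mem (mem_insert_of_mem hw)))

theorem yN : y ∉ insert r C := by
  rw [← t.hN]
  exact (t.L.lowT t.B t.fx t.Bu t.xu).2.2.1

theorem yN' : y' ∉ insert r C := by
  rw [← t.hN]
  exact (t.L.lowT t.B t.fx t.Bu t.xu).2.2.2.1

theorem cy : ¬ G.Adj c y := by
  have h := mem_hb.1 t.yH
  exact t.B.na (mem_sdiff.2 ⟨h.1, h.2.1⟩) h.2.2.1 h.2.2.2

theorem cy' : ¬ G.Adj c y' := by
  have h := mem_hb.1 t.yH'
  exact t.B.na (mem_sdiff.2 ⟨h.1, h.2.1⟩) h.2.2.1 h.2.2.2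

theorem xy : ¬ G.Adj x y := fun e => t.yN (t.mN.2 ⟨mem_hb.1 t.yH, e⟩)

theorem xy' : ¬ G.Adj x y' := fun e => t.yN' (t.mN.2 ⟨mem_hb.1 t.yH', e⟩)

theorem xM : x ∉ insert z C := by
  rw [← t.hM]
  exact (t.L.lowT t.Bu t.fy t.B (fun e => t.cy e.symm)).2.2.1

theorem xM' : x' ∉ insert z C := by
  rw [← t.hM]
  exact (t.L.lowT t.Bu t.fy t.B (fun e => t.cy e.symm)).2.2.2.1

theorem clqR : Clq G (insert y (insert y' C)) := by
  refine Ld.clq_subL t.st.clq ?_
  intro w hw
  have hry : r ≠ y := fun e => t.yN (e ▸ mem_insert_self _ _)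
  have hry' : r ≠ y' := fun e => t.yN' (e ▸ mem_insert_self _ _)
  rw [mem_insert, mem_insert] at hw
  rcases hw with h | h | h
  · rw [h]
    exact mem_erase.2 ⟨Ne.symm hry, mem_insert_self _ _⟩
  · rw [h]
    exact mem_erase.2 ⟨Ne.symm hry', mem_insert_of_mem (mem_insert_self _ _)⟩
  · exact mem_erase.2 ⟨fun e => t.rC (e ▸ h), mem_insert_of_mem (mem_insert_of_mem
      (mem_insert_of_mem h))⟩

theorem xC : x ∉ C := fun e => t.xM (mem_insert_of_mem e)

theorem xC' : x' ∉ C := fun e => t.xM' (mem_insert_of_mem e)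

theorem yC : y ∉ C := fun e => t.yN (mem_insert_of_mem e)

theorem yC' : y' ∉ C := fun e => t.yN' (mem_insert_of_mem e)

theorem dxy : x ≠ y := fun e => (mem_hb.1 t.yH).2.2.1 e.symm

theorem dxy' : x ≠ y' := fun e => (mem_hb.1 t.yH').2.2.1 e.symm

theorem dx'y : x' ≠ y := fun e => (mem_hb.1 t.yH).2.2.2 e.symm

theorem dx'y' : x' ≠ y' := fun e => (mem_hb.1 t.yH').2.2.2 e.symm

theorem r_y : r ≠ y := fun e => t.yN (e ▸ mem_insert_self _ _)

theorem r_y' : r ≠ y' := fun e => t.yN' (e ▸ mem_insert_self _ _)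

theorem r_x : r ≠ x := (mem_hb.1 t.rH).2.2.1

theorem r_x' : r ≠ x' := (mem_hb.1 t.rH).2.2.2

/-- the numbers at `x` -/
theorem num : exs G k X P ≤ 1 ∧ ps G k (hb X P x x') ≤ 2 ∧ 0 ≤ ps G k (hb X P x x') ∧
    (exs G k X P = 1 → (nb G (hb X P x x') x').card + 2 = k ∧ ps G k (hb X P x x') = 0 ∧
      -4 ≤ ps G k X ∧ (nb G (hb X P y y') y').card + 2 = k) := by
  have h1 := (t.L.low0 t.B t.fx).2
  have h0 := t.L.F.mc.ps_le
  have g1 := t.L.ge2 t.B.symm
  rw [hb_comm X P x' x] at g1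
  have g1' : (k : ℤ) ≤ (nb G (hb X P x x') x').card + 2 := by exact_mod_cast g1
  have h4 := (t.L.F.bp _ _ _ t.B).ps0
  have h5 := Int.natCast_nonneg (exs G k X P)
  have h6 : (exs G k X P : ℤ) ≤ 1 := by linarith
  refine ⟨by exact_mod_cast h6, by linarith, h4, fun h7 => ?_⟩
  rw [h7] at h1
  push_cast at h1
  have h8 : ((nb G (hb X P x x') x').card : ℤ) + 2 ≤ k := by linarith
  have h8' : (nb G (hb X P x x') x').card + 2 ≤ k := by exact_mod_cast h8
  have h9 : (nb G (hb X P x x') x').card + 2 = k := by omega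
  have h9' : ((nb G (hb X P x x') x').card : ℤ) + 2 = k := by exact_mod_cast h9
  have h10 : ps G k (hb X P x x') = 0 := by linarith
  have h11 := (t.L.F.bp _ _ _ t.B).bstar
  rw [if_pos t.axx, h10, h7] at h11
  have h12 : ((nb G (hb X P x x') x).card : ℤ) + 2 = k := by exact_mod_cast t.fx
  have h13 := (t.L.low0 t.Bu t.fy).2
  have h14 := (t.L.F.bp _ _ _ t.Bu).ps0
  have g2 := t.L.ge2 t.Bu.symm
  rw [hb_comm X P y' y] at g2
  rw [h7] at h13
  push_cast at h13 h11
  have h15 : ((nb G (hb X P y y') y').card : ℤ) + 2 ≤ k := by linarith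
  have h15' : (nb G (hb X P y y') y').card + 2 ≤ k := by exact_mod_cast h15
  exact ⟨h9, h10, by linarith, by omega⟩

/-- the set `Z` -/
theorem mZ {w : V} : w ∈ hb X P x x' \ insert y (insert y' (insert r C)) ↔
    w ∈ X ∧ w ∉ P ∧ w ≠ x ∧ w ≠ x' ∧ w ≠ y ∧ w ≠ y' ∧ w ≠ r ∧ w ∉ C := by
  rw [mem_sdiff, mem_hb, mem_insert, mem_insert, mem_insert]
  tauto

theorem Nx {w : V} (hw : w ∈ hb X P x x' \ insert y (insert y' (insert r C))) :
    ¬ G.Adj x w := by
  intro e
  have h := t.mZ.1 hw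
  have h1 := t.mN.2 ⟨⟨h.1, h.2.1, h.2.2.1, h.2.2.2.1⟩, e⟩
  rw [mem_insert] at h1
  exact h1.elim h.2.2.2.2.2.2.1 h.2.2.2.2.2.2.2

theorem Ny {w : V} (hw : w ∈ hb X P x x' \ insert y (insert y' (insert r C)))
    (e : G.Adj y w) : w = z := by
  have h := t.mZ.1 hw
  have h1 := t.mM.2 ⟨⟨h.1, h.2.1, h.2.2.2.2.1, h.2.2.2.2.2.1⟩, e⟩
  rw [mem_insert] at h1
  exact h1.resolve_right h.2.2.2.2.2.2.2

theorem notZ {w : V} (h : w ∈ P ∨ w = x ∨ w = x' ∨ w = y ∨ w = y' ∨ w = r ∨ w ∈ C) :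
    w ∉ hb X P x x' \ insert y (insert y' (insert r C)) := by
  rw [t.mZ]
  tauto

/-- no third class -/
theorem cls {v : V} (hv : v ∈ P) (hd : (nb G X v).card = k) (hvx : ¬ G.Adj v x) :
    G.Adj v y := by
  by_contra hvy
  have h5 := t.L.h5
  obtain ⟨a, b, Bv⟩ := base_mk t.L.F.hP t.L.F.hPc t.L.F.hPq hv hd
  have hvP := t.L.F.hP hv
  have dvx : v ≠ x := fun e => (mem_sdiff.1 t.B.hx).2 (e ▸ hv)
  have dvy : v ≠ y := fun e => (mem_hb.1 t.yH).2.1 (e ▸ hv)
  obtain ⟨-, h1⟩ := t.L.tri t.B t.st t.num.2.1 (a := v) (b := x) (d := y) hvP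
    (mem_sdiff.1 t.B.hx).1 (mem_hb.1 t.yH).1 (t.notZ (Or.inl hv))
    (t.notZ (Or.inr (Or.inl rfl)))
    (t.notZ (Or.inr (Or.inr (Or.inr (Or.inl rfl))))) dvx dvy t.dxy hvx hvy t.xy
    (S := {a, b, z}) (by
      intro w hw e
      have h := t.mZ.1 hw
      rw [mem_insert, mem_insert]
      by_contra hcon
      push Not at hcon
      exact Bv.na (mem_sdiff.2 ⟨h.1, h.2.1⟩) hcon.1 hcon.2.1 e) (by
      intro w hw e
      exact absurd e (t.Nx hw)) (by
      intro w hw e
      rw [mem_insert, mem_insert, mem_singleton]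
      exact Or.inr (Or.inr (t.Ny hw e)))
  have h2 : ({a, b, z} : Finset V).card ≤ 3 := Finset.card_le_three
  omega

end TO

end Pool.Agent.TwoDens.TS
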