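import Pool.Agent.TKS.LDa

/-!
Low vertices, centre in the neighbourhood: sparsity.
-/

open Finset

namespace Pool.Agent.TwoDens.TS

open Pool.Agent.TwoDens Pool.Agent.TwoDens.RK Pool.Agent.TwoDens.DD

variable {V : Type*} [DecidableEq V] {G : SimpleGraph V} [DecidableRel G.Adj]

namespace TO
variable {k : ℕ} {X P : Finset V} {c x x' u y y' r z : V} {C : Finset V}
  (t : TO G k X P c x x' u y y' r z C)
include t

theorem sp : ∑ v ∈ P, (nb G (insert x (insert x' (insert y (insert y' C)))) v).card ≤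
      k + (nb Gᶜ (insert y (insert y' C)) x').card ∧
    2 * ∑ v ∈ P, (nb G (insert x (insert x' (insert y (insert y' C)))) v).card +
      2 * (nb G (insert x (insert x' (insert y (insert y' C)))) r).card ≤
      3 * k + 2 * (nb Gᶜ (insert y (insert y' C)) x').card + 2 := by
  have hk := t.L.F.mc.hk
  have hPc := t.L.F.hPc
  have hC := t.hC
  have hxX := mem_sdiff.1 t.B.hx
  have hxX' := mem_sdiff.1 t.B.hx'
  have hyX := mem_sdiff.1 t.Bu.hx
  have hyX' := mem_sdiff.1 t.Bu.hx'
  have yne := t.Bu.hne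
  have e3 : y ∉ insert y' C := by
    rw [mem_insert, not_or]
    exact ⟨yne, t.yC⟩
  have e2' : x' ∉ insert y (insert y' C) := by
    rw [mem_insert, mem_insert, not_or, not_or]
    exact ⟨t.dx'y, t.dx'y', t.xC'⟩
  have e1 : x ∉ insert x' (insert y (insert y' C)) := by
    rw [mem_insert, mem_insert, mem_insert, not_or, not_or, not_or]
    exact ⟨t.B.hne, t.dxy, t.dxy', t.xC⟩
  have hE1 : e2 Gᶜ (insert x (insert x' (insert y (insert y' C)))) =
      2 * (nb Gᶜ (insert y (insert y' C)) x').card +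
      2 * (nb Gᶜ (insert x' (insert y (insert y' C))) x).card := by
    rw [e2c_insert e1, e2c_insert e2', clq_e2c t.clqR]
    omega
  have hm2 : (nb Gᶜ (insert x' (insert y (insert y' C))) x).card ≤ 2 := by
    refine Ld.nbc_two (s := y) (t := y') fun w hw h1 h2 => ?_
    rw [mem_insert, mem_insert, mem_insert] at hw
    rcases hw with h | h
    · exact h ▸ t.axx
    · exact (t.mN.1 (mem_insert_of_mem ((h.resolve_left h1).resolve_left h2))).2
  have hF1m : ∀ {w : V}, w ∈ insert x (insert x' (insert y (insert y' C))) ↔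
      w = x ∨ w = x' ∨ w = y ∨ w = y' ∨ w ∈ C := by
    intro w
    rw [mem_insert, mem_insert, mem_insert, mem_insert]
  obtain ⟨F1, hF1⟩ : ∃ F1, F1 = insert x (insert x' (insert y (insert y' C))) := ⟨_, rfl⟩
  have hF1c : F1.card = k + 1 := by
    rw [hF1, Finset.card_insert_of_notMem e1, Finset.card_insert_of_notMem e2',
      Finset.card_insert_of_notMem e3, Finset.card_insert_of_notMem t.yC']
    omega
  rw [← hF1] at hE1 hF1m ⊢
  have hCX : ∀ {w : V}, w ∈ C → w ∈ X ∧ w ∉ P := fun hw =>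
    ⟨(mem_hb.1 (t.CH hw)).1, (mem_hb.1 (t.CH hw)).2.1⟩
  have hF1X : ∀ w ∈ F1, w ∈ X ∧ w ∉ P := by
    intro w hw
    rcases hF1m.1 hw with h | h | h | h | h
    · exact h ▸ hxX
    · exact h ▸ hxX'
    · exact h ▸ hyX
    · exact h ▸ hyX'
    · exact hCX h
  have hF1P : Disjoint P F1 := by
    rw [Finset.disjoint_left]
    intro w hw hw'
    exact (hF1X w hw').2 hw
  obtain ⟨S, hS⟩ : ∃ S, S = P ∪ F1 := ⟨_, rfl⟩
  have hSc : S.card = 2 * k := by
    rw [hS, Finset.card_union_of_disjoint hF1P]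
    omega
  have hSX : S ⊆ X := by
    rw [hS]
    exact Finset.union_subset t.L.F.hP (fun w hw => (hF1X w hw).1)
  have hSd : S \ P = F1 := by
    rw [hS, Finset.union_sdiff_left]
    exact Finset.sdiff_eq_self_of_disjoint hF1P.symm
  have hrS : r ∉ S := by
    rw [hS, mem_union, not_or, hF1m]
    refine ⟨(mem_hb.1 t.rH).2.1, ?_⟩
    push Not
    exact ⟨t.r_x, t.r_x', t.r_y, t.r_y', t.rC⟩
  have hrX : r ∈ X := (mem_hb.1 t.rH).1
  have h1 := e2_sdiff (G := G) (X := S) (R := P) (by rw [hS]; exact Finset.subset_union_left)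
  have h2 := clq_e2 (G := G) t.L.F.hPq
  have h3 := e2_add_compl (G := G) F1
  have h4 := t.L.F.mc.hS S hSX (by omega)
  have h5 : ∑ v ∈ P, (nb G S v).card = P.card * (k - 2) + ∑ v ∈ P, (nb G F1 v).card := by
    rw [← smul_eq_mul, ← Finset.sum_const, ← Finset.sum_add_distrib]
    refine Finset.sum_congr rfl fun v hv => ?_
    have h6 : nb G S v = P.erase v ∪ nb G F1 v := by
      ext w
      rw [mem_union, mem_nb, hS, mem_union, mem_erase, mem_nb]
      constructor
      · rintro ⟨h | h, h'⟩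
        · exact Or.inl ⟨fun e => G.loopless.irrefl v (e ▸ h'), h⟩
        · exact Or.inr ⟨h, h'⟩
      · rintro (⟨h, h'⟩ | ⟨h, h'⟩)
        · exact ⟨Or.inl h', t.L.F.hPq v hv w h' (Ne.symm h)⟩
        · exact ⟨Or.inr h, h'⟩
    rw [h6, Finset.card_union_of_disjoint, Finset.card_erase_of_mem hv]
    · omega
    · exact hF1P.mono (Finset.erase_subset _ _) (nb_sub _ _)
  rw [hSd] at h1
  rw [hSc] at h4
  rw [hF1c] at h3
  rw [h5] at h1
  have g1 := e2_add_compl (G := G) S
  have g2 := e2_add_compl (G := G) (insert r S)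
  have g3 := t.L.F.mc.hS (insert r S) (Finset.insert_subset hrX hSX) (by
    rw [Finset.card_insert_of_notMem hrS]
    omega)
  rw [e2c_insert hrS, Finset.card_insert_of_notMem hrS, hSc] at g2
  rw [Finset.card_insert_of_notMem hrS, hSc] at g3
  rw [hSc] at g1
  have g4 := nbc_card' (G := G) hrS
  have g5 : (nb G F1 r).card ≤ (nb G S r).card := Finset.card_le_card (nb_mono (by
    rw [hS]
    exact Finset.subset_union_right) r)
  rw [hSc] at g4
  obtain ⟨D, hD⟩ : ∃ D, ∑ v ∈ P, (nb G F1 v).card = D := ⟨_, rfl⟩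
  rw [hD] at h1 ⊢
  obtain ⟨m, rfl⟩ : ∃ m, k = m + 2 := ⟨k - 2, by omega⟩
  have hPm : P.card = m + 1 := by omega
  rw [hPm, Nat.add_sub_cancel] at h1
  rw [hPm] at h2
  have a1 : (m + 1) * (m + 1) = m * m + 2 * m + 1 := by ring
  have a2 : (m + 1) * m = m * m + m := by ring
  have a3 : (m + 2 + 1) * (m + 2 + 1) = m * m + 6 * m + 9 := by ring
  have a4 : (m + 2 + 1) * (2 * (m + 2)) = 2 * (m * m) + 10 * m + 12 := by ring
  have a5 : 2 * (m + 2) * (2 * (m + 2)) = 4 * (m * m) + 16 * m + 16 := by ring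
  have a6 : (2 * (m + 2) + 1) * (2 * (m + 2) + 1) = 4 * (m * m) + 20 * m + 25 := by ring
  have a7 : (m + 2 + 1) * (2 * (m + 2) + 1) = 2 * (m * m) + 11 * m + 15 := by ring
  rw [a1] at h2
  rw [a2] at h1
  rw [a3] at h3
  rw [a4] at h4
  rw [a5] at g1
  rw [a6] at g2
  rw [a7] at g3
  constructor
  · omega
  · omega

end TO

end Pool.Agent.TwoDens.TS
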