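import Pool.Agent.TKS.LDb

/-!
Low vertices, centre in the neighbourhood: the two cases, and the first one.
-/

open Finset

namespace Pool.Agent.TwoDens.TS

open Pool.Agent.TwoDens Pool.Agent.TwoDens.RK Pool.Agent.TwoDens.DD

variable {V : Type*} [DecidableEq V] {G : SimpleGraph V} [DecidableRel G.Adj]

/-- construction of the configuration -/
theorem LF.mkTO {k : ℕ} {X P : Finset V} (L : LF G k X P) (t2 : NoT2 G k X P)
    {c x x' u y y' r : V} {C : Finset V} (B : Base G k X P c x x') (Bu : Base G k X P u y y')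
    (hN : nb G (hb X P x x') x = insert r C) (rC : r ∉ C) (hC : C.card + 3 = k)
    (xu : ¬ G.Adj x u)
    (st : StarT G k (hb X P x x') (insert y (insert y' (insert r C))) r)
    (hfy : (nb G (hb X P y y') y).card + 2 = k) : ∃ z, TO G k X P c x x' u y y' r z C := by
  have hf : (nb G (hb X P x x') x).card + 2 = k := by
    rw [hN, Finset.card_insert_of_notMem rC]
    omega
  obtain ⟨m1, m2, n1, n2, -⟩ := L.lowT B hf Bu xu
  rw [hN] at n1 n2
  have hsub : C ⊆ nb G (hb X P y y') y := by
    intro w hw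
    have hwN : w ∈ insert r C := mem_insert_of_mem hw
    have h1 : w ∈ nb G (hb X P x x') x := by rw [hN]; exact hwN
    have h2 := mem_hb.1 (mem_nb.1 h1).1
    have hwy : w ≠ y := fun e => n1 (e ▸ hwN)
    have hwy' : w ≠ y' := fun e => n2 (e ▸ hwN)
    have hry : y ≠ r := fun e => n1 (e ▸ mem_insert_self _ _)
    refine mem_nb.2 ⟨mem_hb.2 ⟨h2.1, h2.2.1, hwy, hwy'⟩, ?_⟩
    exact st.clq y (mem_erase.2 ⟨hry, mem_insert_self _ _⟩) w (mem_erase.2
      ⟨fun e => rC (e ▸ hw), mem_insert_of_mem (mem_insert_of_mem hwN)⟩) (Ne.symm hwy)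
  have h3 := Finset.card_sdiff_of_subset hsub
  have h4 : (nb G (hb X P y y') y \ C).card = 1 := by omega
  obtain ⟨z, hz⟩ := Finset.card_eq_one.1 h4
  have hzm : z ∈ nb G (hb X P y y') y \ C := by rw [hz]; exact mem_singleton_self z
  have hM : nb G (hb X P y y') y = insert z C := by
    rw [← Finset.sdiff_union_of_subset hsub, hz, Finset.insert_eq]
  exact ⟨z, L, t2, B, Bu, hN, rC, hC, xu, st, hM, (mem_sdiff.1 hzm).2⟩

namespace TO
variable {k : ℕ} {X P : Finset V} {c x x' u y y' r z : V} {C : Finset V}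
  (t : TO G k X P c x x' u y y' r z C)
include t

theorem swap (h : exs G k X P = 1) : ∃ z', TO G k X P c x x' u y' y r z' C := by
  have hst := t.st
  rw [Finset.insert_comm] at hst
  refine t.L.mkTO t.t2 t.B t.Bu.symm t.hN t.rC t.hC t.xu hst ?_
  rw [hb_comm X P y' y]
  exact (t.num.2.2.2 h).2.2.2

/-- the two cases -/
theorem AorB : (∃ s ∈ C, G.Adj x' r ∧ G.Adj y r ∧ (∀ w ∈ C, w ≠ s → G.Adj r w) ∧
      (∀ w ∈ C, w ≠ s → G.Adj x' w)) ∨ (∀ w ∈ C, G.Adj x' w) := by
  obtain ⟨-, -, -, -, s, hS, -⟩ := t.L.lowT t.Bu t.fy t.B (fun e => t.cy e.symm)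
  have hyc : ¬ G.Adj y c := fun e => t.cy e.symm
  have hsx : s ≠ x := by
    rintro rfl
    exact t.t2 u y y' c s x' t.Bu t.fy t.B hyc hS
  have hsx' : s ≠ x' := by
    rintro rfl
    rw [Finset.insert_comm] at hS
    exact t.t2 u y y' c s x t.Bu t.fy t.B.symm hyc hS
  rw [t.hM] at hS
  have hs := hS.hr
  rw [mem_insert, mem_insert] at hs
  have hsM := (hs.resolve_left hsx).resolve_left hsx'
  have hx : x ∈ (insert x (insert x' (insert z C))).erase s :=
    mem_erase.2 ⟨Ne.symm hsx, mem_insert_self _ _⟩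
  have hx' : x' ∈ (insert x (insert x' (insert z C))).erase s :=
    mem_erase.2 ⟨Ne.symm hsx', mem_insert_of_mem (mem_insert_self _ _)⟩
  have hCm : ∀ {w : V}, w ∈ C → w ≠ s → w ∈ (insert x (insert x' (insert z C))).erase s :=
    fun hw e => mem_erase.2 ⟨e, mem_insert_of_mem (mem_insert_of_mem (mem_insert_of_mem hw))⟩
  by_cases hsC : s ∈ C
  · left
    have hzs : z ≠ s := fun e => t.zC (by rw [e]; exact hsC)
    have hz : z ∈ (insert x (insert x' (insert z C))).erase s := mem_erase.2 ⟨hzs,
      mem_insert_of_mem (mem_insert_of_mem (mem_insert_self _ _))⟩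
    have hzx : x ≠ z := fun e => t.xM (e ▸ mem_insert_self _ _)
    have hzx' : x' ≠ z := fun e => t.xM' (e ▸ mem_insert_self _ _)
    have hzM := t.mM.1 (mem_insert_self z C)
    have h1 := t.mN.2 ⟨⟨hzM.1.1, hzM.1.2.1, Ne.symm hzx, Ne.symm hzx'⟩,
      hS.clq x hx z hz hzx⟩
    rw [mem_insert] at h1
    have hzr := h1.resolve_right t.zC
    refine ⟨s, hsC, hzr ▸ hS.clq x' hx' z hz hzx', hzr ▸ hzM.2, fun w hw e => ?_,
      fun w hw e => ?_⟩
    · rw [← hzr]
      exact hS.clq z hz w (hCm hw e) (fun e' => t.zC (e' ▸ hw))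
    · exact hS.clq x' hx' w (hCm hw e) (fun e' => t.xC' (e' ▸ hw))
  · right
    intro w hw
    exact hS.clq x' hx' w (hCm hw (fun e => hsC (e ▸ hw))) (fun e' => t.xC' (e' ▸ hw))

/-- two neighbours in the set of `k + 1` vertices -/
theorem D2 {v : V} (hv : v ∈ P) (hd : (nb G X v).card = k) :
    2 ≤ (nb G (insert x (insert x' (insert y (insert y' C)))) v).card := by
  by_cases h : G.Adj v x
  · have h1 : ({x, x'} : Finset V) ⊆ nb G (insert x (insert x' (insert y (insert y' C)))) v := by
      intro w hw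
      rw [mem_insert, mem_singleton] at hw
      rcases hw with hw | hw
      · rw [hw]
        exact mem_nb.2 ⟨mem_insert_self _ _, h⟩
      · rw [hw]
        exact mem_nb.2 ⟨mem_insert_of_mem (mem_insert_self _ _), (t.L.iff _ _ _ t.B _ hv hd).1 h⟩
    have := Finset.card_le_card h1
    rw [Finset.card_pair t.B.hne] at this
    exact this
  · have h2 := t.cls hv hd h
    have h1 : ({y, y'} : Finset V) ⊆ nb G (insert x (insert x' (insert y (insert y' C)))) v := by
      intro w hw
      rw [mem_insert, mem_singleton] at hw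
      rcases hw with hw | hw
      · rw [hw]
        exact mem_nb.2 ⟨mem_insert_of_mem (mem_insert_of_mem (mem_insert_self _ _)), h2⟩
      · rw [hw]
        exact mem_nb.2 ⟨mem_insert_of_mem (mem_insert_of_mem (mem_insert_of_mem
          (mem_insert_self _ _))), (t.L.iff _ _ _ t.Bu _ hv hd).1 h2⟩
    have := Finset.card_le_card h1
    rw [Finset.card_pair t.Bu.hne] at this
    exact this

theorem D0 (h : ∀ v ∈ P, (nb G X v).card = k) :
    2 * k ≤ ∑ v ∈ P, (nb G (insert x (insert x' (insert y (insert y' C)))) v).card + 2 := by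
  have h1 := Finset.card_nsmul_le_sum P
    (fun v => (nb G (insert x (insert x' (insert y (insert y' C)))) v).card) 2
    (fun v hv => t.D2 hv (h v hv))
  have h2 := t.L.F.hPc
  rw [smul_eq_mul] at h1
  omega

theorem D1 {p : V} (hp : p ∈ P) (h : ∀ v ∈ P, v ≠ p → (nb G X v).card = k) :
    2 * k + (nb G (insert x (insert x' (insert y (insert y' C)))) p).card ≤
      ∑ v ∈ P, (nb G (insert x (insert x' (insert y (insert y' C)))) v).card + 4 := by
  have h1 := Finset.card_nsmul_le_sum (P.erase p)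
    (fun v => (nb G (insert x (insert x' (insert y (insert y' C)))) v).card) 2
    (fun v hv => t.D2 (mem_of_mem_erase hv) (h v (mem_of_mem_erase hv) (ne_of_mem_erase hv)))
  have h2 := t.L.F.hPc
  have h3 := Finset.card_erase_add_one hp
  have h4 := Finset.add_sum_erase P
    (fun v => (nb G (insert x (insert x' (insert y (insert y' C)))) v).card) hp
  rw [smul_eq_mul] at h1
  have hk := t.L.F.mc.hk
  omega

theorem mF {w : V} : w ∈ insert x (insert x' (insert y (insert y' C))) ↔
    w = x ∨ w = x' ∨ w = y ∨ w = y' ∨ w ∈ C := by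
  rw [mem_insert, mem_insert, mem_insert, mem_insert]

theorem cF : (insert x (insert x' (insert y (insert y' C)))).card = k + 1 := by
  have hC := t.hC
  have e3 : y ∉ insert y' C := by
    rw [mem_insert, not_or]
    exact ⟨t.Bu.hne, t.yC⟩
  have e2' : x' ∉ insert y (insert y' C) := by
    rw [mem_insert, mem_insert, not_or, not_or]
    exact ⟨t.dx'y, t.dx'y', t.xC'⟩
  have e1 : x ∉ insert x' (insert y (insert y' C)) := by
    rw [mem_insert, mem_insert, mem_insert, not_or, not_or, not_or]
    exact ⟨t.B.hne, t.dxy, t.dxy', t.xC⟩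
  rw [Finset.card_insert_of_notMem e1, Finset.card_insert_of_notMem e2',
    Finset.card_insert_of_notMem e3, Finset.card_insert_of_notMem t.yC']
  omega

theorem rF : r ∉ insert x (insert x' (insert y (insert y' C))) := by
  rw [t.mF]
  push Not
  exact ⟨t.r_x, t.r_x', t.r_y, t.r_y', t.rC⟩

/-- neighbours of a vertex of degree `k + 1` -/
theorem zp {p : V} (hp : p ∈ P) (hd : (nb G X p).card = k + 1) :
    (nb G (hb X P x x' \ insert y (insert y' (insert r C))) p).card +
      (nb G (insert x (insert x' (insert y (insert y' C)))) p).card ≤ 3 := by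
  have h1 := card_nbP t.L.F.hP t.L.F.hPc t.L.F.hPq hp
  have h2 : (nb G (X \ P) p).card = 3 := by omega
  rw [← h2, ← Finset.card_union_of_disjoint]
  · refine Finset.card_le_card (Finset.union_subset ?_ ?_)
    · exact nb_mono (fun w hw => mem_sdiff.2 ⟨(t.mZ.1 hw).1, (t.mZ.1 hw).2.1⟩) p
    · refine nb_mono (fun w hw => ?_) p
      rcases t.mF.1 hw with h | h | h | h | h
      · exact h ▸ t.B.hx
      · exact h ▸ t.B.hx'
      · exact h ▸ t.Bu.hx
      · exact h ▸ t.Bu.hx'
      · have := mem_hb.1 (t.CH h)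
        exact mem_sdiff.2 ⟨this.1, this.2.1⟩
  · rw [Finset.disjoint_left]
    intro w hw hw'
    have h3 := t.mZ.1 (mem_nb.1 hw).1
    rcases t.mF.1 (mem_nb.1 hw').1 with h | h | h | h | h
    · exact h3.2.2.1 h
    · exact h3.2.2.2.1 h
    · exact h3.2.2.2.2.1 h
    · exact h3.2.2.2.2.2.1 h
    · exact h3.2.2.2.2.2.2.2 h

/-- the triple of a vertex of degree `k + 1` with `x, y` -/
theorem pxy {p : V} (hp : p ∈ P) (hpx : ¬ G.Adj p x) (hpy : ¬ G.Adj p y) :
    Tr G (hb X P x x' \ insert y (insert y' (insert r C)))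
      (insert z (nb G (hb X P x x' \ insert y (insert y' (insert r C))) p)) ∧
    k ≤ (insert z (nb G (hb X P x x' \ insert y (insert y' (insert r C))) p)).card + 1 := by
  have dvx : p ≠ x := fun e => (mem_sdiff.1 t.B.hx).2 (e ▸ hp)
  have dvy : p ≠ y := fun e => (mem_hb.1 t.yH).2.1 (e ▸ hp)
  refine t.L.tri t.B t.st t.num.2.1 (a := p) (b := x) (d := y) (t.L.F.hP hp)
    (mem_sdiff.1 t.B.hx).1 (mem_hb.1 t.yH).1 (t.notZ (Or.inl hp))
    (t.notZ (Or.inr (Or.inl rfl)))
    (t.notZ (Or.inr (Or.inr (Or.inr (Or.inl rfl))))) dvx dvy t.dxy hpx hpy t.xy ?_ ?_ ?_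
  · intro w hw e
    exact mem_insert_of_mem (mem_nb.2 ⟨hw, e⟩)
  · intro w hw e
    exact absurd e (t.Nx hw)
  · intro w hw e
    rw [t.Ny hw e]
    exact mem_insert_self _ _

/-- the first case -/
theorem Afalse {s : V} (hs : s ∈ C) (h1 : G.Adj x' r) (h2 : G.Adj y r)
    (h3 : ∀ w ∈ C, w ≠ s → G.Adj r w) (h4 : ∀ w ∈ C, w ≠ s → G.Adj x' w)
    (hz : ∀ w ∈ hb X P x x' \ insert y (insert y' (insert r C)), ¬ G.Adj y w) : False := by
  have h5 := t.L.h5
  obtain ⟨sp1, sp2⟩ := t.sp
  have hnum := t.num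
  have hmle : (nb Gᶜ (insert y (insert y' C)) x').card ≤ 3 := by
    refine (Ld.nbc_le (S := {s, y, y'}) fun w hw h6 _ => ?_).trans Finset.card_le_three
    rw [mem_insert, mem_insert, mem_singleton] at h6
    push Not at h6
    rw [mem_insert, mem_insert] at hw
    exact h4 w ((hw.resolve_left h6.2.1).resolve_left h6.2.2) h6.1
  have hr2 : (nb Gᶜ (insert x (insert x' (insert y (insert y' C)))) r).card ≤ 2 := by
    refine Ld.nbc_two (s := s) (t := y') fun w hw h6 h7 => ?_
    rcases t.mF.1 hw with h | h | h | h | h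
    · rw [h]
      exact (t.mN.1 (mem_insert_self _ _)).2.symm
    · exact h ▸ h1.symm
    · exact h ▸ h2.symm
    · exact absurd h h7
    · exact h3 w h h6
  have hrc := nbc_card' (G := G) t.rF
  have hcF := t.cF
  by_cases hex : exs G k X P = 0
  · have hD := t.D0 (exs_none (fun v hv => t.L.F.mc.deg_ge v (t.L.F.hP hv)) hex)
    omega
  · have hex1 : exs G k X P = 1 := by have := hnum.1; omega
    obtain ⟨p, hp, hpd, hpo⟩ := exs_one (fun v hv => t.L.F.mc.deg_ge v (t.L.F.hP hv)) hex1
    have hD := t.D1 hp hpo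
    have hzp := t.zp hp hpd
    have hj : 1 ≤ (nb G (insert x (insert x' (insert y (insert y' C)))) p).card := by
      by_contra hcon
      have h0 : nb G (insert x (insert x' (insert y (insert y' C)))) p = ∅ := by
        rw [← Finset.card_eq_zero]
        omega
      have hpx : ¬ G.Adj p x := fun e => by
        have : x ∈ nb G (insert x (insert x' (insert y (insert y' C)))) p :=
          mem_nb.2 ⟨mem_insert_self _ _, e⟩
        rw [h0] at this
        exact Finset.notMem_empty _ this
      have hpy : ¬ G.Adj p y := fun e => by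
        have : y ∈ nb G (insert x (insert x' (insert y (insert y' C)))) p :=
          mem_nb.2 ⟨mem_insert_of_mem (mem_insert_of_mem (mem_insert_self _ _)), e⟩
        rw [h0] at this
        exact Finset.notMem_empty _ this
      have dvx : p ≠ x := fun e => (mem_sdiff.1 t.B.hx).2 (e ▸ hp)
      have dvy : p ≠ y := fun e => (mem_hb.1 t.yH).2.1 (e ▸ hp)
      have h6 := (t.L.tri t.B t.st hnum.2.1 (a := p) (b := x) (d := y) (t.L.F.hP hp)
        (mem_sdiff.1 t.B.hx).1 (mem_hb.1 t.yH).1 (t.notZ (Or.inl hp))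
        (t.notZ (Or.inr (Or.inl rfl)))
        (t.notZ (Or.inr (Or.inr (Or.inr (Or.inl rfl))))) dvx dvy t.dxy hpx hpy t.xy
        (S := nb G (hb X P x x' \ insert y (insert y' (insert r C))) p)
        (fun w hw e => mem_nb.2 ⟨hw, e⟩) (fun w hw e => absurd e (t.Nx hw))
        (fun w hw e => absurd e (hz w hw))).2
      omega
    have hxs : ¬ G.Adj x' s := by
      intro e
      have : (nb Gᶜ (insert y (insert y' C)) x').card ≤ 2 := by
        refine Ld.nbc_two (s := y) (t := y') fun w hw h6 h7 => ?_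
        rw [mem_insert, mem_insert] at hw
        have hwC := (hw.resolve_left h6).resolve_left h7
        by_cases hws : w = s
        · exact hws ▸ e
        · exact h4 w hwC hws
      omega
    obtain ⟨z', t'⟩ := t.swap hex1
    rcases t'.AorB with ⟨s', _, _, h7, _, _⟩ | h6
    · have hr1 : (nb Gᶜ (insert x (insert x' (insert y (insert y' C)))) r).card ≤ 1 := by
        refine Ld.nbc_one (s := s) fun w hw h6 => ?_
        rcases t.mF.1 hw with h | h | h | h | h
        · rw [h]
          exact (t.mN.1 (mem_insert_self _ _)).2.symm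
        · exact h ▸ h1.symm
        · exact h ▸ h2.symm
        · exact h ▸ h7.symm
        · exact h3 w h h6
      omega
    · exact hxs (h6 s hs)

end TO

end Pool.Agent.TwoDens.TS
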