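import Pool.Agent.TKS.LOa

/-!
Low vertices for all `k ≥ 5`: set-up and the star of a low vertex.
-/

open Finset

namespace Pool.Agent.TwoDens.TS

open Pool.Agent.TwoDens Pool.Agent.TwoDens.RK Pool.Agent.TwoDens.DD

variable {V : Type*} [DecidableEq V] {G : SimpleGraph V} [DecidableRel G.Adj]

namespace Lo

theorem nbc0 {Q : Finset V} {v : V} (h : ∀ w ∈ Q, G.Adj v w) : (nb Gᶜ Q v).card = 0 := by
  rw [Finset.card_eq_zero, Finset.eq_empty_iff_forall_notMem]
  intro w hw
  have h1 := mem_nb.1 hw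
  exact ((SimpleGraph.compl_adj _ _ _).1 h1.2).2 (h w h1.1)

/-- missing neighbours in a given set -/
theorem nbcS {Q S : Finset V} {v : V} (h : ∀ w ∈ Q, w ∉ S → w ≠ v → G.Adj v w) :
    (nb Gᶜ Q v).card ≤ S.card := by
  refine Finset.card_le_card fun w hw => ?_
  have h1 := mem_nb.1 hw
  have h2 := (SimpleGraph.compl_adj _ _ _).1 h1.2
  by_contra e
  exact h2.2 (h w h1.1 e (Ne.symm h2.1))

theorem nbc1 {Q : Finset V} {v s : V} (h : ∀ w ∈ Q, w ≠ s → w ≠ v → G.Adj v w) :
    (nb Gᶜ Q v).card ≤ 1 := by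
  refine (nbcS (S := {s}) fun w hw h1 h2 => h w hw (fun e => h1 (by rw [e]; simp)) h2).trans ?_
  simp

theorem nbc2 {Q : Finset V} {v s t : V} (h : ∀ w ∈ Q, w ≠ s → w ≠ t → w ≠ v → G.Adj v w) :
    (nb Gᶜ Q v).card ≤ 2 := by
  refine (nbcS (S := {s, t}) fun w hw h1 h2 => ?_).trans Finset.card_le_two
  rw [mem_insert, mem_singleton, not_or] at h1
  exact h w hw h1.1 h1.2 h2

theorem nbcmono {S T : Finset V} (h : S ⊆ T) (v : V) :
    (nb Gᶜ S v).card ≤ (nb Gᶜ T v).card :=
  Finset.card_le_card (Finset.filter_subset_filter _ h)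

omit [DecidableEq V] [DecidableRel G.Adj] in
theorem clqsub {S T : Finset V} (h : Clq G T) (hS : S ⊆ T) : Clq G S :=
  fun a ha b hb hab => h a (hS ha) b (hS hb) hab

theorem e2cstar {T : Finset V} {r : V} (hr : r ∈ T) (hq : Clq G (T.erase r)) :
    e2 Gᶜ T = 2 * (nb Gᶜ (T.erase r) r).card := by
  have h1 := e2c_insert (G := G) (Finset.notMem_erase r T)
  rw [Finset.insert_erase hr, clq_e2c hq] at h1
  omega

/-- one more vertex beside a star -/
theorem near1 {k : ℕ} {X : Finset V} (H : MC G k X) {T : Finset V} (hT : T ⊆ X)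
    (hc : T.card = k) {r v : V} (hr : r ∈ T)
    (hq : Clq G (T.erase r)) (hv : v ∈ X) (hvT : v ∉ T) :
    k ≤ 2 * ((nb Gᶜ (T.erase r) r).card + (nb Gᶜ T v).card) := by
  have h1 := H.sl1 (F := insert v T) (Finset.insert_subset hv hT) (by
    rw [Finset.card_insert_of_notMem hvT, hc])
  rw [e2c_insert hvT, e2cstar hr hq] at h1
  omega

/-- a vertex with two missing neighbours is the centre -/
theorem centre {k : ℕ} {Y T : Finset V} {r v : V} (hS : StarT G k Y T r) (hv : v ∈ T)
    (h : 2 ≤ (nb Gᶜ T v).card) : v = r := by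
  by_contra hvr
  have : (nb Gᶜ T v).card ≤ 1 := nbc1 (s := r) fun w hw h1 h2 =>
    hS.clq v (mem_erase.2 ⟨hvr, hv⟩) w (mem_erase.2 ⟨h1, hw⟩) (Ne.symm h2)
  omega

end Lo

/-- a frame without an outside vertex adjacent to all vertices of degree `k`, with classes -/
structure LF (G : SimpleGraph V) [DecidableRel G.Adj] (k : ℕ) (X P : Finset V) : Prop where
  F : Fr G k X P
  h5 : 5 ≤ k
  ns : ∀ a ∈ X \ P, ∃ c ∈ P, (nb G X c).card = k ∧ ¬ G.Adj a c
  iff : ∀ c x x', Base G k X P c x x' → ∀ v ∈ P, (nb G X v).card = k →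
    (G.Adj v x ↔ G.Adj v x')

/-- no five-vertex butterfly at a low vertex -/
theorem LF.nofly {X P : Finset V} (L : LF G 5 X P) {c x x' : V} (B : Base G 5 X P c x x')
    (hf : (nb G (hb X P x x') x).card = 3) (hf' : (nb G (hb X P x x') x').card ≤ 3)
    (hex : exs G 5 X P = 0) (hpX : ps G 5 X = -2)
    {W : Finset V} (hW : W ⊆ hb X P x x') (hxW : nb G (hb X P x x') x ⊆ W)
    (hcl : ∀ v ∈ W, nb G (hb X P x x') v ⊆ W) (hal : al G (hb X P x x' \ W) + 2 =
    al G (hb X P x x')) (hps : ps G 5 (hb X P x x' \ W) = 0) (hpW : ps G 5 W ≤ 2) : False := by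
  have hbp := L.F.bp _ _ _ B
  have hmc := L.F.mc
  have hHX : hb X P x x' ⊆ X := hb_sub
  have halH := hbp.alH
  have hmem : ∀ {w : V}, w ∈ hb X P x x' ↔ w ∈ X ∧ w ∉ P ∧ w ≠ x ∧ w ≠ x' := mem_hb
  have hxX := (mem_sdiff.1 B.hx).1
  have htr := fun {v : V} (hv : v ∈ P) (h : ¬ G.Adj x v) => L.F.tr_xu B hv h
  have hnb := fun {v : V} (hv : v ∈ P) => L.F.nbH B hv
  have hHne := B.hbne
  obtain ⟨H, hH⟩ : ∃ H, H = hb X P x x' := ⟨_, rfl⟩
  rw [← hH] at hf hf' hW hxW hcl hal hps hHX halH hHne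
  simp only [← hH] at hmem htr hnb
  obtain ⟨Y, hY⟩ : ∃ Y, Y = H \ W := ⟨_, rfl⟩
  rw [← hY] at hal hps
  have hYH : Y ⊆ H := by rw [hY]; exact Finset.sdiff_subset
  have hxH : x ∉ H := fun e => (hmem.1 e).2.2.1 rfl
  have hWX : W ⊆ X := hW.trans hHX
  have hYX : Y ⊆ X := hYH.trans hHX
  have hWne : W ≠ X := fun e => hxH (hW (e ▸ hxX))
  have hYne : Y ≠ X := fun e => hxH (hYH (e ▸ hxX))
  have tW := hmc.tau1 hWX hWne (by push_cast; linarith)
  have tY := hmc.tau0 hYX hYne (by rw [hps]; norm_num)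
  have hWY : W ∪ Y = H := by rw [hY]; exact Finset.union_sdiff_of_subset hW
  have hd : Disjoint W Y := by rw [hY]; exact Finset.disjoint_sdiff
  have hno : ∀ a ∈ W, ∀ b ∈ Y, ¬ G.Adj a b := by
    intro a ha b hb hab
    exact (Finset.disjoint_left.1 hd) (hcl a ha (mem_nb.2 ⟨hYH hb, hab⟩)) hb
  have hdegP : ∀ v ∈ P, (nb G X v).card = 5 := by
    intro v hv
    unfold exs at hex
    rw [Finset.sum_eq_zero_iff] at hex
    have h1 := hex v hv
    have h2 := L.F.deg_ge (L.F.hP hv)
    omega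
  -- few neighbours of the vertices of `P`
  have hP1 : ∀ v ∈ P, (nb G Y v).card ≤ 1 := by
    intro v hv
    by_cases hxv : G.Adj v x
    · have h1 := hnb hv
      rw [ad_one hxv, ad_one ((L.iff c x x' B v hv (hdegP v hv)).1 hxv), hdegP v hv] at h1
      have h2 := Finset.card_le_card (nb_mono (G := G) hYH v)
      omega
    · have h1 := hnb hv
      rw [ad_zero hxv, ad_zero (fun e => hxv ((L.iff c x x' B v hv (hdegP v hv)).2 e)),
        hdegP v hv] at h1
      have h2 := htr hv (fun e => hxv e.symm)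
      by_contra hcon
      push Not at hcon
      have h3 : nb G H v ∩ Y = nb G Y v := by
        ext w
        rw [mem_inter, mem_nb, mem_nb]
        exact ⟨fun h => ⟨h.2, h.1.2⟩, fun h => ⟨⟨hYH h.1, h.2⟩, h.1⟩⟩
      have h4 : (nb G H v ∩ W).card + (nb G H v ∩ Y).card = (nb G H v).card := by
        rw [← Finset.card_union_of_disjoint (Finset.disjoint_of_subset_left
          Finset.inter_subset_right (Finset.disjoint_of_subset_right
          Finset.inter_subset_right hd)), ← Finset.inter_union_distrib_left, hWY,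
          Finset.inter_eq_left.2 (nb_sub H v)]
      rw [h3] at h4
      rw [← hWY] at h2
      rcases tr_split hno hd h2 with h5 | h5
      · have h6 := tW _ Finset.inter_subset_right h5
        rw [hWY, Finset.union_inter_distrib_right] at h6
        have h7 := Finset.card_union_le (nb G H x ∩ W) (nb G H v ∩ W)
        have h8 := Finset.card_le_card (Finset.inter_subset_left (s₁ := nb G H x) (s₂ := W))
        omega
      · have h6 := tY _ Finset.inter_subset_right h5
        rw [hWY, Finset.union_inter_distrib_right, h3] at h6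
        have h7 : nb G H x ∩ Y = ∅ := by
          rw [← Finset.disjoint_iff_inter_eq_empty]
          exact Finset.disjoint_of_subset_left hxW hd
        rw [h7, Finset.empty_union] at h6
        have h8 := Finset.card_le_card (nb_mono (G := G) hYH v)
        omega
  have hcard : 3 * 5 ≤ X.card := by
    refine hmc.closed3 (Finset.Subset.refl X) ?_
    rw [Finset.sdiff_self, al_empty]
    omega
  rcases Y.eq_empty_or_nonempty with hY0 | hYn
  · -- no further vertices
    rw [hY0, al_empty] at hal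
    have h1 : al G X = 3 := by omega
    have h2 := hmc.hS X (Finset.Subset.refl X) (by omega)
    unfold ps at hpX
    rw [h1] at hpX
    push_cast at hpX
    have h3 : (e2 G X : ℤ) + 2 * 5 + 1 ≤ (5 + 1) * X.card := by exact_mod_cast h2
    have h4 : (15 : ℤ) ≤ X.card := by exact_mod_cast hcard
    linarith
  · have hA : (X \ Y).Nonempty := ⟨x, mem_sdiff.2 ⟨hxX, fun e => hxH (hYH e)⟩⟩
    have h1 := hmc.p1 (A := X \ Y) (B := Y) (by
      rw [Finset.union_comm]; exact Finset.union_sdiff_of_subset hYX) Finset.sdiff_disjoint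
      hA hYn
    obtain ⟨I, hI, hi, hcI⟩ := exists_al (G := G) (X \ Y)
    obtain ⟨E, hE⟩ : ∃ E, E = Y.filter (fun w => ∃ v ∈ I, G.Adj v w) := by
      classical
      exact ⟨_, rfl⟩
    have hEt : Tr G Y E := by
      refine tr_nbr (X := X) (J := I) hYX (hI.trans Finset.sdiff_subset) ?_ hi (by omega) ?_
      · rw [Finset.disjoint_left]
        intro z hz hz'
        exact (mem_sdiff.1 (hI hz)).2 hz'
      · intro z hz w hw hzw
        rw [hE, mem_filter]
        exact ⟨hw, z, hz, hzw⟩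
    have hE5 := tY _ (by rw [hE]; exact Finset.filter_subset _ _) hEt
    have hx'Y : (nb G Y x').card ≤ 3 := (Finset.card_le_card (nb_mono (G := G) hYH x')).trans hf'
    have hEsub : ∀ w ∈ E, w ∈ nb G Y x' ∨ ∃ p ∈ I ∩ P, w ∈ nb G Y p := by
      intro w hw
      rw [hE, mem_filter] at hw
      obtain ⟨hwY, v, hvI, hvw⟩ := hw
      have hv := mem_sdiff.1 (hI hvI)
      by_cases hvP : v ∈ P
      · exact Or.inr ⟨v, mem_inter.2 ⟨hvI, hvP⟩, mem_nb.2 ⟨hwY, hvw⟩⟩
      by_cases hvx' : v = x'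
      · rw [← hvx']
        exact Or.inl (mem_nb.2 ⟨hwY, hvw⟩)
      exfalso
      by_cases hvx : v = x
      · rw [hvx] at hvw
        exact (Finset.disjoint_left.1 hd) (hxW (mem_nb.2 ⟨hYH hwY, hvw⟩)) hwY
      have hvH : v ∈ H := hmem.2 ⟨hv.1, hvP, hvx, hvx'⟩
      have hvW : v ∈ W := by
        by_contra e
        exact hv.2 (by rw [hY]; exact mem_sdiff.2 ⟨hvH, e⟩)
      exact hno v hvW w hwY hvw
    rcases (I ∩ P).eq_empty_or_nonempty with hIP | ⟨p, hp⟩
    · have h2 : E ⊆ nb G Y x' := by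
        intro w hw
        rcases hEsub w hw with h | ⟨q, hq, _⟩
        · exact h
        · rw [hIP] at hq
          simp at hq
      have := Finset.card_le_card h2
      omega
    · have hp' := mem_inter.1 hp
      have h2 : E ⊆ nb G Y x' ∪ nb G Y p := by
        intro w hw
        rcases hEsub w hw with h | ⟨q, hq, hqw⟩
        · exact mem_union_left _ h
        · have hq' := mem_inter.1 hq
          have : q = p := by
            by_contra e
            exact hi (by exact_mod_cast hq'.1) (by exact_mod_cast hp'.1) e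
              (L.F.hPq q hq'.2 p hp'.2 e)
          exact mem_union_right _ (this ▸ hqw)
      have h3 := Finset.card_le_card h2
      have h4 := Finset.card_union_le (nb G Y x') (nb G Y p)
      have h5 := hP1 p hp'.2
      omega

namespace LF
variable {k : ℕ} {X P : Finset V} (L : LF G k X P)
include L

theorem ge2 {c x x' : V} (B : Base G k X P c x x') :
    k ≤ (nb G (hb X P x x') x).card + 2 := by
  obtain ⟨u, hu, hud, hxu⟩ := L.ns x B.hx
  have h1 : ¬ G.Adj u x' := fun e => hxu ((L.iff _ _ _ B u hu hud).2 e).symm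
  have n1 := L.F.nbH B hu
  rw [hud, ad_zero (fun e => hxu e.symm), ad_zero h1] at n1
  have := L.F.card_xu' B hu hxu
  omega

/-- the numbers at a low vertex -/
theorem low0 {c x x' : V} (B : Base G k X P c x x')
    (hf : (nb G (hb X P x x') x).card + 2 = k) :
    G.Adj x x' ∧ 2 * ((nb G (hb X P x x') x').card : ℤ) + 2 * (exs G k X P : ℤ) +
      ps G k (hb X P x x') = 2 * k + ps G k X := by
  obtain ⟨u, hu, hud, hxu⟩ := L.ns x B.hx
  have h1 : ¬ G.Adj u x' := fun e => hxu ((L.iff _ _ _ B u hu hud).2 e).symm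
  have n1 := L.F.nbH B hu
  rw [hud, ad_zero (fun e => hxu e.symm), ad_zero h1] at n1
  have hxx : G.Adj x x' := by
    by_contra hcon
    refine L.F.lemG B hcon hu hxu (fun e => h1 e.symm) ?_
    exact (Finset.card_union_le _ _).trans (by omega)
  have h3 := (L.F.bp _ _ _ B).bstar
  rw [if_pos hxx] at h3
  have hf' : ((nb G (hb X P x x') x).card : ℤ) + 2 = k := by exact_mod_cast hf
  exact ⟨hxx, by linarith⟩

/-- in all cases: the numbers at a base -/
theorem num {c x x' : V} (B : Base G k X P c x x') :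
    (k ≤ (nb G (hb X P x x') x).card + 1 ∨ G.Adj x x') := by
  by_contra hcon
  push Not at hcon
  have h1 := L.ge2 B
  exact hcon.2 (L.low0 B (by omega)).1

theorem ps2 {c x x' : V} (B : Base G k X P c x x')
    (hf : (nb G (hb X P x x') x).card + 2 = k) : ps G k (hb X P x x') ≤ 2 := by
  have h1 := (L.low0 B hf).2
  have h2 := L.F.mc.ps_le
  have h3 := Int.natCast_nonneg (exs G k X P)
  have g1 := L.ge2 B.symm
  rw [hb_comm X P x' x] at g1
  have g1' : (k : ℤ) ≤ (nb G (hb X P x x') x').card + 2 := by exact_mod_cast g1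
  linarith

/-- the `k`-transversal at a low vertex -/
theorem lowT {c x x' : V} (B : Base G k X P c x x')
    (hf : (nb G (hb X P x x') x).card + 2 = k) {u y y' : V} (Bu : Base G k X P u y y')
    (hxu : ¬ G.Adj x u) :
    y ∈ hb X P x x' ∧ y' ∈ hb X P x x' ∧ y ∉ nb G (hb X P x x') x ∧
    y' ∉ nb G (hb X P x x') x ∧ ∃ r,
      StarT G k (hb X P x x') (insert y (insert y' (nb G (hb X P x x') x))) r ∧
      k ≤ 2 * ((nb Gᶜ ((insert y (insert y' (nb G (hb X P x x') x))).erase r) r).card + 2) := by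
  have hk := L.F.mc.hk
  have h5 := L.h5
  have hxX := mem_sdiff.1 B.hx
  have hxu' : ¬ G.Adj u x := fun e => hxu e.symm
  have hux' : ¬ G.Adj u x' := fun e => hxu ((L.iff _ _ _ B u Bu.hc Bu.deg).2 e).symm
  have hy := mem_sdiff.1 Bu.hx
  have hy' := mem_sdiff.1 Bu.hx'
  have m1 : y ∈ hb X P x x' := mem_hb.2 ⟨hy.1, hy.2, fun e => hxu' (e ▸ Bu.ax),
    fun e => hux' (e ▸ Bu.ax)⟩
  have m2 : y' ∈ hb X P x x' := mem_hb.2 ⟨hy'.1, hy'.2, fun e => hxu' (e ▸ Bu.ax'),
    fun e => hux' (e ▸ Bu.ax')⟩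
  have htr := L.F.tr_xu B Bu.hc hxu
  have hbp := L.F.bp _ _ _ B
  have hps4 := hbp.ps4
  have hps2 := L.ps2 B hf
  have htau := hbp.tau
  have hHX : hb X P x x' ⊆ X := hb_sub
  have hHne := B.hbne
  have hNu : nb G (hb X P x x') u ⊆ {y, y'} := by
    rw [nb_hb, Bu.hout]
    exact Finset.sdiff_subset
  have hxH : x ∉ hb X P x x' := fun e => (mem_hb.1 e).2.2.1 rfl
  have hfly : ∀ W ⊆ hb X P x x', nb G (hb X P x x') x ⊆ W →
      (∀ v ∈ W, nb G (hb X P x x') v ⊆ W) → al G (hb X P x x' \ W) + 2 = al G (hb X P x x') →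
      ps G k (hb X P x x' \ W) = 0 → ps G k W ≤ 2 → k = 5 → ¬ ps G k (hb X P x x') ≤ 1 →
      False := by
    intro W w1 w2 w3 w4 w5 w6 e0 w7
    subst e0
    have h1 := (L.low0 B hf).2
    have h2 := L.F.mc.ps_le
    have h3 := Int.natCast_nonneg (exs G 5 X P)
    have g1 := L.ge2 B.symm
    rw [hb_comm X P x' x] at g1
    have g1' : (5 : ℤ) ≤ (nb G (hb X P x x') x').card + 2 := by exact_mod_cast g1
    obtain ⟨e, he⟩ := ps_even (G := G) 5 (hb X P x x')
    have he1 : e = 1 := by omega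
    rw [he, he1] at h1
    push_cast at h1
    refine L.nofly B (by omega) ?_ ?_ ?_ w1 w2 w3 w4 w5 w6
    · have : ((nb G (hb X P x x') x').card : ℤ) ≤ 3 := by linarith
      exact_mod_cast this
    · have : (exs G 5 X P : ℤ) = 0 := by linarith
      exact_mod_cast this
    · linarith
  obtain ⟨H, hH⟩ : ∃ H, H = hb X P x x' := ⟨_, rfl⟩
  rw [← hH] at hf m1 m2 htr hps4 hps2 htau hHX hHne hNu hxH ⊢
  simp only [← hH] at hfly
  obtain ⟨N, hN⟩ : ∃ N, N = nb G H x := ⟨_, rfl⟩
  have hxa : ∀ w ∈ N, G.Adj x w := by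
    intro w hw
    rw [hN] at hw
    exact (mem_nb.1 hw).2
  have hNH : N ⊆ H := by rw [hN]; exact nb_sub _ _
  rw [← hN] at hf htr hfly ⊢
  have hTH : insert y (insert y' N) ⊆ H :=
    Finset.insert_subset m1 (Finset.insert_subset m2 hNH)
  have htr2 : Tr G H (insert y (insert y' N)) := by
    refine tr_mono htr fun w hw => ?_
    have hw1 := mem_union.1 (mem_inter.1 hw).1
    rcases hw1 with h | h
    · exact mem_insert_of_mem (mem_insert_of_mem h)
    · have := hNu h
      rw [mem_insert, mem_singleton] at this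
      rcases this with rfl | rfl
      · exact mem_insert_self _ _
      · exact mem_insert_of_mem (mem_insert_self _ _)
  have hc := htau _ hTH htr2
  have c1 := Finset.card_insert_le y' N
  have c2 := Finset.card_insert_le y (insert y' N)
  have n1 : y' ∉ N := by
    intro e
    rw [Finset.insert_eq_of_mem e] at c2 hc
    omega
  have n2 : y ∉ N := by
    intro e
    rw [Finset.insert_eq_of_mem (mem_insert_of_mem e)] at hc
    omega
  have hTc : (insert y (insert y' N)).card = k := by omega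
  obtain ⟨r, hS⟩ : ∃ r, StarT G k H (insert y (insert y' N)) r := by
    by_cases h6 : 6 ≤ k
    · exact L.F.mc.star8g hHX hHne hps4 htau hTH hTc htr2 (Or.inr (Or.inl ⟨h6, hps2⟩))
    by_cases hp1 : ps G k H ≤ 1
    · exact L.F.mc.star8g hHX hHne hps4 htau hTH hTc htr2 (Or.inl hp1)
    have e0 : k = 5 := by omega
    have hmc := L.F.mc
    have key : (∃ r, StarT G k H (insert y (insert y' N)) r) ∨
        ∃ S ⊆ H \ (insert y (insert y' N)),
          (∀ v ∈ (insert y (insert y' N)) ∪ S, nb G H v ⊆ (insert y (insert y' N)) ∪ S) ∧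
          al G (H \ ((insert y (insert y' N)) ∪ S)) + 2 = al G H ∧
          ps G k (H \ ((insert y (insert y' N)) ∪ S)) = 0 ∧
          ps G k ((insert y (insert y' N)) ∪ S) ≤ 2 := by
      subst e0
      exact hmc.bfly hHX hHne hps2 htau hTH hTc htr2
    rcases key with h | ⟨S, s1, s2, s3, s4, s5⟩
    · exact h
    · exfalso
      refine hfly _ (Finset.union_subset hTH (s1.trans Finset.sdiff_subset)) ?_ s2 s3 s4 s5 e0 hp1
      intro w hw
      exact mem_union_left _ (mem_insert_of_mem (mem_insert_of_mem hw))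
  refine ⟨m1, m2, n2, n1, r, hS, ?_⟩
  have h5 := Lo.near1 L.F.mc (hTH.trans hHX) hTc hS.hr hS.clq hxX.1 (fun e => hxH (hTH e))
  have h6 : (nb Gᶜ (insert y (insert y' N)) x).card ≤ 2 := by
    refine Lo.nbc2 (s := y) (t := y') fun w hw h1 h2 _ => hxa w ?_
    rw [mem_insert, mem_insert] at hw
    exact (hw.resolve_left h1).resolve_left h2
  omega

end LF

end Pool.Agent.TwoDens.TS
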