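import Pool.Agent.TKS.LemG
import Pool.Agent.TKS.BR

/-!
Transversals with `k` elements: the star from its centre; five vertices and potential two.
-/

open Finset

namespace Pool.Agent.TwoDens.TS

open Pool.Agent.TwoDens Pool.Agent.TwoDens.RK Pool.Agent.TwoDens.DD

variable {V : Type*} [DecidableEq V] {G : SimpleGraph V} [DecidableRel G.Adj]

omit [DecidableRel G.Adj] in
/-- transversals of a union without edges between the parts -/
theorem tr_split {A B S : Finset V} (hn : ∀ a ∈ A, ∀ b ∈ B, ¬ G.Adj a b)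
    (hd : Disjoint A B) (h : Tr G (A ∪ B) S) : Tr G A (S ∩ A) ∨ Tr G B (S ∩ B) := by
  by_contra hcon
  push Not at hcon
  obtain ⟨I, hI, hi, hdI, hcI⟩ := not_tr hcon.1
  obtain ⟨J, hJ, hj, hdJ, hcJ⟩ := not_tr hcon.2
  have h1 := h.lt (I := I ∪ J) (Finset.union_subset_union hI hJ)
    (indep_union hi hj fun x hx y hy => hn x (hI hx) y (hJ hy)) (by
      rw [Finset.disjoint_left] at hdI hdJ ⊢
      intro x hx hx'
      rcases mem_union.1 hx with h2 | h2
      · exact hdI h2 (mem_inter.2 ⟨hx', hI h2⟩)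
      · exact hdJ h2 (mem_inter.2 ⟨hx', hJ h2⟩))
  rw [Finset.card_union_of_disjoint (Finset.disjoint_of_subset_left hI
    (Finset.disjoint_of_subset_right hJ hd))] at h1
  have := al_union_le (G := G) A B
  omega

/-- two isolated cliques with a common vertex -/
theorem comp_sub {Z A B : Finset V} (hA : A ⊆ Z) (qA : Clq G A) (bB : bd G Z B = 0) {v : V}
    (hvA : v ∈ A) (hvB : v ∈ B) : A ⊆ B := by
  intro w hw
  by_cases e : w = v
  · rw [e]; exact hvB
  · unfold bd at bB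
    rw [Finset.sum_eq_zero_iff] at bB
    have h1 := bB v hvB
    rw [Finset.card_eq_zero, Finset.sdiff_eq_empty_iff_subset] at h1
    exact h1 (mem_nb.2 ⟨hA hw, qA v hvA w hw (Ne.symm e)⟩)

section
variable {k : ℕ} {X : Finset V} (H : MC G k X) {Y : Finset V} (hY : Y ⊆ X) (hne : Y ≠ X)
include H hY hne

/-- the star with a given centre -/
theorem MC.star_mk (hp : ps G k Y ≤ 4) (ht : TauGe G Y k) {T : Finset V} (hT : T ⊆ Y)
    (hc : T.card = k) (htr : Tr G Y T) {r : V} (hr : r ∈ T) (hcl : Clq G (T.erase r)) :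
    StarT G k Y T r := by
  have hk := H.hk
  have hk' : (4 : ℤ) ≤ k := by exact_mod_cast hk
  have hdeg : ∀ v ∈ Y, k - 1 ≤ (nb G Y v).card := fun v hv => by
    have := ht.deg hv
    omega
  have hncl : ¬ Clq G T := by
    intro h
    have := H.clq_lt (hT.trans hY) h
    omega
  have halT : al G (Y \ T) + 1 = al G Y := by
    unfold Tr at htr
    by_contra hcon
    have h1 := H.drop hY hne hT (j := 2) (by omega)
    rw [hc] at h1
    push_cast at h1
    nlinarith
  have hpsd := ps_sdiff (G := G) k hT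
  have hsum := sum_ge (G := G) (Y := Y) (S := T) (k - 1) (fun v hv => hdeg v (hT hv))
  have hcomp := e2_add_compl (G := G) T
  obtain ⟨h, hh⟩ := e2_even (G := Gᶜ) T
  rw [hh] at hcomp
  rw [hc] at hpsd hsum hcomp
  obtain ⟨D, hD⟩ : ∃ D : ℕ, ∑ v ∈ T, (nb G Y v).card = D := ⟨_, rfl⟩
  rw [hD] at hpsd hsum
  obtain ⟨E, hE⟩ : ∃ E : ℕ, exs G (k - 1) Y T = E := ⟨_, rfl⟩
  rw [hE] at hsum
  obtain ⟨m, rfl⟩ : ∃ m, k = m + 1 := ⟨k - 1, by omega⟩
  rw [Nat.add_sub_cancel] at hsum hE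
  replace hdeg : ∀ v ∈ Y, m ≤ (nb G Y v).card := hdeg
  have g1 : (D : ℤ) = m * (m + 1) + E := by exact_mod_cast hsum
  have g2 : (e2 G T : ℤ) + 2 * h + (m + 1) = (m + 1) * (m + 1) := by exact_mod_cast hcomp
  have g3 : (al G Y : ℤ) - al G (Y \ T) = 1 := by
    have : (al G (Y \ T) : ℤ) + 1 = al G Y := by exact_mod_cast halT
    linarith
  rw [g3] at hpsd
  push_cast at hpsd
  have psE : ps G (m + 1) (Y \ T) + 2 * ((E : ℤ) + h) = ps G (m + 1) Y + 2 * (m + 1) - 2 := by
    nlinarith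
  have hout : ∀ t ∈ T, (nb G Y t).card + (nb Gᶜ T t).card = m + (nb G Y t \ T).card := by
    intro t ht'
    have := deg_split (G := G) hT ht'
    omega
  have hpair : ∀ p ∈ T, ∀ q ∈ T, p ≠ q → ¬ G.Adj p q →
      m ≤ (nb G Y p \ T).card + (nb G Y q \ T).card := by
    intro p hp' q hq' hpq hn
    have h6 := H.bigY hY hne (δ := m) hdeg (by omega) (B := T) (J := {p, q}) hT (by
      intro z hz
      rw [mem_insert, mem_singleton] at hz
      rcases hz with rfl | rfl
      · exact hp'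
      · exact hq') (indep_pair hn)
    rw [Finset.card_pair hpq, sum_pair' hpq, hc] at h6
    by_contra hcon
    push Not at hcon
    have h7 : ((nb G Y p \ T).card : ℤ) + (nb G Y q \ T).card ≤ m - 1 := by
      have : ((nb G Y p \ T).card : ℤ) + (nb G Y q \ T).card + 1 ≤ m := by exact_mod_cast hcon
      linarith
    push_cast at h6
    have h8 : (0 : ℤ) ≤ 3 * m + 1 := by positivity
    nlinarith [mul_le_mul_of_nonneg_left h7 h8]
  have hmiss : h = (nb Gᶜ T r).card := by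
    have a1 := e2_sdiff (G := Gᶜ) (X := T) (R := {r}) (by simpa using hr)
    rw [e2_singleton, Finset.sum_singleton, Finset.sdiff_singleton_eq_erase, clq_e2c hcl, hh] at a1
    omega
  refine ⟨hT, hc, hr, hcl, ?_, halT, ?_, ?_⟩
  · by_contra hcon
    apply hncl
    have : h = 0 := by omega
    rw [this] at hh
    exact clq_of_e2 (by omega)
  · have a1 : E = exs G m Y (T.erase r) + ((nb G Y r).card - m) := by
      rw [← hE]
      unfold exs
      rw [add_comm]
      exact (Finset.add_sum_erase _ _ hr).symm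
    have a2 := hout r hr
    have a3 := hdeg r (hT hr)
    have a4 : E + h = (nb G Y r \ T).card + exs G m Y (T.erase r) := by omega
    have a5 : (E : ℤ) + h = ((nb G Y r \ T).card : ℤ) + exs G m Y (T.erase r) := by
      exact_mod_cast a4
    rw [Nat.add_sub_cancel, ← a5]
    push_cast
    linarith
  · intro l hl
    have hlT := (mem_nb.1 hl).1
    obtain ⟨h5, h6⟩ := (SimpleGraph.compl_adj _ _ _).1 (mem_nb.1 hl).2
    have a1 := hpair r hr l hlT h5 h6
    have a2 := hout l hlT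
    have a3 : (nb Gᶜ T l).card ≤ 1 := by
      rw [Finset.card_le_one]
      have : ∀ u ∈ nb Gᶜ T l, u = r := by
        intro u hu
        by_contra hur
        obtain ⟨h7, h8⟩ := (SimpleGraph.compl_adj _ _ _).1 (mem_nb.1 hu).2
        exact h8 (hcl l (mem_erase.2 ⟨Ne.symm h5, hlT⟩) u (mem_erase.2 ⟨hur, (mem_nb.1 hu).1⟩) h7)
      intro u hu w hw
      rw [this u hu, this w hw]
    omega

end

/-- the neighbours outside of a cycle of missing pairs -/
theorem MC.bfly1 {X : Finset V} (H : MC G 5 X) {Y : Finset V} (hY : Y ⊆ X) (hne : Y ≠ X)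
    {T : Finset V} (hT : T ⊆ Y) (hal : al G (Y \ T) + 1 = al G Y) (hp : ps G 5 Y = 2)
    (hpT : ps G 5 (Y \ T) = 2) {p q r s : V} (hpT' : p ∈ T) (hq : q ∈ T) (hr : r ∈ T)
    (hs : s ∈ T) (h1 : p ≠ q) (h2 : q ≠ r) (h3 : r ≠ s) (h4 : s ≠ p) (n1 : ¬ G.Adj p q)
    (n2 : ¬ G.Adj q r) (n3 : ¬ G.Adj r s) (n4 : ¬ G.Adj s p)
    (op : (nb G Y p \ T).card = 2) (oq : (nb G Y q \ T).card = 2)
    (orr : (nb G Y r \ T).card = 2) (os : (nb G Y s \ T).card = 2)
    (h0 : ∀ v ∈ T, v ≠ p → v ≠ q → v ≠ r → v ≠ s → (nb G Y v \ T).card = 0) :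
    ∃ S ⊆ Y \ T, (∀ v ∈ T ∪ S, nb G Y v ⊆ T ∪ S) ∧ al G (Y \ (T ∪ S)) + 2 = al G Y ∧
      ps G 5 (Y \ (T ∪ S)) = 0 ∧ ps G 5 (T ∪ S) ≤ 2 := by
  have hsubX : Y \ T ⊆ X := Finset.sdiff_subset.trans hY
  have hneX : Y \ T ≠ X := by
    intro h
    exact hne (Finset.Subset.antisymm hY (h ▸ Finset.sdiff_subset))
  have htau := H.tau1 hsubX hneX (by rw [hpT]; norm_num)
  have hsub : ∀ v : V, nb G Y v \ T ⊆ Y \ T := fun v =>
    Finset.sdiff_subset_sdiff (nb_sub Y v) (Finset.Subset.refl T)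
  have key : ∀ a ∈ T, ∀ b ∈ T, a ≠ b → ¬ G.Adj a b → (nb G Y a \ T).card = 2 →
      (nb G Y b \ T).card = 2 →
      ((nb G Y a \ T) ∪ (nb G Y b \ T)).card = 4 ∧ Clq G ((nb G Y a \ T) ∪ (nb G Y b \ T)) ∧
      bd G (Y \ T) ((nb G Y a \ T) ∪ (nb G Y b \ T)) = 0 ∧
      Tr G (Y \ T) ((nb G Y a \ T) ∪ (nb G Y b \ T)) := by
    intro a ha b hb hab hn oa ob
    have g1 := tr_pair0 (G := G) ha hb hT hab hn hal
    have g2 := htau _ (Finset.union_subset (hsub a) (hsub b)) g1
    have g3 := Finset.card_union_le (nb G Y a \ T) (nb G Y b \ T)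
    have g4 : ((nb G Y a \ T) ∪ (nb G Y b \ T)).card = 4 := by omega
    obtain ⟨g5, g6⟩ := H.tr34 hsubX hneX (by rw [hpT]; norm_num)
      (Finset.union_subset (hsub a) (hsub b)) (by rw [g4]) g1
    refine ⟨g4, g5, ?_, g1⟩
    rw [hpT] at g6
    have : (bd G (Y \ T) ((nb G Y a \ T) ∪ (nb G Y b \ T)) : ℤ) ≤ 0 := by linarith
    exact_mod_cast le_antisymm (by exact_mod_cast this) (Nat.zero_le _)
  obtain ⟨c1, q1, b1, t1⟩ := key p hpT' q hq h1 n1 op oq
  obtain ⟨c2, q2, b2, t2⟩ := key q hq r hr h2 n2 oq orr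
  obtain ⟨c3, q3, b3, t3⟩ := key r hr s hs h3 n3 orr os
  have ex : ∀ v : V, (nb G Y v \ T).card = 2 → ∃ w, w ∈ nb G Y v \ T := fun v hv =>
    Finset.card_pos.1 (by omega)
  obtain ⟨vq, hvq⟩ := ex q oq
  obtain ⟨vr, hvr⟩ := ex r orr
  have e21 := comp_sub (G := G) (Finset.union_subset (hsub q) (hsub r)) q2 b1
    (mem_union_left _ hvq) (mem_union_right _ hvq)
  have e32 := comp_sub (G := G) (Finset.union_subset (hsub r) (hsub s)) q3 b2
    (mem_union_left _ hvr) (mem_union_right _ hvr)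
  obtain ⟨S, hS⟩ : ∃ S, S = (nb G Y p \ T) ∪ (nb G Y q \ T) := ⟨_, rfl⟩
  rw [← hS] at c1 q1 b1 t1 e21
  have hSs : S ⊆ Y \ T := by
    rw [hS]
    exact Finset.union_subset (hsub p) (hsub q)
  have hN : ∀ v ∈ T, nb G Y v \ T ⊆ S := by
    intro v hv
    by_cases a1 : v = p
    · rw [a1, hS]; exact Finset.subset_union_left
    by_cases a2 : v = q
    · rw [a2, hS]; exact Finset.subset_union_right
    by_cases a3 : v = r
    · rw [a3]; exact Finset.subset_union_right.trans e21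
    by_cases a4 : v = s
    · rw [a4]; exact (Finset.subset_union_right.trans e32).trans e21
    have := h0 v hv a1 a2 a3 a4
    rw [Finset.card_eq_zero] at this
    rw [this]
    exact Finset.empty_subset _
  have hcl : ∀ v ∈ T ∪ S, nb G Y v ⊆ T ∪ S := by
    intro v hv w hw
    by_cases hwT : w ∈ T
    · exact mem_union_left _ hwT
    rcases mem_union.1 hv with h | h
    · exact mem_union_right _ (hN v h (mem_sdiff.2 ⟨hw, hwT⟩))
    · unfold bd at b1
      rw [Finset.sum_eq_zero_iff] at b1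
      have g1 := b1 v h
      rw [Finset.card_eq_zero, Finset.sdiff_eq_empty_iff_subset] at g1
      exact mem_union_right _ (g1 (mem_nb.2 ⟨mem_sdiff.2 ⟨(mem_nb.1 hw).1, hwT⟩,
        (mem_nb.1 hw).2⟩))
  have hZS : (Y \ T) \ S = Y \ (T ∪ S) := by rw [sdiff_sdiff_left, Finset.sup_eq_union]
  have hps := ps_sdiff (G := G) 5 hSs
  have hsum := sum_deg' (G := G) hSs
  have he := clq_e2 q1
  rw [b1] at hsum
  rw [c1] at hps he
  rw [hsum, hpT, hZS] at hps
  have ht1 : al G (Y \ (T ∪ S)) + 1 ≤ al G (Y \ T) := by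
    rw [← hZS]
    exact t1
  have hn5 : Y \ (T ∪ S) ≠ X := by
    intro h
    exact hne (Finset.Subset.antisymm hY (h ▸ Finset.sdiff_subset))
  have hge := H.hmin _ (Finset.sdiff_subset.trans hY) hn5
  obtain ⟨D, hD⟩ : ∃ D, al G (Y \ T) = al G (Y \ (T ∪ S)) + (D + 1) :=
    ⟨al G (Y \ T) - al G (Y \ (T ∪ S)) - 1, by omega⟩
  rw [hD] at hps
  have he' : e2 G S = 12 := by omega
  rw [he'] at hps
  push_cast at hps
  have hD0 : D = 0 := by
    by_contra hcon
    have : (1 : ℤ) ≤ D := by exact_mod_cast Nat.one_le_iff_ne_zero.2 hcon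
    linarith
  subst hD0
  have hps0 : ps G 5 (Y \ (T ∪ S)) = 0 := by
    push_cast at hps
    linarith
  refine ⟨S, hSs, hcl, by omega, hps0, ?_⟩
  -- the potential of `T ∪ S`
  have hR : T ∪ S ⊆ Y := Finset.union_subset hT (hSs.trans Finset.sdiff_subset)
  have k1 := ps_sdiff (G := G) 5 hR
  have k2 : ∑ v ∈ T ∪ S, (nb G Y v).card = e2 G (T ∪ S) := by
    rw [sum_deg (G := G) hR]
    have : ∑ v ∈ T ∪ S, (nb G Y v \ (T ∪ S)).card = 0 := by
      rw [Finset.sum_eq_zero_iff]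
      intro v hv
      rw [Finset.card_eq_zero, Finset.sdiff_eq_empty_iff_subset]
      exact hcl v hv
    omega
  have k3 : al G (T ∪ S) + al G (Y \ (T ∪ S)) ≤ al G Y := by
    obtain ⟨I, hI, hi, hcI⟩ := exists_al (G := G) (T ∪ S)
    obtain ⟨J, hJ, hj, hcJ⟩ := exists_al (G := G) (Y \ (T ∪ S))
    have g1 := le_al (G := G) (X := Y) (I := I ∪ J) (Finset.union_subset (hI.trans hR)
      (hJ.trans Finset.sdiff_subset)) (indep_union hi hj (by
        intro x hx y hy hxy
        have hy' := mem_sdiff.1 (hJ hy)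
        exact hy'.2 (hcl x (hI hx) (mem_nb.2 ⟨hy'.1, hxy⟩))))
    rw [Finset.card_union_of_disjoint] at g1
    · omega
    · rw [Finset.disjoint_left]
      intro x hx hx'
      exact (mem_sdiff.1 (hJ hx')).2 (hI hx)
  rw [k2, hps0, hp] at k1
  unfold ps
  have k3' : (al G (T ∪ S) : ℤ) + al G (Y \ (T ∪ S)) ≤ al G Y := by exact_mod_cast k3
  push_cast at k1 ⊢
  linarith

/-- `k = 5`, potential two: a star or an isolated butterfly -/
theorem MC.bfly {X : Finset V} (H : MC G 5 X) {Y : Finset V} (hY : Y ⊆ X) (hne : Y ≠ X)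
    (hp : ps G 5 Y ≤ 2) (ht : TauGe G Y 5) {T : Finset V} (hT : T ⊆ Y) (hc : T.card = 5)
    (htr : Tr G Y T) :
    (∃ r, StarT G 5 Y T r) ∨
    ∃ S ⊆ Y \ T, (∀ v ∈ T ∪ S, nb G Y v ⊆ T ∪ S) ∧ al G (Y \ (T ∪ S)) + 2 = al G Y ∧
      ps G 5 (Y \ (T ∪ S)) = 0 ∧ ps G 5 (T ∪ S) ≤ 2 := by
  have hk := H.hk
  have hdeg : ∀ v ∈ Y, 4 ≤ (nb G Y v).card := fun v hv => by
    have := ht.deg hv
    omega
  have hTX := hT.trans hY
  have hncl : ¬ Clq G T := by
    intro h
    have := H.clq_lt hTX h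
    omega
  by_cases hp1 : ps G 5 Y ≤ 1
  · exact Or.inl (H.star8g hY hne (by linarith) ht hT hc htr (Or.inl hp1))
  have halT : al G (Y \ T) + 1 = al G Y := by
    unfold Tr at htr
    by_contra hcon
    have h1 := H.drop hY hne hT (j := 2) (by omega)
    rw [hc] at h1
    push_cast at h1
    linarith
  have hpsd := ps_sdiff (G := G) 5 hT
  have hsum := sum_ge (G := G) (Y := Y) (S := T) 4 (fun v hv => hdeg v (hT hv))
  have hcomp := e2_add_compl (G := G) T
  obtain ⟨h, hh⟩ := e2_even (G := Gᶜ) T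
  rw [hh] at hcomp
  rw [hc] at hpsd hsum hcomp
  have hneX : Y \ T ≠ X := by
    intro h
    exact hne (Finset.Subset.antisymm hY (h ▸ Finset.sdiff_subset))
  have hsubX : Y \ T ⊆ X := Finset.sdiff_subset.trans hY
  have h0 : 0 ≤ ps G 5 (Y \ T) := H.hmin _ hsubX hneX
  obtain ⟨D, hD⟩ : ∃ D : ℕ, ∑ v ∈ T, (nb G Y v).card = D := ⟨_, rfl⟩
  rw [hD] at hpsd hsum
  obtain ⟨E, hE⟩ : ∃ E : ℕ, exs G 4 Y T = E := ⟨_, rfl⟩
  rw [hE] at hsum
  have g3 : (al G Y : ℤ) - al G (Y \ T) = 1 := by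
    have : (al G (Y \ T) : ℤ) + 1 = al G Y := by exact_mod_cast halT
    linarith
  rw [g3] at hpsd
  push_cast at hpsd
  obtain ⟨pe, hpe⟩ := ps_even (G := G) 5 Y
  obtain ⟨qe, hqe⟩ := ps_even (G := G) 5 (Y \ T)
  rw [hpe] at hp hp1
  have hpe1 : pe = 1 := by omega
  subst hpe1
  have hD' : D = 20 + E := by omega
  have he2 : e2 G T + 2 * h = 20 := by omega
  have he2' : (e2 G T : ℤ) + 2 * h = 20 := by exact_mod_cast he2
  have psE : 2 * qe + 2 * ((E : ℤ) + h) = 10 := by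
    rw [hD', hpe, hqe] at hpsd
    push_cast at hpsd
    linarith
  have hEh : E + h ≤ 5 := by
    rw [hqe] at h0
    have : (E : ℤ) + h ≤ 5 := by linarith
    exact_mod_cast this
  -- numbers of neighbours outside
  have hout : ∀ t ∈ T, (nb G Y t).card + (nb Gᶜ T t).card = 4 + (nb G Y t \ T).card := by
    intro t ht'
    have := deg_split (G := G) hT ht'
    omega
  have hpair : ∀ p ∈ T, ∀ q ∈ T, p ≠ q → ¬ G.Adj p q →
      4 ≤ (nb G Y p \ T).card + (nb G Y q \ T).card := by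
    intro p hp' q hq' hpq hn
    have h6 := H.bigY hY hne (δ := 4) hdeg (by omega) (B := T) (J := {p, q}) hT (by
      intro z hz
      rw [mem_insert, mem_singleton] at hz
      rcases hz with rfl | rfl
      · exact hp'
      · exact hq') (indep_pair hn)
    rw [Finset.card_pair hpq, sum_pair' hpq, hc, hpe] at h6
    push_cast at h6
    have h7 : (4 : ℤ) ≤ (nb G Y p \ T).card + (nb G Y q \ T).card := by
      by_contra hcon
      push Not at hcon
      have : ((nb G Y p \ T).card : ℤ) + (nb G Y q \ T).card ≤ 3 := by omega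
      linarith
    exact_mod_cast h7
  have hpair2 : qe = 0 → ∀ p ∈ T, ∀ q ∈ T, p ≠ q → ¬ G.Adj p q →
      5 ≤ (nb G Y p \ T).card + (nb G Y q \ T).card := by
    intro h1 p hp' q hq' hpq hn
    have h2 := tr_pair0 (G := G) hp' hq' hT hpq hn halT
    have h3 := H.tau0 hsubX hneX (by rw [hqe, h1]; norm_num) _ (Finset.union_subset
      (Finset.sdiff_subset_sdiff (nb_sub Y p) (Finset.Subset.refl T))
      (Finset.sdiff_subset_sdiff (nb_sub Y q) (Finset.Subset.refl T))) h2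
    exact h3.trans (Finset.card_union_le _ _)
  have hexle : ∀ S ⊆ T, ∑ v ∈ S, (nb G Y v).card ≤ 4 * S.card + E := by
    intro S hS
    have h9 := sum_ge (G := G) (Y := Y) (S := S) 4 (fun v hv => hdeg v (hT (hS hv)))
    have h10 : exs G 4 Y S ≤ E := by
      rw [← hE]
      exact Finset.sum_le_sum_of_subset hS
    omega
  have hmisle : ∀ S ⊆ T, 2 * ∑ v ∈ S, (nb Gᶜ T v).card ≤ 2 * h + e2 Gᶜ S := by
    intro S hS
    have h9 := e2_sdiff (G := Gᶜ) hS
    omega
  have h3 : ∀ p ∈ T, ∀ q ∈ T, ∀ r ∈ T, p ≠ q → p ≠ r → q ≠ r →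
      ¬ G.Adj p q → ¬ G.Adj p r → ¬ G.Adj q r → False := by
    intro p hp' q hq' r hr' h1 h2 h4 n1 n2 n3
    have hS : ({p, q, r} : Finset V) ⊆ T := by
      intro z hz
      rw [mem_insert, mem_insert, mem_singleton] at hz
      rcases hz with rfl | rfl | rfl
      · exact hp'
      · exact hq'
      · exact hr'
    have hsum3 : ∀ f : V → ℕ, ∑ x ∈ ({p, q, r} : Finset V), f x = f p + (f q + f r) := by
      intro f
      rw [Finset.sum_insert (by simp [h1, h2]), Finset.sum_insert (by simp [h4]),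
        Finset.sum_singleton]
    have hc3 : ({p, q, r} : Finset V).card = 3 := by
      rw [Finset.card_eq_sum_ones, hsum3]
    have a1 := hexle _ hS
    have a2 := hmisle _ hS
    rw [hsum3, hc3] at a1
    rw [hsum3] at a2
    have a3 := e2_add_compl (G := G) ({p, q, r} : Finset V)
    rw [hc3] at a3
    have b1 := hout p hp'
    have b2 := hout q hq'
    have b3 := hout r hr'
    have h6 := H.bigY hY hne (δ := 4) hdeg (by omega) (B := T) (J := {p, q, r}) hT hS
      (indep_triple n1 n2 n3)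
    rw [hc3, hsum3, hc, hpe] at h6
    obtain ⟨o, ho⟩ : ∃ o : ℕ, (nb G Y p \ T).card + ((nb G Y q \ T).card +
      (nb G Y r \ T).card) = o := ⟨_, rfl⟩
    rw [ho] at h6
    have c2 : 9 ≤ o := by
      by_contra hcon
      push Not at hcon
      have h7 : (o : ℤ) ≤ 8 := by
        have : o ≤ 8 := by omega
        exact_mod_cast this
      push_cast at h6
      linarith
    omega
  have hEh' : qe = 0 ∨ E + h ≤ 4 := by
    rw [hqe] at h0
    by_cases e : qe = 0
    · exact Or.inl e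
    · right
      have : 1 ≤ qe := by omega
      have h5 : (E : ℤ) + h ≤ 4 := by linarith
      exact_mod_cast h5
  by_cases hst : ∃ p ∈ T, ∃ q ∈ T, ∃ r ∈ T, ∃ s ∈ T, p ≠ q ∧ p ≠ r ∧ p ≠ s ∧ q ≠ r ∧ q ≠ s ∧
    r ≠ s ∧ ¬ G.Adj p q ∧ ¬ G.Adj r s
  swap
  · obtain ⟨r, hr, hcl⟩ := exists_center hncl (by
      intro p hp q hq r hr s hs a1 a2 a3 a4 a5 a6 n1 n2
      exact hst ⟨p, hp, q, hq, r, hr, s, hs, a1, a2, a3, a4, a5, a6, n1, n2⟩) h3
    exact Or.inl ⟨r, H.star_mk hY hne (by rw [hpe]; norm_num) ht hT hc htr hr hcl⟩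
  right
  obtain ⟨p, hp', q, hq', r, hr', s, hs', h1, h2, h3', h4, h5, h6, n1, n2⟩ := hst
  have hS : ({p, q, r, s} : Finset V) ⊆ T := by
    intro z hz
    rw [mem_insert, mem_insert, mem_insert, mem_singleton] at hz
    rcases hz with rfl | rfl | rfl | rfl
    · exact hp'
    · exact hq'
    · exact hr'
    · exact hs'
  have hsum4 : ∀ f : V → ℕ, ∑ x ∈ ({p, q, r, s} : Finset V), f x = f p + (f q + (f r + f s)) := by
    intro f
    rw [Finset.sum_insert (by simp [h1, h2, h3']), Finset.sum_insert (by simp [h4, h5]),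
      Finset.sum_insert (by simp [h6]), Finset.sum_singleton]
  have hc4 : ({p, q, r, s} : Finset V).card = 4 := by
    rw [Finset.card_eq_sum_ones, hsum4]
  have a1 := hexle _ hS
  have a2 := hmisle _ hS
  rw [hsum4, hc4] at a1
  rw [hsum4] at a2
  have a3 := e2_add_compl (G := G) ({p, q, r, s} : Finset V)
  rw [hc4] at a3
  have b1 := hout p hp'
  have b2 := hout q hq'
  have b3 := hout r hr'
  have b4 := hout s hs'
  have c1 := hpair p hp' q hq' h1 n1
  have c2 := hpair r hr' s hs' h6 n2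
  have m1 : ∀ a b : V, a ∈ ({p, q, r, s} : Finset V) → b ∈ ({p, q, r, s} : Finset V) →
      G.Adj a b → 1 ≤ (nb G ({p, q, r, s} : Finset V) a).card := by
    intro a b _ hb hab
    exact Finset.card_pos.2 ⟨b, mem_nb.2 ⟨hb, hab⟩⟩
  have m2 : ∀ a b c : V, b ∈ ({p, q, r, s} : Finset V) → c ∈ ({p, q, r, s} : Finset V) →
      b ≠ c → G.Adj a b → G.Adj a c → 2 ≤ (nb G ({p, q, r, s} : Finset V) a).card := by
    intro a b c hb hc' hbc hab hac
    rw [← Finset.card_pair hbc]
    refine Finset.card_le_card ?_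
    intro z hz
    rw [mem_insert, mem_singleton] at hz
    rcases hz with rfl | rfl
    · exact mem_nb.2 ⟨hb, hab⟩
    · exact mem_nb.2 ⟨hc', hac⟩
  have ip : p ∈ ({p, q, r, s} : Finset V) := by simp
  have iq : q ∈ ({p, q, r, s} : Finset V) := by simp
  have ir : r ∈ ({p, q, r, s} : Finset V) := by simp
  have is : s ∈ ({p, q, r, s} : Finset V) := by simp
  have a4 : e2 Gᶜ ({p, q, r, s} : Finset V) ≤ 2 * h := by
    have g1 := e2_sdiff (G := Gᶜ) hS
    have g2 := sum_deg (G := Gᶜ) hS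
    omega
  have hsE : e2 G ({p, q, r, s} : Finset V) = (nb G ({p, q, r, s} : Finset V) p).card +
      ((nb G ({p, q, r, s} : Finset V) q).card + ((nb G ({p, q, r, s} : Finset V) r).card +
      (nb G ({p, q, r, s} : Finset V) s).card)) := by
    rw [e2_eq, hsum4]
  have hm1 := m1
  have k1 : G.Adj r p ∨ G.Adj r q := by
    by_contra hcon
    push Not at hcon
    exact h3 p hp' q hq' r hr' h1 h2 h4 n1 (fun e => hcon.1 e.symm) (fun e => hcon.2 e.symm)
  have k2 : G.Adj s p ∨ G.Adj s q := by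
    by_contra hcon
    push Not at hcon
    exact h3 p hp' q hq' s hs' h1 h3' h5 n1 (fun e => hcon.1 e.symm) (fun e => hcon.2 e.symm)
  have k1' : G.Adj p r ∨ G.Adj p s := by
    by_contra hcon
    push Not at hcon
    exact h3 p hp' r hr' s hs' h2 h3' h6 hcon.1 hcon.2 n2
  have k2' : G.Adj q r ∨ G.Adj q s := by
    by_contra hcon
    push Not at hcon
    exact h3 q hq' r hr' s hs' h4 h5 h6 hcon.1 hcon.2 n2
  have j1 : 1 ≤ (nb G ({p, q, r, s} : Finset V) p).card := by
    rcases k1' with h | h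
    · exact m1 p r ip ir h
    · exact m1 p s ip is h
  have j2 : 1 ≤ (nb G ({p, q, r, s} : Finset V) q).card := by
    rcases k2' with h | h
    · exact m1 q r iq ir h
    · exact m1 q s iq is h
  have j3 : 1 ≤ (nb G ({p, q, r, s} : Finset V) r).card := by
    rcases k1 with h | h
    · exact m1 r p ir ip h
    · exact m1 r q ir iq h
  have j4 : 1 ≤ (nb G ({p, q, r, s} : Finset V) s).card := by
    rcases k2 with h | h
    · exact m1 s p is ip h
    · exact m1 s q is iq h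
  have hq0 : qe ≠ 0 := by
    intro e
    have d1 := hpair2 e p hp' q hq' h1 n1
    have d2 := hpair2 e r hr' s hs' h6 n2
    omega
  have hEh4 : E + h ≤ 4 := hEh'.resolve_left hq0
  have f1 : e2 G ({p, q, r, s} : Finset V) = 4 := by omega
  have f2 : h = 4 := by omega
  have f3 : E = 0 := by omega
  have hqe1 : qe = 1 := by
    rw [f2, f3] at psE
    push_cast at psE
    linarith
  -- all degrees are four
  have hd4 : ∀ v ∈ T, (nb G Y v).card = 4 := by
    intro v hv
    rw [f3] at hE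
    unfold exs at hE
    rw [Finset.sum_eq_zero_iff] at hE
    have := hE v hv
    have := hdeg v (hT hv)
    omega
  have hsT : ∑ v ∈ T, (nb Gᶜ T v).card = 8 := by
    have : e2 Gᶜ T = ∑ v ∈ T, (nb Gᶜ T v).card := rfl
    omega
  have hsT4 := Finset.sum_sdiff (f := fun v => (nb Gᶜ T v).card) hS
  rw [hsT, hsum4] at hsT4
  have two : ∀ a b c : V, a ∈ T → b ∈ T → c ∈ T → b ≠ c → a ≠ b → a ≠ c → ¬ G.Adj a b →
      ¬ G.Adj a c → 2 ≤ (nb Gᶜ T a).card := by
    intro a b c ha hb hc' hbc hab hac hn hn'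
    rw [← Finset.card_pair hbc]
    refine Finset.card_le_card ?_
    intro z hz
    rw [mem_insert, mem_singleton] at hz
    rcases hz with rfl | rfl
    · exact mem_nb.2 ⟨hb, (SimpleGraph.compl_adj _ _ _).2 ⟨hab, hn⟩⟩
    · exact mem_nb.2 ⟨hc', (SimpleGraph.compl_adj _ _ _).2 ⟨hac, hn'⟩⟩
  have fin : ∀ v ∈ T, v ≠ p → v ≠ q → v ≠ r → v ≠ s → 2 ≤ (nb Gᶜ T p).card →
      2 ≤ (nb Gᶜ T q).card → 2 ≤ (nb Gᶜ T r).card → 2 ≤ (nb Gᶜ T s).card →
      (nb G Y v \ T).card = 0 := by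
    intro v hv v1 v2 v3 v4 w1 w2 w3 w4
    have x1 : ∑ v ∈ T \ ({p, q, r, s} : Finset V), (nb Gᶜ T v).card = 0 := by omega
    rw [Finset.sum_eq_zero_iff] at x1
    have x2 := x1 v (mem_sdiff.2 ⟨hv, by
      rw [mem_insert, mem_insert, mem_insert, mem_singleton]
      push Not
      exact ⟨v1, v2, v3, v4⟩⟩)
    have x3 := hout v hv
    have x4 := hd4 v hv
    omega
  have d1 := hd4 p hp'
  have d2 := hd4 q hq'
  have d3 := hd4 r hr'
  have d4 := hd4 s hs'
  have hpsY : ps G 5 Y = 2 := by rw [hpe]; norm_num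
  have hpsT : ps G 5 (Y \ T) = 2 := by rw [hqe, hqe1]; norm_num
  by_cases hrp : G.Adj r p
  · by_cases hsp : G.Adj s p
    · exfalso
      have := m2 p r s ir is h6 hrp.symm hsp.symm
      omega
    · have hsq : G.Adj s q := k2.resolve_left hsp
      have hrq : ¬ G.Adj r q := by
        intro e
        have := m2 q r s ir is h6 e.symm hsq.symm
        omega
      have w1 := two p q s hp' hq' hs' h5 h1 h3' n1 (fun e => hsp e.symm)
      have w2 := two q p r hq' hp' hr' h2 (Ne.symm h1) h4 (fun e => n1 e.symm)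
        (fun e => hrq e.symm)
      have w3 := two r q s hr' hq' hs' h5 (Ne.symm h4) h6 hrq n2
      have w4 := two s r p hs' hr' hp' (Ne.symm h2) (Ne.symm h6) (Ne.symm h3')
        (fun e => n2 e.symm) hsp
      refine H.bfly1 hY hne hT halT hpsY hpsT hp' hq' hr' hs' h1 h4 h6 (Ne.symm h3') n1
        (fun e => hrq e.symm) n2 hsp (by omega) (by omega) (by omega) (by omega) ?_
      intro v hv v1 v2 v3 v4
      exact fin v hv v1 v2 v3 v4 w1 w2 w3 w4
  · have hrq : G.Adj r q := k1.resolve_left hrp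
    have hsq : ¬ G.Adj s q := by
      intro e
      have := m2 q r s ir is h6 hrq.symm e.symm
      omega
    have w1 := two p q r hp' hq' hr' h4 h1 h2 n1 (fun e => hrp e.symm)
    have w2 := two q p s hq' hp' hs' h3' (Ne.symm h1) h5 (fun e => n1 e.symm)
      (fun e => hsq e.symm)
    have w3 := two r p s hr' hp' hs' h3' (Ne.symm h2) h6 hrp n2
    have w4 := two s r q hs' hr' hq' (Ne.symm h4) (Ne.symm h6) (Ne.symm h5)
      (fun e => n2 e.symm) hsq
    refine H.bfly1 hY hne hT halT hpsY hpsT hq' hp' hr' hs' (Ne.symm h1) h2 h6 (Ne.symm h5)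
      (fun e => n1 e.symm) (fun e => hrp e.symm) n2 hsq (by omega) (by omega) (by omega)
      (by omega) ?_
    intro v hv v1 v2 v3 v4
    exact fin v hv v2 v1 v3 v4 w1 w2 w3 w4

end Pool.Agent.TwoDens.TS
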