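import Pool.Agent.TKS.LP

/-!
Low vertices, second type: all vertices of the neighbourhood have degree more than `k`.
-/

open Finset

namespace Pool.Agent.TwoDens.TS

open Pool.Agent.TwoDens Pool.Agent.TwoDens.RK Pool.Agent.TwoDens.DD

variable {V : Type*} [DecidableEq V] {G : SimpleGraph V} [DecidableRel G.Adj]

namespace L2
variable {k : ℕ} {X P : Finset V} {c x x' u p r : V} {Q Z : Finset V}
  (l : L2 G k X P c x x' u p r Q Z)
include l

/-- (S) for a set of vertices -/
theorem S1 {w : V} (hw : w ∈ insert p Q) (h : ¬ G.Adj w r) {A : Finset V} (hA : A ⊆ Q)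
    (hwA : w ∉ A) : 2 * ((∑ b ∈ A, ((nb G Z b).card + ad G b r - 1) : ℕ) : ℤ) ≤
      ps G k (hb X P x x') := by
  have h1 := (l.S hw h).1
  have h2 : (nb G Z w).card + ∑ b ∈ A, ((nb G Z b).card + ad G b r - 1) ≤
      (∑ b ∈ Q, ((nb G Z b).card + ad G b r - 1)) + ((nb G Z p).card + ad G p r - 1) + 1 := by
    have e0 : ad G w r = 0 := ad_zero h
    rcases mem_insert.1 hw with rfl | hwQ
    · have h3 : ∑ b ∈ A, ((nb G Z b).card + ad G b r - 1) ≤
          ∑ b ∈ Q, ((nb G Z b).card + ad G b r - 1) := Finset.sum_le_sum_of_subset hA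
      omega
    · have h3 : ∑ b ∈ insert w A, ((nb G Z b).card + ad G b r - 1) ≤
          ∑ b ∈ Q, ((nb G Z b).card + ad G b r - 1) :=
        Finset.sum_le_sum_of_subset (Finset.insert_subset hwQ hA)
      rw [Finset.sum_insert hwA] at h3
      omega
  have h2' : ((nb G Z w).card : ℤ) +
      ((∑ b ∈ A, ((nb G Z b).card + ad G b r - 1) : ℕ) : ℤ) ≤
      ((∑ b ∈ Q, ((nb G Z b).card + ad G b r - 1) : ℕ) : ℤ) +
      (((nb G Z p).card + ad G p r - 1 : ℕ) : ℤ) + 1 := by exact_mod_cast h2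
  linarith

theorem S1' {w b : V} (hw : w ∈ insert p Q) (h : ¬ G.Adj w r) (hbQ : b ∈ Q) (hne : w ≠ b) :
    2 * ((nb G Z b).card : ℤ) + 2 * (ad G b r : ℤ) ≤ ps G k (hb X P x x') + 2 := by
  have h1 := l.S1 hw h (A := {b}) (by simpa using hbQ) (by simpa using hne)
  rw [Finset.sum_singleton] at h1
  have h2 : (nb G Z b).card + ad G b r ≤ ((nb G Z b).card + ad G b r - 1) + 1 := by omega
  have h3 : ((nb G Z b).card : ℤ) + ad G b r ≤
    (((nb G Z b).card + ad G b r - 1 : ℕ) : ℤ) + 1 := by exact_mod_cast h2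
  linarith

theorem Su1 {w : V} (hw : w ∈ Q) (h : ¬ G.Adj w x') {A : Finset V} (hA : A ⊆ Q)
    (hwA : w ∉ A) : 2 * ((∑ b ∈ A, ((nb G Z b).card + ad G b x' - 1) : ℕ) : ℤ) ≤
      ps G k (hb X P p r) := by
  have h1 := l.Su hw h
  have h2 : (nb G Z w).card + ∑ b ∈ A, ((nb G Z b).card + ad G b x' - 1) ≤
      (∑ b ∈ Q, ((nb G Z b).card + ad G b x' - 1)) + 1 := by
    have e0 : ad G w x' = 0 := ad_zero h
    have h3 : ∑ b ∈ insert w A, ((nb G Z b).card + ad G b x' - 1) ≤
        ∑ b ∈ Q, ((nb G Z b).card + ad G b x' - 1) :=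
      Finset.sum_le_sum_of_subset (Finset.insert_subset hw hA)
    rw [Finset.sum_insert hwA] at h3
    omega
  have h2' : ((nb G Z w).card : ℤ) +
      ((∑ b ∈ A, ((nb G Z b).card + ad G b x' - 1) : ℕ) : ℤ) ≤
      ((∑ b ∈ Q, ((nb G Z b).card + ad G b x' - 1) : ℕ) : ℤ) + 1 := by exact_mod_cast h2
  linarith

theorem Su1' {w b : V} (hw : w ∈ Q) (h : ¬ G.Adj w x') (hbQ : b ∈ Q) (hne : w ≠ b) :
    2 * ((nb G Z b).card : ℤ) + 2 * (ad G b x' : ℤ) ≤ ps G k (hb X P p r) + 2 := by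
  have h1 := l.Su1 hw h (A := {b}) (by simpa using hbQ) (by simpa using hne)
  rw [Finset.sum_singleton] at h1
  have h2 : (nb G Z b).card + ad G b x' ≤ ((nb G Z b).card + ad G b x' - 1) + 1 := by omega
  have h3 : ((nb G Z b).card : ℤ) + ad G b x' ≤
    (((nb G Z b).card + ad G b x' - 1 : ℕ) : ℤ) + 1 := by exact_mod_cast h2
  linarith

theorem memu {w : V} : w ∈ nb Gᶜ Q x' ↔ w ∈ Q ∧ ¬ G.Adj w x' := by
  rw [mem_nb, SimpleGraph.compl_adj]
  constructor
  · rintro ⟨h1, h2, h3⟩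
    exact ⟨h1, fun e => h3 e.symm⟩
  · rintro ⟨h1, h2⟩
    exact ⟨h1, fun e => l.xQ' (by rw [e]; exact h1), fun e => h2 e.symm⟩

theorem memr {w : V} : w ∈ nb Gᶜ Q r ↔ w ∈ Q ∧ ¬ G.Adj w r := by
  rw [mem_nb, SimpleGraph.compl_adj]
  constructor
  · rintro ⟨h1, h2, h3⟩
    exact ⟨h1, fun e => h3 e.symm⟩
  · rintro ⟨h1, h2⟩
    exact ⟨h1, fun e => l.rQ (by rw [e]; exact h1), fun e => h2 e.symm⟩

/-- some vertex of `Q` is not adjacent to `x'` -/
theorem exu : ∃ b ∈ Q, ¬ G.Adj b x' := by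
  obtain ⟨w, hw⟩ := Finset.card_pos.1 l.star2.miss
  obtain ⟨h1, h2⟩ := mem_nb.1 hw
  obtain ⟨h3, h4⟩ := (SimpleGraph.compl_adj _ _ _).1 h2
  rw [mem_insert, mem_insert] at h1
  rcases h1 with h1 | h1 | h1
  · exact absurd h1.symm h3
  · exact absurd (h1 ▸ l.axx.symm) h4
  · exact ⟨w, h1, fun e => h4 e.symm⟩

/-- some vertex of the clique is not adjacent to `r` -/
theorem exr : ∃ w ∈ insert p Q, ¬ G.Adj w r := by
  obtain ⟨w, hw⟩ := Finset.card_pos.1 l.st.miss
  obtain ⟨h1, h2⟩ := mem_nb.1 hw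
  obtain ⟨h3, h4⟩ := (SimpleGraph.compl_adj _ _ _).1 h2
  rcases mem_insert.1 h1 with h1 | h1
  · exact absurd h1.symm h3
  · exact ⟨w, h1, fun e => h4 e.symm⟩

/-- the vertices outside `P` and `Z` -/
theorem F1c : (insert x (insert x' (insert r (insert p Q)))).card = k + 2 ∧
    Disjoint P (insert x (insert x' (insert r (insert p Q)))) ∧
    x' ∉ insert r (insert p Q) ∧ x ∉ insert x' (insert r (insert p Q)) ∧
    insert x (insert x' (insert r (insert p Q))) ⊆ X := by
  have h1 : x' ∉ insert r (insert p Q) := by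
    intro h
    exact (mem_hb.1 (l.st.hT h)).2.2.2 rfl
  have h2 : x ∉ insert x' (insert r (insert p Q)) := by
    rw [mem_insert, not_or]
    exact ⟨l.B.hne, fun h => (mem_hb.1 (l.st.hT h)).2.2.1 rfl⟩
  refine ⟨?_, ?_, h1, h2, ?_⟩
  · rw [Finset.card_insert_of_notMem h2, Finset.card_insert_of_notMem h1, l.st.hc]
  · rw [Finset.disjoint_left]
    intro w hw hw'
    rw [mem_insert, mem_insert] at hw'
    rcases hw' with h | h | h
    · exact (mem_sdiff.1 l.B.hx).2 (h ▸ hw)
    · exact (mem_sdiff.1 l.B.hx').2 (h ▸ hw)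
    · exact (mem_hb.1 (l.st.hT h)).2.1 hw
  · exact Finset.insert_subset (mem_sdiff.1 l.B.hx).1
      (Finset.insert_subset (mem_sdiff.1 l.B.hx').1 (l.st.hT.trans hb_sub))

/-- (e) -/
theorem e1 : 2 * (∑ v ∈ P, (nb G (insert x (insert x' (insert r (insert p Q)))) v).card) +
    2 * ad G p r + 2 * ad G r x' + 2 * ad G p x' ≤
    6 + 2 * (nb Gᶜ Q r).card + 2 * (nb Gᶜ Q x').card + k := by
  have hk := l.L.F.mc.hk
  obtain ⟨hc, hd, hx'T, hxT, hFX⟩ := l.F1c
  have hrp : (nb Gᶜ (insert p Q) r).card + ad G p r = 1 + (nb Gᶜ Q r).card := by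
    have h1 := nbc_card' (G := G) l.rT
    have h2 := Lo.nbI (G := G) l.pQ r
    rw [Finset.card_insert_of_notMem l.pQ] at h1
    rw [ad_comm r p] at h2
    have := l.Qrc
    have := l.hf
    omega
  have hx'n : (nb Gᶜ (insert r (insert p Q)) x').card + ad G p x' + ad G r x' =
      2 + (nb Gᶜ Q x').card := by
    have h1 := nbc_card' (G := G) hx'T
    have h2 := Lo.nbI (G := G) l.rT x'
    have h3 := Lo.nbI (G := G) l.pQ x'
    rw [l.st.hc] at h1
    rw [ad_comm x' r] at h2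
    rw [ad_comm x' p] at h3
    have := l.Qx'c
    have := l.hf
    omega
  have hxn : (nb Gᶜ (insert x' (insert r (insert p Q))) x).card = 2 := by
    have h1 := nbc_card' (G := G) hxT
    have h2 := Lo.nbI (G := G) hx'T x
    have h3 := Lo.nbI (G := G) l.rT x
    have h4 := Lo.nbI (G := G) l.pQ x
    rw [Finset.card_insert_of_notMem hx'T, l.st.hc] at h1
    rw [ad_one l.axx] at h2
    rw [ad_zero l.xr] at h3
    rw [ad_zero l.xp] at h4
    have := l.Qxc
    omega
  have hTe : e2 Gᶜ (insert r (insert p Q)) = 2 * (nb Gᶜ (insert p Q) r).card := by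
    have := Lo.e2cstar (G := G) (mem_insert_self r (insert p Q)) l.st.clq
    rw [Finset.erase_insert l.rT] at this
    exact this
  obtain ⟨F1, hF1⟩ : ∃ F1, F1 = insert x (insert x' (insert r (insert p Q))) := ⟨_, rfl⟩
  have hE : e2 Gᶜ F1 = 2 * (nb Gᶜ (insert p Q) r).card +
      2 * (nb Gᶜ (insert r (insert p Q)) x').card + 4 := by
    rw [hF1, e2c_insert hxT, e2c_insert hx'T, hTe, hxn]
  rw [← hF1] at hc hd hFX ⊢
  have hPc := l.L.F.hPc
  have hW : P ∪ F1 ⊆ X := Finset.union_subset l.L.F.hP hFX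
  have hWc : (P ∪ F1).card = 2 * k + 1 := by
    rw [Finset.card_union_of_disjoint hd]
    omega
  have h1 := l.L.F.mc.hS _ hW (by omega)
  rw [hWc] at h1
  have h2 := e2_sdiff (G := G) (X := P ∪ F1) (R := P) Finset.subset_union_left
  rw [Finset.union_sdiff_left, Finset.sdiff_eq_self_of_disjoint hd.symm] at h2
  have h3 : ∑ v ∈ P, (nb G (P ∪ F1) v).card = e2 G P + ∑ v ∈ P, (nb G F1 v).card := by
    rw [e2_eq, ← Finset.sum_add_distrib]
    exact Finset.sum_congr rfl fun v _ => Lo.nbU hd v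
  have h4 := clq_e2 (G := G) l.L.F.hPq
  have h5 := e2_add_compl (G := G) F1
  rw [hc] at h5
  obtain ⟨m, rfl⟩ : ∃ m, k = m + 1 := ⟨k - 1, by omega⟩
  have hPm : P.card = m := by omega
  rw [hPm] at h4
  have g1 : (m + 1 + 2) * (m + 1 + 2) = m * m + 6 * m + 9 := by ring
  have g2 : (m + 1 + 1) * (2 * (m + 1) + 1) = 2 * (m * m) + 7 * m + 6 := by ring
  rw [g1] at h5
  rw [g2] at h1
  omega

/-- a vertex of `P` of degree `k` has two neighbours in the rest -/
theorem two {v : V} (hv : v ∈ P) (hd : (nb G X v).card = k) :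
    2 ≤ (nb G (insert x (insert x' (insert r (insert p Q)))) v).card := by
  have key : ∀ {a a' : V}, a ∈ insert x (insert x' (insert r (insert p Q))) →
      a' ∈ insert x (insert x' (insert r (insert p Q))) → a ≠ a' → G.Adj v a → G.Adj v a' →
      2 ≤ (nb G (insert x (insert x' (insert r (insert p Q)))) v).card := by
    intro a a' ha ha' hne h1 h2
    rw [← Finset.card_pair hne]
    refine Finset.card_le_card fun w hw => ?_
    rw [mem_insert, mem_singleton] at hw
    rcases hw with rfl | rfl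
    · exact mem_nb.2 ⟨ha, h1⟩
    · exact mem_nb.2 ⟨ha', h2⟩
  by_cases hvx : G.Adj v x
  · exact key (mem_insert_self _ _) (mem_insert_of_mem (mem_insert_self _ _)) l.B.hne hvx
      ((l.L.iff _ _ _ l.B v hv hd).1 hvx)
  · have hvp := l.third hv hd hvx
    exact key (mem_insert_of_mem (mem_insert_of_mem (mem_insert_of_mem (mem_insert_self _ _))))
      (mem_insert_of_mem (mem_insert_of_mem (mem_insert_self _ _))) l.pr hvp
      ((l.L.iff _ _ _ l.Bu v hv hd).1 hvp)

/-- at most one vertex of `P` has degree more than `k` -/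
theorem ex1 : exs G k X P ≤ 1 ∧ (exs G k X P = 0 → ∀ v ∈ P, (nb G X v).card = k) ∧
    (exs G k X P = 1 → ∃ q ∈ P, (nb G X q).card = k + 1 ∧
      ∀ v ∈ P, v ≠ q → (nb G X v).card = k) := by
  have hge : ∀ v ∈ P, k ≤ (nb G X v).card := fun v hv => l.L.F.deg_ge (l.L.F.hP hv)
  refine ⟨?_, ?_, ?_⟩
  · have h1 := l.Bc
    have h2 := l.gx'
    have h3 := l.L.F.mc.ps_le
    have h4 := l.pc2.1
    have h2' : ((nb Gᶜ Q x').card : ℤ) ≤ (nb G Z x').card + ad G p x' + ad G r x' := by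
      exact_mod_cast h2
    have : (exs G k X P : ℤ) ≤ 1 := by linarith
    exact_mod_cast this
  · intro h v hv
    unfold exs at h
    rw [Finset.sum_eq_zero_iff] at h
    have := h v hv
    have := hge v hv
    omega
  · intro h
    obtain ⟨q, hq, hqd⟩ : ∃ q ∈ P, k < (nb G X q).card := by
      by_contra hcon
      push Not at hcon
      have : exs G k X P = 0 := by
        unfold exs
        rw [Finset.sum_eq_zero_iff]
        intro v hv
        have := hcon v hv
        omega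
      omega
    have h1 := exs_erase (G := G) (k := k) (X := X) hq
    refine ⟨q, hq, by omega, fun v hv hvq => ?_⟩
    have h2 := exs_erase (G := G) (k := k) (X := X) (S := P.erase q) (u := v)
      (mem_erase.2 ⟨hvq, hv⟩)
    have := hge v hv
    omega

theorem sumP {q : V} (hq : q ∈ P) (h : ∀ v ∈ P, v ≠ q → (nb G X v).card = k) :
    2 * k + (nb G (insert x (insert x' (insert r (insert p Q)))) q).card ≤
    (∑ v ∈ P, (nb G (insert x (insert x' (insert r (insert p Q)))) v).card) + 4 := by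
  have h1 := Finset.add_sum_erase P
    (fun v => (nb G (insert x (insert x' (insert r (insert p Q)))) v).card) hq
  have h2 : ∑ v ∈ P.erase q, 2 ≤ ∑ v ∈ P.erase q,
      (nb G (insert x (insert x' (insert r (insert p Q)))) v).card := by
    refine Finset.sum_le_sum fun v hv => ?_
    have := mem_erase.1 hv
    exact l.two this.2 (h v this.2 this.1)
  rw [Finset.sum_const, smul_eq_mul] at h2
  have h3 := Finset.card_erase_add_one hq
  have h4 := l.L.F.hPc
  omega

end L2

end Pool.Agent.TwoDens.TS
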