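import Pool.Agent.TKS.LQ

/-!
Low vertices, second type: all vertices of the neighbourhood have degree more than `k`.
-/

open Finset

namespace Pool.Agent.TwoDens.TS

open Pool.Agent.TwoDens Pool.Agent.TwoDens.RK Pool.Agent.TwoDens.DD

variable {V : Type*} [DecidableEq V] {G : SimpleGraph V} [DecidableRel G.Adj]

namespace L2
variable {k : ℕ} {X P : Finset V} {c x x' u p r : V} {Q Z : Finset V}
  (l : L2 G k X P c x x' u p r Q Z)
include l

/-- one missing neighbour on both sides and no exceptional vertex -/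
theorem one_one (h0 : exs G k X P = 0) (hr : (nb Gᶜ Q r).card ≤ 1)
    (hu : (nb Gᶜ Q x').card ≤ 1) (hpr : ad G p r = 1) : False := by
  have h5 := l.L.h5
  obtain ⟨q, hq⟩ := l.L.F.hex
  have h1 := l.ex1.2.1 h0
  have h2 := l.sumP hq.1 (fun v hv _ => h1 v hv)
  have h3 := l.two hq.1 (h1 q hq.1)
  have h4 := l.e1
  omega

/-- no exceptional vertex: `b ∈ Q` has no neighbours in `P` -/
theorem pi0 (h0 : exs G k X P = 0) {b : V} (hbQ : b ∈ Q) : (nb G P b).card = 0 := by
  refine Lo.nbZ fun v hv h => ?_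
  have hbm := l.memQ.1 hbQ
  exact l.noP hv (l.ex1.2.1 h0 v hv) (mem_sdiff.2 ⟨hbm.1.1, hbm.1.2.1⟩) hbm.1.2.2.1
    hbm.1.2.2.2 (l.Qp hbQ) (l.Qr hbQ) h.symm

/-- (beta), the case without exceptional vertex and potential zero -/
theorem beta0 (hbeta : ∀ b ∈ Q, k + 1 ≤ (nb G X b).card) (h0 : exs G k X P = 0)
    (hpc : ps G k (hb X P x x') = 0) : False := by
  have hb : ∀ b ∈ Q, ¬ G.Adj b x' → 2 ≤ (nb G Z b).card + ad G b r := by
    intro b hbQ hbx
    have h1 := l.degb hbQ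
    have h2 := hbeta b hbQ
    have h3 := l.pi0 h0 hbQ
    rw [ad_zero hbx] at h1
    omega
  have key : ∀ b ∈ Q, ¬ G.Adj b x' → ∀ w ∈ insert p Q, ¬ G.Adj w r → w = b := by
    intro b hbQ hbx w hw hwr
    by_contra hne
    have h1 := l.S1' hw hwr hbQ hne
    have h2 := hb b hbQ hbx
    have h2' : (2 : ℤ) ≤ (nb G Z b).card + ad G b r := by exact_mod_cast h2
    rw [hpc] at h1
    linarith
  obtain ⟨b, hbQ, hbx⟩ := l.exu
  obtain ⟨w, hw, hwr⟩ := l.exr
  have hwb := key b hbQ hbx w hw hwr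
  refine l.one_one h0 ?_ ?_ ?_
  · rw [Finset.card_le_one]
    intro a ha a' ha'
    rw [l.memr] at ha ha'
    rw [key b hbQ hbx a (mem_insert_of_mem ha.1) ha.2,
      key b hbQ hbx a' (mem_insert_of_mem ha'.1) ha'.2]
  · rw [Finset.card_le_one]
    intro a ha a' ha'
    rw [l.memu] at ha ha'
    rw [← key a ha.1 ha.2 w hw hwr, ← key a' ha'.1 ha'.2 w hw hwr]
  · by_contra hcon
    have h1 : ¬ G.Adj p r := fun e => hcon (ad_one e)
    exact l.pQ (key b hbQ hbx p (mem_insert_self _ _) h1 ▸ hbQ)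

/-- (beta), the last configuration for `k = 5` -/
theorem beta2 (h0 : exs G k X P = 0) (hk5 : k = 5) (hpc : ps G k (hb X P x x') = 2)
    {b0 b1 : V} (hb0 : b0 ∈ Q) (hb1 : b1 ∈ Q) (h01 : b0 ≠ b1) (x0 : ¬ G.Adj b0 x')
    (x1 : ¬ G.Adj b1 x') (hmu : (nb Gᶜ Q x').card = 2)
    (hnx : (nb G Z x').card + ad G p x' + ad G r x' = 2)
    (n0 : (nb G Z b0).card = 2) (n1 : (nb G Z b1).card = 2)
    (hL : ∀ w ∈ insert p Q, ¬ G.Adj w r → w = b0 ∨ w = b1)
    (hp0 : (nb G Z p).card = 0) (hpx : ad G p x' = 0) (hpr : ad G p r = 1)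
    (hnr : (nb G Z r).card + ad G r x' = (nb Gᶜ Q r).card) : False := by
  have hQc : Q.card = 3 := by
    have := l.hf
    omega
  have hex := l.ex1.2.1 h0
  obtain ⟨q, hq, hqd⟩ := l.L.F.hex
  have s2 := l.sumP hq (fun v hv _ => hex v hv)
  have s3 := l.two hq (hex q hq)
  have s4 := l.e1
  have hmr : (nb Gᶜ Q r).card ≤ 2 := by
    refine (Finset.card_le_card (t := {b0, b1}) fun w hw => ?_).trans Finset.card_le_two
    rw [l.memr] at hw
    rw [mem_insert, mem_singleton]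
    exact hL w (mem_insert_of_mem hw.1) hw.2
  have hmr2 : (nb Gᶜ Q r).card = 2 ∧ ad G r x' = 0 := by omega
  have hrs : nb Gᶜ Q r = {b0, b1} := by
    refine Finset.eq_of_subset_of_card_le ?_ ?_
    · intro w hw
      rw [l.memr] at hw
      rw [mem_insert, mem_singleton]
      exact hL w (mem_insert_of_mem hw.1) hw.2
    · rw [Finset.card_pair h01, hmr2.1]
  have r0 : ¬ G.Adj b0 r := (l.memr.1 (by rw [hrs]; simp)).2
  have r1 : ¬ G.Adj b1 r := (l.memr.1 (by rw [hrs]; simp)).2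
  have hus : nb Gᶜ Q x' = {b0, b1} := by
    symm
    refine Finset.eq_of_subset_of_card_le ?_ ?_
    · intro w hw
      rw [mem_insert, mem_singleton] at hw
      rcases hw with rfl | rfl
      · exact l.memu.2 ⟨hb0, x0⟩
      · exact l.memu.2 ⟨hb1, x1⟩
    · rw [Finset.card_pair h01, hmu]
  -- the third vertex
  obtain ⟨b2, hb2, h2n⟩ : ∃ b2 ∈ Q, b2 ∉ ({b0, b1} : Finset V) := by
    by_contra hcon
    push Not at hcon
    have := Finset.card_le_card (show Q ⊆ {b0, b1} from hcon)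
    rw [Finset.card_pair h01] at this
    omega
  have hne2 : b2 ≠ b0 ∧ b2 ≠ b1 := by
    rw [mem_insert, mem_singleton, not_or] at h2n
    exact h2n
  have a2x : G.Adj b2 x' := by
    by_contra e
    exact h2n (hus ▸ l.memu.2 ⟨hb2, e⟩)
  have a2r : G.Adj b2 r := by
    by_contra e
    exact h2n (hrs ▸ l.memr.2 ⟨hb2, e⟩)
  have hnr2 : (nb G Z r).card = 2 := by omega
  have hnx2 : (nb G Z x').card = 2 := by omega
  -- the potential of `Z`
  have hz : ps G k Z ≠ 0 := by
    intro e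
    have := (l.szr (mem_insert_of_mem hb0) r0).2 e
    omega
  have hZ0 := l.zps0
  obtain ⟨e, he⟩ := ps_even (G := G) k Z
  have hZc := l.Zc
  have hsum : ((nb G Z b0).card + ad G b0 r - 1) + (((nb G Z b1).card + ad G b1 r - 1) +
      ((nb G Z b2).card + ad G b2 r - 1)) ≤ ∑ b ∈ Q, ((nb G Z b).card + ad G b r - 1) := by
    have : ∑ b ∈ ({b0, b1, b2} : Finset V), ((nb G Z b).card + ad G b r - 1) ≤
        ∑ b ∈ Q, ((nb G Z b).card + ad G b r - 1) := by
      refine Finset.sum_le_sum_of_subset fun w hw => ?_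
      rw [mem_insert, mem_insert, mem_singleton] at hw
      rcases hw with rfl | rfl | rfl
      · exact hb0
      · exact hb1
      · exact hb2
    rw [Finset.sum_insert (by
      rw [mem_insert, mem_singleton, not_or]
      exact ⟨h01, hne2.1.symm⟩), Finset.sum_pair hne2.2.symm] at this
    exact this
  rw [n0, n1, ad_zero r0, ad_zero r1, ad_one a2r] at hsum
  have hn2 : (nb G Z b2).card = 0 := by
    have h1 : (nb G Z b2).card + 2 ≤ ∑ b ∈ Q, ((nb G Z b).card + ad G b r - 1) := by omega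
    have h1' : ((nb G Z b2).card : ℤ) + 2 ≤
      ((∑ b ∈ Q, ((nb G Z b).card + ad G b r - 1) : ℕ) : ℤ) := by exact_mod_cast h1
    have h2 := Int.natCast_nonneg ((nb G Z p).card + ad G p r - 1)
    rw [hnr2, hpc] at hZc
    have hz2 : 2 ≤ ps G k Z := by omega
    have hk' : (k : ℤ) = 5 := by exact_mod_cast hk5
    push_cast at hZc h1' h2
    have : ((nb G Z b2).card : ℤ) ≤ 0 := by
      rw [hk'] at hZc
      linarith
    omega
  -- the transversal at `x'`
  have hNx := l.Nx'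
  have hx'u : ¬ G.Adj x' u := fun e => l.ux' e.symm
  have hlow : (nb G (hb X P x' x) x').card + 2 = k := by
    rw [hb_comm X P x' x]
    omega
  obtain ⟨-, -, m1, m2, s, hS, -⟩ := l.L.lowT l.B.symm hlow l.Bu hx'u
  have hcl := hS.clq
  rw [hb_comm X P x' x] at hcl m1 m2
  obtain ⟨g1, g2, hg12, hg⟩ := Finset.card_eq_two.1 hnx2
  have hgm : ∀ g : V, g ∈ nb G Z x' → g ∈ nb G (hb X P x x') x' := by
    intro g hg
    have h1 := mem_nb.1 hg
    refine mem_nb.2 ⟨?_, h1.2⟩
    rw [l.hbd]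
    exact mem_union_right _ h1.1
  have g1m : g1 ∈ nb G Z x' := by rw [hg]; simp
  have g2m : g2 ∈ nb G Z x' := by rw [hg]; simp
  have b2m : b2 ∈ nb G (hb X P x x') x' := mem_nb.2
    ⟨l.st.hT (mem_insert_of_mem (mem_insert_of_mem hb2)), a2x.symm⟩
  have hb2g : ∀ g ∈ nb G Z x', ¬ G.Adj g b2 := by
    intro g hg hgb
    have : g ∈ nb G Z b2 := mem_nb.2 ⟨(mem_nb.1 hg).1, hgb.symm⟩
    rw [Finset.card_eq_zero] at hn2
    rw [hn2] at this
    simp at this
  have hpg : ∀ g ∈ nb G Z x', ¬ G.Adj g p := by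
    intro g hg hgb
    have : g ∈ nb G Z p := mem_nb.2 ⟨(mem_nb.1 hg).1, hgb.symm⟩
    rw [Finset.card_eq_zero] at hp0
    rw [hp0] at this
    simp at this
  have gz : ∀ g ∈ nb G Z x', g ≠ b2 ∧ g ≠ p := by
    intro g hg
    have h1 := l.mem_z.1 (mem_nb.1 hg).1
    exact ⟨fun e => h1.2.2.2.2.2.2 (e ▸ hb2), h1.2.2.2.2.1⟩
  have hT : ∀ {w : V}, w = p ∨ w ∈ nb G (hb X P x x') x' →
      w ∈ insert p (insert r (nb G (hb X P x x') x')) := by
    intro w hw
    rcases hw with h | h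
    · rw [h]; exact mem_insert_self _ _
    · exact mem_insert_of_mem (mem_insert_of_mem h)
  have c1 : s = g1 ∨ s = b2 := by
    by_contra hcon
    push Not at hcon
    exact hb2g g1 g1m (hcl g1 (mem_erase.2 ⟨hcon.1.symm, hT (Or.inr (hgm g1 g1m))⟩) b2
      (mem_erase.2 ⟨hcon.2.symm, hT (Or.inr b2m)⟩) (gz g1 g1m).1)
  have c2 : s = g2 ∨ s = p := by
    by_contra hcon
    push Not at hcon
    exact hpg g2 g2m (hcl g2 (mem_erase.2 ⟨hcon.1.symm, hT (Or.inr (hgm g2 g2m))⟩) p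
      (mem_erase.2 ⟨hcon.2.symm, hT (Or.inl rfl)⟩) (gz g2 g2m).2)
  have c3 := gz g1 g1m
  have c4 := gz g2 g2m
  have c5 := l.Qp hb2
  rcases c1 with c1 | c1 <;> rcases c2 with c2 | c2
  · exact hg12 (c1.symm.trans c2)
  · exact c3.2 (c1.symm.trans c2)
  · exact c4.1 (c2.symm.trans c1)
  · exact c5 (c1.symm.trans c2)

/-- (beta), the case without exceptional vertex and potential two -/
theorem beta1 (hbeta : ∀ b ∈ Q, k + 1 ≤ (nb G X b).card) (h0 : exs G k X P = 0)
    (hpc : ps G k (hb X P x x') = 2) : False := by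
  have h5 := l.L.h5
  have hBc := l.Bc
  have hgx := l.gx'
  have hgx' : ((nb Gᶜ Q x').card : ℤ) ≤ (nb G Z x').card + ad G p x' + ad G r x' := by
    exact_mod_cast hgx
  have hpl := l.L.F.mc.ps_le
  rw [hpc, h0] at hBc
  push_cast at hBc
  have hpX : ps G k X = -2 := by linarith
  have hnx : (nb G Z x').card + ad G p x' + ad G r x' = (nb Gᶜ Q x').card := by
    have : ((nb G Z x').card : ℤ) + ad G p x' + ad G r x' = (nb Gᶜ Q x').card := by linarith
    exact_mod_cast this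
  have hbz : ∀ b ∈ Q, ¬ G.Adj b x' → 2 ≤ (nb G Z b).card + ad G b r := by
    intro b hbQ hbx
    have h1 := l.degb hbQ
    have h2 := hbeta b hbQ
    have h3 := l.pi0 h0 hbQ
    rw [ad_zero hbx] at h1
    omega
  have hsz : ∀ b ∈ Q, ¬ G.Adj b x' → k ≤ (nb G Z b).card + (nb Gᶜ Q x').card + 1 := by
    intro b hbQ hbx
    have h1 := (l.szx hbQ hbx).1
    omega
  obtain ⟨w, hw, hwr⟩ := l.exr
  obtain ⟨b, hbQ, hbx⟩ := l.exu
  -- two elements different from a missed vertex
  have twoe : ∀ b ∈ Q, ∀ b' ∈ Q, b ≠ b' → ¬ G.Adj b x' → ¬ G.Adj b' x' → ∀ w ∈ insert p Q,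
      ¬ G.Adj w r → w = b ∨ w = b' := by
    intro b hbQ b' hbQ' hbb hbx hbx' w hw hwr
    by_contra hcon
    push Not at hcon
    have h1 := l.S1 hw hwr (A := {b, b'}) (by
      intro v hv
      rw [mem_insert, mem_singleton] at hv
      rcases hv with rfl | rfl
      · exact hbQ
      · exact hbQ') (by
      rw [mem_insert, mem_singleton, not_or]
      exact hcon)
    rw [Finset.sum_pair hbb, hpc] at h1
    have h2 := hbz b hbQ hbx
    have h3 := hbz b' hbQ' hbx'
    have h4 : 2 ≤ ((nb G Z b).card + ad G b r - 1) + ((nb G Z b').card + ad G b' r - 1) := by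
      omega
    have h4' : (2 : ℤ) ≤ ((((nb G Z b).card + ad G b r - 1) +
      ((nb G Z b').card + ad G b' r - 1) : ℕ) : ℤ) := by exact_mod_cast h4
    linarith
  by_cases hmu : (nb Gᶜ Q x').card ≤ 1
  · have h1 := hsz b hbQ hbx
    have key : ∀ w ∈ insert p Q, ¬ G.Adj w r → w = b := by
      intro w hw hwr
      by_contra hne
      have h2 := l.S1' hw hwr hbQ hne
      rw [hpc] at h2
      have h3 : 3 ≤ (nb G Z b).card := by omega
      have h3' : (3 : ℤ) ≤ (nb G Z b).card := by exact_mod_cast h3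
      have h4 := Int.natCast_nonneg (ad G b r)
      linarith
    refine l.one_one h0 ?_ hmu ?_
    · rw [Finset.card_le_one]
      intro a ha a' ha'
      rw [l.memr] at ha ha'
      rw [key a (mem_insert_of_mem ha.1) ha.2, key a' (mem_insert_of_mem ha'.1) ha'.2]
    · by_contra hcon
      have h1 : ¬ G.Adj p r := fun e => hcon (ad_one e)
      exact l.pQ (key p (mem_insert_self _ _) h1 ▸ hbQ)
  · -- exactly two
    have hmu2 : (nb Gᶜ Q x').card = 2 := by
      by_contra hne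
      obtain ⟨b1, g1, b2, g2, b3, g3, e12, e13, e23⟩ := Finset.two_lt_card.1
        (show 2 < (nb Gᶜ Q x').card by omega)
      rw [l.memu] at g1 g2 g3
      rcases twoe b1 g1.1 b2 g2.1 e12 g1.2 g2.2 w hw hwr with e | e
      · rcases twoe b2 g2.1 b3 g3.1 e23 g2.2 g3.2 w hw hwr with e' | e'
        · exact e12 (e.symm.trans e')
        · exact e13 (e.symm.trans e')
      · rcases twoe b1 g1.1 b3 g3.1 e13 g1.2 g3.2 w hw hwr with e' | e'
        · exact e12 (e'.symm.trans e)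
        · exact e23 (e.symm.trans e')
    obtain ⟨b0, b1, h01, hbb⟩ := Finset.card_eq_two.1 hmu2
    have g0 : b0 ∈ Q ∧ ¬ G.Adj b0 x' := l.memu.1 (by rw [hbb]; simp)
    have g1 : b1 ∈ Q ∧ ¬ G.Adj b1 x' := l.memu.1 (by rw [hbb]; simp)
    have z0 := hsz b0 g0.1 g0.2
    have z1 := hsz b1 g1.1 g1.2
    rw [hmu2] at z0 z1 hnx
    have q0 := l.Su1' g1.1 g1.2 g0.1 h01.symm
    have q1 := l.Su1' g0.1 g0.2 g1.1 h01
    have hpu : ps G k (hb X P p r) ≠ 0 := by
      intro e
      rw [e] at q0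
      have h3' : (2 : ℤ) ≤ (nb G Z b0).card := by
        have : 2 ≤ (nb G Z b0).card := by omega
        exact_mod_cast this
      have h4 := Int.natCast_nonneg (ad G b0 x')
      linarith
    obtain ⟨i1, i2, i3, i4, i5⟩ := l.np1.2 (Or.inr (Or.inl hpu))
    rw [h0, hpX] at i5
    push_cast at i5
    have hpu2 : ps G k (hb X P p r) = 2 := by linarith
    rw [hpu2, ad_zero g0.2] at q0
    rw [hpu2, ad_zero g1.2] at q1
    have n0 : (nb G Z b0).card ≤ 2 := by
      have : ((nb G Z b0).card : ℤ) ≤ 2 := by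
        push_cast at q0
        linarith
      exact_mod_cast this
    have n1 : (nb G Z b1).card ≤ 2 := by
      have : ((nb G Z b1).card : ℤ) ≤ 2 := by
        push_cast at q1
        linarith
      exact_mod_cast this
    exact l.beta2 h0 (by omega) hpc g0.1 g1.1 h01 g0.2 g1.2 hmu2 hnx (by omega) (by omega)
      (twoe b0 g0.1 b1 g1.1 h01 g0.2 g1.2) i1 i2 i3 i4

end L2

end Pool.Agent.TwoDens.TS
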