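import Pool.Agent.TKS.LS

/-!
Low vertices, second type: all vertices of the neighbourhood have degree more than `k`, the case
of one exceptional vertex.
-/

open Finset

namespace Pool.Agent.TwoDens.TS

open Pool.Agent.TwoDens Pool.Agent.TwoDens.RK Pool.Agent.TwoDens.DD

variable {V : Type*} [DecidableEq V] {G : SimpleGraph V} [DecidableRel G.Adj]

namespace L2
variable {k : ℕ} {X P : Finset V} {c x x' u p r : V} {Q Z : Finset V}
  (l : L2 G k X P c x x' u p r Q Z)
include l

/-- consequences of one exceptional vertex -/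
theorem nums1 (h0 : exs G k X P = 1) :
    ps G k (hb X P x x') = 0 ∧ ps G k X = -2 ∧ ps G k (hb X P p r) = 0 ∧
      (nb G Z p).card = 0 ∧ ad G p x' = 0 ∧ ad G p r = 1 ∧
      (nb G Z r).card + ad G r x' = (nb Gᶜ Q r).card ∧
      (nb G Z x').card + ad G r x' = (nb Gᶜ Q x').card := by
  have hBc := l.Bc
  have hgx := l.gx'
  have hgx' : ((nb Gᶜ Q x').card : ℤ) ≤ (nb G Z x').card + ad G p x' + ad G r x' := by
    exact_mod_cast hgx
  have hpl := l.L.F.mc.ps_le
  have hpc := l.pc2.1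
  rw [h0] at hBc
  push_cast at hBc
  have e1 : ps G k (hb X P x x') = 0 := by linarith
  have e2' : ps G k X = -2 := by linarith
  obtain ⟨i1, i2, i3, i4, i5⟩ := l.np1.2 (Or.inl (by rw [h0]))
  rw [h0, e2'] at i5
  push_cast at i5
  refine ⟨e1, e2', by linarith, i1, i2, i3, i4, ?_⟩
  have : ((nb G Z x').card : ℤ) + ad G r x' = (nb Gᶜ Q x').card := by
    rw [i2] at hBc hgx'
    push_cast at hBc hgx'
    linarith
  exact_mod_cast this

/-- the exceptional vertex has three neighbours outside `P` and few of them in `Z` -/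
theorem q_z {q : V} (hq : q ∈ P) (hqd : (nb G X q).card = k + 1) (h0 : (nb G Z p).card = 0)
    {A : Finset V} (hA : A ⊆ X \ P) (hAZ : Disjoint A Z) (hAq : ∀ w ∈ A, G.Adj q w)
    (hx : ¬ G.Adj q x) (hp : ¬ G.Adj q p) : k + A.card ≤ 4 := by
  have h5 := l.L.h5
  have h1 := card_nbP l.L.F.hP l.L.F.hPc l.L.F.hPq hq
  have h2 := l.trP hq hx hp
  have h3 := l.ztau1 _ (Finset.union_subset (nb_sub _ _) (nb_sub _ _)) h2
  have h4 := Finset.card_union_le (nb G Z q) (nb G Z p)
  have h6 : nb G Z q ∪ A ⊆ nb G (X \ P) q := by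
    intro w hw
    rcases mem_union.1 hw with h | h
    · have h7 := mem_nb.1 h
      have h8 := l.mem_z.1 h7.1
      exact mem_nb.2 ⟨mem_sdiff.2 ⟨h8.1, h8.2.1⟩, h7.2⟩
    · exact mem_nb.2 ⟨hA h, hAq w h⟩
  have h7 := Finset.card_le_card h6
  have h8 : Disjoint (nb G Z q) A := by
    rw [Finset.disjoint_left]
    intro w hw hw'
    exact (Finset.disjoint_left.1 hAZ hw') (mem_nb.1 hw).1
  rw [Finset.card_union_of_disjoint h8] at h7
  omega

/-- (beta), the case of one exceptional vertex -/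
theorem beta3 (hbeta : ∀ b ∈ Q, k + 1 ≤ (nb G X b).card) (h0 : exs G k X P = 1) : False := by
  have h5 := l.L.h5
  obtain ⟨hpc, hpX, hpu, np0, apx, apr, hmr, hmu⟩ := l.nums1 h0
  obtain ⟨q, hq, hqd, hoth⟩ := l.ex1.2.2 h0
  obtain ⟨w, hw, hwr⟩ := l.exr
  obtain ⟨b, hbQ, hbx⟩ := l.exu
  have hwQ : w ∈ Q := by
    rcases mem_insert.1 hw with h | h
    · exfalso
      rw [h] at hwr
      rw [ad_zero hwr] at apr
      omega
    · exact h
  -- consequences of (S)
  have s1 : ∀ w ∈ Q, ¬ G.Adj w r → ∀ b ∈ Q, w ≠ b → (nb G Z b).card + ad G b r ≤ 1 := by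
    intro w hwQ hwr b hbQ hne
    have h1 := l.S1' (mem_insert_of_mem hwQ) hwr hbQ hne
    rw [hpc] at h1
    omega
  have s2 : ∀ w ∈ Q, ¬ G.Adj w x' → ∀ b ∈ Q, w ≠ b → (nb G Z b).card + ad G b x' ≤ 1 := by
    intro w hwQ hwr b hbQ hne
    have h1 := l.Su1' hwQ hwr hbQ hne
    rw [hpu] at h1
    omega
  have hmr1 : 1 ≤ (nb Gᶜ Q r).card := Finset.card_pos.2 ⟨w, l.memr.2 ⟨hwQ, hwr⟩⟩
  have hmu1 : 1 ≤ (nb Gᶜ Q x').card := Finset.card_pos.2 ⟨b, l.memu.2 ⟨hbQ, hbx⟩⟩
  by_cases hone : (nb Gᶜ Q r).card ≤ 1 ∨ (nb Gᶜ Q x').card ≤ 1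
  · -- both are one
    have hb1 : (nb Gᶜ Q r).card ≤ 1 ∧ (nb Gᶜ Q x').card ≤ 1 := by
      rcases hone with h | h
      · refine ⟨h, ?_⟩
        have h1 := (l.szr hw hwr).1
        rw [Finset.card_le_one]
        have key : ∀ a ∈ Q, ¬ G.Adj a x' → a = w := by
          intro a ha hax
          by_contra hne
          have := s2 a ha hax w hwQ hne
          omega
        intro a ha a' ha'
        rw [l.memu] at ha ha'
        rw [key a ha.1 ha.2, key a' ha'.1 ha'.2]
      · refine ⟨?_, h⟩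
        have h1 := (l.szx hbQ hbx).1
        rw [Finset.card_le_one]
        have key : ∀ a ∈ Q, ¬ G.Adj a r → a = b := by
          intro a ha hax
          by_contra hne
          have := s1 a ha hax b hbQ hne
          omega
        intro a ha a' ha'
        rw [l.memr] at ha ha'
        rw [key a ha.1 ha.2, key a' ha'.1 ha'.2]
    have h1 := l.sumP hq hoth
    have h2 := l.e1
    have hj : (nb G (insert x (insert x' (insert r (insert p Q)))) q).card = 0 := by omega
    have hj' : ∀ v ∈ insert x (insert x' (insert r (insert p Q))), ¬ G.Adj q v := by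
      intro v hv hqv
      rw [Finset.card_eq_zero] at hj
      have : v ∈ nb G (insert x (insert x' (insert r (insert p Q)))) q := mem_nb.2 ⟨hv, hqv⟩
      rw [hj] at this
      simp at this
    have h3 := l.q_z hq hqd np0 (A := ∅) (Finset.empty_subset _) (Finset.disjoint_empty_left _)
      (by simp) (hj' x (mem_insert_self _ _))
      (hj' p (mem_insert_of_mem (mem_insert_of_mem (mem_insert_of_mem (mem_insert_self _ _)))))
    omega
  · push Not at hone
    have a1 : ∀ b ∈ Q, (nb G Z b).card + ad G b r = 1 := by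
      intro b hbQ
      obtain ⟨w, hw, hwb⟩ := Finset.exists_mem_ne hone.1 b
      rw [l.memr] at hw
      have h1 := s1 w hw.1 hw.2 b hbQ hwb
      have h2 := (l.dQ hbQ).1
      omega
    have a2 : ∀ b ∈ Q, (nb G Z b).card + ad G b x' = 1 := by
      intro b hbQ
      obtain ⟨w, hw, hwb⟩ := Finset.exists_mem_ne hone.2 b
      rw [l.memu] at hw
      have h1 := s2 w hw.1 hw.2 b hbQ hwb
      have h2 := (l.dQ hbQ).2
      omega
    have h1 := (l.szr hw hwr).1
    have h2 := a1 w hwQ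
    rw [ad_zero hwr] at h2
    have hrc := l.Qrc
    have hall : ∀ b ∈ Q, ¬ G.Adj b r := by
      intro b hbQ hbr
      have h3 : b ∈ nb G Q r := mem_nb.2 ⟨hbQ, hbr.symm⟩
      have h4 : 0 < (nb G Q r).card := Finset.card_pos.2 ⟨b, h3⟩
      omega
    have hqb : ∀ b ∈ Q, G.Adj q b := by
      intro b hbQ
      have h3 := a1 b hbQ
      have h4 := a2 b hbQ
      rw [ad_zero (hall b hbQ)] at h3
      have h6 := l.degb hbQ
      have h7 := hbeta b hbQ
      rw [ad_zero (hall b hbQ)] at h6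
      have h8 : 0 < (nb G P b).card := by omega
      obtain ⟨v, hv⟩ := Finset.card_pos.1 h8
      rw [mem_nb] at hv
      have hbm := l.memQ.1 hbQ
      by_cases hvq : v = q
      · rw [← hvq]
        exact hv.2.symm
      · exact absurd hv.2.symm (l.noP hv.1 (hoth v hv.1 hvq)
          (mem_sdiff.2 ⟨hbm.1.1, hbm.1.2.1⟩) hbm.1.2.2.1 hbm.1.2.2.2 (l.Qp hbQ) (l.Qr hbQ))
    have hcard := card_nbP l.L.F.hP l.L.F.hPc l.L.F.hPq hq
    have hQX : Q ⊆ X \ P := fun w hw => by
      have hbm := l.memQ.1 hw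
      exact mem_sdiff.2 ⟨hbm.1.1, hbm.1.2.1⟩
    have hout : ∀ v ∈ X \ P, v ∉ Q → ¬ G.Adj q v := by
      intro v hv hvQ hqv
      have h3 : insert v Q ⊆ nb G (X \ P) q := by
        intro z hz
        rcases mem_insert.1 hz with h | h
        · rw [h]
          exact mem_nb.2 ⟨hv, hqv⟩
        · exact mem_nb.2 ⟨hQX h, hqb z h⟩
      have h4 := Finset.card_le_card h3
      rw [Finset.card_insert_of_notMem hvQ] at h4
      have := l.hf
      omega
    have hpm := mem_hb.1 l.pH
    have h3 := l.q_z hq hqd np0 (A := Q) hQX (by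
      rw [Finset.disjoint_left]
      intro z hz hz'
      exact (l.mem_z.1 hz').2.2.2.2.2.2 hz) hqb (hout x l.B.hx l.xQ)
      (hout p (mem_sdiff.2 ⟨hpm.1, hpm.2.1⟩) l.pQ)
    have := l.hf
    omega

/-- (beta) -/
theorem beta (hbeta : ∀ b ∈ Q, k + 1 ≤ (nb G X b).card) : False := by
  have h1 := l.ex1.1
  by_cases h0 : exs G k X P = 0
  · have h2 := l.pc2
    obtain ⟨e, he⟩ := ps_even (G := G) k (hb X P x x')
    by_cases h3 : ps G k (hb X P x x') = 0
    · exact l.beta0 hbeta h0 h3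
    · exact l.beta1 hbeta h0 (by omega)
  · exact l.beta3 hbeta (by omega)

end L2

end Pool.Agent.TwoDens.TS
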