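import Pool.Agent.TKS.LL

/-!
The last two configurations of a low vertex whose star has a vertex of degree `k`.
-/

open Finset

namespace Pool.Agent.TwoDens.TS

open Pool.Agent.TwoDens Pool.Agent.TwoDens.RK Pool.Agent.TwoDens.DD

variable {V : Type*} [DecidableEq V] {G : SimpleGraph V} [DecidableRel G.Adj]

/-- the extra vertex of a small transversal is determined -/
theorem MC.uq1 {k : ℕ} {X : Finset V} (H : MC G k X) {Y : Finset V} (hY : Y ⊆ X) (hne : Y ≠ X)
    (hp : ps G k Y ≤ 4) {N : Finset V} (hN : N ⊆ Y) (hNc : N.card + 2 = k)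
    {y1 y2 : V} (h1 : y1 ∈ Y) (h2 : y2 ∈ Y) (t1 : Tr G Y (insert y1 N))
    (t2 : Tr G Y (insert y2 N)) : y1 = y2 := by
  have hk := H.hk
  have hk' : (4 : ℤ) ≤ k := by exact_mod_cast hk
  have htau := H.tau1 hY hne (by linarith)
  have s1 : insert y1 N ⊆ Y := Finset.insert_subset h1 hN
  have s2 : insert y2 N ⊆ Y := Finset.insert_subset h2 hN
  have c1 := htau _ s1 t1
  have c2 := htau _ s2 t2
  have n1 : y1 ∉ N := by
    intro e
    rw [Finset.insert_eq_of_mem e] at c1
    omega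
  have n2 : y2 ∉ N := by
    intro e
    rw [Finset.insert_eq_of_mem e] at c2
    omega
  have d1 : (insert y1 N).card + 1 = k := by rw [Finset.card_insert_of_notMem n1]; omega
  have d2 : (insert y2 N).card + 1 = k := by rw [Finset.card_insert_of_notMem n2]; omega
  obtain ⟨q1, b1⟩ := H.tr34 hY hne (by linarith) s1 d1 t1
  obtain ⟨q2, b2⟩ := H.tr34 hY hne (by linarith) s2 d2 t2
  by_contra hcon
  have hb : N.card ≤ bd G Y (insert y1 N) := by
    unfold bd
    calc N.card = ∑ v ∈ N, 1 := by rw [Finset.card_eq_sum_ones]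
      _ ≤ ∑ v ∈ N, (nb G Y v \ insert y1 N).card := by
          refine Finset.sum_le_sum fun v hv => ?_
          refine Finset.card_pos.2 ⟨y2, mem_sdiff.2 ⟨mem_nb.2 ⟨h2, ?_⟩, ?_⟩⟩
          · exact q2 v (mem_insert_of_mem hv) y2 (mem_insert_self _ _) (fun e => n2 (e ▸ hv))
          · rw [mem_insert, not_or]
            exact ⟨fun e => hcon e.symm, n2⟩
      _ ≤ ∑ v ∈ insert y1 N, (nb G Y v \ insert y1 N).card :=
          Finset.sum_le_sum_of_subset (Finset.subset_insert _ _)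
  have hb' : (N.card : ℤ) ≤ bd G Y (insert y1 N) := by exact_mod_cast hb
  have hNc' : (N.card : ℤ) + 2 = k := by exact_mod_cast hNc
  linarith

/-- a transversal clique with `k - 1` vertices: potential and independence number of the rest -/
theorem MC.rest {k : ℕ} {X : Finset V} (H : MC G k X) {Z S : Finset V} (hZ : Z ⊆ X)
    (hne : Z ≠ X) (hp : ps G k Z ≤ 4) (hS : S ⊆ Z) (hSc : S.card + 1 = k) (hT : Tr G Z S) :
    Clq G S ∧ al G (Z \ S) + 1 = al G Z ∧ ps G k (Z \ S) + 2 + 2 * bd G Z S = ps G k Z := by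
  have hk' : (4 : ℤ) ≤ k := by exact_mod_cast H.hk
  obtain ⟨hq, hb⟩ := H.tr34 hZ hne (by linarith) hS hSc hT
  have hal1 : al G (Z \ S) + 1 = al G Z := by
    have h1 := al_le_sdiff (G := G) Z S
    have h2 := al_clq (G := G) (X := Z ∩ S) (fun a ha b hb' hab =>
      hq a (mem_inter.1 ha).2 b (mem_inter.1 hb').2 hab)
    unfold Tr at hT
    omega
  refine ⟨hq, hal1, ?_⟩
  have h3 := ps_sdiff (G := G) k hS
  have h4 := sum_deg' (G := G) hS
  have h5' := clq_e2 (G := G) hq
  have hk := H.hk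
  obtain ⟨m, rfl⟩ : ∃ m, k = m + 1 := ⟨k - 1, by omega⟩
  have hSm : S.card = m := by omega
  have h6 : ((∑ v ∈ S, (nb G Z v).card : ℕ) : ℤ) = e2 G S + bd G Z S := by exact_mod_cast h4
  have h7 : (e2 G S : ℤ) + m = m * m := by
    rw [hSm] at h5'
    exact_mod_cast h5'
  have h8 : ((al G Z : ℤ) - al G (Z \ S)) = 1 := by
    have : (al G (Z \ S) : ℤ) + 1 = al G Z := by exact_mod_cast hal1
    linarith
  rw [h8, h6, hSm] at h3
  push_cast at h3
  nlinarith

/-- no edge leaves a set without boundary -/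
theorem bd_zero {Y S : Finset V} (h : bd G Y S = 0) {v w : V} (hv : v ∈ S) (hw : w ∈ Y)
    (hwS : w ∉ S) : ¬ G.Adj v w := by
  intro hvw
  unfold bd at h
  rw [Finset.sum_eq_zero_iff] at h
  have h1 := h v hv
  rw [Finset.card_eq_zero, Finset.eq_empty_iff_forall_notMem] at h1
  exact h1 w (mem_sdiff.2 ⟨mem_nb.2 ⟨hw, hvw⟩, hwS⟩)

/-- (alpha), case II, potential two -/
theorem MC.al2a {k : ℕ} {X : Finset V} (H : MC G k X) (h5 : 5 ≤ k) (hs : -4 ≤ ps G k X)
    {Z R : Finset V} {x' r : V} (hZ : Z ⊆ X) (hZc : (X \ Z).card = 2 * k + 1)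
    (hal : al G Z + 2 = al G X) (hp : ps G k Z = 2)
    (hcov : ∀ v ∈ X, v ∉ Z → v ∈ R ∨ v = x' ∨ v = r ∨ ∀ w ∈ Z, ¬ G.Adj v w)
    (hr : (nb G Z r).card + 2 = k) (hR0 : ∀ v ∈ R, G.Adj v r → nb G Z v = ∅)
    (hR1 : ∀ v ∈ R, ¬ G.Adj v r → ∃ t, nb G Z v = {t} ∧ Tr G Z (insert t (nb G Z r)))
    (hb : ∃ b ∈ R, ¬ G.Adj b r ∧ ∀ t, nb G Z b = {t} → Tr G Z (insert t (nb G Z x')))
    (hx' : (nb G Z x').card + 1 ≤ k) : False := by
  have hne : Z ≠ X := by
    intro h
    rw [h, Finset.sdiff_self, Finset.card_empty] at hZc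
    omega
  obtain ⟨b, hbR, hbr, hbt⟩ := hb
  obtain ⟨t, ht, htr⟩ := hR1 b hbR hbr
  have htx := hbt t ht
  have htZ : t ∈ Z := by
    have : t ∈ nb G Z b := by rw [ht]; exact mem_singleton_self t
    exact (mem_nb.1 this).1
  obtain ⟨N, hN⟩ : ∃ N, N = nb G Z r := ⟨_, rfl⟩
  obtain ⟨N', hN'⟩ : ∃ N', N' = nb G Z x' := ⟨_, rfl⟩
  have hNZ : N ⊆ Z := by rw [hN]; exact nb_sub _ _
  have hNZ' : N' ⊆ Z := by rw [hN']; exact nb_sub _ _
  rw [← hN] at hr htr hR1
  rw [← hN'] at hx' htx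
  have hS : insert t N ⊆ Z := Finset.insert_subset htZ hNZ
  have htau := H.tau1 hZ hne (by linarith [(by exact_mod_cast h5 : (5 : ℤ) ≤ k)])
  have c1 := htau _ hS htr
  have n1 : t ∉ N := by
    intro e
    rw [Finset.insert_eq_of_mem e] at c1
    omega
  have hSc : (insert t N).card + 1 = k := by rw [Finset.card_insert_of_notMem n1]; omega
  obtain ⟨hq, hal1, hps1⟩ := H.rest hZ hne (by linarith) hS hSc htr
  have hsub1 : Z \ insert t N ⊆ X := Finset.sdiff_subset.trans hZ
  have hne1 : Z \ insert t N ≠ X := by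
    intro h
    have : X ⊆ Z := h ▸ Finset.sdiff_subset
    exact hne (Finset.Subset.antisymm hZ this)
  have hnn := H.hmin _ hsub1 hne1
  have hbz : (0 : ℤ) ≤ bd G Z (insert t N) := Int.natCast_nonneg _
  have hbd : bd G Z (insert t N) = 0 := by
    have : (bd G Z (insert t N) : ℤ) = 0 := by linarith
    exact_mod_cast this
  have hps0 : ps G k (Z \ insert t N) ≤ 1 := by linarith
  -- the component lies in the other transversal
  have hSA : insert t N ⊆ insert t N' := by
    intro w hw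
    by_contra hwA
    have htrA : Tr G (Z \ insert t N) ((Z \ insert t N) ∩ insert t N') := by
      refine tr_of fun I hI hIi hIS => ?_
      have hIZ : I ⊆ Z := hI.trans Finset.sdiff_subset
      have hwI : w ∉ I := fun e => (mem_sdiff.1 (hI e)).2 hw
      have h1 := htx.lt (I := insert w I) (Finset.insert_subset (hS hw) hIZ)
        (indep_insert hIi (fun i hi => bd_zero hbd hw (hIZ hi) (mem_sdiff.1 (hI hi)).2)) (by
          rw [Finset.disjoint_insert_left]
          refine ⟨hwA, ?_⟩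
          rw [Finset.disjoint_left] at hIS ⊢
          intro i hi hi'
          exact hIS hi (mem_inter.2 ⟨hI hi, hi'⟩))
      rw [Finset.card_insert_of_notMem hwI] at h1
      omega
    have h2 := H.tau0 hsub1 hne1 hps0 _ Finset.inter_subset_left htrA
    have h3 : (Z \ insert t N) ∩ insert t N' ⊆ N' := by
      intro i hi
      have hi1 := mem_inter.1 hi
      rcases mem_insert.1 hi1.2 with h | h
      · exact absurd (h ▸ mem_insert_self t N) (mem_sdiff.1 hi1.1).2
      · exact h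
    have h4 := Finset.card_le_card h3
    omega
  have hNN : N ⊆ N' := by
    intro w hw
    rcases mem_insert.1 (hSA (mem_insert_of_mem hw)) with h | h
    · exact absurd (h ▸ hw) n1
    · exact h
  have hE : (N' \ N).card ≤ 1 := by
    have := Finset.card_sdiff_add_card_eq_card hNN
    omega
  have hfin := H.leave h5 (E := N' \ N) hZ hZc hal (by linarith) hS hSc htr ?_ hs
  · omega
  intro v hv hvS w hw hvw
  have hw' := mem_sdiff.1 hw
  by_cases hvZ : v ∈ Z
  · exfalso
    have hvS' : v ∈ insert t N := by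
      by_contra e
      exact hvS (mem_sdiff.2 ⟨hvZ, e⟩)
    exact bd_zero hbd hvS' hw'.1 hw'.2 hvw
  · rcases hcov v hv hvZ with h | h | h | h
    · exfalso
      have hwv : w ∈ nb G Z v := mem_nb.2 ⟨hw'.1, hvw⟩
      by_cases hvr : G.Adj v r
      · rw [hR0 v h hvr] at hwv
        exact Finset.notMem_empty _ hwv
      · obtain ⟨t', ht', htr'⟩ := hR1 v h hvr
        rw [ht', mem_singleton] at hwv
        have ht'Z : t' ∈ Z := by
          have : t' ∈ nb G Z v := by rw [ht']; exact mem_singleton_self t'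
          exact (mem_nb.1 this).1
        have h1 := H.uq1 hZ hne (by linarith) hNZ hr htZ ht'Z htr htr'
        apply hw'.2
        rw [hwv, ← h1]
        exact mem_insert_self _ _
    · rw [mem_sdiff]
      refine ⟨?_, fun e => hw'.2 (mem_insert_of_mem e)⟩
      rw [hN', mem_nb]
      exact ⟨hw'.1, h ▸ hvw⟩
    · exfalso
      apply hw'.2
      refine mem_insert_of_mem ?_
      rw [hN, mem_nb]
      exact ⟨hw'.1, h ▸ hvw⟩
    · exact absurd hvw (h w hw'.1)

/-- a star around the neighbours of an outer vertex -/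
theorem MC.starz {k : ℕ} {X : Finset V} (H : MC G k X) {Y : Finset V} (hY : Y ⊆ X) (hne : Y ≠ X)
    (h5 : 5 ≤ k) (hp : ps G k Y ≤ 1) {N : Finset V} (hN : N ⊆ Y) (hNc : N.card + 1 = k)
    {v : V} (hv : v ∈ X) (hvY : v ∉ Y) (hvN : ∀ w ∈ N, G.Adj v w) {y : V} (hy : y ∈ Y)
    (t : Tr G Y (insert y N)) :
    y ∉ N ∧ ∃ s ∈ N, StarT G k Y (insert y N) s ∧
      ∀ w ∈ (insert y N).erase s, (nb G Y w).card + 1 = k := by
  have hk := H.hk
  have hk' : (4 : ℤ) ≤ k := by exact_mod_cast hk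
  have htau := H.tau0 hY hne hp
  have s1 : insert y N ⊆ Y := Finset.insert_subset hy hN
  have c1 := htau _ s1 t
  have n1 : y ∉ N := by
    intro e
    rw [Finset.insert_eq_of_mem e] at c1
    omega
  have d1 : (insert y N).card = k := by rw [Finset.card_insert_of_notMem n1]; omega
  obtain ⟨s, hS⟩ := H.star8g hY hne (by linarith) htau s1 d1 t (Or.inl hp)
  have hvT : v ∉ insert y N := fun e => hvY (s1 e)
  -- the number of missed vertices
  have h6 : (nb Gᶜ (insert y N) v).card ≤ 1 := by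
    have : nb Gᶜ (insert y N) v ⊆ {y} := by
      intro w hw
      have h1 := mem_nb.1 hw
      have h2 := (SimpleGraph.compl_adj _ _ _).1 h1.2
      rw [mem_singleton]
      by_contra e
      exact h2.2 (hvN w ((mem_insert.1 h1.1).resolve_left e))
    exact (Finset.card_le_card this).trans (Finset.card_singleton y).le
  have h7 : k ≤ 2 * ((nb Gᶜ (insert y N) s).card + (nb Gᶜ (insert y N) v).card) := by
    have h1 := H.sl1 (F := insert v (insert y N)) (Finset.insert_subset hv (s1.trans hY)) (by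
      rw [Finset.card_insert_of_notMem hvT, d1])
    have h2 := e2c_insert (G := G) (Finset.notMem_erase s (insert y N))
    rw [Finset.insert_erase hS.hr, clq_e2c hS.clq] at h2
    rw [e2c_insert hvT, h2] at h1
    have h3 : (nb Gᶜ ((insert y N).erase s) s).card ≤ (nb Gᶜ (insert y N) s).card :=
      Finset.card_le_card (Finset.filter_subset_filter _ (Finset.erase_subset _ _))
    omega
  have hm2 : 2 ≤ (nb Gᶜ (insert y N) s).card := by omega
  have h8 := H.star0 hY hne hp hS hm2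
  have hsN : s ∈ N := by
    have h1 := hS.hr
    rw [mem_insert] at h1
    rcases h1 with h1 | h1
    · exfalso
      have h2 := hS.clq
      rw [h1, Finset.erase_insert n1] at h2
      have hvN' : v ∉ N := fun e => hvY (hN e)
      have h3 : Clq G (insert v N) := by
        intro p hp q hq hpq
        rw [mem_insert] at hp hq
        rcases hp with rfl | hp <;> rcases hq with rfl | hq
        · exact absurd rfl hpq
        · exact hvN q hq
        · exact (hvN p hp).symm
        · exact h2 p hp q hq hpq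
      have h4 := H.clq_lt (Finset.insert_subset hv (hN.trans hY)) h3
      rw [Finset.card_insert_of_notMem hvN'] at h4
      omega
    · exact h1
  exact ⟨n1, s, hsN, hS, h8⟩

/-- two different extra vertices -/
theorem twoz {k : ℕ} {Y N : Finset V} {t t' s s2 : V} (h5 : 5 ≤ k) (htt : t ≠ t')
    (hs : s ∈ N) (hs2 : s2 ∈ N) (hS : Clq G ((insert t N).erase s))
    (hS2 : Clq G ((insert t' N).erase s2)) (n1 : t ∉ N) (n2 : t' ∉ N)
    (hd : ∀ w ∈ (insert t N).erase s, (nb G Y w).card + 1 = k) (hN : N ⊆ Y) (ht : t ∈ Y)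
    (ht' : t' ∈ Y) (hNc : N.card + 1 = k) :
    s2 = s ∧ ∀ m ∈ N.erase s, nb G Y m = insert t (insert t' ((N.erase s).erase m)) := by
  have a1 : ∀ m ∈ N, m ≠ s → ∀ w ∈ N, w ≠ s → m ≠ w → G.Adj m w := fun m hm hms w hw hws e =>
    hS m (mem_erase.2 ⟨hms, mem_insert_of_mem hm⟩) w (mem_erase.2 ⟨hws, mem_insert_of_mem hw⟩) e
  have a2 : ∀ m ∈ N, m ≠ s2 → ∀ w ∈ N, w ≠ s2 → m ≠ w → G.Adj m w := fun m hm hms w hw hws e =>
    hS2 m (mem_erase.2 ⟨hms, mem_insert_of_mem hm⟩) w (mem_erase.2 ⟨hws, mem_insert_of_mem hw⟩) e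
  have ts : t ≠ s := fun e => n1 (e ▸ hs)
  have ts2 : t' ≠ s2 := fun e => n2 (e ▸ hs2)
  have b1 : ∀ m ∈ N, m ≠ s → G.Adj m t := fun m hm hms =>
    hS m (mem_erase.2 ⟨hms, mem_insert_of_mem hm⟩) t (mem_erase.2 ⟨ts, mem_insert_self _ _⟩)
      (fun e => n1 (e ▸ hm))
  have b2 : ∀ m ∈ N, m ≠ s2 → G.Adj m t' := fun m hm hms =>
    hS2 m (mem_erase.2 ⟨hms, mem_insert_of_mem hm⟩) t' (mem_erase.2 ⟨ts2, mem_insert_self _ _⟩)
      (fun e => n2 (e ▸ hm))
  have hss : s2 = s := by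
    by_contra hcon
    have h1 : ((N.erase s).erase s2).Nonempty := by
      rw [← Finset.card_pos]
      have h2 := Finset.card_erase_add_one hs
      have h3 := Finset.card_erase_add_one (mem_erase.2 ⟨hcon, hs2⟩)
      omega
    obtain ⟨m, hm⟩ := h1
    have hm1 := mem_erase.1 hm
    have hm2 := mem_erase.1 hm1.2
    have h2 : insert t (insert t' (N.erase m)) ⊆ nb G Y m := by
      refine Finset.insert_subset (mem_nb.2 ⟨ht, b1 m hm2.2 hm2.1⟩)
        (Finset.insert_subset (mem_nb.2 ⟨ht', b2 m hm2.2 hm1.1⟩) ?_)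
      intro w hw
      have hw' := mem_erase.1 hw
      refine mem_nb.2 ⟨hN hw'.2, ?_⟩
      by_cases hws : w = s
      · exact a2 m hm2.2 hm1.1 w hw'.2 (fun e => hcon (e.symm.trans hws)) (Ne.symm hw'.1)
      · exact a1 m hm2.2 hm2.1 w hw'.2 hws (Ne.symm hw'.1)
    have h3 := Finset.card_le_card h2
    rw [Finset.card_insert_of_notMem, Finset.card_insert_of_notMem] at h3
    · have h4 := hd m (mem_erase.2 ⟨hm2.1, mem_insert_of_mem hm2.2⟩)
      have h6 := Finset.card_erase_add_one hm2.2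
      omega
    · exact fun e => n2 (mem_of_mem_erase e)
    · rw [mem_insert, not_or]
      exact ⟨htt, fun e => n1 (mem_of_mem_erase e)⟩
  refine ⟨hss, ?_⟩
  intro m hm
  have hm2 := mem_erase.1 hm
  symm
  refine Finset.eq_of_subset_of_card_le ?_ ?_
  · refine Finset.insert_subset (mem_nb.2 ⟨ht, b1 m hm2.2 hm2.1⟩)
      (Finset.insert_subset (mem_nb.2 ⟨ht', b2 m hm2.2 (hss ▸ hm2.1)⟩) ?_)
    intro w hw
    have hw' := mem_erase.1 hw
    have hw2 := mem_erase.1 hw'.2
    exact mem_nb.2 ⟨hN hw2.2, a1 m hm2.2 hm2.1 w hw2.2 hw2.1 (Ne.symm hw'.1)⟩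
  · rw [Finset.card_insert_of_notMem, Finset.card_insert_of_notMem]
    · have h4 := hd m (mem_erase.2 ⟨hm2.1, mem_insert_of_mem hm2.2⟩)
      have h6 := Finset.card_erase_add_one hm
      have h7 := Finset.card_erase_add_one hs
      omega
    · exact fun e => n2 (mem_of_mem_erase (mem_of_mem_erase e))
    · rw [mem_insert, not_or]
      exact ⟨htt, fun e => n1 (mem_of_mem_erase (mem_of_mem_erase e))⟩

omit [DecidableRel G.Adj] in
/-- an independent set meets a clique in at most one vertex -/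
theorem indep_clq {I Q : Finset V} (hI : G.IsIndepSet (I : Set V)) (hQ : Clq G Q) :
    (I ∩ Q).card ≤ 1 := by
  rw [Finset.card_le_one]
  intro a ha b hb
  by_contra hab
  exact hI (by exact_mod_cast (mem_inter.1 ha).1) (by exact_mod_cast (mem_inter.1 hb).1) hab
    (hQ a (mem_inter.1 ha).2 b (mem_inter.1 hb).2 hab)

theorem card_biU {A : Finset V} (f : V → Finset V) (hA : A.card ≤ 1)
    (hf : ∀ a ∈ A, (f a).card ≤ 1) : (A.biUnion f).card ≤ 1 := by
  refine Finset.card_biUnion_le.trans ?_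
  calc ∑ a ∈ A, (f a).card ≤ ∑ a ∈ A, 1 := Finset.sum_le_sum hf
    _ = A.card := by rw [Finset.card_eq_sum_ones]
    _ ≤ 1 := hA

/-- (alpha), case II, potential zero -/
theorem MC.al2b {k : ℕ} {X : Finset V} (H : MC G k X) (h5 : 5 ≤ k) {Z B0 N0 : Finset V}
    {ρ x' r : V} (hZ : Z ⊆ X) (hal : al G Z + 2 = al G X) (hp : ps G k Z ≤ 1)
    (hrX : r ∈ X) (hrZ : r ∉ Z) (hxX : x' ∈ X) (hxZ : x' ∉ Z)
    (hcov : ∀ v ∈ X, v ∉ Z → v ∈ B0 ∨ v = ρ ∨ v = x' ∨ v = r ∨ v ∈ N0)
    (hN0 : ∀ v ∈ N0, ∀ w ∈ Z, ¬ G.Adj v w) (hN1 : ∀ v ∈ N0, G.Adj v x' ∨ G.Adj v ρ)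
    (hr : (nb G Z r).card + 1 = k) (hx' : (nb G Z x').card + 1 = k)
    (hρ : (nb G Z ρ).card ≤ 1) (hBq : Clq G (insert ρ B0)) (hBn : B0.Nonempty)
    (hB : ∀ b ∈ B0, ∃ t, nb G Z b = {t} ∧ Tr G Z (insert t (nb G Z r)) ∧
      Tr G Z (insert t (nb G Z x'))) : False := by
  have hne : Z ≠ X := fun e => hrZ (e ▸ hrX)
  obtain ⟨N, hN⟩ : ∃ N, N = nb G Z r := ⟨_, rfl⟩
  obtain ⟨N', hN'⟩ : ∃ N', N' = nb G Z x' := ⟨_, rfl⟩
  have hNZ : N ⊆ Z := by rw [hN]; exact nb_sub _ _
  have hNZ' : N' ⊆ Z := by rw [hN']; exact nb_sub _ _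
  have hNr : ∀ w ∈ N, G.Adj r w := fun w hw => by
    rw [hN] at hw
    exact (mem_nb.1 hw).2
  have hNx : ∀ w ∈ N', G.Adj x' w := fun w hw => by
    rw [hN'] at hw
    exact (mem_nb.1 hw).2
  rw [← hN] at hr hB
  rw [← hN'] at hx' hB
  obtain ⟨b0, hb0⟩ := hBn
  obtain ⟨t, htb, ht1, ht2⟩ := hB b0 hb0
  have htZ : t ∈ Z := by
    have : t ∈ nb G Z b0 := by rw [htb]; exact mem_singleton_self t
    exact (mem_nb.1 this).1
  obtain ⟨n1, s, hsN, hS1, hd1⟩ := H.starz hZ hne h5 hp hNZ hr hrX hrZ hNr htZ ht1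
  obtain ⟨n2, s', hsN', hS2, hd2⟩ := H.starz hZ hne h5 hp hNZ' hx' hxX hxZ hNx htZ ht2
  have ts : t ≠ s := fun e => n1 (e ▸ hsN)
  have ts' : t ≠ s' := fun e => n2 (e ▸ hsN')
  have htT : t ∈ (insert t N).erase s := mem_erase.2 ⟨ts, mem_insert_self _ _⟩
  have dt := hd1 t htT
  have e1 := Finset.card_erase_add_one hsN
  have e2' := Finset.card_erase_add_one hsN'
  have hR1 : N.erase s ⊆ nb G Z t := by
    intro w hw
    have hw' := mem_erase.1 hw
    exact mem_nb.2 ⟨hNZ hw'.2, hS1.clq t htT w (mem_erase.2 ⟨hw'.1, mem_insert_of_mem hw'.2⟩)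
      (fun e => n1 (e ▸ hw'.2))⟩
  have hR2 : N'.erase s' ⊆ nb G Z t := by
    intro w hw
    have hw' := mem_erase.1 hw
    exact mem_nb.2 ⟨hNZ' hw'.2, hS2.clq t (mem_erase.2 ⟨ts', mem_insert_self _ _⟩) w
      (mem_erase.2 ⟨hw'.1, mem_insert_of_mem hw'.2⟩) (fun e => n2 (e ▸ hw'.2))⟩
  have hU := Finset.card_le_card (Finset.union_subset hR1 hR2)
  have hU2 := Finset.card_union_add_card_inter (N.erase s) (N'.erase s')
  have hU3 : (N'.erase s' \ N.erase s).card ≤ 1 := by
    have h1 := Finset.card_sdiff_add_card (N'.erase s') (N.erase s)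
    rw [Finset.union_comm] at h1
    omega
  obtain ⟨T, hT⟩ : ∃ T, T = insert t N := ⟨_, rfl⟩
  have hTZ : T ⊆ Z := by rw [hT]; exact hS1.hT
  rw [← hT] at hS1 hd1 htT
  have hTc : T.card = k := hS1.hc
  obtain ⟨Z1, hZ1⟩ : ∃ Z1, Z1 = Z \ T := ⟨_, rfl⟩
  have hZ1Z : Z1 ⊆ Z := by rw [hZ1]; exact Finset.sdiff_subset
  have hZ1X : Z1 ⊆ X := hZ1Z.trans hZ
  have hnx : nb G Z1 x' = N' \ T := by
    rw [hZ1, hN']
    ext w
    rw [mem_nb, mem_sdiff, mem_sdiff, mem_nb]
    tauto
  have hnxs : nb G Z1 x' ⊆ insert s' (N'.erase s' \ N.erase s) := by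
    rw [hnx]
    intro w hw
    have hw' := mem_sdiff.1 hw
    rw [mem_insert]
    by_cases e : w = s'
    · exact Or.inl e
    · refine Or.inr (mem_sdiff.2 ⟨mem_erase.2 ⟨e, hw'.1⟩, fun h => hw'.2 ?_⟩)
      rw [hT]
      exact mem_insert_of_mem (mem_of_mem_erase h)
  have hx2 : (nb G Z1 x').card ≤ 2 := by
    have h1 := Finset.card_le_card hnxs
    have h2 := Finset.card_insert_le s' (N'.erase s' \ N.erase s)
    omega
  have hTes := Finset.card_erase_add_one hS1.hr
  have hv1 : ∀ v ∈ T.erase s, (nb G Z1 v).card ≤ 1 := by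
    intro v hv
    have h1 := hd1 v hv
    have h2 : nb G Z1 v ∪ (T.erase s).erase v ⊆ nb G Z v := by
      refine Finset.union_subset (nb_mono hZ1Z v) ?_
      intro w hw
      have hw' := mem_erase.1 hw
      exact mem_nb.2 ⟨hTZ (mem_of_mem_erase hw'.2), hS1.clq v hv w hw'.2 (Ne.symm hw'.1)⟩
    have h3 : Disjoint (nb G Z1 v) ((T.erase s).erase v) := by
      rw [Finset.disjoint_left]
      intro w hw hw'
      have h4 := (mem_nb.1 hw).1
      rw [hZ1] at h4
      exact (mem_sdiff.1 h4).2 (mem_of_mem_erase (mem_of_mem_erase hw'))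
    have h4 := Finset.card_le_card h2
    rw [Finset.card_union_of_disjoint h3] at h4
    have h6 := Finset.card_erase_add_one hv
    omega
  have hal1 : al G Z1 + 3 = al G X := by
    have := hS1.alT
    rw [← hZ1] at this
    omega
  have hps1 : ps G k Z1 ≤ 2 * k := by
    have h1 := hS1.psT
    rw [← hZ1] at h1
    have h2 : (0 : ℤ) ≤ ((nb G Z s \ T).card : ℤ) + exs G (k - 1) Z (T.erase s) := by positivity
    linarith
  have hZ1n : Z1.Nonempty := by
    rw [Finset.nonempty_iff_ne_empty]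
    intro hem
    have hm := hS1.miss
    obtain ⟨l, hl⟩ := Finset.card_pos.1 (lt_of_lt_of_le Nat.zero_lt_one hm)
    have hl' := mem_nb.1 hl
    have hl2 := (SimpleGraph.compl_adj _ _ _).1 hl'.2
    have hlT : l ∈ T.erase s := mem_erase.2 ⟨Ne.symm hl2.1, hl'.1⟩
    have h1 := hd1 l hlT
    have h2 : nb G Z l ⊆ (T.erase s).erase l := by
      intro w hw
      have hw' := mem_nb.1 hw
      have hwT : w ∈ T := by
        by_contra e
        have : w ∈ Z1 := by rw [hZ1]; exact mem_sdiff.2 ⟨hw'.1, e⟩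
        rw [hem] at this
        exact Finset.notMem_empty _ this
      refine mem_erase.2 ⟨fun e => G.loopless.irrefl l (e ▸ hw'.2), mem_erase.2 ⟨?_, hwT⟩⟩
      intro e
      exact hl2.2 (e ▸ hw'.2.symm)
    have h3 := Finset.card_le_card h2
    have h4 := Finset.card_erase_add_one hlT
    omega
  have hsX : s ∈ X := hZ (hTZ hS1.hr)
  have hsZ1 : s ∉ Z1 := by
    rw [hZ1]
    exact fun e => (mem_sdiff.1 e).2 hS1.hr
  obtain ⟨I, hI, hIi, hIc, hIE⟩ := H.br4 hZ1X hZ1n hal1 hsX hsZ1 hps1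
  have hIm : ∀ {v : V}, v ∈ I → v ≠ s ∧ v ∈ X ∧ v ∉ Z1 := by
    intro v hv
    have h1 := mem_erase.1 (hI hv)
    have h2 := mem_sdiff.1 h1.2
    exact ⟨h1.1, h2.1, h2.2⟩
  have hIZ : ∀ {v : V}, v ∈ I → v ∈ Z → v ∈ T.erase s := by
    intro v hv hvZ
    have h1 := hIm hv
    refine mem_erase.2 ⟨h1.1, ?_⟩
    by_contra e
    apply h1.2.2
    rw [hZ1]
    exact mem_sdiff.2 ⟨hvZ, e⟩
  have hIa : ∀ {v w : V}, v ∈ I → w ∈ I → G.Adj v w → False := by
    intro v w hv hw hvw
    exact hIi (by exact_mod_cast hv) (by exact_mod_cast hw) hvw.ne hvw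
  have i2 := indep_clq hIi hBq
  have i3 := indep_clq hIi hS1.clq
  obtain ⟨E2, hE2⟩ : ∃ E2, E2 = (I ∩ insert ρ B0).biUnion (fun v => nb G Z1 v) := ⟨_, rfl⟩
  obtain ⟨E3, hE3⟩ : ∃ E3, E3 = (I ∩ T.erase s).biUnion (fun v => nb G Z1 v) := ⟨_, rfl⟩
  have c2 : E2.card ≤ 1 := by
    rw [hE2]
    refine card_biU _ i2 ?_
    intro v hv
    refine (Finset.card_le_card (nb_mono hZ1Z v)).trans ?_
    rcases mem_insert.1 (mem_inter.1 hv).2 with h | h
    · rw [h]
      exact hρ
    · obtain ⟨t', ht', -⟩ := hB v h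
      rw [ht', Finset.card_singleton]
  have c3 : E3.card ≤ 1 := by
    rw [hE3]
    refine card_biU _ i3 ?_
    intro v hv
    exact hv1 v (mem_inter.1 hv).2
  have hcovI : ∀ v ∈ I, v ≠ x' → ∀ w ∈ Z1, G.Adj v w → w ∈ E2 ∪ E3 := by
    intro v hv hvx w hw hvw
    have h1 := hIm hv
    rw [mem_union, hE2, hE3, Finset.mem_biUnion, Finset.mem_biUnion]
    by_cases hvZ : v ∈ Z
    · exact Or.inr ⟨v, mem_inter.2 ⟨hv, hIZ hv hvZ⟩, mem_nb.2 ⟨hw, hvw⟩⟩
    · rcases hcov v h1.2.1 hvZ with h | h | h | h | h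
      · exact Or.inl ⟨v, mem_inter.2 ⟨hv, mem_insert_of_mem h⟩, mem_nb.2 ⟨hw, hvw⟩⟩
      · exact Or.inl ⟨v, mem_inter.2 ⟨hv, by rw [h]; exact mem_insert_self _ _⟩,
          mem_nb.2 ⟨hw, hvw⟩⟩
      · exact absurd h hvx
      · exfalso
        have h2 : w ∈ N := by
          rw [hN, mem_nb]
          exact ⟨hZ1Z hw, h ▸ hvw⟩
        rw [hZ1] at hw
        apply (mem_sdiff.1 hw).2
        rw [hT]
        exact mem_insert_of_mem h2
      · exact absurd hvw (hN0 v h w (hZ1Z hw))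
  have c23 := Finset.card_union_le E2 E3
  -- the vertex `x'` is used with two neighbours
  by_cases hxI : x' ∈ I
  swap
  · have := hIE (E2 ∪ E3) (fun v hv w hw hvw => hcovI v hv (fun e => hxI (e ▸ hv)) w hw hvw)
    omega
  have hall : ∀ v ∈ I, ∀ w ∈ Z1, G.Adj v w → w ∈ nb G Z1 x' ∪ (E2 ∪ E3) := by
    intro v hv w hw hvw
    rw [mem_union]
    by_cases e : v = x'
    · exact Or.inl (mem_nb.2 ⟨hw, e ▸ hvw⟩)
    · exact Or.inr (hcovI v hv e w hw hvw)
  have f1 := hIE _ hall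
  have f2 := Finset.card_union_le (nb G Z1 x') (E2 ∪ E3)
  have g2 : E2.Nonempty := by
    rw [← Finset.card_pos]
    omega
  have g3 : E3.Nonempty := by
    rw [← Finset.card_pos]
    omega
  obtain ⟨w2, hw2⟩ := g2
  rw [hE2, Finset.mem_biUnion] at hw2
  obtain ⟨v2, hv2, hw2⟩ := hw2
  obtain ⟨w3, hw3⟩ := g3
  rw [hE3, Finset.mem_biUnion] at hw3
  obtain ⟨v3, hv3, hw3⟩ := hw3
  have hv2' := mem_inter.1 hv2
  have hv3' := mem_inter.1 hv3
  have hcard2 : 2 ≤ (nb G Z1 x').card := by omega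
  rcases mem_insert.1 hv2'.2 with h | h
  · -- the vertex `ρ`
    subst h
    have hq : ∃ q ∈ I, q ≠ x' ∧ q ≠ v2 ∧ q ≠ v3 := by
      by_contra hcon
      push Not at hcon
      have h1 : I ⊆ {x', v2, v3} := by
        intro q hq
        rw [mem_insert, mem_insert, mem_singleton]
        by_contra e
        push Not at e
        exact e.2.2 (hcon q hq e.1 e.2.1)
      have h2 := (Finset.card_le_card h1).trans Finset.card_le_three
      omega
    obtain ⟨q, hqI, hq1, hq2, hq3⟩ := hq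
    have hv3t : v3 = t := by
      by_cases hqZ : q ∈ Z
      · exact absurd (hS1.clq q (hIZ hqI hqZ) v3 hv3'.2 hq3) (fun h => hIa hqI hv3'.1 h)
      · rcases hcov q (hIm hqI).2.1 hqZ with h | h | h | h | h
        · exact absurd (hBq q (mem_insert_of_mem h) v2 (mem_insert_self _ _) hq2)
            (fun e => hIa hqI hv2'.1 e)
        · exact absurd h hq2
        · exact absurd h hq1
        · subst h
          by_contra e
          have h4 := mem_of_mem_erase hv3'.2
          rw [hT, mem_insert] at h4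
          exact hIa hqI hv3'.1 (hNr v3 (h4.resolve_left e))
        · rcases hN1 q h with e | e
          · exact absurd e (fun e => hIa hqI hxI e)
          · exact absurd e (fun e => hIa hqI hv2'.1 e)
    subst hv3t
    -- a neighbour of `x'` outside `T`
    have hg : ∃ g ∈ nb G Z1 x', g ≠ s' := by
      by_contra hcon
      push Not at hcon
      have h1 : nb G Z1 x' ⊆ {s'} := fun g hg => mem_singleton.2 (hcon g hg)
      have h2 := Finset.card_le_card h1
      rw [Finset.card_singleton] at h2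
      omega
    obtain ⟨g, hg, hgs⟩ := hg
    have hg' := hg
    rw [hnx] at hg'
    have hg2 := mem_sdiff.1 hg'
    have hgt : g ∈ nb G Z v3 := hR2 (mem_erase.2 ⟨hgs, hg2.1⟩)
    have hgR : g ∉ N.erase s := fun e => hg2.2 (by
      rw [hT]
      exact mem_insert_of_mem (mem_of_mem_erase e))
    have hnt : insert g (N.erase s) = nb G Z v3 := by
      refine Finset.eq_of_subset_of_card_le (Finset.insert_subset hgt hR1) ?_
      rw [Finset.card_insert_of_notMem hgR]
      omega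
    have hE31 : E3 ⊆ nb G Z1 x' := by
      intro w hw
      rw [hE3, Finset.mem_biUnion] at hw
      obtain ⟨v, hv, hw⟩ := hw
      have hvt : v = v3 := (Finset.card_le_one.1 i3) v hv v3 hv3
      rw [hvt] at hw
      have hw1 : w ∈ nb G Z v3 := nb_mono hZ1Z v3 hw
      rw [← hnt, mem_insert] at hw1
      rcases hw1 with h | h
      · rw [h]
        exact hg
      · exfalso
        have h2 := (mem_nb.1 hw).1
        rw [hZ1] at h2
        apply (mem_sdiff.1 h2).2
        rw [hT]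
        exact mem_insert_of_mem (mem_of_mem_erase h)
    have h1 := hIE (nb G Z1 x' ∪ E2) (by
      intro v hv w hw hvw
      have h2 := hall v hv w hw hvw
      rw [mem_union, mem_union] at h2
      rw [mem_union]
      rcases h2 with h2 | h2 | h2
      · exact Or.inl h2
      · exact Or.inr h2
      · exact Or.inl (hE31 h2))
    have h2 := Finset.card_union_le (nb G Z1 x') E2
    omega
  · -- a second extra vertex
    obtain ⟨t', htb', ht1', ht2'⟩ := hB v2 h
    have hw2' : w2 = t' := by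
      have := nb_mono hZ1Z v2 hw2
      rw [htb', mem_singleton] at this
      exact this
    have ht'Z1 : t' ∈ Z1 := hw2' ▸ (mem_nb.1 hw2).1
    have ht'Z : t' ∈ Z := hZ1Z ht'Z1
    have htt : t ≠ t' := by
      intro e
      rw [hZ1] at ht'Z1
      apply (mem_sdiff.1 ht'Z1).2
      rw [← e, hT]
      exact mem_insert_self _ _
    obtain ⟨n3, s2, hs2N, hS3, -⟩ := H.starz hZ hne h5 hp hNZ hr hrX hrZ hNr ht'Z ht1'
    obtain ⟨n4, s3, hs3N, hS4, -⟩ := H.starz hZ hne h5 hp hNZ' hx' hxX hxZ hNx ht'Z ht2'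
    have hS1' := hS1.clq
    rw [hT] at hS1' hd1
    obtain ⟨-, k1⟩ := twoz h5 htt hsN hs2N hS1' hS3.clq n1 n3 hd1 hNZ htZ ht'Z hr
    obtain ⟨-, k2⟩ := twoz h5 htt hsN' hs3N hS2.clq hS4.clq n2 n4 hd2 hNZ' htZ ht'Z hx'
    have hm : (N.erase s ∩ N'.erase s').Nonempty := by
      rw [← Finset.card_pos]
      omega
    obtain ⟨m, hm⟩ := hm
    have hm' := mem_inter.1 hm
    have k3 := k1 m hm'.1
    rw [k2 m hm'.2] at k3
    have hRR : N'.erase s' ⊆ N.erase s := by
      intro w hw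
      by_cases e : w = m
      · rw [e]
        exact hm'.1
      · have h1 : w ∈ insert t (insert t' ((N'.erase s').erase m)) :=
          mem_insert_of_mem (mem_insert_of_mem (mem_erase.2 ⟨e, hw⟩))
        rw [k3, mem_insert, mem_insert] at h1
        rcases h1 with h1 | h1 | h1
        · exact absurd (h1 ▸ mem_of_mem_erase hw) n2
        · exact absurd (h1 ▸ mem_of_mem_erase hw) n4
        · exact mem_of_mem_erase h1
    have h1 : nb G Z1 x' ⊆ {s'} := by
      intro w hw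
      have h2 := hnxs hw
      rw [mem_insert] at h2
      rcases h2 with h2 | h2
      · exact mem_singleton.2 h2
      · exact absurd (hRR (mem_sdiff.1 h2).1) (mem_sdiff.1 h2).2
    have h2 := Finset.card_le_card h1
    rw [Finset.card_singleton] at h2
    omega

end Pool.Agent.TwoDens.TS
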