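import Pool.Agent.TKS.Sev

/-!
Lemma G: two nonadjacent vertices with small common neighbourhood, and the first part of Case II.
-/

open Finset

namespace Pool.Agent.TwoDens.TS

open Pool.Agent.TwoDens Pool.Agent.TwoDens.RK Pool.Agent.TwoDens.DD

variable {V : Type*} [DecidableEq V] {G : SimpleGraph V} [DecidableRel G.Adj]

/-- `o(r) + ex'(R) ≥ k - 2` -/
theorem StarT.ge {k : ℕ} {Y T : Finset V} {r : V} (hS : StarT G k Y T r)
    (ht : TauGe G Y k) :
    k ≤ (nb G Y r \ T).card + exs G (k - 1) Y (T.erase r) + 2 := by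
  obtain ⟨l, hl⟩ := Finset.card_pos.1 hS.miss
  have h1 := hS.low l hl
  have hlT := (mem_nb.1 hl).1
  have hlr : l ≠ r := fun h => ((SimpleGraph.compl_adj _ _ _).1 (mem_nb.1 hl).2).1 h.symm
  have h2 := exs_erase (G := G) (k := k - 1) (X := Y) (S := T.erase r) (u := l)
    (mem_erase.2 ⟨hlr, hlT⟩)
  have h3 := ht.deg (hS.hT hlT)
  omega

/-- two adjacent vertices outside a clique with `k - 1` vertices -/
theorem MC.near2a {k : ℕ} {X : Finset V} (H : MC G k X) {Q : Finset V} (hQ : Q ⊆ X)
    (hq : Clq G Q) (hc : Q.card + 1 = k) {a b : V}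
    (ha : a ∈ X) (hb : b ∈ X) (hab : a ≠ b) (haQ : a ∉ Q) (hbQ : b ∉ Q) (hadj : G.Adj a b) :
    k ≤ 2 * ((nb Gᶜ Q a).card + (nb Gᶜ Q b).card) := by
  have h0 : a ∉ insert b Q := by
    rw [mem_insert]
    rintro (h | h)
    · exact hab h
    · exact haQ h
  have h1 := H.sl1 (F := insert a (insert b Q))
    (Finset.insert_subset ha (Finset.insert_subset hb hQ)) (by
      rw [Finset.card_insert_of_notMem h0, Finset.card_insert_of_notMem hbQ]; omega)
  rw [e2c_insert h0, e2c_insert hbQ, clq_e2c hq] at h1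
  have h2 : nb Gᶜ (insert b Q) a = nb Gᶜ Q a := by
    ext w
    rw [mem_nb, mem_nb, mem_insert]
    constructor
    · rintro ⟨h3 | h3, h4⟩
      · exact absurd (h3 ▸ hadj) ((SimpleGraph.compl_adj _ _ _).1 h4).2
      · exact ⟨h3, h4⟩
    · rintro ⟨h3, h4⟩
      exact ⟨Or.inr h3, h4⟩
  rw [h2] at h1
  omega

/-- the rest of a transversal with `k` elements -/
theorem MC.psT_le {k : ℕ} {X : Finset V} (H : MC G k X) {Y : Finset V} (hY : Y ⊆ X)
    (hne : Y ≠ X) (hp : ps G k Y ≤ 4) (ht : TauGe G Y k) {T : Finset V} (hT : T ⊆ Y)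
    (hc : T.card = k) (htr : Tr G Y T) :
    al G (Y \ T) + 1 = al G Y ∧ ps G k (Y \ T) + 4 ≤ ps G k Y + 2 * k := by
  have hk := H.hk
  have hk' : (4 : ℤ) ≤ k := by exact_mod_cast hk
  have hdeg : ∀ v ∈ Y, k - 1 ≤ (nb G Y v).card := fun v hv => by
    have := ht.deg hv
    omega
  have hncl : ¬ Clq G T := by
    intro h
    have := H.clq_lt (hT.trans hY) h
    omega
  have halT : al G (Y \ T) + 1 = al G Y := by
    unfold Tr at htr
    by_contra hcon
    have h1 := H.drop hY hne hT (j := 2) (by omega)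
    rw [hc] at h1
    push_cast at h1
    nlinarith
  refine ⟨halT, ?_⟩
  have hpsd := ps_sdiff (G := G) k hT
  have hcomp := e2_add_compl (G := G) T
  obtain ⟨h, hh⟩ := e2_even (G := Gᶜ) T
  have h0 : 1 ≤ h := by
    by_contra hcon
    have h1 : h = 0 := by omega
    rw [h1] at hh
    exact hncl (clq_of_e2 (by omega))
  have hsum := sum_ge (G := G) (Y := Y) (S := T) (k - 1) (fun v hv => hdeg v (hT hv))
  rw [hh] at hcomp
  rw [hc] at hpsd hsum hcomp
  obtain ⟨D, hD⟩ : ∃ D : ℕ, ∑ v ∈ T, (nb G Y v).card = D := ⟨_, rfl⟩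
  rw [hD] at hpsd hsum
  obtain ⟨E, hE⟩ : ∃ E : ℕ, exs G (k - 1) Y T = E := ⟨_, rfl⟩
  rw [hE] at hsum
  obtain ⟨m, rfl⟩ : ∃ m, k = m + 1 := ⟨k - 1, by omega⟩
  rw [Nat.add_sub_cancel] at hsum hE
  have g1 : (D : ℤ) = m * (m + 1) + E := by exact_mod_cast hsum
  have g2 : (e2 G T : ℤ) + 2 * h + (m + 1) = (m + 1) * (m + 1) := by exact_mod_cast hcomp
  have g3 : (al G Y : ℤ) - al G (Y \ T) = 1 := by
    have : (al G (Y \ T) : ℤ) + 1 = al G Y := by exact_mod_cast halT
    linarith
  have g4 : (1 : ℤ) ≤ h := by exact_mod_cast h0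
  have g5 : (0 : ℤ) ≤ E := Int.natCast_nonneg _
  rw [g3] at hpsd
  push_cast at hpsd ⊢
  nlinarith

namespace Fr
variable {k : ℕ} {X P : Finset V} (F : Fr G k X P)
include F

theorem lemG {c x x' : V} (B : Base G k X P c x x') (hxx : ¬ G.Adj x x') {u : V} (hu : u ∈ P)
    (h1 : ¬ G.Adj x u) (h2 : ¬ G.Adj x' u)
    (hc : (nb G (hb X P x x') x ∪ nb G (hb X P x x') u).card ≤ k) : False := by
  have hk := F.mc.hk
  have hbp := F.bp _ _ _ B
  have hx := mem_sdiff.1 B.hx
  have hx' := mem_sdiff.1 B.hx'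
  obtain ⟨T, hT⟩ : ∃ T, T = nb G (hb X P x x') x ∪ nb G (hb X P x x') u := ⟨_, rfl⟩
  have htr := F.tr_xu B hu h1
  have hcx := F.card_xu B hu h1
  rw [← hT] at htr hcx hc
  have hTc : T.card = k := by omega
  have hTH : T ⊆ hb X P x x' := by
    rw [hT]
    exact Finset.union_subset (nb_sub _ _) (nb_sub _ _)
  obtain ⟨halT, hpsT⟩ := F.mc.psT_le hb_sub B.hbne hbp.ps4 hbp.tau hTH hTc htr
  -- the set `Y3 = (H \ T) ∪ {x'}`
  have hx'n : x' ∉ hb X P x x' \ T := by
    rw [mem_sdiff, mem_hb]
    exact fun h => h.1.2.2.2 rfl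
  have hY3 : insert x' (hb X P x x' \ T) ⊆ X :=
    Finset.insert_subset hx'.1 (Finset.sdiff_subset.trans hb_sub)
  have hxY3 : x ∉ insert x' (hb X P x x' \ T) := by
    rw [mem_insert, mem_sdiff, mem_hb]
    rintro (h | h)
    · exact B.hne h
    · exact h.1.2.2.1 rfl
  have huY3 : u ∉ insert x' (hb X P x x' \ T) := by
    rw [mem_insert, mem_sdiff, mem_hb]
    rintro (h | h)
    · exact hx'.2 (h ▸ hu)
    · exact h.1.2.1 hu
  have hne3 : insert x' (hb X P x x' \ T) ≠ X := by
    intro h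
    rw [h] at hxY3
    exact hxY3 hx.1
  have hxu : x ≠ u := fun h => hx.2 (h ▸ hu)
  have h0 := F.mc.hmin _ hY3 hne3
  -- independence number
  have hal : al G (insert x' (hb X P x x' \ T)) + 2 ≤ al G X := by
    obtain ⟨I, hI, hi, hcI⟩ := exists_al (G := G) (insert x' (hb X P x x' \ T))
    have hnot : ∀ z ∈ ({x, u} : Finset V), ∀ w ∈ I, ¬ G.Adj z w := by
      intro z hz w hw hzw
      have hw' := hI hw
      rw [mem_insert, mem_sdiff] at hw'
      rw [mem_insert, mem_singleton] at hz
      rcases hw' with rfl | ⟨hwH, hwT⟩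
      · rcases hz with rfl | rfl
        · exact hxx hzw
        · exact h2 hzw.symm
      · apply hwT
        rw [hT]
        rcases hz with rfl | rfl
        · exact mem_union_left _ (mem_nb.2 ⟨hwH, hzw⟩)
        · exact mem_union_right _ (mem_nb.2 ⟨hwH, hzw⟩)
    have h3 := le_al (G := G) (X := X) (I := ({x, u} : Finset V) ∪ I) (by
      refine Finset.union_subset ?_ (hI.trans hY3)
      intro z hz
      rw [mem_insert, mem_singleton] at hz
      rcases hz with rfl | rfl
      · exact hx.1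
      · exact F.hP hu) (indep_union (indep_pair h1) hi hnot)
    rw [Finset.card_union_of_disjoint, Finset.card_pair hxu] at h3
    · omega
    · rw [Finset.disjoint_left]
      intro z hz hz'
      rw [mem_insert, mem_singleton] at hz
      rcases hz with rfl | rfl
      · exact hxY3 (hI hz')
      · exact huY3 (hI hz')
  have halH := hbp.alH
  have halge : al G (hb X P x x' \ T) ≤ al G (insert x' (hb X P x x' \ T)) :=
    al_mono (Finset.subset_insert _ _)
  have haleq : al G (insert x' (hb X P x x' \ T)) = al G (hb X P x x' \ T) := by omega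
  -- compare the potentials
  have he := e2_sdiff (G := G) (X := insert x' (hb X P x x' \ T)) (R := {x'}) (by simp)
  rw [e2_singleton, Finset.sum_singleton, Finset.insert_sdiff_of_mem _ (mem_singleton_self x'),
    Finset.sdiff_singleton_eq_erase, Finset.erase_eq_of_notMem hx'n] at he
  have hnb : (nb G (insert x' (hb X P x x' \ T)) x').card ≤ (nb G (hb X P x x') x').card := by
    refine Finset.card_le_card ?_
    intro w hw
    rw [mem_nb, mem_insert, mem_sdiff] at hw
    rcases hw with ⟨rfl | h, h'⟩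
    · exact absurd h' (G.loopless.irrefl _)
    · exact mem_nb.2 ⟨h.1, h'⟩
  have hcard := Finset.card_insert_of_notMem hx'n
  have hbs := hbp.bstar
  have hps4 := hbp.ps4
  have hps0 := hbp.ps0
  have hpl := F.mc.ps_le
  have hk' : (4 : ℤ) ≤ k := by exact_mod_cast hk
  -- `|N_x| + ex(P) ≥ k - 2`
  have hnu := F.nbH B hu
  rw [ad_zero (fun h => h1 h.symm), ad_zero (fun h => h2 h.symm)] at hnu
  have hcu := F.card_xu' B hu h1
  have hexu := exs_erase (G := G) (k := k) (X := X) hu
  have hfe : k ≤ (nb G (hb X P x x') x).card + exs G k X P + 2 := by omega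
  have hfe' : (k : ℤ) ≤ (nb G (hb X P x x') x).card + exs G k X P + 2 := by exact_mod_cast hfe
  have he' : (e2 G (insert x' (hb X P x x' \ T)) : ℤ) = e2 G (hb X P x x' \ T) +
      2 * (nb G (insert x' (hb X P x x' \ T)) x').card := by exact_mod_cast (by omega)
  have hpsY : ps G k (insert x' (hb X P x x' \ T)) = ps G k (hb X P x x' \ T) - (4 * k - 2) +
      2 * (nb G (insert x' (hb X P x x' \ T)) x').card := by
    unfold ps
    rw [haleq, hcard, he']
    push_cast
    ring
  have hnb' : ((nb G (insert x' (hb X P x x' \ T)) x').card : ℤ) ≤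
      (nb G (hb X P x x') x').card := by exact_mod_cast hnb
  rw [if_neg hxx] at hbs
  linarith

/-- a vertex `x'` with `k - 1` neighbours and `t`: the block -/
theorem block {c x x' : V} (B : Base G k X P c x x') (hf : (nb G (hb X P x x') x').card + 1 = k)
    {u t : V} (hu : u ∈ P) (hxu : ¬ G.Adj x' u) (hNu : nb G (hb X P x x') u = {t})
    (h7 : 7 ≤ k) :
    t ∈ hb X P x x' ∧ t ∉ nb G (hb X P x x') x' ∧ ∃ r ∈ nb G (hb X P x x') x',
      StarT G k (hb X P x x') (insert t (nb G (hb X P x x') x')) r ∧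
      k ≤ 2 * ((nb Gᶜ ((nb G (hb X P x x') x').erase r) r).card + 2) := by
  have hk := F.mc.hk
  have hbp := F.bp _ _ _ B
  have hx' := mem_sdiff.1 B.hx'
  have htH : t ∈ hb X P x x' := (mem_nb.1 (by rw [hNu]; simp : t ∈ nb G (hb X P x x') u)).1
  have htr := F.tr_xu B.symm hu hxu
  rw [hb_comm X P x' x, hNu, Finset.union_comm, ← Finset.insert_eq] at htr
  have htn : t ∉ nb G (hb X P x x') x' := by
    intro h
    rw [Finset.insert_eq_of_mem h] at htr
    exact hbp.ntx' htr
  obtain ⟨r, hS⟩ := F.mc.star8 hb_sub B.hbne hbp.ps4 hbp.tau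
    (Finset.insert_subset htH (nb_sub _ _)) (by rw [Finset.card_insert_of_notMem htn, hf]) htr (by omega)
  have hrN : r ∈ nb G (hb X P x x') x' := by
    have h1 := hS.hr
    rw [mem_insert] at h1
    rcases h1 with h1 | h1
    · exfalso
      have h2 := hS.clq
      rw [h1, Finset.erase_insert htn] at h2
      have h3 : Clq G (insert x' (nb G (hb X P x x') x')) := by
        intro p hp q hq hpq
        rw [mem_insert] at hp hq
        rcases hp with rfl | hp <;> rcases hq with rfl | hq
        · exact absurd rfl hpq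
        · exact (mem_nb.1 hq).2
        · exact (mem_nb.1 hp).2.symm
        · exact h2 p hp q hq hpq
      have h4 := F.mc.clq_lt (Finset.insert_subset hx'.1 ((nb_sub _ _).trans hb_sub)) h3
      rw [Finset.card_insert_of_notMem self_notMem] at h4
      omega
    · exact h1
  refine ⟨htH, htn, r, hrN, hS, ?_⟩
  · have hQX : (insert t (nb G (hb X P x x') x')).erase r ⊆ X :=
      (Finset.erase_subset _ _).trans (hS.hT.trans hb_sub)
    have hQc : ((insert t (nb G (hb X P x x') x')).erase r).card + 1 = k := by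
      rw [Finset.card_erase_add_one hS.hr, hS.hc]
    have hrX : r ∈ X := hb_sub (hS.hT hS.hr)
    have hx'H : x' ∉ hb X P x x' := by
      rw [mem_hb]
      exact fun h => h.2.2.2 rfl
    have hrx' : r ≠ x' := fun h => hx'H (h ▸ hS.hT hS.hr)
    have h1 := F.mc.near2a hQX hS.clq hQc hrX hx'.1 hrx' (Finset.notMem_erase _ _)
      (fun h => hx'H (hS.hT (mem_erase.1 h).2)) (mem_nb.1 hrN).2.symm
    have h2 : (nb Gᶜ ((insert t (nb G (hb X P x x') x')).erase r) x').card ≤ 1 := by
      rw [Finset.card_le_one]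
      have : ∀ w ∈ nb Gᶜ ((insert t (nb G (hb X P x x') x')).erase r) x', w = t := by
        intro w hw
        have h3 := mem_nb.1 hw
        have h4 := (mem_erase.1 h3.1).2
        rw [mem_insert] at h4
        rcases h4 with h4 | h4
        · exact h4
        · exact absurd (mem_nb.1 h4).2 ((SimpleGraph.compl_adj _ _ _).1 h3.2).2
      intro w hw z hz
      rw [this w hw, this z hz]
    have h3 : nb Gᶜ ((insert t (nb G (hb X P x x') x')).erase r) r ⊆
        insert t (nb Gᶜ ((nb G (hb X P x x') x').erase r) r) := by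
      intro w hw
      rw [mem_nb, mem_erase, mem_insert] at hw
      rw [mem_insert, mem_nb, mem_erase]
      rcases hw with ⟨⟨h4, h5 | h5⟩, h6⟩
      · exact Or.inl h5
      · exact Or.inr ⟨⟨h4, h5⟩, h6⟩
    have h4 := Finset.card_le_card h3
    have h5 := Finset.card_insert_le t (nb Gᶜ ((nb G (hb X P x x') x').erase r) r)
    omega

end Fr

end Pool.Agent.TwoDens.TS
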