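import Pool.Agent.TKS.TA

/-!
Frames without an outside vertex adjacent to all vertices of degree `k`.
-/

open Finset

namespace Pool.Agent.TwoDens.TS

open Pool.Agent.TwoDens Pool.Agent.TwoDens.RK Pool.Agent.TwoDens.DD

variable {V : Type*} [DecidableEq V] {G : SimpleGraph V} [DecidableRel G.Adj]

/-- a frame such that no vertex outside is adjacent to all its vertices of degree `k` -/
structure Fn (G : SimpleGraph V) [DecidableRel G.Adj] (k : ℕ) (X P : Finset V) : Prop
    extends Fr G k X P where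
  ns0 : ∀ a ∈ X \ P, ∃ c ∈ P, (nb G X c).card = k ∧ ¬ G.Adj a c

theorem Fn.ns {k : ℕ} {X P : Finset V} (F : Fn G k X P) (_h7 : 7 ≤ k) {a : V}
    (ha : a ∈ X \ P) : ∃ c ∈ P, (nb G X c).card = k ∧ ¬ G.Adj a c :=
  F.ns0 a ha

end Pool.Agent.TwoDens.TS
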