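import Pool.Agent.TKS.HD

/-!
The counting argument for the type `TyP4`.
-/

open Finset

namespace Pool.Agent.TwoDens.TS

open Pool.Agent.TwoDens Pool.Agent.TwoDens.RK Pool.Agent.TwoDens.DD

variable {V : Type*} [DecidableEq V] {G : SimpleGraph V} [DecidableRel G.Adj]

private theorem ph7_ar1 {k a b m : ℕ} (h1 : a + 2 * m + k = k * k)
    (h2 : b + 5 * k ≤ (k + 1) * k + 6) (h3 : a ≤ b) (h4 : m + 1 ≤ k) (h5 : 5 ≤ k) : False := by
  have e : (k + 1) * k = k * k + k := by ring
  rw [e] at h2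
  omega

private theorem ph7_ar2 {k a b m : ℕ} (h1 : a + 2 * m + k = k * k)
    (h2 : b + 5 * k ≤ (k + 1) * (k + 1) + 6) (h3 : a ≤ b) (h4 : m ≤ 1) (h5 : 5 ≤ k) :
    False := by
  have e : (k + 1) * (k + 1) = k * k + 2 * k + 1 := by ring
  rw [e] at h2
  omega

private theorem ph7_ar3 {k p a a' b c m m' : ℕ} (hp : k = p + 1) (h1 : a + 2 * m + k = k * k)
    (h1' : a' + 2 * m' + k = k * k) (h2 : b + 5 * k ≤ (k + 1) * (k + 1) + 6)
    (h3 : a + a' ≤ b + c) (hc : c + p = p * p) (h4 : m < 2) (h4' : m' < 2) (h5 : 5 ≤ k) :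
    False := by
  subst hp
  have e1 : (p + 1) * (p + 1) = p * p + 2 * p + 1 := by ring
  have e2 : (p + 1 + 1) * (p + 1 + 1) = p * p + 4 * p + 4 := by ring
  rw [e2] at h2
  rw [e1] at h1 h1'
  omega

private theorem ph7_ar4 {k p a a' b c m m' : ℕ} (hp : k = p + 2) (h1 : a + 2 * m + k = k * k)
    (h1' : a' + 2 * m' + k = k * k) (h2 : b + 5 * k ≤ (k + 1) * (k + 2) + 6)
    (h3 : a + a' ≤ b + c) (hc : c + p ≤ p * p) (h4 : m ≤ 1) (h4' : m' ≤ 1) (h5 : 5 ≤ k) :
    False := by
  subst hp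
  have e1 : (p + 2) * (p + 2) = p * p + 4 * p + 4 := by ring
  have e2 : (p + 2 + 1) * (p + 2 + 2) = p * p + 7 * p + 12 := by ring
  rw [e2] at h2
  rw [e1] at h1 h1'
  omega

private theorem ph7_ar5 {p u q eU w0 x1 x2 x3 x4 y2 y3 y4 z1 z2 z3 z4 s1 s2 s3 s4 : ℕ}
    (e0 : q + eU ≤ w0) (eQ : q + p = p * p) (f1 : s1 = w0 + 2 * z1) (f2 : s2 = s1 + 2 * z2)
    (f3 : s3 = s2 + 2 * z3) (f4 : s4 = s3 + 2 * z4) (b1 : p + x1 ≤ z1) (b2 : p + x2 ≤ y2)
    (b3 : p + x3 ≤ y3) (b4 : p + x4 ≤ y4) (c2 : y2 + 1 ≤ z2) (c3 : y3 + 1 ≤ z3)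
    (c4 : y4 + 1 ≤ z4) (t1 : x1 + x3 = p + 3) (t2 : x2 + x4 = p + 3)
    (hs : s4 + 2 * (p + 3) + 1 ≤ (p + 3 + 1) * (p + u + 4)) :
    eU + 5 * (p + 3) ≤ (p + 3 + 1) * u + 6 := by
  have e1 : (p + 3 + 1) * (p + u + 4) = (p + 3 + 1) * u + (p * p + 8 * p + 16) := by ring
  rw [e1] at hs
  omega

/-- the transversal given by two nonadjacent vertices outside `Y` -/
private theorem ph7_star {k : ℕ} {X Y : Finset V} (M : MC G k X) (hY : Y ⊆ X) (hne : Y ≠ X)
    (hps : ps G k Y = 0) (hal : al G Y + 1 = al G X) (ht : TauGe G Y k) {u v : V}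
    (hu : u ∈ X) (hv : v ∈ X) (huY : u ∉ Y) (hvY : v ∉ Y) (huv : u ≠ v) (hn : ¬ G.Adj u v)
    (hc : (nb G Y u).card + (nb G Y v).card = k) :
    (nb G Y u ∪ nb G Y v).card = k ∧ (∀ z, z ∈ nb G Y u → z ∈ nb G Y v → False) ∧
      ∃ r, StarT G k Y (nb G Y u ∪ nb G Y v) r := by
  have htr : Tr G Y (nb G Y u ∪ nb G Y v) := by
    refine tr_nbr (G := G) (X := X) (Y := Y) (J := {u, v}) hY ?_ ?_ ?_ ?_ ?_
    · intro x hx
      rw [mem_insert, mem_singleton] at hx
      rcases hx with rfl | rfl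
      · exact hu
      · exact hv
    · rw [Finset.disjoint_left]
      intro x hx hx'
      rw [mem_insert, mem_singleton] at hx
      rcases hx with rfl | rfl
      · exact huY hx'
      · exact hvY hx'
    · intro x hx y hy hxy
      rw [Finset.mem_coe, mem_insert, mem_singleton] at hx hy
      rcases hx with rfl | rfl <;> rcases hy with rfl | rfl
      · exact absurd rfl hxy
      · exact hn
      · exact fun h => hn h.symm
      · exact absurd rfl hxy
    · rw [Finset.card_pair huv]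
      omega
    · intro z hz w hw hzw
      rw [mem_insert, mem_singleton] at hz
      rw [mem_union]
      rcases hz with rfl | rfl
      · exact Or.inl (mem_nb.2 ⟨hw, hzw⟩)
      · exact Or.inr (mem_nb.2 ⟨hw, hzw⟩)
  have hsub : nb G Y u ∪ nb G Y v ⊆ Y := Finset.union_subset (nb_sub _ _) (nb_sub _ _)
  have h1 := ht _ hsub htr
  have h2 := Finset.card_union_add_card_inter (nb G Y u) (nb G Y v)
  have h3 : (nb G Y u ∪ nb G Y v).card = k := by omega
  refine ⟨h3, ?_, ?_⟩
  · intro z hz hz'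
    have h4 : (nb G Y u ∩ nb G Y v).card = 0 := by omega
    rw [Finset.card_eq_zero] at h4
    have h5 : z ∈ nb G Y u ∩ nb G Y v := mem_inter.2 ⟨hz, hz'⟩
    rw [h4] at h5
    exact absurd h5 (Finset.notMem_empty _)
  · exact M.star8g hY hne (by omega) ht hsub h3 htr (Or.inl (by omega))

/-- the degrees in a star of a set of potential zero -/
private theorem ph7_low {k : ℕ} {X Y T : Finset V} {r : V} (M : MC G k X) (hY : Y ⊆ X)
    (hne : Y ≠ X) (hps : ps G k Y = 0) (ht : TauGe G Y k) (hS : StarT G k Y T r) {l : V}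
    (hl : l ∈ nb Gᶜ T r) : ∀ t ∈ (T.erase r).erase l, (nb G Y t).card + 1 = k := by
  have hlT : l ∈ T := (mem_nb.1 hl).1
  have hlr : l ≠ r := by
    rintro rfl
    exact ((SimpleGraph.compl_adj _ _ _).1 (mem_nb.1 hl).2).1 rfl
  have hlR : l ∈ T.erase r := mem_erase.2 ⟨hlr, hlT⟩
  have hdeg : ∀ t ∈ T, k ≤ (nb G Y t).card + 1 := fun t htT => ht.deg (hS.hT htT)
  have h0 : 0 ≤ ps G k (Y \ T) := M.ps_sub hY hne T
  have h1 : exs G (k - 1) Y (T.erase r) =
      ((nb G Y l).card - (k - 1)) + exs G (k - 1) Y ((T.erase r).erase l) := by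
    unfold exs
    exact (Finset.add_sum_erase _ (fun v => (nb G Y v).card - (k - 1)) hlR).symm
  have h2 := hS.psT
  have h3 := hS.low l hl
  have h4 := hdeg l hlT
  have h5 := M.hk
  have hev := ps_even (G := G) k (Y \ T)
  obtain ⟨m, hm⟩ := hev
  have h6 : exs G (k - 1) Y ((T.erase r).erase l) = 0 := by
    rw [h1, hps] at h2
    push_cast at h2
    by_cases h7 : ps G k (Y \ T) ≤ 1
    · have h8 := M.low0 hY hne hS h7 l hl
      omega
    · omega
  intro t htt
  unfold exs at h6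
  rw [Finset.sum_eq_zero_iff] at h6
  have h7 := h6 t htt
  have h8 := hdeg t (mem_of_mem_erase (mem_of_mem_erase htt))
  omega

section
variable {k : ℕ} {X Q : Finset V} {w1 w2 w3 w4 : V}

private theorem ph7_eq (S : TyP4 G k X Q w1 w2 w3 w4) {q : V} (hq : q ∈ Q) :
    nb G X q = Q.erase q ∪ {w1, w2, w3, w4} := by
  symm
  refine Finset.eq_of_subset_of_card_le ?_ ?_
  · intro z hz
    rw [mem_union, mem_erase] at hz
    rcases hz with ⟨h1, h2⟩ | hz
    · exact mem_nb.2 ⟨S.hQX h2, S.hQq q hq z h2 (Ne.symm h1)⟩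
    · rw [mem_insert, mem_insert, mem_insert, mem_singleton] at hz
      rcases hz with rfl | rfl | rfl | rfl
      · exact mem_nb.2 ⟨S.h1, (S.aQ1 q hq).symm⟩
      · exact mem_nb.2 ⟨S.h2, (S.aQ2 q hq).symm⟩
      · exact mem_nb.2 ⟨S.h3, (S.aQ3 q hq).symm⟩
      · exact mem_nb.2 ⟨S.h4, (S.aQ4 q hq).symm⟩
  · rw [S.dQ q hq, Finset.card_union_of_disjoint, Finset.card_erase_of_mem hq]
    · have h4 : ({w1, w2, w3, w4} : Finset V).card = 4 := by
        rw [Finset.card_insert_of_notMem, Finset.card_insert_of_notMem, Finset.card_pair]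
        · exact S.a34.ne
        · rw [mem_insert, mem_singleton]
          push Not
          exact ⟨S.a23.ne, S.e24⟩
        · rw [mem_insert, mem_insert, mem_singleton]
          push Not
          exact ⟨S.a12.ne, S.e13, S.e14⟩
      have h5 := S.hQc
      have h6 : 1 ≤ Q.card := Finset.card_pos.2 ⟨q, hq⟩
      omega
    · rw [Finset.disjoint_left]
      intro z hz hz'
      have h1 := (mem_erase.1 hz).2
      rw [mem_insert, mem_insert, mem_insert, mem_singleton] at hz'
      rcases hz' with rfl | rfl | rfl | rfl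
      · exact S.q1 h1
      · exact S.q2 h1
      · exact S.q3 h1
      · exact S.q4 h1

private theorem ph7_naq (S : TyP4 G k X Q w1 w2 w3 w4) {q z : V} (hq : q ∈ Q)
    (hz : z ∈ hd4 X Q w1 w2 w3 w4) : ¬ G.Adj z q := by
  intro h
  obtain ⟨h1, h2, h3, h4, h5, h6⟩ := mem_hd4.1 hz
  have h7 : z ∈ nb G X q := mem_nb.2 ⟨h1, h.symm⟩
  rw [ph7_eq S hq, mem_union, mem_erase, mem_insert, mem_insert, mem_insert,
    mem_singleton] at h7
  tauto

omit [DecidableRel G.Adj] in
private theorem ph7_sub : hd4 X Q w1 w2 w3 w4 ⊆ X := fun _ h => (mem_hd4.1 h).1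

/-- a vertex of `H` with at most one neighbour among the four vertices -/
private theorem ph7_deg (S : TyP4 G k X Q w1 w2 w3 w4) {z u : V}
    (hz : z ∈ hd4 X Q w1 w2 w3 w4)
    (hu : ∀ y, (y = w1 ∨ y = w2 ∨ y = w3 ∨ y = w4) → G.Adj z y → y = u) :
    (nb G X z).card ≤ (nb G (hd4 X Q w1 w2 w3 w4) z).card + 1 := by
  have h1 : nb G X z ⊆ insert u (nb G (hd4 X Q w1 w2 w3 w4) z) := by
    intro y hy
    rw [mem_insert]
    obtain ⟨hyX, hzy⟩ := mem_nb.1 hy
    by_cases h2 : y ∈ hd4 X Q w1 w2 w3 w4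
    · exact Or.inr (mem_nb.2 ⟨h2, hzy⟩)
    · left
      by_cases h3 : y ∈ Q
      · exact absurd hzy (ph7_naq S h3 hz)
      · refine hu y ?_ hzy
        by_contra h4
        push Not at h4
        exact h2 (mem_hd4.2 ⟨hyX, h3, h4.1, h4.2.1, h4.2.2.1, h4.2.2.2⟩)
  have h2 := Finset.card_le_card h1
  have h3 := Finset.card_insert_le u (nb G (hd4 X Q w1 w2 w3 w4) z)
  omega

/-- the edges inside a subset of `H` containing the neighbours of the four vertices -/
private theorem ph7_edges (M : MC G k X) (S : TyP4 G k X Q w1 w2 w3 w4) {U : Finset V}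
    (hU : U ⊆ hd4 X Q w1 w2 w3 w4)
    (u1 : nb G (hd4 X Q w1 w2 w3 w4) w1 ⊆ U) (u2 : nb G (hd4 X Q w1 w2 w3 w4) w2 ⊆ U)
    (u3 : nb G (hd4 X Q w1 w2 w3 w4) w3 ⊆ U) (u4 : nb G (hd4 X Q w1 w2 w3 w4) w4 ⊆ U) :
    e2 G U + 5 * k ≤ (k + 1) * U.card + 6 := by
  have hmem : ∀ z ∈ U, z ∈ X ∧ z ∉ Q ∧ z ≠ w1 ∧ z ≠ w2 ∧ z ≠ w3 ∧ z ≠ w4 :=
    fun z hz => mem_hd4.1 (hU hz)
  have hdQU : Disjoint Q U := by
    rw [Finset.disjoint_left]
    intro z hz hz'
    exact (hmem z hz').2.1 hz
  have e0 := e2_union_ge (G := G) hdQU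
  have eQ := clq_e2 S.hQq
  set W0 := Q ∪ U with hW0
  have n1 : w1 ∉ W0 := by
    rw [hW0, mem_union]
    rintro (h | h)
    · exact S.q1 h
    · exact (hmem _ h).2.2.1 rfl
  have n2 : w2 ∉ insert w1 W0 := by
    rw [mem_insert, hW0, mem_union]
    rintro (h | h | h)
    · exact S.a12.ne h.symm
    · exact S.q2 h
    · exact (hmem _ h).2.2.2.1 rfl
  have n3 : w3 ∉ insert w2 (insert w1 W0) := by
    rw [mem_insert, mem_insert, hW0, mem_union]
    rintro (h | h | h | h)
    · exact S.a23.ne h.symm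
    · exact S.e13 h.symm
    · exact S.q3 h
    · exact (hmem _ h).2.2.2.2.1 rfl
  have n4 : w4 ∉ insert w3 (insert w2 (insert w1 W0)) := by
    rw [mem_insert, mem_insert, mem_insert, hW0, mem_union]
    rintro (h | h | h | h | h)
    · exact S.a34.ne h.symm
    · exact S.e24 h.symm
    · exact S.e14 h.symm
    · exact S.q4 h
    · exact (hmem _ h).2.2.2.2.2 rfl
  have e1 := e2_ins (G := G) n1
  have e2' := e2_ins (G := G) n2
  have e3 := e2_ins (G := G) n3
  have e4 := e2_ins (G := G) n4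
  have hb : ∀ w, (∀ q ∈ Q, G.Adj w q) → nb G (hd4 X Q w1 w2 w3 w4) w ⊆ U →
      Q.card + (nb G (hd4 X Q w1 w2 w3 w4) w).card ≤ (nb G W0 w).card := by
    intro w hw hwU
    rw [← Finset.card_union_of_disjoint]
    · refine Finset.card_le_card ?_
      intro z hz
      rw [mem_union] at hz
      rcases hz with hz | hz
      · exact mem_nb.2 ⟨mem_union_left _ hz, hw z hz⟩
      · exact mem_nb.2 ⟨mem_union_right _ (hwU hz), (mem_nb.1 hz).2⟩
    · exact hdQU.mono_right hwU
  have b1 := hb w1 S.aQ1 u1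
  have b2 := hb w2 S.aQ2 u2
  have b3 := hb w3 S.aQ3 u3
  have b4 := hb w4 S.aQ4 u4
  have c2 : (nb G W0 w2).card + 1 ≤ (nb G (insert w1 W0) w2).card := by
    rw [← Finset.card_insert_of_notMem (a := w1) (s := nb G W0 w2)
      (fun h => n1 (mem_nb.1 h).1)]
    refine Finset.card_le_card ?_
    intro z hz
    rw [mem_insert] at hz
    rcases hz with rfl | hz
    · exact mem_nb.2 ⟨mem_insert_self _ _, S.a12.symm⟩
    · exact mem_nb.2 ⟨mem_insert_of_mem (mem_nb.1 hz).1, (mem_nb.1 hz).2⟩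
  have c3 : (nb G W0 w3).card + 1 ≤ (nb G (insert w2 (insert w1 W0)) w3).card := by
    rw [← Finset.card_insert_of_notMem (a := w2) (s := nb G W0 w3)
      (fun h => n2 (mem_insert_of_mem (mem_nb.1 h).1))]
    refine Finset.card_le_card ?_
    intro z hz
    rw [mem_insert] at hz
    rcases hz with rfl | hz
    · exact mem_nb.2 ⟨mem_insert_self _ _, S.a23.symm⟩
    · exact mem_nb.2 ⟨mem_insert_of_mem (mem_insert_of_mem (mem_nb.1 hz).1), (mem_nb.1 hz).2⟩
  have c4 : (nb G W0 w4).card + 1 ≤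
      (nb G (insert w3 (insert w2 (insert w1 W0))) w4).card := by
    rw [← Finset.card_insert_of_notMem (a := w3) (s := nb G W0 w4)
      (fun h => n3 (mem_insert_of_mem (mem_insert_of_mem (mem_nb.1 h).1)))]
    refine Finset.card_le_card ?_
    intro z hz
    rw [mem_insert] at hz
    rcases hz with rfl | hz
    · exact mem_nb.2 ⟨mem_insert_self _ _, S.a34.symm⟩
    · exact mem_nb.2 ⟨mem_insert_of_mem (mem_insert_of_mem (mem_insert_of_mem
        (mem_nb.1 hz).1)), (mem_nb.1 hz).2⟩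
  have hsub : insert w4 (insert w3 (insert w2 (insert w1 W0))) ⊆ X := by
    intro z hz
    rw [mem_insert, mem_insert, mem_insert, mem_insert, hW0, mem_union] at hz
    rcases hz with rfl | rfl | rfl | rfl | h | h
    · exact S.h4
    · exact S.h3
    · exact S.h2
    · exact S.h1
    · exact S.hQX h
    · exact (hmem _ h).1
  have hcard : (insert w4 (insert w3 (insert w2 (insert w1 W0)))).card =
      Q.card + U.card + 4 := by
    rw [Finset.card_insert_of_notMem n4, Finset.card_insert_of_notMem n3,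
      Finset.card_insert_of_notMem n2, Finset.card_insert_of_notMem n1, hW0,
      Finset.card_union_of_disjoint hdQU]
  have hs := M.hS _ hsub (by rw [hcard]; omega)
  rw [hcard] at hs
  have s13 := S.s13
  have s24 := S.s24
  have hQc := S.hQc
  obtain ⟨p, rfl⟩ : ∃ p, k = p + 3 := ⟨Q.card, hQc.symm⟩
  have hQp : Q.card = p := by omega
  rw [hQp] at eQ b1 b2 b3 b4 hs
  exact ph7_ar5 e0 eQ e1 e2' e3 e4 b1 b2 b3 b4 c2 c3 c4 s13 s24 hs

private theorem ph7_mono {A B : Finset V} (h : A ⊆ B) : e2 G A ≤ e2 G B := by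
  rw [e2_eq, e2_eq]
  refine le_trans (Finset.sum_le_sum fun v _ => Finset.card_le_card (nb_mono h v)) ?_
  exact Finset.sum_le_sum_of_subset h

private theorem ph7_super (A B : Finset V) :
    e2 G A + e2 G B ≤ e2 G (A ∪ B) + e2 G (A ∩ B) := by
  have key : ∀ C : Finset V, e2 G C = ((C ×ˢ C).filter (fun p => G.Adj p.1 p.2)).card := by
    intro C
    rw [Finset.card_filter, Finset.sum_product, e2_eq]
    refine Finset.sum_congr rfl fun x _ => ?_
    rw [← Finset.card_filter]
    rfl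
  rw [key, key, key, key, ← Finset.card_union_add_card_inter]
  refine add_le_add (Finset.card_le_card ?_) (Finset.card_le_card ?_)
  · intro p hp
    rw [mem_union, mem_filter, mem_filter, mem_product, mem_product] at hp
    rw [mem_filter, mem_product, mem_union, mem_union]
    tauto
  · intro p hp
    rw [mem_inter, mem_filter, mem_filter, mem_product, mem_product] at hp
    rw [mem_filter, mem_product, mem_inter, mem_inter]
    tauto

omit [DecidableRel G.Adj] in
private theorem ph7_one {R K L : Finset V} (h : ∀ l ∈ L, R.erase l ⊆ K)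
    (hc : K.card + 1 ≤ R.card) : L.card ≤ 1 := by
  rw [Finset.card_le_one]
  intro a ha b hb
  by_contra hab
  have h1 : R ⊆ K := by
    intro x hx
    by_cases hxa : x = a
    · exact h b hb (mem_erase.2 ⟨by rw [hxa]; exact hab, hx⟩)
    · exact h a ha (mem_erase.2 ⟨hxa, hx⟩)
  have h2 := Finset.card_le_card h1
  omega

/-- all vertices of `R` except one missed by the centre lie in the other star -/
private theorem ph7_K {H T T' : Finset V} {r l : V}
    (hd : ∀ t ∈ (T.erase r).erase l, (nb G H t).card + 1 = k)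
    (hk : ∀ z ∈ T.erase r, (nb G X z).card ≠ k)
    (hge : ∀ z ∈ T, k ≤ (nb G X z).card)
    (h1 : ∀ z ∈ T, z ∉ T' → (nb G X z).card ≤ (nb G H z).card + 1) :
    ∀ t ∈ (T.erase r).erase l, t ∈ T' := by
  intro t ht
  have h2 := mem_of_mem_erase ht
  have h3 := mem_of_mem_erase h2
  by_contra h4
  have h5 := h1 t h3 h4
  have h6 := hd t ht
  have h7 := hge t h3
  exact hk t h2 (by omega)

/-- twice the number of edges of a star -/
private theorem ph7_e2 {H T : Finset V} {r : V} (hS : StarT G k H T r) :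
    e2 G T + 2 * (nb Gᶜ T r).card + k = k * k := by
  have h1 := e2_add_compl (G := G) T
  have h2 := e2c_insert (G := G) (Finset.notMem_erase r T)
  rw [Finset.insert_erase hS.hr, clq_e2c hS.clq] at h2
  have h3 : (nb Gᶜ (T.erase r) r).card = (nb Gᶜ T r).card := by
    congr 1
    ext z
    rw [mem_nb, mem_nb, mem_erase]
    constructor
    · rintro ⟨⟨_, h⟩, h'⟩
      exact ⟨h, h'⟩
    · rintro ⟨h, h'⟩
      exact ⟨⟨h'.ne', h⟩, h'⟩
  rw [h3] at h2
  rw [hS.hc] at h1
  omega

theorem MC.p4count (M : MC G k X) (h5 : 5 ≤ k) (S : TyP4 G k X Q w1 w2 w3 w4)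
    (c24 : ∀ r, StarT G k (hd4 X Q w1 w2 w3 w4) (nb G (hd4 X Q w1 w2 w3 w4) w2 ∪
      nb G (hd4 X Q w1 w2 w3 w4) w4) r → ∀ z ∈ (nb G (hd4 X Q w1 w2 w3 w4) w2 ∪
      nb G (hd4 X Q w1 w2 w3 w4) w4).erase r, (nb G X z).card ≠ k)
    (c13 : ∀ r, StarT G k (hd4 X Q w1 w2 w3 w4) (nb G (hd4 X Q w1 w2 w3 w4) w1 ∪
      nb G (hd4 X Q w1 w2 w3 w4) w3) r → ∀ z ∈ (nb G (hd4 X Q w1 w2 w3 w4) w1 ∪
      nb G (hd4 X Q w1 w2 w3 w4) w3).erase r, (nb G X z).card ≠ k) : False := by
  have hsubX : hd4 X Q w1 w2 w3 w4 ⊆ X := ph7_sub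
  have o1 : w1 ∉ hd4 X Q w1 w2 w3 w4 := fun h => (mem_hd4.1 h).2.2.1 rfl
  have o2 : w2 ∉ hd4 X Q w1 w2 w3 w4 := fun h => (mem_hd4.1 h).2.2.2.1 rfl
  have o3 : w3 ∉ hd4 X Q w1 w2 w3 w4 := fun h => (mem_hd4.1 h).2.2.2.2.1 rfl
  have o4 : w4 ∉ hd4 X Q w1 w2 w3 w4 := fun h => (mem_hd4.1 h).2.2.2.2.2 rfl
  have hne : hd4 X Q w1 w2 w3 w4 ≠ X := fun h => o1 (by rw [h]; exact S.h1)
  obtain ⟨hc24, hd24, r, hr⟩ := ph7_star M hsubX hne S.psH S.alH S.tau S.h2 S.h4 o2 o4 S.e24
    S.m24 S.s24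
  obtain ⟨hc13, hd13, r', hr'⟩ := ph7_star M hsubX hne S.psH S.alH S.tau S.h1 S.h3 o1 o3 S.e13
    S.m13 S.s13
  have hc24' := c24 r hr
  have hc13' := c13 r' hr'
  have hge := M.deg_ge
  have hnaq := fun {q z : V} (hq : q ∈ Q) (hz : z ∈ hd4 X Q w1 w2 w3 w4) =>
    ph7_naq S hq hz
  have hdeg := fun {z u : V} (hz : z ∈ hd4 X Q w1 w2 w3 w4) =>
    ph7_deg (u := u) S hz
  have hedge := fun {U : Finset V} (hU : U ⊆ hd4 X Q w1 w2 w3 w4) =>
    ph7_edges M S hU
  have hmemH := fun {v : V} => mem_hd4 (X := X) (Q := Q) (w1 := w1) (w2 := w2) (w3 := w3)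
    (w4 := w4) (v := v)
  have hps := S.psH
  have halH := S.alH
  have htau := S.tau
  generalize hd4 X Q w1 w2 w3 w4 = H at *
  set T := nb G H w2 ∪ nb G H w4 with hT
  set T' := nb G H w1 ∪ nb G H w3 with hT'
  have hTH : T ⊆ H := hr.hT
  have hTH' : T' ⊆ H := hr'.hT
  -- membership in the two stars
  have m24 : ∀ z ∈ T, z ∉ T' → (nb G X z).card ≤ (nb G H z).card + 1 := by
    intro z hz hz'
    have hzH := hTH hz
    rw [hT', mem_union, mem_nb, mem_nb] at hz'
    push Not at hz'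
    rw [hT, mem_union] at hz
    rcases hz with hz | hz
    · refine hdeg (u := w2) hzH ?_
      rintro y (rfl | rfl | rfl | rfl) hzy
      · exact absurd hzy.symm (hz'.1 hzH)
      · rfl
      · exact absurd hzy.symm (hz'.2 hzH)
      · exact (hd24 z hz (mem_nb.2 ⟨hzH, hzy.symm⟩)).elim
    · refine hdeg (u := w4) hzH ?_
      rintro y (rfl | rfl | rfl | rfl) hzy
      · exact absurd hzy.symm (hz'.1 hzH)
      · exact (hd24 z (mem_nb.2 ⟨hzH, hzy.symm⟩) hz).elim
      · exact absurd hzy.symm (hz'.2 hzH)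
      · rfl
  have m13 : ∀ z ∈ T', z ∉ T → (nb G X z).card ≤ (nb G H z).card + 1 := by
    intro z hz hz'
    have hzH := hTH' hz
    rw [hT, mem_union, mem_nb, mem_nb] at hz'
    push Not at hz'
    rw [hT', mem_union] at hz
    rcases hz with hz | hz
    · refine hdeg (u := w1) hzH ?_
      rintro y (rfl | rfl | rfl | rfl) hzy
      · rfl
      · exact absurd hzy.symm (hz'.1 hzH)
      · exact (hd13 z hz (mem_nb.2 ⟨hzH, hzy.symm⟩)).elim
      · exact absurd hzy.symm (hz'.2 hzH)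
    · refine hdeg (u := w3) hzH ?_
      rintro y (rfl | rfl | rfl | rfl) hzy
      · exact (hd13 z (mem_nb.2 ⟨hzH, hzy.symm⟩) hz).elim
      · exact absurd hzy.symm (hz'.1 hzH)
      · rfl
      · exact absurd hzy.symm (hz'.2 hzH)
  have kk : ∀ l ∈ nb Gᶜ T r, ∀ t ∈ (T.erase r).erase l, t ∈ T' := fun l hl =>
    ph7_K (ph7_low M hsubX hne hps htau hr hl) hc24' (fun z hz => hge z (hsubX (hTH hz))) m24
  have kk' : ∀ l ∈ nb Gᶜ T' r', ∀ t ∈ (T'.erase r').erase l, t ∈ T := fun l hl =>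
    ph7_K (ph7_low M hsubX hne hps htau hr' hl) hc13' (fun z hz => hge z (hsubX (hTH' hz))) m13
  obtain ⟨l, hl⟩ : (nb Gᶜ T r).Nonempty := Finset.card_pos.1 hr.miss
  obtain ⟨l', hl'⟩ : (nb Gᶜ T' r').Nonempty := Finset.card_pos.1 hr'.miss
  have hlT : l ∈ T ∧ l ≠ r := ⟨(mem_nb.1 hl).1, ((mem_nb.1 hl).2.ne).symm⟩
  have hlT' : l' ∈ T' ∧ l' ≠ r' := ⟨(mem_nb.1 hl').1, ((mem_nb.1 hl').2.ne).symm⟩
  have hRl : ((T.erase r).erase l).card + 2 = k := by
    rw [Finset.card_erase_of_mem (mem_erase.2 ⟨hlT.2, hlT.1⟩), Finset.card_erase_of_mem hr.hr,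
      hr.hc]
    omega
  have hRl' : ((T'.erase r').erase l').card + 2 = k := by
    rw [Finset.card_erase_of_mem (mem_erase.2 ⟨hlT'.2, hlT'.1⟩),
      Finset.card_erase_of_mem hr'.hr, hr'.hc]
    omega
  set K := T ∩ T' with hK
  have hKs : (T.erase r).erase l ⊆ K := fun t ht =>
    mem_inter.2 ⟨mem_of_mem_erase (mem_of_mem_erase ht), kk l hl t ht⟩
  have hKs' : (T'.erase r').erase l' ⊆ K := fun t ht =>
    mem_inter.2 ⟨kk' l' hl' t ht, mem_of_mem_erase (mem_of_mem_erase ht)⟩
  have hKc := Finset.card_le_card hKs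
  have hUc := Finset.card_union_add_card_inter T T'
  rw [← hK, hc24, hc13] at hUc
  have hKT : K.card ≤ k := by
    rw [← hc24]
    exact Finset.card_le_card Finset.inter_subset_left
  have hE := hedge (U := T ∪ T') (Finset.union_subset hTH hTH')
    ((Finset.subset_union_left).trans Finset.subset_union_right)
    ((Finset.subset_union_left).trans Finset.subset_union_left)
    ((Finset.subset_union_right).trans Finset.subset_union_right)
    ((Finset.subset_union_right).trans Finset.subset_union_left)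
  have eT := ph7_e2 hr
  have eT' := ph7_e2 hr'
  have hmc : (nb Gᶜ T r).card + 1 ≤ k := by
    have h1 : nb Gᶜ T r ⊆ T.erase r := fun z hz =>
      mem_erase.2 ⟨((mem_nb.1 hz).2.ne).symm, (mem_nb.1 hz).1⟩
    have h2 := Finset.card_le_card h1
    rw [Finset.card_erase_of_mem hr.hr, hr.hc] at h2
    omega
  have hTU : e2 G T ≤ e2 G (T ∪ T') := ph7_mono Finset.subset_union_left
  rcases (by omega : K.card = k ∨ K.card + 1 = k ∨ K.card + 2 = k) with h | h | h
  · -- the two stars coincide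
    have h1 : (T ∪ T').card = k := by omega
    rw [h1] at hE
    exact ph7_ar1 eT hE hTU hmc h5
  · -- the stars share `k - 1` vertices
    have hU : (T ∪ T').card = k + 1 := by omega
    rw [hU] at hE
    have hKR : r ∉ K := by
      intro hrK
      have h1 : (nb Gᶜ T r).card ≤ 1 := by
        refine ph7_one (R := T.erase r) (K := K.erase r) ?_ ?_
        · intro l hl t ht
          exact mem_erase.2 ⟨(mem_erase.1 (mem_of_mem_erase ht)).1,
            mem_inter.2 ⟨mem_of_mem_erase (mem_of_mem_erase ht), kk l hl t ht⟩⟩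
        · rw [Finset.card_erase_of_mem hrK, Finset.card_erase_of_mem hr.hr, hr.hc]
          omega
      exact ph7_ar2 eT hE hTU h1 h5
    have hKR' : r' ∉ K := by
      intro hrK
      have h1 : (nb Gᶜ T' r').card ≤ 1 := by
        refine ph7_one (R := T'.erase r') (K := K.erase r') ?_ ?_
        · intro l hl t ht
          exact mem_erase.2 ⟨(mem_erase.1 (mem_of_mem_erase ht)).1,
            mem_inter.2 ⟨kk' l hl t ht, mem_of_mem_erase (mem_of_mem_erase ht)⟩⟩
        · rw [Finset.card_erase_of_mem hrK, Finset.card_erase_of_mem hr'.hr, hr'.hc]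
          omega
      have hTU' : e2 G T' ≤ e2 G (T ∪ T') := ph7_mono Finset.subset_union_right
      exact ph7_ar2 eT' hE hTU' h1 h5
    have hKe : K = T.erase r := by
      refine Finset.eq_of_subset_of_card_le ?_ ?_
      · intro t ht
        exact mem_erase.2 ⟨fun h' => hKR (h' ▸ ht), (mem_inter.1 ht).1⟩
      · rw [Finset.card_erase_of_mem hr.hr, hr.hc]
        omega
    have hKe' : K = T'.erase r' := by
      refine Finset.eq_of_subset_of_card_le ?_ ?_
      · intro t ht
        exact mem_erase.2 ⟨fun h' => hKR' (h' ▸ ht), (mem_inter.1 ht).2⟩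
      · rw [Finset.card_erase_of_mem hr'.hr, hr'.hc]
        omega
    have hKq : Clq G K := by
      rw [hKe]
      exact hr.clq
    have hsup := ph7_super (G := G) T T'
    rw [← hK] at hsup
    have hKe2 := clq_e2 hKq
    have hL : 2 ≤ (nb Gᶜ T r).card ∨ 2 ≤ (nb Gᶜ T' r').card := by
      by_contra hcon
      push Not at hcon
      exact ph7_ar3 h.symm eT eT' hE hsup hKe2 hcon.1 hcon.2 h5
    have hdK : ∀ v ∈ K, (nb G H v).card + 1 = k := by
      intro v hv
      rcases hL with hL | hL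
      · rw [hKe] at hv
        exact M.star0 hsubX hne (by omega) hr hL v hv
      · rw [hKe'] at hv
        exact M.star0 hsubX hne (by omega) hr' hL v hv
    -- the bridge argument
    have hZX : X \ (X \ (H \ T)) = H \ T :=
      Finset.sdiff_sdiff_eq_self (Finset.sdiff_subset.trans hsubX)
    have hal2 : al G (X \ (X \ (H \ T))) + 2 = al G X := by
      rw [hZX]
      have := hr.alT
      omega
    have htau1 : TauGe G (X \ (X \ (H \ T))) (k - 1) := by
      rw [hZX]
      refine M.tau1 (Finset.sdiff_subset.trans hsubX) ?_ ?_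
      · intro h'
        have h1 : w1 ∈ H \ T := by rw [h']; exact S.h1
        exact o1 (mem_sdiff.1 h1).1
      · have h1 := hr.psT
        rw [hps] at h1
        have h2 : (0 : ℤ) ≤ ((nb G H r \ T).card : ℤ) + exs G (k - 1) H (T.erase r) := by
          positivity
        omega
    have hne2 : (X \ (X \ (H \ T))).Nonempty := by
      rw [hZX]
      by_contra hcon
      rw [Finset.not_nonempty_iff_eq_empty] at hcon
      have h1 := hr.alT
      rw [hcon, al_empty] at h1
      have h2 := le_al (G := G) (X := H) (I := {r, l}) (by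
        intro z hz
        rw [mem_insert, mem_singleton] at hz
        rcases hz with rfl | rfl
        · exact hTH hr.hr
        · exact hTH hlT.1) (by
        intro x hx y hy hxy
        rw [Finset.mem_coe, mem_insert, mem_singleton] at hx hy
        have h3 := ((SimpleGraph.compl_adj _ _ _).1 (mem_nb.1 hl).2).2
        rcases hx with rfl | rfl <;> rcases hy with rfl | rfl
        · exact absurd rfl hxy
        · exact h3
        · exact fun h' => h3 h'.symm
        · exact absurd rfl hxy)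
      rw [Finset.card_pair (Ne.symm hlT.2)] at h2
      omega
    have hrW : r ∈ X \ (H \ T) :=
      mem_sdiff.2 ⟨hsubX (hTH hr.hr), fun h' => (mem_sdiff.1 h').2 hr.hr⟩
    have hw1W : ((X \ (H \ T)).erase r).Nonempty :=
      ⟨w1, mem_erase.2 ⟨fun h' => o1 (h' ▸ hTH hr.hr),
        mem_sdiff.2 ⟨S.h1, fun h' => o1 (mem_sdiff.1 h').1⟩⟩⟩
    obtain ⟨J, hJW, hJi, hJc, hrJ⟩ := M.tri (W := X \ (H \ T)) Finset.sdiff_subset hne2 hal2
      hrW hw1W
    have hsum := M.trisum (W := X \ (H \ T)) Finset.sdiff_subset hal2 htau1 hJW hJi hJc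
    rw [hZX] at hsum
    have hone : ∀ z ∈ J, (nb G (H \ T) z).card ≤ 1 := by
      intro z hz
      have hzW := mem_sdiff.1 (hJW hz)
      by_cases hzH : z ∈ H
      · have hzT : z ∈ T := by
          by_contra hcon
          exact hzW.2 (mem_sdiff.2 ⟨hzH, hcon⟩)
        have hzr : z ≠ r := fun h' => hrJ (h' ▸ hz)
        have hzK : z ∈ K := by
          rw [hKe]
          exact mem_erase.2 ⟨hzr, hzT⟩
        have h1 := hdK z hzK
        have h2 : (K.erase z).card + 2 = k := by
          rw [Finset.card_erase_of_mem hzK]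
          omega
        have h3 : K.erase z ∪ nb G (H \ T) z ⊆ nb G H z := by
          intro y hy
          rw [mem_union] at hy
          rcases hy with hy | hy
          · have h4 := mem_erase.1 hy
            exact mem_nb.2 ⟨hTH (mem_inter.1 h4.2).1, hKq z hzK y h4.2 (Ne.symm h4.1)⟩
          · have h4 := mem_nb.1 hy
            exact mem_nb.2 ⟨(mem_sdiff.1 h4.1).1, h4.2⟩
        have h4 := Finset.card_le_card h3
        rw [Finset.card_union_of_disjoint] at h4
        · omega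
        · rw [Finset.disjoint_left]
          intro y hy hy'
          exact (mem_sdiff.1 (mem_nb.1 hy').1).2 (mem_inter.1 (mem_of_mem_erase hy)).1
      · have h1 : nb G (H \ T) z ⊆ {r'} := by
          intro y hy
          obtain ⟨hy1, hzy⟩ := mem_nb.1 hy
          obtain ⟨hyH, hyT⟩ := mem_sdiff.1 hy1
          rw [mem_singleton]
          by_contra hyr
          have hyT' : y ∉ T' := by
            intro h'
            have h2 : y ∈ K := by
              rw [hKe']
              exact mem_erase.2 ⟨hyr, h'⟩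
            exact hyT (mem_inter.1 h2).1
          by_cases hzQ : z ∈ Q
          · exact hnaq hzQ hyH hzy.symm
          · have h2 : z = w1 ∨ z = w2 ∨ z = w3 ∨ z = w4 := by
              by_contra h3
              push Not at h3
              exact hzH (hmemH.2 ⟨hzW.1, hzQ, h3.1, h3.2.1, h3.2.2.1, h3.2.2.2⟩)
            rcases h2 with rfl | rfl | rfl | rfl
            · exact hyT' (mem_union_left _ (mem_nb.2 ⟨hyH, hzy⟩))
            · exact hyT (mem_union_left _ (mem_nb.2 ⟨hyH, hzy⟩))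
            · exact hyT' (mem_union_right _ (mem_nb.2 ⟨hyH, hzy⟩))
            · exact hyT (mem_union_right _ (mem_nb.2 ⟨hyH, hzy⟩))
        have h2 := Finset.card_le_card h1
        rwa [Finset.card_singleton] at h2
    have h1 := Finset.sum_le_card_nsmul J _ 1 hone
    rw [hJc] at h1
    simp only [smul_eq_mul] at h1
    omega
  · -- the stars share `k - 2` vertices
    have hU : (T ∪ T').card = k + 2 := by omega
    rw [hU] at hE
    have h1 : (nb Gᶜ T r).card ≤ 1 := by
      refine ph7_one (R := T.erase r) (K := K) ?_ ?_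
      · intro l hl t ht
        exact mem_inter.2 ⟨mem_of_mem_erase (mem_of_mem_erase ht), kk l hl t ht⟩
      · rw [Finset.card_erase_of_mem hr.hr, hr.hc]
        omega
    have h2 : (nb Gᶜ T' r').card ≤ 1 := by
      refine ph7_one (R := T'.erase r') (K := K) ?_ ?_
      · intro l hl t ht
        exact mem_inter.2 ⟨kk' l hl t ht, mem_of_mem_erase (mem_of_mem_erase ht)⟩
      · rw [Finset.card_erase_of_mem hr'.hr, hr'.hc]
        omega
    have hsup := ph7_super (G := G) T T'
    rw [← hK] at hsup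
    have hKe2 := e2_le (G := G) K
    exact ph7_ar4 h.symm eT eT' hE hsup hKe2 h1 h2 h5

end

end Pool.Agent.TwoDens.TS
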