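import Pool.Agent.TKS.PH6
import Pool.Agent.TKS.PH7
import Pool.Agent.TKS.PT

/-!
No vertex of degree `k` is of the path type, for `k = 5, 6`.
-/

open Finset

namespace Pool.Agent.TwoDens.TS

open Pool.Agent.TwoDens Pool.Agent.TwoDens.RK Pool.Agent.TwoDens.DD

variable {V : Type*} [DecidableEq V] {G : SimpleGraph V} [DecidableRel G.Adj]

/-- the facts on the type 3 -/
theorem MC.p8_t3 {k : ℕ} {X : Finset V} (M : MC G k X) (hk : k = 5 ∨ k = 6) : T3F G k X := by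
  intro Q y1 y2 y3 T
  refine ⟨T.dQ M hk, fun v hv hvQ _ _ _ => ⟨fun h => ?_, fun h => ?_, fun h => ?_⟩⟩
  · exact T.dis12 M hk hv hvQ h.1.symm h.2.symm
  · exact T.dis13 M hk hv hvQ h.1.symm h.2.symm
  · exact T.dis23 M hk hv hvQ h.1.symm h.2.symm

/-- no path type -/
theorem AllP.p4 {k : ℕ} {X Q : Finset V} {w1 w2 w3 w4 : V} (A : AllP G k X) :
    ¬ TyP4 G k X Q w1 w2 w3 w4 := by
  intro S
  have h5 := A.h5
  have h6 := A.h6
  obtain ⟨h1, h2⟩ := A.p4R (A.mc.p8_t3 (by omega)) S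
  exact A.mc.p4count h5 S h1 h2

theorem AllP.p4_5 {k : ℕ} {X Q : Finset V} {w1 w2 w3 w4 : V} (A : AllP G k X) (_hk : k = 5) :
    ¬ TyP4 G k X Q w1 w2 w3 w4 := A.p4

theorem AllP.p4_6 {k : ℕ} {X Q : Finset V} {w1 w2 w3 w4 : V} (A : AllP G k X) (_hk : k = 6) :
    ¬ TyP4 G k X Q w1 w2 w3 w4 := A.p4

end Pool.Agent.TwoDens.TS
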