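import Pool.Agent.TKS.RB

/-!
Three vertices missing for both outer vertices, all `k ≥ 5`.
-/

open Finset

namespace Pool.Agent.TwoDens.TS

open Pool.Agent.TwoDens Pool.Agent.TwoDens.RK Pool.Agent.TwoDens.DD

variable {V : Type*} [DecidableEq V] {G : SimpleGraph V} [DecidableRel G.Adj]

namespace Fr
variable {k : ℕ} {X P : Finset V} (F : Fr G k X P)
include F

/-- the transversal `N_a ∪ N_u` with `k` elements, when `u` has three neighbours in `H` and `a` has
`k - 3`: all its vertices except `r, l` are adjacent to `a, p` or to all of `D` -/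
theorem r1b (h6 : 6 ≤ k) {c a p : V} (B : Base G k X P c a p) {u : V} (hu : u ∈ P)
    (au : ¬ G.Adj a u) (pu : ¬ G.Adj p u) (hps : ps G k (hb X P a p) = 0)
    (fa : (nb G (hb X P a p) a).card + 3 = k) (fp : (nb G (hb X P a p) p).card + 3 = k)
    (nu : (nb G (hb X P a p) u).card = 3) {T : Finset V}
    (hT : T = nb G (hb X P a p) a ∪ nb G (hb X P a p) u) :
    ∃ r, StarT G k (hb X P a p) T r ∧ ∀ l ∈ nb Gᶜ T r,
      (∀ t ∈ nb G (hb X P a p) a, t ≠ r → t ≠ l → G.Adj p t) ∧
      (∀ v ∈ P, ¬ G.Adj a v → (nb G (hb X P a p) v).card ≤ 3 →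
        ∀ t ∈ nb G (hb X P a p) u, t ≠ r → t ≠ l → G.Adj v t) := by
  have hk := F.mc.hk
  have ha := mem_sdiff.1 B.hx
  have hp := mem_sdiff.1 B.hx'
  have htr := F.tr_xu B hu au
  have hc := F.card_xu B hu au
  have halH := (F.bp _ _ _ B).alH
  have htau := (F.bp _ _ _ B).tau
  rw [← hT] at htr hc
  obtain ⟨H, hH⟩ : ∃ H, H = hb X P a p := ⟨_, rfl⟩
  have hHX : H ⊆ X := by rw [hH]; exact hb_sub
  have hHne : H ≠ X := by rw [hH]; exact B.hbne
  rw [← hH] at hps fa fp nu hT htr halH htau ⊢
  have hTH : T ⊆ H := by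
    rw [hT]
    exact Finset.union_subset (nb_sub _ _) (nb_sub _ _)
  have c1 := Finset.card_union_add_card_inter (nb G H a) (nb G H u)
  rw [← hT] at c1
  have hTc : T.card = k := by omega
  have hdis : Disjoint (nb G H a) (nb G H u) := by
    rw [Finset.disjoint_iff_inter_eq_empty, ← Finset.card_eq_zero]
    omega
  obtain ⟨r, hS⟩ := F.mc.star8g hHX hHne (by rw [hps]; norm_num) htau hTH hTc htr
    (Or.inl (by rw [hps]; norm_num))
  have haH : a ∉ H := by
    rw [hH, mem_hb]
    exact fun h => h.2.2.1 rfl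
  have hpH : p ∉ H := by
    rw [hH, mem_hb]
    exact fun h => h.2.2.2 rfl
  have hPH : ∀ v ∈ P, v ∉ H := by
    intro v hv
    rw [hH, mem_hb]
    exact fun h => h.2.1 hv
  refine ⟨r, hS, ?_⟩
  intro l hl
  have hlT := (mem_nb.1 hl).1
  have hlr : l ≠ r := fun h => ((SimpleGraph.compl_adj _ _ _).1 (mem_nb.1 hl).2).1 h.symm
  have hY2 : H \ T ⊆ X := Finset.sdiff_subset.trans hHX
  have hY2ne : H \ T ≠ X := by
    intro h
    exact hHne (Finset.Subset.antisymm hHX (h ▸ Finset.sdiff_subset))
  have hdeg : ∀ v ∈ T, k - 1 ≤ (nb G H v).card := fun v hv => by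
    have := htau.deg (hTH hv)
    omega
  -- degrees of the vertices different from `r, l`
  have hd : ∀ t ∈ T, t ≠ r → t ≠ l → (nb G H t).card + 1 = k := by
    intro t ht htr' htl
    by_contra hcon
    have g0 := hdeg t ht
    have g1 := exs_erase (G := G) (k := k - 1) (X := H) (S := T.erase r) (u := l)
      (mem_erase.2 ⟨hlr, hlT⟩)
    have g2 := exs_erase (G := G) (k := k - 1) (X := H) (S := (T.erase r).erase l) (u := t)
      (mem_erase.2 ⟨htl, mem_erase.2 ⟨htr', ht⟩⟩)
    have g3 := hS.low l hl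
    have g4 := hdeg l hlT
    have hpsT := hS.psT
    have g5 := F.mc.ps_sub hHX hHne T
    rw [hps] at hpsT
    have g6 : k ≤ (nb G H r \ T).card + exs G (k - 1) H (T.erase r) + 1 := by omega
    have g6' : (k : ℤ) ≤ (nb G H r \ T).card + exs G (k - 1) H (T.erase r) + 1 := by
      exact_mod_cast g6
    have g7 := F.mc.low0 hHX hHne hS (by linarith) l hl
    have g8 : k ≤ (nb G H r \ T).card + exs G (k - 1) H (T.erase r) := by omega
    have g8' : (k : ℤ) ≤ (nb G H r \ T).card + exs G (k - 1) H (T.erase r) := by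
      exact_mod_cast g8
    linarith
  -- outer degrees
  have ho : ∀ t ∈ T, t ≠ r → t ≠ l → (nb G H t \ T).card ≤ 1 := by
    intro t ht htr' htl
    have h10 := deg_split (G := G) hTH ht
    have h11 := hS.nbc_le (mem_erase.2 ⟨htr', ht⟩)
    have h12 := hd t ht htr' htl
    omega
  have hpsT := hS.psT
  rw [hps] at hpsT
  have b1 : (0 : ℤ) ≤ (nb G H r \ T).card := Int.natCast_nonneg _
  have b2 : (0 : ℤ) ≤ exs G (k - 1) H (T.erase r) := Int.natCast_nonneg _
  have htau2 := F.mc.tau1 hY2 hY2ne (by linarith)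
  have halT := hS.alT
  -- independent triples `y, v, t`
  have trip : ∀ y ∈ X, y ∉ H → ∀ v ∈ P, y ≠ v → ¬ G.Adj y v → ∀ t ∈ T, ¬ G.Adj y t →
      ¬ G.Adj v t → k ≤ (nb G H y \ T).card + (nb G H v \ T).card + (nb G H t \ T).card + 1 := by
    intro y hyX hyH v hv hyv nyv t ht nyt nvt
    have htH := hTH ht
    have hyt : y ≠ t := fun h => hyH (h ▸ htH)
    have hvt : v ≠ t := fun h => hPH v hv (h ▸ htH)
    have htr2 : Tr G (H \ T) ((nb G H y \ T) ∪ (nb G H v \ T) ∪ (nb G H t \ T)) := by
      refine tr_nbr (X := X) (J := {y, v, t}) hY2 ?_ ?_ (indep_triple nyv nyt nvt) ?_ ?_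
      · intro z hz
        rw [mem_insert, mem_insert, mem_singleton] at hz
        rcases hz with rfl | rfl | rfl
        · exact hyX
        · exact F.hP hv
        · exact hHX htH
      · rw [Finset.disjoint_left]
        intro z hz hz'
        rw [mem_insert, mem_insert, mem_singleton] at hz
        rcases hz with rfl | rfl | rfl
        · exact hyH (mem_sdiff.1 hz').1
        · exact hPH _ hv (mem_sdiff.1 hz').1
        · exact (mem_sdiff.1 hz').2 ht
      · rw [Finset.card_insert_of_notMem (by simp [hyv, hyt]), Finset.card_pair hvt]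
        omega
      · intro z hz w hw hzw
        have hw' := mem_sdiff.1 hw
        rw [mem_insert, mem_insert, mem_singleton] at hz
        rw [mem_union, mem_union]
        rcases hz with rfl | rfl | rfl
        · exact Or.inl (Or.inl (mem_sdiff.2 ⟨mem_nb.2 ⟨hw'.1, hzw⟩, hw'.2⟩))
        · exact Or.inl (Or.inr (mem_sdiff.2 ⟨mem_nb.2 ⟨hw'.1, hzw⟩, hw'.2⟩))
        · exact Or.inr (mem_sdiff.2 ⟨mem_nb.2 ⟨hw'.1, hzw⟩, hw'.2⟩)
    have h7 := htau2 _ (Finset.union_subset (Finset.union_subset
      (Finset.sdiff_subset_sdiff (nb_sub H y) (Finset.Subset.refl T))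
      (Finset.sdiff_subset_sdiff (nb_sub H v) (Finset.Subset.refl T)))
      (Finset.sdiff_subset_sdiff (nb_sub H t) (Finset.Subset.refl T))) htr2
    have h8 := Finset.card_union_le (nb G H y \ T ∪ nb G H v \ T) (nb G H t \ T)
    have h9 := Finset.card_union_le (nb G H y \ T) (nb G H v \ T)
    omega
  have hNaT : nb G H a ⊆ T := by rw [hT]; exact Finset.subset_union_left
  have hNuT : nb G H u ⊆ T := by rw [hT]; exact Finset.subset_union_right
  have za : (nb G H a \ T).card = 0 := by
    rw [Finset.card_eq_zero, Finset.sdiff_eq_empty_iff_subset]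
    exact hNaT
  have zu : (nb G H u \ T).card = 0 := by
    rw [Finset.card_eq_zero, Finset.sdiff_eq_empty_iff_subset]
    exact hNuT
  refine ⟨?_, ?_⟩
  · intro t ht htr' htl
    by_contra hpt
    have htH := (mem_nb.1 ht).1
    have g1 := trip p hp.1 hpH u hu (fun h => hp.2 (h ▸ hu)) pu t (hNaT ht) hpt
      (fun h => (Finset.disjoint_left.1 hdis) ht (mem_nb.2 ⟨htH, h⟩))
    have g2 := ho t (hNaT ht) htr' htl
    have g3 : (nb G H p \ T).card ≤ (nb G H p).card := Finset.card_le_card Finset.sdiff_subset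
    omega
  · intro v hv av nv t ht htr' htl
    by_contra hvt
    have htH := (mem_nb.1 ht).1
    have g1 := trip a ha.1 haH v hv (fun h => ha.2 (h ▸ hv)) av t (hNuT ht)
      (fun h => (Finset.disjoint_left.1 hdis) (mem_nb.2 ⟨htH, h⟩) ht) hvt
    have g2 := ho t (hNuT ht) htr' htl
    have g3 : (nb G H v \ T).card ≤ (nb G H v).card := Finset.card_le_card Finset.sdiff_subset
    omega


/-- the number of edges between `P ∪ {a, p}` and a set disjoint from it -/
theorem r1cnt {a p : V} (ha : a ∈ X \ P) (hp : p ∈ X \ P) (hne : a ≠ p) (hap : G.Adj a p)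
    {u v w : V} (hu : u ∈ P) (hv : v ∈ P) (hw : w ∈ P) (huv : u ≠ v) (huw : u ≠ w) (hvw : v ≠ w)
    (hDa : (nb Gᶜ P a).card ≤ 3) (hDp : (nb Gᶜ P p).card ≤ 3) {S : Finset V} (hSX : S ⊆ X)
    (hSd : Disjoint (insert a (insert p P)) S) :
    k * k + k + e2 G S + 2 * ((nb G S a).card + (nb G S p).card + (nb G S u).card +
      (nb G S v).card + (nb G S w).card) + 2 * k + 1 ≤ (k + 1) * (k + 1 + S.card) + 12 := by
  have hk := F.mc.hk
  have ha := mem_sdiff.1 ha
  have hp := mem_sdiff.1 hp
  have hpP : p ∉ P := hp.2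
  have hapP : a ∉ insert p P := by
    rw [mem_insert]
    rintro (h | h)
    · exact hne h
    · exact ha.2 h
  have hau' : a ≠ u := fun h => ha.2 (h ▸ hu)
  have hav' : a ≠ v := fun h => ha.2 (h ▸ hv)
  have haw' : a ≠ w := fun h => ha.2 (h ▸ hw)
  have hpu' : p ≠ u := fun h => hp.2 (h ▸ hu)
  have hpv' : p ≠ v := fun h => hp.2 (h ▸ hv)
  have hpw' : p ≠ w := fun h => hp.2 (h ▸ hw)
  obtain ⟨W, hW⟩ : ∃ W, W = insert a (insert p P) := ⟨_, rfl⟩
  have hWX : W ⊆ X := by
    rw [hW]
    exact Finset.insert_subset ha.1 (Finset.insert_subset hp.1 F.hP)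
  have hWc : W.card = k + 1 := by
    rw [hW, Finset.card_insert_of_notMem hapP, Finset.card_insert_of_notMem hpP]
    have := F.hPc
    omega
  have hWR : Disjoint W S := by
    rw [hW]
    exact hSd
  have e1 := e2_disj (G := G) hWR
  have e3 := e2_add_compl (G := G) W
  have e4 : e2 Gᶜ W ≤ 12 := by
    rw [hW, e2c_insert hapP, e2c_insert hpP, clq_e2c F.hPq]
    have h1 : nb Gᶜ (insert p P) a ⊆ nb Gᶜ P a := by
      intro z hz
      have hz' := mem_nb.1 hz
      rw [mem_insert] at hz'
      rcases hz'.1 with h | h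
      · exact absurd (h ▸ hap) ((SimpleGraph.compl_adj _ _ _).1 hz'.2).2
      · exact mem_nb.2 ⟨h, hz'.2⟩
    have h2 := Finset.card_le_card h1
    omega
  have e6 : (nb G S a).card + (nb G S p).card + (nb G S u).card + (nb G S v).card +
      (nb G S w).card ≤ ∑ z ∈ W, (nb G S z).card := by
    have h1 : ({a, p, u, v, w} : Finset V) ⊆ W := by
      intro z hz
      rw [mem_insert, mem_insert, mem_insert, mem_insert, mem_singleton] at hz
      rw [hW, mem_insert, mem_insert]
      rcases hz with h | h | h | h | h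
      · exact Or.inl h
      · exact Or.inr (Or.inl h)
      · exact Or.inr (Or.inr (h ▸ hu))
      · exact Or.inr (Or.inr (h ▸ hv))
      · exact Or.inr (Or.inr (h ▸ hw))
    refine le_trans (le_of_eq ?_) (Finset.sum_le_sum_of_subset h1)
    rw [Finset.sum_insert (by simp [hne, hau', hav', haw']),
      Finset.sum_insert (by simp [hpu', hpv', hpw']), Finset.sum_insert (by simp [huv, huw]),
      Finset.sum_pair hvw]
    omega
  have e7 : (W ∪ S).card = W.card + S.card := Finset.card_union_of_disjoint hWR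
  have e8 := F.mc.hS (W ∪ S) (Finset.union_subset hWX hSX) (by omega)
  rw [e7, hWc] at e8
  rw [hWc] at e3
  obtain ⟨Sg, hSg⟩ : ∃ Sg, ∑ z ∈ W, (nb G S z).card = Sg := ⟨_, rfl⟩
  rw [hSg] at e1 e6
  have h3 : (k + 1) * (k + 1) = k * k + 2 * k + 1 := by ring
  omega

/-- three vertices missing for both `a` and `p`, and `a, p` adjacent; all `k ≥ 5` -/
theorem r1s (h5 : 5 ≤ k) {c a p : V} (B : Base G k X P c a p) (hap : G.Adj a p)
    {u v w : V} (hu : u ∈ P) (hv : v ∈ P) (hw : w ∈ P) (huv : u ≠ v) (huw : u ≠ w) (hvw : v ≠ w)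
    (au : ¬ G.Adj a u) (av : ¬ G.Adj a v) (aw : ¬ G.Adj a w) (pu : ¬ G.Adj p u)
    (hDa : (nb Gᶜ P a).card ≤ 3) (hDp : (nb Gᶜ P p).card ≤ 3)
    (hps : ps G k (hb X P a p) = 0)
    (fa : (nb G (hb X P a p) a).card + 3 = k) (fp : (nb G (hb X P a p) p).card + 3 = k)
    (nu : (nb G (hb X P a p) u).card = 3) (nv : (nb G (hb X P a p) v).card ≤ 3)
    (nw : (nb G (hb X P a p) w).card ≤ 3) : False := by
  by_cases h7 : 7 ≤ k
  · exact F.r1 h7 B hap hu hv hw huv huw hvw au av aw pu hDa hDp hps fa fp nu nv nw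
  have hk := F.mc.hk
  have ha := mem_sdiff.1 B.hx
  have hp := mem_sdiff.1 B.hx'
  have hPc := F.hPc
  -- the degree of `a`
  have h6 : 6 ≤ k := by
    have g1 := F.deg_ge ha.1
    have g2 : nb G X a ⊆ nb G P a ∪ nb G (X \ P) a := by
      intro z hz
      rw [mem_union, mem_nb, mem_nb, mem_sdiff]
      have hz' := mem_nb.1 hz
      by_cases hzP : z ∈ P
      · exact Or.inl ⟨hzP, hz'.2⟩
      · exact Or.inr ⟨⟨hz'.1, hzP⟩, hz'.2⟩
    have g3 := Finset.card_le_card g2
    have g4 := Finset.card_union_le (nb G P a) (nb G (X \ P) a)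
    have g5 := card_nb_hb (G := G) B.hx B.hx' B.hne a
    rw [if_neg (G.loopless.irrefl a), if_pos hap] at g5
    have g6 : ({u, v, w} : Finset V) ⊆ nb Gᶜ P a := by
      intro z hz
      rw [mem_insert, mem_insert, mem_singleton] at hz
      rw [F.mem_nbc ha.2]
      rcases hz with rfl | rfl | rfl
      · exact ⟨hu, au⟩
      · exact ⟨hv, av⟩
      · exact ⟨hw, aw⟩
    have g7 := Finset.card_le_card g6
    have g8 : ({u, v, w} : Finset V).card = 3 := by
      rw [Finset.card_insert_of_notMem (by simp [huv, huw]), Finset.card_pair hvw]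
    have g9 := nbc_card' (G := G) ha.2
    omega
  obtain ⟨T, hT⟩ : ∃ T, T = nb G (hb X P a p) a ∪ nb G (hb X P a p) u := ⟨_, rfl⟩
  obtain ⟨r, hS, hall⟩ := F.r1b h6 B hu au pu hps fa fp nu hT
  obtain ⟨H, hH⟩ : ∃ H, H = hb X P a p := ⟨_, rfl⟩
  have hHX : H ⊆ X := by rw [hH]; exact hb_sub
  have hHne : H ≠ X := by rw [hH]; exact B.hbne
  have hHdis : Disjoint (insert a (insert p P)) H := by
    rw [Finset.disjoint_left]
    intro z hz hz'
    rw [hH, mem_hb] at hz'
    rw [mem_insert, mem_insert] at hz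
    rcases hz with h | h | h
    · exact hz'.2.2.1 h
    · exact hz'.2.2.2 h
    · exact hz'.2.1 h
  rw [← hH] at fa fp nu hT hS hall
  have hTH := hS.hT
  have hTc := hS.hc
  have hk6 : k = 6 := by omega
  subst hk6
  have hL : ∀ l ∈ nb Gᶜ T r, l ∈ T ∧ l ≠ r := by
    intro l hl
    exact ⟨(mem_nb.1 hl).1,
      fun h => ((SimpleGraph.compl_adj _ _ _).1 (mem_nb.1 hl).2).1 h.symm⟩
  have hTT : ∀ z ∈ T, G.Adj a z ∨ G.Adj u z := by
    intro z hz
    rw [hT, mem_union, mem_nb, mem_nb] at hz
    rcases hz with h | h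
    · exact Or.inl h.2
    · exact Or.inr h.2
  have hdeg3 : (nb G T u).card = 3 := by
    have : nb G T u = nb G H u := by
      ext z
      rw [mem_nb, mem_nb]
      constructor
      · rintro ⟨h1, h2⟩
        exact ⟨hTH h1, h2⟩
      · rintro ⟨h1, h2⟩
        refine ⟨?_, h2⟩
        rw [hT, mem_union, mem_nb, mem_nb]
        exact Or.inr ⟨h1, h2⟩
    rw [this, nu]
  by_cases hq : 2 ≤ (nb Gᶜ T r).card
  · -- two missing pairs
    obtain ⟨l1, hl1, l2, hl2, hl12⟩ := Finset.one_lt_card.1 (show 1 < (nb Gᶜ T r).card by omega)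
    obtain ⟨a1, b1⟩ := hall l1 hl1
    obtain ⟨a2, b2⟩ := hall l2 hl2
    have hN : ∀ t ∈ nb G H a, t ≠ r → G.Adj p t := by
      intro t ht htr
      by_cases e : t = l1
      · exact a2 t ht htr (fun h => hl12 (e.symm.trans h))
      · exact a1 t ht htr e
    have hM : ∀ y ∈ P, ¬ G.Adj a y → (nb G H y).card ≤ 3 → ∀ t ∈ nb G H u, t ≠ r →
        G.Adj y t := by
      intro y hy hay hyc t ht htr
      by_cases e : t = l1
      · exact b2 y hy hay hyc t ht htr (fun h => hl12 (e.symm.trans h))
      · exact b1 y hy hay hyc t ht htr e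
    rw [← hH] at nv nw
    obtain ⟨R, hR⟩ : ∃ R, R = T.erase r := ⟨_, rfl⟩
    have hRc : R.card + 1 = 6 := by
      rw [hR, Finset.card_erase_add_one hS.hr, hS.hc]
    have hRH : R ⊆ H := by rw [hR]; exact (Finset.erase_subset _ _).trans hTH
    have hRq : Clq G R := by rw [hR]; exact hS.clq
    have hauR : 5 ≤ (nb G R a).card + (nb G R u).card := by
      have h1 : R ⊆ nb G R a ∪ nb G R u := by
        intro z hz
        have h2 := hz
        rw [hR, mem_erase] at h2
        rw [mem_union]
        rcases hTT z h2.2 with h3 | h3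
        · exact Or.inl (mem_nb.2 ⟨hz, h3⟩)
        · exact Or.inr (mem_nb.2 ⟨hz, h3⟩)
      have h2 := Finset.card_le_card h1
      have h3 := Finset.card_union_le (nb G R a) (nb G R u)
      omega
    have hpvR : 5 ≤ (nb G R p).card + (nb G R v).card := by
      have h1 : R ⊆ nb G R p ∪ nb G R v := by
        intro z hz
        have h2 := hz
        rw [hR, mem_erase, hT, mem_union] at h2
        rw [mem_union]
        rcases h2.2 with h3 | h3
        · exact Or.inl (mem_nb.2 ⟨hz, hN z h3 h2.1⟩)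
        · exact Or.inr (mem_nb.2 ⟨hz, hM v hv av nv z h3 h2.1⟩)
      have h2 := Finset.card_le_card h1
      have h3 := Finset.card_union_le (nb G R p) (nb G R v)
      omega
    have hwR : 2 ≤ (nb G R w).card := by
      have h1 : nb G H u ⊆ insert r (nb G R w) := by
        intro z hz
        rw [mem_insert]
        by_cases e : z = r
        · exact Or.inl e
        · refine Or.inr (mem_nb.2 ⟨?_, hM w hw aw nw z hz e⟩)
          rw [hR, mem_erase, hT]
          exact ⟨e, mem_union_right _ hz⟩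
      have h2 := Finset.card_le_card h1
      have h3 := Finset.card_insert_le r (nb G R w)
      omega
    have e1 := F.r1cnt B.hx B.hx' B.hne hap hu hv hw huv huw hvw hDa hDp (hRH.trans hHX)
      (hHdis.mono_right hRH)
    have e5 := clq_e2 (G := G) hRq
    have hRm : R.card = 5 := by omega
    rw [hRm] at e1 e5
    omega
  · -- one missing pair
    obtain ⟨l, hl⟩ := Finset.card_pos.1 hS.miss
    obtain ⟨a1, b1⟩ := hall l hl
    obtain ⟨hlT, hlr⟩ := hL l hl
    rw [← hH] at nv nw
    have hauR : 6 ≤ (nb G T a).card + (nb G T u).card := by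
      have h1 : T ⊆ nb G T a ∪ nb G T u := by
        intro z hz
        rw [mem_union]
        rcases hTT z hz with h3 | h3
        · exact Or.inl (mem_nb.2 ⟨hz, h3⟩)
        · exact Or.inr (mem_nb.2 ⟨hz, h3⟩)
      have h2 := Finset.card_le_card h1
      have h3 := Finset.card_union_le (nb G T a) (nb G T u)
      omega
    have hpvR : 4 ≤ (nb G T p).card + (nb G T v).card := by
      have h1 : (T.erase r).erase l ⊆ nb G T p ∪ nb G T v := by
        intro z hz
        have hz1 := mem_erase.1 hz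
        have hz2 := mem_erase.1 hz1.2
        have h2 := hz2.2
        rw [hT, mem_union] at h2
        rw [mem_union]
        rcases h2 with h3 | h3
        · exact Or.inl (mem_nb.2 ⟨hz2.2, a1 z h3 hz2.1 hz1.1⟩)
        · exact Or.inr (mem_nb.2 ⟨hz2.2, b1 v hv av nv z h3 hz2.1 hz1.1⟩)
      have h2 := Finset.card_le_card h1
      have h3 := Finset.card_union_le (nb G T p) (nb G T v)
      have h4 : (T.erase r).card + 1 = T.card := Finset.card_erase_add_one hS.hr
      have h5 : ((T.erase r).erase l).card + 1 = (T.erase r).card :=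
        Finset.card_erase_add_one (mem_erase.2 ⟨hlr, hlT⟩)
      omega
    have hwR : 1 ≤ (nb G T w).card := by
      have h1 : nb G H u ⊆ insert r (insert l (nb G T w)) := by
        intro z hz
        rw [mem_insert, mem_insert]
        by_cases e : z = r
        · exact Or.inl e
        · by_cases e2 : z = l
          · exact Or.inr (Or.inl e2)
          · refine Or.inr (Or.inr (mem_nb.2 ⟨?_, b1 w hw aw nw z hz e e2⟩))
            rw [hT]
            exact mem_union_right _ hz
      have h2 := Finset.card_le_card h1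
      have h3 := Finset.card_insert_le r (insert l (nb G T w))
      have h4 := Finset.card_insert_le l (nb G T w)
      omega
    have e1 := F.r1cnt B.hx B.hx' B.hne hap hu hv hw huv huw hvw hDa hDp (hTH.trans hHX)
      (hHdis.mono_right hTH)
    have e2' := hS.e2c
    have e3 := e2_add_compl (G := G) T
    rw [hTc] at e1 e3
    omega

end Fr

end Pool.Agent.TwoDens.TS
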