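import Pool.Agent.TKS.XK

/-!
Case II with one vertex missing for all `k ≥ 5`: the statement for frames.
-/

open Finset

namespace Pool.Agent.TwoDens.TS

open Pool.Agent.TwoDens Pool.Agent.TwoDens.RK Pool.Agent.TwoDens.DD

variable {V : Type*} [DecidableEq V] {G : SimpleGraph V} [DecidableRel G.Adj]

/-- no vertex outside `P` misses exactly one vertex `b` of `P`, if the second outer neighbour `p`
of a vertex of degree `k` misses a vertex `u ≠ b` of degree `k` -/
theorem Fr.n1s {k : ℕ} {X P : Finset V} (F : Fr G k X P) (h5 : 5 ≤ k) {a b : V}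
    (ha : a ∈ X \ P) (hb : b ∈ P) (nab : ¬ G.Adj a b) (hall : ∀ v ∈ P, v ≠ b → G.Adj a v)
    {c p u : V} (B : Base G k X P c a p) (hu : u ∈ P) (hub : u ≠ b) (hpu : ¬ G.Adj p u)
    (hud : (nb G X u).card = k) : False := by
  obtain ⟨p', t, R, rp, rt, h⟩ := F.c2xU h5 ha hb nab hall B hu hub hpu hud
  exact h.false5 h5 h.psX

/-- the same statement, for callers with the other name -/
theorem Fr.n1u {k : ℕ} {X P : Finset V} (F : Fr G k X P) (h5 : 5 ≤ k) {a b : V}
    (ha : a ∈ X \ P) (hb : b ∈ P) (nab : ¬ G.Adj a b) (hall : ∀ v ∈ P, v ≠ b → G.Adj a v)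
    {c p u : V} (B : Base G k X P c a p) (hu : u ∈ P) (hub : u ≠ b) (hpu : ¬ G.Adj p u)
    (hud : (nb G X u).card = k) : False :=
  F.n1s h5 ha hb nab hall B hu hub hpu hud

end Pool.Agent.TwoDens.TS
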