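import Pool.Agent.TKS.NSX
import Pool.Agent.TKS.CG
import Pool.Agent.TKS.RC
import Pool.Agent.TKS.XL
import Pool.Agent.TKS.BEh
import Pool.Agent.TKS.PH8

/-!
Every minimal counterexample with `k = 5, 6` has a frame such that no vertex outside is adjacent
to all its vertices of degree `k`.
-/

open Finset

namespace Pool.Agent.TwoDens.TS

open Pool.Agent.TwoDens Pool.Agent.TwoDens.RK Pool.Agent.TwoDens.DD

variable {V : Type*} [DecidableEq V] {G : SimpleGraph V} [DecidableRel G.Adj]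

/-- all frames have an outside vertex adjacent to all their vertices of degree `k` -/
theorem MC.allH {k : ℕ} {X : Finset V} (M : MC G k X) (h5 : 5 ≤ k) (h6 : k ≤ 6)
    (hns : ∀ P, Fr G k X P → ∃ a ∈ X \ P, ∀ c ∈ P, (nb G X c).card = k → G.Adj a c) :
    AllH G k X where
  mc := M
  h5 := h5
  h6 := h6
  fr := fun _ hP hPc hq hex => M.fr hP hPc hq hex
  ns := hns
  n1 := fun _ F _ ha _ hb nab hall _ _ _ B hu hub hpu hd =>
    F.n1s h5 ha hb nab hall B hu hub hpu hd
  k23 := fun _ F _ _ _ B hap _ hu _ hv _ hw huv huw hvw au av aw pu hDa hDp hps fa fp nu nv nw =>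
    F.r1s h5 B hap hu hv hw huv huw hvw au av aw pu hDa hDp hps fa fp nu nv nw

theorem MC.allP {k : ℕ} {X : Finset V} (M : MC G k X) (h5 : 5 ≤ k) (h6 : k ≤ 6)
    (hns : ∀ P, Fr G k X P → ∃ a ∈ X \ P, ∀ c ∈ P, (nb G X c).card = k → G.Adj a c) :
    AllP G k X :=
  { M.allH h5 h6 hns with
    c4 := fun _ _ _ _ _ _ => (M.allH h5 h6 hns).c4 }

/-- `k = 5, 6`: there is a frame such that no vertex outside is adjacent to all its vertices of
degree `k` -/
theorem MC.exists_fn5 {k : ℕ} {X : Finset V} (M : MC G k X) (h5 : 5 ≤ k) (h6 : k ≤ 6) :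
    ∃ P, Fn G k X P := by
  by_contra hcon
  have hns : ∀ P, Fr G k X P → ∃ a ∈ X \ P, ∀ c ∈ P, (nb G X c).card = k → G.Adj a c := by
    intro P F
    by_contra h2
    push Not at h2
    exact hcon ⟨P, F, h2⟩
  have A := M.allP h5 h6 hns
  exact A.false (fun _ _ _ _ _ => A.p4)

end Pool.Agent.TwoDens.TS
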