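import Pool.Agent.TKS.SA

/-!
Every transversal of `H` has at least `k` elements.
-/

open Finset

namespace Pool.Agent.TwoDens.TS

open Pool.Agent.TwoDens Pool.Agent.TwoDens.RK Pool.Agent.TwoDens.DD

variable {V : Type*} [DecidableEq V] {G : SimpleGraph V} [DecidableRel G.Adj]

/-- a transversal of size `k - 1` -/
structure SX (G : SimpleGraph V) [DecidableRel G.Adj] (k : ℕ) (X P : Finset V) (c x x' : V)
    (R : Finset V) (m : ℕ) : Prop where
  M : MC G k X
  B : Base G k X P c x x'
  hR : R ⊆ hb X P x x'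
  hRc : R.card + 1 = k
  hRq : Clq G R
  hbd : bd G (hb X P x x') R + 1 ≤ m
  hps : ps G k (hb X P x x') = 2 * m
  al2 : al G (hb X P x x' \ R) + 2 = al G X
  tau2 : TauGe G (hb X P x x' \ R) (k - 1)
  ne2 : (hb X P x x' \ R).Nonempty
  hm : m ≤ 4

/-- existence -/
theorem Base.exists_sx {k : ℕ} {X P : Finset V} {c x x' : V} (B : Base G k X P c x x')
    (M : MC G k X) (hk6 : 6 ≤ k) (h : ¬ TauGe G (hb X P x x') k) : ∃ R m, SX G k X P c x x' R m := by
  have hk := M.hk
  have hk' : (4 : ℤ) ≤ k := by exact_mod_cast hk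
  have t1 := B.taum M
  have hp8 := B.ps8 M
  have hp2 : 2 ≤ ps G k (hb X P x x') := by
    by_contra hcon
    push Not at hcon
    exact h (M.tau0 hb_sub B.hbne (by linarith))
  obtain ⟨m0, hm0⟩ := ps_even (G := G) k (hb X P x x')
  obtain ⟨m', rfl⟩ : ∃ m' : ℕ, m0 = m' := ⟨m0.toNat, by omega⟩
  have hal := B.alH M
  have hHX : hb X P x x' ⊆ X := hb_sub
  have hHne := B.hbne
  have hHc : (hb X P x x').card + (k + 1) = X.card := by
    have hx := mem_sdiff.1 B.hx
    have hx' := mem_sdiff.1 B.hx'
    have e : hb X P x x' = X \ insert x (insert x' P) := by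
      ext v
      rw [mem_hb, mem_sdiff, mem_insert, mem_insert]
      tauto
    have hs : insert x (insert x' P) ⊆ X :=
      Finset.insert_subset hx.1 (Finset.insert_subset hx'.1 B.hP)
    have hSc : (insert x (insert x' P)).card = k + 1 := by
      rw [Finset.card_insert_of_notMem, Finset.card_insert_of_notMem hx'.2, B.hPc]
      rw [mem_insert, not_or]
      exact ⟨B.hne, hx.2⟩
    rw [e, Finset.card_sdiff_of_subset hs, hSc]
    have := M.card_ge
    omega
  have hXc := M.card_ge
  obtain ⟨H, hH⟩ : ∃ H, H = hb X P x x' := ⟨_, rfl⟩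
  rw [← hH] at h t1 hp8 hp2 hal hHX hHne hHc hm0
  unfold TauGe at h
  push Not at h
  obtain ⟨R, hR, htr, hc⟩ := h
  have hc2 := t1 R hR htr
  have hRc : R.card + 1 = k := by omega
  obtain ⟨hq, hbd⟩ := M.tr34' hk6 hHX hHne hp8 hR hRc htr
  have hbd' : (bd G H R : ℤ) + 1 ≤ m' := by linarith
  have hq1 := al_clq hq
  have h5 := al_le_sdiff (G := G) H R
  rw [Finset.inter_eq_right.2 hR] at h5
  have h6 : al G (H \ R) < al G H := htr
  have h7 : al G (H \ R) + 1 = al G H := by omega
  have hsub : H \ R ⊆ X := Finset.sdiff_subset.trans hHX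
  have hne : H \ R ≠ X := by
    intro e
    exact hHne (Finset.Subset.antisymm hHX (e ▸ Finset.sdiff_subset))
  have hps : ps G k (H \ R) ≤ 6 := by
    have e1 := ps_sdiff (G := G) k hR
    have e2' := sum_deg' (G := G) hR
    have e3 := clq_e2 (G := G) hq
    have e4 : (al G (H \ R) : ℤ) + 1 = al G H := by exact_mod_cast h7
    obtain ⟨D, hD⟩ : ∃ D : ℕ, ∑ v ∈ R, (nb G H v).card = D := ⟨_, rfl⟩
    rw [hD] at e1 e2'
    obtain ⟨m, hm⟩ : ∃ m, R.card = m := ⟨_, rfl⟩
    have hkm : k = m + 1 := by omega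
    rw [hm] at e1 e3
    have e3' : (e2 G R : ℤ) + m = m * m := by exact_mod_cast e3
    have e2'' : (D : ℤ) = e2 G R + bd G H R := by exact_mod_cast e2'
    have hb0 := Int.natCast_nonneg (bd G H R)
    have e5 : (al G H : ℤ) - al G (H \ R) = 1 := by linarith
    rw [e5, e2''] at e1
    have hkm' : (k : ℤ) = m + 1 := by exact_mod_cast hkm
    rw [hkm'] at e1
    subst hH
    nlinarith
  refine ⟨R, m', ⟨M, B, by rw [← hH]; exact hR, hRc, hq, by rw [← hH]; exact_mod_cast hbd',
    by rw [← hH]; exact hm0, by rw [← hH]; omega, ?_, ?_, ?_⟩⟩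
  · rw [← hH]
    exact M.tau1 hsub hne (by
      have : (6 : ℤ) ≤ k := by exact_mod_cast hk6
      linarith)
  · rw [← hH, ← Finset.card_pos, Finset.card_sdiff_of_subset hR]
    omega
  · have : (m' : ℤ) ≤ 4 := by linarith
    exact_mod_cast this

namespace SX
variable {k : ℕ} {X P : Finset V} {c x x' : V} {R : Finset V} {m : ℕ}
  (s : SX G k X P c x x' R m)
include s

theorem symm : SX G k X P c x' x R m where
  M := s.M
  B := s.B.symm
  hR := by rw [hb_comm]; exact s.hR
  hRc := s.hRc
  hRq := s.hRq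
  hbd := by rw [hb_comm]; exact s.hbd
  hps := by rw [hb_comm]; exact s.hps
  al2 := by rw [hb_comm]; exact s.al2
  tau2 := by rw [hb_comm]; exact s.tau2
  ne2 := by rw [hb_comm]; exact s.ne2
  hm := s.hm

theorem split (a : V) : (nb G (hb X P x x') a).card =
    (nb G R a).card + (nb G (hb X P x x' \ R) a).card := by
  rw [← Finset.card_union_of_disjoint]
  · congr 1
    ext v
    rw [mem_union, mem_nb, mem_nb, mem_nb, mem_sdiff]
    constructor
    · rintro ⟨h1, h2⟩
      by_cases h : v ∈ R
      · exact Or.inl ⟨h, h2⟩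
      · exact Or.inr ⟨⟨h1, h⟩, h2⟩
    · rintro (⟨h1, h2⟩ | ⟨⟨h1, _⟩, h2⟩)
      · exact ⟨s.hR h1, h2⟩
      · exact ⟨h1, h2⟩
  · rw [Finset.disjoint_left]
    intro v hv hv'
    exact (mem_sdiff.1 (mem_nb.1 hv').1).2 (mem_nb.1 hv).1

theorem nbR {p : V} (hp : p ∈ R) : (nb G (hb X P x x' \ R) p).card + 1 ≤ m := by
  have h1 := s.hbd
  unfold bd at h1
  have h2 := Finset.single_le_sum (f := fun v => (nb G (hb X P x x') v \ R).card)
    (fun v _ => Nat.zero_le _) hp
  have h3 : nb G (hb X P x x' \ R) p = nb G (hb X P x x') p \ R := by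
    ext v
    rw [mem_sdiff, mem_nb, mem_nb, mem_sdiff]
    tauto
  rw [h3]
  exact (Nat.succ_le_succ h2).trans h1

theorem ff : (nb G (hb X P x x') x).card + (nb G (hb X P x x') x').card + exs G k X P + m +
    2 ≤ 2 * k := by
  have b := s.B.bst s.M
  have hp := s.M.ps_le
  have h4 := s.hps
  have h8 : (0 : ℤ) ≤ if G.Adj x x' then 1 else 0 := by split_ifs <;> norm_num
  have : ((nb G (hb X P x x') x).card : ℤ) + (nb G (hb X P x x') x').card + exs G k X P + m +
      2 ≤ 2 * k := by linarith
  exact_mod_cast this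


theorem XW : X \ (insert x (insert x' P) ∪ R) = hb X P x x' \ R := by
  ext v
  rw [mem_sdiff, mem_sdiff, mem_union, mem_insert, mem_insert, mem_hb]
  tauto

theorem WX : insert x (insert x' P) ∪ R ⊆ X := by
  have hx := mem_sdiff.1 s.B.hx
  have hx' := mem_sdiff.1 s.B.hx'
  exact Finset.union_subset (Finset.insert_subset hx.1 (Finset.insert_subset hx'.1 s.B.hP))
    (s.hR.trans hb_sub)

theorem Wc : (insert x (insert x' P) ∪ R).card = 2 * k := by
  have hx := mem_sdiff.1 s.B.hx
  have hx' := mem_sdiff.1 s.B.hx'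
  have h1 : x ∉ insert x' P := by
    rw [mem_insert, not_or]
    exact ⟨s.B.hne, hx.2⟩
  have hd : Disjoint (insert x (insert x' P)) R := by
    rw [Finset.disjoint_left]
    intro v hv hv'
    have := mem_hb.1 (s.hR hv')
    rw [mem_insert, mem_insert] at hv
    tauto
  rw [Finset.card_union_of_disjoint hd, Finset.card_insert_of_notMem h1,
    Finset.card_insert_of_notMem hx'.2]
  have h2 := s.B.hPc
  have h3 := s.hRc
  omega

/-- the total number of leaving edges -/
theorem budW : exs G k X (insert x (insert x' P) ∪ R) +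
    ∑ v ∈ insert x (insert x' P) ∪ R, (nb G (hb X P x x' \ R) v).card + 6 ≤ 2 * k := by
  have h1 := s.M.two_k s.WX s.Wc (by rw [s.XW]; exact le_of_eq s.al2)
  have h2 : bd G X (insert x (insert x' P) ∪ R) =
      ∑ v ∈ insert x (insert x' P) ∪ R, (nb G (hb X P x x' \ R) v).card := by
    unfold bd
    refine Finset.sum_congr rfl fun v hv => ?_
    congr 1
    rw [← s.XW]
    ext w
    rw [mem_sdiff, mem_nb, mem_nb, mem_sdiff]
    tauto
  omega

/-- two independent triples -/
theorem two {J1 J2 C : Finset V} (h1 : J1 ⊆ insert x (insert x' P) ∪ R)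
    (h2 : J2 ⊆ insert x (insert x' P) ∪ R) (i1 : G.IsIndepSet (J1 : Set V))
    (i2 : G.IsIndepSet (J2 : Set V)) (c1 : J1.card = 3) (c2 : J2.card = 3)
    (hC : J1 ∩ J2 ⊆ C) :
    4 + exs G k X (insert x (insert x' P) ∪ R) ≤ ∑ v ∈ C, (nb G (hb X P x x' \ R) v).card := by
  have hal : al G (X \ (insert x (insert x' P) ∪ R)) + 2 = al G X := by rw [s.XW]; exact s.al2
  have ht : TauGe G (X \ (insert x (insert x' P) ∪ R)) (k - 1) := by rw [s.XW]; exact s.tau2
  have a1 := s.M.trisum s.WX hal ht h1 i1 c1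
  have a2 := s.M.trisum s.WX hal ht h2 i2 c2
  rw [s.XW] at a1 a2
  have a3 := s.budW
  have a4 := Finset.sum_union_inter (s₁ := J1) (s₂ := J2)
    (f := fun v => (nb G (hb X P x x' \ R) v).card)
  have a5 : ∑ v ∈ J1 ∪ J2, (nb G (hb X P x x' \ R) v).card ≤
      ∑ v ∈ insert x (insert x' P) ∪ R, (nb G (hb X P x x' \ R) v).card :=
    Finset.sum_le_sum_of_subset (Finset.union_subset h1 h2)
  have a6 : ∑ v ∈ J1 ∩ J2, (nb G (hb X P x x' \ R) v).card ≤
      ∑ v ∈ C, (nb G (hb X P x x' \ R) v).card :=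
    Finset.sum_le_sum_of_subset hC
  have hk := s.M.hk
  omega

/-- an independent triple avoiding a vertex -/
theorem tri {v : V} (hv : v ∈ insert x (insert x' P) ∪ R) :
    ∃ J ⊆ insert x (insert x' P) ∪ R, G.IsIndepSet (J : Set V) ∧ J.card = 3 ∧ v ∉ J := by
  refine s.M.tri s.WX ?_ ?_ hv ?_
  · rw [s.XW]
    exact s.ne2
  · rw [s.XW]
    exact s.al2
  · rw [← Finset.card_pos]
    have h1 := Finset.card_erase_add_one hv
    have h2 := s.Wc
    have hk := s.M.hk
    omega

theorem one {J S : Finset V} (hi : G.IsIndepSet (J : Set V)) (hS : Clq G S) :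
    (J ∩ S).card ≤ 1 := by
  rw [Finset.card_le_one]
  intro v hv w hw
  rw [mem_inter] at hv hw
  by_contra e
  exact hi (by exact_mod_cast hv.1) (by exact_mod_cast hw.1) e (hS v hv.2 w hw.2 e)

/-- a triple without `x'` -/
theorem shape1 {J : Finset V} (hJ : J ⊆ insert x (insert x' P) ∪ R)
    (hi : G.IsIndepSet (J : Set V)) (hc : J.card = 3) (hx' : x' ∉ J) :
    ∃ q ∈ P, ∃ r ∈ R, J = {x, q, r} := by
  have h1 := s.one hi s.B.hPq
  have h2 := s.one hi s.hRq
  have h3 : J ⊆ {x} ∪ ((J ∩ P) ∪ (J ∩ R)) := by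
    intro v hv
    have h4 := hJ hv
    have h5 : v ≠ x' := fun e => hx' (e ▸ hv)
    rw [mem_union, mem_insert, mem_insert] at h4
    rw [mem_union, mem_singleton, mem_union, mem_inter, mem_inter]
    tauto
  have h4 := Finset.card_le_card h3
  have h5 := Finset.card_union_le {x} ((J ∩ P) ∪ (J ∩ R))
  have h6 := Finset.card_union_le (J ∩ P) (J ∩ R)
  rw [Finset.card_singleton] at h5
  obtain ⟨q, hq⟩ := Finset.card_eq_one.1 (by omega : (J ∩ P).card = 1)
  obtain ⟨r, hr⟩ := Finset.card_eq_one.1 (by omega : (J ∩ R).card = 1)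
  have hq' : q ∈ J ∩ P := by rw [hq]; exact mem_singleton_self q
  have hr' : r ∈ J ∩ R := by rw [hr]; exact mem_singleton_self r
  refine ⟨q, (mem_inter.1 hq').2, r, (mem_inter.1 hr').2, ?_⟩
  refine Finset.eq_of_subset_of_card_le ?_ (by rw [hc]; exact Finset.card_le_three)
  rw [hq, hr] at h3
  intro v hv
  have := h3 hv
  rw [mem_union, mem_union, mem_singleton, mem_singleton, mem_singleton] at this
  simpa using this

/-- neighbours of a vertex of `P` in `H \ R` -/
theorem hP2 {q : V} (hq : q ∈ P) : (nb G (hb X P x x' \ R) q).card + (nb G R q).card ≤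
    2 + exs G k X (insert x (insert x' P) ∪ R) := by
  have h1 := s.split q
  have h2 := s.B.nbH s.M hq
  have h3 : (nb G X q).card - k ≤ exs G k X (insert x (insert x' P) ∪ R) := by
    unfold exs
    exact Finset.single_le_sum (f := fun v => (nb G X v).card - k) (fun v _ => Nat.zero_le _)
      (mem_union_left _ (mem_insert_of_mem (mem_insert_of_mem hq)))
  omega

/-- the main case: `{x, q, r}` and `{x', q, r}` are the only triples with exactly one of
`x, x'` -/
theorem main {q r : V} (hq : q ∈ P) (hr : r ∈ R)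
    (u1 : ∀ J ⊆ insert x (insert x' P) ∪ R, G.IsIndepSet (J : Set V) → J.card = 3 → x' ∉ J →
      J = {x, q, r}) (u2 : ∀ J ⊆ insert x (insert x' P) ∪ R, G.IsIndepSet (J : Set V) →
      J.card = 3 → x ∉ J → J = {x', q, r})
    (i1 : G.IsIndepSet (({x, q, r} : Finset V) : Set V))
    (i2 : G.IsIndepSet (({x', q, r} : Finset V) : Set V))
    (hx4 : 4 ≤ (nb G (hb X P x x' \ R) x).card)
    (hx4' : 4 ≤ (nb G (hb X P x x' \ R) x').card)
    (hqr : 4 + exs G k X (insert x (insert x' P) ∪ R) ≤
      (nb G (hb X P x x' \ R) q).card + (nb G (hb X P x x' \ R) r).card) : False := by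
  have hx := mem_sdiff.1 s.B.hx
  have hx' := mem_sdiff.1 s.B.hx'
  have hm := s.hm
  have hnr := s.nbR hr
  have hP2 := s.hP2 hq
  have hff := s.ff
  have f1 := s.split x
  have f2 := s.split x'
  have hRc := s.hRc
  have hxq : x ≠ q := fun e => hx.2 (e ▸ hq)
  have hxq' : x' ≠ q := fun e => hx'.2 (e ▸ hq)
  have hRH : ∀ w ∈ R, w ∉ P ∧ w ≠ x ∧ w ≠ x' := fun w hw => (mem_hb.1 (s.hR hw)).2
  have n1 : ¬ G.Adj x q := fun e => i1 (by simp) (by simp) hxq e
  have n1' : ¬ G.Adj x' q := fun e => i2 (by simp) (by simp) hxq' e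
  have key : ∀ {a : V}, a ≠ q → a ∈ insert x (insert x' P) → ¬ G.Adj a q →
      (∀ w ∈ R, ¬ G.Adj a w → ¬ G.Adj q w → w = r) →
      R.card ≤ (nb G R a).card + (nb G R q).card + 1 := by
    intro a haq ha hn hu
    have h1 : R ⊆ {r} ∪ (nb G R a ∪ nb G R q) := by
      intro w hw
      rw [mem_union, mem_singleton, mem_union, mem_nb, mem_nb]
      by_contra hcon
      push Not at hcon
      exact hcon.1 (hu w hw (hcon.2.1 hw) (hcon.2.2 hw))
    have h2 := Finset.card_le_card h1
    have h3 := Finset.card_union_le {r} (nb G R a ∪ nb G R q)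
    have h4 := Finset.card_union_le (nb G R a) (nb G R q)
    rw [Finset.card_singleton] at h3
    omega
  have k1 := key (a := x) hxq (mem_insert_self _ _) n1 (by
    intro w hw w1 w2
    have hwp := hRH w hw
    have hwq : q ≠ w := fun e => hwp.1 (e ▸ hq)
    have h := u1 {x, q, w} (by
      intro v hv
      rw [mem_insert, mem_insert, mem_singleton] at hv
      rw [mem_union, mem_insert, mem_insert]
      rcases hv with rfl | rfl | rfl
      · exact Or.inl (Or.inl rfl)
      · exact Or.inl (Or.inr (Or.inr hq))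
      · exact Or.inr hw) (indep_insert (indep_pair w2) (by
        intro v hv
        rw [mem_insert, mem_singleton] at hv
        rcases hv with rfl | rfl
        · exact n1
        · exact w1)) (by
        rw [Finset.card_insert_of_notMem (by
          rw [mem_insert, mem_singleton, not_or]
          exact ⟨hxq, Ne.symm hwp.2.1⟩), Finset.card_pair hwq]) (by
        rw [mem_insert, mem_insert, mem_singleton, not_or, not_or]
        exact ⟨Ne.symm s.B.hne, hxq', Ne.symm hwp.2.2⟩)
    have h2 : w ∈ ({x, q, r} : Finset V) := by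
      rw [← h]
      simp
    rw [mem_insert, mem_insert, mem_singleton] at h2
    rcases h2 with h2 | h2 | h2
    · exact absurd h2 hwp.2.1
    · exact absurd h2 (Ne.symm hwq)
    · exact h2)
  have k2 := key (a := x') hxq' (mem_insert_of_mem (mem_insert_self _ _)) n1' (by
    intro w hw w1 w2
    have hwp := hRH w hw
    have hwq : q ≠ w := fun e => hwp.1 (e ▸ hq)
    have h := u2 {x', q, w} (by
      intro v hv
      rw [mem_insert, mem_insert, mem_singleton] at hv
      rw [mem_union, mem_insert, mem_insert]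
      rcases hv with rfl | rfl | rfl
      · exact Or.inl (Or.inr (Or.inl rfl))
      · exact Or.inl (Or.inr (Or.inr hq))
      · exact Or.inr hw) (indep_insert (indep_pair w2) (by
        intro v hv
        rw [mem_insert, mem_singleton] at hv
        rcases hv with rfl | rfl
        · exact n1'
        · exact w1)) (by
        rw [Finset.card_insert_of_notMem (by
          rw [mem_insert, mem_singleton, not_or]
          exact ⟨hxq', Ne.symm hwp.2.2⟩), Finset.card_pair hwq]) (by
        rw [mem_insert, mem_insert, mem_singleton, not_or, not_or]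
        exact ⟨s.B.hne, hxq, Ne.symm hwp.2.1⟩)
    have h2 : w ∈ ({x', q, r} : Finset V) := by
      rw [← h]
      simp
    rw [mem_insert, mem_insert, mem_singleton] at h2
    rcases h2 with h2 | h2 | h2
    · exact absurd h2 hwp.2.2
    · exact absurd h2 (Ne.symm hwq)
    · exact h2)
  omega

theorem false : False := by
  have hx := mem_sdiff.1 s.B.hx
  have hx' := mem_sdiff.1 s.B.hx'
  have hm := s.hm
  have hRH : ∀ w ∈ R, w ∉ P ∧ w ≠ x ∧ w ≠ x' := fun w hw => (mem_hb.1 (s.hR hw)).2
  have hxP : ∀ w ∈ P, w ≠ x ∧ w ≠ x' :=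
    fun w hw => ⟨fun e => hx.2 (e ▸ hw), fun e => hx'.2 (e ▸ hw)⟩
  have hW : insert x' (insert x P) ∪ R = insert x (insert x' P) ∪ R := by
    rw [Finset.insert_comm]
  obtain ⟨W, hWd⟩ : ∃ W, W = insert x (insert x' P) ∪ R := ⟨_, rfl⟩
  have sh1 := fun {J : Finset V} => s.shape1 (J := J)
  have sh2 := fun {J : Finset V} => s.symm.shape1 (J := J)
  rw [hW] at sh2
  have htwo := fun {J1 J2 C : Finset V} => s.two (J1 := J1) (J2 := J2) (C := C)
  have htri := fun {v : V} => s.tri (v := v)
  have hP2 := fun {q : V} => s.hP2 (q := q)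
  rw [← hWd] at sh1 sh2 htwo htri hP2
  have hmem : ∀ {v : V}, v ∈ W ↔ (v = x ∨ v = x' ∨ v ∈ P) ∨ v ∈ R := by
    intro v
    rw [hWd, mem_union, mem_insert, mem_insert]
  obtain ⟨J1, hJ1, j1, c1, hn1⟩ := htri (v := x') (hmem.2 (Or.inl (Or.inr (Or.inl rfl))))
  obtain ⟨J2, hJ2, j2, c2, hn2⟩ := htri (v := x) (hmem.2 (Or.inl (Or.inl rfl)))
  obtain ⟨q, hq, r, hr, e1⟩ := sh1 hJ1 j1 c1 hn1
  obtain ⟨q', hq', r', hr', e2'⟩ := sh2 hJ2 j2 c2 hn2
  -- uniqueness
  have uniq : ∀ {J J' : Finset V} {a b a' b' : V}, J ⊆ W → J' ⊆ W → G.IsIndepSet (J : Set V) →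
      G.IsIndepSet (J' : Set V) → J.card = 3 → J'.card = 3 → a ∈ P → b ∈ R → a' ∈ P → b' ∈ R →
      J = {x, a, b} → J' = {x', a', b'} → a = a' ∧ b = b' := by
    intro J J' a b a' b' h1 h2 i1 i2 d1 d2 ha hb' ha' hb'' e e'
    have ab : a ≠ b' := fun h => (hRH b' hb'').1 (h ▸ ha)
    have ba : b ≠ a' := fun h => (hRH b hb').1 (h ▸ ha')
    have hsub : J ∩ J' ⊆ {a, b} := by
      intro v hv
      rw [mem_inter, e, e', mem_insert, mem_insert, mem_singleton, mem_insert, mem_insert,
        mem_singleton] at hv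
      rw [mem_insert, mem_singleton]
      rcases hv.1 with h | h | h
      · exfalso
        rw [h] at hv
        rcases hv.2 with h' | h' | h'
        · exact s.B.hne h'
        · exact (hxP a' ha').1 h'.symm
        · exact (hRH b' hb'').2.1 h'.symm
      · exact Or.inl h
      · exact Or.inr h
    constructor
    · by_contra hne
      have h3 := htwo (C := {b}) h1 h2 i1 i2 d1 d2 (by
        intro v hv
        have hv' := hsub hv
        rw [mem_inter, e'] at hv
        rw [mem_insert, mem_singleton] at hv'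
        rw [mem_singleton]
        rcases hv' with rfl | h
        · exfalso
          have := hv.2
          rw [mem_insert, mem_insert, mem_singleton] at this
          rcases this with h' | h' | h'
          · exact (hxP v ha).2 h'
          · exact hne h'
          · exact ab h'
        · exact h)
      rw [Finset.sum_singleton] at h3
      have h4 := s.nbR hb'
      omega
    · by_contra hne
      have h3 := htwo (C := {a}) h1 h2 i1 i2 d1 d2 (by
        intro v hv
        have hv' := hsub hv
        rw [mem_inter, e'] at hv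
        rw [mem_insert, mem_singleton] at hv'
        rw [mem_singleton]
        rcases hv' with h | rfl
        · exact h
        · exfalso
          have := hv.2
          rw [mem_insert, mem_insert, mem_singleton] at this
          rcases this with h' | h' | h'
          · exact (hRH v hb').2.2 h'
          · exact ba h'
          · exact hne h')
      rw [Finset.sum_singleton] at h3
      have h4 := hP2 ha
      omega
  obtain ⟨hqq, hrr⟩ := uniq hJ1 hJ2 j1 j2 c1 c2 hq hr hq' hr' e1 e2'
  subst hqq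
  subst hrr
  have U1 : ∀ J ⊆ W, G.IsIndepSet (J : Set V) → J.card = 3 → x' ∉ J → J = {x, q, r} := by
    intro J hJ ji jc jn
    obtain ⟨a, ha, b, hb', e⟩ := sh1 hJ ji jc jn
    obtain ⟨h1, h2⟩ := uniq hJ hJ2 ji j2 jc c2 ha hb' hq' hr' e e2'
    rw [e, h1, h2]
  have U2 : ∀ J ⊆ W, G.IsIndepSet (J : Set V) → J.card = 3 → x ∉ J → J = {x', q, r} := by
    intro J hJ ji jc jn
    obtain ⟨a, ha, b, hb', e⟩ := sh2 hJ ji jc jn
    obtain ⟨h1, h2⟩ := uniq hJ1 hJ j1 ji c1 jc hq hr ha hb' e1 e
    rw [e, h1, h2]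
  have hqr : 4 + exs G k X W ≤
      (nb G (hb X P x x' \ R) q).card + (nb G (hb X P x x' \ R) r).card := by
    have hqr' : q ≠ r := fun h => (hRH r hr).1 (h ▸ hq)
    have h3 := htwo (C := {q, r}) hJ1 hJ2 j1 j2 c1 c2 (by
      intro v hv
      rw [mem_inter, e1, e2', mem_insert, mem_insert, mem_singleton, mem_insert, mem_insert,
        mem_singleton] at hv
      rw [mem_insert, mem_singleton]
      rcases hv.1 with h | h | h
      · exfalso
        rw [h] at hv
        rcases hv.2 with h' | h' | h'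
        · exact s.B.hne h'
        · exact (hxP q hq).1 h'.symm
        · exact (hRH r hr).2.1 h'.symm
      · exact Or.inl h
      · exact Or.inr h)
    rwa [Finset.sum_pair hqr'] at h3
  -- a triple with `x, x'`
  have T : ∀ v ∈ W, (v = q ∨ v = r) → ∃ J ⊆ W, G.IsIndepSet (J : Set V) ∧ J.card = 3 ∧ v ∉ J ∧
      x ∈ J ∧ x' ∈ J := by
    intro v hv hvv
    obtain ⟨J, hJ, ji, jc, jn⟩ := htri hv
    refine ⟨J, hJ, ji, jc, jn, ?_, ?_⟩
    · by_contra hxJ
      refine jn ?_
      rw [U2 J hJ ji jc hxJ]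
      rcases hvv with h | h <;> simp [h]
    · by_contra hxJ
      refine jn ?_
      rw [U1 J hJ ji jc hxJ]
      rcases hvv with h | h <;> simp [h]
  have hqW : q ∈ W := hmem.2 (Or.inl (Or.inr (Or.inr hq)))
  have hrW : r ∈ W := hmem.2 (Or.inr hr)
  obtain ⟨J3, hJ3, j3, c3, hn3, hx3, hx3'⟩ := T q hqW (Or.inl rfl)
  obtain ⟨J4, hJ4, j4, c4, hn4, hx4, hx4'⟩ := T r hrW (Or.inr rfl)
  have sm : ∀ {J : Finset V}, J ⊆ W → G.IsIndepSet (J : Set V) → J.card = 3 → x ∈ J → x' ∈ J →
      q ∉ J → r ∉ J → False := by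
    intro J hJ ji jc hxJ hxJ' hqJ hrJ
    have g1 := htwo (C := {x}) hJ hJ1 ji j1 jc c1 (by
      intro v hv
      rw [mem_inter, e1, mem_insert, mem_insert, mem_singleton] at hv
      rw [mem_singleton]
      rcases hv.2 with h | h | h
      · exact h
      · exact absurd (h ▸ hv.1) hqJ
      · exact absurd (h ▸ hv.1) hrJ)
    have g2 := htwo (C := {x'}) hJ hJ2 ji j2 jc c2 (by
      intro v hv
      rw [mem_inter, e2', mem_insert, mem_insert, mem_singleton] at hv
      rw [mem_singleton]
      rcases hv.2 with h | h | h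
      · exact h
      · exact absurd (h ▸ hv.1) hqJ
      · exact absurd (h ▸ hv.1) hrJ)
    rw [Finset.sum_singleton] at g1 g2
    rw [hWd] at U1 U2 hqr
    exact s.main hq hr U1 U2 (by rw [← e1]; exact j1) (by rw [← e2']; exact j2)
      (by omega) (by omega) hqr
  by_cases hr3 : r ∈ J3
  · by_cases hq4 : q ∈ J4
    · -- an independent set of four vertices
      have hxx : ¬ G.Adj x x' := fun e =>
        j3 (by exact_mod_cast hx3) (by exact_mod_cast hx3') s.B.hne e
      have hI : G.IsIndepSet (({x', x, q, r} : Finset V) : Set V) := by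
        rw [e1] at j1
        rw [e2'] at j2
        refine indep_insert j1 ?_
        intro v hv
        rw [mem_insert, mem_insert, mem_singleton] at hv
        rcases hv with h | h | h
        · rw [h]
          exact fun e => hxx e.symm
        · rw [h]
          exact fun e => j2 (by simp) (by simp) (Ne.symm (hxP q hq).2) e
        · rw [h]
          exact fun e => j2 (by simp) (by simp) (Ne.symm (hRH r hr).2.2) e
      have hIc : ({x', x, q, r} : Finset V).card = 4 := by
        rw [Finset.card_insert_of_notMem (by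
          rw [← e1]
          exact hn1), ← e1, c1]
      have hIW : ({x', x, q, r} : Finset V) ⊆ W := by
        rw [← e1]
        exact Finset.insert_subset (hmem.2 (Or.inl (Or.inr (Or.inl rfl)))) hJ1
      have hWX : W ⊆ X := by rw [hWd]; exact s.WX
      have hWc : W.card = 2 * k := by rw [hWd]; exact s.Wc
      obtain ⟨S, hS⟩ : ∃ S, S = W ∪ ({x', x, q, r} : Finset V).biUnion
          (fun z => nb G (hb X P x x' \ R) z) := ⟨_, rfl⟩
      have hH2 : hb X P x x' \ R = X \ W := by rw [hWd, s.XW]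
      have hSX : S ⊆ X := by
        rw [hS]
        refine Finset.union_subset hWX ?_
        intro v hv
        obtain ⟨z, _, hz⟩ := mem_biUnion.1 hv
        have := (mem_nb.1 hz).1
        rw [hH2] at this
        exact (mem_sdiff.1 this).1
      have a1 := al_closed (G := G) (Y := X) (S := S) (J := {x', x, q, r}) (hIW.trans hWX)
        (by rw [hS]; exact hIW.trans Finset.subset_union_left) hI (by
          intro z hz w hw hzw
          rw [hS, mem_union]
          by_cases h : w ∈ W
          · exact Or.inl h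
          · refine Or.inr (mem_biUnion.2 ⟨z, hz, mem_nb.2 ⟨?_, hzw⟩⟩)
            rw [hH2]
            exact mem_sdiff.2 ⟨hw, h⟩)
      rw [hIc] at a1
      have hWS : W ⊆ S := by rw [hS]; exact Finset.subset_union_left
      have a2 := s.M.exbd hSX ⟨q, hWS hqW⟩ a1
      have a3 : S.card ≤ 2 * k + ∑ z ∈ ({x', x, q, r} : Finset V),
          (nb G (hb X P x x' \ R) z).card := by
        rw [hS]
        have b1 := Finset.card_union_le W (({x', x, q, r} : Finset V).biUnion
          (fun z => nb G (hb X P x x' \ R) z))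
        have b2 := Finset.card_biUnion_le (s := ({x', x, q, r} : Finset V))
          (t := fun z => nb G (hb X P x x' \ R) z)
        omega
      have a4 : ∑ z ∈ ({x', x, q, r} : Finset V), (nb G (hb X P x x' \ R) z).card ≤
          ∑ z ∈ W, (nb G (hb X P x x' \ R) z).card := Finset.sum_le_sum_of_subset hIW
      have a5 := s.budW
      rw [← hWd] at a5
      have a6 : S.card + 6 ≤ 4 * k := by omega
      have a7 : (S.card : ℤ) + 6 ≤ 4 * k := by exact_mod_cast a6
      have i1 := Int.natCast_nonneg (exs G k X S)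
      have i2 := Int.natCast_nonneg (bd G X S)
      have hk := s.M.hk
      have hk' : (4 : ℤ) ≤ k := by exact_mod_cast hk
      push_cast at a2
      nlinarith
    · -- `J4` avoids both
      exact sm hJ4 j4 c4 hx4 hx4' hq4 hn4
  · exact sm hJ3 j3 c3 hx3 hx3' hn3 hr3

end SX

/-- every transversal of `H` has at least `k` elements -/
theorem Base.tauk {k : ℕ} {X P : Finset V} {c x x' : V} (B : Base G k X P c x x')
    (M : MC G k X) : TauGe G (hb X P x x') k := by
  have hk := M.hk
  rcases Nat.lt_or_ge k 6 with h6 | h6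
  · intro R hR ht
    by_contra hcon
    have h0 := B.taum M R hR ht
    obtain ⟨h1, h2, h3, h4⟩ := B.dropR M hR ht
    have hXc := M.card_ge
    obtain ⟨W, hW⟩ : ∃ W, W = insert x (insert x' P) ∪ R := ⟨_, rfl⟩
    rw [← hW] at h1 h2 h3
    have hWc : W.card = 2 * k := by omega
    have hWn : W.Nonempty := by rw [← Finset.card_pos]; omega
    have hYn : (X \ W).Nonempty := by
      rw [← Finset.card_pos, Finset.card_sdiff_of_subset h1]
      omega
    have hne : X \ W ≠ X := by
      intro e
      obtain ⟨w, hw⟩ := hWn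
      have h5 := h1 hw
      rw [← e] at h5
      exact (mem_sdiff.1 h5).2 hw
    have h5 := M.two_k h1 hWc h3
    have hp := ps_sdiff (G := G) k h1
    have h6' := sum_deg' (G := G) h1
    have h7 := sum_ge (G := G) (Y := X) (S := W) k (fun v hv => M.deg_ge v (h1 hv))
    have h8 := M.ps_le
    rw [hWc] at hp h7
    have g7 : ((∑ v ∈ W, (nb G X v).card : ℕ) : ℤ) = k * (2 * k) + exs G k X W := by
      exact_mod_cast h7
    have g6 : ((∑ v ∈ W, (nb G X v).card : ℕ) : ℤ) = e2 G W + bd G X W := by
      exact_mod_cast h6'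
    have g3 : (2 : ℤ) ≤ (al G X : ℤ) - al G (X \ W) := by
      have : (al G (X \ W) : ℤ) + 2 ≤ al G X := by exact_mod_cast h3
      linarith
    have hk0 := kappa_nonneg hk
    have g3' := mul_le_mul_of_nonneg_left g3 hk0
    have i1 := Int.natCast_nonneg (exs G k X W)
    push_cast at hp
    have hps : ps G k (X \ W) + bd G X W + 6 ≤ 2 * k := by nlinarith
    have hb0 := Int.natCast_nonneg (bd G X W)
    have ht1 := M.bd_ge h1 hWn hYn (M.tau1 Finset.sdiff_subset hne (by linarith))
    have h9 : k = 5 := by omega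
    subst h9
    have hb4 : (4 : ℤ) ≤ bd G X W := by exact_mod_cast (by omega : 4 ≤ bd G X W)
    push_cast at hps
    have ht0 := M.bd_ge h1 hWn hYn (M.tau0 Finset.sdiff_subset hne (by linarith))
    omega
  · by_contra h
    obtain ⟨R, m, s⟩ := B.exists_sx M h6 h
    exact s.false

theorem Base.ps4 {k : ℕ} {X P : Finset V} {c x x' : V} (B : Base G k X P c x x')
    (M : MC G k X) : ps G k (hb X P x x') ≤ 4 := by
  rcases B.picks M with ⟨u, hu, u', hu', huu, h1, h2⟩ | ⟨b, hb', h1, h2, h3, -⟩
  · have h3 := B.bud M (B.tauk M) hu hu' huu h1 h2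
    have i4 := Int.natCast_nonneg (exs G k X ((P.erase u).erase u'))
    linarith
  · have h4 := B.three M hb' h1 h2 h3
    linarith

/-- the consequences for a base -/
theorem Base.bp {k : ℕ} {X P : Finset V} {c x x' : V} (B : Base G k X P c x x')
    (M : MC G k X) : BP G k X P x x' :=
  ⟨B.alH M, B.tauk M, B.ps0 M, B.ps4 M, B.ntx M, B.ntx' M, B.bst M⟩

end Pool.Agent.TwoDens.TS
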