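import Pool.Agent.TKS.XE

/-!
Case II with one vertex missing: the contradiction.
-/

open Finset

namespace Pool.Agent.TwoDens.TS

open Pool.Agent.TwoDens Pool.Agent.TwoDens.RK Pool.Agent.TwoDens.DD

variable {V : Type*} [DecidableEq V] {G : SimpleGraph V} [DecidableRel G.Adj]

/-- closed neighbourhoods with at most `k - 1` elements are isolated cliques -/
theorem MC.isol {k : ℕ} {X : Finset V} (H : MC G k X) {Y : Finset V} (hY : Y ⊆ X) (hne : Y ≠ X)
    (hps : ps G k Y ≤ 2) {w : V} (hw : w ∈ Y) (hd : (nb G Y w).card + 2 ≤ k) :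
    Clq G (cl G Y w) ∧ (cl G Y w).card + 1 = k ∧
      ∀ u ∈ cl G Y w, ∀ y ∈ Y, G.Adj u y → y ∈ cl G Y w := by
  have hk := H.hk
  have hk' : (4 : ℤ) ≤ k := by exact_mod_cast hk
  have hc := card_cl (G := G) (X := Y) (v := w)
  have htr : Tr G Y (cl G Y w) := tr_cl hw
  have h1 := H.tau1 hY hne (by linarith) _ (cl_sub hw) htr
  have h0 : (cl G Y w).card + 1 = k := by omega
  obtain ⟨h2, h3⟩ := H.tr34 hY hne (by linarith) (cl_sub hw) h0 htr
  refine ⟨h2, h0, ?_⟩
  intro u hu y hy huy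
  by_contra hcon
  have h4 : bd G Y (cl G Y w) = 0 := by
    have : (bd G Y (cl G Y w) : ℤ) ≤ 0 := by linarith
    omega
  unfold bd at h4
  have h5 := (Finset.sum_eq_zero_iff.1 h4) u hu
  rw [Finset.card_eq_zero] at h5
  have h6 : y ∈ nb G Y u \ cl G Y w := mem_sdiff.2 ⟨mem_nb.2 ⟨hy, huy⟩, hcon⟩
  rw [h5] at h6
  exact Finset.notMem_empty _ h6

/-- the exchange with four vertices -/
theorem MC.four {k : ℕ} {X : Finset V} (H : MC G k X) {Y S J : Finset V} (hY : Y ⊆ X)
    (hne : Y ≠ X) (hps : ps G k Y ≤ 2) (hal : al G Y + 2 = al G X) (hS : S ⊆ Y)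
    (hSc : S.card ≤ k + 1) (hJ : J ⊆ X) (hi : G.IsIndepSet (J : Set V)) (hJc : J.card = 4)
    (hd : Disjoint J (Y \ S)) (hn : ∀ x ∈ J, ∀ y ∈ Y \ S, ¬ G.Adj x y) : False := by
  have hk := H.hk
  have hk' : (4 : ℤ) ≤ k := by exact_mod_cast hk
  obtain ⟨I, hI, hIi, hc⟩ := exists_al (G := G) (Y \ S)
  have h1 := le_al (G := G) (X := X) (I := J ∪ I)
    (Finset.union_subset hJ ((hI.trans Finset.sdiff_subset).trans hY))
    (indep_union hi hIi (fun x hx y hy => hn x hx y (hI hy)))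
  rw [Finset.card_union_of_disjoint (hd.mono_right hI)] at h1
  have h5 := H.drop hY hne hS (j := 2) (by omega)
  have h6 : (S.card : ℤ) ≤ k + 1 := by exact_mod_cast hSc
  have h8 : (0 : ℤ) ≤ 4 * (k : ℤ) - 2 := by linarith
  have h9 := mul_le_mul_of_nonneg_left h6 h8
  push_cast at h5
  nlinarith

/-- the step with a vertex `ρ` of the clique `R1` outside `Y` -/
theorem MC.core {k : ℕ} {X : Finset V} (H : MC G k X) {Y : Finset V} (hY : Y ⊆ X) (hne : Y ≠ X)
    (hps : ps G k Y ≤ 2) (hal : al G Y + 2 = al G X) {R1 : Finset V} {a b r1 ρ w : V}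
    (ha : a ∈ X) (hb : b ∈ X) (haY : a ∉ Y) (hbY : b ∉ Y) (hab : a ≠ b) (nab : ¬ G.Adj a b)
    (hq : Clq G R1) (hR1c : R1.card + 1 = k) (hρ : ρ ∈ R1) (hρY : ρ ∉ Y)
    (hR1Y : ∀ u ∈ R1, u ≠ ρ → u ∈ Y) (hr1 : r1 ∉ R1) (hq2 : 2 ≤ (nb Gᶜ R1 r1).card)
    (hw : w ∈ R1) (hwρ : w ≠ ρ) (hwd : (nb G Y w).card + 2 ≤ k)
    (hT : ∀ y ∈ Y, (G.Adj a y ∨ G.Adj b y) → y = r1 ∨ y ∈ R1) :
    ∃ s ∈ Y, ¬ G.Adj a s ∧ ¬ G.Adj b s ∧ ∀ z ∈ X, z ∉ Y → z ≠ a → z ≠ b → ¬ G.Adj a z →
      ¬ G.Adj b z → ¬ G.Adj s z → (nb G Y z).card ≤ 1 → False := by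
  have hk := H.hk
  obtain ⟨c1, c2, c3⟩ := H.isol hY hne hps (hR1Y w hw hwρ) hwd
  obtain ⟨C, hC⟩ : ∃ C, C = cl G Y w := ⟨_, rfl⟩
  rw [← hC] at c1 c2 c3
  have hCY : C ⊆ Y := by rw [hC]; exact cl_sub (hR1Y w hw hwρ)
  have hRC : R1.erase ρ ⊆ C := by
    intro u hu
    rw [mem_erase] at hu
    rw [hC]
    unfold cl
    rw [mem_insert]
    by_cases e : u = w
    · exact Or.inl e
    · exact Or.inr (mem_nb.2 ⟨hR1Y u hu.2 hu.1, hq w hw u hu.2 (Ne.symm e)⟩)
  obtain ⟨s, hs, hsR⟩ : ∃ s ∈ C, s ∉ R1.erase ρ := by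
    by_contra hcon
    push Not at hcon
    have h1 := Finset.card_le_card (show C ⊆ R1.erase ρ from hcon)
    rw [Finset.card_erase_of_mem hρ] at h1
    have : 1 ≤ R1.card := Finset.card_pos.2 ⟨w, hw⟩
    omega
  have hsY := hCY hs
  have hsρ : s ≠ ρ := fun e => hρY (e ▸ hsY)
  have hsr : s ≠ r1 := by
    intro e
    have h1 : (nb Gᶜ R1 r1).card ≤ 1 := by
      refine nbc_one (s := ρ) ?_
      intro u hu huρ
      rw [← e]
      refine c1 s hs u (hRC (mem_erase.2 ⟨huρ, hu⟩)) ?_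
      intro e'
      exact hr1 (e ▸ e' ▸ hu)
    omega
  have hsn : ¬ (s = r1 ∨ s ∈ R1) := by
    rintro (e | e)
    · exact hsr e
    · exact hsR (mem_erase.2 ⟨hsρ, e⟩)
  have has : ¬ G.Adj a s := fun e => hsn (hT s hsY (Or.inl e))
  have hbs : ¬ G.Adj b s := fun e => hsn (hT s hsY (Or.inr e))
  refine ⟨s, hsY, has, hbs, ?_⟩
  intro z hzX hzY hza hzb haz hbz hsz hz1
  have hsa : s ≠ a := fun e => haY (e ▸ hsY)
  have hsb : s ≠ b := fun e => hbY (e ▸ hsY)
  have hszne : s ≠ z := fun e => hzY (e ▸ hsY)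
  refine H.four hY hne hps hal (S := (insert r1 (C ∪ nb G Y z)) ∩ Y) (J := {a, b, s, z})
    Finset.inter_subset_right ?_ ?_ ?_ ?_ ?_ ?_
  · have h1 : ((insert r1 (C ∪ nb G Y z)) ∩ Y).card ≤ (insert r1 (C ∪ nb G Y z)).card :=
      Finset.card_le_card Finset.inter_subset_left
    have h2 := Finset.card_insert_le r1 (C ∪ nb G Y z)
    have h3 := Finset.card_union_le C (nb G Y z)
    omega
  · intro v hv
    rw [mem_insert, mem_insert, mem_insert, mem_singleton] at hv
    rcases hv with rfl | rfl | rfl | rfl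
    · exact ha
    · exact hb
    · exact hY hsY
    · exact hzX
  · refine indep_insert (indep_triple hbs hbz hsz) ?_
    intro x hx
    rw [mem_insert, mem_insert, mem_singleton] at hx
    rcases hx with rfl | rfl | rfl
    · exact nab
    · exact has
    · exact haz
  · rw [Finset.card_insert_of_notMem (by simp [hab, hsa.symm, hza.symm]),
      Finset.card_insert_of_notMem (by simp [hsb.symm, hzb.symm]), Finset.card_pair hszne]
  · rw [Finset.disjoint_left]
    intro v hv hv'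
    rw [mem_sdiff, mem_inter] at hv'
    rw [mem_insert, mem_insert, mem_insert, mem_singleton] at hv
    rcases hv with rfl | rfl | rfl | rfl
    · exact haY hv'.1
    · exact hbY hv'.1
    · exact hv'.2 ⟨mem_insert_of_mem (mem_union_left _ hs), hv'.1⟩
    · exact hzY hv'.1
  · intro x hx y hy hxy
    rw [mem_sdiff, mem_inter, mem_insert, mem_union] at hy
    have hyab : (G.Adj a y ∨ G.Adj b y) → False := by
      intro h1
      rcases hT y hy.1 h1 with e | e
      · exact hy.2 ⟨Or.inl e, hy.1⟩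
      · have h2 : y ≠ ρ := fun e' => hρY (e' ▸ hy.1)
        exact hy.2 ⟨Or.inr (Or.inl (hRC (mem_erase.2 ⟨h2, e⟩))), hy.1⟩
    rw [mem_insert, mem_insert, mem_insert, mem_singleton] at hx
    rcases hx with rfl | rfl | rfl | rfl
    · exact hyab (Or.inl hxy)
    · exact hyab (Or.inr hxy)
    · exact hy.2 ⟨Or.inr (Or.inl (c3 _ hs y hy.1 hxy)), hy.1⟩
    · exact hy.2 ⟨Or.inr (Or.inr (mem_nb.2 ⟨hy.1, hxy⟩)), hy.1⟩

namespace XC
variable {k : ℕ} {X B R : Finset V} {a b p t rp rt : V} (h : XC G k X B a b p t R rp rt)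
include h

/-- a clique `R1 ⊆ H_p` with `k - 1` vertices, not containing `t`, which meets `R`, contains `R` -/
theorem meet {R1 : Finset V} (hR1 : R1 ⊆ (X \ B).erase p) (hc : R1.card + 1 = k)
    (hq : Clq G R1) (htR1 : t ∉ R1) {w : V} (hw : w ∈ R1) (hwR : w ∈ R) : R ⊆ R1 := by
  have h1 := h.xp.dR w (mem_insert_of_mem hwR)
  have hwt : G.Adj t w := (mem_nb.1 (by rw [h.xt.hN]; exact mem_insert_of_mem hwR :
      w ∈ nb G (X \ B) t)).2
  have hsub : insert t (R1.erase w) ⊆ nb G ((X \ B).erase p) w := by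
    intro v hv
    rw [mem_insert, mem_erase] at hv
    rw [mem_nb]
    rcases hv with rfl | hv
    · exact ⟨mem_erase.2 ⟨h.hpt.symm, h.tQ⟩, hwt.symm⟩
    · exact ⟨hR1 hv.2, hq w hw v hv.2 (Ne.symm hv.1)⟩
  have heq : insert t (R1.erase w) = nb G ((X \ B).erase p) w := by
    refine Finset.eq_of_subset_of_card_le hsub ?_
    rw [Finset.card_insert_of_notMem (fun e => htR1 (mem_erase.1 e).2),
      Finset.card_erase_of_mem hw]
    have : 1 ≤ R1.card := Finset.card_pos.2 ⟨w, hw⟩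
    omega
  intro v hv
  by_cases hvw : v = w
  · rw [hvw]; exact hw
  · have h2 : v ∈ nb G ((X \ B).erase p) w := by
      refine mem_nb.2 ⟨?_, h.hRq w hwR v hv (Ne.symm hvw)⟩
      rw [mem_erase]
      exact ⟨fun e => h.pR (e ▸ hv), h.hR hv⟩
    rw [← heq, mem_insert, mem_erase] at h2
    rcases h2 with h2 | h2
    · exact absurd (h2 ▸ hv) h.tR
    · exact h2.2

/-- the transversal `N' ∖ p` if `a` is adjacent to `p` -/
theorem starN (h7 : 7 ≤ k) (h1 : G.Adj a p) :
    ∃ r1, StarT G k ((X \ B).erase p) ((nb G (X \ B) a ∪ nb G (X \ B) b).erase p) r1 := by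
  have hm : p ∈ nb G (X \ B) a ∪ nb G (X \ B) b := mem_union_left _ (mem_nb.2 ⟨h.pQ, h1⟩)
  refine h.mc.star8 h.hpX h.hpne (by rw [h.xp.hps]; norm_num) h.tau ?_ ?_ h.trab (by omega)
  · exact Finset.erase_subset_erase _ (Finset.union_subset (nb_sub _ _) (nb_sub _ _))
  · rw [Finset.card_erase_of_mem hm, h.cardN]
    omega

theorem x1 (h7 : 7 ≤ k) (h1 : G.Adj a p) (h2 : G.Adj a t ∨ G.Adj b t) : False := by
  have hk := h.mc.hk
  obtain ⟨T1, hT1⟩ : ∃ T, T = (nb G (X \ B) a ∪ nb G (X \ B) b).erase p := ⟨_, rfl⟩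
  obtain ⟨r1, hS⟩ := h.starN h7 h1
  rw [← hT1] at hS
  have htr := h.trab
  rw [← hT1] at htr
  have htT : t ∈ T1 := by
    rw [hT1, mem_erase, mem_union]
    refine ⟨h.hpt.symm, ?_⟩
    rcases h2 with h2 | h2
    · exact Or.inl (mem_nb.2 ⟨h.tQ, h2⟩)
    · exact Or.inr (mem_nb.2 ⟨h.tQ, h2⟩)
  have hsubN : ∀ w ∈ T1, w ∈ nb G (X \ B) a ∪ nb G (X \ B) b := by
    intro w hw
    rw [hT1, mem_erase] at hw
    exact hw.2
  have hTc := hS.hc
  by_cases e : t = r1
  · -- the centre is `t`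
    rw [← e] at hS
    obtain ⟨R1, hR1⟩ : ∃ R, R = T1.erase t := ⟨_, rfl⟩
    have hq := hS.clq
    rw [← hR1] at hq
    have hR1sub : R1 ⊆ (X \ B).erase p := by
      rw [hR1]
      exact (Finset.erase_subset _ _).trans hS.hT
    have hR1c : R1.card + 1 = k := by
      rw [hR1, Finset.card_erase_add_one htT, hTc]
    have htR1 : t ∉ R1 := by rw [hR1]; exact Finset.notMem_erase _ _
    have hno : ∀ w ∈ R1, w ∉ R := by
      intro w hw hwR
      have h3 := h.meet hR1sub hR1c hq htR1 hw hwR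
      refine h.xs h1 h2 ?_
      intro v hv
      have h4 := h3 hv
      rw [hR1, mem_erase] at h4
      exact hsubN v h4.2
    obtain ⟨w, hw⟩ : R.Nonempty := Finset.card_pos.1 (by have := h.hRc; omega)
    have hT1i : insert t R1 = T1 := by rw [hR1, Finset.insert_erase htT]
    have hpQ := mem_sdiff.1 h.pQ
    refine h.mc.lemW h.hpX h.hpne (by rw [h.xp.hps]; norm_num) h.tau (R := R1)
      (R' := insert t R) (r := t) (w := w) (z := p) hR1sub hR1c (hS.hT htT) htR1
      (by rw [hT1i]; exact htr) ?_ ?_ ?_ (mem_insert_self _ _) ?_ (mem_insert_of_mem hw)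
      (fun e' => h.tR (e' ▸ hw)) (h.xp.dR w (mem_insert_of_mem hw)) hpQ.1
      (Finset.notMem_erase _ _) ?_
    · intro v hv
      rw [mem_insert] at hv
      rw [mem_erase]
      rcases hv with rfl | hv
      · exact ⟨h.hpt.symm, h.tQ⟩
      · exact ⟨fun e' => h.pR (e' ▸ hv), h.hR hv⟩
    · rw [Finset.card_insert_of_notMem h.tR]
      have := h.hRc
      omega
    · intro x hx y hy hxy
      have ht : ∀ v ∈ R, G.Adj t v := fun v hv =>
        (mem_nb.1 (by rw [h.xt.hN]; exact mem_insert_of_mem hv : v ∈ nb G (X \ B) t)).2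
      rw [mem_insert] at hx hy
      rcases hx with rfl | hx <;> rcases hy with rfl | hy
      · exact absurd rfl hxy
      · exact ht y hy
      · exact (ht x hx).symm
      · exact h.hRq x hx y hy hxy
    · rw [Finset.disjoint_left]
      intro v hv hv'
      rw [mem_insert] at hv'
      rcases hv' with rfl | hv'
      · exact htR1 hv
      · exact hno v hv hv'
    · rw [Finset.erase_insert h.tR]
      have h3 : R ⊆ nb G R p := by
        intro v hv
        exact mem_nb.2 ⟨hv, (mem_nb.1 (by rw [h.xp.hN]; exact mem_insert_of_mem hv :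
          v ∈ nb G (X \ B) p)).2⟩
      have h4 := Finset.card_le_card h3
      have := h.hRc
      omega
  · -- the centre is another vertex
    obtain ⟨S, hSd⟩ : ∃ S, S = (T1.erase r1).erase t := ⟨_, rfl⟩
    have htS : t ∈ T1.erase r1 := mem_erase.2 ⟨e, htT⟩
    have hSc : S.card + 2 = k := by
      have h3 : S.card + 1 = (T1.erase r1).card := by
        rw [hSd]; exact Finset.card_erase_add_one htS
      have h4 : (T1.erase r1).card + 1 = T1.card := Finset.card_erase_add_one hS.hr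
      omega
    have hSN : ∀ w ∈ S, w ∈ insert rt R := by
      intro w hw
      rw [hSd, mem_erase] at hw
      rw [← h.xt.hN]
      refine mem_nb.2 ⟨?_, hS.clq t htS w hw.2 (Ne.symm hw.1)⟩
      have h3 := hS.hT (mem_erase.1 hw.2).2
      exact (mem_erase.1 h3).2
    have hrtS : rt ∉ S := by
      intro hrt
      have h3 : S.erase rt ⊆ nb G R rt := by
        intro w hw
        rw [mem_erase] at hw
        have h4 := hSN w hw.2
        rw [mem_insert] at h4
        refine mem_nb.2 ⟨h4.resolve_left hw.1, ?_⟩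
        have h5 := hw.2
        rw [hSd, mem_erase] at h5 hrt
        exact hS.clq rt hrt.2 w h5.2 (Ne.symm hw.1)
      have h4 := Finset.card_le_card h3
      rw [Finset.card_erase_of_mem hrt] at h4
      have h5 := nbc_card' (G := G) h.xt.hr
      have h6 := h.xt.ms
      have h7 := h.hRc
      omega
    have hSR : S = R := by
      refine Finset.eq_of_subset_of_card_le ?_ (by have := h.hRc; omega)
      intro w hw
      have h4 := hSN w hw
      rw [mem_insert] at h4
      exact h4.resolve_left (fun e' => hrtS (e' ▸ hw))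
    refine h.xs h1 h2 ?_
    intro v hv
    rw [← hSR, hSd, mem_erase, mem_erase] at hv
    exact hsubN v hv.2.2

theorem x2 (h7 : 7 ≤ k) (h1 : G.Adj a p) (h2 : ¬ G.Adj a t) (h3 : ¬ G.Adj b t) : False := by
  have hk := h.mc.hk
  have hk' : (4 : ℤ) ≤ k := by exact_mod_cast hk
  have hpQ := mem_sdiff.1 h.pQ
  have htQ := mem_sdiff.1 h.tQ
  have haX := h.hB h.ha
  have hbX := h.hB h.hb
  have hap : a ≠ p := fun e => hpQ.2 (e ▸ h.ha)
  have hat : a ≠ t := fun e => htQ.2 (e ▸ h.ha)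
  have hbp : b ≠ p := fun e => hpQ.2 (e ▸ h.hb)
  have hbt : b ≠ t := fun e => htQ.2 (e ▸ h.hb)
  have hnbp : ¬ G.Adj b p := fun e => (Finset.disjoint_left.1 h.hdis)
    (mem_nb.2 ⟨h.pQ, h1⟩) (mem_nb.2 ⟨h.pQ, e⟩)
  obtain ⟨Y2, hY2⟩ : ∃ Y, Y = ((X \ B).erase p) \ insert t (insert rp R) := ⟨_, rfl⟩
  have hY2X : Y2 ⊆ X := by rw [hY2]; exact h.y2X
  have hY2ne : Y2 ≠ X := by rw [hY2]; exact h.y2ne
  have hps2 := (h.y2 h7).2
  have hal2 := (h.y2 h7).1
  rw [← hY2] at hps2 hal2
  have hmem : ∀ {w : V}, w ∈ Y2 ↔ w ∈ X \ B ∧ w ≠ p ∧ w ≠ t ∧ w ≠ rp ∧ w ∉ R := by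
    intro w
    rw [hY2]
    exact h.mem_y2
  have htau2 := h.mc.tau1 hY2X hY2ne (by linarith)
  -- neighbours of `p` and `t` in `Y2`
  have hpY : ∀ y ∈ Y2, ¬ G.Adj p y := by
    intro y hy hpy
    have h8 := hmem.1 hy
    have h9 : y ∈ nb G (X \ B) p := mem_nb.2 ⟨h8.1, hpy⟩
    rw [h.xp.hN, mem_insert] at h9
    rcases h9 with h9 | h9
    · exact h8.2.2.2.1 h9
    · exact h8.2.2.2.2 h9
  have htY : ∀ y ∈ Y2, G.Adj t y → y = rt := by
    intro y hy hpy
    have h8 := hmem.1 hy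
    have h9 : y ∈ nb G (X \ B) t := mem_nb.2 ⟨h8.1, hpy⟩
    rw [h.xt.hN, mem_insert] at h9
    rcases h9 with h9 | h9
    · exact h9
    · exact absurd h9 h8.2.2.2.2
  -- (i)
  have hi : (nb G Y2 a ∪ nb G Y2 b).card + 2 ≥ k := by
    have htr : Tr G Y2 (insert rt (nb G Y2 a ∪ nb G Y2 b)) := by
      refine tr_nbr (X := X) (J := {a, b, t}) hY2X ?_ ?_ (indep_triple h.nab h2 h3) ?_ ?_
      · intro z hz
        rw [mem_insert, mem_insert, mem_singleton] at hz
        rcases hz with rfl | rfl | rfl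
        · exact haX
        · exact hbX
        · exact htQ.1
      · rw [Finset.disjoint_left]
        intro z hz hz'
        have h6 := hmem.1 hz'
        rw [mem_sdiff] at h6
        rw [mem_insert, mem_insert, mem_singleton] at hz
        rcases hz with rfl | rfl | rfl
        · exact h6.1.2 h.ha
        · exact h6.1.2 h.hb
        · exact h6.2.2.1 rfl
      · rw [Finset.card_insert_of_notMem (by simp [h.hab, hat]), Finset.card_pair hbt]
        omega
      · intro z hz w hw hzw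
        rw [mem_insert, mem_insert, mem_singleton] at hz
        rw [mem_insert, mem_union]
        rcases hz with rfl | rfl | rfl
        · exact Or.inr (Or.inl (mem_nb.2 ⟨hw, hzw⟩))
        · exact Or.inr (Or.inr (mem_nb.2 ⟨hw, hzw⟩))
        · exact Or.inl (htY w hw hzw)
    have htr' := tr_mono htr (Finset.Subset.refl _)
    have h6 := htau2 _ Finset.inter_subset_right htr'
    have h7 : (insert rt (nb G Y2 a ∪ nb G Y2 b) ∩ Y2).card ≤
        (insert rt (nb G Y2 a ∪ nb G Y2 b)).card := Finset.card_le_card Finset.inter_subset_left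
    have h8 := Finset.card_insert_le rt (nb G Y2 a ∪ nb G Y2 b)
    omega
  -- (ii)
  have hii : k ≤ (nb G Y2 b).card + 2 := by
    have htr : Tr G Y2 (insert rt (nb G Y2 b)) := by
      refine tr_nbr (X := X) (J := {b, p, t}) hY2X ?_ ?_ (indep_triple hnbp h3 h.npt) ?_ ?_
      · intro z hz
        rw [mem_insert, mem_insert, mem_singleton] at hz
        rcases hz with rfl | rfl | rfl
        · exact hbX
        · exact hpQ.1
        · exact htQ.1
      · rw [Finset.disjoint_left]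
        intro z hz hz'
        have h6 := hmem.1 hz'
        rw [mem_sdiff] at h6
        rw [mem_insert, mem_insert, mem_singleton] at hz
        rcases hz with rfl | rfl | rfl
        · exact h6.1.2 h.hb
        · exact h6.2.1 rfl
        · exact h6.2.2.1 rfl
      · rw [Finset.card_insert_of_notMem (by simp [hbp, hbt]), Finset.card_pair h.hpt]
        omega
      · intro z hz w hw hzw
        rw [mem_insert, mem_insert, mem_singleton] at hz
        rw [mem_insert]
        rcases hz with rfl | rfl | rfl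
        · exact Or.inr (mem_nb.2 ⟨hw, hzw⟩)
        · exact absurd hzw (hpY w hw)
        · exact Or.inl (htY w hw hzw)
    have htr' := tr_mono htr (Finset.Subset.refl _)
    have h6 := htau2 _ Finset.inter_subset_right htr'
    have h7 : (insert rt (nb G Y2 b) ∩ Y2).card ≤
        (insert rt (nb G Y2 b)).card := Finset.card_le_card Finset.inter_subset_left
    have h8 := Finset.card_insert_le rt (nb G Y2 b)
    omega
  have hnbY : (nb G Y2 b).card ≤ (nb G (X \ B) b).card := by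
    refine Finset.card_le_card (nb_mono ?_ b)
    intro w hw
    exact (hmem.1 hw).1
  have hg := h.hg
  -- degrees of `a`
  have hga : 2 ≤ (nb G (X \ B) a).card := by
    have e1 := h.mc.deg_ge a haX
    have e2' : (nb G X a).card ≤ (nb G (B.erase b) a).card + (nb G (X \ B) a).card := by
      refine le_trans (Finset.card_le_card ?_) (Finset.card_union_le _ _)
      intro w hw
      have e3 := mem_nb.1 hw
      rw [mem_union, mem_nb, mem_nb, mem_erase, mem_sdiff]
      by_cases hwB : w ∈ B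
      · exact Or.inl ⟨⟨fun e => h.nab (e ▸ e3.2), hwB⟩, e3.2⟩
      · exact Or.inr ⟨⟨e3.1, hwB⟩, e3.2⟩
    have e3 : (nb G (B.erase b) a).card + 1 ≤ (B.erase b).card := by
      have := nbc_card (G := G) (mem_erase.2 ⟨h.hab, h.ha⟩ : a ∈ B.erase b)
      omega
    have e4 : (B.erase b).card + 1 = k := by rw [Finset.card_erase_add_one h.hb, h.hBc]
    omega
  -- the transversal `T1 = N' ∖ p`
  obtain ⟨T1, hT1⟩ : ∃ T, T = (nb G (X \ B) a ∪ nb G (X \ B) b).erase p := ⟨_, rfl⟩
  obtain ⟨r1, hS⟩ := h.starN h7 h1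
  rw [← hT1] at hS
  have htr1 := h.trab
  rw [← hT1] at htr1
  have hTc := hS.hc
  obtain ⟨R1, hR1⟩ : ∃ R, R = T1.erase r1 := ⟨_, rfl⟩
  have hq := hS.clq
  rw [← hR1] at hq
  have hT1Q : ∀ w ∈ T1, w ∈ (X \ B).erase p := fun w hw => hS.hT hw
  have hR1T : R1 ⊆ T1 := by rw [hR1]; exact Finset.erase_subset _ _
  have hR1sub : R1 ⊆ (X \ B).erase p := hR1T.trans hS.hT
  have hR1c : R1.card + 1 = k := by
    rw [hR1, Finset.card_erase_add_one hS.hr, hTc]
  have hT1ab : ∀ w ∈ T1, G.Adj a w ∨ G.Adj b w := by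
    intro w hw
    rw [hT1, mem_erase, mem_union] at hw
    rcases hw.2 with e | e
    · exact Or.inl (mem_nb.1 e).2
    · exact Or.inr (mem_nb.1 e).2
  have htT1 : t ∉ T1 := by
    intro e
    rcases hT1ab t e with e | e
    · exact h2 e
    · exact h3 e
  have htR1 : t ∉ R1 := fun e => htT1 (hR1T e)
  have hpR1 : p ∉ R1 := fun e => (mem_erase.1 (hR1sub e)).1 rfl
  have hr1 : r1 ∉ R1 := by rw [hR1]; exact Finset.notMem_erase _ _
  -- `R1` does not meet `R`
  have hno : ∀ w ∈ R1, w ∉ R := by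
    intro w hw hwR
    have h4 := h.meet hR1sub hR1c hq htR1 hw hwR
    -- then few elements of `N'` lie in `Y2`
    have h5 : (nb G Y2 a ∪ nb G Y2 b) ⊆ T1 \ R := by
      intro v hv
      rw [mem_union, mem_nb, mem_nb] at hv
      have h6 : v ∈ Y2 := by
        rcases hv with hv | hv
        · exact hv.1
        · exact hv.1
      have h7 := hmem.1 h6
      rw [mem_sdiff, hT1, mem_erase, mem_union]
      refine ⟨⟨h7.2.1, ?_⟩, h7.2.2.2.2⟩
      rcases hv with hv | hv
      · exact Or.inl (mem_nb.2 ⟨h7.1, hv.2⟩)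
      · exact Or.inr (mem_nb.2 ⟨h7.1, hv.2⟩)
    have h6 := Finset.card_le_card h5
    rw [Finset.card_sdiff_of_subset (h4.trans hR1T)] at h6
    have := h.hRc
    omega
  -- missing of `b` in `R1`
  have hbR1 : (nb Gᶜ R1 b).card ≤ 2 := by
    have h4 : nb Gᶜ R1 b ⊆ (nb G (X \ B) a).erase p := by
      intro w hw
      have h5 := mem_nb.1 hw
      have h6 := (SimpleGraph.compl_adj _ _ _).1 h5.2
      have h7 := hR1sub h5.1
      rw [mem_erase] at h7 ⊢
      refine ⟨h7.1, mem_nb.2 ⟨h7.2, ?_⟩⟩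
      exact (hT1ab w (hR1T h5.1)).resolve_right h6.2
    have h5 := Finset.card_le_card h4
    rw [Finset.card_erase_of_mem (mem_nb.2 ⟨h.pQ, h1⟩)] at h5
    omega
  have hr1X : r1 ∈ X := h.hpX (hS.hT hS.hr)
  have hr1b : r1 ≠ b := by
    intro e
    have h4 := hS.hT hS.hr
    rw [mem_erase, mem_sdiff] at h4
    exact h4.2.2 (e ▸ h.hb)
  have hbR1' : b ∉ R1 := by
    intro e
    have h4 := hR1sub e
    rw [mem_erase, mem_sdiff] at h4
    exact h4.2.2 h.hb
  -- the missing pairs of `R1 ∪ {r1, b}`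
  have hq2' : 2 ≤ (nb Gᶜ R1 r1).card := by
    have hrb : r1 ∉ insert b R1 := by
      rw [mem_insert]
      rintro (e | e)
      · exact hr1b e
      · exact hr1 e
    have e0 := h.mc.sl1 (F := insert r1 (insert b R1))
      (Finset.insert_subset hr1X (Finset.insert_subset hbX (hR1sub.trans h.hpX))) (by
        rw [Finset.card_insert_of_notMem hrb, Finset.card_insert_of_notMem hbR1']; omega)
    rw [e2c_insert hrb, e2c_insert hbR1', clq_e2c hq] at e0
    -- `b` misses at most two vertices of `T1`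
    have e1 : (nb Gᶜ T1 b).card ≤ 2 := by
      have h4 : nb Gᶜ T1 b ⊆ (nb G (X \ B) a).erase p := by
        intro w hw
        have h5 := mem_nb.1 hw
        have h6 := (SimpleGraph.compl_adj _ _ _).1 h5.2
        have h8 := hT1Q w h5.1
        rw [mem_erase] at h8 ⊢
        refine ⟨h8.1, mem_nb.2 ⟨h8.2, ?_⟩⟩
        exact (hT1ab w h5.1).resolve_right h6.2
      have h5 := Finset.card_le_card h4
      rw [Finset.card_erase_of_mem (mem_nb.2 ⟨h.pQ, h1⟩)] at h5
      omega
    have e2' : nb Gᶜ R1 b ⊆ nb Gᶜ T1 b := nb_mono hR1T b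
    by_cases e3 : G.Adj r1 b
    · have e4 : nb Gᶜ (insert b R1) r1 ⊆ nb Gᶜ R1 r1 := by
        intro w hw
        have h5 := mem_nb.1 hw
        have h6 := (SimpleGraph.compl_adj _ _ _).1 h5.2
        refine mem_nb.2 ⟨(mem_insert.1 h5.1).resolve_left ?_, h5.2⟩
        rintro rfl
        exact h6.2 e3
      have e5 := Finset.card_le_card e4
      have e6 := Finset.card_le_card e2'
      omega
    · have e4 : nb Gᶜ (insert b R1) r1 ⊆ insert b (nb Gᶜ R1 r1) := by
        intro w hw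
        have h5 := mem_nb.1 hw
        rw [mem_insert] at h5 ⊢
        rcases h5.1 with e | e
        · exact Or.inl e
        · exact Or.inr (mem_nb.2 ⟨e, h5.2⟩)
      have e5 := Finset.card_le_card e4
      have e6 := Finset.card_insert_le b (nb Gᶜ R1 r1)
      have e7 : insert r1 (nb Gᶜ R1 b) ⊆ nb Gᶜ T1 b := by
        refine Finset.insert_subset ?_ e2'
        exact mem_nb.2 ⟨hS.hr, (SimpleGraph.compl_adj _ _ _).2
          ⟨fun e => hr1b e.symm, fun e => e3 e.symm⟩⟩
      have e8 := Finset.card_le_card e7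
      rw [Finset.card_insert_of_notMem (fun e => hr1 (mem_nb.1 e).1)] at e8
      omega
  have hq5 : 2 ≤ (nb Gᶜ T1 r1).card := le_trans hq2' (Finset.card_le_card (nb_mono hR1T r1))
  have hd1 := h.mc.star0 h.hpX h.hpne (by rw [h.xp.hps]; norm_num) hS hq5
  rw [← hR1] at hd1
  -- a vertex `β` of `R1` adjacent to `a`
  obtain ⟨β, hβ, hβa⟩ : ∃ β ∈ R1, G.Adj a β := by
    by_contra hcon
    push Not at hcon
    have h4 : Clq G (insert b R1) := by
      have h5 : ∀ w ∈ R1, G.Adj b w := fun w hw =>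
        (hT1ab w (hR1T hw)).resolve_left (hcon w hw)
      intro x hx y hy hxy
      rw [mem_insert] at hx hy
      rcases hx with rfl | hx <;> rcases hy with rfl | hy
      · exact absurd rfl hxy
      · exact h5 y hy
      · exact (h5 x hx).symm
      · exact hq x hx y hy hxy
    have h5 := h.mc.clq_lt (Finset.insert_subset hbX (hR1sub.trans h.hpX)) h4
    rw [Finset.card_insert_of_notMem hbR1'] at h5
    omega
  have hβQ := mem_erase.1 (hR1sub hβ)
  have hβb : ¬ G.Adj b β := fun e => (Finset.disjoint_left.1 h.hdis)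
    (mem_nb.2 ⟨hβQ.2, hβa⟩) (mem_nb.2 ⟨hβQ.2, e⟩)
  have hβR := hno β hβ
  have htb : ∀ y ∈ X \ B, y ≠ p → G.Adj a y ∨ G.Adj b y → y = r1 ∨ y ∈ R1 := by
    intro y hy hyp hyab
    have h4 : y ∈ T1 := by
      rw [hT1, mem_erase, mem_union, mem_nb, mem_nb]
      refine ⟨hyp, ?_⟩
      rcases hyab with e | e
      · exact Or.inl ⟨hy, e⟩
      · exact Or.inr ⟨hy, e⟩
    by_cases e : y = r1
    · exact Or.inl e
    · exact Or.inr (by rw [hR1]; exact mem_erase.2 ⟨e, h4⟩)
  by_cases e1 : β = rp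
  · -- the clique around `R1 ∖ rp`
    obtain ⟨w, hw, hwne⟩ := Finset.exists_mem_ne (by omega : 1 < R1.card) rp
    have hR1Y : ∀ u ∈ R1, u ≠ rp → u ∈ Y2 := by
      intro u hu hur
      have h4 := mem_erase.1 (hR1sub hu)
      exact hmem.2 ⟨h4.2, h4.1, fun e => htR1 (e ▸ hu), hur, hno u hu⟩
    have hrpY : rp ∉ Y2 := fun e => (hmem.1 e).2.2.2.1 rfl
    have hwd : (nb G Y2 w).card + 2 ≤ k := by
      have h4 : insert rp (nb G Y2 w) ⊆ nb G ((X \ B).erase p) w := by
        refine Finset.insert_subset ?_ (nb_mono ?_ w)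
        · exact mem_nb.2 ⟨mem_erase.2 ⟨h.prp.symm, h.rpQ⟩, hq w hw rp (e1 ▸ hβ) hwne⟩
        · intro v hv
          have h5 := hmem.1 hv
          exact mem_erase.2 ⟨h5.2.1, h5.1⟩
      have h5 := Finset.card_le_card h4
      rw [Finset.card_insert_of_notMem (fun e => hrpY (mem_nb.1 e).1)] at h5
      have h6 := hd1 w hw
      omega
    obtain ⟨s, hs, has, hbs, hz⟩ := h.mc.core hY2X hY2ne hps2 hal2 haX hbX
      (fun e => (mem_sdiff.1 (hmem.1 e).1).2 h.ha) (fun e => (mem_sdiff.1 (hmem.1 e).1).2 h.hb)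
      h.hab h.nab hq hR1c (e1 ▸ hβ) hrpY hR1Y hr1 hq2' hw hwne hwd
      (fun y hy => htb y (hmem.1 hy).1 (hmem.1 hy).2.1)
    by_cases e2 : s = rt
    · -- a vertex of `R` not adjacent to `rt`
      obtain ⟨v, hv, hvr⟩ : ∃ v ∈ nb Gᶜ R rt, v ≠ r1 :=
        Finset.exists_mem_ne (by have := h.xt.ms; omega) r1
      have hv' := mem_nb.1 hv
      have hvn := (SimpleGraph.compl_adj _ _ _).1 hv'.2
      have hvQ := mem_sdiff.1 (h.hR hv'.1)
      have hvp : v ≠ p := fun e => h.pR (e ▸ hv'.1)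
      have hvab : ¬ (G.Adj a v ∨ G.Adj b v) := by
        intro e
        rcases htb v (h.hR hv'.1) hvp e with e | e
        · exact hvr e
        · exact hno v e hv'.1
      refine hz v hvQ.1 (fun e => (hmem.1 e).2.2.2.2 hv'.1) (fun e => hvQ.2 (e ▸ h.ha))
        (fun e => hvQ.2 (e ▸ h.hb)) (fun e => hvab (Or.inl e)) (fun e => hvab (Or.inr e))
        (e2 ▸ hvn.2) ?_
      have h4 := h.xp.dR v (mem_insert_of_mem hv'.1)
      have hvt : G.Adj t v := (mem_nb.1 (by rw [h.xt.hN]; exact mem_insert_of_mem hv'.1 :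
        v ∈ nb G (X \ B) t)).2
      have h5 : insert t (R.erase v) ∪ nb G Y2 v ⊆ nb G ((X \ B).erase p) v := by
        refine Finset.union_subset (Finset.insert_subset ?_ ?_) (nb_mono ?_ v)
        · exact mem_nb.2 ⟨mem_erase.2 ⟨h.hpt.symm, h.tQ⟩, hvt.symm⟩
        · intro u hu
          rw [mem_erase] at hu
          exact mem_nb.2 ⟨mem_erase.2 ⟨fun e => h.pR (e ▸ hu.2), h.hR hu.2⟩,
            h.hRq v hv'.1 u hu.2 (Ne.symm hu.1)⟩
        · intro u hu
          have h5 := hmem.1 hu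
          exact mem_erase.2 ⟨h5.2.1, h5.1⟩
      have h6 := Finset.card_le_card h5
      have h8 : Disjoint (insert t (R.erase v)) (nb G Y2 v) := by
        rw [Finset.disjoint_left]
        intro u hu hu'
        have h9 := hmem.1 (mem_nb.1 hu').1
        rw [mem_insert, mem_erase] at hu
        rcases hu with hu | hu
        · exact h9.2.2.1 hu
        · exact h9.2.2.2.2 hu.2
      rw [Finset.card_union_of_disjoint h8,
        Finset.card_insert_of_notMem (fun e => h.tR (mem_erase.1 e).2),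
        Finset.card_erase_of_mem hv'.1] at h6
      have := h.hRc
      omega
    · refine hz t htQ.1 (fun e => (hmem.1 e).2.2.1 rfl) hat.symm hbt.symm h2 h3
        (fun e => e2 (htY s hs e.symm)) ?_
      rw [Finset.card_le_one]
      intro u hu v hv
      rw [htY u (mem_nb.1 hu).1 (mem_nb.1 hu).2, htY v (mem_nb.1 hv).1 (mem_nb.1 hv).2]
  by_cases e2 : β = rt
  · -- the clique around `R1 ∖ rt`
    have h' := h.swappt
    obtain ⟨w, hw, hwne⟩ : ∃ w ∈ R1.erase rp, w ≠ rt := by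
      refine Finset.exists_mem_ne ?_ rt
      have := Finset.pred_card_le_card_erase (s := R1) (a := rp)
      omega
    rw [mem_erase] at hw
    have hwd : (nb G ((X \ B).erase t) w).card + 1 = k := by
      rw [← hd1 w hw.2]
      congr 2
      ext v
      rw [mem_nb, mem_nb, mem_erase, mem_erase]
      have hwQ := (mem_erase.1 (hR1sub hw.2)).2
      have hwR := hno w hw.2
      constructor
      · rintro ⟨⟨_, h5⟩, h6⟩
        refine ⟨⟨?_, h5⟩, h6⟩
        intro e
        rw [e] at h6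
        have h7 : w ∈ nb G (X \ B) p := mem_nb.2 ⟨hwQ, h6.symm⟩
        rw [h.xp.hN, mem_insert] at h7
        rcases h7 with h7 | h7
        · exact hw.1 h7
        · exact hwR h7
      · rintro ⟨⟨_, h5⟩, h6⟩
        refine ⟨⟨?_, h5⟩, h6⟩
        intro e
        rw [e] at h6
        have h7 : w ∈ nb G (X \ B) t := mem_nb.2 ⟨hwQ, h6.symm⟩
        rw [h.xt.hN, mem_insert] at h7
        rcases h7 with h7 | h7
        · exact hwne h7
        · exact hwR h7
    obtain ⟨Y3, hY3⟩ : ∃ Y, Y = ((X \ B).erase t) \ insert p (insert rt R) := ⟨_, rfl⟩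
    have hY3X : Y3 ⊆ X := by rw [hY3]; exact h'.y2X
    have hY3ne : Y3 ≠ X := by rw [hY3]; exact h'.y2ne
    have hps3 := (h'.y2 h7).2
    have hal3 := (h'.y2 h7).1
    rw [← hY3] at hps3 hal3
    have hmem3 : ∀ {w : V}, w ∈ Y3 ↔ w ∈ X \ B ∧ w ≠ t ∧ w ≠ p ∧ w ≠ rt ∧ w ∉ R := by
      intro w
      rw [hY3]
      exact h'.mem_y2
    have hR1Y : ∀ u ∈ R1, u ≠ rt → u ∈ Y3 := by
      intro u hu hur
      have h4 := mem_erase.1 (hR1sub hu)
      exact hmem3.2 ⟨h4.2, fun e => htR1 (e ▸ hu), h4.1, hur, hno u hu⟩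
    have hrtY : rt ∉ Y3 := fun e => (hmem3.1 e).2.2.2.1 rfl
    have hwd' : (nb G Y3 w).card + 2 ≤ k := by
      have h4 : insert rt (nb G Y3 w) ⊆ nb G ((X \ B).erase t) w := by
        refine Finset.insert_subset ?_ (nb_mono ?_ w)
        · exact mem_nb.2 ⟨mem_erase.2 ⟨h'.prp.symm, h'.rpQ⟩, hq w hw.2 rt (e2 ▸ hβ) hwne⟩
        · intro v hv
          have h5 := hmem3.1 hv
          exact mem_erase.2 ⟨h5.2.1, h5.1⟩
      have h5 := Finset.card_le_card h4
      rw [Finset.card_insert_of_notMem (fun e => hrtY (mem_nb.1 e).1)] at h5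
      omega
    obtain ⟨s, hs, has, hbs, hz⟩ := h.mc.core hY3X hY3ne hps3 hal3 haX hbX
      (fun e => (mem_sdiff.1 (hmem3.1 e).1).2 h.ha) (fun e => (mem_sdiff.1 (hmem3.1 e).1).2 h.hb)
      h.hab h.nab hq hR1c (e2 ▸ hβ) hrtY hR1Y hr1 hq2' hw.2 hwne hwd'
      (fun y hy => htb y (hmem3.1 hy).1 (hmem3.1 hy).2.2.1)
    have htY3 : ∀ y ∈ Y3, ¬ G.Adj t y := by
      intro y hy hty
      have h8 := hmem3.1 hy
      have h9 : y ∈ nb G (X \ B) t := mem_nb.2 ⟨h8.1, hty⟩
      rw [h.xt.hN, mem_insert] at h9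
      rcases h9 with h9 | h9
      · exact h8.2.2.2.1 h9
      · exact h8.2.2.2.2 h9
    refine hz t htQ.1 (fun e => (hmem3.1 e).2.1 rfl) hat.symm hbt.symm h2 h3
      (fun e => htY3 s hs e.symm) ?_
    rw [Finset.card_eq_zero.2]
    · omega
    · rw [Finset.eq_empty_iff_forall_notMem]
      exact fun v hv => htY3 v (mem_nb.1 hv).1 (mem_nb.1 hv).2
  -- the exchange
  have hβY : β ∈ Y2 := hmem.2 ⟨hβQ.2, hβQ.1, fun e => htR1 (e ▸ hβ), e1, hβR⟩
  obtain ⟨S4, hS4⟩ : ∃ S, S = (insert rt (insert r1 (cl G Y2 β))) ∩ Y2 := ⟨_, rfl⟩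
  have hS4Y : S4 ⊆ Y2 := by rw [hS4]; exact Finset.inter_subset_right
  have hβp : ¬ G.Adj p β := hpY β hβY
  have hβt : ¬ G.Adj t β := fun e => e2 (htY β hβY e)
  have hβne : β ≠ b ∧ β ≠ p ∧ β ≠ t := by
    refine ⟨?_, hβQ.1, fun e => htR1 (e ▸ hβ)⟩
    rintro rfl
    exact (mem_sdiff.1 hβQ.2).2 h.hb
  have hJi : G.IsIndepSet (({β, b, p, t} : Finset V) : Set V) := by
    refine indep_insert (indep_triple hnbp h3 h.npt) ?_
    intro x hx
    rw [mem_insert, mem_insert, mem_singleton] at hx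
    rcases hx with rfl | rfl | rfl
    · exact fun e => hβb e.symm
    · exact fun e => hβp e.symm
    · exact fun e => hβt e.symm
  have hJc : ({β, b, p, t} : Finset V).card = 4 := by
    rw [Finset.card_insert_of_notMem (by simp [hβne]),
      Finset.card_insert_of_notMem (by simp [hbp, hbt]), Finset.card_pair h.hpt]
  have hdrop : al G (Y2 \ S4) + 2 ≤ al G Y2 := by
    obtain ⟨I, hI, hi', hc⟩ := exists_al (G := G) (Y2 \ S4)
    have hIY : I ⊆ Y2 := hI.trans Finset.sdiff_subset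
    have h5 := h.y2ext h7 (I := I) (J := {β, b, p, t}) (by rw [← hY2]; exact hIY) hi' hJi ?_ ?_ ?_
    · rw [hJc, ← hY2] at h5
      omega
    · intro z hz
      rw [mem_insert, mem_insert, mem_insert, mem_singleton] at hz
      rcases hz with rfl | rfl | rfl | rfl
      · exact hY2X hβY
      · exact hbX
      · exact hpQ.1
      · exact htQ.1
    · rw [Finset.disjoint_left]
      intro z hz hz'
      have h6 := hIY hz'
      have h7 := (mem_sdiff.1 (hI hz')).2
      rw [hmem, mem_sdiff] at h6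
      rw [mem_insert, mem_insert, mem_insert, mem_singleton] at hz
      rcases hz with rfl | rfl | rfl | rfl
      · apply h7
        rw [hS4, mem_inter]
        exact ⟨mem_insert_of_mem (mem_insert_of_mem (mem_insert_self _ _)), hβY⟩
      · exact h6.1.2 h.hb
      · exact h6.2.1 rfl
      · exact h6.2.2.1 rfl
    · intro x hx y hy hxy
      have h6 := hIY hy
      have h7 := (mem_sdiff.1 (hI hy)).2
      rw [hS4, mem_inter, mem_insert, mem_insert] at h7
      rw [mem_insert, mem_insert, mem_insert, mem_singleton] at hx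
      rcases hx with rfl | rfl | rfl | rfl
      · exact h7 ⟨Or.inr (Or.inr (mem_insert_of_mem (mem_nb.2 ⟨h6, hxy⟩))), h6⟩
      · -- neighbours of `b` in `Y2`
        have h8 := hmem.1 h6
        have h9 : y ∈ T1 := by
          rw [hT1, mem_erase, mem_union]
          exact ⟨h8.2.1, Or.inr (mem_nb.2 ⟨h8.1, hxy⟩)⟩
        by_cases e : y = r1
        · exact h7 ⟨Or.inr (Or.inl e), h6⟩
        · have h10 : y ∈ R1 := by rw [hR1]; exact mem_erase.2 ⟨e, h9⟩
          have h11 : β ≠ y := fun e' => hβb (e' ▸ hxy)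
          exact h7 ⟨Or.inr (Or.inr (mem_insert_of_mem (mem_nb.2 ⟨h6, hq β hβ y h10 h11⟩))), h6⟩
      · exact hpY y h6 hxy
      · exact h7 ⟨Or.inl (htY y h6 hxy), h6⟩
  have h5 := h.mc.drop (Y := Y2) hY2X hY2ne hS4Y (j := 2) hdrop
  have h6 : S4.card ≤ k + 2 := by
    have h7 : S4.card ≤ (insert rt (insert r1 (cl G Y2 β))).card := by
      rw [hS4]
      exact Finset.card_le_card Finset.inter_subset_left
    have h8 := Finset.card_insert_le rt (insert r1 (cl G Y2 β))
    have h9 := Finset.card_insert_le r1 (cl G Y2 β)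
    have h10 := card_cl (G := G) (X := Y2) (v := β)
    have h11 : (nb G Y2 β).card ≤ (nb G ((X \ B).erase p) β).card := by
      refine Finset.card_le_card (nb_mono ?_ β)
      intro w hw
      have := hmem.1 hw
      exact mem_erase.2 ⟨this.2.1, this.1⟩
    have h12 := hd1 β hβ
    omega
  have h6' : (S4.card : ℤ) ≤ k + 2 := by exact_mod_cast h6
  have h8 : (0 : ℤ) ≤ 4 * (k : ℤ) - 2 := by linarith
  have h9 := mul_le_mul_of_nonneg_left h6' h8
  push_cast at h5
  have h10 : (7 : ℤ) ≤ k := by exact_mod_cast h7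
  nlinarith

/-- Case II with one vertex missing is impossible if `a` is adjacent to `p` -/
theorem x12 (h7 : 7 ≤ k) (h1 : G.Adj a p) : False := by
  by_cases h2 : G.Adj a t
  · exact h.x1 h7 h1 (Or.inl h2)
  · by_cases h3 : G.Adj b t
    · exact h.x1 h7 h1 (Or.inr h3)
    · exact h.x2 h7 h1 h2 h3

theorem false (h7 : 7 ≤ k) : False := by
  by_cases h1 : G.Adj a p
  · exact h.x12 h7 h1
  by_cases h2 : G.Adj a t
  · exact h.swappt.x12 h7 h2
  by_cases h3 : G.Adj b p
  · exact h.swapab.x12 h7 h3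
  by_cases h4 : G.Adj b t
  · exact h.swapab.swappt.x12 h7 h4
  exact h.x0 h7 h1 h2 h3 h4

end XC

/-- no vertex outside `P` misses exactly one vertex of `P` -/
theorem Fr.n1 {k : ℕ} {X P : Finset V} (F : Fr G k X P) (h7 : 7 ≤ k) {a b : V} (ha : a ∈ X \ P)
    (hb : b ∈ P) (nab : ¬ G.Adj a b) (hall : ∀ v ∈ P, v ≠ b → G.Adj a v) : False := by
  obtain ⟨p, t, R, rp, rt, h⟩ := F.c2x h7 ha hb nab hall
  exact h.false h7

end Pool.Agent.TwoDens.TS
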