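import Pool.Agent.TKS.NS
import Pool.Agent.TKS.XF
import Pool.Agent.TKS.CB
import Pool.Agent.TKS.SX

/-!
Every minimal counterexample has a frame such that no vertex outside is adjacent to all its
vertices of degree `k` (`k` at least `7`).
-/

open Finset

namespace Pool.Agent.TwoDens.TS

open Pool.Agent.TwoDens Pool.Agent.TwoDens.RK Pool.Agent.TwoDens.DD

variable {V : Type*} [DecidableEq V] {G : SimpleGraph V} [DecidableRel G.Adj]

theorem MC.fr {k : ℕ} {X : Finset V} (M : MC G k X) {P : Finset V} (hP : P ⊆ X)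
    (hPc : P.card + 1 = k) (hq : Clq G P) (hex : ∃ c ∈ P, (nb G X c).card = k) : Fr G k X P :=
  ⟨M, hP, hPc, hq, hex, fun _ _ _ B => B.bp M⟩

theorem MC.exists_fn {k : ℕ} {X : Finset V} (M : MC G k X) (h7 : 7 ≤ k) :
    ∃ P, Fn G k X P := by
  by_contra hcon
  have A : AllB G k X := by
    refine ⟨M, h7, fun P hP hPc hq hex => M.fr hP hPc hq hex, ?_⟩
    intro P F c hc hd
    have h1 : ∃ a ∈ X \ P, ∀ v ∈ P, (nb G X v).card = k → G.Adj a v := by
      by_contra h2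
      push Not at h2
      exact hcon ⟨P, F, h2⟩
    obtain ⟨a, ha, hall⟩ := h1
    have ha' := mem_sdiff.1 ha
    obtain ⟨b, hb⟩ := Finset.card_pos.1 (F.missP ha)
    rw [F.mem_nbc ha'.2] at hb
    by_cases h3 : ∃ v ∈ P, v ≠ b ∧ ¬ G.Adj a v
    · obtain ⟨v, hv, hvb, hav⟩ := h3
      obtain ⟨-, p, B, hap, m1, m2, d1, d2⟩ :=
        F.c2b h7 ha hall hb.1 hv (Ne.symm hvb) hb.2 hav hc hd
      exact ⟨a, p, b, v, B, hap, hb.1, hv, Ne.symm hvb, m1, m2, d1, d2⟩
    · push Not at h3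
      exact (F.n1 h7 ha hb.1 hb.2 h3).elim
  obtain ⟨P, c, x, x', B⟩ := M.exists_base
  exact A.false (M.fr B.hP B.hPc B.hPq ⟨c, B.hc, B.deg⟩)

end Pool.Agent.TwoDens.TS
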