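import Pool.Agent.TKS.HD
import Pool.Agent.TKS.FM

/-!
The path type: no vertex of the clique of a transversal has degree `k`.
-/

open Finset

namespace Pool.Agent.TwoDens.TS

open Pool.Agent.TwoDens Pool.Agent.TwoDens.RK Pool.Agent.TwoDens.DD

variable {V : Type*} [DecidableEq V] {G : SimpleGraph V} [DecidableRel G.Adj]

omit [DecidableRel G.Adj] in
theorem p6_hd4_sub {X Q : Finset V} {w1 w2 w3 w4 : V} : hd4 X Q w1 w2 w3 w4 ⊆ X :=
  Finset.sdiff_subset.trans Finset.sdiff_subset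

omit [DecidableRel G.Adj] in
theorem p6_hd4_rev (X Q : Finset V) (w1 w2 w3 w4 : V) :
    hd4 X Q w4 w3 w2 w1 = hd4 X Q w1 w2 w3 w4 := by
  ext v
  rw [mem_hd4, mem_hd4]
  tauto

/-- the clique and the path -/
def p6F (Q : Finset V) (w1 w2 w3 w4 : V) : Finset V :=
  insert w1 (insert w2 (insert w3 (insert w4 Q)))

omit [DecidableRel G.Adj] in
theorem p6_memF {Q : Finset V} {w1 w2 w3 w4 v : V} :
    v ∈ p6F Q w1 w2 w3 w4 ↔ v = w1 ∨ v = w2 ∨ v = w3 ∨ v = w4 ∨ v ∈ Q := by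
  unfold p6F
  rw [mem_insert, mem_insert, mem_insert, mem_insert]

namespace TyP4
variable {k : ℕ} {X Q : Finset V} {w1 w2 w3 w4 : V} (S : TyP4 G k X Q w1 w2 w3 w4)
include S

theorem p6_rev : TyP4 G k X Q w4 w3 w2 w1 where
  hQX := S.hQX
  hQc := S.hQc
  hQq := S.hQq
  dQ := S.dQ
  h1 := S.h4
  h2 := S.h3
  h3 := S.h2
  h4 := S.h1
  q1 := S.q4
  q2 := S.q3
  q3 := S.q2
  q4 := S.q1
  aQ1 := S.aQ4
  aQ2 := S.aQ3
  aQ3 := S.aQ2
  aQ4 := S.aQ1
  a12 := S.a34.symm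
  a23 := S.a23.symm
  a34 := S.a12.symm
  e13 := S.e24.symm
  e14 := S.e14.symm
  e24 := S.e13.symm
  m13 := fun h => S.m24 h.symm
  m14 := fun h => S.m14 h.symm
  m24 := fun h => S.m13 h.symm
  d1 := S.d4
  d2 := S.d3
  d3 := S.d2
  d4 := S.d1
  psX := S.psX
  psH := by rw [p6_hd4_rev]; exact S.psH
  alH := by rw [p6_hd4_rev]; exact S.alH
  tau := by rw [p6_hd4_rev]; exact S.tau
  s13 := by rw [p6_hd4_rev, Nat.add_comm]; exact S.s24
  s24 := by rw [p6_hd4_rev, Nat.add_comm]; exact S.s13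

theorem p6_n4 : w4 ∉ Q := S.q4

theorem p6_n3 : w3 ∉ insert w4 Q := by
  rw [mem_insert]
  rintro (h | h)
  · exact S.a34.ne h
  · exact S.q3 h

theorem p6_n2 : w2 ∉ insert w3 (insert w4 Q) := by
  rw [mem_insert, mem_insert]
  rintro (h | h | h)
  · exact S.a23.ne h
  · exact S.e24 h
  · exact S.q2 h

theorem p6_n1 : w1 ∉ insert w2 (insert w3 (insert w4 Q)) := by
  rw [mem_insert, mem_insert, mem_insert]
  rintro (h | h | h | h)
  · exact S.a12.ne h
  · exact S.e13 h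
  · exact S.e14 h
  · exact S.q1 h

theorem p6_cF : (p6F Q w1 w2 w3 w4).card = k + 1 := by
  unfold p6F
  rw [Finset.card_insert_of_notMem S.p6_n1, Finset.card_insert_of_notMem S.p6_n2,
    Finset.card_insert_of_notMem S.p6_n3, Finset.card_insert_of_notMem S.p6_n4]
  have := S.hQc
  omega

theorem p6_FX : p6F Q w1 w2 w3 w4 ⊆ X := by
  intro v hv
  rw [p6_memF] at hv
  rcases hv with h | h | h | h | h
  · rw [h]; exact S.h1
  · rw [h]; exact S.h2
  · rw [h]; exact S.h3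
  · rw [h]; exact S.h4
  · exact S.hQX h

theorem p6_un : p6F Q w1 w2 w3 w4 ∪ hd4 X Q w1 w2 w3 w4 = X := by
  ext v
  rw [mem_union]
  constructor
  · rintro (h | h)
    · exact S.p6_FX h
    · exact p6_hd4_sub h
  · intro hv
    rw [p6_memF, mem_hd4]
    tauto

omit S in
theorem p6_disj : Disjoint (p6F Q w1 w2 w3 w4) (hd4 X Q w1 w2 w3 w4) := by
  rw [Finset.disjoint_left]
  intro v hv hv'
  rw [p6_memF] at hv
  rw [mem_hd4] at hv'
  tauto

/-- degrees split into the part in the clique and the path and the part outside -/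
theorem p6_deg (t : V) : (nb G X t).card =
    (nb G (p6F Q w1 w2 w3 w4) t).card + (nb G (hd4 X Q w1 w2 w3 w4) t).card :=
  nb_un S.p6_un p6_disj t

theorem p6_nQ {q t : V} (hq : q ∈ Q) (ht : t ∈ hd4 X Q w1 w2 w3 w4) : ¬ G.Adj q t := by
  intro h
  have h1 := S.p6_deg q
  rw [S.dQ q hq] at h1
  have h2 : (p6F Q w1 w2 w3 w4).erase q ⊆ nb G (p6F Q w1 w2 w3 w4) q := by
    intro z hz
    rw [mem_erase] at hz
    refine mem_nb.2 ⟨hz.2, ?_⟩
    rcases p6_memF.1 hz.2 with e | e | e | e | e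
    · rw [e]; exact (S.aQ1 q hq).symm
    · rw [e]; exact (S.aQ2 q hq).symm
    · rw [e]; exact (S.aQ3 q hq).symm
    · rw [e]; exact (S.aQ4 q hq).symm
    · exact S.hQq q hq z e (Ne.symm hz.1)
  have h3 := Finset.card_le_card h2
  have h4 := Finset.card_erase_add_one (p6_memF.2 (Or.inr (Or.inr (Or.inr (Or.inr hq)))) :
    q ∈ p6F Q w1 w2 w3 w4)
  rw [S.p6_cF] at h4
  have h5 : 0 < (nb G (hd4 X Q w1 w2 w3 w4) q).card := Finset.card_pos.2 ⟨t, mem_nb.2 ⟨ht, h⟩⟩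
  omega

theorem p6_c1 : (nb G X w1).card + 2 = k + (nb G (hd4 X Q w1 w2 w3 w4) w1).card := by
  have h1 := S.p6_deg w1
  have h2 : nb G (p6F Q w1 w2 w3 w4) w1 = insert w2 Q := by
    ext z
    rw [mem_nb, p6_memF, mem_insert]
    constructor
    · rintro ⟨e | e | e | e | e, h⟩
      · exact absurd h (e ▸ G.loopless.irrefl _)
      · exact Or.inl e
      · exact absurd (e ▸ h) S.m13
      · exact absurd (e ▸ h) S.m14
      · exact Or.inr e
    · rintro (e | e)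
      · exact ⟨Or.inr (Or.inl e), e ▸ S.a12⟩
      · exact ⟨Or.inr (Or.inr (Or.inr (Or.inr e))), S.aQ1 z e⟩
  have hQc := S.hQc
  rw [h2, Finset.card_insert_of_notMem S.q2] at h1
  omega

theorem p6_c2 : (nb G X w2).card + 1 = k + (nb G (hd4 X Q w1 w2 w3 w4) w2).card := by
  have h1 := S.p6_deg w2
  have h2 : nb G (p6F Q w1 w2 w3 w4) w2 = insert w1 (insert w3 Q) := by
    ext z
    rw [mem_nb, p6_memF, mem_insert, mem_insert]
    constructor
    · rintro ⟨e | e | e | e | e, h⟩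
      · exact Or.inl e
      · exact absurd h (e ▸ G.loopless.irrefl _)
      · exact Or.inr (Or.inl e)
      · exact absurd (e ▸ h) S.m24
      · exact Or.inr (Or.inr e)
    · rintro (e | e | e)
      · exact ⟨Or.inl e, e ▸ S.a12.symm⟩
      · exact ⟨Or.inr (Or.inr (Or.inl e)), e ▸ S.a23⟩
      · exact ⟨Or.inr (Or.inr (Or.inr (Or.inr e))), S.aQ2 z e⟩
  have h3 : w1 ∉ insert w3 Q := by
    rw [mem_insert]
    rintro (h | h)
    · exact S.e13 h
    · exact S.q1 h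
  have hQc := S.hQc
  rw [h2, Finset.card_insert_of_notMem h3, Finset.card_insert_of_notMem S.q3] at h1
  omega

theorem p6_c3 : (nb G X w3).card + 1 = k + (nb G (hd4 X Q w1 w2 w3 w4) w3).card := by
  have h1 := S.p6_rev.p6_c2
  rw [p6_hd4_rev] at h1
  exact h1

theorem p6_c4 : (nb G X w4).card + 2 = k + (nb G (hd4 X Q w1 w2 w3 w4) w4).card := by
  have h1 := S.p6_rev.p6_c1
  rw [p6_hd4_rev] at h1
  exact h1

theorem p6_s13 : (nb G X w1).card + (nb G X w3).card + 3 = 3 * k := by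
  have h1 := S.p6_c1
  have h3 := S.p6_c3
  have h4 := S.s13
  omega

theorem p6_s24 : (nb G X w2).card + (nb G X w4).card + 3 = 3 * k := by
  have h1 := S.p6_c2
  have h3 := S.p6_c4
  have h4 := S.s24
  omega

theorem p6_ne : hd4 X Q w1 w2 w3 w4 ≠ X := by
  intro h
  have h1 := S.h1
  rw [← h, mem_hd4] at h1
  exact h1.2.2.1 rfl

/-- the transversal -/
theorem p6_tr : Tr G (hd4 X Q w1 w2 w3 w4)
    (nb G (hd4 X Q w1 w2 w3 w4) w2 ∪ nb G (hd4 X Q w1 w2 w3 w4) w4) := by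
  refine tr_nbr (X := X) (J := {w2, w4}) p6_hd4_sub ?_ ?_ (indep_pair S.m24) ?_ ?_
  · intro z hz
    rw [mem_insert, mem_singleton] at hz
    rcases hz with h | h
    · rw [h]; exact S.h2
    · rw [h]; exact S.h4
  · rw [Finset.disjoint_left]
    intro z hz hz'
    rw [mem_insert, mem_singleton] at hz
    rw [mem_hd4] at hz'
    tauto
  · rw [Finset.card_pair S.e24]
    have := S.alH
    omega
  · intro z hz w hw hzw
    rw [mem_insert, mem_singleton] at hz
    rcases hz with h | h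
    · rw [h] at hzw
      exact mem_union_left _ (mem_nb.2 ⟨hw, hzw⟩)
    · rw [h] at hzw
      exact mem_union_right _ (mem_nb.2 ⟨hw, hzw⟩)

theorem p6_cT : (nb G (hd4 X Q w1 w2 w3 w4) w2 ∪
    nb G (hd4 X Q w1 w2 w3 w4) w4).card = k ∧
    Disjoint (nb G (hd4 X Q w1 w2 w3 w4) w2) (nb G (hd4 X Q w1 w2 w3 w4) w4) := by
  have h1 := S.tau _ (Finset.union_subset (nb_sub _ _) (nb_sub _ _)) S.p6_tr
  have h2 := Finset.card_union_add_card_inter (nb G (hd4 X Q w1 w2 w3 w4) w2)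
    (nb G (hd4 X Q w1 w2 w3 w4) w4)
  have h3 := S.s24
  refine ⟨by omega, ?_⟩
  rw [Finset.disjoint_iff_inter_eq_empty, ← Finset.card_eq_zero]
  omega

end TyP4

/-- a vertex of degree `k` has at most one neighbour outside `Y` -/
theorem p6_one {k : ℕ} {X Y : Finset V} (hY : Y ⊆ X) (htau : TauGe G Y k) {t y y' : V}
    (ht : t ∈ Y) (hd : (nb G X t).card = k) (hy : y ∈ X) (hyY : y ∉ Y) (hy' : y' ∈ X)
    (hyY' : y' ∉ Y) (h : G.Adj y t) (h' : G.Adj y' t) : y = y' := by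
  by_contra hne
  have h1 := htau.deg ht
  have h2 : insert y (insert y' (nb G Y t)) ⊆ nb G X t := by
    intro z hz
    rw [mem_insert, mem_insert] at hz
    rcases hz with e | e | e
    · rw [e]; exact mem_nb.2 ⟨hy, h.symm⟩
    · rw [e]; exact mem_nb.2 ⟨hy', h'.symm⟩
    · exact mem_nb.2 ⟨hY (mem_nb.1 e).1, (mem_nb.1 e).2⟩
  have h3 := Finset.card_le_card h2
  have h4 : y' ∉ nb G Y t := fun e => hyY' (mem_nb.1 e).1
  have h5 : y ∉ insert y' (nb G Y t) := by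
    rw [mem_insert]
    rintro (e | e)
    · exact hne e
    · exact hyY (mem_nb.1 e).1
  rw [Finset.card_insert_of_notMem h5, Finset.card_insert_of_notMem h4] at h3
  omega

theorem p6_split {X Y : Finset V} (hY : Y ⊆ X) (t : V) :
    (nb G X t).card = (nb G (X \ Y) t).card + (nb G Y t).card :=
  nb_un (Finset.sdiff_union_of_subset hY) Finset.sdiff_disjoint t

/-- a clique with `k - 1` vertices has a vertex of degree more than `k` -/
theorem AllP.p6_notall {k : ℕ} {X P : Finset V} (A : AllP G k X) (hP : P ⊆ X)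
    (hPc : P.card + 1 = k) (hPq : Clq G P) (hall : ∀ t ∈ P, (nb G X t).card = k) : False := by
  have h5 := A.h5
  obtain ⟨c, hc⟩ := Finset.card_pos.1 (by omega : 0 < P.card)
  obtain ⟨x, x', B⟩ := base_mk hP hPc hPq hc (hall c hc)
  rcases A.loc B with ⟨b, hb, h⟩ | ⟨u, hu, u', hu', -, h | h | h⟩
  · have h1 := h.d1
    have h2 := hall b hb
    omega
  · have h1 := h.d1
    have h2 := hall u hu
    omega
  · have h1 := h.d1
    have h2 := hall u hu
    omega
  · have h1 := h.d2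
    have h2 := hall u' hu'
    omega

/-- the types of a vertex of degree `k` in the clique of a transversal `N(v) ∪ N(w)` -/
theorem AllP.p6_side {k : ℕ} {X Y : Finset V} (A : AllP G k X) (hY : Y ⊆ X)
    (htau : TauGe G Y k) {v w r z : V} (hv : v ∈ X) (hvY : v ∉ Y)
    (hd : Disjoint (nb G Y v) (nb G Y w)) (hw2 : 2 ≤ (nb G Y w).card) {T : Finset V}
    (hT : T = nb G Y v ∪ nb G Y w) (hS : StarT G k Y T r) (hz : z ∈ T.erase r)
    (hvz : G.Adj v z) (hzd : (nb G X z).card = k) :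
    ∃ g ∈ Y, g ∉ T.erase r ∧
     ((∃ b ∈ T.erase r, TyT3 G k X ((T.erase r).erase b) b v g ∧ nb G Y w = {b, r}) ∨
      (∃ u ∈ T.erase r, ∃ u' ∈ T.erase r, u ≠ u' ∧ g = r ∧
        TyP4 G k X (((T.erase r).erase u).erase u') u u' r v) ∨
      (∃ u ∈ T.erase r, ∃ u' ∈ T.erase r, u ≠ u' ∧
        TyP4 G k X (((T.erase r).erase u).erase u') v u' u g ∧ nb G Y w = {u, r})) := by
  have hRT : T.erase r ⊆ T := Finset.erase_subset _ _
  have hRX : T.erase r ⊆ X := hRT.trans (hS.hT.trans hY)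
  have hRc : (T.erase r).card + 1 = k := by rw [Finset.card_erase_add_one hS.hr, hS.hc]
  have hzY : z ∈ Y := hS.hT (hRT hz)
  obtain ⟨g, B⟩ := base_mk1 hRX hRc hS.clq hz hzd (x := v)
    (mem_sdiff.2 ⟨hv, fun h => hvY (hS.hT (hRT h))⟩) hvz.symm
  have hg := mem_sdiff.1 B.hx'
  have hgY : g ∈ Y := by
    by_contra h
    exact B.hne (p6_one hY htau hzY hzd hv hvY hg.1 h hvz B.ax'.symm)
  -- `w` sees only `b` and `r`
  have key : ∀ b : V, (∀ t ∈ T.erase r, ¬ G.Adj v t → t = b) → nb G Y w = {b, r} := by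
    intro b hb
    have h1 : nb G Y w ⊆ {b, r} := by
      intro t ht
      have htT : t ∈ T := by rw [hT]; exact mem_union_right _ ht
      rw [mem_insert, mem_singleton]
      by_cases e : t = r
      · exact Or.inr e
      · refine Or.inl (hb t (mem_erase.2 ⟨e, htT⟩) fun h => ?_)
        exact (Finset.disjoint_left.1 hd) (mem_nb.2 ⟨(mem_nb.1 ht).1, h⟩) ht
    refine Finset.eq_of_subset_of_card_le h1 (le_trans Finset.card_le_two hw2)
  have hgr : G.Adj v g → g = r := by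
    intro h
    by_contra e
    have h1 : g ∈ T := by rw [hT]; exact mem_union_left _ (mem_nb.2 ⟨hgY, h⟩)
    exact hg.2 (mem_erase.2 ⟨e, h1⟩)
  refine ⟨g, hgY, hg.2, ?_⟩
  rcases A.loc B with ⟨b, hb, h⟩ | ⟨u, hu, u', hu', huu, h | h | h⟩
  · refine Or.inl ⟨b, hb, h, key b fun t ht hn => ?_⟩
    by_contra e
    exact hn (h.aQ2 t (mem_erase.2 ⟨e, ht⟩))
  · exfalso
    have h1 := hgr h.a34
    have h2 : nb G Y w = {u, r} := by
      refine key u fun t ht hn => ?_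
      by_contra e
      by_cases e' : t = u'
      · exact hn (e' ▸ h.a23.symm)
      · exact hn (h.aQ3 t (mem_erase.2 ⟨e', mem_erase.2 ⟨e, ht⟩⟩))
    refine (Finset.disjoint_left.1 hd) (mem_nb.2 ⟨hgY, h.a34⟩) ?_
    rw [h2, h1, mem_insert, mem_singleton]
    exact Or.inr rfl
  · have h1 := hgr h.a34.symm
    rw [h1] at h
    exact Or.inr (Or.inl ⟨u, hu, u', hu', huu, h1, h⟩)
  · refine Or.inr (Or.inr ⟨u, hu, u', hu', huu, h, key u fun t ht hn => ?_⟩)
    by_contra e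
    by_cases e' : t = u'
    · exact hn (e' ▸ h.a12)
    · exact hn (h.aQ1 t (mem_erase.2 ⟨e', mem_erase.2 ⟨e, ht⟩⟩))

/-- the path type seen from the rest `Y` -/
structure P6 (G : SimpleGraph V) [DecidableRel G.Adj] (k : ℕ) (X Y : Finset V)
    (w1 w2 w3 w4 : V) : Prop where
  hY : Y ⊆ X
  ne : Y ≠ X
  tau : TauGe G Y k
  ps0 : ps G k Y = 0
  x1 : w1 ∈ X
  x2 : w2 ∈ X
  x3 : w3 ∈ X
  x4 : w4 ∈ X
  y1 : w1 ∉ Y
  y2 : w2 ∉ Y
  y3 : w3 ∉ Y
  y4 : w4 ∉ Y
  out : ∀ t ∈ Y, ∀ f ∈ X, f ∉ Y → G.Adj f t → f = w1 ∨ f = w2 ∨ f = w3 ∨ f = w4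
  a12 : G.Adj w1 w2
  a34 : G.Adj w3 w4
  e13 : w1 ≠ w3
  e14 : w1 ≠ w4
  e23 : w2 ≠ w3
  e24 : w2 ≠ w4
  t24 : Tr G Y (nb G Y w2 ∪ nb G Y w4)
  t13 : Tr G Y (nb G Y w3 ∪ nb G Y w1)
  c24 : (nb G Y w2 ∪ nb G Y w4).card = k
  c13 : (nb G Y w3 ∪ nb G Y w1).card = k
  d24 : Disjoint (nb G Y w2) (nb G Y w4)
  d13 : Disjoint (nb G Y w3) (nb G Y w1)
  n1 : 3 ≤ (nb G Y w1).card
  n2 : 2 ≤ (nb G Y w2).card
  n3 : 2 ≤ (nb G Y w3).card
  n4 : 3 ≤ (nb G Y w4).card

theorem TyP4.p6 {k : ℕ} {X Q : Finset V} {w1 w2 w3 w4 : V}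
    (S : TyP4 G k X Q w1 w2 w3 w4) : P6 G k X (hd4 X Q w1 w2 w3 w4) w1 w2 w3 w4 where
  hY := p6_hd4_sub
  ne := S.p6_ne
  tau := S.tau
  ps0 := S.psH
  x1 := S.h1
  x2 := S.h2
  x3 := S.h3
  x4 := S.h4
  y1 := fun h => (mem_hd4.1 h).2.2.1 rfl
  y2 := fun h => (mem_hd4.1 h).2.2.2.1 rfl
  y3 := fun h => (mem_hd4.1 h).2.2.2.2.1 rfl
  y4 := fun h => (mem_hd4.1 h).2.2.2.2.2 rfl
  out := by
    intro t ht f hf hfY h
    have h1 : f ∈ p6F Q w1 w2 w3 w4 := by
      rw [← S.p6_un, mem_union] at hf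
      exact hf.resolve_right hfY
    rcases p6_memF.1 h1 with e | e | e | e | e
    · exact Or.inl e
    · exact Or.inr (Or.inl e)
    · exact Or.inr (Or.inr (Or.inl e))
    · exact Or.inr (Or.inr (Or.inr e))
    · exact absurd h (S.p6_nQ e ht)
  a12 := S.a12
  a34 := S.a34
  e13 := S.e13
  e14 := S.e14
  e23 := S.a23.ne
  e24 := S.e24
  t24 := S.p6_tr
  t13 := by
    have h := S.p6_rev.p6_tr
    rw [p6_hd4_rev] at h
    exact h
  c24 := S.p6_cT.1
  c13 := by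
    have h := S.p6_rev.p6_cT.1
    rw [p6_hd4_rev] at h
    exact h
  d24 := S.p6_cT.2
  d13 := by
    have h := S.p6_rev.p6_cT.2
    rw [p6_hd4_rev] at h
    exact h
  n1 := by
    have h1 := S.p6_c1
    have h2 := S.d1
    omega
  n2 := by
    have h1 := S.p6_c2
    have h2 := S.d2
    omega
  n3 := by
    have h1 := S.p6_c3
    have h2 := S.d3
    omega
  n4 := by
    have h1 := S.p6_c4
    have h2 := S.d4
    omega

namespace P6
variable {k : ℕ} {X Y : Finset V} {w1 w2 w3 w4 : V} (S : P6 G k X Y w1 w2 w3 w4)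
include S

theorem rev : P6 G k X Y w4 w3 w2 w1 where
  hY := S.hY
  ne := S.ne
  tau := S.tau
  ps0 := S.ps0
  x1 := S.x4
  x2 := S.x3
  x3 := S.x2
  x4 := S.x1
  y1 := S.y4
  y2 := S.y3
  y3 := S.y2
  y4 := S.y1
  out := by
    intro t ht f hf hfY h
    rcases S.out t ht f hf hfY h with e | e | e | e
    · exact Or.inr (Or.inr (Or.inr e))
    · exact Or.inr (Or.inr (Or.inl e))
    · exact Or.inr (Or.inl e)
    · exact Or.inl e
  a12 := S.a34.symm
  a34 := S.a12.symm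
  e13 := S.e24.symm
  e14 := S.e14.symm
  e23 := S.e23.symm
  e24 := S.e13.symm
  t24 := S.t13
  t13 := S.t24
  c24 := S.c13
  c13 := S.c24
  d24 := S.d13
  d13 := S.d24
  n1 := S.n4
  n2 := S.n3
  n3 := S.n2
  n4 := S.n1

/-- a vertex of both transversals has two neighbours outside `Y` -/
theorem both {t : V} (h2 : t ∈ nb G Y w2 ∪ nb G Y w4) (h1 : t ∈ nb G Y w3 ∪ nb G Y w1) :
    2 ≤ (nb G (X \ Y) t).card := by
  obtain ⟨a, ha, haY, hat, ha'⟩ : ∃ a, a ∈ X ∧ a ∉ Y ∧ G.Adj a t ∧ (a = w2 ∨ a = w4) := by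
    rw [mem_union] at h2
    rcases h2 with h | h
    · exact ⟨w2, S.x2, S.y2, (mem_nb.1 h).2, Or.inl rfl⟩
    · exact ⟨w4, S.x4, S.y4, (mem_nb.1 h).2, Or.inr rfl⟩
  obtain ⟨b, hb, hbY, hbt, hb'⟩ : ∃ b, b ∈ X ∧ b ∉ Y ∧ G.Adj b t ∧ (b = w3 ∨ b = w1) := by
    rw [mem_union] at h1
    rcases h1 with h | h
    · exact ⟨w3, S.x3, S.y3, (mem_nb.1 h).2, Or.inl rfl⟩
    · exact ⟨w1, S.x1, S.y1, (mem_nb.1 h).2, Or.inr rfl⟩
  have hab : a ≠ b := by
    intro e
    rcases ha' with e1 | e1 <;> rcases hb' with e2 | e2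
    · exact S.e23 (e1.symm.trans (e.trans e2))
    · exact S.a12.ne (e2.symm.trans (e.symm.trans e1))
    · exact S.a34.ne (e2.symm.trans (e.symm.trans e1))
    · exact S.e14 (e2.symm.trans (e.symm.trans e1))
  refine Finset.one_lt_card.2 ⟨a, mem_nb.2 ⟨mem_sdiff.2 ⟨ha, haY⟩, hat.symm⟩, b,
    mem_nb.2 ⟨mem_sdiff.2 ⟨hb, hbY⟩, hbt.symm⟩, hab⟩

theorem both' {t : V} (h2 : t ∈ nb G Y w2 ∪ nb G Y w4) (h1 : t ∈ nb G Y w3 ∪ nb G Y w1) :
    (nb G X t).card ≠ k := by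
  intro hd
  have htY : t ∈ Y := (Finset.union_subset (nb_sub _ _) (nb_sub _ _)) h2
  have h3 := S.both h2 h1
  have h4 := p6_split (G := G) S.hY t
  have h5 := S.tau.deg htY
  omega

/-- a vertex of one transversal with two neighbours outside `Y` is in the other -/
theorem other {t : V} (ht : t ∈ Y) (h2 : 2 ≤ (nb G (X \ Y) t).card) :
    t ∈ nb G Y w3 ∪ nb G Y w1 := by
  obtain ⟨a, ha, b, hb, hab⟩ := Finset.one_lt_card.1 h2
  have ha' := mem_sdiff.1 (mem_nb.1 ha).1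
  have hb' := mem_sdiff.1 (mem_nb.1 hb).1
  have hat := (mem_nb.1 ha).2.symm
  have hbt := (mem_nb.1 hb).2.symm
  by_contra hcon
  rw [mem_union, not_or, mem_nb, mem_nb] at hcon
  have h3 : ¬ G.Adj w3 t := fun h => hcon.1 ⟨ht, h⟩
  have h1 : ¬ G.Adj w1 t := fun h => hcon.2 ⟨ht, h⟩
  have h5 : ¬ (G.Adj w2 t ∧ G.Adj w4 t) := fun h =>
    (Finset.disjoint_left.1 S.d24) (mem_nb.2 ⟨ht, h.1⟩) (mem_nb.2 ⟨ht, h.2⟩)
  rcases S.out t ht a ha'.1 ha'.2 hat with e | e | e | e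
  · exact h1 (e ▸ hat)
  · rcases S.out t ht b hb'.1 hb'.2 hbt with f | f | f | f
    · exact h1 (f ▸ hbt)
    · exact hab (e.trans f.symm)
    · exact h3 (f ▸ hbt)
    · exact h5 ⟨e ▸ hat, f ▸ hbt⟩
  · exact h3 (e ▸ hat)
  · rcases S.out t ht b hb'.1 hb'.2 hbt with f | f | f | f
    · exact h1 (f ▸ hbt)
    · exact h5 ⟨f ▸ hbt, e ▸ hat⟩
    · exact h3 (f ▸ hbt)
    · exact hab (e.trans f.symm)

/-- the degree of a vertex of the first transversal which is not in the second -/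
theorem degk {t : V} (h1 : t ∈ nb G Y w3 ∪ nb G Y w1) (h2 : t ∉ nb G Y w2 ∪ nb G Y w4)
    (hd : (nb G Y t).card + 1 = k) : (nb G X t).card = k := by
  have htY : t ∈ Y := (Finset.union_subset (nb_sub _ _) (nb_sub _ _)) h1
  have h3 := p6_split (G := G) S.hY t
  have h4 : ¬ 2 ≤ (nb G (X \ Y) t).card := fun h => h2 (by
    have h6 := S.rev.other htY h
    exact h6)
  have h5 : 0 < (nb G (X \ Y) t).card := by
    rw [mem_union] at h1
    rcases h1 with h | h
    · exact Finset.card_pos.2 ⟨w3, mem_nb.2 ⟨mem_sdiff.2 ⟨S.x3, S.y3⟩, (mem_nb.1 h).2.symm⟩⟩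
    · exact Finset.card_pos.2 ⟨w1, mem_nb.2 ⟨mem_sdiff.2 ⟨S.x1, S.y1⟩, (mem_nb.1 h).2.symm⟩⟩
  omega

end P6

/-- a vertex of a star with many neighbours outside is the centre -/
theorem p6_cen {k : ℕ} {Y T : Finset V} {r x : V} (hS : StarT G k Y T r) (hx : x ∈ T)
    {C : Finset V} (hC : C ⊆ nb G Y x) (hCT : Disjoint C T)
    (hc : (nb G Y x).card + 2 < C.card + k) : x = r := by
  by_contra hne
  have h1 : x ∈ T.erase r := mem_erase.2 ⟨hne, hx⟩
  have h2 := Finset.card_erase_add_one hS.hr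
  have h3 := Finset.card_erase_add_one h1
  have h4 : C ∪ (T.erase r).erase x ⊆ nb G Y x := by
    refine Finset.union_subset hC fun t ht => ?_
    rw [mem_erase] at ht
    exact mem_nb.2 ⟨hS.hT (mem_erase.1 ht.2).2, hS.clq x h1 t ht.2 (Ne.symm ht.1)⟩
  have h5 : Disjoint C ((T.erase r).erase x) :=
    hCT.mono_right ((Finset.erase_subset _ _).trans (Finset.erase_subset _ _))
  have h6 := Finset.card_le_card h4
  rw [Finset.card_union_of_disjoint h5] at h6
  have h7 := hS.hc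
  omega

/-- a vertex of degree `k` of the type 3 has no further neighbours -/
theorem TyT3.p6_nQ {k : ℕ} {X Q : Finset V} {y1 y2 y3 : V} (S : TyT3 G k X Q y1 y2 y3)
    {q t : V} (hq : q ∈ Q) (hd : (nb G X q).card = k) (ht : t ∈ X) (htQ : t ∉ Q)
    (h1 : t ≠ y1) (h2 : t ≠ y2) (h3 : t ≠ y3) : ¬ G.Adj q t := by
  intro h
  have g3 : y3 ∉ Q.erase q := fun e => S.q3 (mem_erase.1 e).2
  have g2 : y2 ∉ insert y3 (Q.erase q) := by
    rw [mem_insert]
    rintro (e | e)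
    · exact S.e23 e
    · exact S.q2 (mem_erase.1 e).2
  have g1 : y1 ∉ insert y2 (insert y3 (Q.erase q)) := by
    rw [mem_insert, mem_insert]
    rintro (e | e | e)
    · exact S.e12 e
    · exact S.e13 e
    · exact S.q1 (mem_erase.1 e).2
  have g0 : t ∉ insert y1 (insert y2 (insert y3 (Q.erase q))) := by
    rw [mem_insert, mem_insert, mem_insert]
    rintro (e | e | e | e)
    · exact h1 e
    · exact h2 e
    · exact h3 e
    · exact htQ (mem_erase.1 e).2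
  have g4 : insert t (insert y1 (insert y2 (insert y3 (Q.erase q)))) ⊆ nb G X q := by
    intro z hz
    rw [mem_insert, mem_insert, mem_insert, mem_insert, mem_erase] at hz
    rcases hz with e | e | e | e | e
    · rw [e]; exact mem_nb.2 ⟨ht, h⟩
    · rw [e]; exact mem_nb.2 ⟨S.h1, (S.aQ1 q hq).symm⟩
    · rw [e]; exact mem_nb.2 ⟨S.h2, (S.aQ2 q hq).symm⟩
    · rw [e]; exact mem_nb.2 ⟨S.h3, (S.aQ3 q hq).symm⟩
    · exact mem_nb.2 ⟨S.hQX e.2, S.hQq q hq z e.2 (Ne.symm e.1)⟩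
  have g5 := Finset.card_le_card g4
  rw [Finset.card_insert_of_notMem g0, Finset.card_insert_of_notMem g1,
    Finset.card_insert_of_notMem g2, Finset.card_insert_of_notMem g3] at g5
  have g6 := Finset.card_erase_add_one hq
  have g7 := S.hQc
  omega

/-- one missed vertex of the centre, which sees the other vertices -/
theorem AllP.p6_E {k : ℕ} {X Y : Finset V} {w1 w2 w3 w4 : V} (A : AllP G k X)
    (S : P6 G k X Y w1 w2 w3 w4) {T : Finset V} (hT : T = nb G Y w2 ∪ nb G Y w4) {r : V}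
    (hS : StarT G k Y T r) {e l : V} (he : e ∈ T.erase r) (hl : l ∈ T.erase r) (hel : e ≠ l)
    (hL : ∀ t ∈ T.erase r, t ≠ l → G.Adj r t) (hrl : ¬ G.Adj r l)
    (hdeg : (nb G X r).card + (nb G X l).card + 3 = 3 * k) (hde : k < (nb G X e).card)
    (hoth : ∀ t ∈ T.erase r, t ≠ e → t ≠ l → (nb G X t).card = k) : False := by
  have M := A.mc
  have h5 := A.h5
  have hlT := (mem_erase.1 hl).2
  have hlr := (mem_erase.1 hl).1
  have hlc : l ∈ nb Gᶜ T r := mem_nb.2 ⟨hlT, (SimpleGraph.compl_adj _ _ _).2 ⟨hlr.symm, hrl⟩⟩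
  have hLc : nb Gᶜ T r = {l} := by
    ext t
    rw [mem_singleton]
    constructor
    · intro ht
      have h1 := (SimpleGraph.compl_adj _ _ _).1 (mem_nb.1 ht).2
      by_contra e1
      exact h1.2 (hL t (mem_erase.2 ⟨h1.1.symm, (mem_nb.1 ht).1⟩) e1)
    · intro e1
      rw [e1]
      exact hlc
  -- `r` and `l` have one neighbour outside `Y`
  have hlow := hS.low l hlc
  have hdr := deg_split (G := G) hS.hT hS.hr
  rw [hLc, Finset.card_singleton, hS.hc] at hdr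
  have hfr := p6_split (G := G) S.hY r
  have hfl := p6_split (G := G) S.hY l
  have hpos : ∀ t ∈ T, 0 < (nb G (X \ Y) t).card := by
    intro t ht
    rw [hT, mem_union] at ht
    rcases ht with h | h
    · exact Finset.card_pos.2 ⟨w2, mem_nb.2 ⟨mem_sdiff.2 ⟨S.x2, S.y2⟩, (mem_nb.1 h).2.symm⟩⟩
    · exact Finset.card_pos.2 ⟨w4, mem_nb.2 ⟨mem_sdiff.2 ⟨S.x4, S.y4⟩, (mem_nb.1 h).2.symm⟩⟩
  have hpr := hpos r hS.hr
  have hpl := hpos l hlT
  -- `e` lies in the other transversal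
  have heT := (mem_erase.1 he).2
  have her := (mem_erase.1 he).1
  have heY := hS.hT heT
  have hps1 : ps G k Y ≤ 1 := by rw [S.ps0]; norm_num
  have hps4 : ps G k Y ≤ 4 := by rw [S.ps0]; norm_num
  have hde1 := M.fn_star S.hY S.ne hps1 hS hlc e heT her hel
  have hfe := p6_split (G := G) S.hY e
  have he13 : e ∈ nb G Y w3 ∪ nb G Y w1 := S.other heY (by omega)
  have hK : ∀ t ∈ T, t ∈ nb G Y w3 ∪ nb G Y w1 → t = e := by
    intro t ht ht'
    by_contra hne
    have ht2 : t ∈ nb G Y w2 ∪ nb G Y w4 := by rw [← hT]; exact ht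
    have h1 := S.both ht2 ht'
    by_cases e1 : t = r
    · rw [e1] at h1
      omega
    · by_cases e2 : t = l
      · rw [e2] at h1
        omega
      · exact S.both' ht2 ht' (hoth t (mem_erase.2 ⟨e1, ht⟩) hne e2)
  have hNe : nb G Y e = T.erase e := by
    symm
    refine Finset.eq_of_subset_of_card_le ?_ ?_
    · intro t ht
      rw [mem_erase] at ht
      refine mem_nb.2 ⟨hS.hT ht.2, ?_⟩
      by_cases e1 : t = r
      · rw [e1]
        exact (hL e he hel).symm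
      · exact hS.clq e he t (mem_erase.2 ⟨e1, ht.2⟩) (Ne.symm ht.1)
    · have h1 := Finset.card_erase_add_one heT
      have h2 := hS.hc
      omega
  have hno : ∀ t ∈ nb G Y w3 ∪ nb G Y w1, ¬ G.Adj e t := by
    intro t ht h
    have htY : t ∈ Y := (Finset.union_subset (nb_sub _ _) (nb_sub _ _)) ht
    have h1 : t ∈ nb G Y e := mem_nb.2 ⟨htY, h⟩
    rw [hNe, mem_erase] at h1
    exact h1.1 (hK t h1.2 ht)
  -- the star of the other transversal
  obtain ⟨T', hT'⟩ : ∃ T', T' = nb G Y w3 ∪ nb G Y w1 := ⟨_, rfl⟩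
  rw [← hT'] at he13 hno hK
  have hT'c : T'.card = k := by rw [hT']; exact S.c13
  have hT'Y : T' ⊆ Y := by
    rw [hT']
    exact Finset.union_subset (nb_sub _ _) (nb_sub _ _)
  obtain ⟨r', hS'⟩ := M.star8g S.hY S.ne hps4 S.tau hT'Y hT'c (by rw [hT']; exact S.t13)
    (Or.inl hps1)
  have hr' : e = r' := by
    by_contra hne
    have h1 : e ∈ T'.erase r' := mem_erase.2 ⟨hne, he13⟩
    have h2 := Finset.card_erase_add_one hS'.hr
    have h3 := Finset.card_erase_add_one h1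
    obtain ⟨t, ht⟩ := Finset.card_pos.1 (by omega : 0 < ((T'.erase r').erase e).card)
    rw [mem_erase] at ht
    exact hno t (mem_erase.1 ht.2).2 (hS'.clq e h1 t ht.2 (Ne.symm ht.1))
  rw [← hr'] at hS'
  have hL' : T'.erase e ⊆ nb Gᶜ T' e := by
    intro t ht
    rw [mem_erase] at ht
    exact mem_nb.2 ⟨ht.2, (SimpleGraph.compl_adj _ _ _).2 ⟨Ne.symm ht.1, hno t ht.2⟩⟩
  have h2 := Finset.card_erase_add_one hS'.hr
  have h3 := Finset.card_le_card hL'
  have hs0 := M.star0 S.hY S.ne hps1 hS' (by omega)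
  refine A.p6_notall (P := T'.erase e) ?_ (by omega) hS'.clq ?_
  · exact (Finset.erase_subset _ _).trans (hS'.hT.trans S.hY)
  · intro t ht
    have htT := (mem_erase.1 ht).2
    refine S.degk (by rw [← hT']; exact htT) (fun h => ?_) (hs0 t ht)
    rw [← hT] at h
    exact (mem_erase.1 ht).1 (hK t h htT)

/-- the facts on the type 3: the vertices of the clique have degree `k` and the outer
neighbourhoods are disjoint -/
def T3F (G : SimpleGraph V) [DecidableRel G.Adj] (k : ℕ) (X : Finset V) : Prop :=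
  ∀ Q y1 y2 y3, TyT3 G k X Q y1 y2 y3 → (∀ q ∈ Q, (nb G X q).card = k) ∧
    ∀ v ∈ X, v ∉ Q → v ≠ y1 → v ≠ y2 → v ≠ y3 → ¬ (G.Adj y1 v ∧ G.Adj y2 v) ∧
      ¬ (G.Adj y1 v ∧ G.Adj y3 v) ∧ ¬ (G.Adj y2 v ∧ G.Adj y3 v)

/-- the case of the type 3 -/
theorem AllP.p6_bad {k : ℕ} {X Y : Finset V} {w1 w2 w3 w4 : V} (A : AllP G k X)
    (hT3 : T3F G k X) (S : P6 G k X Y w1 w2 w3 w4) {T : Finset V}
    (hT : T = nb G Y w2 ∪ nb G Y w4) {r : V} (hS : StarT G k Y T r) {b g : V}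
    (hb : b ∈ T.erase r) (hg : g ∈ Y)
    (h : TyT3 G k X ((T.erase r).erase b) b w4 g) (hw : nb G Y w2 = {b, r}) : False := by
  have M := A.mc
  have h5 := A.h5
  obtain ⟨hdQ, hdis⟩ := hT3 _ _ _ _ h
  obtain ⟨C, hC⟩ : ∃ C, C = (T.erase r).erase b := ⟨_, rfl⟩
  rw [← hC] at h hdQ hdis
  have hCT : C ⊆ T := by
    rw [hC]
    exact (Finset.erase_subset _ _).trans (Finset.erase_subset _ _)
  have hCY : C ⊆ Y := hCT.trans hS.hT
  have hbT := (mem_erase.1 hb).2
  have hbr := (mem_erase.1 hb).1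
  have hbY := hS.hT hbT
  have hrY := hS.hT hS.hr
  have hrC : r ∉ C := by
    rw [hC, mem_erase, mem_erase]
    exact fun e => e.2.1 rfl
  have w2b : G.Adj w2 b := (mem_nb.1 (by rw [hw]; exact mem_insert_self _ _ : b ∈ nb G Y w2)).2
  have w2r : G.Adj w2 r := (mem_nb.1 (by
    rw [hw]; exact mem_insert_of_mem (mem_singleton_self _) : r ∈ nb G Y w2)).2
  have hgr : g ≠ r := by
    intro e
    refine (hdis w2 S.x2 (fun e1 => S.y2 (hCY e1)) (fun e1 => S.y2 (e1 ▸ hbY)) S.e24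
      (fun e1 => S.y2 (e1 ▸ hg))).2.1 ⟨w2b.symm, ?_⟩
    rw [e]
    exact w2r.symm
  have hrq : ∀ q ∈ C, ¬ G.Adj q r := fun q hq => h.p6_nQ hq (hdQ q hq) (S.hY hrY) hrC hbr.symm
    (fun e => S.y4 (e ▸ hrY)) hgr.symm
  have hps1 : ps G k Y ≤ 1 := by rw [S.ps0]; norm_num
  have hps4 : ps G k Y ≤ 4 := by rw [S.ps0]; norm_num
  have hCc : C.card + 2 = k := h.hQc
  have hCL : C ⊆ nb Gᶜ T r := by
    intro q hq
    refine mem_nb.2 ⟨hCT hq, (SimpleGraph.compl_adj _ _ _).2 ⟨fun e => hrC (e ▸ hq), ?_⟩⟩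
    exact fun e => hrq q hq e.symm
  have hL2 := Finset.card_le_card hCL
  have hs0 := M.star0 S.hY S.ne hps1 hS (by omega)
  have hdb := hs0 b hb
  have hfb := p6_split (G := G) S.hY b
  have hd1 := h.d1
  have hb13 : b ∈ nb G Y w3 ∪ nb G Y w1 := S.other hbY (by omega)
  obtain ⟨T', hT'⟩ : ∃ T', T' = nb G Y w3 ∪ nb G Y w1 := ⟨_, rfl⟩
  rw [← hT'] at hb13
  have hT'c : T'.card = k := by rw [hT']; exact S.c13
  have hT'Y : T' ⊆ Y := by
    rw [hT']
    exact Finset.union_subset (nb_sub _ _) (nb_sub _ _)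
  obtain ⟨r', hS'⟩ := M.star8g S.hY S.ne hps4 S.tau hT'Y hT'c (by rw [hT']; exact S.t13)
    (Or.inl hps1)
  have hK : ∀ t ∈ T, t ∈ T' → (nb G X t).card ≠ k := by
    intro t ht ht'
    rw [hT] at ht
    rw [hT'] at ht'
    exact S.both' ht ht'
  have hCT' : Disjoint C T' := by
    rw [Finset.disjoint_left]
    intro t ht ht'
    exact hK t (hCT ht) ht' (hdQ t ht)
  have hCb : C ⊆ nb G Y b := fun q hq => mem_nb.2 ⟨hCY hq, h.aQ1 q hq⟩
  have hbr' : b = r' := p6_cen hS' hb13 hCb hCT' (by omega)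
  rw [← hbr'] at hS'
  have hL2' : 2 ≤ (nb Gᶜ T' b).card := by
    have h1 := nbc_card (G := G) hb13
    have h2 : C ∪ nb G T' b ⊆ nb G Y b := Finset.union_subset hCb (nb_mono hT'Y b)
    have h3 := Finset.card_le_card h2
    rw [Finset.card_union_of_disjoint (hCT'.mono_right (nb_sub _ _))] at h3
    omega
  have hs0' := M.star0 S.hY S.ne hps1 hS' hL2'
  have hdk : ∀ t ∈ T'.erase b, t ≠ r → (nb G X t).card = k := by
    intro t ht htr
    have htT := (mem_erase.1 ht).2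
    refine S.degk (by rw [← hT']; exact htT) (fun h1 => ?_) (hs0' t ht)
    rw [← hT] at h1
    have h2 : t ∈ C := by
      rw [hC, mem_erase, mem_erase]
      exact ⟨(mem_erase.1 ht).1, htr, h1⟩
    exact (Finset.disjoint_left.1 hCT') h2 htT
  have hc1 := Finset.card_erase_add_one hS'.hr
  obtain ⟨z, hz, hzr⟩ : ∃ z ∈ T'.erase b, z ≠ r := by
    have h1 := Finset.pred_card_le_card_erase (s := T'.erase b) (a := r)
    obtain ⟨z, hz⟩ := Finset.card_pos.1 (by omega : 0 < ((T'.erase b).erase r).card)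
    exact ⟨z, (mem_erase.1 hz).2, (mem_erase.1 hz).1⟩
  have hzd := hdk z hz hzr
  have hzT := (mem_erase.1 hz).2
  have hgen : ∀ v w : V, v ∈ X → v ∉ Y → Disjoint (nb G Y v) (nb G Y w) →
      2 ≤ (nb G Y w).card → T' = nb G Y v ∪ nb G Y w → G.Adj v z → nb G Y w = {r, b} := by
    intro v w hv hvY hd hw2 hTv hvz
    obtain ⟨g', -, -, h1 | h1 | h1⟩ := A.p6_side S.hY S.tau hv hvY hd hw2 hTv hS' hz hvz hzd
    · obtain ⟨b', hb', h2, h3⟩ := h1
      have h4 : b' = r := by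
        by_contra e
        have h6 := hdk b' hb' e
        have h7 := h2.d1
        omega
      rw [h4] at h3
      exact h3
    · obtain ⟨u, hu, u', hu', huu, -, h2⟩ := h1
      exfalso
      have e1 : u = r := by
        by_contra e
        have h6 := hdk u hu e
        have h7 := h2.d1
        omega
      have e2 : u' = r := by
        by_contra e
        have h6 := hdk u' hu' e
        have h7 := h2.d2
        omega
      exact huu (e1.trans e2.symm)
    · obtain ⟨u, hu, u', hu', huu, h2, -⟩ := h1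
      exfalso
      have e1 : u = r := by
        by_contra e
        have h6 := hdk u hu e
        have h7 := h2.d3
        omega
      have e2 : u' = r := by
        by_contra e
        have h6 := hdk u' hu' e
        have h7 := h2.d2
        omega
      exact huu (e1.trans e2.symm)
  have hz' := hzT
  rw [hT', mem_union] at hz'
  rcases hz' with h1 | h1
  · have h2 := hgen w3 w1 S.x3 S.y3 S.d13 (le_trans (by norm_num) S.n1) hT' (mem_nb.1 h1).2
    have h3 := S.n1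
    have h4 := Finset.card_le_two (a := r) (b := b)
    rw [h2] at h3
    omega
  · have h2 := hgen w1 w3 S.x1 S.y1 S.d13.symm S.n3 (by rw [hT', Finset.union_comm])
      (mem_nb.1 h1).2
    have h3 : b ∈ nb G Y w3 := by
      rw [h2]
      exact mem_insert_of_mem (mem_singleton_self _)
    refine (hdis w3 S.x3 (fun e1 => S.y3 (hCY e1)) (fun e1 => S.y3 (e1 ▸ hbY)) S.a34.ne
      (fun e1 => S.y3 (e1 ▸ hg))).1 ⟨(mem_nb.1 h3).2.symm, S.a34.symm⟩

/-- the case of the path type with the other outer vertex outside -/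
theorem AllP.p6_path {k : ℕ} {X Y : Finset V} {w1 w2 w3 w4 : V} (A : AllP G k X)
    (S : P6 G k X Y w1 w2 w3 w4) {T : Finset V} (hT : T = nb G Y w2 ∪ nb G Y w4) {r : V}
    (hS : StarT G k Y T r) {u u' g : V} (hu : u ∈ T.erase r) (hu' : u' ∈ T.erase r)
    (huu : u ≠ u') (hgr : g ≠ r)
    (h : TyP4 G k X (((T.erase r).erase u).erase u') w4 u' u g) : False := by
  have M := A.mc
  have h5 := A.h5
  obtain ⟨C, hC⟩ : ∃ C, C = ((T.erase r).erase u).erase u' := ⟨_, rfl⟩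
  rw [← hC] at h
  have hCT : C ⊆ T := by
    rw [hC]
    exact (Finset.erase_subset _ _).trans
      ((Finset.erase_subset _ _).trans (Finset.erase_subset _ _))
  have hCY : C ⊆ Y := hCT.trans hS.hT
  have hrY := hS.hT hS.hr
  have hrC : r ∉ C := by
    rw [hC, mem_erase, mem_erase, mem_erase]
    exact fun e => e.2.2.1 rfl
  have hrq : ∀ q ∈ C, ¬ G.Adj q r := fun q hq => h.p6_nQ hq (mem_hd4.2 ⟨S.hY hrY, hrC,
    fun e => S.y4 (e ▸ hrY), (mem_erase.1 hu').1.symm, (mem_erase.1 hu).1.symm, hgr.symm⟩)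
  have hps1 : ps G k Y ≤ 1 := by rw [S.ps0]; norm_num
  have hps4 : ps G k Y ≤ 4 := by rw [S.ps0]; norm_num
  have hCc : C.card + 3 = k := h.hQc
  have hCL : C ⊆ nb Gᶜ T r := by
    intro q hq
    refine mem_nb.2 ⟨hCT hq, (SimpleGraph.compl_adj _ _ _).2 ⟨fun e => hrC (e ▸ hq), ?_⟩⟩
    exact fun e => hrq q hq e.symm
  have hL2 := Finset.card_le_card hCL
  have hs0 := M.star0 S.hY S.ne hps1 hS (by omega)
  obtain ⟨T', hT'⟩ : ∃ T', T' = nb G Y w3 ∪ nb G Y w1 := ⟨_, rfl⟩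
  have hT'c : T'.card = k := by rw [hT']; exact S.c13
  have hT'Y : T' ⊆ Y := by
    rw [hT']
    exact Finset.union_subset (nb_sub _ _) (nb_sub _ _)
  obtain ⟨r', hS'⟩ := M.star8g S.hY S.ne hps4 S.tau hT'Y hT'c (by rw [hT']; exact S.t13)
    (Or.inl hps1)
  have hCT' : Disjoint C T' := by
    rw [Finset.disjoint_left]
    intro t ht ht'
    have ht2 := hCT ht
    rw [hT] at ht2
    rw [hT'] at ht'
    exact S.both' ht2 ht' (h.dQ t ht)
  have key : ∀ x ∈ T.erase r, (∀ q ∈ C, G.Adj x q) → k < (nb G X x).card → x = r' := by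
    intro x hx hxC hdx
    have h1 := hs0 x hx
    have h2 := p6_split (G := G) S.hY x
    have h3 : x ∈ nb G Y w3 ∪ nb G Y w1 := S.other (hS.hT (mem_erase.1 hx).2) (by omega)
    rw [← hT'] at h3
    exact p6_cen hS' h3 (fun q hq => mem_nb.2 ⟨hCY hq, hxC q hq⟩) hCT' (by omega)
  exact huu ((key u hu h.aQ3 h.d3).trans (key u' hu' h.aQ2 h.d2).symm)

/-- no vertex of the clique of the first transversal has degree `k` -/
theorem AllP.p6_claim {k : ℕ} {X Y : Finset V} {w1 w2 w3 w4 : V} (A : AllP G k X)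
    (hT3 : T3F G k X) (S : P6 G k X Y w1 w2 w3 w4) {T : Finset V}
    (hT : T = nb G Y w2 ∪ nb G Y w4) {r : V} (hS : StarT G k Y T r) :
    ∀ z ∈ T.erase r, (nb G X z).card ≠ k := by
  intro z hz hzd
  -- form 2 of the path type
  have hform2 : ∀ v u u' : V, u ∈ T.erase r → u' ∈ T.erase r → u ≠ u' →
      TyP4 G k X (((T.erase r).erase u).erase u') u u' r v → False := by
    intro v u u' hu hu' huu h
    refine A.p6_E S hT hS hu' hu huu.symm ?_ (fun e => h.m13 e.symm) ?_ h.d2 ?_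
    · intro t ht htu
      by_cases e : t = u'
      · rw [e]
        exact h.a23.symm
      · exact h.aQ3 t (mem_erase.2 ⟨e, mem_erase.2 ⟨htu, ht⟩⟩)
    · have h1 := h.p6_s13
      omega
    · intro t ht h1 h2
      exact h.dQ t (mem_erase.2 ⟨h1, mem_erase.2 ⟨h2, ht⟩⟩)
  have hz' := (mem_erase.1 hz).2
  rw [hT, mem_union] at hz'
  rcases hz' with hzw | hzw
  · obtain ⟨g, hg, hgR, h1 | h1 | h1⟩ := A.p6_side S.hY S.tau S.x2 S.y2 S.d24
      (le_trans (by norm_num) S.n4) hT hS hz (mem_nb.1 hzw).2 hzd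
    · obtain ⟨b, -, -, h3⟩ := h1
      have h4 := S.n4
      have h6 := Finset.card_le_two (a := b) (b := r)
      rw [h3] at h4
      omega
    · obtain ⟨u, hu, u', hu', huu, -, h2⟩ := h1
      exact hform2 _ u u' hu hu' huu h2
    · obtain ⟨u, -, u', -, -, -, h3⟩ := h1
      have h4 := S.n4
      have h6 := Finset.card_le_two (a := u) (b := r)
      rw [h3] at h4
      omega
  · obtain ⟨g, hg, hgR, h1 | h1 | h1⟩ := A.p6_side S.hY S.tau S.x4 S.y4 S.d24.symm
      S.n2 (by rw [hT, Finset.union_comm]) hS hz (mem_nb.1 hzw).2 hzd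
    · obtain ⟨b, hb, h2, h3⟩ := h1
      exact A.p6_bad hT3 S hT hS hb hg h2 h3
    · obtain ⟨u, hu, u', hu', huu, -, h2⟩ := h1
      exact hform2 _ u u' hu hu' huu h2
    · obtain ⟨u, hu, u', hu', huu, h2, h3⟩ := h1
      by_cases hgr : g = r
      · rw [hgr] at h2
        refine A.p6_E S hT hS hu hu' huu ?_ (fun e => h2.m24 e.symm) ?_ h2.d3 ?_
        · intro t ht htu
          by_cases e : t = u
          · rw [e]
            exact h2.a34.symm
          · exact h2.aQ4 t (mem_erase.2 ⟨htu, mem_erase.2 ⟨e, ht⟩⟩)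
        · have h1 := h2.p6_s24
          omega
        · intro t ht h1 h4
          exact h2.dQ t (mem_erase.2 ⟨h4, mem_erase.2 ⟨h1, ht⟩⟩)
      · exact A.p6_path S hT hS hu hu' huu hgr h2

/-- the claim for both transversals -/
theorem AllP.p4R {k : ℕ} {X Q : Finset V} {w1 w2 w3 w4 : V} (A : AllP G k X)
    (hT3 : T3F G k X) (S : TyP4 G k X Q w1 w2 w3 w4) :
    (∀ r, StarT G k (hd4 X Q w1 w2 w3 w4) (nb G (hd4 X Q w1 w2 w3 w4) w2 ∪
      nb G (hd4 X Q w1 w2 w3 w4) w4) r → ∀ z ∈ (nb G (hd4 X Q w1 w2 w3 w4) w2 ∪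
      nb G (hd4 X Q w1 w2 w3 w4) w4).erase r, (nb G X z).card ≠ k) ∧
    (∀ r, StarT G k (hd4 X Q w1 w2 w3 w4) (nb G (hd4 X Q w1 w2 w3 w4) w1 ∪
      nb G (hd4 X Q w1 w2 w3 w4) w3) r → ∀ z ∈ (nb G (hd4 X Q w1 w2 w3 w4) w1 ∪
      nb G (hd4 X Q w1 w2 w3 w4) w3).erase r, (nb G X z).card ≠ k) := by
  have h1 := S.p6
  refine ⟨fun r hS => A.p6_claim hT3 h1 rfl hS, fun r hS => ?_⟩
  exact A.p6_claim hT3 h1.rev (Finset.union_comm _ _) hS

end Pool.Agent.TwoDens.TS
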