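import Pool.Agent.TKS.Sev

/-!
General facts on double transversals, and the case of two vertices missing for both `a` and `p`.
-/

open Finset

namespace Pool.Agent.TwoDens.TS

open Pool.Agent.TwoDens Pool.Agent.TwoDens.RK Pool.Agent.TwoDens.DD

variable {V : Type*} [DecidableEq V] {G : SimpleGraph V} [DecidableRel G.Adj]

omit [DecidableEq V] in
theorem cross_comm (A B : Finset V) :
    ∑ v ∈ A, (nb G B v).card = ∑ w ∈ B, (nb G A w).card := by
  unfold nb
  simp only [Finset.card_filter]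
  rw [Finset.sum_comm]
  refine Finset.sum_congr rfl fun x _ => Finset.sum_congr rfl fun y _ => ?_
  simp only [G.adj_comm]

/-- edges of a disjoint union -/
theorem e2_disj {A B : Finset V} (hd : Disjoint A B) :
    e2 G (A ∪ B) = e2 G A + e2 G B + 2 * ∑ v ∈ A, (nb G B v).card := by
  have h1 := e2_sdiff (G := G) (X := A ∪ B) (R := A) Finset.subset_union_left
  have h2 : (A ∪ B) \ A = B := by
    rw [Finset.union_sdiff_left]
    exact Finset.sdiff_eq_self_of_disjoint hd.symm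
  have h3 : ∑ v ∈ A, (nb G (A ∪ B) v).card = e2 G A + ∑ v ∈ A, (nb G B v).card := by
    rw [e2_eq, ← Finset.sum_add_distrib]
    refine Finset.sum_congr rfl fun v _ => ?_
    unfold nb
    rw [Finset.filter_union, Finset.card_union_of_disjoint (Finset.disjoint_filter_filter hd)]
  rw [h2, h3] at h1
  omega

/-- the neighbours of `X \ Z` in `Z` form a transversal of `Z` -/
theorem MC.p1b {k : ℕ} {X : Finset V} (H : MC G k X) {Z S : Finset V} (hZ : Z ⊆ X)
    (hZn : Z.Nonempty) (hW : (X \ Z).Nonempty)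
    (hS : ∀ v ∈ X \ Z, ∀ w ∈ Z, G.Adj v w → w ∈ S) : Tr G Z S := by
  obtain ⟨J, hJ, hJi, hJc⟩ := exists_al (G := G) (X \ Z)
  have h1 := H.p1 (A := X \ Z) (B := Z) (Finset.sdiff_union_of_subset hZ) Finset.sdiff_disjoint
    hW hZn
  refine tr_nbr (X := X) (J := J) hZ (hJ.trans Finset.sdiff_subset) ?_ hJi (by omega) ?_
  · exact Finset.disjoint_of_subset_left hJ Finset.sdiff_disjoint
  · intro z hz w hw h
    exact hS z (hJ hz) w hw h

/-- double transversals with `2 k - 1` elements of a set of potential zero -/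
theorem MC.dbl {k : ℕ} {X : Finset V} (H : MC G k X) {Y B : Finset V} (hY : Y ⊆ X)
    (hne : Y ≠ X) (hp : ps G k Y = 0) (hB : B ⊆ Y) (hc : B.card + 1 = 2 * k)
    (hal : al G (Y \ B) + 2 ≤ al G Y) :
    al G (Y \ B) + 2 = al G Y ∧
      ps G k (Y \ B) + exs G (k - 1) Y B + bd G Y B + 3 = k := by
  have hk := H.hk
  have hk' : (4 : ℤ) ≤ k := by exact_mod_cast hk
  have ht : TauGe G Y k := H.tau0 hY hne (by rw [hp]; norm_num)
  have hdeg : ∀ v ∈ B, k - 1 ≤ (nb G Y v).card := fun v hv => by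
    have := ht.deg (hB hv)
    omega
  have h1 := ps_sdiff (G := G) k hB
  have h2 := sum_deg' (G := G) hB
  have h3 := sum_ge (G := G) (Y := Y) (S := B) (k - 1) hdeg
  have h4 := H.ps_sub hY hne B
  obtain ⟨D, hD⟩ : ∃ D : ℕ, ∑ v ∈ B, (nb G Y v).card = D := ⟨_, rfl⟩
  rw [hD] at h1 h2 h3
  obtain ⟨m, rfl⟩ : ∃ m, k = m + 1 := ⟨k - 1, by omega⟩
  have hBc : B.card = 2 * m + 1 := by omega
  rw [hBc] at h1 h3
  have g2 : (D : ℤ) = e2 G B + bd G Y B := by exact_mod_cast h2
  have g3 : (D : ℤ) = m * (2 * m + 1) + exs G m Y B := by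
    have : D = m * (2 * m + 1) + exs G m Y B := by simpa using h3
    exact_mod_cast this
  have hex : exs G (m + 1 - 1) Y B = exs G m Y B := by simp
  rw [hex]
  have g5 : (2 : ℤ) ≤ (al G Y : ℤ) - al G (Y \ B) := by
    have : (al G (Y \ B) : ℤ) + 2 ≤ al G Y := by exact_mod_cast hal
    linarith
  have b1 : (0 : ℤ) ≤ exs G m Y B := Int.natCast_nonneg _
  have b2 : (0 : ℤ) ≤ bd G Y B := Int.natCast_nonneg _
  push_cast at h1 hk' ⊢
  have e1 : ps G (m + 1) (Y \ B) + (3 * ((m : ℤ) + 1) ^ 2 - 3 * (m + 1) + 2) *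
      (((al G Y : ℤ) - al G (Y \ B)) - 2) + exs G m Y B + bd G Y B + 3 = m + 1 := by
    nlinarith
  have e2' : (al G Y : ℤ) - al G (Y \ B) = 2 := by
    by_contra hcon
    have h6 : (1 : ℤ) ≤ ((al G Y : ℤ) - al G (Y \ B)) - 2 := by omega
    have h7 : (0 : ℤ) ≤ 3 * ((m : ℤ) + 1) ^ 2 - 3 * (m + 1) + 2 := by nlinarith
    have h8 := mul_le_mul_of_nonneg_left h6 h7
    nlinarith
  refine ⟨by omega, ?_⟩
  rw [e2'] at e1
  linarith

theorem card_hb {X P : Finset V} {x x' : V} (hP : P ⊆ X) (hx : x ∈ X \ P) (hx' : x' ∈ X \ P)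
    (hne : x ≠ x') : (hb X P x x').card + 2 + P.card = X.card := by
  have c1 : (X \ P).card + P.card = X.card := Finset.card_sdiff_add_card_eq_card hP
  have hsub : ({x, x'} : Finset V) ⊆ X \ P := by
    intro z hz
    rw [mem_insert, mem_singleton] at hz
    rcases hz with rfl | rfl
    · exact hx
    · exact hx'
  have c2 : ((X \ P) \ {x, x'}).card + 2 = (X \ P).card := by
    rw [← Finset.card_pair hne]
    exact Finset.card_sdiff_add_card_eq_card hsub
  unfold hb
  omega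

namespace Fr
variable {k : ℕ} {X P : Finset V} (F : Fr G k X P)
include F

/-- an independent triple `a, p, u` outside `H`: a double transversal -/
theorem trip {c a p : V} (B : Base G k X P c a p) (hap : ¬ G.Adj a p) {u : V} (hu : u ∈ P)
    (au : ¬ G.Adj a u) (pu : ¬ G.Adj p u) {T : Finset V}
    (hT : T = nb G (hb X P a p) a ∪ nb G (hb X P a p) p ∪ nb G (hb X P a p) u) :
    al G (hb X P a p \ T) + 2 ≤ al G (hb X P a p) ∧ 2 * k ≤ T.card + 1 := by
  have ha := mem_sdiff.1 B.hx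
  have hp := mem_sdiff.1 B.hx'
  have hTH : T ⊆ hb X P a p := by
    rw [hT]
    exact Finset.union_subset (Finset.union_subset (nb_sub _ _) (nb_sub _ _)) (nb_sub _ _)
  have hau : a ≠ u := fun h => ha.2 (h ▸ hu)
  have hpu : p ≠ u := fun h => hp.2 (h ▸ hu)
  obtain ⟨Z, hZ⟩ : ∃ Z, Z = hb X P a p \ T := ⟨_, rfl⟩
  have hZX : Z ⊆ X := by
    rw [hZ]
    exact Finset.sdiff_subset.trans hb_sub
  have hXZ : X \ (X \ Z) = Z := by
    rw [Finset.sdiff_sdiff_eq_self hZX]
  have haZ : a ∉ Z := by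
    rw [hZ, mem_sdiff, mem_hb]
    exact fun h => h.1.2.2.1 rfl
  have hpZ : p ∉ Z := by
    rw [hZ, mem_sdiff, mem_hb]
    exact fun h => h.1.2.2.2 rfl
  have huZ : u ∉ Z := by
    rw [hZ, mem_sdiff, mem_hb]
    exact fun h => h.1.2.1 hu
  have h1 := al_closed (G := G) (Y := X) (S := X \ Z) (J := {a, p, u}) (by
    intro z hz
    rw [mem_insert, mem_insert, mem_singleton] at hz
    rcases hz with rfl | rfl | rfl
    · exact ha.1
    · exact hp.1
    · exact F.hP hu) (by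
    intro z hz
    rw [mem_insert, mem_insert, mem_singleton] at hz
    rcases hz with rfl | rfl | rfl
    · exact mem_sdiff.2 ⟨ha.1, haZ⟩
    · exact mem_sdiff.2 ⟨hp.1, hpZ⟩
    · exact mem_sdiff.2 ⟨F.hP hu, huZ⟩) (indep_triple hap au pu) (by
    intro z hz w hw hzw
    refine mem_sdiff.2 ⟨hw, fun hwZ => ?_⟩
    rw [hZ, mem_sdiff] at hwZ
    apply hwZ.2
    rw [hT, mem_union, mem_union]
    rw [mem_insert, mem_insert, mem_singleton] at hz
    rcases hz with rfl | rfl | rfl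
    · exact Or.inl (Or.inl (mem_nb.2 ⟨hwZ.1, hzw⟩))
    · exact Or.inl (Or.inr (mem_nb.2 ⟨hwZ.1, hzw⟩))
    · exact Or.inr (mem_nb.2 ⟨hwZ.1, hzw⟩))
  have hc3 : ({a, p, u} : Finset V).card = 3 := by
    rw [Finset.card_insert_of_notMem (by simp [B.hne, hau]), Finset.card_pair hpu]
  rw [hc3] at h1
  have h2 := F.mc.closed3 (S := X \ Z) Finset.sdiff_subset h1
  rw [hXZ] at h1
  have halH := (F.bp _ _ _ B).alH
  have c1 : (X \ Z).card + Z.card = X.card := Finset.card_sdiff_add_card_eq_card hZX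
  have c2 : Z.card + T.card = (hb X P a p).card := by
    rw [hZ]
    exact Finset.card_sdiff_add_card_eq_card hTH
  have c3 := card_hb F.hP B.hx B.hx' B.hne
  have c4 := F.hPc
  rw [← hZ]
  constructor
  · omega
  · omega

/-- an independent triple `a, p, u` with a small double transversal -/
theorem r2g {c a p : V} (B : Base G k X P c a p) (hap : ¬ G.Adj a p) {u v : V} (hu : u ∈ P)
    (au : ¬ G.Adj a u) (pu : ¬ G.Adj p u)
    (hrest : ∀ q ∈ P, q ≠ u → q ≠ v → nb G (hb X P a p) q = ∅)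
    (hps : ps G k (hb X P a p) = 0) (hpsX : -2 ≤ ps G k X) {T : Finset V}
    (hT : T = nb G (hb X P a p) a ∪ nb G (hb X P a p) p ∪ nb G (hb X P a p) u)
    (hTc' : T.card + 1 ≤ 2 * k) :
    3 ≤ (nb G (hb X P a p) v \ T).card ∧
      ((nb G (hb X P a p) v \ T).card ≤ 3 → bd G (hb X P a p) T + 3 = k) := by
  have hk := F.mc.hk
  have hk' : (4 : ℤ) ≤ k := by exact_mod_cast hk
  have ha := mem_sdiff.1 B.hx
  have hp := mem_sdiff.1 B.hx'
  obtain ⟨h1, h2⟩ := F.trip B hap hu au pu hT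
  obtain ⟨H, hH⟩ : ∃ H, H = hb X P a p := ⟨_, rfl⟩
  have hHX : H ⊆ X := by rw [hH]; exact hb_sub
  have hHne : H ≠ X := by rw [hH]; exact B.hbne
  have halH := (F.bp _ _ _ B).alH
  have cH := card_hb F.hP B.hx B.hx' B.hne
  have hPc := F.hPc
  rw [← hH] at hT hps h1 halH cH ⊢
  have hTH : T ⊆ H := by
    rw [hT]
    exact Finset.union_subset (Finset.union_subset (nb_sub _ _) (nb_sub _ _)) (nb_sub _ _)
  have hTc : T.card + 1 = 2 * k := by omega
  obtain ⟨d1, d2⟩ := F.mc.dbl hHX hHne hps hTH hTc h1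
  obtain ⟨Z, hZ⟩ : ∃ Z, Z = H \ T := ⟨_, rfl⟩
  rw [← hZ] at d1 d2 h1
  have hZX : Z ⊆ X := by
    rw [hZ]
    exact Finset.sdiff_subset.trans hHX
  have hZne : Z ≠ X := by
    intro h
    apply hHne
    refine Finset.Subset.antisymm hHX ?_
    rw [← h, hZ]
    exact Finset.sdiff_subset
  have haZ : a ∉ Z := by
    rw [hZ, mem_sdiff, hH, mem_hb]
    exact fun h => h.1.2.2.1 rfl
  have cZ : Z.card + T.card = H.card := by
    rw [hZ]
    exact Finset.card_sdiff_add_card_eq_card hTH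
  have b1 : (0 : ℤ) ≤ exs G (k - 1) H T := Int.natCast_nonneg _
  have b2 : (0 : ℤ) ≤ bd G H T := Int.natCast_nonneg _
  have b3 : 0 ≤ ps G k Z := F.mc.hmin Z hZX hZne
  have hZn : Z.Nonempty := by
    rw [Finset.nonempty_iff_ne_empty]
    intro h0
    rw [h0, Finset.card_empty] at cZ
    rw [h0, al_empty] at d1
    have e1 : X.card = 3 * k := by omega
    have e2' : al G X = 3 := by omega
    have e3 := F.mc.hS X (Finset.Subset.refl X) (by omega)
    unfold ps at hpsX
    rw [e1] at e3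
    rw [e1, e2'] at hpsX
    have e4 : (e2 G X : ℤ) + 2 * k + 1 ≤ (k + 1) * (3 * k) := by exact_mod_cast e3
    push_cast at hpsX
    nlinarith
  obtain ⟨S, hS⟩ : ∃ S, S = (nb G H v \ T) ∪ T.biUnion (fun w => nb G H w \ T) := ⟨_, rfl⟩
  have htr : Tr G Z S := by
    refine F.mc.p1b hZX hZn ⟨a, mem_sdiff.2 ⟨ha.1, haZ⟩⟩ ?_
    intro x hx w hw hxw
    have hx' := mem_sdiff.1 hx
    have hw' := hw
    rw [hZ, mem_sdiff] at hw'
    rw [hS, mem_union]
    by_cases hxT : x ∈ T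
    · exact Or.inr (Finset.mem_biUnion.2 ⟨x, hxT, mem_sdiff.2 ⟨mem_nb.2 ⟨hw'.1, hxw⟩, hw'.2⟩⟩)
    · have hxH : x ∉ H := by
        intro h
        apply hx'.2
        rw [hZ]
        exact mem_sdiff.2 ⟨h, hxT⟩
      by_cases e1 : x = a
      · exfalso
        apply hw'.2
        rw [hT, mem_union, mem_union]
        exact Or.inl (Or.inl (mem_nb.2 ⟨hw'.1, e1 ▸ hxw⟩))
      by_cases e2 : x = p
      · exfalso
        apply hw'.2
        rw [hT, mem_union, mem_union]
        exact Or.inl (Or.inr (mem_nb.2 ⟨hw'.1, e2 ▸ hxw⟩))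
      have hxP : x ∈ P := by
        by_contra h
        apply hxH
        rw [hH, mem_hb]
        exact ⟨hx'.1, h, e1, e2⟩
      by_cases e3 : x = u
      · exfalso
        apply hw'.2
        rw [hT, mem_union]
        exact Or.inr (mem_nb.2 ⟨hw'.1, e3 ▸ hxw⟩)
      by_cases e4 : x = v
      · exact Or.inl (mem_sdiff.2 ⟨mem_nb.2 ⟨hw'.1, e4 ▸ hxw⟩, hw'.2⟩)
      exfalso
      have h3 := hrest x hxP e3 e4
      rw [← hH] at h3
      have h4 : w ∈ nb G H x := mem_nb.2 ⟨hw'.1, hxw⟩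
      rw [h3] at h4
      simp at h4
  have hSZ : S ⊆ Z := by
    rw [hS, hZ]
    refine Finset.union_subset (Finset.sdiff_subset_sdiff (nb_sub _ _) (Finset.Subset.refl _)) ?_
    intro w hw
    rw [Finset.mem_biUnion] at hw
    obtain ⟨x, _, hx⟩ := hw
    exact Finset.sdiff_subset_sdiff (nb_sub _ _) (Finset.Subset.refl _) hx
  have hSc : S.card ≤ (nb G H v \ T).card + bd G H T := by
    rw [hS]
    exact (Finset.card_union_le _ _).trans (Nat.add_le_add_left Finset.card_biUnion_le _)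
  have t1 := F.mc.tau1 hZX hZne (by linarith) S hSZ htr
  have hle : bd G H T + 3 ≤ k := by
    have : (bd G H T : ℤ) + 3 ≤ k := by linarith
    exact_mod_cast this
  have key : (nb G H v \ T).card ≤ 3 → k ≤ (nb G H v \ T).card + bd G H T := by
    intro hn
    have hbd : k ≤ bd G H T + 4 := by omega
    have hbd' : (k : ℤ) ≤ bd G H T + 4 := by exact_mod_cast hbd
    have t0 := F.mc.tau0 hZX hZne (by linarith) S hSZ htr
    omega
  constructor
  · by_contra hcon
    have := key (by omega)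
    omega
  · intro hn
    have := key hn
    omega

/-- one half of the analysis of `D = D' = {u, v}` -/
theorem r2a {c a p : V} (B : Base G k X P c a p) (hap : ¬ G.Adj a p) {u v : V} (hu : u ∈ P)
    (au : ¬ G.Adj a u) (pu : ¬ G.Adj p u)
    (nu : 3 ≤ (nb G (hb X P a p) u).card) (nv : (nb G (hb X P a p) v).card ≤ 3)
    (hrest : ∀ q ∈ P, q ≠ u → q ≠ v → nb G (hb X P a p) q = ∅)
    (hps : ps G k (hb X P a p) = 0) (hpsX : -2 ≤ ps G k X)
    (A : (nb G (hb X P a p) a).card + (nb G (hb X P a p) u).card ≤ k + 1)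
    (A' : (nb G (hb X P a p) p).card + (nb G (hb X P a p) u).card ≤ k + 1)
    {T : Finset V}
    (hT : T = nb G (hb X P a p) a ∪ nb G (hb X P a p) p ∪ nb G (hb X P a p) u) :
    (nb G (hb X P a p) u).card = 3 ∧ Disjoint (nb G (hb X P a p) v) T ∧
      bd G (hb X P a p) T + 3 = k := by
  obtain ⟨h1, h2⟩ := F.trip B hap hu au pu hT
  have c1 := Finset.card_union_le (nb G (hb X P a p) a ∪ nb G (hb X P a p) p)
    (nb G (hb X P a p) u)
  have c2 := Finset.card_union_le (nb G (hb X P a p) a) (nb G (hb X P a p) p)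
  rw [← hT] at c1
  obtain ⟨g1, g2⟩ := F.r2g B hap hu au pu hrest hps hpsX hT (by omega)
  have hsp := Finset.card_sdiff_add_card_inter (nb G (hb X P a p) v) T
  refine ⟨by omega, ?_, g2 (by omega)⟩
  rw [Finset.disjoint_iff_inter_eq_empty, ← Finset.card_eq_zero]
  omega

/-- two vertices `u, v` missing for both `a` and `p`, and `a, p` not adjacent -/
theorem r2 {c a p : V} (B : Base G k X P c a p) (hap : ¬ G.Adj a p) {u v : V} (hu : u ∈ P)
    (hv : v ∈ P) (au : ¬ G.Adj a u) (pu : ¬ G.Adj p u) (av : ¬ G.Adj a v) (pv : ¬ G.Adj p v)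
    (nu : 3 ≤ (nb G (hb X P a p) u).card) (nv : 3 ≤ (nb G (hb X P a p) v).card)
    (hrest : ∀ q ∈ P, q ≠ u → q ≠ v → nb G (hb X P a p) q = ∅)
    (hps : ps G k (hb X P a p) = 0) (hpsX : -2 ≤ ps G k X)
    (A : (nb G (hb X P a p) a).card + (nb G (hb X P a p) u).card ≤ k + 1)
    (A' : (nb G (hb X P a p) p).card + (nb G (hb X P a p) u).card ≤ k + 1)
    (C : (nb G (hb X P a p) a).card + (nb G (hb X P a p) v).card ≤ k + 1)
    (C' : (nb G (hb X P a p) p).card + (nb G (hb X P a p) v).card ≤ k + 1) : False := by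
  have hk := F.mc.hk
  obtain ⟨T1, hT1⟩ : ∃ T, T = nb G (hb X P a p) a ∪ nb G (hb X P a p) p ∪ nb G (hb X P a p) u :=
    ⟨_, rfl⟩
  obtain ⟨T2, hT2⟩ : ∃ T, T = nb G (hb X P a p) a ∪ nb G (hb X P a p) p ∪ nb G (hb X P a p) v :=
    ⟨_, rfl⟩
  have x1 := F.trip B hap hu au pu hT1
  have x2 := F.trip B hap hv av pv hT2
  have hnu : (nb G (hb X P a p) u).card ≤ 3 := by
    have c1 := Finset.card_union_le (nb G (hb X P a p) a ∪ nb G (hb X P a p) p)
      (nb G (hb X P a p) u)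
    have c2 := Finset.card_union_le (nb G (hb X P a p) a) (nb G (hb X P a p) p)
    rw [← hT1] at c1
    omega
  have hnv : (nb G (hb X P a p) v).card ≤ 3 := by
    have c1 := Finset.card_union_le (nb G (hb X P a p) a ∪ nb G (hb X P a p) p)
      (nb G (hb X P a p) v)
    have c2 := Finset.card_union_le (nb G (hb X P a p) a) (nb G (hb X P a p) p)
    rw [← hT2] at c1
    omega
  obtain ⟨_, d1, e1⟩ := F.r2a B hap hu au pu nu hnv hrest hps hpsX A A' hT1
  obtain ⟨_, d2, e2⟩ := F.r2a B hap hv av pv nv hnu (fun q hq h1 h2 => hrest q hq h2 h1) hps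
    hpsX C C' hT2
  have htau := (F.bp _ _ _ B).tau
  obtain ⟨H, hH⟩ : ∃ H, H = hb X P a p := ⟨_, rfl⟩
  rw [← hH] at hT1 hT2 nu nv hnu hnv d1 d2 e1 e2 htau
  obtain ⟨S, hS⟩ : ∃ S, S = nb G H a ∪ nb G H p := ⟨_, rfl⟩
  rw [← hS] at hT1 hT2
  obtain ⟨N, hN⟩ : ∃ N, N = nb G H u := ⟨_, rfl⟩
  rw [← hN] at hT1 nu hnu d2
  have hNH : N ⊆ H := by rw [hN]; exact nb_sub _ _
  have hST2 : S ⊆ T2 := by rw [hT2]; exact Finset.subset_union_left
  have hNT1 : N ⊆ T1 := by rw [hT1]; exact Finset.subset_union_right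
  have s1 : ∀ w ∈ N, k ≤ (nb G S w).card + 3 + (nb G H w \ T1).card := by
    intro w hw
    have f1 := htau.deg (hNH hw)
    have f2 : nb G H w ⊆ nb G S w ∪ N.erase w ∪ (nb G H w \ T1) := by
      intro z hz
      have hz' := mem_nb.1 hz
      rw [mem_union, mem_union, mem_sdiff, mem_erase, mem_nb]
      by_cases g : z ∈ T1
      · rw [hT1, mem_union] at g
        rcases g with g | g
        · exact Or.inl (Or.inl ⟨g, hz'.2⟩)
        · exact Or.inl (Or.inr ⟨fun h => G.loopless.irrefl w (h ▸ hz'.2), g⟩)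
      · exact Or.inr ⟨hz, g⟩
    have f3 := Finset.card_le_card f2
    have f4 := Finset.card_union_le (nb G S w ∪ N.erase w) (nb G H w \ T1)
    have f5 := Finset.card_union_le (nb G S w) (N.erase w)
    have f6 := Finset.card_erase_of_mem hw
    omega
  have s2 : N.card * k ≤ ∑ w ∈ N, ((nb G S w).card + 3 + (nb G H w \ T1).card) := by
    rw [← smul_eq_mul, ← Finset.sum_const]
    exact Finset.sum_le_sum s1
  rw [Finset.sum_add_distrib, Finset.sum_add_distrib, Finset.sum_const, smul_eq_mul] at s2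
  have s3 : ∑ w ∈ N, (nb G H w \ T1).card ≤ bd G H T1 := by
    unfold bd
    exact Finset.sum_le_sum_of_subset hNT1
  have s4 : ∑ w ∈ N, (nb G S w).card ≤ bd G H T2 := by
    rw [cross_comm]
    unfold bd
    refine (Finset.sum_le_sum fun w _ => ?_).trans (Finset.sum_le_sum_of_subset hST2)
    refine Finset.card_le_card fun z hz => ?_
    have hz' := mem_nb.1 hz
    exact mem_sdiff.2 ⟨mem_nb.2 ⟨hNH hz'.1, hz'.2⟩, fun h =>
      (Finset.disjoint_left.1 d2) hz'.1 h⟩
  have hNc : N.card = 3 := by omega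
  rw [hNc] at s2
  omega

end Fr

end Pool.Agent.TwoDens.TS
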