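import Pool.Agent.TKS.BEe
import Pool.Agent.TKS.BR

/-!
First facts on a base of a minimal counterexample.
-/

open Finset

namespace Pool.Agent.TwoDens.TS

open Pool.Agent.TwoDens Pool.Agent.TwoDens.RK Pool.Agent.TwoDens.DD

variable {V : Type*} [DecidableEq V] {G : SimpleGraph V} [DecidableRel G.Adj]

theorem mem_nbc' {P : Finset V} {a u : V} (ha : a ∉ P) :
    u ∈ nb Gᶜ P a ↔ u ∈ P ∧ ¬ G.Adj a u := by
  rw [mem_nb, SimpleGraph.compl_adj]
  constructor
  · rintro ⟨h1, _, h3⟩
    exact ⟨h1, h3⟩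
  · rintro ⟨h1, h2⟩
    exact ⟨h1, fun h => ha (h ▸ h1), h2⟩

/-- a clique and one more vertex -/
theorem al_insert_clq {S : Finset V} (h : Clq G S) (x : V) : al G (insert x S) ≤ 2 := by
  have h1 := al_union_le (G := G) {x} S
  have h2 := al_le_card (G := G) ({x} : Finset V)
  have h3 := al_clq h
  rw [Finset.card_singleton] at h2
  rw [← Finset.insert_eq] at h1
  omega

namespace Base
variable {k : ℕ} {X P : Finset V} {c x x' : V} (B : Base G k X P c x x') (M : MC G k X)
include B M

theorem alH : al G (hb X P x x') + 1 = al G X := by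
  have hk := M.hk
  have hx := mem_sdiff.1 B.hx
  have hx' := mem_sdiff.1 B.hx'
  obtain ⟨S, hS⟩ : ∃ S, S = insert x (insert x' P) := ⟨_, rfl⟩
  have hSX : S ⊆ X := by
    rw [hS]
    exact Finset.insert_subset hx.1 (Finset.insert_subset hx'.1 B.hP)
  have hH : hb X P x x' = X \ S := by
    ext v
    rw [mem_hb, mem_sdiff, hS, mem_insert, mem_insert]
    tauto
  have hSc : S.card = k + 1 := by
    rw [hS, Finset.card_insert_of_notMem, Finset.card_insert_of_notMem hx'.2, B.hPc]
    rw [mem_insert, not_or]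
    exact ⟨B.hne, hx.2⟩
  have h1 := al_closed (G := G) (Y := X) (S := S) (J := {c})
    (Finset.singleton_subset_iff.2 (B.hP B.hc)) (Finset.singleton_subset_iff.2 (by
      rw [hS]
      exact mem_insert_of_mem (mem_insert_of_mem B.hc))) (by simp) (by
    intro z hz w hw hzw
    rw [mem_singleton] at hz
    rw [hz] at hzw
    rw [hS, mem_insert, mem_insert]
    by_contra hcon
    push Not at hcon
    exact B.na (mem_sdiff.2 ⟨hw, hcon.2.2⟩) hcon.1 hcon.2.1 hzw)
  rw [Finset.card_singleton, ← hH] at h1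
  by_contra hcon
  have h2 := M.closed2 hSX (by rw [← hH]; omega)
  omega

theorem bst : 2 * (((nb G (hb X P x x') x).card : ℤ) + (nb G (hb X P x x') x').card +
    (if G.Adj x x' then 1 else 0) + exs G k X P) + ps G k (hb X P x x') =
    4 * k - 2 + ps G k X := B.ps_hb M.deg_ge (B.alH M)

theorem ps0 : 0 ≤ ps G k (hb X P x x') := M.hmin _ hb_sub B.hbne

theorem ntx : ¬ Tr G (hb X P x x') (nb G (hb X P x x') x) := by
  refine nt_of ?_
  have hx := mem_sdiff.1 B.hx
  have hx' := mem_sdiff.1 B.hx'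
  have h1 := M.bridge (W1 := P) (W2 := insert x (hb X P x x')) (m := x') (by
    ext v
    rw [mem_insert, mem_union, mem_insert, mem_hb]
    constructor
    · rintro (h | h | h | h)
      · exact h ▸ hx'.1
      · exact B.hP h
      · exact h ▸ hx.1
      · exact h.1
    · intro h
      tauto) (by
    rw [Finset.disjoint_left]
    intro v hv hv'
    rw [mem_insert, mem_hb] at hv'
    rcases hv' with h | h
    · exact hx.2 (h ▸ hv)
    · exact h.2.1 hv) hx'.2 (by
    rw [mem_insert, mem_hb]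
    rintro (h | h)
    · exact B.hne h.symm
    · exact h.2.2.2 rfl) ⟨c, B.hc⟩ ⟨x, mem_insert_self _ _⟩
  have h2 := al_clq B.hPq
  have h3 := B.alH M
  omega

theorem ntx' : ¬ Tr G (hb X P x x') (nb G (hb X P x x') x') := by
  have := B.symm.ntx M
  rwa [hb_comm X P x' x] at this

theorem missPx : k ≤ 2 * (1 + (nb Gᶜ P x).card + (nb Gᶜ P x').card) := by
  have hx := mem_sdiff.1 B.hx
  have hx' := mem_sdiff.1 B.hx'
  exact M.near2 B.hP B.hPq B.hPc hx.1 hx'.1 B.hne hx.2 hx'.2

theorem missP : 1 ≤ (nb Gᶜ P x).card := by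
  have ha' := mem_sdiff.1 B.hx
  by_contra hcon
  have h0 : nb Gᶜ P x = ∅ := Finset.card_eq_zero.1 (by omega)
  have h1 : ∀ w ∈ P, G.Adj x w := by
    intro w hw
    by_contra hn
    have : w ∈ nb Gᶜ P x := (mem_nbc' ha'.2).2 ⟨hw, hn⟩
    rw [h0] at this
    simp at this
  have hq : Clq G (insert x P) := by
    intro u hu v hv huv
    rw [mem_insert] at hu hv
    rcases hu with rfl | hu <;> rcases hv with rfl | hv
    · exact absurd rfl huv
    · exact h1 v hv
    · exact (h1 u hu).symm
    · exact B.hPq u hu v hv huv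
  have h1 := M.clq_lt (Finset.insert_subset ha'.1 B.hP) hq
  rw [Finset.card_insert_of_notMem ha'.2] at h1
  have := B.hPc
  omega

/-- number of neighbours in `H` of a vertex of the clique -/
theorem nbH {p : V} (hp : p ∈ P) :
    (nb G (hb X P x x') p).card + ad G p x + ad G p x' = 2 + ((nb G X p).card - k) := by
  have h1 := B.card_nbH hp
  have h2 := M.deg_ge p (B.hP hp)
  unfold ad
  omega

theorem memF {a : V} : a ∈ insert x (insert x' P) → a ∈ X ∧ a ∉ hb X P x x' := by
  intro h
  rw [mem_insert, mem_insert] at h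
  rw [mem_hb]
  rcases h with rfl | rfl | h
  · exact ⟨(mem_sdiff.1 B.hx).1, fun e => e.2.2.1 rfl⟩
  · exact ⟨(mem_sdiff.1 B.hx').1, fun e => e.2.2.2 rfl⟩
  · exact ⟨B.hP h, fun e => e.2.1 h⟩

/-- two non-adjacent vertices outside `H` -/
theorem trF {a b : V} (ha : a ∈ insert x (insert x' P)) (hb' : b ∈ insert x (insert x' P))
    (hab : a ≠ b) (hn : ¬ G.Adj a b) :
    Tr G (hb X P x x') (nb G (hb X P x x') a ∪ nb G (hb X P x x') b) := by
  have h1 := B.memF M ha
  have h2 := B.memF M hb'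
  exact Base.tr2 (B.alH M) h1.1 h2.1 h1.2 h2.2 hab hn

theorem cardF {t : ℕ} (ht : TauGe G (hb X P x x') t) {a b : V}
    (ha : a ∈ insert x (insert x' P)) (hb' : b ∈ insert x (insert x' P))
    (hab : a ≠ b) (hn : ¬ G.Adj a b) :
    t ≤ (nb G (hb X P x x') a).card + (nb G (hb X P x x') b).card :=
  (ht _ (Finset.union_subset (nb_sub _ _) (nb_sub _ _)) (B.trF M ha hb' hab hn)).trans
    (Finset.card_union_le _ _)

theorem bud {t : ℕ} (ht : TauGe G (hb X P x x') t) {u u' : V} (hu : u ∈ P) (hu' : u' ∈ P)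
    (huu : u ≠ u') (h1 : ¬ G.Adj x u) (h2 : ¬ G.Adj x' u') :
    2 * (exs G k X ((P.erase u).erase u') : ℤ) + ps G k (hb X P x x') + 4 * t ≤ 4 * k + 4 := by
  have hx := mem_sdiff.1 B.hx
  have hx' := mem_sdiff.1 B.hx'
  have c1 := B.cardF M ht (a := x) (b := u) (mem_insert_self _ _)
    (mem_insert_of_mem (mem_insert_of_mem hu)) (fun e => hx.2 (e ▸ hu)) h1
  have c2 := B.cardF M ht (a := x') (b := u') (mem_insert_of_mem (mem_insert_self _ _))
    (mem_insert_of_mem (mem_insert_of_mem hu')) (fun e => hx'.2 (e ▸ hu')) h2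
  have n1 := B.nbH M hu
  have n2 := B.nbH M hu'
  have e1 := exs_erase (G := G) (k := k) (X := X) hu
  have e2' := exs_erase (G := G) (k := k) (X := X) (S := P.erase u) (u := u')
    (mem_erase.2 ⟨Ne.symm huu, hu'⟩)
  have b := B.bst M
  have hp := M.ps_le
  have h8 : (0 : ℤ) ≤ if G.Adj x x' then 1 else 0 := by split_ifs <;> norm_num
  have key : 2 * t + exs G k X ((P.erase u).erase u') ≤ (nb G (hb X P x x') x).card +
      (nb G (hb X P x x') x').card + exs G k X P + 4 := by omega
  have key' : 2 * (t : ℤ) + exs G k X ((P.erase u).erase u') ≤ (nb G (hb X P x x') x).card +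
      (nb G (hb X P x x') x').card + exs G k X P + 4 := by exact_mod_cast key
  linarith

/-- either there are two distinct vertices `u, u'` of `P`, `u` not adjacent to `x`, `u'` not
adjacent to `x'`, or `x, x'` miss the same single vertex of `P` -/
theorem picks : (∃ u ∈ P, ∃ u' ∈ P, u ≠ u' ∧ ¬ G.Adj x u ∧ ¬ G.Adj x' u') ∨
    (∃ b ∈ P, ¬ G.Adj x b ∧ ¬ G.Adj x' b ∧ ¬ G.Adj x x' ∧ ∀ w ∈ P, w ≠ b →
      G.Adj x w ∧ G.Adj x' w) := by
  have hx := mem_sdiff.1 B.hx
  have hx' := mem_sdiff.1 B.hx'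
  have hk := M.hk
  by_cases h : ∃ u ∈ P, ∃ u' ∈ P, u ≠ u' ∧ ¬ G.Adj x u ∧ ¬ G.Adj x' u'
  · exact Or.inl h
  right
  push Not at h
  obtain ⟨b, hb⟩ := Finset.card_pos.1 (B.missP M)
  obtain ⟨b', hb'⟩ := Finset.card_pos.1 (B.symm.missP M)
  rw [mem_nbc' hx.2] at hb
  rw [mem_nbc' hx'.2] at hb'
  have e : b = b' := by
    by_contra hne
    exact hb'.2 (h b hb.1 b' hb'.1 hne hb.2)
  subst e
  have h1 : ∀ w ∈ P, w ≠ b → G.Adj x w ∧ G.Adj x' w := by
    intro w hw hwb
    constructor
    · by_contra hn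
      exact hb'.2 (h w hw b hb.1 hwb hn)
    · exact h b hb.1 w hw (Ne.symm hwb) hb.2
  refine ⟨b, hb.1, hb.2, hb'.2, ?_, h1⟩
  intro hxx
  have hq : Clq G (insert x (insert x' (P.erase b))) := by
    intro p hp q hq hpq
    rw [mem_insert, mem_insert, mem_erase] at hp hq
    rcases hp with rfl | rfl | hp <;> rcases hq with rfl | rfl | hq
    · exact absurd rfl hpq
    · exact hxx
    · exact (h1 q hq.2 hq.1).1
    · exact hxx.symm
    · exact absurd rfl hpq
    · exact (h1 q hq.2 hq.1).2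
    · exact (h1 p hp.2 hp.1).1.symm
    · exact (h1 p hp.2 hp.1).2.symm
    · exact B.hPq p hp.2 q hq.2 hpq
  have h2 := M.clq_lt (by
    intro p hp
    rw [mem_insert, mem_insert, mem_erase] at hp
    rcases hp with rfl | rfl | hp
    · exact hx.1
    · exact hx'.1
    · exact B.hP hp.2) hq
  rw [Finset.card_insert_of_notMem (by
    rw [mem_insert, mem_erase, not_or]
    exact ⟨B.hne, fun h => hx.2 h.2⟩), Finset.card_insert_of_notMem (by
    rw [mem_erase]
    exact fun h => hx'.2 h.2)] at h2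
  have h3 := Finset.card_erase_add_one hb.1
  have h4 := B.hPc
  omega

theorem Fc : (insert x (insert x' P)).card = k + 1 := by
  have hx := mem_sdiff.1 B.hx
  have hx' := mem_sdiff.1 B.hx'
  rw [Finset.card_insert_of_notMem, Finset.card_insert_of_notMem hx'.2, B.hPc]
  rw [mem_insert, not_or]
  exact ⟨B.hne, hx.2⟩

theorem FX : insert x (insert x' P) ⊆ X := by
  have hx := mem_sdiff.1 B.hx
  have hx' := mem_sdiff.1 B.hx'
  exact Finset.insert_subset hx.1 (Finset.insert_subset hx'.1 B.hP)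

theorem hbF : hb X P x x' = X \ insert x (insert x' P) := by
  ext v
  rw [mem_hb, mem_sdiff, mem_insert, mem_insert]
  tauto

/-- removing a transversal of `H` as well -/
theorem dropR {R : Finset V} (hR : R ⊆ hb X P x x') (ht : Tr G (hb X P x x') R) :
    insert x (insert x' P) ∪ R ⊆ X ∧ (insert x (insert x' P) ∪ R).card = k + 1 + R.card ∧
    al G (X \ (insert x (insert x' P) ∪ R)) + 2 ≤ al G X ∧
    X \ (insert x (insert x' P) ∪ R) = hb X P x x' \ R := by
  have hFX := B.FX M
  have hFc := B.Fc M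
  have hbF := B.hbF M
  have hal := B.alH M
  have h1 : X \ (insert x (insert x' P) ∪ R) = hb X P x x' \ R := by
    rw [hbF]
    ext v
    rw [mem_sdiff, mem_sdiff, mem_sdiff, mem_union]
    tauto
  have h2 : al G (hb X P x x' \ R) < al G (hb X P x x') := ht
  have hd : Disjoint (insert x (insert x' P)) R := by
    rw [Finset.disjoint_left]
    intro v hv hv'
    have h3 := hR hv'
    rw [hbF, mem_sdiff] at h3
    exact h3.2 hv
  refine ⟨Finset.union_subset hFX (hR.trans hb_sub), ?_, ?_, h1⟩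
  · rw [Finset.card_union_of_disjoint hd, hFc]
  · rw [h1]
    omega

/-- every transversal of `H` has at least `k - 1` elements -/
theorem taum : TauGe G (hb X P x x') (k - 1) := by
  intro R hR ht
  obtain ⟨h1, h2, h3, -⟩ := B.dropR M hR ht
  have h4 := M.closed2 h1 h3
  omega

theorem bud1 {u u' : V} (hu : u ∈ P) (hu' : u' ∈ P)
    (huu : u ≠ u') (h1 : ¬ G.Adj x u) (h2 : ¬ G.Adj x' u') :
    2 * (exs G k X ((P.erase u).erase u') : ℤ) + ps G k (hb X P x x') ≤ 8 := by
  have hk := M.hk
  have h3 := B.bud M (B.taum M) hu hu' huu h1 h2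
  have h4 : ((k - 1 : ℕ) : ℤ) = k - 1 := by
    rw [Nat.cast_sub (by omega)]
    simp
  rw [h4] at h3
  linarith

/-- three pairwise nonadjacent vertices `x, x', b` -/
theorem three {b : V} (hb' : b ∈ P) (h1 : ¬ G.Adj x b) (h2 : ¬ G.Adj x' b)
    (h3 : ¬ G.Adj x x') : ps G k (hb X P x x') ≤ 2 := by
  have hx := mem_sdiff.1 B.hx
  have hx' := mem_sdiff.1 B.hx'
  have hFX := B.FX M
  have hFc := B.Fc M
  have hbF := B.hbF M
  have hxb : x ≠ b := fun e => hx.2 (e ▸ hb')
  have hxb' : x' ≠ b := fun e => hx'.2 (e ▸ hb')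
  have m1 : x' ∉ ({b} : Finset V) := by simp [hxb']
  have m2 : x ∉ ({x', b} : Finset V) := by simp [B.hne, hxb]
  have hJF : ({x, x', b} : Finset V) ⊆ insert x (insert x' P) := by
    intro v hv
    rw [mem_insert, mem_insert, mem_singleton] at hv
    rw [mem_insert, mem_insert]
    rcases hv with h | h | h
    · exact Or.inl h
    · exact Or.inr (Or.inl h)
    · exact Or.inr (Or.inr (h ▸ hb'))
  obtain ⟨S, hS⟩ : ∃ S, S = insert x (insert x' P) ∪ ({x, x', b} : Finset V).biUnion
      (fun z => nb G (hb X P x x') z) := ⟨_, rfl⟩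
  have hSX : S ⊆ X := by
    rw [hS]
    refine Finset.union_subset hFX ?_
    intro w hw
    obtain ⟨z, _, hz⟩ := mem_biUnion.1 hw
    exact hb_sub (mem_nb.1 hz).1
  have hal := al_closed (G := G) (Y := X) (S := S) (J := {x, x', b}) (hJF.trans hFX)
    (by rw [hS]; exact hJF.trans Finset.subset_union_left)
    (indep_insert (indep_pair h2) (by
      intro v hv
      rw [mem_insert, mem_singleton] at hv
      rcases hv with rfl | rfl
      · exact h3
      · exact h1)) (by
      intro z hz w hw hzw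
      rw [hS, mem_union]
      by_cases h : w ∈ insert x (insert x' P)
      · exact Or.inl h
      · refine Or.inr (mem_biUnion.2 ⟨z, hz, mem_nb.2 ⟨?_, hzw⟩⟩)
        rw [hbF]
        exact mem_sdiff.2 ⟨hw, h⟩)
  rw [Finset.card_insert_of_notMem m2, Finset.card_insert_of_notMem m1,
    Finset.card_singleton] at hal
  have h4 := M.closed3 hSX hal
  have h5 := Finset.card_union_le (insert x (insert x' P)) (({x, x', b} : Finset V).biUnion
      (fun z => nb G (hb X P x x') z))
  have h6 := Finset.card_biUnion_le (s := ({x, x', b} : Finset V))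
    (t := fun z => nb G (hb X P x x') z)
  rw [← hS] at h5
  rw [Finset.sum_insert m2, Finset.sum_insert m1, Finset.sum_singleton] at h6
  have h7 := B.nbH M hb'
  have h8 : (nb G X b).card - k ≤ exs G k X P := by
    unfold exs
    exact Finset.single_le_sum (f := fun v => (nb G X v).card - k) (fun v _ => Nat.zero_le _) hb'
  have bs := B.bst M
  have hp := M.ps_le
  have i8 : (0 : ℤ) ≤ if G.Adj x x' then 1 else 0 := by split_ifs <;> norm_num
  have h9 : 2 * k ≤ (nb G (hb X P x x') x).card + (nb G (hb X P x x') x').card +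
      exs G k X P + 3 := by omega
  have h10 : (2 * k : ℤ) ≤ (nb G (hb X P x x') x).card + (nb G (hb X P x x') x').card +
      exs G k X P + 3 := by exact_mod_cast h9
  linarith

theorem ps8 : ps G k (hb X P x x') ≤ 8 := by
  rcases B.picks M with ⟨u, hu, u', hu', huu, h1, h2⟩ | ⟨b, hb', h1, h2, h3, -⟩
  · have h4 := B.bud1 M hu hu' huu h1 h2
    have i4 := Int.natCast_nonneg (exs G k X ((P.erase u).erase u'))
    linarith
  · have h4 := B.three M hb' h1 h2 h3
    linarith

end Base

end Pool.Agent.TwoDens.TS
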