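import Pool.Agent.TKS.Cor

/-!
Transversals with `k` elements of proper subsets.
-/

open Finset

namespace Pool.Agent.TwoDens.TS

open Pool.Agent.TwoDens Pool.Agent.TwoDens.RK Pool.Agent.TwoDens.DD

variable {V : Type*} [DecidableEq V] {G : SimpleGraph V} [DecidableRel G.Adj]

omit [DecidableRel G.Adj] in
/-- if there are no two disjoint missing pairs and no missing triangle then the missing pairs
form a star -/
theorem exists_center {T : Finset V} (hn : ¬ Clq G T)
    (h4 : ∀ p ∈ T, ∀ q ∈ T, ∀ r ∈ T, ∀ s ∈ T, p ≠ q → p ≠ r → p ≠ s → q ≠ r → q ≠ s → r ≠ s →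
      ¬ G.Adj p q → ¬ G.Adj r s → False)
    (h3 : ∀ p ∈ T, ∀ q ∈ T, ∀ r ∈ T, p ≠ q → p ≠ r → q ≠ r →
      ¬ G.Adj p q → ¬ G.Adj p r → ¬ G.Adj q r → False) :
    ∃ r ∈ T, Clq G (T.erase r) := by
  have h0 : ∃ x ∈ T, ∃ y ∈ T, x ≠ y ∧ ¬ G.Adj x y := by
    by_contra hcon
    push Not at hcon
    exact hn fun a ha b hb hab => hcon a ha b hb hab
  obtain ⟨x, hx, y, hy, hxy, hnxy⟩ := h0
  by_cases hX : Clq G (T.erase x)
  · exact ⟨x, hx, hX⟩
  by_cases hY : Clq G (T.erase y)
  · exact ⟨y, hy, hY⟩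
  exfalso
  unfold Clq at hX hY
  push Not at hX hY
  obtain ⟨a, ha, b, hb, hab, hnab⟩ := hX
  obtain ⟨c, hc, d, hd, hcd, hncd⟩ := hY
  rw [mem_erase] at ha hb hc hd
  -- a missing pair `y b'` with `b' ≠ x`
  have h5 : ∃ b' ∈ T, b' ≠ x ∧ b' ≠ y ∧ ¬ G.Adj y b' := by
    by_cases e1 : a = y
    · exact ⟨b, hb.2, hb.1, fun h => hab (e1.trans h.symm), e1 ▸ hnab⟩
    · by_cases e2 : b = y
      · exact ⟨a, ha.2, ha.1, e1, fun h => hnab (e2 ▸ h.symm)⟩
      · exact (h4 x hx y hy a ha.2 b hb.2 hxy (Ne.symm ha.1) (Ne.symm hb.1) (Ne.symm e1)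
          (Ne.symm e2) hab hnxy hnab).elim
  have h6 : ∃ d' ∈ T, d' ≠ y ∧ d' ≠ x ∧ ¬ G.Adj x d' := by
    by_cases e1 : c = x
    · exact ⟨d, hd.2, hd.1, fun h => hcd (e1.trans h.symm), e1 ▸ hncd⟩
    · by_cases e2 : d = x
      · exact ⟨c, hc.2, hc.1, e1, fun h => hncd (e2 ▸ h.symm)⟩
      · exact (h4 x hx y hy c hc.2 d hd.2 hxy (Ne.symm e1) (Ne.symm e2) (Ne.symm hc.1)
          (Ne.symm hd.1) hcd hnxy hncd).elim
  obtain ⟨b', hb', b1, b2, b3⟩ := h5
  obtain ⟨d', hd', d1, d2, d3⟩ := h6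
  by_cases e : b' = d'
  · rw [← e] at d3
    exact h3 x hx y hy b' hb' hxy (Ne.symm b1) (Ne.symm b2) hnxy d3 b3
  · exact h4 y hy b' hb' x hx d' hd' (Ne.symm b2) (Ne.symm hxy) (Ne.symm d1) b1 e (Ne.symm d2)
      b3 d3

theorem e2c_insert {F : Finset V} {v : V} (hv : v ∉ F) :
    e2 Gᶜ (insert v F) = e2 Gᶜ F + 2 * (nb Gᶜ F v).card := by
  have h1 := e2_sdiff (G := Gᶜ) (X := insert v F) (R := {v})
    (Finset.singleton_subset_iff.2 (Finset.mem_insert_self v F))
  rw [e2_singleton, Finset.sum_singleton] at h1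
  have h2 : insert v F \ {v} = F := by
    rw [Finset.insert_sdiff_of_mem _ (mem_singleton_self v), Finset.sdiff_singleton_eq_erase,
      Finset.erase_eq_of_notMem hv]
  have h3 : nb Gᶜ (insert v F) v = nb Gᶜ F v := by
    ext u
    rw [mem_nb, mem_nb, mem_insert]
    constructor
    · rintro ⟨h4 | h4, h5⟩
      · exact absurd h4.symm ((SimpleGraph.compl_adj _ _ _).1 h5).1
      · exact ⟨h4, h5⟩
    · rintro ⟨h4, h5⟩
      exact ⟨Or.inr h4, h5⟩
  rw [h2, h3] at h1
  omega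

theorem clq_e2c {S : Finset V} (h : Clq G S) : e2 Gᶜ S = 0 := by
  have h1 := clq_e2 (G := G) h
  have h2 := e2_add_compl (G := G) S
  omega

theorem nbc_card {F : Finset V} {v : V} (hv : v ∈ F) :
    (nb Gᶜ F v).card + (nb G F v).card + 1 = F.card := by
  have h1 := deg_split (G := G) (X := F) (F := F) (Finset.Subset.refl F) hv
  have h2 : nb G F v \ F = ∅ := by
    rw [Finset.sdiff_eq_empty_iff_subset]
    exact Finset.filter_subset _ _
  rw [h2, Finset.card_empty] at h1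
  omega

theorem nbc_card' {F : Finset V} {v : V} (hv : v ∉ F) :
    (nb Gᶜ F v).card + (nb G F v).card = F.card := by
  rw [← Finset.card_union_of_disjoint]
  · congr 1
    ext u
    rw [mem_union, mem_nb, mem_nb, SimpleGraph.compl_adj]
    constructor
    · rintro (h | h)
      · exact h.1
      · exact h.1
    · intro h
      by_cases h1 : G.Adj v u
      · exact Or.inr ⟨h, h1⟩
      · exact Or.inl ⟨h, fun h2 => hv (h2 ▸ h), h1⟩
  · rw [Finset.disjoint_left]
    intro u h1 h2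
    exact ((SimpleGraph.compl_adj _ _ _).1 (mem_nb.1 h1).2).2 (mem_nb.1 h2).2

theorem nbc_insert_le (F : Finset V) (u v : V) :
    (nb Gᶜ (insert u F) v).card ≤ (nb Gᶜ F v).card + 1 := by
  unfold nb
  rw [Finset.filter_insert]
  split_ifs
  · exact Finset.card_insert_le _ _
  · omega

section
variable {k : ℕ} {X : Finset V} (H : MC G k X)
include H

theorem MC.near2 {Q : Finset V} (hQ : Q ⊆ X) (hq : Clq G Q) (hc : Q.card + 1 = k) {a b : V}
    (ha : a ∈ X) (hb : b ∈ X) (hab : a ≠ b) (haQ : a ∉ Q) (hbQ : b ∉ Q) :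
    k ≤ 2 * (1 + (nb Gᶜ Q a).card + (nb Gᶜ Q b).card) := by
  have h0 : a ∉ insert b Q := by
    rw [mem_insert]
    rintro (h | h)
    · exact hab h
    · exact haQ h
  have h1 := H.sl1 (F := insert a (insert b Q))
    (Finset.insert_subset ha (Finset.insert_subset hb hQ)) (by
      rw [Finset.card_insert_of_notMem h0, Finset.card_insert_of_notMem hbQ]; omega)
  rw [e2c_insert h0, e2c_insert hbQ, clq_e2c hq] at h1
  have h2 := nbc_insert_le (G := G) Q b a
  omega

theorem MC.near3 {Q : Finset V} (hQ : Q ⊆ X) (hq : Clq G Q) (hc : Q.card + 2 = k) {a b c : V}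
    (ha : a ∈ X) (hb : b ∈ X) (hc' : c ∈ X) (hab : a ≠ b) (hac : a ≠ c) (hbc : b ≠ c)
    (haQ : a ∉ Q) (hbQ : b ∉ Q) (hcQ : c ∉ Q) :
    k ≤ 2 * (3 + (nb Gᶜ Q a).card + (nb Gᶜ Q b).card + (nb Gᶜ Q c).card) := by
  have h0 : b ∉ insert c Q := by
    rw [mem_insert]
    rintro (h | h)
    · exact hbc h
    · exact hbQ h
  have h00 : a ∉ insert b (insert c Q) := by
    rw [mem_insert, mem_insert]
    rintro (h | h | h)
    · exact hab h
    · exact hac h
    · exact haQ h
  have h1 := H.sl1 (F := insert a (insert b (insert c Q)))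
    (Finset.insert_subset ha (Finset.insert_subset hb (Finset.insert_subset hc' hQ))) (by
      rw [Finset.card_insert_of_notMem h00, Finset.card_insert_of_notMem h0,
        Finset.card_insert_of_notMem hcQ]; omega)
  rw [e2c_insert h00, e2c_insert h0, e2c_insert hcQ, clq_e2c hq] at h1
  have h2 := nbc_insert_le (G := G) Q c b
  have h3 := nbc_insert_le (G := G) (insert c Q) b a
  have h4 := nbc_insert_le (G := G) Q c a
  omega

end

/-- structure of a transversal with `k` elements: the missing pairs form a star with centre `r` -/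
structure StarT (G : SimpleGraph V) [DecidableRel G.Adj] (k : ℕ) (Y T : Finset V) (r : V) :
    Prop where
  hT : T ⊆ Y
  hc : T.card = k
  hr : r ∈ T
  clq : Clq G (T.erase r)
  miss : 1 ≤ (nb Gᶜ T r).card
  alT : al G (Y \ T) + 1 = al G Y
  psT : ps G k (Y \ T) + 2 * (((nb G Y r \ T).card : ℤ) + exs G (k - 1) Y (T.erase r)) =
    ps G k Y + 2 * k - 2
  low : ∀ l ∈ nb Gᶜ T r, 2 * k ≤ (nb G Y r \ T).card + (nb G Y l).card + 3

section
variable {k : ℕ} {X : Finset V} (H : MC G k X) {Y : Finset V} (hY : Y ⊆ X) (hne : Y ≠ X)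
include H hY hne

omit H hY hne [DecidableRel G.Adj] in
theorem tr_pair0 [DecidableRel G.Adj] {T : Finset V} {p q : V} (hp : p ∈ T) (hq : q ∈ T)
    (hT : T ⊆ Y) (hpq : p ≠ q) (hn : ¬ G.Adj p q) (hal : al G (Y \ T) + 1 = al G Y) :
    Tr G (Y \ T) ((nb G Y p \ T) ∪ (nb G Y q \ T)) := by
  refine tr_nbr (X := Y) (J := {p, q}) Finset.sdiff_subset ?_ ?_ (indep_pair hn) ?_ ?_
  · intro z hz
    rw [mem_insert, mem_singleton] at hz
    rcases hz with rfl | rfl
    · exact hT hp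
    · exact hT hq
  · rw [Finset.disjoint_left]
    intro z hz hz'
    rw [mem_insert, mem_singleton] at hz
    rcases hz with rfl | rfl
    · exact (mem_sdiff.1 hz').2 hp
    · exact (mem_sdiff.1 hz').2 hq
  · rw [Finset.card_pair hpq]
    omega
  · intro z hz w hw hzw
    have hw' := mem_sdiff.1 hw
    rw [mem_insert, mem_singleton] at hz
    rcases hz with rfl | rfl
    · exact mem_union_left _ (mem_sdiff.2 ⟨mem_nb.2 ⟨hw'.1, hzw⟩, hw'.2⟩)
    · exact mem_union_right _ (mem_sdiff.2 ⟨mem_nb.2 ⟨hw'.1, hzw⟩, hw'.2⟩)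

theorem MC.star8g (hp : ps G k Y ≤ 4) (ht : TauGe G Y k) {T : Finset V} (hT : T ⊆ Y)
    (hc : T.card = k) (htr : Tr G Y T)
    (hst : ps G k Y ≤ 1 ∨ (6 ≤ k ∧ ps G k Y ≤ 2) ∨ 7 ≤ k) : ∃ r, StarT G k Y T r := by
  have hk := H.hk
  have hk' : (4 : ℤ) ≤ k := by exact_mod_cast hk
  have hdeg : ∀ v ∈ Y, k - 1 ≤ (nb G Y v).card := fun v hv => by
    have := ht.deg hv
    omega
  have hTX := hT.trans hY
  have hncl : ¬ Clq G T := by
    intro h
    have := H.clq_lt hTX h
    omega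
  have halT : al G (Y \ T) + 1 = al G Y := by
    unfold Tr at htr
    by_contra hcon
    have h1 := H.drop hY hne hT (j := 2) (by omega)
    rw [hc] at h1
    push_cast at h1
    nlinarith
  have hpsd := ps_sdiff (G := G) k hT
  have hsum := sum_ge (G := G) (Y := Y) (S := T) (k - 1) (fun v hv => hdeg v (hT hv))
  have hcomp := e2_add_compl (G := G) T
  obtain ⟨h, hh⟩ := e2_even (G := Gᶜ) T
  rw [hh] at hcomp
  rw [hc] at hpsd hsum hcomp
  have h0 : 0 ≤ ps G k (Y \ T) := H.hmin _ (Finset.sdiff_subset.trans hY) (by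
    intro h
    exact hne (Finset.Subset.antisymm hY (h ▸ Finset.sdiff_subset)))
  obtain ⟨D, hD⟩ : ∃ D : ℕ, ∑ v ∈ T, (nb G Y v).card = D := ⟨_, rfl⟩
  rw [hD] at hpsd hsum
  obtain ⟨E, hE⟩ : ∃ E : ℕ, exs G (k - 1) Y T = E := ⟨_, rfl⟩
  rw [hE] at hsum
  obtain ⟨m, rfl⟩ : ∃ m, k = m + 1 := ⟨k - 1, by omega⟩
  rw [Nat.add_sub_cancel] at hsum hE
  replace hdeg : ∀ v ∈ Y, m ≤ (nb G Y v).card := hdeg
  have g1 : (D : ℤ) = m * (m + 1) + E := by exact_mod_cast hsum
  have g2 : (e2 G T : ℤ) + 2 * h + (m + 1) = (m + 1) * (m + 1) := by exact_mod_cast hcomp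
  have g3 : (al G Y : ℤ) - al G (Y \ T) = 1 := by
    have : (al G (Y \ T) : ℤ) + 1 = al G Y := by exact_mod_cast halT
    linarith
  rw [g3] at hpsd
  push_cast at hpsd
  have psE : ps G (m + 1) (Y \ T) + 2 * ((E : ℤ) + h) = ps G (m + 1) Y + 2 * (m + 1) - 2 := by
    nlinarith
  have hEh : E + h ≤ m + 2 := by
    have : (E : ℤ) + h ≤ m + 2 := by linarith
    exact_mod_cast this
  -- numbers of neighbours outside
  have hout : ∀ t ∈ T, (nb G Y t).card + (nb Gᶜ T t).card = m + (nb G Y t \ T).card := by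
    intro t ht'
    have := deg_split (G := G) hT ht'
    omega
  have hpair : ∀ p ∈ T, ∀ q ∈ T, p ≠ q → ¬ G.Adj p q →
      m ≤ (nb G Y p \ T).card + (nb G Y q \ T).card := by
    intro p hp' q hq' hpq hn
    have h6 := H.bigY hY hne (δ := m) hdeg (by omega) (B := T) (J := {p, q}) hT (by
      intro z hz
      rw [mem_insert, mem_singleton] at hz
      rcases hz with rfl | rfl
      · exact hp'
      · exact hq') (indep_pair hn)
    rw [Finset.card_pair hpq, sum_pair' hpq, hc] at h6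
    by_contra hcon
    push Not at hcon
    have h7 : ((nb G Y p \ T).card : ℤ) + (nb G Y q \ T).card ≤ m - 1 := by
      have : ((nb G Y p \ T).card : ℤ) + (nb G Y q \ T).card + 1 ≤ m := by exact_mod_cast hcon
      linarith
    push_cast at h6
    have h8 : (0 : ℤ) ≤ 3 * m + 1 := by positivity
    nlinarith [mul_le_mul_of_nonneg_left h7 h8]
  have hsubX : Y \ T ⊆ X := Finset.sdiff_subset.trans hY
  have hneX : Y \ T ≠ X := by
    intro h
    exact hne (Finset.Subset.antisymm hY (h ▸ Finset.sdiff_subset))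
  have hpair2 : ps G (m + 1) (Y \ T) ≤ 1 → ∀ p ∈ T, ∀ q ∈ T, p ≠ q → ¬ G.Adj p q →
      m + 1 ≤ (nb G Y p \ T).card + (nb G Y q \ T).card := by
    intro h1 p hp' q hq' hpq hn
    have h2 := tr_pair0 (G := G) hp' hq' hT hpq hn halT
    have h3 := H.tau0 hsubX hneX h1 _ (Finset.union_subset
      (Finset.sdiff_subset_sdiff (nb_sub Y p) (Finset.Subset.refl T))
      (Finset.sdiff_subset_sdiff (nb_sub Y q) (Finset.Subset.refl T))) h2
    exact h3.trans (Finset.card_union_le _ _)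
  obtain ⟨pe, hpe⟩ := ps_even (G := G) (m + 1) Y
  obtain ⟨qe, hqe⟩ := ps_even (G := G) (m + 1) (Y \ T)
  rw [hpe, hqe] at psE
  rw [hqe] at hpair2 h0
  rw [hpe] at hst hp
  have hexle : ∀ S ⊆ T, ∑ v ∈ S, (nb G Y v).card ≤ m * S.card + E := by
    intro S hS
    have h9 := sum_ge (G := G) (Y := Y) (S := S) m (fun v hv => hdeg v (hT (hS hv)))
    have h10 : exs G m Y S ≤ E := by
      rw [← hE]
      exact Finset.sum_le_sum_of_subset hS
    omega
  have hmisle : ∀ S ⊆ T, 2 * ∑ v ∈ S, (nb Gᶜ T v).card ≤ 2 * h + e2 Gᶜ S := by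
    intro S hS
    have h9 := e2_sdiff (G := Gᶜ) hS
    omega
  have h3 : ∀ p ∈ T, ∀ q ∈ T, ∀ r ∈ T, p ≠ q → p ≠ r → q ≠ r →
      ¬ G.Adj p q → ¬ G.Adj p r → ¬ G.Adj q r → False := by
    intro p hp' q hq' r hr' h1 h2 h4 n1 n2 n3
    have hS : ({p, q, r} : Finset V) ⊆ T := by
      intro z hz
      rw [mem_insert, mem_insert, mem_singleton] at hz
      rcases hz with rfl | rfl | rfl
      · exact hp'
      · exact hq'
      · exact hr'
    have hsum3 : ∀ f : V → ℕ, ∑ x ∈ ({p, q, r} : Finset V), f x = f p + (f q + f r) := by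
      intro f
      rw [Finset.sum_insert (by simp [h1, h2]), Finset.sum_insert (by simp [h4]),
        Finset.sum_singleton]
    have hc3 : ({p, q, r} : Finset V).card = 3 := by
      rw [Finset.card_eq_sum_ones, hsum3]
    have a1 := hexle _ hS
    have a2 := hmisle _ hS
    rw [hsum3, hc3] at a1
    rw [hsum3] at a2
    have a3 := e2_add_compl (G := G) ({p, q, r} : Finset V)
    rw [hc3] at a3
    have b1 := hout p hp'
    have b2 := hout q hq'
    have b3 := hout r hr'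
    have h6 := H.bigY hY hne (δ := m) hdeg (by omega) (B := T) (J := {p, q, r}) hT hS
      (indep_triple n1 n2 n3)
    rw [hc3, hsum3, hc, hpe] at h6
    obtain ⟨o, ho⟩ : ∃ o : ℕ, (nb G Y p \ T).card + ((nb G Y q \ T).card +
      (nb G Y r \ T).card) = o := ⟨_, rfl⟩
    rw [ho] at h6
    have c1 : (2 * m : ℕ) ≤ o := by
      by_contra hcon
      push Not at hcon
      have h7 : (o : ℤ) + 1 ≤ 2 * m := by exact_mod_cast hcon
      push_cast at h6
      have h8 : (0 : ℤ) ≤ 3 * m + 2 := by positivity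
      nlinarith [mul_le_mul_of_nonneg_left h7 h8]
    have c2 : 2 * pe < 4 → 2 * m + 1 ≤ o := by
      intro h4'
      by_contra hcon
      push Not at hcon
      have h7 : (o : ℤ) ≤ 2 * m := by
        have : o ≤ 2 * m := by omega
        exact_mod_cast this
      push_cast at h6
      have h8 : (0 : ℤ) ≤ 3 * m + 2 := by positivity
      nlinarith [mul_le_mul_of_nonneg_left h7 h8]
    by_cases hq4 : 2 * pe < 4
    · have := c2 hq4
      omega
    · omega
  have h4 : ∀ p ∈ T, ∀ q ∈ T, ∀ r ∈ T, ∀ s ∈ T, p ≠ q → p ≠ r → p ≠ s → q ≠ r → q ≠ s → r ≠ s →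
      ¬ G.Adj p q → ¬ G.Adj r s → False := by
    intro p hp' q hq' r hr' s hs' h1 h2 h3' h4 h5 h6 n1 n2
    have hS : ({p, q, r, s} : Finset V) ⊆ T := by
      intro z hz
      rw [mem_insert, mem_insert, mem_insert, mem_singleton] at hz
      rcases hz with rfl | rfl | rfl | rfl
      · exact hp'
      · exact hq'
      · exact hr'
      · exact hs'
    have hsum4 : ∀ f : V → ℕ, ∑ x ∈ ({p, q, r, s} : Finset V), f x = f p + (f q + (f r + f s)) := by
      intro f
      rw [Finset.sum_insert (by simp [h1, h2, h3']), Finset.sum_insert (by simp [h4, h5]),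
        Finset.sum_insert (by simp [h6]), Finset.sum_singleton]
    have hc4 : ({p, q, r, s} : Finset V).card = 4 := by
      rw [Finset.card_eq_sum_ones, hsum4]
    have a1 := hexle _ hS
    have a2 := hmisle _ hS
    rw [hsum4, hc4] at a1
    rw [hsum4] at a2
    have a3 := e2_add_compl (G := G) ({p, q, r, s} : Finset V)
    rw [hc4] at a3
    have b1 := hout p hp'
    have b2 := hout q hq'
    have b3 := hout r hr'
    have b4 := hout s hs'
    have c1 := hpair p hp' q hq' h1 n1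
    have c2 := hpair r hr' s hs' h6 n2
    -- at least two edges between `r, s` and `p, q`
    have m1 : ∀ a b : V, a ∈ ({p, q, r, s} : Finset V) → b ∈ ({p, q, r, s} : Finset V) →
        G.Adj a b → 1 ≤ (nb G ({p, q, r, s} : Finset V) a).card := by
      intro a b _ hb hab
      exact Finset.card_pos.2 ⟨b, mem_nb.2 ⟨hb, hab⟩⟩
    have m2 : ∀ a b c : V, b ∈ ({p, q, r, s} : Finset V) → c ∈ ({p, q, r, s} : Finset V) →
        b ≠ c → G.Adj a b → G.Adj a c → 2 ≤ (nb G ({p, q, r, s} : Finset V) a).card := by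
      intro a b c hb hc' hbc hab hac
      rw [← Finset.card_pair hbc]
      refine Finset.card_le_card ?_
      intro z hz
      rw [mem_insert, mem_singleton] at hz
      rcases hz with rfl | rfl
      · exact mem_nb.2 ⟨hb, hab⟩
      · exact mem_nb.2 ⟨hc', hac⟩
    have ip : p ∈ ({p, q, r, s} : Finset V) := by simp
    have iq : q ∈ ({p, q, r, s} : Finset V) := by simp
    have ir : r ∈ ({p, q, r, s} : Finset V) := by simp
    have is : s ∈ ({p, q, r, s} : Finset V) := by simp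
    have k1 : G.Adj r p ∨ G.Adj r q := by
      by_contra hcon
      push Not at hcon
      exact h3 p hp' q hq' r hr' h1 h2 h4 n1 (fun e => hcon.1 e.symm) (fun e => hcon.2 e.symm)
    have k2 : G.Adj s p ∨ G.Adj s q := by
      by_contra hcon
      push Not at hcon
      exact h3 p hp' q hq' s hs' h1 h3' h5 n1 (fun e => hcon.1 e.symm) (fun e => hcon.2 e.symm)
    have k3 : 4 ≤ e2 G ({p, q, r, s} : Finset V) := by
      rw [e2_eq, hsum4]
      rcases k1 with k1 | k1 <;> rcases k2 with k2 | k2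
      · have := m2 p r s ir is h6 k1.symm k2.symm
        have := m1 r p ir ip k1
        have := m1 s p is ip k2
        omega
      · have := m1 p r ip ir k1.symm
        have := m1 q s iq is k2.symm
        have := m1 r p ir ip k1
        have := m1 s q is iq k2
        omega
      · have := m1 q r iq ir k1.symm
        have := m1 p s ip is k2.symm
        have := m1 r q ir iq k1
        have := m1 s p is ip k2
        omega
      · have := m2 q r s ir is h6 k1.symm k2.symm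
        have := m1 r q ir iq k1
        have := m1 s q is iq k2
        omega
    have a4 : e2 Gᶜ ({p, q, r, s} : Finset V) ≤ 2 * h := by
      have g1 := e2_sdiff (G := Gᶜ) hS
      have g2 := sum_deg (G := Gᶜ) hS
      omega
    by_cases hq2 : 2 * qe ≤ 1
    · have d1 := hpair2 hq2 p hp' q hq' h1 n1
      have d2 := hpair2 hq2 r hr' s hs' h6 n2
      omega
    · omega
  obtain ⟨r, hr, hcl⟩ := exists_center hncl h4 h3
  have hTr : insert r (T.erase r) = T := Finset.insert_erase hr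
  have hmiss : h = (nb Gᶜ T r).card := by
    have a1 := e2_sdiff (G := Gᶜ) (X := T) (R := {r}) (by simpa using hr)
    rw [e2_singleton, Finset.sum_singleton, Finset.sdiff_singleton_eq_erase, clq_e2c hcl, hh] at a1
    omega
  refine ⟨r, hT, hc, hr, hcl, ?_, halT, ?_, ?_⟩
  · by_contra hcon
    apply hncl
    have : h = 0 := by omega
    rw [this] at hh
    exact clq_of_e2 (by omega)
  · have a1 : E = exs G m Y (T.erase r) + ((nb G Y r).card - m) := by
      rw [← hE]
      unfold exs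
      rw [add_comm]
      exact (Finset.add_sum_erase _ _ hr).symm
    have a2 := hout r hr
    have a3 := hdeg r (hT hr)
    have a4 : E + h = (nb G Y r \ T).card + exs G m Y (T.erase r) := by omega
    have a5 : (E : ℤ) + h = ((nb G Y r \ T).card : ℤ) + exs G m Y (T.erase r) := by
      exact_mod_cast a4
    rw [Nat.add_sub_cancel, ← a5]
    push_cast
    linarith
  · intro l hl
    have hlT := (mem_nb.1 hl).1
    obtain ⟨h5, h6⟩ := (SimpleGraph.compl_adj _ _ _).1 (mem_nb.1 hl).2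
    have a1 := hpair r hr l hlT h5 h6
    have a2 := hout l hlT
    have a3 : (nb Gᶜ T l).card ≤ 1 := by
      rw [Finset.card_le_one]
      have : ∀ u ∈ nb Gᶜ T l, u = r := by
        intro u hu
        by_contra hur
        obtain ⟨h7, h8⟩ := (SimpleGraph.compl_adj _ _ _).1 (mem_nb.1 hu).2
        exact h8 (hcl l (mem_erase.2 ⟨Ne.symm h5, hlT⟩) u (mem_erase.2 ⟨hur, (mem_nb.1 hu).1⟩) h7)
      intro u hu w hw
      rw [this u hu, this w hw]
    omega

theorem MC.star8 (hp : ps G k Y ≤ 4) (ht : TauGe G Y k) {T : Finset V} (hT : T ⊆ Y)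
    (hc : T.card = k) (htr : Tr G Y T) (h7 : 7 ≤ k) : ∃ r, StarT G k Y T r :=
  H.star8g hY hne hp ht hT hc htr (Or.inr (Or.inr h7))

omit H hY hne in
theorem StarT.nonneg {T : Finset V} {r : V} (hS : StarT G k Y T r) (h0 : 0 ≤ ps G k (Y \ T)) :
    2 * (((nb G Y r \ T).card : ℤ) + exs G (k - 1) Y (T.erase r)) ≤ ps G k Y + 2 * k - 2 := by
  have := hS.psT
  linarith

theorem MC.ps_sub (S : Finset V) : 0 ≤ ps G k (Y \ S) :=
  H.hmin _ (Finset.sdiff_subset.trans hY) (by
    intro h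
    exact hne (Finset.Subset.antisymm hY (h ▸ Finset.sdiff_subset)))

omit H hY hne in
theorem StarT.miss_one {T : Finset V} {r l : V} (hS : StarT G k Y T r) (hl : l ∈ nb Gᶜ T r) :
    (nb Gᶜ T l).card ≤ 1 := by
  have hlT := (mem_nb.1 hl).1
  obtain ⟨h5', _⟩ := (SimpleGraph.compl_adj _ _ _).1 (mem_nb.1 hl).2
  rw [Finset.card_le_one]
  have : ∀ u ∈ nb Gᶜ T l, u = r := by
    intro u hu
    by_contra hur
    obtain ⟨h7, h8⟩ := (SimpleGraph.compl_adj _ _ _).1 (mem_nb.1 hu).2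
    exact h8 (hS.clq l (mem_erase.2 ⟨Ne.symm h5', hlT⟩) u
      (mem_erase.2 ⟨hur, (mem_nb.1 hu).1⟩) h7)
  intro u hu w hw
  rw [this u hu, this w hw]

/-- if the rest has potential zero then the missing pairs have `k` outer neighbours -/
theorem MC.low0 {T : Finset V} {r : V} (hS : StarT G k Y T r) (h0 : ps G k (Y \ T) ≤ 1) :
    ∀ l ∈ nb Gᶜ T r, 2 * k ≤ (nb G Y r \ T).card + (nb G Y l).card + 2 := by
  intro l hl
  have hk := H.hk
  have hlT := (mem_nb.1 hl).1
  obtain ⟨h5', h6⟩ := (SimpleGraph.compl_adj _ _ _).1 (mem_nb.1 hl).2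
  have htr := tr_pair0 (G := G) hS.hr hlT hS.hT h5' h6 hS.alT
  have ht2 := H.tau0 (Finset.sdiff_subset.trans hY : Y \ T ⊆ X) (by
    intro h
    exact hne (Finset.Subset.antisymm hY (h ▸ Finset.sdiff_subset))) h0
  have h7 := ht2 _ (Finset.union_subset
    (Finset.sdiff_subset_sdiff (nb_sub Y r) (Finset.Subset.refl T))
    (Finset.sdiff_subset_sdiff (nb_sub Y l) (Finset.Subset.refl T))) htr
  have h8 := Finset.card_union_le (nb G Y r \ T) (nb G Y l \ T)
  have h9 := deg_split (G := G) hS.hT hlT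
  rw [hS.hc] at h9
  have h10 := hS.miss_one hl
  omega

theorem MC.star5g (hp : ps G k Y ≤ 4) {T : Finset V} {r : V} (hS : StarT G k Y T r)
    (hq : (ps G k Y ≤ 1 ∧ 2 ≤ (nb Gᶜ T r).card) ∨ (ps G k Y ≤ 2 ∧ 3 ≤ (nb Gᶜ T r).card) ∨
      4 ≤ (nb Gᶜ T r).card) (ht : TauGe G Y k) :
    k ≤ (nb G Y r \ T).card + 2 ∧ 2 * (exs G (k - 1) Y (T.erase r) : ℤ) ≤ 2 + ps G k Y := by
  have hk := H.hk
  have h0 := hS.nonneg (H.ps_sub hY hne T)
  have hpsT := hS.psT
  have hlow := hS.low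
  have hlow0 := H.low0 hY hne hS
  have hsub2 : nb Gᶜ T r ⊆ T.erase r := by
    intro l hl
    rw [mem_erase]
    exact ⟨fun h => ((SimpleGraph.compl_adj _ _ _).1 (mem_nb.1 hl).2).1 h.symm,
      (mem_nb.1 hl).1⟩
  have hsumle : ∀ j : ℕ, (∀ l ∈ nb Gᶜ T r, k - 1 + j ≤ (nb G Y l).card) →
      (nb Gᶜ T r).card * j ≤ exs G (k - 1) Y (T.erase r) := by
    intro j hj
    have h2 : (nb Gᶜ T r).card * j ≤ ∑ l ∈ nb Gᶜ T r, ((nb G Y l).card - (k - 1)) := by
      rw [← smul_eq_mul, ← Finset.sum_const]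
      refine Finset.sum_le_sum fun l hl => ?_
      have h3 := hj l hl
      omega
    exact h2.trans (by unfold exs; exact Finset.sum_le_sum_of_subset hsub2)
  obtain ⟨q, hqd⟩ : ∃ q, (nb Gᶜ T r).card = q := ⟨_, rfl⟩
  obtain ⟨o, ho⟩ : ∃ o, (nb G Y r \ T).card = o := ⟨_, rfl⟩
  obtain ⟨E, hE⟩ : ∃ E, exs G (k - 1) Y (T.erase r) = E := ⟨_, rfl⟩
  rw [ho, hE] at h0 hpsT
  rw [ho, hE]
  rw [hqd] at hq hsumle
  rw [hE] at hsumle
  rw [ho] at hlow hlow0
  obtain ⟨pe, hpe⟩ := ps_even (G := G) k Y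
  obtain ⟨qe, hqe⟩ := ps_even (G := G) k (Y \ T)
  rw [hpe] at hp hq h0 hpsT ⊢
  rw [hqe] at hpsT hlow0
  have key : k ≤ o + 2 := by
    by_contra hcon
    push Not at hcon
    obtain ⟨y, hy⟩ : ∃ y, k = o + 2 + y := Nat.exists_eq_add_of_le hcon.le
    have h1 : q * y ≤ E := hsumle y (fun l hl => by
      have h3 := hlow l hl
      omega)
    have h4 : 1 ≤ y := by omega
    by_cases hz : 2 * qe ≤ 1
    · have h2 : q * (y + 1) ≤ E := hsumle (y + 1) (fun l hl => by
        have h3 := hlow0 hz l hl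
        omega)
      rcases hq with ⟨h5, h6⟩ | ⟨h5, h6⟩ | h6
      · have h7 : 2 * (y + 1) ≤ q * (y + 1) := Nat.mul_le_mul_right _ h6
        omega
      · have h7 : 3 * (y + 1) ≤ q * (y + 1) := Nat.mul_le_mul_right _ h6
        omega
      · have h7 : 4 * (y + 1) ≤ q * (y + 1) := Nat.mul_le_mul_right _ h6
        omega
    · rcases hq with ⟨h5, h6⟩ | ⟨h5, h6⟩ | h6
      · have h7 : 2 * y ≤ q * y := Nat.mul_le_mul_right _ h6
        omega
      · have h7 : 3 * y ≤ q * y := Nat.mul_le_mul_right _ h6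
        omega
      · have h7 : 4 * y ≤ q * y := Nat.mul_le_mul_right _ h6
        omega
  refine ⟨key, ?_⟩
  omega

theorem MC.star5 (hp : ps G k Y ≤ 4) {T : Finset V} {r : V} (hS : StarT G k Y T r)
    (h5 : 4 ≤ (nb Gᶜ T r).card) (ht : TauGe G Y k) :
    k ≤ (nb G Y r \ T).card + 2 ∧ 2 * (exs G (k - 1) Y (T.erase r) : ℤ) ≤ 2 + ps G k Y :=
  H.star5g hY hne hp hS (Or.inr (Or.inr h5)) ht

/-- `Y` of potential zero: all vertices of the clique have degree `k - 1` in `Y` -/
theorem MC.star0 (hp : ps G k Y ≤ 1) {T : Finset V} {r : V} (hS : StarT G k Y T r)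
    (h5 : 2 ≤ (nb Gᶜ T r).card) : ∀ v ∈ T.erase r, (nb G Y v).card + 1 = k := by
  have hk := H.hk
  have ht : TauGe G Y k := H.tau0 hY hne hp
  have hdeg : ∀ v ∈ Y, k - 1 ≤ (nb G Y v).card := fun v hv => by
    have := ht.deg hv
    omega
  obtain ⟨h1, h2⟩ := H.star5g hY hne (by linarith) hS (Or.inl ⟨hp, h5⟩) ht
  have h0 := hS.nonneg (H.ps_sub hY hne T)
  have hpsT := hS.psT
  obtain ⟨pe, hpe⟩ := ps_even (G := G) k Y
  have hE : exs G (k - 1) Y (T.erase r) = 0 := by
    by_contra hne0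
    have hE1 : exs G (k - 1) Y (T.erase r) = 1 := by omega
    have hps2 : ps G k (Y \ T) ≤ 1 := by
      rw [hE1] at hpsT
      omega
    have h4 : (nb G Y r \ T).card + 2 = k := by omega
    have hlow0 := H.low0 hY hne hS hps2
    have h6 : (nb Gᶜ T r).card ≤ ∑ l ∈ nb Gᶜ T r, ((nb G Y l).card - (k - 1)) := by
      rw [Finset.card_eq_sum_ones]
      refine Finset.sum_le_sum fun l hl => ?_
      have h7 := hlow0 l hl
      omega
    have h7 : ∑ l ∈ nb Gᶜ T r, ((nb G Y l).card - (k - 1)) ≤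
        exs G (k - 1) Y (T.erase r) := by
      unfold exs
      refine Finset.sum_le_sum_of_subset ?_
      intro l hl
      rw [mem_erase]
      exact ⟨fun h => ((SimpleGraph.compl_adj _ _ _).1 (mem_nb.1 hl).2).1 h.symm,
        (mem_nb.1 hl).1⟩
    omega
  intro v hv
  have h3 := hdeg v (hS.hT (mem_erase.1 hv).2)
  unfold exs at hE
  rw [Finset.sum_eq_zero_iff] at hE
  have := hE v hv
  omega

/-- Lemma W -/
theorem MC.lemW (hp : ps G k Y ≤ 4) (ht : TauGe G Y k) {R R' : Finset V} {r w z : V}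
    (hR : R ⊆ Y) (hRc : R.card + 1 = k) (hr : r ∈ Y) (hrR : r ∉ R)
    (htr : Tr G Y (insert r R)) (hR' : R' ⊆ Y) (hRc' : R'.card + 1 = k) (hRq' : Clq G R')
    (hrR' : r ∈ R') (hd : Disjoint R R') (hw : w ∈ R') (hwr : w ≠ r)
    (hwd : (nb G Y w).card + 1 = k) (hz : z ∈ X) (hzY : z ∉ Y)
    (hza : k + 3 ≤ 2 * (nb G (R'.erase r) z).card) : False := by
  have hk := H.hk
  have hk' : (4 : ℤ) ≤ k := by exact_mod_cast hk
  have hdeg : ∀ v ∈ Y, k - 1 ≤ (nb G Y v).card := fun v hv => by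
    have := ht.deg hv
    omega
  obtain ⟨T, hTdef⟩ : ∃ T, T = insert r R := ⟨_, rfl⟩
  have hT : T ⊆ Y := by rw [hTdef]; exact Finset.insert_subset hr hR
  have hTc : T.card = k := by rw [hTdef, Finset.card_insert_of_notMem hrR]; omega
  rw [← hTdef] at htr
  have hrT : r ∈ T := by rw [hTdef]; exact mem_insert_self _ _
  have hTer : T.erase r = R := by rw [hTdef, Finset.erase_insert hrR]
  -- the potential of `Y \ T`
  have hpsd := ps_sdiff (G := G) k hT
  have hcomp := e2_add_compl (G := G) T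
  have hsd := sum_deg' (G := G) hT
  have hout : ∀ t ∈ T, (nb G Y t).card + (nb Gᶜ T t).card + 1 = k + (nb G Y t \ T).card := by
    intro t ht'
    have := deg_split (G := G) hT ht'
    omega
  have hor : k ≤ (nb G Y r \ T).card + 2 := by
    have h1 : R'.erase r ⊆ nb G Y r \ T := by
      intro u hu
      have hu' := mem_erase.1 hu
      rw [mem_sdiff, mem_nb, hTdef, mem_insert]
      refine ⟨⟨hR' hu'.2, hRq' r hrR' u hu'.2 (Ne.symm hu'.1)⟩, ?_⟩
      rintro (h | h)
      · exact hu'.1 h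
      · exact (Finset.disjoint_left.1 hd) h hu'.2
    have h2 := Finset.card_le_card h1
    rw [Finset.card_erase_of_mem hrR'] at h2
    omega
  have hbd : bd G Y T = (nb G Y r \ T).card + ∑ v ∈ R, (nb G Y v \ T).card := by
    unfold bd
    rw [← Finset.add_sum_erase _ _ hrT, hTer]
  have hec : e2 Gᶜ T = (nb Gᶜ T r).card + ∑ v ∈ R, (nb Gᶜ T v).card := by
    rw [e2_eq, ← Finset.add_sum_erase _ _ hrT, hTer]
  have h1 : ∑ v ∈ R, (nb Gᶜ T v).card ≤ ∑ v ∈ R, (nb G Y v \ T).card := by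
    refine Finset.sum_le_sum fun v hv => ?_
    have h2 := hout v (by rw [hTdef]; exact mem_insert_of_mem hv)
    have h3 := hdeg v (hR hv)
    omega
  have h2 : (nb Gᶜ T r).card ≤ ∑ v ∈ R, (nb Gᶜ T v).card := by
    have h3 : nb Gᶜ T r ⊆ R := by
      intro u hu
      have h4 := mem_nb.1 hu
      rw [hTdef, mem_insert] at h4
      rcases h4.1 with h5 | h5
      · exact absurd h5.symm ((SimpleGraph.compl_adj _ _ _).1 h4.2).1
      · exact h5
    rw [Finset.card_eq_sum_ones]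
    refine (Finset.sum_le_sum fun u hu => ?_).trans (Finset.sum_le_sum_of_subset h3)
    exact Finset.card_pos.2 ⟨r, mem_nb.2 ⟨hrT, (mem_nb.1 hu).2.symm⟩⟩
  have h3 : al G (Y \ T) + 1 ≤ al G Y := htr
  have hps2 : ps G k (Y \ T) ≤ 6 := by
    obtain ⟨D, hD⟩ : ∃ D : ℕ, ∑ v ∈ T, (nb G Y v).card = D := ⟨_, rfl⟩
    rw [hD] at hpsd hsd
    rw [hTc] at hpsd hcomp
    have g1 : (e2 G T : ℤ) + e2 Gᶜ T + k = k * k := by exact_mod_cast hcomp
    have g2 : (D : ℤ) = e2 G T + bd G Y T := by exact_mod_cast hsd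
    have g3 : (e2 Gᶜ T : ℤ) + 2 * k ≤ 2 * bd G Y T + 4 := by
      have : e2 Gᶜ T + 2 * k ≤ 2 * bd G Y T + 4 := by omega
      exact_mod_cast this
    have g4 : (1 : ℤ) ≤ (al G Y : ℤ) - al G (Y \ T) := by
      have : (al G (Y \ T) : ℤ) + 1 ≤ al G Y := by exact_mod_cast h3
      linarith
    have g5 := mul_le_mul_of_nonneg_left g4 (kappa_nonneg H.hk)
    nlinarith
  have hY2 : Y \ T ⊆ X := Finset.sdiff_subset.trans hY
  have hY2ne : Y \ T ≠ X := by
    intro h
    exact hne (Finset.Subset.antisymm hY (h ▸ Finset.sdiff_subset))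
  have hwT : w ∉ T := by
    rw [hTdef, mem_insert]
    rintro (h | h)
    · exact hwr h
    · exact (Finset.disjoint_left.1 hd) h hw
  have hwY2 : w ∈ Y \ T := mem_sdiff.2 ⟨hR' hw, hwT⟩
  have hrw : G.Adj w r := hRq' w hw r hrR' hwr
  have hsub : nb G (Y \ T) w ⊆ (nb G Y w).erase r := by
    intro u hu
    have hu' := mem_nb.1 hu
    have hu'' := mem_sdiff.1 hu'.1
    rw [mem_erase]
    exact ⟨fun h => hu''.2 (h ▸ hrT), mem_nb.2 ⟨hu''.1, hu'.2⟩⟩
  have hc1 := Finset.card_le_card hsub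
  rw [Finset.card_erase_of_mem (mem_nb.2 ⟨hr, hrw⟩)] at hc1
  have hcl := card_cl (G := G) (X := Y \ T) (v := w)
  have htc := tr_cl (G := G) hwY2
  have hcs := cl_sub (G := G) hwY2
  have h4 := H.tau1 hY2 hY2ne (by linarith) _ hcs htc
  have hcl2 : (cl G (Y \ T) w).card + 1 = k := by omega
  have hnbz : (nb G (R'.erase r) z).card ≤ (R'.erase r).card :=
    Finset.card_le_card (nb_sub _ _)
  rw [Finset.card_erase_of_mem hrR'] at hnbz
  obtain ⟨hclq, _⟩ := H.tr34 hY2 hY2ne (by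
    have h7 : (7 : ℤ) ≤ k := by exact_mod_cast (by omega : 7 ≤ k)
    linarith) hcs hcl2 htc
  -- the set `R' ∪ {s}`
  have hR'sub : R'.erase r ⊆ cl G (Y \ T) w := by
    intro u hu
    have hu' := mem_erase.1 hu
    by_cases huw : u = w
    · rw [huw]; exact mem_insert_self _ _
    · refine mem_insert_of_mem (mem_nb.2 ⟨mem_sdiff.2 ⟨hR' hu'.2, ?_⟩,
        hRq' w hw u hu'.2 (Ne.symm huw)⟩)
      rw [hTdef, mem_insert]
      rintro (h | h)
      · exact hu'.1 h
      · exact (Finset.disjoint_left.1 hd) h hu'.2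
  have hrcl : r ∉ cl G (Y \ T) w := fun h => (mem_sdiff.1 (hcs h)).2 hrT
  have hzcl : z ∉ insert r (cl G (Y \ T) w) := by
    rw [mem_insert]
    rintro (h | h)
    · exact hzY (h ▸ hr)
    · exact hzY (mem_sdiff.1 (hcs h)).1
  have h5 := H.sl1 (F := insert z (insert r (cl G (Y \ T) w)))
    (Finset.insert_subset hz (Finset.insert_subset (hY hr) (hcs.trans hY2))) (by
      rw [Finset.card_insert_of_notMem hzcl, Finset.card_insert_of_notMem hrcl]; omega)
  rw [e2c_insert hzcl, e2c_insert hrcl, clq_e2c hclq] at h5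
  -- `r` misses at most one vertex
  have h6 := nbc_card' (G := G) hrcl
  have h7 : (R'.erase r).card ≤ (nb G (cl G (Y \ T) w) r).card := by
    refine Finset.card_le_card ?_
    intro u hu
    have hu' := mem_erase.1 hu
    exact mem_nb.2 ⟨hR'sub hu, hRq' r hrR' u hu'.2 (Ne.symm hu'.1)⟩
  rw [Finset.card_erase_of_mem hrR'] at h7
  have h8 := nbc_card' (G := G) hzcl
  have h9 : (nb G (R'.erase r) z).card ≤ (nb G (insert r (cl G (Y \ T) w)) z).card :=
    Finset.card_le_card (nb_mono (hR'sub.trans (Finset.subset_insert _ _)) z)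
  rw [Finset.card_insert_of_notMem hrcl] at h8
  omega

end

end Pool.Agent.TwoDens.TS
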