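import Pool.Agent.TKS.TCa

/-!
Two bases sharing exactly one outside neighbour: the cases, for all `k ≥ 5`.
-/

open Finset

namespace Pool.Agent.TwoDens.TS

open Pool.Agent.TwoDens Pool.Agent.TwoDens.RK Pool.Agent.TwoDens.DD

variable {V : Type*} [DecidableEq V] {G : SimpleGraph V} [DecidableRel G.Adj]

namespace Ts
variable {k : ℕ} {X P H R R' : Finset V} {c u u' x x' t t' r r' : V}
  (S : Ts G k X P H c u u' x x' t t' r r' R R')
include S

/-- case A1 -/
theorem a1 (nx't : ¬ G.Adj x' t) (xt' : G.Adj x t') : False := by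
  have hk := S.h5
  obtain ⟨hd, hE⟩ := S.z2 nx't (Or.inl xt')
  have hdl := Finset.disjoint_left.1 hd
  have nrt : ¬ G.Adj t r := fun h =>
    (hE r (mem_nb.2 ⟨S.b.rH, h⟩) S.b.hrR).1 (mem_nb.2 ⟨S.b.rH, S.b.xr⟩)
  have hR'N : ∀ v ∈ R', v ∈ nb G H x' := fun v hv => mem_nb.2 ⟨S.b'.RH hv, S.b'.xR hv⟩
  have hR'T : ∀ v ∈ R', v ∉ insert t (nb G H x) := by
    intro v hv e
    rw [mem_insert] at e
    rcases e with e | e
    · exact nx't (e ▸ S.b'.xR hv)
    · exact hdl e (hR'N v hv)
  have hd't := S.b'.dg t' (mem_insert_self _ _)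
  have hRc := S.b.hRc
  have hRc' := S.b'.hRc
  have hrt : t' = r := by
    rcases S.b.cases S.b'.htH xt' with e | e
    · exact e
    · exfalso
      have h1 : insert t (R.erase t') ∪ R' ⊆ nb G H t' := by
        intro v hv
        rw [mem_union, mem_insert, mem_erase] at hv
        rcases hv with (hv | hv) | hv
        · rw [hv]
          exact mem_nb.2 ⟨S.b.htH, (S.b.tadj e).symm⟩
        · exact mem_nb.2 ⟨S.b.RH hv.2, S.b.clq t' (mem_insert_of_mem e) v
            (mem_insert_of_mem hv.2) (Ne.symm hv.1)⟩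
        · exact mem_nb.2 ⟨S.b'.RH hv, S.b'.tadj hv⟩
      have h2 := Finset.card_le_card h1
      rw [Finset.card_union_of_disjoint, Finset.card_insert_of_notMem, Finset.card_erase_of_mem e]
        at h2
      · omega
      · exact fun h => S.b.tR (mem_erase.1 h).2
      · rw [Finset.disjoint_left]
        intro v hv hv'
        rw [mem_insert, mem_erase] at hv
        refine hR'T v hv' ?_
        rw [mem_insert]
        rcases hv with hv | hv
        · exact Or.inl hv
        · exact Or.inr (mem_nb.2 ⟨S.b.RH hv.2, S.b.xR hv.2⟩)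
  have ht'T : t' ∈ insert t (nb G H x) := by
    rw [hrt]
    exact S.b.st.hr
  obtain ⟨z, hz⟩ : R'.Nonempty := Finset.card_pos.1 (by omega)
  obtain ⟨h2, h3⟩ := S.b.two S.F.mc S.HX S.Hne S.ps0 (S.b'.RH hz) (hR'T z hz)
    (S.b'.dg z (mem_insert_of_mem hz)) ht'T (S.b'.tadj hz).symm
  -- a neighbour of `t'` in `R`
  obtain ⟨s, hs, hsr⟩ : ∃ s ∈ R, G.Adj s r := by
    by_contra hcon
    push Not at hcon
    have h4 : nb G H r ⊆ nb G H r \ insert t (nb G H x) := by
      intro w hw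
      refine mem_sdiff.2 ⟨hw, fun e => ?_⟩
      have hw2 := (mem_nb.1 hw).2
      rw [S.b.memT] at e
      rcases e with e | e | e
      · exact nrt (e ▸ hw2.symm)
      · rw [e] at hw2
        exact G.loopless.irrefl _ hw2
      · exact hcon w e hw2.symm
    have h5 := Finset.card_le_card h4
    rw [hrt] at hd't
    omega
  have hst' : s ≠ t' := fun e => G.loopless.irrefl s (by rw [← hrt, ← e] at hsr; exact hsr)
  have hsT : s ∈ insert t (nb G H x) := by rw [S.b.memT]; exact Or.inr (Or.inr hs)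
  have hx's : ¬ G.Adj x' s := fun h =>
    hdl (mem_nb.2 ⟨S.b.RH hs, S.b.xR hs⟩) (mem_nb.2 ⟨S.b.RH hs, h⟩)
  have htr := S.trip hsT hst' hx's ht'T
  have h4 := (S.b.out (mem_insert_of_mem hs)).2.1 hsr
  rw [Finset.card_eq_zero.1 h4, Finset.union_empty] at htr
  have hN'Y : nb G H x' \ insert t (nb G H x) ⊆ H \ insert t (nb G H x) :=
    Finset.sdiff_subset_sdiff (nb_sub _ _) le_rfl
  have hN'e : nb G H x' \ insert t (nb G H x) = nb G H x' := by
    rw [Finset.sdiff_eq_self_iff_disjoint, Finset.disjoint_left]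
    intro v hv e
    rw [mem_insert] at e
    rcases e with e | e
    · exact nx't (e ▸ (mem_nb.1 hv).2)
    · exact hdl e hv
  rw [hN'e] at htr hN'Y
  have h5 := S.b'.hNc
  obtain ⟨-, h6, -⟩ := S.F.mc.iso2 S.YX S.Yne h2 hN'Y (by omega) htr
  have h7 : Clq G (insert x' (nb G H x')) := by
    intro p hp q hq hpq
    rw [mem_insert] at hp hq
    rcases hp with rfl | hp <;> rcases hq with rfl | hq
    · exact absurd rfl hpq
    · exact (mem_nb.1 hq).2
    · exact (mem_nb.1 hp).2.symm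
    · exact h6 p hp q hq hpq
  have h8 := S.F.mc.clq_lt (Finset.insert_subset S.symm.xX ((nb_sub _ _).trans S.HX)) h7
  rw [Finset.card_insert_of_notMem self_notMem] at h8
  omega

/-- case A2 -/
theorem a2 (nx't : ¬ G.Adj x' t) (nxt' : ¬ G.Adj x t') (tt' : G.Adj t t') : False := by
  have hk := S.h5
  obtain ⟨hd, hE⟩ := S.z2 nx't (Or.inr ⟨nxt', tt'⟩)
  obtain ⟨hd', hE'⟩ := S.symm.z2 nxt' (Or.inr ⟨nx't, tt'.symm⟩)
  have hdl := Finset.disjoint_left.1 hd
  have nrt : ¬ G.Adj t r := fun h =>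
    (hE r (mem_nb.2 ⟨S.b.rH, h⟩) S.b.hrR).1 (mem_nb.2 ⟨S.b.rH, S.b.xr⟩)
  have htT : t ∈ insert t (nb G H x) := mem_insert_self _ _
  have ht'T : t' ∉ insert t (nb G H x) := notT S.htt.symm nxt'
  obtain ⟨h2, h3⟩ := S.b.two S.F.mc S.HX S.Hne S.ps0 S.b'.htH ht'T
    (S.b'.dg t' (mem_insert_self _ _)) htT tt'.symm
  obtain ⟨l, hl, hlt⟩ := Finset.exists_mem_ne (by have := S.b.q2; omega : 1 <
    (nb Gᶜ (insert t (nb G H x)) r).card) t
  have hl1 := mem_nb.1 hl
  have hl2 := (SimpleGraph.compl_adj _ _ _).1 hl1.2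
  have hlR : l ∈ R := by
    have := hl1.1
    rw [S.b.memT] at this
    rcases this with e | e | e
    · exact absurd e hlt
    · exact absurd e.symm hl2.1
    · exact e
  obtain ⟨U, hU⟩ : ∃ U, U = nb G H r \ insert t (nb G H x) := ⟨_, rfl⟩
  have t1 := tr_pair0 (G := G) (Y := H) S.b.st.hr htT S.b.st.hT (Ne.symm S.b.trn)
    (fun h => nrt h.symm) S.b.st.alT
  have t2 := tr_pair0 (G := G) (Y := H) S.b.st.hr hl1.1 S.b.st.hT hl2.1 hl2.2 S.b.st.alT
  have o1 := (S.b.out (mem_insert_self t R)).2.2 nrt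
  have o2 := (S.b.out (mem_insert_of_mem hlR)).2.2 (fun h => hl2.2 h.symm)
  rw [Finset.card_eq_one] at o1 o2
  obtain ⟨a, ha⟩ := o1
  obtain ⟨l', hl'⟩ := o2
  have hat : a = t' := by
    have : t' ∈ nb G H t \ insert t (nb G H x) := mem_sdiff.2 ⟨mem_nb.2 ⟨S.b'.htH, tt'⟩, ht'T⟩
    rw [ha, mem_singleton] at this
    exact this.symm
  rw [← hU] at t1 t2 h3
  rw [ha, hat] at t1
  rw [hl'] at t2
  have hUY : U ⊆ H \ insert t (nb G H x) := by
    rw [hU]
    exact Finset.sdiff_subset_sdiff (nb_sub _ _) le_rfl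
  have ht'Y : t' ∈ H \ insert t (nb G H x) := mem_sdiff.2 ⟨S.b'.htH, ht'T⟩
  have hl'm : l' ∈ nb G H l \ insert t (nb G H x) := by rw [hl']; exact mem_singleton_self _
  have hl'2 := mem_sdiff.1 hl'm
  have hl'Y : l' ∈ H \ insert t (nb G H x) := mem_sdiff.2 ⟨(mem_nb.1 hl'2.1).1, hl'2.2⟩
  have c1 := Finset.card_union_le U {t'}
  have c2 := Finset.card_union_le U {l'}
  rw [Finset.card_singleton] at c1 c2
  obtain ⟨-, -, i1⟩ := S.F.mc.iso2 S.YX S.Yne h2 (Finset.union_subset hUY
    (Finset.singleton_subset_iff.2 ht'Y)) (by omega) t1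
  obtain ⟨i4, i2, -⟩ := S.F.mc.iso2 S.YX S.Yne h2 (Finset.union_subset hUY
    (Finset.singleton_subset_iff.2 hl'Y)) (by omega) t2
  have hl'U : l' ∉ U := by
    intro e
    rw [Finset.union_eq_left.2 (Finset.singleton_subset_iff.2 e)] at i4
    omega
  obtain ⟨w, hw⟩ : U.Nonempty := Finset.card_pos.1 (by omega)
  have h5 := i1 w (mem_union_left _ hw) l' hl'Y (i2 w (mem_union_left _ hw) l'
    (mem_union_right _ (mem_singleton_self _)) (fun e => hl'U (e ▸ hw)))
  rw [mem_union, mem_singleton] at h5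
  have h6 : l' = t' := h5.resolve_left hl'U
  have h7 : G.Adj t' l := by
    rw [← h6]
    exact (mem_nb.1 hl'2.1).2.symm
  have hlN : l ∈ nb G H x := mem_nb.2 ⟨S.b.RH hlR, S.b.xR hlR⟩
  by_cases hlR' : l ∈ R'
  · exact hdl hlN (mem_nb.2 ⟨S.b'.RH hlR', S.b'.xR hlR'⟩)
  · exact (hE' l (mem_nb.2 ⟨S.b.RH hlR, h7⟩) hlR').2 hlN

/-- case A3 -/
theorem a3 (nx't : ¬ G.Adj x' t) (nxt' : ¬ G.Adj x t') (ntt' : ¬ G.Adj t t') : False := by
  have hk := S.h5
  obtain ⟨W, hW⟩ : ∃ W, W = P ∪ ({x, x', t, t'} ∪ ((nb G H x ∪ nb G H x') ∪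
    ((nb G H t \ R) ∪ (nb G H t' \ R')))) := ⟨_, rfl⟩
  have hJW : ({x, x', t, t'} : Finset V) ⊆ W := by
    rw [hW]
    exact Finset.subset_union_left.trans Finset.subset_union_right
  have hJX : ({x, x', t, t'} : Finset V) ⊆ X := by
    intro z hz
    rw [mem_insert, mem_insert, mem_insert, mem_singleton] at hz
    rcases hz with rfl | rfl | rfl | rfl
    · exact S.xX
    · exact S.symm.xX
    · exact (mem_sdiff.1 S.tXP).1
    · exact (mem_sdiff.1 S.symm.tXP).1
  have hWX : W ⊆ X := by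
    rw [hW]
    refine Finset.union_subset S.F.hP (Finset.union_subset hJX (Finset.union_subset
      (Finset.union_subset ((nb_sub _ _).trans S.HX) ((nb_sub _ _).trans S.HX))
      (Finset.union_subset (Finset.sdiff_subset.trans ((nb_sub _ _).trans S.HX))
      (Finset.sdiff_subset.trans ((nb_sub _ _).trans S.HX)))))
  have hi : G.IsIndepSet (({x, x', t, t'} : Finset V) : Set V) := by
    refine indep_insert (indep_triple nx't S.symm.nxt ntt') ?_
    intro v hv
    rw [mem_insert, mem_insert, mem_singleton] at hv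
    rcases hv with rfl | rfl | rfl
    · exact S.nxx
    · exact S.nxt
    · exact nxt'
  have hc4 : ({x, x', t, t'} : Finset V).card = 4 := by
    have a1 : x ≠ t := S.htx.symm
    have a2 : x ≠ t' := (S.xH S.b'.htH).symm
    have a3 : x' ≠ t := (S.xH' S.b.htH).symm
    have a4 : x' ≠ t' := S.htx'.symm
    rw [Finset.card_insert_of_notMem (by simp [S.xx', a1, a2]),
      Finset.card_insert_of_notMem (by simp [a3, a4]), Finset.card_pair S.htt]
  have hal := al_closed (G := G) (Y := X) (S := W) hJX hJW hi (by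
    intro z hz w hw hzw
    rcases S.nbc hw hzw with h1 | h1 | h1 | h1
    · rw [hW]
      exact mem_union_left _ h1
    · exact hJW (by rw [h1]; simp)
    · exact hJW (by rw [h1]; simp)
    · rw [hW, mem_union, mem_union, mem_union, mem_union, mem_union, mem_sdiff, mem_sdiff]
      rw [mem_insert, mem_insert, mem_insert, mem_singleton] at hz
      rcases hz with rfl | rfl | rfl | rfl
      · exact Or.inr (Or.inr (Or.inl (Or.inl h1)))
      · exact Or.inr (Or.inr (Or.inl (Or.inr h1)))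
      · by_cases e : w ∈ R
        · exact Or.inr (Or.inr (Or.inl (Or.inl (mem_nb.2 ⟨S.b.RH e, S.b.xR e⟩))))
        · exact Or.inr (Or.inr (Or.inr (Or.inl ⟨h1, e⟩)))
      · by_cases e : w ∈ R'
        · exact Or.inr (Or.inr (Or.inl (Or.inr (mem_nb.2 ⟨S.b'.RH e, S.b'.xR e⟩))))
        · exact Or.inr (Or.inr (Or.inr (Or.inr ⟨h1, e⟩))))
  rw [hc4] at hal
  have h1 := S.F.mc.closed4 hk hWX hal
  have h2 := Finset.card_union_le P ({x, x', t, t'} ∪ ((nb G H x ∪ nb G H x') ∪
    ((nb G H t \ R) ∪ (nb G H t' \ R'))))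
  rw [← hW] at h2
  have h3 := Finset.card_union_le ({x, x', t, t'} : Finset V) ((nb G H x ∪ nb G H x') ∪
    ((nb G H t \ R) ∪ (nb G H t' \ R')))
  have h4 := Finset.card_union_le (nb G H x ∪ nb G H x') ((nb G H t \ R) ∪ (nb G H t' \ R'))
  have h5 := Finset.card_union_le (nb G H x) (nb G H x')
  have h6 := Finset.card_union_le (nb G H t \ R) (nb G H t' \ R')
  have h7 := S.hE
  have h8 := S.symm.hE
  have h9 := S.b.hNc
  have h10 := S.b'.hNc
  have h11 := S.F.hPc
  omega

/-- the case `x'` not adjacent to `t` -/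
theorem case3 (nx't : ¬ G.Adj x' t) : False := by
  by_cases h : G.Adj x t'
  · exact S.a1 nx't h
  · by_cases h' : G.Adj t t'
    · exact S.a2 nx't h h'
    · exact S.a3 nx't h h'

/-- no vertex of `P` misses both `x` and `x'` -/
theorem no (x't : G.Adj x' t) (xt' : G.Adj x t') {p : V} (hp : p ∈ P) (h1 : ¬ G.Adj x p)
    (h2 : ¬ G.Adj x' p) : False := by
  have hk := S.h5
  have h3 : t ∈ nb G H x' := mem_nb.2 ⟨S.b.htH, x't⟩
  have h3' : t' ∈ nb G H x := mem_nb.2 ⟨S.b'.htH, xt'⟩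
  obtain ⟨W, hW⟩ : ∃ W, W = P ∪ ({x, x'} ∪ (nb G H x ∪ nb G H x')) := ⟨_, rfl⟩
  have hPW : P ⊆ W := by
    rw [hW]
    exact Finset.subset_union_left
  have hxW : x ∈ W := by
    rw [hW]
    refine mem_union_right _ (mem_union_left _ ?_)
    simp
  have hxW' : x' ∈ W := by
    rw [hW]
    refine mem_union_right _ (mem_union_left _ ?_)
    simp
  have hNW : ∀ v, v ∈ nb G H x ∨ v ∈ nb G H x' → v ∈ W := by
    intro v hv
    rw [hW]
    refine mem_union_right _ (mem_union_right _ ?_)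
    rw [mem_union]
    exact hv
  have hWX : W ⊆ X := by
    rw [hW]
    refine Finset.union_subset S.F.hP (Finset.union_subset ?_ (Finset.union_subset
      ((nb_sub _ _).trans S.HX) ((nb_sub _ _).trans S.HX)))
    intro z hz
    rw [mem_insert, mem_singleton] at hz
    rcases hz with rfl | rfl
    · exact S.xX
    · exact S.symm.xX
  have hal := al_closed (G := G) (Y := X) (S := W) (J := {x, x', p}) (by
    intro z hz
    rw [mem_insert, mem_insert, mem_singleton] at hz
    rcases hz with rfl | rfl | rfl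
    · exact S.xX
    · exact S.symm.xX
    · exact S.F.hP hp) (by
    intro z hz
    rw [mem_insert, mem_insert, mem_singleton] at hz
    rcases hz with rfl | rfl | rfl
    · exact hxW
    · exact hxW'
    · exact hPW hp) (indep_triple S.nxx h1 h2) (by
    intro z hz w hw hzw
    rcases S.nbc hw hzw with h4 | h4 | h4 | h4
    · exact hPW h4
    · rw [h4]
      exact hxW
    · rw [h4]
      exact hxW'
    · rw [mem_insert, mem_insert, mem_singleton] at hz
      rcases hz with rfl | rfl | rfl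
      · exact hNW w (Or.inl h4)
      · exact hNW w (Or.inr h4)
      · rcases S.nP hp (mem_nb.1 h4).1 (mem_nb.1 h4).2 with e | e
        · exact hNW w (Or.inr (e ▸ h3))
        · exact hNW w (Or.inl (e ▸ h3')))
  have hc3 : ({x, x', p} : Finset V).card = 3 := by
    have a1 : x ≠ p := fun e => S.xP (e ▸ hp)
    have a2 : x' ≠ p := fun e => S.symm.xP (e ▸ hp)
    rw [Finset.card_insert_of_notMem (by simp [S.xx', a1]), Finset.card_pair a2]
  rw [hc3] at hal
  have h4 := S.F.mc.closed3 hWX hal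
  have h5 := Finset.card_union_le P ({x, x'} ∪ (nb G H x ∪ nb G H x'))
  have h6 := Finset.card_union_le ({x, x'} : Finset V) (nb G H x ∪ nb G H x')
  have h7 := Finset.card_union_le (nb G H x) (nb G H x')
  rw [← hW] at h5
  rw [Finset.card_pair S.xx'] at h6
  have h9 := S.b.hNc
  have h10 := S.b'.hNc
  have h11 := S.F.hPc
  omega

theorem htau1 : TauGe G (H \ insert t (nb G H x)) (k - 1) := by
  have h1 := S.b.psY S.ps0
  have h2 := S.b.ge (S.F.mc.tau0 S.HX S.Hne (by rw [S.ps0]; norm_num))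
  have h3 : (k : ℤ) ≤ (nb G H r \ insert t (nb G H x)).card + 2 := by exact_mod_cast h2
  have h5 := S.h5
  have h6 : (5 : ℤ) ≤ k := by exact_mod_cast h5
  exact S.F.mc.tau1 S.YX S.Yne (by linarith)

/-- case 4, a common neighbour -/
theorem c1 (x't : G.Adj x' t) (xt' : G.Adj x t') {w : V} (hw1 : w ∈ nb G H x)
    (hw2 : w ∈ nb G H x') : False := by
  have hk := S.h5
  obtain ⟨T, hT⟩ : ∃ T, T = insert t (nb G H x) := ⟨_, rfl⟩
  have htT : t ∈ T := by rw [hT]; exact mem_insert_self _ _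
  have hTH : T ⊆ H := by rw [hT]; exact S.b.st.hT
  obtain ⟨W, hW⟩ : ∃ W, W = (P ∪ {x, x'}) ∪ T := ⟨_, rfl⟩
  have hWX : W ⊆ X := by
    rw [hW]
    refine Finset.union_subset (Finset.union_subset S.F.hP ?_) (hTH.trans S.HX)
    intro z hz
    rw [mem_insert, mem_singleton] at hz
    rcases hz with rfl | rfl
    · exact S.xX
    · exact S.symm.xX
  have hXW : X \ W = H \ T := by
    ext v
    rw [mem_sdiff, mem_sdiff, hW, mem_union, mem_union, mem_insert, mem_singleton, S.memH]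
    tauto
  have halT := S.b.st.alT
  have halH := S.halH
  have htau := S.htau1
  rw [← hT] at halT htau
  have hrT : r ∈ T := by rw [hT]; exact S.b.st.hr
  have hrW : r ∈ W := by
    rw [hW]
    exact mem_union_right _ hrT
  have hd't := S.b'.dg t' (mem_insert_self _ _)
  -- the rest is nonempty
  have hRc' := S.b'.hRc
  have hge := S.b.ge (S.F.mc.tau0 S.HX S.Hne (by rw [S.ps0]; norm_num))
  rw [← hT] at hge
  have hne : (X \ W).Nonempty := by
    rw [hXW]
    obtain ⟨v, hv⟩ := Finset.card_pos.1 (by omega : 0 < (nb G H r \ T).card)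
    have hv' := mem_sdiff.1 hv
    exact ⟨v, mem_sdiff.2 ⟨(mem_nb.1 hv'.1).1, hv'.2⟩⟩
  obtain ⟨J, hJ, hi, hJc, hrJ⟩ := S.F.mc.tri hWX hne (by rw [hXW]; omega) hrW ⟨t, mem_erase.2
    ⟨S.b.trn, by rw [hW]; exact mem_union_right _ htT⟩⟩
  have hsum := S.F.mc.trisum hWX (by rw [hXW]; omega) (by rw [hXW]; exact htau) hJ hi hJc
  rw [hXW] at hsum
  have hndj : ∀ {a b : V}, a ∈ J → b ∈ J → a ≠ b → ¬ G.Adj a b := fun ha hb hab =>
    hi (by exact_mod_cast ha) (by exact_mod_cast hb) hab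
  have cP : (J ∩ P).card ≤ 1 := by
    rw [Finset.card_le_one]
    intro a ha b hb
    rw [mem_inter] at ha hb
    by_contra e
    exact hndj ha.1 hb.1 e (S.F.hPq a ha.2 b hb.2 e)
  have cT : (J ∩ T).card ≤ 1 := by
    rw [Finset.card_le_one]
    intro a ha b hb
    rw [mem_inter] at ha hb
    by_contra e
    have h1 := S.b.st.clq
    rw [← hT] at h1
    exact hndj ha.1 hb.1 e (h1 a (mem_erase.2 ⟨fun e => hrJ (e ▸ ha.1), ha.2⟩) b
      (mem_erase.2 ⟨fun e => hrJ (e ▸ hb.1), hb.2⟩) e)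
  have hTJ : ∀ {s : V}, s ∈ T → ¬ G.Adj x s → s = t := by
    intro s hs hxs
    rw [hT, mem_insert] at hs
    rcases hs with e | e
    · exact e
    · exact absurd (mem_nb.1 e).2 hxs
  have hxT : ∀ {s : V}, s ∈ T → s ≠ x ∧ s ≠ x' := fun hs => ⟨S.xH (hTH hs), S.xH' (hTH hs)⟩
  have hxxP : ∀ {s : V}, s ∈ P → s ≠ x ∧ s ≠ x' := fun hs =>
    ⟨fun e => S.xP (e ▸ hs), fun e => S.symm.xP (e ▸ hs)⟩
  have hb : ¬ (x ∈ J ∧ x' ∈ J) := by
    rintro ⟨h1, h2⟩
    obtain ⟨z, hz, hz'⟩ := Finset.exists_mem_notMem_of_card_lt_card (s := {x, x'}) (t := J) (by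
      rw [Finset.card_pair S.xx', hJc]
      norm_num)
    rw [mem_insert, mem_singleton] at hz'
    push Not at hz'
    have h3 := hJ hz
    rw [hW, mem_union, mem_union, mem_insert, mem_singleton] at h3
    rcases h3 with (h3 | h3) | h3
    · exact S.no x't xt' h3 (hndj h1 hz (Ne.symm hz'.1)) (hndj h2 hz (Ne.symm hz'.2))
    · rcases h3 with e | e
      · exact hz'.1 e
      · exact hz'.2 e
    · have h4 := hTJ h3 (hndj h1 hz (Ne.symm hz'.1))
      exact hndj h2 hz (Ne.symm hz'.2) (h4 ▸ x't)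
  have cX : (J ∩ {x, x'}).card ≤ 1 := by
    rw [Finset.card_le_one]
    intro a ha b hb'
    rw [mem_inter, mem_insert, mem_singleton] at ha hb'
    rcases ha with ⟨ha, rfl | rfl⟩ <;> rcases hb' with ⟨hb', rfl | rfl⟩
    · rfl
    · exact absurd ⟨ha, hb'⟩ hb
    · exact absurd ⟨hb', ha⟩ hb
    · rfl
  have hJ3 : J ⊆ (J ∩ P) ∪ ((J ∩ {x, x'}) ∪ (J ∩ T)) := by
    intro z hz
    have h3 := hJ hz
    rw [hW, mem_union, mem_union] at h3
    rw [mem_union, mem_union, mem_inter, mem_inter, mem_inter]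
    tauto
  have h4 := Finset.card_le_card hJ3
  have h5 := Finset.card_union_le (J ∩ P) ((J ∩ {x, x'}) ∪ (J ∩ T))
  have h6 := Finset.card_union_le (J ∩ {x, x'}) (J ∩ T)
  obtain ⟨p, hp⟩ := Finset.card_pos.1 (by omega : 0 < (J ∩ P).card)
  obtain ⟨y, hy⟩ := Finset.card_pos.1 (by omega : 0 < (J ∩ {x, x'}).card)
  obtain ⟨s, hs⟩ := Finset.card_pos.1 (by omega : 0 < (J ∩ T).card)
  rw [mem_inter] at hp hs hy
  have hps : p ≠ s := fun e => (S.memH.1 (hTH (e ▸ hs.2))).2.1 hp.2
  have hyx : y = x' := by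
    rw [mem_insert, mem_singleton] at hy
    rcases hy with ⟨hy, e | e⟩
    · exfalso
      rw [e] at hy
      have h7 := hTJ hs.2 (hndj hy hs.1 (hxT hs.2).1.symm)
      rcases S.nb1 p hp.2 with h8 | h8
      · exact hndj hy hp.1 (hxxP hp.2).1.symm h8
      · exact hndj hs.1 hp.1 hps.symm (h7 ▸ h8)
    · exact e
  rw [hyx] at hy
  have hJe : {p, x', s} = J := by
    refine Finset.eq_of_subset_of_card_le ?_ ?_
    · intro z hz
      rw [mem_insert, mem_insert, mem_singleton] at hz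
      rcases hz with rfl | rfl | rfl
      · exact hp.1
      · exact hy.1
      · exact hs.1
    · rw [hJc, Finset.card_insert_of_notMem (by simp [(hxxP hp.2).2, hps]),
        Finset.card_pair (hxT hs.2).2.symm]
  rw [← hJe, Finset.sum_insert (by simp [(hxxP hp.2).2, hps]),
    Finset.sum_insert (by simp [(hxT hs.2).2.symm]), Finset.sum_singleton] at hsum
  have ht'T : t' ∈ T := by rw [hT]; exact mem_insert_of_mem (mem_nb.2 ⟨S.b'.htH, xt'⟩)
  have f1 : (nb G (H \ T) p).card = 0 := by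
    rw [Finset.card_eq_zero, Finset.eq_empty_iff_forall_notMem]
    intro v hv
    have hv' := mem_nb.1 hv
    have hv2 := mem_sdiff.1 hv'.1
    rcases S.nP hp.2 hv2.1 hv'.2 with e | e
    · exact hv2.2 (e ▸ htT)
    · exact hv2.2 (e ▸ ht'T)
  have f2 : (nb G (H \ T) x').card + 3 ≤ k := by
    have h7 : nb G (H \ T) x' ⊆ ((nb G H x').erase t).erase w := by
      intro v hv
      have hv' := mem_nb.1 hv
      have hv2 := mem_sdiff.1 hv'.1
      refine mem_erase.2 ⟨?_, mem_erase.2 ⟨fun e => hv2.2 (e ▸ htT), mem_nb.2 ⟨hv2.1, hv'.2⟩⟩⟩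
      rintro rfl
      exact hv2.2 (by rw [hT]; exact mem_insert_of_mem hw1)
    have h8 := Finset.card_le_card h7
    have hwt : w ≠ t := fun e => S.b.htN (e ▸ hw1)
    rw [Finset.card_erase_of_mem (mem_erase.2 ⟨hwt, hw2⟩),
      Finset.card_erase_of_mem (mem_nb.2 ⟨S.b.htH, x't⟩)] at h8
    have h9 := S.b'.hNc
    omega
  have f3 : (nb G (H \ T) s).card ≤ 1 := by
    have hsR : s ∈ insert t R := by
      have h7 := hs.2
      rw [hT, S.b.memT] at h7
      rw [mem_insert]
      rcases h7 with e | e | e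
      · exact Or.inl e
      · exact absurd (e ▸ hs.1) hrJ
      · exact Or.inr e
    refine le_trans (Finset.card_le_card ?_) (S.b.out hsR).1
    rw [← hT]
    intro v hv
    have hv' := mem_nb.1 hv
    have hv2 := mem_sdiff.1 hv'.1
    exact mem_sdiff.2 ⟨mem_nb.2 ⟨hv2.1, hv'.2⟩, hv2.2⟩
  omega

/-- the centre in case 4 -/
theorem cr (xt' : G.Adj x t') (hd : Disjoint (nb G H x) (nb G H x')) :
    t' = r := by
  have hk := S.h5
  have hdl := Finset.disjoint_left.1 hd
  have hd't := S.b'.dg t' (mem_insert_self _ _)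
  have hRc := S.b.hRc
  have hRc' := S.b'.hRc
  rcases S.b.cases S.b'.htH xt' with e | e
  · exact e
  · exfalso
    have h1 : insert t (R.erase t') ∪ R'.erase t ⊆ nb G H t' := by
      intro v hv
      rw [mem_union, mem_insert, mem_erase, mem_erase] at hv
      rcases hv with (hv | hv) | hv
      · rw [hv]
        exact mem_nb.2 ⟨S.b.htH, (S.b.tadj e).symm⟩
      · exact mem_nb.2 ⟨S.b.RH hv.2, S.b.clq t' (mem_insert_of_mem e) v
          (mem_insert_of_mem hv.2) (Ne.symm hv.1)⟩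
      · exact mem_nb.2 ⟨S.b'.RH hv.2, S.b'.tadj hv.2⟩
    have h2 := Finset.card_le_card h1
    have h3 := Finset.pred_card_le_card_erase (s := R') (a := t)
    rw [Finset.card_union_of_disjoint, Finset.card_insert_of_notMem, Finset.card_erase_of_mem e]
      at h2
    · omega
    · exact fun h => S.b.tR (mem_erase.1 h).2
    · rw [Finset.disjoint_left]
      intro v hv hv'
      rw [mem_insert, mem_erase] at hv
      rw [mem_erase] at hv'
      rcases hv with hv | hv
      · exact hv'.1 hv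
      · exact hdl (mem_nb.2 ⟨S.b.RH hv.2, S.b.xR hv.2⟩)
          (mem_nb.2 ⟨S.b'.RH hv'.2, S.b'.xR hv'.2⟩)

/-- case 4, no common neighbour -/
theorem c0 (x't : G.Adj x' t) (xt' : G.Adj x t') (hd : Disjoint (nb G H x) (nb G H x')) :
    False := by
  have hk := S.h5
  have hdl := Finset.disjoint_left.1 hd
  have hr := S.cr xt' hd
  have hr' := S.symm.cr x't hd.symm
  have hRc := S.b.hRc
  have hRc' := S.b'.hRc
  obtain ⟨T, hT⟩ : ∃ T, T = insert t (nb G H x) := ⟨_, rfl⟩
  have htT : t ∈ T := by rw [hT]; exact mem_insert_self _ _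
  have hTH : T ⊆ H := by rw [hT]; exact S.b.st.hT
  have ht'T : t' ∈ T := by rw [hT]; exact mem_insert_of_mem (mem_nb.2 ⟨S.b'.htH, xt'⟩)
  have hR'T : ∀ v ∈ R', v ∉ T := by
    intro v hv e
    rw [hT, mem_insert] at e
    rcases e with e | e
    · exact S.b'.hrR (by rw [← hr', ← e]; exact hv)
    · exact hdl e (mem_nb.2 ⟨S.b'.RH hv, S.b'.xR hv⟩)
  obtain ⟨z, hz⟩ : R'.Nonempty := Finset.card_pos.1 (by omega)
  obtain ⟨h2, h3⟩ := S.b.two S.F.mc S.HX S.Hne S.ps0 (S.b'.RH hz) (by
    rw [← hT]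
    exact hR'T z hz) (S.b'.dg z (mem_insert_of_mem hz)) (by rw [← hT]; exact ht'T)
    (S.b'.tadj hz).symm
  have hN' : nb G H x' \ T = R' := by
    rw [S.b'.hN, ← hr']
    ext v
    rw [mem_sdiff, mem_insert]
    constructor
    · rintro ⟨e | e, e'⟩
      · exact absurd (e ▸ htT) e'
      · exact e
    · intro hv
      exact ⟨Or.inr hv, hR'T v hv⟩
  obtain ⟨s, hs⟩ : R.Nonempty := Finset.card_pos.1 (by omega)
  have hsN : s ∈ nb G H x := mem_nb.2 ⟨S.b.RH hs, S.b.xR hs⟩
  have htr := S.trip (s := s) (mem_insert_of_mem hsN) (fun e => S.b.hrR (by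
    rw [← hr, ← e]
    exact hs)) (fun h => hdl hsN (mem_nb.2 ⟨S.b.RH hs, h⟩)) (by rw [← hT]; exact ht'T)
  have ho := (S.b.out (mem_insert_of_mem hs)).1
  have hYX := S.YX
  have hYne := S.Yne
  rw [← hT] at htr ho h2 h3 hYX hYne
  rw [hN'] at htr
  have hR'Y : R' ⊆ H \ T := fun v hv => mem_sdiff.2 ⟨S.b'.RH hv, hR'T v hv⟩
  have hEY : nb G H s \ T ⊆ H \ T := Finset.sdiff_subset_sdiff (nb_sub _ _) le_rfl
  have h4 := Finset.card_union_le R' (nb G H s \ T)
  obtain ⟨h5, -, h6⟩ := S.F.mc.iso2 hYX hYne h2 (Finset.union_subset hR'Y hEY) (by omega) htr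
  have h7 : (nb G H s \ T).card = 1 := by omega
  obtain ⟨q, hq⟩ := Finset.card_eq_one.1 h7
  rw [hq] at h5 h6
  have hqm : q ∈ nb G H s \ T := by rw [hq]; exact mem_singleton_self _
  have hqY := mem_sdiff.1 (hEY hqm)
  have hqR' : q ∉ R' := by
    intro e
    rw [Finset.union_eq_left.2 (Finset.singleton_subset_iff.2 e)] at h5
    omega
  have nxq : ¬ G.Adj x q := fun h => hqY.2 (by
    rw [hT]
    exact mem_insert_of_mem (mem_nb.2 ⟨hqY.1, h⟩))
  have nx'q : ¬ G.Adj x' q := by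
    intro h
    have : q ∈ nb G H x' \ T := mem_sdiff.2 ⟨mem_nb.2 ⟨hqY.1, h⟩, hqY.2⟩
    rw [hN'] at this
    exact hqR' this
  -- the closed set
  obtain ⟨W, hW⟩ : ∃ W, W = P ∪ ({x, x'} ∪ (R ∪ (R' ∪ {t, t', q}))) := ⟨_, rfl⟩
  have mW : ∀ {v : V}, v ∈ W ↔ v ∈ P ∨ (v = x ∨ v = x') ∨ v ∈ R ∨ v ∈ R' ∨ v = t ∨ v = t' ∨
      v = q := by
    intro v
    rw [hW]
    simp only [mem_union, mem_insert, mem_singleton]
  have hWX : W ⊆ X := by
    intro v hv
    rw [mW] at hv
    rcases hv with hv | (hv | hv) | hv | hv | hv | hv | hv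
    · exact S.F.hP hv
    · rw [hv]; exact S.xX
    · rw [hv]; exact S.symm.xX
    · exact S.HX (S.b.RH hv)
    · exact S.HX (S.b'.RH hv)
    · rw [hv]; exact S.HX S.b.htH
    · rw [hv]; exact S.HX S.b'.htH
    · rw [hv]; exact S.HX hqY.1
  have hNW : ∀ {v : V}, v ∈ nb G H x → v ∈ W := by
    intro v hv
    rw [S.b.hN, mem_insert, ← hr] at hv
    rw [mW]
    tauto
  have hal := al_closed (G := G) (Y := X) (S := W) (J := {x, x', q}) (by
    intro z hz
    rw [mem_insert, mem_insert, mem_singleton] at hz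
    rcases hz with rfl | rfl | rfl
    · exact S.xX
    · exact S.symm.xX
    · exact S.HX hqY.1) (by
    intro z hz
    rw [mem_insert, mem_insert, mem_singleton] at hz
    rw [mW]
    tauto) (indep_triple S.nxx nxq nx'q) (by
    intro z hz w hw hzw
    rcases S.nbc hw hzw with h8 | h8 | h8 | h8
    · exact mW.2 (Or.inl h8)
    · exact mW.2 (Or.inr (Or.inl (Or.inl h8)))
    · exact mW.2 (Or.inr (Or.inl (Or.inr h8)))
    · rw [mem_insert, mem_insert, mem_singleton] at hz
      rcases hz with rfl | rfl | rfl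
      · exact hNW h8
      · rw [S.b'.hN, mem_insert, ← hr'] at h8
        rw [mW]
        tauto
      · by_cases hwT : w ∈ T
        · rw [hT, mem_insert] at hwT
          rcases hwT with e | e
          · rw [mW]
            tauto
          · exact hNW e
        · have h9 := h6 z (mem_union_right _ (mem_singleton_self _)) w
            (mem_sdiff.2 ⟨(mem_nb.1 h8).1, hwT⟩) hzw
          rw [mem_union, mem_singleton] at h9
          rw [mW]
          tauto)
  have hc3 : ({x, x', q} : Finset V).card = 3 := by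
    have a1 : x ≠ q := (S.xH hqY.1).symm
    have a2 : x' ≠ q := (S.xH' hqY.1).symm
    rw [Finset.card_insert_of_notMem (by simp [S.xx', a1]), Finset.card_pair a2]
  rw [hc3] at hal
  have g1 := S.F.mc.closed3 hWX hal
  have g2 := Finset.card_union_le P ({x, x'} ∪ (R ∪ (R' ∪ {t, t', q})))
  have g3 := Finset.card_union_le ({x, x'} : Finset V) (R ∪ (R' ∪ {t, t', q}))
  have g4 := Finset.card_union_le R (R' ∪ {t, t', q})
  have g5 := Finset.card_union_le R' {t, t', q}
  have g6 : ({t, t', q} : Finset V).card ≤ 3 := Finset.card_le_three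
  rw [← hW] at g2
  rw [Finset.card_pair S.xx'] at g3
  have g7 := S.F.hPc
  have he4 := S.e4
  rw [ad_one x't, ad_one xt'] at he4
  have g8 : ({x, x', t, t'} : Finset V) ⊆ W := by
    intro v hv
    rw [mem_insert, mem_insert, mem_insert, mem_singleton] at hv
    rw [mW]
    tauto
  have g9 := exs_mono (G := G) (k := k) (X := X) g8
  exact S.F.mc.w3 S.h5 hWX (by omega) hal (by omega)

theorem false : False := by
  by_cases h1 : G.Adj x' t
  · by_cases h2 : G.Adj x t'
    · by_cases hd : Disjoint (nb G H x) (nb G H x')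
      · exact S.c0 h1 h2 hd
      · rw [Finset.not_disjoint_iff] at hd
        obtain ⟨w, hw1, hw2⟩ := hd
        exact S.c1 h1 h2 hw1 hw2
    · exact S.symm.case3 h2
  · exact S.case3 h1

end Ts

/-- two blocks with the same `t` -/
theorem bk_ne {k : ℕ} {X P H R R' : Finset V} {c x x' t r r' : V} (F : Fr G k X P)
    (B : Base G k X P c x x') (hH : H = hb X P x x') (nxx : ¬ G.Adj x x')
    (b : Bk G k H x t r R) (b' : Bk G k H x' t r' R') : False := by
  have hk := F.mc.hk
  have memH : ∀ {v : V}, v ∈ H ↔ v ∈ X ∧ v ∉ P ∧ v ≠ x ∧ v ≠ x' := by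
    intro v
    rw [hH]
    exact mem_hb
  have hHX : H ⊆ X := fun v hv => (memH.1 hv).1
  have hxX := (mem_sdiff.1 B.hx).1
  have hxX' := (mem_sdiff.1 B.hx').1
  obtain ⟨W, hW⟩ : ∃ W, W = P ∪ ({x, x', t} ∪ ({r, r'} ∪ nb G H t)) := ⟨_, rfl⟩
  have mW : ∀ {v : V}, v ∈ W ↔ v ∈ P ∨ (v = x ∨ v = x' ∨ v = t) ∨ (v = r ∨ v = r') ∨
      v ∈ nb G H t := by
    intro v
    rw [hW]
    simp only [mem_union, mem_insert, mem_singleton]
  have hWX : W ⊆ X := by
    intro v hv
    rw [mW] at hv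
    rcases hv with hv | (hv | hv | hv) | (hv | hv) | hv
    · exact F.hP hv
    · rw [hv]; exact hxX
    · rw [hv]; exact hxX'
    · rw [hv]; exact hHX b.htH
    · rw [hv]; exact hHX b.rH
    · rw [hv]; exact hHX b'.rH
    · exact hHX (nb_sub _ _ hv)
  have hal := al_closed (G := G) (Y := X) (S := W) (J := {x, x', t}) (by
    intro z hz
    rw [mem_insert, mem_insert, mem_singleton] at hz
    rcases hz with rfl | rfl | rfl
    · exact hxX
    · exact hxX'
    · exact hHX b.htH) (by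
    intro z hz
    rw [mem_insert, mem_insert, mem_singleton] at hz
    rw [mW]
    tauto) (indep_triple nxx b.nxt b'.nxt) (by
    intro z hz w hw hzw
    rw [mW]
    by_cases h1 : w ∈ P
    · exact Or.inl h1
    by_cases h2 : w = x
    · exact Or.inr (Or.inl (Or.inl h2))
    by_cases h3 : w = x'
    · exact Or.inr (Or.inl (Or.inr (Or.inl h3)))
    have hwH : w ∈ H := memH.2 ⟨hw, h1, h2, h3⟩
    rw [mem_insert, mem_insert, mem_singleton] at hz
    rcases hz with rfl | rfl | rfl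
    · rcases b.cases hwH hzw with e | e
      · exact Or.inr (Or.inr (Or.inl (Or.inl e)))
      · exact Or.inr (Or.inr (Or.inr (mem_nb.2 ⟨hwH, b.tadj e⟩)))
    · rcases b'.cases hwH hzw with e | e
      · exact Or.inr (Or.inr (Or.inl (Or.inr e)))
      · exact Or.inr (Or.inr (Or.inr (mem_nb.2 ⟨hwH, b'.tadj e⟩)))
    · exact Or.inr (Or.inr (Or.inr (mem_nb.2 ⟨hwH, hzw⟩))))
  have hc3 : ({x, x', t} : Finset V).card = 3 := by
    have a1 : x ≠ t := fun e => (memH.1 b.htH).2.2.1 e.symm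
    have a2 : x' ≠ t := fun e => (memH.1 b.htH).2.2.2 e.symm
    rw [Finset.card_insert_of_notMem (by simp [B.hne, a1]), Finset.card_pair a2]
  rw [hc3] at hal
  have g1 := F.mc.closed3 hWX hal
  have g2 := Finset.card_union_le P ({x, x', t} ∪ ({r, r'} ∪ nb G H t))
  have g3 := Finset.card_union_le ({x, x', t} : Finset V) ({r, r'} ∪ nb G H t)
  have g4 := Finset.card_union_le ({r, r'} : Finset V) (nb G H t)
  have g5 : ({r, r'} : Finset V).card ≤ 2 := Finset.card_le_two
  have g6 := b.dg t (mem_insert_self _ _)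
  have g7 := F.hPc
  rw [← hW] at g2
  rw [hc3] at g3
  omega

/-- two bases sharing exactly one outside neighbour on both sides do not exist -/
theorem Fr.ta5 {k : ℕ} {X P : Finset V} (F : Fr G k X P) (h5 : 5 ≤ k) {c u u' x x' t t' : V}
    (B : Base G k X P c x x') (Bu : Base G k X P u x' t) (Bu' : Base G k X P u' x t')
    (htx : t ≠ x) (htx' : t' ≠ x') : False := by
  have hk := F.mc.hk
  have hk' : (4 : ℤ) ≤ k := by exact_mod_cast hk
  have hxX := mem_sdiff.1 B.hx
  have hxX' := mem_sdiff.1 B.hx'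
  have n1 : ¬ G.Adj u x := Bu.na B.hx B.hne (Ne.symm htx)
  have n2 : ¬ G.Adj u' x' := Bu'.na B.hx' B.hne.symm (Ne.symm htx')
  have huu : u ≠ u' := fun e => n2 (e ▸ Bu.ax)
  have h6 := F.seven B Bu.hc Bu'.hc huu
  have e1 : (ad G u x : ℤ) = 0 := by rw [ad_zero n1]; rfl
  have e2' : (ad G u x' : ℤ) = 1 := by rw [ad_one Bu.ax]; rfl
  have e3 : (ad G u' x : ℤ) = 1 := by rw [ad_one Bu'.ax]; rfl
  have e4 : (ad G u' x' : ℤ) = 0 := by rw [ad_zero n2]; rfl
  rw [e1, e2', e3, e4] at h6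
  have h10 := F.card_xu' B Bu.hc (fun e => n1 e.symm)
  have h11 := F.card_xu' B.symm Bu'.hc (fun e => n2 e.symm)
  rw [hb_comm X P x' x] at h11
  have h10' : (k : ℤ) ≤ (nb G (hb X P x x') x).card + (nb G (hb X P x x') u).card := by
    exact_mod_cast h10
  have h11' : (k : ℤ) ≤ (nb G (hb X P x x') x').card + (nb G (hb X P x x') u').card := by
    exact_mod_cast h11
  have h12' := (F.bp _ _ _ B).ps0
  have h13 := F.mc.ps_le
  have a3 := Int.natCast_nonneg (ad G x x')
  have a4 := Int.natCast_nonneg (exs G k X ((P.erase u).erase u'))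
  have r1 : (ad G x x' : ℤ) = 0 := by linarith
  have r2 : ps G k (hb X P x x') = 0 := by linarith
  have r3 : ((nb G (hb X P x x') x).card : ℤ) + (nb G (hb X P x x') u).card = k := by linarith
  have r4 : ((nb G (hb X P x x') x').card : ℤ) + (nb G (hb X P x x') u').card = k := by linarith
  have r5 : (exs G k X ((P.erase u).erase u') : ℤ) = 0 := by linarith
  have r3' : (nb G (hb X P x x') x).card + (nb G (hb X P x x') u).card = k := by exact_mod_cast r3
  have r4' : (nb G (hb X P x x') x').card + (nb G (hb X P x x') u').card = k := by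
    exact_mod_cast r4
  have r5' : exs G k X ((P.erase u).erase u') = 0 := by exact_mod_cast r5
  have nxx : ¬ G.Adj x x' := by
    intro h
    rw [ad_one h] at r1
    norm_num at r1
  have hNu : nb G (hb X P x x') u = {t} := by
    rw [nb_hb, Bu.hout]
    ext v
    simp only [mem_sdiff, mem_insert, mem_singleton]
    constructor
    · rintro ⟨h | h, h'⟩
      · exact absurd (Or.inr h) h'
      · exact h
    · rintro rfl
      exact ⟨Or.inr rfl, fun h => h.elim htx (fun h => Bu.hne h.symm)⟩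
  have hNu' : nb G (hb X P x x') u' = {t'} := by
    rw [nb_hb, Bu'.hout]
    ext v
    simp only [mem_sdiff, mem_insert, mem_singleton]
    constructor
    · rintro ⟨h | h, h'⟩
      · exact absurd (Or.inl h) h'
      · exact h
    · rintro rfl
      exact ⟨Or.inr rfl, fun h => h.elim (fun h => Bu'.hne h.symm) htx'⟩
  rw [hNu, Finset.card_singleton] at r3'
  rw [hNu', Finset.card_singleton] at r4'
  have dP : ∀ p ∈ P, (nb G X p).card = k := by
    intro p hp
    by_cases e : p = u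
    · rw [e]; exact Bu.deg
    · by_cases e' : p = u'
      · rw [e']; exact Bu'.deg
      · unfold exs at r5'
        have h1 := (Finset.sum_eq_zero_iff.1 r5') p (mem_erase.2 ⟨e', mem_erase.2 ⟨e, hp⟩⟩)
        have h2 := F.mc.deg_ge p (F.hP hp)
        omega
  have hnb2 : ∀ p ∈ P, (nb G (hb X P x x') p).card ≤ 2 := by
    intro p hp
    have h1 := F.nbH B hp
    have h2 := dP p hp
    omega
  have r2' : ps G k (hb X P x' x) = 0 := by rw [hb_comm]; exact r2
  have r3'' : (nb G (hb X P x' x) x).card + 1 = k := by rw [hb_comm]; exact r3'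
  have hNu2 : nb G (hb X P x' x) u = {t} := by rw [hb_comm]; exact hNu
  obtain ⟨r, R, b⟩ := F.bk h5 B.symm r2' r3'' Bu.hc (fun e => n1 e.symm) hNu2
  obtain ⟨r', R', b'⟩ := F.bk h5 B r2 r4' Bu'.hc (fun e => n2 e.symm) hNu'
  rw [hb_comm X P x' x] at b
  have htt : t ≠ t' := by
    rintro rfl
    exact bk_ne F B rfl nxx b b'
  refine (Ts.false (S := ⟨F, h5, B, Bu, Bu', rfl, dP, htx, htx', htt, nxx, r2, b, b', ?_, ?_⟩))
  · intro p hp
    by_cases h : G.Adj x p
    · exact Or.inl h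
    · exact Or.inr (F.lemZ5 h5 B.symm r2' r3'' Bu.hc (fun e => n1 e.symm) hNu2 hp h
        (by rw [hb_comm]; exact hnb2 p hp)).symm
  · intro p hp
    by_cases h : G.Adj x' p
    · exact Or.inl h
    · exact Or.inr (F.lemZ5 h5 B r2 r4' Bu'.hc (fun e => n2 e.symm) hNu' hp h (hnb2 p hp)).symm

end Pool.Agent.TwoDens.TS
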