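import Pool.Agent.TKS.XD
import Pool.Agent.TKS.BEa
import Pool.Agent.TKS.FM

/-!
Two bases sharing exactly one outside neighbour: first part, for all `k ≥ 5`.
-/

open Finset

namespace Pool.Agent.TwoDens.TS

open Pool.Agent.TwoDens Pool.Agent.TwoDens.RK Pool.Agent.TwoDens.DD

variable {V : Type*} [DecidableEq V] {G : SimpleGraph V} [DecidableRel G.Adj]

/-- a set of `3 k` vertices lowering the independence number by three has small excess -/
theorem MC.w3 {k : ℕ} {X : Finset V} (M : MC G k X) (h5 : 5 ≤ k) {W : Finset V} (hW : W ⊆ X)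
    (hc : W.card = 3 * k) (hal : al G (X \ W) + 3 ≤ al G X)
    (hex : 2 * k ≤ exs G k X W + 5) : False := by
  have hWn : W.Nonempty := Finset.card_pos.1 (by omega)
  have h1 := M.exbd hW hWn hal
  have h2 := M.sparse_bd hW (by omega)
  have hk' : (5 : ℤ) ≤ k := by exact_mod_cast h5
  have hc' : (W.card : ℤ) = 3 * k := by exact_mod_cast hc
  have hex' : 2 * (k : ℤ) ≤ exs G k X W + 5 := by exact_mod_cast hex
  rw [hc'] at h1
  push_cast at h1
  have hbd : (bd G X W : ℤ) + 3 ≤ k := by nlinarith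
  have hbd' : bd G X W + 3 ≤ k := by exact_mod_cast hbd
  by_cases hne : (X \ W).Nonempty
  · have hYne : X \ W ≠ X := by
      obtain ⟨w, hw⟩ := hWn
      intro e
      have := hW hw
      rw [← e, mem_sdiff] at this
      exact this.2 hw
    have htau : TauGe G (X \ W) (k - 1) := by
      refine M.tau1 Finset.sdiff_subset hYne ?_
      have h3 := ps_sdiff (G := G) k hW
      have h4 := sum_deg' (G := G) hW
      have h6 := sum_ge (G := G) (Y := X) (S := W) k (fun v hv => M.deg_ge v (hW hv))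
      have h7 := M.ps_le
      have g4 : ((∑ v ∈ W, (nb G X v).card : ℕ) : ℤ) = e2 G W + bd G X W := by exact_mod_cast h4
      have g6 : ((∑ v ∈ W, (nb G X v).card : ℕ) : ℤ) = k * (3 * k) + exs G k X W := by
        rw [h6, hc]
        push_cast
        ring
      have g7 : (al G (X \ W) : ℤ) + 3 ≤ al G X := by exact_mod_cast hal
      have g8 := Int.natCast_nonneg (bd G X W)
      rw [hc'] at h3
      have g9 : (3 * (k : ℤ) ^ 2 - 3 * k + 2) * 3 ≤
          (3 * (k : ℤ) ^ 2 - 3 * k + 2) * ((al G X : ℤ) - al G (X \ W)) := by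
        refine mul_le_mul_of_nonneg_left (by linarith) (by nlinarith)
      nlinarith
    have := M.bd_ge hW hWn hne htau
    omega
  · rw [Finset.not_nonempty_iff_eq_empty] at hne
    have hXW : X ⊆ W := Finset.sdiff_eq_empty_iff_subset.1 hne
    have hb0 : bd G X W = 0 := by
      unfold bd
      refine Finset.sum_eq_zero fun v _ => ?_
      rw [Finset.card_eq_zero, Finset.sdiff_eq_empty_iff_subset]
      exact (nb_sub X v).trans hXW
    omega

/-- the star `insert t (nb G H x)` with centre `r`, `R` the other neighbours of `x` -/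
structure Bk (G : SimpleGraph V) [DecidableRel G.Adj] (k : ℕ) (H : Finset V) (x t r : V)
    (R : Finset V) : Prop where
  htH : t ∈ H
  hN : nb G H x = insert r R
  hrR : r ∉ R
  hRc : R.card + 2 = k
  htN : t ∉ nb G H x
  st : StarT G k H (insert t (nb G H x)) r
  clq : Clq G (insert t R)
  dg : ∀ v ∈ insert t R, (nb G H v).card + 1 = k
  q2 : 2 ≤ (nb Gᶜ (insert t (nb G H x)) r).card

theorem Fr.bk {k : ℕ} {X P : Finset V} (F : Fr G k X P) (h5 : 5 ≤ k) {c x x' : V}
    (B : Base G k X P c x x') (hps : ps G k (hb X P x x') = 0)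
    (hf : (nb G (hb X P x x') x').card + 1 = k)
    {u t : V} (hu : u ∈ P) (hxu : ¬ G.Adj x' u) (hNu : nb G (hb X P x x') u = {t}) :
    ∃ r R, Bk G k (hb X P x x') x' t r R := by
  obtain ⟨htH, htn, r, hr, hS, _, hq2⟩ := F.block0 h5 B hps hf hu hxu hNu
  have htr : t ≠ r := fun e => htn (e ▸ hr)
  have hTe : (insert t (nb G (hb X P x x') x')).erase r =
      insert t ((nb G (hb X P x x') x').erase r) := Finset.erase_insert_of_ne htr
  have h6 : 2 ≤ (nb Gᶜ (insert t (nb G (hb X P x x') x')) r).card := by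
    have h6 : nb Gᶜ (insert t ((nb G (hb X P x x') x').erase r)) r ⊆
        nb Gᶜ (insert t (nb G (hb X P x x') x')) r :=
      Finset.filter_subset_filter _ (Finset.insert_subset_insert _ (Finset.erase_subset _ _))
    exact hq2.trans (Finset.card_le_card h6)
  have hd := F.mc.star0 hb_sub B.hbne (by rw [hps]; norm_num) hS h6
  have hcl := hS.clq
  rw [hTe] at hd hcl
  refine ⟨r, (nb G (hb X P x x') x').erase r, htH, (Finset.insert_erase hr).symm,
    Finset.notMem_erase _ _, ?_, htn, hS, hcl, hd, h6⟩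
  have : ((nb G (hb X P x x') x').erase r).card + 1 = (nb G (hb X P x x') x').card :=
    Finset.card_erase_add_one hr
  omega

namespace Bk
variable {k : ℕ} {H R : Finset V} {x t r : V} (b : Bk G k H x t r R)
include b

theorem tR : t ∉ R := fun e => b.htN (by rw [b.hN]; exact mem_insert_of_mem e)

theorem xR {w : V} (hw : w ∈ R) : G.Adj x w :=
  (mem_nb.1 (by rw [b.hN]; exact mem_insert_of_mem hw : w ∈ nb G H x)).2

theorem RH {w : V} (hw : w ∈ R) : w ∈ H :=
  (mem_nb.1 (by rw [b.hN]; exact mem_insert_of_mem hw : w ∈ nb G H x)).1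

theorem xr : G.Adj x r := (mem_nb.1 (by rw [b.hN]; exact mem_insert_self _ _ : r ∈ nb G H x)).2

theorem rH : r ∈ H := (mem_nb.1 (by rw [b.hN]; exact mem_insert_self _ _ : r ∈ nb G H x)).1

theorem cases {w : V} (hw : w ∈ H) (h : G.Adj x w) : w = r ∨ w ∈ R := by
  have h1 : w ∈ nb G H x := mem_nb.2 ⟨hw, h⟩
  rwa [b.hN, mem_insert] at h1

theorem trn : t ≠ r := fun e => b.htN (by rw [b.hN, e]; exact mem_insert_self _ _)

theorem hNc : (nb G H x).card + 1 = k := by
  rw [b.hN, Finset.card_insert_of_notMem b.hrR]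
  have := b.hRc
  omega

theorem tadj {w : V} (hw : w ∈ R) : G.Adj t w :=
  b.clq t (mem_insert_self _ _) w (mem_insert_of_mem hw) (fun e => b.tR (e ▸ hw))

theorem nxt : ¬ G.Adj x t := fun h => b.htN (mem_nb.2 ⟨b.htH, h⟩)

theorem memT {w : V} : w ∈ insert t (nb G H x) ↔ w = t ∨ w = r ∨ w ∈ R := by
  rw [b.hN, mem_insert, mem_insert]

/-- the vertices of the clique have few neighbours outside the star -/
theorem out {s : V} (hs : s ∈ insert t R) : (nb G H s \ insert t (nb G H x)).card ≤ 1 ∧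
    (G.Adj s r → (nb G H s \ insert t (nb G H x)).card = 0) ∧
    (¬ G.Adj s r → (nb G H s \ insert t (nb G H x)).card = 1) := by
  have hsT : s ∈ insert t (nb G H x) := by
    rw [b.memT]
    rw [mem_insert] at hs
    tauto
  have hsr : s ≠ r := by
    rintro rfl
    rw [mem_insert] at hs
    rcases hs with h | h
    · exact b.trn h.symm
    · exact b.hrR h
  have h1 := deg_split (G := G) b.st.hT hsT
  rw [b.st.hc] at h1
  have h2 := b.dg s hs
  have h3 : nb Gᶜ (insert t (nb G H x)) s ⊆ {r} := by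
    intro w hw
    have hw' := mem_nb.1 hw
    have h4 := (SimpleGraph.compl_adj _ _ _).1 hw'.2
    rw [mem_singleton]
    by_contra e
    exact h4.2 (b.st.clq s (mem_erase.2 ⟨hsr, hsT⟩) w (mem_erase.2 ⟨e, hw'.1⟩) h4.1)
  have h4 := Finset.card_le_card h3
  rw [Finset.card_singleton] at h4
  refine ⟨by omega, ?_, ?_⟩
  · intro ha
    have : nb Gᶜ (insert t (nb G H x)) s = ∅ := by
      rw [Finset.eq_empty_iff_forall_notMem]
      intro w hw
      have := h3 hw
      rw [mem_singleton] at this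
      rw [this] at hw
      exact ((SimpleGraph.compl_adj _ _ _).1 (mem_nb.1 hw).2).2 ha
    rw [this, Finset.card_empty] at h1
    omega
  · intro ha
    have : r ∈ nb Gᶜ (insert t (nb G H x)) s :=
      mem_nb.2 ⟨b.st.hr, (SimpleGraph.compl_adj _ _ _).2 ⟨hsr, ha⟩⟩
    have := Finset.card_pos.2 ⟨r, this⟩
    omega

/-- the potential of the rest -/
theorem psY (h0 : ps G k H = 0) :
    ps G k (H \ insert t (nb G H x)) + 2 * ((nb G H r \ insert t (nb G H x)).card : ℤ) =
      2 * k - 2 := by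
  have h1 := b.st.psT
  have h2 : exs G (k - 1) H ((insert t (nb G H x)).erase r) = 0 := by
    unfold exs
    refine Finset.sum_eq_zero fun v hv => ?_
    rw [mem_erase, b.memT] at hv
    have := b.dg v (by rw [mem_insert]; tauto)
    omega
  rw [h2, h0] at h1
  push_cast at h1
  linarith

/-- the centre has at least `k - 2` neighbours outside the star -/
theorem ge (h0 : TauGe G H k) : k ≤ (nb G H r \ insert t (nb G H x)).card + 2 := by
  have h1 := b.st.ge h0
  have h2 : exs G (k - 1) H ((insert t (nb G H x)).erase r) = 0 := by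
    unfold exs
    refine Finset.sum_eq_zero fun v hv => ?_
    rw [mem_erase, b.memT] at hv
    have := b.dg v (by rw [mem_insert]; tauto)
    omega
  omega

/-- the rest has potential `2` if some vertex of degree `k - 1` in it has a neighbour in the
star -/
theorem two {X : Finset V} (M : MC G k X) (hH : H ⊆ X) (hne : H ≠ X) (h0 : ps G k H = 0)
    {z w : V} (hz : z ∈ H) (hzT : z ∉ insert t (nb G H x)) (hd : (nb G H z).card + 1 = k)
    (hw : w ∈ insert t (nb G H x)) (hzw : G.Adj z w) :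
    ps G k (H \ insert t (nb G H x)) = 2 ∧ (nb G H r \ insert t (nb G H x)).card + 2 = k := by
  have hk := M.hk
  have h1 := b.psY h0
  have h2 := b.ge (M.tau0 hH hne (by rw [h0]; norm_num))
  have hYX : H \ insert t (nb G H x) ⊆ X := Finset.sdiff_subset.trans hH
  have hYne : H \ insert t (nb G H x) ≠ X := by
    intro e
    exact hne (Finset.Subset.antisymm hH (e ▸ Finset.sdiff_subset))
  have h3 := M.hmin _ hYX hYne
  have h4 : (k : ℤ) ≤ (nb G H r \ insert t (nb G H x)).card + 2 := by exact_mod_cast h2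
  have h5 : ¬ ps G k (H \ insert t (nb G H x)) ≤ 1 := by
    intro h
    have h6 := (M.tau0 hYX hYne h).deg (mem_sdiff.2 ⟨hz, hzT⟩)
    have h7 : nb G (H \ insert t (nb G H x)) z ⊆ (nb G H z).erase w := by
      intro y hy
      have hy' := mem_nb.1 hy
      have hy2 := mem_sdiff.1 hy'.1
      exact mem_erase.2 ⟨fun e => hy2.2 (e ▸ hw), mem_nb.2 ⟨hy2.1, hy'.2⟩⟩
    have h8 := Finset.card_le_card h7
    rw [Finset.card_erase_of_mem (mem_nb.2 ⟨b.st.hT hw, hzw⟩)] at h8
    omega
  push Not at h5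
  have h6 : ((nb G H r \ insert t (nb G H x)).card : ℤ) + 2 = k := by omega
  refine ⟨by omega, by exact_mod_cast h6⟩

end Bk

/-- Lemma Z -/
theorem Fr.lemZ5 {k : ℕ} {X P : Finset V} (F : Fr G k X P) (h5 : 5 ≤ k) {c x x' : V}
    (B : Base G k X P c x x')
    (hps : ps G k (hb X P x x') = 0) (hf : (nb G (hb X P x x') x').card + 1 = k)
    {u t v : V} (hu : u ∈ P) (hxu : ¬ G.Adj x' u) (hNu : nb G (hb X P x x') u = {t})
    (hv : v ∈ P) (hxv : ¬ G.Adj x' v) (hNv : (nb G (hb X P x x') v).card ≤ 2) :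
    G.Adj v t := by
  have hk := F.mc.hk
  obtain ⟨r, R, b⟩ := F.bk h5 B hps hf hu hxu hNu
  have hbp := F.bp _ _ _ B
  have htv := F.tr_xu B.symm hv hxv
  rw [hb_comm X P x' x] at htv
  obtain ⟨H, hH⟩ : ∃ H, H = hb X P x x' := ⟨_, rfl⟩
  have hHX : H ⊆ X := by rw [hH]; exact hb_sub
  have hHne : H ≠ X := by rw [hH]; exact B.hbne
  have htau := hbp.tau
  rw [← hH] at b hNv htv hps htau
  obtain ⟨T, hT⟩ : ∃ T, T = insert t (nb G H x') := ⟨_, rfl⟩
  have hpsY := b.psY hps
  have hge := b.ge htau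
  have hout := (b.out (mem_insert_self t R)).1
  have halT := b.st.alT
  rw [← hT] at hpsY hge hout halT
  have hY2X : H \ T ⊆ X := Finset.sdiff_subset.trans hHX
  have hY2ne : H \ T ≠ X := by
    intro e
    exact hHne (Finset.Subset.antisymm hHX (e ▸ Finset.sdiff_subset))
  have hk' : (5 : ℤ) ≤ k := by exact_mod_cast h5
  have hge' : (k : ℤ) ≤ (nb G H r \ T).card + 2 := by exact_mod_cast hge
  have htau2 := F.mc.tau1 hY2X hY2ne (by linarith)
  have htT : t ∈ T := by rw [hT]; exact mem_insert_self _ _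
  by_contra hcon
  have htnv : t ∉ nb G H v := fun e => hcon (mem_nb.1 e).2
  -- a maximum independent set of `H \ T`
  have hntr : ¬ Tr G (H \ T) ((nb G H v ∪ (nb G H t \ T)) ∩ (H \ T)) := by
    intro h
    have h1 := htau2 _ Finset.inter_subset_right h
    have h2 : ((nb G H v ∪ (nb G H t \ T)) ∩ (H \ T)).card ≤
        (nb G H v ∪ (nb G H t \ T)).card := Finset.card_le_card Finset.inter_subset_left
    have h3 := Finset.card_union_le (nb G H v) (nb G H t \ T)
    omega
  obtain ⟨I, hI, hi, hd, hc⟩ := not_tr hntr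
  have hIH : I ⊆ H := hI.trans Finset.sdiff_subset
  have htI : t ∉ I := fun e => (mem_sdiff.1 (hI e)).2 htT
  have hlt := htv.lt (I := insert t I) (Finset.insert_subset b.htH hIH) (indep_insert hi (by
    intro y hy hty
    have hy' := mem_sdiff.1 (hI hy)
    refine (Finset.disjoint_left.1 hd) hy (mem_inter.2 ⟨mem_union_right _ ?_, hI hy⟩)
    exact mem_sdiff.2 ⟨mem_nb.2 ⟨hy'.1, hty⟩, hy'.2⟩)) (by
    rw [Finset.disjoint_left]
    intro y hy hy'
    rw [mem_insert] at hy
    rw [mem_union] at hy'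
    rcases hy with rfl | hy
    · rcases hy' with h | h
      · exact b.htN h
      · exact htnv h
    · rcases hy' with h | h
      · refine (mem_sdiff.1 (hI hy)).2 ?_
        rw [hT]
        exact mem_insert_of_mem h
      · exact (Finset.disjoint_left.1 hd) hy (mem_inter.2 ⟨mem_union_left _ h, hI hy⟩))
  rw [Finset.card_insert_of_notMem htI, hc] at hlt
  omega

/-- the situation of two bases sharing exactly one outside neighbour on both sides -/
structure Ts (G : SimpleGraph V) [DecidableRel G.Adj] (k : ℕ) (X P H : Finset V)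
    (c u u' x x' t t' r r' : V) (R R' : Finset V) : Prop where
  F : Fr G k X P
  h5 : 5 ≤ k
  B : Base G k X P c x x'
  Bu : Base G k X P u x' t
  Bu' : Base G k X P u' x t'
  hH : H = hb X P x x'
  dP : ∀ p ∈ P, (nb G X p).card = k
  htx : t ≠ x
  htx' : t' ≠ x'
  htt : t ≠ t'
  nxx : ¬ G.Adj x x'
  ps0 : ps G k H = 0
  b : Bk G k H x t r R
  b' : Bk G k H x' t' r' R'
  nb1 : ∀ p ∈ P, G.Adj x p ∨ G.Adj t p
  nb2 : ∀ p ∈ P, G.Adj x' p ∨ G.Adj t' p

/-- an isolated clique from a small transversal -/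
theorem MC.iso2 {k : ℕ} {X : Finset V} (M : MC G k X) {Y : Finset V} (hY : Y ⊆ X) (hne : Y ≠ X)
    (hp : ps G k Y = 2) {S : Finset V} (hS : S ⊆ Y) (hc : S.card + 1 ≤ k) (ht : Tr G Y S) :
    S.card + 1 = k ∧ Clq G S ∧ ∀ v ∈ S, ∀ w ∈ Y, G.Adj v w → w ∈ S := by
  have hk := M.hk
  have hk' : (4 : ℤ) ≤ k := by exact_mod_cast hk
  have h1 := M.tau1 hY hne (by rw [hp]; linarith) S hS ht
  have h2 : S.card + 1 = k := by omega
  obtain ⟨h3, h4⟩ := M.tr34 hY hne (by rw [hp]; linarith) hS h2 ht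
  refine ⟨h2, h3, ?_⟩
  intro v hv w hw hvw
  by_contra hcon
  have h5 : bd G Y S = 0 := by
    rw [hp] at h4
    have : (bd G Y S : ℤ) ≤ 0 := by linarith
    have h6 : bd G Y S ≤ 0 := by exact_mod_cast this
    omega
  unfold bd at h5
  have h6 := (Finset.sum_eq_zero_iff.1 h5) v hv
  rw [Finset.card_eq_zero] at h6
  have h7 : w ∈ nb G Y v \ S := mem_sdiff.2 ⟨mem_nb.2 ⟨hw, hvw⟩, hcon⟩
  rw [h6] at h7
  exact Finset.notMem_empty _ h7

namespace Ts
variable {k : ℕ} {X P H R R' : Finset V} {c u u' x x' t t' r r' : V}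
  (S : Ts G k X P H c u u' x x' t t' r r' R R')
include S

theorem symm : Ts G k X P H c u' u x' x t' t r' r R' R where
  F := S.F
  h5 := S.h5
  B := S.B.symm
  Bu := S.Bu'
  Bu' := S.Bu
  hH := by rw [S.hH, hb_comm]
  dP := S.dP
  htx := S.htx'
  htx' := S.htx
  htt := S.htt.symm
  nxx := fun h => S.nxx h.symm
  ps0 := S.ps0
  b := S.b'
  b' := S.b
  nb1 := S.nb2
  nb2 := S.nb1

theorem memH {v : V} : v ∈ H ↔ v ∈ X ∧ v ∉ P ∧ v ≠ x ∧ v ≠ x' := by
  rw [S.hH]
  exact mem_hb

theorem HX : H ⊆ X := fun _ hv => (S.memH.1 hv).1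

theorem Hne : H ≠ X := by
  rw [S.hH]
  exact S.B.hbne

theorem xX : x ∈ X := (mem_sdiff.1 S.B.hx).1

theorem xP : x ∉ P := (mem_sdiff.1 S.B.hx).2

theorem xx' : x ≠ x' := S.B.hne

theorem xH {v : V} (hv : v ∈ H) : v ≠ x := fun e => (S.memH.1 (e ▸ hv)).2.2.1 rfl

theorem xH' {v : V} (hv : v ∈ H) : v ≠ x' := fun e => (S.memH.1 (e ▸ hv)).2.2.2 rfl

theorem nxt : ¬ G.Adj x t := S.b.nxt

/-- a vertex of `P` has exactly two outer neighbours -/
theorem two {p a b v : V} (hp : p ∈ P) (ha : a ∈ X \ P) (hb : b ∈ X \ P) (hab : a ≠ b)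
    (h1 : G.Adj a p) (h2 : G.Adj b p) (hv : v ∈ X \ P) (h3 : G.Adj v p) : v = a ∨ v = b := by
  have B := base_mk2 S.F.hP S.F.hPc S.F.hPq hp (S.dP p hp) ha hb hab h1.symm h2.symm
  by_contra hcon
  push Not at hcon
  exact B.na hv hcon.1 hcon.2 h3.symm

theorem tXP : t ∈ X \ P := by
  have := S.memH.1 S.b.htH
  exact mem_sdiff.2 ⟨this.1, this.2.1⟩

theorem xXP : x ∈ X \ P := S.B.hx

/-- exactly one of `x`, `t` -/
theorem ex1 {p : V} (hp : p ∈ P) (h1 : G.Adj x p) (h2 : G.Adj t p) : False := by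
  have e1 : x' ≠ t := (S.xH' S.b.htH).symm
  have e2 : t' ≠ x := S.xH S.b'.htH
  rcases S.nb2 p hp with h | h
  · rcases S.two hp S.xXP S.tXP S.htx.symm h1 h2 S.symm.xXP h with e | e
    · exact S.xx' e.symm
    · exact e1 e
  · rcases S.two hp S.xXP S.tXP S.htx.symm h1 h2 S.symm.tXP h with e | e
    · exact e2 e
    · exact S.htt e.symm

/-- the outer neighbours of `P` in `H` -/
theorem nP {p w : V} (hp : p ∈ P) (hw : w ∈ H) (h : G.Adj p w) : w = t ∨ w = t' := by
  have hwm := S.memH.1 hw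
  have hwX : w ∈ X \ P := mem_sdiff.2 ⟨hwm.1, hwm.2.1⟩
  have e1 : x' ≠ t := (S.xH' S.b.htH).symm
  have e2 : x ≠ t' := (S.xH S.b'.htH).symm
  rcases S.nb1 p hp with h1 | h1 <;> rcases S.nb2 p hp with h2 | h2
  · rcases S.two hp S.xXP S.symm.xXP S.xx' h1 h2 hwX h.symm with e | e
    · exact absurd e hwm.2.2.1
    · exact absurd e hwm.2.2.2
  · rcases S.two hp S.xXP S.symm.tXP e2 h1 h2 hwX h.symm with e | e
    · exact absurd e hwm.2.2.1
    · exact Or.inr e
  · rcases S.two hp S.symm.xXP S.tXP e1 h2 h1 hwX h.symm with e | e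
    · exact absurd e hwm.2.2.2
    · exact Or.inl e
  · exact S.two hp S.tXP S.symm.tXP S.htt h1 h2 hwX h.symm

/-- the degree of a vertex -/
theorem dsum (v : V) : (nb G X v).card = (nb G P v).card + (nb G H v).card + ad G v x +
    ad G v x' := by
  have h1 : (nb G X v).card = (nb G P v).card + (nb G (X \ P) v).card := by
    rw [← Finset.card_union_of_disjoint]
    · congr 1
      ext w
      rw [mem_union, mem_nb, mem_nb, mem_nb, mem_sdiff]
      have : w ∈ P → w ∈ X := fun h => S.F.hP h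
      tauto
    · rw [Finset.disjoint_left]
      intro w hw hw'
      exact (mem_sdiff.1 (mem_nb.1 hw').1).2 (mem_nb.1 hw).1
  have h2 := card_nb_hb (G := G) S.B.hx S.B.hx' S.B.hne v
  rw [← S.hH] at h2
  unfold ad
  omega

theorem dxt : (nb G X x).card + (nb G X t).card + 3 = 3 * k + ad G x' t := by
  have h1 := S.dsum x
  have h2 := S.dsum t
  have h3 : (nb G P x).card + (nb G P t).card = P.card := by
    rw [← Finset.card_union_of_disjoint]
    · congr 1
      ext w
      rw [mem_union, mem_nb, mem_nb]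
      constructor
      · rintro (h | h)
        · exact h.1
        · exact h.1
      · intro h
        rcases S.nb1 w h with h' | h'
        · exact Or.inl ⟨h, h'⟩
        · exact Or.inr ⟨h, h'⟩
    · rw [Finset.disjoint_left]
      intro w hw hw'
      exact S.ex1 (mem_nb.1 hw).1 (mem_nb.1 hw).2 (mem_nb.1 hw').2
  have h4 := S.F.hPc
  have h5 := S.b.hNc
  have h6 := S.b.dg t (mem_insert_self _ _)
  have h7 : ad G x x = 0 := ad_zero (G.loopless.irrefl x)
  have h8 : ad G x x' = 0 := ad_zero S.nxx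
  have h9 : ad G t x = 0 := ad_zero (fun h => S.nxt h.symm)
  rw [ad_comm t x'] at h2
  omega

theorem e4 : exs G k X {x, x', t, t'} + 6 = 2 * k + ad G x' t + ad G x t' := by
  have h1 := S.dxt
  have h2 := S.symm.dxt
  have a1 : x ≠ t := S.htx.symm
  have a2 : x ≠ t' := (S.xH S.b'.htH).symm
  have a3 : x' ≠ t := (S.xH' S.b.htH).symm
  have a4 : x' ≠ t' := S.htx'.symm
  have d1 := S.F.mc.deg_ge x S.xX
  have d2 := S.F.mc.deg_ge x' S.symm.xX
  have d3 := S.F.mc.deg_ge t (mem_sdiff.1 S.tXP).1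
  have d4 := S.F.mc.deg_ge t' (mem_sdiff.1 S.symm.tXP).1
  have e : exs G k X {x, x', t, t'} = ((nb G X x).card - k) + (((nb G X x').card - k) +
      (((nb G X t).card - k) + ((nb G X t').card - k))) := by
    unfold exs
    rw [Finset.sum_insert (by simp [S.xx', a1, a2]), Finset.sum_insert (by simp [a3, a4]),
      Finset.sum_insert (by simp [S.htt]), Finset.sum_singleton]
  omega

theorem nbc {v w : V} (hw : w ∈ X) (h : G.Adj v w) :
    w ∈ P ∨ w = x ∨ w = x' ∨ w ∈ nb G H v := by
  by_cases h1 : w ∈ P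
  · exact Or.inl h1
  · by_cases h2 : w = x
    · exact Or.inr (Or.inl h2)
    · by_cases h3 : w = x'
      · exact Or.inr (Or.inr (Or.inl h3))
      · exact Or.inr (Or.inr (Or.inr (mem_nb.2 ⟨S.memH.2 ⟨hw, h1, h2, h3⟩, h⟩)))

theorem halH : al G H + 1 = al G X := by
  rw [S.hH]
  exact (S.F.bp _ _ _ S.B).alH

theorem hE : (nb G H t \ R).card = 1 := by
  have h1 : R ⊆ nb G H t := fun w hw => mem_nb.2 ⟨S.b.RH hw, S.b.tadj hw⟩
  have h2 := Finset.card_sdiff_add_card_eq_card h1
  have h3 := S.b.dg t (mem_insert_self _ _)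
  have h4 := S.b.hRc
  omega

theorem YX : H \ insert t (nb G H x) ⊆ X := Finset.sdiff_subset.trans S.HX

theorem Yne : H \ insert t (nb G H x) ≠ X := by
  intro e
  exact S.Hne (Finset.Subset.antisymm S.HX (e ▸ Finset.sdiff_subset))

theorem card3 : ({x, x', t} : Finset V).card = 3 := by
  have a1 : x ≠ t := S.htx.symm
  have a3 : x' ≠ t := (S.xH' S.b.htH).symm
  rw [Finset.card_insert_of_notMem (by simp [S.xx', a1]), Finset.card_pair a3]

/-- the closed neighbourhood of `x, x', t` -/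
theorem z1 (nx't : ¬ G.Adj x' t) (h : G.Adj x t' ∨ (¬ G.Adj x t' ∧ G.Adj t t')) :
    2 * k ≤ (nb G H x ∪ nb G H x' ∪ nb G H t).card + 1 := by
  have hk := S.h5
  by_contra hcon
  obtain ⟨Z, hZ⟩ : ∃ Z, Z = nb G H x ∪ nb G H x' ∪ nb G H t := ⟨_, rfl⟩
  rw [← hZ] at hcon
  obtain ⟨W, hW⟩ : ∃ W, W = P ∪ ({x, x', t} ∪ Z) := ⟨_, rfl⟩
  have hZX : Z ⊆ X := by
    rw [hZ]
    exact Finset.union_subset (Finset.union_subset ((nb_sub _ _).trans S.HX)
      ((nb_sub _ _).trans S.HX)) ((nb_sub _ _).trans S.HX)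
  have hWX : W ⊆ X := by
    rw [hW]
    refine Finset.union_subset S.F.hP (Finset.union_subset ?_ hZX)
    intro z hz
    rw [mem_insert, mem_insert, mem_singleton] at hz
    rcases hz with rfl | rfl | rfl
    · exact S.xX
    · exact S.symm.xX
    · exact (mem_sdiff.1 S.tXP).1
  have hal := al_closed (G := G) (Y := X) (S := W) (J := {x, x', t}) (by
    intro z hz
    exact hWX (by rw [hW]; exact mem_union_right _ (mem_union_left _ hz))) (by
    intro z hz
    rw [hW]
    exact mem_union_right _ (mem_union_left _ hz)) (indep_triple S.nxx S.nxt nx't) (by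
    intro z hz w hw hzw
    rw [hW, mem_union, mem_union]
    rcases S.nbc hw hzw with h1 | h1 | h1 | h1
    · exact Or.inl h1
    · exact Or.inr (Or.inl (by rw [h1]; simp))
    · exact Or.inr (Or.inl (by rw [h1]; simp))
    · refine Or.inr (Or.inr ?_)
      rw [hZ, mem_union, mem_union]
      rw [mem_insert, mem_insert, mem_singleton] at hz
      rcases hz with rfl | rfl | rfl
      · exact Or.inl (Or.inl h1)
      · exact Or.inl (Or.inr h1)
      · exact Or.inr h1)
  rw [S.card3] at hal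
  have h1 := S.F.mc.closed3 hWX hal
  have h2 := Finset.card_union_le P ({x, x', t} ∪ Z)
  have h3 := Finset.card_union_le ({x, x', t} : Finset V) Z
  rw [S.card3] at h3
  rw [← hW] at h2
  have h4 := S.F.hPc
  have hxW : ∀ z, z = x ∨ z = x' ∨ z = t → z ∈ W := by
    intro z hz
    rw [hW]
    refine mem_union_right _ (mem_union_left _ ?_)
    rw [mem_insert, mem_insert, mem_singleton]
    exact hz
  have hZW : Z ⊆ W := by
    rw [hW]
    exact Finset.subset_union_right.trans Finset.subset_union_right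
  have key : ∀ z, z ∈ ({x, x', t, t'} : Finset V) → z = x ∨ z = x' ∨ z = t ∨ z = t' := by
    intro z hz
    rw [mem_insert, mem_insert, mem_insert, mem_singleton] at hz
    exact hz
  have he4 := S.e4
  refine S.F.mc.w3 S.h5 hWX (by omega) hal ?_
  rcases h with h | ⟨h, h'⟩
  · have h6 : ({x, x', t, t'} : Finset V) ⊆ W := by
      intro z hz
      rcases key z hz with e | e | e | e
      · exact hxW z (Or.inl e)
      · exact hxW z (Or.inr (Or.inl e))
      · exact hxW z (Or.inr (Or.inr e))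
      · rw [e]
        refine hZW ?_
        rw [hZ, mem_union, mem_union]
        exact Or.inl (Or.inl (mem_nb.2 ⟨S.b'.htH, h⟩))
    have h7 := exs_mono (G := G) (k := k) (X := X) h6
    rw [ad_one h] at he4
    omega
  · have ht'Z : t' ∈ nb G H t := mem_nb.2 ⟨S.b'.htH, h'⟩
    have ht'N : t' ∉ nb G H x ∪ nb G H x' := by
      rw [mem_union]
      rintro (e | e)
      · exact h (mem_nb.1 e).2
      · exact S.b'.htN e
    -- a common neighbour
    have h8 : (nb G H x ∩ nb G H x').Nonempty := by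
      rw [Finset.nonempty_iff_ne_empty]
      intro e
      have h9 := Finset.card_union_add_card_inter (nb G H x) (nb G H x')
      rw [e, Finset.card_empty] at h9
      have h10 : insert t' (nb G H x ∪ nb G H x') ⊆ Z := by
        rw [hZ]
        exact Finset.insert_subset (mem_union_right _ ht'Z) Finset.subset_union_left
      have h11 := Finset.card_le_card h10
      rw [Finset.card_insert_of_notMem ht'N] at h11
      have h12 := S.b.hNc
      have h13 := S.b'.hNc
      omega
    obtain ⟨w, hw⟩ := h8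
    rw [mem_inter] at hw
    have hw1 := mem_nb.1 hw.1
    have hw2 := mem_nb.1 hw.2
    have hwd : k < (nb G X w).card := by
      have h9 := S.dsum w
      rw [ad_one hw1.2.symm, ad_one hw2.2.symm] at h9
      have h10 := (S.F.mc.tau0 S.HX S.Hne (by rw [S.ps0]; norm_num)).deg hw1.1
      omega
    have hwn : w ∉ ({x, x', t, t'} : Finset V) := by
      intro e
      rcases key w e with e | e | e | e
      · exact S.xH hw1.1 e
      · exact S.xH' hw1.1 e
      · exact S.nxt (e ▸ hw1.2)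
      · exact h (e ▸ hw1.2)
    have h6 : insert w ({x, x', t, t'} : Finset V) ⊆ W := by
      intro z hz
      rw [mem_insert] at hz
      rcases hz with e | hz
      · rw [e]
        refine hZW ?_
        rw [hZ, mem_union, mem_union]
        exact Or.inl (Or.inl hw.1)
      · rcases key z hz with e | e | e | e
        · exact hxW z (Or.inl e)
        · exact hxW z (Or.inr (Or.inl e))
        · exact hxW z (Or.inr (Or.inr e))
        · rw [e]
          refine hZW ?_
          rw [hZ, mem_union]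
          exact Or.inr ht'Z
    have h7 := exs_mono (G := G) (k := k) (X := X) h6
    have h9 := exs_erase (G := G) (k := k) (X := X) (S := insert w ({x, x', t, t'} : Finset V))
      (mem_insert_self _ _)
    rw [Finset.erase_insert hwn] at h9
    omega

/-- the consequences of `z1` -/
theorem z2 (nx't : ¬ G.Adj x' t) (h : G.Adj x t' ∨ (¬ G.Adj x t' ∧ G.Adj t t')) :
    Disjoint (nb G H x) (nb G H x') ∧ ∀ v ∈ nb G H t, v ∉ R → v ∉ nb G H x ∧ v ∉ nb G H x' := by
  have h1 := S.z1 nx't h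
  obtain ⟨E, hE⟩ : ∃ E, E = nb G H t \ R := ⟨_, rfl⟩
  have h2 := S.hE
  rw [← hE] at h2
  have h3 : nb G H x ∪ nb G H x' ∪ nb G H t ⊆ nb G H x ∪ nb G H x' ∪ E := by
    intro v hv
    rw [mem_union] at hv ⊢
    rcases hv with hv | hv
    · exact Or.inl hv
    · by_cases hR : v ∈ R
      · left
        rw [mem_union]
        exact Or.inl (mem_nb.2 ⟨S.b.RH hR, S.b.xR hR⟩)
      · right
        rw [hE]
        exact mem_sdiff.2 ⟨hv, hR⟩
  have h4 := Finset.card_le_card h3
  have h5 := Finset.card_union_add_card_inter (nb G H x ∪ nb G H x') E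
  have h6 := Finset.card_union_add_card_inter (nb G H x) (nb G H x')
  have h7 := S.b.hNc
  have h8 := S.b'.hNc
  have h9 : (nb G H x ∩ nb G H x').card = 0 := by omega
  have h10 : ((nb G H x ∪ nb G H x') ∩ E).card = 0 := by omega
  refine ⟨Finset.disjoint_iff_inter_eq_empty.2 (Finset.card_eq_zero.1 h9), ?_⟩
  intro v hv hR
  have h11 : v ∉ nb G H x ∪ nb G H x' := by
    intro e
    have : v ∈ (nb G H x ∪ nb G H x') ∩ E :=
      mem_inter.2 ⟨e, by rw [hE]; exact mem_sdiff.2 ⟨hv, hR⟩⟩
    rw [Finset.card_eq_zero.1 h10] at this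
    exact Finset.notMem_empty _ this
  rw [mem_union] at h11
  push Not at h11
  exact h11

omit S in
theorem notT {v : V} (h1 : v ≠ t) (h2 : ¬ G.Adj x v) : v ∉ insert t (nb G H x) := by
  rw [mem_insert]
  rintro (e | e)
  · exact h1 e
  · exact h2 (mem_nb.1 e).2

theorem nu' {v : V} (hv : v ∈ H) (h : G.Adj u' v) : v = t' := by
  by_contra e
  have := S.memH.1 hv
  exact S.Bu'.na (mem_sdiff.2 ⟨this.1, this.2.1⟩) this.2.2.1 e h

theorem nu'x' : ¬ G.Adj x' u' :=
  fun h => S.Bu'.na S.symm.xXP S.xx'.symm S.htx'.symm h.symm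

/-- a triple `x', u', s` -/
theorem trip {s : V} (hsT : s ∈ insert t (nb G H x)) (hs' : s ≠ t') (hx's : ¬ G.Adj x' s)
    (ht' : t' ∈ insert t (nb G H x)) :
    Tr G (H \ insert t (nb G H x)) ((nb G H x' \ insert t (nb G H x)) ∪
      (nb G H s \ insert t (nb G H x))) := by
  have hsH : s ∈ H := S.b.st.hT hsT
  have hu's : ¬ G.Adj u' s := fun h => hs' (S.nu' hsH h)
  have hc3 : ({x', u', s} : Finset V).card = 3 := by
    have a1 : x' ≠ u' := fun e => S.symm.xP (e ▸ S.Bu'.hc)
    have a2 : x' ≠ s := (S.xH' hsH).symm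
    have a3 : u' ≠ s := fun e => (S.memH.1 hsH).2.1 (e ▸ S.Bu'.hc)
    rw [Finset.card_insert_of_notMem (by simp [a1, a2]), Finset.card_pair a3]
  have h1 := S.halH
  have h2 := S.b.st.alT
  refine tr_nbr (X := X) (J := {x', u', s}) S.YX ?_ ?_
    (indep_triple S.nu'x' hx's hu's) (by rw [hc3]; omega) ?_
  · intro z hz
    rw [mem_insert, mem_insert, mem_singleton] at hz
    rcases hz with rfl | rfl | rfl
    · exact S.symm.xX
    · exact S.F.hP S.Bu'.hc
    · exact S.HX hsH
  · rw [Finset.disjoint_left]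
    intro z hz hz'
    have hz2 := mem_sdiff.1 hz'
    rw [mem_insert, mem_insert, mem_singleton] at hz
    rcases hz with e | e | e
    · exact S.xH' hz2.1 e
    · exact (S.memH.1 hz2.1).2.1 (e ▸ S.Bu'.hc)
    · exact hz2.2 (e ▸ hsT)
  · intro z hz w hw hzw
    have hw2 := mem_sdiff.1 hw
    rw [mem_union, mem_sdiff, mem_sdiff]
    rw [mem_insert, mem_insert, mem_singleton] at hz
    rcases hz with rfl | rfl | rfl
    · exact Or.inl ⟨mem_nb.2 ⟨hw2.1, hzw⟩, hw2.2⟩
    · exact absurd (S.nu' hw2.1 hzw ▸ hw2.2) (fun h => h ht')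
    · exact Or.inr ⟨mem_nb.2 ⟨hw2.1, hzw⟩, hw2.2⟩

end Ts

end Pool.Agent.TwoDens.TS
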