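import Pool.Agent.TKS.NS
import Pool.Agent.TKS.TC

/-!
Two bases share no or both outside neighbours, for all `k ≥ 5`.
-/

open Finset

namespace Pool.Agent.TwoDens.TS

open Pool.Agent.TwoDens Pool.Agent.TwoDens.RK Pool.Agent.TwoDens.DD

variable {V : Type*} [DecidableEq V] {G : SimpleGraph V} [DecidableRel G.Adj]

namespace Fn
variable {k : ℕ} {X P : Finset V} (F : Fn G k X P)
include F

/-- two bases never share exactly one outside neighbour -/
theorem tb5 (h5 : 5 ≤ k) {c u' x x' t' : V} (B : Base G k X P c x x')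
    (Bu' : Base G k X P u' x t') (ht : t' ≠ x') : False := by
  have hk := F.mc.hk
  have hxX := mem_sdiff.1 B.hx
  have hxX' := mem_sdiff.1 B.hx'
  obtain ⟨u, hu, hud, hxu⟩ := F.ns0 _ B.hx
  have nu' : ¬ G.Adj u' x' := Bu'.na B.hx' B.hne.symm (Ne.symm ht)
  have hux' : ¬ G.Adj x' u := by
    intro e
    obtain ⟨t, Bt⟩ := base_mk1 F.hP F.hPc F.hPq hu hud B.hx' e.symm
    exact F.ta5 h5 B Bt Bu' (fun e' => hxu (e' ▸ Bt.ax'.symm)) ht
  have huu : u ≠ u' := fun e => hxu (e ▸ Bu'.ax.symm)
  have h6 := F.seven B hu Bu'.hc huu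
  have e1 : ad G u x = 0 := ad_zero fun e => hxu e.symm
  have e2' : ad G u x' = 0 := ad_zero fun e => hux' e.symm
  have e3 : ad G u' x = 1 := ad_one Bu'.ax
  have e4 : ad G u' x' = 0 := ad_zero nu'
  have n1 := F.nbH B hu
  have n2 := F.nbH B Bu'.hc
  rw [hud, e1, e2'] at n1
  rw [Bu'.deg, e3, e4] at n2
  rw [e1, e2', e3, e4] at h6
  have h10 := F.card_xu' B hu hxu
  have h11 := F.card_xu' B.symm Bu'.hc (fun e => nu' e.symm)
  rw [hb_comm X P x' x] at h11
  have h10' : (k : ℤ) ≤ (nb G (hb X P x x') x).card + (nb G (hb X P x x') u).card := by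
    exact_mod_cast h10
  have h11' : (k : ℤ) ≤ (nb G (hb X P x x') x').card + (nb G (hb X P x x') u').card := by
    exact_mod_cast h11
  have h12' := (F.bp _ _ _ B).ps0
  have h13 := F.mc.ps_le
  have a3 := Int.natCast_nonneg (ad G x x')
  have a4 := Int.natCast_nonneg (exs G k X ((P.erase u).erase u'))
  have key : k + 1 ≤ (nb G (hb X P x x') x).card + (nb G (hb X P x x') u).card + ad G x x' := by
    rcases Nat.eq_zero_or_pos (ad G x x') with z | z
    · by_contra hcon
      refine F.lemG B (fun e => by rw [ad_one e] at z; omega) hu hxu hux' ?_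
      exact (Finset.card_union_le _ _).trans (by omega)
    · omega
  have key' : (k : ℤ) + 1 ≤ (nb G (hb X P x x') x).card + (nb G (hb X P x x') u).card +
      ad G x x' := by exact_mod_cast key
  push_cast at h6
  have r4 : ((nb G (hb X P x x') x').card : ℤ) + (nb G (hb X P x x') u').card = k := by linarith
  have r4' : (nb G (hb X P x x') x').card + (nb G (hb X P x x') u').card = k := by
    exact_mod_cast r4
  have hNu' : nb G (hb X P x x') u' = {t'} := by
    rw [nb_hb, Bu'.hout]
    ext v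
    simp only [mem_sdiff, mem_insert, mem_singleton]
    constructor
    · rintro ⟨h | h, h'⟩
      · exact absurd (Or.inl h) h'
      · exact h
    · rintro rfl
      exact ⟨Or.inr rfl, fun h => h.elim (fun h => Bu'.hne h.symm) ht⟩
  have hps0 : ps G k (hb X P x x') = 0 := by linarith
  have hz := F.lemZ5 h5 B hps0 (by omega) Bu'.hc (fun e => nu' e.symm) hNu' hu hux' (by omega)
  obtain ⟨y, By⟩ := base_mk1 F.hP F.hPc F.hPq hu hud Bu'.hx' hz
  exact F.ta5 h5 Bu' By B (fun e => hxu (e ▸ By.ax'.symm)) (Ne.symm ht)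

/-- for a vertex of degree `k` the adjacencies to `x` and `x'` agree -/
theorem iff5 (h5 : 5 ≤ k) {c x x' : V} (B : Base G k X P c x x') {u : V} (hu : u ∈ P)
    (hd : (nb G X u).card = k) : G.Adj u x ↔ G.Adj u x' := by
  have key : ∀ {y y' : V}, Base G k X P c y y' → G.Adj u y → G.Adj u y' := by
    intro y y' By h
    obtain ⟨t, Bt⟩ := base_mk1 F.hP F.hPc F.hPq hu hd By.hx h
    by_cases e : t = y'
    · exact e ▸ Bt.ax'
    · exact (F.tb5 h5 By Bt e).elim
  exact ⟨key B, key B.symm⟩

end Fn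

end Pool.Agent.TwoDens.TS
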