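import Pool.Agent.TKS.XC

/-!
Case II with one vertex missing: existence of the structure.
-/

open Finset

namespace Pool.Agent.TwoDens.TS

open Pool.Agent.TwoDens Pool.Agent.TwoDens.RK Pool.Agent.TwoDens.DD

variable {V : Type*} [DecidableEq V] {G : SimpleGraph V} [DecidableRel G.Adj]

theorem nbc_zero {Q : Finset V} {v : V} (h : ∀ w ∈ Q, G.Adj v w) : (nb Gᶜ Q v).card = 0 := by
  rw [Finset.card_eq_zero, Finset.eq_empty_iff_forall_notMem]
  intro w hw
  have h1 := mem_nb.1 hw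
  exact ((SimpleGraph.compl_adj _ _ _).1 h1.2).2 (h w h1.1)

theorem nbc_one {Q : Finset V} {v s : V} (h : ∀ w ∈ Q, w ≠ s → G.Adj v w) :
    (nb Gᶜ Q v).card ≤ 1 := by
  rw [Finset.card_le_one]
  have : ∀ w ∈ nb Gᶜ Q v, w = s := by
    intro w hw
    have h1 := mem_nb.1 hw
    by_contra hws
    exact ((SimpleGraph.compl_adj _ _ _).1 h1.2).2 (h w h1.1 hws)
  intro w hw z hz
  rw [this w hw, this z hz]

namespace Fr
variable {k : ℕ} {X P : Finset V} (F : Fr G k X P)
include F

/-- the block, for `k ≥ 5` and `ps = 0` -/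
theorem block0 (h5 : 5 ≤ k) {c x x' : V} (B : Base G k X P c x x')
    (h0 : ps G k (TS.hb X P x x') = 0)
    (hf : (nb G (TS.hb X P x x') x').card + 1 = k)
    {u t : V} (hu : u ∈ P) (hxu : ¬ G.Adj x' u) (hNu : nb G (TS.hb X P x x') u = {t}) :
    t ∈ TS.hb X P x x' ∧ t ∉ nb G (TS.hb X P x x') x' ∧ ∃ r ∈ nb G (TS.hb X P x x') x',
      StarT G k (TS.hb X P x x') (insert t (nb G (TS.hb X P x x') x')) r ∧
      k ≤ 2 * ((nb Gᶜ ((nb G (TS.hb X P x x') x').erase r) r).card + 2) ∧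
      2 ≤ (nb Gᶜ (insert t ((nb G (TS.hb X P x x') x').erase r)) r).card := by
  have hk := F.mc.hk
  have hbp := F.bp _ _ _ B
  have hx' := mem_sdiff.1 B.hx'
  have htH : t ∈ TS.hb X P x x' := (mem_nb.1 (by rw [hNu]; simp : t ∈ nb G (TS.hb X P x x') u)).1
  have htr := F.tr_xu B.symm hu hxu
  rw [hb_comm X P x' x, hNu, Finset.union_comm, ← Finset.insert_eq] at htr
  have htn : t ∉ nb G (TS.hb X P x x') x' := by
    intro h
    rw [Finset.insert_eq_of_mem h] at htr
    exact hbp.ntx' htr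
  obtain ⟨r, hS⟩ := F.mc.star8g hb_sub B.hbne hbp.ps4 hbp.tau
    (Finset.insert_subset htH (nb_sub _ _)) (by rw [Finset.card_insert_of_notMem htn, hf]) htr
    (Or.inl (by rw [h0]; norm_num))
  have hrN : r ∈ nb G (TS.hb X P x x') x' := by
    have h1 := hS.hr
    rw [mem_insert] at h1
    rcases h1 with h1 | h1
    · exfalso
      have h2 := hS.clq
      rw [h1, Finset.erase_insert htn] at h2
      have h3 : Clq G (insert x' (nb G (TS.hb X P x x') x')) := by
        intro p hp q hq hpq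
        rw [mem_insert] at hp hq
        rcases hp with rfl | hp <;> rcases hq with rfl | hq
        · exact absurd rfl hpq
        · exact (mem_nb.1 hq).2
        · exact (mem_nb.1 hp).2.symm
        · exact h2 p hp q hq hpq
      have h4 := F.mc.clq_lt (Finset.insert_subset hx'.1 ((nb_sub _ _).trans hb_sub)) h3
      rw [Finset.card_insert_of_notMem self_notMem] at h4
      omega
    · exact h1
  have hx'H : x' ∉ TS.hb X P x x' := by
    rw [mem_hb]
    exact fun h => h.2.2.2 rfl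
  have hQX : (insert t (nb G (TS.hb X P x x') x')).erase r ⊆ X :=
    (Finset.erase_subset _ _).trans (hS.hT.trans hb_sub)
  have hQc : ((insert t (nb G (TS.hb X P x x') x')).erase r).card + 1 = k := by
    rw [Finset.card_erase_add_one hS.hr, hS.hc]
  have hrX : r ∈ X := hb_sub (hS.hT hS.hr)
  have hrx' : r ≠ x' := fun h => hx'H (h ▸ hS.hT hS.hr)
  have h1 := F.mc.near2a hQX hS.clq hQc hrX hx'.1 hrx' (Finset.notMem_erase _ _)
    (fun h => hx'H (hS.hT (mem_erase.1 h).2)) (mem_nb.1 hrN).2.symm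
  have h2 : (nb Gᶜ ((insert t (nb G (TS.hb X P x x') x')).erase r) x').card ≤ 1 := by
    rw [Finset.card_le_one]
    have : ∀ w ∈ nb Gᶜ ((insert t (nb G (TS.hb X P x x') x')).erase r) x', w = t := by
      intro w hw
      have h3 := mem_nb.1 hw
      have h4 := (mem_erase.1 h3.1).2
      rw [mem_insert] at h4
      rcases h4 with h4 | h4
      · exact h4
      · exact absurd (mem_nb.1 h4).2 ((SimpleGraph.compl_adj _ _ _).1 h3.2).2
    intro w hw z hz
    rw [this w hw, this z hz]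
  have h3 : nb Gᶜ ((insert t (nb G (TS.hb X P x x') x')).erase r) r ⊆
      insert t (nb Gᶜ ((nb G (TS.hb X P x x') x').erase r) r) := by
    intro w hw
    rw [mem_nb, mem_erase, mem_insert] at hw
    rw [mem_insert, mem_nb, mem_erase]
    rcases hw with ⟨⟨h4, h5 | h5⟩, h6⟩
    · exact Or.inl h5
    · exact Or.inr ⟨⟨h4, h5⟩, h6⟩
  have h4 := Finset.card_le_card h3
  have h5' := Finset.card_insert_le t (nb Gᶜ ((nb G (TS.hb X P x x') x').erase r) r)
  have h6 : (insert t (nb G (TS.hb X P x x') x')).erase r =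
      insert t ((nb G (TS.hb X P x x') x').erase r) :=
    Finset.erase_insert_of_ne (fun h => htn (h ▸ hrN))
  refine ⟨htH, htn, r, hrN, hS, by omega, ?_⟩
  rw [← h6]
  omega

/-- three pairwise nonadjacent parents are impossible -/
theorem third {a p t s : V} {Q R : Finset V} (ha' : a ∈ X ∧ a ∉ P) (hQ : Q = X \ insert a P) (hp : p ∈ Q) (ht : t ∈ Q) (hs : s ∈ Q)
    (hR : R ⊆ Q) (hRc : R.card + 2 = k) (hNp : (nb G Q p).card + 1 = k)
    (hNt : (nb G Q t).card + 1 = k) (hNs : (nb G Q s).card + 1 = k)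
    (hwp : ∀ w ∈ R, G.Adj p w) (hwt : ∀ w ∈ R, G.Adj t w) (hws : ∀ w ∈ R, G.Adj s w)
    (hps : p ≠ s) (hts : t ≠ s) (hpt : p ≠ t) (npt : ¬ G.Adj p t) (nps : ¬ G.Adj p s)
    (nts : ¬ G.Adj t s) (h5 : 5 ≤ k) : False := by
  have hB : (insert a P) ∪ Q = X := by
    rw [hQ, Finset.union_sdiff_of_subset (Finset.insert_subset ha'.1 F.hP)]
  have hBQ : Disjoint (insert a P) Q := by
    rw [hQ]
    exact Finset.disjoint_sdiff
  have hBc : (insert a P).card = k := by
    rw [Finset.card_insert_of_notMem ha'.2]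
    exact F.hPc
  obtain ⟨W, hW⟩ : ∃ W, W = (insert a P) ∪ ({p, t, s} ∪ (nb G Q p ∪ nb G Q t ∪ nb G Q s)) :=
    ⟨_, rfl⟩
  have hpts : ({p, t, s} : Finset V) ⊆ Q := by
    intro z hz
    rw [mem_insert, mem_insert, mem_singleton] at hz
    rcases hz with rfl | rfl | rfl
    · exact hp
    · exact ht
    · exact hs
  have hWX : W ⊆ X := by
    rw [hW, ← hB]
    refine Finset.union_subset_union (Finset.Subset.refl _) ?_
    exact Finset.union_subset hpts
      (Finset.union_subset (Finset.union_subset (nb_sub _ _) (nb_sub _ _)) (nb_sub _ _))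
  have hind : G.IsIndepSet (({p, t, s} : Finset V) : Set V) := by
    intro x hx y hy hxy
    simp only [Finset.coe_insert, Finset.coe_singleton, Set.mem_insert_iff,
      Set.mem_singleton_iff] at hx hy
    rcases hx with rfl | rfl | rfl <;> rcases hy with rfl | rfl | rfl <;>
      first
        | exact absurd rfl hxy
        | assumption
        | exact fun h => npt h.symm
        | exact fun h => nps h.symm
        | exact fun h => nts h.symm
  have hal := al_closed (G := G) (Y := X) (S := W) (J := {p, t, s})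
    ((hpts.trans (by rw [hQ]; exact Finset.sdiff_subset)))
    (by rw [hW]; exact (Finset.subset_union_left.trans Finset.subset_union_right)) hind
    (by
      intro z hz w hw hzw
      rw [hW]
      by_cases hwB : w ∈ insert a P
      · exact mem_union_left _ hwB
      have hwQ : w ∈ Q := by rw [hQ]; exact mem_sdiff.2 ⟨hw, hwB⟩
      refine mem_union_right _ (mem_union_right _ ?_)
      rw [mem_insert, mem_insert, mem_singleton] at hz
      rw [mem_union, mem_union, mem_nb, mem_nb, mem_nb]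
      rcases hz with rfl | rfl | rfl
      · exact Or.inl (Or.inl ⟨hwQ, hzw⟩)
      · exact Or.inl (Or.inr ⟨hwQ, hzw⟩)
      · exact Or.inr ⟨hwQ, hzw⟩)
  have h3 : ({p, t, s} : Finset V).card = 3 := by
    rw [Finset.card_insert_of_notMem, Finset.card_pair hts]
    rw [mem_insert, mem_singleton]
    rintro (h | h)
    · exact hpt h
    · exact hps h
  rw [h3] at hal
  have h4 := F.mc.closed3 hWX hal
  -- the number of vertices
  have hsd : ∀ v : V, (∀ w ∈ R, G.Adj v w) → (nb G Q v).card + 1 = k →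
      (nb G Q v \ R).card = 1 := by
    intro v hv hc
    have h5 : R ⊆ nb G Q v := fun w hw => mem_nb.2 ⟨hR hw, hv w hw⟩
    rw [Finset.card_sdiff_of_subset h5]
    omega
  have hsub : W ⊆ (insert a P) ∪ ({p, t, s} ∪ (R ∪ ((nb G Q p \ R) ∪ (nb G Q t \ R) ∪
      (nb G Q s \ R)))) := by
    intro w hw
    rw [hW] at hw
    simp only [mem_union, mem_sdiff] at hw ⊢
    tauto
  have h6 := Finset.card_le_card hsub
  have h7 := Finset.card_union_le (insert a P) ({p, t, s} ∪ (R ∪ ((nb G Q p \ R) ∪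
    (nb G Q t \ R) ∪ (nb G Q s \ R))))
  have h8 := Finset.card_union_le {p, t, s} (R ∪ ((nb G Q p \ R) ∪
    (nb G Q t \ R) ∪ (nb G Q s \ R)))
  have h9 := Finset.card_union_le R ((nb G Q p \ R) ∪ (nb G Q t \ R) ∪ (nb G Q s \ R))
  have h10 := Finset.card_union_le ((nb G Q p \ R) ∪ (nb G Q t \ R)) (nb G Q s \ R)
  have h11 := Finset.card_union_le (nb G Q p \ R) (nb G Q t \ R)
  have h12 := hsd p hwp hNp
  have h13 := hsd t hwt hNt
  have h14 := hsd s hws hNs
  omega

theorem c2xU (h5 : 5 ≤ k) {a b : V} (ha : a ∈ X \ P) (hb : b ∈ P) (nab : ¬ G.Adj a b)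
    (hall : ∀ v ∈ P, v ≠ b → G.Adj a v) {c p u : V} (B : Base G k X P c a p) (hu : u ∈ P)
    (hub : u ≠ b) (hpu : ¬ G.Adj p u) (hud : (nb G X u).card = k) :
    ∃ p t R rp rt, XC G k X (insert a P) a b p t R rp rt := by
  have hk := F.mc.hk
  have hPc := F.hPc
  have ha' := mem_sdiff.1 ha
  have hc := B.hc
  have hcb : c ≠ b := fun h => nab (h ▸ B.ax.symm)
  obtain ⟨hdeg, hps, hNpc, hg, hdis, hpsX⟩ := F.c2numU ha hb nab hall B ⟨hu, hpu⟩ hub hud
  obtain ⟨t, Bt⟩ := base_mk1 F.hP F.hPc F.hPq hu hud ha (hall u hu hub).symm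
  have htp : t ≠ p := fun h => hpu (h ▸ Bt.ax'.symm)
  have htc : ¬ G.Adj t c := fun h => B.na Bt.hx' Bt.hne.symm htp h.symm
  obtain ⟨_, hpst, hNtc, _, _, _⟩ := F.c2numU ha hb nab hall Bt ⟨hc, htc⟩ hcb B.deg
  -- the outside
  obtain ⟨Q, hQ⟩ : ∃ Q, Q = X \ insert a P := ⟨_, rfl⟩
  have hQp : Q.erase p = TS.hb X P a p := by rw [hQ]; exact insert_hb
  have hQt : Q.erase t = TS.hb X P a t := by rw [hQ]; exact insert_hb
  have hQX : Q ⊆ X := by rw [hQ]; exact Finset.sdiff_subset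
  have hpQ : p ∈ Q := by
    have := mem_sdiff.1 B.hx'
    rw [hQ, mem_sdiff, mem_insert]
    exact ⟨this.1, fun h => h.elim (fun h => B.hne h.symm) this.2⟩
  have htQ : t ∈ Q := by
    have := mem_sdiff.1 Bt.hx'
    rw [hQ, mem_sdiff, mem_insert]
    exact ⟨this.1, fun h => h.elim (fun h => Bt.hne h.symm) this.2⟩
  have hnbE : ∀ v : V, nb G (Q.erase v) v = nb G Q v := by
    intro v
    ext w
    rw [mem_nb, mem_nb, mem_erase]
    constructor
    · rintro ⟨⟨_, h2⟩, h3⟩
      exact ⟨h2, h3⟩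
    · rintro ⟨h2, h3⟩
      exact ⟨⟨fun h => G.loopless.irrefl v (h ▸ h3), h2⟩, h3⟩
  have hnbp : nb G (TS.hb X P a p) p = nb G Q p := by rw [← hQp]; exact hnbE p
  have hnbt : nb G (TS.hb X P a t) t = nb G Q t := by rw [← hQt]; exact hnbE t
  -- neighbours of children
  have hchild : ∀ v s : V, Base G k X P v a s → s ∈ Q ∧ nb G Q v = {s} := by
    intro v s Bs
    have h1 := mem_sdiff.1 Bs.hx'
    have h2 : s ∈ Q := by
      rw [hQ, mem_sdiff, mem_insert]
      exact ⟨h1.1, fun h => h.elim (fun h => Bs.hne h.symm) h1.2⟩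
    refine ⟨h2, ?_⟩
    ext w
    rw [mem_nb, mem_singleton]
    constructor
    · rintro ⟨h3, h4⟩
      rw [hQ, mem_sdiff, mem_insert] at h3
      have h5 : w ∈ nb G (X \ P) v := mem_nb.2 ⟨mem_sdiff.2 ⟨h3.1, fun h => h3.2 (Or.inr h)⟩, h4⟩
      rw [Bs.hout, mem_insert, mem_singleton] at h5
      rcases h5 with h5 | h5
      · exact absurd (Or.inl h5) h3.2
      · exact h5
    · rintro rfl
      exact ⟨h2, Bs.ax'⟩
  have hchild2 : ∀ v s q : V, Base G k X P v a s → s ≠ q → Base G k X P c a q ∨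
      Base G k X P u a q → nb G (TS.hb X P a q) v = {s} := by
    intro v s q Bs hsq _
    have h1 := hchild v s Bs
    have h2 : TS.hb X P a q = Q.erase q := by rw [hQ]; exact insert_hb.symm
    rw [h2]
    ext w
    rw [mem_nb, mem_erase, mem_singleton]
    constructor
    · rintro ⟨⟨_, h4⟩, h5⟩
      have h6 : w ∈ nb G Q v := mem_nb.2 ⟨h4, h5⟩
      rw [h1.2, mem_singleton] at h6
      exact h6
    · rintro rfl
      exact ⟨⟨hsq, h1.1⟩, Bs.ax'⟩
  have hnadj : ∀ v s q : V, Base G k X P v a s → q ∈ Q → s ≠ q → ¬ G.Adj q v := by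
    intro v s q Bs hq hsq h
    have h1 := hchild v s Bs
    have h6 : q ∈ nb G Q v := mem_nb.2 ⟨hq, h.symm⟩
    rw [h1.2, mem_singleton] at h6
    exact hsq h6.symm
  -- the blocks
  obtain ⟨htH, htn, r, hrN, hS, hms, hq2⟩ := F.block0 h5 B hps hNpc hu hpu
    (hchild2 u t p Bt htp (Or.inl B))
  obtain ⟨hpH, hpn, r', hrN', hS', hms', hq2'⟩ := F.block0 h5 Bt hpst hNtc hc
    (hnadj c p t B htQ htp.symm) (hchild2 c p t B htp.symm (Or.inr Bt))
  rw [hnbp] at htn hrN hS hms hNpc hq2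
  rw [hnbt] at hpn hrN' hS' hms' hNtc hq2'
  obtain ⟨R, hR⟩ : ∃ R, R = (nb G Q p).erase r := ⟨_, rfl⟩
  obtain ⟨R', hR'⟩ : ∃ R', R' = (nb G Q t).erase r' := ⟨_, rfl⟩
  have hrR : r ∉ R := by rw [hR]; exact Finset.notMem_erase _ _
  have hRc : R.card + 2 = k := by
    have : R.card + 1 = (nb G Q p).card := by rw [hR]; exact Finset.card_erase_add_one hrN
    omega
  have hRc' : R'.card + 2 = k := by
    have : R'.card + 1 = (nb G Q t).card := by rw [hR']; exact Finset.card_erase_add_one hrN'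
    omega
  have htr : t ≠ r := fun h => htn (h ▸ hrN)
  have hpr' : p ≠ r' := fun h => hpn (h ▸ hrN')
  have hRQ : R ⊆ Q := by rw [hR]; exact (Finset.erase_subset _ _).trans (nb_sub _ _)
  have hRsub : R ⊆ nb G Q t := by
    intro w hw
    refine mem_nb.2 ⟨hRQ hw, ?_⟩
    rw [hR, mem_erase] at hw
    exact hS.clq t (mem_erase.2 ⟨htr, mem_insert_self _ _⟩) w
      (mem_erase.2 ⟨hw.1, mem_insert_of_mem hw.2⟩) (fun h => htn (h ▸ hw.2))
  have hRsub' : R' ⊆ nb G Q p := by
    intro w hw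
    rw [hR', mem_erase] at hw
    refine mem_nb.2 ⟨(mem_nb.1 hw.2).1, ?_⟩
    exact hS'.clq p (mem_erase.2 ⟨hpr', mem_insert_self _ _⟩) w
      (mem_erase.2 ⟨hw.1, mem_insert_of_mem hw.2⟩) (fun h => hpn (h ▸ hw.2))
  have htR : t ∉ R := by
    rw [hR]
    exact fun h => htn (mem_erase.1 h).2
  have hwt : ∀ w ∈ R, G.Adj t w := fun w hw => (mem_nb.1 (hRsub hw)).2
  have hRq : Clq G R := by
    intro x hx y hy hxy
    rw [hR, mem_erase] at hx hy
    exact hS.clq x (mem_erase.2 ⟨hx.1, mem_insert_of_mem hx.2⟩) y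
      (mem_erase.2 ⟨hy.1, mem_insert_of_mem hy.2⟩) hxy
  have hTe : (insert t (nb G Q p)).erase r = insert t R := by
    rw [hR, Finset.erase_insert_of_ne htr]
  have hq5 : 2 ≤ (nb Gᶜ (insert t (nb G Q p)) r).card := by
    have h1 : nb Gᶜ (insert t R) r ⊆ nb Gᶜ (insert t (nb G Q p)) r :=
      Finset.filter_subset_filter _ (by
        rw [hR]
        exact Finset.insert_subset_insert _ (Finset.erase_subset _ _))
    have h2 := Finset.card_le_card h1
    rw [← hR] at hq2
    omega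
  have hd0 := F.mc.star0 hb_sub B.hbne (by rw [hps]; norm_num) hS hq5
  rw [hTe] at hd0
  -- a clique inside `N_p` which omits another vertex is impossible
  have hcent : ∀ r'' s, s ≠ t → s ∈ TS.hb X P a p → s ∉ nb G Q p → r'' ∈ nb G Q p →
      Clq G ((insert s (nb G Q p)).erase r'') → r'' = r := by
    intro r'' s hst hsH hs hr'' hcq
    by_contra hne
    have hr''R : r'' ∈ R := by rw [hR]; exact mem_erase.2 ⟨hne, hr''⟩
    have g1 : (R.erase r'').card + 1 = R.card := Finset.card_erase_add_one hr''R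
    obtain ⟨w, hw⟩ := Finset.card_pos.1 (show 0 < (R.erase r'').card by omega)
    have hw1 := mem_erase.1 hw
    have hwN : w ∈ nb G Q p := by
      have := hw1.2
      rw [hR, mem_erase] at this
      exact this.2
    have hws : G.Adj s w := hcq s (mem_erase.2 ⟨fun h => hs (h ▸ hr''), mem_insert_self _ _⟩) w
      (mem_erase.2 ⟨hw1.1, mem_insert_of_mem hwN⟩) (fun h => hs (h ▸ hwN))
    have hwr : G.Adj r w := hcq r (mem_erase.2 ⟨Ne.symm hne, mem_insert_of_mem hrN⟩) w
      (mem_erase.2 ⟨hw1.1, mem_insert_of_mem hwN⟩) (fun h => hrR (h ▸ hw1.2))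
    have hpH' : p ∉ TS.hb X P a p := by
      rw [mem_hb]
      exact fun h => h.2.2.2 rfl
    have hsR : s ∉ R := fun h => hs (by rw [hR] at h; exact (mem_erase.1 h).2)
    have hsub : insert s (insert t (insert r (R.erase w))) ⊆ nb G (TS.hb X P a p) w := by
      intro z hz
      rw [mem_insert, mem_insert, mem_insert] at hz
      rw [mem_nb]
      rcases hz with rfl | rfl | rfl | hz
      · exact ⟨hsH, hws.symm⟩
      · exact ⟨htH, (hwt w hw1.2).symm⟩
      · refine ⟨?_, hwr.symm⟩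
        exact hS.hT (mem_insert_of_mem hrN)
      · rw [mem_erase] at hz
        refine ⟨?_, hRq w hw1.2 z hz.2 (Ne.symm hz.1)⟩
        have h2 := hz.2
        rw [hR, mem_erase] at h2
        exact hS.hT (mem_insert_of_mem h2.2)
    have g2 := Finset.card_le_card hsub
    have g3 := hd0 w (mem_insert_of_mem hw1.2)
    have g4 : (R.erase w).card + 1 = R.card := Finset.card_erase_add_one hw1.2
    rw [Finset.card_insert_of_notMem, Finset.card_insert_of_notMem,
      Finset.card_insert_of_notMem] at g2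
    · omega
    · exact fun h => hrR (mem_erase.1 h).2
    · rw [mem_insert]
      rintro (h | h)
      · exact htr h
      · exact htR (mem_erase.1 h).2
    · rw [mem_insert, mem_insert]
      rintro (h | h | h)
      · exact hst h
      · exact hs (h ▸ hrN)
      · exact hsR (mem_erase.1 h).2
  have hr'R : r' ∉ R := by
    intro hr'R
    have h1 : nb G Q t ⊆ nb G Q p := by
      intro w hw
      by_cases e : w = r'
      · rw [e]
        rw [hR, mem_erase] at hr'R
        exact hr'R.2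
      · exact hRsub' (by rw [hR']; exact mem_erase.2 ⟨e, hw⟩)
    have h2 : nb G Q t = nb G Q p := Finset.eq_of_subset_of_card_le h1 (by omega)
    have htr2 : G.Adj t r := (mem_nb.1 (h2 ▸ hrN : r ∈ nb G Q t)).2
    have h3 : (nb Gᶜ (insert t R) r).card ≤ 1 := by
      refine nbc_one (s := r') ?_
      intro w hw hwr
      rw [mem_insert] at hw
      rcases hw with rfl | hw
      · exact htr2.symm
      rw [hR, mem_erase] at hw
      refine hS'.clq r (mem_erase.2 ⟨fun h => hrR (h ▸ hr'R), mem_insert_of_mem (h2 ▸ hrN)⟩) w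
        (mem_erase.2 ⟨hwr, mem_insert_of_mem (h2 ▸ hw.2)⟩) (Ne.symm hw.1)
    rw [← hR] at hq2
    omega
  have hRR : R = R' := by
    refine Finset.eq_of_subset_of_card_le ?_ (by omega)
    intro w hw
    rw [hR', mem_erase]
    exact ⟨fun h => hr'R (h ▸ hw), hRsub hw⟩
  -- degrees
  have hq5' : 2 ≤ (nb Gᶜ (insert p (nb G Q t)) r').card := by
    have h1 : nb Gᶜ (insert p R') r' ⊆ nb Gᶜ (insert p (nb G Q t)) r' :=
      Finset.filter_subset_filter _ (by
        rw [hR']
        exact Finset.insert_subset_insert _ (Finset.erase_subset _ _))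
    have h2 := Finset.card_le_card h1
    rw [← hR'] at hq2'
    omega
  have hd0' := F.mc.star0 hb_sub Bt.hbne (by rw [hpst]; norm_num) hS' hq5'
  have hTe' : (insert p (nb G Q t)).erase r' = insert p R' := by
    rw [hR', Finset.erase_insert_of_ne hpr']
  rw [hTe', ← hRR] at hd0'
  have hpR : p ∉ R := by
    rw [hR]
    exact fun h => self_notMem (mem_erase.1 h).2
  have hwp : ∀ w ∈ R, G.Adj p w := by
    intro w hw
    rw [hR, mem_erase] at hw
    exact (mem_nb.1 hw.2).2
  refine ⟨p, t, R, r, r', F.mc, Finset.insert_subset ha'.1 F.hP, ?_, mem_insert_self _ _,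
    mem_insert_of_mem hb, fun h => ha'.2 (h ▸ hb), nab, ?_, ?_, htp.symm, ?_, ?_, ?_, hRc, hRq,
    ?_, ?_, ?_, ?_, hpsX⟩
  · rw [Finset.card_insert_of_notMem ha'.2]
    omega
  · rw [Finset.erase_insert ha'.2]
    exact F.hPq
  · intro x hx y hy hxy
    rw [mem_erase, mem_insert] at hx hy
    rcases hx.2 with rfl | hx2 <;> rcases hy.2 with rfl | hy2
    · exact absurd rfl hxy
    · exact hall y hy2 hy.1
    · exact (hall x hx2 hx.1).symm
    · exact F.hPq x hx2 y hy2 hxy
  · intro h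
    exact htn (mem_nb.2 ⟨htQ, h⟩)
  · intro c' hc' hca hcb'
    rw [mem_insert] at hc'
    rcases hc' with h | hc'
    · exact absurd h hca
    obtain ⟨s, Bs⟩ := base_mk1 F.hP F.hPc F.hPq hc' (hdeg c' hc' hcb') ha
      (hall c' hc' hcb').symm
    have hs := hchild c' s Bs
    rw [← hQ]
    by_cases e1 : s = p
    · left
      rw [hs.2, e1]
    by_cases e2 : s = t
    · right
      rw [hs.2, e2]
    exfalso
    obtain ⟨hsH, hsn, r'', hrN'', hS'', _⟩ := F.block0 h5 B hps (by rw [hnbp]; exact hNpc) hc'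
      (hnadj c' s p Bs hpQ e1) (hchild2 c' s p Bs e1 (Or.inl B))
    obtain ⟨_, hsn', _⟩ := F.block0 h5 Bt hpst (by rw [hnbt]; exact hNtc) hc'
      (hnadj c' s t Bs htQ e2) (hchild2 c' s t Bs e2 (Or.inr Bt))
    rw [hnbt] at hsn'
    rw [hnbp] at hsn hrN'' hS''
    have e3 := hcent r'' s e2 hsH hsn hrN'' hS''.clq
    have hws : ∀ w ∈ R, G.Adj s w := by
      intro w hw
      have hw' := hw
      rw [hR, mem_erase] at hw'
      refine hS''.clq s (mem_erase.2 ⟨fun h => hsn (h ▸ hrN''), mem_insert_self _ _⟩) w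
        (mem_erase.2 ⟨?_, mem_insert_of_mem hw'.2⟩) (fun h => hsn (h ▸ hw'.2))
      rw [e3]
      exact hw'.1
    exact F.third ha' hQ hpQ htQ hs.1 hRQ hRc hNpc hNtc
      (by
        have h1 := (F.c2numU ha hb nab hall Bs
          ⟨hc, fun h => B.na Bs.hx' Bs.hne.symm e1 h.symm⟩ hcb B.deg).2.2.1
        rw [← insert_hb (P := P), ← hQ, hnbE] at h1
        exact h1) hwp hwt hws (Ne.symm e1) (Ne.symm e2) htp.symm
      (fun h => htn (mem_nb.2 ⟨htQ, h⟩)) (fun h => hsn (mem_nb.2 ⟨hs.1, h⟩))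
      (fun h => hsn' (mem_nb.2 ⟨hs.1, h⟩)) h5
  · rw [← hQ]; exact hRQ
  · -- the half of `p`
    refine ⟨by rw [← hQ]; exact hpQ, ⟨c, mem_insert_of_mem hc, ?_, hcb, ?_⟩, ?_, hrR, ?_, ?_, ?_,
      ?_, ?_⟩
    · exact fun h => ha'.2 (h ▸ hc)
    · rw [← hQ]; exact (hchild c p B).2
    · rw [← hQ, hR, Finset.insert_erase hrN]
    · rw [hR]; exact hms
    · rw [hR]; exact hq2
    · rw [← hQ, hQp]; exact hps
    · rw [← hQ, hQp]; exact (F.bp _ _ _ B).alH
    · rw [← hQ, hQp]; exact hd0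
  · refine ⟨by rw [← hQ]; exact htQ, ⟨u, mem_insert_of_mem hu, ?_, hub, ?_⟩, ?_, ?_, ?_, ?_, ?_,
      ?_, ?_⟩
    · exact fun h => ha'.2 (h ▸ hu)
    · rw [← hQ]; exact (hchild u t Bt).2
    · rw [← hQ, hRR, hR', Finset.insert_erase hrN']
    · exact hr'R
    · rw [hRR, hR']; exact hms'
    · rw [hRR, hR']; exact hq2'
    · rw [← hQ, hQt]; exact hpst
    · rw [← hQ, hQt]; exact (F.bp _ _ _ Bt).alH
    · rw [← hQ, hQt]; exact hd0'
  · have h1 : nb G (X \ insert a P) a = nb G (X \ P) a := by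
      ext w
      rw [mem_nb, mem_nb, mem_sdiff, mem_sdiff, mem_insert]
      constructor
      · rintro ⟨⟨h2, h3⟩, h4⟩
        exact ⟨⟨h2, fun h => h3 (Or.inr h)⟩, h4⟩
      · rintro ⟨⟨h2, h3⟩, h4⟩
        exact ⟨⟨h2, fun h => h.elim (fun h => G.loopless.irrefl a (h ▸ h4)) h3⟩, h4⟩
    have h1' : nb G (X \ insert a P) b = nb G (X \ P) b := by
      ext w
      rw [mem_nb, mem_nb, mem_sdiff, mem_sdiff, mem_insert]
      constructor
      · rintro ⟨⟨h2, h3⟩, h4⟩
        exact ⟨⟨h2, fun h => h3 (Or.inr h)⟩, h4⟩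
      · rintro ⟨⟨h2, h3⟩, h4⟩
        exact ⟨⟨h2, fun h => h.elim (fun h => nab (h ▸ h4.symm)) h3⟩, h4⟩
    rw [h1, h1']
    exact hg
  · refine Finset.disjoint_of_subset_left ?_ (Finset.disjoint_of_subset_right ?_ hdis)
    · exact Finset.filter_subset_filter _
        (Finset.sdiff_subset_sdiff (Finset.Subset.refl _) (Finset.subset_insert _ _))
    · exact Finset.filter_subset_filter _
        (Finset.sdiff_subset_sdiff (Finset.Subset.refl _) (Finset.subset_insert _ _))

theorem c2x (h7 : 7 ≤ k) {a b : V} (ha : a ∈ X \ P) (hb : b ∈ P) (nab : ¬ G.Adj a b)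
    (hall : ∀ v ∈ P, v ≠ b → G.Adj a v) :
    ∃ p t R rp rt, XC G k X (insert a P) a b p t R rp rt := by
  have hk := F.mc.hk
  have hPc := F.hPc
  obtain ⟨c, hc, hcb, hcd⟩ := F.exists_degk h7 (S := P) (Finset.Subset.refl _) (by omega) b
  obtain ⟨p, B⟩ := base_mk1 F.hP F.hPc F.hPq hc hcd ha (hall c hc hcb).symm
  obtain ⟨_, _, _, _, _, u, hu, hub, hpu, hud⟩ := F.c2num h7 ha hb nab hall B
  exact F.c2xU (by omega) ha hb nab hall B hu hub hpu hud

end Fr

end Pool.Agent.TwoDens.TS
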