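import Pool.Agent.TKS.XF

/-!
Case II with one vertex missing for all `k ≥ 5`: general tools.
-/

open Finset

namespace Pool.Agent.TwoDens.TS

open Pool.Agent.TwoDens Pool.Agent.TwoDens.RK Pool.Agent.TwoDens.DD

variable {V : Type*} [DecidableEq V] {G : SimpleGraph V} [DecidableRel G.Adj]

/-- sets whose removal lowers the independence number by two are large -/
theorem MC.drop2 {k : ℕ} {X : Finset V} (H : MC G k X) {Y S : Finset V} (hY : Y ⊆ X)
    (hne : Y ≠ X) (hps : ps G k Y ≤ 2) (hS : S ⊆ Y) (hj : al G (Y \ S) + 2 ≤ al G Y) :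
    2 * k ≤ S.card + 1 := by
  have hk := H.hk
  have hk' : (4 : ℤ) ≤ k := by exact_mod_cast hk
  have h1 := H.gen hY hS (Or.inl hne) (j := 2) hj
  have h2 := H.dY hY hne (δ := k - 2) (Or.inl ⟨by linarith, by omega⟩)
  have h3 := sum_ge (G := G) (Y := Y) (S := S) (k - 2) (fun v hv => h2 v (hS hv))
  have h4 := sum_deg' (G := G) hS
  obtain ⟨D, hD⟩ : ∃ D : ℕ, ∑ v ∈ S, (nb G Y v).card = D := ⟨_, rfl⟩
  rw [hD] at h1 h3 h4
  obtain ⟨m, rfl⟩ : ∃ m, k = m + 2 := ⟨k - 2, by omega⟩
  have g3 : (D : ℤ) = m * S.card + exs G m Y S := by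
    have : D = m * S.card + exs G m Y S := by simpa using h3
    exact_mod_cast this
  have g4 : (D : ℤ) = e2 G S + bd G Y S := by exact_mod_cast h4
  have b1 : (0 : ℤ) ≤ exs G m Y S := Int.natCast_nonneg _
  have b2 : (0 : ℤ) ≤ bd G Y S := Int.natCast_nonneg _
  obtain ⟨s, hs⟩ : ∃ s, S.card = s := ⟨_, rfl⟩
  rw [hs] at h1 g3 ⊢
  by_contra hcon
  push Not at hcon
  have h5 : (s : ℤ) ≤ 2 * m + 2 := by
    have : s ≤ 2 * m + 2 := by omega
    exact_mod_cast this
  have h6 : (0 : ℤ) ≤ m := Int.natCast_nonneg _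
  have h7 : (0 : ℤ) ≤ s := Int.natCast_nonneg _
  push_cast at h1
  nlinarith [mul_nonneg h6 (sub_nonneg.2 h5)]

/-- an isolated clique with `k - 1` vertices in a set `Y` with `al Y = al X - 2`, such that the
rest of `Y` is hardly reached from outside -/
theorem MC.p1x {k : ℕ} {X : Finset V} (H : MC G k X) (hpX : ps G k X = -2) {Y C : Finset V}
    (hY : Y ⊆ X) (hne : Y ≠ X) (hps : ps G k Y ≤ 2) (hal : al G Y + 2 = al G X) (hC : C ⊆ Y)
    (hCq : Clq G C) (hCc : C.card + 1 = k)
    (hiso : ∀ u ∈ C, ∀ y ∈ Y, G.Adj u y → y ∈ C) (hc : (X \ Y).card = 2 * k + 1)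
    (hJ : ∀ J ⊆ X, Disjoint J (Y \ C) → G.IsIndepSet (J : Set V) →
      ∃ S : Finset V, S.card + 1 ≤ k ∧ ∀ x ∈ J, ∀ y ∈ Y \ C, G.Adj x y → y ∈ S) : False := by
  have hk := H.hk
  have hk' : (4 : ℤ) ≤ k := by exact_mod_cast hk
  obtain ⟨Z, hZ⟩ : ∃ Z, Z = Y \ C := ⟨_, rfl⟩
  have hZX : Z ⊆ X := by rw [hZ]; exact Finset.sdiff_subset.trans hY
  obtain ⟨v, hv⟩ : C.Nonempty := Finset.card_pos.1 (by omega)
  -- the independence number of `Z`
  have hal1 : al G Z + 1 = al G Y := by
    have e1 : al G Z + 1 ≤ al G Y := by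
      obtain ⟨I, hI, hIi, hIc⟩ := exists_al (G := G) Z
      rw [hZ] at hI
      have e2 := le_al (G := G) (X := Y) (I := {v} ∪ I)
        (Finset.union_subset (by simpa using hC hv) (hI.trans Finset.sdiff_subset))
        (indep_union (indep_singleton v) hIi (fun x hx y hy hxy => by
          rw [mem_singleton] at hx
          rw [hx] at hxy
          have e3 := mem_sdiff.1 (hI hy)
          exact e3.2 (hiso v hv y e3.1 hxy)))
      rw [Finset.card_union_of_disjoint, Finset.card_singleton] at e2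
      · omega
      · rw [Finset.disjoint_singleton_left]
        exact fun e => (mem_sdiff.1 (hI e)).2 hv
    have e2 : al G Y ≤ al G Z + 1 := by
      obtain ⟨I, hI, hIi, hIc⟩ := exists_al (G := G) Y
      have e3 := le_al (G := G) (X := Z) (I := I \ C)
        (by rw [hZ]; exact Finset.sdiff_subset_sdiff hI (Finset.Subset.refl _))
        (hIi.mono (by simp [Finset.coe_sdiff]))
      have e4 : (I ∩ C).card ≤ 1 := by
        rw [Finset.card_le_one]
        intro x hx y hy
        rw [mem_inter] at hx hy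
        by_contra hxy
        exact hIi (by exact_mod_cast hx.1) (by exact_mod_cast hy.1) hxy (hCq x hx.2 y hy.2 hxy)
      have e5 := Finset.card_sdiff_add_card_inter I C
      omega
    omega
  have hbd : bd G Y C = 0 := by
    unfold bd
    refine Finset.sum_eq_zero fun u hu => ?_
    rw [Finset.card_eq_zero, Finset.eq_empty_iff_forall_notMem]
    intro y hy
    rw [mem_sdiff, mem_nb] at hy
    exact hy.2 (hiso u hu y hy.1.1 hy.1.2)
  have hpsZ : ps G k Z ≤ 0 := by
    have f1 := ps_sdiff (G := G) k hC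
    rw [← hZ] at f1
    have f2 := sum_deg' (G := G) hC
    rw [hbd] at f2
    have f3 := clq_e2 (G := G) hCq
    rw [f2] at f1
    have f4 : (al G Y : ℤ) - al G Z = 1 := by
      have : (al G Z : ℤ) + 1 = al G Y := by exact_mod_cast hal1
      linarith
    rw [f4] at f1
    obtain ⟨m, rfl⟩ : ∃ m, k = m + 1 := ⟨k - 1, by omega⟩
    have f5 : C.card = m := by omega
    rw [f5] at f1 f3
    have f6 : (e2 G C : ℤ) + m = m * m := by exact_mod_cast f3
    push_cast at f1
    nlinarith
  have hZne : Z ≠ X := fun e => hne (Finset.Subset.antisymm hY (by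
    rw [← e, hZ]; exact Finset.sdiff_subset))
  have htau := H.tau0 hZX hZne (by linarith)
  rcases Z.eq_empty_or_nonempty with hZ0 | hZ0
  · -- the whole set has `3 k` elements
    have f1 : al G X = 3 := by
      rw [hZ0, al_empty] at hal1
      omega
    have f2 : X.card = 3 * k := by
      have f3 : Y.card = C.card := by
        have f4 := Finset.card_sdiff_add_card_eq_card hC
        rw [← hZ, hZ0, Finset.card_empty] at f4
        omega
      have f4 := Finset.card_sdiff_add_card_eq_card hY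
      omega
    have f3 := H.hS X (Finset.Subset.refl _) (by omega)
    unfold ps at hpX
    rw [f1, f2] at hpX
    rw [f2] at f3
    have f4 : (e2 G X : ℤ) + 2 * k + 1 ≤ (k + 1) * (3 * k) := by exact_mod_cast f3
    push_cast at hpX
    nlinarith
  · have hWne : (X \ Z).Nonempty := by
      rw [Finset.sdiff_nonempty]
      exact fun e => hZne (Finset.Subset.antisymm hZX e)
    obtain ⟨J, hJX, hJi, hJc⟩ := exists_al (G := G) (X \ Z)
    have h1 := H.p1 (A := X \ Z) (B := Z) (Finset.sdiff_union_of_subset hZX)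
      Finset.sdiff_disjoint hWne hZ0
    have hJd : Disjoint J Z := Finset.disjoint_of_subset_left hJX Finset.sdiff_disjoint
    obtain ⟨S, hS, hS'⟩ := hJ J (hJX.trans Finset.sdiff_subset) (by rw [← hZ]; exact hJd) hJi
    rw [← hZ] at hS'
    have htr : Tr G Z S := tr_nbr (X := X) (J := J) hZX (hJX.trans Finset.sdiff_subset) hJd hJi
      (by omega) hS'
    have h2 := htau _ Finset.inter_subset_right (tr_mono htr (Finset.Subset.refl (S ∩ Z)))
    have h3 : (S ∩ Z).card ≤ S.card := Finset.card_le_card Finset.inter_subset_left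
    omega

end Pool.Agent.TwoDens.TS
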