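import Pool.Agent.TKS.XG

/-!
Case II with one vertex missing for all `k ≥ 5`: general facts, the case without edges between
`a, b` and `p, t`.
-/

open Finset

namespace Pool.Agent.TwoDens.TS

open Pool.Agent.TwoDens Pool.Agent.TwoDens.RK Pool.Agent.TwoDens.DD

variable {V : Type*} [DecidableEq V] {G : SimpleGraph V} [DecidableRel G.Adj]

namespace XC
variable {k : ℕ} {X B R : Finset V} {a b p t rp rt : V} (h : XC G k X B a b p t R rp rt)
include h

theorem tRX : insert t R ⊆ (X \ B).erase p := by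
  intro w hw
  rw [mem_insert] at hw
  rw [mem_erase]
  rcases hw with rfl | hw
  · exact ⟨h.hpt.symm, h.tQ⟩
  · exact ⟨fun h1 => h.pR (h1 ▸ hw), h.hR hw⟩

theorem tw {w : V} (hw : w ∈ R) : G.Adj t w :=
  (mem_nb.1 (by rw [h.xt.hN]; exact mem_insert_of_mem hw : w ∈ nb G (X \ B) t)).2

theorem pw {w : V} (hw : w ∈ R) : G.Adj p w :=
  (mem_nb.1 (by rw [h.xp.hN]; exact mem_insert_of_mem hw : w ∈ nb G (X \ B) p)).2

theorem tRq : Clq G (insert t R) := by
  intro x hx y hy hxy
  rw [mem_insert] at hx hy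
  rcases hx with rfl | hx <;> rcases hy with rfl | hy
  · exact absurd rfl hxy
  · exact h.tw hy
  · exact (h.tw hx).symm
  · exact h.hRq x hx y hy hxy

theorem tRc : (insert t R).card + 1 = k := by
  rw [Finset.card_insert_of_notMem h.tR]
  have := h.hRc
  omega

theorem q2 (h5 : 5 ≤ k) : 2 ≤ (nb Gᶜ (insert t R) rp).card := by
  have h1 : G.Adj rp p := (mem_nb.1 (by rw [h.xp.hN]; exact mem_insert_self _ _ :
    rp ∈ nb G (X \ B) p)).2.symm
  have h2 := h.mc.near2a (h.tRX.trans h.hpX) h.tRq h.tRc (mem_sdiff.1 h.rpQ).1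
    (mem_sdiff.1 h.pQ).1 h.prp.symm (by
      rw [mem_insert]
      rintro (e | e)
      · exact h.trp e.symm
      · exact h.xp.hr e) (by
      rw [mem_insert]
      rintro (e | e)
      · exact h.hpt e
      · exact h.pR e) h1
  have h3 : (nb Gᶜ (insert t R) p).card ≤ 1 := by
    refine nbc_one (s := t) ?_
    intro w hw hwt
    rw [mem_insert] at hw
    exact h.pw (hw.resolve_left hwt)
  omega

theorem star5T (h5 : 5 ≤ k) :
    StarT G k ((X \ B).erase p) (insert t (insert rp R)) rp := by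
  obtain ⟨r, hS⟩ := h.mc.star8g h.hpX h.hpne (by rw [h.xp.hps]; norm_num) h.tau h.Tsub h.Tc
    h.trT (Or.inl (by rw [h.xp.hps]; norm_num))
  by_cases e : rp = r
  · rw [e] at hS ⊢
    exact hS
  · exfalso
    have h1 : (nb Gᶜ (insert t R) rp).card ≤ 1 := by
      refine nbc_one (s := r) ?_
      intro w hw hwr
      refine hS.clq rp (mem_erase.2 ⟨e, mem_insert_of_mem (mem_insert_self _ _)⟩) w
        (mem_erase.2 ⟨hwr, ?_⟩) ?_
      · rw [mem_insert] at hw
        rcases hw with rfl | hw
        · exact mem_insert_self _ _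
        · exact mem_insert_of_mem (mem_insert_of_mem hw)
      · rintro rfl
        rw [mem_insert] at hw
        rcases hw with hw | hw
        · exact h.trp hw.symm
        · exact h.xp.hr hw
    have := h.q2 h5
    omega

theorem y25 (h5 : 5 ≤ k) :
    al G (((X \ B).erase p) \ insert t (insert rp R)) + 2 = al G X ∧
    k ≤ (nb G ((X \ B).erase p) rp \ insert t (insert rp R)).card + 2 ∧
    ps G k (((X \ B).erase p) \ insert t (insert rp R)) +
      2 * ((nb G ((X \ B).erase p) rp \ insert t (insert rp R)).card : ℤ) ≤ 2 * k - 2 := by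
  have hS := h.star5T h5
  have h1 := hS.alT
  have h2 := h.xp.hal
  have hps := h.xp.hps
  obtain ⟨l, hl⟩ := Finset.card_pos.1 (lt_of_lt_of_le (by norm_num) (h.q2 h5))
  have hl' := mem_nb.1 hl
  have h8 := h.xp.dR l hl'.1
  have h9 := hS.low l (mem_nb.2 ⟨by
    rcases mem_insert.1 hl'.1 with e | e
    · exact e ▸ mem_insert_self _ _
    · exact mem_insert_of_mem (mem_insert_of_mem e), hl'.2⟩)
  have h10 := hS.psT
  rw [hps] at h10
  have h12 := Int.natCast_nonneg (exs G (k - 1) ((X \ B).erase p)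
    ((insert t (insert rp R)).erase rp))
  exact ⟨by omega, by omega, by linarith⟩

theorem y25' (h5 : 5 ≤ k) : ps G k (((X \ B).erase p) \ insert t (insert rp R)) ≤ 2 := by
  obtain ⟨_, h2, h3⟩ := h.y25 h5
  have h4 : (k : ℤ) ≤ (nb G ((X \ B).erase p) rp \ insert t (insert rp R)).card + 2 := by
    exact_mod_cast h2
  linarith

theorem y25ext (h5 : 5 ≤ k) {I J : Finset V}
    (hI : I ⊆ ((X \ B).erase p) \ insert t (insert rp R))
    (hi : G.IsIndepSet (I : Set V)) (hJ : G.IsIndepSet (J : Set V)) (hJX : J ⊆ X)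
    (hd : Disjoint J I) (hn : ∀ x ∈ J, ∀ y ∈ I, ¬ G.Adj x y) :
    J.card + I.card ≤ al G (((X \ B).erase p) \ insert t (insert rp R)) + 2 := by
  rw [(h.y25 h5).1, ← Finset.card_union_of_disjoint hd]
  exact le_al (Finset.union_subset hJX (hI.trans h.y2X)) (indep_union hJ hi hn)

/-- no edges between `a, b` and `p, t` is impossible -/
theorem x05 (h5 : 5 ≤ k) (h1 : ¬ G.Adj a p) (h2 : ¬ G.Adj a t) (h3 : ¬ G.Adj b p) (h4 : ¬ G.Adj b t) :
    False := by
  have hk := h.mc.hk
  have hk' : (4 : ℤ) ≤ k := by exact_mod_cast hk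
  obtain ⟨Y2, hY2⟩ : ∃ Y, Y = ((X \ B).erase p) \ insert t (insert rp R) := ⟨_, rfl⟩
  obtain ⟨S, hS⟩ : ∃ S, S = (insert rt (nb G (X \ B) a ∪ nb G (X \ B) b)) ∩ Y2 := ⟨_, rfl⟩
  have hSY : S ⊆ Y2 := by rw [hS]; exact Finset.inter_subset_right
  have haX := h.hB h.ha
  have hbX := h.hB h.hb
  have hpQ := mem_sdiff.1 h.pQ
  have htQ := mem_sdiff.1 h.tQ
  have hap : a ≠ p := fun e => hpQ.2 (e ▸ h.ha)
  have hat : a ≠ t := fun e => htQ.2 (e ▸ h.ha)
  have hbp : b ≠ p := fun e => hpQ.2 (e ▸ h.hb)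
  have hbt : b ≠ t := fun e => htQ.2 (e ▸ h.hb)
  have hJi : G.IsIndepSet (({a, b, p, t} : Finset V) : Set V) := by
    refine indep_insert (indep_triple h3 h4 h.npt) ?_
    intro x hx
    rw [mem_insert, mem_insert, mem_singleton] at hx
    rcases hx with rfl | rfl | rfl
    · exact h.nab
    · exact h1
    · exact h2
  have hJc : ({a, b, p, t} : Finset V).card = 4 := by
    rw [Finset.card_insert_of_notMem (by simp [h.hab, hap, hat]),
      Finset.card_insert_of_notMem (by simp [hbp, hbt]), Finset.card_pair h.hpt]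
  have hdrop : al G (Y2 \ S) + 2 ≤ al G Y2 := by
    obtain ⟨I, hI, hi, hc⟩ := exists_al (G := G) (Y2 \ S)
    have hIY : I ⊆ Y2 := hI.trans Finset.sdiff_subset
    have h5 := h.y25ext h5 (I := I) (J := {a, b, p, t}) (by rw [← hY2]; exact hIY) hi hJi ?_ ?_ ?_
    · rw [hJc, ← hY2] at h5
      omega
    · intro z hz
      rw [mem_insert, mem_insert, mem_insert, mem_singleton] at hz
      rcases hz with rfl | rfl | rfl | rfl
      · exact haX
      · exact hbX
      · exact hpQ.1
      · exact htQ.1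
    · rw [Finset.disjoint_left]
      intro z hz hz'
      have h6 := hIY hz'
      rw [hY2, h.mem_y2, mem_sdiff] at h6
      rw [mem_insert, mem_insert, mem_insert, mem_singleton] at hz
      rcases hz with rfl | rfl | rfl | rfl
      · exact h6.1.2 h.ha
      · exact h6.1.2 h.hb
      · exact h6.2.1 rfl
      · exact h6.2.2.1 rfl
    · intro x hx y hy hxy
      have h6 := hIY hy
      have h7 := (mem_sdiff.1 (hI hy)).2
      have h8 := h6
      rw [hY2, h.mem_y2] at h8
      rw [mem_insert, mem_insert, mem_insert, mem_singleton] at hx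
      rw [hS, mem_inter, mem_insert, mem_union] at h7
      rcases hx with rfl | rfl | rfl | rfl
      · exact h7 ⟨Or.inr (Or.inl (mem_nb.2 ⟨h8.1, hxy⟩)), h6⟩
      · exact h7 ⟨Or.inr (Or.inr (mem_nb.2 ⟨h8.1, hxy⟩)), h6⟩
      · have h9 : y ∈ nb G (X \ B) x := mem_nb.2 ⟨h8.1, hxy⟩
        rw [h.xp.hN, mem_insert] at h9
        rcases h9 with h9 | h9
        · exact h8.2.2.2.1 h9
        · exact h8.2.2.2.2 h9
      · have h9 : y ∈ nb G (X \ B) x := mem_nb.2 ⟨h8.1, hxy⟩
        rw [h.xt.hN, mem_insert] at h9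
        rcases h9 with h9 | h9
        · exact h7 ⟨Or.inl h9, h6⟩
        · exact h8.2.2.2.2 h9
  have h6 := h.mc.drop2 (Y := Y2) (by rw [hY2]; exact h.y2X) (by rw [hY2]; exact h.y2ne)
    (by rw [hY2]; exact h.y25' h5) hSY hdrop
  have h7 : S.card ≤ (insert rt (nb G (X \ B) a ∪ nb G (X \ B) b)).card := by
    rw [hS]
    exact Finset.card_le_card Finset.inter_subset_left
  have h8 := Finset.card_insert_le rt (nb G (X \ B) a ∪ nb G (X \ B) b)
  have h9 := h.cardN
  omega

/-- at most one vertex of `R` lies in `N(a) ∪ N(b)` if `p` and `t` both have neighbours among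
`a, b` -/
theorem xs5 (h1 : G.Adj a p) (h2 : G.Adj a t ∨ G.Adj b t)
    (hR : 2 ≤ (R.filter fun w => w ∈ nb G (X \ B) a ∪ nb G (X \ B) b).card) : False := by
  have hk := h.mc.hk
  have hpQ := mem_sdiff.1 h.pQ
  have htQ := mem_sdiff.1 h.tQ
  obtain ⟨F1, hF1⟩ : ∃ F, F = insert p (insert t B) := ⟨_, rfl⟩
  have htB : t ∉ B := htQ.2
  have hpB : p ∉ insert t B := by
    rw [mem_insert]
    rintro (e | e)
    · exact h.hpt e
    · exact hpQ.2 e
  have hF1X : F1 ⊆ X := by
    rw [hF1]
    exact Finset.insert_subset hpQ.1 (Finset.insert_subset htQ.1 h.hB)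
  have hd : Disjoint F1 R := by
    rw [Finset.disjoint_left]
    intro z hz hz'
    rw [hF1, mem_insert, mem_insert] at hz
    rcases hz with rfl | rfl | hz
    · exact h.pR hz'
    · exact h.tR hz'
    · exact (mem_sdiff.1 (h.hR hz')).2 hz
  have hRX : R ⊆ X := h.hR.trans Finset.sdiff_subset
  have hF1c : F1.card = k + 2 := by
    rw [hF1, Finset.card_insert_of_notMem hpB, Finset.card_insert_of_notMem htB, h.hBc]
  have hRc := h.hRc
  have hWc : (F1 ∪ R).card = 2 * k := by
    rw [Finset.card_union_of_disjoint hd]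
    omega
  have hsp := h.mc.hS (F1 ∪ R) (Finset.union_subset hF1X hRX) (by omega)
  rw [hWc] at hsp
  have he := e2_sdiff (G := G) (Finset.subset_union_right : R ⊆ F1 ∪ R)
  have he1 : (F1 ∪ R) \ R = F1 := by
    rw [Finset.union_sdiff_right]
    exact Finset.sdiff_eq_self_of_disjoint hd
  rw [he1] at he
  have heR := clq_e2 (G := G) h.hRq
  -- each vertex of `R` has at least `k - 1` neighbours in `F1 ∪ R`
  have hone : ∀ w ∈ R, (k - 1) + (if w ∈ nb G (X \ B) a ∪ nb G (X \ B) b then 1 else 0) ≤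
      (nb G (F1 ∪ R) w).card := by
    intro w hw
    have hwp : G.Adj p w := (mem_nb.1 (by rw [h.xp.hN]; exact mem_insert_of_mem hw :
      w ∈ nb G (X \ B) p)).2
    have hwt : G.Adj t w := (mem_nb.1 (by rw [h.xt.hN]; exact mem_insert_of_mem hw :
      w ∈ nb G (X \ B) t)).2
    have hR1 : 1 ≤ R.card := Finset.card_pos.2 ⟨w, hw⟩
    by_cases hwN : w ∈ nb G (X \ B) a ∪ nb G (X \ B) b
    · rw [if_pos hwN]
      obtain ⟨z, hz, hzw⟩ : ∃ z ∈ B, G.Adj w z := by
        rw [mem_union, mem_nb, mem_nb] at hwN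
        rcases hwN with h3 | h3
        · exact ⟨a, h.ha, h3.2.symm⟩
        · exact ⟨b, h.hb, h3.2.symm⟩
      have hsub : insert p (insert t (insert z (R.erase w))) ⊆ nb G (F1 ∪ R) w := by
        intro v hv
        rw [mem_insert, mem_insert, mem_insert, mem_erase] at hv
        rw [mem_nb, mem_union, hF1, mem_insert, mem_insert]
        rcases hv with rfl | rfl | rfl | ⟨hv1, hv2⟩
        · exact ⟨Or.inl (Or.inl rfl), hwp.symm⟩
        · exact ⟨Or.inl (Or.inr (Or.inl rfl)), hwt.symm⟩
        · exact ⟨Or.inl (Or.inr (Or.inr hz)), hzw⟩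
        · exact ⟨Or.inr hv2, h.hRq w hw v hv2 (Ne.symm hv1)⟩
      have h3 := Finset.card_le_card hsub
      rw [Finset.card_insert_of_notMem, Finset.card_insert_of_notMem,
        Finset.card_insert_of_notMem, Finset.card_erase_of_mem hw] at h3
      · omega
      · rw [mem_erase]
        exact fun e => (mem_sdiff.1 (h.hR e.2)).2 hz
      · rw [mem_insert, mem_erase]
        rintro (e | e)
        · exact htB (e ▸ hz)
        · exact h.tR e.2
      · rw [mem_insert, mem_insert, mem_erase]
        rintro (e | e | e)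
        · exact h.hpt e
        · exact hpQ.2 (e ▸ hz)
        · exact h.pR e.2
    · rw [if_neg hwN]
      have hsub : insert p (insert t (R.erase w)) ⊆ nb G (F1 ∪ R) w := by
        intro v hv
        rw [mem_insert, mem_insert, mem_erase] at hv
        rw [mem_nb, mem_union, hF1, mem_insert, mem_insert]
        rcases hv with rfl | rfl | ⟨hv1, hv2⟩
        · exact ⟨Or.inl (Or.inl rfl), hwp.symm⟩
        · exact ⟨Or.inl (Or.inr (Or.inl rfl)), hwt.symm⟩
        · exact ⟨Or.inr hv2, h.hRq w hw v hv2 (Ne.symm hv1)⟩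
      have h3 := Finset.card_le_card hsub
      rw [Finset.card_insert_of_notMem, Finset.card_insert_of_notMem,
        Finset.card_erase_of_mem hw] at h3
      · omega
      · rw [mem_erase]
        exact fun e => h.tR e.2
      · rw [mem_insert, mem_erase]
        rintro (e | e)
        · exact h.hpt e
        · exact h.pR e.2
  have hsum : (k - 1) * R.card + 2 ≤ ∑ w ∈ R, (nb G (F1 ∪ R) w).card := by
    have hs1 := Finset.sum_le_sum hone
    rw [Finset.sum_add_distrib, Finset.sum_const, smul_eq_mul, ← Finset.card_filter,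
      mul_comm R.card] at hs1
    omega
  -- `F1`
  have e1 := e2_sdiff (G := G) (X := F1) (R := {p, t}) (by
    rw [hF1]
    intro z hz
    rw [mem_insert, mem_singleton] at hz
    rw [mem_insert, mem_insert]
    rcases hz with rfl | rfl
    · exact Or.inl rfl
    · exact Or.inr (Or.inl rfl))
  have e2' : F1 \ {p, t} = B := by
    ext v
    rw [hF1, mem_sdiff, mem_insert, mem_insert, mem_insert, mem_singleton]
    constructor
    · rintro ⟨h3 | h3 | h3, h4⟩
      · exact absurd (Or.inl h3) h4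
      · exact absurd (Or.inr h3) h4
      · exact h3
    · intro h3
      exact ⟨Or.inr (Or.inr h3), fun h4 => h4.elim (fun e => hpQ.2 (e ▸ h3)) (fun e => htB (e ▸ h3))⟩
  rw [e2', Finset.sum_pair h.hpt] at e1
  have hnbF : ∀ v, (nb G B v).card ≤ (nb G F1 v).card := by
    intro v
    refine Finset.card_le_card (nb_mono ?_ v)
    rw [hF1]
    exact (Finset.subset_insert _ _).trans (Finset.subset_insert _ _)
  have hcount : k ≤ (nb G B p).card + (nb G B t).card := by
    unfold nb
    rw [Finset.card_filter, Finset.card_filter, ← Finset.sum_add_distrib]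
    rw [← Finset.add_sum_erase _ _ h.ha, ← Finset.add_sum_erase _ _
      (mem_erase.2 ⟨h.hab.symm, h.hb⟩ : b ∈ B.erase a)]
    have h3 : ((B.erase a).erase b).card ≤ ∑ v ∈ (B.erase a).erase b,
        ((if G.Adj p v then 1 else 0) + (if G.Adj t v then 1 else 0)) := by
      rw [Finset.card_eq_sum_ones]
      refine Finset.sum_le_sum fun v hv => ?_
      rw [mem_erase, mem_erase] at hv
      rcases h.hpar v hv.2.2 hv.2.1 hv.1 with h4 | h4
      · have h5 : G.Adj p v := (mem_nb.1 (by rw [h4]; simp : p ∈ nb G (X \ B) v)).2.symm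
        rw [if_pos h5]
        omega
      · have h5 : G.Adj t v := (mem_nb.1 (by rw [h4]; simp : t ∈ nb G (X \ B) v)).2.symm
        rw [if_pos h5]
        omega
    have h4 : ((B.erase a).erase b).card + 2 = k := by
      rw [Finset.card_erase_of_mem (mem_erase.2 ⟨h.hab.symm, h.hb⟩),
        Finset.card_erase_of_mem h.ha, h.hBc]
      omega
    rw [if_pos h1.symm]
    rcases h2 with h2 | h2
    · rw [if_pos h2.symm]
      omega
    · rw [if_pos h2.symm]
      omega
  have heB : e2 G B + e2 Gᶜ B + k = k * k := by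
    have := e2_add_compl (G := G) B
    rw [h.hBc] at this
    exact this
  have heBc : e2 Gᶜ B ≤ 2 := by
    have h3 := e2c_insert (G := G) (F := B.erase a) (v := a) (Finset.notMem_erase _ _)
    rw [Finset.insert_erase h.ha, clq_e2c h.hqa] at h3
    have h4 : (nb Gᶜ (B.erase a) a).card ≤ 1 := by
      refine nbc_one (s := b) ?_
      intro w hw hwb
      rw [mem_erase] at hw
      exact h.hqb a (mem_erase.2 ⟨h.hab, h.ha⟩) w (mem_erase.2 ⟨hwb, hw.2⟩) (Ne.symm hw.1)
    omega
  have hb1 := hnbF p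
  have hb2 := hnbF t
  have hpt2 : e2 G ({p, t} : Finset V) = 0 := by
    have h3 : ∀ v ∈ ({p, t} : Finset V), nb G ({p, t} : Finset V) v = ∅ := by
      intro v hv
      rw [Finset.eq_empty_iff_forall_notMem]
      intro w hw
      rw [mem_nb, mem_insert, mem_singleton] at hw
      rw [mem_insert, mem_singleton] at hv
      rcases hv with rfl | rfl <;> rcases hw with ⟨rfl | rfl, h4⟩
      · exact G.loopless.irrefl _ h4
      · exact h.npt h4
      · exact h.npt h4.symm
      · exact G.loopless.irrefl _ h4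
    rw [e2_eq]
    exact Finset.sum_eq_zero fun v hv => by rw [h3 v hv, Finset.card_empty]
  obtain ⟨m, rfl⟩ : ∃ m, k = m + 2 := ⟨k - 2, by omega⟩
  have hRm : R.card = m := by omega
  rw [hRm, show m + 2 - 1 = m + 1 from rfl] at hsum
  rw [hRm] at heR
  nlinarith

end XC

end Pool.Agent.TwoDens.TS
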