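import Pool.Agent.TKS.XH

/-!
Case II with one vertex missing for all `k ≥ 5`: isolated cliques, the case where `p` and `t` both
have neighbours among `a, b`.
-/

open Finset

namespace Pool.Agent.TwoDens.TS

open Pool.Agent.TwoDens Pool.Agent.TwoDens.RK Pool.Agent.TwoDens.DD

variable {V : Type*} [DecidableEq V] {G : SimpleGraph V} [DecidableRel G.Adj]

/-- the neighbours in `Y` of an independent set with at most one vertex in a clique -/
theorem smallS {J D Y S0 : Finset V} (hJi : G.IsIndepSet (J : Set V))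
    (hD : Clq G D) (hd : ∀ w ∈ D, (nb G Y w).card ≤ 1) :
    ∃ S : Finset V, S.card ≤ S0.card + 1 ∧ S0 ⊆ S ∧ ∀ w ∈ J, w ∈ D → nb G Y w ⊆ S := by
  by_cases he : ∃ w ∈ J, w ∈ D
  · obtain ⟨w, hw, hwD⟩ := he
    refine ⟨S0 ∪ nb G Y w, ?_, Finset.subset_union_left, ?_⟩
    · have h1 := Finset.card_union_le S0 (nb G Y w)
      have h2 := hd w hwD
      omega
    · intro v hv hvD
      have : v = w := by
        by_contra hne
        exact hJi (by exact_mod_cast hv) (by exact_mod_cast hw) hne (hD v hvD w hwD hne)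
      rw [this]
      exact Finset.subset_union_right
  · refine ⟨S0, by omega, Finset.Subset.refl _, ?_⟩
    intro v hv hvD
    exact absurd ⟨v, hv, hvD⟩ he

namespace XC
variable {k : ℕ} {X B R : Finset V} {a b p t rp rt : V} (h : XC G k X B a b p t R rp rt)
include h

theorem cardXY {T : Finset V} (hT : T ⊆ (X \ B).erase p) (hTc : T.card = k) :
    (X \ (((X \ B).erase p) \ T)).card = 2 * k + 1 := by
  have h1 := Finset.card_sdiff_add_card_eq_card (Finset.sdiff_subset.trans h.hpX :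
    ((X \ B).erase p) \ T ⊆ X)
  have h2 := Finset.card_sdiff_add_card_eq_card hT
  have h3 := Finset.card_erase_add_one h.pQ
  have h4 := Finset.card_sdiff_add_card_eq_card h.hB
  have := h.hBc
  omega

/-- vertices of `R` have at most one neighbour in a set disjoint from `t`, `R` -/
theorem nbR {Y : Finset V} (hY : Y ⊆ (X \ B).erase p) (ht : t ∉ Y) (hR : Disjoint R Y) {w : V}
    (hw : w ∈ R) : (nb G Y w).card ≤ 1 := by
  have h4 := h.xp.dR w (mem_insert_of_mem hw)
  have h5 : insert t (R.erase w) ∪ nb G Y w ⊆ nb G ((X \ B).erase p) w := by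
    refine Finset.union_subset (Finset.insert_subset ?_ ?_) (nb_mono hY w)
    · exact mem_nb.2 ⟨mem_erase.2 ⟨h.hpt.symm, h.tQ⟩, (h.tw hw).symm⟩
    · intro u hu
      rw [mem_erase] at hu
      exact mem_nb.2 ⟨mem_erase.2 ⟨fun e => h.pR (e ▸ hu.2), h.hR hu.2⟩,
        h.hRq w hw u hu.2 (Ne.symm hu.1)⟩
  have h6 := Finset.card_le_card h5
  have h8 : Disjoint (insert t (R.erase w)) (nb G Y w) := by
    rw [Finset.disjoint_left]
    intro u hu hu'
    have h9 := (mem_nb.1 hu').1
    rw [mem_insert, mem_erase] at hu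
    rcases hu with hu | hu
    · exact ht (hu ▸ h9)
    · exact (Finset.disjoint_left.1 hR) hu.2 h9
  rw [Finset.card_union_of_disjoint h8,
    Finset.card_insert_of_notMem (fun e => h.tR (mem_erase.1 e).2),
    Finset.card_erase_of_mem hw] at h6
  have := h.hRc
  have : 1 ≤ R.card := Finset.card_pos.2 ⟨w, hw⟩
  omega

/-- an isolated clique in `Y2` containing the neighbours of `rp` -/
theorem reach (h5 : 5 ≤ k) (hpX : ps G k X = -2) {C R' : Finset V} {g : V}
    (hC : C ⊆ ((X \ B).erase p) \ insert t (insert rp R)) (hCq : Clq G C)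
    (hCc : C.card + 1 = k)
    (hiso : ∀ u ∈ C, ∀ y ∈ ((X \ B).erase p) \ insert t (insert rp R), G.Adj u y → y ∈ C)
    (hR' : R' ⊆ C) (hR'c : R'.card + 2 = k) (hR'a : ∀ w ∈ R', G.Adj rp w)
    (hab : ∀ y ∈ ((X \ B).erase p) \ insert t (insert rp R), y ∉ C →
      (G.Adj a y ∨ G.Adj b y) → y = g) : False := by
  obtain ⟨Y2, hY2⟩ : ∃ Y, Y = ((X \ B).erase p) \ insert t (insert rp R) := ⟨_, rfl⟩
  obtain ⟨f1, f2, f3⟩ := h.y25 h5
  have f4 := h.y25' h5
  have f5 := h.cardXY h.Tsub h.Tc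
  have f6 := h.y2X
  have f7 := h.y2ne
  have hmem : ∀ {w : V}, w ∈ Y2 ↔ w ∈ X \ B ∧ w ≠ p ∧ w ≠ t ∧ w ≠ rp ∧ w ∉ R := by
    intro w
    rw [hY2]
    exact h.mem_y2
  have hrpC : ∀ y ∈ Y2, G.Adj rp y → y ∈ C := by
    obtain ⟨v, hv⟩ : C.Nonempty := Finset.card_pos.1 (by omega)
    have g1 : ¬ ps G k Y2 ≤ 1 := by
      intro g1
      have g2 := h.mc.tau0 (by rw [hY2]; exact f6) (by rw [hY2]; exact f7) g1
      have g3 : Tr G Y2 C := tr_mono (tr_cl (by rw [hY2]; exact hC hv : v ∈ Y2)) (by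
        intro w hw
        rw [mem_inter] at hw
        have g4 := hw.1
        unfold cl at g4
        rw [mem_insert, mem_nb] at g4
        rcases g4 with g4 | g4
        · rw [g4]; exact hv
        · exact hiso v hv w (by rw [← hY2]; exact g4.1) g4.2)
      have g4 := g2 C (by rw [hY2]; exact hC) g3
      omega
    rw [← hY2] at f3
    have g2 : (nb G ((X \ B).erase p) rp \ insert t (insert rp R)).card + 2 ≤ k := by
      have : ((nb G ((X \ B).erase p) rp \ insert t (insert rp R)).card : ℤ) + 2 ≤ k := by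
        push Not at g1
        have : (2 : ℤ) ≤ ps G k Y2 := by
          obtain ⟨m, hm⟩ := ps_even (G := G) k Y2
          omega
        linarith
      exact_mod_cast this
    have g3 : R' ⊆ nb G ((X \ B).erase p) rp \ insert t (insert rp R) := by
      intro w hw
      have g4 := hC (hR' hw)
      rw [mem_sdiff] at g4
      exact mem_sdiff.2 ⟨mem_nb.2 ⟨g4.1, hR'a w hw⟩, g4.2⟩
    have g4 := Finset.eq_of_subset_of_card_le g3 (by omega)
    intro y hy hry
    apply hR'
    rw [g4, mem_sdiff, mem_nb]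
    rw [hY2, mem_sdiff] at hy
    exact ⟨⟨hy.1, hry⟩, hy.2⟩
  rw [← hY2] at hC hiso hab f1 f4 f5 f6 f7
  have hY2H : Y2 ⊆ (X \ B).erase p := by rw [hY2]; exact Finset.sdiff_subset
  have hRY : Disjoint R Y2 := by
    rw [Finset.disjoint_left]
    exact fun w hw hw' => (hmem.1 hw').2.2.2.2 hw
  have htY : t ∉ Y2 := fun e => (hmem.1 e).2.2.1 rfl
  refine h.mc.p1x hpX f6 f7 f4 f1 hC hCq hCc hiso f5 ?_
  intro J hJX hJd hJi
  obtain ⟨S, hS1, hS2, hS3⟩ := smallS (Y := Y2) (S0 := {g, rt}) hJi h.hRq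
    (fun w hw => h.nbR hY2H htY hRY hw)
  refine ⟨S, ?_, ?_⟩
  · have := Finset.card_le_two (a := g) (b := rt)
    omega
  · intro x hx y hy hxy
    have hy' := mem_sdiff.1 hy
    have hyQ := hmem.1 hy'.1
    by_cases hxB : x ∈ B
    · by_cases hxa : x = a
      · exact hS2 (by rw [hab y hy'.1 hy'.2 (Or.inl (hxa ▸ hxy))]; exact mem_insert_self _ _)
      by_cases hxb : x = b
      · exact hS2 (by rw [hab y hy'.1 hy'.2 (Or.inr (hxb ▸ hxy))]; exact mem_insert_self _ _)
      exfalso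
      have g1 : y ∈ nb G (X \ B) x := mem_nb.2 ⟨hyQ.1, hxy⟩
      rcases h.hpar x hxB hxa hxb with g2 | g2
      · rw [g2, mem_singleton] at g1
        exact hyQ.2.1 g1
      · rw [g2, mem_singleton] at g1
        exact hyQ.2.2.1 g1
    have hxQ : x ∈ X \ B := mem_sdiff.2 ⟨hJX hx, hxB⟩
    by_cases hxp : x = p
    · exfalso
      have g1 : y ∈ nb G (X \ B) p := mem_nb.2 ⟨hyQ.1, hxp ▸ hxy⟩
      rw [h.xp.hN, mem_insert] at g1
      rcases g1 with g1 | g1
      · exact hyQ.2.2.2.1 g1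
      · exact hyQ.2.2.2.2 g1
    by_cases hxt : x = t
    · have g1 : y ∈ nb G (X \ B) t := mem_nb.2 ⟨hyQ.1, hxt ▸ hxy⟩
      rw [h.xt.hN, mem_insert] at g1
      rcases g1 with g1 | g1
      · exact hS2 (by rw [g1]; simp)
      · exact absurd g1 hyQ.2.2.2.2
    by_cases hxr : x = rp
    · exact absurd (hrpC y hy'.1 (hxr ▸ hxy)) hy'.2
    by_cases hxR : x ∈ R
    · exact hS3 x hx hxR (mem_nb.2 ⟨hy'.1, hxy⟩)
    · exfalso
      have hxY : x ∈ Y2 := hmem.2 ⟨hxQ, hxp, hxt, hxr, hxR⟩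
      by_cases hxC : x ∈ C
      · exact hy'.2 (hiso x hxC y hy'.1 hxy)
      · exact (Finset.disjoint_left.1 hJd) hx (mem_sdiff.2 ⟨hxY, hxC⟩)

/-- the transversal `N' ∖ p` if `a` is adjacent to `p` -/
theorem starN5 (h1 : G.Adj a p) :
    ∃ r1, StarT G k ((X \ B).erase p) ((nb G (X \ B) a ∪ nb G (X \ B) b).erase p) r1 := by
  have hm : p ∈ nb G (X \ B) a ∪ nb G (X \ B) b := mem_union_left _ (mem_nb.2 ⟨h.pQ, h1⟩)
  refine h.mc.star8g h.hpX h.hpne (by rw [h.xp.hps]; norm_num) h.tau ?_ ?_ h.trab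
    (Or.inl (by rw [h.xp.hps]; norm_num))
  · exact Finset.erase_subset_erase _ (Finset.union_subset (nb_sub _ _) (nb_sub _ _))
  · rw [Finset.card_erase_of_mem hm, h.cardN]
    omega

theorem x15 (h5 : 5 ≤ k) (hpX : ps G k X = -2) (h1 : G.Adj a p)
    (h2 : G.Adj a t ∨ G.Adj b t) : False := by
  have hk := h.mc.hk
  have hRc := h.hRc
  obtain ⟨T1, hT1⟩ : ∃ T, T = (nb G (X \ B) a ∪ nb G (X \ B) b).erase p := ⟨_, rfl⟩
  obtain ⟨r1, hS⟩ := h.starN5 h1
  rw [← hT1] at hS
  have htr := h.trab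
  rw [← hT1] at htr
  have htT : t ∈ T1 := by
    rw [hT1, mem_erase, mem_union]
    refine ⟨h.hpt.symm, ?_⟩
    rcases h2 with h2 | h2
    · exact Or.inl (mem_nb.2 ⟨h.tQ, h2⟩)
    · exact Or.inr (mem_nb.2 ⟨h.tQ, h2⟩)
  have hsubN : ∀ w ∈ T1, w ∈ nb G (X \ B) a ∪ nb G (X \ B) b := by
    intro w hw
    rw [hT1, mem_erase] at hw
    exact hw.2
  have hTc := hS.hc
  have hfew : ∀ S : Finset V, S ⊆ R → S ⊆ T1 → 2 ≤ S.card → False := by
    intro S hSR hST hSc
    refine h.xs5 h1 h2 (le_trans hSc (Finset.card_le_card ?_))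
    intro w hw
    rw [mem_filter]
    exact ⟨hSR hw, hsubN w (hST hw)⟩
  by_cases e : t = r1
  · -- the centre is `t`
    rw [← e] at hS
    obtain ⟨R1, hR1⟩ : ∃ R, R = T1.erase t := ⟨_, rfl⟩
    have hq := hS.clq
    rw [← hR1] at hq
    have hR1sub : R1 ⊆ (X \ B).erase p := by
      rw [hR1]
      exact (Finset.erase_subset _ _).trans hS.hT
    have hR1c : R1.card + 1 = k := by
      rw [hR1, Finset.card_erase_add_one htT, hTc]
    have htR1 : t ∉ R1 := by rw [hR1]; exact Finset.notMem_erase _ _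
    have hR1T : R1 ⊆ T1 := by rw [hR1]; exact Finset.erase_subset _ _
    have hno : ∀ w ∈ R1, w ∉ R := by
      intro w hw hwR
      have h3 := h.meet hR1sub hR1c hq htR1 hw hwR
      exact hfew R (Finset.Subset.refl _) (h3.trans hR1T) (by omega)
    -- `t` misses at least two vertices of `R1`
    have hq2 : 2 ≤ (nb Gᶜ T1 t).card := by
      have h3 : R1.erase rt ⊆ nb Gᶜ T1 t := by
        intro w hw
        rw [mem_erase] at hw
        refine mem_nb.2 ⟨hR1T hw.2, (SimpleGraph.compl_adj _ _ _).2 ⟨?_, ?_⟩⟩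
        · exact fun e' => htR1 (e' ▸ hw.2)
        · intro hadj
          have h4 : w ∈ nb G (X \ B) t := mem_nb.2 ⟨(mem_erase.1 (hR1sub hw.2)).2, hadj⟩
          rw [h.xt.hN, mem_insert] at h4
          rcases h4 with h4 | h4
          · exact hw.1 h4
          · exact hno w hw.2 h4
      have h4 := Finset.card_le_card h3
      have h5' := Finset.pred_card_le_card_erase (s := R1) (a := rt)
      omega
    have hd1 := h.mc.star0 h.hpX h.hpne (by rw [h.xp.hps]; norm_num) hS hq2
    rw [← hR1] at hd1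
    obtain ⟨Y1, hY1⟩ : ∃ Y, Y = ((X \ B).erase p) \ T1 := ⟨_, rfl⟩
    have hY1H : Y1 ⊆ (X \ B).erase p := by rw [hY1]; exact Finset.sdiff_subset
    have hRT : ∀ w ∈ R, w ∉ T1 := by
      intro w hw hwT
      have : w ∈ R1 := by rw [hR1]; exact mem_erase.2 ⟨fun e' => h.tR (e' ▸ hw), hwT⟩
      exact hno w this hw
    have hRY : R ⊆ Y1 := by
      intro w hw
      rw [hY1, mem_sdiff]
      exact ⟨h.tRX (mem_insert_of_mem hw), hRT w hw⟩
    have hal1 : al G Y1 + 2 = al G X := by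
      have h3 := hS.alT
      have h4 := h.xp.hal
      rw [← hY1] at h3
      omega
    have hps1 : ps G k Y1 ≤ 2 := by
      have h3 := hS.psT
      rw [h.xp.hps, ← hY1] at h3
      have h4 : R ⊆ nb G ((X \ B).erase p) t \ T1 := by
        intro w hw
        exact mem_sdiff.2 ⟨mem_nb.2 ⟨h.tRX (mem_insert_of_mem hw), h.tw hw⟩, hRT w hw⟩
      have h6 := Finset.card_le_card h4
      have h7 : (k : ℤ) ≤ (nb G ((X \ B).erase p) t \ T1).card + 2 := by
        have : k ≤ (nb G ((X \ B).erase p) t \ T1).card + 2 := by omega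
        exact_mod_cast this
      have h8 := Int.natCast_nonneg (exs G (k - 1) ((X \ B).erase p) (T1.erase t))
      linarith
    have hY1X : Y1 ⊆ X := hY1H.trans h.hpX
    have hY1ne : Y1 ≠ X := by
      intro e'
      have h3 := h.hB h.ha
      rw [← e'] at h3
      exact (mem_sdiff.1 (mem_erase.1 (hY1H h3)).2).2 h.ha
    have htY : t ∉ Y1 := by
      rw [hY1, mem_sdiff]
      exact fun e' => e'.2 htT
    obtain ⟨w, hw⟩ : R.Nonempty := Finset.card_pos.1 (by omega)
    have hwd : (nb G Y1 w).card + 2 ≤ k := by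
      have h3 : insert t (nb G Y1 w) ⊆ nb G ((X \ B).erase p) w := by
        refine Finset.insert_subset ?_ (nb_mono hY1H w)
        exact mem_nb.2 ⟨mem_erase.2 ⟨h.hpt.symm, h.tQ⟩, (h.tw hw).symm⟩
      have h4 := Finset.card_le_card h3
      rw [Finset.card_insert_of_notMem (fun e' => htY (mem_nb.1 e').1)] at h4
      have h6 := h.xp.dR w (mem_insert_of_mem hw)
      omega
    obtain ⟨c1, c2, c3⟩ := h.mc.isol hY1X hY1ne hps1 (hRY hw) hwd
    obtain ⟨C, hC⟩ : ∃ C, C = cl G Y1 w := ⟨_, rfl⟩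
    rw [← hC] at c1 c2 c3
    have hCY : C ⊆ Y1 := by rw [hC]; exact cl_sub (hRY hw)
    have hRC : R ⊆ C := by
      intro u hu
      rw [hC]
      unfold cl
      rw [mem_insert]
      by_cases e' : u = w
      · exact Or.inl e'
      · exact Or.inr (mem_nb.2 ⟨hRY hu, h.hRq w hw u hu (Ne.symm e')⟩)
    have hnbR1 : ∀ u ∈ R1, (nb G Y1 u).card ≤ 1 := by
      intro u hu
      have h3 : R1.erase u ∪ nb G Y1 u ⊆ nb G ((X \ B).erase p) u := by
        refine Finset.union_subset ?_ (nb_mono hY1H u)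
        intro v hv
        rw [mem_erase] at hv
        exact mem_nb.2 ⟨hR1sub hv.2, hq u hu v hv.2 (Ne.symm hv.1)⟩
      have h4 := Finset.card_le_card h3
      rw [Finset.card_union_of_disjoint, Finset.card_erase_of_mem hu] at h4
      · have h6 := hd1 u hu
        omega
      · rw [Finset.disjoint_left]
        intro v hv hv'
        have h6 := (mem_nb.1 hv').1
        rw [hY1, mem_sdiff] at h6
        exact h6.2 (hR1T (mem_erase.1 hv).2)
    refine h.mc.p1x hpX hY1X hY1ne hps1 hal1 hCY c1 c2 c3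
      (by rw [hY1]; exact h.cardXY hS.hT hS.hc) ?_
    intro J hJX hJd hJi
    obtain ⟨S, hS1, hS2, hS3⟩ := smallS (Y := Y1) (S0 := {rp, rt}) hJi hq hnbR1
    refine ⟨S, ?_, ?_⟩
    · have := Finset.card_le_two (a := rp) (b := rt)
      omega
    · intro x hx y hy hxy
      have hy' := mem_sdiff.1 hy
      have hyH := mem_erase.1 (hY1H hy'.1)
      have hyT : y ∉ T1 := by
        have h3 := hy'.1
        rw [hY1, mem_sdiff] at h3
        exact h3.2
      have hyt : y ≠ t := fun e' => hyT (e' ▸ htT)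
      by_cases hxB : x ∈ B
      · exfalso
        have hyab : ¬ (y ∈ nb G (X \ B) a ∪ nb G (X \ B) b) := by
          intro h3
          exact hyT (by rw [hT1]; exact mem_erase.2 ⟨hyH.1, h3⟩)
        by_cases hxa : x = a
        · exact hyab (mem_union_left _ (mem_nb.2 ⟨hyH.2, hxa ▸ hxy⟩))
        by_cases hxb : x = b
        · exact hyab (mem_union_right _ (mem_nb.2 ⟨hyH.2, hxb ▸ hxy⟩))
        have g1 : y ∈ nb G (X \ B) x := mem_nb.2 ⟨hyH.2, hxy⟩
        rcases h.hpar x hxB hxa hxb with g2 | g2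
        · rw [g2, mem_singleton] at g1
          exact hyH.1 g1
        · rw [g2, mem_singleton] at g1
          exact hyt g1
      have hxQ : x ∈ X \ B := mem_sdiff.2 ⟨hJX hx, hxB⟩
      by_cases hxp : x = p
      · have g1 : y ∈ nb G (X \ B) p := mem_nb.2 ⟨hyH.2, hxp ▸ hxy⟩
        rw [h.xp.hN, mem_insert] at g1
        rcases g1 with g1 | g1
        · exact hS2 (by rw [g1]; exact mem_insert_self _ _)
        · exact absurd (hRC g1) hy'.2
      by_cases hxt : x = t
      · have g1 : y ∈ nb G (X \ B) t := mem_nb.2 ⟨hyH.2, hxt ▸ hxy⟩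
        rw [h.xt.hN, mem_insert] at g1
        rcases g1 with g1 | g1
        · exact hS2 (by rw [g1]; simp)
        · exact absurd (hRC g1) hy'.2
      by_cases hxT : x ∈ T1
      · have hxR : x ∈ R1 := by rw [hR1]; exact mem_erase.2 ⟨hxt, hxT⟩
        exact hS3 x hx hxR (mem_nb.2 ⟨hy'.1, hxy⟩)
      · exfalso
        have hxY : x ∈ Y1 := by
          rw [hY1, mem_sdiff]
          exact ⟨mem_erase.2 ⟨hxp, hxQ⟩, hxT⟩
        by_cases hxC : x ∈ C
        · exact hy'.2 (c3 x hxC y hy'.1 hxy)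
        · exact (Finset.disjoint_left.1 hJd) hx (mem_sdiff.2 ⟨hxY, hxC⟩)
  · -- the centre is another vertex
    obtain ⟨S, hSd⟩ : ∃ S, S = ((T1.erase r1).erase t).erase rt := ⟨_, rfl⟩
    have htS : t ∈ T1.erase r1 := mem_erase.2 ⟨e, htT⟩
    have hSc : k ≤ S.card + 3 := by
      have h3 : ((T1.erase r1).erase t).card + 1 = (T1.erase r1).card :=
        Finset.card_erase_add_one htS
      have h4 : (T1.erase r1).card + 1 = T1.card := Finset.card_erase_add_one hS.hr
      have h6 := Finset.pred_card_le_card_erase (s := (T1.erase r1).erase t) (a := rt)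
      rw [← hSd] at h6
      omega
    refine hfew S ?_ ?_ (by omega)
    · intro w hw
      rw [hSd, mem_erase, mem_erase] at hw
      have h3 : w ∈ nb G (X \ B) t := by
        refine mem_nb.2 ⟨?_, hS.clq t htS w hw.2.2 (Ne.symm hw.2.1)⟩
        exact (mem_erase.1 (hS.hT (mem_erase.1 hw.2.2).2)).2
      rw [h.xt.hN, mem_insert] at h3
      exact h3.resolve_left hw.1
    · intro w hw
      rw [hSd, mem_erase, mem_erase, mem_erase] at hw
      exact hw.2.2.2

end XC

end Pool.Agent.TwoDens.TS
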