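import Pool.Agent.TKS.XI

/-!
Case II with one vertex missing for all `k ≥ 5`: the exchange and the case of two disjoint cliques.
-/

open Finset

namespace Pool.Agent.TwoDens.TS

open Pool.Agent.TwoDens Pool.Agent.TwoDens.RK Pool.Agent.TwoDens.DD

variable {V : Type*} [DecidableEq V] {G : SimpleGraph V} [DecidableRel G.Adj]

namespace XC
variable {k : ℕ} {X B R : Finset V} {a b p t rp rt : V} (h : XC G k X B a b p t R rp rt)
include h

/-- the exchange with `β, b, p, t` -/
theorem exch (h5 : 5 ≤ k) (nbp : ¬ G.Adj b p) (nbt : ¬ G.Adj b t) {β : V} {E : Finset V}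
    (hβ : β ∈ ((X \ B).erase p) \ insert t (insert rp R)) (hβr : β ≠ rt)
    (hβb : ¬ G.Adj b β) (hrE : rt ∈ E)
    (hE : ∀ y ∈ ((X \ B).erase p) \ insert t (insert rp R), G.Adj b y →
      y ∈ E ∨ y = β ∨ G.Adj β y)
    (hd : (nb G ((X \ B).erase p) β).card + E.card + 3 ≤ 2 * k) : False := by
  have hpQ := mem_sdiff.1 h.pQ
  have htQ := mem_sdiff.1 h.tQ
  have hbX := h.hB h.hb
  have hbp : b ≠ p := fun e => hpQ.2 (e ▸ h.hb)
  have hbt : b ≠ t := fun e => htQ.2 (e ▸ h.hb)
  obtain ⟨Y2, hY2⟩ : ∃ Y, Y = ((X \ B).erase p) \ insert t (insert rp R) := ⟨_, rfl⟩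
  have hY2X : Y2 ⊆ X := by rw [hY2]; exact h.y2X
  have hY2ne : Y2 ≠ X := by rw [hY2]; exact h.y2ne
  have hps2 := h.y25' h5
  have hal2 := (h.y25 h5).1
  have hmem : ∀ {w : V}, w ∈ Y2 ↔ w ∈ X \ B ∧ w ≠ p ∧ w ≠ t ∧ w ≠ rp ∧ w ∉ R := by
    intro w
    rw [hY2]
    exact h.mem_y2
  rw [← hY2] at hβ hE hps2 hal2
  have hpY : ∀ y ∈ Y2, ¬ G.Adj p y := by
    intro y hy hpy
    have h8 := hmem.1 hy
    have h9 : y ∈ nb G (X \ B) p := mem_nb.2 ⟨h8.1, hpy⟩
    rw [h.xp.hN, mem_insert] at h9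
    rcases h9 with h9 | h9
    · exact h8.2.2.2.1 h9
    · exact h8.2.2.2.2 h9
  have htY : ∀ y ∈ Y2, G.Adj t y → y = rt := by
    intro y hy hpy
    have h8 := hmem.1 hy
    have h9 : y ∈ nb G (X \ B) t := mem_nb.2 ⟨h8.1, hpy⟩
    rw [h.xt.hN, mem_insert] at h9
    rcases h9 with h9 | h9
    · exact h9
    · exact absurd h9 h8.2.2.2.2
  have hβQ := hmem.1 hβ
  have hβb' : β ≠ b := fun e => (mem_sdiff.1 hβQ.1).2 (e ▸ h.hb)
  obtain ⟨S, hS⟩ : ∃ S, S = (E ∪ cl G Y2 β) ∩ Y2 := ⟨_, rfl⟩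
  have hSY : S ⊆ Y2 := by rw [hS]; exact Finset.inter_subset_right
  have hβcl : β ∈ cl G Y2 β := mem_insert_self _ _
  have hJi : G.IsIndepSet (({β, b, p, t} : Finset V) : Set V) := by
    refine indep_insert (indep_triple nbp nbt h.npt) ?_
    intro x hx
    rw [mem_insert, mem_insert, mem_singleton] at hx
    rcases hx with rfl | rfl | rfl
    · exact fun e => hβb e.symm
    · exact fun e => hpY β hβ e.symm
    · exact fun e => hβr (htY β hβ e.symm)
  have hJc : ({β, b, p, t} : Finset V).card = 4 := by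
    rw [Finset.card_insert_of_notMem (by simp [hβb', hβQ.2.1, hβQ.2.2.1]),
      Finset.card_insert_of_notMem (by simp [hbp, hbt]), Finset.card_pair h.hpt]
  have hdrop : al G (Y2 \ S) + 2 ≤ al G Y2 := by
    obtain ⟨I, hI, hi', hc⟩ := exists_al (G := G) (Y2 \ S)
    have hIY : I ⊆ Y2 := hI.trans Finset.sdiff_subset
    have h6 := h.y25ext h5 (I := I) (J := {β, b, p, t}) (by rw [← hY2]; exact hIY) hi' hJi
      ?_ ?_ ?_
    · rw [hJc, ← hY2] at h6
      omega
    · intro z hz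
      rw [mem_insert, mem_insert, mem_insert, mem_singleton] at hz
      rcases hz with rfl | rfl | rfl | rfl
      · exact hY2X hβ
      · exact hbX
      · exact hpQ.1
      · exact htQ.1
    · rw [Finset.disjoint_left]
      intro z hz hz'
      have h6 := hIY hz'
      have h7 := (mem_sdiff.1 (hI hz')).2
      rw [hmem, mem_sdiff] at h6
      rw [mem_insert, mem_insert, mem_insert, mem_singleton] at hz
      rcases hz with rfl | rfl | rfl | rfl
      · exact h7 (by rw [hS, mem_inter]; exact ⟨mem_union_right _ hβcl, hβ⟩)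
      · exact h6.1.2 h.hb
      · exact h6.2.1 rfl
      · exact h6.2.2.1 rfl
    · intro x hx y hy hxy
      have h6 := hIY hy
      have h7 := (mem_sdiff.1 (hI hy)).2
      rw [hS, mem_inter, mem_union] at h7
      have hcl : ∀ z, (z = β ∨ G.Adj β z) → z ∈ Y2 → z ∈ cl G Y2 β := by
        rintro z (rfl | hz) hzY
        · exact mem_insert_self _ _
        · exact mem_insert_of_mem (mem_nb.2 ⟨hzY, hz⟩)
      rw [mem_insert, mem_insert, mem_insert, mem_singleton] at hx
      rcases hx with rfl | rfl | rfl | rfl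
      · exact h7 ⟨Or.inr (hcl y (Or.inr hxy) h6), h6⟩
      · rcases hE y h6 hxy with h8 | h8
        · exact h7 ⟨Or.inl h8, h6⟩
        · exact h7 ⟨Or.inr (hcl y h8 h6), h6⟩
      · exact hpY y h6 hxy
      · exact h7 ⟨Or.inl (by rw [htY y h6 hxy]; exact hrE), h6⟩
  have h6 := h.mc.drop2 hY2X hY2ne hps2 hSY hdrop
  have h7 : S.card ≤ (E ∪ cl G Y2 β).card := by
    rw [hS]
    exact Finset.card_le_card Finset.inter_subset_left
  have h8 := Finset.card_union_le E (cl G Y2 β)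
  have h10 := card_cl (G := G) (X := Y2) (v := β)
  have h11 : (nb G Y2 β).card ≤ (nb G ((X \ B).erase p) β).card := by
    refine Finset.card_le_card (nb_mono ?_ β)
    intro w hw
    have := hmem.1 hw
    exact mem_erase.2 ⟨this.2.1, this.1⟩
  omega

/-- a vertex of degree `k - 1` adjacent to `rp` and complete to the rest of a clique -/
theorem viaC (h5 : 5 ≤ k) (hpX : ps G k X = -2) {R' : Finset V} {w g : V}
    (hw : w ∈ ((X \ B).erase p) \ insert t (insert rp R)) (hwr : G.Adj rp w)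
    (hwd : (nb G ((X \ B).erase p) w).card + 1 = k) (hR'c : R'.card + 2 = k)
    (hR'Y : R' ⊆ ((X \ B).erase p) \ insert t (insert rp R))
    (hR'a : ∀ u ∈ R', G.Adj rp u) (hR'w : ∀ u ∈ R', u = w ∨ G.Adj w u)
    (hab : ∀ y ∈ ((X \ B).erase p) \ insert t (insert rp R), (G.Adj a y ∨ G.Adj b y) →
      y = g ∨ y = w ∨ G.Adj w y) : False := by
  have hrpH : rp ∈ (X \ B).erase p := mem_erase.2 ⟨h.prp.symm, h.rpQ⟩
  have hrpY : rp ∉ ((X \ B).erase p) \ insert t (insert rp R) := by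
    rw [h.mem_y2]
    exact fun e => e.2.2.2.1 rfl
  have h1 : (nb G (((X \ B).erase p) \ insert t (insert rp R)) w).card + 2 ≤ k := by
    have h4 : insert rp (nb G (((X \ B).erase p) \ insert t (insert rp R)) w) ⊆
        nb G ((X \ B).erase p) w := by
      refine Finset.insert_subset (mem_nb.2 ⟨hrpH, hwr.symm⟩) (nb_mono Finset.sdiff_subset w)
    have h6 := Finset.card_le_card h4
    rw [Finset.card_insert_of_notMem (fun e => hrpY (mem_nb.1 e).1)] at h6
    omega
  obtain ⟨c1, c2, c3⟩ := h.mc.isol h.y2X h.y2ne (h.y25' h5) hw h1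
  refine h.reach h5 hpX (C := cl G (((X \ B).erase p) \ insert t (insert rp R)) w) (R' := R')
    (g := g) (cl_sub hw) c1 c2 c3 ?_ hR'c hR'a ?_
  · intro u hu
    rcases hR'w u hu with e | e
    · rw [e]; exact mem_insert_self _ _
    · exact mem_insert_of_mem (mem_nb.2 ⟨hR'Y hu, e⟩)
  · intro y hy hyC hyab
    rcases hab y hy hyab with e | e | e
    · exact e
    · exact absurd (by rw [e]; exact mem_insert_self _ _) hyC
    · exact absurd (mem_insert_of_mem (mem_nb.2 ⟨hy, e⟩)) hyC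

end XC

end Pool.Agent.TwoDens.TS
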