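import Pool.Agent.TKS.XJ

/-!
Case II with one vertex missing for all `k ≥ 5`: the contradiction.
-/

open Finset

namespace Pool.Agent.TwoDens.TS

open Pool.Agent.TwoDens Pool.Agent.TwoDens.RK Pool.Agent.TwoDens.DD

variable {V : Type*} [DecidableEq V] {G : SimpleGraph V} [DecidableRel G.Adj]

namespace XC
variable {k : ℕ} {X B R : Finset V} {a b p t rp rt : V} (h : XC G k X B a b p t R rp rt)
include h

/-- the transversal is a clique minus the edge `r l` and contains `rp` -/
theorem viaT (h5 : 5 ≤ k) (hpX : ps G k X = -2) {M : Finset V} {r l w : V}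
    (hMc : M.card + 2 = k) (hrM : r ∉ M) (hMq : Clq G M)
    (hMr : ∀ u ∈ M, G.Adj r u) (hMl : ∀ u ∈ M, G.Adj l u)
    (hTY : ∀ u ∈ insert r (insert l M), u ≠ rp →
      u ∈ ((X \ B).erase p) \ insert t (insert rp R)) (hrl : r ≠ l) (hlM : l ∉ M)
    (hrp : rp ∈ insert r (insert l M)) (hw : w ∈ M) (hwr : w ≠ rp)
    (hwd : (nb G ((X \ B).erase p) w).card + 1 = k)
    (hab : ∀ y ∈ ((X \ B).erase p) \ insert t (insert rp R), (G.Adj a y ∨ G.Adj b y) →
      y ∈ insert r (insert l M)) : False := by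
  have hMT : ∀ u ∈ M, u ∈ insert r (insert l M) :=
    fun u hu => mem_insert_of_mem (mem_insert_of_mem hu)
  have hwY := hTY w (hMT w hw) hwr
  have hrpY : ∀ y ∈ ((X \ B).erase p) \ insert t (insert rp R), y ≠ rp := by
    intro y hy
    exact (h.mem_y2.1 hy).2.2.2.1
  have hwM : ∀ u ∈ M, u = w ∨ G.Adj w u := by
    intro u hu
    by_cases e : u = w
    · exact Or.inl e
    · exact Or.inr (hMq w hw u hu (Ne.symm e))
  have hab' : ∀ y ∈ ((X \ B).erase p) \ insert t (insert rp R), (G.Adj a y ∨ G.Adj b y) →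
      y = w ∨ y = w ∨ G.Adj w y := by
    intro y hy hyab
    have h1 := hab y hy hyab
    rw [mem_insert, mem_insert] at h1
    rcases h1 with e | e | e
    · exact Or.inr (Or.inr (e ▸ (hMr w hw).symm))
    · exact Or.inr (Or.inr (e ▸ (hMl w hw).symm))
    · exact Or.inr (hwM y e)
  rw [mem_insert, mem_insert] at hrp
  rcases hrp with e | e | e
  · refine h.viaC h5 hpX (R' := M) (g := w) hwY (e ▸ hMr w hw) hwd hMc ?_ ?_ hwM hab'
    · intro u hu
      exact hTY u (hMT u hu) (fun e' => hrM (e ▸ e' ▸ hu))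
    · intro u hu
      exact e ▸ hMr u hu
  · refine h.viaC h5 hpX (R' := M) (g := w) hwY (e ▸ hMl w hw) hwd hMc ?_ ?_ hwM hab'
    · intro u hu
      exact hTY u (hMT u hu) (fun e' => hlM (e ▸ e' ▸ hu))
    · intro u hu
      exact e ▸ hMl u hu
  · refine h.viaC h5 hpX (R' := insert r (M.erase rp)) (g := w) hwY (hMq rp e w hw (Ne.symm hwr))
      hwd ?_ ?_ ?_ ?_ hab'
    · rw [Finset.card_insert_of_notMem (fun e' => hrM (mem_erase.1 e').2),
        Finset.card_erase_add_one e]
      exact hMc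
    · intro u hu
      rw [mem_insert, mem_erase] at hu
      rcases hu with hu | hu
      · rw [hu]
        exact hTY r (mem_insert_self _ _) (fun e' => hrM (e' ▸ e))
      · exact hTY u (hMT u hu.2) hu.1
    · intro u hu
      rw [mem_insert, mem_erase] at hu
      rcases hu with hu | hu
      · rw [hu]
        exact (hMr rp e).symm
      · exact hMq rp e u hu.2 (Ne.symm hu.1)
    · intro u hu
      rw [mem_insert, mem_erase] at hu
      rcases hu with hu | hu
      · rw [hu]
        exact Or.inr (hMr w hw).symm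
      · exact hwM u hu.2

/-- vertices outside `R ∪ {rp, rt}` have the same neighbours in `H_p` and in `H_t` -/
theorem nbpt {w : V} (hw : w ∈ X \ B) (hwp : w ≠ p) (hwt : w ≠ t) (hwR : w ∉ R) (h1 : w ≠ rp)
    (h2 : w ≠ rt) : nb G ((X \ B).erase t) w = nb G ((X \ B).erase p) w := by
  ext v
  rw [mem_nb, mem_nb, mem_erase, mem_erase]
  constructor
  · rintro ⟨⟨_, h5⟩, h6⟩
    refine ⟨⟨?_, h5⟩, h6⟩
    intro e
    rw [e] at h6
    have h7 : w ∈ nb G (X \ B) p := mem_nb.2 ⟨hw, h6.symm⟩
    rw [h.xp.hN, mem_insert] at h7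
    rcases h7 with h7 | h7
    · exact h1 h7
    · exact hwR h7
  · rintro ⟨⟨_, h5⟩, h6⟩
    refine ⟨⟨?_, h5⟩, h6⟩
    intro e
    rw [e] at h6
    have h7 : w ∈ nb G (X \ B) t := mem_nb.2 ⟨hw, h6.symm⟩
    rw [h.xt.hN, mem_insert] at h7
    rcases h7 with h7 | h7
    · exact h2 h7
    · exact hwR h7

theorem x25 (h5 : 5 ≤ k) (hpX : ps G k X = -2) (h1 : G.Adj a p) (h2 : ¬ G.Adj a t)
    (h3 : ¬ G.Adj b t) : False := by
  have hk := h.mc.hk
  have hk' : (4 : ℤ) ≤ k := by exact_mod_cast hk
  have hRc := h.hRc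
  have hpQ := mem_sdiff.1 h.pQ
  have htQ := mem_sdiff.1 h.tQ
  have haX := h.hB h.ha
  have hbX := h.hB h.hb
  have hat : a ≠ t := fun e => htQ.2 (e ▸ h.ha)
  have hbp : b ≠ p := fun e => hpQ.2 (e ▸ h.hb)
  have hbt : b ≠ t := fun e => htQ.2 (e ▸ h.hb)
  have hdab : ∀ w ∈ X \ B, G.Adj a w → ¬ G.Adj b w := fun w hw e e' =>
    (Finset.disjoint_left.1 h.hdis) (mem_nb.2 ⟨hw, e⟩) (mem_nb.2 ⟨hw, e'⟩)
  have hnbp : ¬ G.Adj b p := hdab p h.pQ h1
  obtain ⟨Y2, hY2⟩ : ∃ Y, Y = ((X \ B).erase p) \ insert t (insert rp R) := ⟨_, rfl⟩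
  have hY2X : Y2 ⊆ X := by rw [hY2]; exact h.y2X
  have hY2ne : Y2 ≠ X := by rw [hY2]; exact h.y2ne
  have hps2 := h.y25' h5
  have hal2 := (h.y25 h5).1
  rw [← hY2] at hps2 hal2
  have hmem : ∀ {w : V}, w ∈ Y2 ↔ w ∈ X \ B ∧ w ≠ p ∧ w ≠ t ∧ w ≠ rp ∧ w ∉ R := by
    intro w
    rw [hY2]
    exact h.mem_y2
  have htau2 := h.mc.tau1 hY2X hY2ne (by linarith)
  have hpY : ∀ y ∈ Y2, ¬ G.Adj p y := by
    intro y hy hpy
    have h8 := hmem.1 hy
    have h9 : y ∈ nb G (X \ B) p := mem_nb.2 ⟨h8.1, hpy⟩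
    rw [h.xp.hN, mem_insert] at h9
    rcases h9 with h9 | h9
    · exact h8.2.2.2.1 h9
    · exact h8.2.2.2.2 h9
  have htY : ∀ y ∈ Y2, G.Adj t y → y = rt := by
    intro y hy hpy
    have h8 := hmem.1 hy
    have h9 : y ∈ nb G (X \ B) t := mem_nb.2 ⟨h8.1, hpy⟩
    rw [h.xt.hN, mem_insert] at h9
    rcases h9 with h9 | h9
    · exact h9
    · exact absurd h9 h8.2.2.2.2
  -- (i)
  have hi : (nb G Y2 a ∪ nb G Y2 b).card + 2 ≥ k := by
    have htr : Tr G Y2 (insert rt (nb G Y2 a ∪ nb G Y2 b)) := by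
      refine tr_nbr (X := X) (J := {a, b, t}) hY2X ?_ ?_ (indep_triple h.nab h2 h3) ?_ ?_
      · intro z hz
        rw [mem_insert, mem_insert, mem_singleton] at hz
        rcases hz with rfl | rfl | rfl
        · exact haX
        · exact hbX
        · exact htQ.1
      · rw [Finset.disjoint_left]
        intro z hz hz'
        have h6 := hmem.1 hz'
        rw [mem_sdiff] at h6
        rw [mem_insert, mem_insert, mem_singleton] at hz
        rcases hz with rfl | rfl | rfl
        · exact h6.1.2 h.ha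
        · exact h6.1.2 h.hb
        · exact h6.2.2.1 rfl
      · rw [Finset.card_insert_of_notMem (by simp [h.hab, hat]), Finset.card_pair hbt]
        omega
      · intro z hz w hw hzw
        rw [mem_insert, mem_insert, mem_singleton] at hz
        rw [mem_insert, mem_union]
        rcases hz with rfl | rfl | rfl
        · exact Or.inr (Or.inl (mem_nb.2 ⟨hw, hzw⟩))
        · exact Or.inr (Or.inr (mem_nb.2 ⟨hw, hzw⟩))
        · exact Or.inl (htY w hw hzw)
    have htr' := tr_mono htr (Finset.Subset.refl _)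
    have h6 := htau2 _ Finset.inter_subset_right htr'
    have h7 : (insert rt (nb G Y2 a ∪ nb G Y2 b) ∩ Y2).card ≤
        (insert rt (nb G Y2 a ∪ nb G Y2 b)).card := Finset.card_le_card Finset.inter_subset_left
    have h8 := Finset.card_insert_le rt (nb G Y2 a ∪ nb G Y2 b)
    omega
  -- (ii)
  have hii : k ≤ (nb G Y2 b).card + 2 := by
    have htr : Tr G Y2 (insert rt (nb G Y2 b)) := by
      refine tr_nbr (X := X) (J := {b, p, t}) hY2X ?_ ?_ (indep_triple hnbp h3 h.npt) ?_ ?_
      · intro z hz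
        rw [mem_insert, mem_insert, mem_singleton] at hz
        rcases hz with rfl | rfl | rfl
        · exact hbX
        · exact hpQ.1
        · exact htQ.1
      · rw [Finset.disjoint_left]
        intro z hz hz'
        have h6 := hmem.1 hz'
        rw [mem_sdiff] at h6
        rw [mem_insert, mem_insert, mem_singleton] at hz
        rcases hz with rfl | rfl | rfl
        · exact h6.1.2 h.hb
        · exact h6.2.1 rfl
        · exact h6.2.2.1 rfl
      · rw [Finset.card_insert_of_notMem (by simp [hbp, hbt]), Finset.card_pair h.hpt]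
        omega
      · intro z hz w hw hzw
        rw [mem_insert, mem_insert, mem_singleton] at hz
        rw [mem_insert]
        rcases hz with rfl | rfl | rfl
        · exact Or.inr (mem_nb.2 ⟨hw, hzw⟩)
        · exact absurd hzw (hpY w hw)
        · exact Or.inl (htY w hw hzw)
    have htr' := tr_mono htr (Finset.Subset.refl _)
    have h6 := htau2 _ Finset.inter_subset_right htr'
    have h7 : (insert rt (nb G Y2 b) ∩ Y2).card ≤
        (insert rt (nb G Y2 b)).card := Finset.card_le_card Finset.inter_subset_left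
    have h8 := Finset.card_insert_le rt (nb G Y2 b)
    omega
  have hnbY : (nb G Y2 b).card ≤ (nb G (X \ B) b).card := by
    refine Finset.card_le_card (nb_mono ?_ b)
    intro w hw
    exact (hmem.1 hw).1
  have hg := h.hg
  -- the transversal `T1 = N' ∖ p`
  obtain ⟨T1, hT1⟩ : ∃ T, T = (nb G (X \ B) a ∪ nb G (X \ B) b).erase p := ⟨_, rfl⟩
  obtain ⟨r1, hS⟩ := h.starN5 h1
  rw [← hT1] at hS
  have hTc := hS.hc
  obtain ⟨R1, hR1⟩ : ∃ R, R = T1.erase r1 := ⟨_, rfl⟩
  have hq := hS.clq
  rw [← hR1] at hq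
  have hT1Q : ∀ w ∈ T1, w ∈ (X \ B).erase p := fun w hw => hS.hT hw
  have hR1T : R1 ⊆ T1 := by rw [hR1]; exact Finset.erase_subset _ _
  have hR1sub : R1 ⊆ (X \ B).erase p := hR1T.trans hS.hT
  have hR1c : R1.card + 1 = k := by
    rw [hR1, Finset.card_erase_add_one hS.hr, hTc]
  have hT1ab : ∀ w ∈ T1, G.Adj a w ∨ G.Adj b w := by
    intro w hw
    rw [hT1, mem_erase, mem_union] at hw
    rcases hw.2 with e | e
    · exact Or.inl (mem_nb.1 e).2
    · exact Or.inr (mem_nb.1 e).2
  have hT1conv : ∀ y ∈ X \ B, y ≠ p → G.Adj a y ∨ G.Adj b y → y ∈ T1 := by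
    intro y hy hyp hyab
    rw [hT1, mem_erase, mem_union, mem_nb, mem_nb]
    refine ⟨hyp, ?_⟩
    rcases hyab with e | e
    · exact Or.inl ⟨hy, e⟩
    · exact Or.inr ⟨hy, e⟩
  have htT1 : t ∉ T1 := by
    intro e
    rcases hT1ab t e with e | e
    · exact h2 e
    · exact h3 e
  have hr1 : r1 ∉ R1 := by rw [hR1]; exact Finset.notMem_erase _ _
  -- cliques in `T1` do not meet `R`
  have hno : ∀ D ⊆ T1, D.card + 1 = k → Clq G D → ∀ w ∈ D, w ∉ R := by
    intro D hD hDc hDq w hw hwR
    have h4 := h.meet (hD.trans hS.hT) hDc hDq (fun e => htT1 (hD e)) hw hwR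
    have h6' : (nb G Y2 a ∪ nb G Y2 b) ⊆ T1 \ R := by
      intro v hv
      rw [mem_union, mem_nb, mem_nb] at hv
      have h6 : v ∈ Y2 := by
        rcases hv with hv | hv
        · exact hv.1
        · exact hv.1
      have h7 := hmem.1 h6
      rw [mem_sdiff]
      refine ⟨hT1conv v h7.1 h7.2.1 ?_, h7.2.2.2.2⟩
      rcases hv with hv | hv
      · exact Or.inl hv.2
      · exact Or.inr hv.2
    have h6 := Finset.card_le_card h6'
    rw [Finset.card_sdiff_of_subset (h4.trans hD)] at h6
    omega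
  have hno1 := hno R1 hR1T hR1c hq
  have hr1b : r1 ≠ b := by
    intro e
    have h4 := hS.hT hS.hr
    rw [mem_erase, mem_sdiff] at h4
    exact h4.2.2 (e ▸ h.hb)
  have hbR1' : b ∉ R1 := by
    intro e
    have h4 := hR1sub e
    rw [mem_erase, mem_sdiff] at h4
    exact h4.2.2 h.hb
  -- no clique with `k` vertices containing `b`
  have hbclq : ∀ D ⊆ T1, D.card + 1 = k → Clq G D → ∃ β ∈ D, G.Adj a β := by
    intro D hD hDc hDq
    by_contra hcon
    push Not at hcon
    have hbD : b ∉ D := by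
      intro e
      have h4 := hT1Q b (hD e)
      rw [mem_erase, mem_sdiff] at h4
      exact h4.2.2 h.hb
    have h4 : Clq G (insert b D) := by
      have h6 : ∀ w ∈ D, G.Adj b w := fun w hw =>
        (hT1ab w (hD hw)).resolve_left (hcon w hw)
      intro x hx y hy hxy
      rw [mem_insert] at hx hy
      rcases hx with rfl | hx <;> rcases hy with rfl | hy
      · exact absurd rfl hxy
      · exact h6 y hy
      · exact (h6 x hx).symm
      · exact hDq x hx y hy hxy
    have h6 := h.mc.clq_lt (Finset.insert_subset hbX ((hD.trans hS.hT).trans h.hpX)) h4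
    rw [Finset.card_insert_of_notMem hbD] at h6
    omega
  have h' := h.swappt
  have hrtY3 : ∀ {w : V}, w ∈ ((X \ B).erase t) \ insert p (insert rt R) ↔
      w ∈ X \ B ∧ w ≠ t ∧ w ≠ p ∧ w ≠ rt ∧ w ∉ R := h'.mem_y2
  by_cases hq2 : 2 ≤ (nb Gᶜ T1 r1).card
  · -- the centre misses at least two vertices
    have hd1 := h.mc.star0 h.hpX h.hpne (by rw [h.xp.hps]; norm_num) hS hq2
    rw [← hR1] at hd1
    have htb : ∀ y ∈ X \ B, y ≠ p → G.Adj a y ∨ G.Adj b y → y = r1 ∨ y ∈ R1 := by
      intro y hy hyp hyab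
      by_cases e : y = r1
      · exact Or.inl e
      · exact Or.inr (by rw [hR1]; exact mem_erase.2 ⟨e, hT1conv y hy hyp hyab⟩)
    obtain ⟨β, hβ, hβa⟩ := hbclq R1 hR1T hR1c hq
    have hβQ := mem_erase.1 (hR1sub hβ)
    have hβt : β ≠ t := fun e => htT1 (e ▸ hR1T hβ)
    by_cases e1 : β = rp
    · obtain ⟨w, hw, hwne⟩ := Finset.exists_mem_ne (by omega : 1 < R1.card) rp
      have hR1Y : ∀ u ∈ R1, u ≠ rp → u ∈ ((X \ B).erase p) \ insert t (insert rp R) := by
        intro u hu hur
        have h4 := mem_erase.1 (hR1sub hu)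
        exact h.mem_y2.2 ⟨h4.2, h4.1, fun e => htT1 (e ▸ hR1T hu), hur, hno1 u hu⟩
      have hrpR : rp ∈ R1 := e1 ▸ hβ
      refine h.viaC h5 hpX (R' := R1.erase rp) (w := w) (g := r1) (hR1Y w hw hwne)
        (hq rp hrpR w hw (Ne.symm hwne)) (hd1 w hw) ?_ ?_ ?_ ?_ ?_
      · rw [Finset.card_erase_of_mem hrpR]
        omega
      · intro u hu
        rw [mem_erase] at hu
        exact hR1Y u hu.2 hu.1
      · intro u hu
        rw [mem_erase] at hu
        exact hq rp hrpR u hu.2 (Ne.symm hu.1)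
      · intro u hu
        rw [mem_erase] at hu
        by_cases e : u = w
        · exact Or.inl e
        · exact Or.inr (hq w hw u hu.2 (Ne.symm e))
      · intro y hy hyab
        have h8 := h.mem_y2.1 hy
        rcases htb y h8.1 h8.2.1 hyab with e | e
        · exact Or.inl e
        · by_cases e' : y = w
          · exact Or.inr (Or.inl e')
          · exact Or.inr (Or.inr (hq w hw y e (Ne.symm e')))
    by_cases e2 : β = rt
    · obtain ⟨w, hw, hwne⟩ : ∃ w ∈ R1.erase rp, w ≠ rt := by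
        refine Finset.exists_mem_ne ?_ rt
        have := Finset.pred_card_le_card_erase (s := R1) (a := rp)
        omega
      rw [mem_erase] at hw
      have hR1Y : ∀ u ∈ R1, u ≠ rt → u ∈ ((X \ B).erase t) \ insert p (insert rt R) := by
        intro u hu hur
        have h4 := mem_erase.1 (hR1sub hu)
        exact hrtY3.2 ⟨h4.2, fun e => htT1 (e ▸ hR1T hu), h4.1, hur, hno1 u hu⟩
      have hrtR : rt ∈ R1 := e2 ▸ hβ
      have hwQ := mem_erase.1 (hR1sub hw.2)
      have hwd : (nb G ((X \ B).erase t) w).card + 1 = k := by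
        rw [h.nbpt hwQ.2 hwQ.1 (fun e => htT1 (e ▸ hR1T hw.2)) (hno1 w hw.2) hw.1 hwne]
        exact hd1 w hw.2
      refine h'.viaC h5 hpX (R' := R1.erase rt) (w := w) (g := r1) (hR1Y w hw.2 hwne)
        (hq rt hrtR w hw.2 (Ne.symm hwne)) hwd ?_ ?_ ?_ ?_ ?_
      · rw [Finset.card_erase_of_mem hrtR]
        omega
      · intro u hu
        rw [mem_erase] at hu
        exact hR1Y u hu.2 hu.1
      · intro u hu
        rw [mem_erase] at hu
        exact hq rt hrtR u hu.2 (Ne.symm hu.1)
      · intro u hu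
        rw [mem_erase] at hu
        by_cases e : u = w
        · exact Or.inl e
        · exact Or.inr (hq w hw.2 u hu.2 (Ne.symm e))
      · intro y hy hyab
        have h8 := hrtY3.1 hy
        rcases htb y h8.1 h8.2.2.1 hyab with e | e
        · exact Or.inl e
        · by_cases e' : y = w
          · exact Or.inr (Or.inl e')
          · exact Or.inr (Or.inr (hq w hw.2 y e (Ne.symm e')))
    · refine h.exch h5 hnbp h3 (β := β) (E := {r1, rt})
        (h.mem_y2.2 ⟨hβQ.2, hβQ.1, hβt, e1, hno1 β hβ⟩) e2 (hdab β hβQ.2 hβa) (by simp) ?_ ?_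
      · intro y hy hby
        have h8 := h.mem_y2.1 hy
        rcases htb y h8.1 h8.2.1 (Or.inr hby) with e | e
        · exact Or.inl (by rw [e]; exact mem_insert_self _ _)
        · by_cases e' : y = β
          · exact Or.inr (Or.inl e')
          · exact Or.inr (Or.inr (hq β hβ y e (Ne.symm e')))
      · have h6 := hd1 β hβ
        have h7 := Finset.card_le_two (a := r1) (b := rt)
        omega
  · -- the centre misses exactly one vertex
    have hq1 : (nb Gᶜ T1 r1).card = 1 := by
      have := hS.miss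
      omega
    obtain ⟨l, hl⟩ := Finset.card_eq_one.1 hq1
    have hl' := mem_nb.1 (by rw [hl]; exact mem_singleton_self _ : l ∈ nb Gᶜ T1 r1)
    have hln := (SimpleGraph.compl_adj _ _ _).1 hl'.2
    obtain ⟨M, hM⟩ : ∃ M, M = R1.erase l := ⟨_, rfl⟩
    have hlR1 : l ∈ R1 := by rw [hR1]; exact mem_erase.2 ⟨Ne.symm hln.1, hl'.1⟩
    have hMR : M ⊆ R1 := by rw [hM]; exact Finset.erase_subset _ _
    have hMc : M.card + 2 = k := by
      have : M.card + 1 = R1.card := by rw [hM]; exact Finset.card_erase_add_one hlR1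
      omega
    have hlM : l ∉ M := by rw [hM]; exact Finset.notMem_erase _ _
    have hrM : r1 ∉ M := fun e => hr1 (hMR e)
    have hMq : Clq G M := fun x hx y hy hxy => hq x (hMR hx) y (hMR hy) hxy
    have hMr : ∀ u ∈ M, G.Adj r1 u := by
      intro u hu
      by_contra hcon
      have h6 : u ∈ nb Gᶜ T1 r1 := mem_nb.2 ⟨hR1T (hMR hu),
        (SimpleGraph.compl_adj _ _ _).2 ⟨fun e => hrM (e ▸ hu), hcon⟩⟩
      rw [hl, mem_singleton] at h6
      exact hlM (h6 ▸ hu)
    have hMl : ∀ u ∈ M, G.Adj l u := by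
      intro u hu
      exact hq l hlR1 u (hMR hu) (fun e => hlM (e ▸ hu))
    have hTe : ∀ u, u ∈ T1 ↔ u ∈ insert r1 (insert l M) := by
      intro u
      rw [mem_insert, mem_insert, hM, mem_erase, hR1, mem_erase]
      constructor
      · intro hu
        by_cases e1 : u = r1
        · exact Or.inl e1
        · by_cases e2 : u = l
          · exact Or.inr (Or.inl e2)
          · exact Or.inr (Or.inr ⟨e2, e1, hu⟩)
      · rintro (e | e | e)
        · exact e ▸ hS.hr
        · exact e ▸ hl'.1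
        · exact e.2.2
    have hM1q : Clq G (insert r1 M) := by
      intro x hx y hy hxy
      rw [mem_insert] at hx hy
      rcases hx with rfl | hx <;> rcases hy with rfl | hy
      · exact absurd rfl hxy
      · exact hMr y hy
      · exact (hMr x hx).symm
      · exact hMq x hx y hy hxy
    have hM1T : insert r1 M ⊆ T1 := Finset.insert_subset hS.hr (hMR.trans hR1T)
    have hM1c : (insert r1 M).card + 1 = k := by
      rw [Finset.card_insert_of_notMem hrM]
      exact hMc
    have hnoT : ∀ u ∈ T1, u ∉ R := by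
      intro u hu
      rw [hTe, mem_insert, mem_insert] at hu
      rcases hu with e | e | e
      · exact hno _ hM1T hM1c hM1q u (e ▸ mem_insert_self _ _)
      · exact hno1 u (e ▸ hlR1)
      · exact hno1 u (hMR e)
    -- degrees
    have hdeg : ∀ v ∈ (X \ B).erase p, k ≤ (nb G ((X \ B).erase p) v).card + 1 := by
      intro v hv
      have := h.tau.deg hv
      omega
    have hnn := hS.nonneg (h.mc.ps_sub h.hpX h.hpne T1)
    rw [h.xp.hps] at hnn
    have hlow := hS.low l (mem_nb.2 hl')
    have hel := exs_erase (G := G) (k := k - 1) (X := (X \ B).erase p) (S := T1.erase r1) (u := l)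
      (by rw [← hR1]; exact hlR1)
    rw [← hR1, ← hM] at hel
    rw [← hR1] at hnn
    obtain ⟨o, ho⟩ : ∃ o, (nb G ((X \ B).erase p) r1 \ T1).card = o := ⟨_, rfl⟩
    obtain ⟨eR, heR⟩ : ∃ e, exs G (k - 1) ((X \ B).erase p) R1 = e := ⟨_, rfl⟩
    obtain ⟨eM, heM⟩ : ∃ e, exs G (k - 1) ((X \ B).erase p) M = e := ⟨_, rfl⟩
    obtain ⟨dl, hdl⟩ : ∃ e, (nb G ((X \ B).erase p) l).card = e := ⟨_, rfl⟩
    rw [ho, heR] at hnn
    rw [ho, hdl] at hlow
    rw [heR, hdl, heM] at hel
    have hdl' := hdeg l (hT1Q l hl'.1)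
    rw [hdl] at hdl'
    have hnn' : o + eR + 1 ≤ k := by
      have : (o : ℤ) + eR + 1 ≤ k := by linarith
      exact_mod_cast this
    have heM1 : eM ≤ 1 := by omega
    have hdM : ∀ u ∈ M, (nb G ((X \ B).erase p) u).card ≤ k := by
      intro u hu
      have h6 := exs_erase (G := G) (k := k - 1) (X := (X \ B).erase p) (S := M) (u := u) hu
      rw [heM] at h6
      omega
    have hex : ∀ v : V, ∃ w ∈ M, w ≠ v ∧ (nb G ((X \ B).erase p) w).card + 1 = k := by
      intro v
      by_contra hcon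
      push Not at hcon
      have h6 : (M.erase v).card ≤ exs G (k - 1) ((X \ B).erase p) M := by
        refine le_trans ?_ (exs_mono (Finset.erase_subset v M))
        unfold exs
        rw [Finset.card_eq_sum_ones]
        refine Finset.sum_le_sum fun u hu => ?_
        rw [mem_erase] at hu
        have h7 := hcon u hu.2 hu.1
        have h8 := hdeg u (hR1sub (hMR hu.2))
        omega
      have h7 := Finset.pred_card_le_card_erase (s := M) (a := v)
      omega
    by_cases hrp : rp ∈ T1
    · obtain ⟨w, hw, hwr, hwd⟩ := hex rp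
      refine h.viaT h5 hpX (M := M) (r := r1) (l := l) (w := w) hMc hrM hMq hMr hMl ?_
        hln.1 hlM ((hTe rp).1 hrp) hw hwr hwd ?_
      · intro u hu hur
        have h6 := (hTe u).2 hu
        have h8 := mem_erase.1 (hT1Q u h6)
        exact h.mem_y2.2 ⟨h8.2, h8.1, fun e => htT1 (e ▸ h6), hur, hnoT u h6⟩
      · intro y hy hyab
        have h8 := h.mem_y2.1 hy
        exact (hTe y).1 (hT1conv y h8.1 h8.2.1 hyab)
    by_cases hrt : rt ∈ T1
    · obtain ⟨w, hw, hwr, hwd⟩ := hex rt
      have hwT := hR1T (hMR hw)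
      have hwQ := mem_erase.1 (hT1Q w hwT)
      refine h'.viaT h5 hpX (M := M) (r := r1) (l := l) (w := w) hMc hrM hMq hMr hMl ?_
        hln.1 hlM ((hTe rt).1 hrt) hw hwr ?_ ?_
      · intro u hu hur
        have h6 := (hTe u).2 hu
        have h8 := mem_erase.1 (hT1Q u h6)
        exact hrtY3.2 ⟨h8.2, fun e => htT1 (e ▸ h6), h8.1, hur, hnoT u h6⟩
      · rw [h.nbpt hwQ.2 hwQ.1 (fun e => htT1 (e ▸ hwT)) (hnoT w hwT)
          (fun e => hrp (e ▸ hwT)) hwr]
        exact hwd
      · intro y hy hyab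
        have h8 := hrtY3.1 hy
        exact (hTe y).1 (hT1conv y h8.1 h8.2.2.1 hyab)
    have hTY : ∀ u ∈ T1, u ∈ ((X \ B).erase p) \ insert t (insert rp R) := by
      intro u hu
      have h8 := mem_erase.1 (hT1Q u hu)
      exact h.mem_y2.2 ⟨h8.2, h8.1, fun e => htT1 (e ▸ hu), fun e => hrp (e ▸ hu), hnoT u hu⟩
    by_cases hβ : ∃ β ∈ M, G.Adj a β
    · obtain ⟨β, hβM, hβa⟩ := hβ
      have hβT := hR1T (hMR hβM)
      refine h.exch h5 hnbp h3 (β := β) (E := {rt}) (hTY β hβT) (fun e => hrt (e ▸ hβT))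
        (hdab β (mem_erase.1 (hT1Q β hβT)).2 hβa) (mem_singleton_self _) ?_ ?_
      · intro y hy hby
        have h8 := h.mem_y2.1 hy
        have h9 := (hTe y).1 (hT1conv y h8.1 h8.2.1 (Or.inr hby))
        rw [mem_insert, mem_insert] at h9
        rcases h9 with e | e | e
        · exact Or.inr (Or.inr (e ▸ (hMr β hβM).symm))
        · exact Or.inr (Or.inr (e ▸ (hMl β hβM).symm))
        · by_cases e' : y = β
          · exact Or.inr (Or.inl e')
          · exact Or.inr (Or.inr (hMq β hβM y e (Ne.symm e')))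
      · have h6 := hdM β hβM
        rw [Finset.card_singleton]
        omega
    · push Not at hβ
      have har : G.Adj a r1 := by
        obtain ⟨β, hβ1, hβ2⟩ := hbclq _ hM1T hM1c hM1q
        rw [mem_insert] at hβ1
        rcases hβ1 with e | e
        · exact e ▸ hβ2
        · exact absurd hβ2 (hβ β e)
      have hal : G.Adj a l := by
        obtain ⟨β, hβ1, hβ2⟩ := hbclq R1 hR1T hR1c hq
        by_cases e : β = l
        · exact e ▸ hβ2
        · exact absurd hβ2 (hβ β (by rw [hM]; exact mem_erase.2 ⟨e, hβ1⟩))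
      have hbr : ¬ G.Adj b r1 := hdab r1 (mem_erase.1 (hT1Q r1 hS.hr)).2 har
      have hbl : ¬ G.Adj b l := hdab l (mem_erase.1 (hT1Q l hl'.1)).2 hal
      have hbM : ∀ y ∈ ((X \ B).erase p) \ insert t (insert rp R), G.Adj b y → y ∈ M := by
        intro y hy hby
        have h8 := h.mem_y2.1 hy
        have h9 := (hTe y).1 (hT1conv y h8.1 h8.2.1 (Or.inr hby))
        rw [mem_insert, mem_insert] at h9
        rcases h9 with e | e | e
        · exact absurd (e ▸ hby) hbr
        · exact absurd (e ▸ hby) hbl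
        · exact e
      have hdr : (nb G ((X \ B).erase p) r1).card ≤ M.card + o := by
        have h6 : nb G ((X \ B).erase p) r1 ⊆ M ∪ (nb G ((X \ B).erase p) r1 \ T1) := by
          intro v hv
          rw [mem_union, mem_sdiff]
          by_cases e : v ∈ T1
          · left
            rw [hTe, mem_insert, mem_insert] at e
            rcases e with e | e | e
            · exact absurd (e ▸ (mem_nb.1 hv).2) (G.loopless.irrefl _)
            · exact absurd (e ▸ (mem_nb.1 hv).2) hln.2
            · exact e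
          · exact Or.inr ⟨hv, e⟩
        have h7 := Finset.card_le_card h6
        have h8 := Finset.card_union_le M (nb G ((X \ B).erase p) r1 \ T1)
        omega
      by_cases hz : (nb G ((X \ B).erase p) r1).card + 4 ≤ 2 * k
      · refine h.exch h5 hnbp h3 (β := r1) (E := {rt}) (hTY r1 hS.hr) (fun e => hrt (e ▸ hS.hr))
          hbr (mem_singleton_self _) ?_ ?_
        · intro y hy hby
          exact Or.inr (Or.inr (hMr y (hbM y hy hby)))
        · rw [Finset.card_singleton]
          omega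
      · refine h.exch h5 hnbp h3 (β := l) (E := {rt}) (hTY l hl'.1) (fun e => hrt (e ▸ hl'.1))
          hbl (mem_singleton_self _) ?_ ?_
        · intro y hy hby
          exact Or.inr (Or.inr (hMl y (hbM y hy hby)))
        · rw [Finset.card_singleton, hdl]
          omega

/-- Case II with one vertex missing is impossible if `a` is adjacent to `p` -/
theorem x125 (h5 : 5 ≤ k) (hpX : ps G k X = -2) (h1 : G.Adj a p) : False := by
  by_cases h2 : G.Adj a t
  · exact h.x15 h5 hpX h1 (Or.inl h2)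
  · by_cases h3 : G.Adj b t
    · exact h.x15 h5 hpX h1 (Or.inr h3)
    · exact h.x25 h5 hpX h1 h2 h3

/-- Case II with one vertex missing is impossible for `k ≥ 5` -/
theorem false5 (h5 : 5 ≤ k) (hpX : ps G k X = -2) : False := by
  by_cases h1 : G.Adj a p
  · exact h.x125 h5 hpX h1
  by_cases h2 : G.Adj a t
  · exact h.swappt.x125 h5 hpX h2
  by_cases h3 : G.Adj b p
  · exact h.swapab.x125 h5 hpX h3
  by_cases h4 : G.Adj b t
  · exact h.swapab.swappt.x125 h5 hpX h4
  exact h.x05 h5 h1 h2 h3 h4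

end XC

end Pool.Agent.TwoDens.TS
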